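import Pool.Agent.Lib_helper74.CCF.EmbT

/-!
# EMBW: embeddings of strips with bypass edges from local embeddings (MP_198240_co)
-/

namespace Pool.Agent.CC

open Gph

namespace EMBW

open EMBT

/-- The right end of the bypass edge coming in, as a local end. -/
def blE (L : Loc) : L.V ⊕ Bool :=
  match L.bl with
  | none => .inr true
  | some v => .inl v

/-- The left end of the bypass edge going out, as a local end. -/
def brE (L : Loc) : L.V ⊕ Bool :=
  match L.br with
  | none => .inr false
  | some v => .inl v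

/-- The bypass part of a local embedding. `bm`: the chain from the new to the image of the old end
of the bypass edge coming in, `dm`: the same for the one going out. -/
structure BEmb {L L' : Loc} (D : LEmb L L') where
  bm : Finset L'.E
  dm : Finset L'.E
  eob : L'.E → Option Bool
  vob : L'.V → Option Bool
  bdb : ∀ (g : L'.V ⊕ Bool → ZMod 2), ∑ f ∈ bm, (g (L'.a f) + g (L'.b f)) =
    g (blE L') + g (Sum.map D.v id (blE L))
  bdd : ∀ (g : L'.V ⊕ Bool → ZMod 2), ∑ f ∈ dm, (g (L'.a f) + g (L'.b f)) =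
    g (Sum.map D.v id (brE L)) + g (brE L')
  eobm : ∀ f ∈ bm, eob f = some false
  eodm : ∀ f ∈ dm, eob f = some true
  eoc : ∀ f, D.eo f ≠ none → eob f = none
  vov : ∀ u, vob (D.v u) = none
  voc : ∀ y, D.vo y ≠ none → vob y = none
  tb : ∀ f ∈ bm, ∀ x, (L'.a f = x ∨ L'.b f = x) → x = Sum.map D.v id (blE L) ∨
    (∃ y, x = .inl y ∧ vob y = some false)
  td : ∀ f ∈ dm, ∀ x, (L'.a f = x ∨ L'.b f = x) → x = Sum.map D.v id (brE L) ∨
    (∃ y, x = .inl y ∧ vob y = some true)
  tbl : blE L' = Sum.map D.v id (blE L) ∨ (∃ y, blE L' = .inl y ∧ vob y = some false)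
  tbr : brE L' = Sum.map D.v id (brE L) ∨ (∃ y, brE L' = .inl y ∧ vob y = some true)

/-- If the ends of the bypass edges are mapped to each other nothing is needed. -/
def BEmb.triv {L L' : Loc} (D : LEmb L L') (h1 : blE L' = Sum.map D.v id (blE L))
    (h2 : brE L' = Sum.map D.v id (brE L)) : BEmb D where
  bm := ∅
  dm := ∅
  eob := fun _ => none
  vob := fun _ => none
  bdb := by
    intro g
    rw [Finset.sum_empty, h1]
    exact (CharTwo.add_self_eq_zero _).symm
  bdd := by
    intro g
    rw [Finset.sum_empty, h2]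
    exact (CharTwo.add_self_eq_zero _).symm
  eobm := fun f hf => absurd hf (Finset.notMem_empty f)
  eodm := fun f hf => absurd hf (Finset.notMem_empty f)
  eoc := fun _ _ => rfl
  vov := fun _ => rfl
  voc := fun _ _ => rfl
  tb := fun f hf => absurd hf (Finset.notMem_empty f)
  td := fun f hf => absurd hf (Finset.notMem_empty f)
  tbl := .inl h1
  tbr := .inl h2

variable {N : ℕ} [NeZero N]

omit [NeZero N] in
theorem byL_eq (L : ZMod N → Loc) (j : ZMod N) : byL L j = locEnd L j (brE (L j)) := by
  unfold byL brE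
  cases (L j).br <;> rfl

omit [NeZero N] in
theorem byR_eq (L : ZMod N → Loc) (j : ZMod N) :
    byR L j = locEnd L (j + 1) (blE (L (j + 1))) := by
  unfold byR blE
  cases (L (j + 1)).bl <;> rfl

/-- The owner in the strip. -/
def liftc (L : ZMod N → Loc) (c : Bool) (j : ZMod N) :
    Option ((L j).E ⊕ Bool) → Option (strip L c).E
  | none => none
  | some (.inl e) => some (.inl ⟨j, e⟩)
  | some (.inr false) => some (.inr (.inl (j - 1)))
  | some (.inr true) => some (.inr (.inl j))

/-- The owner of the bypass chains. -/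
def byO (L : ZMod N → Loc) (c : Bool) (j : ZMod N) : Option (strip L c).E :=
  if h : c = true then some (.inr (.inr ⟨j, h⟩)) else none

/-- Both together. -/
def own (L : ZMod N → Loc) (c : Bool) (j : ZMod N) (o : Option ((L j).E ⊕ Bool)) :
    Option Bool → Option (strip L c).E
  | none => liftc L c j o
  | some false => byO L c (j - 1)
  | some true => byO L c j

variable {L L' : ZMod N → Loc}

/-- The chains of the strip embedding. -/
def bC (D : ∀ j, LEmb (L j) (L' j)) (B : ∀ j, BEmb (D j)) (c : Bool) :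
    (strip L c).E → Finset (strip L' true).E
  | .inl ⟨j, e⟩ => ((D j).c e).image (fun f => (Sum.inl ⟨j, f⟩ : (strip L' true).E))
  | .inr (.inl j) => ((D j).xm.image (fun f => (Sum.inl ⟨j, f⟩ : (strip L' true).E))) ∪
      ({(Sum.inr (Sum.inl j) : (strip L' true).E)} ∪
        ((D (j + 1)).nm.image (fun f => (Sum.inl ⟨j + 1, f⟩ : (strip L' true).E))))
  | .inr (.inr j) => ((B j.1).dm.image (fun f => (Sum.inl ⟨j.1, f⟩ : (strip L' true).E))) ∪
      ({(Sum.inr (Sum.inr ⟨j.1, rfl⟩) : (strip L' true).E)} ∪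
        ((B (j.1 + 1)).bm.image (fun f => (Sum.inl ⟨j.1 + 1, f⟩ : (strip L' true).E))))

/-- The vertex map. -/
def bV (D : ∀ j, LEmb (L j) (L' j)) (c : Bool) : (strip L c).V → (strip L' true).V
  | .inl j => .inl j
  | .inr ⟨j, u⟩ => .inr ⟨j, (D j).v u⟩

/-- The edge owners. -/
def bEo (D : ∀ j, LEmb (L j) (L' j)) (B : ∀ j, BEmb (D j)) (c : Bool) :
    (strip L' true).E → Option (strip L c).E
  | .inl ⟨j, f⟩ => own L c j ((D j).eo f) ((B j).eob f)
  | .inr (.inl j) => some (.inr (.inl j))
  | .inr (.inr j) => byO L c j.1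

/-- The vertex owners. -/
def bVo (D : ∀ j, LEmb (L j) (L' j)) (B : ∀ j, BEmb (D j)) (c : Bool) :
    (strip L' true).V → Option (strip L c).E
  | .inl _ => none
  | .inr ⟨j, u⟩ => own L c j ((D j).vo u) ((B j).vob u)

theorem bV_locEnd (D : ∀ j, LEmb (L j) (L' j)) (c : Bool) (j : ZMod N) (u : (L j).V ⊕ Bool) :
    bV D c (locEnd L j u) = locEnd L' j (Sum.map (D j).v id u) := by
  rcases u with u | u
  · rfl
  · cases u <;> rfl

theorem mem_bC_loc (D : ∀ j, LEmb (L j) (L' j)) (B : ∀ j, BEmb (D j)) (c : Bool) (j : ZMod N)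
    (e : (L j).E) (f : (strip L' true).E) : f ∈ bC D B c (.inl ⟨j, e⟩) ↔
      ∃ f' ∈ (D j).c e, (Sum.inl ⟨j, f'⟩ : (strip L' true).E) = f :=
  Finset.mem_image

theorem mem_bC_row (D : ∀ j, LEmb (L j) (L' j)) (B : ∀ j, BEmb (D j)) (c : Bool) (j : ZMod N)
    (f : (strip L' true).E) : f ∈ bC D B c (.inr (.inl j)) ↔
      (∃ f' ∈ (D j).xm, (Sum.inl ⟨j, f'⟩ : (strip L' true).E) = f) ∨ f = .inr (.inl j) ∨
      (∃ f' ∈ (D (j + 1)).nm, (Sum.inl ⟨j + 1, f'⟩ : (strip L' true).E) = f) :=
  Finset.mem_union.trans (or_congr Finset.mem_image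
    (Finset.mem_union.trans (or_congr Finset.mem_singleton Finset.mem_image)))

theorem mem_bC_by (D : ∀ j, LEmb (L j) (L' j)) (B : ∀ j, BEmb (D j)) (c : Bool)
    (j : {_j : ZMod N // c = true})
    (f : (strip L' true).E) : f ∈ bC D B c (.inr (.inr j)) ↔
      (∃ f' ∈ (B j.1).dm, (Sum.inl ⟨j.1, f'⟩ : (strip L' true).E) = f) ∨
      f = .inr (.inr ⟨j.1, rfl⟩) ∨
      (∃ f' ∈ (B (j.1 + 1)).bm, (Sum.inl ⟨j.1 + 1, f'⟩ : (strip L' true).E) = f) :=
  Finset.mem_union.trans (or_congr Finset.mem_image
    (Finset.mem_union.trans (or_congr Finset.mem_singleton Finset.mem_image)))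

/-- The sum over a chain of three pieces. -/
theorem sum_three (hN : (1 : ZMod N) ≠ 0) (j : ZMod N) (s : Finset (L' j).E)
    (t : Finset (L' (j + 1)).E) (m : (strip L' true).E) (hm : ∃ x, m = .inr x)
    (g : (strip L' true).V → ZMod 2) (A A' B B' : ZMod 2)
    (h1 : ∑ f ∈ s, (g (locEnd L' j ((L' j).a f)) + g (locEnd L' j ((L' j).b f))) = A + A')
    (h2 : ∑ f ∈ t, (g (locEnd L' (j + 1) ((L' (j + 1)).a f)) +
      g (locEnd L' (j + 1) ((L' (j + 1)).b f))) = B' + B)
    (h3 : g ((strip L' true).a m) + g ((strip L' true).b m) = A' + B') :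
    ∑ f ∈ (s.image (fun f => (Sum.inl ⟨j, f⟩ : (strip L' true).E))) ∪
      (({m} : Finset (strip L' true).E) ∪
        (t.image (fun f => (Sum.inl ⟨j + 1, f⟩ : (strip L' true).E)))),
      (g ((strip L' true).a f) + g ((strip L' true).b f)) = A + B := by
  have hinj : ∀ j : ZMod N, Function.Injective
      (fun f => (Sum.inl ⟨j, f⟩ : (strip L' true).E)) := by
    intro j f f' h
    simpa using h
  have hj : j + 1 ≠ j := by
    intro h
    exact hN (by simpa using h)
  have d1 : Disjoint ({m} : Finset (strip L' true).E)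
      (t.image (fun f => (Sum.inl ⟨j + 1, f⟩ : (strip L' true).E))) := by
    obtain ⟨x, rfl⟩ := hm
    refine Finset.disjoint_left.2 ?_
    intro x hx hx'
    obtain ⟨y, _, hy⟩ := Finset.mem_image.1 hx'
    have hx := Finset.mem_singleton.1 hx
    rw [hx] at hy
    exact absurd hy (by simp)
  have d2 : Disjoint (s.image (fun f => (Sum.inl ⟨j, f⟩ : (strip L' true).E)))
      (({m} : Finset (strip L' true).E) ∪
        (t.image (fun f => (Sum.inl ⟨j + 1, f⟩ : (strip L' true).E)))) := by
    obtain ⟨x, rfl⟩ := hm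
    refine Finset.disjoint_left.2 ?_
    intro x hx hx'
    obtain ⟨f, _, rfl⟩ := Finset.mem_image.1 hx
    rcases Finset.mem_union.1 hx' with hx' | hx'
    · exact absurd (Finset.mem_singleton.1 hx') (by simp)
    · obtain ⟨f', _, hx'⟩ := Finset.mem_image.1 hx'
      exact hj (congrArg Sigma.fst (Sum.inl.inj hx'))
  calc _ = ∑ f ∈ s.image (fun f => (Sum.inl ⟨j, f⟩ : (strip L' true).E)),
          (g ((strip L' true).a f) + g ((strip L' true).b f)) +
        (∑ f ∈ ({m} : Finset (strip L' true).E),
          (g ((strip L' true).a f) + g ((strip L' true).b f)) +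
        ∑ f ∈ t.image (fun f => (Sum.inl ⟨j + 1, f⟩ : (strip L' true).E)),
          (g ((strip L' true).a f) + g ((strip L' true).b f))) :=
        (Finset.sum_union d2).trans (congrArg _ (Finset.sum_union d1))
    _ = (A + A') + ((A' + B') + (B' + B)) := by
        refine congrArg₂ _ ?_ (congrArg₂ _ ?_ ?_)
        · exact (Finset.sum_image (fun x _ y _ h => hinj j h)).trans h1
        · exact (Finset.sum_singleton _ _).trans h3
        · exact (Finset.sum_image (fun x _ y _ h => hinj (j + 1) h)).trans h2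
    _ = A + B := by
        have t1 := CharTwo.add_self_eq_zero A'
        have t2 := CharTwo.add_self_eq_zero B'
        linear_combination t1 + t2

theorem own_of_lift (c : Bool) (j : ZMod N) {o : Option ((L j).E ⊕ Bool)} {b : Option Bool}
    (h : b = none) : own L c j o b = liftc L c j o := by
  subst h
  rfl

theorem exists_strip_bemb (hN : (1 : ZMod N) ≠ 0) (D : ∀ j, LEmb (L j) (L' j))
    (B : ∀ j, BEmb (D j)) (c : Bool) :
    ∃ φ : TEmb (strip L c) (strip L' true), φ.c = bC D B c := by
  refine exists_TEmb_of_owner (bV D c) ?_ (bC D B c) ?_ (bEo D B c) ?_ (bVo D B c) ?_ ?_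
  · intro x y h
    rcases x with x | ⟨j, x⟩ <;> rcases y with y | ⟨k, y⟩
    · have h' : (Sum.inl x : ZMod N ⊕ (Σ j, (L' j).V)) = .inl y := h
      rw [Sum.inl.inj h']
    · exact absurd (show (Sum.inl x : ZMod N ⊕ (Σ j, (L' j).V)) = .inr ⟨k, (D k).v y⟩ from h)
        (by simp)
    · exact absurd (show (Sum.inr ⟨j, (D j).v x⟩ : ZMod N ⊕ (Σ j, (L' j).V)) = .inl y from h)
        (by simp)
    · have h' : (Sum.inr ⟨j, (D j).v x⟩ : ZMod N ⊕ (Σ j, (L' j).V)) = .inr ⟨k, (D k).v y⟩ := h
      have h2 := Sum.inr.inj h'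
      have h3 : j = k := congrArg Sigma.fst h2
      subst h3
      have h4 : (D j).v x = (D j).v y := by
        have := (Sigma.mk.injEq _ _ _ _).mp h2
        exact eq_of_heq this.2
      rw [(D j).v_inj h4]
  · intro e g
    rcases e with ⟨j, e⟩ | j | ⟨j, hc⟩
    · have hinj : Function.Injective (fun f => (Sum.inl ⟨j, f⟩ : (strip L' true).E)) := by
        intro f f' h
        simpa using h
      show ∑ f ∈ ((D j).c e).image (fun f => (Sum.inl ⟨j, f⟩ : (strip L' true).E)), _ =
        g (bV D c (locEnd L j ((L j).a e))) + g (bV D c (locEnd L j ((L j).b e)))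
      rw [Finset.sum_image (fun x _ y _ h => hinj h), bV_locEnd, bV_locEnd]
      exact (D j).bdc e (fun x => g (locEnd L' j x))
    · exact sum_three hN j _ _ _ ⟨_, rfl⟩ g _ _ _ _ ((D j).bdx (fun x => g (locEnd L' j x)))
        ((D (j + 1)).bdn (fun x => g (locEnd L' (j + 1) x))) rfl
    · have h := sum_three hN j (B j).dm (B (j + 1)).bm (.inr (.inr ⟨j, rfl⟩)) ⟨_, rfl⟩ g _ _ _ _
        ((B j).bdd (fun x => g (locEnd L' j x)))
        ((B (j + 1)).bdb (fun x => g (locEnd L' (j + 1) x)))
        (by
          show g (byL L' j) + g (byR L' j) = _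
          rw [byL_eq, byR_eq])
      show _ = g (bV D c (byL L j)) + g (bV D c (byR L j))
      rw [byL_eq, byR_eq, bV_locEnd, bV_locEnd]
      exact h
  · intro e f hf
    rcases e with ⟨j, e⟩ | j | ⟨j, hc⟩
    · rw [mem_bC_loc] at hf
      obtain ⟨f, hf, rfl⟩ := hf
      have h := (D j).eoc e f hf
      show own L c j ((D j).eo f) ((B j).eob f) = _
      rw [own_of_lift c j ((B j).eoc f (by rw [h]; exact Option.some_ne_none _)), h]
      rfl
    · rw [mem_bC_row] at hf
      rcases hf with ⟨f, hf, rfl⟩ | rfl | ⟨f, hf, rfl⟩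
      · have h := (D j).eox f hf
        show own L c j ((D j).eo f) ((B j).eob f) = _
        rw [own_of_lift c j ((B j).eoc f (by rw [h]; exact Option.some_ne_none _)), h]
        rfl
      · rfl
      · have h := (D (j + 1)).eon f hf
        show own L c (j + 1) ((D (j + 1)).eo f) ((B (j + 1)).eob f) = _
        rw [own_of_lift c (j + 1) ((B (j + 1)).eoc f (by rw [h]; exact Option.some_ne_none _)), h]
        simp only [liftc, add_sub_cancel_right]
    · subst hc
      rw [mem_bC_by] at hf
      rcases hf with ⟨f, hf, rfl⟩ | rfl | ⟨f, hf, rfl⟩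
      · show own L true j ((D j).eo f) ((B j).eob f) = _
        rw [(B j).eodm f hf]
        simp [own, byO]
      · simp [bEo, byO]
      · show own L true (j + 1) ((D (j + 1)).eo f) ((B (j + 1)).eob f) = _
        rw [(B (j + 1)).eobm f hf]
        simp [own, byO]
  · intro u
    rcases u with u | ⟨j, u⟩
    · rfl
    · show own L c j ((D j).vo ((D j).v u)) ((B j).vob ((D j).v u)) = none
      rw [(B j).vov, (D j).vov]
      rfl
  · intro e f hf x hx
    have loc : ∀ (j : ZMod N) (f : (L' j).E),
        ((strip L' true).a (Sum.inl ⟨j, f⟩) = x ∨ (strip L' true).b (Sum.inl ⟨j, f⟩) = x) →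
        ∃ y, x = locEnd L' j y ∧ ((L' j).a f = y ∨ (L' j).b f = y) := by
      intro j f hx
      rcases hx with hx | hx
      · exact ⟨_, hx.symm, .inl rfl⟩
      · exact ⟨_, hx.symm, .inr rfl⟩
    rcases e with ⟨j, e⟩ | j | ⟨j, hc⟩
    · rw [mem_bC_loc] at hf
      obtain ⟨f, hf, rfl⟩ := hf
      obtain ⟨y, rfl, hy⟩ := loc j f hx
      rcases (D j).tc e f hf y hy with ⟨u, hu, hu'⟩ | ⟨y', rfl, hy'⟩
      · left
        refine ⟨locEnd L j u, ?_, ?_⟩
        · rw [hu, bV_locEnd]
        · rcases hu' with hu' | hu'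
          · left
            rw [← hu']
            rfl
          · right
            rw [← hu']
            rfl
      · right
        show own L c j ((D j).vo y') ((B j).vob y') = _
        rw [own_of_lift c j ((B j).voc y' (by rw [hy']; exact Option.some_ne_none _)), hy']
        rfl
    · rw [mem_bC_row] at hf
      rcases hf with ⟨f, hf, rfl⟩ | rfl | ⟨f, hf, rfl⟩
      · obtain ⟨y, rfl, hy⟩ := loc j f hx
        rcases (D j).tx f hf y hy with rfl | ⟨y', rfl, hy'⟩
        · left
          exact ⟨.inr ⟨j, (L j).ex⟩, rfl, .inl rfl⟩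
        · right
          show own L c j ((D j).vo y') ((B j).vob y') = _
          rw [own_of_lift c j ((B j).voc y' (by rw [hy']; exact Option.some_ne_none _)), hy']
          rfl
      · rcases hx with rfl | rfl
        · rcases (D j).tex with h | h
          · left
            refine ⟨.inr ⟨j, (L j).ex⟩, ?_, .inl rfl⟩
            show (Sum.inr ⟨j, (L' j).ex⟩ : (strip L' true).V) = .inr ⟨j, (D j).v (L j).ex⟩
            rw [h]
          · right
            show own L c j ((D j).vo (L' j).ex) ((B j).vob (L' j).ex) = _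
            rw [own_of_lift c j ((B j).voc _ (by rw [h]; exact Option.some_ne_none _)), h]
            rfl
        · rcases (D (j + 1)).ten with h | h
          · left
            refine ⟨.inr ⟨j + 1, (L (j + 1)).en⟩, ?_, .inr rfl⟩
            show (Sum.inr ⟨j + 1, (L' (j + 1)).en⟩ : (strip L' true).V) =
              .inr ⟨j + 1, (D (j + 1)).v (L (j + 1)).en⟩
            rw [h]
          · right
            show own L c (j + 1) ((D (j + 1)).vo (L' (j + 1)).en)
              ((B (j + 1)).vob (L' (j + 1)).en) = _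
            rw [own_of_lift c (j + 1)
              ((B (j + 1)).voc _ (by rw [h]; exact Option.some_ne_none _)), h]
            simp only [liftc, add_sub_cancel_right]
      · obtain ⟨y, rfl, hy⟩ := loc (j + 1) f hx
        rcases (D (j + 1)).tn f hf y hy with rfl | ⟨y', rfl, hy'⟩
        · left
          exact ⟨.inr ⟨j + 1, (L (j + 1)).en⟩, rfl, .inr rfl⟩
        · right
          show own L c (j + 1) ((D (j + 1)).vo y') ((B (j + 1)).vob y') = _
          rw [own_of_lift c (j + 1)
            ((B (j + 1)).voc _ (by rw [hy']; exact Option.some_ne_none _)), hy']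
          simp only [liftc, add_sub_cancel_right]
    · subst hc
      have ha : (strip L true).a (Sum.inr (Sum.inr ⟨j, rfl⟩)) = locEnd L j (brE (L j)) :=
        byL_eq L j
      have hb : (strip L true).b (Sum.inr (Sum.inr ⟨j, rfl⟩)) =
          locEnd L (j + 1) (blE (L (j + 1))) := byR_eq L j
      have o1 : byO L true j = some (Sum.inr (Sum.inr ⟨j, rfl⟩)) := dif_pos rfl
      have o2 : byO L true (j + 1 - 1) = some (Sum.inr (Sum.inr ⟨j, rfl⟩)) := by
        rw [add_sub_cancel_right, o1]
      have left1 : ∀ z, z = locEnd L' j (Sum.map (D j).v id (brE (L j))) →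
          ∃ u, z = bV D true u ∧ ((strip L true).a (Sum.inr (Sum.inr ⟨j, rfl⟩)) = u ∨
            (strip L true).b (Sum.inr (Sum.inr ⟨j, rfl⟩)) = u) := by
        intro z hz
        exact ⟨_, by rw [hz, bV_locEnd], .inl ha⟩
      have left2 : ∀ z, z = locEnd L' (j + 1) (Sum.map (D (j + 1)).v id (blE (L (j + 1)))) →
          ∃ u, z = bV D true u ∧ ((strip L true).a (Sum.inr (Sum.inr ⟨j, rfl⟩)) = u ∨
            (strip L true).b (Sum.inr (Sum.inr ⟨j, rfl⟩)) = u) := by
        intro z hz
        exact ⟨_, by rw [hz, bV_locEnd], .inr hb⟩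
      rw [mem_bC_by] at hf
      rcases hf with ⟨f, hf, rfl⟩ | rfl | ⟨f, hf, rfl⟩
      · obtain ⟨y, rfl, hy⟩ := loc j f hx
        rcases (B j).td f hf y hy with rfl | ⟨y', rfl, hy'⟩
        · left
          exact left1 _ rfl
        · right
          show own L true j ((D j).vo y') ((B j).vob y') = _
          rw [hy']
          exact o1
      · rcases hx with rfl | rfl
        · have hx : (strip L' true).a (Sum.inr (Sum.inr ⟨j, rfl⟩)) = locEnd L' j (brE (L' j)) :=
            byL_eq L' j
          rw [hx]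
          rcases (B j).tbr with h | ⟨y, h, hy⟩
          · left
            rw [h]
            exact left1 _ rfl
          · right
            rw [h]
            show own L true j ((D j).vo y) ((B j).vob y) = _
            rw [hy]
            exact o1
        · have hx : (strip L' true).b (Sum.inr (Sum.inr ⟨j, rfl⟩)) =
            locEnd L' (j + 1) (blE (L' (j + 1))) := byR_eq L' j
          rw [hx]
          rcases (B (j + 1)).tbl with h | ⟨y, h, hy⟩
          · left
            rw [h]
            exact left2 _ rfl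
          · right
            rw [h]
            show own L true (j + 1) ((D (j + 1)).vo y) ((B (j + 1)).vob y) = _
            rw [hy]
            exact o2
      · obtain ⟨y, rfl, hy⟩ := loc (j + 1) f hx
        rcases (B (j + 1)).tb f hf y hy with rfl | ⟨y', rfl, hy'⟩
        · left
          exact left2 _ rfl
        · right
          show own L true (j + 1) ((D (j + 1)).vo y') ((B (j + 1)).vob y') = _
          rw [hy']
          exact o2

/-- The local edge `e` of region `j` is avoided. -/
theorem notMem_bC (D : ∀ j, LEmb (L j) (L' j)) (B : ∀ j, BEmb (D j)) (c : Bool) (j : ZMod N)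
    (e : (L' j).E) (he : (D j).Avoid e) (hb : c = true → e ∉ (B j).bm)
    (hd : c = true → e ∉ (B j).dm) (f : (strip L c).E) :
    (Sum.inl ⟨j, e⟩ : (strip L' true).E) ∉ bC D B c f := by
  obtain ⟨h1, h2, h3⟩ := he
  rcases f with ⟨k, f⟩ | k | k
  · intro hm
    obtain ⟨x, hx, h⟩ := (mem_bC_loc D B c k f _).1 hm
    have h := (Sigma.mk.injEq _ _ _ _).mp (Sum.inl.inj h)
    obtain ⟨rfl, h⟩ := h
    rw [heq_eq_eq] at h
    subst h
    exact h1 f hx
  · intro hm
    rcases (mem_bC_row D B c k _).1 hm with ⟨x, hx, h⟩ | h | ⟨x, hx, h⟩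
    · have h := (Sigma.mk.injEq _ _ _ _).mp (Sum.inl.inj h)
      obtain ⟨rfl, h⟩ := h
      rw [heq_eq_eq] at h
      subst h
      exact h3 hx
    · exact absurd h (by simp)
    · have h := (Sigma.mk.injEq _ _ _ _).mp (Sum.inl.inj h)
      obtain ⟨rfl, h⟩ := h
      rw [heq_eq_eq] at h
      subst h
      exact h2 hx
  · intro hm
    obtain ⟨k, hc⟩ := k
    rcases (mem_bC_by D B c ⟨k, hc⟩ _).1 hm with ⟨x, hx, h⟩ | h | ⟨x, hx, h⟩
    · have h := (Sigma.mk.injEq _ _ _ _).mp (Sum.inl.inj h)
      obtain ⟨rfl, h⟩ := h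
      rw [heq_eq_eq] at h
      subst h
      exact hd hc hx
    · exact absurd h (by simp)
    · have h := (Sigma.mk.injEq _ _ _ _).mp (Sum.inl.inj h)
      obtain ⟨rfl, h⟩ := h
      rw [heq_eq_eq] at h
      subst h
      exact hb hc hx

/-- Bypass edges are not used if `c = false`. -/
theorem notMem_bC_by (D : ∀ j, LEmb (L j) (L' j)) (B : ∀ j, BEmb (D j))
    (j : {_j : ZMod N // true = true}) (f : (strip L false).E) :
    (Sum.inr (Sum.inr j) : (strip L' true).E) ∉ bC D B false f := by
  rcases f with ⟨k, f⟩ | k | ⟨k, hc⟩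
  · intro hm
    obtain ⟨x, hx, h⟩ := (mem_bC_loc D B false k f _).1 hm
    exact absurd h (by simp)
  · intro hm
    rcases (mem_bC_row D B false k _).1 hm with ⟨x, hx, h⟩ | h | ⟨x, hx, h⟩
    · exact absurd h (by simp)
    · have h2 : (Sum.inr j : ZMod N ⊕ {_j : ZMod N // true = true}) = Sum.inl k := Sum.inr.inj h
      exact absurd h2 (by simp)
    · exact absurd h (by simp)
  · exact absurd hc (by simp)

theorem strip_bemb_avoid (hN : (1 : ZMod N) ≠ 0) (D : ∀ j, LEmb (L j) (L' j))
    (B : ∀ j, BEmb (D j)) (c : Bool) (j : ZMod N) (e : (L' j).E) (he : (D j).Avoid e)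
    (hb : e ∉ (B j).bm) (hd : e ∉ (B j).dm) :
    ∃ φ : TEmb (strip L c) (strip L' true), ∀ f,
      (Sum.inl ⟨j, e⟩ : (strip L' true).E) ∉ φ.c f := by
  obtain ⟨φ, hφ⟩ := exists_strip_bemb hN D B c
  refine ⟨φ, fun f => ?_⟩
  rw [hφ]
  exact notMem_bC D B c j e he (fun _ => hb) (fun _ => hd) f

/-- An edge without owner is avoided. -/
theorem avoid_of_none {L L' : Loc} (D : LEmb L L') {e : L'.E} (h : D.eo e = none) :
    D.Avoid e := by
  refine ⟨fun f hf => ?_, fun hf => ?_, fun hf => ?_⟩
  · have := D.eoc f e hf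
    rw [h] at this
    exact absurd this (by simp)
  · have := D.eon e hf
    rw [h] at this
    exact absurd this (by simp)
  · have := D.eox e hf
    rw [h] at this
    exact absurd this (by simp)

/-- An edge without bypass owner is not in the bypass chains. -/
theorem notMem_bm_of_none {L L' : Loc} {D : LEmb L L'} (B : BEmb D) {e : L'.E}
    (h : B.eob e = none) : e ∉ B.bm ∧ e ∉ B.dm := by
  refine ⟨fun hf => ?_, fun hf => ?_⟩
  · have := B.eobm e hf
    rw [h] at this
    exact absurd this (by simp)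
  · have := B.eodm e hf
    rw [h] at this
    exact absurd this (by simp)

end EMBW

end Pool.Agent.CC
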