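import Pool.Agent.Lib_helper74.CCF.Chains

/-! CORE2, part a: the crossing form on independent pairs, an alternating sum identity. -/

namespace Pool.Agent.CC

open Gph

namespace C2

section form
variable {N : ℕ} [NeZero N] {q : ℕ} {c : Bool} {τ : ZMod N → RT} (P : (tstrip q c τ).PS)

/-- Two local edges of the same part of a `G` or `W` region. -/
def SameP (e f : (tstrip q c τ).E) : Prop :=
  match e, f with
  | .inl ⟨j, x⟩, .inl ⟨k, y⟩ => j = k ∧ RT.part q (τ j) x ≠ none ∧
      RT.part q (τ j) x = RT.part q (τ k) y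
  | _, _ => False

theorem SameP.symm' {e f : (tstrip q c τ).E} (h : SameP e f) : SameP f e := by
  rcases e with ⟨j, x⟩ | e
  · rcases f with ⟨k, y⟩ | f
    · obtain ⟨h1, h2, h3⟩ := h
      exact ⟨h1.symm, h3 ▸ h2, h3.symm⟩
    · exact h.elim
  · exact (show False from h).elim

/-- The crossing parity, set to zero for pairs with a common end and for pairs in the same part. -/
noncomputable def yy (e f : (tstrip q c τ).E) : ZMod 2 := by
  classical exact if (tstrip q c τ).Ind e f ∧ ¬ SameP e f then P.X e f else 0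

/-- `e` is free for the form `yy`. -/
def Fr (e : (tstrip q c τ).E) : Prop := ∀ f, yy P e f = 0

theorem yy_pos {e f : (tstrip q c τ).E} (h : (tstrip q c τ).Ind e f) (h' : ¬ SameP e f) :
    yy P e f = P.X e f := by
  unfold yy; rw [if_pos ⟨h, h'⟩]

theorem yy_neg {e f : (tstrip q c τ).E} (h : ¬ ((tstrip q c τ).Ind e f ∧ ¬ SameP e f)) :
    yy P e f = 0 := by
  unfold yy; rw [if_neg h]

theorem yy_symm (e f : (tstrip q c τ).E) : yy P e f = yy P f e := by
  by_cases h : (tstrip q c τ).Ind e f ∧ ¬ SameP e f
  · have h' : (tstrip q c τ).Ind f e := h.1.symm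
    rw [yy_pos P h.1 h.2, yy_pos P h' (fun h2 => h.2 h2.symm'), P.X_symm _ _ h.1]
  · have h' : ¬ ((tstrip q c τ).Ind f e ∧ ¬ SameP f e) := fun h' =>
      h ⟨h'.1.symm, fun h2 => h'.2 h2.symm'⟩
    rw [yy_neg P h, yy_neg P h']

theorem Fr.of_free {e : (tstrip q c τ).E} (h : Free P e) : Fr P e := by
  intro f
  by_cases h' : (tstrip q c τ).Ind e f ∧ ¬ SameP e f
  · rw [yy_pos P h'.1 h'.2, h f h'.1]
  · rw [yy_neg P h']

theorem Fr.of_out {j : ZMod N} {x : ((τ j).loc q).E} (h : FreeOut q c τ P j x) :
    Fr P (le q c τ j x) := by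
  intro f
  by_cases h' : (tstrip q c τ).Ind (le q c τ j x) f ∧ ¬ SameP (le q c τ j x) f
  · rw [yy_pos P h'.1 h'.2]
    apply h f h'.1
    rintro e' rfl
    by_contra hcon
    rw [not_or, not_not] at hcon
    exact h'.2 ⟨rfl, hcon.1, hcon.2.symm⟩
  · rw [yy_neg P h']

theorem yy_free {e : (tstrip q c τ).E} (h : Fr P e) (f : (tstrip q c τ).E) : yy P e f = 0 := h f

theorem yy_free' {e : (tstrip q c τ).E} (h : Fr P e) (f : (tstrip q c τ).E) : yy P f e = 0 := by
  rw [yy_symm, h f]

/-- The crossing form on independent pairs. -/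
noncomputable def LI (d d' : (tstrip q c τ).E → ZMod 2) : ZMod 2 := ∑ e, ∑ f, d e * d' f * yy P e f

theorem L_eq_LI {d d' : (tstrip q c τ).E → ZMod 2} (h : IndC d d')
    (hK : ∀ e f, d e ≠ 0 → d' f ≠ 0 → ¬ SameP e f) : P.L d d' = LI P d d' := by
  unfold PS.L LI
  refine Finset.sum_congr rfl fun e _ => Finset.sum_congr rfl fun f _ => ?_
  by_cases h1 : d e = 0
  · simp [h1]
  by_cases h2 : d' f = 0
  · simp [h2]
  rw [yy_pos P (h e f h1 h2) (hK e f h1 h2)]

theorem LI_congr {d d' c₁ c₂ : (tstrip q c τ).E → ZMod 2} (hc : ∀ e, ¬ Fr P e → d e = c₁ e)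
    (hd : ∀ e, ¬ Fr P e → d' e = c₂ e) : LI P d d' = LI P c₁ c₂ := by
  unfold LI
  refine Finset.sum_congr rfl fun e _ => Finset.sum_congr rfl fun f _ => ?_
  by_cases h1 : Fr P e
  · rw [yy_free P h1]; ring
  by_cases h2 : Fr P f
  · rw [yy_free' P h2]; ring
  rw [hc e h1, hd f h2]

theorem LI_symm (d d' : (tstrip q c τ).E → ZMod 2) : LI P d d' = LI P d' d := by
  unfold LI
  rw [Finset.sum_comm]
  refine Finset.sum_congr rfl fun e _ => Finset.sum_congr rfl fun f _ => ?_
  rw [yy_symm P f e]; ring

theorem LI_add_left (d₁ d₂ d : (tstrip q c τ).E → ZMod 2) :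
    LI P (d₁ + d₂) d = LI P d₁ d + LI P d₂ d := by
  simp only [LI, Pi.add_apply, add_mul, Finset.sum_add_distrib]

theorem LI_add_right (d d₁ d₂ : (tstrip q c τ).E → ZMod 2) :
    LI P d (d₁ + d₂) = LI P d d₁ + LI P d d₂ := by
  rw [LI_symm, LI_add_left, LI_symm P d₁, LI_symm P d₂]

theorem LI_zero_left (d : (tstrip q c τ).E → ZMod 2) : LI P 0 d = 0 := by simp [LI]
theorem LI_zero_right (d : (tstrip q c τ).E → ZMod 2) : LI P d 0 = 0 := by simp [LI]

theorem LI_sum_left {ι : Type} (s : Finset ι) (f : ι → (tstrip q c τ).E → ZMod 2)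
    (d : (tstrip q c τ).E → ZMod 2) : LI P (∑ i ∈ s, f i) d = ∑ i ∈ s, LI P (f i) d := by
  classical
  induction s using Finset.induction_on with
  | empty => simp [LI_zero_left]
  | insert i s hi ih => rw [Finset.sum_insert hi, Finset.sum_insert hi, LI_add_left, ih]

theorem LI_sum_right {ι : Type} (s : Finset ι) (d : (tstrip q c τ).E → ZMod 2)
    (f : ι → (tstrip q c τ).E → ZMod 2) : LI P d (∑ i ∈ s, f i) = ∑ i ∈ s, LI P d (f i) := by
  rw [LI_symm, LI_sum_left]
  exact Finset.sum_congr rfl fun i _ => LI_symm P _ _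

theorem LI_of_zero {d d' : (tstrip q c τ).E → ZMod 2}
    (h : ∀ e f, d e ≠ 0 → d' f ≠ 0 → yy P e f = 0) : LI P d d' = 0 := by
  unfold LI
  refine Finset.sum_eq_zero fun e _ => Finset.sum_eq_zero fun f _ => ?_
  by_cases h1 : d e = 0
  · rw [h1]; ring
  by_cases h2 : d' f = 0
  · rw [h2]; ring
  rw [h e f h1 h2]; ring

/-- The indicator of a predicate. -/
noncomputable def ind (p : Prop) : ZMod 2 := by classical exact if p then 1 else 0

theorem ind_true {p : Prop} (h : p) : ind p = 1 := by unfold ind; rw [if_pos h]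
theorem ind_false {p : Prop} (h : ¬ p) : ind p = 0 := by unfold ind; rw [if_neg h]
theorem ind_congr {p q : Prop} (h : p ↔ q) : ind p = ind q := by
  by_cases hp : p
  · rw [ind_true hp, ind_true (h.1 hp)]
  · rw [ind_false hp, ind_false (fun hq => hp (h.2 hq))]

theorem ind_add {p q : Prop} (h : ¬ (p ∧ q)) : ind p + ind q = ind (p ∨ q) := by
  by_cases hp : p
  · have hq : ¬ q := fun hq => h ⟨hp, hq⟩
    rw [ind_true hp, ind_false hq, ind_true (Or.inl hp), add_zero]
  · by_cases hq : q
    · rw [ind_false hp, ind_true hq, ind_true (Or.inr hq), zero_add]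
    · rw [ind_false hp, ind_false hq, ind_false (fun h => h.elim hp hq), add_zero]

theorem LI_ind (A B : (tstrip q c τ).E → Prop) [DecidablePred A] [DecidablePred B] :
    LI P (fun e => ind (A e)) (fun e => ind (B e)) =
      ∑ e ∈ Finset.univ.filter A, ∑ f ∈ Finset.univ.filter B, yy P e f := by
  unfold LI
  rw [Finset.sum_filter]
  refine Finset.sum_congr rfl fun e _ => ?_
  by_cases h1 : A e
  · rw [if_pos h1, Finset.sum_filter]
    refine Finset.sum_congr rfl fun f _ => ?_
    by_cases h2 : B f
    · beta_reduce; rw [if_pos h2, ind_true h1, ind_true h2]; ring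
    · beta_reduce; rw [if_neg h2, ind_false h2]; ring
  · rw [if_neg h1]
    refine Finset.sum_eq_zero fun f _ => ?_
    beta_reduce; rw [ind_false h1]; ring

end form

/-- The alternating sum. -/
theorem sum_cut (s : ℕ → ℕ → ZMod 2) (hs : ∀ i j, s i j = s j i) (n : ℕ) :
    ∑ j ∈ Finset.Ico 1 n, ∑ k ∈ Finset.range j, ∑ l ∈ Finset.Ico j n, s k l =
      ∑ i ∈ (Finset.range n).filter (fun i => i % 2 = 0),
        ∑ k ∈ (Finset.range n).filter (fun i => i % 2 = 1), s i k := by
  have h11 : (1 : ZMod 2) + 1 = 0 := by decide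
  have hdbl : ∀ x : ZMod 2, x + x = 0 := by decide
  induction n with
  | zero => simp
  | succ n ih =>
    -- left side
    have hL : ∑ j ∈ Finset.Ico 1 (n + 1), ∑ k ∈ Finset.range j, ∑ l ∈ Finset.Ico j (n + 1), s k l =
        ∑ j ∈ Finset.Ico 1 n, ∑ k ∈ Finset.range j, ∑ l ∈ Finset.Ico j n, s k l +
        ∑ j ∈ Finset.Ico 1 (n + 1), ∑ k ∈ Finset.range j, s k n := by
      have h1 : ∀ j ∈ Finset.Ico 1 (n + 1), ∑ k ∈ Finset.range j, ∑ l ∈ Finset.Ico j (n + 1), s k l =
          ∑ k ∈ Finset.range j, ∑ l ∈ Finset.Ico j n, s k l + ∑ k ∈ Finset.range j, s k n := by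
        intro j hj
        rw [← Finset.sum_add_distrib]
        refine Finset.sum_congr rfl fun k _ => ?_
        rw [Finset.sum_Ico_succ_top (Nat.lt_succ_iff.1 (Finset.mem_Ico.1 hj).2)]
      rw [Finset.sum_congr rfl h1, Finset.sum_add_distrib]
      congr 1
      rcases Nat.eq_zero_or_pos n with h0 | h0
      · subst h0; simp
      · rw [Finset.sum_Ico_succ_top h0, Finset.Ico_self]
        simp
    have hM : ∑ j ∈ Finset.Ico 1 (n + 1), ∑ k ∈ Finset.range j, s k n =
        ∑ k ∈ (Finset.range n).filter (fun k => ¬ k % 2 = n % 2), s k n := by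
      clear ih hL
      have key : ∀ m (f : ℕ → ZMod 2), ∑ j ∈ Finset.Ico 1 (m + 1), ∑ k ∈ Finset.range j, f k =
          ∑ k ∈ (Finset.range m).filter (fun k => ¬ k % 2 = m % 2), f k := by
        intro m f
        have : ∀ m, ∑ j ∈ Finset.Ico 1 (m + 1), ∑ k ∈ Finset.range j, f k =
            ∑ k ∈ (Finset.range m).filter (fun k => ¬ k % 2 = m % 2), f k ∧
            ∑ k ∈ Finset.range m, f k = ∑ k ∈ (Finset.range m).filter (fun k => ¬ k % 2 = m % 2), f k
              + ∑ k ∈ (Finset.range m).filter (fun k => k % 2 = m % 2), f k := by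
          intro m
          constructor
          · induction m with
            | zero => simp
            | succ m ihm =>
              rw [Finset.sum_Ico_succ_top (by omega), ihm, Finset.sum_range_succ]
              have e1 : (Finset.range (m + 1)).filter (fun k => ¬ k % 2 = (m + 1) % 2) =
                  insert m ((Finset.range m).filter (fun k => k % 2 = m % 2)) := by
                ext k
                simp only [Finset.mem_filter, Finset.mem_range, Finset.mem_insert]
                omega
              rw [e1, Finset.sum_insert (by simp)]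
              rw [← Finset.sum_filter_add_sum_filter_not (Finset.range m) (fun k => k % 2 = m % 2) f]
              have := hdbl (∑ k ∈ (Finset.range m).filter (fun k => ¬ k % 2 = m % 2), f k)
              linear_combination this
          · rw [add_comm, Finset.sum_filter_add_sum_filter_not]
        exact (this m).1
      exact key n (fun k => s k n)
    rw [hL, ih, hM]
    rcases Nat.mod_two_eq_zero_or_one n with h | h
    · have e1 : (Finset.range (n + 1)).filter (fun k => k % 2 = 0) =
          insert n ((Finset.range n).filter (fun k => k % 2 = 0)) := by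
        ext k
        simp only [Finset.mem_filter, Finset.mem_range, Finset.mem_insert]
        omega
      have e2 : (Finset.range (n + 1)).filter (fun k => k % 2 = 1) =
          (Finset.range n).filter (fun k => k % 2 = 1) := by
        ext k
        simp only [Finset.mem_filter, Finset.mem_range]
        omega
      have e3 : (Finset.range n).filter (fun k => ¬ k % 2 = n % 2) =
          (Finset.range n).filter (fun k => k % 2 = 1) := by
        ext k
        simp only [Finset.mem_filter, Finset.mem_range]
        omega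
      rw [e1, e2, e3, Finset.sum_insert (by simp), add_comm]
      congr 1
      exact Finset.sum_congr rfl fun k _ => hs k n
    · have e1 : (Finset.range (n + 1)).filter (fun k => k % 2 = 1) =
          insert n ((Finset.range n).filter (fun k => k % 2 = 1)) := by
        ext k
        simp only [Finset.mem_filter, Finset.mem_range, Finset.mem_insert]
        omega
      have e2 : (Finset.range (n + 1)).filter (fun k => k % 2 = 0) =
          (Finset.range n).filter (fun k => k % 2 = 0) := by
        ext k
        simp only [Finset.mem_filter, Finset.mem_range]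
        omega
      have e3 : (Finset.range n).filter (fun k => ¬ k % 2 = n % 2) =
          (Finset.range n).filter (fun k => k % 2 = 0) := by
        ext k
        simp only [Finset.mem_filter, Finset.mem_range]
        omega
      rw [e1, e2, e3]
      have : ∀ i ∈ (Finset.range n).filter (fun k => k % 2 = 0),
          ∑ k ∈ insert n ((Finset.range n).filter (fun k => k % 2 = 1)), s i k =
          s i n + ∑ k ∈ (Finset.range n).filter (fun k => k % 2 = 1), s i k := by
        intro i _
        rw [Finset.sum_insert (by simp)]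
      rw [Finset.sum_congr rfl this, Finset.sum_add_distrib, add_comm]

end C2
end Pool.Agent.CC
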