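import Pool.Agent.Lib_helper74.CCF.C2a

/-! CORE2, part b: local facts about the named sets of edges. -/

namespace Pool.Agent.CC

open Gph

namespace C2

/-- The position of a local row edge (legs etc.: `0`). -/
def ploc (q : ℕ) : (t : RT) → (t.loc q).E → ℕ
  | .T => fun (e : Fin (2 * (q + 1) + 2) ⊕ Fin (2 * (q + 1) + 1)) => match e with
    | .inl _ => 0
    | .inr i => 1 + i.1
  | .G => fun (e : Bool × (Fin (2 * q + 3) ⊕ Fin (2 * q + 1))) => match e with
    | (_, .inl _) => 0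
    | (false, .inr i) => 1 + i.1
    | (true, .inr i) => 4 * q + 8 - i.1
  | .W => fun (e : Bool × WE (q - 1)) => match e with
    | (false, .s3) => 1
    | (true, .s3) => 4 * q + 8
    | (false, .row i) => 2 + i.1
    | (true, .row i) => 4 * q + 7 - i.1
    | _ => 0

/-- The largest position. -/
def mm (q : ℕ) : RT → ℕ
  | .T => 2 * q + 3
  | .G => 4 * q + 8
  | .W => 4 * q + 8

/-- The position of a local vertex. -/
def vloc (q : ℕ) : (t : RT) → (t.loc q).V → ℕ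
  | .T => fun (v : Fin (2 * (q + 1) + 2)) => 1 + v.1
  | .G => fun (v : Bool × Fin (2 * q + 2)) => match v with
    | (false, i) => 1 + i.1
    | (true, i) => 4 * q + 9 - i.1
  | .W => fun (v : Bool × WV (q - 1)) => match v with
    | (false, .w) => 1
    | (true, .w) => 4 * q + 9
    | (false, .x i) => 2 + i.1
    | (true, .x i) => 4 * q + 8 - i.1
    | _ => 0

/-- The ends allowed: local vertices with position in `[lo, hi]`, the left hub if `A`, the right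
hub if `B`. -/
def EndIn (q : ℕ) (t : RT) (lo hi : ℕ) (A B : Prop) : (t.loc q).V ⊕ Bool → Prop
  | .inl u => lo ≤ vloc q t u ∧ vloc q t u ≤ hi
  | .inr false => A
  | .inr true => B

theorem mem_lowT {q m : ℕ} {x : Fin (2 * (q + 1) + 2) ⊕ Fin (2 * (q + 1) + 1)} :
    x ∈ RT.lowT q m ↔ ∃ i, x = .inr i ∧ i.1 < m := by
  unfold RT.lowT
  simp only [Finset.mem_map, Finset.mem_filter, Finset.mem_univ, true_and,
    Function.Embedding.coeFn_mk]
  constructor
  · rintro ⟨i, h, rfl⟩; exact ⟨i, rfl, h⟩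
  · rintro ⟨i, rfl, h⟩; exact ⟨i, h, rfl⟩

theorem mem_highT {q m : ℕ} {x : Fin (2 * (q + 1) + 2) ⊕ Fin (2 * (q + 1) + 1)} :
    x ∈ RT.highT q m ↔ ∃ i, x = .inr i ∧ m ≤ i.1 := by
  unfold RT.highT
  simp only [Finset.mem_map, Finset.mem_filter, Finset.mem_univ, true_and,
    Function.Embedding.coeFn_mk]
  constructor
  · rintro ⟨i, h, rfl⟩; exact ⟨i, rfl, h⟩
  · rintro ⟨i, rfl, h⟩; exact ⟨i, h, rfl⟩

theorem mem_legT {q m : ℕ} {x : Fin (2 * (q + 1) + 2) ⊕ Fin (2 * (q + 1) + 1)} :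
    x ∈ RT.legT q m ↔ ∃ i, x = .inl i ∧ i.1 = m := by
  unfold RT.legT
  simp only [Finset.mem_map, Finset.mem_filter, Finset.mem_univ, true_and,
    Function.Embedding.coeFn_mk]
  constructor
  · rintro ⟨i, h, rfl⟩; exact ⟨i, rfl, h⟩
  · rintro ⟨i, rfl, h⟩; exact ⟨i, h, rfl⟩

theorem mem_rowsG {q : ℕ} {s : Bool} {x : Bool × (Fin (2 * q + 3) ⊕ Fin (2 * q + 1))} :
    x ∈ RT.rows q s .G ↔ ∃ i, x = (s, .inr i) := by
  have h : x ∈ RT.rows q s .G ↔ x ∈ (Finset.univ : Finset (Bool × (Fin (2 * q + 3) ⊕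
      Fin (2 * q + 1)))) ∧ (x.1 = s ∧ x.2.isRight = true) := Finset.mem_filter
  rw [h]
  obtain ⟨s', k | i⟩ := x
  · simp
  · simp

theorem mem_rowsW {q : ℕ} {s : Bool} {x : Bool × WE (q - 1)} :
    x ∈ RT.rows q s .W ↔ x = (s, .s3) ∨ ∃ i, x = (s, .row i) := by
  have h : x ∈ RT.rows q s .W ↔ x ∈ (Finset.univ : Finset (Bool × WE (q - 1))) ∧
      (x.1 = s ∧ (x.2 = .s3 ∨ ∃ i, x.2 = .row i)) := Finset.mem_filter
  rw [h]
  obtain ⟨s', y⟩ := x
  simp only [Prod.mk.injEq, Finset.mem_univ, true_and]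
  constructor
  · rintro ⟨h, h1 | ⟨i, h1⟩⟩
    · exact Or.inl ⟨h, h1⟩
    · exact Or.inr ⟨i, h, h1⟩
  · rintro (⟨h, h1⟩ | ⟨i, h, h1⟩)
    · exact ⟨h, Or.inl h1⟩
    · exact ⟨h, Or.inr ⟨i, h1⟩⟩

/-! membership in the named sets -/

abbrev TE (q : ℕ) := Fin (2 * (q + 1) + 2) ⊕ Fin (2 * (q + 1) + 1)
abbrev GE (q : ℕ) := Bool × (Fin (2 * q + 3) ⊕ Fin (2 * q + 1))
abbrev WE' (q : ℕ) := Bool × WE (q - 1)

theorem eB_T {q a : ℕ} {x : TE q} : x ∈ RT.eB q a .T ↔
    (∃ i, x = .inr i ∧ i.1 < 2 * a) ∨ (∃ i, x = .inl i ∧ i.1 = 2 * a) :=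
  (Finset.mem_union (s := RT.lowT q (2 * a)) (t := RT.legT q (2 * a))).trans
    (or_congr mem_lowT mem_legT)

theorem sA_T {q a : ℕ} {x : TE q} : x ∈ RT.sA q a .T ↔
    (∃ i, x = .inr i ∧ 2 * a + 1 ≤ i.1) ∨ (∃ i, x = .inl i ∧ i.1 = 2 * a + 1) :=
  (Finset.mem_union (s := RT.highT q (2 * a + 1)) (t := RT.legT q (2 * a + 1))).trans
    (or_congr mem_highT mem_legT)

theorem eA_T {q a : ℕ} {x : TE q} : x ∈ RT.eA q a .T ↔
    (∃ i, x = .inr i ∧ i.1 < 2 * a + 1) ∨ (∃ i, x = .inl i ∧ i.1 = 2 * a + 1) :=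
  (Finset.mem_union (s := RT.lowT q (2 * a + 1)) (t := RT.legT q (2 * a + 1))).trans
    (or_congr mem_lowT mem_legT)

theorem sB_T {q a : ℕ} {x : TE q} : x ∈ RT.sB q a .T ↔
    (∃ i, x = .inr i ∧ 2 * a ≤ i.1) ∨ (∃ i, x = .inl i ∧ i.1 = 2 * a) :=
  (Finset.mem_union (s := RT.highT q (2 * a)) (t := RT.legT q (2 * a))).trans
    (or_congr mem_highT mem_legT)

theorem G_mem {q : ℕ} {s : Bool} {y x : GE q} : x ∈ RT.rows q s .G ∪ ({y} : Finset (GE q)) ↔
    (∃ i, x = (s, .inr i)) ∨ x = y :=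
  (Finset.mem_union (s := RT.rows q s .G) (t := ({y} : Finset (GE q)))).trans
    (or_congr mem_rowsG Finset.mem_singleton)

theorem W_mem {q : ℕ} {s : Bool} {y x : WE' q} : x ∈ RT.rows q s .W ∪ ({y} : Finset (WE' q)) ↔
    (x = (s, .s3) ∨ ∃ i, x = (s, .row i)) ∨ x = y :=
  (Finset.mem_union (s := RT.rows q s .W) (t := ({y} : Finset (WE' q)))).trans
    (or_congr mem_rowsW Finset.mem_singleton)

theorem eB_G {q a : ℕ} {x : GE q} : x ∈ RT.eB q a .G ↔
    (∃ i, x = (false, .inr i)) ∨ x = (false, .inl ⟨2 * q + 2, by omega⟩) := G_mem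
theorem sA_G {q a : ℕ} {x : GE q} : x ∈ RT.sA q a .G ↔
    (∃ i, x = (true, .inr i)) ∨ x = (true, .inl ⟨2 * q + 2, by omega⟩) := G_mem
theorem eA_G {q a : ℕ} {x : GE q} : x ∈ RT.eA q a .G ↔
    (∃ i, x = (false, .inr i)) ∨ x = (false, .inl ⟨2 * q + 1, by omega⟩) := G_mem
theorem sB_G {q a : ℕ} {x : GE q} : x ∈ RT.sB q a .G ↔
    (∃ i, x = (true, .inr i)) ∨ x = (true, .inl ⟨2 * q + 1, by omega⟩) := G_mem

theorem eB_W {q a : ℕ} {x : WE' q} : x ∈ RT.eB q a .W ↔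
    (x = (false, .s3) ∨ ∃ i, x = (false, .row i)) ∨
      x = (false, .leg ⟨2 * (q - 1) + 2, by omega⟩) := W_mem
theorem sA_W {q a : ℕ} {x : WE' q} : x ∈ RT.sA q a .W ↔
    (x = (true, .s3) ∨ ∃ i, x = (true, .row i)) ∨
      x = (true, .leg ⟨2 * (q - 1) + 2, by omega⟩) := W_mem
theorem eA_W {q a : ℕ} {x : WE' q} : x ∈ RT.eA q a .W ↔
    (x = (false, .s3) ∨ ∃ i, x = (false, .row i)) ∨
      x = (false, .leg ⟨2 * (q - 1) + 1, by omega⟩) := W_mem
theorem sB_W {q a : ℕ} {x : WE' q} : x ∈ RT.sB q a .W ↔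
    (x = (true, .s3) ∨ ∃ i, x = (true, .row i)) ∨
      x = (true, .leg ⟨2 * (q - 1) + 1, by omega⟩) := W_mem

/-- The position of the cut at `z a` in `T`, of the cut between the parts in `G`, `W`. -/
def cutp (q a : ℕ) : RT → ℕ
  | .T => 1 + 2 * a
  | .G => 2 * q + 4
  | .W => 2 * q + 4

/-- A set of edges contains, apart from legs, exactly the rows with the property `p`. -/
def RowsOf (q : ℕ) (t : RT) (s : Finset (t.loc q).E) (p : ℕ → Prop) : Prop :=
  ∀ x, ¬ RT.fleg q t x → (x ∈ s ↔ RT.isRow q t x ∧ p (ploc q t x))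

theorem rowsT {q : ℕ} {s : Finset (TE q)} {p : ℕ → Prop}
    (h : ∀ i : Fin (2 * (q + 1) + 1), (Sum.inr i : TE q) ∈ s ↔ p (1 + i.1)) :
    RowsOf q .T s p := by
  intro x hx
  obtain k | i : TE q := x
  · exact absurd rfl hx
  · constructor
    · intro h1; exact ⟨rfl, (h i).1 h1⟩
    · rintro ⟨-, h1⟩; exact (h i).2 h1

theorem rowsG' {q : ℕ} {s : Finset (GE q)} {p : ℕ → Prop}
    (h0 : ∀ b (k : Fin (2 * q + 3)), k.1 ≠ 1 → k.1 ≠ 2 * q + 1 → k.1 ≠ 2 * q + 2 →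
      ((b, Sum.inl k) : GE q) ∉ s)
    (h1 : ∀ i : Fin (2 * q + 1), ((false, Sum.inr i) : GE q) ∈ s ↔ p (1 + i.1))
    (h2 : ∀ i : Fin (2 * q + 1), ((true, Sum.inr i) : GE q) ∈ s ↔ p (4 * q + 8 - i.1)) :
    RowsOf q .G s p := by
  intro x hx
  obtain ⟨b, k | i⟩ : GE q := x
  · constructor
    · intro h
      exact absurd h (h0 b k (fun h => hx ⟨k, rfl, Or.inl h⟩)
        (fun h => hx ⟨k, rfl, Or.inr (Or.inl h)⟩) (fun h => hx ⟨k, rfl, Or.inr (Or.inr h)⟩))
    · rintro ⟨h, -⟩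
      have h' : (Sum.inl k : Fin (2 * q + 3) ⊕ Fin (2 * q + 1)).isRight = true := h
      simp at h'
  · cases b
    · constructor
      · intro h; exact ⟨rfl, (h1 i).1 h⟩
      · rintro ⟨-, h⟩; exact (h1 i).2 h
    · constructor
      · intro h; exact ⟨rfl, (h2 i).1 h⟩
      · rintro ⟨-, h⟩; exact (h2 i).2 h

theorem rowsW' {q : ℕ} {s : Finset (WE' q)} {p : ℕ → Prop}
    (h0 : ∀ b (x : WE (q - 1)), (x = .b1 ∨ x = .b2 ∨ x = .eta ∨ x = .sig) → ((b, x) : WE' q) ∉ s)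
    (h0' : ∀ b (k : Fin (2 * (q - 1) + 3)), k.1 ≠ 0 → k.1 ≠ 2 * (q - 1) + 1 →
      k.1 ≠ 2 * (q - 1) + 2 → ((b, .leg k) : WE' q) ∉ s)
    (h1 : ((false, .s3) : WE' q) ∈ s ↔ p 1)
    (h2 : ((true, .s3) : WE' q) ∈ s ↔ p (4 * q + 8))
    (h3 : ∀ i : Fin (2 * (q - 1) + 1), ((false, .row i) : WE' q) ∈ s ↔ p (2 + i.1))
    (h4 : ∀ i : Fin (2 * (q - 1) + 1), ((true, .row i) : WE' q) ∈ s ↔ p (4 * q + 7 - i.1)) :
    RowsOf q .W s p := by
  intro x hx
  obtain ⟨b, x⟩ : WE' q := x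
  have hno : ∀ y : WE (q - 1), (y = .s3 ∨ ∃ i, y = .row i) → (y = .b1 ∨ y = .b2 ∨ y = .eta ∨
      y = .sig ∨ ∃ k, y = .leg k) → False := by
    rintro y (rfl | ⟨i, rfl⟩) (h | h | h | h | ⟨k, h⟩) <;> cases h
  have hz : (x = .b1 ∨ x = .b2 ∨ x = .eta ∨ x = .sig) →
      (((b, x) : WE' q) ∈ s ↔ RT.isRow q .W (b, x) ∧ p (ploc q .W (b, x))) := by
    intro h
    constructor
    · intro h'; exact absurd h' (h0 b x h)
    · rintro ⟨h', -⟩
      have h'' : x = .s3 ∨ ∃ i, x = .row i := h'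
      exact absurd (hno x h'' (by tauto)) (fun h => h)
  cases x with
  | b1 => exact hz (Or.inl rfl)
  | b2 => exact hz (Or.inr (Or.inl rfl))
  | eta => exact hz (Or.inr (Or.inr (Or.inl rfl)))
  | sig => exact hz (Or.inr (Or.inr (Or.inr rfl)))
  | s3 =>
    cases b
    · constructor
      · intro h; exact ⟨Or.inl rfl, h1.1 h⟩
      · rintro ⟨-, h⟩; exact h1.2 h
    · constructor
      · intro h; exact ⟨Or.inl rfl, h2.1 h⟩
      · rintro ⟨-, h⟩; exact h2.2 h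
  | leg k =>
    constructor
    · intro h
      exact absurd h (h0' b k (fun h => hx ⟨k, rfl, Or.inl h⟩)
        (fun h => hx ⟨k, rfl, Or.inr (Or.inl h)⟩) (fun h => hx ⟨k, rfl, Or.inr (Or.inr h)⟩))
    · rintro ⟨h', -⟩
      exact absurd (hno (.leg k) h' (by simp)) (fun h => h)
  | row i =>
    cases b
    · constructor
      · intro h; exact ⟨Or.inr ⟨i, rfl⟩, (h3 i).1 h⟩
      · rintro ⟨-, h⟩; exact (h3 i).2 h
    · constructor
      · intro h; exact ⟨Or.inr ⟨i, rfl⟩, (h4 i).1 h⟩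
      · rintro ⟨-, h⟩; exact (h4 i).2 h

theorem rows_eB (q a : ℕ) : ∀ t : RT, RowsOf q t (RT.eB q a t) (fun p => p < cutp q a t) := by
  rintro (_ | _ | _)
  · refine rowsT (fun i => eB_T.trans ⟨?_, ?_⟩)
    · rintro (⟨i', h, h'⟩ | ⟨i', h, h'⟩)
      · cases h; show 1 + i.1 < 1 + 2 * a; omega
      · cases h
    · intro h
      have h' : 1 + i.1 < 1 + 2 * a := h
      exact Or.inl ⟨i, rfl, by omega⟩
  · refine rowsG' ?_ ?_ ?_
    · intro b k h1 h2 h3 h
      rcases eB_G.1 h with ⟨i, h⟩ | h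
      · cases h
      · simp only [Prod.mk.injEq, Sum.inl.injEq] at h
        exact h3 (congrArg Fin.val h.2)
    · intro i
      have := i.2
      refine ⟨fun _ => ?_, fun _ => eB_G.2 (Or.inl ⟨i, rfl⟩)⟩
      show 1 + i.1 < 2 * q + 4; omega
    · intro i
      have := i.2
      refine ⟨fun h => ?_, fun h => ?_⟩
      · rcases eB_G.1 h with ⟨i, h⟩ | h <;> cases h
      · have h' : 4 * q + 8 - i.1 < 2 * q + 4 := h
        omega
  · refine rowsW' ?_ ?_ ?_ ?_ ?_ ?_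
    · rintro b x hx h
      rcases eB_W.1 h with (h | ⟨i, h⟩) | h <;> simp only [Prod.mk.injEq] at h <;>
        rw [h.2] at hx <;> rcases hx with h | h | h | h <;> cases h
    · intro b k h1 h2 h3 h
      rcases eB_W.1 h with (h | ⟨i, h⟩) | h
      · cases h
      · cases h
      · simp only [Prod.mk.injEq, WE.leg.injEq] at h
        exact h3 (congrArg Fin.val h.2)
    · refine ⟨fun _ => ?_, fun _ => eB_W.2 (Or.inl (Or.inl rfl))⟩
      show 1 < 2 * q + 4; omega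
    · refine ⟨fun h => ?_, fun h => ?_⟩
      · rcases eB_W.1 h with (h | ⟨i, h⟩) | h <;> cases h
      · have h' : 4 * q + 8 < 2 * q + 4 := h
        omega
    · intro i
      have := i.2
      refine ⟨fun _ => ?_, fun _ => eB_W.2 (Or.inl (Or.inr ⟨i, rfl⟩))⟩
      show 2 + i.1 < 2 * q + 4; omega
    · intro i
      have := i.2
      refine ⟨fun h => ?_, fun h => ?_⟩
      · rcases eB_W.1 h with (h | ⟨i, h⟩) | h <;> cases h
      · have h' : 4 * q + 7 - i.1 < 2 * q + 4 := h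
        omega

theorem rows_sA (q a : ℕ) : ∀ t : RT, RowsOf q t (RT.sA q a t) (fun p => cutp q a t < p) := by
  rintro (_ | _ | _)
  · refine rowsT (fun i => sA_T.trans ⟨?_, ?_⟩)
    · rintro (⟨i', h, h'⟩ | ⟨i', h, h'⟩)
      · cases h; show 1 + 2 * a < 1 + i.1; omega
      · cases h
    · intro h
      have h' : 1 + 2 * a < 1 + i.1 := h
      exact Or.inl ⟨i, rfl, by omega⟩
  · refine rowsG' ?_ ?_ ?_
    · intro b k h1 h2 h3 h
      rcases sA_G.1 h with ⟨i, h⟩ | h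
      · cases h
      · simp only [Prod.mk.injEq, Sum.inl.injEq] at h
        exact h3 (congrArg Fin.val h.2)
    · intro i
      have := i.2
      refine ⟨fun h => ?_, fun h => ?_⟩
      · rcases sA_G.1 h with ⟨i, h⟩ | h <;> cases h
      · have h' : 2 * q + 4 < 1 + i.1 := h
        omega
    · intro i
      have := i.2
      refine ⟨fun _ => ?_, fun _ => sA_G.2 (Or.inl ⟨i, rfl⟩)⟩
      show 2 * q + 4 < 4 * q + 8 - i.1; omega
  · refine rowsW' ?_ ?_ ?_ ?_ ?_ ?_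
    · rintro b x hx h
      rcases sA_W.1 h with (h | ⟨i, h⟩) | h <;> simp only [Prod.mk.injEq] at h <;>
        rw [h.2] at hx <;> rcases hx with h | h | h | h <;> cases h
    · intro b k h1 h2 h3 h
      rcases sA_W.1 h with (h | ⟨i, h⟩) | h
      · cases h
      · cases h
      · simp only [Prod.mk.injEq, WE.leg.injEq] at h
        exact h3 (congrArg Fin.val h.2)
    · refine ⟨fun h => ?_, fun h => ?_⟩
      · rcases sA_W.1 h with (h | ⟨i, h⟩) | h <;> cases h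
      · have h' : 2 * q + 4 < 1 := h
        omega
    · refine ⟨fun _ => ?_, fun _ => sA_W.2 (Or.inl (Or.inl rfl))⟩
      show 2 * q + 4 < 4 * q + 8; omega
    · intro i
      have := i.2
      refine ⟨fun h => ?_, fun h => ?_⟩
      · rcases sA_W.1 h with (h | ⟨i, h⟩) | h <;> cases h
      · have h' : 2 * q + 4 < 2 + i.1 := h
        omega
    · intro i
      have := i.2
      refine ⟨fun _ => ?_, fun _ => sA_W.2 (Or.inl (Or.inr ⟨i, rfl⟩))⟩
      show 2 * q + 4 < 4 * q + 7 - i.1; omega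

/-- Rows of `eA` are the ones with smaller position. -/
def cutA (q a : ℕ) : RT → ℕ
  | .T => 2 + 2 * a
  | .G => 2 * q + 4
  | .W => 2 * q + 4

/-- Rows of `sB` are the ones with larger position. -/
def cutB (q a : ℕ) : RT → ℕ
  | .T => 2 * a
  | .G => 2 * q + 4
  | .W => 2 * q + 4

theorem rows_eA (q a : ℕ) : ∀ t : RT, RowsOf q t (RT.eA q a t) (fun p => p < cutA q a t) := by
  rintro (_ | _ | _)
  · refine rowsT (fun i => eA_T.trans ⟨?_, ?_⟩)
    · rintro (⟨i', h, h'⟩ | ⟨i', h, h'⟩)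
      · cases h; show 1 + i.1 < 2 + 2 * a; omega
      · cases h
    · intro h
      have h' : 1 + i.1 < 2 + 2 * a := h
      exact Or.inl ⟨i, rfl, by omega⟩
  · refine rowsG' ?_ ?_ ?_
    · intro b k h1 h2 h3 h
      rcases eA_G.1 h with ⟨i, h⟩ | h
      · cases h
      · simp only [Prod.mk.injEq, Sum.inl.injEq] at h
        exact h2 (congrArg Fin.val h.2)
    · intro i
      have := i.2
      refine ⟨fun _ => ?_, fun _ => eA_G.2 (Or.inl ⟨i, rfl⟩)⟩
      show 1 + i.1 < 2 * q + 4; omega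
    · intro i
      have := i.2
      refine ⟨fun h => ?_, fun h => ?_⟩
      · rcases eA_G.1 h with ⟨i, h⟩ | h <;> cases h
      · have h' : 4 * q + 8 - i.1 < 2 * q + 4 := h
        omega
  · refine rowsW' ?_ ?_ ?_ ?_ ?_ ?_
    · rintro b x hx h
      rcases eA_W.1 h with (h | ⟨i, h⟩) | h <;> simp only [Prod.mk.injEq] at h <;>
        rw [h.2] at hx <;> rcases hx with h | h | h | h <;> cases h
    · intro b k h1 h2 h3 h
      rcases eA_W.1 h with (h | ⟨i, h⟩) | h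
      · cases h
      · cases h
      · simp only [Prod.mk.injEq, WE.leg.injEq] at h
        exact h2 (congrArg Fin.val h.2)
    · refine ⟨fun _ => ?_, fun _ => eA_W.2 (Or.inl (Or.inl rfl))⟩
      show 1 < 2 * q + 4; omega
    · refine ⟨fun h => ?_, fun h => ?_⟩
      · rcases eA_W.1 h with (h | ⟨i, h⟩) | h <;> cases h
      · have h' : 4 * q + 8 < 2 * q + 4 := h
        omega
    · intro i
      have := i.2
      refine ⟨fun _ => ?_, fun _ => eA_W.2 (Or.inl (Or.inr ⟨i, rfl⟩))⟩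
      show 2 + i.1 < 2 * q + 4; omega
    · intro i
      have := i.2
      refine ⟨fun h => ?_, fun h => ?_⟩
      · rcases eA_W.1 h with (h | ⟨i, h⟩) | h <;> cases h
      · have h' : 4 * q + 7 - i.1 < 2 * q + 4 := h
        omega

theorem rows_sB (q a : ℕ) : ∀ t : RT, RowsOf q t (RT.sB q a t) (fun p => cutB q a t < p) := by
  rintro (_ | _ | _)
  · refine rowsT (fun i => sB_T.trans ⟨?_, ?_⟩)
    · rintro (⟨i', h, h'⟩ | ⟨i', h, h'⟩)
      · cases h; show 2 * a < 1 + i.1; omega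
      · cases h
    · intro h
      have h' : 2 * a < 1 + i.1 := h
      exact Or.inl ⟨i, rfl, by omega⟩
  · refine rowsG' ?_ ?_ ?_
    · intro b k h1 h2 h3 h
      rcases sB_G.1 h with ⟨i, h⟩ | h
      · cases h
      · simp only [Prod.mk.injEq, Sum.inl.injEq] at h
        exact h2 (congrArg Fin.val h.2)
    · intro i
      have := i.2
      refine ⟨fun h => ?_, fun h => ?_⟩
      · rcases sB_G.1 h with ⟨i, h⟩ | h <;> cases h
      · have h' : 2 * q + 4 < 1 + i.1 := h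
        omega
    · intro i
      have := i.2
      refine ⟨fun _ => ?_, fun _ => sB_G.2 (Or.inl ⟨i, rfl⟩)⟩
      show 2 * q + 4 < 4 * q + 8 - i.1; omega
  · refine rowsW' ?_ ?_ ?_ ?_ ?_ ?_
    · rintro b x hx h
      rcases sB_W.1 h with (h | ⟨i, h⟩) | h <;> simp only [Prod.mk.injEq] at h <;>
        rw [h.2] at hx <;> rcases hx with h | h | h | h <;> cases h
    · intro b k h1 h2 h3 h
      rcases sB_W.1 h with (h | ⟨i, h⟩) | h
      · cases h
      · cases h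
      · simp only [Prod.mk.injEq, WE.leg.injEq] at h
        exact h2 (congrArg Fin.val h.2)
    · refine ⟨fun h => ?_, fun h => ?_⟩
      · rcases sB_W.1 h with (h | ⟨i, h⟩) | h <;> cases h
      · have h' : 2 * q + 4 < 1 := h
        omega
    · refine ⟨fun _ => ?_, fun _ => sB_W.2 (Or.inl (Or.inl rfl))⟩
      show 2 * q + 4 < 4 * q + 8; omega
    · intro i
      have := i.2
      refine ⟨fun h => ?_, fun h => ?_⟩
      · rcases sB_W.1 h with (h | ⟨i, h⟩) | h <;> cases h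
      · have h' : 2 * q + 4 < 2 + i.1 := h
        omega
    · intro i
      have := i.2
      refine ⟨fun _ => ?_, fun _ => sB_W.2 (Or.inl (Or.inr ⟨i, rfl⟩))⟩
      show 2 * q + 4 < 4 * q + 7 - i.1; omega

end C2
end Pool.Agent.CC
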