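import Pool.Agent.Lib_helper74.CCF.C2b

/-! CORE2, part c: more local facts (ends, positions). -/

namespace Pool.Agent.CC

open Gph

namespace C2

/-- Condition on an end: `p` for the position of a local vertex, `A` for the left hub, `B` for the
right hub. -/
def EndP (q : ℕ) (t : RT) (p : ℕ → Prop) (A B : Prop) : (t.loc q).V ⊕ Bool → Prop
  | .inl u => p (vloc q t u)
  | .inr false => A
  | .inr true => B

theorem EndP.left {q : ℕ} {t : RT} {p : ℕ → Prop} {B : Prop} {b : Bool} (h : b = false) :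
    EndP q t p True B (.inr b) := by subst h; trivial

theorem EndP.right {q : ℕ} {t : RT} {p : ℕ → Prop} {A : Prop} {b : Bool} (h : b = true) :
    EndP q t p A True (.inr b) := by subst h; trivial

theorem ends_eA (q a : ℕ) : ∀ (t : RT) (x : (t.loc q).E), x ∈ RT.eA q a t →
    EndP q t (fun p => p ≤ cutA q a t) True False ((t.loc q).a x) ∧
    EndP q t (fun p => p ≤ cutA q a t) True False ((t.loc q).b x) := by
  rintro (_ | _ | _) x hx
  · rcases eA_T.1 hx with ⟨i, rfl, h⟩ | ⟨i, rfl, h⟩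
    · constructor
      · show 1 + i.1 ≤ 2 + 2 * a; omega
      · show 1 + (i.1 + 1) ≤ 2 + 2 * a; omega
    · constructor
      · show 1 + i.1 ≤ 2 + 2 * a; omega
      · exact EndP.left (by rw [decide_eq_false_iff_not]; omega)
  · rcases eA_G.1 hx with ⟨i, rfl⟩ | rfl
    · have := i.2
      constructor
      · show 1 + i.1 ≤ 2 * q + 4; omega
      · show 1 + (i.1 + 1) ≤ 2 * q + 4; omega
    · constructor
      · show 1 + min (2 * q + 1) (2 * q + 1) ≤ 2 * q + 4; omega
      · exact EndP.left (by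
          show xor false (decide ((2 * q + 1) % 2 = 0)) = false
          rw [Bool.false_xor, decide_eq_false_iff_not]; omega)
  · rcases eA_W.1 hx with (rfl | ⟨i, rfl⟩) | rfl
    · constructor
      · show 1 ≤ 2 * q + 4; omega
      · show 2 + 0 ≤ 2 * q + 4; omega
    · have := i.2
      constructor
      · show 2 + i.1 ≤ 2 * q + 4; omega
      · show 2 + (i.1 + 1) ≤ 2 * q + 4; omega
    · constructor
      · show 2 + min (2 * (q - 1) + 1) (2 * (q - 1) + 1) ≤ 2 * q + 4; omega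
      · exact EndP.left (by
          show xor false (decide ((2 * (q - 1) + 1) % 2 = 0 ∧ 2 * (q - 1) + 1 ≠ 0)) = false
          rw [Bool.false_xor, decide_eq_false_iff_not]; omega)

theorem ends_sB (q a : ℕ) : ∀ (t : RT) (x : (t.loc q).E), x ∈ RT.sB q a t →
    EndP q t (fun p => cutB q a t < p) False True ((t.loc q).a x) ∧
    EndP q t (fun p => cutB q a t < p) False True ((t.loc q).b x) := by
  rintro (_ | _ | _) x hx
  · rcases sB_T.1 hx with ⟨i, rfl, h⟩ | ⟨i, rfl, h⟩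
    · constructor
      · show 2 * a < 1 + i.1; omega
      · show 2 * a < 1 + (i.1 + 1); omega
    · constructor
      · show 2 * a < 1 + i.1; omega
      · exact EndP.right (by rw [decide_eq_true_iff]; omega)
  · rcases sB_G.1 hx with ⟨i, rfl⟩ | rfl
    · have := i.2
      constructor
      · show 2 * q + 4 < 4 * q + 9 - i.1; omega
      · show 2 * q + 4 < 4 * q + 9 - (i.1 + 1); omega
    · constructor
      · show 2 * q + 4 < 4 * q + 9 - min (2 * q + 1) (2 * q + 1); omega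
      · exact EndP.right (by
          show xor true (decide ((2 * q + 1) % 2 = 0)) = true
          have : ¬ (2 * q + 1) % 2 = 0 := by omega
          rw [decide_eq_false this]; rfl)
  · rcases sB_W.1 hx with (rfl | ⟨i, rfl⟩) | rfl
    · constructor
      · show 2 * q + 4 < 4 * q + 9; omega
      · show 2 * q + 4 < 4 * q + 8 - 0; omega
    · have := i.2
      constructor
      · show 2 * q + 4 < 4 * q + 8 - i.1; omega
      · show 2 * q + 4 < 4 * q + 8 - (i.1 + 1); omega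
    · constructor
      · show 2 * q + 4 < 4 * q + 8 - min (2 * (q - 1) + 1) (2 * (q - 1) + 1); omega
      · exact EndP.right (by
          show xor true (decide ((2 * (q - 1) + 1) % 2 = 0 ∧ 2 * (q - 1) + 1 ≠ 0)) = true
          have : ¬ ((2 * (q - 1) + 1) % 2 = 0 ∧ 2 * (q - 1) + 1 ≠ 0) := by omega
          rw [decide_eq_false this]; rfl)

theorem vloc_en (q : ℕ) : ∀ t : RT, vloc q t (t.loc q).en = 1 := by
  rintro (_ | _ | _) <;> rfl

theorem vloc_ex (q : ℕ) : ∀ t : RT, vloc q t (t.loc q).ex = mm q t + 1 := by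
  rintro (_ | _ | _)
  · show 1 + (2 * (q + 1) + 1) = 2 * q + 3 + 1; omega
  · rfl
  · rfl

theorem ends_eR (q : ℕ) : ∀ t : RT,
    ((t.loc q).a (RT.eR q t) = .inl (RT.w1 q t) ∧ (t.loc q).b (RT.eR q t) = .inl (t.loc q).ex) ∨
    ((t.loc q).a (RT.eR q t) = .inl (t.loc q).ex ∧ (t.loc q).b (RT.eR q t) = .inl (RT.w1 q t)) := by
  rintro (_ | _ | _)
  · left; exact ⟨rfl, rfl⟩
  · right; exact ⟨rfl, rfl⟩
  · right; exact ⟨rfl, rfl⟩

theorem ends_eL (q : ℕ) : ∀ t : RT,
    (t.loc q).a (RT.eL q t) = .inl (t.loc q).en ∧ (t.loc q).b (RT.eL q t) = .inl (RT.v1 q t) := by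
  rintro (_ | _ | _) <;> exact ⟨rfl, rfl⟩

theorem ends_rho1 (q : ℕ) : ∀ t : RT,
    (t.loc q).a (RT.rho1 q t) = .inl (RT.w1 q t) ∧ (t.loc q).b (RT.rho1 q t) = .inr true := by
  rintro (_ | _ | _)
  · refine ⟨rfl, ?_⟩
    show (Sum.inr (decide ((2 * q + 2) % 2 = 0)) : Fin (2 * (q + 1) + 2) ⊕ Bool) = Sum.inr true
    rw [decide_eq_true (by omega)]
  · refine ⟨?_, rfl⟩
    show (Sum.inl (true, ⟨min 1 (2 * q + 1), _⟩) : (Bool × Fin (2 * q + 2)) ⊕ Bool) =
      Sum.inl (true, ⟨1, _⟩)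
    congr 2
  · refine ⟨?_, rfl⟩
    show (Sum.inl (true, .x ⟨min 0 (2 * (q - 1) + 1), _⟩) : (Bool × WV (q - 1)) ⊕ Bool) =
      Sum.inl (true, .x ⟨0, _⟩)
    congr 3

theorem ends_lam1 (q : ℕ) : ∀ t : RT,
    (t.loc q).a (RT.lam1 q t) = .inl (RT.v1 q t) ∧ (t.loc q).b (RT.lam1 q t) = .inr false := by
  rintro (_ | _ | _)
  · exact ⟨rfl, rfl⟩
  · refine ⟨?_, rfl⟩
    show (Sum.inl (false, ⟨min 1 (2 * q + 1), _⟩) : (Bool × Fin (2 * q + 2)) ⊕ Bool) =
      Sum.inl (false, ⟨1, _⟩)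
    congr 2
  · refine ⟨?_, rfl⟩
    show (Sum.inl (false, .x ⟨min 0 (2 * (q - 1) + 1), _⟩) : (Bool × WV (q - 1)) ⊕ Bool) =
      Sum.inl (false, .x ⟨0, _⟩)
    congr 3

theorem fleg_rho1 (q : ℕ) : ∀ t : RT, RT.fleg q t (RT.rho1 q t) := by
  rintro (_ | _ | _)
  · exact rfl
  · exact ⟨⟨1, by omega⟩, rfl, Or.inl rfl⟩
  · exact ⟨⟨0, by omega⟩, rfl, Or.inl rfl⟩

theorem fleg_lam1 (q : ℕ) : ∀ t : RT, RT.fleg q t (RT.lam1 q t) := by
  rintro (_ | _ | _)
  · exact rfl
  · exact ⟨⟨1, by omega⟩, rfl, Or.inl rfl⟩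
  · exact ⟨⟨0, by omega⟩, rfl, Or.inl rfl⟩

theorem row_eR (q : ℕ) : ∀ t : RT, RT.isRow q t (RT.eR q t) ∧ ploc q t (RT.eR q t) = mm q t := by
  rintro (_ | _ | _)
  · refine ⟨rfl, ?_⟩
    show 1 + (2 * q + 2) = 2 * q + 3; omega
  · exact ⟨rfl, rfl⟩
  · exact ⟨Or.inl rfl, rfl⟩

theorem row_eL (q : ℕ) : ∀ t : RT, RT.isRow q t (RT.eL q t) ∧ ploc q t (RT.eL q t) = 1 := by
  rintro (_ | _ | _)
  · exact ⟨rfl, rfl⟩
  · exact ⟨rfl, rfl⟩
  · exact ⟨Or.inl rfl, rfl⟩

theorem row_bounds (q : ℕ) : ∀ (t : RT) (x : (t.loc q).E), RT.isRow q t x →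
    1 ≤ ploc q t x ∧ ploc q t x ≤ mm q t := by
  rintro (_ | _ | _) x hx
  · obtain k | i : TE q := x
    · cases hx
    · have := i.2
      show 1 ≤ 1 + i.1 ∧ 1 + i.1 ≤ 2 * q + 3
      omega
  · obtain ⟨b, k | i⟩ : GE q := x
    · cases hx
    · have := i.2
      cases b
      · show 1 ≤ 1 + i.1 ∧ 1 + i.1 ≤ 4 * q + 8; omega
      · show 1 ≤ 4 * q + 8 - i.1 ∧ 4 * q + 8 - i.1 ≤ 4 * q + 8; omega
  · obtain ⟨b, x⟩ : WE' q := x
    rcases (show x = .s3 ∨ ∃ i, x = .row i from hx) with rfl | ⟨i, rfl⟩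
    · cases b
      · show 1 ≤ 1 ∧ 1 ≤ 4 * q + 8; omega
      · show 1 ≤ 4 * q + 8 ∧ 4 * q + 8 ≤ 4 * q + 8; omega
    · have := i.2
      cases b
      · show 1 ≤ 2 + i.1 ∧ 2 + i.1 ≤ 4 * q + 8; omega
      · show 1 ≤ 4 * q + 7 - i.1 ∧ 4 * q + 7 - i.1 ≤ 4 * q + 8; omega

theorem row_inj (q : ℕ) : ∀ (t : RT) (x y : (t.loc q).E), RT.isRow q t x → RT.isRow q t y →
    ploc q t x = ploc q t y → x = y := by
  rintro (_ | _ | _) x y hx hy h
  · obtain k | i : TE q := x
    · cases hx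
    · obtain k | j : TE q := y
      · cases hy
      · have h' : 1 + i.1 = 1 + j.1 := h
        have : i = j := Fin.ext (by omega)
        rw [this]
  · obtain ⟨b, k | i⟩ : GE q := x
    · cases hx
    · obtain ⟨c, k | j⟩ : GE q := y
      · cases hy
      · have h1 := i.2
        have h2 := j.2
        cases b <;> cases c
        · have h' : 1 + i.1 = 1 + j.1 := h
          have : i = j := Fin.ext (by omega)
          rw [this]
        · have h' : 1 + i.1 = 4 * q + 8 - j.1 := h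
          omega
        · have h' : 4 * q + 8 - i.1 = 1 + j.1 := h
          omega
        · have h' : 4 * q + 8 - i.1 = 4 * q + 8 - j.1 := h
          have : i = j := Fin.ext (by omega)
          rw [this]
  · obtain ⟨b, x⟩ : WE' q := x
    obtain ⟨c, y⟩ : WE' q := y
    rcases (show x = .s3 ∨ ∃ i, x = .row i from hx) with rfl | ⟨i, rfl⟩ <;>
      rcases (show y = .s3 ∨ ∃ i, y = .row i from hy) with rfl | ⟨j, rfl⟩
    · cases b <;> cases c
      · rfl
      · have h' : 1 = 4 * q + 8 := h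
        omega
      · have h' : 4 * q + 8 = 1 := h
        omega
      · rfl
    · have h2 := j.2
      cases b <;> cases c
      · have h' : 1 = 2 + j.1 := h
        omega
      · have h' : 1 = 4 * q + 7 - j.1 := h
        omega
      · have h' : 4 * q + 8 = 2 + j.1 := h
        omega
      · have h' : 4 * q + 8 = 4 * q + 7 - j.1 := h
        omega
    · have h1 := i.2
      cases b <;> cases c
      · have h' : 2 + i.1 = 1 := h
        omega
      · have h' : 2 + i.1 = 4 * q + 8 := h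
        omega
      · have h' : 4 * q + 7 - i.1 = 1 := h
        omega
      · have h' : 4 * q + 7 - i.1 = 4 * q + 8 := h
        omega
    · have h1 := i.2
      have h2 := j.2
      cases b <;> cases c
      · have h' : 2 + i.1 = 2 + j.1 := h
        have : i = j := Fin.ext (by omega)
        rw [this]
      · have h' : 2 + i.1 = 4 * q + 7 - j.1 := h
        omega
      · have h' : 4 * q + 7 - i.1 = 2 + j.1 := h
        omega
      · have h' : 4 * q + 7 - i.1 = 4 * q + 7 - j.1 := h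
        have : i = j := Fin.ext (by omega)
        rw [this]

theorem row_not_fleg (q : ℕ) : ∀ (t : RT) (x : (t.loc q).E), RT.isRow q t x →
    ¬ RT.fleg q t x := by
  rintro (_ | _ | _) x hx hf
  · obtain k | i : TE q := x
    · cases hx
    · cases hf
  · obtain ⟨b, k | i⟩ : GE q := x
    · cases hx
    · obtain ⟨k, h, -⟩ := hf
      cases h
  · obtain ⟨b, x⟩ : WE' q := x
    obtain ⟨k, h, -⟩ := hf
    rcases (show x = .s3 ∨ ∃ i, x = .row i from hx) with rfl | ⟨i, rfl⟩ <;> cases h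

theorem cutp_T (q a : ℕ) : cutp q a .T = 1 + 2 * a := rfl

/-! the parts -/

theorem part_eB (q a : ℕ) : ∀ (t : RT) (x : (t.loc q).E), x ∈ RT.eB q a t →
    RT.part q t x = none ∨ RT.part q t x = some false := by
  rintro (_ | _ | _) x hx
  · exact Or.inl rfl
  · right; rcases eB_G.1 hx with ⟨i, rfl⟩ | rfl <;> rfl
  · right; rcases eB_W.1 hx with (rfl | ⟨i, rfl⟩) | rfl <;> rfl

theorem part_sA (q a : ℕ) : ∀ (t : RT) (x : (t.loc q).E), x ∈ RT.sA q a t →
    RT.part q t x = none ∨ RT.part q t x = some true := by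
  rintro (_ | _ | _) x hx
  · exact Or.inl rfl
  · right; rcases sA_G.1 hx with ⟨i, rfl⟩ | rfl <;> rfl
  · right; rcases sA_W.1 hx with (rfl | ⟨i, rfl⟩) | rfl <;> rfl

theorem part_eA (q a : ℕ) : ∀ (t : RT) (x : (t.loc q).E), x ∈ RT.eA q a t →
    RT.part q t x = none ∨ RT.part q t x = some false := by
  rintro (_ | _ | _) x hx
  · exact Or.inl rfl
  · right; rcases eA_G.1 hx with ⟨i, rfl⟩ | rfl <;> rfl
  · right; rcases eA_W.1 hx with (rfl | ⟨i, rfl⟩) | rfl <;> rfl

theorem part_sB (q a : ℕ) : ∀ (t : RT) (x : (t.loc q).E), x ∈ RT.sB q a t →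
    RT.part q t x = none ∨ RT.part q t x = some true := by
  rintro (_ | _ | _) x hx
  · exact Or.inl rfl
  · right; rcases sB_G.1 hx with ⟨i, rfl⟩ | rfl <;> rfl
  · right; rcases sB_W.1 hx with (rfl | ⟨i, rfl⟩) | rfl <;> rfl

end C2
end Pool.Agent.CC
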