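import Pool.Agent.Lib_helper74.CCF.Chains

/-! SSLOTS: the slots of through data satisfy `Slots`; the standard through data. -/

namespace Pool.Agent.CC

open Gph

section SS93_local

variable {M : Type*} [AddCommGroup M]

theorem SS93_path (n : ℕ) (h2 : ∀ x : M, x + x = 0) (g : ℕ → M) :
    ∀ m, m ≤ n → ∑ i ∈ Finset.univ.filter (fun i : Fin n => i.1 < m), (g i.1 + g (i.1 + 1)) =
      g 0 + g m := by
  intro m
  induction m with
  | zero => intro _; simp [h2]
  | succ m ih =>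
    intro hm
    have h1 : Finset.univ.filter (fun i : Fin n => i.1 < m + 1) =
        insert ⟨m, by omega⟩ (Finset.univ.filter (fun i : Fin n => i.1 < m)) := by
      ext i
      simp only [Finset.mem_filter, Finset.mem_univ, true_and, Finset.mem_insert, Fin.ext_iff]
      omega
    rw [h1, Finset.sum_insert (by simp), ih (by omega)]
    have : g m + g (m + 1) + (g 0 + g m) = g 0 + g (m + 1) + (g m + g m) := by abel
    rw [this, h2, add_zero]

theorem SS93_path' (n : ℕ) (h2 : ∀ x : M, x + x = 0) (g : ℕ → M) (m : ℕ) (hm : m ≤ n) :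
    ∑ i ∈ Finset.univ.filter (fun i : Fin n => m ≤ i.1), (g i.1 + g (i.1 + 1)) =
      g m + g n := by
  have h := SS93_path n h2 g n le_rfl
  have h1 : Finset.univ.filter (fun i : Fin n => i.1 < n) = Finset.univ := by
    ext i; simp
  rw [h1] at h
  have h3 := Finset.sum_filter_add_sum_filter_not Finset.univ (fun i : Fin n => i.1 < m)
    (fun i => g i.1 + g (i.1 + 1))
  rw [h, SS93_path n h2 g m hm] at h3
  simp only [not_lt] at h3
  have h4 : ∀ x y z w : M, x + y + z = x + w → z = y + w := by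
    intro x y z w e
    have h5 : y + (x + x) + (y + z) = y + (x + (x + y + z)) := by abel
    rw [e, h2, add_zero] at h5
    have h6 : y + (y + z) = z := by rw [← add_assoc, h2, zero_add]
    have h7 : y + (x + (x + w)) = y + w := by
      rw [← add_assoc x x w, h2, zero_add]
    rw [h6, h7] at h5
    exact h5
  exact h4 _ _ _ _ h3

theorem SS93_path_all (n : ℕ) (h2 : ∀ x : M, x + x = 0) (g : ℕ → M) :
    ∑ i : Fin n, (g i.1 + g (i.1 + 1)) = g 0 + g n := by
  have h := SS93_path n h2 g n le_rfl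
  have h1 : Finset.univ.filter (fun i : Fin n => i.1 < n) = Finset.univ := by
    ext i; simp
  rwa [h1] at h

end SS93_local

/-- The local boundary sum of a set of edges. -/
def SS93_ls {M : Type*} [AddCommGroup M] (L : Loc) (f : L.V ⊕ Bool → M) (s : Finset L.E) : M :=
  ∑ x ∈ s, (f (L.a x) + f (L.b x))

theorem SS93_ls_union {M : Type*} [AddCommGroup M] (L : Loc) (f : L.V ⊕ Bool → M)
    (s t : Finset L.E) (h : Disjoint s t) : SS93_ls L f (s ∪ t) = SS93_ls L f s + SS93_ls L f t :=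
  Finset.sum_union h

section T

variable {M : Type*} [AddCommGroup M] (q : ℕ)

/-- total version of the row vertices of `T` -/
def SS93_gT (f : (TLoc (q + 1)).V ⊕ Bool → M) (k : ℕ) : M :=
  if h : k < 2 * (q + 1) + 2 then f (.inl (⟨k, h⟩ : Fin _)) else 0

theorem SS93_gT_eq (f : (TLoc (q + 1)).V ⊕ Bool → M) (k : ℕ) (h : k < 2 * (q + 1) + 2) :
    SS93_gT q f k = f (.inl (⟨k, h⟩ : Fin _)) := dif_pos h

theorem SS93_lowT (h2 : ∀ x : M, x + x = 0) (f : (TLoc (q + 1)).V ⊕ Bool → M) (m : ℕ)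
    (hm : m ≤ 2 * (q + 1) + 1) :
    SS93_ls (TLoc (q + 1)) f (RT.lowT q m) = SS93_gT q f 0 + SS93_gT q f m := by
  rw [← SS93_path (2 * (q + 1) + 1) h2 (SS93_gT q f) m hm]
  unfold SS93_ls RT.lowT
  refine (Finset.sum_map _ _ _).trans ?_
  refine Finset.sum_congr rfl fun i _ => ?_
  rw [SS93_gT_eq q f i.1 (by omega), SS93_gT_eq q f (i.1 + 1) (by omega)]
  rfl

theorem SS93_highT (h2 : ∀ x : M, x + x = 0) (f : (TLoc (q + 1)).V ⊕ Bool → M) (m : ℕ)
    (hm : m ≤ 2 * (q + 1) + 1) :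
    SS93_ls (TLoc (q + 1)) f (RT.highT q m) = SS93_gT q f m + SS93_gT q f (2 * (q + 1) + 1) := by
  rw [← SS93_path' (2 * (q + 1) + 1) h2 (SS93_gT q f) m hm]
  unfold SS93_ls RT.highT
  refine (Finset.sum_map _ _ _).trans ?_
  refine Finset.sum_congr rfl fun i _ => ?_
  rw [SS93_gT_eq q f i.1 (by omega), SS93_gT_eq q f (i.1 + 1) (by omega)]
  rfl

theorem SS93_legT (f : (TLoc (q + 1)).V ⊕ Bool → M) (m : ℕ)
    (hm : m < 2 * (q + 1) + 2) :
    SS93_ls (TLoc (q + 1)) f (RT.legT q m) = SS93_gT q f m + f (.inr (decide (m % 2 = 0))) := by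
  unfold SS93_ls RT.legT
  refine (Finset.sum_map _ _ _).trans ?_
  have h1 : Finset.univ.filter (fun i : Fin (2 * (q + 1) + 2) => i.1 = m) = {⟨m, hm⟩} := by
    ext i
    simp [Fin.ext_iff]
  rw [h1, Finset.sum_singleton, SS93_gT_eq q f m hm]
  rfl

theorem SS93_disj_low (m k : ℕ) : Disjoint (RT.lowT q m) (RT.legT q k) := by
  rw [Finset.disjoint_left]
  rintro x hx hy
  simp only [RT.lowT, RT.legT, Finset.mem_map, Function.Embedding.coeFn_mk] at hx hy
  obtain ⟨i, -, rfl⟩ := hx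
  obtain ⟨j, -, h⟩ := hy
  cases h

theorem SS93_disj_high (m k : ℕ) : Disjoint (RT.highT q m) (RT.legT q k) := by
  rw [Finset.disjoint_left]
  rintro x hx hy
  simp only [RT.highT, RT.legT, Finset.mem_map, Function.Embedding.coeFn_mk] at hx hy
  obtain ⟨i, -, rfl⟩ := hx
  obtain ⟨j, -, h⟩ := hy
  cases h

end T

section GW

variable {M : Type*} [AddCommGroup M] (q : ℕ)

theorem SS93_rowsG (h2 : ∀ x : M, x + x = 0) (s : Bool) (f : (GLoc q).V ⊕ Bool → M) :
    SS93_ls (GLoc q) f (RT.rows q s .G) = f (.inl (s, (⟨0, by omega⟩ : Fin _))) +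
      f (.inl (s, (⟨2 * q + 1, by omega⟩ : Fin _))) := by
  have h1 : Finset.univ.filter (fun e : Bool × (Fin (2 * q + 3) ⊕ Fin (2 * q + 1)) =>
      e.1 = s ∧ e.2.isRight) = (Finset.univ : Finset (Fin (2 * q + 1))).map
      ⟨fun i => ((s, .inr i) : Bool × (Fin (2 * q + 3) ⊕ Fin (2 * q + 1))), by
        intro i j h
        simpa using h⟩ := by
    ext x
    rcases x with ⟨s', k | i⟩
    · simp
    · simp only [Finset.mem_filter, Finset.mem_univ, true_and, Sum.isRight_inr,
        and_true, Finset.mem_map, Function.Embedding.coeFn_mk, Prod.mk.injEq, Sum.inr.injEq]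
      constructor
      · rintro rfl
        exact ⟨i, rfl, rfl⟩
      · rintro ⟨j, rfl, -⟩
        rfl
  refine (congrArg (SS93_ls (GLoc q) f) h1).trans ?_
  unfold SS93_ls
  refine (Finset.sum_map _ _ _).trans ?_
  have h3 := SS93_path_all (2 * q + 1) h2 (fun k : ℕ => if h : k < 2 * q + 2 then
    f (.inl (s, (⟨k, h⟩ : Fin _))) else 0)
  rw [dif_pos (by omega), dif_pos (by omega)] at h3
  rw [← h3]
  refine Finset.sum_congr rfl fun i _ => ?_
  rw [dif_pos (by omega), dif_pos (by omega)]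
  rfl

theorem SS93_rowsW (h2 : ∀ x : M, x + x = 0) (s : Bool) (f : (WLoc (q - 1)).V ⊕ Bool → M) :
    SS93_ls (WLoc (q - 1)) f (RT.rows q s .W) = f (.inl (s, WV.w)) +
      f (.inl (s, WV.x (⟨2 * (q - 1) + 1, by omega⟩ : Fin _))) := by
  have h1 : Finset.univ.filter (fun e : Bool × WE (q - 1) => e.1 = s ∧
      (e.2 = .s3 ∨ ∃ i, e.2 = .row i)) =
      ({((s, .s3) : Bool × WE (q - 1))} : Finset (Bool × WE (q - 1))) ∪
      (Finset.univ : Finset (Fin (2 * (q - 1) + 1))).map
      ⟨fun i => ((s, .row i) : Bool × WE (q - 1)), by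
        intro i j h
        simpa using h⟩ := by
    ext x
    rcases x with ⟨s', e⟩
    simp only [Finset.mem_filter, Finset.mem_univ, true_and, Finset.mem_union,
      Finset.mem_singleton, Finset.mem_map, Function.Embedding.coeFn_mk, Prod.mk.injEq]
    constructor
    · rintro ⟨rfl, h | ⟨i, h⟩⟩
      · exact Or.inl ⟨rfl, h⟩
      · exact Or.inr ⟨i, rfl, h.symm⟩
    · rintro (⟨rfl, h⟩ | ⟨i, rfl, h⟩)
      · exact ⟨rfl, Or.inl h⟩
      · exact ⟨rfl, Or.inr ⟨i, h.symm⟩⟩
  have hd : Disjoint ({((s, .s3) : Bool × WE (q - 1))} : Finset (Bool × WE (q - 1)))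
      ((Finset.univ : Finset (Fin (2 * (q - 1) + 1))).map
      ⟨fun i => ((s, .row i) : Bool × WE (q - 1)), by
        intro i j h
        simpa using h⟩) := by
    rw [Finset.disjoint_left]
    rintro x hx hy
    simp only [Finset.mem_singleton, Finset.mem_map, Function.Embedding.coeFn_mk] at hx hy
    obtain ⟨i, -, h⟩ := hy
    rw [hx] at h
    simp at h
  refine (congrArg (SS93_ls (WLoc (q - 1)) f) h1).trans ?_
  refine (SS93_ls_union (WLoc (q - 1)) f _ _ hd).trans ?_
  unfold SS93_ls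
  refine (congrArg₂ (· + ·) (Finset.sum_singleton _ _) (Finset.sum_map _ _ _)).trans ?_
  have h3 := SS93_path_all (2 * (q - 1) + 1) h2 (fun k : ℕ => if h : k < 2 * (q - 1) + 2 then
    f (.inl (s, WV.x (⟨k, h⟩ : Fin _))) else 0)
  rw [dif_pos (by omega), dif_pos (by omega)] at h3
  have h4 : ∑ x : Fin (2 * (q - 1) + 1), (f ((WLoc (q - 1)).a (s, .row x)) +
      f ((WLoc (q - 1)).b (s, .row x))) = f (.inl (s, WV.x (⟨0, by omega⟩ : Fin _))) +
      f (.inl (s, WV.x (⟨2 * (q - 1) + 1, by omega⟩ : Fin _))) := by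
    rw [← h3]
    refine Finset.sum_congr rfl fun i _ => ?_
    rw [dif_pos (by omega), dif_pos (by omega)]
    rfl
  have h5 : f ((WLoc (q - 1)).a (s, .s3)) + f ((WLoc (q - 1)).b (s, .s3)) =
      f (.inl (s, WV.w)) + f (.inl (s, WV.x (⟨0, by omega⟩ : Fin _))) := rfl
  have h6 : ∀ x y z : M, (x + y) + (y + z) = x + z := by
    intro x y z
    have : (x + y) + (y + z) = x + z + (y + y) := by abel
    rw [this, h2, add_zero]
  refine (congrArg₂ (· + ·) h5 h4).trans (h6 _ _ _)

end GW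

section all

variable {M : Type*} [AddCommGroup M] (q : ℕ)

theorem SS93_char (h2 : ∀ x : M, x + x = 0) (x y z : M) : (x + y) + (y + z) = x + z := by
  have : (x + y) + (y + z) = x + z + (y + y) := by abel
  rw [this, h2, add_zero]

theorem SS93_char' (h2 : ∀ x : M, x + x = 0) (x y z : M) : (x + y) + (x + z) = y + z := by
  have : (x + y) + (x + z) = y + z + (x + x) := by abel
  rw [this, h2, add_zero]

theorem SS93_legG (s : Bool) (k : ℕ) (hk : k < 2 * q + 3) (f : (GLoc q).V ⊕ Bool → M) :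
    SS93_ls (GLoc q) f {(s, .inl ⟨k, hk⟩)} = f (.inl (s, ⟨min k (2 * q + 1), by omega⟩)) +
      f (.inr (xor s (decide (k % 2 = 0)))) := Finset.sum_singleton _ _

theorem SS93_legW (s : Bool) (k : ℕ) (hk : k < 2 * q + 3) (f : (WLoc q).V ⊕ Bool → M) :
    SS93_ls (WLoc q) f {(s, .leg ⟨k, hk⟩)} = f (.inl (s, .x ⟨min k (2 * q + 1), by omega⟩)) +
      f (.inr (xor s (decide (k % 2 = 0 ∧ k ≠ 0)))) := Finset.sum_singleton _ _

theorem SS93_GG (h2 : ∀ x : M, x + x = 0) (s : Bool) (k : ℕ) (hk : k < 2 * q + 3)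
    (hk' : 2 * q + 1 ≤ k) (b : Bool) (hb : xor s (decide (k % 2 = 0)) = b)
    (f : (GLoc q).V ⊕ Bool → M) :
    SS93_ls (GLoc q) f (RT.rows q s .G ∪
      ({((s, .inl ⟨k, hk⟩) : Bool × (Fin (2 * q + 3) ⊕ Fin (2 * q + 1)))} :
        Finset (Bool × (Fin (2 * q + 3) ⊕ Fin (2 * q + 1))))) =
      f (.inl (s, (⟨0, by omega⟩ : Fin _))) + f (.inr b) := by
  have hd : Disjoint (RT.rows q s .G)
      ({((s, .inl ⟨k, hk⟩) : Bool × (Fin (2 * q + 3) ⊕ Fin (2 * q + 1)))} :
        Finset (Bool × (Fin (2 * q + 3) ⊕ Fin (2 * q + 1)))) := by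
    have : Disjoint (Finset.univ.filter
        (fun e : Bool × (Fin (2 * q + 3) ⊕ Fin (2 * q + 1)) => e.1 = s ∧ e.2.isRight))
        {((s, .inl ⟨k, hk⟩) : Bool × (Fin (2 * q + 3) ⊕ Fin (2 * q + 1)))} := by
      rw [Finset.disjoint_singleton_right]
      simp
    exact this
  refine (SS93_ls_union (GLoc q) f _ _ hd).trans ?_
  refine (congrArg₂ (· + ·) (SS93_rowsG q h2 s f) (SS93_legG q s k hk f)).trans ?_
  have h1 : (⟨min k (2 * q + 1), by omega⟩ : Fin (2 * q + 2)) = ⟨2 * q + 1, by omega⟩ :=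
    Fin.ext (by simp; omega)
  rw [hb, h1]
  exact SS93_char h2 _ _ _

theorem SS93_WW (h2 : ∀ x : M, x + x = 0) (s : Bool) (k : ℕ) (hk : k < 2 * (q - 1) + 3)
    (hk' : 2 * (q - 1) + 1 ≤ k) (b : Bool) (hb : xor s (decide (k % 2 = 0 ∧ k ≠ 0)) = b)
    (f : (WLoc (q - 1)).V ⊕ Bool → M) :
    SS93_ls (WLoc (q - 1)) f (RT.rows q s .W ∪
      ({((s, .leg ⟨k, hk⟩) : Bool × WE (q - 1))} : Finset (Bool × WE (q - 1)))) =
      f (.inl (s, WV.w)) + f (.inr b) := by
  have hd : Disjoint (RT.rows q s .W)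
      ({((s, .leg ⟨k, hk⟩) : Bool × WE (q - 1))} : Finset (Bool × WE (q - 1))) := by
    have : Disjoint (Finset.univ.filter (fun e : Bool × WE (q - 1) => e.1 = s ∧
        (e.2 = .s3 ∨ ∃ i, e.2 = .row i))) {((s, .leg ⟨k, hk⟩) : Bool × WE (q - 1))} := by
      rw [Finset.disjoint_singleton_right]
      simp
    exact this
  refine (SS93_ls_union (WLoc (q - 1)) f _ _ hd).trans ?_
  refine (congrArg₂ (· + ·) (SS93_rowsW q h2 s f) (SS93_legW (q - 1) s k hk f)).trans ?_
  have h1 : (⟨min k (2 * (q - 1) + 1), by omega⟩ : Fin (2 * (q - 1) + 2)) =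
      ⟨2 * (q - 1) + 1, by omega⟩ :=
    Fin.ext (by simp; omega)
  rw [hb, h1]
  exact SS93_char h2 _ _ _

theorem SS93_eB (h2 : ∀ x : M, x + x = 0) (t : RT) (a : ℕ) (ha : a < q + 2)
    (f : (t.loc q).V ⊕ Bool → M) :
    SS93_ls (t.loc q) f (RT.eB q a t) = f (.inl (t.loc q).en) + f (.inr true) := by
  cases t with
  | T =>
    refine (SS93_ls_union (TLoc (q + 1)) f _ _ (SS93_disj_low q _ _)).trans ?_
    rw [SS93_lowT q h2 f (2 * a) (by omega), SS93_legT q f (2 * a) (by omega),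
      SS93_char h2, SS93_gT_eq q f 0 (by omega)]
    rw [decide_eq_true (by omega : 2 * a % 2 = 0)]
    rfl
  | G =>
    exact SS93_GG q h2 false (2 * q + 2) (by omega) (by omega) true (by simp) f
  | W =>
    exact SS93_WW q h2 false (2 * (q - 1) + 2) (by omega) (by omega) true (by simp) f

theorem SS93_eA (h2 : ∀ x : M, x + x = 0) (t : RT) (a : ℕ) (ha : a < q + 2)
    (f : (t.loc q).V ⊕ Bool → M) :
    SS93_ls (t.loc q) f (RT.eA q a t) = f (.inl (t.loc q).en) + f (.inr false) := by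
  cases t with
  | T =>
    refine (SS93_ls_union (TLoc (q + 1)) f _ _ (SS93_disj_low q _ _)).trans ?_
    rw [SS93_lowT q h2 f (2 * a + 1) (by omega), SS93_legT q f (2 * a + 1) (by omega),
      SS93_char h2, SS93_gT_eq q f 0 (by omega)]
    rw [decide_eq_false (by omega : ¬ (2 * a + 1) % 2 = 0)]
    rfl
  | G =>
    exact SS93_GG q h2 false (2 * q + 1) (by omega) (by omega) false
      (by rw [decide_eq_false (by omega : ¬ (2 * q + 1) % 2 = 0)]; rfl) f
  | W =>
    exact SS93_WW q h2 false (2 * (q - 1) + 1) (by omega) (by omega) false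
      (by rw [decide_eq_false (by omega : ¬ ((2 * (q - 1) + 1) % 2 = 0 ∧ _))]; rfl) f

theorem SS93_sA (h2 : ∀ x : M, x + x = 0) (t : RT) (a : ℕ) (ha : a < q + 2)
    (f : (t.loc q).V ⊕ Bool → M) :
    SS93_ls (t.loc q) f (RT.sA q a t) = f (.inr false) + f (.inl (t.loc q).ex) := by
  cases t with
  | T =>
    refine (SS93_ls_union (TLoc (q + 1)) f _ _ (SS93_disj_high q _ _)).trans ?_
    rw [SS93_highT q h2 f (2 * a + 1) (by omega), SS93_legT q f (2 * a + 1) (by omega),
      SS93_char' h2, SS93_gT_eq q f (2 * (q + 1) + 1) (by omega)]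
    rw [decide_eq_false (by omega : ¬ (2 * a + 1) % 2 = 0), add_comm]
    rfl
  | G =>
    exact (SS93_GG q h2 true (2 * q + 2) (by omega) (by omega) false (by simp) f).trans
      (add_comm _ _)
  | W =>
    exact (SS93_WW q h2 true (2 * (q - 1) + 2) (by omega) (by omega) false (by simp) f).trans
      (add_comm _ _)

theorem SS93_sB (h2 : ∀ x : M, x + x = 0) (t : RT) (a : ℕ) (ha : a < q + 2)
    (f : (t.loc q).V ⊕ Bool → M) :
    SS93_ls (t.loc q) f (RT.sB q a t) = f (.inr true) + f (.inl (t.loc q).ex) := by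
  cases t with
  | T =>
    refine (SS93_ls_union (TLoc (q + 1)) f _ _ (SS93_disj_high q _ _)).trans ?_
    rw [SS93_highT q h2 f (2 * a) (by omega), SS93_legT q f (2 * a) (by omega),
      SS93_char' h2, SS93_gT_eq q f (2 * (q + 1) + 1) (by omega)]
    rw [decide_eq_true (by omega : 2 * a % 2 = 0), add_comm]
    rfl
  | G =>
    exact (SS93_GG q h2 true (2 * q + 1) (by omega) (by omega) true
      (by rw [decide_eq_false (by omega : ¬ (2 * q + 1) % 2 = 0)]; rfl) f).trans
      (add_comm _ _)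
  | W =>
    exact (SS93_WW q h2 true (2 * (q - 1) + 1) (by omega) (by omega) true
      (by rw [decide_eq_false (by omega : ¬ ((2 * (q - 1) + 1) % 2 = 0 ∧ _))]; rfl) f).trans
      (add_comm _ _)

end all

/-- Separation of the two parts of a region. -/
structure SS93_Sep (L : Loc) (e s : Finset L.E) (sd : L.V ⊕ Bool → Bool) : Prop where
  h0 : sd (.inr false) = false
  h1 : sd (.inr true) = true
  hen : sd (.inl L.en) = true
  hex : sd (.inl L.ex) = false
  he : ∀ x ∈ e, sd (L.a x) = true ∧ sd (L.b x) = true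
  hs : ∀ x ∈ s, sd (L.a x) = false ∧ sd (L.b x) = false

theorem SS93_sepT (q a : ℕ) (ha : a < q + 2) :
    SS93_Sep (TLoc (q + 1)) (RT.eB q a .T) (RT.sA q a .T)
      (fun x : Fin (2 * (q + 1) + 2) ⊕ Bool =>
        Sum.elim (fun i : Fin (2 * (q + 1) + 2) => decide (i.1 ≤ 2 * a)) id x) := by
  refine ⟨rfl, rfl, ?_, ?_, ?_, ?_⟩
  · change decide (0 ≤ 2 * a) = true
    simp
  · change decide (2 * (q + 1) + 1 ≤ 2 * a) = false
    simp
    omega
  · intro x hx
    replace hx : x ∈ RT.lowT q (2 * a) ∪ RT.legT q (2 * a) := hx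
    rcases Finset.mem_union.1 hx with h | h
    · obtain ⟨i, hi, rfl⟩ := Finset.mem_map.1 h
      have hi' := (Finset.mem_filter.1 hi).2
      constructor
      · change decide (i.1 ≤ 2 * a) = true
        exact decide_eq_true (by omega)
      · change decide (i.1 + 1 ≤ 2 * a) = true
        exact decide_eq_true (by omega)
    · obtain ⟨i, hi, rfl⟩ := Finset.mem_map.1 h
      have hi' := (Finset.mem_filter.1 hi).2
      constructor
      · change decide (i.1 ≤ 2 * a) = true
        exact decide_eq_true (by omega)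
      · change decide (i.1 % 2 = 0) = true
        exact decide_eq_true (by omega)
  · intro x hx
    replace hx : x ∈ RT.highT q (2 * a + 1) ∪ RT.legT q (2 * a + 1) := hx
    rcases Finset.mem_union.1 hx with h | h
    · obtain ⟨i, hi, rfl⟩ := Finset.mem_map.1 h
      have hi' := (Finset.mem_filter.1 hi).2
      constructor
      · change decide (i.1 ≤ 2 * a) = false
        exact decide_eq_false (by omega)
      · change decide (i.1 + 1 ≤ 2 * a) = false
        exact decide_eq_false (by omega)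
    · obtain ⟨i, hi, rfl⟩ := Finset.mem_map.1 h
      have hi' := (Finset.mem_filter.1 hi).2
      constructor
      · change decide (i.1 ≤ 2 * a) = false
        exact decide_eq_false (by omega)
      · change decide (i.1 % 2 = 0) = false
        exact decide_eq_false (by omega)

theorem SS93_sepG (q : ℕ) (e s : Finset (Bool × (Fin (2 * q + 3) ⊕ Fin (2 * q + 1))))
    (he : ∀ x ∈ e, x.1 = false ∧ ∀ k, x.2 = .inl k → k.1 % 2 = 0)
    (hs : ∀ x ∈ s, x.1 = true ∧ ∀ k, x.2 = .inl k → k.1 % 2 = 0) :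
    SS93_Sep (GLoc q) e s
      (fun x : (Bool × Fin (2 * q + 2)) ⊕ Bool =>
        Sum.elim (fun p : Bool × Fin (2 * q + 2) => !p.1) id x) := by
  refine ⟨rfl, rfl, rfl, rfl, ?_, ?_⟩
  · rintro ⟨b, k | i⟩ hx
    · obtain ⟨h1, h2⟩ := he _ hx
      have h1' : b = false := h1
      subst h1'
      refine ⟨rfl, ?_⟩
      change xor false (decide (k.1 % 2 = 0)) = true
      rw [decide_eq_true (h2 k rfl)]
      rfl
    · obtain ⟨h1, h2⟩ := he _ hx
      have h1' : b = false := h1
      subst h1'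
      exact ⟨rfl, rfl⟩
  · rintro ⟨b, k | i⟩ hx
    · obtain ⟨h1, h2⟩ := hs _ hx
      have h1' : b = true := h1
      subst h1'
      refine ⟨rfl, ?_⟩
      change xor true (decide (k.1 % 2 = 0)) = false
      rw [decide_eq_true (h2 k rfl)]
      rfl
    · obtain ⟨h1, h2⟩ := hs _ hx
      have h1' : b = true := h1
      subst h1'
      exact ⟨rfl, rfl⟩

theorem SS93_sepW (q : ℕ) :
    SS93_Sep (WLoc (q - 1)) (RT.eB q 0 .W) (RT.sA q 0 .W)
      (fun x : (Bool × WV (q - 1)) ⊕ Bool =>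
        Sum.elim (fun p : Bool × WV (q - 1) => !p.1) id x) := by
  refine ⟨rfl, rfl, rfl, rfl, ?_, ?_⟩
  · intro x hx
    replace hx : x ∈ (Finset.univ.filter (fun e : Bool × WE (q - 1) => e.1 = false ∧
      (e.2 = .s3 ∨ ∃ i, e.2 = .row i))) ∪
      {((false, .leg ⟨2 * (q - 1) + 2, by omega⟩) : Bool × WE (q - 1))} := hx
    rcases Finset.mem_union.1 hx with h | h
    · obtain ⟨s, e⟩ := x
      obtain ⟨-, h1, h2⟩ := Finset.mem_filter.1 h
      replace h1 : s = false := h1
      subst h1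
      replace h2 : e = .s3 ∨ ∃ i, e = .row i := h2
      rcases h2 with rfl | ⟨i, rfl⟩
      · exact ⟨rfl, rfl⟩
      · exact ⟨rfl, rfl⟩
    · have h3 := Finset.mem_singleton.1 h
      subst h3
      refine ⟨rfl, ?_⟩
      change xor false (decide ((2 * (q - 1) + 2) % 2 = 0 ∧ 2 * (q - 1) + 2 ≠ 0)) = true
      rw [decide_eq_true (by omega)]
      rfl
  · intro x hx
    replace hx : x ∈ (Finset.univ.filter (fun e : Bool × WE (q - 1) => e.1 = true ∧
      (e.2 = .s3 ∨ ∃ i, e.2 = .row i))) ∪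
      {((true, .leg ⟨2 * (q - 1) + 2, by omega⟩) : Bool × WE (q - 1))} := hx
    rcases Finset.mem_union.1 hx with h | h
    · obtain ⟨s, e⟩ := x
      obtain ⟨-, h1, h2⟩ := Finset.mem_filter.1 h
      replace h1 : s = true := h1
      subst h1
      replace h2 : e = .s3 ∨ ∃ i, e = .row i := h2
      rcases h2 with rfl | ⟨i, rfl⟩
      · exact ⟨rfl, rfl⟩
      · exact ⟨rfl, rfl⟩
    · have h3 := Finset.mem_singleton.1 h
      subst h3
      refine ⟨rfl, ?_⟩
      change xor true (decide ((2 * (q - 1) + 2) % 2 = 0 ∧ 2 * (q - 1) + 2 ≠ 0)) = false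
      rw [decide_eq_true (by omega)]
      rfl

theorem SS93_sep (q a : ℕ) (ha : a < q + 2) (t : RT) :
    ∃ sd, SS93_Sep (t.loc q) (RT.eB q a t) (RT.sA q a t) sd := by
  cases t with
  | T => exact ⟨_, SS93_sepT q a ha⟩
  | G =>
    refine ⟨_, SS93_sepG q _ _ ?_ ?_⟩
    · intro x hx
      replace hx : x ∈ (Finset.univ.filter (fun e : Bool × (Fin (2 * q + 3) ⊕ Fin (2 * q + 1)) =>
        e.1 = false ∧ e.2.isRight)) ∪
        {((false, .inl ⟨2 * q + 2, by omega⟩) : Bool × (Fin (2 * q + 3) ⊕ Fin (2 * q + 1)))} := hx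
      rcases Finset.mem_union.1 hx with h | h
      · obtain ⟨-, h1, h2⟩ := Finset.mem_filter.1 h
        refine ⟨h1, fun k hk => ?_⟩
        rw [hk] at h2
        cases h2
      · have h3 := Finset.mem_singleton.1 h
        subst h3
        refine ⟨rfl, fun k hk => ?_⟩
        have hk' := Sum.inl.inj hk
        rw [← hk']
        change (2 * q + 2) % 2 = 0
        omega
    · intro x hx
      replace hx : x ∈ (Finset.univ.filter (fun e : Bool × (Fin (2 * q + 3) ⊕ Fin (2 * q + 1)) =>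
        e.1 = true ∧ e.2.isRight)) ∪
        {((true, .inl ⟨2 * q + 2, by omega⟩) : Bool × (Fin (2 * q + 3) ⊕ Fin (2 * q + 1)))} := hx
      rcases Finset.mem_union.1 hx with h | h
      · obtain ⟨-, h1, h2⟩ := Finset.mem_filter.1 h
        refine ⟨h1, fun k hk => ?_⟩
        rw [hk] at h2
        cases h2
      · have h3 := Finset.mem_singleton.1 h
        subst h3
        refine ⟨rfl, fun k hk => ?_⟩
        have hk' := Sum.inl.inj hk
        rw [← hk']
        change (2 * q + 2) % 2 = 0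
        omega
  | W => exact ⟨_, SS93_sepW q⟩

section strip

variable {N : ℕ} [NeZero N] (q : ℕ) (c : Bool) (τ : ZMod N → RT)

/-- an end of a local edge as a vertex of the strip -/
def SS93_ve (n : ZMod N) : ((τ n).loc q).V ⊕ Bool → (tstrip q c τ).V :=
  locEnd (fun j => (τ j).loc q) n

theorem SS93_le_inj (n : ZMod N) : Function.Injective (le q c τ n) := by
  intro x y h
  have h1 : (⟨n, x⟩ : Σ j, ((τ j).loc q).E) = ⟨n, y⟩ := Sum.inl.inj h
  simpa using h1

theorem SS93_lv_inj (n : ZMod N) : Function.Injective (lv q c τ n) := by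
  intro x y h
  have h1 : (⟨n, x⟩ : Σ j, ((τ j).loc q).V) = ⟨n, y⟩ := Sum.inr.inj h
  simpa using h1

theorem SS93_lv_fst {n m : ZMod N} {x : ((τ n).loc q).V} {y : ((τ m).loc q).V}
    (h : lv q c τ n x = lv q c τ m y) : n = m := by
  have h1 : (⟨n, x⟩ : Σ j, ((τ j).loc q).V) = ⟨m, y⟩ := Sum.inr.inj h
  exact congrArg Sigma.fst h1

theorem SS93_ls_eq (n : ZMod N) (s : Finset ((τ n).loc q).E) :
    (tstrip q c τ).bdl (emb q c τ n s) =
      SS93_ls ((τ n).loc q) (fun x => (tstrip q c τ).one (SS93_ve q c τ n x)) s := by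
  unfold emb
  rw [bdl_chi]
  funext v
  unfold Gph.bd SS93_ls
  rw [Finset.sum_image (fun x _ y _ h => SS93_le_inj q c τ n h), Finset.sum_apply]
  rfl

theorem SS93_two {V : Type} (x : V → ZMod 2) : x + x = 0 := by
  funext v
  have : ∀ z : ZMod 2, z + z = 0 := by decide
  exact this _

theorem SS93_emb_ne {n : ZMod N} {s : Finset ((τ n).loc q).E} {e : (tstrip q c τ).E}
    (h : emb q c τ n s e ≠ 0) : ∃ x ∈ s, e = le q c τ n x := by
  unfold emb Gph.chi at h
  by_cases h1 : e ∈ s.image (le q c τ n)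
  · obtain ⟨x, hx, hx'⟩ := Finset.mem_image.1 h1
    exact ⟨x, hx, hx'.symm⟩
  · rw [if_neg h1] at h
    exact absurd rfl h

theorem SS93_End_le {n : ZMod N} {x : ((τ n).loc q).E} {v : (tstrip q c τ).V}
    (h : (tstrip q c τ).End v (le q c τ n x)) :
    SS93_ve q c τ n (((τ n).loc q).a x) = v ∨ SS93_ve q c τ n (((τ n).loc q).b x) = v := h

omit [NeZero N] in
theorem SS93_ne_one (hN : 2 ≤ N) (n : ZMod N) : n - 1 ≠ n := by
  intro h
  have h1 : (1 : ZMod N) = 0 := by
    have := sub_eq_self.1 h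
    exact this
  have : Fact (1 < N) := ⟨by omega⟩
  exact one_ne_zero h1

theorem SS93_ve_inj (hN : 2 ≤ N) (n : ZMod N) : Function.Injective (SS93_ve q c τ n) := by
  intro x y h
  rcases x with u | _ | _ <;> rcases y with w | _ | _
  · exact congrArg Sum.inl (SS93_lv_inj q c τ n h)
  · cases h
  · cases h
  · cases h
  · rfl
  · exact absurd (Sum.inl.inj h) (SS93_ne_one hN n)
  · cases h
  · exact absurd (Sum.inl.inj h).symm (SS93_ne_one hN n)
  · rfl

theorem SS93_avoid (hN : 2 ≤ N) (n : ZMod N) (s : Finset ((τ n).loc q).E)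
    (sd : ((τ n).loc q).V ⊕ Bool → Bool) (b : Bool)
    (hs : ∀ x ∈ s, sd (((τ n).loc q).a x) = b ∧ sd (((τ n).loc q).b x) = b)
    (w : ((τ n).loc q).V ⊕ Bool) (hw : sd w ≠ b) :
    Avoids (emb q c τ n s) (SS93_ve q c τ n w) := by
  intro x hx hE
  obtain ⟨x, hx', rfl⟩ := SS93_emb_ne q c τ hx
  obtain ⟨h1, h2⟩ := hs x hx'
  rcases SS93_End_le q c τ hE with h | h
  · have := SS93_ve_inj q c τ hN n h
    rw [this] at h1
    exact hw h1
  · have := SS93_ve_inj q c τ hN n h
    rw [this] at h2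
    exact hw h2

theorem SS93_mk (hN : 2 ≤ N) (e s : ∀ n, Finset ((τ n).loc q).E)
    (he : ∀ n, ∀ f : ((τ n).loc q).V ⊕ Bool → ((tstrip q c τ).V → ZMod 2),
      SS93_ls ((τ n).loc q) f (e n) = f (.inl ((τ n).loc q).en) + f (.inr true))
    (hs : ∀ n, ∀ f : ((τ n).loc q).V ⊕ Bool → ((tstrip q c τ).V → ZMod 2),
      SS93_ls ((τ n).loc q) f (s n) = f (.inr false) + f (.inl ((τ n).loc q).ex))
    (hsep : ∀ n, ∃ sd, SS93_Sep ((τ n).loc q) (e n) (s n) sd) :
    ∃ D : Thru q c τ, (∀ n, D.e n = e n) ∧ (∀ n, D.s n = s n) := by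
  refine ⟨⟨e, s, ?_, ?_, ?_, ?_, ?_, ?_, ?_⟩, fun _ => rfl, fun _ => rfl⟩
  · intro n
    rw [SS93_ls_eq, he]
    rfl
  · intro n
    rw [SS93_ls_eq, hs]
    rfl
  · intro n x y hx hy
    obtain ⟨sd, S⟩ := hsep n
    obtain ⟨x, hx', rfl⟩ := SS93_emb_ne q c τ hx
    obtain ⟨y, hy', rfl⟩ := SS93_emb_ne q c τ hy
    obtain ⟨h1, h2⟩ := S.he x hx'
    obtain ⟨h3, h4⟩ := S.hs y hy'
    have key : ∀ u w, sd u = true → sd w = false → SS93_ve q c τ n u ≠ SS93_ve q c τ n w := by
      intro u w hu hw h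
      have := SS93_ve_inj q c τ hN n h
      rw [this, hw] at hu
      cases hu
    exact ⟨key _ _ h1 h3, key _ _ h1 h4, key _ _ h2 h3, key _ _ h2 h4⟩
  · intro n
    obtain ⟨sd, S⟩ := hsep n
    exact SS93_avoid q c τ hN n _ sd true S.he (.inr false) (by rw [S.h0]; decide)
  · intro n
    obtain ⟨sd, S⟩ := hsep n
    exact SS93_avoid q c τ hN n _ sd false S.hs (.inr true) (by rw [S.h1]; decide)
  · intro n
    obtain ⟨sd, S⟩ := hsep n
    exact SS93_avoid q c τ hN n _ sd true S.he (.inl ((τ n).loc q).ex) (by rw [S.hex]; decide)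
  · intro n
    obtain ⟨sd, S⟩ := hsep n
    exact SS93_avoid q c τ hN n _ sd false S.hs (.inl ((τ n).loc q).en) (by rw [S.hen]; decide)

end strip

variable {N : ℕ} [NeZero N]

/-- The standard through data: `RT.eB q (a n)`, `RT.sA q (a n)`. -/
theorem exists_thru (q : ℕ) (c : Bool) (τ : ZMod N → RT) (hN : 3 ≤ N)
    (hW : (∃ j, τ j = .W) → 1 ≤ q) (a : ZMod N → ℕ) (ha : ∀ n, a n < q + 2) :
    ∃ D : Thru q c τ, (∀ n, D.e n = RT.eB q (a n) (τ n)) ∧ (∀ n, D.s n = RT.sA q (a n) (τ n)) :=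
  SS93_mk q c τ (by omega) (fun n => RT.eB q (a n) (τ n)) (fun n => RT.sA q (a n) (τ n))
    (fun n f => SS93_eB q SS93_two (τ n) (a n) (ha n) f)
    (fun n f => SS93_sA q SS93_two (τ n) (a n) (ha n) f)
    (fun n => SS93_sep q (a n) (ha n) (τ n))

/-- boundaries of the other standard chains -/
theorem bdl_eA (q : ℕ) (c : Bool) (τ : ZMod N → RT) (hN : 3 ≤ N)
    (hW : (∃ j, τ j = .W) → 1 ≤ q) (n : ZMod N) (a : ℕ) (ha : a < q + 2) :
    (tstrip q c τ).bdl (emb q c τ n (RT.eA q a (τ n))) =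
      (tstrip q c τ).one (lv q c τ n ((τ n).loc q).en) + (tstrip q c τ).one (hub q c τ (n - 1)) := by
  rw [SS93_ls_eq, SS93_eA q SS93_two (τ n) a ha]
  rfl

theorem bdl_sB (q : ℕ) (c : Bool) (τ : ZMod N → RT) (hN : 3 ≤ N)
    (hW : (∃ j, τ j = .W) → 1 ≤ q) (n : ZMod N) (a : ℕ) (ha : a < q + 2) :
    (tstrip q c τ).bdl (emb q c τ n (RT.sB q a (τ n))) =
      (tstrip q c τ).one (hub q c τ n) + (tstrip q c τ).one (lv q c τ n ((τ n).loc q).ex) := by
  rw [SS93_ls_eq, SS93_sB q SS93_two (τ n) a ha]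
  rfl

/-- the left part used when `q = 0` -/
def SS93_e0 (a : ℕ) : (t : RT) → Finset (t.loc 0).E
  | .T => RT.eB 0 a .T
  | .G => {((false, .inl ⟨0, by omega⟩) : Bool × (Fin (2 * 0 + 3) ⊕ Fin (2 * 0 + 1)))}
  | .W => RT.eB 0 a .W

/-- the right part used when `q = 0` -/
def SS93_s0 (a : ℕ) : (t : RT) → Finset (t.loc 0).E
  | .T => RT.sA 0 a .T
  | .G => {((true, .inl ⟨0, by omega⟩) : Bool × (Fin (2 * 0 + 3) ⊕ Fin (2 * 0 + 1)))}
  | .W => RT.sA 0 a .W

/-- In a region `G(2)` (`q = 0`) one can also use the legs `0` alone. -/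
theorem exists_thru_zero (c : Bool) (τ : ZMod N → RT) (hN : 3 ≤ N) (hW : ∀ j, τ j ≠ .W)
    (a : ZMod N → ℕ) (ha : ∀ n, a n < 2) :
    ∃ D : Thru 0 c τ, (∀ n, τ n = .T → D.e n = RT.eB 0 (a n) (τ n)) ∧
      (∀ n, τ n = .T → D.s n = RT.sA 0 (a n) (τ n)) ∧
      (∀ n, τ n = .G → ∀ e ∈ D.e n, ¬ RT.fleg 0 (τ n) e) ∧
      (∀ n, τ n = .G → ∀ e ∈ D.s n, ¬ RT.fleg 0 (τ n) e) := by
  have h1 : ∀ (a : ℕ) (_ : a < 0 + 2) (t : RT)
      (f : (t.loc 0).V ⊕ Bool → ((tstrip 0 c τ).V → ZMod 2)),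
      SS93_ls (t.loc 0) f (SS93_e0 a t) = f (.inl (t.loc 0).en) + f (.inr true) := by
    intro a ha t f
    cases t with
    | T => exact SS93_eB 0 SS93_two .T a ha f
    | G => exact SS93_legG 0 false 0 (by omega) f
    | W => exact SS93_eB 0 SS93_two .W a ha f
  have h2 : ∀ (a : ℕ) (_ : a < 0 + 2) (t : RT)
      (f : (t.loc 0).V ⊕ Bool → ((tstrip 0 c τ).V → ZMod 2)),
      SS93_ls (t.loc 0) f (SS93_s0 a t) = f (.inr false) + f (.inl (t.loc 0).ex) := by
    intro a ha t f
    cases t with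
    | T => exact SS93_sA 0 SS93_two .T a ha f
    | G => exact (SS93_legG 0 true 0 (by omega) f).trans (add_comm _ _)
    | W => exact SS93_sA 0 SS93_two .W a ha f
  have h3 : ∀ (a : ℕ) (_ : a < 0 + 2) (t : RT),
      ∃ sd, SS93_Sep (t.loc 0) (SS93_e0 a t) (SS93_s0 a t) sd := by
    intro a ha t
    cases t with
    | T => exact ⟨_, SS93_sepT 0 a ha⟩
    | G =>
      refine ⟨_, SS93_sepG 0 _ _ ?_ ?_⟩
      · intro x hx
        have h3 := Finset.mem_singleton.1 hx
        subst h3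
        refine ⟨rfl, fun k hk => ?_⟩
        have hk' := Sum.inl.inj hk
        rw [← hk']
        rfl
      · intro x hx
        have h3 := Finset.mem_singleton.1 hx
        subst h3
        refine ⟨rfl, fun k hk => ?_⟩
        have hk' := Sum.inl.inj hk
        rw [← hk']
        rfl
    | W => exact ⟨_, SS93_sepW 0⟩
  obtain ⟨D, hD1, hD2⟩ := SS93_mk 0 c τ (by omega) (fun n => SS93_e0 (a n) (τ n))
    (fun n => SS93_s0 (a n) (τ n)) (fun n f => h1 (a n) (by have := ha n; omega) (τ n) f)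
    (fun n f => h2 (a n) (by have := ha n; omega) (τ n) f)
    (fun n => h3 (a n) (by have := ha n; omega) (τ n))
  have h4 : ∀ (a : ℕ) (t : RT), t = .T → SS93_e0 a t = RT.eB 0 a t := by
    rintro a _ rfl; rfl
  have h5 : ∀ (a : ℕ) (t : RT), t = .T → SS93_s0 a t = RT.sA 0 a t := by
    rintro a _ rfl; rfl
  have h6 : ∀ (a : ℕ) (t : RT), t = .G → ∀ e ∈ SS93_e0 a t, ¬ RT.fleg 0 t e := by
    rintro a _ rfl e he ⟨k, hk, hk'⟩
    have h3 := Finset.mem_singleton.1 he
    subst h3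
    have hk'' := Sum.inl.inj hk
    rw [← hk''] at hk'
    simp at hk'
  have h7 : ∀ (a : ℕ) (t : RT), t = .G → ∀ e ∈ SS93_s0 a t, ¬ RT.fleg 0 t e := by
    rintro a _ rfl e he ⟨k, hk, hk'⟩
    have h3 := Finset.mem_singleton.1 he
    subst h3
    have hk'' := Sum.inl.inj hk
    rw [← hk''] at hk'
    simp at hk'
  refine ⟨D, ?_, ?_, ?_, ?_⟩
  · intro n hn
    rw [hD1, h4 _ _ hn]
  · intro n hn
    rw [hD2, h5 _ _ hn]
  · intro n hn e he
    rw [hD1] at he
    exact h6 _ _ hn e he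
  · intro n hn e he
    rw [hD2] at he
    exact h7 _ _ hn e he

section slots

variable {q : ℕ} {c : Bool} {τ : ZMod N → RT} (D : Thru q c τ)

/-- vertices of the right part -/
def SS93_RP (n : ZMod N) (v : (tstrip q c τ).V) : Prop :=
  (∃ u, v = lv q c τ n u) ∧ (v = lv q c τ n ((τ n).loc q).ex ∨
    ∃ x, emb q c τ n (D.s n) x ≠ 0 ∧ (tstrip q c τ).End v x)

/-- vertices of the left part -/
def SS93_LP (n : ZMod N) (v : (tstrip q c τ).V) : Prop :=
  (∃ u, v = lv q c τ n u) ∧ (v = lv q c τ n ((τ n).loc q).en ∨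
    ∃ x, emb q c τ n (D.e n) x ≠ 0 ∧ (tstrip q c τ).End v x)

theorem SS93_en_ne_ex (q : ℕ) (t : RT) : (t.loc q).en ≠ (t.loc q).ex := by
  cases t with
  | T =>
    intro h
    have h1 : (0 : ℕ) = 2 * (q + 1) + 1 := congrArg Fin.val h
    omega
  | G =>
    intro h
    have h1 : false = true := congrArg Prod.fst h
    cases h1
  | W =>
    intro h
    have h1 : false = true := congrArg Prod.fst h
    cases h1

theorem SS93_Ind_End {G : Gph} {e f : G.E} {v : G.V} (h : G.Ind e f) (he : G.End v e)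
    (hf : G.End v f) : False := by
  obtain ⟨h1, h2, h3, h4⟩ := h
  rcases he with he | he <;> rcases hf with hf | hf
  · exact h1 (he.trans hf.symm)
  · exact h2 (he.trans hf.symm)
  · exact h3 (he.trans hf.symm)
  · exact h4 (he.trans hf.symm)

theorem SS93_RL {n : ZMod N} {v : (tstrip q c τ).V} (h : SS93_RP D n v) (h' : SS93_LP D n v) :
    False := by
  obtain ⟨-, h | ⟨x, hx, hE⟩⟩ := h <;> obtain ⟨-, h' | ⟨y, hy, hE'⟩⟩ := h'
  · exact SS93_en_ne_ex q (τ n) (SS93_lv_inj q c τ n (h'.symm.trans h))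
  · subst h
    exact D.hex n y hy hE'
  · subst h'
    exact D.hen n x hx hE
  · exact SS93_Ind_End (D.ind n y x hy hx) hE' hE

theorem SS93_slot_end (k : ℕ) (e : (tstrip q c τ).E) (h : D.slot k e ≠ 0)
    (v : (tstrip q c τ).V) (hv : (tstrip q c τ).End v e) :
    v = hub q c τ ((k : ZMod N) - 1) ∨ v = hub q c τ ((k : ZMod N) + 1) ∨
      SS93_RP D (k : ZMod N) v ∨ SS93_LP D ((k : ZMod N) + 1) v := by
  have h0 : emb q c τ (k : ZMod N) (D.s k) e + (tstrip q c τ).chi {rowE q c τ (k : ZMod N)} e +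
      emb q c τ ((k : ZMod N) + 1) (D.e ((k : ZMod N) + 1)) e ≠ 0 := h
  by_cases h1 : emb q c τ (k : ZMod N) (D.s k) e = 0
  · by_cases h2 : (tstrip q c τ).chi {rowE q c τ (k : ZMod N)} e = 0
    · have h3 : emb q c τ ((k : ZMod N) + 1) (D.e ((k : ZMod N) + 1)) e ≠ 0 := by
        intro h3
        rw [h1, h2, h3] at h0
        simp at h0
      obtain ⟨x, hx, he⟩ := SS93_emb_ne q c τ h3
      have hv' : ∃ w, v = SS93_ve q c τ ((k : ZMod N) + 1) w := by
        subst he
        rcases SS93_End_le q c τ hv with h | h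
        · exact ⟨_, h.symm⟩
        · exact ⟨_, h.symm⟩
      obtain ⟨w, hw⟩ := hv'
      rcases w with u | _ | _
      · exact Or.inr (Or.inr (Or.inr ⟨⟨u, hw⟩, Or.inr ⟨e, h3, hv⟩⟩))
      · exact absurd (show (tstrip q c τ).End (hub q c τ ((k : ZMod N) + 1 - 1)) e by
          rw [hw] at hv; exact hv) (D.he' _ e h3)
      · exact Or.inr (Or.inl hw)
    · have h3 : e = rowE q c τ (k : ZMod N) := by
        unfold Gph.chi at h2
        by_contra hne
        exact h2 (if_neg (by rwa [Finset.mem_singleton]))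
      subst h3
      rcases hv with h | h
      · exact Or.inr (Or.inr (Or.inl ⟨⟨_, h.symm⟩, Or.inl h.symm⟩))
      · exact Or.inr (Or.inr (Or.inr ⟨⟨_, h.symm⟩, Or.inl h.symm⟩))
  · obtain ⟨x, hx, he⟩ := SS93_emb_ne q c τ h1
    have hv' : ∃ w, v = SS93_ve q c τ (k : ZMod N) w := by
      subst he
      rcases SS93_End_le q c τ hv with h | h
      · exact ⟨_, h.symm⟩
      · exact ⟨_, h.symm⟩
    obtain ⟨w, hw⟩ := hv'
    rcases w with u | _ | _
    · exact Or.inr (Or.inr (Or.inl ⟨⟨u, hw⟩, Or.inr ⟨e, h1, hv⟩⟩))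
    · exact Or.inl hw
    · exact absurd (show (tstrip q c τ).End (hub q c τ (k : ZMod N)) e by
        rw [hw] at hv; exact hv) (D.hs' _ e h1)

omit [NeZero N] in
theorem SS93_cast {x y : ℤ} (h : (x : ZMod N) = (y : ZMod N)) (h1 : x - y < N)
    (h2 : y - x < N) : x = y := by
  rw [← sub_eq_zero, ← Int.cast_sub] at h
  have h3 := (ZMod.intCast_zmod_eq_zero_iff_dvd (x - y) N).1 h
  have := Int.eq_zero_of_abs_lt_dvd h3 (abs_lt.2 ⟨by omega, by omega⟩)
  omega

theorem SS93_RP_fst {n m : ZMod N} {v : (tstrip q c τ).V} (h : SS93_RP D n v)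
    {u : ((τ m).loc q).V} (h' : v = lv q c τ m u) : n = m := by
  obtain ⟨⟨u', hu'⟩, -⟩ := h
  exact SS93_lv_fst q c τ (hu'.symm.trans h')

theorem SS93_LP_fst {n m : ZMod N} {v : (tstrip q c τ).V} (h : SS93_LP D n v)
    {u : ((τ m).loc q).V} (h' : v = lv q c τ m u) : n = m := by
  obtain ⟨⟨u', hu'⟩, -⟩ := h
  exact SS93_lv_fst q c τ (hu'.symm.trans h')

theorem SS93_hub_lv {n m : ZMod N} {v : (tstrip q c τ).V} {u : ((τ m).loc q).V}
    (h : v = hub q c τ n) (h' : v = lv q c τ m u) : False := by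
  rw [h] at h'
  cases h'

theorem SS93_hub_hub {n m : ZMod N} {v : (tstrip q c τ).V}
    (h : v = hub q c τ n) (h' : v = hub q c τ m) : n = m :=
  Sum.inl.inj (h.symm.trans h')

theorem SS93_hub_RP {n m : ZMod N} {v : (tstrip q c τ).V}
    (h : v = hub q c τ n) (h' : SS93_RP D m v) : False := by
  obtain ⟨⟨u, hu⟩, -⟩ := h'
  exact SS93_hub_lv h hu

theorem SS93_hub_LP {n m : ZMod N} {v : (tstrip q c τ).V}
    (h : v = hub q c τ n) (h' : SS93_LP D m v) : False := by
  obtain ⟨⟨u, hu⟩, -⟩ := h'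
  exact SS93_hub_lv h hu

theorem Thru.slots {q : ℕ} {c : Bool} {τ : ZMod N → RT} (hN : Odd N) (hN' : 16 ≤ N)
    (D : Thru q c τ) : Slots q c τ D.slot := by
  obtain ⟨r, hr⟩ := hN
  refine ⟨?_, ?_, ?_, ?_⟩
  · intro k _
    unfold Thru.slot
    have hrow : (tstrip q c τ).bdl ((tstrip q c τ).chi {rowE q c τ (k : ZMod N)}) =
        (tstrip q c τ).one (lv q c τ (k : ZMod N) ((τ (k : ZMod N)).loc q).ex) +
        (tstrip q c τ).one (lv q c τ ((k : ZMod N) + 1) ((τ ((k : ZMod N) + 1)).loc q).en) := by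
      rw [bdl_chi]
      funext v
      unfold Gph.bd
      rw [Finset.sum_singleton]
      rfl
    rw [bdl_add, bdl_add, D.hs, D.he, hrow, SS93_char SS93_two, SS93_char SS93_two]
  · intro k hk e he v hv hI
    rcases SS93_slot_end D k e he v hv with h1 | h1 | h1 | h1 <;>
      rcases hI with ⟨i, hi1, hi2, h2⟩ | ⟨i, hi1, hi2, u, h2⟩ | h2 | h2
    · have h3 := SS93_hub_hub h1 h2
      have h4 := SS93_cast (N := N) (x := (k : ℤ) - 1) (y := -(i : ℤ)) (by push_cast; exact h3)
        (by omega) (by omega)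
      omega
    · exact SS93_hub_lv h1 h2
    · exact SS93_hub_lv h1 h2
    · exact SS93_hub_lv h1 h2
    · have h3 := SS93_hub_hub h1 h2
      have h4 := SS93_cast (N := N) (x := (k : ℤ) + 1) (y := -(i : ℤ)) (by push_cast; exact h3)
        (by omega) (by omega)
      omega
    · exact SS93_hub_lv h1 h2
    · exact SS93_hub_lv h1 h2
    · exact SS93_hub_lv h1 h2
    · exact SS93_hub_RP D h2 h1
    · have h3 := SS93_RP_fst D h1 h2
      have h4 := SS93_cast (N := N) (x := (k : ℤ)) (y := -(i : ℤ)) (by push_cast; exact h3)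
        (by omega) (by omega)
      omega
    · have h3 := SS93_RP_fst D h1 h2
      have h4 := SS93_cast (N := N) (x := (k : ℤ)) (y := -8) (by push_cast; exact h3)
        (by omega) (by omega)
      omega
    · have h3 := SS93_RP_fst D h1 h2
      rw [h3] at h1
      exact SS93_RL D h1 ⟨⟨_, h2⟩, Or.inl h2⟩
    · exact SS93_hub_LP D h2 h1
    · have h3 := SS93_LP_fst D h1 h2
      have h4 := SS93_cast (N := N) (x := (k : ℤ) + 1) (y := -(i : ℤ)) (by push_cast; exact h3)
        (by omega) (by omega)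
      omega
    · have h3 := SS93_LP_fst D h1 h2
      rw [h3] at h1
      exact SS93_RL D ⟨⟨_, h2⟩, Or.inl h2⟩ h1
    · have h3 := SS93_LP_fst D h1 h2
      have h4 := SS93_cast (N := N) (x := (k : ℤ) + 1) (y := 0) (by push_cast; exact h3)
        (by omega) (by omega)
      omega
  · intro k hk hko e he v hv
    obtain ⟨l, hl⟩ := hko
    rcases SS93_slot_end D k e he v hv with h1 | h1 | h1 | h1
    · constructor
      · intro h2
        have h3 := SS93_hub_hub h1 h2
        have h4 := SS93_cast (N := N) (x := (k : ℤ) - 1) (y := -1) (by push_cast; exact h3)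
          (by omega) (by omega)
        omega
      · intro h2
        have h3 := SS93_hub_hub h1 h2
        have h4 := SS93_cast (N := N) (x := (k : ℤ) - 1) (y := -8) (by push_cast; exact h3)
          (by omega) (by omega)
        omega
    · constructor
      · intro h2
        have h3 := SS93_hub_hub h1 h2
        have h4 := SS93_cast (N := N) (x := (k : ℤ) + 1) (y := -1) (by push_cast; exact h3)
          (by omega) (by omega)
        omega
      · intro h2
        have h3 := SS93_hub_hub h1 h2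
        have h4 := SS93_cast (N := N) (x := (k : ℤ) + 1) (y := (N : ℤ) - 8)
          (by push_cast; rw [h3]; simp)
          (by omega) (by omega)
        omega
    · exact ⟨fun h2 => SS93_hub_RP D h2 h1, fun h2 => SS93_hub_RP D h2 h1⟩
    · exact ⟨fun h2 => SS93_hub_LP D h2 h1, fun h2 => SS93_hub_LP D h2 h1⟩
  · intro i k hi hk hie hko e f he hf
    obtain ⟨l, hl⟩ := hie
    obtain ⟨m, hm⟩ := hko
    have key : ∀ v, (tstrip q c τ).End v e → (tstrip q c τ).End v f → False := by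
      intro v hv hv'
      rcases SS93_slot_end D i e he v hv with h1 | h1 | h1 | h1 <;>
        rcases SS93_slot_end D k f hf v hv' with h2 | h2 | h2 | h2
      · have h3 := SS93_hub_hub h1 h2
        have h4 := SS93_cast (N := N) (x := (i : ℤ) - 1) (y := (k : ℤ) - 1)
          (by push_cast; exact h3) (by omega) (by omega)
        omega
      · have h3 := SS93_hub_hub h1 h2
        have h4 := SS93_cast (N := N) (x := (i : ℤ) - 1) (y := (k : ℤ) + 1)
          (by push_cast; exact h3) (by omega) (by omega)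
        omega
      · exact SS93_hub_RP D h1 h2
      · exact SS93_hub_LP D h1 h2
      · have h3 := SS93_hub_hub h1 h2
        have h4 := SS93_cast (N := N) (x := (i : ℤ) + 1) (y := (k : ℤ) - 1)
          (by push_cast; exact h3) (by omega) (by omega)
        omega
      · have h3 := SS93_hub_hub h1 h2
        have h4 := SS93_cast (N := N) (x := (i : ℤ) + 1) (y := (k : ℤ) + 1)
          (by push_cast; exact h3) (by omega) (by omega)
        omega
      · exact SS93_hub_RP D h1 h2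
      · exact SS93_hub_LP D h1 h2
      · exact SS93_hub_RP D h2 h1
      · exact SS93_hub_RP D h2 h1
      · obtain ⟨u, hu⟩ := h2.1
        have h3 := SS93_RP_fst D h1 hu
        have h4 := SS93_cast (N := N) (x := (i : ℤ)) (y := (k : ℤ))
          (by push_cast; exact h3) (by omega) (by omega)
        omega
      · obtain ⟨u, hu⟩ := h2.1
        have h3 := SS93_RP_fst D h1 hu
        rw [h3] at h1
        exact SS93_RL D h1 h2
      · exact SS93_hub_LP D h2 h1
      · exact SS93_hub_LP D h2 h1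
      · obtain ⟨u, hu⟩ := h2.1
        have h3 := SS93_LP_fst D h1 hu
        rw [h3] at h1
        exact SS93_RL D h2 h1
      · obtain ⟨u, hu⟩ := h2.1
        have h3 := SS93_LP_fst D h1 hu
        have h4 := SS93_cast (N := N) (x := (i : ℤ) + 1) (y := (k : ℤ) + 1)
          (by push_cast; exact h3) (by omega) (by omega)
        omega
    exact ⟨fun h => key _ (Or.inl rfl) (Or.inl h.symm), fun h => key _ (Or.inl rfl) (Or.inr h.symm),
      fun h => key _ (Or.inr rfl) (Or.inl h.symm), fun h => key _ (Or.inr rfl) (Or.inr h.symm)⟩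

end slots

end Pool.Agent.CC
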