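import Pool.Agent.Lib_helper74.CCF.C2c
import Pool.Agent.Lib_helper74.CCF.SSlots

/-! CORE2, part d: the chains `Lam`, `Rho`: values, boundaries, supports. -/

namespace Pool.Agent.CC

open Gph

namespace C2

variable {N : ℕ} [NeZero N] {q : ℕ} {c : Bool} {τ : ZMod N → RT}

theorem eq_cast_iff {j : ZMod N} {k : ℕ} (hk : k < N) : j = (k : ZMod N) ↔ j.val = k := by
  constructor
  · intro h; rw [h, ZMod.val_natCast_of_lt hk]
  · intro h; rw [← h, ZMod.natCast_zmod_val]

theorem val_pred {j : ZMod N} (h : 1 ≤ j.val) : (j - 1).val = j.val - 1 := by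
  have hlt := ZMod.val_lt j
  have : j - 1 = ((j.val - 1 : ℕ) : ZMod N) := by
    rw [Nat.cast_sub h, ZMod.natCast_zmod_val, Nat.cast_one]
  rw [this, ZMod.val_natCast_of_lt (by omega)]

theorem val_succ {j : ZMod N} (h : j.val + 1 < N) : (j + 1).val = j.val + 1 := by
  have : j + 1 = ((j.val + 1 : ℕ) : ZMod N) := by
    rw [Nat.cast_add, ZMod.natCast_zmod_val, Nat.cast_one]
  rw [this, ZMod.val_natCast_of_lt h]

theorem sum_ind {l r : ℕ} (hr : r ≤ N) (j : ZMod N) (p : Prop) :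
    ∑ k ∈ Finset.Ico l r, ind (j = (k : ZMod N) ∧ p) = ind (l ≤ j.val ∧ j.val < r ∧ p) := by
  by_cases h : l ≤ j.val ∧ j.val < r
  · rw [Finset.sum_eq_single j.val]
    · apply ind_congr
      rw [ZMod.natCast_zmod_val]; tauto
    · intro k hk hne
      apply ind_false
      rintro ⟨h1, -⟩
      rw [Finset.mem_Ico] at hk
      exact hne ((eq_cast_iff (by omega)).1 h1).symm
    · intro h1
      exact absurd (Finset.mem_Ico.2 h) h1
  · rw [ind_false (by tauto)]
    apply Finset.sum_eq_zero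
    intro k hk
    apply ind_false
    rintro ⟨h1, -⟩
    rw [Finset.mem_Ico] at hk
    have := (eq_cast_iff (by omega)).1 h1
    omega

/-! values of the basic chains -/

theorem chi_apply {G : Gph} (s : Finset G.E) (e : G.E) : G.chi s e = ind (e ∈ s) := by
  unfold chi
  by_cases h : e ∈ s
  · rw [if_pos h, ind_true h]
  · rw [if_neg h, ind_false h]

theorem emb_le (s : ∀ j, Finset ((τ j).loc q).E) (n j : ZMod N) (x : ((τ j).loc q).E) :
    emb q c τ n (s n) (le q c τ j x) = ind (j = n ∧ x ∈ s j) := by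
  unfold emb
  rw [chi_apply]
  apply ind_congr
  rw [Finset.mem_image]
  constructor
  · rintro ⟨y, hy, h⟩
    have h' := Sum.inl.inj h
    obtain ⟨rfl, h2⟩ := Sigma.mk.inj_iff.1 h'
    have := eq_of_heq h2
    subst this
    exact ⟨rfl, hy⟩
  · rintro ⟨rfl, h⟩
    exact ⟨x, h, rfl⟩

theorem emb_row (n : ZMod N) (s : Finset ((τ n).loc q).E) (j : ZMod N) :
    emb q c τ n s (rowE q c τ j) = 0 := by
  unfold emb
  rw [chi_apply]
  apply ind_false
  rw [Finset.mem_image]
  rintro ⟨y, -, h⟩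
  cases h

theorem emb_by (n : ZMod N) (s : Finset ((τ n).loc q).E) (j : {_j : ZMod N // c = true}) :
    emb q c τ n s (Sum.inr (Sum.inr j)) = 0 := by
  unfold emb
  rw [chi_apply]
  apply ind_false
  rw [Finset.mem_image]
  rintro ⟨y, -, h⟩
  cases h

theorem row_le (n j : ZMod N) (x : ((τ j).loc q).E) :
    (tstrip q c τ).chi {rowE q c τ n} (le q c τ j x) = 0 := by
  rw [chi_apply]
  apply ind_false
  rw [Finset.mem_singleton]
  intro h; cases h

theorem row_row (n j : ZMod N) :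
    (tstrip q c τ).chi {rowE q c τ n} (rowE q c τ j) = ind (j = n) := by
  rw [chi_apply]
  apply ind_congr
  rw [Finset.mem_singleton]
  constructor
  · intro h; exact Sum.inl.inj (Sum.inr.inj h)
  · rintro rfl; rfl

theorem row_by (n : ZMod N) (j : {_j : ZMod N // c = true}) :
    (tstrip q c τ).chi {rowE q c τ n} (Sum.inr (Sum.inr j)) = 0 := by
  rw [chi_apply]
  apply ind_false
  rw [Finset.mem_singleton]
  intro h; cases h

/-! the chains -/

/-- `eB` family -/
def fe (q : ℕ) (τ : ZMod N → RT) (a : ℕ → ℕ) (j : ZMod N) : Finset ((τ j).loc q).E :=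
  RT.eB q (a j.val) (τ j)
/-- `sA` family -/
def fs (q : ℕ) (τ : ZMod N → RT) (a : ℕ → ℕ) (j : ZMod N) : Finset ((τ j).loc q).E :=
  RT.sA q (a j.val) (τ j)

/-- the entry of region `j` -/
def en' (q : ℕ) (c : Bool) (τ : ZMod N → RT) (j : ZMod N) : (tstrip q c τ).V :=
  lv q c τ j ((τ j).loc q).en
/-- the exit of region `j` -/
def ex' (q : ℕ) (c : Bool) (τ : ZMod N → RT) (j : ZMod N) : (tstrip q c τ).V :=
  lv q c τ j ((τ j).loc q).ex

/-- full region -/
noncomputable def full (q : ℕ) (c : Bool) (τ : ZMod N → RT) (a : ℕ → ℕ) (k : ZMod N) :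
    (tstrip q c τ).E → ZMod 2 :=
  emb q c τ k (fe q τ a k) + emb q c τ k (fs q τ a k)

noncomputable def Lam (q : ℕ) (c : Bool) (τ : ZMod N → RT) (a : ℕ → ℕ) (n : ℕ) :
    (tstrip q c τ).E → ZMod 2 :=
  emb q c τ 0 (RT.sB q 0 (τ 0)) + (tstrip q c τ).chi {rowE q c τ 0} +
    ∑ k ∈ Finset.Ico 1 n, (full q c τ a (k : ZMod N) + (tstrip q c τ).chi {rowE q c τ (k : ZMod N)})

noncomputable def Rho (q : ℕ) (c : Bool) (τ : ZMod N → RT) (a : ℕ → ℕ) (n : ℕ) :
    (tstrip q c τ).E → ZMod 2 :=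
  (tstrip q c τ).chi {rowE q c τ ((N - 9 : ℕ) : ZMod N)} +
    emb q c τ ((N - 8 : ℕ) : ZMod N) (RT.eA q (q + 1) (τ ((N - 8 : ℕ) : ZMod N))) +
    ∑ k ∈ Finset.Ico n (N - 9), ((tstrip q c τ).chi {rowE q c τ (k : ZMod N)} +
      full q c τ a ((k + 1 : ℕ) : ZMod N))

theorem full_le (a : ℕ → ℕ) (k j : ZMod N) (x : ((τ j).loc q).E) :
    full q c τ a k (le q c τ j x) = ind (j = k ∧ x ∈ fe q τ a j) + ind (j = k ∧ x ∈ fs q τ a j) := by
  unfold full
  rw [Pi.add_apply, emb_le, emb_le]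

theorem full_row (a : ℕ → ℕ) (k j : ZMod N) : full q c τ a k (rowE q c τ j) = 0 := by
  unfold full
  rw [Pi.add_apply, emb_row, emb_row, add_zero]

theorem full_by (a : ℕ → ℕ) (k : ZMod N) (j : {_j : ZMod N // c = true}) :
    full q c τ a k (Sum.inr (Sum.inr j)) = 0 := by
  unfold full
  rw [Pi.add_apply, emb_by, emb_by, add_zero]

theorem Lam_le (a : ℕ → ℕ) {n : ℕ} (hn : n ≤ N) (j : ZMod N) (hj : 1 ≤ j.val)
    (x : ((τ j).loc q).E) : Lam q c τ a n (le q c τ j x) =
      ind (j.val < n ∧ x ∈ fe q τ a j) + ind (j.val < n ∧ x ∈ fs q τ a j) := by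
  unfold Lam
  rw [Pi.add_apply, Pi.add_apply, row_le, Finset.sum_apply]
  have h0 : emb q c τ 0 (RT.sB q 0 (τ 0)) (le q c τ j x) = 0 := by
    rw [emb_le (fun j => RT.sB q 0 (τ j))]
    apply ind_false
    rintro ⟨h, -⟩
    rw [h, ZMod.val_zero] at hj
    omega
  rw [h0, zero_add, zero_add]
  have h1 : ∀ k ∈ Finset.Ico 1 n, (full q c τ a (k : ZMod N) +
      (tstrip q c τ).chi {rowE q c τ (k : ZMod N)}) (le q c τ j x) =
      ind (j = (k : ZMod N) ∧ x ∈ fe q τ a j) + ind (j = (k : ZMod N) ∧ x ∈ fs q τ a j) := by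
    intro k _
    rw [Pi.add_apply, row_le, full_le, add_zero]
  rw [Finset.sum_congr rfl h1, Finset.sum_add_distrib, sum_ind hn, sum_ind hn]
  congr 1
  · apply ind_congr; tauto
  · apply ind_congr; tauto

theorem Lam_row (a : ℕ → ℕ) {n : ℕ} (hn1 : 1 ≤ n) (hn : n ≤ N) (j : ZMod N) :
    Lam q c τ a n (rowE q c τ j) = ind (j.val < n) := by
  unfold Lam
  rw [Pi.add_apply, Pi.add_apply, row_row, Finset.sum_apply, emb_row, zero_add]
  have h1 : ∀ k ∈ Finset.Ico 1 n, (full q c τ a (k : ZMod N) +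
      (tstrip q c τ).chi {rowE q c τ (k : ZMod N)}) (rowE q c τ j) =
      ind (j = (k : ZMod N) ∧ True) := by
    intro k _
    rw [Pi.add_apply, row_row, full_row, zero_add]
    apply ind_congr; tauto
  rw [Finset.sum_congr rfl h1, sum_ind hn]
  have h2 : (j = 0) ↔ j.val = 0 := (ZMod.val_eq_zero j).symm
  rw [ind_add]
  · apply ind_congr
    rw [h2, and_true]; omega
  · rw [h2]; omega

theorem Lam_by (a : ℕ → ℕ) (n : ℕ) (j : {_j : ZMod N // c = true}) :
    Lam q c τ a n (Sum.inr (Sum.inr j)) = 0 := by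
  unfold Lam
  rw [Pi.add_apply, Pi.add_apply, row_by, Finset.sum_apply, emb_by, zero_add, zero_add]
  apply Finset.sum_eq_zero
  intro k _
  rw [Pi.add_apply, row_by, full_by, zero_add]

theorem Rho_le (hN : 16 ≤ N) (a : ℕ → ℕ) {n : ℕ} (j : ZMod N) (hj : j.val ≤ N - 9)
    (x : ((τ j).loc q).E) : Rho q c τ a n (le q c τ j x) =
      ind (n < j.val ∧ x ∈ fe q τ a j) + ind (n < j.val ∧ x ∈ fs q τ a j) := by
  unfold Rho
  rw [Pi.add_apply, Pi.add_apply, row_le, Finset.sum_apply]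
  have h0 : emb q c τ ((N - 8 : ℕ) : ZMod N) (RT.eA q (q + 1) (τ ((N - 8 : ℕ) : ZMod N)))
      (le q c τ j x) = 0 := by
    rw [emb_le (fun j => RT.eA q (q + 1) (τ j))]
    apply ind_false
    rintro ⟨h, -⟩
    rw [eq_cast_iff (by omega)] at h
    omega
  rw [h0, zero_add, zero_add]
  have h1 : ∀ k ∈ Finset.Ico n (N - 9), ((tstrip q c τ).chi {rowE q c τ (k : ZMod N)} +
      full q c τ a ((k + 1 : ℕ) : ZMod N)) (le q c τ j x) =
      ind (j = ((k + 1 : ℕ) : ZMod N) ∧ x ∈ fe q τ a j) +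
        ind (j = ((k + 1 : ℕ) : ZMod N) ∧ x ∈ fs q τ a j) := by
    intro k _
    rw [Pi.add_apply, row_le, full_le, zero_add]
  rw [Finset.sum_congr rfl h1, Finset.sum_add_distrib]
  have h2 : ∀ p : Prop, ∑ k ∈ Finset.Ico n (N - 9), ind (j = ((k + 1 : ℕ) : ZMod N) ∧ p) =
      ind (n < j.val ∧ p) := by
    intro p
    have h3 := sum_ind (l := n + 1) (r := N - 9 + 1) (by omega) j p
    rw [← Finset.sum_Ico_add' (fun k : ℕ => ind (j = (k : ZMod N) ∧ p)) n (N - 9) 1] at h3
    rw [h3]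
    apply ind_congr
    constructor
    · rintro ⟨h4, -, h5⟩; exact ⟨by omega, h5⟩
    · rintro ⟨h4, h5⟩; exact ⟨by omega, by omega, h5⟩
  rw [h2, h2]

theorem Rho_row (hN : 16 ≤ N) (a : ℕ → ℕ) {n : ℕ} (hn : n ≤ N - 9) (j : ZMod N)
    (hj : j.val ≤ N - 9) : Rho q c τ a n (rowE q c τ j) = ind (n ≤ j.val) := by
  unfold Rho
  rw [Pi.add_apply, Pi.add_apply, row_row, Finset.sum_apply, emb_row, add_zero]
  have h1 : ∀ k ∈ Finset.Ico n (N - 9), ((tstrip q c τ).chi {rowE q c τ (k : ZMod N)} +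
      full q c τ a ((k + 1 : ℕ) : ZMod N)) (rowE q c τ j) = ind (j = (k : ZMod N) ∧ True) := by
    intro k _
    rw [Pi.add_apply, row_row, full_row, add_zero]
    apply ind_congr; tauto
  rw [Finset.sum_congr rfl h1, sum_ind (by omega)]
  have h2 : j = ((N - 9 : ℕ) : ZMod N) ↔ j.val = N - 9 := eq_cast_iff (by omega)
  rw [ind_add]
  · apply ind_congr
    rw [h2, and_true]; omega
  · rw [h2]; omega

theorem Rho_by (a : ℕ → ℕ) (n : ℕ) (j : {_j : ZMod N // c = true}) :
    Rho q c τ a n (Sum.inr (Sum.inr j)) = 0 := by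
  unfold Rho
  rw [Pi.add_apply, Pi.add_apply, row_by, Finset.sum_apply, emb_by, zero_add, zero_add]
  apply Finset.sum_eq_zero
  intro k _
  rw [Pi.add_apply, row_by, full_by, zero_add]

/-! boundaries -/

theorem bdl_row (k : ZMod N) : (tstrip q c τ).bdl ((tstrip q c τ).chi {rowE q c τ k}) =
    (tstrip q c τ).one (ex' q c τ k) + (tstrip q c τ).one (en' q c τ (k + 1)) := by
  rw [bdl_chi]
  funext v
  unfold Gph.bd
  rw [Finset.sum_singleton]
  rfl

section
variable (hN : 16 ≤ N) (hW : (∃ j, τ j = .W) → 1 ≤ q) {a : ℕ → ℕ} (ha : ∀ n, a n < q + 2)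
include hN hW ha

theorem bdl_full (k : ZMod N) : (tstrip q c τ).bdl (full q c τ a k) =
    ((tstrip q c τ).one (en' q c τ k) + (tstrip q c τ).one (hub q c τ k)) +
    ((tstrip q c τ).one (hub q c τ (k - 1)) + (tstrip q c τ).one (ex' q c τ k)) := by
  obtain ⟨D, h1, h2⟩ := exists_thru q c τ (by omega) hW (fun j => a j.val) (fun j => ha _)
  have h3 := D.he k
  have h4 := D.hs k
  rw [h1] at h3
  rw [h2] at h4
  unfold full
  rw [bdl_add]
  exact congrArg₂ (· + ·) h3 h4

omit ha in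
theorem bdl_sB' (k : ZMod N) {i : ℕ} (hi : i < q + 2) : (tstrip q c τ).bdl
    (emb q c τ k (RT.sB q i (τ k))) =
    (tstrip q c τ).one (hub q c τ k) + (tstrip q c τ).one (ex' q c τ k) :=
  bdl_sB q c τ (by omega) hW k i hi

omit ha in
theorem bdl_eA' (k : ZMod N) {i : ℕ} (hi : i < q + 2) : (tstrip q c τ).bdl
    (emb q c τ k (RT.eA q i (τ k))) =
    (tstrip q c τ).one (en' q c τ k) + (tstrip q c τ).one (hub q c τ (k - 1)) :=
  bdl_eA q c τ (by omega) hW k i hi

theorem bdl_Lam {n : ℕ} (hn : 1 ≤ n) : (tstrip q c τ).bdl (Lam q c τ a n) =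
    (tstrip q c τ).one (en' q c τ (n : ZMod N)) +
      (tstrip q c τ).one (hub q c τ ((n : ZMod N) - 1)) := by
  have h2 : ∀ x : ZMod 2, x + x = 0 := by decide
  induction n, hn using Nat.le_induction with
  | base =>
    unfold Lam
    rw [Finset.Ico_self, Finset.sum_empty, add_zero, bdl_add, bdl_sB' hN hW 0 (by omega), bdl_row]
    have e1 : ((1 : ℕ) : ZMod N) = 0 + 1 := by push_cast; ring
    have e2 : ((1 : ℕ) : ZMod N) - 1 = 0 := by push_cast; ring
    rw [e2, e1]
    funext v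
    simp only [Pi.add_apply]
    linear_combination h2 ((tstrip q c τ).one (ex' q c τ 0) v)
  | succ n hn ih =>
    have e0 : Lam q c τ a (n + 1) = Lam q c τ a n + (full q c τ a (n : ZMod N) +
        (tstrip q c τ).chi {rowE q c τ (n : ZMod N)}) := by
      unfold Lam
      rw [Finset.sum_Ico_succ_top hn, ← add_assoc]
    rw [e0, bdl_add, ih, bdl_add, bdl_full hN hW ha, bdl_row]
    have e1 : ((n + 1 : ℕ) : ZMod N) = (n : ZMod N) + 1 := by push_cast; ring
    have e2 : ((n + 1 : ℕ) : ZMod N) - 1 = (n : ZMod N) := by push_cast; ring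
    rw [e2, e1]
    funext v
    simp only [Pi.add_apply]
    linear_combination h2 ((tstrip q c τ).one (en' q c τ n) v) +
      h2 ((tstrip q c τ).one (hub q c τ ((n : ZMod N) - 1)) v) +
      h2 ((tstrip q c τ).one (ex' q c τ n) v)

theorem bdl_Rho {n : ℕ} (hn : n ≤ N - 9) : (tstrip q c τ).bdl (Rho q c τ a n) =
    (tstrip q c τ).one (ex' q c τ (n : ZMod N)) +
      (tstrip q c τ).one (hub q c τ (n : ZMod N)) := by
  have h2 : ∀ x : ZMod 2, x + x = 0 := by decide
  obtain ⟨d, hd⟩ : ∃ d, n + d = N - 9 := ⟨N - 9 - n, by omega⟩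
  clear hn
  induction d generalizing n with
  | zero =>
    rw [add_zero] at hd
    subst hd
    unfold Rho
    rw [Finset.Ico_self, Finset.sum_empty, add_zero, bdl_add, bdl_eA' hN hW _ (by omega), bdl_row]
    have e1 : ((N - 8 : ℕ) : ZMod N) = ((N - 9 : ℕ) : ZMod N) + 1 := by
      rw [show N - 8 = N - 9 + 1 by omega]; push_cast; ring
    have e2 : ((N - 8 : ℕ) : ZMod N) - 1 = ((N - 9 : ℕ) : ZMod N) := by rw [e1]; ring
    rw [e2, e1]
    funext v
    simp only [Pi.add_apply]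
    linear_combination h2 ((tstrip q c τ).one (en' q c τ (((N - 9 : ℕ) : ZMod N) + 1)) v)
  | succ d ih =>
    have ih' := ih (n := n + 1) (by omega)
    have e0 : Rho q c τ a n = Rho q c τ a (n + 1) + ((tstrip q c τ).chi {rowE q c τ (n : ZMod N)} +
        full q c τ a ((n + 1 : ℕ) : ZMod N)) := by
      unfold Rho
      rw [Finset.sum_eq_sum_Ico_succ_bot (by omega : n < N - 9)]
      abel
    rw [e0, bdl_add, ih', bdl_add, bdl_full hN hW ha, bdl_row]
    have e1 : ((n + 1 : ℕ) : ZMod N) = (n : ZMod N) + 1 := by push_cast; ring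
    have e2 : ((n + 1 : ℕ) : ZMod N) - 1 = (n : ZMod N) := by push_cast; ring
    rw [e2, e1]
    funext v
    simp only [Pi.add_apply]
    linear_combination h2 ((tstrip q c τ).one (en' q c τ ((n : ZMod N) + 1)) v) +
      h2 ((tstrip q c τ).one (hub q c τ ((n : ZMod N) + 1)) v) +
      h2 ((tstrip q c τ).one (ex' q c τ ((n : ZMod N) + 1)) v)

end

/-! supports -/

/-- Below the cut in region `n` at the position `θ`. -/
def Below (q : ℕ) (c : Bool) (τ : ZMod N → RT) (n θ : ℕ) (v : (tstrip q c τ).V) : Prop :=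
  match v with
  | .inl j => j.val < n
  | .inr ⟨j, u⟩ => j.val < n ∨ (j.val = n ∧ vloc q (τ j) u ≤ θ)

/-- The ends of all edges of the chain have the property `p`. -/
def SuppIn {G : Gph} (c : G.E → ZMod 2) (p : G.V → Prop) : Prop :=
  ∀ e, c e ≠ 0 → p (G.a e) ∧ p (G.b e)

theorem SuppIn.add {G : Gph} {c d : G.E → ZMod 2} {p : G.V → Prop} (hc : SuppIn c p)
    (hd : SuppIn d p) : SuppIn (c + d) p := by
  intro e he
  by_cases h : c e = 0
  · by_cases h' : d e = 0
    · exact absurd (by rw [Pi.add_apply, h, h', add_zero]) he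
    · exact hd e h'
  · exact hc e h

theorem SuppIn.sum {G : Gph} {ι : Type} {s : Finset ι} {c : ι → G.E → ZMod 2} {p : G.V → Prop}
    (h : ∀ i ∈ s, SuppIn (c i) p) : SuppIn (∑ i ∈ s, c i) p := by
  intro e he
  rw [Finset.sum_apply] at he
  obtain ⟨i, hi, h1⟩ := Finset.exists_ne_zero_of_sum_ne_zero he
  exact h i hi e h1

theorem SuppIn.mono {G : Gph} {c : G.E → ZMod 2} {p p' : G.V → Prop} (h : SuppIn c p)
    (hp : ∀ v, p v → p' v) : SuppIn c p' := fun e he => ⟨hp _ (h e he).1, hp _ (h e he).2⟩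

theorem indC_of {G : Gph} {c d : G.E → ZMod 2} {p : G.V → Prop} (hc : SuppIn c p)
    (hd : SuppIn d (fun v => ¬ p v)) : IndC c d := by
  intro e f he hf
  have h1 := hc e he
  have h2 := hd f hf
  refine ⟨?_, ?_, ?_, ?_⟩ <;> intro h
  · exact h2.1 (h ▸ h1.1)
  · exact h2.2 (h ▸ h1.1)
  · exact h2.1 (h ▸ h1.2)
  · exact h2.2 (h ▸ h1.2)

theorem supp_emb {n : ZMod N} {s : Finset ((τ n).loc q).E} {p : (tstrip q c τ).V → Prop}
    (h : ∀ x ∈ s, p (locEnd (fun j => (τ j).loc q) n (((τ n).loc q).a x)) ∧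
      p (locEnd (fun j => (τ j).loc q) n (((τ n).loc q).b x))) : SuppIn (emb q c τ n s) p := by
  intro e he
  unfold emb at he
  rw [chi_apply] at he
  have : e ∈ s.image (le q c τ n) := by
    by_contra h'
    exact he (ind_false h')
  obtain ⟨x, hx, rfl⟩ := Finset.mem_image.1 this
  exact h x hx

theorem supp_row {n : ZMod N} {p : (tstrip q c τ).V → Prop} (h1 : p (ex' q c τ n))
    (h2 : p (en' q c τ (n + 1))) : SuppIn ((tstrip q c τ).chi {rowE q c τ n}) p := by
  intro e he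
  rw [chi_apply] at he
  have : e ∈ ({rowE q c τ n} : Finset (tstrip q c τ).E) := by
    by_contra h'
    exact he (ind_false h')
  rw [Finset.mem_singleton] at this
  subst this
  exact ⟨h1, h2⟩

theorem below_loc {n θ : ℕ} {j : ZMod N} (hj : j.val = n) (hn : 1 ≤ n)
    (y : ((τ j).loc q).V ⊕ Bool) (h : EndP q (τ j) (fun p => p ≤ θ) True False y) :
    Below q c τ n θ (locEnd (fun j => (τ j).loc q) j y) := by
  rcases y with u | (_ | _)
  · exact Or.inr ⟨hj, h⟩
  · show (j - 1).val < n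
    rw [val_pred (by omega)]; omega
  · exact h.elim

theorem below_lt {n θ : ℕ} {j : ZMod N} (hj : j.val < n) (hj1 : 1 ≤ j.val)
    (y : ((τ j).loc q).V ⊕ Bool) : Below q c τ n θ (locEnd (fun j => (τ j).loc q) j y) := by
  rcases y with u | (_ | _)
  · exact Or.inl hj
  · show (j - 1).val < n
    rw [val_pred (by omega)]; omega
  · exact hj

theorem below_zero {n θ : ℕ} (hn : 1 ≤ n) {p : ℕ → Prop}
    (y : ((τ 0).loc q).V ⊕ Bool) (h : EndP q (τ 0) p False True y) :
    Below q c τ n θ (locEnd (fun j => (τ j).loc q) 0 y) := by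
  rcases y with u | (_ | _)
  · left; rw [ZMod.val_zero]; omega
  · exact h.elim
  · show (0 : ZMod N).val < n
    rw [ZMod.val_zero]; omega

theorem above_loc {n θ : ℕ} {j : ZMod N} (hj : j.val = n)
    (y : ((τ j).loc q).V ⊕ Bool) (h : EndP q (τ j) (fun p => θ < p) False True y) :
    ¬ Below q c τ n θ (locEnd (fun j => (τ j).loc q) j y) := by
  rcases y with u | (_ | _)
  · have h' : θ < vloc q (τ j) u := h
    rintro (h1 | ⟨-, h1⟩) <;> omega
  · exact h.elim
  · show ¬ j.val < n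
    omega

theorem above_gt {n θ : ℕ} {j : ZMod N} (hj : n < j.val)
    (y : ((τ j).loc q).V ⊕ Bool) : ¬ Below q c τ n θ (locEnd (fun j => (τ j).loc q) j y) := by
  rcases y with u | (_ | _)
  · rintro (h1 | ⟨h1, -⟩) <;> omega
  · show ¬ (j - 1).val < n
    rw [val_pred (by omega)]; omega
  · show ¬ j.val < n
    omega

theorem supp_Lam (a : ℕ → ℕ) {n θ : ℕ} (hn : 1 ≤ n) (hn' : n < N) (hθ : 1 ≤ θ) :
    SuppIn (Lam q c τ a n) (Below q c τ n θ) := by
  have hrow : ∀ k : ℕ, k < n → SuppIn ((tstrip q c τ).chi {rowE q c τ (k : ZMod N)})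
      (Below q c τ n θ) := by
    intro k hk
    have hv : ((k : ℕ) : ZMod N).val = k := ZMod.val_natCast_of_lt (by omega)
    apply supp_row
    · left; rw [hv]; exact hk
    · have h1 := val_succ (j := ((k : ℕ) : ZMod N)) (by rw [hv]; omega)
      rw [hv] at h1
      by_cases h2 : k + 1 < n
      · left; rw [h1]; exact h2
      · right
        refine ⟨by rw [h1]; omega, ?_⟩
        rw [vloc_en]; exact hθ
  unfold Lam
  refine SuppIn.add (SuppIn.add ?_ ?_) (SuppIn.sum ?_)
  · exact supp_emb (fun x hx => ⟨below_zero hn _ (ends_sB q 0 (τ 0) x hx).1,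
      below_zero hn _ (ends_sB q 0 (τ 0) x hx).2⟩)
  · have := hrow 0 hn
    rwa [Nat.cast_zero] at this
  · intro k hk
    rw [Finset.mem_Ico] at hk
    have hv : ((k : ℕ) : ZMod N).val = k := ZMod.val_natCast_of_lt (by omega)
    refine SuppIn.add (SuppIn.add ?_ ?_) (hrow k hk.2)
    · exact supp_emb (fun x _ => ⟨below_lt (by omega) (by omega) _, below_lt (by omega) (by omega) _⟩)
    · exact supp_emb (fun x _ => ⟨below_lt (by omega) (by omega) _, below_lt (by omega) (by omega) _⟩)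

theorem supp_Rho (hN : 16 ≤ N) (a : ℕ → ℕ) {n m θ : ℕ} (hn : n ≤ N - 9)
    (hm : m < n ∨ (m = n ∧ θ ≤ mm q (τ (n : ZMod N)))) :
    SuppIn (Rho q c τ a n) (fun v => ¬ Below q c τ m θ v) := by
  have hrow : ∀ k : ℕ, n ≤ k → k ≤ N - 9 → SuppIn ((tstrip q c τ).chi {rowE q c τ (k : ZMod N)})
      (fun v => ¬ Below q c τ m θ v) := by
    intro k hk hk'
    have hv : ((k : ℕ) : ZMod N).val = k := ZMod.val_natCast_of_lt (by omega)
    apply supp_row
    · rintro (h | ⟨h1, h2⟩)
      · rw [hv] at h; omega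
      · rw [hv] at h1
        rw [vloc_ex] at h2
        have : n = k := by omega
        subst this
        rcases hm with hm | ⟨-, hm⟩ <;> omega
    · have h1 := val_succ (j := ((k : ℕ) : ZMod N)) (by rw [hv]; omega)
      rw [hv] at h1
      rintro (h | ⟨h2, -⟩)
      · rw [h1] at h; omega
      · rw [h1] at h2; omega
  unfold Rho
  refine SuppIn.add (SuppIn.add ?_ ?_) (SuppIn.sum ?_)
  · exact hrow _ hn le_rfl
  · have hv : ((N - 8 : ℕ) : ZMod N).val = N - 8 := ZMod.val_natCast_of_lt (by omega)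
    exact supp_emb (fun x _ => ⟨above_gt (by omega) _, above_gt (by omega) _⟩)
  · intro k hk
    rw [Finset.mem_Ico] at hk
    have hv : ((k + 1 : ℕ) : ZMod N).val = k + 1 := ZMod.val_natCast_of_lt (by omega)
    refine SuppIn.add (hrow k hk.1 (by omega)) (SuppIn.add ?_ ?_)
    · exact supp_emb (fun x _ => ⟨above_gt (by omega) _, above_gt (by omega) _⟩)
    · exact supp_emb (fun x _ => ⟨above_gt (by omega) _, above_gt (by omega) _⟩)

/-! supports: the local edges -/

/-- low edges: local edges in regions below `n`, or in region `n` outside the right part -/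
def LowE (q : ℕ) (c : Bool) (τ : ZMod N → RT) (n : ℕ) (e : (tstrip q c τ).E) : Prop :=
  match e with
  | .inl ⟨j, x⟩ => j.val < n ∨ (j.val = n ∧ (RT.part q (τ j) x = none ∨
      RT.part q (τ j) x = some false))
  | .inr _ => True

/-- high edges: local edges in regions above `n`, or in region `n` outside the left part -/
def HighE (q : ℕ) (c : Bool) (τ : ZMod N → RT) (n : ℕ) (e : (tstrip q c τ).E) : Prop :=
  match e with
  | .inl ⟨j, x⟩ => n < j.val ∨ (j.val = n ∧ (RT.part q (τ j) x = none ∨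
      RT.part q (τ j) x = some true))
  | .inr _ => True

/-- All edges of the chain have the property `p`. -/
def EdgeIn {G : Gph} (c : G.E → ZMod 2) (p : G.E → Prop) : Prop := ∀ e, c e ≠ 0 → p e

theorem EdgeIn.add {G : Gph} {c d : G.E → ZMod 2} {p : G.E → Prop} (hc : EdgeIn c p)
    (hd : EdgeIn d p) : EdgeIn (c + d) p := by
  intro e he
  by_cases h : c e = 0
  · by_cases h' : d e = 0
    · exact absurd (by rw [Pi.add_apply, h, h', add_zero]) he
    · exact hd e h'
  · exact hc e h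

theorem EdgeIn.sum {G : Gph} {ι : Type} {s : Finset ι} {c : ι → G.E → ZMod 2} {p : G.E → Prop}
    (h : ∀ i ∈ s, EdgeIn (c i) p) : EdgeIn (∑ i ∈ s, c i) p := by
  intro e he
  rw [Finset.sum_apply] at he
  obtain ⟨i, hi, h1⟩ := Finset.exists_ne_zero_of_sum_ne_zero he
  exact h i hi e h1

theorem edge_emb {n : ZMod N} {s : Finset ((τ n).loc q).E} {p : (tstrip q c τ).E → Prop}
    (h : ∀ x ∈ s, p (le q c τ n x)) : EdgeIn (emb q c τ n s) p := by
  intro e he
  unfold emb at he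
  rw [chi_apply] at he
  have : e ∈ s.image (le q c τ n) := by
    by_contra h'
    exact he (ind_false h')
  obtain ⟨x, hx, rfl⟩ := Finset.mem_image.1 this
  exact h x hx

theorem edge_row {n : ZMod N} {p : (tstrip q c τ).E → Prop} (h1 : p (rowE q c τ n)) :
    EdgeIn ((tstrip q c τ).chi {rowE q c τ n}) p := by
  intro e he
  rw [chi_apply] at he
  have : e ∈ ({rowE q c τ n} : Finset (tstrip q c τ).E) := by
    by_contra h'
    exact he (ind_false h')
  rw [Finset.mem_singleton] at this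
  subst this
  exact h1

theorem not_same {n : ℕ} {d d' : (tstrip q c τ).E → ZMod 2} (h : EdgeIn d (LowE q c τ n))
    (h' : EdgeIn d' (HighE q c τ n)) : ∀ e f, d e ≠ 0 → d' f ≠ 0 → ¬ SameP e f := by
  intro e f he hf hs
  have h1 := h e he
  have h2 := h' f hf
  rcases e with ⟨j, x⟩ | e
  · rcases f with ⟨k, y⟩ | f
    · obtain ⟨h3, h4, h5⟩ := hs
      subst h3
      have h1' : j.val < n ∨ (j.val = n ∧ (RT.part q (τ j) x = none ∨
        RT.part q (τ j) x = some false)) := h1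
      have h2' : n < j.val ∨ (j.val = n ∧ (RT.part q (τ j) y = none ∨
        RT.part q (τ j) y = some true)) := h2
      rcases h1' with h6 | ⟨h6, h7⟩ <;> rcases h2' with h8 | ⟨h8, h9⟩
      · omega
      · omega
      · omega
      · rcases h7 with h7 | h7
        · exact h4 h7
        · rcases h9 with h9 | h9
          · rw [h7, h9] at h5; cases h5
          · rw [h7, h9] at h5; cases h5
    · exact hs.elim
  · exact (show False from hs).elim

theorem lowE_lt {n : ℕ} {j : ZMod N} (hj : j.val < n) (s : Finset ((τ j).loc q).E) :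
    EdgeIn (emb q c τ j s) (LowE q c τ n) := edge_emb (fun _ _ => Or.inl hj)

theorem highE_gt {n : ℕ} {j : ZMod N} (hj : n < j.val) (s : Finset ((τ j).loc q).E) :
    EdgeIn (emb q c τ j s) (HighE q c τ n) := edge_emb (fun _ _ => Or.inl hj)

theorem lowE_Lam (a : ℕ → ℕ) {n : ℕ} (hn : 1 ≤ n) (hn' : n < N) :
    EdgeIn (Lam q c τ a n) (LowE q c τ n) := by
  unfold Lam
  refine EdgeIn.add (EdgeIn.add (lowE_lt ?_ _) (edge_row trivial)) (EdgeIn.sum ?_)
  · rw [ZMod.val_zero]; omega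
  · intro k hk
    rw [Finset.mem_Ico] at hk
    have hv : ((k : ℕ) : ZMod N).val = k := ZMod.val_natCast_of_lt (by omega)
    exact EdgeIn.add (EdgeIn.add (lowE_lt (by omega) _) (lowE_lt (by omega) _)) (edge_row trivial)

theorem highE_Rho (hN : 16 ≤ N) (a : ℕ → ℕ) {n m : ℕ} (hn : n ≤ N - 9) (hm : m ≤ n) :
    EdgeIn (Rho q c τ a n) (HighE q c τ m) := by
  unfold Rho
  have hv : ((N - 8 : ℕ) : ZMod N).val = N - 8 := ZMod.val_natCast_of_lt (by omega)
  refine EdgeIn.add (EdgeIn.add (edge_row trivial) (highE_gt (by omega) _)) (EdgeIn.sum ?_)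
  intro k hk
  rw [Finset.mem_Ico] at hk
  have hv : ((k + 1 : ℕ) : ZMod N).val = k + 1 := ZMod.val_natCast_of_lt (by omega)
  exact EdgeIn.add (edge_row trivial) (EdgeIn.add (highE_gt (by omega) _) (highE_gt (by omega) _))

end C2
end Pool.Agent.CC
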