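import Pool.Agent.Lib_helper74.CCF.Core1

/-! CORE1 with weaker hypotheses on the outer sides: if the last row edge of region `j-1` is a cut
of the choice `a` (layer `t-1` of a `T` region), it is allowed to assume that it is untouched. -/

set_option autoImplicit false

namespace Pool.Agent.CC.Core1

theorem core1' (t : ℕ) (ht : 1 ≤ t) (T : Finset ℕ) (h1 : ∀ n ∈ T, 1 ≤ n) (m : ℕ → ℕ)
    (hm : ∀ n ∈ T, m n = 2 * t - 1) (hm1 : ∀ n, 1 ≤ m n)
    (R : Finset (ℕ × ℕ)) (hR : ∀ p ∈ R, p.2 ≤ m p.1) (y : ℕ × ℕ → ℕ × ℕ → ZMod 2)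
    (hh : ∀ a : ℕ → ℕ, (∀ n ∈ T, a n < t) → ∀ j ∈ T, ∀ i, i + 1 < t →
      cutSum R y (j, 2 + 2 * i) (j, 2 + 2 * i) (cuts T a j) = 0)
    (hL : ∀ a : ℕ → ℕ, (∀ n ∈ T, a n < t) → ∀ j ∈ T,
      ((j - 1, m (j - 1)) ∈ cuts T a j → (j - 1, m (j - 1)) ∈ R →
        ∀ q ∈ R, lt (j, 0) q → y (j - 1, m (j - 1)) q = 0) →
      cutSum R y (j - 1, m (j - 1)) (j, 0) (cuts T a j) = 0)
    (hRt : ∀ a : ℕ → ℕ, (∀ n ∈ T, a n < t) → ∀ j ∈ T,
      ((j + 1, 1) ∈ cuts T a j → (j + 1, 1) ∈ R → ∀ p ∈ R, lt p (j + 1, 0) → y p (j + 1, 1) = 0) →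
      cutSum R y (j + 1, 0) (j + 1, 1) (cuts T a j) = 0)
    (hΦ : ∀ a : ℕ → ℕ, (∀ n ∈ T, a n < t) →
      ∑ j ∈ T, cutSum R y (j, 1 + 2 * a j) (j, 1 + 2 * a j) (cuts T a j) = 1) :
    t ≤ ((R ×ˢ R).filter (fun p => lt p.1 p.2 ∧ y p.1 p.2 = 1)).card := by
  classical
  show t ≤ (BB R y).card
  by_contra hlt
  push Not at hlt
  set H := Th R y with hH
  have hcardH : H.card ≤ 2 * t - 2 := by
    have hcT := card_Th (R := R) (y := y)
    rw [← hH] at hcT
    omega
  have hmemL : ∀ b ∈ BB R y, b.1 ∈ H := fun b hb => by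
    rw [hH, Th, Finset.mem_union]
    exact Or.inl (Finset.mem_image_of_mem _ hb)
  have hmemR : ∀ b ∈ BB R y, b.2 ∈ H := fun b hb => by
    rw [hH, Th, Finset.mem_union]
    exact Or.inr (Finset.mem_image_of_mem _ hb)
  have hside : ∀ a : ℕ → ℕ, (∀ n ∈ T, a n < t) → ∀ j ∈ T, ∀ i ≤ t,
      (∀ r ∈ sd m t j i, r ∈ cuts T a j → r ∉ H) →
      cutSum R y (sP m t j i) (sQ t j i) (cuts T a j) = 0 := by
    intro a ha j hj i hi hun
    have hj1 := h1 j hj
    by_cases h0 : i = 0
    · rw [sP, sQ, if_pos h0, if_pos h0]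
      refine hL a ha j hj (fun h3 h4 q hq hlq => zmod2_cases _ (fun hy => ?_))
      refine hun (j - 1, m (j - 1)) ?_ h3 (hmemL _ (mem_BB.2 ⟨⟨h4, hq⟩, ?_, hy⟩))
      · rw [sd, Finset.mem_insert, sP, if_pos h0]; exact Or.inl rfl
      · obtain ⟨q1, q2⟩ := q
        unfold lt at hlq ⊢
        simp only at hlq ⊢
        omega
    · by_cases h2 : i = t
      · rw [sP, sQ, if_neg h0, if_pos h2, if_neg h0, if_pos h2]
        refine hRt a ha j hj (fun h3 h4 p hp hlp => zmod2_cases _ (fun hy => ?_))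
        refine hun (j + 1, 1) ?_ h3 (hmemR _ (mem_BB.2 ⟨⟨hp, h4⟩, ?_, hy⟩))
        · rw [sd, Finset.mem_insert, Finset.mem_singleton, sQ, if_neg h0, if_pos h2]
          exact Or.inr rfl
        · obtain ⟨p1, p2⟩ := p
          unfold lt at hlp ⊢
          simp only at hlp ⊢
          omega
      · rw [sP, sQ, if_neg h0, if_neg h2, if_neg h0, if_neg h2]
        obtain ⟨k, rfl⟩ : ∃ k, i = k + 1 := ⟨i - 1, by omega⟩
        have := hh a ha j hj k (by omega)
        rw [show 2 * (k + 1) = 2 + 2 * k by ring]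
        exact this
  -- a good layer
  have hgood : ∀ j ∈ T, ¬ Bad m t H j → ∃ b < t, (j, 1 + 2 * b) ∉ H ∧ ∀ a : ℕ → ℕ, (∀ n ∈ T, a n < t) →
      cutSum R y (j, 1 + 2 * b) (j, 1 + 2 * b) (cuts T a j) = 0 := by
    intro j hj hb
    unfold Bad at hb
    push Not at hb
    obtain ⟨b, hbt, hz, hs⟩ := hb
    refine ⟨b, hbt, hz, fun a ha => ?_⟩
    by_contra hne
    by_cases hl : ∃ r ∈ sd m t j b, r ∈ H
    · obtain ⟨r, hr, hrH⟩ := hl
      obtain ⟨c, hc, hc'⟩ := get_right hR (hm j hj) hbt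
        (hside a ha j hj (b + 1) (by omega) (fun r' hr' _ => hs ⟨r, hr, hrH⟩ r' hr')) hne
      rcases hc' with h | h
      · exact hz (h ▸ hmemL c hc)
      · exact hs ⟨r, hr, hrH⟩ c.2 h (hmemR c hc)
    · push Not at hl
      obtain ⟨c, hc, hc'⟩ := get_left hR (h1 j hj) hbt
        (hside a ha j hj b (by omega) (fun r' hr' _ => hl r' hr')) hne
      rcases hc' with h | h
      · exact hl _ h (hmemL c hc)
      · exact hz (h ▸ hmemR c hc)
  have hch : ∀ j, ∃ b, b < t ∧ (j ∈ T → ¬ Bad m t H j → (j, 1 + 2 * b) ∉ H ∧ ∀ a : ℕ → ℕ, (∀ n ∈ T, a n < t) →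
      cutSum R y (j, 1 + 2 * b) (j, 1 + 2 * b) (cuts T a j) = 0) := by
    intro j
    by_cases h : j ∈ T ∧ ¬ Bad m t H j
    · obtain ⟨b, hb, hb'⟩ := hgood j h.1 h.2
      exact ⟨b, hb, fun _ _ => hb'⟩
    · exact ⟨0, by omega, fun h2 h3 => absurd ⟨h2, h3⟩ h⟩
  choose g hg hg' using hch
  have hgT : ∀ n ∈ T, g n < t := fun n _ => hg n
  have hex : ∃ j ∈ T, Bad m t H j := by
    by_contra hno
    push Not at hno
    have h2 := hΦ g hgT
    rw [Finset.sum_eq_zero (fun j hj => (hg' j hj (hno j hj)).2 g hgT)] at h2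
    exact absurd h2 (by decide)
  obtain ⟨j, hj, hbj⟩ := hex
  have huniq : ∀ n ∈ T, n ≠ j → ¬ Bad m t H n := by
    intro n hn hne hb
    rcases lt_or_gt_of_ne hne with h | h
    · exact bad_unique ht hcardH (h1 n hn) h hb hbj
    · exact bad_unique ht hcardH (h1 j hj) h hbj hb
  -- all the cuts at `z a` are `1`
  have hone : ∀ a < t, ∃ c : ℕ → ℕ, (∀ n ∈ T, c n < t) ∧ (∀ r ∈ cuts T c j, r ∉ H) ∧
      cutSum R y (j, 1 + 2 * a) (j, 1 + 2 * a) (cuts T c j) ≠ 0 := by
    intro a ha
    set c : ℕ → ℕ := Function.update g j a with hc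
    have hcT : ∀ n ∈ T, c n < t := by
      intro n _
      by_cases h : n = j
      · rw [hc, h, Function.update_self]; exact ha
      · rw [hc, Function.update_of_ne h]; exact hg n
    refine ⟨c, hcT, ?_, ?_⟩
    · intro r hr
      rw [cuts, Finset.mem_image] at hr
      obtain ⟨n, hn, rfl⟩ := hr
      obtain ⟨hne, hnT⟩ := Finset.mem_erase.1 hn
      have e : c n = g n := by rw [hc, Function.update_of_ne hne]
      rw [e]
      exact (hg' n hnT (huniq n hnT hne)).1
    have h2 := hΦ c hcT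
    rw [← Finset.add_sum_erase T _ hj] at h2
    have h3 : ∑ n ∈ T.erase j, cutSum R y (n, 1 + 2 * c n) (n, 1 + 2 * c n) (cuts T c n) = 0 := by
      apply Finset.sum_eq_zero
      intro n hn
      obtain ⟨hne, hnT⟩ := Finset.mem_erase.1 hn
      have e : c n = g n := by rw [hc, Function.update_of_ne hne]
      rw [e]
      exact (hg' n hnT (huniq n hnT hne)).2 c hcT
    rw [h3, add_zero] at h2
    have e : c j = a := by rw [hc, Function.update_self]
    rw [e] at h2
    rw [h2]
    decide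
  -- the codes
  let cp : ℕ × ℕ → ℕ := fun r => if r.1 = j then r.2 else 0
  let cq : ℕ × ℕ → ℕ := fun r => if r.1 = j then r.2 - 1 else 2 * t - 1
  have hcover : Finset.range (2 * t) ⊆
      (BB R y).image (fun b => cp b.1) ∪ (BB R y).image (fun b => cq b.2) := by
    intro k hk
    have hkt := Finset.mem_range.1 hk
    rw [Finset.mem_union, Finset.mem_image, Finset.mem_image]
    have hj1 := h1 j hj
    rcases Nat.even_or_odd' k with ⟨a, rfl | rfl⟩
    · obtain ⟨c, hcT, hcH, hc⟩ := hone a (by omega)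
      obtain ⟨b, hb, hb'⟩ := get_left hR hj1 (by omega)
        (hside c hcT j hj a (by omega) (fun r _ hr => hcH r hr)) hc
      rcases hb' with h | h
      · left
        refine ⟨b, hb, ?_⟩
        rw [sd, Finset.mem_insert, Finset.mem_singleton] at h
        by_cases h0 : a = 0
        · rw [sP, sQ, if_pos h0, if_pos h0] at h
          rcases h with h | h
          · show (if b.1.1 = j then b.1.2 else 0) = _
            rw [h, if_neg (by simp only; omega)]; omega
          · show (if b.1.1 = j then b.1.2 else 0) = _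
            rw [h, if_pos rfl]; simp only; omega
        · rw [sP, sQ, if_neg h0, if_neg (by omega), if_neg h0, if_neg (by omega), or_self] at h
          show (if b.1.1 = j then b.1.2 else 0) = _
          rw [h, if_pos rfl]
      · right
        refine ⟨b, hb, ?_⟩
        show (if b.2.1 = j then b.2.2 - 1 else 2 * t - 1) = _
        rw [h, if_pos rfl]; simp only; omega
    · obtain ⟨c, hcT, hcH, hc⟩ := hone a (by omega)
      obtain ⟨b, hb, hb'⟩ := get_right hR (hm j hj) (by omega)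
        (hside c hcT j hj (a + 1) (by omega) (fun r _ hr => hcH r hr)) hc
      rcases hb' with h | h
      · left
        refine ⟨b, hb, ?_⟩
        show (if b.1.1 = j then b.1.2 else 0) = _
        rw [h, if_pos rfl]; simp only; omega
      · right
        refine ⟨b, hb, ?_⟩
        show (if b.2.1 = j then b.2.2 - 1 else 2 * t - 1) = _
        rw [sd, Finset.mem_insert, Finset.mem_singleton] at h
        by_cases h0 : a + 1 = t
        · rw [sP, sQ, if_neg (by omega), if_pos h0, if_neg (by omega), if_pos h0] at h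
          rcases h with h | h
          · rw [h, if_neg (by simp only; omega)]; omega
          · rw [h, if_neg (by simp only; omega)]; omega
        · rw [sP, sQ, if_neg (by omega), if_neg h0, if_neg (by omega), if_neg h0, or_self] at h
          rw [h, if_pos rfl]; simp only; omega
  have hc1 := Finset.card_le_card hcover
  rw [Finset.card_range] at hc1
  have hc2 := Finset.card_union_le ((BB R y).image (fun b => cp b.1))
    ((BB R y).image (fun b => cq b.2))
  have hc3 : ((BB R y).image (fun b => cp b.1)).card ≤ (BB R y).card := Finset.card_image_le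
  have hc4 : ((BB R y).image (fun b => cq b.2)).card ≤ (BB R y).card := Finset.card_image_le
  omega

end Pool.Agent.CC.Core1
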