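import Pool.Agent.Lib_helper74.CCF.SSlots

/-! PHI: the three `K_{3,3}` lemmas of the window (block PHI of MP_198240).

Every vertex gets a label in `ℕ`; the support of every chain lies in a list of labels, so the
independence of two chains is the disjointness of two lists. -/

namespace Pool.Agent.CC

open Gph

/-! ### general part -/

section gen

variable {G : Gph}

/-- All edges of `c` have their ends labelled in `S`. -/
def PH_Sup (lab : G.V → ℕ) (c : G.E → ZMod 2) (S : List ℕ) : Prop :=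
  ∀ e, c e ≠ 0 → ∀ v, G.End v e → lab v ∈ S

theorem PH_ind {lab : G.V → ℕ} {c d : G.E → ZMod 2} {S T : List ℕ} (h1 : PH_Sup lab c S)
    (h2 : PH_Sup lab d T) (hd : ∀ x ∈ S, x ∉ T) : IndC c d := by
  intro e f he hf
  have key : ∀ v w, G.End v e → G.End w f → v ≠ w := by
    rintro v w hv hw rfl
    exact hd _ (h1 e he v hv) (h2 f hf v hw)
  exact ⟨key _ _ (Or.inl rfl) (Or.inl rfl), key _ _ (Or.inl rfl) (Or.inr rfl),
    key _ _ (Or.inr rfl) (Or.inl rfl), key _ _ (Or.inr rfl) (Or.inr rfl)⟩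

theorem PH_add_ne {c d : G.E → ZMod 2} {e : G.E} (h : (c + d) e ≠ 0) : c e ≠ 0 ∨ d e ≠ 0 := by
  by_contra h'
  push Not at h'
  apply h
  rw [Pi.add_apply, h'.1, h'.2, add_zero]

theorem PH_sup_add {lab : G.V → ℕ} {c d : G.E → ZMod 2} {S : List ℕ} (h1 : PH_Sup lab c S)
    (h2 : PH_Sup lab d S) : PH_Sup lab (c + d) S := by
  intro e he v hv
  rcases PH_add_ne he with h | h
  · exact h1 e h v hv
  · exact h2 e h v hv

theorem PH_sup_mono {lab : G.V → ℕ} {c : G.E → ZMod 2} {S T : List ℕ} (h1 : PH_Sup lab c S)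
    (h : ∀ x ∈ S, x ∈ T) : PH_Sup lab c T :=
  fun e he v hv => h _ (h1 e he v hv)

/-- All edges of the chain are free. -/
def PH_Free (P : G.PS) (c : G.E → ZMod 2) : Prop := ∀ e, c e ≠ 0 → Free P e

theorem PH_free_add {P : G.PS} {c d : G.E → ZMod 2} (h1 : PH_Free P c) (h2 : PH_Free P d) :
    PH_Free P (c + d) := by
  intro e he
  rcases PH_add_ne he with h | h
  · exact h1 e h
  · exact h2 e h

theorem PH_L0 {P : G.PS} {c d : G.E → ZMod 2} (hf : PH_Free P c) (hi : IndC c d) :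
    P.L c d = 0 := by
  unfold PS.L
  refine Finset.sum_eq_zero fun e _ => Finset.sum_eq_zero fun f _ => ?_
  by_cases h1 : c e = 0
  · simp [h1]
  by_cases h2 : d f = 0
  · simp [h2]
  rw [hf e h1 f (hi e f h1 h2), mul_zero]

theorem PH_L0' {P : G.PS} {c d : G.E → ZMod 2} (hf : PH_Free P d) (hi : IndC c d) :
    P.L c d = 0 := by
  rw [PS.L_symm P c d hi]
  refine PH_L0 hf (fun e f he hf => ?_)
  obtain ⟨h1, h2, h3, h4⟩ := hi f e hf he
  exact ⟨h1.symm, h3.symm, h2.symm, h4.symm⟩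

theorem PH_K33 (P : G.PS) {x0 x1 x2 y0 y1 y2 : G.V} (h01 : y0 ≠ y1) (h02 : y0 ≠ y2)
    (h12 : y1 ≠ y2) {c00 c01 c02 c10 c11 c12 c20 c21 c22 : G.E → ZMod 2}
    (b00 : G.bdl c00 = G.one x0 + G.one y0) (b01 : G.bdl c01 = G.one x0 + G.one y1)
    (b02 : G.bdl c02 = G.one x0 + G.one y2) (b10 : G.bdl c10 = G.one x1 + G.one y0)
    (b11 : G.bdl c11 = G.one x1 + G.one y1) (b12 : G.bdl c12 = G.one x1 + G.one y2)
    (b20 : G.bdl c20 = G.one x2 + G.one y0) (b21 : G.bdl c21 = G.one x2 + G.one y1)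
    (b22 : G.bdl c22 = G.one x2 + G.one y2) :
    P.L c00 c11 + P.L c00 c12 + P.L c01 c10 + P.L c01 c12 + P.L c02 c10 + P.L c02 c11 +
    P.L c00 c21 + P.L c00 c22 + P.L c01 c20 + P.L c01 c22 + P.L c02 c20 + P.L c02 c21 +
    P.L c10 c21 + P.L c10 c22 + P.L c11 c20 + P.L c11 c22 + P.L c12 c20 + P.L c12 c21 = 1 := by
  have h := P.K33_identity_L ![x0, x1, x2] ![y0, y1, y2]
    (by
      intro i j hij
      fin_cases i <;> fin_cases j <;> first | rfl | (exfalso; simp at hij; simp_all))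
    ![![c00, c01, c02], ![c10, c11, c12], ![c20, c21, c22]]
    (by
      intro i j
      fin_cases i <;> fin_cases j <;> assumption)
  rw [← h]
  simp only [Fin.sum_univ_three]
  simp (config := { decide := true }) only [if_true, if_false, zero_add, add_zero]
  simp only [Matrix.cons_val_zero, Matrix.cons_val_one, Matrix.cons_val_two, Matrix.head_cons,
    Matrix.tail_cons, Matrix.cons_val]
  ring

end gen

/-! ### named vertices and local chains -/

section loc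

variable (q : ℕ)

theorem PH_v1_ne_en (t : RT) : RT.v1 q t ≠ (t.loc q).en := by
  cases t with
  | T =>
    intro h
    have h1 : (1 : ℕ) = 0 := congrArg Fin.val h
    omega
  | G =>
    intro h
    have h1 : (1 : ℕ) = 0 := congrArg (fun x : Bool × Fin (2 * q + 2) => x.2.1) h
    omega
  | W =>
    intro h
    have h1 : (WV.x ⟨0, by omega⟩ : WV (q - 1)) = WV.w := congrArg Prod.snd h
    cases h1

theorem PH_w1_ne_ex (t : RT) : RT.w1 q t ≠ (t.loc q).ex := by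
  cases t with
  | T =>
    intro h
    have h1 : (2 * q + 2 : ℕ) = 2 * (q + 1) + 1 := congrArg Fin.val h
    omega
  | G =>
    intro h
    have h1 : (1 : ℕ) = 0 := congrArg (fun x : Bool × Fin (2 * q + 2) => x.2.1) h
    omega
  | W =>
    intro h
    have h1 : (WV.x ⟨0, by omega⟩ : WV (q - 1)) = WV.w := congrArg Prod.snd h
    cases h1

theorem PH_ex_ne_v1 (t : RT) : (t.loc q).ex ≠ RT.v1 q t := by
  cases t with
  | T =>
    intro h
    have h1 : (2 * (q + 1) + 1 : ℕ) = 1 := congrArg Fin.val h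
    omega
  | G =>
    intro h
    have h1 : true = false := congrArg Prod.fst h
    cases h1
  | W =>
    intro h
    have h1 : true = false := congrArg Prod.fst h
    cases h1

variable {M : Type*} [AddCommGroup M]

/-- `T`: leg `0`. -/
def PH_leg0 : (t : RT) → Finset (t.loc q).E
  | .T => RT.legT q 0
  | .G => (∅ : Finset (Bool × (Fin (2 * q + 3) ⊕ Fin (2 * q + 1))))
  | .W => (∅ : Finset (Bool × WE (q - 1)))

/-- `T`: the last leg. -/
def PH_legl : (t : RT) → Finset (t.loc q).E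
  | .T => RT.legT q (2 * (q + 1) + 1)
  | .G => (∅ : Finset (Bool × (Fin (2 * q + 3) ⊕ Fin (2 * q + 1))))
  | .W => (∅ : Finset (Bool × WE (q - 1)))

/-- `T`: the rows `≥ 1`. -/
def PH_high : (t : RT) → Finset (t.loc q).E
  | .T => RT.highT q 1
  | .G => (∅ : Finset (Bool × (Fin (2 * q + 3) ⊕ Fin (2 * q + 1))))
  | .W => (∅ : Finset (Bool × WE (q - 1)))

theorem PH_ls_leg0 (t : RT) (ht : t = .T) (f : (t.loc q).V ⊕ Bool → M) :
    SS93_ls (t.loc q) f (PH_leg0 q t) = f (.inl (t.loc q).en) + f (.inr true) := by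
  subst ht
  refine (SS93_legT q f 0 (by omega)).trans ?_
  rw [SS93_gT_eq q f 0 (by omega)]
  rfl

theorem PH_ls_legl (t : RT) (ht : t = .T) (f : (t.loc q).V ⊕ Bool → M) :
    SS93_ls (t.loc q) f (PH_legl q t) = f (.inl (t.loc q).ex) + f (.inr false) := by
  subst ht
  refine (SS93_legT q f (2 * (q + 1) + 1) (by omega)).trans ?_
  rw [SS93_gT_eq q f (2 * (q + 1) + 1) (by omega),
    decide_eq_false (by omega : ¬ (2 * (q + 1) + 1) % 2 = 0)]
  rfl

theorem PH_ls_high (h2 : ∀ x : M, x + x = 0) (t : RT) (ht : t = .T)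
    (f : (t.loc q).V ⊕ Bool → M) :
    SS93_ls (t.loc q) f (PH_high q t) = f (.inl (RT.v1 q t)) + f (.inl (t.loc q).ex) := by
  subst ht
  refine (SS93_highT q h2 f 1 (by omega)).trans ?_
  rw [SS93_gT_eq q f 1 (by omega), SS93_gT_eq q f (2 * (q + 1) + 1) (by omega)]
  rfl

theorem PH_ls_eL (t : RT) (f : (t.loc q).V ⊕ Bool → M) :
    SS93_ls (t.loc q) f {RT.eL q t} = f (.inl (t.loc q).en) + f (.inl (RT.v1 q t)) := by
  cases t with
  | T => exact Finset.sum_singleton _ _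
  | G => exact Finset.sum_singleton _ _
  | W => exact Finset.sum_singleton _ _

theorem PH_ls_eR (t : RT) (f : (t.loc q).V ⊕ Bool → M) :
    SS93_ls (t.loc q) f {RT.eR q t} = f (.inl (t.loc q).ex) + f (.inl (RT.w1 q t)) := by
  cases t with
  | T =>
    refine (Finset.sum_singleton _ _).trans (add_comm _ _)
  | G => exact Finset.sum_singleton _ _
  | W => exact Finset.sum_singleton _ _

theorem PH_ls_lam1 (t : RT) (f : (t.loc q).V ⊕ Bool → M) :
    SS93_ls (t.loc q) f {RT.lam1 q t} = f (.inl (RT.v1 q t)) + f (.inr false) := by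
  cases t with
  | T => exact Finset.sum_singleton _ _
  | G =>
    refine (Finset.sum_singleton _ _).trans ?_
    have h1 : (⟨min 1 (2 * q + 1), by omega⟩ : Fin (2 * q + 2)) = ⟨1, by omega⟩ :=
      Fin.ext (by simp)
    change f (.inl (false, (⟨min 1 (2 * q + 1), by omega⟩ : Fin (2 * q + 2)))) + _ = _
    rw [h1]
    rfl
  | W =>
    refine (Finset.sum_singleton _ _).trans ?_
    have h1 : (⟨min 0 (2 * (q - 1) + 1), by omega⟩ : Fin (2 * (q - 1) + 2)) = ⟨0, by omega⟩ :=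
      Fin.ext (by simp)
    change f (.inl (false, WV.x (⟨min 0 (2 * (q - 1) + 1), by omega⟩ :
      Fin (2 * (q - 1) + 2)))) + _ = _
    rw [h1]
    rfl

theorem PH_ls_rho1 (t : RT) (f : (t.loc q).V ⊕ Bool → M) :
    SS93_ls (t.loc q) f {RT.rho1 q t} = f (.inl (RT.w1 q t)) + f (.inr true) := by
  cases t with
  | T =>
    refine (Finset.sum_singleton _ _).trans ?_
    have h1 : decide ((2 * q + 2) % 2 = 0) = true := decide_eq_true (by omega)
    change _ + f (.inr (decide ((2 * q + 2) % 2 = 0))) = _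
    rw [h1]
    rfl
  | G =>
    refine (Finset.sum_singleton _ _).trans ?_
    have h1 : (⟨min 1 (2 * q + 1), by omega⟩ : Fin (2 * q + 2)) = ⟨1, by omega⟩ :=
      Fin.ext (by simp)
    change f (.inl (true, (⟨min 1 (2 * q + 1), by omega⟩ : Fin (2 * q + 2)))) + _ = _
    rw [h1]
    rfl
  | W =>
    refine (Finset.sum_singleton _ _).trans ?_
    have h1 : (⟨min 0 (2 * (q - 1) + 1), by omega⟩ : Fin (2 * (q - 1) + 2)) = ⟨0, by omega⟩ :=
      Fin.ext (by simp)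
    change f (.inl (true, WV.x (⟨min 0 (2 * (q - 1) + 1), by omega⟩ :
      Fin (2 * (q - 1) + 2)))) + _ = _
    rw [h1]
    rfl

/-- ends of the edges of a set of local edges -/
def PH_ends (L : Loc) (s : Finset L.E) (Q : L.V ⊕ Bool → Prop) : Prop :=
  ∀ x ∈ s, Q (L.a x) ∧ Q (L.b x)

theorem PH_ends_leg0 (t : RT) (Q : (t.loc q).V ⊕ Bool → Prop) (h1 : Q (.inl (t.loc q).en))
    (h2 : Q (.inr true)) : PH_ends (t.loc q) (PH_leg0 q t) Q := by
  intro x hx
  cases t with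
  | T =>
    obtain ⟨i, hi, rfl⟩ := Finset.mem_map.1 (show x ∈ (Finset.univ.filter
      (fun i : Fin (2 * (q + 1) + 2) => i.1 = 0)).map ⟨Sum.inl, Sum.inl_injective⟩ from hx)
    replace hi := (Finset.mem_filter.1 hi).2
    obtain ⟨i, hi'⟩ := i
    change i = 0 at hi
    subst hi
    exact ⟨h1, h2⟩
  | G => exact absurd hx (Finset.notMem_empty _)
  | W => exact absurd hx (Finset.notMem_empty _)

theorem PH_ends_legl (t : RT) (Q : (t.loc q).V ⊕ Bool → Prop) (h1 : Q (.inl (t.loc q).ex))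
    (h2 : Q (.inr false)) : PH_ends (t.loc q) (PH_legl q t) Q := by
  intro x hx
  cases t with
  | T =>
    obtain ⟨i, hi, rfl⟩ := Finset.mem_map.1 (show x ∈ (Finset.univ.filter
      (fun i : Fin (2 * (q + 1) + 2) => i.1 = 2 * (q + 1) + 1)).map ⟨Sum.inl, Sum.inl_injective⟩ from hx)
    replace hi := (Finset.mem_filter.1 hi).2
    obtain ⟨i, hi'⟩ := i
    change i = 2 * (q + 1) + 1 at hi
    subst hi
    refine ⟨h1, ?_⟩
    change Q (.inr (decide ((2 * (q + 1) + 1) % 2 = 0)))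
    rw [decide_eq_false (by omega : ¬ (2 * (q + 1) + 1) % 2 = 0)]
    exact h2
  | G => exact absurd hx (Finset.notMem_empty _)
  | W => exact absurd hx (Finset.notMem_empty _)

theorem PH_ends_high (t : RT) (Q : (t.loc q).V ⊕ Bool → Prop)
    (h1 : ∀ u, u ≠ (t.loc q).en → Q (.inl u)) : PH_ends (t.loc q) (PH_high q t) Q := by
  intro x hx
  cases t with
  | T =>
    obtain ⟨i, hi, rfl⟩ := Finset.mem_map.1 (show x ∈ (Finset.univ.filter
      (fun i : Fin (2 * (q + 1) + 1) => 1 ≤ i.1)).map ⟨Sum.inr, Sum.inr_injective⟩ from hx)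
    replace hi := (Finset.mem_filter.1 hi).2
    refine ⟨h1 _ (fun h => ?_), h1 _ (fun h => ?_)⟩
    · have h1 : i.1 = 0 := congrArg Fin.val h
      omega
    · have h1 : i.1 + 1 = 0 := congrArg Fin.val h
      omega
  | G => exact absurd hx (Finset.notMem_empty _)
  | W => exact absurd hx (Finset.notMem_empty _)

theorem PH_ends_eL (t : RT) (Q : (t.loc q).V ⊕ Bool → Prop) (h1 : Q (.inl (t.loc q).en))
    (h2 : Q (.inl (RT.v1 q t))) : PH_ends (t.loc q) {RT.eL q t} Q := by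
  intro x hx
  rw [Finset.mem_singleton] at hx
  subst hx
  cases t with
  | T => exact ⟨h1, h2⟩
  | G => exact ⟨h1, h2⟩
  | W => exact ⟨h1, h2⟩

theorem PH_ends_eR (t : RT) (Q : (t.loc q).V ⊕ Bool → Prop) (h1 : Q (.inl (t.loc q).ex))
    (h2 : Q (.inl (RT.w1 q t))) : PH_ends (t.loc q) {RT.eR q t} Q := by
  intro x hx
  rw [Finset.mem_singleton] at hx
  subst hx
  cases t with
  | T => exact ⟨h2, h1⟩
  | G => exact ⟨h1, h2⟩
  | W => exact ⟨h1, h2⟩

theorem PH_ends_lam1 (t : RT) (Q : (t.loc q).V ⊕ Bool → Prop) (h1 : Q (.inl (RT.v1 q t)))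
    (h2 : Q (.inr false)) : PH_ends (t.loc q) {RT.lam1 q t} Q := by
  intro x hx
  rw [Finset.mem_singleton] at hx
  subst hx
  cases t with
  | T => exact ⟨h1, h2⟩
  | G =>
    refine ⟨?_, h2⟩
    have h3 : (⟨min 1 (2 * q + 1), by omega⟩ : Fin (2 * q + 2)) = ⟨1, by omega⟩ :=
      Fin.ext (by simp)
    change Q (.inl (false, (⟨min 1 (2 * q + 1), by omega⟩ : Fin (2 * q + 2))))
    rw [h3]
    exact h1
  | W =>
    refine ⟨?_, h2⟩
    have h3 : (⟨min 0 (2 * (q - 1) + 1), by omega⟩ : Fin (2 * (q - 1) + 2)) = ⟨0, by omega⟩ :=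
      Fin.ext (by simp)
    change Q (.inl (false, WV.x (⟨min 0 (2 * (q - 1) + 1), by omega⟩ :
      Fin (2 * (q - 1) + 2))))
    rw [h3]
    exact h1

theorem PH_ends_rho1 (t : RT) (Q : (t.loc q).V ⊕ Bool → Prop) (h1 : Q (.inl (RT.w1 q t)))
    (h2 : Q (.inr true)) : PH_ends (t.loc q) {RT.rho1 q t} Q := by
  intro x hx
  rw [Finset.mem_singleton] at hx
  subst hx
  cases t with
  | T =>
    refine ⟨h1, ?_⟩
    change Q (.inr (decide ((2 * q + 2) % 2 = 0)))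
    rw [decide_eq_true (by omega : (2 * q + 2) % 2 = 0)]
    exact h2
  | G =>
    refine ⟨?_, h2⟩
    have h3 : (⟨min 1 (2 * q + 1), by omega⟩ : Fin (2 * q + 2)) = ⟨1, by omega⟩ :=
      Fin.ext (by simp)
    change Q (.inl (true, (⟨min 1 (2 * q + 1), by omega⟩ : Fin (2 * q + 2))))
    rw [h3]
    exact h1
  | W =>
    refine ⟨?_, h2⟩
    have h3 : (⟨min 0 (2 * (q - 1) + 1), by omega⟩ : Fin (2 * (q - 1) + 2)) = ⟨0, by omega⟩ :=
      Fin.ext (by simp)
    change Q (.inl (true, WV.x (⟨min 0 (2 * (q - 1) + 1), by omega⟩ :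
      Fin (2 * (q - 1) + 2))))
    rw [h3]
    exact h1

end loc

/-! ### labels -/

/-- labels of the hubs -/
def PH_hl : ℕ → ℕ
  | 0 => 13 | 1 => 3 | 2 => 12 | 3 => 10 | 4 => 12 | 5 => 9 | 6 => 11 | 7 => 9 | 8 => 4 | 9 => 14
  | _ => 0

open Classical in
/-- labels of the local vertices -/
noncomputable def PH_ll (i : ℕ) (lp en v1 ex w1 : Prop) : ℕ :=
  match i with
  | 0 => if en then 6 else if v1 then 8 else 0
  | 1 => if lp then 10 else 12
  | 2 => if lp then 12 else 10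
  | 3 => if lp then 10 else 12
  | 4 => if en then 5 else if v1 then 2 else 10
  | 5 => if lp then 9 else 11
  | 6 => if lp then 11 else 9
  | 7 => if lp then 9 else 11
  | 8 => if ex then 1 else if w1 then 7 else 0
  | _ => 0

/-- label of the left part -/
def PH_pl : ℕ → ℕ
  | 1 => 10 | 2 => 12 | 3 => 10 | 5 => 9 | 6 => 11 | 7 => 9 | _ => 0

/-- label of the right part -/
def PH_pr : ℕ → ℕ
  | 1 => 12 | 2 => 10 | 3 => 12 | 5 => 11 | 6 => 9 | 7 => 11 | _ => 0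

section strip

variable {N : ℕ} [NeZero N] {q : ℕ} {c : Bool} {τ : ZMod N → RT}

/-- entry, exit and the vertices `v1`, `w1` as vertices of the strip -/
def PH_EN (q : ℕ) (c : Bool) (τ : ZMod N → RT) (j : ZMod N) : (tstrip q c τ).V :=
  lv q c τ j ((τ j).loc q).en
def PH_EX (q : ℕ) (c : Bool) (τ : ZMod N → RT) (j : ZMod N) : (tstrip q c τ).V :=
  lv q c τ j ((τ j).loc q).ex
def PH_V1 (q : ℕ) (c : Bool) (τ : ZMod N → RT) (j : ZMod N) : (tstrip q c τ).V :=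
  lv q c τ j (RT.v1 q (τ j))
def PH_W1 (q : ℕ) (c : Bool) (τ : ZMod N → RT) (j : ZMod N) : (tstrip q c τ).V :=
  lv q c τ j (RT.w1 q (τ j))

/-- The labels. -/
noncomputable def PH_lab (D : Thru q c τ) (v : (tstrip q c τ).V) : ℕ :=
  match v with
  | .inl j => PH_hl (-j).val
  | .inr ⟨j, u⟩ => PH_ll (-j).val (SS93_LP D j (lv q c τ j u)) (u = ((τ j).loc q).en)
      (u = RT.v1 q (τ j)) (u = ((τ j).loc q).ex) (u = RT.w1 q (τ j))

theorem PH_lab_hub (D : Thru q c τ) (j : ZMod N) : PH_lab D (hub q c τ j) = PH_hl (-j).val := rfl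

theorem PH_lab_lv (D : Thru q c τ) (j : ZMod N) (u : ((τ j).loc q).V) :
    PH_lab D (lv q c τ j u) = PH_ll (-j).val (SS93_LP D j (lv q c τ j u))
      (u = ((τ j).loc q).en) (u = RT.v1 q (τ j)) (u = ((τ j).loc q).ex)
      (u = RT.w1 q (τ j)) := rfl

theorem PH_LP_lab (D : Thru q c τ) {j : ZMod N} {i : ℕ} (hi : (-j).val = i)
    (hi' : i = 1 ∨ i = 2 ∨ i = 3 ∨ i = 5 ∨ i = 6 ∨ i = 7) {v : (tstrip q c τ).V}
    (h : SS93_LP D j v) : PH_lab D v = PH_pl i := by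
  obtain ⟨⟨u, rfl⟩, -⟩ := id h
  rw [PH_lab_lv, hi]
  rcases hi' with rfl | rfl | rfl | rfl | rfl | rfl <;> exact if_pos h

theorem PH_RP_lab (D : Thru q c τ) {j : ZMod N} {i : ℕ} (hi : (-j).val = i)
    (hi' : i = 1 ∨ i = 2 ∨ i = 3 ∨ i = 5 ∨ i = 6 ∨ i = 7) {v : (tstrip q c τ).V}
    (h : SS93_RP D j v) : PH_lab D v = PH_pr i := by
  obtain ⟨⟨u, rfl⟩, -⟩ := id h
  rw [PH_lab_lv, hi]
  rcases hi' with rfl | rfl | rfl | rfl | rfl | rfl <;>
    exact if_neg (fun h' => SS93_RL D h h')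

theorem PH_EN_LP (D : Thru q c τ) (j : ZMod N) : SS93_LP D j (PH_EN q c τ j) :=
  ⟨⟨_, rfl⟩, Or.inl rfl⟩

theorem PH_EX_RP (D : Thru q c τ) (j : ZMod N) : SS93_RP D j (PH_EX q c τ j) :=
  ⟨⟨_, rfl⟩, Or.inl rfl⟩

/-! ### supports -/

theorem PH_sup_emb (D : Thru q c τ) (j : ZMod N) (s : Finset ((τ j).loc q).E) (S : List ℕ)
    (h : PH_ends ((τ j).loc q) s (fun w => PH_lab D (SS93_ve q c τ j w) ∈ S)) :
    PH_Sup (PH_lab D) (emb q c τ j s) S := by
  intro e he v hv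
  obtain ⟨x, hx, rfl⟩ := SS93_emb_ne q c τ he
  obtain ⟨h1, h2⟩ := h x hx
  rcases SS93_End_le q c τ hv with h | h
  · rw [← h]; exact h1
  · rw [← h]; exact h2

theorem PH_sup_E (D : Thru q c τ) (j : ZMod N) (S : List ℕ)
    (h1 : ∀ v, SS93_LP D j v → PH_lab D v ∈ S) (h2 : PH_lab D (hub q c τ j) ∈ S) :
    PH_Sup (PH_lab D) (emb q c τ j (D.e j)) S := by
  intro e he v hv
  obtain ⟨x, hx, rfl⟩ := SS93_emb_ne q c τ he
  have hv' : ∃ w, v = SS93_ve q c τ j w := by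
    rcases SS93_End_le q c τ hv with h | h
    · exact ⟨_, h.symm⟩
    · exact ⟨_, h.symm⟩
  obtain ⟨w, hw⟩ := hv'
  rcases w with u | _ | _
  · exact h1 v ⟨⟨u, hw⟩, Or.inr ⟨_, he, hv⟩⟩
  · subst hw
    exact absurd hv (D.he' j _ he)
  · subst hw
    exact h2

theorem PH_sup_S (D : Thru q c τ) (j : ZMod N) (S : List ℕ)
    (h1 : ∀ v, SS93_RP D j v → PH_lab D v ∈ S) (h2 : PH_lab D (hub q c τ (j - 1)) ∈ S) :
    PH_Sup (PH_lab D) (emb q c τ j (D.s j)) S := by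
  intro e he v hv
  obtain ⟨x, hx, rfl⟩ := SS93_emb_ne q c τ he
  have hv' : ∃ w, v = SS93_ve q c τ j w := by
    rcases SS93_End_le q c τ hv with h | h
    · exact ⟨_, h.symm⟩
    · exact ⟨_, h.symm⟩
  obtain ⟨w, hw⟩ := hv'
  rcases w with u | _ | _
  · exact h1 v ⟨⟨u, hw⟩, Or.inr ⟨_, he, hv⟩⟩
  · subst hw
    exact h2
  · subst hw
    exact absurd hv (D.hs' j _ he)

theorem PH_chi_ne {G : Gph} {e f : G.E} (h : G.chi {e} f ≠ 0) : f = e := by
  unfold Gph.chi at h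
  by_contra hne
  exact h (if_neg (by rwa [Finset.mem_singleton]))

theorem PH_sup_row (D : Thru q c τ) (j : ZMod N) (S : List ℕ)
    (h1 : PH_lab D (PH_EX q c τ j) ∈ S) (h2 : PH_lab D (PH_EN q c τ (j + 1)) ∈ S) :
    PH_Sup (PH_lab D) ((tstrip q c τ).chi {rowE q c τ j}) S := by
  intro e he v hv
  have := PH_chi_ne he
  subst this
  rcases hv with h | h
  · rw [← h]; exact h1
  · rw [← h]; exact h2

/-! ### boundaries -/

theorem PH_bdl_row (j : ZMod N) : (tstrip q c τ).bdl ((tstrip q c τ).chi {rowE q c τ j}) =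
    (tstrip q c τ).one (PH_EX q c τ j) + (tstrip q c τ).one (PH_EN q c τ (j + 1)) := by
  rw [bdl_chi]
  funext v
  exact Finset.sum_singleton _ _

theorem PH_bdl_emb (j : ZMod N) (s : Finset ((τ j).loc q).E) :
    (tstrip q c τ).bdl (emb q c τ j s) =
      SS93_ls ((τ j).loc q) (fun x => (tstrip q c τ).one (SS93_ve q c τ j x)) s :=
  SS93_ls_eq q c τ j s

theorem PH_bdl_leg0 (j : ZMod N) (h : τ j = .T) :
    (tstrip q c τ).bdl (emb q c τ j (PH_leg0 q (τ j))) =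
      (tstrip q c τ).one (PH_EN q c τ j) + (tstrip q c τ).one (hub q c τ j) := by
  rw [PH_bdl_emb, PH_ls_leg0 q _ h]; rfl

theorem PH_bdl_legl (j : ZMod N) (h : τ j = .T) :
    (tstrip q c τ).bdl (emb q c τ j (PH_legl q (τ j))) =
      (tstrip q c τ).one (PH_EX q c τ j) + (tstrip q c τ).one (hub q c τ (j - 1)) := by
  rw [PH_bdl_emb, PH_ls_legl q _ h]; rfl

theorem PH_bdl_high (j : ZMod N) (h : τ j = .T) :
    (tstrip q c τ).bdl (emb q c τ j (PH_high q (τ j))) =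
      (tstrip q c τ).one (PH_V1 q c τ j) + (tstrip q c τ).one (PH_EX q c τ j) := by
  rw [PH_bdl_emb, PH_ls_high q SS93_two _ h]; rfl

theorem PH_bdl_eL (j : ZMod N) : (tstrip q c τ).bdl (emb q c τ j {RT.eL q (τ j)}) =
    (tstrip q c τ).one (PH_EN q c τ j) + (tstrip q c τ).one (PH_V1 q c τ j) := by
  rw [PH_bdl_emb, PH_ls_eL q _]; rfl

theorem PH_bdl_eR (j : ZMod N) : (tstrip q c τ).bdl (emb q c τ j {RT.eR q (τ j)}) =
    (tstrip q c τ).one (PH_EX q c τ j) + (tstrip q c τ).one (PH_W1 q c τ j) := by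
  rw [PH_bdl_emb, PH_ls_eR q _]; rfl

theorem PH_bdl_lam1 (j : ZMod N) : (tstrip q c τ).bdl (emb q c τ j {RT.lam1 q (τ j)}) =
    (tstrip q c τ).one (PH_V1 q c τ j) + (tstrip q c τ).one (hub q c τ (j - 1)) := by
  rw [PH_bdl_emb, PH_ls_lam1 q _]; rfl

theorem PH_bdl_rho1 (j : ZMod N) : (tstrip q c τ).bdl (emb q c τ j {RT.rho1 q (τ j)}) =
    (tstrip q c τ).one (PH_W1 q c τ j) + (tstrip q c τ).one (hub q c τ j) := by
  rw [PH_bdl_emb, PH_ls_rho1 q _]; rfl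

theorem PH_bdl_E (D : Thru q c τ) (j : ZMod N) : (tstrip q c τ).bdl (emb q c τ j (D.e j)) =
    (tstrip q c τ).one (PH_EN q c τ j) + (tstrip q c τ).one (hub q c τ j) := D.he j

theorem PH_bdl_S (D : Thru q c τ) (j : ZMod N) : (tstrip q c τ).bdl (emb q c τ j (D.s j)) =
    (tstrip q c τ).one (hub q c τ (j - 1)) + (tstrip q c τ).one (PH_EX q c τ j) := D.hs j

/-! ### free -/

theorem PH_free_emb {P : (tstrip q c τ).PS} (W : Window q c τ P) (i : ℕ) (hi : i ≤ 9)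
    (j : ZMod N) (hj : j = -(i : ZMod N)) (s : Finset ((τ j).loc q).E) :
    PH_Free P (emb q c τ j s) := by
  intro e he
  obtain ⟨x, hx, rfl⟩ := SS93_emb_ne q c τ he
  exact W.free _ ⟨i, hi, hj⟩

theorem PH_free_row {P : (tstrip q c τ).PS} (W : Window q c τ P) (i : ℕ) (hi : i ≤ 9)
    (j : ZMod N) (hj : j = -(i : ZMod N)) :
    PH_Free P ((tstrip q c τ).chi {rowE q c τ j}) := by
  intro e he
  have := PH_chi_ne he
  subst this
  exact W.free _ ⟨i, hi, hj⟩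

end strip

/-! ### the window -/

section win

variable {N : ℕ} [NeZero N] {q : ℕ} {c : Bool} {τ : ZMod N → RT}

omit [NeZero N] in
theorem PH_vk (k : ℕ) (hk : k < N) : (-(-(k : ZMod N))).val = k := by
  rw [neg_neg, ZMod.val_natCast_of_lt hk]

omit [NeZero N] in
theorem PH_v0 : (-(0 : ZMod N)).val = 0 := by simp

omit [NeZero N] in
theorem PH_v1 (hN : 16 ≤ N) : (-(-1 : ZMod N)).val = 1 := by
  simpa using PH_vk (N := N) 1 (by omega)

omit [NeZero N] in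
theorem PH_v2 (hN : 16 ≤ N) : (-(-2 : ZMod N)).val = 2 := by
  simpa using PH_vk (N := N) 2 (by omega)

omit [NeZero N] in
theorem PH_v3 (hN : 16 ≤ N) : (-(-3 : ZMod N)).val = 3 := by
  simpa using PH_vk (N := N) 3 (by omega)

omit [NeZero N] in
theorem PH_v4 (hN : 16 ≤ N) : (-(-4 : ZMod N)).val = 4 := by
  simpa using PH_vk (N := N) 4 (by omega)

omit [NeZero N] in
theorem PH_v5 (hN : 16 ≤ N) : (-(-5 : ZMod N)).val = 5 := by
  simpa using PH_vk (N := N) 5 (by omega)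

omit [NeZero N] in
theorem PH_v6 (hN : 16 ≤ N) : (-(-6 : ZMod N)).val = 6 := by
  simpa using PH_vk (N := N) 6 (by omega)

omit [NeZero N] in
theorem PH_v7 (hN : 16 ≤ N) : (-(-7 : ZMod N)).val = 7 := by
  simpa using PH_vk (N := N) 7 (by omega)

omit [NeZero N] in
theorem PH_v8 (hN : 16 ≤ N) : (-(-8 : ZMod N)).val = 8 := by
  simpa using PH_vk (N := N) 8 (by omega)

omit [NeZero N] in
theorem PH_v9 (hN : 16 ≤ N) : (-(-9 : ZMod N)).val = 9 := by
  simpa using PH_vk (N := N) 9 (by omega)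

theorem PH_L1 (hN : 16 ≤ N) (D : Thru q c τ) {v : (tstrip q c τ).V} (h : SS93_LP D (-1) v) :
    PH_lab D v = 10 := PH_LP_lab D (PH_v1 hN) (by simp) h

theorem PH_R1 (hN : 16 ≤ N) (D : Thru q c τ) {v : (tstrip q c τ).V} (h : SS93_RP D (-1) v) :
    PH_lab D v = 12 := PH_RP_lab D (PH_v1 hN) (by simp) h

theorem PH_L2 (hN : 16 ≤ N) (D : Thru q c τ) {v : (tstrip q c τ).V} (h : SS93_LP D (-2) v) :
    PH_lab D v = 12 := PH_LP_lab D (PH_v2 hN) (by simp) h

theorem PH_R2 (hN : 16 ≤ N) (D : Thru q c τ) {v : (tstrip q c τ).V} (h : SS93_RP D (-2) v) :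
    PH_lab D v = 10 := PH_RP_lab D (PH_v2 hN) (by simp) h

theorem PH_L3 (hN : 16 ≤ N) (D : Thru q c τ) {v : (tstrip q c τ).V} (h : SS93_LP D (-3) v) :
    PH_lab D v = 10 := PH_LP_lab D (PH_v3 hN) (by simp) h

theorem PH_R3 (hN : 16 ≤ N) (D : Thru q c τ) {v : (tstrip q c τ).V} (h : SS93_RP D (-3) v) :
    PH_lab D v = 12 := PH_RP_lab D (PH_v3 hN) (by simp) h

theorem PH_L5 (hN : 16 ≤ N) (D : Thru q c τ) {v : (tstrip q c τ).V} (h : SS93_LP D (-5) v) :
    PH_lab D v = 9 := PH_LP_lab D (PH_v5 hN) (by simp) h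

theorem PH_R5 (hN : 16 ≤ N) (D : Thru q c τ) {v : (tstrip q c τ).V} (h : SS93_RP D (-5) v) :
    PH_lab D v = 11 := PH_RP_lab D (PH_v5 hN) (by simp) h

theorem PH_L6 (hN : 16 ≤ N) (D : Thru q c τ) {v : (tstrip q c τ).V} (h : SS93_LP D (-6) v) :
    PH_lab D v = 11 := PH_LP_lab D (PH_v6 hN) (by simp) h

theorem PH_R6 (hN : 16 ≤ N) (D : Thru q c τ) {v : (tstrip q c τ).V} (h : SS93_RP D (-6) v) :
    PH_lab D v = 9 := PH_RP_lab D (PH_v6 hN) (by simp) h

theorem PH_L7 (hN : 16 ≤ N) (D : Thru q c τ) {v : (tstrip q c τ).V} (h : SS93_LP D (-7) v) :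
    PH_lab D v = 9 := PH_LP_lab D (PH_v7 hN) (by simp) h

theorem PH_R7 (hN : 16 ≤ N) (D : Thru q c τ) {v : (tstrip q c τ).V} (h : SS93_RP D (-7) v) :
    PH_lab D v = 11 := PH_RP_lab D (PH_v7 hN) (by simp) h

theorem PH_H1 (hN : 16 ≤ N) (D : Thru q c τ) : PH_lab D (hub q c τ (-1)) = 3 := by
  rw [PH_lab_hub, PH_v1 hN]; rfl

theorem PH_H2 (hN : 16 ≤ N) (D : Thru q c τ) : PH_lab D (hub q c τ (-2)) = 12 := by
  rw [PH_lab_hub, PH_v2 hN]; rfl

theorem PH_H3 (hN : 16 ≤ N) (D : Thru q c τ) : PH_lab D (hub q c τ (-3)) = 10 := by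
  rw [PH_lab_hub, PH_v3 hN]; rfl

theorem PH_H4 (hN : 16 ≤ N) (D : Thru q c τ) : PH_lab D (hub q c τ (-4)) = 12 := by
  rw [PH_lab_hub, PH_v4 hN]; rfl

theorem PH_H5 (hN : 16 ≤ N) (D : Thru q c τ) : PH_lab D (hub q c τ (-5)) = 9 := by
  rw [PH_lab_hub, PH_v5 hN]; rfl

theorem PH_H6 (hN : 16 ≤ N) (D : Thru q c τ) : PH_lab D (hub q c τ (-6)) = 11 := by
  rw [PH_lab_hub, PH_v6 hN]; rfl

theorem PH_H7 (hN : 16 ≤ N) (D : Thru q c τ) : PH_lab D (hub q c τ (-7)) = 9 := by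
  rw [PH_lab_hub, PH_v7 hN]; rfl

theorem PH_H8 (hN : 16 ≤ N) (D : Thru q c τ) : PH_lab D (hub q c τ (-8)) = 4 := by
  rw [PH_lab_hub, PH_v8 hN]; rfl

theorem PH_H9 (hN : 16 ≤ N) (D : Thru q c τ) : PH_lab D (hub q c τ (-9)) = 14 := by
  rw [PH_lab_hub, PH_v9 hN]; rfl

theorem PH_H0 (D : Thru q c τ) : PH_lab D (hub q c τ 0) = 13 := by
  rw [PH_lab_hub, PH_v0]; rfl

theorem PH_EN0 (D : Thru q c τ) : PH_lab D (PH_EN q c τ 0) = 6 := by
  unfold PH_EN
  rw [PH_lab_lv, PH_v0]; exact if_pos rfl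

theorem PH_V10 (D : Thru q c τ) : PH_lab D (PH_V1 q c τ 0) = 8 := by
  unfold PH_V1
  rw [PH_lab_lv, PH_v0]; exact (if_neg (PH_v1_ne_en q _)).trans (if_pos rfl)

theorem PH_EN4 (hN : 16 ≤ N) (D : Thru q c τ) : PH_lab D (PH_EN q c τ (-4)) = 5 := by
  unfold PH_EN
  rw [PH_lab_lv, PH_v4 hN]; exact if_pos rfl

theorem PH_V14 (hN : 16 ≤ N) (D : Thru q c τ) : PH_lab D (PH_V1 q c τ (-4)) = 2 := by
  unfold PH_V1
  rw [PH_lab_lv, PH_v4 hN]; exact (if_neg (PH_v1_ne_en q _)).trans (if_pos rfl)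

theorem PH_EX4 (hN : 16 ≤ N) (D : Thru q c τ) : PH_lab D (PH_EX q c τ (-4)) = 10 := by
  unfold PH_EX
  rw [PH_lab_lv, PH_v4 hN]
  exact (if_neg (SS93_en_ne_ex q _).symm).trans (if_neg (PH_ex_ne_v1 q _))

theorem PH_NE4 (hN : 16 ≤ N) (D : Thru q c τ) (u : ((τ (-4)).loc q).V)
    (h : u ≠ ((τ (-4)).loc q).en) : PH_lab D (lv q c τ (-4) u) ∈ [2, 10] := by
  rw [PH_lab_lv, PH_v4 hN]
  by_cases h' : u = RT.v1 q (τ (-4))
  · have : PH_ll 4 (SS93_LP D (-4) (lv q c τ (-4) u)) (u = ((τ (-4)).loc q).en)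
      (u = RT.v1 q (τ (-4))) (u = ((τ (-4)).loc q).ex) (u = RT.w1 q (τ (-4))) = 2 :=
      (if_neg h).trans (if_pos h')
    rw [this]; decide
  · have : PH_ll 4 (SS93_LP D (-4) (lv q c τ (-4) u)) (u = ((τ (-4)).loc q).en)
      (u = RT.v1 q (τ (-4))) (u = ((τ (-4)).loc q).ex) (u = RT.w1 q (τ (-4))) = 10 :=
      (if_neg h).trans (if_neg h')
    rw [this]; decide

theorem PH_EX8 (hN : 16 ≤ N) (D : Thru q c τ) : PH_lab D (PH_EX q c τ (-8)) = 1 := by
  unfold PH_EX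
  rw [PH_lab_lv, PH_v8 hN]; exact if_pos rfl

theorem PH_W18 (hN : 16 ≤ N) (D : Thru q c τ) : PH_lab D (PH_W1 q c τ (-8)) = 7 := by
  unfold PH_W1
  rw [PH_lab_lv, PH_v8 hN]; exact (if_neg (PH_w1_ne_ex q _)).trans (if_pos rfl)

/-! the chains -/

def PH_A1 (D : Thru q c τ) : (tstrip q c τ).E → ZMod 2 :=
  (tstrip q c τ).chi {rowE q c τ (-8)} + emb q c τ (-7) (D.e (-7)) + emb q c τ (-6) (D.s (-6)) +
    (tstrip q c τ).chi {rowE q c τ (-6)} + emb q c τ (-5) (D.e (-5)) +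
    emb q c τ (-4) {RT.lam1 q (τ (-4))}

def PH_A2 (D : Thru q c τ) : (tstrip q c τ).E → ZMod 2 :=
  emb q c τ (-4) (PH_high q (τ (-4))) + (tstrip q c τ).chi {rowE q c τ (-4)} +
    emb q c τ (-3) (D.e (-3)) + emb q c τ (-2) (D.s (-2)) +
    (tstrip q c τ).chi {rowE q c τ (-2)} + emb q c τ (-1) (D.e (-1))

def PH_B1 (D : Thru q c τ) : (tstrip q c τ).E → ZMod 2 :=
  emb q c τ (-7) (D.s (-7)) + (tstrip q c τ).chi {rowE q c τ (-7)} + emb q c τ (-6) (D.e (-6)) +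
    emb q c τ (-5) (D.s (-5)) + (tstrip q c τ).chi {rowE q c τ (-5)}

def PH_B2 (D : Thru q c τ) : (tstrip q c τ).E → ZMod 2 :=
  emb q c τ (-4) (PH_leg0 q (τ (-4))) + emb q c τ (-3) (D.s (-3)) +
    (tstrip q c τ).chi {rowE q c τ (-3)} + emb q c τ (-2) (D.e (-2)) +
    emb q c τ (-1) (D.s (-1)) + (tstrip q c τ).chi {rowE q c τ (-1)}

theorem PH_two : (2 : (tstrip q c τ).V → ZMod 2) = 0 := by
  funext v
  rfl

theorem PH_A1_bd (D : Thru q c τ) : (tstrip q c τ).bdl (PH_A1 D) =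
    (tstrip q c τ).one (PH_EX q c τ (-8)) + (tstrip q c τ).one (PH_V1 q c τ (-4)) := by
  unfold PH_A1
  simp only [bdl_add, PH_bdl_row, PH_bdl_E, PH_bdl_S, PH_bdl_lam1]
  rw [show (-8 : ZMod N) + 1 = -7 by ring, show (-6 : ZMod N) - 1 = -7 by ring,
    show (-6 : ZMod N) + 1 = -5 by ring, show (-4 : ZMod N) - 1 = -5 by ring]
  linear_combination ((tstrip q c τ).one (PH_EN q c τ (-7)) + (tstrip q c τ).one (hub q c τ (-7)) +
    (tstrip q c τ).one (PH_EX q c τ (-6)) + (tstrip q c τ).one (PH_EN q c τ (-5)) +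
    (tstrip q c τ).one (hub q c τ (-5))) * PH_two (q := q) (c := c) (τ := τ)

theorem PH_A2_bd (D : Thru q c τ) (h : τ (-4) = .T) : (tstrip q c τ).bdl (PH_A2 D) =
    (tstrip q c τ).one (hub q c τ (-1)) + (tstrip q c τ).one (PH_V1 q c τ (-4)) := by
  unfold PH_A2
  simp only [bdl_add, PH_bdl_row, PH_bdl_E, PH_bdl_S, PH_bdl_high _ h]
  rw [show (-4 : ZMod N) + 1 = -3 by ring, show (-2 : ZMod N) - 1 = -3 by ring,
    show (-2 : ZMod N) + 1 = -1 by ring]
  linear_combination ((tstrip q c τ).one (PH_EX q c τ (-4)) + (tstrip q c τ).one (PH_EN q c τ (-3)) +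
    (tstrip q c τ).one (hub q c τ (-3)) + (tstrip q c τ).one (PH_EX q c τ (-2)) +
    (tstrip q c τ).one (PH_EN q c τ (-1))) * PH_two (q := q) (c := c) (τ := τ)

theorem PH_B1_bd (D : Thru q c τ) : (tstrip q c τ).bdl (PH_B1 D) =
    (tstrip q c τ).one (PH_EN q c τ (-4)) + (tstrip q c τ).one (hub q c τ (-8)) := by
  unfold PH_B1
  simp only [bdl_add, PH_bdl_row, PH_bdl_E, PH_bdl_S]
  rw [show (-7 : ZMod N) + 1 = -6 by ring, show (-7 : ZMod N) - 1 = -8 by ring,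
    show (-5 : ZMod N) - 1 = -6 by ring, show (-5 : ZMod N) + 1 = -4 by ring]
  linear_combination ((tstrip q c τ).one (PH_EX q c τ (-7)) + (tstrip q c τ).one (PH_EN q c τ (-6)) +
    (tstrip q c τ).one (hub q c τ (-6)) + (tstrip q c τ).one (PH_EX q c τ (-5))) * PH_two (q := q) (c := c) (τ := τ)

theorem PH_B2_bd (D : Thru q c τ) (h : τ (-4) = .T) : (tstrip q c τ).bdl (PH_B2 D) =
    (tstrip q c τ).one (PH_EN q c τ (-4)) + (tstrip q c τ).one (PH_EN q c τ 0) := by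
  unfold PH_B2
  simp only [bdl_add, PH_bdl_row, PH_bdl_E, PH_bdl_S, PH_bdl_leg0 _ h]
  rw [show (-3 : ZMod N) + 1 = -2 by ring, show (-3 : ZMod N) - 1 = -4 by ring,
    show (-1 : ZMod N) - 1 = -2 by ring, show (-1 : ZMod N) + 1 = 0 by ring]
  linear_combination ((tstrip q c τ).one (hub q c τ (-4)) + (tstrip q c τ).one (PH_EX q c τ (-3)) +
    (tstrip q c τ).one (PH_EN q c τ (-2)) + (tstrip q c τ).one (hub q c τ (-2)) +
    (tstrip q c τ).one (PH_EX q c τ (-1))) * PH_two (q := q) (c := c) (τ := τ)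

theorem PH_A1_sup (hN : 16 ≤ N) (D : Thru q c τ) : PH_Sup (PH_lab D) (PH_A1 D) [1, 9, 2] := by
  unfold PH_A1
  refine PH_sup_add (PH_sup_add (PH_sup_add (PH_sup_add (PH_sup_add ?_ ?_) ?_) ?_) ?_) ?_
  · refine PH_sup_row D _ _ (by rw [PH_EX8 hN]; decide) ?_
    rw [show (-8 : ZMod N) + 1 = -7 by ring, PH_L7 hN D (PH_EN_LP D _)]; decide
  · refine PH_sup_E D _ _ (fun v hv => by rw [PH_L7 hN D hv]; decide) ?_
    rw [PH_H7 hN]; decide
  · refine PH_sup_S D _ _ (fun v hv => by rw [PH_R6 hN D hv]; decide) ?_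
    rw [show (-6 : ZMod N) - 1 = -7 by ring, PH_H7 hN]; decide
  · refine PH_sup_row D _ _ (by rw [PH_R6 hN D (PH_EX_RP D _)]; decide) ?_
    rw [show (-6 : ZMod N) + 1 = -5 by ring, PH_L5 hN D (PH_EN_LP D _)]; decide
  · refine PH_sup_E D _ _ (fun v hv => by rw [PH_L5 hN D hv]; decide) ?_
    rw [PH_H5 hN]; decide
  · refine PH_sup_emb D _ _ _ (PH_ends_lam1 q _ _ ?_ ?_)
    · change PH_lab D (PH_V1 q c τ (-4)) ∈ _
      rw [PH_V14 hN]; decide
    · change PH_lab D (hub q c τ (-4 - 1)) ∈ _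
      rw [show (-4 : ZMod N) - 1 = -5 by ring, PH_H5 hN]; decide

theorem PH_A2_sup (hN : 16 ≤ N) (D : Thru q c τ) : PH_Sup (PH_lab D) (PH_A2 D) [2, 10, 3] := by
  unfold PH_A2
  refine PH_sup_add (PH_sup_add (PH_sup_add (PH_sup_add (PH_sup_add ?_ ?_) ?_) ?_) ?_) ?_
  · refine PH_sup_emb D _ _ _ (PH_ends_high q _ _ (fun u hu => ?_))
    have h := PH_NE4 hN D u hu
    change PH_lab D (lv q c τ (-4) u) ∈ _
    revert h
    generalize PH_lab D (lv q c τ (-4) u) = m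
    intro h
    simp only [List.mem_cons, List.not_mem_nil, or_false] at h ⊢
    omega
  · refine PH_sup_row D _ _ (by rw [PH_EX4 hN]; decide) ?_
    rw [show (-4 : ZMod N) + 1 = -3 by ring, PH_L3 hN D (PH_EN_LP D _)]; decide
  · refine PH_sup_E D _ _ (fun v hv => by rw [PH_L3 hN D hv]; decide) ?_
    rw [PH_H3 hN]; decide
  · refine PH_sup_S D _ _ (fun v hv => by rw [PH_R2 hN D hv]; decide) ?_
    rw [show (-2 : ZMod N) - 1 = -3 by ring, PH_H3 hN]; decide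
  · refine PH_sup_row D _ _ (by rw [PH_R2 hN D (PH_EX_RP D _)]; decide) ?_
    rw [show (-2 : ZMod N) + 1 = -1 by ring, PH_L1 hN D (PH_EN_LP D _)]; decide
  · refine PH_sup_E D _ _ (fun v hv => by rw [PH_L1 hN D hv]; decide) ?_
    rw [PH_H1 hN]; decide

theorem PH_B1_sup (hN : 16 ≤ N) (D : Thru q c τ) : PH_Sup (PH_lab D) (PH_B1 D) [4, 11, 5] := by
  unfold PH_B1
  refine PH_sup_add (PH_sup_add (PH_sup_add (PH_sup_add ?_ ?_) ?_) ?_) ?_
  · refine PH_sup_S D _ _ (fun v hv => by rw [PH_R7 hN D hv]; decide) ?_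
    rw [show (-7 : ZMod N) - 1 = -8 by ring, PH_H8 hN]; decide
  · refine PH_sup_row D _ _ (by rw [PH_R7 hN D (PH_EX_RP D _)]; decide) ?_
    rw [show (-7 : ZMod N) + 1 = -6 by ring, PH_L6 hN D (PH_EN_LP D _)]; decide
  · refine PH_sup_E D _ _ (fun v hv => by rw [PH_L6 hN D hv]; decide) ?_
    rw [PH_H6 hN]; decide
  · refine PH_sup_S D _ _ (fun v hv => by rw [PH_R5 hN D hv]; decide) ?_
    rw [show (-5 : ZMod N) - 1 = -6 by ring, PH_H6 hN]; decide
  · refine PH_sup_row D _ _ (by rw [PH_R5 hN D (PH_EX_RP D _)]; decide) ?_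
    rw [show (-5 : ZMod N) + 1 = -4 by ring, PH_EN4 hN]; decide

theorem PH_B2_sup (hN : 16 ≤ N) (D : Thru q c τ) : PH_Sup (PH_lab D) (PH_B2 D) [5, 12, 6] := by
  unfold PH_B2
  refine PH_sup_add (PH_sup_add (PH_sup_add (PH_sup_add (PH_sup_add ?_ ?_) ?_) ?_) ?_) ?_
  · refine PH_sup_emb D _ _ _ (PH_ends_leg0 q _ _ ?_ ?_)
    · change PH_lab D (PH_EN q c τ (-4)) ∈ _
      rw [PH_EN4 hN]; decide
    · change PH_lab D (hub q c τ (-4)) ∈ _
      rw [PH_H4 hN]; decide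
  · refine PH_sup_S D _ _ (fun v hv => by rw [PH_R3 hN D hv]; decide) ?_
    rw [show (-3 : ZMod N) - 1 = -4 by ring, PH_H4 hN]; decide
  · refine PH_sup_row D _ _ (by rw [PH_R3 hN D (PH_EX_RP D _)]; decide) ?_
    rw [show (-3 : ZMod N) + 1 = -2 by ring, PH_L2 hN D (PH_EN_LP D _)]; decide
  · refine PH_sup_E D _ _ (fun v hv => by rw [PH_L2 hN D hv]; decide) ?_
    rw [PH_H2 hN]; decide
  · refine PH_sup_S D _ _ (fun v hv => by rw [PH_R1 hN D hv]; decide) ?_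
    rw [show (-1 : ZMod N) - 1 = -2 by ring, PH_H2 hN]; decide
  · refine PH_sup_row D _ _ (by rw [PH_R1 hN D (PH_EX_RP D _)]; decide) ?_
    rw [show (-1 : ZMod N) + 1 = 0 by ring, PH_EN0]; decide

theorem PH_A1_free {P : (tstrip q c τ).PS} (W : Window q c τ P) (D : Thru q c τ) :
    PH_Free P (PH_A1 D) := by
  unfold PH_A1
  refine PH_free_add (PH_free_add (PH_free_add (PH_free_add (PH_free_add ?_ ?_) ?_) ?_) ?_) ?_
  · exact PH_free_row W 8 (by omega) _ (by norm_num)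
  · exact PH_free_emb W 7 (by omega) _ (by norm_num) _
  · exact PH_free_emb W 6 (by omega) _ (by norm_num) _
  · exact PH_free_row W 6 (by omega) _ (by norm_num)
  · exact PH_free_emb W 5 (by omega) _ (by norm_num) _
  · exact PH_free_emb W 4 (by omega) _ (by norm_num) _

theorem PH_A2_free {P : (tstrip q c τ).PS} (W : Window q c τ P) (D : Thru q c τ) :
    PH_Free P (PH_A2 D) := by
  unfold PH_A2
  refine PH_free_add (PH_free_add (PH_free_add (PH_free_add (PH_free_add ?_ ?_) ?_) ?_) ?_) ?_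
  · exact PH_free_emb W 4 (by omega) _ (by norm_num) _
  · exact PH_free_row W 4 (by omega) _ (by norm_num)
  · exact PH_free_emb W 3 (by omega) _ (by norm_num) _
  · exact PH_free_emb W 2 (by omega) _ (by norm_num) _
  · exact PH_free_row W 2 (by omega) _ (by norm_num)
  · exact PH_free_emb W 1 (by omega) _ (by norm_num) _

theorem PH_B1_free {P : (tstrip q c τ).PS} (W : Window q c τ P) (D : Thru q c τ) :
    PH_Free P (PH_B1 D) := by
  unfold PH_B1
  refine PH_free_add (PH_free_add (PH_free_add (PH_free_add ?_ ?_) ?_) ?_) ?_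
  · exact PH_free_emb W 7 (by omega) _ (by norm_num) _
  · exact PH_free_row W 7 (by omega) _ (by norm_num)
  · exact PH_free_emb W 6 (by omega) _ (by norm_num) _
  · exact PH_free_emb W 5 (by omega) _ (by norm_num) _
  · exact PH_free_row W 5 (by omega) _ (by norm_num)

theorem PH_B2_free {P : (tstrip q c τ).PS} (W : Window q c τ P) (D : Thru q c τ) :
    PH_Free P (PH_B2 D) := by
  unfold PH_B2
  refine PH_free_add (PH_free_add (PH_free_add (PH_free_add (PH_free_add ?_ ?_) ?_) ?_) ?_) ?_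
  · exact PH_free_emb W 4 (by omega) _ (by norm_num) _
  · exact PH_free_emb W 3 (by omega) _ (by norm_num) _
  · exact PH_free_row W 3 (by omega) _ (by norm_num)
  · exact PH_free_emb W 2 (by omega) _ (by norm_num) _
  · exact PH_free_emb W 1 (by omega) _ (by norm_num) _
  · exact PH_free_row W 1 (by omega) _ (by norm_num)

/-! ### outer chains -/

theorem PH_eq_hub {j : ZMod N} {i : ℕ} (h : (-j).val = i) : hub q c τ j = hub q c τ (-(i : ZMod N)) := by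
  have : j = -(i : ZMod N) := by
    rw [← h, ZMod.natCast_zmod_val, neg_neg]
  rw [this]

/-- labels of the vertices outside of the inner window -/
theorem PH_outer (D : Thru q c τ) (v : (tstrip q c τ).V) (h : ¬ Inner q c τ v) :
    PH_lab D v = 0 ∨ (PH_lab D v = 3 ∧ v = hub q c τ (-1)) ∨
      (PH_lab D v = 4 ∧ v = hub q c τ (-8)) ∨
      (PH_lab D v = 7 ∧ v = lv q c τ (-8) (RT.w1 q (τ (-8)))) ∨
      (PH_lab D v = 8 ∧ v = lv q c τ 0 (RT.v1 q (τ 0))) ∨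
      (PH_lab D v = 13 ∧ v = hub q c τ 0) ∨ (PH_lab D v = 14 ∧ v = hub q c τ (-9)) := by
  rcases v with j | ⟨j, u⟩
  · change PH_hl (-j).val = 0 ∨ (PH_hl (-j).val = 3 ∧ hub q c τ j = _) ∨
      (PH_hl (-j).val = 4 ∧ hub q c τ j = _) ∨ (PH_hl (-j).val = 7 ∧ hub q c τ j = _) ∨
      (PH_hl (-j).val = 8 ∧ hub q c τ j = _) ∨ (PH_hl (-j).val = 13 ∧ hub q c τ j = _) ∨
      (PH_hl (-j).val = 14 ∧ hub q c τ j = _)
    have hin : ∀ i : ℕ, 2 ≤ i → i ≤ 7 → (-j).val ≠ i := fun i h2 h7 hi =>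
      h (Or.inl ⟨i, h2, h7, PH_eq_hub hi⟩)
    generalize hm : (-j).val = m at hin ⊢
    rcases m with _ | _ | _ | _ | _ | _ | _ | _ | _ | _ | m
    · exact Or.inr (Or.inr (Or.inr (Or.inr (Or.inr (Or.inl ⟨rfl, by
        simpa using PH_eq_hub (q := q) (c := c) (τ := τ) hm⟩)))))
    · exact Or.inr (Or.inl ⟨rfl, by simpa using PH_eq_hub (q := q) (c := c) (τ := τ) hm⟩)
    · exact absurd rfl (hin 2 (by omega) (by omega))
    · exact absurd rfl (hin 3 (by omega) (by omega))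
    · exact absurd rfl (hin 4 (by omega) (by omega))
    · exact absurd rfl (hin 5 (by omega) (by omega))
    · exact absurd rfl (hin 6 (by omega) (by omega))
    · exact absurd rfl (hin 7 (by omega) (by omega))
    · exact Or.inr (Or.inr (Or.inl ⟨rfl, by
        simpa using PH_eq_hub (q := q) (c := c) (τ := τ) hm⟩))
    · exact Or.inr (Or.inr (Or.inr (Or.inr (Or.inr (Or.inr ⟨rfl, by
        simpa using PH_eq_hub (q := q) (c := c) (τ := τ) hm⟩)))))
    · exact Or.inl rfl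
  · have hj : ∀ i : ℕ, (-j).val = i → j = -(i : ZMod N) := by
      intro i hi
      rw [← hi, ZMod.natCast_zmod_val, neg_neg]
    by_cases h17 : 1 ≤ (-j).val ∧ (-j).val ≤ 7
    · refine absurd (Or.inr (Or.inl ⟨(-j).val, h17.1, h17.2, ?_⟩)) h
      have := hj _ rfl
      generalize (-j).val = m at this
      subst this
      exact ⟨u, rfl⟩
    by_cases h0 : (-j).val = 0
    · obtain rfl : j = 0 := by simpa using hj 0 h0
      change (PH_ll (-0 : ZMod N).val _ _ _ _ _ = 0 ∨ _)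
      have e : ∀ a b c d e : Prop, PH_ll (-0 : ZMod N).val a b c d e = PH_ll 0 a b c d e := by
        intro a b c d e; rw [h0]
      by_cases h1 : u = ((τ 0).loc q).en
      · subst h1
        exact absurd (Or.inr (Or.inr (Or.inr rfl))) h
      · by_cases h2 : u = RT.v1 q (τ 0)
        · refine Or.inr (Or.inr (Or.inr (Or.inr (Or.inl ⟨?_, ?_⟩))))
          · exact (e _ _ _ _ _).trans ((if_neg h1).trans (if_pos h2))
          · rw [← h2]; rfl
        · refine Or.inl ?_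
          exact (e _ _ _ _ _).trans ((if_neg h1).trans (if_neg h2))
    by_cases h8 : (-j).val = 8
    · obtain rfl : j = -8 := by simpa using hj 8 h8
      change (PH_ll (- -8 : ZMod N).val _ _ _ _ _ = 0 ∨ _)
      have e : ∀ a b c d e : Prop, PH_ll (- -8 : ZMod N).val a b c d e = PH_ll 8 a b c d e := by
        intro a b c d e; rw [h8]
      by_cases h1 : u = ((τ (-8)).loc q).ex
      · subst h1
        exact absurd (Or.inr (Or.inr (Or.inl rfl))) h
      · by_cases h2 : u = RT.w1 q (τ (-8))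
        · refine Or.inr (Or.inr (Or.inr (Or.inl ⟨?_, ?_⟩)))
          · exact (e _ _ _ _ _).trans ((if_neg h1).trans (if_pos h2))
          · rw [← h2]; rfl
        · refine Or.inl ?_
          exact (e _ _ _ _ _).trans ((if_neg h1).trans (if_neg h2))
    · refine Or.inl ?_
      change PH_ll (-j).val _ _ _ _ _ = 0
      have h9 : 9 ≤ (-j).val := by omega
      obtain ⟨m, hm⟩ : ∃ m, (-j).val = m + 9 := ⟨(-j).val - 9, by omega⟩
      rw [hm]
      rfl

/-- support of a chain which avoids the inner window and some special vertices -/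
theorem PH_sup_outer (D : Thru q c τ) (d : (tstrip q c τ).E → ZMod 2) (S : List ℕ)
    (h0 : 0 ∈ S) (hin : ∀ e, d e ≠ 0 → ∀ v, (tstrip q c τ).End v e → ¬ Inner q c τ v)
    (h3 : 3 ∈ S ∨ Avoids d (hub q c τ (-1))) (h4 : 4 ∈ S ∨ Avoids d (hub q c τ (-8)))
    (h7 : 7 ∈ S ∨ Avoids d (lv q c τ (-8) (RT.w1 q (τ (-8)))))
    (h8 : 8 ∈ S ∨ Avoids d (lv q c τ 0 (RT.v1 q (τ 0))))
    (h13 : 13 ∈ S ∨ Avoids d (hub q c τ 0)) (h14 : 14 ∈ S ∨ Avoids d (hub q c τ (-9))) :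
    PH_Sup (PH_lab D) d S := by
  intro e he v hv
  rcases PH_outer D v (hin e he v hv) with h | ⟨h, h'⟩ | ⟨h, h'⟩ | ⟨h, h'⟩ | ⟨h, h'⟩ | ⟨h, h'⟩ |
    ⟨h, h'⟩ <;> rw [h]
  · exact h0
  · exact h3.resolve_right (fun ha => ha e he (h' ▸ hv))
  · exact h4.resolve_right (fun ha => ha e he (h' ▸ hv))
  · exact h7.resolve_right (fun ha => ha e he (h' ▸ hv))
  · exact h8.resolve_right (fun ha => ha e he (h' ▸ hv))
  · exact h13.resolve_right (fun ha => ha e he (h' ▸ hv))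
  · exact h14.resolve_right (fun ha => ha e he (h' ▸ hv))

theorem PH_sum_ne {G : Gph} {ι : Type} (s : Finset ι) (f : ι → G.E → ZMod 2) {e : G.E}
    (h : (∑ i ∈ s, f i) e ≠ 0) : ∃ i ∈ s, f i e ≠ 0 := by
  rw [Finset.sum_apply] at h
  exact Finset.exists_ne_zero_of_sum_ne_zero h

/-! ### the rails -/

theorem PH_tel_even {M : Type*} [AddCommGroup M] (h2 : ∀ x : M, x + x = 0) (g : ℤ → M) (n : ℕ) :
    ∑ i ∈ (Finset.range (2 * n + 1)).filter (fun i => i % 2 = 0),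
      (g ((i : ℤ) - 1) + g ((i : ℤ) + 1)) = g (-1) + g (2 * n + 1) := by
  induction n with
  | zero =>
    simp [Finset.sum_filter]
  | succ n ih =>
    rw [show 2 * (n + 1) + 1 = 2 * n + 1 + 1 + 1 by ring, Finset.sum_filter,
      Finset.sum_range_succ, Finset.sum_range_succ, ← Finset.sum_filter, ih,
      if_neg (by omega), if_pos (by omega), add_zero]
    have e1 : ((2 * n + 1 + 1 : ℕ) : ℤ) - 1 = 2 * n + 1 := by push_cast; ring
    have e2 : ((2 * n + 1 + 1 : ℕ) : ℤ) + 1 = 2 * (n + 1 : ℕ) + 1 := by push_cast; ring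
    rw [e1, e2]
    exact SS93_char h2 _ _ _

theorem PH_tel_odd {M : Type*} [AddCommGroup M] (h2 : ∀ x : M, x + x = 0) (g : ℤ → M) (n : ℕ) :
    ∑ i ∈ (Finset.range (2 * n + 1)).filter (fun i => i % 2 = 1),
      (g ((i : ℤ) - 1) + g ((i : ℤ) + 1)) = g 0 + g (2 * n) := by
  induction n with
  | zero =>
    simp [Finset.sum_filter, h2]
  | succ n ih =>
    rw [show 2 * (n + 1) + 1 = 2 * n + 1 + 1 + 1 by ring, Finset.sum_filter,
      Finset.sum_range_succ, Finset.sum_range_succ, ← Finset.sum_filter, ih,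
      if_pos (by omega), if_neg (by omega), add_zero]
    have e1 : ((2 * n + 1 : ℕ) : ℤ) - 1 = 2 * n := by push_cast; ring
    have e2 : ((2 * n + 1 : ℕ) : ℤ) + 1 = 2 * (n + 1 : ℕ) := by push_cast; ring
    rw [e1, e2]
    exact SS93_char h2 _ _ _

theorem PH_bdl_rails (hodd : Odd N) (hN : 16 ≤ N) {O : ℕ → (tstrip q c τ).E → ZMod 2}
    (hO : Slots q c τ O) :
    (tstrip q c τ).bdl (railE q c τ O) =
      (tstrip q c τ).one (hub q c τ (-1)) + (tstrip q c τ).one (hub q c τ (-8)) ∧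
    (tstrip q c τ).bdl (railO q c τ O) =
      (tstrip q c τ).one (hub q c τ 0) + (tstrip q c τ).one (hub q c τ (-9)) := by
  obtain ⟨m, hm⟩ := hodd
  obtain ⟨n, hn⟩ : ∃ n, N - 8 = 2 * n + 1 := ⟨m - 4, by omega⟩
  have hNn : ((N : ℕ) : ZMod N) = 0 := ZMod.natCast_self N
  have hNn' : (2 * (n : ZMod N) + 9) = 0 := by
    have : N = 2 * n + 9 := by omega
    have h3 : ((2 * n + 9 : ℕ) : ZMod N) = 0 := by rw [← this]; exact hNn
    push_cast at h3
    exact h3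
  set g : ℤ → ((tstrip q c τ).V → ZMod 2) := fun k =>
    (tstrip q c τ).one (hub q c τ ((k : ℤ) : ZMod N)) with hg
  have hb : ∀ k, k < N - 8 → (tstrip q c τ).bdl (O k) = g ((k : ℤ) - 1) + g ((k : ℤ) + 1) := by
    intro k hk
    rw [hO.bd k (by omega), hg]
    simp only
    push_cast
    rfl
  constructor
  · unfold railE
    rw [bdl_sum, Finset.sum_congr rfl (fun k hk => hb k (by
      simpa using (Finset.mem_filter.1 hk).1)), hn, PH_tel_even SS93_two g n]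
    have e1 : (((-1 : ℤ)) : ZMod N) = -1 := by push_cast; rfl
    have e2 : (((2 * n + 1 : ℤ)) : ZMod N) = -8 := by push_cast; linear_combination hNn'
    simp only [hg, e1, e2]
  · unfold railO
    rw [bdl_sum, Finset.sum_congr rfl (fun k hk => hb k (by
      simpa using (Finset.mem_filter.1 hk).1)), hn, PH_tel_odd SS93_two g n]
    have e1 : (((0 : ℤ)) : ZMod N) = 0 := by push_cast; rfl
    have e2 : (((2 * n : ℤ)) : ZMod N) = -9 := by push_cast; linear_combination hNn'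
    simp only [hg, e1, e2]

theorem PH_bdl_ne {G : Gph} {d : G.E → ZMod 2} {v : G.V} (h : G.bdl d v ≠ 0) :
    ∃ e, d e ≠ 0 ∧ G.End v e := by
  obtain ⟨e, -, he⟩ := Finset.exists_ne_zero_of_sum_ne_zero h
  refine ⟨e, fun h0 => he (by rw [h0, zero_mul]), ?_⟩
  by_contra hE
  apply he
  have h1 : G.a e ≠ v := fun h => hE (Or.inl h)
  have h2 : G.b e ≠ v := fun h => hE (Or.inr h)
  rw [if_neg h1, if_neg h2]
  simp

/-- the odd slots touch their end hubs -/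
theorem PH_touch (hN : 16 ≤ N) {O : ℕ → (tstrip q c τ).E → ZMod 2}
    (hO : Slots q c τ O) {k : ℕ} (hk : k ≤ N - 9) (j : ZMod N)
    (hj : j = (k : ZMod N) - 1 ∨ j = (k : ZMod N) + 1) :
    ∃ e, O k e ≠ 0 ∧ (tstrip q c τ).End (hub q c τ j) e := by
  have h2 : (k : ZMod N) - 1 ≠ (k : ZMod N) + 1 := by
    intro h
    have h3 : ((2 : ℕ) : ZMod N) = 0 := by push_cast; linear_combination -h
    rw [ZMod.natCast_eq_zero_iff] at h3
    exact absurd (Nat.le_of_dvd (by omega) h3) (by omega)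
  apply PH_bdl_ne
  rw [hO.bd k hk]
  have h3 : ∀ i i' : ZMod N, i ≠ i' → hub q c τ i ≠ hub q c τ i' :=
    fun i i' h h' => h (Sum.inl.inj h')
  rcases hj with rfl | rfl
  · simp only [Pi.add_apply, Gph.one]
    rw [if_neg (h3 _ _ h2.symm)]
    simp
  · simp only [Pi.add_apply, Gph.one]
    rw [if_neg (h3 _ _ h2)]
    simp

theorem PH_even_avoids (hodd : Odd N) (hN : 16 ≤ N) {O : ℕ → (tstrip q c τ).E → ZMod 2}
    (hO : Slots q c τ O) {i : ℕ} (hi : i ≤ N - 9) (hi' : i % 2 = 0) :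
    Avoids (O i) (hub q c τ 0) ∧ Avoids (O i) (hub q c τ (-9)) := by
  obtain ⟨m, hm⟩ := hodd
  have key : ∀ k j, k ≤ N - 9 → Odd k → (j = (k : ZMod N) - 1 ∨ j = (k : ZMod N) + 1) →
      Avoids (O i) (hub q c τ j) := by
    intro k j hk hk' hj e he hE
    obtain ⟨f, hf, hE'⟩ := PH_touch hN hO hk j hj
    exact SS93_Ind_End (hO.ind i k hi hk (Nat.even_iff.2 hi') hk' e f he hf) hE hE'
  constructor
  · exact key 1 0 (by omega) odd_one (Or.inl (by push_cast; ring))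
  · refine key (N - 10) (-9) (by omega) (Nat.odd_iff.2 (by omega)) (Or.inr ?_)
    have : ((N - 10 + 10 : ℕ) : ZMod N) = 0 := by
      rw [show N - 10 + 10 = N by omega]; exact ZMod.natCast_self N
    push_cast at this
    linear_combination -this

theorem PH_rail_mem {O : ℕ → (tstrip q c τ).E → ZMod 2} (hN : 16 ≤ N) {e : (tstrip q c τ).E}
    (h : railE q c τ O e ≠ 0) : ∃ k, k ≤ N - 9 ∧ k % 2 = 0 ∧ O k e ≠ 0 := by
  obtain ⟨k, hk, hk'⟩ := PH_sum_ne _ _ h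
  obtain ⟨h1, h2⟩ := Finset.mem_filter.1 hk
  rw [Finset.mem_range] at h1
  exact ⟨k, by omega, h2, hk'⟩

theorem PH_railO_mem {O : ℕ → (tstrip q c τ).E → ZMod 2} (hN : 16 ≤ N) {e : (tstrip q c τ).E}
    (h : railO q c τ O e ≠ 0) : ∃ k, k ≤ N - 9 ∧ k % 2 = 1 ∧ O k e ≠ 0 := by
  obtain ⟨k, hk, hk'⟩ := PH_sum_ne _ _ h
  obtain ⟨h1, h2⟩ := Finset.mem_filter.1 hk
  rw [Finset.mem_range] at h1
  exact ⟨k, by omega, h2, hk'⟩

theorem PH_railE_avoid (hN : 16 ≤ N) {O : ℕ → (tstrip q c τ).E → ZMod 2} {v : (tstrip q c τ).V}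
    (h : ∀ k, k ≤ N - 9 → k % 2 = 0 → Avoids (O k) v) : Avoids (railE q c τ O) v := by
  intro e he
  obtain ⟨k, hk, hk', h'⟩ := PH_rail_mem hN he
  exact h k hk hk' e h'

theorem PH_railO_avoid (hN : 16 ≤ N) {O : ℕ → (tstrip q c τ).E → ZMod 2} {v : (tstrip q c τ).V}
    (h : ∀ k, k ≤ N - 9 → k % 2 = 1 → Avoids (O k) v) : Avoids (railO q c τ O) v := by
  intro e he
  obtain ⟨k, hk, hk', h'⟩ := PH_railO_mem hN he
  exact h k hk hk' e h'

theorem PH_railE_sup (D : Thru q c τ) (hodd : Odd N) (hN : 16 ≤ N)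
    {O : ℕ → (tstrip q c τ).E → ZMod 2} (hO : Slots q c τ O) (S : List ℕ)
    (h0 : 0 ∈ S) (h3 : 3 ∈ S) (h4 : 4 ∈ S)
    (h7 : 7 ∈ S ∨ Avoids (railE q c τ O) (lv q c τ (-8) (RT.w1 q (τ (-8)))))
    (h8 : 8 ∈ S ∨ Avoids (railE q c τ O) (lv q c τ 0 (RT.v1 q (τ 0)))) :
    PH_Sup (PH_lab D) (railE q c τ O) S := by
  refine PH_sup_outer D _ S h0 (fun e he => ?_) (Or.inl h3) (Or.inl h4) h7 h8
    (Or.inr (PH_railE_avoid hN (fun k hk hk' => (PH_even_avoids hodd hN hO hk hk').1)))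
    (Or.inr (PH_railE_avoid hN (fun k hk hk' => (PH_even_avoids hodd hN hO hk hk').2)))
  obtain ⟨k, hk, hk', h'⟩ := PH_rail_mem hN he
  exact hO.inner k hk e h'

theorem PH_railO_sup (D : Thru q c τ) (hN : 16 ≤ N)
    {O : ℕ → (tstrip q c τ).E → ZMod 2} (hO : Slots q c τ O) (S : List ℕ)
    (h0 : 0 ∈ S) (h13 : 13 ∈ S) (h14 : 14 ∈ S)
    (h7 : 7 ∈ S ∨ Avoids (railO q c τ O) (lv q c τ (-8) (RT.w1 q (τ (-8)))))
    (h8 : 8 ∈ S ∨ Avoids (railO q c τ O) (lv q c τ 0 (RT.v1 q (τ 0)))) :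
    PH_Sup (PH_lab D) (railO q c τ O) S := by
  refine PH_sup_outer D _ S h0 (fun e he => ?_)
    (Or.inr (PH_railO_avoid hN (fun k hk hk' e he hE =>
      (hO.odd k hk (Nat.odd_iff.2 hk') e he _ hE).1 rfl)))
    (Or.inr (PH_railO_avoid hN (fun k hk hk' e he hE =>
      (hO.odd k hk (Nat.odd_iff.2 hk') e he _ hE).2 rfl))) h7 h8 (Or.inl h13) (Or.inl h14)
  obtain ⟨k, hk, hk', h'⟩ := PH_railO_mem hN he
  exact hO.inner k hk e h'

/-! ### the short pieces -/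

theorem PH_z1_sup (hN : 16 ≤ N) (D : Thru q c τ) :
    PH_Sup (PH_lab D) (emb q c τ (-4) {RT.eL q (τ (-4))}) [5, 2] := by
  refine PH_sup_emb D _ _ _ (PH_ends_eL q _ _ ?_ ?_)
  · change PH_lab D (PH_EN q c τ (-4)) ∈ _
    rw [PH_EN4 hN]; decide
  · change PH_lab D (PH_V1 q c τ (-4)) ∈ _
    rw [PH_V14 hN]; decide

theorem PH_eR_sup (hN : 16 ≤ N) (D : Thru q c τ) :
    PH_Sup (PH_lab D) (emb q c τ (-8) {RT.eR q (τ (-8))}) [7, 1] := by
  refine PH_sup_emb D _ _ _ (PH_ends_eR q _ _ ?_ ?_)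
  · change PH_lab D (PH_EX q c τ (-8)) ∈ _
    rw [PH_EX8 hN]; decide
  · change PH_lab D (PH_W1 q c τ (-8)) ∈ _
    rw [PH_W18 hN]; decide

theorem PH_rho1_sup (hN : 16 ≤ N) (D : Thru q c τ) :
    PH_Sup (PH_lab D) (emb q c τ (-8) {RT.rho1 q (τ (-8))}) [7, 4] := by
  refine PH_sup_emb D _ _ _ (PH_ends_rho1 q _ _ ?_ ?_)
  · change PH_lab D (PH_W1 q c τ (-8)) ∈ _
    rw [PH_W18 hN]; decide
  · change PH_lab D (hub q c τ (-8)) ∈ _
    rw [PH_H8 hN]; decide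

theorem PH_eL_sup (D : Thru q c τ) :
    PH_Sup (PH_lab D) (emb q c τ 0 {RT.eL q (τ 0)}) [6, 8] := by
  refine PH_sup_emb D _ _ _ (PH_ends_eL q _ _ ?_ ?_)
  · change PH_lab D (PH_EN q c τ 0) ∈ _
    rw [PH_EN0]; decide
  · change PH_lab D (PH_V1 q c τ 0) ∈ _
    rw [PH_V10]; decide

theorem PH_lam1_sup (hN : 16 ≤ N) (D : Thru q c τ) :
    PH_Sup (PH_lab D) (emb q c τ 0 {RT.lam1 q (τ 0)}) [8, 3] := by
  refine PH_sup_emb D _ _ _ (PH_ends_lam1 q _ _ ?_ ?_)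
  · change PH_lab D (PH_V1 q c τ 0) ∈ _
    rw [PH_V10]; decide
  · change PH_lab D (hub q c τ (0 - 1)) ∈ _
    rw [show (0 : ZMod N) - 1 = -1 by ring, PH_H1 hN]; decide

theorem PH_leg0_sup (D : Thru q c τ) :
    PH_Sup (PH_lab D) (emb q c τ 0 (PH_leg0 q (τ 0))) [6, 13] := by
  refine PH_sup_emb D _ _ _ (PH_ends_leg0 q _ _ ?_ ?_)
  · change PH_lab D (PH_EN q c τ 0) ∈ _
    rw [PH_EN0]; decide
  · change PH_lab D (hub q c τ 0) ∈ _
    rw [PH_H0]; decide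

theorem PH_legl_sup (hN : 16 ≤ N) (D : Thru q c τ) :
    PH_Sup (PH_lab D) (emb q c τ (-8) (PH_legl q (τ (-8)))) [1, 14] := by
  refine PH_sup_emb D _ _ _ (PH_ends_legl q _ _ ?_ ?_)
  · change PH_lab D (PH_EX q c τ (-8)) ∈ _
    rw [PH_EX8 hN]; decide
  · change PH_lab D (hub q c τ (-8 - 1)) ∈ _
    rw [show (-8 : ZMod N) - 1 = -9 by ring, PH_H9 hN]; decide

theorem PH_free0 {P : (tstrip q c τ).PS} (W : Window q c τ P) (s : Finset ((τ 0).loc q).E) :
    PH_Free P (emb q c τ 0 s) := PH_free_emb W 0 (by omega) _ (by norm_num) _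

theorem PH_free4 {P : (tstrip q c τ).PS} (W : Window q c τ P) (s : Finset ((τ (-4)).loc q).E) :
    PH_Free P (emb q c τ (-4) s) := PH_free_emb W 4 (by omega) _ (by norm_num) _

theorem PH_free8 {P : (tstrip q c τ).PS} (W : Window q c τ P) (s : Finset ((τ (-8)).loc q).E) :
    PH_Free P (emb q c τ (-8) s) := PH_free_emb W 8 (by omega) _ (by norm_num) _

theorem PH_lab_ne {D : Thru q c τ} {v w : (tstrip q c τ).V} {a b : ℕ} (hv : PH_lab D v = a)
    (hw : PH_lab D w = b) (h : a ≠ b) : v ≠ w := by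
  rintro rfl
  exact h (hv.symm.trans hw)

end win

variable {N : ℕ} [NeZero N]

theorem phi12 {q : ℕ} {c : Bool} {τ : ZMod N → RT} {P : (tstrip q c τ).PS}
    (W : Window q c τ P) (hW : (∃ j, τ j = .W) → 1 ≤ q)
    {O : ℕ → (tstrip q c τ).E → ZMod 2} (hO : Slots q c τ O) :
    P.L (railE q c τ O) (railO q c τ O) = 1 := by
  have hN := W.big
  obtain ⟨D, -, -⟩ := exists_thru q c τ (by omega) hW (fun _ => 0) (fun _ => by omega)
  obtain ⟨bE, bO⟩ := PH_bdl_rails W.odd hN hO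
  have h2 := PH_two (q := q) (c := c) (τ := τ)
  have sE : PH_Sup (PH_lab D) (railE q c τ O) [0, 3, 4, 7, 8] :=
    PH_railE_sup D W.odd hN hO _ (by decide) (by decide) (by decide) (Or.inl (by decide))
      (Or.inl (by decide))
  have sO : PH_Sup (PH_lab D) (railO q c τ O) [1, 14, 0, 7, 8, 13, 6] :=
    PH_railO_sup D hN hO _ (by decide) (by decide) (by decide) (Or.inl (by decide))
      (Or.inl (by decide))
  set LL := emb q c τ (-8) (PH_legl q (τ (-8))) with hLL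
  set L0 := emb q c τ 0 (PH_leg0 q (τ 0)) with hL0
  have s02 : PH_Sup (PH_lab D) (LL + railO q c τ O + L0) [1, 14, 0, 7, 8, 13, 6] :=
    PH_sup_add (PH_sup_add (PH_sup_mono (PH_legl_sup hN D) (by decide)) sO)
      (PH_sup_mono (PH_leg0_sup D) (by decide))
  have s01 : PH_Sup (PH_lab D) (emb q c τ (-8) {RT.eR q (τ (-8))} +
      emb q c τ (-8) {RT.rho1 q (τ (-8))}) [1, 7, 4] :=
    PH_sup_add (PH_sup_mono (PH_eR_sup hN D) (by decide))
      (PH_sup_mono (PH_rho1_sup hN D) (by decide))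
  have s12 : PH_Sup (PH_lab D) (emb q c τ 0 {RT.eL q (τ 0)} +
      emb q c τ 0 {RT.lam1 q (τ 0)}) [6, 8, 3] :=
    PH_sup_add (PH_sup_mono (PH_eL_sup D) (by decide))
      (PH_sup_mono (PH_lam1_sup hN D) (by decide))
  have f01 := PH_free_add (PH_free8 W {RT.eR q (τ (-8))}) (PH_free8 W {RT.rho1 q (τ (-8))})
  have f12 := PH_free_add (PH_free0 W {RT.eL q (τ 0)}) (PH_free0 W {RT.lam1 q (τ 0)})
  have fz := PH_free4 W {RT.eL q (τ (-4))}
  have fA1 := PH_A1_free W D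
  have fA2 := PH_A2_free W D
  have fB1 := PH_B1_free W D
  have fB2 := PH_B2_free W D
  have sA1 := PH_A1_sup hN D
  have sA2 := PH_A2_sup hN D
  have sB1 := PH_B1_sup hN D
  have sB2 := PH_B2_sup hN D
  have sz := PH_z1_sup hN D
  have key := PH_K33 P (x0 := PH_EX q c τ (-8)) (x1 := hub q c τ (-1)) (x2 := PH_EN q c τ (-4))
    (y0 := PH_V1 q c τ (-4)) (y1 := hub q c τ (-8)) (y2 := PH_EN q c τ 0)
    (PH_lab_ne (PH_V14 hN D) (PH_H8 hN D) (by decide))
    (PH_lab_ne (PH_V14 hN D) (PH_EN0 D) (by decide))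
    (PH_lab_ne (PH_H8 hN D) (PH_EN0 D) (by decide))
    (c00 := PH_A1 D)
    (c01 := emb q c τ (-8) {RT.eR q (τ (-8))} + emb q c τ (-8) {RT.rho1 q (τ (-8))})
    (c02 := LL + railO q c τ O + L0)
    (c10 := PH_A2 D) (c11 := railE q c τ O)
    (c12 := emb q c τ 0 {RT.eL q (τ 0)} + emb q c τ 0 {RT.lam1 q (τ 0)})
    (c20 := emb q c τ (-4) {RT.eL q (τ (-4))}) (c21 := PH_B1 D) (c22 := PH_B2 D)
    (PH_A1_bd D)
    (by
      rw [bdl_add, PH_bdl_eR, PH_bdl_rho1]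
      linear_combination ((tstrip q c τ).one (PH_W1 q c τ (-8))) * h2)
    (by
      rw [bdl_add, bdl_add, bO, hLL, hL0, PH_bdl_legl _ W.h8, PH_bdl_leg0 _ W.h0,
        show (-8 : ZMod N) - 1 = -9 by ring]
      linear_combination ((tstrip q c τ).one (hub q c τ (-9)) +
        (tstrip q c τ).one (hub q c τ 0)) * h2)
    (PH_A2_bd D W.h4) bE
    (by
      rw [bdl_add, PH_bdl_eL, PH_bdl_lam1, show (0 : ZMod N) - 1 = -1 by ring]
      linear_combination ((tstrip q c τ).one (PH_V1 q c τ 0)) * h2)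
    (PH_bdl_eL _) (PH_B1_bd D) (PH_B2_bd D W.h4)
  rw [PH_L0 fA1 (PH_ind sA1 sE (by decide)), PH_L0 fA1 (PH_ind sA1 s12 (by decide)),
    PH_L0 f01 (PH_ind s01 sA2 (by decide)), PH_L0 f01 (PH_ind s01 s12 (by decide)),
    PH_L0' fA2 (PH_ind s02 sA2 (by decide)),
    PH_L0 fA1 (PH_ind sA1 sB1 (by decide)), PH_L0 fA1 (PH_ind sA1 sB2 (by decide)),
    PH_L0 f01 (PH_ind s01 sz (by decide)), PH_L0 f01 (PH_ind s01 sB2 (by decide)),
    PH_L0' fz (PH_ind s02 sz (by decide)), PH_L0' fB1 (PH_ind s02 sB1 (by decide)),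
    PH_L0 fA2 (PH_ind sA2 sB1 (by decide)), PH_L0 fA2 (PH_ind sA2 sB2 (by decide)),
    PH_L0' fz (PH_ind sE sz (by decide)), PH_L0' fB2 (PH_ind sE sB2 (by decide)),
    PH_L0 f12 (PH_ind s12 sz (by decide)), PH_L0 f12 (PH_ind s12 sB1 (by decide)),
    PS.L_add_left, PS.L_add_left,
    PH_L0 (PH_free8 W _) (PH_ind (PH_legl_sup hN D) sE (by decide)),
    PH_L0 (PH_free0 W _) (PH_ind (PH_leg0_sup D) sE (by decide))] at key
  simp only [zero_add, add_zero] at key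
  rw [← key]
  refine PS.L_symm P _ _ (fun e f he hf => ?_)
  obtain ⟨i, hi, hi', h⟩ := PH_rail_mem hN he
  obtain ⟨k, hk, hk', h'⟩ := PH_railO_mem hN hf
  exact hO.ind i k hi hk (Nat.even_iff.2 hi') (Nat.odd_iff.2 hk') e f h h'

theorem phi1P {q : ℕ} {c : Bool} {τ : ZMod N → RT} {P : (tstrip q c τ).PS}
    (W : Window q c τ P) (hW : (∃ j, τ j = .W) → 1 ≤ q)
    {O : ℕ → (tstrip q c τ).E → ZMod 2} (hO : Slots q c τ O)
    (hO1 : ∀ k, k ≤ N - 9 → k % 2 = 0 → Avoids (O k) (lv q c τ 0 (RT.v1 q (τ 0))))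
    (hO2 : ∀ k, k ≤ N - 9 → k % 2 = 0 → Avoids (O k) (lv q c τ (-8) (RT.w1 q (τ (-8)))))
    {R : (tstrip q c τ).E → ZMod 2} (hR : ORow q c τ R)
    (hR1 : Avoids R (hub q c τ (-1))) (hR8 : Avoids R (hub q c τ (-8)))
    (hind : ∀ k, k ≤ N - 9 → k % 2 = 0 → IndC (O k) R) :
    P.L (railE q c τ O) R = 1 := by
  have hN := W.big
  obtain ⟨D, -, -⟩ := exists_thru q c τ (by omega) hW (fun _ => 0) (fun _ => by omega)
  obtain ⟨bE, -⟩ := PH_bdl_rails W.odd hN hO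
  have h2 := PH_two (q := q) (c := c) (τ := τ)
  have sE : PH_Sup (PH_lab D) (railE q c τ O) [0, 3, 4] :=
    PH_railE_sup D W.odd hN hO _ (by decide) (by decide) (by decide)
      (Or.inr (PH_railE_avoid hN hO2)) (Or.inr (PH_railE_avoid hN hO1))
  have sR : PH_Sup (PH_lab D) R [0, 7, 8, 13, 14] :=
    PH_sup_outer D R _ (by decide) hR.inner (Or.inr hR1) (Or.inr hR8) (Or.inl (by decide))
      (Or.inl (by decide)) (Or.inl (by decide)) (Or.inl (by decide))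
  have f00 := PH_free0 W {RT.lam1 q (τ 0)}
  have f10 := PH_free_add (PH_B2_free W D) (PH_free0 W {RT.eL q (τ 0)})
  have f21 := PH_free8 W {RT.rho1 q (τ (-8))}
  have f22 := PH_free_add (PH_free8 W {RT.eR q (τ (-8))}) (PH_A1_free W D)
  have fz := PH_free4 W {RT.eL q (τ (-4))}
  have fA2 := PH_A2_free W D
  have fB1 := PH_B1_free W D
  have s00 := PH_lam1_sup hN D
  have s10 : PH_Sup (PH_lab D) (PH_B2 D + emb q c τ 0 {RT.eL q (τ 0)}) [5, 12, 6, 8] :=
    PH_sup_add (PH_sup_mono (PH_B2_sup hN D) (by decide))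
      (PH_sup_mono (PH_eL_sup D) (by decide))
  have s21 := PH_rho1_sup hN D
  have s22 : PH_Sup (PH_lab D) (emb q c τ (-8) {RT.eR q (τ (-8))} + PH_A1 D) [7, 1, 9, 2] :=
    PH_sup_add (PH_sup_mono (PH_eR_sup hN D) (by decide))
      (PH_sup_mono (PH_A1_sup hN D) (by decide))
  have sA2 := PH_A2_sup hN D
  have sB1 := PH_B1_sup hN D
  have sz := PH_z1_sup hN D
  have key := PH_K33 P (x0 := hub q c τ (-1)) (x1 := PH_EN q c τ (-4)) (x2 := PH_W1 q c τ (-8))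
    (y0 := PH_V1 q c τ 0) (y1 := hub q c τ (-8)) (y2 := PH_V1 q c τ (-4))
    (PH_lab_ne (PH_V10 D) (PH_H8 hN D) (by decide))
    (PH_lab_ne (PH_V10 D) (PH_V14 hN D) (by decide))
    (PH_lab_ne (PH_H8 hN D) (PH_V14 hN D) (by decide))
    (c00 := emb q c τ 0 {RT.lam1 q (τ 0)}) (c01 := railE q c τ O) (c02 := PH_A2 D)
    (c10 := PH_B2 D + emb q c τ 0 {RT.eL q (τ 0)}) (c11 := PH_B1 D)
    (c12 := emb q c τ (-4) {RT.eL q (τ (-4))})
    (c20 := R) (c21 := emb q c τ (-8) {RT.rho1 q (τ (-8))})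
    (c22 := emb q c τ (-8) {RT.eR q (τ (-8))} + PH_A1 D)
    (by
      rw [PH_bdl_lam1, show (0 : ZMod N) - 1 = -1 by ring, add_comm])
    bE (PH_A2_bd D W.h4)
    (by
      rw [bdl_add, PH_B2_bd D W.h4, PH_bdl_eL]
      linear_combination ((tstrip q c τ).one (PH_EN q c τ 0)) * h2)
    (PH_B1_bd D) (PH_bdl_eL _)
    (by rw [hR.bd, add_comm]; rfl)
    (PH_bdl_rho1 _)
    (by
      rw [bdl_add, PH_bdl_eR, PH_A1_bd D]
      linear_combination ((tstrip q c τ).one (PH_EX q c τ (-8))) * h2)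
  rw [PH_L0 f00 (PH_ind s00 sB1 (by decide)), PH_L0 f00 (PH_ind s00 sz (by decide)),
    PH_L0' f10 (PH_ind sE s10 (by decide)), PH_L0' fz (PH_ind sE sz (by decide)),
    PH_L0 fA2 (PH_ind sA2 s10 (by decide)), PH_L0 fA2 (PH_ind sA2 sB1 (by decide)),
    PH_L0 f00 (PH_ind s00 s21 (by decide)), PH_L0 f00 (PH_ind s00 s22 (by decide)),
    PH_L0' f22 (PH_ind sE s22 (by decide)), PH_L0 fA2 (PH_ind sA2 sR (by decide)),
    PH_L0 fA2 (PH_ind sA2 s21 (by decide)),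
    PH_L0 f10 (PH_ind s10 s21 (by decide)), PH_L0 f10 (PH_ind s10 s22 (by decide)),
    PH_L0 fB1 (PH_ind sB1 sR (by decide)), PH_L0 fB1 (PH_ind sB1 s22 (by decide)),
    PH_L0 fz (PH_ind sz sR (by decide)), PH_L0 fz (PH_ind sz s21 (by decide))] at key
  simp only [zero_add, add_zero] at key
  exact key

theorem phi2P {q : ℕ} {c : Bool} {τ : ZMod N → RT} {P : (tstrip q c τ).PS}
    (W : Window q c τ P) (hW : (∃ j, τ j = .W) → 1 ≤ q)
    {O : ℕ → (tstrip q c τ).E → ZMod 2} (hO : Slots q c τ O)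
    (hO1 : ∀ k, k ≤ N - 9 → k % 2 = 1 → Avoids (O k) (lv q c τ 0 (RT.v1 q (τ 0))))
    (hO2 : ∀ k, k ≤ N - 9 → k % 2 = 1 → Avoids (O k) (lv q c τ (-8) (RT.w1 q (τ (-8)))))
    {R : (tstrip q c τ).E → ZMod 2} (hR : ORow q c τ R)
    (hR0 : Avoids R (hub q c τ 0)) (hR9 : Avoids R (hub q c τ (-9)))
    (hind : ∀ k, k ≤ N - 9 → k % 2 = 1 → IndC (O k) R) :
    P.L (railO q c τ O) R = 1 := by
  have hN := W.big
  obtain ⟨D, -, -⟩ := exists_thru q c τ (by omega) hW (fun _ => 0) (fun _ => by omega)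
  obtain ⟨-, bO⟩ := PH_bdl_rails W.odd hN hO
  have h2 := PH_two (q := q) (c := c) (τ := τ)
  have sO : PH_Sup (PH_lab D) (railO q c τ O) [1, 14, 0, 13, 6] :=
    PH_railO_sup D hN hO _ (by decide) (by decide) (by decide)
      (Or.inr (PH_railO_avoid hN hO2)) (Or.inr (PH_railO_avoid hN hO1))
  have sR : PH_Sup (PH_lab D) R [0, 3, 4, 7, 8] :=
    PH_sup_outer D R _ (by decide) hR.inner (Or.inl (by decide)) (Or.inl (by decide))
      (Or.inl (by decide)) (Or.inl (by decide)) (Or.inr hR0) (Or.inr hR9)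
  set LL := emb q c τ (-8) (PH_legl q (τ (-8))) with hLL
  set L0 := emb q c τ 0 (PH_leg0 q (τ 0)) with hL0
  have f00 := PH_free0 W {RT.eL q (τ 0)}
  have f02 := PH_free_add (PH_A2_free W D) (PH_free0 W {RT.lam1 q (τ 0)})
  have fB2 := PH_B2_free W D
  have f11 := PH_free_add (PH_B1_free W D) (PH_free8 W {RT.rho1 q (τ (-8))})
  have fz := PH_free4 W {RT.eL q (τ (-4))}
  have f21 := PH_free8 W {RT.eR q (τ (-8))}
  have fA1 := PH_A1_free W D
  have s00 := PH_eL_sup D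
  have s02 : PH_Sup (PH_lab D) (PH_A2 D + emb q c τ 0 {RT.lam1 q (τ 0)}) [2, 10, 3, 8] :=
    PH_sup_add (PH_sup_mono (PH_A2_sup hN D) (by decide))
      (PH_sup_mono (PH_lam1_sup hN D) (by decide))
  have sB2 := PH_B2_sup hN D
  have s11 : PH_Sup (PH_lab D) (PH_B1 D + emb q c τ (-8) {RT.rho1 q (τ (-8))}) [4, 11, 5, 7] :=
    PH_sup_add (PH_sup_mono (PH_B1_sup hN D) (by decide))
      (PH_sup_mono (PH_rho1_sup hN D) (by decide))
  have sz := PH_z1_sup hN D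
  have s20 : PH_Sup (PH_lab D) (LL + railO q c τ O + L0) [1, 14, 0, 13, 6] :=
    PH_sup_add (PH_sup_add (PH_sup_mono (PH_legl_sup hN D) (by decide)) sO)
      (PH_sup_mono (PH_leg0_sup D) (by decide))
  have s21 := PH_eR_sup hN D
  have sA1 := PH_A1_sup hN D
  have key := PH_K33 P (x0 := PH_V1 q c τ 0) (x1 := PH_EN q c τ (-4)) (x2 := PH_EX q c τ (-8))
    (y0 := PH_EN q c τ 0) (y1 := PH_W1 q c τ (-8)) (y2 := PH_V1 q c τ (-4))
    (PH_lab_ne (PH_EN0 D) (PH_W18 hN D) (by decide))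
    (PH_lab_ne (PH_EN0 D) (PH_V14 hN D) (by decide))
    (PH_lab_ne (PH_W18 hN D) (PH_V14 hN D) (by decide))
    (c00 := emb q c τ 0 {RT.eL q (τ 0)}) (c01 := R)
    (c02 := PH_A2 D + emb q c τ 0 {RT.lam1 q (τ 0)})
    (c10 := PH_B2 D) (c11 := PH_B1 D + emb q c τ (-8) {RT.rho1 q (τ (-8))})
    (c12 := emb q c τ (-4) {RT.eL q (τ (-4))})
    (c20 := LL + railO q c τ O + L0) (c21 := emb q c τ (-8) {RT.eR q (τ (-8))})
    (c22 := PH_A1 D)
    (by rw [PH_bdl_eL, add_comm])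
    hR.bd
    (by
      rw [bdl_add, PH_A2_bd D W.h4, PH_bdl_lam1, show (0 : ZMod N) - 1 = -1 by ring]
      linear_combination ((tstrip q c τ).one (hub q c τ (-1))) * h2)
    (PH_B2_bd D W.h4)
    (by
      rw [bdl_add, PH_B1_bd D, PH_bdl_rho1]
      linear_combination ((tstrip q c τ).one (hub q c τ (-8))) * h2)
    (PH_bdl_eL _)
    (by
      rw [bdl_add, bdl_add, bO, hLL, hL0, PH_bdl_legl _ W.h8, PH_bdl_leg0 _ W.h0,
        show (-8 : ZMod N) - 1 = -9 by ring]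
      linear_combination ((tstrip q c τ).one (hub q c τ (-9)) +
        (tstrip q c τ).one (hub q c τ 0)) * h2)
    (PH_bdl_eR _) (PH_A1_bd D)
  rw [PH_L0 f00 (PH_ind s00 s11 (by decide)), PH_L0 f00 (PH_ind s00 sz (by decide)),
    PH_L0' fB2 (PH_ind sR sB2 (by decide)), PH_L0' fz (PH_ind sR sz (by decide)),
    PH_L0 f02 (PH_ind s02 sB2 (by decide)), PH_L0 f02 (PH_ind s02 s11 (by decide)),
    PH_L0 f00 (PH_ind s00 s21 (by decide)), PH_L0 f00 (PH_ind s00 sA1 (by decide)),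
    PH_L0' fA1 (PH_ind sR sA1 (by decide)), PH_L0 f02 (PH_ind s02 s20 (by decide)),
    PH_L0 f02 (PH_ind s02 s21 (by decide)),
    PH_L0 fB2 (PH_ind sB2 s21 (by decide)), PH_L0 fB2 (PH_ind sB2 sA1 (by decide)),
    PH_L0 f11 (PH_ind s11 s20 (by decide)), PH_L0 f11 (PH_ind s11 sA1 (by decide)),
    PH_L0 fz (PH_ind sz s20 (by decide)), PH_L0 fz (PH_ind sz s21 (by decide)),
    PS.L_add_right, PS.L_add_right,
    PH_L0' (PH_free8 W _) (PH_ind sR (PH_legl_sup hN D) (by decide)),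
    PH_L0' (PH_free0 W _) (PH_ind sR (PH_leg0_sup D) (by decide))] at key
  simp only [zero_add, add_zero] at key
  rw [← key]
  refine PS.L_symm P _ _ (fun e f he hf => ?_)
  obtain ⟨k, hk, hk', h⟩ := PH_railO_mem hN he
  exact hind k hk hk' e f h hf

end Pool.Agent.CC
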