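import Pool.Agent.Lib_helper74.CCF.C2d
import Pool.Agent.Lib_helper74.CCF.Core1b
import Pool.Agent.Lib_helper74.CCF.Phi

/-! CORE2, part e: the assembly. -/

namespace Pool.Agent.CC

open Gph

namespace C2

variable {N : ℕ} [NeZero N] {q : ℕ} {c : Bool} {τ : ZMod N → RT}

/-- The position of an edge. -/
def pos (q : ℕ) (c : Bool) (τ : ZMod N → RT) (e : (tstrip q c τ).E) : ℕ × ℕ :=
  match e with
  | .inl ⟨j, x⟩ => (j.val, ploc q (τ j) x)
  | .inr (.inl j) => (j.val + 1, 0)
  | .inr (.inr _) => (0, 0)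

/-- The row edges outside the window. -/
def RR (q : ℕ) (c : Bool) (τ : ZMod N → RT) (e : (tstrip q c τ).E) : Prop :=
  match e with
  | .inl ⟨j, x⟩ => RT.isRow q (τ j) x ∧ 1 ≤ j.val ∧ j.val ≤ N - 9
  | .inr (.inl j) => j.val ≤ N - 9
  | .inr (.inr _) => False

/-- Row edges below the cut in region `n`. -/
def LowP (q : ℕ) (c : Bool) (τ : ZMod N → RT) (a : ℕ → ℕ) (n : ℕ) (p : ℕ → Prop)
    (e : (tstrip q c τ).E) : Prop :=
  match e with
  | .inl ⟨j, x⟩ => RT.isRow q (τ j) x ∧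
      ((1 ≤ j.val ∧ j.val < n ∧ ploc q (τ j) x ≠ cutp q (a j.val) (τ j)) ∨
        (j.val = n ∧ p (ploc q (τ j) x)))
  | .inr (.inl j) => j.val < n
  | .inr (.inr _) => False

/-- Row edges above the cut in region `n`. -/
def HighP (q : ℕ) (c : Bool) (τ : ZMod N → RT) (a : ℕ → ℕ) (n : ℕ) (p : ℕ → Prop)
    (e : (tstrip q c τ).E) : Prop :=
  match e with
  | .inl ⟨j, x⟩ => RT.isRow q (τ j) x ∧
      ((n < j.val ∧ j.val ≤ N - 9 ∧ ploc q (τ j) x ≠ cutp q (a j.val) (τ j)) ∨
        (j.val = n ∧ p (ploc q (τ j) x)))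
  | .inr (.inl j) => n ≤ j.val ∧ j.val ≤ N - 9
  | .inr (.inr _) => False

theorem pos_inj (e f : (tstrip q c τ).E) (he : RR q c τ e) (hf : RR q c τ f)
    (h : pos q c τ e = pos q c τ f) : e = f := by
  rcases e with ⟨j, x⟩ | j | ⟨j, hc⟩
  · have he' : RT.isRow q (τ j) x ∧ 1 ≤ j.val ∧ j.val ≤ N - 9 := he
    have hb := row_bounds q (τ j) x he'.1
    rcases f with ⟨k, y⟩ | k | ⟨k, hc⟩
    · have hf' : RT.isRow q (τ k) y ∧ 1 ≤ k.val ∧ k.val ≤ N - 9 := hf
      have h' : (j.val, ploc q (τ j) x) = (k.val, ploc q (τ k) y) := h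
      rw [Prod.mk.injEq] at h'
      have hjk : j = k := ZMod.val_injective N h'.1
      subst hjk
      have := row_inj q (τ j) x y he'.1 hf'.1 h'.2
      subst this
      rfl
    · have h' : (j.val, ploc q (τ j) x) = (k.val + 1, 0) := h
      rw [Prod.mk.injEq] at h'
      omega
    · exact hf.elim
  · rcases f with ⟨k, y⟩ | k | ⟨k, hc⟩
    · have hf' : RT.isRow q (τ k) y ∧ 1 ≤ k.val ∧ k.val ≤ N - 9 := hf
      have hb := row_bounds q (τ k) y hf'.1
      have h' : (j.val + 1, 0) = (k.val, ploc q (τ k) y) := h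
      rw [Prod.mk.injEq] at h'
      omega
    · have h' : (j.val + 1, 0) = (k.val + 1, 0) := h
      rw [Prod.mk.injEq] at h'
      have hjk : j = k := ZMod.val_injective N (by omega)
      rw [hjk]
    · exact hf.elim
  · exact he.elim

theorem val_window {j : ZMod N} (hN : 16 ≤ N) (h : ¬ ∃ i : ℕ, i ≤ 9 ∧ j = -(i : ZMod N)) :
    1 ≤ j.val ∧ j.val ≤ N - 10 := by
  have hlt := ZMod.val_lt j
  by_contra hcon
  apply h
  by_cases h0 : j.val = 0
  · refine ⟨0, by omega, ?_⟩
    rw [(ZMod.val_eq_zero j).1 h0]; simp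
  · refine ⟨N - j.val, by omega, ?_⟩
    rw [Nat.cast_sub hlt.le, ZMod.natCast_self, ZMod.natCast_zmod_val]
    ring

section
variable {P : (tstrip q c τ).PS} (W : Window q c τ P) (hl : LegFree' q c τ P)

include W in
theorem nonfree_row {j : ZMod N} (h : ¬ Fr P (rowE q c τ j)) : 1 ≤ j.val ∧ j.val ≤ N - 10 :=
  val_window W.big (fun hi => h (Fr.of_free P (W.free _ hi)))

include W hl in
theorem nonfree_le {j : ZMod N} {x : ((τ j).loc q).E} (h : ¬ Fr P (le q c τ j x)) :
    1 ≤ j.val ∧ j.val ≤ N - 10 ∧ ¬ RT.fleg q (τ j) x := by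
  have h1 := val_window W.big (fun hi => h (Fr.of_free P (W.free _ hi)))
  exact ⟨h1.1, h1.2, fun hf => h (Fr.of_out P (hl j x hf))⟩

theorem full_val (a : ℕ → ℕ) (j : ZMod N) (x : ((τ j).loc q).E)
    (hx : ¬ RT.fleg q (τ j) x) : ind (x ∈ fe q τ a j) + ind (x ∈ fs q τ a j) =
    ind (RT.isRow q (τ j) x ∧ ploc q (τ j) x ≠ cutp q (a j.val) (τ j)) := by
  unfold fe fs
  rw [ind_congr (rows_eB q (a j.val) (τ j) x hx), ind_congr (rows_sA q (a j.val) (τ j) x hx),
    ind_add]
  · apply ind_congr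
    constructor
    · rintro (⟨h1, h2⟩ | ⟨h1, h2⟩)
      · exact ⟨h1, by omega⟩
      · exact ⟨h1, by omega⟩
    · rintro ⟨h1, h2⟩
      rcases lt_or_gt_of_ne h2 with h | h
      · exact Or.inl ⟨h1, h⟩
      · exact Or.inr ⟨h1, h⟩
  · rintro ⟨⟨-, h1⟩, -, h2⟩
    have h1' : ploc q (τ j) x < cutp q (a j.val) (τ j) := h1
    have h2' : cutp q (a j.val) (τ j) < ploc q (τ j) x := h2
    omega

include W hl in
theorem low_val (a : ℕ → ℕ) {n : ℕ} (hn1 : 1 ≤ n) (hn : n ≤ N - 9)
    (s : ∀ j, Finset ((τ j).loc q).E) (p : ℕ → Prop)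
    (hs : ∀ j : ZMod N, j.val = n → RowsOf q (τ j) (s j) p) (e : (tstrip q c τ).E)
    (he : ¬ Fr P e) : (Lam q c τ a n + emb q c τ (n : ZMod N) (s n)) e =
      ind (LowP q c τ a n p e) := by
  have hN := W.big
  rcases e with ⟨j, x⟩ | j | ⟨j, hc⟩
  · obtain ⟨h1, h2, h3⟩ := nonfree_le W hl (show ¬ Fr P (le q c τ j x) from he)
    show (Lam q c τ a n + emb q c τ (n : ZMod N) (s n)) (le q c τ j x) = _
    rw [Pi.add_apply, Lam_le a (by omega) j h1, emb_le s]
    have hjn : j = (n : ZMod N) ↔ j.val = n := eq_cast_iff (by omega)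
    show _ = ind (RT.isRow q (τ j) x ∧
      ((1 ≤ j.val ∧ j.val < n ∧ ploc q (τ j) x ≠ cutp q (a j.val) (τ j)) ∨
        (j.val = n ∧ p (ploc q (τ j) x))))
    rcases lt_trichotomy j.val n with h | h | h
    · rw [ind_false (p := j = (n : ZMod N) ∧ x ∈ s j) (by rw [hjn]; omega), add_zero,
        ind_congr (and_iff_right h), ind_congr (and_iff_right h), full_val a j x h3]
      apply ind_congr
      constructor
      · rintro ⟨h4, h5⟩; exact ⟨h4, Or.inl ⟨h1, h, h5⟩⟩
      · rintro ⟨h4, ⟨-, -, h5⟩ | ⟨h5, -⟩⟩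
        · exact ⟨h4, h5⟩
        · omega
    · rw [ind_false (p := j.val < n ∧ x ∈ fe q τ a j) (by omega),
        ind_false (p := j.val < n ∧ x ∈ fs q τ a j) (by omega), add_zero, zero_add]
      apply ind_congr
      rw [hjn, hs j h x h3]
      constructor
      · rintro ⟨h4, h5, h6⟩; exact ⟨h5, Or.inr ⟨h4, h6⟩⟩
      · rintro ⟨h4, ⟨-, h5, -⟩ | ⟨h5, h6⟩⟩
        · omega
        · exact ⟨h5, h4, h6⟩
    · rw [ind_false (p := j = (n : ZMod N) ∧ x ∈ s j) (by rw [hjn]; omega),
        ind_false (p := j.val < n ∧ x ∈ fe q τ a j) (by omega),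
        ind_false (p := j.val < n ∧ x ∈ fs q τ a j) (by omega), add_zero, zero_add]
      symm
      apply ind_false
      rintro ⟨h4, ⟨-, h5, -⟩ | ⟨h5, h6⟩⟩ <;> omega
  · show (Lam q c τ a n + emb q c τ (n : ZMod N) (s n)) (rowE q c τ j) = _
    rw [Pi.add_apply, Lam_row a hn1 (by omega), emb_row, add_zero]
    rfl
  · show (Lam q c τ a n + emb q c τ (n : ZMod N) (s n)) (Sum.inr (Sum.inr ⟨j, hc⟩)) = _
    rw [Pi.add_apply, Lam_by, emb_by, add_zero]
    symm
    exact ind_false (fun h => h)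

include W hl in
theorem high_val (a : ℕ → ℕ) {n : ℕ} (hn1 : 1 ≤ n) (hn : n ≤ N - 9)
    (s : ∀ j, Finset ((τ j).loc q).E) (p : ℕ → Prop)
    (hs : ∀ j : ZMod N, j.val = n → RowsOf q (τ j) (s j) p) (e : (tstrip q c τ).E)
    (he : ¬ Fr P e) : (emb q c τ (n : ZMod N) (s n) + Rho q c τ a n) e =
      ind (HighP q c τ a n p e) := by
  have hN := W.big
  rcases e with ⟨j, x⟩ | j | ⟨j, hc⟩
  · obtain ⟨h1, h2, h3⟩ := nonfree_le W hl (show ¬ Fr P (le q c τ j x) from he)
    show (emb q c τ (n : ZMod N) (s n) + Rho q c τ a n) (le q c τ j x) = _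
    rw [Pi.add_apply, Rho_le hN a j (by omega), emb_le s]
    have hjn : j = (n : ZMod N) ↔ j.val = n := eq_cast_iff (by omega)
    show _ = ind (RT.isRow q (τ j) x ∧
      ((n < j.val ∧ j.val ≤ N - 9 ∧ ploc q (τ j) x ≠ cutp q (a j.val) (τ j)) ∨
        (j.val = n ∧ p (ploc q (τ j) x))))
    rcases lt_trichotomy j.val n with h | h | h
    · rw [ind_false (p := j = (n : ZMod N) ∧ x ∈ s j) (by rw [hjn]; omega),
        ind_false (p := n < j.val ∧ x ∈ fe q τ a j) (by omega),
        ind_false (p := n < j.val ∧ x ∈ fs q τ a j) (by omega), add_zero, zero_add]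
      symm
      apply ind_false
      rintro ⟨h4, ⟨h5, -⟩ | ⟨h5, h6⟩⟩ <;> omega
    · rw [ind_false (p := n < j.val ∧ x ∈ fe q τ a j) (by omega),
        ind_false (p := n < j.val ∧ x ∈ fs q τ a j) (by omega), add_zero, add_zero]
      apply ind_congr
      rw [hjn, hs j h x h3]
      constructor
      · rintro ⟨h4, h5, h6⟩; exact ⟨h5, Or.inr ⟨h4, h6⟩⟩
      · rintro ⟨h4, ⟨h5, -⟩ | ⟨h5, h6⟩⟩
        · omega
        · exact ⟨h5, h4, h6⟩
    · rw [ind_false (p := j = (n : ZMod N) ∧ x ∈ s j) (by rw [hjn]; omega), zero_add,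
        ind_congr (and_iff_right h), ind_congr (and_iff_right h), full_val a j x h3]
      apply ind_congr
      constructor
      · rintro ⟨h4, h5⟩; exact ⟨h4, Or.inl ⟨h, by omega, h5⟩⟩
      · rintro ⟨h4, ⟨-, -, h5⟩ | ⟨h5, -⟩⟩
        · exact ⟨h4, h5⟩
        · omega
  · obtain ⟨h1, h2⟩ := nonfree_row W (show ¬ Fr P (rowE q c τ j) from he)
    show (emb q c τ (n : ZMod N) (s n) + Rho q c τ a n) (rowE q c τ j) = _
    rw [Pi.add_apply, Rho_row hN a (by omega) j (by omega), emb_row, zero_add]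
    apply ind_congr
    constructor
    · intro h; exact ⟨h, by omega⟩
    · intro h; exact h.1
  · show (emb q c τ (n : ZMod N) (s n) + Rho q c τ a n) (Sum.inr (Sum.inr ⟨j, hc⟩)) = _
    rw [Pi.add_apply, Rho_by, emb_by, add_zero]
    symm
    exact ind_false (fun h => h)

theorem LI_zero {low high : (tstrip q c τ).E → ZMod 2} {p : (tstrip q c τ).V → Prop} (n : ℕ)
    (h1 : (tstrip q c τ).bdl low = 0) (h2 : (tstrip q c τ).bdl high = 0) (hs : SuppIn low p)
    (hs' : SuppIn high (fun v => ¬ p v)) (hE : EdgeIn low (LowE q c τ n))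
    (hE' : EdgeIn high (HighE q c τ n)) : LI P low high = 0 := by
  rw [← L_eq_LI P (indC_of hs hs') (not_same hE hE')]
  exact P.L_cycle _ _ h1 h2

variable (hW : (∃ j, τ j = .W) → 1 ≤ q) {a : ℕ → ℕ} (ha : ∀ n, a n < q + 2)
include W hW ha

/-- The cycles for a cut inside the region `n`. -/
theorem zero_in {n i i' : ℕ} (hn1 : 1 ≤ n) (hn : n ≤ N - 9) (hi : i < q + 2) (hi' : i' < q + 2)
    (h1 : cutA q i (τ (n : ZMod N)) ≤ cutB q i' (τ (n : ZMod N)))
    (h2 : cutB q i' (τ (n : ZMod N)) ≤ mm q (τ (n : ZMod N)))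
    (h3 : 1 ≤ cutA q i (τ (n : ZMod N))) :
    LI P (Lam q c τ a n + emb q c τ (n : ZMod N) (RT.eA q i (τ (n : ZMod N))))
      (emb q c τ (n : ZMod N) (RT.sB q i' (τ (n : ZMod N))) + Rho q c τ a n) = 0 := by
  have hN := W.big
  have hd : ∀ x : ZMod 2, x + x = 0 := by decide
  have hv : ((n : ℕ) : ZMod N).val = n := ZMod.val_natCast_of_lt (by omega)
  refine LI_zero (p := Below q c τ n (cutA q i (τ (n : ZMod N)))) n ?_ ?_ ?_ ?_
    (EdgeIn.add (lowE_Lam a hn1 (by omega))
      (edge_emb (fun x hx => Or.inr ⟨hv, part_eA q i _ x hx⟩)))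
    (EdgeIn.add (edge_emb (fun x hx => Or.inr ⟨hv, part_sB q i' _ x hx⟩))
      (highE_Rho hN a hn le_rfl))
  · rw [bdl_add, bdl_Lam hN hW ha hn1, bdl_eA' hN hW _ hi]
    funext v
    simp only [Pi.add_apply, Pi.zero_apply]
    linear_combination hd ((tstrip q c τ).one (en' q c τ (n : ZMod N)) v) +
      hd ((tstrip q c τ).one (hub q c τ ((n : ZMod N) - 1)) v)
  · rw [bdl_add, bdl_Rho hN hW ha hn, bdl_sB' hN hW _ hi']
    funext v
    simp only [Pi.add_apply, Pi.zero_apply]
    linear_combination hd ((tstrip q c τ).one (ex' q c τ (n : ZMod N)) v) +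
      hd ((tstrip q c τ).one (hub q c τ (n : ZMod N)) v)
  · refine SuppIn.add (supp_Lam a hn1 (by omega) h3) (supp_emb (fun x hx => ?_))
    have := ends_eA q i (τ (n : ZMod N)) x hx
    exact ⟨below_loc hv hn1 _ this.1, below_loc hv hn1 _ this.2⟩
  · refine SuppIn.add (supp_emb (fun x hx => ?_)) (supp_Rho hN a hn (Or.inr ⟨rfl, by omega⟩))
    have := ends_sB q i' (τ (n : ZMod N)) x hx
    have hmono : ∀ y, EndP q (τ (n : ZMod N)) (fun p => cutB q i' (τ (n : ZMod N)) < p) False True y →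
        EndP q (τ (n : ZMod N)) (fun p => cutA q i (τ (n : ZMod N)) < p) False True y := by
      rintro (u | (_ | _)) h
      · exact lt_of_le_of_lt h1 h
      · exact h
      · exact h
    exact ⟨above_loc hv _ (hmono _ this.1), above_loc hv _ (hmono _ this.2)⟩

omit hW ha W in
theorem bdl_one (n : ZMod N) (x : ((τ n).loc q).E) : (tstrip q c τ).bdl (emb q c τ n {x}) =
    (tstrip q c τ).one (locEnd (fun j => (τ j).loc q) n (((τ n).loc q).a x)) +
    (tstrip q c τ).one (locEnd (fun j => (τ j).loc q) n (((τ n).loc q).b x)) := by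
  unfold emb
  rw [Finset.image_singleton, bdl_chi]
  funext v
  unfold Gph.bd
  rw [Finset.sum_singleton]
  rfl

omit hW ha W in
theorem bdl_eRrho (n : ZMod N) : (tstrip q c τ).bdl (emb q c τ n {RT.eR q (τ n)} +
    emb q c τ n {RT.rho1 q (τ n)}) = (tstrip q c τ).one (ex' q c τ n) +
      (tstrip q c τ).one (hub q c τ n) := by
  have hd : ∀ x : ZMod 2, x + x = 0 := by decide
  rw [bdl_add, bdl_one, bdl_one]
  have h1 := ends_rho1 q (τ n)
  have e1 : locEnd (fun j => (τ j).loc q) n (((τ n).loc q).a (RT.rho1 q (τ n))) =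
      lv q c τ n (RT.w1 q (τ n)) := by rw [h1.1]; rfl
  have e2 : locEnd (fun j => (τ j).loc q) n (((τ n).loc q).b (RT.rho1 q (τ n))) =
      hub q c τ n := by rw [h1.2]; rfl
  rcases ends_eR q (τ n) with h2 | h2
  · have e3 : locEnd (fun j => (τ j).loc q) n (((τ n).loc q).a (RT.eR q (τ n))) =
        lv q c τ n (RT.w1 q (τ n)) := by rw [h2.1]; rfl
    have e4 : locEnd (fun j => (τ j).loc q) n (((τ n).loc q).b (RT.eR q (τ n))) =
        ex' q c τ n := by rw [h2.2]; rfl
    rw [e1, e2, e3, e4]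
    funext v
    simp only [Pi.add_apply]
    linear_combination hd ((tstrip q c τ).one (lv q c τ n (RT.w1 q (τ n))) v)
  · have e3 : locEnd (fun j => (τ j).loc q) n (((τ n).loc q).b (RT.eR q (τ n))) =
        lv q c τ n (RT.w1 q (τ n)) := by rw [h2.2]; rfl
    have e4 : locEnd (fun j => (τ j).loc q) n (((τ n).loc q).a (RT.eR q (τ n))) =
        ex' q c τ n := by rw [h2.1]; rfl
    rw [e1, e2, e3, e4]
    funext v
    simp only [Pi.add_apply]
    linear_combination hd ((tstrip q c τ).one (lv q c τ n (RT.w1 q (τ n))) v)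

omit hW ha W in
theorem bdl_eLlam (n : ZMod N) : (tstrip q c τ).bdl (emb q c τ n {RT.eL q (τ n)} +
    emb q c τ n {RT.lam1 q (τ n)}) = (tstrip q c τ).one (en' q c τ n) +
      (tstrip q c τ).one (hub q c τ (n - 1)) := by
  have hd : ∀ x : ZMod 2, x + x = 0 := by decide
  rw [bdl_add, bdl_one, bdl_one]
  have h1 := ends_lam1 q (τ n)
  have e1 : locEnd (fun j => (τ j).loc q) n (((τ n).loc q).a (RT.lam1 q (τ n))) =
      lv q c τ n (RT.v1 q (τ n)) := by rw [h1.1]; rfl
  have e2 : locEnd (fun j => (τ j).loc q) n (((τ n).loc q).b (RT.lam1 q (τ n))) =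
      hub q c τ (n - 1) := by rw [h1.2]; rfl
  have h2 := ends_eL q (τ n)
  have e3 : locEnd (fun j => (τ j).loc q) n (((τ n).loc q).b (RT.eL q (τ n))) =
      lv q c τ n (RT.v1 q (τ n)) := by rw [h2.2]; rfl
  have e4 : locEnd (fun j => (τ j).loc q) n (((τ n).loc q).a (RT.eL q (τ n))) =
      en' q c τ n := by rw [h2.1]; rfl
  rw [e1, e2, e3, e4]
  funext v
  simp only [Pi.add_apply]
  linear_combination hd ((tstrip q c τ).one (lv q c τ n (RT.v1 q (τ n))) v)

/-- The cycles for the left side of a `T` region `n + 1`. -/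
theorem zero_left {n : ℕ} (hn1 : 1 ≤ n) (hn : n + 1 ≤ N - 9)
    (hT : τ ((n + 1 : ℕ) : ZMod N) = .T) :
    LI P (Lam q c τ a n + (full q c τ a (n : ZMod N) +
        (emb q c τ (n : ZMod N) {RT.eR q (τ (n : ZMod N))} +
          emb q c τ (n : ZMod N) {RT.rho1 q (τ (n : ZMod N))})))
      (emb q c τ ((n + 1 : ℕ) : ZMod N) (RT.sB q 0 (τ ((n + 1 : ℕ) : ZMod N))) +
        Rho q c τ a (n + 1)) = 0 := by
  have hN := W.big
  have hd : ∀ x : ZMod 2, x + x = 0 := by decide
  have hv : ((n : ℕ) : ZMod N).val = n := ZMod.val_natCast_of_lt (by omega)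
  have hv' : ((n + 1 : ℕ) : ZMod N).val = n + 1 := ZMod.val_natCast_of_lt (by omega)
  have hloc : ∀ s : Finset ((τ (n : ZMod N)).loc q).E,
      SuppIn (emb q c τ (n : ZMod N) s) (Below q c τ (n + 1) 0) := fun s =>
    supp_emb (fun x _ => ⟨below_lt (by omega) (by omega) _, below_lt (by omega) (by omega) _⟩)
  have hmono : ∀ e, LowE q c τ n e → LowE q c τ (n + 1) e := by
    rintro (⟨j, x⟩ | e) h
    · rcases h with h | ⟨h, -⟩
      · exact Or.inl (Nat.lt_succ_of_lt h)
      · exact Or.inl (by omega)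
    · trivial
  refine LI_zero (p := Below q c τ (n + 1) 0) (n + 1) ?_ ?_ ?_ ?_
    (EdgeIn.add (fun e he => hmono e (lowE_Lam a hn1 (by omega) e he))
      (EdgeIn.add (EdgeIn.add (lowE_lt (by omega) _) (lowE_lt (by omega) _))
        (EdgeIn.add (lowE_lt (by omega) _) (lowE_lt (by omega) _))))
    (EdgeIn.add (edge_emb (fun x hx => Or.inr ⟨hv', part_sB q 0 _ x hx⟩))
      (highE_Rho hN a hn le_rfl))
  · rw [bdl_add, bdl_Lam hN hW ha hn1, bdl_add, bdl_full hN hW ha, bdl_eRrho]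
    funext v
    simp only [Pi.add_apply, Pi.zero_apply]
    linear_combination hd ((tstrip q c τ).one (en' q c τ (n : ZMod N)) v) +
      hd ((tstrip q c τ).one (hub q c τ ((n : ZMod N) - 1)) v) +
      hd ((tstrip q c τ).one (ex' q c τ (n : ZMod N)) v) +
      hd ((tstrip q c τ).one (hub q c τ (n : ZMod N)) v)
  · rw [bdl_add, bdl_Rho hN hW ha hn, bdl_sB' hN hW _ (by omega)]
    funext v
    simp only [Pi.add_apply, Pi.zero_apply]
    linear_combination hd ((tstrip q c τ).one (ex' q c τ ((n + 1 : ℕ) : ZMod N)) v) +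
      hd ((tstrip q c τ).one (hub q c τ ((n + 1 : ℕ) : ZMod N)) v)
  · refine SuppIn.add ((supp_Lam a hn1 (by omega) le_rfl).mono ?_)
      (SuppIn.add (SuppIn.add (hloc _) (hloc _)) (SuppIn.add (hloc _) (hloc _)))
    rintro (j | ⟨j, u⟩) h
    · exact Nat.lt_succ_of_lt h
    · rcases h with h | ⟨h, -⟩
      · exact Or.inl (Nat.lt_succ_of_lt h)
      · exact Or.inl (by omega)
  · refine SuppIn.add (supp_emb (fun x hx => ?_))
      (supp_Rho hN a hn (Or.inr ⟨rfl, Nat.zero_le _⟩))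
    have := ends_sB q 0 (τ ((n + 1 : ℕ) : ZMod N)) x hx
    have hmono : ∀ y, EndP q (τ ((n + 1 : ℕ) : ZMod N))
        (fun p => cutB q 0 (τ ((n + 1 : ℕ) : ZMod N)) < p) False True y →
        EndP q (τ ((n + 1 : ℕ) : ZMod N)) (fun p => 0 < p) False True y := by
      rintro (u | (_ | _)) h
      · exact lt_of_le_of_lt (Nat.zero_le _) h
      · exact h
      · exact h
    exact ⟨above_loc hv' _ (hmono _ this.1), above_loc hv' _ (hmono _ this.2)⟩

/-- The cycles for the right side of a `T` region `j`. -/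
theorem zero_right {j : ℕ} (hj1 : 1 ≤ j) (hj : j + 1 ≤ N - 9) (hT : τ (j : ZMod N) = .T) :
    LI P (Lam q c τ a j + emb q c τ (j : ZMod N) (RT.eA q (q + 1) (τ (j : ZMod N))))
      ((full q c τ a ((j + 1 : ℕ) : ZMod N) +
        (emb q c τ ((j + 1 : ℕ) : ZMod N) {RT.eL q (τ ((j + 1 : ℕ) : ZMod N))} +
          emb q c τ ((j + 1 : ℕ) : ZMod N) {RT.lam1 q (τ ((j + 1 : ℕ) : ZMod N))})) +
        Rho q c τ a (j + 1)) = 0 := by
  have hN := W.big
  have hd : ∀ x : ZMod 2, x + x = 0 := by decide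
  have hv : ((j : ℕ) : ZMod N).val = j := ZMod.val_natCast_of_lt (by omega)
  have hv' : ((j + 1 : ℕ) : ZMod N).val = j + 1 := ZMod.val_natCast_of_lt (by omega)
  have h1 : 1 ≤ cutA q (q + 1) (τ (j : ZMod N)) := by rw [hT]; show 1 ≤ 2 + 2 * (q + 1); omega
  have hloc : ∀ s : Finset ((τ ((j + 1 : ℕ) : ZMod N)).loc q).E,
      SuppIn (emb q c τ ((j + 1 : ℕ) : ZMod N) s)
        (fun v => ¬ Below q c τ j (cutA q (q + 1) (τ (j : ZMod N))) v) := fun s =>
    supp_emb (fun x _ => ⟨above_gt (by omega) _, above_gt (by omega) _⟩)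
  refine LI_zero (p := Below q c τ j (cutA q (q + 1) (τ (j : ZMod N)))) j ?_ ?_ ?_ ?_
    (EdgeIn.add (lowE_Lam a hj1 (by omega))
      (edge_emb (fun x hx => Or.inr ⟨hv, part_eA q (q + 1) _ x hx⟩)))
    (EdgeIn.add (EdgeIn.add (EdgeIn.add (highE_gt (by omega) _) (highE_gt (by omega) _))
        (EdgeIn.add (highE_gt (by omega) _) (highE_gt (by omega) _)))
      (highE_Rho hN a hj (Nat.le_succ _)))
  · rw [bdl_add, bdl_Lam hN hW ha hj1, bdl_eA' hN hW _ (by omega)]
    funext v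
    simp only [Pi.add_apply, Pi.zero_apply]
    linear_combination hd ((tstrip q c τ).one (en' q c τ (j : ZMod N)) v) +
      hd ((tstrip q c τ).one (hub q c τ ((j : ZMod N) - 1)) v)
  · rw [bdl_add, bdl_Rho hN hW ha hj, bdl_add, bdl_full hN hW ha, bdl_eLlam]
    funext v
    simp only [Pi.add_apply, Pi.zero_apply]
    linear_combination hd ((tstrip q c τ).one (ex' q c τ ((j + 1 : ℕ) : ZMod N)) v) +
      hd ((tstrip q c τ).one (hub q c τ ((j + 1 : ℕ) : ZMod N)) v) +
      hd ((tstrip q c τ).one (en' q c τ ((j + 1 : ℕ) : ZMod N)) v) +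
      hd ((tstrip q c τ).one (hub q c τ (((j + 1 : ℕ) : ZMod N) - 1)) v)
  · refine SuppIn.add (supp_Lam a hj1 (by omega) h1) (supp_emb (fun x hx => ?_))
    have := ends_eA q (q + 1) (τ (j : ZMod N)) x hx
    exact ⟨below_loc hv hj1 _ this.1, below_loc hv hj1 _ this.2⟩
  · exact SuppIn.add (SuppIn.add (SuppIn.add (hloc _) (hloc _)) (SuppIn.add (hloc _) (hloc _)))
      (supp_Rho hN a hj (Or.inl (Nat.lt_succ_self _)))

end

/-! values of the special chains -/

section
variable {P : (tstrip q c τ).PS} (W : Window q c τ P) (hl : LegFree' q c τ P)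
include W hl

theorem left_val (a : ℕ → ℕ) {n : ℕ} (hn1 : 1 ≤ n) (hn : n ≤ N - 9) (e : (tstrip q c τ).E)
    (he : ¬ Fr P e) : (Lam q c τ a n + (full q c τ a (n : ZMod N) +
        (emb q c τ (n : ZMod N) {RT.eR q (τ (n : ZMod N))} +
          emb q c τ (n : ZMod N) {RT.rho1 q (τ (n : ZMod N))}))) e =
      ind (LowP q c τ a n (fun p => p ≠ cutp q (a n) (τ (n : ZMod N)) ∧ p < mm q (τ (n : ZMod N))) e) +
      ind (cutp q (a n) (τ (n : ZMod N)) = mm q (τ (n : ZMod N)) ∧
        e = le q c τ (n : ZMod N) (RT.eR q (τ (n : ZMod N)))) := by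
  have hN := W.big
  rcases e with ⟨j, x⟩ | j | ⟨j, hc⟩
  · obtain ⟨h1, h2, h3⟩ := nonfree_le W hl (show ¬ Fr P (le q c τ j x) from he)
    show (Lam q c τ a n + (full q c τ a (n : ZMod N) +
        (emb q c τ (n : ZMod N) {RT.eR q (τ (n : ZMod N))} +
          emb q c τ (n : ZMod N) {RT.rho1 q (τ (n : ZMod N))}))) (le q c τ j x) = _
    rw [Pi.add_apply, Pi.add_apply, Pi.add_apply, Lam_le a (by omega) j h1, full_le,
      emb_le (fun j => {RT.eR q (τ j)}), emb_le (fun j => {RT.rho1 q (τ j)})]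
    have hjn : j = (n : ZMod N) ↔ j.val = n := eq_cast_iff (by omega)
    show _ = ind (RT.isRow q (τ j) x ∧
      ((1 ≤ j.val ∧ j.val < n ∧ ploc q (τ j) x ≠ cutp q (a j.val) (τ j)) ∨
        (j.val = n ∧ (ploc q (τ j) x ≠ cutp q (a n) (τ (n : ZMod N)) ∧
          ploc q (τ j) x < mm q (τ (n : ZMod N)))))) +
      ind (cutp q (a n) (τ (n : ZMod N)) = mm q (τ (n : ZMod N)) ∧
        le q c τ j x = le q c τ (n : ZMod N) (RT.eR q (τ (n : ZMod N))))
    have hdist : j ≠ (n : ZMod N) → ¬ (le q c τ j x = le q c τ (n : ZMod N) (RT.eR q (τ (n : ZMod N)))) := by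
      intro h h'
      exact h (Sigma.mk.inj_iff.1 (Sum.inl.inj h')).1
    by_cases h : j.val = n
    · have hjn' : j = (n : ZMod N) := hjn.2 h
      have han : a n = a j.val := by rw [h]
      subst hjn'
      rw [han]
      have h3' : x ≠ RT.rho1 q (τ (n : ZMod N)) := fun hx => h3 (hx ▸ fleg_rho1 q _)
      rw [ind_false (p := (n : ZMod N).val < n ∧ x ∈ fe q τ a (n : ZMod N)) (by omega),
        ind_false (p := (n : ZMod N).val < n ∧ x ∈ fs q τ a (n : ZMod N)) (by omega),
        ind_false (p := (n : ZMod N) = (n : ZMod N) ∧ x ∈ ({RT.rho1 q (τ (n : ZMod N))} :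
          Finset ((τ (n : ZMod N)).loc q).E)) (fun h => h3' (Finset.mem_singleton.1 h.2)),
        ind_congr (and_iff_right (rfl : (n : ZMod N) = n)),
        ind_congr (and_iff_right (rfl : (n : ZMod N) = n)), full_val a _ x h3, add_zero, add_zero,
        zero_add]
      have hx : x ∈ ({RT.eR q (τ (n : ZMod N))} : Finset ((τ (n : ZMod N)).loc q).E) ↔
          x = RT.eR q (τ (n : ZMod N)) := Finset.mem_singleton
      have hx' : le q c τ (n : ZMod N) x = le q c τ (n : ZMod N) (RT.eR q (τ (n : ZMod N))) ↔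
          x = RT.eR q (τ (n : ZMod N)) := by
        constructor
        · intro h'
          exact eq_of_heq (Sigma.mk.inj_iff.1 (Sum.inl.inj h')).2
        · rintro rfl; rfl
      have hR := row_eR q (τ (n : ZMod N))
      by_cases hxR : x = RT.eR q (τ (n : ZMod N))
      · subst hxR
        have hR2 := hR.2
        have k2 : ind (RT.isRow q (τ (n : ZMod N)) (RT.eR q (τ (n : ZMod N))) ∧
            ((1 ≤ (n : ZMod N).val ∧ (n : ZMod N).val < n ∧
              ploc q (τ (n : ZMod N)) (RT.eR q (τ (n : ZMod N))) ≠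
                cutp q (a (n : ZMod N).val) (τ (n : ZMod N))) ∨
            ((n : ZMod N).val = n ∧ (ploc q (τ (n : ZMod N)) (RT.eR q (τ (n : ZMod N))) ≠
                cutp q (a (n : ZMod N).val) (τ (n : ZMod N)) ∧
              ploc q (τ (n : ZMod N)) (RT.eR q (τ (n : ZMod N))) < mm q (τ (n : ZMod N)))))) = 0 :=
          ind_false (by rintro ⟨-, ⟨-, h4, -⟩ | ⟨-, -, h4⟩⟩ <;> omega)
        have k1 : ind ((n : ZMod N) = n ∧ RT.eR q (τ (n : ZMod N)) ∈ ({RT.eR q (τ (n : ZMod N))} :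
          Finset ((τ (n : ZMod N)).loc q).E)) = 1 := ind_true ⟨rfl, Finset.mem_singleton_self _⟩
        rw [k2, k1]
        by_cases hc' : cutp q (a (n : ZMod N).val) (τ (n : ZMod N)) = mm q (τ (n : ZMod N))
        · have k3 : ind (RT.isRow q (τ (n : ZMod N)) (RT.eR q (τ (n : ZMod N))) ∧
              ploc q (τ (n : ZMod N)) (RT.eR q (τ (n : ZMod N))) ≠
                cutp q (a (n : ZMod N).val) (τ (n : ZMod N))) = 0 :=
            ind_false (fun h => h.2 (by rw [hR2, hc']))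
          have k4 : ind (cutp q (a (n : ZMod N).val) (τ (n : ZMod N)) = mm q (τ (n : ZMod N)) ∧
              le q c τ (n : ZMod N) (RT.eR q (τ (n : ZMod N))) =
                le q c τ (n : ZMod N) (RT.eR q (τ (n : ZMod N)))) = 1 := ind_true ⟨hc', rfl⟩
          rw [k3, k4]
        · have k3 : ind (RT.isRow q (τ (n : ZMod N)) (RT.eR q (τ (n : ZMod N))) ∧
              ploc q (τ (n : ZMod N)) (RT.eR q (τ (n : ZMod N))) ≠
                cutp q (a (n : ZMod N).val) (τ (n : ZMod N))) = 1 :=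
            ind_true ⟨hR.1, fun h => hc' (by rw [← h, hR2])⟩
          have k4 : ind (cutp q (a (n : ZMod N).val) (τ (n : ZMod N)) = mm q (τ (n : ZMod N)) ∧
              le q c τ (n : ZMod N) (RT.eR q (τ (n : ZMod N))) =
                le q c τ (n : ZMod N) (RT.eR q (τ (n : ZMod N)))) = 0 :=
            ind_false (fun h => hc' h.1)
          rw [k3, k4]
          decide
      · rw [ind_false (p := (n : ZMod N) = n ∧ x ∈ ({RT.eR q (τ (n : ZMod N))} :
          Finset ((τ (n : ZMod N)).loc q).E)) (by rw [hx]; tauto), add_zero,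
          ind_false (p := cutp q _ _ = _ ∧ _) (by rw [hx']; tauto), add_zero]
        apply ind_congr
        constructor
        · rintro ⟨h4, h5⟩
          refine ⟨h4, Or.inr ⟨h, h5, ?_⟩⟩
          have h6 := row_bounds q _ x h4
          have h7 : ploc q (τ (n : ZMod N)) x ≠ mm q (τ (n : ZMod N)) := by
            intro h8
            exact hxR (row_inj q _ _ _ h4 hR.1 (by rw [h8, hR.2]))
          omega
        · rintro ⟨h4, ⟨-, h5, -⟩ | ⟨-, h5, -⟩⟩
          · omega
          · exact ⟨h4, h5⟩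
    · have hne : j ≠ (n : ZMod N) := fun h' => h (hjn.1 h')
      rw [ind_false (p := j = (n : ZMod N) ∧ x ∈ fe q τ a j) (fun h' => hne h'.1),
        ind_false (p := j = (n : ZMod N) ∧ x ∈ fs q τ a j) (fun h' => hne h'.1),
        ind_false (p := j = (n : ZMod N) ∧ x ∈ ({RT.eR q (τ j)} : Finset ((τ j).loc q).E))
          (fun h' => hne h'.1),
        ind_false (p := j = (n : ZMod N) ∧ x ∈ ({RT.rho1 q (τ j)} : Finset ((τ j).loc q).E))
          (fun h' => hne h'.1),
        ind_false (p := cutp q _ _ = _ ∧ _) (fun h' => hdist hne h'.2), add_zero, add_zero,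
        add_zero, add_zero]
      by_cases hlt : j.val < n
      · rw [ind_congr (and_iff_right hlt), ind_congr (and_iff_right hlt), full_val a j x h3]
        apply ind_congr
        constructor
        · rintro ⟨h4, h5⟩; exact ⟨h4, Or.inl ⟨h1, hlt, h5⟩⟩
        · rintro ⟨h4, ⟨-, -, h5⟩ | ⟨h5, -⟩⟩
          · exact ⟨h4, h5⟩
          · omega
      · rw [ind_false (p := j.val < n ∧ x ∈ fe q τ a j) (by omega),
          ind_false (p := j.val < n ∧ x ∈ fs q τ a j) (by omega), add_zero]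
        symm
        apply ind_false
        rintro ⟨h4, ⟨-, h5, -⟩ | ⟨h5, h6⟩⟩ <;> omega
  · show (Lam q c τ a n + (full q c τ a (n : ZMod N) +
        (emb q c τ (n : ZMod N) {RT.eR q (τ (n : ZMod N))} +
          emb q c τ (n : ZMod N) {RT.rho1 q (τ (n : ZMod N))}))) (rowE q c τ j) = _
    rw [Pi.add_apply, Pi.add_apply, Pi.add_apply, Lam_row a hn1 (by omega), full_row, emb_row,
      emb_row, add_zero, add_zero, add_zero,
      ind_false (p := cutp q _ _ = _ ∧ _) (by rintro ⟨-, h⟩; cases h), add_zero]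
    rfl
  · show (Lam q c τ a n + (full q c τ a (n : ZMod N) +
        (emb q c τ (n : ZMod N) {RT.eR q (τ (n : ZMod N))} +
          emb q c τ (n : ZMod N) {RT.rho1 q (τ (n : ZMod N))}))) (Sum.inr (Sum.inr ⟨j, hc⟩)) = _
    rw [Pi.add_apply, Pi.add_apply, Pi.add_apply, Lam_by, full_by, emb_by,
      emb_by, add_zero, add_zero, add_zero,
      ind_false (p := cutp q _ _ = _ ∧ _) (by rintro ⟨-, h⟩; cases h), add_zero]
    symm
    exact ind_false (fun h => h)

theorem right_val (a : ℕ → ℕ) {n : ℕ} (hn1 : 1 ≤ n) (hn : n ≤ N - 9) (e : (tstrip q c τ).E)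
    (he : ¬ Fr P e) : ((full q c τ a (n : ZMod N) +
        (emb q c τ (n : ZMod N) {RT.eL q (τ (n : ZMod N))} +
          emb q c τ (n : ZMod N) {RT.lam1 q (τ (n : ZMod N))})) + Rho q c τ a n) e =
      ind (HighP q c τ a n (fun p => p ≠ cutp q (a n) (τ (n : ZMod N)) ∧ 1 < p) e) +
      ind (cutp q (a n) (τ (n : ZMod N)) = 1 ∧
        e = le q c τ (n : ZMod N) (RT.eL q (τ (n : ZMod N)))) := by
  have hN := W.big
  rcases e with ⟨j, x⟩ | j | ⟨j, hc⟩
  · obtain ⟨h1, h2, h3⟩ := nonfree_le W hl (show ¬ Fr P (le q c τ j x) from he)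
    show ((full q c τ a (n : ZMod N) +
        (emb q c τ (n : ZMod N) {RT.eL q (τ (n : ZMod N))} +
          emb q c τ (n : ZMod N) {RT.lam1 q (τ (n : ZMod N))})) + Rho q c τ a n) (le q c τ j x) = _
    rw [Pi.add_apply, Pi.add_apply, Pi.add_apply, Rho_le hN a j (by omega), full_le,
      emb_le (fun j => {RT.eL q (τ j)}), emb_le (fun j => {RT.lam1 q (τ j)})]
    have hjn : j = (n : ZMod N) ↔ j.val = n := eq_cast_iff (by omega)
    show _ = ind (RT.isRow q (τ j) x ∧
      ((n < j.val ∧ j.val ≤ N - 9 ∧ ploc q (τ j) x ≠ cutp q (a j.val) (τ j)) ∨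
        (j.val = n ∧ (ploc q (τ j) x ≠ cutp q (a n) (τ (n : ZMod N)) ∧
          1 < ploc q (τ j) x)))) +
      ind (cutp q (a n) (τ (n : ZMod N)) = 1 ∧
        le q c τ j x = le q c τ (n : ZMod N) (RT.eL q (τ (n : ZMod N))))
    have hdist : j ≠ (n : ZMod N) → ¬ (le q c τ j x = le q c τ (n : ZMod N) (RT.eL q (τ (n : ZMod N)))) := by
      intro h h'
      exact h (Sigma.mk.inj_iff.1 (Sum.inl.inj h')).1
    by_cases h : j.val = n
    · have hjn' : j = (n : ZMod N) := hjn.2 h
      have han : a n = a j.val := by rw [h]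
      subst hjn'
      rw [han]
      have h3' : x ≠ RT.lam1 q (τ (n : ZMod N)) := fun hx => h3 (hx ▸ fleg_lam1 q _)
      rw [ind_false (p := n < (n : ZMod N).val ∧ x ∈ fe q τ a (n : ZMod N)) (by omega),
        ind_false (p := n < (n : ZMod N).val ∧ x ∈ fs q τ a (n : ZMod N)) (by omega),
        ind_false (p := (n : ZMod N) = (n : ZMod N) ∧ x ∈ ({RT.lam1 q (τ (n : ZMod N))} :
          Finset ((τ (n : ZMod N)).loc q).E)) (fun h => h3' (Finset.mem_singleton.1 h.2)),
        ind_congr (and_iff_right (rfl : (n : ZMod N) = n)),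
        ind_congr (and_iff_right (rfl : (n : ZMod N) = n)), full_val a _ x h3, add_zero, add_zero,
        add_zero]
      have hx : x ∈ ({RT.eL q (τ (n : ZMod N))} : Finset ((τ (n : ZMod N)).loc q).E) ↔
          x = RT.eL q (τ (n : ZMod N)) := Finset.mem_singleton
      have hx' : le q c τ (n : ZMod N) x = le q c τ (n : ZMod N) (RT.eL q (τ (n : ZMod N))) ↔
          x = RT.eL q (τ (n : ZMod N)) := by
        constructor
        · intro h'
          exact eq_of_heq (Sigma.mk.inj_iff.1 (Sum.inl.inj h')).2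
        · rintro rfl; rfl
      have hR := row_eL q (τ (n : ZMod N))
      by_cases hxR : x = RT.eL q (τ (n : ZMod N))
      · subst hxR
        have hR2 := hR.2
        have k2 : ind (RT.isRow q (τ (n : ZMod N)) (RT.eL q (τ (n : ZMod N))) ∧
            ((n < (n : ZMod N).val ∧ (n : ZMod N).val ≤ N - 9 ∧
              ploc q (τ (n : ZMod N)) (RT.eL q (τ (n : ZMod N))) ≠
                cutp q (a (n : ZMod N).val) (τ (n : ZMod N))) ∨
            ((n : ZMod N).val = n ∧ (ploc q (τ (n : ZMod N)) (RT.eL q (τ (n : ZMod N))) ≠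
                cutp q (a (n : ZMod N).val) (τ (n : ZMod N)) ∧
              1 < ploc q (τ (n : ZMod N)) (RT.eL q (τ (n : ZMod N))))))) = 0 :=
          ind_false (by rintro ⟨-, ⟨h4, -⟩ | ⟨-, -, h4⟩⟩ <;> omega)
        have k1 : ind ((n : ZMod N) = n ∧ RT.eL q (τ (n : ZMod N)) ∈ ({RT.eL q (τ (n : ZMod N))} :
          Finset ((τ (n : ZMod N)).loc q).E)) = 1 := ind_true ⟨rfl, Finset.mem_singleton_self _⟩
        rw [k2, k1]
        by_cases hc' : cutp q (a (n : ZMod N).val) (τ (n : ZMod N)) = 1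
        · have k3 : ind (RT.isRow q (τ (n : ZMod N)) (RT.eL q (τ (n : ZMod N))) ∧
              ploc q (τ (n : ZMod N)) (RT.eL q (τ (n : ZMod N))) ≠
                cutp q (a (n : ZMod N).val) (τ (n : ZMod N))) = 0 :=
            ind_false (fun h => h.2 (by rw [hR2, hc']))
          have k4 : ind (cutp q (a (n : ZMod N).val) (τ (n : ZMod N)) = 1 ∧
              le q c τ (n : ZMod N) (RT.eL q (τ (n : ZMod N))) =
                le q c τ (n : ZMod N) (RT.eL q (τ (n : ZMod N)))) = 1 := ind_true ⟨hc', rfl⟩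
          rw [k3, k4]
        · have k3 : ind (RT.isRow q (τ (n : ZMod N)) (RT.eL q (τ (n : ZMod N))) ∧
              ploc q (τ (n : ZMod N)) (RT.eL q (τ (n : ZMod N))) ≠
                cutp q (a (n : ZMod N).val) (τ (n : ZMod N))) = 1 :=
            ind_true ⟨hR.1, fun h => hc' (by rw [← h, hR2])⟩
          have k4 : ind (cutp q (a (n : ZMod N).val) (τ (n : ZMod N)) = 1 ∧
              le q c τ (n : ZMod N) (RT.eL q (τ (n : ZMod N))) =
                le q c τ (n : ZMod N) (RT.eL q (τ (n : ZMod N)))) = 0 :=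
            ind_false (fun h => hc' h.1)
          rw [k3, k4]
          decide
      · rw [ind_false (p := (n : ZMod N) = n ∧ x ∈ ({RT.eL q (τ (n : ZMod N))} :
          Finset ((τ (n : ZMod N)).loc q).E)) (by rw [hx]; tauto), add_zero,
          ind_false (p := cutp q _ _ = _ ∧ _) (by rw [hx']; tauto), add_zero]
        apply ind_congr
        constructor
        · rintro ⟨h4, h5⟩
          refine ⟨h4, Or.inr ⟨h, h5, ?_⟩⟩
          have h6 := row_bounds q _ x h4
          have h7 : ploc q (τ (n : ZMod N)) x ≠ 1 := by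
            intro h8
            exact hxR (row_inj q _ _ _ h4 hR.1 (by rw [h8, hR.2]))
          omega
        · rintro ⟨h4, ⟨h5, -⟩ | ⟨-, h5, -⟩⟩
          · omega
          · exact ⟨h4, h5⟩
    · have hne : j ≠ (n : ZMod N) := fun h' => h (hjn.1 h')
      rw [ind_false (p := j = (n : ZMod N) ∧ x ∈ fe q τ a j) (fun h' => hne h'.1),
        ind_false (p := j = (n : ZMod N) ∧ x ∈ fs q τ a j) (fun h' => hne h'.1),
        ind_false (p := j = (n : ZMod N) ∧ x ∈ ({RT.eL q (τ j)} : Finset ((τ j).loc q).E))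
          (fun h' => hne h'.1),
        ind_false (p := j = (n : ZMod N) ∧ x ∈ ({RT.lam1 q (τ j)} : Finset ((τ j).loc q).E))
          (fun h' => hne h'.1),
        ind_false (p := cutp q _ _ = _ ∧ _) (fun h' => hdist hne h'.2), add_zero, add_zero,
        add_zero, zero_add]
      by_cases hlt : n < j.val
      · rw [ind_congr (and_iff_right hlt), ind_congr (and_iff_right hlt), full_val a j x h3]
        apply ind_congr
        constructor
        · rintro ⟨h4, h5⟩; exact ⟨h4, Or.inl ⟨hlt, by omega, h5⟩⟩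
        · rintro ⟨h4, ⟨-, -, h5⟩ | ⟨h5, -⟩⟩
          · exact ⟨h4, h5⟩
          · omega
      · rw [ind_false (p := n < j.val ∧ x ∈ fe q τ a j) (by omega),
          ind_false (p := n < j.val ∧ x ∈ fs q τ a j) (by omega), add_zero]
        symm
        apply ind_false
        rintro ⟨h4, ⟨h5, -⟩ | ⟨h5, h6⟩⟩ <;> omega
  · obtain ⟨h1, h2⟩ := nonfree_row W (show ¬ Fr P (rowE q c τ j) from he)
    show ((full q c τ a (n : ZMod N) +
        (emb q c τ (n : ZMod N) {RT.eL q (τ (n : ZMod N))} +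
          emb q c τ (n : ZMod N) {RT.lam1 q (τ (n : ZMod N))})) + Rho q c τ a n) (rowE q c τ j) = _
    rw [Pi.add_apply, Pi.add_apply, Pi.add_apply, Rho_row hN a hn j (by omega), full_row, emb_row,
      emb_row, add_zero, add_zero, zero_add,
      ind_false (p := cutp q _ _ = _ ∧ _) (by rintro ⟨-, h⟩; cases h), add_zero]
    apply ind_congr
    constructor
    · intro h; exact ⟨h, by omega⟩
    · intro h; exact h.1
  · show ((full q c τ a (n : ZMod N) +
        (emb q c τ (n : ZMod N) {RT.eL q (τ (n : ZMod N))} +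
          emb q c τ (n : ZMod N) {RT.lam1 q (τ (n : ZMod N))})) + Rho q c τ a n)
            (Sum.inr (Sum.inr ⟨j, hc⟩)) = _
    rw [Pi.add_apply, Pi.add_apply, Pi.add_apply, Rho_by, full_by, emb_by,
      emb_by, add_zero, add_zero, add_zero,
      ind_false (p := cutp q _ _ = _ ∧ _) (by rintro ⟨-, h⟩; cases h), add_zero]
    symm
    exact ind_false (fun h => h)

end

end C2
end Pool.Agent.CC
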