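import Pool.Agent.Lib_helper74.CCF.C2e

/-! CORE2, part f: the theorem. -/

namespace Pool.Agent.CC

open Gph Core1

namespace C2

variable {N : ℕ} [NeZero N] {q : ℕ} {c : Bool} {τ : ZMod N → RT}

/-- The positions of the row edges. -/
noncomputable def Rs (q : ℕ) (c : Bool) (τ : ZMod N → RT) : Finset (ℕ × ℕ) := by
  classical exact (Finset.univ.filter (RR q c τ)).image (pos q c τ)

/-- The crossing parity of two positions. -/
noncomputable def ys (P : (tstrip q c τ).PS) (p p' : ℕ × ℕ) : ZMod 2 := by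
  classical exact ∑ e ∈ Finset.univ.filter (fun e => RR q c τ e ∧ pos q c τ e = p),
    ∑ f ∈ Finset.univ.filter (fun f => RR q c τ f ∧ pos q c τ f = p'), yy P e f

theorem mem_Rs {p : ℕ × ℕ} : p ∈ Rs q c τ ↔ ∃ e, RR q c τ e ∧ pos q c τ e = p := by
  classical
  unfold Rs
  simp only [Finset.mem_image, Finset.mem_filter, Finset.mem_univ, true_and]

theorem ys_pos (P : (tstrip q c τ).PS) {e f : (tstrip q c τ).E} (he : RR q c τ e)
    (hf : RR q c τ f) : ys P (pos q c τ e) (pos q c τ f) = yy P e f := by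
  classical
  unfold ys
  have h : ∀ e, RR q c τ e → Finset.univ.filter (fun g => RR q c τ g ∧ pos q c τ g =
      pos q c τ e) = {e} := by
    intro e he
    ext g
    simp only [Finset.mem_filter, Finset.mem_univ, true_and, Finset.mem_singleton]
    constructor
    · rintro ⟨h1, h2⟩; exact pos_inj _ _ h1 he h2
    · rintro rfl; exact ⟨he, rfl⟩
  rw [h e he, h f hf, Finset.sum_singleton, Finset.sum_singleton]

theorem cutSum_eq (P : (tstrip q c τ).PS) (Pp Qx : ℕ × ℕ) (Z : Finset (ℕ × ℕ)) :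
    cutSum (Rs q c τ) (ys P) Pp Qx Z =
      LI P (fun e => ind (RR q c τ e ∧ lt (pos q c τ e) Pp ∧ pos q c τ e ∉ Z))
        (fun e => ind (RR q c τ e ∧ lt Qx (pos q c τ e) ∧ pos q c τ e ∉ Z)) := by
  classical
  rw [LI_ind]
  unfold cutSum
  have h : ∀ p : ℕ × ℕ → Prop, ∀ [DecidablePred p], (Rs q c τ).filter (fun x => p x ∧ x ∉ Z) =
      (Finset.univ.filter (fun e => RR q c τ e ∧ p (pos q c τ e) ∧ pos q c τ e ∉ Z)).image
        (pos q c τ) := by
    intro p _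
    ext x
    simp only [Finset.mem_filter, mem_Rs, Finset.mem_image, Finset.mem_univ, true_and]
    constructor
    · rintro ⟨⟨e, h1, rfl⟩, h2, h3⟩; exact ⟨e, ⟨h1, h2, h3⟩, rfl⟩
    · rintro ⟨e, ⟨h1, h2, h3⟩, rfl⟩; exact ⟨⟨e, h1, rfl⟩, h2, h3⟩
  rw [h (fun x => lt x Pp), Finset.sum_image]
  · refine Finset.sum_congr rfl fun e he => ?_
    rw [h (fun x => lt Qx x), Finset.sum_image]
    · refine Finset.sum_congr rfl fun f hf => ?_
      rw [Finset.mem_filter] at he hf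
      exact ys_pos P he.2.1 hf.2.1
    · intro e he f hf h
      rw [Finset.mem_coe, Finset.mem_filter] at he hf
      exact pos_inj _ _ he.2.1 hf.2.1 h
  · intro e he f hf h
    rw [Finset.mem_coe, Finset.mem_filter] at he hf
    exact pos_inj _ _ he.2.1 hf.2.1 h

/-- The `T` regions. -/
def TT (τ : ZMod N → RT) : Finset ℕ := (Finset.Icc 1 (N - 9)).filter (fun k => τ (k : ZMod N) = .T)

omit [NeZero N] in
theorem mem_TT {k : ℕ} : k ∈ TT τ ↔ (1 ≤ k ∧ k ≤ N - 9) ∧ τ (k : ZMod N) = .T := by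
  unfold TT
  rw [Finset.mem_filter, Finset.mem_Icc]

theorem row_ne_cut (q : ℕ) : ∀ (t : RT) (x : (t.loc q).E), t ≠ .T → RT.isRow q t x →
    ploc q t x ≠ 2 * q + 4 := by
  rintro (_ | _ | _) x ht hx
  · exact absurd rfl ht
  · obtain ⟨b, k | i⟩ : GE q := x
    · cases hx
    · have := i.2
      cases b
      · show 1 + i.1 ≠ 2 * q + 4; omega
      · show 4 * q + 8 - i.1 ≠ 2 * q + 4; omega
  · obtain ⟨b, x⟩ : WE' q := x
    rcases (show x = .s3 ∨ ∃ i, x = .row i from hx) with rfl | ⟨i, rfl⟩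
    · cases b
      · show 1 ≠ 2 * q + 4; omega
      · show 4 * q + 8 ≠ 2 * q + 4; omega
    · have := i.2
      cases b
      · show 2 + i.1 ≠ 2 * q + 4; omega
      · show 4 * q + 7 - i.1 ≠ 2 * q + 4; omega

theorem cuts_ne (a : ℕ → ℕ) {j : ZMod N} {x : ((τ j).loc q).E} {j0 : ℕ}
    (hx : RT.isRow q (τ j) x) (h1 : 1 ≤ j.val) (h2 : j.val ≤ N - 9) (hne : j.val ≠ j0) :
    (j.val, ploc q (τ j) x) ∉ cuts (TT τ) a j0 ↔
      ploc q (τ j) x ≠ cutp q (a j.val) (τ j) := by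
  unfold cuts
  rw [Finset.mem_image, not_iff_not]
  constructor
  · rintro ⟨n, hn, h⟩
    rw [Prod.mk.injEq] at h
    obtain ⟨hn1, hn2⟩ := Finset.mem_erase.1 hn
    have hT := (mem_TT.1 hn2).2
    rw [h.1, ZMod.natCast_zmod_val] at hT
    rw [← h.2, hT, h.1]; rfl
  · intro h
    by_cases hT : τ j = .T
    · refine ⟨j.val, Finset.mem_erase.2 ⟨hne, mem_TT.2 ⟨⟨h1, h2⟩, ?_⟩⟩, ?_⟩
      · rw [ZMod.natCast_zmod_val]; exact hT
      · rw [h, hT]; rfl
    · exfalso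
      have h3 := row_ne_cut q (τ j) x hT hx
      apply h3
      rw [h]
      rcases hτ : τ j with _ | _ | _
      · exact absurd hτ hT
      · rfl
      · rfl

omit [NeZero N] in
theorem cuts_eq (a : ℕ → ℕ) {n p : ℕ} : (n, p) ∉ cuts (TT τ) a n := by
  unfold cuts
  rw [Finset.mem_image]
  rintro ⟨k, hk, h⟩
  rw [Prod.mk.injEq] at h
  exact (Finset.mem_erase.1 hk).1 h.1

omit [NeZero N] in
theorem cuts_zero (a : ℕ → ℕ) {n j0 : ℕ} : (n, 0) ∉ cuts (TT τ) a j0 := by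
  unfold cuts
  rw [Finset.mem_image]
  rintro ⟨k, hk, h⟩
  rw [Prod.mk.injEq] at h
  omega

/-! comparison with the sets of `cutSum` -/

theorem low_in (a : ℕ → ℕ) {n pp : ℕ} (hn : n ≤ N - 9) (hn1 : 1 ≤ n) (hpp : 1 ≤ pp)
    (e : (tstrip q c τ).E) : LowP q c τ a n (fun p => p < pp) e ↔
    (RR q c τ e ∧ lt (pos q c τ e) (n, pp) ∧ pos q c τ e ∉ cuts (TT τ) a n) := by
  rcases e with ⟨j, x⟩ | j | ⟨j, hc⟩
  · show (RT.isRow q (τ j) x ∧
      ((1 ≤ j.val ∧ j.val < n ∧ ploc q (τ j) x ≠ cutp q (a j.val) (τ j)) ∨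
        (j.val = n ∧ (ploc q (τ j) x < pp)))) ↔ ((RT.isRow q (τ j) x ∧ 1 ≤ j.val ∧ j.val ≤ N - 9) ∧
      (j.val < n ∨ (j.val = n ∧ ploc q (τ j) x < pp)) ∧
        (j.val, ploc q (τ j) x) ∉ cuts (TT τ) a n)
    constructor
    · rintro ⟨h1, ⟨h2, h3, h4⟩ | ⟨h2, h3⟩⟩
      · exact ⟨⟨h1, h2, by omega⟩, Or.inl h3, (cuts_ne a h1 h2 (by omega) (by omega)).2 h4⟩
      · exact ⟨⟨h1, by omega, by omega⟩, Or.inr ⟨h2, h3⟩, by rw [h2]; exact cuts_eq a⟩
    · rintro ⟨⟨h1, h2, h3⟩, h4 | ⟨h4, h5⟩, h6⟩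
      · exact ⟨h1, Or.inl ⟨h2, h4, (cuts_ne a h1 h2 h3 (by omega)).1 h6⟩⟩
      · exact ⟨h1, Or.inr ⟨h4, h5⟩⟩
  · show j.val < n ↔ (j.val ≤ N - 9 ∧ (j.val + 1 < n ∨ (j.val + 1 = n ∧ 0 < pp)) ∧
      (j.val + 1, 0) ∉ cuts (TT τ) a n)
    constructor
    · intro h; exact ⟨by omega, by omega, cuts_zero a⟩
    · rintro ⟨-, h, -⟩; omega
  · constructor
    · intro h; exact h.elim
    · intro h; exact h.1.elim

theorem high_in (a : ℕ → ℕ) {n pp : ℕ} (hn : n ≤ N - 9) (hn1 : 1 ≤ n)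
    (e : (tstrip q c τ).E) : HighP q c τ a n (fun p => pp < p) e ↔
    (RR q c τ e ∧ lt (n, pp) (pos q c τ e) ∧ pos q c τ e ∉ cuts (TT τ) a n) := by
  rcases e with ⟨j, x⟩ | j | ⟨j, hc⟩
  · show (RT.isRow q (τ j) x ∧
      ((n < j.val ∧ j.val ≤ N - 9 ∧ ploc q (τ j) x ≠ cutp q (a j.val) (τ j)) ∨
        (j.val = n ∧ (pp < ploc q (τ j) x)))) ↔ ((RT.isRow q (τ j) x ∧ 1 ≤ j.val ∧ j.val ≤ N - 9) ∧
      (n < j.val ∨ (n = j.val ∧ pp < ploc q (τ j) x)) ∧
        (j.val, ploc q (τ j) x) ∉ cuts (TT τ) a n)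
    constructor
    · rintro ⟨h1, ⟨h2, h3, h4⟩ | ⟨h2, h3⟩⟩
      · exact ⟨⟨h1, by omega, by omega⟩, Or.inl h2, (cuts_ne a h1 (by omega) h3 (by omega)).2 h4⟩
      · exact ⟨⟨h1, by omega, by omega⟩, Or.inr ⟨h2.symm, h3⟩, by rw [h2]; exact cuts_eq a⟩
    · rintro ⟨⟨h1, h2, h3⟩, h4 | ⟨h4, h5⟩, h6⟩
      · exact ⟨h1, Or.inl ⟨h4, h3, (cuts_ne a h1 h2 h3 (by omega)).1 h6⟩⟩
      · exact ⟨h1, Or.inr ⟨h4.symm, h5⟩⟩
  · show (n ≤ j.val ∧ j.val ≤ N - 9) ↔ (j.val ≤ N - 9 ∧ (n < j.val + 1 ∨ (n = j.val + 1 ∧ pp < 0)) ∧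
      (j.val + 1, 0) ∉ cuts (TT τ) a n)
    constructor
    · intro h; exact ⟨by omega, by omega, cuts_zero a⟩
    · rintro ⟨h', h, -⟩; omega
  · constructor
    · intro h; exact h.elim
    · intro h; exact h.1.elim

/-- for `hRt` -/
theorem low_right (a : ℕ → ℕ) {n : ℕ} (hn : n ≤ N - 9) (hn1 : 1 ≤ n) (hT : τ (n : ZMod N) = .T)
    (e : (tstrip q c τ).E) : LowP q c τ a n (fun p => p < 2 * q + 4) e ↔
    (RR q c τ e ∧ lt (pos q c τ e) (n + 1, 0) ∧ pos q c τ e ∉ cuts (TT τ) a n) := by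
  rw [low_in a hn hn1 (by omega)]
  apply and_congr_right
  intro hR
  apply and_congr_left
  intro _
  rcases e with ⟨j, x⟩ | j | ⟨j, hc⟩
  · have hR' : RT.isRow q (τ j) x ∧ 1 ≤ j.val ∧ j.val ≤ N - 9 := hR
    show (j.val < n ∨ (j.val = n ∧ ploc q (τ j) x < 2 * q + 4)) ↔
      (j.val < n + 1 ∨ (j.val = n + 1 ∧ ploc q (τ j) x < 0))
    have hb := row_bounds q (τ j) x hR'.1
    constructor
    · omega
    · intro h
      by_cases h1 : j.val = n
      · right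
        refine ⟨h1, ?_⟩
        have h2 : τ j = .T := by rw [← hT, ← h1, ZMod.natCast_zmod_val]
        have h3 : mm q (τ j) = 2 * q + 3 := by rw [h2]; rfl
        omega
      · omega
  · show (j.val + 1 < n ∨ (j.val + 1 = n ∧ 0 < 2 * q + 4)) ↔
      (j.val + 1 < n + 1 ∨ (j.val + 1 = n + 1 ∧ 0 < 0))
    omega
  · exact hR.elim

/-- for `hRt` -/
theorem high_right (a : ℕ → ℕ) {n : ℕ} (hn : n + 1 ≤ N - 9) (hn1 : 1 ≤ n)
    (e : (tstrip q c τ).E) : HighP q c τ a (n + 1) (fun p => p ≠ cutp q (a (n + 1))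
      (τ ((n + 1 : ℕ) : ZMod N)) ∧ 1 < p) e ↔
    (RR q c τ e ∧ lt (n + 1, 1) (pos q c τ e) ∧ pos q c τ e ∉ cuts (TT τ) a n) := by
  rcases e with ⟨j, x⟩ | j | ⟨j, hc⟩
  · show (RT.isRow q (τ j) x ∧
      ((n + 1 < j.val ∧ j.val ≤ N - 9 ∧ ploc q (τ j) x ≠ cutp q (a j.val) (τ j)) ∨
        (j.val = n + 1 ∧ (ploc q (τ j) x ≠ cutp q (a (n + 1)) (τ ((n + 1 : ℕ) : ZMod N)) ∧
          1 < ploc q (τ j) x)))) ↔ ((RT.isRow q (τ j) x ∧ 1 ≤ j.val ∧ j.val ≤ N - 9) ∧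
      (n + 1 < j.val ∨ (n + 1 = j.val ∧ 1 < ploc q (τ j) x)) ∧
        (j.val, ploc q (τ j) x) ∉ cuts (TT τ) a n)
    have hc : j.val = n + 1 → cutp q (a (n + 1)) (τ ((n + 1 : ℕ) : ZMod N)) =
        cutp q (a j.val) (τ j) := by
      intro h
      rw [← h, ZMod.natCast_zmod_val]
    constructor
    · rintro ⟨h1, ⟨h2, h3, h4⟩ | ⟨h2, h3, h4⟩⟩
      · exact ⟨⟨h1, by omega, by omega⟩, Or.inl h2, (cuts_ne a h1 (by omega) h3 (by omega)).2 h4⟩
      · rw [hc h2] at h3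
        exact ⟨⟨h1, by omega, by omega⟩, Or.inr ⟨h2.symm, h4⟩,
          (cuts_ne a h1 (by omega) (by omega) (by omega)).2 h3⟩
    · rintro ⟨⟨h1, h2, h3⟩, h4 | ⟨h4, h5⟩, h6⟩
      · exact ⟨h1, Or.inl ⟨h4, h3, (cuts_ne a h1 h2 h3 (by omega)).1 h6⟩⟩
      · refine ⟨h1, Or.inr ⟨h4.symm, ?_, h5⟩⟩
        rw [hc h4.symm]
        exact (cuts_ne a h1 h2 h3 (by omega)).1 h6
  · show (n + 1 ≤ j.val ∧ j.val ≤ N - 9) ↔ (j.val ≤ N - 9 ∧
      (n + 1 < j.val + 1 ∨ (n + 1 = j.val + 1 ∧ 1 < 0)) ∧ (j.val + 1, 0) ∉ cuts (TT τ) a n)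
    constructor
    · intro h; exact ⟨by omega, by omega, cuts_zero a⟩
    · rintro ⟨h', h, -⟩; omega
  · constructor
    · intro h; exact h.elim
    · intro h; exact h.1.elim

/-- for `hL` -/
theorem low_left (a : ℕ → ℕ) {n : ℕ} (hn : n + 1 ≤ N - 9) (hn1 : 1 ≤ n)
    (e : (tstrip q c τ).E) : LowP q c τ a n (fun p => p ≠ cutp q (a n)
      (τ (n : ZMod N)) ∧ p < mm q (τ (n : ZMod N))) e ↔
    (RR q c τ e ∧ lt (pos q c τ e) (n, mm q (τ (n : ZMod N))) ∧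
      pos q c τ e ∉ cuts (TT τ) a (n + 1)) := by
  have hm : 1 ≤ mm q (τ (n : ZMod N)) := by
    rcases τ (n : ZMod N) with _ | _ | _
    · show 1 ≤ 2 * q + 3; omega
    · show 1 ≤ 4 * q + 8; omega
    · show 1 ≤ 4 * q + 8; omega
  rcases e with ⟨j, x⟩ | j | ⟨j, hc⟩
  · show (RT.isRow q (τ j) x ∧
      ((1 ≤ j.val ∧ j.val < n ∧ ploc q (τ j) x ≠ cutp q (a j.val) (τ j)) ∨
        (j.val = n ∧ (ploc q (τ j) x ≠ cutp q (a n) (τ (n : ZMod N)) ∧
          ploc q (τ j) x < mm q (τ (n : ZMod N)))))) ↔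
      ((RT.isRow q (τ j) x ∧ 1 ≤ j.val ∧ j.val ≤ N - 9) ∧
      (j.val < n ∨ (j.val = n ∧ ploc q (τ j) x < mm q (τ (n : ZMod N)))) ∧
        (j.val, ploc q (τ j) x) ∉ cuts (TT τ) a (n + 1))
    have hc : j.val = n → cutp q (a n) (τ (n : ZMod N)) = cutp q (a j.val) (τ j) := by
      intro h
      rw [← h, ZMod.natCast_zmod_val]
    constructor
    · rintro ⟨h1, ⟨h2, h3, h4⟩ | ⟨h2, h3, h4⟩⟩
      · exact ⟨⟨h1, by omega, by omega⟩, Or.inl h3, (cuts_ne a h1 (by omega) (by omega) (by omega)).2 h4⟩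
      · rw [hc h2] at h3
        exact ⟨⟨h1, by omega, by omega⟩, Or.inr ⟨h2, h4⟩,
          (cuts_ne a h1 (by omega) (by omega) (by omega)).2 h3⟩
    · rintro ⟨⟨h1, h2, h3⟩, h4 | ⟨h4, h5⟩, h6⟩
      · exact ⟨h1, Or.inl ⟨h2, h4, (cuts_ne a h1 h2 h3 (by omega)).1 h6⟩⟩
      · refine ⟨h1, Or.inr ⟨h4, ?_, h5⟩⟩
        rw [hc h4]
        exact (cuts_ne a h1 h2 h3 (by omega)).1 h6
  · show j.val < n ↔ (j.val ≤ N - 9 ∧
      (j.val + 1 < n ∨ (j.val + 1 = n ∧ 0 < mm q (τ (n : ZMod N)))) ∧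
      (j.val + 1, 0) ∉ cuts (TT τ) a (n + 1))
    constructor
    · intro h; exact ⟨by omega, by omega, cuts_zero a⟩
    · rintro ⟨h', h, -⟩; omega
  · constructor
    · intro h; exact h.elim
    · intro h; exact h.1.elim

theorem ind_ne {p : Prop} (h : ind p ≠ 0) : p := by
  by_contra h'
  exact h (ind_false h')

/-! the sums over the slots -/

section slots
variable (hN : 16 ≤ N) {a : ℕ → ℕ} {O : ℕ → (tstrip q c τ).E → ZMod 2}
  (hO : ∀ k : ℕ, O k = emb q c τ (k : ZMod N) (fs q τ a (k : ZMod N)) +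
    (tstrip q c τ).chi {rowE q c τ (k : ZMod N)} +
      emb q c τ ((k + 1 : ℕ) : ZMod N) (fe q τ a ((k + 1 : ℕ) : ZMod N)))
include hN hO

theorem slots_low {n : ℕ} (hn1 : 1 ≤ n) (hn : n ≤ N - 9) (e : (tstrip q c τ).E)
    (he : ∀ j x, e = le q c τ j x → 1 ≤ j.val) :
    (∑ k ∈ Finset.range n, O k) e =
      (Lam q c τ a n + emb q c τ (n : ZMod N) (fe q τ a (n : ZMod N))) e := by
  rw [Finset.sum_apply, Pi.add_apply, Finset.range_eq_Ico]
  rcases e with ⟨j, x⟩ | j | ⟨j, hc⟩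
  · have h1 : 1 ≤ j.val := he j x rfl
    show ∑ k ∈ Finset.Ico 0 n, O k (le q c τ j x) = Lam q c τ a n (le q c τ j x) +
      emb q c τ (n : ZMod N) (fe q τ a (n : ZMod N)) (le q c τ j x)
    rw [Lam_le a (by omega) j h1, emb_le]
    have h2 : ∀ k ∈ Finset.Ico 0 n, O k (le q c τ j x) = ind (j = (k : ZMod N) ∧ x ∈ fs q τ a j) +
        ind (j = ((k + 1 : ℕ) : ZMod N) ∧ x ∈ fe q τ a j) := by
      intro k _
      rw [hO, Pi.add_apply, Pi.add_apply, emb_le, row_le, emb_le, add_zero]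
    rw [Finset.sum_congr rfl h2, Finset.sum_add_distrib, sum_ind (by omega)]
    have h3 := sum_ind (l := 0 + 1) (r := n + 1) (by omega) j (x ∈ fe q τ a j)
    rw [← Finset.sum_Ico_add' (fun k : ℕ => ind (j = (k : ZMod N) ∧ x ∈ fe q τ a j)) 0 n 1] at h3
    rw [h3]
    have hjn : j = (n : ZMod N) ↔ j.val = n := eq_cast_iff (by omega)
    have h4 : ind (0 + 1 ≤ j.val ∧ j.val < n + 1 ∧ x ∈ fe q τ a j) =
        ind (j.val < n ∧ x ∈ fe q τ a j) + ind (j = (n : ZMod N) ∧ x ∈ fe q τ a j) := by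
      rw [ind_add]
      · apply ind_congr
        rw [hjn]
        constructor
        · rintro ⟨h5, h6, h7⟩
          by_cases h8 : j.val < n
          · exact Or.inl ⟨h8, h7⟩
          · exact Or.inr ⟨by omega, h7⟩
        · rintro (⟨h5, h6⟩ | ⟨h5, h6⟩)
          · exact ⟨by omega, by omega, h6⟩
          · exact ⟨by omega, by omega, h6⟩
      · rw [hjn]; omega
    rw [h4, ind_congr (p := 0 ≤ j.val ∧ j.val < n ∧ x ∈ fs q τ a j)
      (q := j.val < n ∧ x ∈ fs q τ a j) (by constructor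
                                            · exact fun h => h.2
                                            · exact fun h => ⟨Nat.zero_le _, h⟩)]
    ring
  · show ∑ k ∈ Finset.Ico 0 n, O k (rowE q c τ j) = Lam q c τ a n (rowE q c τ j) +
      emb q c τ (n : ZMod N) (fe q τ a (n : ZMod N)) (rowE q c τ j)
    rw [Lam_row a hn1 (by omega), emb_row, add_zero]
    have h2 : ∀ k ∈ Finset.Ico 0 n, O k (rowE q c τ j) = ind (j = (k : ZMod N) ∧ True) := by
      intro k _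
      rw [hO, Pi.add_apply, Pi.add_apply, emb_row, row_row, emb_row, add_zero, zero_add]
      apply ind_congr; tauto
    rw [Finset.sum_congr rfl h2, sum_ind (by omega)]
    apply ind_congr
    rw [and_true]; omega
  · show ∑ k ∈ Finset.Ico 0 n, O k (Sum.inr (Sum.inr ⟨j, hc⟩)) =
      Lam q c τ a n (Sum.inr (Sum.inr ⟨j, hc⟩)) +
      emb q c τ (n : ZMod N) (fe q τ a (n : ZMod N)) (Sum.inr (Sum.inr ⟨j, hc⟩))
    rw [Lam_by, emb_by, add_zero]
    apply Finset.sum_eq_zero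
    intro k _
    rw [hO, Pi.add_apply, Pi.add_apply, emb_by, row_by, emb_by, add_zero, add_zero]

theorem slots_high {n : ℕ} (hn1 : 1 ≤ n) (hn : n ≤ N - 9) (e : (tstrip q c τ).E)
    (he : ∀ j x, e = le q c τ j x → j.val ≤ N - 10) (he' : ∀ j, e = rowE q c τ j → j.val ≤ N - 10) :
    (∑ k ∈ Finset.Ico n (N - 8), O k) e =
      (emb q c τ (n : ZMod N) (fs q τ a (n : ZMod N)) + Rho q c τ a n) e := by
  rw [Finset.sum_apply, Pi.add_apply]
  rcases e with ⟨j, x⟩ | j | ⟨j, hc⟩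
  · have h1 : j.val ≤ N - 10 := he j x rfl
    show ∑ k ∈ Finset.Ico n (N - 8), O k (le q c τ j x) =
      emb q c τ (n : ZMod N) (fs q τ a (n : ZMod N)) (le q c τ j x) + Rho q c τ a n (le q c τ j x)
    rw [Rho_le hN a j (by omega), emb_le]
    have h2 : ∀ k ∈ Finset.Ico n (N - 8), O k (le q c τ j x) =
        ind (j = (k : ZMod N) ∧ x ∈ fs q τ a j) +
        ind (j = ((k + 1 : ℕ) : ZMod N) ∧ x ∈ fe q τ a j) := by
      intro k _
      rw [hO, Pi.add_apply, Pi.add_apply, emb_le, row_le, emb_le, add_zero]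
    rw [Finset.sum_congr rfl h2, Finset.sum_add_distrib, sum_ind (by omega)]
    have h3 := sum_ind (l := n + 1) (r := N - 8 + 1) (by omega) j (x ∈ fe q τ a j)
    rw [← Finset.sum_Ico_add' (fun k : ℕ => ind (j = (k : ZMod N) ∧ x ∈ fe q τ a j)) n (N - 8) 1] at h3
    rw [h3]
    have hjn : j = (n : ZMod N) ↔ j.val = n := eq_cast_iff (by omega)
    have h4 : ind (n ≤ j.val ∧ j.val < N - 8 ∧ x ∈ fs q τ a j) =
        ind (n < j.val ∧ x ∈ fs q τ a j) + ind (j = (n : ZMod N) ∧ x ∈ fs q τ a j) := by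
      rw [ind_add]
      · apply ind_congr
        rw [hjn]
        constructor
        · rintro ⟨h5, h6, h7⟩
          by_cases h8 : n < j.val
          · exact Or.inl ⟨h8, h7⟩
          · exact Or.inr ⟨by omega, h7⟩
        · rintro (⟨h5, h6⟩ | ⟨h5, h6⟩)
          · exact ⟨by omega, by omega, h6⟩
          · exact ⟨by omega, by omega, h6⟩
      · rw [hjn]; omega
    rw [h4, ind_congr (p := n + 1 ≤ j.val ∧ j.val < N - 8 + 1 ∧ x ∈ fe q τ a j)
      (q := n < j.val ∧ x ∈ fe q τ a j) (by constructor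
                                            · exact fun h => ⟨h.1, h.2.2⟩
                                            · exact fun h => ⟨h.1, by omega, h.2⟩)]
    ring
  · have h1 : j.val ≤ N - 10 := he' j rfl
    show ∑ k ∈ Finset.Ico n (N - 8), O k (rowE q c τ j) =
      emb q c τ (n : ZMod N) (fs q τ a (n : ZMod N)) (rowE q c τ j) + Rho q c τ a n (rowE q c τ j)
    rw [Rho_row hN a hn j (by omega), emb_row, zero_add]
    have h2 : ∀ k ∈ Finset.Ico n (N - 8), O k (rowE q c τ j) = ind (j = (k : ZMod N) ∧ True) := by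
      intro k _
      rw [hO, Pi.add_apply, Pi.add_apply, emb_row, row_row, emb_row, add_zero, zero_add]
      apply ind_congr; tauto
    rw [Finset.sum_congr rfl h2, sum_ind (by omega)]
    apply ind_congr
    rw [and_true]; omega
  · show ∑ k ∈ Finset.Ico n (N - 8), O k (Sum.inr (Sum.inr ⟨j, hc⟩)) =
      emb q c τ (n : ZMod N) (fs q τ a (n : ZMod N)) (Sum.inr (Sum.inr ⟨j, hc⟩)) +
      Rho q c τ a n (Sum.inr (Sum.inr ⟨j, hc⟩))
    rw [Rho_by, emb_by, add_zero]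
    apply Finset.sum_eq_zero
    intro k _
    rw [hO, Pi.add_apply, Pi.add_apply, emb_by, row_by, emb_by, add_zero, add_zero]

end slots

theorem slots_same (hN : 16 ≤ N) {a : ℕ → ℕ} {O : ℕ → (tstrip q c τ).E → ZMod 2}
    (hO : ∀ k : ℕ, O k = emb q c τ (k : ZMod N) (fs q τ a (k : ZMod N)) +
    (tstrip q c τ).chi {rowE q c τ (k : ZMod N)} +
      emb q c τ ((k + 1 : ℕ) : ZMod N) (fe q τ a ((k + 1 : ℕ) : ZMod N))) {i k : ℕ}
    (hi : i ≤ N - 9) (hk : k ≤ N - 9) (hik : i % 2 = 0) (hik' : k % 2 = 1)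
    (e f : (tstrip q c τ).E) (he : O i e ≠ 0) (hf : O k f ≠ 0) : ¬ SameP e f := by
  intro hs
  rcases e with ⟨j, x⟩ | e
  · rcases f with ⟨j', y⟩ | f
    · obtain ⟨h3, h4, h5⟩ := hs
      subst h3
      have hval : ∀ (i : ℕ) (x : ((τ j).loc q).E), i ≤ N - 9 → O i (le q c τ j x) ≠ 0 →
          (j.val = i ∧ (RT.part q (τ j) x = none ∨ RT.part q (τ j) x = some true)) ∨
          (j.val = i + 1 ∧ (RT.part q (τ j) x = none ∨ RT.part q (τ j) x = some false)) := by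
        intro i x hi h
        rw [hO, Pi.add_apply, Pi.add_apply, emb_le, row_le, emb_le, add_zero] at h
        by_cases h1 : j = (i : ZMod N) ∧ x ∈ fs q τ a j
        · left
          exact ⟨(eq_cast_iff (by omega)).1 h1.1, part_sA q _ _ _ h1.2⟩
        · rw [ind_false h1, zero_add] at h
          have h2 := ind_ne h
          right
          exact ⟨(eq_cast_iff (by omega)).1 h2.1, part_eB q _ _ _ h2.2⟩
      rcases hval i x hi he with ⟨h6, h7⟩ | ⟨h6, h7⟩ <;>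
        rcases hval k y hk hf with ⟨h8, h9⟩ | ⟨h8, h9⟩
      · omega
      · rcases h7 with h7 | h7
        · exact h4 h7
        · rcases h9 with h9 | h9
          · rw [h7, h9] at h5; cases h5
          · rw [h7, h9] at h5; cases h5
      · rcases h7 with h7 | h7
        · exact h4 h7
        · rcases h9 with h9 | h9
          · rw [h7, h9] at h5; cases h5
          · rw [h7, h9] at h5; cases h5
      · omega
    · exact hs.elim
  · exact (show False from hs).elim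

end C2
end Pool.Agent.CC
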