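import Pool.Agent.Lib_helper74.CCF.C2f

/-! CORE2, part g: `core_LB`. -/

namespace Pool.Agent.CC

open Gph Core1

namespace C2

variable {N : ℕ} [NeZero N] {q : ℕ} {c : Bool} {τ : ZMod N → RT}

theorem cuts_congr {T : Finset ℕ} {a a' : ℕ → ℕ} (h : ∀ n ∈ T, a n = a' n) (j : ℕ) :
    cuts T a j = cuts T a' j := by
  unfold cuts
  ext x
  simp only [Finset.mem_image]
  constructor
  · rintro ⟨n, hn, rfl⟩
    exact ⟨n, hn, by rw [h n (Finset.mem_erase.1 hn).2]⟩
  · rintro ⟨n, hn, rfl⟩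
    exact ⟨n, hn, by rw [h n (Finset.mem_erase.1 hn).2]⟩

theorem rT_eA (q i : ℕ) : ∀ t : RT, t = .T → RowsOf q t (RT.eA q i t) (fun p => p < 2 + 2 * i) := by
  rintro _ rfl; exact rows_eA q i .T

theorem rT_sB (q i : ℕ) : ∀ t : RT, t = .T → RowsOf q t (RT.sB q i t) (fun p => 2 * i < p) := by
  rintro _ rfl; exact rows_sB q i .T

theorem cutp_mm (q a : ℕ) : ∀ t : RT, cutp q a t = mm q t → t = .T ∧ 1 + 2 * a = mm q t := by
  rintro (_ | _ | _) h
  · exact ⟨rfl, h⟩
  · have h' : 2 * q + 4 = 4 * q + 8 := h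
    omega
  · have h' : 2 * q + 4 = 4 * q + 8 := h
    omega

theorem cutp_one (q a : ℕ) : ∀ t : RT, cutp q a t = 1 → t = .T ∧ 1 + 2 * a = 1 := by
  rintro (_ | _ | _) h
  · exact ⟨rfl, h⟩
  · have h' : 2 * q + 4 = 1 := h
    omega
  · have h' : 2 * q + 4 = 1 := h
    omega

section
variable {P : (tstrip q c τ).PS} (W : Window q c τ P) (hl : LegFree' q c τ P)
variable (hW : (∃ j, τ j = .W) → 1 ≤ q) {a : ℕ → ℕ} (ha : ∀ n, a n < q + 2)
include W hl hW ha

theorem cut_h {j : ℕ} (hj : j ∈ TT τ) {i : ℕ} (hi : i + 1 < q + 2) :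
    cutSum (Rs q c τ) (ys P) (j, 2 + 2 * i) (j, 2 + 2 * i) (cuts (TT τ) a j) = 0 := by
  obtain ⟨⟨h1, h2⟩, hT⟩ := mem_TT.1 hj
  have hτ : ∀ k : ZMod N, k.val = j → τ k = .T := fun k hk => by
    rw [← hT, ← hk, ZMod.natCast_zmod_val]
  rw [cutSum_eq]
  have hz := zero_in W hW ha h1 h2 (i := i) (i' := i + 1) (by omega) (by omega)
    (by rw [hT]; show 2 + 2 * i ≤ 2 * (i + 1); omega)
    (by rw [hT]; show 2 * (i + 1) ≤ 2 * q + 3; omega)
    (by rw [hT]; show 1 ≤ 2 + 2 * i; omega)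
  rw [← hz]
  apply LI_congr
  · intro e he
    rw [low_val W hl a h1 h2 (fun j => RT.eA q i (τ j)) (fun p => p < 2 + 2 * i)
      (fun k hk => rT_eA q i _ (hτ k hk)) e he]
    exact (ind_congr (low_in a h2 h1 (by omega) e)).symm
  · intro e he
    rw [high_val W hl a h1 h2 (fun j => RT.sB q (i + 1) (τ j)) (fun p => 2 + 2 * i < p)
      (fun k hk => by
        have := rT_sB q (i + 1) _ (hτ k hk)
        rw [show 2 * (i + 1) = 2 + 2 * i by ring] at this
        exact this) e he]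
    exact (ind_congr (high_in a h2 h1 e)).symm

theorem cut_left' {j : ℕ} (hj : j ∈ TT τ)
    (hun : (j - 1, mm q (τ ((j - 1 : ℕ) : ZMod N))) ∈ cuts (TT τ) a j →
      (j - 1, mm q (τ ((j - 1 : ℕ) : ZMod N))) ∈ Rs q c τ →
      ∀ p ∈ Rs q c τ, lt (j, 0) p → ys P (j - 1, mm q (τ ((j - 1 : ℕ) : ZMod N))) p = 0) :
    cutSum (Rs q c τ) (ys P) (j - 1, mm q (τ ((j - 1 : ℕ) : ZMod N))) (j, 0)
      (cuts (TT τ) a j) = 0 := by
  obtain ⟨⟨h1, h2⟩, hT⟩ := mem_TT.1 hj
  have hN := W.big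
  rcases Nat.eq_or_lt_of_le h1 with h3 | h3
  · -- j = 1
    subst h3
    rw [cutSum_eq]
    apply LI_of_zero
    intro e f he hf
    exfalso
    obtain ⟨h4, h5, -⟩ := ind_ne he
    rcases e with ⟨j, x⟩ | j | ⟨j, hc⟩
    · have h4' : RT.isRow q (τ j) x ∧ 1 ≤ j.val ∧ j.val ≤ N - 9 := h4
      have h5' : j.val < 1 - 1 ∨ (j.val = 1 - 1 ∧ ploc q (τ j) x < mm q (τ ((1 - 1 : ℕ) : ZMod N))) := h5
      omega
    · have h5' : j.val + 1 < 1 - 1 ∨ (j.val + 1 = 1 - 1 ∧ 0 < mm q (τ ((1 - 1 : ℕ) : ZMod N))) := h5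
      omega
    · exact h4
  · obtain ⟨n, rfl⟩ : ∃ n, j = n + 1 := ⟨j - 1, by omega⟩
    rw [Nat.add_sub_cancel] at hun ⊢
    have hn1 : 1 ≤ n := by omega
    have hτ : ∀ k : ZMod N, k.val = n + 1 → τ k = .T := fun k hk => by
      rw [← hT, ← hk, ZMod.natCast_zmod_val]
    have hv : ((n : ℕ) : ZMod N).val = n := ZMod.val_natCast_of_lt (by omega)
    rw [cutSum_eq]
    have hz := zero_left W hW ha hn1 h2 hT
    set A : (tstrip q c τ).E → ZMod 2 := fun e => ind (RR q c τ e ∧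
      lt (pos q c τ e) (n, mm q (τ (n : ZMod N))) ∧ pos q c τ e ∉ cuts (TT τ) a (n + 1)) with hA
    set B : (tstrip q c τ).E → ZMod 2 := fun e => ind (RR q c τ e ∧
      lt (n + 1, 0) (pos q c τ e) ∧ pos q c τ e ∉ cuts (TT τ) a (n + 1)) with hB
    set C : (tstrip q c τ).E → ZMod 2 := fun e => ind (cutp q (a n) (τ (n : ZMod N)) =
      mm q (τ (n : ZMod N)) ∧ e = le q c τ (n : ZMod N) (RT.eR q (τ (n : ZMod N)))) with hC
    have e1 : LI P (A + C) B = 0 := by
      rw [← hz]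
      apply LI_congr
      · intro e he
        rw [left_val W hl a hn1 (by omega) e he]
        show A e + C e = _
        congr 1
        exact (ind_congr (low_left a h2 hn1 e)).symm
      · intro e he
        rw [high_val W hl a h1 h2 (fun j => RT.sB q 0 (τ j)) (fun p => 0 < p)
          (fun k hk => by
            have := rT_sB q 0 _ (hτ k hk)
            rw [Nat.mul_zero] at this
            exact this) e he]
        exact (ind_congr (high_in a h2 h1 e)).symm
    have e2 : LI P C B = 0 := by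
      apply LI_of_zero
      intro e f he hf
      obtain ⟨h4, rfl⟩ := ind_ne he
      obtain ⟨h5, h6, -⟩ := ind_ne hf
      obtain ⟨h7, h8⟩ := cutp_mm q (a n) _ h4
      have hR := row_eR q (τ (n : ZMod N))
      have hRR : RR q c τ (le q c τ (n : ZMod N) (RT.eR q (τ (n : ZMod N)))) :=
        ⟨hR.1, by omega, by omega⟩
      have hpos : pos q c τ (le q c τ (n : ZMod N) (RT.eR q (τ (n : ZMod N)))) =
          (n, mm q (τ (n : ZMod N))) := by
        show ((n : ZMod N).val, ploc q (τ (n : ZMod N)) (RT.eR q (τ (n : ZMod N)))) = _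
        rw [hv, hR.2]
      have h9 := hun (by
        unfold cuts
        rw [Finset.mem_image]
        exact ⟨n, Finset.mem_erase.2 ⟨by omega, mem_TT.2 ⟨⟨hn1, by omega⟩, h7⟩⟩, by rw [h8]⟩)
        (mem_Rs.2 ⟨_, hRR, hpos⟩) (pos q c τ f) (mem_Rs.2 ⟨f, h5, rfl⟩) h6
      rw [← hpos, ys_pos P hRR h5] at h9
      exact h9
    rw [LI_add_left, e2, add_zero] at e1
    exact e1

theorem cut_right' {j : ℕ} (hj : j ∈ TT τ)
    (hun : (j + 1, 1) ∈ cuts (TT τ) a j → (j + 1, 1) ∈ Rs q c τ →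
      ∀ p ∈ Rs q c τ, lt p (j + 1, 0) → ys P p (j + 1, 1) = 0) :
    cutSum (Rs q c τ) (ys P) (j + 1, 0) (j + 1, 1) (cuts (TT τ) a j) = 0 := by
  obtain ⟨⟨h1, h2⟩, hT⟩ := mem_TT.1 hj
  have hN := W.big
  have hτ : ∀ k : ZMod N, k.val = j → τ k = .T := fun k hk => by
    rw [← hT, ← hk, ZMod.natCast_zmod_val]
  rcases Nat.eq_or_lt_of_le h2 with h3 | h3
  · rw [cutSum_eq]
    apply LI_of_zero
    intro e f he hf
    exfalso
    obtain ⟨h4, h5, -⟩ := ind_ne hf
    rcases f with ⟨k, x⟩ | k | ⟨k, hc⟩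
    · have h4' : RT.isRow q (τ k) x ∧ 1 ≤ k.val ∧ k.val ≤ N - 9 := h4
      have h5' : j + 1 < k.val ∨ (j + 1 = k.val ∧ 1 < ploc q (τ k) x) := h5
      omega
    · have h4' : k.val ≤ N - 9 := h4
      have h5' : j + 1 < k.val + 1 ∨ (j + 1 = k.val + 1 ∧ 1 < 0) := h5
      omega
    · exact h4
  · have hn : j + 1 ≤ N - 9 := h3
    have hv : ((j + 1 : ℕ) : ZMod N).val = j + 1 := ZMod.val_natCast_of_lt (by omega)
    rw [cutSum_eq]
    have hz := zero_right W hW ha h1 hn hT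
    set A : (tstrip q c τ).E → ZMod 2 := fun e => ind (RR q c τ e ∧
      lt (pos q c τ e) (j + 1, 0) ∧ pos q c τ e ∉ cuts (TT τ) a j) with hA
    set B : (tstrip q c τ).E → ZMod 2 := fun e => ind (RR q c τ e ∧
      lt (j + 1, 1) (pos q c τ e) ∧ pos q c τ e ∉ cuts (TT τ) a j) with hB
    set C : (tstrip q c τ).E → ZMod 2 := fun e => ind (cutp q (a (j + 1))
      (τ ((j + 1 : ℕ) : ZMod N)) = 1 ∧
      e = le q c τ ((j + 1 : ℕ) : ZMod N) (RT.eL q (τ ((j + 1 : ℕ) : ZMod N)))) with hC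
    have e1 : LI P A (B + C) = 0 := by
      rw [← hz]
      apply LI_congr
      · intro e he
        rw [low_val W hl a h1 h2 (fun j => RT.eA q (q + 1) (τ j)) (fun p => p < 2 * q + 4)
          (fun k hk => by
            have := rT_eA q (q + 1) _ (hτ k hk)
            rw [show 2 + 2 * (q + 1) = 2 * q + 4 by ring] at this
            exact this) e he]
        exact (ind_congr (low_right a h2 h1 hT e)).symm
      · intro e he
        rw [right_val W hl a (by omega) hn e he]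
        show B e + C e = _
        congr 1
        exact (ind_congr (high_right a hn h1 e)).symm
    have e2 : LI P A C = 0 := by
      apply LI_of_zero
      intro e f he hf
      obtain ⟨h4, rfl⟩ := ind_ne hf
      obtain ⟨h5, h6, -⟩ := ind_ne he
      obtain ⟨h7, h8⟩ := cutp_one q (a (j + 1)) _ h4
      have hR := row_eL q (τ ((j + 1 : ℕ) : ZMod N))
      have hRR : RR q c τ (le q c τ ((j + 1 : ℕ) : ZMod N) (RT.eL q (τ ((j + 1 : ℕ) : ZMod N)))) :=
        ⟨hR.1, by omega, by omega⟩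
      have hpos : pos q c τ (le q c τ ((j + 1 : ℕ) : ZMod N)
          (RT.eL q (τ ((j + 1 : ℕ) : ZMod N)))) = (j + 1, 1) := by
        show (((j + 1 : ℕ) : ZMod N).val, ploc q (τ ((j + 1 : ℕ) : ZMod N))
          (RT.eL q (τ ((j + 1 : ℕ) : ZMod N)))) = _
        rw [hv, hR.2]
      have h9 := hun (by
        unfold cuts
        rw [Finset.mem_image]
        exact ⟨j + 1, Finset.mem_erase.2 ⟨by omega, mem_TT.2 ⟨⟨by omega, hn⟩, h7⟩⟩, by rw [h8]⟩)
        (mem_Rs.2 ⟨_, hRR, hpos⟩) (pos q c τ e) (mem_Rs.2 ⟨e, h5, rfl⟩) h6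
      rw [← hpos, ys_pos P h5 hRR] at h9
      exact h9
    rw [LI_add_right, e2, add_zero] at e1
    exact e1

theorem cut_sum : ∑ j ∈ TT τ, cutSum (Rs q c τ) (ys P) (j, 1 + 2 * a j) (j, 1 + 2 * a j)
    (cuts (TT τ) a j) = 1 := by
  have hN := W.big
  obtain ⟨D, hD1, hD2⟩ := exists_thru q c τ (by omega) hW (fun j => a j.val) (fun j => ha _)
  have hO : ∀ k : ℕ, D.slot k = emb q c τ (k : ZMod N) (fs q τ a (k : ZMod N)) +
    (tstrip q c τ).chi {rowE q c τ (k : ZMod N)} +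
      emb q c τ ((k + 1 : ℕ) : ZMod N) (fe q τ a ((k + 1 : ℕ) : ZMod N)) := by
    intro k
    unfold Thru.slot
    rw [hD2]
    have e1 : ((k + 1 : ℕ) : ZMod N) = (k : ZMod N) + 1 := by push_cast; ring
    rw [e1, hD1]
    rfl
  have hS := Thru.slots W.odd hN D
  have hphi := phi12 W hW hS
  have hP1 : P.L (railE q c τ D.slot) (railO q c τ D.slot) =
      ∑ i ∈ (Finset.range (N - 8)).filter (fun i => i % 2 = 0),
        ∑ k ∈ (Finset.range (N - 8)).filter (fun i => i % 2 = 1), LI P (D.slot i) (D.slot k) := by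
    unfold railE railO
    rw [P.L_sum_left]
    refine Finset.sum_congr rfl fun i hi => ?_
    rw [P.L_sum_right]
    refine Finset.sum_congr rfl fun k hk => ?_
    rw [Finset.mem_filter, Finset.mem_range] at hi hk
    exact L_eq_LI P (hS.ind i k (by omega) (by omega) (Nat.even_iff.2 hi.2) (Nat.odd_iff.2 hk.2))
      (slots_same hN hO (by omega) (by omega) hi.2 hk.2)
  rw [hP1, ← sum_cut _ (fun i j => LI_symm P _ _)] at hphi
  have hcut : ∀ n ∈ Finset.Ico 1 (N - 8), ∑ k ∈ Finset.range n, ∑ l ∈ Finset.Ico n (N - 8),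
      LI P (D.slot k) (D.slot l) =
      LI P (fun e => ind (LowP q c τ a n (fun p => p < cutp q (a n) (τ (n : ZMod N))) e))
        (fun e => ind (HighP q c τ a n (fun p => cutp q (a n) (τ (n : ZMod N)) < p) e)) := by
    intro n hn
    rw [Finset.mem_Ico] at hn
    have h1 : ∑ k ∈ Finset.range n, ∑ l ∈ Finset.Ico n (N - 8), LI P (D.slot k) (D.slot l) =
        LI P (∑ k ∈ Finset.range n, D.slot k) (∑ l ∈ Finset.Ico n (N - 8), D.slot l) := by
      rw [LI_sum_left]
      refine Finset.sum_congr rfl fun i hi => ?_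
      rw [LI_sum_right]
    rw [h1]
    apply LI_congr
    · intro e he
      rw [slots_low hN hO hn.1 (by omega) e (fun j x hjx => (nonfree_le W hl (hjx ▸ he)).1)]
      exact low_val W hl a hn.1 (by omega) (fun j => fe q τ a j) _
        (fun k hk => by
          subst hk
          rw [ZMod.natCast_zmod_val]
          exact rows_eB q (a k.val) (τ k)) e he
    · intro e he
      rw [slots_high hN hO hn.1 (by omega) e (fun j x hjx => (nonfree_le W hl (hjx ▸ he)).2.1)
        (fun j hj => (nonfree_row W (hj ▸ he)).2)]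
      exact high_val W hl a hn.1 (by omega) (fun j => fs q τ a j) _
        (fun k hk => by
          subst hk
          rw [ZMod.natCast_zmod_val]
          exact rows_sA q (a k.val) (τ k)) e he
  rw [Finset.sum_congr rfl hcut] at hphi
  rw [← hphi]
  have hsub : TT τ ⊆ Finset.Ico 1 (N - 8) := by
    intro k hk
    have := (mem_TT.1 hk).1
    rw [Finset.mem_Ico]; omega
  rw [← Finset.sum_subset hsub]
  · refine Finset.sum_congr rfl fun j hj => ?_
    obtain ⟨⟨h1, h2⟩, hT⟩ := mem_TT.1 hj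
    rw [cutSum_eq, hT]
    congr 1
    · funext e
      exact (ind_congr (low_in a h2 h1 (by omega) e)).symm
    · funext e
      exact (ind_congr (high_in a h2 h1 e)).symm
  · intro n hn hnT
    rw [Finset.mem_Ico] at hn
    have hτ : τ (n : ZMod N) ≠ .T := fun h => hnT (mem_TT.2 ⟨⟨hn.1, by omega⟩, h⟩)
    have hc : cutp q (a n) (τ (n : ZMod N)) = 2 * q + 4 ∧ cutA q 0 (τ (n : ZMod N)) = 2 * q + 4 ∧
        cutB q 0 (τ (n : ZMod N)) = 2 * q + 4 ∧ mm q (τ (n : ZMod N)) = 4 * q + 8 := by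
      rcases hh : τ (n : ZMod N) with _ | _ | _
      · exact absurd hh hτ
      · exact ⟨rfl, rfl, rfl, rfl⟩
      · exact ⟨rfl, rfl, rfl, rfl⟩
    obtain ⟨c1, c2, c3, c4⟩ := hc
    have hz := zero_in W hW ha hn.1 (by omega : n ≤ N - 9) (i := 0) (i' := 0) (by omega) (by omega)
      (by omega) (by omega) (by omega)
    rw [← hz]
    apply LI_congr
    · intro e he
      rw [c1]
      exact (low_val W hl a hn.1 (by omega) (fun j => RT.eA q 0 (τ j)) _
        (fun k hk => by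
          have hk' : k = (n : ZMod N) := (eq_cast_iff (by omega)).2 hk
          subst hk'
          have := rows_eA q 0 (τ (n : ZMod N))
          rw [c2] at this
          exact this) e he).symm
    · intro e he
      rw [c1]
      exact (high_val W hl a hn.1 (by omega) (fun j => RT.sB q 0 (τ j)) _
        (fun k hk => by
          have hk' : k = (n : ZMod N) := (eq_cast_iff (by omega)).2 hk
          subst hk'
          have := rows_sB q 0 (τ (n : ZMod N))
          rw [c3] at this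
          exact this) e he).symm

end

theorem mm_pos (q : ℕ) : ∀ t : RT, 1 ≤ mm q t := by
  rintro (_ | _ | _)
  · show 1 ≤ 2 * q + 3; omega
  · show 1 ≤ 4 * q + 8; omega
  · show 1 ≤ 4 * q + 8; omega

theorem main_count {P : (tstrip q c τ).PS} (W : Window q c τ P)
    (hW : (∃ j, τ j = .W) → 1 ≤ q) (hl : LegFree' q c τ P) :
    q + 2 ≤ ((Rs q c τ ×ˢ Rs q c τ).filter
      (fun p => lt p.1 p.2 ∧ ys P p.1 p.2 = 1)).card := by
  classical
  have hext : ∀ a : ℕ → ℕ, (∀ n ∈ TT τ, a n < q + 2) →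
      ∃ a' : ℕ → ℕ, (∀ n, a' n < q + 2) ∧ ∀ n ∈ TT τ, a n = a' n := by
    intro a ha
    refine ⟨fun n => if n ∈ TT τ then a n else 0, fun n => ?_, fun n hn => ?_⟩
    · by_cases h : n ∈ TT τ
      · simp only [h, if_true]; exact ha n h
      · simp only [h, if_false]; omega
    · simp only [hn, if_true]
  refine core1' (q + 2) (by omega) (TT τ) (fun n hn => (mem_TT.1 hn).1.1)
    (fun k => mm q (τ (k : ZMod N))) ?_ (fun n => mm_pos q _) (Rs q c τ) ?_ (ys P) ?_ ?_ ?_ ?_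
  · intro n hn
    show mm q (τ (n : ZMod N)) = _
    rw [(mem_TT.1 hn).2]
    show 2 * q + 3 = 2 * (q + 2) - 1
    omega
  · intro p hp
    obtain ⟨e, h1, rfl⟩ := mem_Rs.1 hp
    rcases e with ⟨j, x⟩ | j | ⟨j, hc⟩
    · have h1' : RT.isRow q (τ j) x ∧ 1 ≤ j.val ∧ j.val ≤ N - 9 := h1
      show ploc q (τ j) x ≤ mm q (τ ((j.val : ℕ) : ZMod N))
      rw [ZMod.natCast_zmod_val]
      exact (row_bounds q _ x h1'.1).2
    · exact Nat.zero_le _
    · exact h1.elim
  · intro a ha j hj i hi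
    obtain ⟨a', ha', h⟩ := hext a ha
    rw [cuts_congr h j]
    exact cut_h W hl hW ha' hj hi
  · intro a ha j hj hun
    obtain ⟨a', ha', h⟩ := hext a ha
    rw [cuts_congr h j] at hun ⊢
    exact cut_left' W hl hW ha' hj hun
  · intro a ha j hj hun
    obtain ⟨a', ha', h⟩ := hext a ha
    rw [cuts_congr h j] at hun ⊢
    exact cut_right' W hl hW ha' hj hun
  · intro a ha
    obtain ⟨a', ha', h⟩ := hext a ha
    rw [← cut_sum W hl hW ha']
    refine Finset.sum_congr rfl fun j hj => ?_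
    rw [cuts_congr h j, h j hj]

end C2

open C2 in
theorem core_LB' {N : ℕ} [NeZero N] {q : ℕ} {c : Bool} {τ : ZMod N → RT} {P : (tstrip q c τ).PS}
    (W : Window q c τ P) (hW : (∃ j, τ j = .W) → 1 ≤ q) (hl : LegFree' q c τ P)
    (hdec : DecidablePred (RowT q c τ)) :
    2 * (q + 2) ≤ (P.cross.filter (fun p => RowT q c τ p.1 ∧ RowT q c τ p.2)).card := by
  classical
  have h0 := main_count W hW hl
  set BB := (Rs q c τ ×ˢ Rs q c τ).filter (fun p => lt p.1 p.2 ∧ ys P p.1 p.2 = 1) with hBB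
  let F : Finset ((tstrip q c τ).E × (tstrip q c τ).E) := Finset.univ.filter (fun p =>
    RR q c τ p.1 ∧ RR q c τ p.2 ∧ lt (pos q c τ p.1) (pos q c τ p.2) ∧ yy P p.1 p.2 = 1)
  have h1 : BB.card ≤ F.card := by
    have hsub : BB ⊆ F.image (fun p => (pos q c τ p.1, pos q c τ p.2)) := by
      rintro ⟨p, p'⟩ hp
      rw [hBB, Finset.mem_filter, Finset.mem_product] at hp
      obtain ⟨⟨hp1, hp2⟩, hp3, hp4⟩ := hp
      obtain ⟨e, he, rfl⟩ := mem_Rs.1 hp1
      obtain ⟨f, hf, rfl⟩ := mem_Rs.1 hp2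
      rw [Finset.mem_image]
      refine ⟨(e, f), ?_, rfl⟩
      rw [Finset.mem_filter]
      exact ⟨Finset.mem_univ _, he, hf, hp3, by rw [← ys_pos P he hf]; exact hp4⟩
    exact le_trans (Finset.card_le_card hsub) Finset.card_image_le
  have hRT : ∀ e, RR q c τ e → RowT q c τ e := by
    rintro (⟨j, x⟩ | j | ⟨j, hc⟩) h
    · exact h.1
    · trivial
    · exact h.elim
  have hyy : ∀ e f, yy P e f = 1 → (tstrip q c τ).Ind e f ∧ P.X e f = 1 := by
    intro e f h
    by_cases h' : (tstrip q c τ).Ind e f ∧ ¬ SameP e f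
    · rw [yy_pos P h'.1 h'.2] at h; exact ⟨h'.1, h⟩
    · rw [yy_neg P h'] at h; exact absurd h (by decide)
  have h2 : F ∪ F.image Prod.swap ⊆
      P.cross.filter (fun p => RowT q c τ p.1 ∧ RowT q c τ p.2) := by
    rintro ⟨e, f⟩ h
    rw [Finset.mem_union, Finset.mem_image] at h
    rw [Finset.mem_filter]
    rcases h with h | ⟨⟨e', f'⟩, h, h3⟩
    · rw [Finset.mem_filter] at h
      obtain ⟨-, h4, h5, -, h6⟩ := h
      exact ⟨PS.mem_cross.2 (hyy _ _ h6), hRT _ h4, hRT _ h5⟩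
    · rw [Finset.mem_filter] at h
      obtain ⟨-, h4, h5, -, h6⟩ := h
      simp only [Prod.swap, Prod.mk.injEq] at h3
      obtain ⟨rfl, rfl⟩ := h3
      rw [yy_symm] at h6
      exact ⟨PS.mem_cross.2 (hyy _ _ h6), hRT _ h5, hRT _ h4⟩
  have h3 : Disjoint F (F.image Prod.swap) := by
    rw [Finset.disjoint_left]
    rintro ⟨e, f⟩ h h'
    rw [Finset.mem_image] at h'
    obtain ⟨⟨e', f'⟩, h4, h5⟩ := h'
    rw [Finset.mem_filter] at h h4
    simp only [Prod.swap, Prod.mk.injEq] at h5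
    obtain ⟨rfl, rfl⟩ := h5
    have h6 := h.2.2.2.1
    have h7 := h4.2.2.2.1
    unfold lt at h6 h7
    simp only at h6 h7
    omega
  have h4 : (F.image Prod.swap).card = F.card :=
    Finset.card_image_of_injective _ Prod.swap_injective
  have h5 := Finset.card_le_card h2
  rw [Finset.card_union_of_disjoint h3, h4] at h5
  omega

theorem core_LB {N : ℕ} [NeZero N] {q : ℕ} {c : Bool} {τ : ZMod N → RT} {P : (tstrip q c τ).PS}
    (W : Window q c τ P) (hW : (∃ j, τ j = .W) → 1 ≤ q) (hl : LegFree q c τ P)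
    (hdec : DecidablePred (RowT q c τ)) :
    2 * (q + 2) ≤ (P.cross.filter (fun p => RowT q c τ p.1 ∧ RowT q c τ p.2)).card :=
  core_LB' W hW (fun j e he f hI _ => hl j e he f hI) hdec

end Pool.Agent.CC
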