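import Pool.Agent.Lib_helper74.CCF.Strip

/-!
# Block 3C of MP_198240: the strips are 3-connected

`Loc.Ok c L` collects what is needed of a local graph; it is proved for `TLoc (n+1)`, `GLoc n`,
`WLoc n` (`c = true`). `strip_conn` is the statement for all closed strips of such regions.
-/

namespace Pool.Agent.CC

open Gph

/-- The local conditions. `Q` = deleted, `lost` = separated from all hubs, `O` = there is a deleted
vertex outside the closed region. -/
structure Loc.Ok (c : Bool) (L : Loc) : Prop where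
  nolost : ∀ (Q : L.V ⊕ Bool → Prop) (lost : L.V → Prop) (O : Prop),
    (∀ e x y, L.a e = .inl x → L.b e = .inl y → lost x → Q (.inl y) ∨ lost y) →
    (∀ e x y, L.a e = .inl x → L.b e = .inl y → lost y → Q (.inl x) ∨ lost x) →
    (∀ e x b, L.a e = .inl x → L.b e = .inr b → lost x → Q (.inr b)) →
    (lost L.en → O) → (lost L.ex → O) →
    (c = true → ∀ v, L.bl = some v → lost v → O) →
    (c = true → ∀ v, L.br = some v → lost v → O) →
    (∀ x y z, x ≠ y → x ≠ z → y ≠ z → Q x → Q y → Q z → False) →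
    (O → ∀ x y, x ≠ y → Q x → Q y → False) → ∀ v, ¬ lost v
  ports : ∀ (Q : L.V ⊕ Bool → Prop) (lost : L.V → Prop),
    (∀ v, ¬ Q (.inl v)) →
    (∀ e x y, L.a e = .inl x → L.b e = .inl y → lost x → Q (.inl y) ∨ lost y) →
    (∀ e x y, L.a e = .inl x → L.b e = .inl y → lost y → Q (.inl x) ∨ lost x) →
    (∀ e x b, L.a e = .inl x → L.b e = .inr b → lost x → Q (.inr b)) →
    (lost L.en → Q (.inr true)) ∧ (lost L.ex → Q (.inr false)) ∧
    (∀ v, L.bl = some v → lost v → Q (.inr true)) ∧
    (∀ v, L.br = some v → lost v → Q (.inr false))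
  link : ∀ (Q : L.V ⊕ Bool → Prop) (R : L.V ⊕ Bool → L.V ⊕ Bool → Prop),
    Equivalence R → (∀ e, ¬ Q (L.a e) → ¬ Q (L.b e) → R (L.a e) (L.b e)) →
    ¬ Q (.inr false) → ¬ Q (.inr true) → (∀ x y, x ≠ y → Q (.inl x) → Q (.inl y) → False) →
    R (.inr false) (.inr true)
  skip : ∀ (Q : L.V ⊕ Bool → Prop) (R : L.V ⊕ Bool → L.V ⊕ Bool → Prop),
    Equivalence R → (∀ e, ¬ Q (L.a e) → ¬ Q (L.b e) → R (L.a e) (L.b e)) →
    (∀ v, ¬ Q (.inl v)) →
    (¬ Q (.inr false) → R (.inr false) (.inl L.ex)) ∧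
    (¬ Q (.inr true) → R (.inl L.en) (.inr true))

theorem inl_fin_ne {m : ℕ} {i j : Fin m} (h : i.1 ≠ j.1) :
    (Sum.inl i : Fin m ⊕ Bool) ≠ Sum.inl j :=
  fun e => h (congrArg Fin.val (Sum.inl.inj e))

/-! ### `T` -/

theorem tleg_even {n i : ℕ} (h : i < 2 * (n + 1) + 2) (hi : i % 2 = 0) :
    (TLoc (n + 1)).b (.inl ⟨i, h⟩) = .inr true := by
  show Sum.inr (decide (i % 2 = 0)) = Sum.inr true
  rw [decide_eq_true hi]

theorem tleg_odd {n i : ℕ} (h : i < 2 * (n + 1) + 2) (hi : i % 2 = 1) :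
    (TLoc (n + 1)).b (.inl ⟨i, h⟩) = .inr false := by
  show Sum.inr (decide (i % 2 = 0)) = Sum.inr false
  rw [decide_eq_false (by omega)]

theorem tOk (c : Bool) (n : ℕ) : (TLoc (n + 1)).Ok c := by
  refine ⟨?_, ?_, ?_, ?_⟩
  · intro Q lost O h1 h2 h3 hen hex hbl hbr hQ hO v hv
    -- leg and row facts
    have leg : ∀ i : Fin (2 * (n + 1) + 2), lost i → Q (.inr (decide (i.1 % 2 = 0))) :=
      fun i hi => h3 (.inl i) i _ rfl rfl hi
    have up : ∀ i (h : i + 1 < 2 * (n + 1) + 2), lost ⟨i, by omega⟩ →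
        Q (.inl ⟨i + 1, h⟩) ∨ lost ⟨i + 1, h⟩ :=
      fun i h hi => h1 (.inr ⟨i, by omega⟩) _ _ rfl rfl hi
    have down : ∀ i (h : i + 1 < 2 * (n + 1) + 2), lost ⟨i + 1, h⟩ →
        Q (.inl ⟨i, by omega⟩) ∨ lost ⟨i, by omega⟩ :=
      fun i h hi => h2 (.inr ⟨i, by omega⟩) _ _ rfl rfl hi
    -- both hubs deleted: nothing is lost
    have both : Q (.inr false) → Q (.inr true) → ∀ i : Fin (2 * (n + 1) + 2), ¬ lost i := by
      intro ha hb i hi
      have hq : ∀ x, ¬ Q (.inl x) := fun x hx => hQ _ _ _ (by simp) Sum.inr_ne_inl Sum.inr_ne_inl ha hb hx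
      have key : ∀ k, ∀ (h : i.1 + k < 2 * (n + 1) + 2), lost ⟨i.1 + k, h⟩ := by
        intro k
        induction k with
        | zero => intro h; exact hi
        | succ k ih =>
          intro h
          exact (up (i.1 + k) h (ih (by omega))).resolve_left (hq _)
      have := key (2 * (n + 1) + 1 - i.1) (by omega)
      have e : (⟨i.1 + (2 * (n + 1) + 1 - i.1), by omega⟩ : Fin (2 * (n + 1) + 2))
          = (TLoc (n + 1)).ex := by
        apply Fin.ext; simp only [TLoc]; omega
      rw [e] at this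
      exact hO (hex this) _ _ (by simp) ha hb
    have both' : ∀ b, Q (.inr b) → Q (.inr (!b)) → ∀ i : Fin (2 * (n + 1) + 2), ¬ lost i := by
      intro b hb hb' i
      cases b
      · exact both hb hb' i
      · exact both hb' hb i
    -- neighbours have different hubs
    have par : ∀ i : ℕ, decide ((i + 1) % 2 = 0) = !decide (i % 2 = 0) := by
      intro i
      rcases Nat.mod_two_eq_zero_or_one i with h | h
      · have : (i + 1) % 2 = 1 := by omega
        simp [h, this]
      · have : (i + 1) % 2 = 0 := by omega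
        simp [h, this]
    obtain ⟨i, hi⟩ := v
    have hl := leg ⟨i, hi⟩ hv
    by_cases hlast : i + 1 < 2 * (n + 1) + 2
    · rcases up i hlast hv with hq | hq
      · -- the next vertex is deleted
        rcases Nat.eq_zero_or_pos i with h0 | h0
        · subst h0
          exact hO (hen hv) _ _ Sum.inr_ne_inl hl hq
        · obtain ⟨i, rfl⟩ : ∃ k, i = k + 1 := ⟨i - 1, by omega⟩
          rcases down i hi hv with hd | hd
          · exact hQ _ _ _ Sum.inr_ne_inl Sum.inr_ne_inl (inl_fin_ne (by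
              show i + 1 + 1 ≠ i
              omega)) hl hq hd
          · have hl' := leg _ hd
            simp only [par] at hl
            exact both' _ hl' hl _ hd
      · have hl' := leg _ hq
        simp only [par] at hl'
        exact both' _ hl hl' _ hq
    · obtain ⟨i, rfl⟩ : ∃ k, i = k + 1 := ⟨i - 1, by omega⟩
      have e : (⟨i + 1, hi⟩ : Fin (2 * (n + 1) + 2)) = (TLoc (n + 1)).ex := by
        apply Fin.ext; simp only [TLoc]; omega
      have ho : O := hex (e ▸ hv)
      rcases down i hi hv with hd | hd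
      · exact hO ho _ _ Sum.inr_ne_inl hl hd
      · have hl' := leg _ hd
        simp only [par] at hl
        exact both' _ hl' hl _ hd
  · intro Q lost hq h1 h2 h3
    exact ⟨fun h => h3 _ _ _ rfl (tleg_even (by omega) rfl) h,
      fun h => h3 _ _ _ rfl (tleg_odd (by omega) (by omega)) h,
      fun v hv => by simp [TLoc] at hv, fun v hv => by simp [TLoc] at hv⟩
  · intro Q R hR hE ha hb hq
    have path : ∀ i (h : i + 1 < 2 * (n + 1) + 2), i % 2 = 0 →
        ¬ Q (.inl (⟨i, by omega⟩ : Fin (2 * (n + 1) + 2))) →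
        ¬ Q (.inl (⟨i + 1, h⟩ : Fin (2 * (n + 1) + 2))) →
        R (.inr false) (.inr true) := by
      intro i h hi h0 h1
      have e1 := hE (.inl ⟨i + 1, h⟩) h1 (by rw [tleg_odd h (by omega)]; exact ha)
      have e2 := hE (.inl ⟨i, by omega⟩) h0 (by rw [tleg_even _ hi]; exact hb)
      have e3 := hE (.inr ⟨i, by omega⟩) h0 h1
      rw [tleg_odd h (by omega)] at e1
      rw [tleg_even _ hi] at e2
      exact hR.trans (hR.symm e1) (hR.trans (hR.symm e3) e2)
    by_cases h0 : Q (.inl (⟨0, by omega⟩ : Fin (2 * (n + 1) + 2))) ∨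
        Q (.inl (⟨1, by omega⟩ : Fin (2 * (n + 1) + 2)))
    · refine path 2 (by omega) rfl (fun h => ?_) (fun h => ?_)
      · rcases h0 with h0 | h0
        · exact hq _ _ (fun e => absurd (congrArg Fin.val e) (by simp)) h0 h
        · exact hq _ _ (fun e => absurd (congrArg Fin.val e) (by simp)) h0 h
      · rcases h0 with h0 | h0
        · exact hq _ _ (fun e => absurd (congrArg Fin.val e) (by simp)) h0 h
        · exact hq _ _ (fun e => absurd (congrArg Fin.val e) (by simp)) h0 h
    · push Not at h0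
      exact path 0 (by omega) rfl h0.1 h0.2
  · intro Q R hR hE hq
    refine ⟨fun ha => ?_, fun hb => ?_⟩
    · have h := hE (.inl (TLoc (n + 1)).ex) (hq _)
        (by rw [show (TLoc (n + 1)).ex = ⟨2 * (n + 1) + 1, by omega⟩ from rfl,
              tleg_odd _ (by omega)]; exact ha)
      rw [show (TLoc (n + 1)).b (.inl (TLoc (n + 1)).ex) = .inr false from
        tleg_odd _ (by omega)] at h
      exact hR.symm h
    · exact hE (.inl (TLoc (n + 1)).en) (hq _) hb

/-! ### `G` -/

theorem gleg_a {n : ℕ} (s : Bool) {k : ℕ} (h : k < 2 * n + 2) :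
    (GLoc n).a (s, .inl ⟨k, by omega⟩) = .inl (s, (⟨k, h⟩ : Fin (2 * n + 2))) := by
  show Sum.inl (s, (⟨min k (2 * n + 1), _⟩ : Fin (2 * n + 2))) = _
  have : min k (2 * n + 1) = k := by omega
  simp only [this]
  rfl

theorem gleg_a2 {n : ℕ} (s : Bool) :
    (GLoc n).a (s, .inl ⟨2 * n + 2, by omega⟩) =
      .inl (s, (⟨2 * n + 1, by omega⟩ : Fin (2 * n + 2))) := by
  show Sum.inl (s, (⟨min (2 * n + 2) (2 * n + 1), _⟩ : Fin (2 * n + 2))) = _
  have : min (2 * n + 2) (2 * n + 1) = 2 * n + 1 := by omega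
  simp only [this]
  rfl

theorem gleg_b {n : ℕ} (s : Bool) {k : ℕ} (h : k < 2 * n + 3) :
    (GLoc n).b (s, .inl ⟨k, h⟩) = .inr (xor s (decide (k % 2 = 0))) := rfl

theorem par_succ (s : Bool) (i : ℕ) :
    xor s (decide ((i + 1) % 2 = 0)) = !(xor s (decide (i % 2 = 0))) := by
  rcases Nat.mod_two_eq_zero_or_one i with h | h
  · have : (i + 1) % 2 = 1 := by omega
    simp [h, this]
  · have : (i + 1) % 2 = 0 := by omega
    simp [h, this]

theorem gOk (c : Bool) (n : ℕ) : (GLoc n).Ok c := by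
  refine ⟨?_, ?_, ?_, ?_⟩
  · intro Q lost O h1 h2 h3 hen hex hbl hbr hQ hO v hv
    have leg : ∀ s i (h : i < 2 * n + 2), lost (s, (⟨i, h⟩ : Fin (2 * n + 2))) →
        Q (.inr (xor s (decide (i % 2 = 0)))) :=
      fun s i h hi => h3 _ _ _ (gleg_a s h) (gleg_b s _) hi
    have leg2 : ∀ s, lost (s, (⟨2 * n + 1, by omega⟩ : Fin (2 * n + 2))) →
        Q (.inr (xor s (decide ((2 * n + 2) % 2 = 0)))) :=
      fun s hi => h3 _ _ _ (gleg_a2 s) (gleg_b s _) hi
    have up : ∀ s i (h : i + 1 < 2 * n + 2),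
        lost (s, (⟨i, by omega⟩ : Fin (2 * n + 2))) →
        Q (.inl (s, (⟨i + 1, h⟩ : Fin (2 * n + 2)))) ∨
          lost (s, (⟨i + 1, h⟩ : Fin (2 * n + 2))) :=
      fun s i h hi => h1 (s, .inr ⟨i, by omega⟩) _ _ rfl rfl hi
    have down : ∀ s i (h : i + 1 < 2 * n + 2),
        lost (s, (⟨i + 1, h⟩ : Fin (2 * n + 2))) →
        Q (.inl (s, (⟨i, by omega⟩ : Fin (2 * n + 2)))) ∨
          lost (s, (⟨i, by omega⟩ : Fin (2 * n + 2))) :=
      fun s i h hi => h2 (s, .inr ⟨i, by omega⟩) _ _ rfl rfl hi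
    have port : ∀ s, lost (s, (⟨0, by omega⟩ : Fin (2 * n + 2))) → O := by
      intro s
      cases s
      · exact hen
      · exact hex
    have both : Q (.inr false) → Q (.inr true) → ∀ s i (h : i < 2 * n + 2),
        ¬ lost (s, (⟨i, h⟩ : Fin (2 * n + 2))) := by
      intro ha hb s i h hi
      have hq : ∀ x, ¬ Q (.inl x) := fun x hx =>
        hQ _ _ _ (by simp) Sum.inr_ne_inl Sum.inr_ne_inl ha hb hx
      have key : ∀ k (h : k < 2 * n + 2), lost (s, (⟨k, h⟩ : Fin (2 * n + 2))) →
          lost (s, (⟨0, by omega⟩ : Fin (2 * n + 2))) := by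
        intro k
        induction k with
        | zero => intro h hh; exact hh
        | succ k ih =>
          intro h hh
          exact ih (by omega) ((down s k h hh).resolve_left (hq _))
      exact hO (port s (key i h hi)) _ _ (by simp) ha hb
    have both' : ∀ b, Q (.inr b) → Q (.inr (!b)) → ∀ s i (h : i < 2 * n + 2),
        ¬ lost (s, (⟨i, h⟩ : Fin (2 * n + 2))) := by
      intro b hb hb'
      cases b
      · exact both hb hb'
      · exact both hb' hb
    obtain ⟨s, i, hi⟩ := v
    have hl := leg s i hi hv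
    by_cases hlast : i + 1 < 2 * n + 2
    · rcases up s i hlast hv with hq | hq
      · rcases Nat.eq_zero_or_pos i with h0 | h0
        · subst h0
          exact hO (port s hv) _ _ Sum.inr_ne_inl hl hq
        · obtain ⟨i, rfl⟩ : ∃ k, i = k + 1 := ⟨i - 1, by omega⟩
          rcases down s i hi hv with hd | hd
          · refine hQ _ _ _ Sum.inr_ne_inl Sum.inr_ne_inl (fun e => ?_) hl hq hd
            have := congrArg (fun x : Bool × Fin (2 * n + 2) => x.2.1) (Sum.inl.inj e)
            simp only at this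
            omega
          · have hl' := leg s _ _ hd
            rw [par_succ] at hl
            exact both' _ hl' hl _ _ _ hd
      · have hl' := leg s _ _ hq
        rw [par_succ] at hl'
        exact both' _ hl hl' _ _ _ hq
    · have e : i = 2 * n + 1 := by omega
      subst e
      have hl' := leg2 s hv
      rw [par_succ] at hl'
      exact both' _ hl hl' _ _ _ hv
  · intro Q lost hq h1 h2 h3
    exact ⟨fun h => h3 _ _ _ (gleg_a false (by omega)) (gleg_b false (by omega)) h,
      fun h => h3 _ _ _ (gleg_a true (by omega)) (gleg_b true (by omega)) h,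
      fun v hv => by simp [GLoc] at hv, fun v hv => by simp [GLoc] at hv⟩
  · intro Q R hR hE ha hb hq
    have path : ∀ s, ¬ Q (.inl (s, (⟨2 * n + 1, by omega⟩ : Fin (2 * n + 2)))) →
        R (.inr false) (.inr true) := by
      intro s h0
      have o1 : decide ((2 * n + 1) % 2 = 0) = false := decide_eq_false (by omega)
      have o2 : decide ((2 * n + 2) % 2 = 0) = true := decide_eq_true (by omega)
      have hb' : ∀ b, ¬ Q (.inr b) := by
        intro b; cases b
        · exact ha
        · exact hb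
      have e1 := hE (s, .inl ⟨2 * n + 1, by omega⟩) (by rw [gleg_a s (by omega)]; exact h0)
        (by rw [gleg_b]; exact hb' _)
      have e2 := hE (s, .inl ⟨2 * n + 2, by omega⟩) (by rw [gleg_a2 s]; exact h0)
        (by rw [gleg_b]; exact hb' _)
      rw [gleg_a s (by omega), gleg_b, o1] at e1
      rw [gleg_a2 s, gleg_b, o2] at e2
      cases s
      · exact hR.trans (hR.symm e1) e2
      · exact hR.trans (hR.symm e2) e1
    by_cases h0 : Q (.inl (false, (⟨2 * n + 1, by omega⟩ : Fin (2 * n + 2))))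
    · refine path true (fun h => ?_)
      exact hq _ _ (fun e => by simpa using congrArg Prod.fst e) h0 h
    · exact path false h0
  · intro Q R hR hE hq
    refine ⟨fun ha => ?_, fun hb => ?_⟩
    · have h := hE (true, .inl ⟨0, by omega⟩) (by rw [gleg_a true (by omega)]; exact hq _) ha
      rw [gleg_a true (by omega)] at h
      exact hR.symm h
    · have h := hE (false, .inl ⟨0, by omega⟩) (by rw [gleg_a false (by omega)]; exact hq _) hb
      rw [gleg_a false (by omega)] at h
      exact h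

/-! ### `W` -/

theorem wleg_a {n : ℕ} (s : Bool) {k : ℕ} (h : k < 2 * n + 2) :
    (WLoc n).a (s, .leg ⟨k, by omega⟩) = .inl (s, .x (⟨k, h⟩ : Fin (2 * n + 2))) := by
  show Sum.inl (s, WV.x (⟨min k (2 * n + 1), _⟩ : Fin (2 * n + 2))) = _
  have : min k (2 * n + 1) = k := by omega
  simp only [this]
  rfl

theorem wleg_a2 {n : ℕ} (s : Bool) :
    (WLoc n).a (s, .leg ⟨2 * n + 2, by omega⟩) =
      .inl (s, .x (⟨2 * n + 1, by omega⟩ : Fin (2 * n + 2))) := by
  show Sum.inl (s, WV.x (⟨min (2 * n + 2) (2 * n + 1), _⟩ : Fin (2 * n + 2))) = _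
  have : min (2 * n + 2) (2 * n + 1) = 2 * n + 1 := by omega
  simp only [this]
  rfl

theorem wleg_b {n : ℕ} (s : Bool) {k : ℕ} (h : k < 2 * n + 3) :
    (WLoc n).b (s, .leg ⟨k, h⟩) = .inr (xor s (decide (k % 2 = 0 ∧ k ≠ 0))) := rfl

theorem par_succ' (s : Bool) (i : ℕ) (hi : i ≠ 0) :
    xor s (decide ((i + 1) % 2 = 0 ∧ i + 1 ≠ 0)) =
      !(xor s (decide (i % 2 = 0 ∧ i ≠ 0))) := by
  rcases Nat.mod_two_eq_zero_or_one i with h | h
  · have : (i + 1) % 2 = 1 := by omega
    simp [h, this, hi]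
  · have : (i + 1) % 2 = 0 := by omega
    simp [h, this]

theorem wOk (n : ℕ) : (WLoc n).Ok true := by
  refine ⟨?_, ?_, ?_, ?_⟩
  · intro Q lost O h1 h2 h3 hen hex hbl hbr hQ hO v hv
    have leg : ∀ s i (h : i < 2 * n + 2), lost (s, .x (⟨i, h⟩ : Fin (2 * n + 2))) →
        Q (.inr (xor s (decide (i % 2 = 0 ∧ i ≠ 0)))) :=
      fun s i h hi => h3 _ _ _ (wleg_a s h) (wleg_b s _) hi
    have leg2 : ∀ s, lost (s, .x (⟨2 * n + 1, by omega⟩ : Fin (2 * n + 2))) →
        Q (.inr (xor s (decide ((2 * n + 2) % 2 = 0 ∧ 2 * n + 2 ≠ 0)))) :=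
      fun s hi => h3 _ _ _ (wleg_a2 s) (wleg_b s _) hi
    have up : ∀ s i (h : i + 1 < 2 * n + 2),
        lost (s, .x (⟨i, by omega⟩ : Fin (2 * n + 2))) →
        Q (.inl (s, .x (⟨i + 1, h⟩ : Fin (2 * n + 2)))) ∨
          lost (s, .x (⟨i + 1, h⟩ : Fin (2 * n + 2))) :=
      fun s i h hi => h1 (s, .row ⟨i, by omega⟩) _ _ rfl rfl hi
    have down : ∀ s i (h : i + 1 < 2 * n + 2),
        lost (s, .x (⟨i + 1, h⟩ : Fin (2 * n + 2))) →
        Q (.inl (s, .x (⟨i, by omega⟩ : Fin (2 * n + 2)))) ∨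
          lost (s, .x (⟨i, by omega⟩ : Fin (2 * n + 2))) :=
      fun s i h hi => h2 (s, .row ⟨i, by omega⟩) _ _ rfl rfl hi
    have b1 : ∀ s, lost (s, WV.v1) → Q (.inr (!s)) := fun s hi => h3 (s, .b1) _ _ rfl rfl hi
    have b2 : ∀ s, lost (s, WV.v2) → Q (.inr (!s)) := fun s hi => h3 (s, .b2) _ _ rfl rfl hi
    have eta1 : ∀ s, lost (s, WV.v1) → Q (.inl (s, WV.v2)) ∨ lost (s, WV.v2) :=
      fun s hi => h1 (s, .eta) _ _ rfl rfl hi
    have eta2 : ∀ s, lost (s, WV.v2) → Q (.inl (s, WV.v1)) ∨ lost (s, WV.v1) :=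
      fun s hi => h2 (s, .eta) _ _ rfl rfl hi
    have sig1 : ∀ s, lost (s, WV.v2) → Q (.inl (s, WV.w)) ∨ lost (s, WV.w) :=
      fun s hi => h1 (s, .sig) _ _ rfl rfl hi
    have sig2 : ∀ s, lost (s, WV.w) → Q (.inl (s, WV.v2)) ∨ lost (s, WV.v2) :=
      fun s hi => h2 (s, .sig) _ _ rfl rfl hi
    have s31 : ∀ s, lost (s, WV.w) → Q (.inl (s, .x (⟨0, by omega⟩ : Fin (2 * n + 2)))) ∨
        lost (s, .x (⟨0, by omega⟩ : Fin (2 * n + 2))) :=
      fun s hi => h1 (s, .s3) _ _ rfl rfl hi
    have s32 : ∀ s, lost (s, .x (⟨0, by omega⟩ : Fin (2 * n + 2))) →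
        Q (.inl (s, WV.w)) ∨ lost (s, WV.w) :=
      fun s hi => h2 (s, .s3) _ _ rfl rfl hi
    have portw : ∀ s, lost (s, WV.w) → O := by
      intro s
      cases s
      · exact hen
      · exact hex
    have portv : ∀ s, lost (s, WV.v1) → O := by
      intro s
      cases s
      · exact hbl rfl _ rfl
      · exact hbr rfl _ rfl
    have both : Q (.inr false) → Q (.inr true) → ∀ v, ¬ lost v := by
      intro ha hb v hi
      have hq : ∀ x, ¬ Q (.inl x) := fun x hx =>
        hQ _ _ _ (by simp) Sum.inr_ne_inl Sum.inr_ne_inl ha hb hx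
      have hO' : ¬ O := fun h => hO h _ _ (by simp) ha hb
      obtain ⟨s, v⟩ := v
      have hw : ¬ lost (s, WV.w) := fun h => hO' (portw s h)
      cases v with
      | v1 => exact hO' (portv s hi)
      | v2 => exact hw ((sig1 s hi).resolve_left (hq _))
      | w => exact hw hi
      | x i =>
        obtain ⟨i, h⟩ := i
        have key : ∀ k (h : k < 2 * n + 2), lost (s, .x (⟨k, h⟩ : Fin (2 * n + 2))) →
            lost (s, .x (⟨0, by omega⟩ : Fin (2 * n + 2))) := by
          intro k
          induction k with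
          | zero => intro h hh; exact hh
          | succ k ih =>
            intro h hh
            exact ih (by omega) ((down s k h hh).resolve_left (hq _))
        exact hw ((s32 s (key i h hi)).resolve_left (hq _))
    have both' : ∀ b, Q (.inr b) → Q (.inr (!b)) → ∀ v, ¬ lost v := by
      intro b hb hb'
      cases b
      · exact both hb hb'
      · exact both hb' hb
    have xne : ∀ s i j (hi : i < 2 * n + 2) (hj : j < 2 * n + 2), i ≠ j →
        (Sum.inl (s, WV.x (⟨i, hi⟩ : Fin (2 * n + 2))) : (Bool × WV n) ⊕ Bool) ≠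
          Sum.inl (s, .x ⟨j, hj⟩) := by
      intro s i j hi hj hij e
      apply hij
      simpa using e
    -- step A
    have stA : ∀ s i (h : i + 1 < 2 * n + 2), ¬ lost (s, .x (⟨i + 1, h⟩ : Fin (2 * n + 2))) := by
      intro s i h hi
      have hl := leg s _ h hi
      by_cases hlast : i + 1 + 1 < 2 * n + 2
      · rcases up s (i + 1) hlast hi with hq | hq
        · rcases down s i h hi with hd | hd
          · exact hQ _ _ _ Sum.inr_ne_inl Sum.inr_ne_inl (xne _ _ _ _ _ (by omega)) hl hq hd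
          · rcases Nat.eq_zero_or_pos i with h0 | h0
            · subst h0
              rcases s32 s hd with hw | hw
              · exact hQ _ _ _ Sum.inr_ne_inl Sum.inr_ne_inl
                  (fun e => by cases (congrArg Prod.snd (Sum.inl.inj e))) hl hq hw
              · exact hO (portw s hw) _ _ Sum.inr_ne_inl hl hq
            · have hl' := leg s _ _ hd
              rw [par_succ' _ _ (by omega)] at hl
              exact both' _ hl' hl _ hd
        · have hl' := leg s _ _ hq
          rw [par_succ' _ _ (by omega)] at hl'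
          exact both' _ hl hl' _ hq
      · have e : i + 1 = 2 * n + 1 := by omega
        have hl' := leg2 s (by
          have : (⟨i + 1, h⟩ : Fin (2 * n + 2)) = ⟨2 * n + 1, by omega⟩ := Fin.ext e
          rw [← this]; exact hi)
        rw [show 2 * n + 2 = (i + 1) + 1 by omega, par_succ' _ _ (by omega)] at hl'
        exact both' _ hl hl' _ hi
    have stB : ∀ s, ¬ lost (s, .x (⟨0, by omega⟩ : Fin (2 * n + 2))) := by
      intro s hi
      have hl := leg s _ _ hi
      have hq := (up s 0 (by omega) hi).resolve_right (stA s 0 _)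
      rcases s32 s hi with hw | hw
      · exact hQ _ _ _ Sum.inr_ne_inl Sum.inr_ne_inl
          (fun e => by cases (congrArg Prod.snd (Sum.inl.inj e))) hl hq hw
      · exact hO (portw s hw) _ _ Sum.inr_ne_inl hl hq
    have stC : ∀ s, ¬ lost (s, WV.w) := by
      intro s hi
      have hx := (s31 s hi).resolve_right (stB s)
      rcases sig2 s hi with hq | hq
      · exact hO (portw s hi) _ _ (fun e => by cases (congrArg Prod.snd (Sum.inl.inj e))) hx hq
      · exact hO (portw s hi) _ _ Sum.inr_ne_inl (b2 s hq) hx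
    have stD : ∀ s, ¬ lost (s, WV.v2) := by
      intro s hi
      have hw := (sig1 s hi).resolve_right (stC s)
      rcases eta2 s hi with hq | hq
      · exact hQ _ _ _ Sum.inr_ne_inl Sum.inr_ne_inl
          (fun e => by cases (congrArg Prod.snd (Sum.inl.inj e))) (b2 s hi) hw hq
      · exact hO (portv s hq) _ _ Sum.inr_ne_inl (b2 s hi) hw
    have stE : ∀ s, ¬ lost (s, WV.v1) := by
      intro s hi
      have hw := (eta1 s hi).resolve_right (stD s)
      exact hO (portv s hi) _ _ Sum.inr_ne_inl (b1 s hi) hw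
    obtain ⟨s, v⟩ := v
    cases v with
    | v1 => exact stE s hv
    | v2 => exact stD s hv
    | w => exact stC s hv
    | x i =>
      obtain ⟨i, h⟩ := i
      cases i with
      | zero => exact stB s hv
      | succ i => exact stA s i h hv
  · intro Q lost hq h1 h2 h3
    refine ⟨fun h => ?_, fun h => ?_, fun v hv h => ?_, fun v hv h => ?_⟩
    · exact h3 (false, .b2) _ _ rfl rfl ((h2 (false, .sig) _ _ rfl rfl h).resolve_left (hq _))
    · exact h3 (true, .b2) _ _ rfl rfl ((h2 (true, .sig) _ _ rfl rfl h).resolve_left (hq _))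
    · obtain rfl := Option.some.inj hv
      exact h3 (false, .b1) _ _ rfl rfl h
    · obtain rfl := Option.some.inj hv
      exact h3 (true, .b1) _ _ rfl rfl h
  · intro Q R hR hE ha hb hq
    have path : ∀ s, ¬ Q (.inl (s, .x (⟨2 * n + 1, by omega⟩ : Fin (2 * n + 2)))) →
        R (.inr false) (.inr true) := by
      intro s h0
      have o1 : decide ((2 * n + 1) % 2 = 0 ∧ 2 * n + 1 ≠ 0) = false :=
        decide_eq_false (by omega)
      have o2 : decide ((2 * n + 2) % 2 = 0 ∧ 2 * n + 2 ≠ 0) = true := decide_eq_true (by omega)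
      have hb' : ∀ b, ¬ Q (.inr b) := by
        intro b; cases b
        · exact ha
        · exact hb
      have e1 := hE (s, .leg ⟨2 * n + 1, by omega⟩) (by rw [wleg_a s (by omega)]; exact h0)
        (by rw [wleg_b]; exact hb' _)
      have e2 := hE (s, .leg ⟨2 * n + 2, by omega⟩) (by rw [wleg_a2 s]; exact h0)
        (by rw [wleg_b]; exact hb' _)
      rw [wleg_a s (by omega), wleg_b, o1] at e1
      rw [wleg_a2 s, wleg_b, o2] at e2
      cases s
      · exact hR.trans (hR.symm e1) e2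
      · exact hR.trans (hR.symm e2) e1
    by_cases h0 : Q (.inl (false, .x (⟨2 * n + 1, by omega⟩ : Fin (2 * n + 2))))
    · refine path true (fun h => ?_)
      exact hq _ _ (fun e => by simpa using congrArg Prod.fst e) h0 h
    · exact path false h0
  · intro Q R hR hE hq
    refine ⟨fun ha => ?_, fun hb => ?_⟩
    · exact hR.trans (hR.symm (hE (true, .b2) (hq _) ha)) (hE (true, .sig) (hq _) (hq _))
    · exact hR.trans (hR.symm (hE (false, .sig) (hq _) (hq _))) (hE (false, .b2) (hq _) hb)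

/-! ### the ring of hubs -/

theorem nat_ne_zero {N : ℕ} {n : ℕ} (h0 : 0 < n) (h1 : n < N) : ((n : ℕ) : ZMod N) ≠ 0 := by
  intro h
  rw [ZMod.natCast_eq_zero_iff] at h
  exact absurd (Nat.le_of_dvd h0 h) (by omega)

theorem ring_ind {N : ℕ} (D B : ZMod N → Prop)
    (R : ZMod N → ZMod N → Prop) (hR : Equivalence R)
    (link : ∀ j, ¬ D j → ¬ D (j + 1) → ¬ B (j + 1) → R j (j + 1))
    (b : ZMod N) (hb : ¬ D b) (H1 : ∀ n : ℕ, n + 1 < N → ¬ B (b + n + 1))
    (H2 : ∀ n : ℕ, n + 2 < N → D (b + n + 1) → ¬ D (b + n) ∧ (¬ D (b + n + 1 + 1) →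
      R (b + n) (b + n + 1 + 1))) :
    ∀ n : ℕ, n < N → ¬ D (b + n) → R b (b + n) := by
  intro n
  induction n using Nat.strong_induction_on with
  | _ n ih =>
    intro hn hD
    rcases n with _ | n
    · simpa using hR.refl b
    · have e : b + ((n + 1 : ℕ) : ZMod N) = b + n + 1 := by push_cast; ring
      rw [e] at hD ⊢
      by_cases h : D (b + n)
      · rcases n with _ | n
        · simp [hb] at h
        · have e2 : b + ((n + 1 : ℕ) : ZMod N) = b + n + 1 := by push_cast; ring
          rw [e2] at hD h ⊢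
          obtain ⟨h3, h4⟩ := H2 n (by omega) h
          exact hR.trans (ih n (by omega) (by omega) h3) (h4 hD)
      · exact hR.trans (ih n (by omega) (by omega) h) (link _ h hD (H1 n (by omega)))

theorem ring_all {N : ℕ} [NeZero N] (hN : 4 ≤ N) (D B : ZMod N → Prop)
    (R : ZMod N → ZMod N → Prop) (hR : Equivalence R)
    (link : ∀ j, ¬ D j → ¬ D (j + 1) → ¬ B (j + 1) → R j (j + 1))
    (skip : ∀ j, ¬ D j → D (j + 1) → ¬ D (j + 1 + 1) → (∃ k, k ≠ j + 1 ∧ D k) →
      R j (j + 1 + 1))
    (cnt : ∀ a b c, a ≠ b → a ≠ c → b ≠ c → D a → D b → D c → False)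
    (hBD : ∀ a b, B a → D b → False) (hBB : ∀ a b, B a → B b → a = b) :
    ∀ a b, ¬ D a → ¬ D b → R a b := by
  have nz : ∀ (b : ZMod N) (n : ℕ), 0 < n → n < N → b + n ≠ b := by
    intro b n h0 h1 h
    exact nat_ne_zero h0 h1 (by simpa using h)
  -- it is enough to find a base
  have base : ∀ b : ZMod N, (∀ n : ℕ, n < N → ¬ D (b + n) → R b (b + n)) →
      ∀ x y, ¬ D x → ¬ D y → R x y := by
    intro b hb x y hx hy
    have key : ∀ z, ¬ D z → R b z := by
      intro z hz
      have e : b + (((z - b).val : ℕ) : ZMod N) = z := by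
        rw [ZMod.natCast_zmod_val]; ring
      have := hb (z - b).val (ZMod.val_lt _) (by rw [e]; exact hz)
      rwa [e] at this
    exact hR.trans (hR.symm (key x hx)) (key y hy)
  by_cases hB : ∃ b, B b
  · obtain ⟨b, hb⟩ := hB
    refine base b (ring_ind D B R hR link b (fun h => hBD b b hb h) (fun n hn h => ?_)
      (fun n hn h => (hBD _ _ hb h).elim))
    have := hBB _ _ h hb
    exact nz b (n + 1) (by omega) (by omega) (by push_cast; linear_combination this)
  · have hB' : ∀ b, ¬ B b := fun b hb => hB ⟨b, hb⟩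
    by_cases hD : ∃ d, D d
    · -- choose `d` with `d + 1` not deleted
      obtain ⟨d, hd, hd1⟩ : ∃ d, D d ∧ ¬ D (d + 1) := by
        obtain ⟨d, hd⟩ := hD
        by_cases h : D (d + 1)
        · refine ⟨d + 1, h, fun h2 => cnt d (d + 1) (d + 1 + 1) ?_ ?_ ?_ hd h h2⟩
          · intro e; exact nz d 1 (by omega) (by omega) (by push_cast; exact e.symm)
          · intro e
            exact nz d 2 (by omega) (by omega) (by push_cast; linear_combination -e)
          · intro e; exact nz (d + 1) 1 (by omega) (by omega) (by push_cast; exact e.symm)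
        · exact ⟨d, hd, h⟩
      refine base (d + 1) (ring_ind D B R hR link (d + 1) hd1 (fun n _ => hB' _)
        (fun n hn h => ?_))
      have hne : d + 1 + (n : ZMod N) + 1 ≠ d := by
        intro e
        apply nz d (n + 2) (by omega) hn
        push_cast
        linear_combination e
      have h3 : ¬ D (d + 1 + n) := by
        intro h'
        rcases Nat.eq_zero_or_pos n with h0 | h0
        · subst h0; exact hd1 (by simpa using h')
        · refine cnt d (d + 1 + n) (d + 1 + n + 1) ?_ ?_ ?_ hd h' h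
          · intro e
            apply nz d (n + 1) (by omega) (by omega)
            push_cast
            linear_combination -e
          · exact hne.symm
          · intro e
            exact nz (d + 1 + n) 1 (by omega) (by omega) (by push_cast; exact e.symm)
      exact ⟨h3, fun h4 => skip _ h3 h h4 ⟨d, hne.symm, hd⟩⟩
    · exact base 0 (ring_ind D B R hR link 0 (fun h => hD ⟨_, h⟩) (fun n _ => hB' _)
        (fun n _ h => (hD ⟨_, h⟩).elim))

/-! ### closed strips -/

section closed

variable {N : ℕ} [NeZero N] (L : ZMod N → Loc) (c : Bool)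

theorem adj_local (j : ZMod N) (e : (L j).E) :
    (strip L c).Adj (locEnd L j ((L j).a e)) (locEnd L j ((L j).b e)) :=
  ⟨.inl ⟨j, e⟩, Or.inl ⟨rfl, rfl⟩⟩

theorem adj_row (j : ZMod N) :
    (strip L c).Adj (.inr ⟨j, (L j).ex⟩) (.inr ⟨j + 1, (L (j + 1)).en⟩) :=
  ⟨.inr (.inl j), Or.inl ⟨rfl, rfl⟩⟩

theorem adj_by (hc : c = true) (j : ZMod N) : (strip L c).Adj (byL L j) (byR L j) :=
  ⟨.inr (.inr ⟨j, hc⟩), Or.inl ⟨rfl, rfl⟩⟩

theorem adj_symm {G : Gph} {x y : G.V} (h : G.Adj x y) : G.Adj y x := by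
  obtain ⟨e, h | h⟩ := h
  · exact ⟨e, Or.inr h⟩
  · exact ⟨e, Or.inl h⟩

/-- connected in `G - S` -/
def Con (G : Gph) (S : Finset G.V) : G.V → G.V → Prop :=
  Relation.ReflTransGen (fun x y => G.Adj x y ∧ x ∉ S ∧ y ∉ S)

theorem con_equiv (G : Gph) (S : Finset G.V) : Equivalence (Con G S) where
  refl _ := Relation.ReflTransGen.refl
  symm := by
    intro x y h
    induction h with
    | refl => exact Relation.ReflTransGen.refl
    | tail _ h ih => exact Relation.ReflTransGen.head ⟨adj_symm h.1, h.2.2, h.2.1⟩ ih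
  trans := Relation.ReflTransGen.trans

theorem con_adj {G : Gph} {S : Finset G.V} {x y : G.V} (h : G.Adj x y) (hx : x ∉ S)
    (hy : y ∉ S) : Con G S x y := Relation.ReflTransGen.single ⟨h, hx, hy⟩

omit [NeZero N] in
theorem locEnd_inj (hN : 2 ≤ N) (j : ZMod N) : Function.Injective (locEnd L j) := by
  have h1 : j - 1 ≠ j := by
    intro h
    have : ((1 : ℕ) : ZMod N) = 0 := by push_cast; linear_combination -h
    exact nat_ne_zero (by omega) (by omega) this
  rintro (x | (_ | _)) (y | (_ | _)) h <;> simp only [locEnd] at h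
  · have := Sum.inr.inj h
    simpa using this
  · exact (Sum.inr_ne_inl h).elim
  · exact (Sum.inr_ne_inl h).elim
  · exact (Sum.inl_ne_inr h).elim
  · rfl
  · exact (h1 (Sum.inl.inj h)).elim
  · exact (Sum.inl_ne_inr h).elim
  · exact (h1 (Sum.inl.inj h).symm).elim
  · rfl

theorem strip_conn (hN : 4 ≤ N) (hL : ∀ j, (L j).Ok c) : (strip L c).ThreeConn := by
  classical
  refine ⟨?_, ?_⟩
  · have h1 : Fintype.card (ZMod N) ≤ Fintype.card (strip L c).V :=
      Fintype.card_le_of_injective (fun j => (Sum.inl j : ZMod N ⊕ (Σ j, (L j).V)))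
        Sum.inl_injective
    rw [ZMod.card] at h1
    omega
  intro S hS
  -- distinct small shifts
  have s1 : ∀ j : ZMod N, j + 1 ≠ j := by
    intro j h
    exact nat_ne_zero (N := N) (n := 1) (by omega) (by omega) (by push_cast; linear_combination h)
  have s2 : ∀ j : ZMod N, j - 1 ≠ j := by
    intro j h
    exact nat_ne_zero (N := N) (n := 1) (by omega) (by omega) (by push_cast; linear_combination -h)
  have s3 : ∀ j : ZMod N, j - 1 ≠ j + 1 := by
    intro j h
    exact nat_ne_zero (N := N) (n := 2) (by omega) (by omega) (by push_cast; linear_combination -h)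
  have three : ∀ x y z : (strip L c).V, x ≠ y → x ≠ z → y ≠ z → x ∈ S → y ∈ S → z ∈ S →
      False := by
    intro x y z h1 h2 h3 hx hy hz
    have : 2 < S.card := Finset.two_lt_card.mpr ⟨x, hx, y, hy, z, hz, h1, h2, h3⟩
    omega
  have hC := con_equiv (strip L c) S
  -- lost vertices
  set lost : (strip L c).V → Prop := fun x => x ∉ S ∧
    ∀ k : ZMod N, (Sum.inl k : ZMod N ⊕ (Σ j, (L j).V)) ∉ S →
      ¬ Con (strip L c) S x (Sum.inl k : ZMod N ⊕ (Σ j, (L j).V)) with hlost
  have step : ∀ x y, lost x → (strip L c).Adj x y → y ∈ S ∨ lost y := by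
    intro x y hx hxy
    by_cases hy : y ∈ S
    · exact Or.inl hy
    · refine Or.inr ⟨hy, fun k hk hk' => hx.2 k hk (hC.trans (con_adj hxy hx.1 hy) hk')⟩
  have nohub : ∀ k : ZMod N, ¬ lost (Sum.inl k : ZMod N ⊕ (Σ j, (L j).V)) :=
    fun k h => h.2 k h.1 (hC.refl _)
  -- local facts of region `j`
  have l1 : ∀ j, ∀ e x y, (L j).a e = .inl x → (L j).b e = .inl y →
      lost (Sum.inr ⟨j, x⟩ : ZMod N ⊕ (Σ j, (L j).V)) →
      locEnd L j (.inl y) ∈ S ∨ lost (Sum.inr ⟨j, y⟩ : ZMod N ⊕ (Σ j, (L j).V)) := by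
    intro j e x y hx hy h
    have := adj_local L c j e
    rw [hx, hy] at this
    exact step _ _ h this
  have l2 : ∀ j, ∀ e x y, (L j).a e = .inl x → (L j).b e = .inl y →
      lost (Sum.inr ⟨j, y⟩ : ZMod N ⊕ (Σ j, (L j).V)) →
      locEnd L j (.inl x) ∈ S ∨ lost (Sum.inr ⟨j, x⟩ : ZMod N ⊕ (Σ j, (L j).V)) := by
    intro j e x y hx hy h
    have := adj_symm (adj_local L c j e)
    rw [hx, hy] at this
    exact step _ _ h this
  have l3 : ∀ j, ∀ e x b, (L j).a e = .inl x → (L j).b e = .inr b →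
      lost (Sum.inr ⟨j, x⟩ : ZMod N ⊕ (Σ j, (L j).V)) → locEnd L j (.inr b) ∈ S := by
    intro j e x b hx hy h
    have := adj_local L c j e
    rw [hx, hy] at this
    refine (step _ _ h this).resolve_right ?_
    cases b
    · exact nohub _
    · exact nohub _
  -- the outer condition
  set O : ZMod N → Prop := fun j => ∃ s ∈ S, ∀ z, s ≠ locEnd L j z with hOdef
  have hO2 : ∀ j, O j → ∀ x y, x ≠ y → locEnd L j x ∈ S → locEnd L j y ∈ S → False := by
    rintro j ⟨s, hs, hs'⟩ x y hxy hx hy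
    exact three s _ _ (hs' x) (hs' y)
      (fun e => hxy (locEnd_inj L (by omega) j e)) hs hx hy
  have Q3 : ∀ j x y z, x ≠ y → x ≠ z → y ≠ z → locEnd L j x ∈ S → locEnd L j y ∈ S →
      locEnd L j z ∈ S → False := by
    intro j x y z h1 h2 h3
    exact three _ _ _ (fun e => h1 (locEnd_inj L (by omega) j e))
      (fun e => h2 (locEnd_inj L (by omega) j e)) (fun e => h3 (locEnd_inj L (by omega) j e))
  -- vertices outside of region `j`
  have out_loc : ∀ i j, i ≠ j → ∀ v, ∀ z, (Sum.inr ⟨i, v⟩ : ZMod N ⊕ (Σ j, (L j).V)) ≠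
      locEnd L j z := by
    intro i j hij v z
    rcases z with z | (_ | _)
    · intro h
      have := congrArg Sigma.fst (Sum.inr.inj h)
      exact hij this
    · exact Sum.inr_ne_inl
    · exact Sum.inr_ne_inl
  have out_hub : ∀ i j, i ≠ j → i ≠ j - 1 → ∀ z, (Sum.inl i : ZMod N ⊕ (Σ j, (L j).V)) ≠
      locEnd L j z := by
    intro i j hij hij' z
    rcases z with z | (_ | _)
    · exact Sum.inl_ne_inr
    · intro h; exact hij' (Sum.inl.inj h)
    · intro h; exact hij (Sum.inl.inj h)
  -- a lost port of the left neighbour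
  have portL : ∀ i, ¬ O (i + 1) → ∀ v, lost (Sum.inr ⟨i, v⟩ : ZMod N ⊕ (Σ j, (L j).V)) →
      (v = (L i).ex ∨ (L i).br = some v) → False := by
    intro i hO v hv hvp
    have hq : ∀ w, locEnd L i (.inl w) ∉ S := fun w hw =>
      hO ⟨_, hw, out_loc _ _ (s1 i).symm w⟩
    obtain ⟨-, p2, -, p4⟩ := (hL i).ports (fun z => locEnd L i z ∈ S)
      (fun v => lost (Sum.inr ⟨i, v⟩ : ZMod N ⊕ (Σ j, (L j).V))) hq (l1 i) (l2 i) (l3 i)
    have : locEnd L i (.inr false) ∈ S := by
      rcases hvp with rfl | h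
      · exact p2 hv
      · exact p4 v h hv
    exact hO ⟨_, this, out_hub _ _ (s3 i) (by rw [add_sub_cancel_right]; exact s2 i)⟩
  have portR : ∀ i, ¬ O i → ∀ v, lost (Sum.inr ⟨i + 1, v⟩ : ZMod N ⊕ (Σ j, (L j).V)) →
      (v = (L (i + 1)).en ∨ (L (i + 1)).bl = some v) → False := by
    intro i hO v hv hvp
    have hq : ∀ w, locEnd L (i + 1) (.inl w) ∉ S := fun w hw =>
      hO ⟨_, hw, out_loc _ _ (s1 i) w⟩
    obtain ⟨p1, -, p3, -⟩ := (hL (i + 1)).ports (fun z => locEnd L (i + 1) z ∈ S)
      (fun v => lost (Sum.inr ⟨i + 1, v⟩ : ZMod N ⊕ (Σ j, (L j).V))) hq (l1 _) (l2 _) (l3 _)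
    have : locEnd L (i + 1) (.inr true) ∈ S := by
      rcases hvp with rfl | h
      · exact p1 hv
      · exact p3 v h hv
    exact hO ⟨_, this, out_hub _ _ (s1 i) (s3 i).symm⟩
  have nolost : ∀ j v, ¬ lost (Sum.inr ⟨j, v⟩ : ZMod N ⊕ (Σ j, (L j).V)) := by
    intro j
    obtain ⟨i, rfl⟩ : ∃ i, j = i + 1 := ⟨j - 1, by ring⟩
    refine (hL (i + 1)).nolost (fun z => locEnd L (i + 1) z ∈ S)
      (fun v => lost (Sum.inr ⟨i + 1, v⟩ : ZMod N ⊕ (Σ j, (L j).V))) (O (i + 1))
      (l1 _) (l2 _) (l3 _) ?_ ?_ ?_ ?_ (Q3 _) (hO2 _)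
    · intro h
      by_contra hO
      rcases step _ _ h (adj_symm (adj_row L c i)) with h' | h'
      · exact hO ⟨_, h', out_loc _ _ (s1 i).symm _⟩
      · exact portL i hO _ h' (Or.inl rfl)
    · intro h
      by_contra hO
      rcases step _ _ h (adj_row L c (i + 1)) with h' | h'
      · exact hO ⟨_, h', out_loc _ _ (s1 _) _⟩
      · exact portR (i + 1) hO _ h' (Or.inl rfl)
    · intro hc v hv h
      by_contra hO
      have hadj := adj_symm (adj_by L c hc i)
      have e : byR L i = Sum.inr ⟨i + 1, v⟩ := by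
        simp only [byR, hv]
      rw [e] at hadj
      rcases step _ _ h hadj with h' | h'
      · cases hbr : (L i).br with
        | none =>
          have e : byL L i = Sum.inl (i - 1) := by simp only [byL, hbr]
          rw [e] at h'
          exact hO ⟨_, h', out_hub _ _ (s3 i) (by rw [add_sub_cancel_right]; exact s2 i)⟩
        | some w =>
          have e : byL L i = Sum.inr ⟨i, w⟩ := by simp only [byL, hbr]
          rw [e] at h'
          exact hO ⟨_, h', out_loc _ _ (s1 i).symm _⟩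
      · cases hbr : (L i).br with
        | none =>
          have e : byL L i = Sum.inl (i - 1) := by simp only [byL, hbr]
          rw [e] at h'
          exact nohub _ h'
        | some w =>
          have e : byL L i = Sum.inr ⟨i, w⟩ := by simp only [byL, hbr]
          rw [e] at h'
          exact portL i hO _ h' (Or.inr hbr)
    · intro hc v hv h
      by_contra hO
      have hadj := adj_by L c hc (i + 1)
      have e : byL L (i + 1) = Sum.inr ⟨i + 1, v⟩ := by
        simp only [byL, hv]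
      rw [e] at hadj
      rcases step _ _ h hadj with h' | h'
      · cases hbr : (L (i + 1 + 1)).bl with
        | none =>
          have e : byR L (i + 1) = Sum.inl (i + 1 + 1) := by simp only [byR, hbr]
          rw [e] at h'
          exact hO ⟨_, h', out_hub _ _ (s1 _) (s3 _).symm⟩
        | some w =>
          have e : byR L (i + 1) = Sum.inr ⟨i + 1 + 1, w⟩ := by simp only [byR, hbr]
          rw [e] at h'
          exact hO ⟨_, h', out_loc _ _ (s1 _) _⟩
      · cases hbr : (L (i + 1 + 1)).bl with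
        | none =>
          have e : byR L (i + 1) = Sum.inl (i + 1 + 1) := by simp only [byR, hbr]
          rw [e] at h'
          exact nohub _ h'
        | some w =>
          have e : byR L (i + 1) = Sum.inr ⟨i + 1 + 1, w⟩ := by simp only [byR, hbr]
          rw [e] at h'
          exact portR (i + 1) hO _ h' (Or.inr hbr)
  -- every vertex reaches a hub
  have reach : ∀ x, x ∉ S → ∃ k : ZMod N, (Sum.inl k : ZMod N ⊕ (Σ j, (L j).V)) ∉ S ∧
      Con (strip L c) S x (Sum.inl k : ZMod N ⊕ (Σ j, (L j).V)) := by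
    intro x hx
    rcases x with k | ⟨j, v⟩
    · exact ⟨k, hx, hC.refl _⟩
    · by_contra h
      push Not at h
      exact nolost j v ⟨hx, h⟩
  -- the hubs are connected
  have hubs : ∀ a b : ZMod N, (Sum.inl a : ZMod N ⊕ (Σ j, (L j).V)) ∉ S →
      (Sum.inl b : ZMod N ⊕ (Σ j, (L j).V)) ∉ S →
      Con (strip L c) S (Sum.inl a : ZMod N ⊕ (Σ j, (L j).V))
        (Sum.inl b : ZMod N ⊕ (Σ j, (L j).V)) := by
    have hE : ∀ j, ∀ e, locEnd L j ((L j).a e) ∉ S → locEnd L j ((L j).b e) ∉ S →
        Con (strip L c) S (locEnd L j ((L j).a e)) (locEnd L j ((L j).b e)) :=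
      fun j e h1 h2 => con_adj (adj_local L c j e) h1 h2
    have hR : ∀ j, Equivalence (fun z w => Con (strip L c) S (locEnd L j z) (locEnd L j w)) :=
      fun j => ⟨fun z => hC.refl _, fun h => hC.symm h, fun h h' => hC.trans h h'⟩
    refine ring_all hN (fun k => (Sum.inl k : ZMod N ⊕ (Σ j, (L j).V)) ∈ S)
      (fun j => ∃ v w, v ≠ w ∧ (Sum.inr ⟨j, v⟩ : ZMod N ⊕ (Σ j, (L j).V)) ∈ S ∧
        (Sum.inr ⟨j, w⟩ : ZMod N ⊕ (Σ j, (L j).V)) ∈ S)
      (fun a b => Con (strip L c) S (Sum.inl a : ZMod N ⊕ (Σ j, (L j).V))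
        (Sum.inl b : ZMod N ⊕ (Σ j, (L j).V)))
      ⟨fun z => hC.refl _, fun h => hC.symm h, fun h h' => hC.trans h h'⟩ ?_ ?_ ?_ ?_ ?_
    · intro j h1 h2 h3
      have := (hL (j + 1)).link (fun z => locEnd L (j + 1) z ∈ S) _ (hR (j + 1)) (hE (j + 1))
        (by simpa [locEnd] using h1) h2
        (fun x y hxy hx hy => h3 ⟨x, y, hxy, hx, hy⟩)
      simpa [locEnd] using this
    · rintro j h1 h2 h3 ⟨k, hk, hk'⟩
      have nol : ∀ i v, (Sum.inr ⟨i, v⟩ : ZMod N ⊕ (Σ j, (L j).V)) ∉ S := by
        intro i v hv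
        exact three _ _ _ (fun e => hk (Sum.inl.inj e)) Sum.inl_ne_inr Sum.inl_ne_inr hk' h2 hv
      have a1 := ((hL (j + 1)).skip (fun z => locEnd L (j + 1) z ∈ S) _ (hR (j + 1)) (hE (j + 1))
        (fun v => nol _ v)).1 (by simpa [locEnd] using h1)
      have a2 := ((hL (j + 1 + 1)).skip (fun z => locEnd L (j + 1 + 1) z ∈ S) _ (hR _) (hE _)
        (fun v => nol _ v)).2 h3
      have a3 := con_adj (adj_row L c (j + 1)) (nol _ _) (nol _ _)
      have a1' : Con (strip L c) S (Sum.inl j : ZMod N ⊕ (Σ j, (L j).V))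
          (Sum.inr ⟨j + 1, (L (j + 1)).ex⟩ : ZMod N ⊕ (Σ j, (L j).V)) := by
        simpa [locEnd] using a1
      exact hC.trans a1' (hC.trans a3 a2)
    · intro a b d h1 h2 h3
      exact three _ _ _ (fun e => h1 (Sum.inl.inj e)) (fun e => h2 (Sum.inl.inj e))
        (fun e => h3 (Sum.inl.inj e))
    · rintro a b ⟨v, w, hvw, hv, hw⟩ hb
      refine three _ _ _ (fun e => hvw ?_) Sum.inr_ne_inl Sum.inr_ne_inl hv hw hb
      simpa using Sum.inr.inj e
    · rintro a b ⟨v, w, hvw, hv, hw⟩ ⟨v', w', hvw', hv', hw'⟩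
      by_contra hab
      refine three _ _ _ (fun e => hvw ?_) (fun e => ?_) (fun e => ?_) hv hw hv'
      · simpa using Sum.inr.inj e
      · exact hab (congrArg Sigma.fst (Sum.inr.inj e))
      · exact hab (congrArg Sigma.fst (Sum.inr.inj e))
  intro u v hu hv
  obtain ⟨k, hk, hk'⟩ := reach u hu
  obtain ⟨m, hm, hm'⟩ := reach v hv
  exact hC.trans hk' (hC.trans (hubs k m hk hm) (hC.symm hm'))

end closed

/-- 3-connectivity of the typed strips. -/
theorem tstrip_conn {N : ℕ} [NeZero N] (hN : 4 ≤ N) (q : ℕ) (c : Bool) (τ : ZMod N → RT)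
    (hW : (∃ j, τ j = .W) → c = true) : (tstrip q c τ).ThreeConn := by
  refine strip_conn _ _ hN (fun j => ?_)
  cases h : τ j with
  | T => simp only [RT.loc]; exact tOk c q
  | G => simp only [RT.loc]; exact gOk c q
  | W =>
    have := hW ⟨j, h⟩
    subst this
    simp only [RT.loc]
    exact wOk _

theorem F0_conn (q M : ℕ) (hM : 3 ≤ M) : (F0 q M).ThreeConn := by
  refine tstrip_conn (by omega) q false _ ?_
  rintro ⟨j, hj⟩
  simp only [altType] at hj
  split_ifs at hj

theorem F1_conn (q M : ℕ) (hM : 3 ≤ M) : (F1 q M).ThreeConn :=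
  tstrip_conn (by omega) q true _ (fun _ => rfl)

theorem F2_conn (q M : ℕ) (hM : 3 ≤ M) : (F2 q M).ThreeConn :=
  tstrip_conn (by omega) (q + 1) true _ (fun _ => rfl)

theorem FT_conn (q M : ℕ) (hM : 3 ≤ M) : (FT q M).ThreeConn := by
  refine tstrip_conn (by omega) q false _ ?_
  rintro ⟨j, hj⟩
  cases hj

end Pool.Agent.CC
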