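import Pool.Agent.Lib_helper74.CCF.Defs2

/-! CALC: the mod 2 calculus.
`XX P c d` is bilinear in `c, d` (disjoint unions / symmetric differences), symmetric on
independent edges, and `XX P c d = ∑ u v, bd c u * bd d v * r u v + (M-terms depending only on
(c, bd d) and (d, bd c))`. In particular `XX P c d = 0` if `bd c = 0 = bd d`. -/

namespace Pool.Agent.CC.Gph

/-- The chain version of `M`. -/
def PS.MM {G : Gph} (P : G.PS) (c : Finset G.E) (v : G.V) : ZMod 2 := ∑ e ∈ c, P.M e v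

theorem calc_sum_bd {G : Gph} (c : Finset G.E) (g : G.V → ZMod 2) :
    ∑ v, G.bd c v * g v = ∑ e ∈ c, (g (G.a e) + g (G.b e)) := by
  simp only [bd, Finset.sum_mul]
  rw [Finset.sum_comm]
  refine Finset.sum_congr rfl fun e _ => ?_
  simp [add_mul, Finset.sum_add_distrib]

theorem calc_sum_one2 {G : Gph} (x y : G.V) (g : G.V → ZMod 2) :
    ∑ v, (G.one x + G.one y) v * g v = g x + g y := by
  simp [one, add_mul, Finset.sum_add_distrib]

theorem PS.XX_eq {G : Gph} (P : G.PS) (c d : Finset G.E) :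
    P.XX c d = ∑ v, G.bd d v * (∑ u, G.bd c u * P.r u v) + ∑ v, G.bd d v * P.MM c v +
      ∑ u, G.bd c u * P.MM d u := by
  rw [calc_sum_bd, calc_sum_bd, calc_sum_bd]
  simp only [calc_sum_bd, PS.MM, PS.XX, PS.X, Finset.sum_add_distrib]
  rw [Finset.sum_comm (s := d) (t := c), Finset.sum_comm (s := d) (t := c),
    Finset.sum_comm (s := d) (t := c), Finset.sum_comm (s := d) (t := c),
    Finset.sum_comm (s := d) (t := c), Finset.sum_comm (s := d) (t := c)]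
  ring

theorem PS.XX_eq_of_bd {G : Gph} (P : G.PS) (c d : Finset G.E) {x x' y y' : G.V}
    (hc : G.bd c = G.one x + G.one x') (hd : G.bd d = G.one y + G.one y') :
    P.XX c d = P.r x y + P.r x y' + P.r x' y + P.r x' y' + P.MM c y + P.MM c y' + P.MM d x +
      P.MM d x' := by
  rw [PS.XX_eq, hc, hd]
  simp only [calc_sum_one2]
  ring

/-- two cycles cross evenly (no disjointness needed for the formal sum) -/
theorem PS.XX_cycle {G : Gph} (P : G.PS) (c d : Finset G.E) (hc : G.bd c = 0) (hd : G.bd d = 0) :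
    P.XX c d = 0 := by
  rw [PS.XX_eq, hc, hd]
  simp

theorem PS.X_symm {G : Gph} (P : G.PS) (e f : G.E) (h : G.Ind e f) : P.X e f = P.X f e := by
  obtain ⟨h1, h2, h3, h4⟩ := h
  have e1 := P.hr _ _ h1
  have e2 := P.hr _ _ h2
  have e3 := P.hr _ _ h3
  have e4 := P.hr _ _ h4
  simp only [PS.X]
  generalize P.r (G.a e) (G.a f) = a1 at *
  generalize P.r (G.a f) (G.a e) = a2 at *
  generalize P.r (G.a e) (G.b f) = a3 at *
  generalize P.r (G.b f) (G.a e) = a4 at *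
  generalize P.r (G.b e) (G.a f) = a5 at *
  generalize P.r (G.a f) (G.b e) = a6 at *
  generalize P.r (G.b e) (G.b f) = a7 at *
  generalize P.r (G.b f) (G.b e) = a8 at *
  have k : a1 + a3 + a5 + a7 = a2 + a6 + a4 + a8 := by
    clear h1 h2 h3 h4
    revert a1 a2 a3 a4 a5 a6 a7 a8
    decide
  rw [k]
  ring

theorem calc_sum_symmDiff {ι : Type} [DecidableEq ι] (c c' : Finset ι) (g : ι → ZMod 2) :
    ∑ e ∈ symmDiff c c', g e = ∑ e ∈ c, g e + ∑ e ∈ c', g e := by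
  have h2 : ∀ z : ZMod 2, z + z = 0 := by decide
  have h : symmDiff c c' = (c \ c') ∪ (c' \ c) := rfl
  rw [h, Finset.sum_union (Finset.disjoint_left.2 fun x hx hx' => by
    simp only [Finset.mem_sdiff] at hx hx'
    exact hx.2 hx'.1)]
  rw [← Finset.sum_sdiff (s₁ := c ∩ c') (s₂ := c) Finset.inter_subset_left,
    ← Finset.sum_sdiff (s₁ := c ∩ c') (s₂ := c') Finset.inter_subset_right,
    Finset.sdiff_inter_self_left, Finset.sdiff_inter_self_right]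
  linear_combination - h2 (∑ e ∈ c ∩ c', g e)

/-- symmetric differences of edge sets -/
theorem PS.XX_symmDiff_left {G : Gph} (P : G.PS) (c c' d : Finset G.E) :
    P.XX (symmDiff c c') d = P.XX c d + P.XX c' d :=
  calc_sum_symmDiff c c' _

theorem bd_symmDiff {G : Gph} (c c' : Finset G.E) :
    G.bd (symmDiff c c') = G.bd c + G.bd c' := by
  funext v
  exact calc_sum_symmDiff c c' _

/-- pull back of a parity structure along a mod 2 embedding -/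
theorem TEmb.exists_pull {H G : Gph} (φ : TEmb H G) (P : G.PS) :
    ∃ Q : H.PS, ∀ e f : H.E, H.Ind e f → Q.X e f = P.XX (φ.c e) (φ.c f) := by
  refine ⟨⟨fun u v => P.r (φ.v u) (φ.v v), fun u v h => P.hr _ _ fun h' => h (φ.v_inj h'),
    fun e v => P.MM (φ.c e) (φ.v v)⟩, fun e f _ => ?_⟩
  rw [P.XX_eq_of_bd _ _ (φ.bd e) (φ.bd f)]
  rfl

/-- the crossing pairs of `G` which lie in the image of the embedding -/
theorem TEmb.count {H G : Gph} (φ : TEmb H G) (P : G.PS) {K : ℕ} (h : H.LB K) :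
    2 * K ≤ (P.cross.filter (fun p => ∃ e f : H.E, H.Ind e f ∧ p.1 ∈ φ.c e ∧ p.2 ∈ φ.c f)).card := by
  obtain ⟨Q, hQ⟩ := φ.exists_pull P
  refine (h Q).trans ?_
  have key : ∀ p ∈ Q.cross, ∃ q : G.E × G.E, G.Ind q.1 q.2 ∧ P.X q.1 q.2 = 1 ∧ q.1 ∈ φ.c p.1 ∧
      q.2 ∈ φ.c p.2 := by
    intro p hp
    simp only [PS.cross, Finset.mem_filter, Finset.mem_univ, true_and] at hp
    obtain ⟨hi, hX⟩ := hp
    rw [hQ _ _ hi] at hX
    have hne : P.XX (φ.c p.1) (φ.c p.2) ≠ 0 := by rw [hX]; decide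
    obtain ⟨e', he', h1⟩ := Finset.exists_ne_zero_of_sum_ne_zero hne
    obtain ⟨f', hf', h2⟩ := Finset.exists_ne_zero_of_sum_ne_zero h1
    have h3 : ∀ z : ZMod 2, z ≠ 0 → z = 1 := by decide
    exact ⟨(e', f'), φ.ind _ _ hi _ he' _ hf', h3 _ h2, he', hf'⟩
  rcases isEmpty_or_nonempty (G.E × G.E) with he | he
  · have h0 : Q.cross = ∅ := Finset.eq_empty_of_forall_notMem fun p hp => he.elim (key p hp).choose
    rw [h0]
    exact Nat.zero_le _
  choose! q hq using key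
  refine Finset.card_le_card_of_injOn q (fun p hp => ?_) ?_
  · obtain ⟨h1, h2, h3, h4⟩ := hq p hp
    have hp' := hp
    simp only [PS.cross, Finset.coe_filter, Finset.mem_filter, Finset.mem_univ, true_and,
      Set.mem_ofPred_eq] at hp' ⊢
    exact ⟨⟨h1, h2⟩, p.1, p.2, hp'.1, h3, h4⟩
  · intro p hp p' hp' hpp
    obtain ⟨-, -, h3, h4⟩ := hq p hp
    obtain ⟨-, -, h3', h4'⟩ := hq p' hp'
    rw [← hpp] at h3' h4'
    by_contra hne
    have : p.1 ≠ p'.1 ∨ p.2 ≠ p'.2 := by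
      by_contra hcon
      push Not at hcon
      exact hne (Prod.ext hcon.1 hcon.2)
    rcases this with h | h
    · exact Finset.disjoint_left.1 (φ.disj _ _ h) h3 h3'
    · exact Finset.disjoint_left.1 (φ.disj _ _ h) h4 h4'

theorem LB.of_emb {H G : Gph} (φ : TEmb H G) {K : ℕ} (h : H.LB K) : G.LB K := fun P =>
  (φ.count P h).trans (Finset.card_le_card (Finset.filter_subset _ _))

/-- The `K_{3,3}` identity, for chains: nine chains `c i j` from `x i` to `y j`, six different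
vertices; the sum over the 18 pairs of independent edges of `K_{3,3}` is odd. -/
theorem PS.K33_identity {G : Gph} (P : G.PS) (x y : Fin 3 → G.V) (hx : Function.Injective x)
    (hy : Function.Injective y) (hxy : ∀ i j, x i ≠ y j) (c : Fin 3 → Fin 3 → Finset G.E)
    (hc : ∀ i j, G.bd (c i j) = G.one (x i) + G.one (y j)) :
    ∑ i : Fin 3, ∑ j : Fin 3, ∑ k : Fin 3, ∑ l : Fin 3,
      (if i < k ∧ j ≠ l then P.XX (c i j) (c k l) else 0) = 1 := by
  have h01 := P.hr _ _ (fun h => absurd (hy h) (by decide) : y 0 ≠ y 1)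
  have h02 := P.hr _ _ (fun h => absurd (hy h) (by decide) : y 0 ≠ y 2)
  have h12 := P.hr _ _ (fun h => absurd (hy h) (by decide) : y 1 ≠ y 2)
  have h2 : (2 : ZMod 2) = 0 := by decide
  simp only [Fin.sum_univ_three, P.XX_eq_of_bd _ _ (hc _ _) (hc _ _)]
  simp (config := { decide := true }) only [if_true, if_false, zero_add, add_zero]
  linear_combination (norm := skip) h01 + h02 + h12
  ring_nf
  reduce_mod_char

theorem PS.mem_cross {G : Gph} {P : G.PS} {p : G.E × G.E} :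
    p ∈ P.cross ↔ G.Ind p.1 p.2 ∧ P.X p.1 p.2 = 1 := by
  simp [PS.cross]

theorem Ind.symm {G : Gph} {e f : G.E} (h : G.Ind e f) : G.Ind f e :=
  ⟨h.1.symm, h.2.2.1.symm, h.2.1.symm, h.2.2.2.symm⟩

theorem PS.two_le_cross {G : Gph} (P : G.PS) {e f : G.E} (hI : G.Ind e f) (hX : P.X e f = 1) :
    2 ≤ P.cross.card := by
  have hef : e ≠ f := fun h => hI.1 (by rw [h])
  have hsub : ({(e, f), (f, e)} : Finset (G.E × G.E)) ⊆ P.cross := by
    intro p hp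
    rcases Finset.mem_insert.1 hp with rfl | hp
    · exact PS.mem_cross.2 ⟨hI, hX⟩
    · rw [Finset.mem_singleton.1 hp]
      exact PS.mem_cross.2 ⟨hI.symm, by rw [← P.X_symm _ _ hI]; exact hX⟩
  refine le_trans ?_ (Finset.card_le_card hsub)
  rw [Finset.card_pair]
  exact fun h => hef (Prod.ext_iff.1 h).1

theorem K33_LB : K33.LB 1 := by
  intro P
  have hc : ∀ i j : Fin 3, K33.bd ({(i, j)} : Finset (Fin 3 × Fin 3)) =
      K33.one ((false, i) : Bool × Fin 3) + K33.one ((true, j) : Bool × Fin 3) := by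
    intro i j
    funext v
    exact Finset.sum_singleton _ _
  have h := P.K33_identity (fun i => ((false, i) : Bool × Fin 3))
    (fun j => ((true, j) : Bool × Fin 3)) (fun i i' h => (Prod.ext_iff.1 h).2)
    (fun i i' h => (Prod.ext_iff.1 h).2)
    (fun i j h => Bool.false_ne_true (Prod.ext_iff.1 h).1)
    (fun i j => ({(i, j)} : Finset (Fin 3 × Fin 3))) hc
  obtain ⟨i, -, h⟩ := Finset.exists_ne_zero_of_sum_ne_zero (by rw [h]; decide)
  obtain ⟨j, -, h⟩ := Finset.exists_ne_zero_of_sum_ne_zero h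
  obtain ⟨k, -, h⟩ := Finset.exists_ne_zero_of_sum_ne_zero h
  obtain ⟨l, -, h⟩ := Finset.exists_ne_zero_of_sum_ne_zero h
  split_ifs at h with hik
  swap
  · exact absurd rfl h
  have hX : P.XX ({(i, j)} : Finset (Fin 3 × Fin 3)) ({(k, l)} : Finset (Fin 3 × Fin 3)) =
      P.X ((i, j) : Fin 3 × Fin 3) ((k, l) : Fin 3 × Fin 3) := by
    unfold PS.XX
    exact (Finset.sum_singleton _ _).trans (Finset.sum_singleton _ _)
  rw [hX] at h
  have h3 : ∀ z : ZMod 2, z ≠ 0 → z = 1 := by decide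
  refine P.two_le_cross ?_ (h3 _ h)
  exact ⟨fun h => hik.1.ne (Prod.ext_iff.1 h).2, fun h => Bool.false_ne_true (Prod.ext_iff.1 h).1,
      fun h => Bool.false_ne_true (Prod.ext_iff.1 h).1.symm, fun h => hik.2 (Prod.ext_iff.1 h).2⟩

section ZipEmb

variable {G1 G2 : Gph} {v1 : G1.V} {v2 : G2.V} (p1 : Port G1 v1) (p2 : Port G2 v2)

/-- The edges of the first part. -/
def zL (e : {e : G1.E // G1.a e ≠ v1 ∧ G1.b e ≠ v1}) : (zip G1 G2 p1 p2).E := Sum.inl e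
/-- The edges of the second part. -/
def zR (e : {e : G2.E // G2.a e ≠ v2 ∧ G2.b e ≠ v2}) : (zip G1 G2 p1 p2).E := Sum.inr (Sum.inl e)
/-- The new edges. -/
def zM (i : Fin 3) : (zip G1 G2 p1 p2).E := Sum.inr (Sum.inr i)
/-- The vertices of the first part. -/
def vL (u : {u : G1.V // u ≠ v1}) : (zip G1 G2 p1 p2).V := Sum.inl u
/-- The vertices of the second part. -/
def vR (u : {u : G2.V // u ≠ v2}) : (zip G1 G2 p1 p2).V := Sum.inr u

theorem zip_aL (e) : (zip G1 G2 p1 p2).a (zL p1 p2 e) = vL p1 p2 ⟨G1.a e.1, e.2.1⟩ := rfl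
theorem zip_bL (e) : (zip G1 G2 p1 p2).b (zL p1 p2 e) = vL p1 p2 ⟨G1.b e.1, e.2.2⟩ := rfl
theorem zip_aR (e) : (zip G1 G2 p1 p2).a (zR p1 p2 e) = vR p1 p2 ⟨G2.a e.1, e.2.1⟩ := rfl
theorem zip_bR (e) : (zip G1 G2 p1 p2).b (zR p1 p2 e) = vR p1 p2 ⟨G2.b e.1, e.2.2⟩ := rfl
theorem zip_aM (i) : (zip G1 G2 p1 p2).a (zM p1 p2 i) = vL p1 p2 ⟨p1.nb i, p1.nb_ne i⟩ := rfl
theorem zip_bM (i) : (zip G1 G2 p1 p2).b (zM p1 p2 i) = vR p1 p2 ⟨p2.nb i, p2.nb_ne i⟩ := rfl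

theorem zL_inj {e f} : zL p1 p2 e = zL p1 p2 f ↔ e = f := Sum.inl_injective.eq_iff
theorem zR_inj {e f} : zR p1 p2 e = zR p1 p2 f ↔ e = f :=
  (Sum.inr_injective.comp Sum.inl_injective).eq_iff
theorem zM_inj {e f} : zM p1 p2 e = zM p1 p2 f ↔ e = f :=
  (Sum.inr_injective.comp Sum.inr_injective).eq_iff
theorem vL_inj {u w} : vL p1 p2 u = vL p1 p2 w ↔ u = w := Sum.inl_injective.eq_iff
theorem vR_inj {u w} : vR p1 p2 u = vR p1 p2 w ↔ u = w := Sum.inr_injective.eq_iff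
theorem zL_ne_zR (e f) : zL p1 p2 e ≠ zR p1 p2 f := fun h => nomatch h
theorem zL_ne_zM (e f) : zL p1 p2 e ≠ zM p1 p2 f := fun h => nomatch h
theorem zR_ne_zM (e f) : zR p1 p2 e ≠ zM p1 p2 f := fun h => nomatch h
theorem vL_ne_vR (e f) : vL p1 p2 e ≠ vR p1 p2 f := fun h => nomatch h

/-- `zR` as an embedding. -/
def zRe : {e : G2.E // G2.a e ≠ v2 ∧ G2.b e ≠ v2} ↪ (zip G1 G2 p1 p2).E :=
  ⟨zR p1 p2, fun _ _ h => (zR_inj p1 p2).1 h⟩

/-- `zL` as an embedding. -/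
def zLe : {e : G1.E // G1.a e ≠ v1 ∧ G1.b e ≠ v1} ↪ (zip G1 G2 p1 p2).E :=
  ⟨zL p1 p2, fun _ _ h => (zL_inj p1 p2).1 h⟩

theorem zRe_apply (f) : zRe p1 p2 f = zR p1 p2 f := rfl
theorem zLe_apply (f) : zLe p1 p2 f = zL p1 p2 f := rfl

/-- A set of edges of the second graph, in the zip. -/
def legR (s : Finset G2.E) : Finset (zip G1 G2 p1 p2).E :=
  (Finset.subtype (fun f => G2.a f ≠ v2 ∧ G2.b f ≠ v2) s).map (zRe p1 p2)

/-- A set of edges of the first graph, in the zip. -/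
def legL (s : Finset G1.E) : Finset (zip G1 G2 p1 p2).E :=
  (Finset.subtype (fun f => G1.a f ≠ v1 ∧ G1.b f ≠ v1) s).map (zLe p1 p2)

theorem mem_legR {s : Finset G2.E} {x} : x ∈ legR p1 p2 s ↔ ∃ f, f.1 ∈ s ∧ zR p1 p2 f = x := by
  simp only [legR, Finset.mem_map, Finset.mem_subtype, zRe_apply]

theorem mem_legL {s : Finset G1.E} {x} : x ∈ legL p1 p2 s ↔ ∃ f, f.1 ∈ s ∧ zL p1 p2 f = x := by
  simp only [legL, Finset.mem_map, Finset.mem_subtype, zLe_apply]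

theorem bd_legR (s : Finset G2.E) (hs : ∀ f ∈ s, G2.a f ≠ v2 ∧ G2.b f ≠ v2)
    {x y : {u : G2.V // u ≠ v2}} (h : G2.bd s = G2.one x + G2.one y) :
    (zip G1 G2 p1 p2).bd (legR p1 p2 s) = (zip G1 G2 p1 p2).one (vR p1 p2 x) +
      (zip G1 G2 p1 p2).one (vR p1 p2 y) := by
  funext w
  simp only [bd, legR, Finset.sum_map, zRe_apply, zip_aR, zip_bR, Pi.add_apply, one]
  rcases w with w | w
  · have h0 : ∀ u, (vR p1 p2 u = (Sum.inl w : (zip G1 G2 p1 p2).V)) = False := fun u =>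
      eq_false fun h => nomatch h
    simp only [h0, if_false, add_zero, Finset.sum_const_zero]
  · have h0 : ∀ u, (vR p1 p2 u = (Sum.inr w : (zip G1 G2 p1 p2).V)) = (u.1 = w.1) := fun u =>
      propext ((vR_inj p1 p2 (w := w)).trans Subtype.ext_iff)
    have h1 := congrFun h w.1
    simp only [bd, one, Pi.add_apply] at h1
    simp only [h0]
    rw [← h1]
    exact Finset.sum_subtype_of_mem
      (fun f => ((if G2.a f = w.1 then 1 else 0) + (if G2.b f = w.1 then 1 else 0) : ZMod 2)) hs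

theorem bd_legL (s : Finset G1.E) (hs : ∀ f ∈ s, G1.a f ≠ v1 ∧ G1.b f ≠ v1)
    {x y : {u : G1.V // u ≠ v1}} (h : G1.bd s = G1.one x + G1.one y) :
    (zip G1 G2 p1 p2).bd (legL p1 p2 s) = (zip G1 G2 p1 p2).one (vL p1 p2 x) +
      (zip G1 G2 p1 p2).one (vL p1 p2 y) := by
  funext w
  simp only [bd, legL, Finset.sum_map, zLe_apply, zip_aL, zip_bL, Pi.add_apply, one]
  rcases w with w | w
  · have h0 : ∀ u, (vL p1 p2 u = (Sum.inl w : (zip G1 G2 p1 p2).V)) = (u.1 = w.1) := fun u =>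
      propext ((vL_inj p1 p2 (w := w)).trans Subtype.ext_iff)
    have h1 := congrFun h w.1
    simp only [bd, one, Pi.add_apply] at h1
    simp only [h0]
    rw [← h1]
    exact Finset.sum_subtype_of_mem
      (fun f => ((if G1.a f = w.1 then 1 else 0) + (if G1.b f = w.1 then 1 else 0) : ZMod 2)) hs
  · have h0 : ∀ u, (vL p1 p2 u = (Sum.inr w : (zip G1 G2 p1 p2).V)) = False := fun u =>
      eq_false fun h => nomatch h
    simp only [h0, if_false, add_zero, Finset.sum_const_zero]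

theorem vR_ne_vL (e f) : vR p1 p2 e ≠ vL p1 p2 f := fun h => nomatch h
theorem zR_ne_zL (e f) : zR p1 p2 e ≠ zL p1 p2 f := fun h => nomatch h

theorem Port.not_avoid {G : Gph} {v : G.V} (p : Port G v) (i : Fin 3) :
    ¬ (G.a (p.e i) ≠ v ∧ G.b (p.e i) ≠ v) := by
  rcases p.ends i with h | h
  · exact fun h' => h'.1 h.1
  · exact fun h' => h'.2 h.2

theorem Port.avoid_or {G : Gph} {v : G.V} (p : Port G v) (e : G.E) :
    (G.a e ≠ v ∧ G.b e ≠ v) ∨ ∃ i, p.e i = e := by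
  by_cases h1 : G.a e = v
  · obtain ⟨i, hi⟩ := p.all e (Or.inl h1)
    exact Or.inr ⟨i, hi.symm⟩
  by_cases h2 : G.b e = v
  · obtain ⟨i, hi⟩ := p.all e (Or.inr h2)
    exact Or.inr ⟨i, hi.symm⟩
  · exact Or.inl ⟨h1, h2⟩

theorem Port.not_ind {G : Gph} {v : G.V} (p : Port G v) (i j : Fin 3) :
    ¬ G.Ind (p.e i) (p.e j) := by
  rintro ⟨h1, h2, h3, h4⟩
  rcases p.ends i with h | h <;> rcases p.ends j with h' | h'
  · exact h1 (h.1.trans h'.1.symm)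
  · exact h2 (h.1.trans h'.2.symm)
  · exact h3 (h.2.trans h'.1.symm)
  · exact h4 (h.2.trans h'.2.symm)

theorem Port.ind_nb {G : Gph} {v : G.V} (p : Port G v) {e : G.E} {i : Fin 3}
    (h : G.Ind e (p.e i)) : G.a e ≠ p.nb i ∧ G.b e ≠ p.nb i := by
  obtain ⟨h1, h2, h3, h4⟩ := h
  rcases p.ends i with h | h
  · exact ⟨fun h' => h2 (h'.trans h.2.symm), fun h' => h4 (h'.trans h.2.symm)⟩
  · exact ⟨fun h' => h1 (h'.trans h.1.symm), fun h' => h3 (h'.trans h.1.symm)⟩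

open Classical in
/-- The chains of the embedding of the first graph. -/
noncomputable def embLc (t : Fin 3 → Finset G2.E) (e : G1.E) : Finset (zip G1 G2 p1 p2).E :=
  Finset.univ.filter (fun x => (∃ h : G1.a e ≠ v1 ∧ G1.b e ≠ v1, x = zL p1 p2 ⟨e, h⟩) ∨
    ∃ i, p1.e i = e ∧ (x = zM p1 p2 i ∨ x ∈ legR p1 p2 (t i)))

theorem mem_embLc {t : Fin 3 → Finset G2.E} {e : G1.E} {x} : x ∈ embLc p1 p2 t e ↔
    (∃ h : G1.a e ≠ v1 ∧ G1.b e ≠ v1, x = zL p1 p2 ⟨e, h⟩) ∨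
    ∃ i, p1.e i = e ∧ (x = zM p1 p2 i ∨ x ∈ legR p1 p2 (t i)) := by
  classical
  simp only [embLc, Finset.mem_filter, Finset.mem_univ, true_and]

theorem embLc_avoid (t : Fin 3 → Finset G2.E) {e : G1.E}
    (h : G1.a e ≠ v1 ∧ G1.b e ≠ v1) :
    embLc p1 p2 t e = {zL p1 p2 ⟨e, h⟩} := by
  ext x
  rw [mem_embLc, Finset.mem_singleton]
  constructor
  · rintro (⟨_, hx⟩ | ⟨i, hi, -⟩)
    · exact hx
    · subst hi
      exact absurd h (p1.not_avoid i)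
  · exact fun hx => Or.inl ⟨h, hx⟩

theorem embLc_port (t : Fin 3 → Finset G2.E) (i : Fin 3) :
    embLc p1 p2 t (p1.e i) = insert (zM p1 p2 i) (legR p1 p2 (t i)) := by
  ext x
  rw [mem_embLc, Finset.mem_insert]
  constructor
  · rintro (⟨h, -⟩ | ⟨j, hj, hx⟩)
    · exact absurd h (p1.not_avoid i)
    · have hij := p1.e_inj hj
      subst hij
      exact hx
  · exact fun hx => Or.inr ⟨i, rfl, hx⟩

/-- The vertices of the embedding of the first graph. -/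
def embLv (t : Tripod G2 p2) (u : G1.V) : (zip G1 G2 p1 p2).V :=
  if h : u = v1 then vR p1 p2 ⟨t.c, t.c_ne⟩ else vL p1 p2 ⟨u, h⟩

theorem embLv_self (t : Tripod G2 p2) : embLv p1 p2 t v1 = vR p1 p2 ⟨t.c, t.c_ne⟩ :=
  dif_pos rfl

theorem embLv_ne (t : Tripod G2 p2) {u : G1.V} (h : u ≠ v1) :
    embLv p1 p2 t u = vL p1 p2 ⟨u, h⟩ := dif_neg h

theorem embLv_inj (t : Tripod G2 p2) : Function.Injective (embLv p1 p2 t) := by
  intro u w h
  by_cases hu : u = v1 <;> by_cases hw : w = v1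
  · rw [hu, hw]
  · subst hu
    rw [embLv_self, embLv_ne _ _ _ hw] at h
    exact absurd h (vR_ne_vL p1 p2 _ _)
  · subst hw
    rw [embLv_self, embLv_ne _ _ _ hu] at h
    exact absurd h (vL_ne_vR p1 p2 _ _)
  · rw [embLv_ne _ _ _ hu, embLv_ne _ _ _ hw, vL_inj] at h
    exact congrArg Subtype.val h

theorem embL_bd (t : Tripod G2 p2) (e : G1.E) : (zip G1 G2 p1 p2).bd (embLc p1 p2 t.t e) =
    (zip G1 G2 p1 p2).one (embLv p1 p2 t (G1.a e)) +
      (zip G1 G2 p1 p2).one (embLv p1 p2 t (G1.b e)) := by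
  rcases p1.avoid_or e with h | ⟨i, rfl⟩
  · rw [embLc_avoid _ _ _ h, embLv_ne _ _ _ h.1, embLv_ne _ _ _ h.2]
    funext w
    simp only [bd, Finset.sum_singleton, one, Pi.add_apply, zip_aL, zip_bL]
    rfl
  · have hn : zM p1 p2 i ∉ legR p1 p2 (t.t i) := by
      rw [mem_legR]
      rintro ⟨f, -, hf⟩
      exact zR_ne_zM p1 p2 _ _ hf
    have h1 : (zip G1 G2 p1 p2).bd (insert (zM p1 p2 i) (legR p1 p2 (t.t i))) =
        ((zip G1 G2 p1 p2).one (vL p1 p2 ⟨p1.nb i, p1.nb_ne i⟩) +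
        (zip G1 G2 p1 p2).one (vR p1 p2 ⟨p2.nb i, p2.nb_ne i⟩)) +
        (zip G1 G2 p1 p2).bd (legR p1 p2 (t.t i)) := by
      funext w
      simp only [bd, one, Pi.add_apply, Finset.sum_insert hn, zip_aM, zip_bM]
      rfl
    have h2 : ∀ z : ZMod 2, z + z = 0 := by decide
    have h3 : (zip G1 G2 p1 p2).bd (embLc p1 p2 t.t (p1.e i)) =
        (zip G1 G2 p1 p2).one (vL p1 p2 ⟨p1.nb i, p1.nb_ne i⟩) +
        (zip G1 G2 p1 p2).one (vR p1 p2 ⟨t.c, t.c_ne⟩) := by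
      rw [embLc_port, h1, bd_legR p1 p2 (t.t i) (t.avoid i) (x := ⟨p2.nb i, p2.nb_ne i⟩)
        (y := ⟨t.c, t.c_ne⟩) (t.bd i)]
      funext w
      simp only [Pi.add_apply]
      linear_combination h2 ((zip G1 G2 p1 p2).one (vR p1 p2 ⟨p2.nb i, p2.nb_ne i⟩) w)
    rw [h3]
    rcases p1.ends i with ⟨ha, hb⟩ | ⟨ha, hb⟩
    · rw [ha, hb, embLv_self, embLv_ne _ _ _ (p1.nb_ne i), add_comm]
    · rw [ha, hb, embLv_self, embLv_ne _ _ _ (p1.nb_ne i)]

theorem embL_ind (t : Tripod G2 p2) (e f : G1.E) (hef : G1.Ind e f) :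
    ∀ e' ∈ embLc p1 p2 t.t e, ∀ f' ∈ embLc p1 p2 t.t f, (zip G1 G2 p1 p2).Ind e' f' := by
  have key : ∀ (e : G1.E) (h : G1.a e ≠ v1 ∧ G1.b e ≠ v1) (i : Fin 3), G1.Ind e (p1.e i) →
      ∀ f' ∈ embLc p1 p2 t.t (p1.e i), (zip G1 G2 p1 p2).Ind (zL p1 p2 ⟨e, h⟩) f' := by
    intro e h i hI f' hf'
    rw [embLc_port, Finset.mem_insert, mem_legR] at hf'
    rcases hf' with rfl | ⟨f, -, rfl⟩
    · obtain ⟨h1, h2⟩ := p1.ind_nb hI
      exact ⟨fun hh => h1 (congrArg Subtype.val ((vL_inj p1 p2).1 hh)), vL_ne_vR p1 p2 _ _,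
        fun hh => h2 (congrArg Subtype.val ((vL_inj p1 p2).1 hh)), vL_ne_vR p1 p2 _ _⟩
    · exact ⟨vL_ne_vR p1 p2 _ _, vL_ne_vR p1 p2 _ _, vL_ne_vR p1 p2 _ _, vL_ne_vR p1 p2 _ _⟩
  rcases p1.avoid_or e with h | ⟨i, rfl⟩ <;> rcases p1.avoid_or f with h' | ⟨j, rfl⟩
  · intro e' he' f' hf'
    rw [embLc_avoid _ _ _ h, Finset.mem_singleton] at he'
    rw [embLc_avoid _ _ _ h', Finset.mem_singleton] at hf'
    subst he' hf'
    obtain ⟨h1, h2, h3, h4⟩ := hef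
    exact ⟨fun hh => h1 (congrArg Subtype.val ((vL_inj p1 p2).1 hh)),
      fun hh => h2 (congrArg Subtype.val ((vL_inj p1 p2).1 hh)),
      fun hh => h3 (congrArg Subtype.val ((vL_inj p1 p2).1 hh)),
      fun hh => h4 (congrArg Subtype.val ((vL_inj p1 p2).1 hh))⟩
  · intro e' he' f' hf'
    rw [embLc_avoid _ _ _ h, Finset.mem_singleton] at he'
    subst he'
    exact key e h j hef f' hf'
  · intro e' he' f' hf'
    rw [embLc_avoid _ _ _ h', Finset.mem_singleton] at hf'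
    subst hf'
    exact (key f h' i hef.symm e' he').symm
  · exact absurd hef (p1.not_ind i j)

theorem embL_disj (t : Tripod G2 p2) (e f : G1.E) (hef : e ≠ f) :
    Disjoint (embLc p1 p2 t.t e) (embLc p1 p2 t.t f) := by
  rw [Finset.disjoint_left]
  intro x hx hx'
  rw [mem_embLc] at hx hx'
  rcases hx with ⟨h, rfl⟩ | ⟨i, rfl, hx⟩ <;> rcases hx' with ⟨h', hx'⟩ | ⟨j, rfl, hx'⟩
  · exact hef (congrArg Subtype.val ((zL_inj p1 p2).1 hx'))
  · rcases hx' with hx' | hx'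
    · exact zL_ne_zM p1 p2 _ _ hx'
    · obtain ⟨f, -, hf⟩ := (mem_legR p1 p2).1 hx'
      exact zR_ne_zL p1 p2 _ _ hf
  · subst hx'
    rcases hx with hx | hx
    · exact zL_ne_zM p1 p2 _ _ hx
    · obtain ⟨f, -, hf⟩ := (mem_legR p1 p2).1 hx
      exact zR_ne_zL p1 p2 _ _ hf
  · have hij : i ≠ j := fun h => hef (by rw [h])
    rcases hx with rfl | hx <;> rcases hx' with hx' | hx'
    · exact hij ((zM_inj p1 p2).1 hx')
    · obtain ⟨f, -, hf⟩ := (mem_legR p1 p2).1 hx'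
      exact zR_ne_zM p1 p2 _ _ hf
    · subst hx'
      obtain ⟨f, -, hf⟩ := (mem_legR p1 p2).1 hx
      exact zR_ne_zM p1 p2 _ _ hf
    · obtain ⟨f, hf, rfl⟩ := (mem_legR p1 p2).1 hx
      obtain ⟨g, hg, hfg⟩ := (mem_legR p1 p2).1 hx'
      have := (zR_inj p1 p2).1 hfg
      subst this
      exact Finset.disjoint_left.1 (t.disj i j hij) hf hg

/-- The embedding of the first graph. -/
noncomputable def embL (t : Tripod G2 p2) : TEmb G1 (zip G1 G2 p1 p2) where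
  v := embLv p1 p2 t
  c := embLc p1 p2 t.t
  v_inj := embLv_inj p1 p2 t
  bd := embL_bd p1 p2 t
  ind := embL_ind p1 p2 t
  disj := embL_disj p1 p2 t

open Classical in
/-- The chains of the embedding of the second graph. -/
noncomputable def embRc (t : Fin 3 → Finset G1.E) (e : G2.E) : Finset (zip G1 G2 p1 p2).E :=
  Finset.univ.filter (fun x => (∃ h : G2.a e ≠ v2 ∧ G2.b e ≠ v2, x = zR p1 p2 ⟨e, h⟩) ∨
    ∃ i, p2.e i = e ∧ (x = zM p1 p2 i ∨ x ∈ legL p1 p2 (t i)))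

theorem mem_embRc {t : Fin 3 → Finset G1.E} {e : G2.E} {x} : x ∈ embRc p1 p2 t e ↔
    (∃ h : G2.a e ≠ v2 ∧ G2.b e ≠ v2, x = zR p1 p2 ⟨e, h⟩) ∨
    ∃ i, p2.e i = e ∧ (x = zM p1 p2 i ∨ x ∈ legL p1 p2 (t i)) := by
  classical
  simp only [embRc, Finset.mem_filter, Finset.mem_univ, true_and]

theorem embRc_avoid (t : Fin 3 → Finset G1.E) {e : G2.E}
    (h : G2.a e ≠ v2 ∧ G2.b e ≠ v2) :
    embRc p1 p2 t e = {zR p1 p2 ⟨e, h⟩} := by
  ext x
  rw [mem_embRc, Finset.mem_singleton]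
  constructor
  · rintro (⟨_, hx⟩ | ⟨i, hi, -⟩)
    · exact hx
    · subst hi
      exact absurd h (p2.not_avoid i)
  · exact fun hx => Or.inl ⟨h, hx⟩

theorem embRc_port (t : Fin 3 → Finset G1.E) (i : Fin 3) :
    embRc p1 p2 t (p2.e i) = insert (zM p1 p2 i) (legL p1 p2 (t i)) := by
  ext x
  rw [mem_embRc, Finset.mem_insert]
  constructor
  · rintro (⟨h, -⟩ | ⟨j, hj, hx⟩)
    · exact absurd h (p2.not_avoid i)
    · have hij := p2.e_inj hj
      subst hij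
      exact hx
  · exact fun hx => Or.inr ⟨i, rfl, hx⟩

/-- The vertices of the embedding of the second graph. -/
def embRv (t : Tripod G1 p1) (u : G2.V) : (zip G1 G2 p1 p2).V :=
  if h : u = v2 then vL p1 p2 ⟨t.c, t.c_ne⟩ else vR p1 p2 ⟨u, h⟩

theorem embRv_self (t : Tripod G1 p1) : embRv p1 p2 t v2 = vL p1 p2 ⟨t.c, t.c_ne⟩ :=
  dif_pos rfl

theorem embRv_ne (t : Tripod G1 p1) {u : G2.V} (h : u ≠ v2) :
    embRv p1 p2 t u = vR p1 p2 ⟨u, h⟩ := dif_neg h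

theorem embRv_inj (t : Tripod G1 p1) : Function.Injective (embRv p1 p2 t) := by
  intro u w h
  by_cases hu : u = v2 <;> by_cases hw : w = v2
  · rw [hu, hw]
  · subst hu
    rw [embRv_self, embRv_ne _ _ _ hw] at h
    exact absurd h (vL_ne_vR p1 p2 _ _)
  · subst hw
    rw [embRv_self, embRv_ne _ _ _ hu] at h
    exact absurd h (vR_ne_vL p1 p2 _ _)
  · rw [embRv_ne _ _ _ hu, embRv_ne _ _ _ hw, vR_inj] at h
    exact congrArg Subtype.val h

theorem embR_bd (t : Tripod G1 p1) (e : G2.E) : (zip G1 G2 p1 p2).bd (embRc p1 p2 t.t e) =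
    (zip G1 G2 p1 p2).one (embRv p1 p2 t (G2.a e)) +
      (zip G1 G2 p1 p2).one (embRv p1 p2 t (G2.b e)) := by
  rcases p2.avoid_or e with h | ⟨i, rfl⟩
  · rw [embRc_avoid _ _ _ h, embRv_ne _ _ _ h.1, embRv_ne _ _ _ h.2]
    funext w
    simp only [bd, Finset.sum_singleton, one, Pi.add_apply, zip_aR, zip_bR]
    rfl
  · have hn : zM p1 p2 i ∉ legL p1 p2 (t.t i) := by
      rw [mem_legL]
      rintro ⟨f, -, hf⟩
      exact zL_ne_zM p1 p2 _ _ hf
    have h1 : (zip G1 G2 p1 p2).bd (insert (zM p1 p2 i) (legL p1 p2 (t.t i))) =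
        ((zip G1 G2 p1 p2).one (vL p1 p2 ⟨p1.nb i, p1.nb_ne i⟩) +
        (zip G1 G2 p1 p2).one (vR p1 p2 ⟨p2.nb i, p2.nb_ne i⟩)) +
        (zip G1 G2 p1 p2).bd (legL p1 p2 (t.t i)) := by
      funext w
      simp only [bd, one, Pi.add_apply, Finset.sum_insert hn, zip_aM, zip_bM]
      rfl
    have h2 : ∀ z : ZMod 2, z + z = 0 := by decide
    have h3 : (zip G1 G2 p1 p2).bd (embRc p1 p2 t.t (p2.e i)) =
        (zip G1 G2 p1 p2).one (vR p1 p2 ⟨p2.nb i, p2.nb_ne i⟩) +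
        (zip G1 G2 p1 p2).one (vL p1 p2 ⟨t.c, t.c_ne⟩) := by
      rw [embRc_port, h1, bd_legL p1 p2 (t.t i) (t.avoid i) (x := ⟨p1.nb i, p1.nb_ne i⟩)
        (y := ⟨t.c, t.c_ne⟩) (t.bd i)]
      funext w
      simp only [Pi.add_apply]
      linear_combination h2 ((zip G1 G2 p1 p2).one (vL p1 p2 ⟨p1.nb i, p1.nb_ne i⟩) w)
    rw [h3]
    rcases p2.ends i with ⟨ha, hb⟩ | ⟨ha, hb⟩
    · rw [ha, hb, embRv_self, embRv_ne _ _ _ (p2.nb_ne i), add_comm]
    · rw [ha, hb, embRv_self, embRv_ne _ _ _ (p2.nb_ne i)]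

theorem embR_ind (t : Tripod G1 p1) (e f : G2.E) (hef : G2.Ind e f) :
    ∀ e' ∈ embRc p1 p2 t.t e, ∀ f' ∈ embRc p1 p2 t.t f, (zip G1 G2 p1 p2).Ind e' f' := by
  have key : ∀ (e : G2.E) (h : G2.a e ≠ v2 ∧ G2.b e ≠ v2) (i : Fin 3), G2.Ind e (p2.e i) →
      ∀ f' ∈ embRc p1 p2 t.t (p2.e i), (zip G1 G2 p1 p2).Ind (zR p1 p2 ⟨e, h⟩) f' := by
    intro e h i hI f' hf'
    rw [embRc_port, Finset.mem_insert, mem_legL] at hf'
    rcases hf' with rfl | ⟨f, -, rfl⟩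
    · obtain ⟨h1, h2⟩ := p2.ind_nb hI
      exact ⟨vR_ne_vL p1 p2 _ _, fun hh => h1 (congrArg Subtype.val ((vR_inj p1 p2).1 hh)),
        vR_ne_vL p1 p2 _ _, fun hh => h2 (congrArg Subtype.val ((vR_inj p1 p2).1 hh))⟩
    · exact ⟨vR_ne_vL p1 p2 _ _, vR_ne_vL p1 p2 _ _, vR_ne_vL p1 p2 _ _, vR_ne_vL p1 p2 _ _⟩
  rcases p2.avoid_or e with h | ⟨i, rfl⟩ <;> rcases p2.avoid_or f with h' | ⟨j, rfl⟩
  · intro e' he' f' hf'
    rw [embRc_avoid _ _ _ h, Finset.mem_singleton] at he'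
    rw [embRc_avoid _ _ _ h', Finset.mem_singleton] at hf'
    subst he' hf'
    obtain ⟨h1, h2, h3, h4⟩ := hef
    exact ⟨fun hh => h1 (congrArg Subtype.val ((vR_inj p1 p2).1 hh)),
      fun hh => h2 (congrArg Subtype.val ((vR_inj p1 p2).1 hh)),
      fun hh => h3 (congrArg Subtype.val ((vR_inj p1 p2).1 hh)),
      fun hh => h4 (congrArg Subtype.val ((vR_inj p1 p2).1 hh))⟩
  · intro e' he' f' hf'
    rw [embRc_avoid _ _ _ h, Finset.mem_singleton] at he'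
    subst he'
    exact key e h j hef f' hf'
  · intro e' he' f' hf'
    rw [embRc_avoid _ _ _ h', Finset.mem_singleton] at hf'
    subst hf'
    exact (key f h' i hef.symm e' he').symm
  · exact absurd hef (p2.not_ind i j)

theorem embR_disj (t : Tripod G1 p1) (e f : G2.E) (hef : e ≠ f) :
    Disjoint (embRc p1 p2 t.t e) (embRc p1 p2 t.t f) := by
  rw [Finset.disjoint_left]
  intro x hx hx'
  rw [mem_embRc] at hx hx'
  rcases hx with ⟨h, rfl⟩ | ⟨i, rfl, hx⟩ <;> rcases hx' with ⟨h', hx'⟩ | ⟨j, rfl, hx'⟩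
  · exact hef (congrArg Subtype.val ((zR_inj p1 p2).1 hx'))
  · rcases hx' with hx' | hx'
    · exact zR_ne_zM p1 p2 _ _ hx'
    · obtain ⟨f, -, hf⟩ := (mem_legL p1 p2).1 hx'
      exact zL_ne_zR p1 p2 _ _ hf
  · subst hx'
    rcases hx with hx | hx
    · exact zR_ne_zM p1 p2 _ _ hx
    · obtain ⟨f, -, hf⟩ := (mem_legL p1 p2).1 hx
      exact zL_ne_zR p1 p2 _ _ hf
  · have hij : i ≠ j := fun h => hef (by rw [h])
    rcases hx with rfl | hx <;> rcases hx' with hx' | hx'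
    · exact hij ((zM_inj p1 p2).1 hx')
    · obtain ⟨f, -, hf⟩ := (mem_legL p1 p2).1 hx'
      exact zL_ne_zM p1 p2 _ _ hf
    · subst hx'
      obtain ⟨f, -, hf⟩ := (mem_legL p1 p2).1 hx
      exact zL_ne_zM p1 p2 _ _ hf
    · obtain ⟨f, hf, rfl⟩ := (mem_legL p1 p2).1 hx
      obtain ⟨g, hg, hfg⟩ := (mem_legL p1 p2).1 hx'
      have := (zL_inj p1 p2).1 hfg
      subst this
      exact Finset.disjoint_left.1 (t.disj i j hij) hf hg

/-- The embedding of the second graph. -/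
noncomputable def embR (t : Tripod G1 p1) : TEmb G2 (zip G1 G2 p1 p2) where
  v := embRv p1 p2 t
  c := embRc p1 p2 t.t
  v_inj := embRv_inj p1 p2 t
  bd := embR_bd p1 p2 t
  ind := embR_ind p1 p2 t
  disj := embR_disj p1 p2 t

theorem embL_one (t : Tripod G2 p2) {p : (zip G1 G2 p1 p2).E × (zip G1 G2 p1 p2).E}
    (h : ∃ e f : G1.E, G1.Ind e f ∧ p.1 ∈ (embL p1 p2 t).c e ∧ p.2 ∈ (embL p1 p2 t).c f) :
    (∃ e, p.1 = zL p1 p2 e) ∨ ∃ e, p.2 = zL p1 p2 e := by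
  obtain ⟨e, f, hI, he, hf⟩ := h
  change p.1 ∈ embLc p1 p2 t.t e at he
  change p.2 ∈ embLc p1 p2 t.t f at hf
  rcases p1.avoid_or e with h | ⟨i, rfl⟩
  · rw [embLc_avoid _ _ _ h, Finset.mem_singleton] at he
    exact Or.inl ⟨_, he⟩
  rcases p1.avoid_or f with h | ⟨j, rfl⟩
  · rw [embLc_avoid _ _ _ h, Finset.mem_singleton] at hf
    exact Or.inr ⟨_, hf⟩
  · exact absurd hI (p1.not_ind i j)

theorem embL_leg (t : Tripod G2 p2) {e : G1.E} {f}
    (h : zR p1 p2 f ∈ (embL p1 p2 t).c e) : ∃ i, f.1 ∈ t.t i := by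
  change _ ∈ embLc p1 p2 t.t e at h
  rcases (mem_embLc p1 p2).1 h with ⟨_, h⟩ | ⟨i, -, h | h⟩
  · exact absurd h (zR_ne_zL p1 p2 _ _)
  · exact absurd h (zR_ne_zM p1 p2 _ _)
  · obtain ⟨g, hg, h'⟩ := (mem_legR p1 p2).1 h
    have := (zR_inj p1 p2).1 h'
    subst this
    exact ⟨i, hg⟩

theorem embL_three (t t' : Tripod G2 p2) (htt : ∀ i j, Disjoint (t.t i) (t'.t j))
    {p : (zip G1 G2 p1 p2).E × (zip G1 G2 p1 p2).E}
    (h : ∃ e f : G1.E, G1.Ind e f ∧ p.1 ∈ (embL p1 p2 t).c e ∧ p.2 ∈ (embL p1 p2 t).c f)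
    (h' : ∃ e f : G1.E, G1.Ind e f ∧ p.1 ∈ (embL p1 p2 t').c e ∧ p.2 ∈ (embL p1 p2 t').c f)
    (h2 : (∃ e, p.1 = zR p1 p2 e) ∨ ∃ e, p.2 = zR p1 p2 e) : False := by
  obtain ⟨e, f, -, he, hf⟩ := h
  obtain ⟨e', f', -, he', hf'⟩ := h'
  rcases h2 with ⟨g, hg⟩ | ⟨g, hg⟩
  · rw [hg] at he he'
    obtain ⟨i, hi⟩ := embL_leg p1 p2 t he
    obtain ⟨j, hj⟩ := embL_leg p1 p2 t' he'
    exact Finset.disjoint_left.1 (htt i j) hi hj
  · rw [hg] at hf hf'
    obtain ⟨i, hi⟩ := embL_leg p1 p2 t hf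
    obtain ⟨j, hj⟩ := embL_leg p1 p2 t' hf'
    exact Finset.disjoint_left.1 (htt i j) hi hj

theorem embR_one (t : Tripod G1 p1) {p : (zip G1 G2 p1 p2).E × (zip G1 G2 p1 p2).E}
    (h : ∃ e f : G2.E, G2.Ind e f ∧ p.1 ∈ (embR p1 p2 t).c e ∧ p.2 ∈ (embR p1 p2 t).c f) :
    (∃ e, p.1 = zR p1 p2 e) ∨ ∃ e, p.2 = zR p1 p2 e := by
  obtain ⟨e, f, hI, he, hf⟩ := h
  change p.1 ∈ embRc p1 p2 t.t e at he
  change p.2 ∈ embRc p1 p2 t.t f at hf
  rcases p2.avoid_or e with h | ⟨i, rfl⟩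
  · rw [embRc_avoid _ _ _ h, Finset.mem_singleton] at he
    exact Or.inl ⟨_, he⟩
  rcases p2.avoid_or f with h | ⟨j, rfl⟩
  · rw [embRc_avoid _ _ _ h, Finset.mem_singleton] at hf
    exact Or.inr ⟨_, hf⟩
  · exact absurd hI (p2.not_ind i j)

theorem embR_leg (t : Tripod G1 p1) {e : G2.E} {f}
    (h : zL p1 p2 f ∈ (embR p1 p2 t).c e) : ∃ i, f.1 ∈ t.t i := by
  change _ ∈ embRc p1 p2 t.t e at h
  rcases (mem_embRc p1 p2).1 h with ⟨_, h⟩ | ⟨i, -, h | h⟩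
  · exact absurd h (zL_ne_zR p1 p2 _ _)
  · exact absurd h (zL_ne_zM p1 p2 _ _)
  · obtain ⟨g, hg, h'⟩ := (mem_legL p1 p2).1 h
    have := (zL_inj p1 p2).1 h'
    subst this
    exact ⟨i, hg⟩

theorem embR_three (t t' : Tripod G1 p1) (htt : ∀ i j, Disjoint (t.t i) (t'.t j))
    {p : (zip G1 G2 p1 p2).E × (zip G1 G2 p1 p2).E}
    (h : ∃ e f : G2.E, G2.Ind e f ∧ p.1 ∈ (embR p1 p2 t).c e ∧ p.2 ∈ (embR p1 p2 t).c f)
    (h' : ∃ e f : G2.E, G2.Ind e f ∧ p.1 ∈ (embR p1 p2 t').c e ∧ p.2 ∈ (embR p1 p2 t').c f)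
    (h2 : (∃ e, p.1 = zL p1 p2 e) ∨ ∃ e, p.2 = zL p1 p2 e) : False := by
  obtain ⟨e, f, -, he, hf⟩ := h
  obtain ⟨e', f', -, he', hf'⟩ := h'
  rcases h2 with ⟨g, hg⟩ | ⟨g, hg⟩
  · rw [hg] at he he'
    obtain ⟨i, hi⟩ := embR_leg p1 p2 t he
    obtain ⟨j, hj⟩ := embR_leg p1 p2 t' he'
    exact Finset.disjoint_left.1 (htt i j) hi hj
  · rw [hg] at hf hf'
    obtain ⟨i, hi⟩ := embR_leg p1 p2 t hf
    obtain ⟨j, hj⟩ := embR_leg p1 p2 t' hf'
    exact Finset.disjoint_left.1 (htt i j) hi hj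

end ZipEmb

theorem calc_four {α : Type} (T : Finset α) (P1 P2 P3 P4 : α → Prop) [DecidablePred P1]
    [DecidablePred P2] [DecidablePred P3] [DecidablePred P4]
    (h1 : ∀ x, P1 x → P2 x → P3 x → False) (h2 : ∀ x, P1 x → P2 x → P4 x → False)
    (h3 : ∀ x, P3 x → P4 x → P1 x → False) (h4 : ∀ x, P3 x → P4 x → P2 x → False) :
    (T.filter P1).card + (T.filter P2).card + (T.filter P3).card + (T.filter P4).card ≤
      2 * T.card := by
  simp only [Finset.card_filter, ← Finset.sum_add_distrib]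
  calc _ ≤ ∑ x ∈ T, 2 := Finset.sum_le_sum fun x _ => ?_
    _ = 2 * T.card := by rw [Finset.sum_const, smul_eq_mul, mul_comm]
  have k1 := h1 x
  have k2 := h2 x
  have k3 := h3 x
  have k4 := h4 x
  split_ifs <;> first | omega | (exfalso; tauto)

/-- zip additivity -/
theorem LB_zip {G1 G2 : Gph} {v1 : G1.V} {v2 : G2.V} (p1 : Port G1 v1) (p2 : Port G2 v2)
    (t1 : G1.HasTri2 p1) (t2 : G2.HasTri2 p2) {K1 K2 : ℕ} (h1 : G1.LB K1) (h2 : G2.LB K2) :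
    (zip G1 G2 p1 p2).LB (K1 + K2) := by
  intro P
  obtain ⟨s, s', hs⟩ := t1
  obtain ⟨t, t', ht⟩ := t2
  have c1 := (embL p1 p2 t).count P h1
  have c2 := (embL p1 p2 t').count P h1
  have c3 := (embR p1 p2 s).count P h2
  have c4 := (embR p1 p2 s').count P h2
  have c := calc_four P.cross
    (fun p => ∃ e f : G1.E, G1.Ind e f ∧ p.1 ∈ (embL p1 p2 t).c e ∧ p.2 ∈ (embL p1 p2 t).c f)
    (fun p => ∃ e f : G1.E, G1.Ind e f ∧ p.1 ∈ (embL p1 p2 t').c e ∧ p.2 ∈ (embL p1 p2 t').c f)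
    (fun p => ∃ e f : G2.E, G2.Ind e f ∧ p.1 ∈ (embR p1 p2 s).c e ∧ p.2 ∈ (embR p1 p2 s).c f)
    (fun p => ∃ e f : G2.E, G2.Ind e f ∧ p.1 ∈ (embR p1 p2 s').c e ∧ p.2 ∈ (embR p1 p2 s').c f)
    (fun x a b c => embL_three p1 p2 t t' ht a b (embR_one p1 p2 s c))
    (fun x a b c => embL_three p1 p2 t t' ht a b (embR_one p1 p2 s' c))
    (fun x a b c => embR_three p1 p2 s s' hs a b (embL_one p1 p2 t c))
    (fun x a b c => embR_three p1 p2 s s' hs a b (embL_one p1 p2 t' c))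
  omega

end Pool.Agent.CC.Gph
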