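import Pool.Agent.Lib_helper74.CCF.Calc

/-! CALC, linear version: chains with coefficients in `ZMod 2`. -/

namespace Pool.Agent.CC.Gph

/-- The mod 2 boundary of a chain. -/
def bdl (G : Gph) (c : G.E → ZMod 2) : G.V → ZMod 2 := fun v =>
  ∑ e, c e * ((if G.a e = v then 1 else 0) + (if G.b e = v then 1 else 0))

/-- The crossing form on chains. -/
def PS.L {G : Gph} (P : G.PS) (c d : G.E → ZMod 2) : ZMod 2 := ∑ e, ∑ f, c e * d f * P.X e f

/-- The chain version of `M`. -/
def PS.ML {G : Gph} (P : G.PS) (c : G.E → ZMod 2) (v : G.V) : ZMod 2 := ∑ e, c e * P.M e v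

/-- The chain of a set of edges. -/
def chi (G : Gph) (c : Finset G.E) : G.E → ZMod 2 := fun e => if e ∈ c then 1 else 0

theorem bdl_chi {G : Gph} (c : Finset G.E) : G.bdl (G.chi c) = G.bd c := by
  funext v
  simp only [bdl, chi, bd, ite_mul, one_mul, zero_mul, Finset.sum_ite_mem, Finset.univ_inter]

theorem PS.L_chi {G : Gph} (P : G.PS) (c d : Finset G.E) : P.L (G.chi c) (G.chi d) = P.XX c d := by
  simp only [PS.L, chi, PS.XX, ite_mul, one_mul, zero_mul, Finset.sum_ite_mem, Finset.univ_inter,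
    Finset.sum_ite_irrel, Finset.sum_const_zero]

theorem PS.ML_chi {G : Gph} (P : G.PS) (c : Finset G.E) : P.ML (G.chi c) = P.MM c := by
  funext v
  simp only [PS.ML, chi, PS.MM, ite_mul, one_mul, zero_mul, Finset.sum_ite_mem, Finset.univ_inter]

/-- The chain of one edge. -/
theorem chi_singleton {G : Gph} (e : G.E) : G.chi {e} = Pi.single e 1 := by
  funext f
  simp only [chi, Finset.mem_singleton, Pi.single_apply]

theorem chi_symmDiff {G : Gph} (c d : Finset G.E) : G.chi (symmDiff c d) = G.chi c + G.chi d := by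
  funext e
  have h2 : (1 : ZMod 2) + 1 = 0 := by decide
  by_cases h1 : e ∈ c <;> by_cases h3 : e ∈ d <;>
    simp [chi, Finset.mem_symmDiff, h1, h3, h2]

theorem chi_disjoint_union {G : Gph} {c d : Finset G.E} (h : Disjoint c d) :
    G.chi (c ∪ d) = G.chi c + G.chi d := by
  rw [← chi_symmDiff, Disjoint.symmDiff_eq_sup h]
  rfl

theorem bdl_zero {G : Gph} : G.bdl 0 = 0 := by
  funext v
  simp [bdl]

theorem bdl_add {G : Gph} (c c' : G.E → ZMod 2) : G.bdl (c + c') = G.bdl c + G.bdl c' := by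
  funext v
  simp only [bdl, Pi.add_apply, add_mul, Finset.sum_add_distrib]

theorem bdl_smul {G : Gph} (z : ZMod 2) (c : G.E → ZMod 2) : G.bdl (z • c) = z • G.bdl c := by
  funext v
  simp only [bdl, Pi.smul_apply, smul_eq_mul, Finset.mul_sum, mul_assoc]

theorem bdl_sum {G : Gph} {ι : Type} (s : Finset ι) (c : ι → G.E → ZMod 2) :
    G.bdl (∑ i ∈ s, c i) = ∑ i ∈ s, G.bdl (c i) := by
  classical
  induction s using Finset.induction_on with
  | empty => simp [bdl_zero]
  | insert i s hi ih => rw [Finset.sum_insert hi, Finset.sum_insert hi, bdl_add, ih]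

theorem PS.L_zero_left {G : Gph} (P : G.PS) (d : G.E → ZMod 2) : P.L 0 d = 0 := by
  simp [PS.L]

theorem PS.L_zero_right {G : Gph} (P : G.PS) (c : G.E → ZMod 2) : P.L c 0 = 0 := by
  simp [PS.L]

theorem PS.L_add_left {G : Gph} (P : G.PS) (c c' d : G.E → ZMod 2) :
    P.L (c + c') d = P.L c d + P.L c' d := by
  simp only [PS.L, Pi.add_apply, add_mul, Finset.sum_add_distrib]

theorem PS.L_add_right {G : Gph} (P : G.PS) (c d d' : G.E → ZMod 2) :
    P.L c (d + d') = P.L c d + P.L c d' := by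
  simp only [PS.L, Pi.add_apply, mul_add, add_mul, Finset.sum_add_distrib]

theorem PS.L_smul_left {G : Gph} (P : G.PS) (z : ZMod 2) (c d : G.E → ZMod 2) :
    P.L (z • c) d = z * P.L c d := by
  simp only [PS.L, Pi.smul_apply, smul_eq_mul, Finset.mul_sum, mul_assoc]

theorem PS.L_smul_right {G : Gph} (P : G.PS) (z : ZMod 2) (c d : G.E → ZMod 2) :
    P.L c (z • d) = z * P.L c d := by
  simp only [PS.L, Pi.smul_apply, smul_eq_mul, Finset.mul_sum]
  exact Finset.sum_congr rfl fun e _ => Finset.sum_congr rfl fun f _ => by ring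

theorem PS.L_sum_left {G : Gph} (P : G.PS) {ι : Type} (s : Finset ι) (c : ι → G.E → ZMod 2)
    (d : G.E → ZMod 2) : P.L (∑ i ∈ s, c i) d = ∑ i ∈ s, P.L (c i) d := by
  classical
  induction s using Finset.induction_on with
  | empty => simp [PS.L_zero_left]
  | insert i s hi ih => rw [Finset.sum_insert hi, Finset.sum_insert hi, PS.L_add_left, ih]

theorem PS.L_sum_right {G : Gph} (P : G.PS) {ι : Type} (s : Finset ι) (c : G.E → ZMod 2)
    (d : ι → G.E → ZMod 2) : P.L c (∑ i ∈ s, d i) = ∑ i ∈ s, P.L c (d i) := by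
  classical
  induction s using Finset.induction_on with
  | empty => simp [PS.L_zero_right]
  | insert i s hi ih => rw [Finset.sum_insert hi, Finset.sum_insert hi, PS.L_add_right, ih]

theorem calc_sum_bdl {G : Gph} (c : G.E → ZMod 2) (g : G.V → ZMod 2) :
    ∑ v, G.bdl c v * g v = ∑ e, c e * (g (G.a e) + g (G.b e)) := by
  simp only [bdl, Finset.sum_mul]
  rw [Finset.sum_comm]
  refine Finset.sum_congr rfl fun e _ => ?_
  simp only [mul_assoc, ← Finset.mul_sum]
  congr 1
  simp [add_mul, Finset.sum_add_distrib]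

theorem PS.L_eq {G : Gph} (P : G.PS) (c d : G.E → ZMod 2) :
    P.L c d = ∑ v, G.bdl d v * (∑ u, G.bdl c u * P.r u v) + ∑ v, G.bdl d v * P.ML c v +
      ∑ u, G.bdl c u * P.ML d u := by
  rw [calc_sum_bdl, calc_sum_bdl, calc_sum_bdl]
  simp only [calc_sum_bdl, PS.ML, PS.L, PS.X, mul_add, Finset.sum_add_distrib, Finset.mul_sum]
  have h : ∀ F : G.E → G.E → ZMod 2, ∑ f, ∑ e, F f e = ∑ e, ∑ f, F f e := fun F =>
    Finset.sum_comm
  rw [h (fun f e => d f * (c e * P.r (G.a e) (G.a f))), h (fun f e => d f * (c e * P.r (G.b e) (G.a f))),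
    h (fun f e => d f * (c e * P.r (G.a e) (G.b f))), h (fun f e => d f * (c e * P.r (G.b e) (G.b f))),
    h (fun f e => d f * (c e * P.M e (G.a f))), h (fun f e => d f * (c e * P.M e (G.b f)))]
  simp only [mul_left_comm, mul_assoc]
  ring

theorem PS.L_eq_of_bdl {G : Gph} (P : G.PS) (c d : G.E → ZMod 2) {x x' y y' : G.V}
    (hc : G.bdl c = G.one x + G.one x') (hd : G.bdl d = G.one y + G.one y') :
    P.L c d = P.r x y + P.r x y' + P.r x' y + P.r x' y' + P.ML c y + P.ML c y' + P.ML d x +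
      P.ML d x' := by
  rw [PS.L_eq, hc, hd]
  simp only [calc_sum_one2]
  ring

/-- two cycles cross evenly -/
theorem PS.L_cycle {G : Gph} (P : G.PS) (c d : G.E → ZMod 2) (hc : G.bdl c = 0)
    (hd : G.bdl d = 0) : P.L c d = 0 := by
  rw [PS.L_eq, hc, hd]
  simp

/-- symmetry for chains with independent supports -/
theorem PS.L_symm {G : Gph} (P : G.PS) (c d : G.E → ZMod 2)
    (h : ∀ e f, c e ≠ 0 → d f ≠ 0 → G.Ind e f) : P.L c d = P.L d c := by
  unfold PS.L
  rw [Finset.sum_comm]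
  refine Finset.sum_congr rfl fun f _ => Finset.sum_congr rfl fun e _ => ?_
  by_cases h1 : c e = 0
  · simp [h1]
  by_cases h2 : d f = 0
  · simp [h2]
  rw [P.X_symm _ _ (h e f h1 h2)]
  ring

/-- If `L c d` is odd then some edge of `c` and some edge of `d` have `X = 1`. -/
theorem PS.exists_of_L {G : Gph} (P : G.PS) (c d : G.E → ZMod 2) (h : P.L c d = 1) :
    ∃ e f, c e ≠ 0 ∧ d f ≠ 0 ∧ P.X e f = 1 := by
  have h3 : ∀ z : ZMod 2, z ≠ 0 → z = 1 := by decide
  obtain ⟨e, -, he⟩ := Finset.exists_ne_zero_of_sum_ne_zero (s := Finset.univ)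
    (f := fun e => ∑ f, c e * d f * P.X e f) (by
      change P.L c d ≠ 0
      rw [h]
      decide)
  obtain ⟨f, -, hf⟩ := Finset.exists_ne_zero_of_sum_ne_zero he
  exact ⟨e, f, fun h0 => hf (by rw [h0]; ring), fun h0 => hf (by rw [h0]; ring),
    h3 _ fun h0 => hf (by rw [h0]; ring)⟩

/-- The `K_{3,3}` identity for linear chains. -/
theorem PS.K33_identity_L {G : Gph} (P : G.PS) (x y : Fin 3 → G.V)
    (hy : Function.Injective y) (c : Fin 3 → Fin 3 → G.E → ZMod 2)
    (hc : ∀ i j, G.bdl (c i j) = G.one (x i) + G.one (y j)) :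
    ∑ i : Fin 3, ∑ j : Fin 3, ∑ k : Fin 3, ∑ l : Fin 3,
      (if i < k ∧ j ≠ l then P.L (c i j) (c k l) else 0) = 1 := by
  have h01 := P.hr _ _ (fun h => absurd (hy h) (by decide) : y 0 ≠ y 1)
  have h02 := P.hr _ _ (fun h => absurd (hy h) (by decide) : y 0 ≠ y 2)
  have h12 := P.hr _ _ (fun h => absurd (hy h) (by decide) : y 1 ≠ y 2)
  simp only [Fin.sum_univ_three, P.L_eq_of_bdl _ _ (hc _ _) (hc _ _)]
  simp (config := { decide := true }) only [if_true, if_false, zero_add, add_zero]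
  linear_combination (norm := skip) h01 + h02 + h12
  ring_nf
  reduce_mod_char

end Pool.Agent.CC.Gph
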