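import Pool.Agent.Lib_helper74.CCF.Strip
import Pool.Agent.Lib_helper74.CCF.CalcL

/-!
# Named local edges and chains of the regions, free edges, windows
-/

namespace Pool.Agent.CC

open Gph

namespace RT

/-- First row edge of a region (from the entry). -/
def eL (q : ℕ) : (t : RT) → (t.loc q).E
  | .T => (.inr ⟨0, by omega⟩ : Fin _ ⊕ Fin _)
  | .G => (false, .inr ⟨0, by omega⟩)
  | .W => (false, .s3)

/-- Last row edge of a region (at the exit). -/
def eR (q : ℕ) : (t : RT) → (t.loc q).E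
  | .T => (.inr ⟨2 * q + 2, by omega⟩ : Fin _ ⊕ Fin _)
  | .G => (true, .inr ⟨0, by omega⟩)
  | .W => (true, .s3)

/-- The other end of `eL`. -/
def v1 (q : ℕ) : (t : RT) → (t.loc q).V
  | .T => (⟨1, by omega⟩ : Fin _)
  | .G => (false, ⟨1, by omega⟩)
  | .W => (false, .x ⟨0, by omega⟩)

/-- The other end of `eR`. -/
def w1 (q : ℕ) : (t : RT) → (t.loc q).V
  | .T => (⟨2 * q + 2, by omega⟩ : Fin _)
  | .G => (true, ⟨1, by omega⟩)
  | .W => (true, .x ⟨0, by omega⟩)

/-- The leg from `v1` to the left hub `A`. -/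
def lam1 (q : ℕ) : (t : RT) → (t.loc q).E
  | .T => (.inl ⟨1, by omega⟩ : Fin _ ⊕ Fin _)
  | .G => (false, .inl ⟨1, by omega⟩)
  | .W => (false, .leg ⟨0, by omega⟩)

/-- The leg from `w1` to the right hub `B`. -/
def rho1 (q : ℕ) : (t : RT) → (t.loc q).E
  | .T => (.inl ⟨2 * q + 2, by omega⟩ : Fin _ ⊕ Fin _)
  | .G => (true, .inl ⟨1, by omega⟩)
  | .W => (true, .leg ⟨0, by omega⟩)

/-- The row edges of the part `s` of a region of type `G`, `W` (`false` = left part). -/
def rows (q : ℕ) (s : Bool) : (t : RT) → Finset (t.loc q).E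
  | .T => (∅ : Finset (Fin _ ⊕ Fin _))
  | .G => Finset.univ.filter (fun e : Bool × (Fin _ ⊕ Fin _) => e.1 = s ∧ e.2.isRight)
  | .W => Finset.univ.filter (fun e : Bool × WE (q - 1) => e.1 = s ∧
      (e.2 = .s3 ∨ ∃ i, e.2 = .row i))

/-- `T`: the row edges with number `< m`. -/
def lowT (q m : ℕ) : Finset (Fin (2 * (q + 1) + 2) ⊕ Fin (2 * (q + 1) + 1)) :=
  (Finset.univ.filter (fun i : Fin (2 * (q + 1) + 1) => i.1 < m)).map ⟨Sum.inr, Sum.inr_injective⟩

/-- `T`: the row edges with number `≥ m`. -/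
def highT (q m : ℕ) : Finset (Fin (2 * (q + 1) + 2) ⊕ Fin (2 * (q + 1) + 1)) :=
  (Finset.univ.filter (fun i : Fin (2 * (q + 1) + 1) => m ≤ i.1)).map ⟨Sum.inr, Sum.inr_injective⟩

/-- `T`: the leg number `m` (as a set of one edge). -/
def legT (q m : ℕ) : Finset (Fin (2 * (q + 1) + 2) ⊕ Fin (2 * (q + 1) + 1)) :=
  (Finset.univ.filter (fun i : Fin (2 * (q + 1) + 2) => i.1 = m)).map ⟨Sum.inl, Sum.inl_injective⟩

/-- From the entry to the right hub `B`; in `T` along the row to the vertex `2a`. -/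
def eB (q : ℕ) (a : ℕ) : (t : RT) → Finset (t.loc q).E
  | .T => lowT q (2 * a) ∪ legT q (2 * a)
  | .G => rows q false .G ∪ {(false, .inl ⟨2 * q + 2, by omega⟩)}
  | .W => rows q false .W ∪ {(false, .leg ⟨2 * (q - 1) + 2, by omega⟩)}

/-- From the left hub `A` to the exit; in `T` from the vertex `2a+1`. -/
def sA (q : ℕ) (a : ℕ) : (t : RT) → Finset (t.loc q).E
  | .T => highT q (2 * a + 1) ∪ legT q (2 * a + 1)
  | .G => rows q true .G ∪ {(true, .inl ⟨2 * q + 2, by omega⟩)}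
  | .W => rows q true .W ∪ {(true, .leg ⟨2 * (q - 1) + 2, by omega⟩)}

/-- From the entry to the left hub `A`; in `T` along the row to the vertex `2a+1`. -/
def eA (q : ℕ) (a : ℕ) : (t : RT) → Finset (t.loc q).E
  | .T => lowT q (2 * a + 1) ∪ legT q (2 * a + 1)
  | .G => rows q false .G ∪ {(false, .inl ⟨2 * q + 1, by omega⟩)}
  | .W => rows q false .W ∪ {(false, .leg ⟨2 * (q - 1) + 1, by omega⟩)}

/-- From the right hub `B` to the exit; in `T` from the vertex `2a`. -/
def sB (q : ℕ) (a : ℕ) : (t : RT) → Finset (t.loc q).E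
  | .T => highT q (2 * a) ∪ legT q (2 * a)
  | .G => rows q true .G ∪ {(true, .inl ⟨2 * q + 1, by omega⟩)}
  | .W => rows q true .W ∪ {(true, .leg ⟨2 * (q - 1) + 1, by omega⟩)}

end RT

variable {N : ℕ} [NeZero N]

/-- A hub as a vertex of the strip. -/
def hub (q : ℕ) (c : Bool) (τ : ZMod N → RT) (j : ZMod N) : (tstrip q c τ).V := Sum.inl j

/-- A local vertex of region `j`. -/
def lv (q : ℕ) (c : Bool) (τ : ZMod N → RT) (j : ZMod N) (u : ((τ j).loc q).V) :
    (tstrip q c τ).V := Sum.inr ⟨j, u⟩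

/-- A local edge of region `j`. -/
def le (q : ℕ) (c : Bool) (τ : ZMod N → RT) (j : ZMod N) (e : ((τ j).loc q).E) :
    (tstrip q c τ).E := Sum.inl ⟨j, e⟩

/-- The row edge `j` (between the regions `j` and `j+1`). -/
def rowE (q : ℕ) (c : Bool) (τ : ZMod N → RT) (j : ZMod N) : (tstrip q c τ).E :=
  Sum.inr (Sum.inl j)

/-- The bypass edge `j`. -/
def byE (q : ℕ) (τ : ZMod N → RT) (j : ZMod N) : (tstrip q true τ).E :=
  Sum.inr (Sum.inr ⟨j, rfl⟩)

/-- The region number of an edge. -/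
def idx (q : ℕ) (c : Bool) (τ : ZMod N → RT) (e : (tstrip q c τ).E) : ZMod N :=
  match e with
  | .inl e => e.1
  | .inr (.inl j) => j
  | .inr (.inr j) => j.1

/-- A set of local edges as a chain of the strip. -/
def emb (q : ℕ) (c : Bool) (τ : ZMod N → RT) (j : ZMod N) (s : Finset ((τ j).loc q).E) :
    (tstrip q c τ).E → ZMod 2 :=
  (tstrip q c τ).chi (s.image (le q c τ j))

/-- `e` is free: no edge independent of `e` crosses it oddly. -/
def Free {G : Gph} (P : G.PS) (e : G.E) : Prop := ∀ f, G.Ind e f → P.X e f = 0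

/-- The window: the regions `0, -4, -8` are of type `T`, and all edges of the regions
`-9, …, 0` are free. -/
structure Window (q : ℕ) (c : Bool) (τ : ZMod N → RT) (P : (tstrip q c τ).PS) : Prop where
  odd : Odd N
  big : 16 ≤ N
  h0 : τ 0 = .T
  h4 : τ (-4) = .T
  h8 : τ (-8) = .T
  free : ∀ e, (∃ i : ℕ, i ≤ 9 ∧ idx q c τ e = -(i : ZMod N)) → Free P e

/-- The inner vertices of the window: hubs `-7, …, -2`, the local vertices of the regions
`-7, …, -1`, the exit of region `-8` and the entry of region `0`. -/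
def Inner (q : ℕ) (c : Bool) (τ : ZMod N → RT) (v : (tstrip q c τ).V) : Prop :=
  (∃ i : ℕ, 2 ≤ i ∧ i ≤ 7 ∧ v = hub q c τ (-(i : ZMod N))) ∨
  (∃ i : ℕ, 1 ≤ i ∧ i ≤ 7 ∧ ∃ u, v = lv q c τ (-(i : ZMod N)) u) ∨
  v = lv q c τ (-8) ((τ (-8)).loc q).ex ∨ v = lv q c τ 0 ((τ 0).loc q).en

/-- The vertex `v` is an end of `e`. -/
def Gph.End (G : Gph) (v : G.V) (e : G.E) : Prop := G.a e = v ∨ G.b e = v

/-- Outer slots: chains `O k`, `k = 0, …, N-9`, from hub `k-1` to hub `k+1`, which avoid the inner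
window vertices; the odd ones also avoid the hubs `-1` and `-8`; even and odd ones are
independent. -/
structure Slots (q : ℕ) (c : Bool) (τ : ZMod N → RT) (O : ℕ → (tstrip q c τ).E → ZMod 2) :
    Prop where
  bd : ∀ k, k ≤ N - 9 → (tstrip q c τ).bdl (O k) =
    (tstrip q c τ).one (hub q c τ ((k : ZMod N) - 1)) +
      (tstrip q c τ).one (hub q c τ ((k : ZMod N) + 1))
  inner : ∀ k, k ≤ N - 9 → ∀ e, O k e ≠ 0 → ∀ v, (tstrip q c τ).End v e → ¬ Inner q c τ v
  odd : ∀ k, k ≤ N - 9 → Odd k → ∀ e, O k e ≠ 0 → ∀ v, (tstrip q c τ).End v e →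
    v ≠ hub q c τ (-1) ∧ v ≠ hub q c τ (-8)
  ind : ∀ i k, i ≤ N - 9 → k ≤ N - 9 → Even i → Odd k → ∀ e f, O i e ≠ 0 → O k f ≠ 0 →
    (tstrip q c τ).Ind e f

/-- The even outer rail. -/
def railE (q : ℕ) (c : Bool) (τ : ZMod N → RT) (O : ℕ → (tstrip q c τ).E → ZMod 2) :
    (tstrip q c τ).E → ZMod 2 := ∑ i ∈ (Finset.range (N - 8)).filter (fun i => i % 2 = 0), O i

/-- The odd outer rail. -/
def railO (q : ℕ) (c : Bool) (τ : ZMod N → RT) (O : ℕ → (tstrip q c τ).E → ZMod 2) :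
    (tstrip q c τ).E → ZMod 2 := ∑ i ∈ (Finset.range (N - 8)).filter (fun i => i % 2 = 1), O i

/-- An outer row: from the vertex `v1` of region `0` to the vertex `w1` of region `-8`, avoiding the
inner window vertices. -/
structure ORow (q : ℕ) (c : Bool) (τ : ZMod N → RT) (R : (tstrip q c τ).E → ZMod 2) : Prop where
  bd : (tstrip q c τ).bdl R = (tstrip q c τ).one (lv q c τ 0 (RT.v1 q (τ 0))) +
    (tstrip q c τ).one (lv q c τ (-8) (RT.w1 q (τ (-8))))
  inner : ∀ e, R e ≠ 0 → ∀ v, (tstrip q c τ).End v e → ¬ Inner q c τ v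

/-- The chain `c` does not touch the vertex `v`. -/
def Avoids {G : Gph} (c : G.E → ZMod 2) (v : G.V) : Prop := ∀ e, c e ≠ 0 → ¬ G.End v e

/-- Independent chains. -/
def IndC {G : Gph} (c d : G.E → ZMod 2) : Prop := ∀ e f, c e ≠ 0 → d f ≠ 0 → G.Ind e f

/-- Through data: in every region a set `e n` of local edges from the entry to `B` and a set `s n`
from `A` to the exit, without common vertices. -/
structure Thru (q : ℕ) (c : Bool) (τ : ZMod N → RT) where
  e : ∀ n : ZMod N, Finset ((τ n).loc q).E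
  s : ∀ n : ZMod N, Finset ((τ n).loc q).E
  he : ∀ n, (tstrip q c τ).bdl (emb q c τ n (e n)) =
    (tstrip q c τ).one (lv q c τ n ((τ n).loc q).en) + (tstrip q c τ).one (hub q c τ n)
  hs : ∀ n, (tstrip q c τ).bdl (emb q c τ n (s n)) =
    (tstrip q c τ).one (hub q c τ (n - 1)) + (tstrip q c τ).one (lv q c τ n ((τ n).loc q).ex)
  ind : ∀ n, IndC (emb q c τ n (e n)) (emb q c τ n (s n))
  he' : ∀ n, Avoids (emb q c τ n (e n)) (hub q c τ (n - 1))
  hs' : ∀ n, Avoids (emb q c τ n (s n)) (hub q c τ n)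
  /-- separation of the two parts also for the row edges at the entry and the exit -/
  hex : ∀ n, Avoids (emb q c τ n (e n)) (lv q c τ n ((τ n).loc q).ex)
  hen : ∀ n, Avoids (emb q c τ n (s n)) (lv q c τ n ((τ n).loc q).en)

/-- The slots of through data: from hub `k-1` through the right part of region `k`, the row edge
`k`, the left part of region `k+1`, to hub `k+1`. -/
def Thru.slot {q : ℕ} {c : Bool} {τ : ZMod N → RT} (D : Thru q c τ) (k : ℕ) :
    (tstrip q c τ).E → ZMod 2 :=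
  emb q c τ (k : ZMod N) (D.s k) + (tstrip q c τ).chi {rowE q c τ (k : ZMod N)} +
    emb q c τ ((k : ZMod N) + 1) (D.e ((k : ZMod N) + 1))

namespace RT

/-- Row edges (local). -/
def isRow (q : ℕ) : (t : RT) → (t.loc q).E → Prop
  | .T => fun (e : Fin _ ⊕ Fin _) => e.isRight
  | .G => fun (e : Bool × (Fin _ ⊕ Fin _)) => e.2.isRight
  | .W => fun (e : Bool × WE (q - 1)) => e.2 = .s3 ∨ ∃ i, e.2 = .row i

/-- The edges `b1` of `W`. -/
def isB1 (q : ℕ) : (t : RT) → (t.loc q).E → Prop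
  | .T => fun _ => False
  | .G => fun _ => False
  | .W => fun (e : Bool × WE (q - 1)) => e.2 = .b1

/-- The legs which must be free in `core_LB`. -/
def fleg (q : ℕ) : (t : RT) → (t.loc q).E → Prop
  | .T => fun (e : Fin _ ⊕ Fin _) => e.isLeft
  | .G => fun (e : Bool × (Fin (2 * q + 3) ⊕ Fin _)) => ∃ k : Fin (2 * q + 3), e.2 = .inl k ∧
      (k.1 = 1 ∨ k.1 = 2 * q + 1 ∨ k.1 = 2 * q + 2)
  | .W => fun (e : Bool × WE (q - 1)) => ∃ k : Fin (2 * (q - 1) + 3), e.2 = .leg k ∧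
      (k.1 = 0 ∨ k.1 = 2 * (q - 1) + 1 ∨ k.1 = 2 * (q - 1) + 2)

end RT

/-- Row edges of the strip. -/
def RowT (q : ℕ) (c : Bool) (τ : ZMod N → RT) (e : (tstrip q c τ).E) : Prop :=
  match e with
  | .inl ⟨j, e⟩ => RT.isRow q (τ j) e
  | .inr (.inl _) => True
  | .inr (.inr _) => False

/-- Bypass type edges of the strip: the bypass edges and the edges `b1` of `W`. -/
def ByT (q : ℕ) (c : Bool) (τ : ZMod N → RT) (e : (tstrip q c τ).E) : Prop :=
  match e with
  | .inl ⟨j, e⟩ => RT.isB1 q (τ j) e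
  | .inr (.inl _) => False
  | .inr (.inr _) => True

/-- All legs needed in `core_LB` are free. -/
def LegFree (q : ℕ) (c : Bool) (τ : ZMod N → RT) (P : (tstrip q c τ).PS) : Prop :=
  ∀ j, ∀ e, RT.fleg q (τ j) e → Free P (le q c τ j e)

/-- The part of a local edge of `G`, `W` (`false` left, `true` right); `none` in `T`. -/
def RT.part (q : ℕ) : (t : RT) → (t.loc q).E → Option Bool
  | .T => fun _ => none
  | .G => fun (e : Bool × (Fin _ ⊕ Fin _)) => some e.1
  | .W => fun (e : Bool × WE (q - 1)) => some e.1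

/-- The local edge `e` of region `j` is free with respect to all edges outside its own part. -/
def FreeOut (q : ℕ) (c : Bool) (τ : ZMod N → RT) (P : (tstrip q c τ).PS) (j : ZMod N)
    (e : ((τ j).loc q).E) : Prop :=
  ∀ f, (tstrip q c τ).Ind (le q c τ j e) f →
    (∀ e', f = le q c τ j e' → RT.part q (τ j) e = none ∨ RT.part q (τ j) e' ≠ RT.part q (τ j) e) →
    P.X (le q c τ j e) f = 0

/-- Weak form of `LegFree`. -/
def LegFree' (q : ℕ) (c : Bool) (τ : ZMod N → RT) (P : (tstrip q c τ).PS) : Prop :=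
  ∀ j, ∀ e, RT.fleg q (τ j) e → FreeOut q c τ P j e

end Pool.Agent.CC
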