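import Pool.Agent.Lib_helper74.CCF.Defs2

/-!
MP_198240, piece T2 (helper53), analytic part: parabolic arcs, concatenation of simple arcs.
-/

namespace Pool.Agent.CR53

open Set

/-- `A` is the image of a simple arc from `P` to `Q`. -/
def Arcd (P Q : ℂ) (A : Set ℂ) : Prop :=
  ∃ γ : ℝ → ℂ, ContinuousOn γ (Icc 0 1) ∧ InjOn γ (Icc 0 1) ∧ γ 0 = P ∧ γ 1 = Q ∧
    γ '' Icc 0 1 = A

theorem Arcd.trans {P Q R : ℂ} {A B : Set ℂ} (h1 : Arcd P Q A) (h2 : Arcd Q R B)
    (hAB : A ∩ B ⊆ {Q}) : Arcd P R (A ∪ B) := by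
  obtain ⟨γ1, c1, i1, a1, b1, m1⟩ := h1
  obtain ⟨γ2, c2, i2, a2, b2, m2⟩ := h2
  have hA : ∀ t ∈ Icc (0 : ℝ) 1, γ1 t ∈ A := fun t ht => m1 ▸ mem_image_of_mem _ ht
  have hB : ∀ t ∈ Icc (0 : ℝ) 1, γ2 t ∈ B := fun t ht => m2 ▸ mem_image_of_mem _ ht
  refine ⟨fun t => if t ≤ 1 / 2 then γ1 (2 * t) else γ2 (2 * t - 1), ?_, ?_, ?_, ?_, ?_⟩
  · refine ContinuousOn.if (s := Icc 0 1) (p := fun t : ℝ => t ≤ 1 / 2) ?_ ?_ ?_
    · intro t ht
      have : t = 1 / 2 := by
        have h := frontier_Iic_subset (1 / 2 : ℝ) ht.2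
        simpa using h
      subst this
      norm_num
      rw [b1, a2]
    · refine c1.comp (by fun_prop) ?_
      intro t ht
      have h : t ≤ 1 / 2 := by
        have := ht.2
        rw [show {t : ℝ | t ≤ 1 / 2} = Iic (1 / 2) from rfl, closure_Iic] at this
        exact this
      exact ⟨by linarith [ht.1.1], by linarith⟩
    · refine c2.comp (by fun_prop) ?_
      intro t ht
      have h : 1 / 2 ≤ t := by
        have := ht.2
        have h3 : closure {t : ℝ | ¬ t ≤ 1 / 2} ⊆ Ici (1 / 2) := by
          apply closure_minimal _ isClosed_Ici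
          intro x hx
          exact (not_le.1 hx).le
        exact h3 this
      exact ⟨by linarith, by linarith [ht.1.2]⟩
  · intro s hs t ht hst
    simp only at hst
    split_ifs at hst with h3 h4 h4
    · have := i1 (show 2 * s ∈ Icc (0 : ℝ) 1 from ⟨by linarith [hs.1], by linarith⟩)
        (show 2 * t ∈ Icc (0 : ℝ) 1 from ⟨by linarith [ht.1], by linarith⟩) hst
      linarith
    · exfalso
      push Not at h4
      have h5 : γ2 (2 * t - 1) ∈ A ∩ B := by
        refine ⟨hst ▸ hA _ ⟨by linarith [hs.1], by linarith⟩, hB _ ⟨by linarith, by linarith [ht.2]⟩⟩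
      have h6 : γ2 (2 * t - 1) = γ2 0 := by rw [a2]; exact hAB h5
      have := i2 (show 2 * t - 1 ∈ Icc (0 : ℝ) 1 from ⟨by linarith, by linarith [ht.2]⟩)
        (show (0 : ℝ) ∈ Icc (0 : ℝ) 1 from ⟨le_refl _, zero_le_one⟩) h6
      linarith
    · exfalso
      push Not at h3
      have h5 : γ2 (2 * s - 1) ∈ A ∩ B := by
        refine ⟨hst ▸ hA _ ⟨by linarith [ht.1], by linarith⟩, hB _ ⟨by linarith, by linarith [hs.2]⟩⟩
      have h6 : γ2 (2 * s - 1) = γ2 0 := by rw [a2]; exact hAB h5
      have := i2 (show 2 * s - 1 ∈ Icc (0 : ℝ) 1 from ⟨by linarith, by linarith [hs.2]⟩)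
        (show (0 : ℝ) ∈ Icc (0 : ℝ) 1 from ⟨le_refl _, zero_le_one⟩) h6
      linarith
    · push Not at h3 h4
      have := i2 (show 2 * s - 1 ∈ Icc (0 : ℝ) 1 from ⟨by linarith, by linarith [hs.2]⟩)
        (show 2 * t - 1 ∈ Icc (0 : ℝ) 1 from ⟨by linarith, by linarith [ht.2]⟩) hst
      linarith
  · simp [a1]
  · norm_num
    exact b2
  · apply Subset.antisymm
    · rintro z ⟨t, ht, rfl⟩
      simp only
      split_ifs with h
      · exact Or.inl (hA _ ⟨by linarith [ht.1], by linarith⟩)
      · push Not at h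
        exact Or.inr (hB _ ⟨by linarith, by linarith [ht.2]⟩)
    · rintro z (hz | hz)
      · rw [← m1] at hz
        obtain ⟨t, ht, rfl⟩ := hz
        refine ⟨t / 2, ⟨by linarith [ht.1], by linarith [ht.2]⟩, ?_⟩
        simp only
        rw [if_pos (by linarith [ht.2])]
        congr 1; ring
      · rw [← m2] at hz
        obtain ⟨t, ht, rfl⟩ := hz
        rcases eq_or_lt_of_le ht.1 with h | h
        · refine ⟨1 / 2, ⟨by norm_num, by norm_num⟩, ?_⟩
          simp only
          rw [if_pos le_rfl, ← h, a2]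
          norm_num
          exact b1
        · refine ⟨(t + 1) / 2, ⟨by linarith, by linarith [ht.2]⟩, ?_⟩
          simp only
          rw [if_neg (by push Not; linarith)]
          congr 1; ring

/-- the sign of a side -/
def sg (s : Bool) : ℝ := if s then 1 else -1

theorem sg_ne (s : Bool) : sg s ≠ 0 := by unfold sg; split_ifs <;> norm_num

/-- The parabolic arc over `{x,y}` on the side `s`. -/
def arcSet (s : Bool) (x y : ℝ) : Set ℂ :=
  {z | min x y ≤ z.re ∧ z.re ≤ max x y ∧ z.im = sg s * ((z.re - x) * (y - z.re))}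

theorem arcSet_prod {s : Bool} {x y : ℝ} {z : ℂ} (h : z ∈ arcSet s x y) :
    z.im = sg s * ((z.re - min x y) * (max x y - z.re)) := by
  rw [h.2.2]
  rcases le_total x y with h1 | h1
  · rw [min_eq_left h1, max_eq_right h1]
  · rw [min_eq_right h1, max_eq_left h1]; ring

theorem arcSet_arcd (s : Bool) {x y : ℝ} (hxy : x ≠ y) :
    Arcd (x : ℂ) (y : ℂ) (arcSet s x y) := by
  refine ⟨fun t => ⟨x + t * (y - x), sg s * (t * (1 - t) * (y - x) ^ 2)⟩, ?_, ?_, ?_, ?_, ?_⟩
  · apply Continuous.continuousOn
    have h : (fun t : ℝ => (⟨x + t * (y - x), sg s * (t * (1 - t) * (y - x) ^ 2)⟩ : ℂ)) =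
        fun t : ℝ => ((x + t * (y - x) : ℝ) : ℂ) +
          ((sg s * (t * (1 - t) * (y - x) ^ 2) : ℝ) : ℂ) * Complex.I := by
      ext t
      apply Complex.ext
      · simp only [Complex.add_re, Complex.mul_re, Complex.ofReal_re,
          Complex.ofReal_im, Complex.I_re, Complex.I_im]; ring
      · simp only [Complex.add_im, Complex.mul_im, Complex.ofReal_re,
          Complex.ofReal_im, Complex.I_re, Complex.I_im]; ring
    rw [h]
    fun_prop
  · intro t _ t' _ h
    have h1 := congrArg Complex.re h
    simp only at h1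
    have h2 : (t - t') * (y - x) = 0 := by linarith
    rcases mul_eq_zero.1 h2 with h3 | h3
    · linarith
    · exact absurd (by linarith : x = y) hxy
  · apply Complex.ext <;> simp
  · apply Complex.ext <;> simp
  · apply Subset.antisymm
    · rintro z ⟨t, ht, rfl⟩
      refine ⟨?_, ?_, ?_⟩
      · simp only
        rcases le_total x y with h1 | h1
        · rw [min_eq_left h1]; nlinarith [ht.1]
        · rw [min_eq_right h1]; nlinarith [ht.2]
      · simp only
        rcases le_total x y with h1 | h1
        · rw [max_eq_right h1]; nlinarith [ht.2]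
        · rw [max_eq_left h1]; nlinarith [ht.1]
      · simp only; ring
    · intro z hz
      have hyx : y - x ≠ 0 := sub_ne_zero.2 hxy.symm
      refine ⟨(z.re - x) / (y - x), ?_, ?_⟩
      · rcases lt_or_gt_of_ne hxy with h1 | h1
        · have := hz.1; have := hz.2.1
          rw [min_eq_left h1.le] at *
          rw [max_eq_right h1.le] at *
          constructor
          · apply div_nonneg <;> linarith
          · rw [div_le_one (by linarith)]; linarith
        · have := hz.1; have := hz.2.1
          rw [min_eq_right h1.le] at *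
          rw [max_eq_left h1.le] at *
          constructor
          · apply div_nonneg_of_nonpos <;> linarith
          · rw [div_le_one_of_neg (by linarith)]; linarith
      · apply Complex.ext
        · simp only
          field_simp
          ring
        · simp only
          rw [hz.2.2]
          field_simp
          ring

/-- Two parabolic arcs over different, non-interleaving pairs meet at most in common ends. -/
theorem arcs_meet {s s' : Bool} {x y z w : ℝ} {P : ℂ} (hxy : x ≠ y) (hzw : z ≠ w)
    (h1 : P ∈ arcSet s x y) (h2 : P ∈ arcSet s' z w)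
    (hI : s = s' → ¬ ((min x y < min z w ∧ min z w < max x y ∧ max x y < max z w) ∨
      (min z w < min x y ∧ min x y < max z w ∧ max z w < max x y)))
    (hne : s = s' → ¬ (min x y = min z w ∧ max x y = max z w)) :
    P.im = 0 ∧ (P.re = x ∨ P.re = y) ∧ (P.re = z ∨ P.re = w) := by
  have e1 := arcSet_prod h1
  have e2 := arcSet_prod h2
  have hab : min x y < max x y := min_lt_max.2 hxy
  have hcd : min z w < max z w := min_lt_max.2 hzw
  have l1 := h1.1
  have l2 := h1.2.1
  have l3 := h2.1
  have l4 := h2.2.1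
  set a := min x y with ha
  set b := max x y with hb
  set c := min z w with hc
  set d := max z w with hd
  set X := P.re with hX
  have p1 : 0 ≤ (X - a) * (b - X) := mul_nonneg (by linarith) (by linarith)
  have p2 : 0 ≤ (X - c) * (d - X) := mul_nonneg (by linarith) (by linarith)
  have key : (X - a) * (b - X) = 0 ∧ (X - c) * (d - X) = 0 := by
    by_cases hss : s = s'
    · subst hss
      have heq : (X - a) * (b - X) = (X - c) * (d - X) := by
        have := e1.symm.trans e2
        exact mul_left_cancel₀ (sg_ne s) this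
      by_contra hcon
      have hpos : 0 < (X - a) * (b - X) := by
        rcases p1.lt_or_eq with h | h
        · exact h
        · exact absurd ⟨h.symm, by rw [← heq]; exact h.symm⟩ hcon
      have hpos2 : 0 < (X - c) * (d - X) := heq ▸ hpos
      have q1 : a < X := by
        rcases l1.lt_or_eq with h | h
        · exact h
        · rw [← h] at hpos; simp at hpos
      have q2 : X < b := by
        rcases l2.lt_or_eq with h | h
        · exact h
        · rw [h] at hpos; simp at hpos
      have q3 : c < X := by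
        rcases l3.lt_or_eq with h | h
        · exact h
        · rw [← h] at hpos2; simp at hpos2
      have q4 : X < d := by
        rcases l4.lt_or_eq with h | h
        · exact h
        · rw [h] at hpos2; simp at hpos2
      have hI' := hI rfl
      have hne' := hne rfl
      push Not at hI'
      rcases lt_trichotomy a c with h | h | h
      · have h5 : d ≤ b := hI'.1 h (by linarith)
        nlinarith
      · rw [h] at heq
        have h5 : b - X = d - X := mul_left_cancel₀ (by linarith : X - c ≠ 0) heq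
        exact hne' ⟨h, by linarith⟩
      · have h5 : b ≤ d := hI'.2 h (by linarith)
        nlinarith
    · have hsg : sg s' = - sg s := by
        unfold sg
        cases s <;> cases s' <;> simp at hss ⊢
      rw [hsg] at e2
      have h5 : sg s * ((X - a) * (b - X) + (X - c) * (d - X)) = 0 := by
        have := e1.symm.trans e2
        linarith
      have h6 := (mul_eq_zero.1 h5).resolve_left (sg_ne s)
      constructor <;> linarith
  refine ⟨by rw [e1, key.1, mul_zero], ?_, ?_⟩
  · rcases mul_eq_zero.1 key.1 with h | h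
    · have h7 : X = min x y := by linarith
      rcases min_choice x y with h8 | h8
      · left; rw [h7, h8]
      · right; rw [h7, h8]
    · have h7 : X = max x y := by linarith
      rcases max_choice x y with h8 | h8
      · left; rw [h7, h8]
      · right; rw [h7, h8]
  · rcases mul_eq_zero.1 key.2 with h | h
    · have h7 : X = min z w := by linarith
      rcases min_choice z w with h8 | h8
      · left; rw [h7, h8]
      · right; rw [h7, h8]
    · have h7 : X = max z w := by linarith
      rcases max_choice z w with h8 | h8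
      · left; rw [h7, h8]
      · right; rw [h7, h8]

theorem left_mem_arcSet (s : Bool) (x y : ℝ) : (x : ℂ) ∈ arcSet s x y := by
  refine ⟨by simp, by simp, by simp⟩

theorem right_mem_arcSet (s : Bool) (x y : ℝ) : (y : ℂ) ∈ arcSet s x y := by
  refine ⟨by simp, by simp, by simp⟩

theorem arcSet_axis {s : Bool} {x y : ℝ} {z : ℂ} (h : z ∈ arcSet s x y) (h0 : z.im = 0) :
    z.re = x ∨ z.re = y := by
  have h1 := h.2.2
  rw [h0] at h1
  have h2 := (mul_eq_zero.1 h1.symm).resolve_left (sg_ne s)
  rcases mul_eq_zero.1 h2 with h3 | h3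
  · left; linarith
  · right; linarith

end Pool.Agent.CR53


/-!
MP_198240, piece T2 (helper53): a spine drawing is a drawing in the plane.
-/

namespace Pool.Agent.CR53

open Set Pool.Agent.CC Pool.Agent.CC.Gph

section Lists

set_option linter.unusedSectionVars false

variable {α : Type} [LinearOrder α]

/-- the union of the arcs of a route -/
def routeSet (φ : α → ℝ) (x : α) (l : List (Bool × α)) : Set ℂ :=
  {z | ∃ p ∈ arcsOf x l, z ∈ arcSet p.1 (φ p.2.1) (φ p.2.2)}

theorem arcsOf_fst_mem : ∀ (l : List (Bool × α)) (x : α), ∀ p ∈ arcsOf x l,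
    p.2.1 ∈ x :: l.map Prod.snd
  | [], _, p, hp => by simp [arcsOf] at hp
  | (s, y) :: l, x, p, hp => by
      rw [arcsOf, List.mem_cons] at hp
      rcases hp with rfl | hp
      · simp
      · have := arcsOf_fst_mem l y p hp
        rw [List.map_cons]
        exact List.mem_cons_of_mem _ this

theorem arcsOf_snd_mem : ∀ (l : List (Bool × α)) (x : α), ∀ p ∈ arcsOf x l,
    p.2.2 ∈ l.map Prod.snd
  | [], _, p, hp => by simp [arcsOf] at hp
  | (s, y) :: l, x, p, hp => by
      rw [arcsOf, List.mem_cons] at hp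
      rcases hp with rfl | hp
      · simp
      · have := arcsOf_snd_mem l y p hp
        rw [List.map_cons]
        exact List.mem_cons_of_mem _ this

theorem arcsOf_ne : ∀ (l : List (Bool × α)) (x : α), (x :: l.map Prod.snd).Nodup →
    ∀ p ∈ arcsOf x l, p.2.1 ≠ p.2.2
  | [], _, _, p, hp => by simp [arcsOf] at hp
  | (s, y) :: l, x, hn, p, hp => by
      rw [arcsOf, List.mem_cons] at hp
      rw [List.map_cons] at hn
      rcases hp with rfl | hp
      · intro h
        simp only at h
        exact (List.nodup_cons.1 hn).1 (h ▸ List.mem_cons_self)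
      · exact arcsOf_ne l y (List.nodup_cons.1 hn).2 p hp

theorem interl_of {φ : α → ℝ} (hφ : Monotone φ) {x y z w : α}
    (h : (min (φ x) (φ y) < min (φ z) (φ w) ∧ min (φ z) (φ w) < max (φ x) (φ y) ∧
        max (φ x) (φ y) < max (φ z) (φ w)) ∨
      (min (φ z) (φ w) < min (φ x) (φ y) ∧ min (φ x) (φ y) < max (φ z) (φ w) ∧
        max (φ z) (φ w) < max (φ x) (φ y))) : Interl x y z w := by
  rw [← hφ.map_min, ← hφ.map_min, ← hφ.map_max, ← hφ.map_max] at h
  rcases h with ⟨h1, h2, h3⟩ | ⟨h1, h2, h3⟩
  · exact Or.inl ⟨hφ.reflect_lt h1, hφ.reflect_lt h2, hφ.reflect_lt h3⟩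
  · exact Or.inr ⟨hφ.reflect_lt h1, hφ.reflect_lt h2, hφ.reflect_lt h3⟩

theorem pair_of_minmax {a b c d : ℝ} (h1 : min a b = min c d) (h2 : max a b = max c d) :
    (a = c ∧ b = d) ∨ (a = d ∧ b = c) := by
  rcases le_total a b with h3 | h3 <;> rcases le_total c d with h4 | h4
  · rw [min_eq_left h3, min_eq_left h4] at h1
    rw [max_eq_right h3, max_eq_right h4] at h2
    exact Or.inl ⟨h1, h2⟩
  · rw [min_eq_left h3, min_eq_right h4] at h1
    rw [max_eq_right h3, max_eq_left h4] at h2
    exact Or.inr ⟨h1, h2⟩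
  · rw [min_eq_right h3, min_eq_left h4] at h1
    rw [max_eq_left h3, max_eq_right h4] at h2
    exact Or.inr ⟨h2, h1⟩
  · rw [min_eq_right h3, min_eq_right h4] at h1
    rw [max_eq_left h3, max_eq_left h4] at h2
    exact Or.inl ⟨h2, h1⟩

theorem route_arcd {φ : α → ℝ} (hφ : Monotone φ) : ∀ (l : List (Bool × α)) (x y : α), l ≠ [] →
    (l.map Prod.snd).getLast? = some y → (x :: l.map Prod.snd).Nodup →
    (∀ u ∈ x :: l.map Prod.snd, ∀ v ∈ x :: l.map Prod.snd, φ u = φ v → u = v) →
    (∀ p ∈ arcsOf x l, ∀ q ∈ arcsOf x l, p.1 = q.1 → ¬ Interl p.2.1 p.2.2 q.2.1 q.2.2) →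
    Arcd (φ x : ℂ) (φ y : ℂ) (routeSet φ x l)
  | [], _, _, h, _, _, _, _ => absurd rfl h
  | [(s, y0)], x, y, _, hl, hn, hi, _ => by
      have hy : y0 = y := by simpa using hl
      subst hy
      have hxy : φ x ≠ φ y0 := by
        intro h
        have := hi x (by simp) y0 (by simp) h
        subst this
        simp at hn
      have hs : routeSet φ x [(s, y0)] = arcSet s (φ x) (φ y0) := by
        ext z
        simp [routeSet, arcsOf]
      rw [hs]
      exact arcSet_arcd s hxy
  | (s, y0) :: (s1, y1) :: l, x, y, _, hl, hn, hi, hp => by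
      have hl' : (((s1, y1) :: l).map Prod.snd).getLast? = some y := by
        rw [List.map_cons, List.map_cons, List.getLast?_cons_cons] at hl
        rw [List.map_cons]; exact hl
      have hn' : (y0 :: ((s1, y1) :: l).map Prod.snd).Nodup := by
        rw [List.map_cons] at hn
        exact (List.nodup_cons.1 hn).2
      have hx : x ∉ y0 :: ((s1, y1) :: l).map Prod.snd := by
        rw [List.map_cons] at hn
        exact (List.nodup_cons.1 hn).1
      have hi' : ∀ u ∈ y0 :: ((s1, y1) :: l).map Prod.snd,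
          ∀ v ∈ y0 :: ((s1, y1) :: l).map Prod.snd, φ u = φ v → u = v := by
        intro u hu v hv
        exact hi u (List.mem_cons_of_mem _ hu) v (List.mem_cons_of_mem _ hv)
      have ha : arcsOf x ((s, y0) :: (s1, y1) :: l) = (s, x, y0) :: arcsOf y0 ((s1, y1) :: l) := rfl
      have hp' : ∀ p ∈ arcsOf y0 ((s1, y1) :: l), ∀ q ∈ arcsOf y0 ((s1, y1) :: l),
          p.1 = q.1 → ¬ Interl p.2.1 p.2.2 q.2.1 q.2.2 := by
        intro p hp1 q hq1
        exact hp p (by rw [ha]; exact List.mem_cons_of_mem _ hp1) q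
          (by rw [ha]; exact List.mem_cons_of_mem _ hq1)
      have ih := route_arcd hφ ((s1, y1) :: l) y0 y (by simp) hl' hn' hi' hp'
      have hxy : φ x ≠ φ y0 := by
        intro h
        have := hi x (by simp) y0 (by simp) h
        exact hx (this ▸ List.mem_cons_self)
      have hs : routeSet φ x ((s, y0) :: (s1, y1) :: l) =
          arcSet s (φ x) (φ y0) ∪ routeSet φ y0 ((s1, y1) :: l) := by
        ext z
        simp only [routeSet, ha, List.mem_cons, mem_union]
        constructor
        · rintro ⟨p, rfl | hp2, hz⟩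
          · exact Or.inl hz
          · exact Or.inr ⟨p, hp2, hz⟩
        · rintro (hz | ⟨p, hp2, hz⟩)
          · exact ⟨_, Or.inl rfl, hz⟩
          · exact ⟨p, Or.inr hp2, hz⟩
      rw [hs]
      refine (arcSet_arcd s hxy).trans ih ?_
      rintro z ⟨hz1, p, hp2, hz2⟩
      have m1 := arcsOf_fst_mem _ _ p hp2
      have m2 : p.2.2 ∈ y0 :: ((s1, y1) :: l).map Prod.snd :=
        List.mem_cons_of_mem _ (arcsOf_snd_mem _ _ p hp2)
      have n1 : φ x ≠ φ p.2.1 := by
        intro h
        exact hx (hi x List.mem_cons_self p.2.1 (List.mem_cons_of_mem _ m1) h ▸ m1)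
      have n2 : φ x ≠ φ p.2.2 := by
        intro h
        exact hx (hi x List.mem_cons_self p.2.2 (List.mem_cons_of_mem _ m2) h ▸ m2)
      have n3 : φ p.2.1 ≠ φ p.2.2 := by
        intro h
        exact arcsOf_ne _ _ hn' p hp2 (hi' _ m1 _ m2 h)
      have key := arcs_meet hxy n3 hz1 hz2
        (fun hss h => hp (s, x, y0) (by rw [ha]; exact List.mem_cons_self) p
          (by rw [ha]; exact List.mem_cons_of_mem _ hp2) hss (interl_of hφ h))
        (fun _ h => by
          rcases pair_of_minmax h.1 h.2 with h | h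
          · exact n1 h.1
          · exact n2 h.1)
      rw [mem_singleton_iff]
      apply Complex.ext
      · rw [Complex.ofReal_re]
        rcases key.2.1 with h | h
        · exfalso
          rcases key.2.2 with h' | h'
          · exact n1 (h.symm.trans h')
          · exact n2 (h.symm.trans h')
        · exact h
      · rw [Complex.ofReal_im]; exact key.1

end Lists

section Embed

variable {α : Type} [LinearOrder α] (P : Finset α)

/-- the counting map -/
noncomputable def cnt (x : α) : ℝ := ((P.filter (fun y => y < x)).card : ℝ)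

theorem cnt_mono : Monotone (cnt P) := by
  intro x y h
  unfold cnt
  exact_mod_cast Finset.card_le_card (Finset.monotone_filter_right P (fun z _ hz => lt_of_lt_of_le hz h))

theorem cnt_inj {x y : α} (hx : x ∈ P) (hy : y ∈ P) (h : cnt P x = cnt P y) : x = y := by
  have key : ∀ {a b : α}, a ∈ P → a < b → cnt P a < cnt P b := by
    intro a b ha hab
    unfold cnt
    have : (P.filter (fun z => z < a)) ⊂ (P.filter (fun z => z < b)) := by
      rw [Finset.ssubset_iff_of_subset (Finset.monotone_filter_right P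
        (fun z _ hz => lt_trans hz hab))]
      exact ⟨a, by simp [ha, hab], by simp⟩
    exact_mod_cast Finset.card_lt_card this
  rcases lt_trichotomy x y with h1 | h1 | h1
  · exact absurd h (key hx h1).ne
  · exact h1
  · exact absurd h (key hy h1).ne'

end Embed


section Main

variable {G : Gph} {α : Type} [LinearOrder α] (S : Spine G α)

/-- all positions used -/
def posns : Finset α :=
  Finset.univ.image S.pos ∪ Finset.univ.biUnion (fun e => ((S.route e).map Prod.snd).toFinset)

theorem pos_mem (v : G.V) : S.pos v ∈ posns S := by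
  unfold posns
  exact Finset.mem_union_left _ (Finset.mem_image_of_mem _ (Finset.mem_univ _))

theorem route_mem (e : G.E) {x : α} (hx : x ∈ S.pos (G.a e) :: (S.route e).map Prod.snd) :
    x ∈ posns S := by
  rcases List.mem_cons.1 hx with rfl | hx
  · exact pos_mem S _
  · unfold posns
    exact Finset.mem_union_right _ (Finset.mem_biUnion.2 ⟨e, Finset.mem_univ _, by simpa using hx⟩)

theorem bends_sub (e : G.E) {x : α} (hx : x ∈ S.bends e) :
    x ∈ S.pos (G.a e) :: (S.route e).map Prod.snd :=
  List.mem_cons_of_mem _ (List.dropLast_subset _ hx)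

theorem mem_bends_or (e : G.E) {x : α} (hx : x ∈ S.pos (G.a e) :: (S.route e).map Prod.snd) :
    x = S.pos (G.a e) ∨ x = S.pos (G.b e) ∨ x ∈ S.bends e := by
  rcases List.mem_cons.1 hx with h | h
  · exact Or.inl h
  · right
    have hl := S.last e
    have hne : (S.route e).map Prod.snd ≠ [] := by
      intro h0
      rw [h0] at h; simp at h
    have hlast : ((S.route e).map Prod.snd).getLast hne = S.pos (G.b e) := by
      rw [List.getLast?_eq_some_getLast hne] at hl
      exact Option.some.inj hl
    have hd := List.dropLast_append_getLast hne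
    rw [← hd, List.mem_append] at h
    rcases h with h | h
    · exact Or.inr h
    · left
      rw [List.mem_singleton] at h
      rw [h, hlast]

/-- the embedding of the positions -/
noncomputable def ph : α → ℝ := cnt (posns S)

theorem ph_mono : Monotone (ph S) := cnt_mono _

theorem ph_inj {x y : α} (hx : x ∈ posns S) (hy : y ∈ posns S) (h : ph S x = ph S y) : x = y :=
  cnt_inj _ hx hy h

theorem edge_arcd (e : G.E) :
    Arcd (ph S (S.pos (G.a e)) : ℂ) (ph S (S.pos (G.b e)) : ℂ)
      (routeSet (ph S) (S.pos (G.a e)) (S.route e)) :=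
  route_arcd (ph_mono S) _ _ _ (S.ne_nil e) (S.last e) (S.nodup e)
    (fun _ hu _ hv h => ph_inj S (route_mem S e hu) (route_mem S e hv) h) (S.planar e e)

/-- the chosen arc -/
noncomputable def arc (e : G.E) : ℝ → ℂ := (edge_arcd S e).choose

theorem arc_spec (e : G.E) : ContinuousOn (arc S e) (Icc 0 1) ∧ InjOn (arc S e) (Icc 0 1) ∧
    arc S e 0 = (ph S (S.pos (G.a e)) : ℂ) ∧ arc S e 1 = (ph S (S.pos (G.b e)) : ℂ) ∧
    arc S e '' Icc 0 1 = routeSet (ph S) (S.pos (G.a e)) (S.route e) := (edge_arcd S e).choose_spec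

theorem interior_ne {e : G.E} {z : ℂ} (hz : z ∈ arc S e '' Ioo 0 1) :
    z ≠ (ph S (S.pos (G.a e)) : ℂ) ∧ z ≠ (ph S (S.pos (G.b e)) : ℂ) ∧
      z ∈ routeSet (ph S) (S.pos (G.a e)) (S.route e) := by
  obtain ⟨t, ht, rfl⟩ := hz
  obtain ⟨_, hi, h0, h1, hm⟩ := arc_spec S e
  have ht' : t ∈ Icc (0 : ℝ) 1 := ⟨ht.1.le, ht.2.le⟩
  refine ⟨?_, ?_, ?_⟩
  · rw [← h0]
    intro h
    exact ht.1.ne' (hi ht' (show (0 : ℝ) ∈ Icc (0 : ℝ) 1 from ⟨le_refl _, zero_le_one⟩) h)
  · rw [← h1]
    intro h
    exact ht.2.ne (hi ht' (show (1 : ℝ) ∈ Icc (0 : ℝ) 1 from ⟨zero_le_one, le_refl _⟩) h)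
  · rw [← hm]; exact mem_image_of_mem _ ht'

theorem interior_axis {e : G.E} {z : ℂ} (hz : z ∈ arc S e '' Ioo 0 1) (h0 : z.im = 0) :
    ∃ x ∈ S.bends e, z = (ph S x : ℂ) := by
  obtain ⟨n1, n2, p, hp, hz2⟩ := interior_ne S hz
  have hax := arcSet_axis hz2 h0
  have key : ∀ x ∈ S.pos (G.a e) :: (S.route e).map Prod.snd, z.re = ph S x →
      ∃ x ∈ S.bends e, z = (ph S x : ℂ) := by
    intro x hx hzx
    have hz3 : z = (ph S x : ℂ) := by
      apply Complex.ext
      · rw [Complex.ofReal_re]; exact hzx
      · rw [Complex.ofReal_im]; exact h0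
    rcases mem_bends_or S e hx with h | h | h
    · exact absurd (h ▸ hz3) n1
    · exact absurd (h ▸ hz3) n2
    · exact ⟨x, h, hz3⟩
  rcases hax with h | h
  · exact key _ (arcsOf_fst_mem _ _ p hp) h
  · exact key _ (List.mem_cons_of_mem _ (arcsOf_snd_mem _ _ p hp)) h

theorem common {e f : G.E} (hef : e ≠ f) {z : ℂ} (he : z ∈ arc S e '' Ioo 0 1)
    (hf : z ∈ arc S f '' Ioo 0 1) : ∃ x, x ∈ S.bends e ∧ x ∈ S.bends f ∧ z = (ph S x : ℂ) := by
  obtain ⟨_, _, p, hp, hz1⟩ := interior_ne S he
  obtain ⟨_, _, q, hq, hz2⟩ := interior_ne S hf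
  have mp1 := route_mem S e (arcsOf_fst_mem _ _ p hp)
  have mp2 := route_mem S e (List.mem_cons_of_mem _ (arcsOf_snd_mem _ _ p hp))
  have mq1 := route_mem S f (arcsOf_fst_mem _ _ q hq)
  have mq2 := route_mem S f (List.mem_cons_of_mem _ (arcsOf_snd_mem _ _ q hq))
  have np : ph S p.2.1 ≠ ph S p.2.2 := fun h => arcsOf_ne _ _ (S.nodup e) p hp (ph_inj S mp1 mp2 h)
  have nq : ph S q.2.1 ≠ ph S q.2.2 := fun h => arcsOf_ne _ _ (S.nodup f) q hq (ph_inj S mq1 mq2 h)
  have h0 := (arcs_meet np nq hz1 hz2
    (fun hs h => S.planar e f p hp q hq hs (interl_of (ph_mono S) h))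
    (fun hs h => by
      apply S.distinct e f hef p hp q hq hs
      rcases pair_of_minmax h.1 h.2 with h | h
      · rw [ph_inj S mp1 mq1 h.1, ph_inj S mp2 mq2 h.2]
      · rw [ph_inj S mp1 mq2 h.1, ph_inj S mp2 mq1 h.2]
        exact Sym2.eq_swap)).1
  obtain ⟨x, hx, hzx⟩ := interior_axis S he h0
  obtain ⟨y, hy, hzy⟩ := interior_axis S hf h0
  have hxy : x = y := by
    apply ph_inj S (route_mem S e (bends_sub S e hx)) (route_mem S f (bends_sub S f hy))
    exact Complex.ofReal_injective (hzx.symm.trans hzy)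
  subst hxy
  exact ⟨x, hx, hy, hzx⟩

/-- The drawing of a spine drawing. -/
noncomputable def draw : G.Drawing where
  pt := fun v => (ph S (S.pos v) : ℂ)
  arc := arc S
  pt_inj := fun u v h =>
    S.pos_inj (ph_inj S (pos_mem S u) (pos_mem S v) (Complex.ofReal_injective h))
  cont := fun e => (arc_spec S e).1
  inj := fun e => (arc_spec S e).2.1
  zero := fun e => (arc_spec S e).2.2.1
  one := fun e => (arc_spec S e).2.2.2.1
  avoid := by
    intro e t ht v h
    obtain ⟨x, hx, hzx⟩ := interior_axis S (mem_image_of_mem (arc S e) ht)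
      (by rw [h, Complex.ofReal_im])
    have h2 : x = S.pos v := ph_inj S (route_mem S e (bends_sub S e hx)) (pos_mem S v)
      (Complex.ofReal_injective (hzx.symm.trans h))
    exact S.bend_ne e x hx v h2
  no_three := by
    intro e f g hef heg hfg z he hf hg
    obtain ⟨x, hx1, hx2, hzx⟩ := common S hef he hf
    obtain ⟨y, hy1, hy2, hzy⟩ := common S heg he hg
    have hxy : x = y := by
      apply ph_inj S (route_mem S e (bends_sub S e hx1)) (route_mem S e (bends_sub S e hy1))
      exact Complex.ofReal_injective (hzx.symm.trans hzy)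
    subst hxy
    exact S.no_three e f g hef heg hfg x hx1 hx2 hy2

theorem mem_crossings {x : α} :
    x ∈ S.crossings ↔ ∃ e f : G.E, e ≠ f ∧ x ∈ S.bends e ∧ x ∈ S.bends f := by
  unfold Spine.crossings
  rw [Finset.mem_biUnion]
  constructor
  · rintro ⟨⟨e, f⟩, _, h⟩
    by_cases hef : e ≠ f
    · simp only [hef, ne_eq, not_false_eq_true, if_true, Finset.mem_inter, List.mem_toFinset] at h
      exact ⟨e, f, hef, h.1, h.2⟩
    · simp only [hef, if_false, Finset.notMem_empty] at h
  · rintro ⟨e, f, hef, h1, h2⟩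
    refine ⟨(e, f), Finset.mem_univ _, ?_⟩
    simp only [hef, ne_eq, not_false_eq_true, if_true, Finset.mem_inter, List.mem_toFinset]
    exact ⟨h1, h2⟩

theorem draw_crossings : (draw S).crossings ⊆ (fun x => (ph S x : ℂ)) '' (S.crossings : Set α) := by
  rintro z ⟨e, f, hef, he, hf⟩
  obtain ⟨x, hx1, hx2, hzx⟩ := common S hef he hf
  exact ⟨x, Finset.mem_coe.2 ((mem_crossings S).2 ⟨e, f, hef, hx1, hx2⟩), hzx.symm⟩

/-- Deleting an edge from a spine drawing. -/
def delSpine (e : G.E) : Spine (G.del e) α where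
  pos := S.pos
  pos_inj := S.pos_inj
  route := fun f => S.route f.1
  ne_nil := fun f => S.ne_nil f.1
  last := fun f => S.last f.1
  nodup := fun f => S.nodup f.1
  bend_ne := fun f => S.bend_ne f.1
  planar := fun f g => S.planar f.1 g.1
  distinct := fun f g h => S.distinct f.1 g.1 (fun h' => h (Subtype.ext h'))
  no_three := fun f g k h1 h2 h3 => S.no_three f.1 g.1 k.1 (fun h' => h1 (Subtype.ext h'))
    (fun h' => h2 (Subtype.ext h')) (fun h' => h3 (Subtype.ext h'))

end Main

end Pool.Agent.CR53

namespace Pool.Agent.CC.Gph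

open Pool.Agent.CR53

theorem Spine.cr_le {G : Gph} {α : Type} [LinearOrder α] (S : Spine G α) :
    G.cr ≤ (S.crossings.card : ℕ∞) := by
  calc G.cr ≤ (draw S).crossings.encard := iInf_le _ _
    _ ≤ ((fun x => (ph S x : ℂ)) '' (S.crossings : Set α)).encard :=
        Set.encard_le_encard (draw_crossings S)
    _ ≤ (S.crossings : Set α).encard := Set.encard_image_le _ _
    _ = (S.crossings.card : ℕ∞) := Set.encard_coe_eq_coe_finsetCard _

/-- deleting a crossed edge -/
theorem Spine.cr_del_lt {G : Gph} {α : Type} [LinearOrder α] (S : Spine G α) {e : G.E} {K : ℕ}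
    (hK : S.crossings.card ≤ K) (he : S.Crossed e) : (G.del e).cr < (K : ℕ∞) := by
  obtain ⟨x, hxe, hx⟩ := he
  have hsub : (delSpine S e).crossings ⊆ S.crossings.erase x := by
    intro y hy
    obtain ⟨f, g, hfg, h1, h2⟩ := (mem_crossings _).1 hy
    have hfg' : f.1 ≠ g.1 := fun h => hfg (Subtype.ext h)
    refine Finset.mem_erase.2 ⟨?_, (mem_crossings S).2 ⟨f.1, g.1, hfg', h1, h2⟩⟩
    rintro rfl
    exact S.no_three e f.1 g.1 (fun h => f.2 h.symm) (fun h => g.2 h.symm) hfg' y hxe h1 h2
  have h3 : (delSpine S e).crossings.card < K := by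
    have h4 := Finset.card_le_card hsub
    have h5 := Finset.card_erase_lt_of_mem hx
    omega
  exact lt_of_le_of_lt (Spine.cr_le _) (by exact_mod_cast h3)

end Pool.Agent.CC.Gph
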