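import Pool.Agent.Lib_helper74.CCF.Defs2

/-!
MP_198240, K33_FC (helper53): every edge of `K_{3,3}` is crossed in a spine drawing with one crossing.
-/

set_option maxRecDepth 20000

namespace Pool.Agent.CR53

open Pool.Agent.CC Pool.Agent.CC.Gph

/-- positions of the vertices -/
def kp : Bool × Fin 3 → ℕ
  | (false, i) => ![0, 2, 5] i
  | (true, j) => ![1, 4, 6] j

/-- routes of the edges -/
def kr : Fin 3 × Fin 3 → List (Bool × ℕ)
  | (i, j) => (![![[(true, 1)], [(true, 3), (true, 4)], [(false, 6)]],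
      ![[(true, 1)], [(false, 4)], [(false, 6)]],
      ![[(true, 3), (true, 1)], [(true, 4)], [(true, 6)]]] : Fin 3 → Fin 3 → List (Bool × ℕ)) i j

instance decInterl (x y z w : ℕ) : Decidable (Interl x y z w) := by
  unfold Interl; infer_instance

theorem k_pos_inj : ∀ u v : Bool × Fin 3, kp u = kp v → u = v := by decide

theorem k_ne : ∀ e : Fin 3 × Fin 3, kr e ≠ [] := by decide

theorem k_last : ∀ e : Fin 3 × Fin 3, ((kr e).map Prod.snd).getLast? = some (kp (true, e.2)) := by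
  decide

theorem k_nodup : ∀ e : Fin 3 × Fin 3, (kp (false, e.1) :: (kr e).map Prod.snd).Nodup := by decide

theorem k_bend : ∀ e : Fin 3 × Fin 3, ∀ x ∈ ((kr e).map Prod.snd).dropLast, x = 3 := by decide

theorem k_three : ∀ v : Bool × Fin 3, (3 : ℕ) ≠ kp v := by decide

theorem k_planar : ∀ e f : Fin 3 × Fin 3, ∀ p ∈ arcsOf (kp (false, e.1)) (kr e),
    ∀ q ∈ arcsOf (kp (false, f.1)) (kr f), p.1 = q.1 → ¬ Interl p.2.1 p.2.2 q.2.1 q.2.2 := by
  decide

theorem k_distinct : ∀ e f : Fin 3 × Fin 3, e ≠ f → ∀ p ∈ arcsOf (kp (false, e.1)) (kr e),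
    ∀ q ∈ arcsOf (kp (false, f.1)) (kr f), p.1 = q.1 → ¬ (s(p.2.1, p.2.2) = s(q.2.1, q.2.2)) := by
  decide

theorem k_bends : ∀ e : Fin 3 × Fin 3, ∀ x ∈ ((kr e).map Prod.snd).dropLast,
    e = (0, 1) ∨ e = (2, 0) := by decide

/-- the spine drawing, with permuted vertices -/
def kS (σ τ : Equiv.Perm (Fin 3)) : Spine K33 ℕ where
  pos := fun v => kp (v.1, if v.1 then τ v.2 else σ v.2)
  pos_inj := by
    rintro ⟨b, i⟩ ⟨c, j⟩ h
    have h1 := k_pos_inj _ _ h
    rw [Prod.mk.injEq] at h1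
    obtain ⟨h2, h3⟩ := h1
    simp only at h2 h3
    subst h2
    cases b
    · simp only [Bool.false_eq_true, if_false] at h3
      rw [σ.injective h3]
    · simp only [if_true] at h3
      rw [τ.injective h3]
  route := fun e => kr (σ e.1, τ e.2)
  ne_nil := fun e => k_ne _
  last := fun e => k_last (σ e.1, τ e.2)
  nodup := fun e => k_nodup (σ e.1, τ e.2)
  bend_ne := fun e x hx v => by
    rw [k_bend _ x hx]
    exact k_three _
  planar := fun e f => k_planar (σ e.1, τ e.2) (σ f.1, τ f.2)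
  distinct := fun e f h => k_distinct (σ e.1, τ e.2) (σ f.1, τ f.2) (fun h' => h (by
    rw [Prod.mk.injEq] at h'
    exact Prod.ext (σ.injective h'.1) (τ.injective h'.2)))
  no_three := fun e f g h1 h2 h3 x hx hy hz => by
    have i1 := k_bends _ x hx
    have i2 := k_bends _ x hy
    have i3 := k_bends _ x hz
    have key : ∀ a b : Fin 3 × Fin 3, (σ a.1, τ a.2) = (σ b.1, τ b.2) → a = b := by
      intro a b h'
      rw [Prod.mk.injEq] at h'
      exact Prod.ext (σ.injective h'.1) (τ.injective h'.2)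
    rcases i1 with i1 | i1 <;> rcases i2 with i2 | i2
    · exact h1 (key _ _ (i1.trans i2.symm))
    · rcases i3 with i3 | i3
      · exact h2 (key _ _ (i1.trans i3.symm))
      · exact h3 (key _ _ (i2.trans i3.symm))
    · rcases i3 with i3 | i3
      · exact h3 (key _ _ (i2.trans i3.symm))
      · exact h2 (key _ _ (i1.trans i3.symm))
    · exact h1 (key _ _ (i1.trans i2.symm))

theorem k_b01 : 3 ∈ ((kr (0, 1)).map Prod.snd).dropLast := by decide

theorem k_b20 : 3 ∈ ((kr (2, 0)).map Prod.snd).dropLast := by decide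

theorem k_mem_crossings {G : Gph} {α : Type} [LinearOrder α] (S : Spine G α) {x : α} :
    x ∈ S.crossings ↔ ∃ e f : G.E, e ≠ f ∧ x ∈ S.bends e ∧ x ∈ S.bends f := by
  unfold Spine.crossings
  rw [Finset.mem_biUnion]
  constructor
  · rintro ⟨⟨e, f⟩, _, h⟩
    by_cases hef : e ≠ f
    · simp only [hef, ne_eq, not_false_eq_true, if_true, Finset.mem_inter, List.mem_toFinset] at h
      exact ⟨e, f, hef, h.1, h.2⟩
    · simp only [hef, if_false, Finset.notMem_empty] at h
  · rintro ⟨e, f, hef, h1, h2⟩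
    refine ⟨(e, f), Finset.mem_univ _, ?_⟩
    simp only [hef, ne_eq, not_false_eq_true, if_true, Finset.mem_inter, List.mem_toFinset]
    exact ⟨h1, h2⟩

/-- the edge `(i, j)` -/
def kE (i j : Fin 3) : K33.E := (i, j)

theorem kE_inj {i j i' j' : Fin 3} (h : kE i j = kE i' j') : i = i' ∧ j = j' := by
  unfold kE at h
  exact ⟨congrArg Prod.fst h, congrArg Prod.snd h⟩

theorem kE_eta (e : K33.E) : ∃ i j, e = kE i j := ⟨e.1, e.2, rfl⟩

theorem kS_bends (σ τ : Equiv.Perm (Fin 3)) (i j : Fin 3) :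
    (kS σ τ).bends (kE i j) = ((kr (σ i, τ j)).map Prod.snd).dropLast := rfl

theorem kS_crossings (σ τ : Equiv.Perm (Fin 3)) : (kS σ τ).crossings ⊆ {3} := by
  intro x hx
  obtain ⟨e, f, _, h, _⟩ := (k_mem_crossings _).1 hx
  obtain ⟨i, j, rfl⟩ := kE_eta e
  rw [kS_bends] at h
  rw [Finset.mem_singleton]
  exact k_bend _ x h

theorem kS_mem' (σ τ : Equiv.Perm (Fin 3)) (i j i' j' : Fin 3) (h1 : σ i = 0) (h2 : τ j = 1)
    (h3 : σ i' = 2) (h4 : τ j' = 0) : 3 ∈ (kS σ τ).crossings := by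
  refine (k_mem_crossings _).2 ⟨kE i j, kE i' j', ?_, ?_, ?_⟩
  · intro h
    have h5 := (kE_inj h).1
    rw [h5, h3] at h1
    exact absurd h1 (by decide)
  · rw [kS_bends, h1, h2]; exact k_b01
  · rw [kS_bends, h3, h4]; exact k_b20

end Pool.Agent.CR53

namespace Pool.Agent.CC.Gph

open Pool.Agent.CR53

theorem K33_crossed (e : K33.E) : K33.CrossedIn 1 e := by
  obtain ⟨i, j, rfl⟩ := kE_eta e
  set σ := Equiv.swap i 0 with hσ
  set τ := Equiv.swap j 1 with hτ
  have h1 : σ i = 0 := Equiv.swap_apply_left _ _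
  have h2 : τ j = 1 := Equiv.swap_apply_left _ _
  refine ⟨ℕ, inferInstance, kS σ τ, ?_, 3, ?_, kS_mem' σ τ i j (σ.symm 2) (τ.symm 0) h1 h2
    (σ.apply_symm_apply _) (τ.apply_symm_apply _)⟩
  · exact le_trans (Finset.card_le_card (kS_crossings _ _)) (by simp)
  · rw [kS_bends, h1, h2]
    exact k_b01

end Pool.Agent.CC.Gph
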