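import Pool.Agent.Lib_helper74.CCF.Z6
import Pool.Agent.Lib_helper74.CCF.K33

/-! ZIPD: zips of spine drawings (proofs in Pool/Agent/Lib_helper90/CCZ/Z1..Z6.lean; `K33_crossed` is
in Pool/Agent/Lib_helper53/CR/K33.lean). -/

namespace Pool.Agent.CC.Gph

theorem Spine.exists_zip {G1 G2 : Gph} {v1 : G1.V} {v2 : G2.V} (p1 : Port G1 v1) (p2 : Port G2 v2)
    (h1 : G1.Loopless) (h2 : G2.Loopless)
    {α β : Type} [LinearOrder α] [LinearOrder β] (S1 : Spine G1 α) (S2 : Spine G2 β) :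
    ∃ (γ : Type) (_ : LinearOrder γ) (S : Spine (zip G1 G2 p1 p2) γ),
      S.crossings.card ≤ S1.crossings.card + S2.crossings.card ∧
      (∀ e : {e : G1.E // G1.a e ≠ v1 ∧ G1.b e ≠ v1}, S1.Crossed e.1 → S.Crossed (.inl e)) ∧
      (∀ e : {e : G2.E // G2.a e ≠ v2 ∧ G2.b e ≠ v2}, S2.Crossed e.1 → S.Crossed (.inr (.inl e))) ∧
      (∀ i, S1.Crossed (p1.e i) → S.Crossed (.inr (.inr i))) ∧
      (∀ i, S2.Crossed (p2.e i) → S.Crossed (.inr (.inr i))) :=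
  Spine.exists_zip_aux p1 p2 S1 S2

theorem FC_zip {G1 G2 : Gph} {v1 : G1.V} {v2 : G2.V} (p1 : Port G1 v1) (p2 : Port G2 v2)
    (h1 : G1.Loopless) (h2 : G2.Loopless) {K1 K2 : ℕ} (f1 : G1.FC K1) (f2 : G2.FC K2)
    (c1 : ∀ i, G1.CrossedIn K1 (p1.e i)) :
    (zip G1 G2 p1 p2).FC (K1 + K2) := by
  obtain ⟨⟨α, _, S1, a1⟩, f1'⟩ := f1
  obtain ⟨⟨β, _, S2, b1⟩, f2'⟩ := f2
  constructor
  · obtain ⟨γ, _, S, d1, _⟩ := Spine.exists_zip p1 p2 h1 h2 S1 S2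
    exact ⟨γ, inferInstance, S, d1.trans (Nat.add_le_add a1 b1)⟩
  · intro g
    rcases g with e | e | i
    · obtain ⟨α', _, S1', a1'⟩ := f1' e.1
      obtain ⟨γ, _, S, d1, _⟩ := Spine.exists_zip (p1.del e.1 e.2) p2 (del_loopless h1 e.1) h2 S1' S2
      obtain ⟨S', hS'⟩ := zip_del1 p1 p2 e S
      have h3 := Finset.card_le_card hS'
      exact ⟨γ, inferInstance, S', by omega⟩
    · obtain ⟨β', _, S2', b1'⟩ := f2' e.1
      obtain ⟨γ, _, S, d1, _⟩ := Spine.exists_zip p1 (p2.del e.1 e.2) h1 (del_loopless h2 e.1) S1 S2'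
      obtain ⟨S', hS'⟩ := zip_del2 p1 p2 e S
      have h3 := Finset.card_le_card hS'
      exact ⟨γ, inferInstance, S', by omega⟩
    · obtain ⟨α', _, S1', a1', a2'⟩ := c1 i
      obtain ⟨γ, _, S, d1, _, _, d4, _⟩ := Spine.exists_zip p1 p2 h1 h2 S1' S2
      obtain ⟨S', hS'⟩ := S.exists_del _ (d4 i a2')
      exact ⟨γ, inferInstance, S', by omega⟩

theorem K33_FC : K33.FC 1 := by
  constructor
  · obtain ⟨α, _, S, h1, _⟩ := K33_crossed ((0 : Fin 3), (0 : Fin 3))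
    exact ⟨α, inferInstance, S, h1⟩
  · intro e
    obtain ⟨α, _, S, h1, h2⟩ := K33_crossed e
    obtain ⟨S', h3⟩ := S.exists_del e h2
    exact ⟨α, inferInstance, S', h3.trans h1⟩

end Pool.Agent.CC.Gph
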