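import Pool.Agent.Lib_helper74.CCF.T1
import Pool.Agent.Lib_helper74.CCF.T2
import Pool.Agent.Lib_helper74.CCF.Calc
import Pool.Agent.Lib_helper74.CCF.ZipD

/-! CONN: connectivity of zips, degrees, assembly. -/

namespace Pool.Agent.CC

namespace Gph

/-! ### basic facts on the zip -/

section zipbasic

variable {G1 G2 : Gph} {v1 : G1.V} {v2 : G2.V} (p1 : Port G1 v1) (p2 : Port G2 v2)

/-- vertices of the zip -/
def cn_zl (u : G1.V) (h : u ≠ v1) : (zip G1 G2 p1 p2).V := (Sum.inl ⟨u, h⟩ : {u : G1.V // u ≠ v1} ⊕ {u : G2.V // u ≠ v2})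

def cn_zr (u : G2.V) (h : u ≠ v2) : (zip G1 G2 p1 p2).V := (Sum.inr ⟨u, h⟩ : {u : G1.V // u ≠ v1} ⊕ {u : G2.V // u ≠ v2})

/-- edges of the zip -/
def cn_el (e : G1.E) (h : G1.a e ≠ v1 ∧ G1.b e ≠ v1) : (zip G1 G2 p1 p2).E :=
  (Sum.inl ⟨e, h⟩ : {e : G1.E // G1.a e ≠ v1 ∧ G1.b e ≠ v1} ⊕
    ({e : G2.E // G2.a e ≠ v2 ∧ G2.b e ≠ v2} ⊕ Fin 3))

def cn_er (e : G2.E) (h : G2.a e ≠ v2 ∧ G2.b e ≠ v2) : (zip G1 G2 p1 p2).E :=
  (Sum.inr (Sum.inl ⟨e, h⟩) : {e : G1.E // G1.a e ≠ v1 ∧ G1.b e ≠ v1} ⊕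
    ({e : G2.E // G2.a e ≠ v2 ∧ G2.b e ≠ v2} ⊕ Fin 3))

def cn_leg (i : Fin 3) : (zip G1 G2 p1 p2).E :=
  (Sum.inr (Sum.inr i) : {e : G1.E // G1.a e ≠ v1 ∧ G1.b e ≠ v1} ⊕
    ({e : G2.E // G2.a e ≠ v2 ∧ G2.b e ≠ v2} ⊕ Fin 3))

theorem cn_zip_v (u : (zip G1 G2 p1 p2).V) :
    (∃ u' h, u = cn_zl p1 p2 u' h) ∨ (∃ u' h, u = cn_zr p1 p2 u' h) := by
  rcases u with ⟨u, h⟩ | ⟨u, h⟩
  · exact Or.inl ⟨u, h, rfl⟩
  · exact Or.inr ⟨u, h, rfl⟩

theorem cn_zip_e (u : (zip G1 G2 p1 p2).E) :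
    (∃ u' h, u = cn_el p1 p2 u' h) ∨ (∃ u' h, u = cn_er p1 p2 u' h) ∨ (∃ i, u = cn_leg p1 p2 i) := by
  rcases u with ⟨u, h⟩ | ⟨u, h⟩ | i
  · exact Or.inl ⟨u, h, rfl⟩
  · exact Or.inr (Or.inl ⟨u, h, rfl⟩)
  · exact Or.inr (Or.inr ⟨i, rfl⟩)

@[simp] theorem cn_a_el (e : G1.E) (h) : (zip G1 G2 p1 p2).a (cn_el p1 p2 e h) = cn_zl p1 p2 (G1.a e) h.1 := rfl
@[simp] theorem cn_b_el (e : G1.E) (h) : (zip G1 G2 p1 p2).b (cn_el p1 p2 e h) = cn_zl p1 p2 (G1.b e) h.2 := rfl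
@[simp] theorem cn_a_er (e : G2.E) (h) : (zip G1 G2 p1 p2).a (cn_er p1 p2 e h) = cn_zr p1 p2 (G2.a e) h.1 := rfl
@[simp] theorem cn_b_er (e : G2.E) (h) : (zip G1 G2 p1 p2).b (cn_er p1 p2 e h) = cn_zr p1 p2 (G2.b e) h.2 := rfl
@[simp] theorem cn_a_leg (i : Fin 3) : (zip G1 G2 p1 p2).a (cn_leg p1 p2 i) = cn_zl p1 p2 (p1.nb i) (p1.nb_ne i) := rfl
@[simp] theorem cn_b_leg (i : Fin 3) : (zip G1 G2 p1 p2).b (cn_leg p1 p2 i) = cn_zr p1 p2 (p2.nb i) (p2.nb_ne i) := rfl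

@[simp] theorem cn_zl_inj {u u' : G1.V} {h h'} : cn_zl p1 p2 u h = cn_zl p1 p2 u' h' ↔ u = u' := by
  constructor
  · intro H; exact congrArg Subtype.val (Sum.inl.inj H)
  · rintro rfl; rfl

@[simp] theorem cn_zr_inj {u u' : G2.V} {h h'} : cn_zr p1 p2 u h = cn_zr p1 p2 u' h' ↔ u = u' := by
  constructor
  · intro H; exact congrArg Subtype.val (Sum.inr.inj H)
  · rintro rfl; rfl

@[simp] theorem cn_zl_ne_zr {u : G1.V} {u' : G2.V} {h h'} : cn_zl p1 p2 u h ≠ cn_zr p1 p2 u' h' := by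
  intro H; exact Sum.inl_ne_inr H

@[simp] theorem cn_zr_ne_zl {u : G1.V} {u' : G2.V} {h h'} : cn_zr p1 p2 u' h' ≠ cn_zl p1 p2 u h := by
  intro H; exact Sum.inr_ne_inl H

@[simp] theorem cn_zl_eq_zr {u : G1.V} {u' : G2.V} {h h'} : (cn_zl p1 p2 u h = cn_zr p1 p2 u' h') ↔ False :=
  iff_of_false (cn_zl_ne_zr p1 p2) id

@[simp] theorem cn_zr_eq_zl {u : G1.V} {u' : G2.V} {h h'} : (cn_zr p1 p2 u' h' = cn_zl p1 p2 u h) ↔ False :=
  iff_of_false (cn_zr_ne_zl p1 p2) id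

theorem cn_el_inj {u u' : G1.E} {h h'} : cn_el p1 p2 u h = cn_el p1 p2 u' h' ↔ u = u' := by
  constructor
  · intro H; exact congrArg Subtype.val (Sum.inl.inj H)
  · rintro rfl; rfl

theorem cn_er_inj {u u' : G2.E} {h h'} : cn_er p1 p2 u h = cn_er p1 p2 u' h' ↔ u = u' := by
  constructor
  · intro H; exact congrArg Subtype.val (Sum.inl.inj (Sum.inr.inj H))
  · rintro rfl; rfl

theorem cn_leg_inj {i j : Fin 3} : cn_leg p1 p2 i = cn_leg p1 p2 j ↔ i = j := by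
  constructor
  · intro H; exact Sum.inr.inj (Sum.inr.inj H)
  · rintro rfl; rfl

theorem cn_el_ne_er {u : G1.E} {u' : G2.E} {h h'} : cn_el p1 p2 u h ≠ cn_er p1 p2 u' h' := by
  intro H; exact Sum.inl_ne_inr H

theorem cn_el_ne_leg {u : G1.E} {i} {h} : cn_el p1 p2 u h ≠ cn_leg p1 p2 i := by
  intro H; exact Sum.inl_ne_inr H

theorem cn_er_ne_leg {u : G2.E} {i} {h} : cn_er p1 p2 u h ≠ cn_leg p1 p2 i := by
  intro H; exact Sum.inl_ne_inr (Sum.inr.inj H)

end zipbasic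

theorem cn_zip_loopless {G1 G2 : Gph} {v1 : G1.V} {v2 : G2.V} (p1 : Port G1 v1) (p2 : Port G2 v2)
    (h1 : G1.Loopless) (h2 : G2.Loopless) : (zip G1 G2 p1 p2).Loopless := by
  intro e
  rcases cn_zip_e p1 p2 e with ⟨u, h, rfl⟩ | ⟨u, h, rfl⟩ | ⟨i, rfl⟩
  · simpa using h1 u
  · simpa using h2 u
  · simp

theorem zip_simple {G1 G2 : Gph} {v1 : G1.V} {v2 : G2.V} (p1 : Port G1 v1) (p2 : Port G2 v2)
    (h1 : G1.Simple) (h2 : G2.Simple) : (zip G1 G2 p1 p2).Simple := by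
  refine ⟨cn_zip_loopless p1 p2 h1.1 h2.1, fun e f H => ?_⟩
  rcases cn_zip_e p1 p2 e with ⟨u, h, rfl⟩ | ⟨u, h, rfl⟩ | ⟨i, rfl⟩ <;>
  rcases cn_zip_e p1 p2 f with ⟨u', h', rfl⟩ | ⟨u', h', rfl⟩ | ⟨j, rfl⟩ <;>
    simp only [cn_a_el, cn_b_el, cn_a_er, cn_b_er, cn_a_leg, cn_b_leg, Sym2.eq_iff, cn_zl_inj, cn_zr_inj, cn_zl_eq_zr, cn_zr_eq_zl, and_false, false_and, or_false] at H
  · rw [cn_el_inj]; exact h1.2 u u' (Sym2.eq_iff.mpr H)
  · rw [cn_er_inj]; exact h2.2 u u' (Sym2.eq_iff.mpr H)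
  · rw [cn_leg_inj]; exact p1.nb_inj H.1

/-! ### 3-connectivity -/

/-- reachability avoiding a set -/
def CnRch (G : Gph) (S : Finset G.V) : G.V → G.V → Prop :=
  Relation.ReflTransGen (fun x y => G.Adj x y ∧ x ∉ S ∧ y ∉ S)

theorem Adj.cn_symm {G : Gph} {u v : G.V} (h : G.Adj u v) : G.Adj v u := by
  obtain ⟨e, h⟩ := h
  exact ⟨e, h.symm⟩

theorem CnRch.symm {G : Gph} {S : Finset G.V} {u v : G.V} (h : G.CnRch S u v) : G.CnRch S v u := by
  induction h with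
  | refl => exact Relation.ReflTransGen.refl
  | tail _ h ih => exact Relation.ReflTransGen.head ⟨h.1.cn_symm, h.2.2, h.2.1⟩ ih

theorem CnRch.trans {G : Gph} {S : Finset G.V} {u v w : G.V} (h : G.CnRch S u v) (h' : G.CnRch S v w) :
    G.CnRch S u w := Relation.ReflTransGen.trans h h'

theorem cn_side_a {G : Gph} (hG : G.ThreeConn) {v : G.V} (p : Port G v) (S : Finset G.V)
    (hS : S.card ≤ 2) (hv : v ∉ S) (u : G.V) (hu : u ∉ S) (huv : u ≠ v) :
    ∃ i, p.nb i ∉ S ∧ G.CnRch (insert v S) u (p.nb i) := by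
  have key : ∀ x, G.CnRch S u x → (x ≠ v ∧ G.CnRch (insert v S) u x) ∨
      ∃ i, p.nb i ∉ S ∧ G.CnRch (insert v S) u (p.nb i) := by
    intro x hx
    induction hx with
    | refl => exact Or.inl ⟨huv, Relation.ReflTransGen.refl⟩
    | @tail y z _ hyz ih =>
      rcases ih with ⟨hyv, hy⟩ | h
      · by_cases hz : z = v
        · right
          subst hz
          obtain ⟨e, he⟩ := hyz.1
          obtain ⟨i, rfl⟩ := p.all e (by rcases he with he | he; exact Or.inr he.2; exact Or.inl he.1)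
          have hn : y = p.nb i := by
            rcases p.ends i with h | h <;> rcases he with he | he
            · exact absurd (he.1.symm.trans h.1) hyv
            · exact he.2.symm.trans h.2
            · exact he.1.symm.trans h.1
            · exact absurd (he.2.symm.trans h.2) hyv
          exact ⟨i, hn ▸ hyz.2.1, hn ▸ hy⟩
        · left
          refine ⟨hz, hy.tail ⟨hyz.1, ?_, ?_⟩⟩
          · simp [hyv, hyz.2.1]
          · simp [hz, hyz.2.2]
      · exact Or.inr h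
  rcases key v (hG.2 S hS u v hu hv) with h | h
  · exact absurd rfl h.1
  · exact h

theorem cn_side_b {G : Gph} (hG : G.ThreeConn) {v : G.V} (S : Finset G.V)
    (hS : S.card ≤ 1) (u w : G.V) (hu : u ∉ S) (huv : u ≠ v) (hw : w ∉ S) (hwv : w ≠ v) :
    G.CnRch (insert v S) u w := by
  refine hG.2 (insert v S) ((Finset.card_insert_le _ _).trans (by omega)) u w ?_ ?_
  · simp [hu, huv]
  · simp [hw, hwv]

section zipconn

variable {G1 G2 : Gph} {v1 : G1.V} {v2 : G2.V} (p1 : Port G1 v1) (p2 : Port G2 v2)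

/-- left part of a vertex set -/
def cn_sl (S : Finset (zip G1 G2 p1 p2).V) : Finset G1.V :=
  (Finset.toLeft (α := {u : G1.V // u ≠ v1}) (β := {u : G2.V // u ≠ v2}) S).map
    (Function.Embedding.subtype _)

/-- right part of a vertex set -/
def cn_sr (S : Finset (zip G1 G2 p1 p2).V) : Finset G2.V :=
  (Finset.toRight (α := {u : G1.V // u ≠ v1}) (β := {u : G2.V // u ≠ v2}) S).map
    (Function.Embedding.subtype _)

theorem cn_mem_sl (S : Finset (zip G1 G2 p1 p2).V) (u : G1.V) :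
    u ∈ cn_sl p1 p2 S ↔ ∃ h, cn_zl p1 p2 u h ∈ S := by
  simp only [cn_sl, Finset.mem_map, Finset.mem_toLeft, Function.Embedding.subtype_apply,
    Subtype.exists, exists_and_right, exists_eq_right]
  rfl

theorem cn_mem_sr (S : Finset (zip G1 G2 p1 p2).V) (u : G2.V) :
    u ∈ cn_sr p1 p2 S ↔ ∃ h, cn_zr p1 p2 u h ∈ S := by
  simp only [cn_sr, Finset.mem_map, Finset.mem_toRight, Function.Embedding.subtype_apply,
    Subtype.exists, exists_and_right, exists_eq_right]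
  rfl

theorem cn_card_sl_sr (S : Finset (zip G1 G2 p1 p2).V) :
    (cn_sl p1 p2 S).card + (cn_sr p1 p2 S).card = S.card := by
  unfold cn_sl cn_sr
  rw [Finset.card_map, Finset.card_map]
  exact Finset.card_toLeft_add_card_toRight

theorem cn_rch_l (S : Finset (zip G1 G2 p1 p2).V) {u w : G1.V} (hu : u ≠ v1)
    (h : G1.CnRch (insert v1 (cn_sl p1 p2 S)) u w) (hw : w ≠ v1) :
    (zip G1 G2 p1 p2).CnRch S (cn_zl p1 p2 u hu) (cn_zl p1 p2 w hw) := by
  have key : ∀ x, G1.CnRch (insert v1 (cn_sl p1 p2 S)) u x → ∃ hx : x ≠ v1,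
      (zip G1 G2 p1 p2).CnRch S (cn_zl p1 p2 u hu) (cn_zl p1 p2 x hx) := by
    intro x hx
    induction hx with
    | refl => exact ⟨hu, Relation.ReflTransGen.refl⟩
    | @tail y z _ hyz ih =>
      obtain ⟨hy, ih⟩ := ih
      obtain ⟨⟨e, he⟩, h1, h2⟩ := hyz
      simp only [Finset.mem_insert, not_or, cn_mem_sl, not_exists] at h1 h2
      refine ⟨h2.1, ih.tail ⟨?_, h1.2 _, h2.2 _⟩⟩
      have he' : G1.a e ≠ v1 ∧ G1.b e ≠ v1 := by
        rcases he with ⟨rfl, rfl⟩ | ⟨rfl, rfl⟩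
        · exact ⟨h1.1, h2.1⟩
        · exact ⟨h2.1, h1.1⟩
      refine ⟨cn_el p1 p2 e he', ?_⟩
      simpa using he
  obtain ⟨_, h⟩ := key w h
  exact h

theorem cn_rch_r (S : Finset (zip G1 G2 p1 p2).V) {u w : G2.V} (hu : u ≠ v2)
    (h : G2.CnRch (insert v2 (cn_sr p1 p2 S)) u w) (hw : w ≠ v2) :
    (zip G1 G2 p1 p2).CnRch S (cn_zr p1 p2 u hu) (cn_zr p1 p2 w hw) := by
  have key : ∀ x, G2.CnRch (insert v2 (cn_sr p1 p2 S)) u x → ∃ hx : x ≠ v2,
      (zip G1 G2 p1 p2).CnRch S (cn_zr p1 p2 u hu) (cn_zr p1 p2 x hx) := by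
    intro x hx
    induction hx with
    | refl => exact ⟨hu, Relation.ReflTransGen.refl⟩
    | @tail y z _ hyz ih =>
      obtain ⟨hy, ih⟩ := ih
      obtain ⟨⟨e, he⟩, h1, h2⟩ := hyz
      simp only [Finset.mem_insert, not_or, cn_mem_sr, not_exists] at h1 h2
      refine ⟨h2.1, ih.tail ⟨?_, h1.2 _, h2.2 _⟩⟩
      have he' : G2.a e ≠ v2 ∧ G2.b e ≠ v2 := by
        rcases he with ⟨rfl, rfl⟩ | ⟨rfl, rfl⟩
        · exact ⟨h1.1, h2.1⟩
        · exact ⟨h2.1, h1.1⟩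
      refine ⟨cn_er p1 p2 e he', ?_⟩
      simpa using he
  obtain ⟨_, h⟩ := key w h
  exact h

theorem cn_rch_leg (S : Finset (zip G1 G2 p1 p2).V) (i : Fin 3)
    (h1 : p1.nb i ∉ cn_sl p1 p2 S) (h2 : p2.nb i ∉ cn_sr p1 p2 S) :
    (zip G1 G2 p1 p2).CnRch S (cn_zl p1 p2 (p1.nb i) (p1.nb_ne i)) (cn_zr p1 p2 (p2.nb i) (p2.nb_ne i)) := by
  rw [cn_mem_sl, not_exists] at h1
  rw [cn_mem_sr, not_exists] at h2
  exact Relation.ReflTransGen.single ⟨⟨cn_leg p1 p2 i, by simp⟩, h1 _, h2 _⟩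

theorem cn_exists_leg (S1 : Finset G1.V) (S2 : Finset G2.V) (h1 : S1.card ≤ 1) (h2 : S2.card ≤ 1) :
    ∃ i, p1.nb i ∉ S1 ∧ p2.nb i ∉ S2 := by
  classical
  by_contra H
  push Not at H
  have c1 : (Finset.univ.filter (fun i => p1.nb i ∈ S1)).card ≤ 1 := by
    refine le_trans ?_ h1
    rw [← Finset.card_map ⟨p1.nb, p1.nb_inj⟩]
    apply Finset.card_le_card
    intro x hx
    simp only [Finset.mem_map, Finset.mem_filter, Finset.mem_univ, true_and,
      Function.Embedding.coeFn_mk] at hx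
    obtain ⟨i, hi, rfl⟩ := hx
    exact hi
  have c2 : (Finset.univ.filter (fun i => p2.nb i ∈ S2)).card ≤ 1 := by
    refine le_trans ?_ h2
    rw [← Finset.card_map ⟨p2.nb, p2.nb_inj⟩]
    apply Finset.card_le_card
    intro x hx
    simp only [Finset.mem_map, Finset.mem_filter, Finset.mem_univ, true_and,
      Function.Embedding.coeFn_mk] at hx
    obtain ⟨i, hi, rfl⟩ := hx
    exact hi
  have c3 : (Finset.univ : Finset (Fin 3)) ⊆ Finset.univ.filter (fun i => p1.nb i ∈ S1) ∪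
      Finset.univ.filter (fun i => p2.nb i ∈ S2) := by
    intro i _
    simp only [Finset.mem_union, Finset.mem_filter, Finset.mem_univ, true_and]
    by_cases h : p1.nb i ∈ S1
    · exact Or.inl h
    · exact Or.inr (H i h)
  have := (Finset.card_le_card c3).trans (Finset.card_union_le _ _)
  rw [Finset.card_univ, Fintype.card_fin] at this
  omega

end zipconn

theorem ThreeConn.cn_of_root {G : Gph} (h4 : 4 ≤ Fintype.card G.V)
    (h : ∀ S : Finset G.V, S.card ≤ 2 → ∃ c, ∀ u, u ∉ S → G.CnRch S u c) : G.ThreeConn := by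
  refine ⟨h4, fun S hS u v hu hv => ?_⟩
  obtain ⟨c, hc⟩ := h S hS
  exact (hc u hu).trans (hc v hv).symm

theorem zip_threeConn {G1 G2 : Gph} {v1 : G1.V} {v2 : G2.V} (p1 : Port G1 v1) (p2 : Port G2 v2)
    (h1 : G1.ThreeConn) (h2 : G2.ThreeConn) : (zip G1 G2 p1 p2).ThreeConn := by
  apply ThreeConn.cn_of_root
  · have e : Fintype.card (zip G1 G2 p1 p2).V =
        Fintype.card {u : G1.V // u ≠ v1} + Fintype.card {u : G2.V // u ≠ v2} :=
      Fintype.card_sum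
    rw [e, Fintype.card_subtype_compl, Fintype.card_subtype_compl, Fintype.card_subtype_eq,
      Fintype.card_subtype_eq]
    have := h1.1
    have := h2.1
    omega
  intro S hS
  have hc := cn_card_sl_sr p1 p2 S
  have hn1 : v1 ∉ cn_sl p1 p2 S := by rw [cn_mem_sl]; rintro ⟨h, _⟩; exact h rfl
  have hn2 : v2 ∉ cn_sr p1 p2 S := by rw [cn_mem_sr]; rintro ⟨h, _⟩; exact h rfl
  by_cases ha : (cn_sl p1 p2 S).card ≤ 1
  · by_cases hb : (cn_sr p1 p2 S).card ≤ 1
    · obtain ⟨i, hi1, hi2⟩ := cn_exists_leg p1 p2 (cn_sl p1 p2 S) (cn_sr p1 p2 S) ha hb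
      refine ⟨cn_zl p1 p2 (p1.nb i) (p1.nb_ne i), fun u hu => ?_⟩
      rcases cn_zip_v p1 p2 u with ⟨u, h, rfl⟩ | ⟨u, h, rfl⟩
      · have hu' : u ∉ cn_sl p1 p2 S := by rw [cn_mem_sl]; rintro ⟨_, h⟩; exact hu h
        exact cn_rch_l p1 p2 S h (cn_side_b h1 _ ha u _ hu' h hi1 (p1.nb_ne i)) _
      · have hu' : u ∉ cn_sr p1 p2 S := by rw [cn_mem_sr]; rintro ⟨_, h⟩; exact hu h
        exact (cn_rch_r p1 p2 S h (cn_side_b h2 _ hb u _ hu' h hi2 (p2.nb_ne i)) _).trans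
          (cn_rch_leg p1 p2 S i hi1 hi2).symm
    · have ha0 : cn_sl p1 p2 S = ∅ := Finset.card_eq_zero.mp (by omega)
      refine ⟨cn_zl p1 p2 (p1.nb 0) (p1.nb_ne 0), fun u hu => ?_⟩
      have hL : ∀ u, (h : u ≠ v1) → (zip G1 G2 p1 p2).CnRch S (cn_zl p1 p2 u h)
          (cn_zl p1 p2 (p1.nb 0) (p1.nb_ne 0)) := fun u h =>
        cn_rch_l p1 p2 S h (cn_side_b h1 _ ha u _ (by simp [ha0]) h (by simp [ha0]) (p1.nb_ne 0)) _
      rcases cn_zip_v p1 p2 u with ⟨u, h, rfl⟩ | ⟨u, h, rfl⟩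
      · exact hL u h
      · have hu' : u ∉ cn_sr p1 p2 S := by rw [cn_mem_sr]; rintro ⟨_, h⟩; exact hu h
        obtain ⟨i, hi, hr⟩ := cn_side_a h2 p2 (cn_sr p1 p2 S) (by omega) hn2 u hu' h
        exact ((cn_rch_r p1 p2 S h hr (p2.nb_ne i)).trans
          (cn_rch_leg p1 p2 S i (by simp [ha0]) hi).symm).trans (hL _ _)
  · have hb0 : cn_sr p1 p2 S = ∅ := Finset.card_eq_zero.mp (by omega)
    refine ⟨cn_zr p1 p2 (p2.nb 0) (p2.nb_ne 0), fun u hu => ?_⟩
    have hR : ∀ u, (h : u ≠ v2) → (zip G1 G2 p1 p2).CnRch S (cn_zr p1 p2 u h)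
        (cn_zr p1 p2 (p2.nb 0) (p2.nb_ne 0)) := fun u h =>
      cn_rch_r p1 p2 S h (cn_side_b h2 _ (by simp [hb0]) u _ (by simp [hb0]) h (by simp [hb0])
        (p2.nb_ne 0)) _
    rcases cn_zip_v p1 p2 u with ⟨u, h, rfl⟩ | ⟨u, h, rfl⟩
    · have hu' : u ∉ cn_sl p1 p2 S := by rw [cn_mem_sl]; rintro ⟨_, h⟩; exact hu h
      obtain ⟨i, hi, hr⟩ := cn_side_a h1 p1 (cn_sl p1 p2 S) (by omega) hn1 u hu' h
      exact ((cn_rch_l p1 p2 S h hr (p1.nb_ne i)).trans
        (cn_rch_leg p1 p2 S i hi (by simp [hb0]))).trans (hR _ _)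
    · exact hR u h

/-! ### degrees -/

theorem Port.cn_inc_iff {G : Gph} {v : G.V} (p : Port G v) (i : Fin 3) {u : G.V} (hu : u ≠ v) :
    (G.a (p.e i) = u ∨ G.b (p.e i) = u) ↔ p.nb i = u := by
  rcases p.ends i with ⟨h1, h2⟩ | ⟨h1, h2⟩ <;> rw [h1, h2]
  · constructor
    · rintro (h | h)
      · exact absurd h.symm hu
      · exact h
    · exact Or.inr
  · constructor
    · rintro (h | h)
      · exact h
      · exact absurd h.symm hu
    · exact Or.inl

theorem Port.cn_at_v {G : Gph} {v : G.V} (p : Port G v) (i : Fin 3) :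
    ¬ (G.a (p.e i) ≠ v ∧ G.b (p.e i) ≠ v) := by
  rcases p.ends i with ⟨h1, h2⟩ | ⟨h1, h2⟩ <;> rw [h1, h2] <;> simp

theorem zip_deg_left {G1 G2 : Gph} {v1 : G1.V} {v2 : G2.V} (p1 : Port G1 v1) (p2 : Port G2 v2)
    (h1 : G1.Simple) (u : {u : G1.V // u ≠ v1}) :
    (zip G1 G2 p1 p2).deg (.inl u) = G1.deg u.1 := by
  obtain ⟨u, hu⟩ := u
  change (zip G1 G2 p1 p2).deg (cn_zl p1 p2 u hu) = G1.deg u
  unfold deg
  refine Finset.card_bij (fun e _ => match e with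
    | .inl e => e.1
    | .inr (.inl _) => p1.e 0
    | .inr (.inr i) => p1.e i) ?_ ?_ ?_
  · intro e he
    simp only [Finset.mem_filter, Finset.mem_univ, true_and] at he ⊢
    rcases cn_zip_e p1 p2 e with ⟨e, h, rfl⟩ | ⟨e, h, rfl⟩ | ⟨i, rfl⟩
    · change G1.a e = u ∨ G1.b e = u
      simpa using he
    · simp at he
    · simp at he
      exact (p1.cn_inc_iff i hu).mpr he
  · intro e he f hf H
    simp only [Finset.mem_filter, Finset.mem_univ, true_and] at he hf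
    rcases cn_zip_e p1 p2 e with ⟨e, h, rfl⟩ | ⟨e, h, rfl⟩ | ⟨i, rfl⟩ <;>
    rcases cn_zip_e p1 p2 f with ⟨f, h', rfl⟩ | ⟨f, h', rfl⟩ | ⟨j, rfl⟩
    · exact (cn_el_inj p1 p2).mpr H
    · simp at hf
    · have H' : e = p1.e j := H
      subst H'
      exact absurd h (p1.cn_at_v j)
    · simp at he
    · simp at he
    · simp at he
    · have H' : p1.e i = f := H
      subst H'
      exact absurd h' (p1.cn_at_v i)
    · simp at hf
    · exact (cn_leg_inj p1 p2).mpr (p1.e_inj H)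
  · intro f hf
    simp only [Finset.mem_filter, Finset.mem_univ, true_and] at hf
    by_cases h : G1.a f ≠ v1 ∧ G1.b f ≠ v1
    · exact ⟨cn_el p1 p2 f h, by simpa using hf, rfl⟩
    · obtain ⟨i, rfl⟩ := p1.all f (by by_contra h'; push Not at h'; exact h h')
      exact ⟨cn_leg p1 p2 i, by simpa using (p1.cn_inc_iff i hu).mp hf, rfl⟩

theorem zip_deg_right {G1 G2 : Gph} {v1 : G1.V} {v2 : G2.V} (p1 : Port G1 v1) (p2 : Port G2 v2)
    (h2 : G2.Simple) (u : {u : G2.V // u ≠ v2}) :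
    (zip G1 G2 p1 p2).deg (.inr u) = G2.deg u.1 := by
  obtain ⟨u, hu⟩ := u
  change (zip G1 G2 p1 p2).deg (cn_zr p1 p2 u hu) = G2.deg u
  unfold deg
  refine Finset.card_bij (fun e _ => match e with
    | .inl _ => p2.e 0
    | .inr (.inl e) => e.1
    | .inr (.inr i) => p2.e i) ?_ ?_ ?_
  · intro e he
    simp only [Finset.mem_filter, Finset.mem_univ, true_and] at he ⊢
    rcases cn_zip_e p1 p2 e with ⟨e, h, rfl⟩ | ⟨e, h, rfl⟩ | ⟨i, rfl⟩
    · simp at he
    · change G2.a e = u ∨ G2.b e = u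
      simpa using he
    · simp at he
      exact (p2.cn_inc_iff i hu).mpr he
  · intro e he f hf H
    simp only [Finset.mem_filter, Finset.mem_univ, true_and] at he hf
    rcases cn_zip_e p1 p2 e with ⟨e, h, rfl⟩ | ⟨e, h, rfl⟩ | ⟨i, rfl⟩ <;>
    rcases cn_zip_e p1 p2 f with ⟨f, h', rfl⟩ | ⟨f, h', rfl⟩ | ⟨j, rfl⟩
    · simp at he
    · simp at he
    · simp at he
    · simp at hf
    · exact (cn_er_inj p1 p2).mpr H
    · have H' : e = p2.e j := H
      subst H'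
      exact absurd h (p2.cn_at_v j)
    · simp at hf
    · have H' : p2.e i = f := H
      subst H'
      exact absurd h' (p2.cn_at_v i)
    · exact (cn_leg_inj p1 p2).mpr (p2.e_inj H)
  · intro f hf
    simp only [Finset.mem_filter, Finset.mem_univ, true_and] at hf
    by_cases h : G2.a f ≠ v2 ∧ G2.b f ≠ v2
    · exact ⟨cn_er p1 p2 f h, by simpa using hf, rfl⟩
    · obtain ⟨i, rfl⟩ := p2.all f (by by_contra h'; push Not at h'; exact h h')
      exact ⟨cn_leg p1 p2 i, by simpa using (p2.cn_inc_iff i hu).mp hf, rfl⟩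

/-! ### K33 -/

theorem CnK33_simple : K33.Simple := by
  refine ⟨?_, ?_⟩
  · intro e; simp [K33]
  · intro e f h
    have : s((false, e.1), (true, e.2)) = s((false, f.1), (true, f.2)) := h
    simp only [Sym2.eq_iff, Prod.mk.injEq, true_and, Bool.false_eq_true, false_and, and_false, or_false,
      Bool.true_eq_false] at this
    exact Prod.ext this.1 this.2

theorem CnK33_adj (i j : Fin 3) : K33.Adj (false, i) (true, j) := ⟨(i, j), Or.inl ⟨rfl, rfl⟩⟩

theorem cn_exists_miss (S : Finset K33.V) (hS : S.card ≤ 2) (b : Bool) :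
    ∃ i : Fin 3, ((b, i) : Bool × Fin 3) ∉ S := by
  by_contra H
  push Not at H
  have h : (Finset.univ : Finset (Fin 3)).map ⟨fun i => ((b, i) : Bool × Fin 3),
      fun i j h => congrArg Prod.snd h⟩ ⊆ S := by
    intro x hx
    simp only [Finset.mem_map, Finset.mem_univ, true_and, Function.Embedding.coeFn_mk] at hx
    obtain ⟨i, rfl⟩ := hx
    exact H i
  have := Finset.card_le_card h
  rw [Finset.card_map, Finset.card_univ, Fintype.card_fin] at this
  exact absurd (this.trans hS) (by norm_num)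

theorem CnK33_threeConn : K33.ThreeConn := by
  apply ThreeConn.cn_of_root
  · change 4 ≤ Fintype.card (Bool × Fin 3)
    simp
  intro S hS
  obtain ⟨i, hi⟩ := cn_exists_miss S hS false
  obtain ⟨j, hj⟩ := cn_exists_miss S hS true
  refine ⟨(false, i), ?_⟩
  rintro ⟨b, k⟩ hu
  cases b
  · refine Relation.ReflTransGen.head (b := ((true, j) : K33.V)) ⟨CnK33_adj k j, hu, hj⟩ ?_
    exact Relation.ReflTransGen.single ⟨(CnK33_adj i j).cn_symm, hj, hi⟩
  · exact Relation.ReflTransGen.single ⟨(CnK33_adj i k).cn_symm, hu, hi⟩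

def cn_portK (i : Fin 3) : Port K33 (false, i) where
  e := fun j => (i, j)
  nb := fun j => (true, j)
  e_inj := fun j k h => congrArg Prod.snd h
  nb_inj := fun j k h => congrArg Prod.snd h
  nb_ne := fun j h => Bool.noConfusion (congrArg Prod.fst h)
  ends := fun j => Or.inl ⟨rfl, rfl⟩
  all := by
    rintro ⟨f1, f2⟩ (h | h)
    · have h' : ((false, f1) : Bool × Fin 3) = (false, i) := h
      simp at h'
      exact ⟨f2, by rw [h']⟩
    · have h' : ((true, f2) : Bool × Fin 3) = (false, i) := h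
      simp at h'

/-! ### pushing chains -/

theorem cn_bd_singleton (G : Gph) (e : G.E) : G.bd {e} = G.one (G.a e) + G.one (G.b e) := by
  funext v
  simp [bd, one]

theorem cn_bd_union (G : Gph) (c d : Finset G.E) (h : Disjoint c d) :
    G.bd (c ∪ d) = G.bd c + G.bd d := by
  funext v
  simp only [bd, Pi.add_apply]
  rw [Finset.sum_union h]

theorem cn_bd_biUnion {G H : Gph} (φ : G.E → Finset H.E) (c : Finset G.E)
    (hd : ∀ e ∈ c, ∀ f ∈ c, e ≠ f → Disjoint (φ e) (φ f)) (w : H.V) :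
    H.bd (c.biUnion φ) w = ∑ e ∈ c, H.bd (φ e) w := by
  simp only [bd]
  rw [Finset.sum_biUnion]
  intro e he f hf hef
  exact hd e he f hf hef

theorem cn_bd_push {G H : Gph} (φ : G.E → Finset H.E) (ψ : G.V → H.V) (c : Finset G.E)
    (hb : ∀ e ∈ c, H.bd (φ e) = H.one (ψ (G.a e)) + H.one (ψ (G.b e)))
    (hd : ∀ e ∈ c, ∀ f ∈ c, e ≠ f → Disjoint (φ e) (φ f)) (x y : G.V)
    (h : G.bd c = G.one x + G.one y) :
    H.bd (c.biUnion φ) = H.one (ψ x) + H.one (ψ y) := by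
  funext w
  have key : ∀ z : G.V, H.one (ψ z) w = ∑ u : G.V, (if ψ u = w then G.one z u else 0) := by
    intro z
    rw [Finset.sum_eq_single z]
    · simp [one]
    · intro b _ hb
      simp [one, Ne.symm hb]
    · intro hz; exact absurd (Finset.mem_univ _) hz
  rw [cn_bd_biUnion φ c hd w, Pi.add_apply, key x, key y, ← Finset.sum_add_distrib]
  have e1 : ∀ e ∈ c, H.bd (φ e) w =
      ∑ u : G.V, (if ψ u = w then (G.one (G.a e) u + G.one (G.b e) u) else 0) := by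
    intro e he
    rw [hb e he, Pi.add_apply, key, key, ← Finset.sum_add_distrib]
    refine Finset.sum_congr rfl fun u _ => ?_
    split_ifs <;> simp
  rw [Finset.sum_congr rfl e1, Finset.sum_comm]
  refine Finset.sum_congr rfl fun u _ => ?_
  have h' := congrFun h u
  by_cases hu : ψ u = w
  · simp only [hu, if_true]
    rw [Pi.add_apply] at h'
    rw [← h']
    rfl
  · simp [hu]

theorem HasTri2.cn_push {G H : Gph} {v : G.V} {v' : H.V} {p : Port G v} {q : Port H v'}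
    (φ : G.E → Finset H.E) (ψ : G.V → H.V)
    (hb : ∀ e, H.bd (φ e) = H.one (ψ (G.a e)) + H.one (ψ (G.b e)))
    (hd : ∀ e f, e ≠ f → Disjoint (φ e) (φ f))
    (hav : ∀ e, (G.a e ≠ v ∧ G.b e ≠ v) → ∀ f ∈ φ e, H.a f ≠ v' ∧ H.b f ≠ v')
    (hψ : ∀ c, c ≠ v → ψ c ≠ v') (hn : ∀ i, ψ (p.nb i) = q.nb i) (h : G.HasTri2 p) :
    H.HasTri2 q := by
  obtain ⟨t1, t2, h12⟩ := h
  have hdis : ∀ c d : Finset G.E, Disjoint c d → Disjoint (c.biUnion φ) (d.biUnion φ) := by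
    intro c d hcd
    rw [Finset.disjoint_biUnion_left]
    intro e he
    rw [Finset.disjoint_biUnion_right]
    intro f hf
    exact hd e f (fun h => Finset.disjoint_left.mp hcd he (h ▸ hf))
  let P : Tripod G p → Tripod H q := fun t =>
    { c := ψ t.c
      t := fun i => (t.t i).biUnion φ
      c_ne := hψ _ t.c_ne
      avoid := by
        intro i f hf
        rw [Finset.mem_biUnion] at hf
        obtain ⟨e, he, hf⟩ := hf
        exact hav e (t.avoid i e he) f hf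
      bd := by
        intro i
        rw [cn_bd_push φ ψ (t.t i) (fun e _ => hb e) (fun e _ f _ => hd e f) _ _ (t.bd i), hn]
      disj := fun i j hij => hdis _ _ (t.disj i j hij) }
  exact ⟨P t1, P t2, fun i j => hdis _ _ (h12 i j)⟩

section ziptri

variable {G1 G2 : Gph} {v1 : G1.V} {v2 : G2.V} (p1 : Port G1 v1) (p2 : Port G2 v2)

/-! the left side -/

/-- edges of `G2` in the zip -/
def cn_fr (e : G2.E) : Finset (zip G1 G2 p1 p2).E :=
  if h : G2.a e ≠ v2 ∧ G2.b e ≠ v2 then {cn_er p1 p2 e h} else ∅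

/-- edges of `G1` in the zip -/
def cn_fl (e : G1.E) : Finset (zip G1 G2 p1 p2).E :=
  if h : G1.a e ≠ v1 ∧ G1.b e ≠ v1 then {cn_el p1 p2 e h} else ∅

theorem cn_mem_fr {e : G2.E} {x} (hx : x ∈ cn_fr p1 p2 e) : ∃ h, x = cn_er p1 p2 e h := by
  unfold cn_fr at hx
  split_ifs at hx with h
  · exact ⟨h, Finset.mem_singleton.mp hx⟩
  · simp at hx

theorem cn_mem_fl {e : G1.E} {x} (hx : x ∈ cn_fl p1 p2 e) : ∃ h, x = cn_el p1 p2 e h := by
  unfold cn_fl at hx
  split_ifs at hx with h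
  · exact ⟨h, Finset.mem_singleton.mp hx⟩
  · simp at hx

theorem cn_fr_disj (e f : G2.E) (h : e ≠ f) : Disjoint (cn_fr p1 p2 e) (cn_fr p1 p2 f) := by
  rw [Finset.disjoint_left]
  intro x hx hy
  obtain ⟨h1, rfl⟩ := cn_mem_fr p1 p2 hx
  obtain ⟨h2, h3⟩ := cn_mem_fr p1 p2 hy
  exact h ((cn_er_inj p1 p2).mp h3)

theorem cn_fl_disj (e f : G1.E) (h : e ≠ f) : Disjoint (cn_fl p1 p2 e) (cn_fl p1 p2 f) := by
  rw [Finset.disjoint_left]
  intro x hx hy
  obtain ⟨h1, rfl⟩ := cn_mem_fl p1 p2 hx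
  obtain ⟨h2, h3⟩ := cn_mem_fl p1 p2 hy
  exact h ((cn_el_inj p1 p2).mp h3)

theorem cn_bd_fr (c : Finset G2.E) (hc : ∀ f ∈ c, G2.a f ≠ v2 ∧ G2.b f ≠ v2) {x y : G2.V}
    (hx : x ≠ v2) (hy : y ≠ v2) (h : G2.bd c = G2.one x + G2.one y) :
    (zip G1 G2 p1 p2).bd (c.biUnion (cn_fr p1 p2)) =
      (zip G1 G2 p1 p2).one (cn_zr p1 p2 x hx) + (zip G1 G2 p1 p2).one (cn_zr p1 p2 y hy) := by
  have := cn_bd_push (H := zip G1 G2 p1 p2) (cn_fr p1 p2)
    (fun u => if h : u ≠ v2 then cn_zr p1 p2 u h else cn_zl p1 p2 (p1.nb 0) (p1.nb_ne 0)) c ?_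
    (fun e _ f _ => cn_fr_disj p1 p2 e f) x y h
  · rw [this]
    simp only [hx, hy, ne_eq, not_false_eq_true, dite_true]
  · intro e he
    have h' := hc e he
    unfold cn_fr
    rw [dif_pos h', cn_bd_singleton, cn_a_er, cn_b_er]
    simp only [h'.1, h'.2, ne_eq, not_false_eq_true, dite_true]

theorem cn_bd_fl (c : Finset G1.E) (hc : ∀ f ∈ c, G1.a f ≠ v1 ∧ G1.b f ≠ v1) {x y : G1.V}
    (hx : x ≠ v1) (hy : y ≠ v1) (h : G1.bd c = G1.one x + G1.one y) :
    (zip G1 G2 p1 p2).bd (c.biUnion (cn_fl p1 p2)) =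
      (zip G1 G2 p1 p2).one (cn_zl p1 p2 x hx) + (zip G1 G2 p1 p2).one (cn_zl p1 p2 y hy) := by
  have := cn_bd_push (H := zip G1 G2 p1 p2) (cn_fl p1 p2)
    (fun u => if h : u ≠ v1 then cn_zl p1 p2 u h else cn_zr p1 p2 (p2.nb 0) (p2.nb_ne 0)) c ?_
    (fun e _ f _ => cn_fl_disj p1 p2 e f) x y h
  · rw [this]
    simp only [hx, hy, ne_eq, not_false_eq_true, dite_true]
  · intro e he
    have h' := hc e he
    unfold cn_fl
    rw [dif_pos h', cn_bd_singleton, cn_a_el, cn_b_el]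
    simp only [h'.1, h'.2, ne_eq, not_false_eq_true, dite_true]

open Classical in
/-- the edge map `G1 → zip`, the vertex `v1` being replaced by the tripod `T` -/
noncomputable def cn_phiL (T : Tripod G2 p2) (e : G1.E) : Finset (zip G1 G2 p1 p2).E :=
  if h : G1.a e ≠ v1 ∧ G1.b e ≠ v1 then {cn_el p1 p2 e h} else
    (Finset.univ.filter (fun i => p1.e i = e)).biUnion
      (fun i => {cn_leg p1 p2 i} ∪ (T.t i).biUnion (cn_fr p1 p2))

theorem cn_phiL_e (T : Tripod G2 p2) (i : Fin 3) :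
    cn_phiL p1 p2 T (p1.e i) = {cn_leg p1 p2 i} ∪ (T.t i).biUnion (cn_fr p1 p2) := by
  classical
  unfold cn_phiL
  rw [dif_neg (p1.cn_at_v i)]
  have : (Finset.univ.filter (fun j => p1.e j = p1.e i)) = {i} := by
    ext j
    simp [p1.e_inj.eq_iff]
  rw [this, Finset.singleton_biUnion]

theorem cn_phiL_pos (T : Tripod G2 p2) (e : G1.E) (h : G1.a e ≠ v1 ∧ G1.b e ≠ v1) :
    cn_phiL p1 p2 T e = {cn_el p1 p2 e h} := by
  unfold cn_phiL
  rw [dif_pos h]

theorem cn_edge_cases {G : Gph} {v : G.V} (p : Port G v) (e : G.E) :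
    (G.a e ≠ v ∧ G.b e ≠ v) ∨ ∃ i, e = p.e i := by
  by_cases h : G.a e ≠ v ∧ G.b e ≠ v
  · exact Or.inl h
  · exact Or.inr (p.all e (by by_contra h'; push Not at h'; exact h h'))

theorem cn_leg_disj_fr (i : Fin 3) (c : Finset G2.E) :
    Disjoint {cn_leg p1 p2 i} (c.biUnion (cn_fr p1 p2)) := by
  rw [Finset.disjoint_singleton_left, Finset.mem_biUnion]
  rintro ⟨e, _, he⟩
  obtain ⟨h, he⟩ := cn_mem_fr p1 p2 he
  exact cn_er_ne_leg p1 p2 he.symm

theorem cn_leg_disj_fl (i : Fin 3) (c : Finset G1.E) :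
    Disjoint {cn_leg p1 p2 i} (c.biUnion (cn_fl p1 p2)) := by
  rw [Finset.disjoint_singleton_left, Finset.mem_biUnion]
  rintro ⟨e, _, he⟩
  obtain ⟨h, he⟩ := cn_mem_fl p1 p2 he
  exact cn_el_ne_leg p1 p2 he.symm

/-- the port of the zip on the left side -/
def cn_portL {v : G1.V} (p : Port G1 v) (hv : v ≠ v1) (hn : ∀ i, p.nb i ≠ v1) :
    Port (zip G1 G2 p1 p2) (cn_zl p1 p2 v hv) where
  e := fun i => cn_el p1 p2 (p.e i) (by
    rcases p.ends i with ⟨h1, h2⟩ | ⟨h1, h2⟩ <;> rw [h1, h2]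
    · exact ⟨hv, hn i⟩
    · exact ⟨hn i, hv⟩)
  nb := fun i => cn_zl p1 p2 (p.nb i) (hn i)
  e_inj := fun i j h => p.e_inj ((cn_el_inj p1 p2).mp h)
  nb_inj := fun i j h => p.nb_inj ((cn_zl_inj p1 p2).mp h)
  nb_ne := fun i h => p.nb_ne i ((cn_zl_inj p1 p2).mp h)
  ends := fun i => by simpa using p.ends i
  all := by
    intro f hf
    rcases cn_zip_e p1 p2 f with ⟨f, h, rfl⟩ | ⟨f, h, rfl⟩ | ⟨j, rfl⟩
    · obtain ⟨i, rfl⟩ := p.all f (by simpa using hf)
      exact ⟨i, rfl⟩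
    · simp at hf
    · simp at hf
      exfalso
      obtain ⟨i, hi⟩ := p.all (p1.e j) ((p1.cn_inc_iff j hv).mpr hf)
      have h1 := p1.ends j
      have h2 := p.ends i
      rw [← hi] at h2
      rcases h1 with ⟨h1, h1'⟩ | ⟨h1, h1'⟩ <;> rcases h2 with ⟨h2, h2'⟩ | ⟨h2, h2'⟩
      · exact hv (h2.symm.trans h1)
      · exact hn i (h2.symm.trans h1)
      · exact hn i (h2'.symm.trans h1')
      · exact hv (h2'.symm.trans h1')

/-- the port of the zip on the right side -/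
def cn_portR {v : G2.V} (p : Port G2 v) (hv : v ≠ v2) (hn : ∀ i, p.nb i ≠ v2) :
    Port (zip G1 G2 p1 p2) (cn_zr p1 p2 v hv) where
  e := fun i => cn_er p1 p2 (p.e i) (by
    rcases p.ends i with ⟨h1, h2⟩ | ⟨h1, h2⟩ <;> rw [h1, h2]
    · exact ⟨hv, hn i⟩
    · exact ⟨hn i, hv⟩)
  nb := fun i => cn_zr p1 p2 (p.nb i) (hn i)
  e_inj := fun i j h => p.e_inj ((cn_er_inj p1 p2).mp h)
  nb_inj := fun i j h => p.nb_inj ((cn_zr_inj p1 p2).mp h)
  nb_ne := fun i h => p.nb_ne i ((cn_zr_inj p1 p2).mp h)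
  ends := fun i => by simpa using p.ends i
  all := by
    intro f hf
    rcases cn_zip_e p1 p2 f with ⟨f, h, rfl⟩ | ⟨f, h, rfl⟩ | ⟨j, rfl⟩
    · simp at hf
    · obtain ⟨i, rfl⟩ := p.all f (by simpa using hf)
      exact ⟨i, rfl⟩
    · simp at hf
      exfalso
      obtain ⟨i, hi⟩ := p.all (p2.e j) ((p2.cn_inc_iff j hv).mpr hf)
      have h1 := p2.ends j
      have h2 := p.ends i
      rw [← hi] at h2
      rcases h1 with ⟨h1, h1'⟩ | ⟨h1, h1'⟩ <;> rcases h2 with ⟨h2, h2'⟩ | ⟨h2, h2'⟩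
      · exact hv (h2.symm.trans h1)
      · exact hn i (h2.symm.trans h1)
      · exact hn i (h2'.symm.trans h1')
      · exact hv (h2'.symm.trans h1')

theorem cn_add_cancel_mid {H : Gph} (x y z : H.V) :
    (H.one x + H.one y) + (H.one y + H.one z) = H.one x + H.one z := by
  funext w
  simp only [Pi.add_apply]
  have : H.one y w + H.one y w = 0 := CharTwo.add_self_eq_zero _
  linear_combination this

theorem cn_tri_left {v : G1.V} (p : Port G1 v) (hv : v ≠ v1) (hn : ∀ i, p.nb i ≠ v1)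
    (h : G1.HasTri2 p) (T : Tripod G2 p2) :
    (zip G1 G2 p1 p2).HasTri2 (cn_portL p1 p2 p hv hn) := by
  refine h.cn_push (cn_phiL p1 p2 T)
    (fun u => if h : u ≠ v1 then cn_zl p1 p2 u h else cn_zr p1 p2 T.c T.c_ne) ?_ ?_ ?_ ?_ ?_
  · intro e
    rcases cn_edge_cases p1 e with h | ⟨i, rfl⟩
    · rw [cn_phiL_pos p1 p2 T e h, cn_bd_singleton]
      simp [h.1, h.2]
    · rw [cn_phiL_e, cn_bd_union _ _ _ (cn_leg_disj_fr p1 p2 i _), cn_bd_singleton,
        cn_bd_fr p1 p2 (T.t i) (T.avoid i) (p2.nb_ne i) T.c_ne (T.bd i), cn_a_leg, cn_b_leg,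
        cn_add_cancel_mid]
      rcases p1.ends i with ⟨h1, h2⟩ | ⟨h1, h2⟩ <;> rw [h1, h2]
      · simp [p1.nb_ne i, add_comm]
      · simp [p1.nb_ne i]
  · intro e f hef
    rw [Finset.disjoint_left]
    intro x hx hy
    rcases cn_edge_cases p1 e with h | ⟨i, rfl⟩ <;> rcases cn_edge_cases p1 f with h' | ⟨j, rfl⟩
    · rw [cn_phiL_pos p1 p2 T _ h, Finset.mem_singleton] at hx
      rw [cn_phiL_pos p1 p2 T _ h', Finset.mem_singleton] at hy
      exact hef ((cn_el_inj p1 p2).mp (hx.symm.trans hy))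
    · rw [cn_phiL_pos p1 p2 T _ h, Finset.mem_singleton] at hx
      subst hx
      rw [cn_phiL_e, Finset.mem_union, Finset.mem_singleton, Finset.mem_biUnion] at hy
      rcases hy with hy | ⟨g, _, hy⟩
      · exact cn_el_ne_leg p1 p2 hy
      · obtain ⟨_, hy⟩ := cn_mem_fr p1 p2 hy
        exact cn_el_ne_er p1 p2 hy
    · rw [cn_phiL_pos p1 p2 T _ h', Finset.mem_singleton] at hy
      subst hy
      rw [cn_phiL_e, Finset.mem_union, Finset.mem_singleton, Finset.mem_biUnion] at hx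
      rcases hx with hx | ⟨g, _, hx⟩
      · exact cn_el_ne_leg p1 p2 hx
      · obtain ⟨_, hx⟩ := cn_mem_fr p1 p2 hx
        exact cn_el_ne_er p1 p2 hx
    · have hij : i ≠ j := fun h => hef (by rw [h])
      rw [cn_phiL_e, Finset.mem_union, Finset.mem_singleton, Finset.mem_biUnion] at hx hy
      rcases hx with hx | ⟨g, hg, hx⟩ <;> rcases hy with hy | ⟨g', hg', hy⟩
      · exact hij ((cn_leg_inj p1 p2).mp (hx.symm.trans hy))
      · obtain ⟨_, hy⟩ := cn_mem_fr p1 p2 hy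
        exact cn_er_ne_leg p1 p2 (hy.symm.trans hx)
      · obtain ⟨_, hx⟩ := cn_mem_fr p1 p2 hx
        exact cn_er_ne_leg p1 p2 (hx.symm.trans hy)
      · obtain ⟨_, hx⟩ := cn_mem_fr p1 p2 hx
        obtain ⟨_, hy⟩ := cn_mem_fr p1 p2 hy
        have := (cn_er_inj p1 p2).mp (hx.symm.trans hy)
        subst this
        exact Finset.disjoint_left.mp (T.disj i j hij) hg hg'
  · intro e he f hf
    rcases cn_edge_cases p1 e with h | ⟨i, rfl⟩
    · rw [cn_phiL_pos p1 p2 T _ h, Finset.mem_singleton] at hf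
      subst hf
      simpa using he
    · rw [cn_phiL_e, Finset.mem_union, Finset.mem_singleton, Finset.mem_biUnion] at hf
      rcases hf with rfl | ⟨g, _, hf⟩
      · simp only [cn_a_leg, cn_b_leg, ne_eq, cn_zl_inj, cn_zr_eq_zl, not_false_eq_true, and_true]
        rcases p1.ends i with ⟨h1, h2⟩ | ⟨h1, h2⟩ <;> rw [h1, h2] at he
        · exact he.2
        · exact he.1
      · obtain ⟨_, rfl⟩ := cn_mem_fr p1 p2 hf
        simp
  · intro c hc
    by_cases h : c ≠ v1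
    · rw [dif_pos h]
      simpa using hc
    · rw [dif_neg h]
      simp
  · intro i
    rw [dif_pos (hn i)]
    rfl

/-! the right side -/

open Classical in
/-- the edge map `G2 → zip`, the vertex `v2` being replaced by the tripod `T` -/
noncomputable def cn_phiR (T : Tripod G1 p1) (e : G2.E) : Finset (zip G1 G2 p1 p2).E :=
  if h : G2.a e ≠ v2 ∧ G2.b e ≠ v2 then {cn_er p1 p2 e h} else
    (Finset.univ.filter (fun i => p2.e i = e)).biUnion
      (fun i => {cn_leg p1 p2 i} ∪ (T.t i).biUnion (cn_fl p1 p2))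

theorem cn_phiR_e (T : Tripod G1 p1) (i : Fin 3) :
    cn_phiR p1 p2 T (p2.e i) = {cn_leg p1 p2 i} ∪ (T.t i).biUnion (cn_fl p1 p2) := by
  classical
  unfold cn_phiR
  rw [dif_neg (p2.cn_at_v i)]
  have : (Finset.univ.filter (fun j => p2.e j = p2.e i)) = {i} := by
    ext j
    simp [p2.e_inj.eq_iff]
  rw [this, Finset.singleton_biUnion]

theorem cn_phiR_pos (T : Tripod G1 p1) (e : G2.E) (h : G2.a e ≠ v2 ∧ G2.b e ≠ v2) :
    cn_phiR p1 p2 T e = {cn_er p1 p2 e h} := by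
  unfold cn_phiR
  rw [dif_pos h]

theorem cn_tri_right {v : G2.V} (p : Port G2 v) (hv : v ≠ v2) (hn : ∀ i, p.nb i ≠ v2)
    (h : G2.HasTri2 p) (T : Tripod G1 p1) :
    (zip G1 G2 p1 p2).HasTri2 (cn_portR p1 p2 p hv hn) := by
  refine h.cn_push (cn_phiR p1 p2 T)
    (fun u => if h : u ≠ v2 then cn_zr p1 p2 u h else cn_zl p1 p2 T.c T.c_ne) ?_ ?_ ?_ ?_ ?_
  · intro e
    rcases cn_edge_cases p2 e with h | ⟨i, rfl⟩
    · rw [cn_phiR_pos p1 p2 T e h, cn_bd_singleton]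
      simp [h.1, h.2]
    · rw [cn_phiR_e, cn_bd_union _ _ _ (cn_leg_disj_fl p1 p2 i _), cn_bd_singleton,
        cn_bd_fl p1 p2 (T.t i) (T.avoid i) (p1.nb_ne i) T.c_ne (T.bd i), cn_a_leg, cn_b_leg,
        add_comm ((zip G1 G2 p1 p2).one (cn_zl p1 p2 (p1.nb i) (p1.nb_ne i))) _,
        cn_add_cancel_mid]
      rcases p2.ends i with ⟨h1, h2⟩ | ⟨h1, h2⟩ <;> rw [h1, h2]
      · simp [p2.nb_ne i, add_comm]
      · simp [p2.nb_ne i]
  · intro e f hef
    rw [Finset.disjoint_left]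
    intro x hx hy
    rcases cn_edge_cases p2 e with h | ⟨i, rfl⟩ <;> rcases cn_edge_cases p2 f with h' | ⟨j, rfl⟩
    · rw [cn_phiR_pos p1 p2 T _ h, Finset.mem_singleton] at hx
      rw [cn_phiR_pos p1 p2 T _ h', Finset.mem_singleton] at hy
      exact hef ((cn_er_inj p1 p2).mp (hx.symm.trans hy))
    · rw [cn_phiR_pos p1 p2 T _ h, Finset.mem_singleton] at hx
      subst hx
      rw [cn_phiR_e, Finset.mem_union, Finset.mem_singleton, Finset.mem_biUnion] at hy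
      rcases hy with hy | ⟨g, _, hy⟩
      · exact cn_er_ne_leg p1 p2 hy
      · obtain ⟨_, hy⟩ := cn_mem_fl p1 p2 hy
        exact cn_el_ne_er p1 p2 hy.symm
    · rw [cn_phiR_pos p1 p2 T _ h', Finset.mem_singleton] at hy
      subst hy
      rw [cn_phiR_e, Finset.mem_union, Finset.mem_singleton, Finset.mem_biUnion] at hx
      rcases hx with hx | ⟨g, _, hx⟩
      · exact cn_er_ne_leg p1 p2 hx
      · obtain ⟨_, hx⟩ := cn_mem_fl p1 p2 hx
        exact cn_el_ne_er p1 p2 hx.symm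
    · have hij : i ≠ j := fun h => hef (by rw [h])
      rw [cn_phiR_e, Finset.mem_union, Finset.mem_singleton, Finset.mem_biUnion] at hx hy
      rcases hx with hx | ⟨g, hg, hx⟩ <;> rcases hy with hy | ⟨g', hg', hy⟩
      · exact hij ((cn_leg_inj p1 p2).mp (hx.symm.trans hy))
      · obtain ⟨_, hy⟩ := cn_mem_fl p1 p2 hy
        exact cn_el_ne_leg p1 p2 (hy.symm.trans hx)
      · obtain ⟨_, hx⟩ := cn_mem_fl p1 p2 hx
        exact cn_el_ne_leg p1 p2 (hx.symm.trans hy)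
      · obtain ⟨_, hx⟩ := cn_mem_fl p1 p2 hx
        obtain ⟨_, hy⟩ := cn_mem_fl p1 p2 hy
        have := (cn_el_inj p1 p2).mp (hx.symm.trans hy)
        subst this
        exact Finset.disjoint_left.mp (T.disj i j hij) hg hg'
  · intro e he f hf
    rcases cn_edge_cases p2 e with h | ⟨i, rfl⟩
    · rw [cn_phiR_pos p1 p2 T _ h, Finset.mem_singleton] at hf
      subst hf
      simpa using he
    · rw [cn_phiR_e, Finset.mem_union, Finset.mem_singleton, Finset.mem_biUnion] at hf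
      rcases hf with rfl | ⟨g, _, hf⟩
      · simp only [cn_a_leg, cn_b_leg, ne_eq, cn_zr_inj, cn_zl_eq_zr, not_false_eq_true, true_and]
        rcases p2.ends i with ⟨h1, h2⟩ | ⟨h1, h2⟩ <;> rw [h1, h2] at he
        · exact he.2
        · exact he.1
      · obtain ⟨_, rfl⟩ := cn_mem_fl p1 p2 hf
        simp
  · intro c hc
    by_cases h : c ≠ v2
    · rw [dif_pos h]
      simpa using hc
    · rw [dif_neg h]
      simp
  · intro i
    rw [dif_pos (hn i)]
    rfl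

end ziptri

theorem Port.cn_nb_adj {G : Gph} {v : G.V} (p : Port G v) (i : Fin 3) : G.Adj v (p.nb i) :=
  ⟨p.e i, p.ends i⟩

/-- edges of `K33` -/
def cn_kE (i j : Fin 3) : K33.E := (i, j)

/-- vertices of `K33` -/
def cn_kV (b : Bool) (j : Fin 3) : K33.V := (b, j)

theorem cn_kE_inj {i j i' j' : Fin 3} (h : cn_kE i j = cn_kE i' j') : i = i' ∧ j = j' :=
  ⟨congrArg Prod.fst h, congrArg Prod.snd h⟩

/-- tripods in `K33` -/
def cn_triK (i : Fin 3) (k : Fin 3) (h : k ≠ i) : Tripod K33 (cn_portK i) where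
  c := cn_kV false k
  t := fun j => {cn_kE k j}
  c_ne := fun H => h (congrArg Prod.snd H)
  avoid := by
    intro j f hf
    rw [Finset.mem_singleton] at hf
    subst hf
    refine ⟨fun H => h (congrArg Prod.snd H), fun H => Bool.noConfusion (congrArg Prod.fst H)⟩
  bd := by
    intro j
    rw [cn_bd_singleton, add_comm]
    rfl
  disj := by
    intro j j' hj
    rw [Finset.disjoint_singleton]
    intro H
    exact hj (cn_kE_inj H).2

theorem cn_triK_2 (i k l : Fin 3) (hk : k ≠ i) (hl : l ≠ i) (hkl : k ≠ l) :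
    K33.HasTri2 (cn_portK i) := by
  refine ⟨cn_triK i k hk, cn_triK i l hl, fun j j' => ?_⟩
  change Disjoint ({cn_kE k j} : Finset K33.E) {cn_kE l j'}
  rw [Finset.disjoint_singleton]
  intro H
  exact hkl (cn_kE_inj H).1

theorem good_K33 : Nonempty (K33.Good 1) := by
  refine ⟨{ simple := CnK33_simple, conn := CnK33_threeConn, lb := K33_LB, fc := K33_FC,
            v := (false, 0), w := (false, 1), ne := ?_, nadj := ?_, pv := cn_portK 0,
            pw := cn_portK 1,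
            tv := cn_triK_2 0 1 2 (by decide) (by decide) (by decide),
            tw := cn_triK_2 1 0 2 (by decide) (by decide) (by decide),
            cv := fun i => K33_crossed _, cw := fun i => K33_crossed _ }⟩
  · intro H
    exact absurd (congrArg Prod.snd H) (by decide)
  · rintro ⟨e, ⟨_, h⟩ | ⟨_, h⟩⟩
    · exact Bool.noConfusion (congrArg Prod.fst h)
    · exact Bool.noConfusion (congrArg Prod.fst h)

theorem cn_crossed_left {G1 G2 : Gph} {v1 : G1.V} {v2 : G2.V} (p1 : Port G1 v1) (p2 : Port G2 v2)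
    (h1 : G1.Loopless) (h2 : G2.Loopless) {K1 K2 : ℕ} (f2 : G2.FC K2) (e : G1.E)
    (h : G1.a e ≠ v1 ∧ G1.b e ≠ v1) (c : G1.CrossedIn K1 e) :
    (zip G1 G2 p1 p2).CrossedIn (K1 + K2) (cn_el p1 p2 e h) := by
  obtain ⟨α, _, S1, a1, a2⟩ := c
  obtain ⟨⟨β, _, S2, b1⟩, -⟩ := f2
  obtain ⟨γ, _, S, c1, c2, -⟩ := Spine.exists_zip p1 p2 h1 h2 S1 S2
  exact ⟨γ, _, S, c1.trans (Nat.add_le_add a1 b1), c2 ⟨e, h⟩ a2⟩

theorem cn_crossed_right {G1 G2 : Gph} {v1 : G1.V} {v2 : G2.V} (p1 : Port G1 v1) (p2 : Port G2 v2)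
    (h1 : G1.Loopless) (h2 : G2.Loopless) {K1 K2 : ℕ} (f1 : G1.FC K1) (e : G2.E)
    (h : G2.a e ≠ v2 ∧ G2.b e ≠ v2) (c : G2.CrossedIn K2 e) :
    (zip G1 G2 p1 p2).CrossedIn (K1 + K2) (cn_er p1 p2 e h) := by
  obtain ⟨α, _, S2, a1, a2⟩ := c
  obtain ⟨⟨β, _, S1, b1⟩, -⟩ := f1
  obtain ⟨γ, _, S, c1, -, c2, -⟩ := Spine.exists_zip p1 p2 h1 h2 S1 S2
  exact ⟨γ, _, S, c1.trans (Nat.add_le_add b1 a1), c2 ⟨e, h⟩ a2⟩

/-- zip at `G1.w` and `G2.v`; the new graph keeps the ports `G1.v`, `G2.w` -/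
theorem good_zip {G1 G2 : Gph} {K1 K2 : ℕ} (g1 : G1.Good K1) (g2 : G2.Good K2) :
    Nonempty ((zip G1 G2 g1.pw g2.pv).Good (K1 + K2)) := by
  have hn1 : ∀ i, g1.pv.nb i ≠ g1.w := fun i h => g1.nadj (h ▸ g1.pv.cn_nb_adj i)
  have hn2 : ∀ i, g2.pw.nb i ≠ g2.v := fun i h => g2.nadj ((h ▸ g2.pw.cn_nb_adj i : G2.Adj g2.w g2.v).cn_symm)
  obtain ⟨T1, -, -⟩ := id g1.tw
  obtain ⟨T2, -, -⟩ := id g2.tv
  refine ⟨{ simple := zip_simple _ _ g1.simple g2.simple, conn := zip_threeConn _ _ g1.conn g2.conn,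
            lb := LB_zip _ _ g1.tw g2.tv g1.lb g2.lb,
            fc := FC_zip _ _ g1.simple.1 g2.simple.1 g1.fc g2.fc g1.cw,
            v := cn_zl _ _ g1.v g1.ne, w := cn_zr _ _ g2.w g2.ne.symm, ne := ?_, nadj := ?_,
            pv := cn_portL _ _ g1.pv g1.ne hn1, pw := cn_portR _ _ g2.pw g2.ne.symm hn2,
            tv := cn_tri_left _ _ g1.pv g1.ne hn1 g1.tv T2,
            tw := cn_tri_right _ _ g2.pw g2.ne.symm hn2 g2.tw T1,
            cv := fun i => cn_crossed_left _ _ g1.simple.1 g2.simple.1 g2.fc _ _ (g1.cv i),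
            cw := fun i => cn_crossed_right _ _ g1.simple.1 g2.simple.1 g1.fc _ _ (g2.cw i) }⟩
  · simp
  · rintro ⟨e, he⟩
    rcases cn_zip_e g1.pw g2.pv e with ⟨e, h, rfl⟩ | ⟨e, h, rfl⟩ | ⟨i, rfl⟩
    · simp at he
    · simp at he
    · simp at he
      exact g1.nadj ((he.1 ▸ g1.pw.cn_nb_adj i : G1.Adj g1.w g1.v).cn_symm)

theorem Good.critical {G : Gph} {K : ℕ} (g : G.Good K) : G.Critical K := by
  refine ⟨g.lb.le_cr, fun e => ?_⟩
  obtain ⟨α, _, S, hS⟩ := g.fc.2 e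
  refine lt_of_le_of_lt S.cr_le ?_
  exact_mod_cast (by omega : S.crossings.card < K)

end Gph

/-! ### assembly -/

open Gph

/-- number of vertices whose degree satisfies `P` -/
def cn_cnt (G : Gph) (P : ℕ → Prop) [DecidablePred P] : ℕ :=
  (Finset.univ.filter (fun v : G.V => P (G.deg v))).card

theorem cn_cnt_sub (G : Gph) (P : ℕ → Prop) [DecidablePred P] (w : G.V) :
    cn_cnt G P ≤ (Finset.univ.filter (fun v : {v : G.V // v ≠ w} => P (G.deg v.1))).card + 1 := by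
  unfold cn_cnt
  have : (Finset.univ.filter (fun v : G.V => P (G.deg v))) ⊆
      insert w ((Finset.univ.filter (fun v : {v : G.V // v ≠ w} => P (G.deg v.1))).map
        (Function.Embedding.subtype _)) := by
    intro v hv
    simp only [Finset.mem_filter, Finset.mem_univ, true_and] at hv
    by_cases h : v = w
    · simp [h]
    · apply Finset.mem_insert_of_mem
      simp only [Finset.mem_map, Finset.mem_filter, Finset.mem_univ, true_and,
        Function.Embedding.subtype_apply]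
      exact ⟨⟨v, h⟩, hv, rfl⟩
  refine (Finset.card_le_card this).trans ((Finset.card_insert_le _ _).trans ?_)
  rw [Finset.card_map]

theorem cn_sub_cnt (G : Gph) (P : ℕ → Prop) [DecidablePred P] (w : G.V) :
    (Finset.univ.filter (fun v : {v : G.V // v ≠ w} => P (G.deg v.1))).card ≤ cn_cnt G P := by
  unfold cn_cnt
  rw [← Finset.card_map (Function.Embedding.subtype _)]
  apply Finset.card_le_card
  intro v hv
  simp only [Finset.mem_map, Finset.mem_filter, Finset.mem_univ, true_and,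
    Function.Embedding.subtype_apply] at hv ⊢
  obtain ⟨⟨u, hu⟩, h, rfl⟩ := hv
  exact h

theorem cn_cnt_zip {G1 G2 : Gph} {v1 : G1.V} {v2 : G2.V} (p1 : Port G1 v1) (p2 : Port G2 v2)
    (h1 : G1.Simple) (h2 : G2.Simple) (P : ℕ → Prop) [DecidablePred P] :
    cn_cnt (zip G1 G2 p1 p2) P =
      (Finset.univ.filter (fun v : {v : G1.V // v ≠ v1} => P (G1.deg v.1))).card +
      (Finset.univ.filter (fun v : {v : G2.V // v ≠ v2} => P (G2.deg v.1))).card := by
  have e : cn_cnt (zip G1 G2 p1 p2) P =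
      (Finset.univ.filter (fun v : {v : G1.V // v ≠ v1} ⊕ {v : G2.V // v ≠ v2} =>
        P ((zip G1 G2 p1 p2).deg v))).card := rfl
  rw [e]
  rw [← Finset.card_map (Function.Embedding.inl (α := {v : G1.V // v ≠ v1}) (β := {v : G2.V // v ≠ v2})),
    ← Finset.card_map (Function.Embedding.inr (α := {v : G1.V // v ≠ v1}) (β := {v : G2.V // v ≠ v2})),
    ← Finset.card_union_of_disjoint]
  · congr 1
    ext v
    simp only [Finset.mem_filter, Finset.mem_univ, true_and, Finset.mem_union, Finset.mem_map,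
      Function.Embedding.inl_apply, Function.Embedding.inr_apply]
    rcases v with v | v
    · rw [zip_deg_left p1 p2 h1]
      constructor
      · intro h; exact Or.inl ⟨v, h, rfl⟩
      · rintro (⟨u, h, hu⟩ | ⟨u, h, hu⟩)
        · rw [← Sum.inl.inj hu]; exact h
        · exact absurd hu Sum.inr_ne_inl
    · rw [zip_deg_right p1 p2 h2]
      constructor
      · intro h; exact Or.inr ⟨v, h, rfl⟩
      · rintro (⟨u, h, hu⟩ | ⟨u, h, hu⟩)
        · exact absurd hu Sum.inl_ne_inr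
        · rw [← Sum.inr.inj hu]; exact h
  · rw [Finset.disjoint_left]
    intro x hx hy
    simp only [Finset.mem_map, Finset.mem_filter, Finset.mem_univ, true_and,
      Function.Embedding.inl_apply, Function.Embedding.inr_apply] at hx hy
    obtain ⟨u, _, rfl⟩ := hx
    obtain ⟨u', _, h⟩ := hy
    exact Sum.inr_ne_inl h

/-- a family of good graphs for the set `S` of degrees and the crossing number `K` -/
def CnFam (S : Finset ℕ) (K : ℕ) : Prop :=
  ∃ c : ℕ, ∀ n : ℕ, ∃ G : Gph, Nonempty (G.Good K) ∧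
    (∀ d ∈ insert 3 S, n ≤ cn_cnt G (fun x => x = d)) ∧
    cn_cnt G (fun x => x ∉ insert 3 S) ≤ c ∧ ∀ v : G.V, G.deg v ≤ c

theorem CnFam.of_deg {d K : ℕ} (h : DegFamily d K) : CnFam {d} K := by
  obtain ⟨c, h⟩ := h
  refine ⟨c, fun n => ?_⟩
  obtain ⟨G, hG, h3, hd, ho, hb⟩ := h n
  refine ⟨G, hG, ?_, ?_, hb⟩
  · intro x hx
    rw [Finset.mem_insert, Finset.mem_singleton] at hx
    rcases hx with rfl | rfl
    · exact h3
    · exact hd
  · have : (Finset.univ.filter (fun v : G.V => G.deg v ∉ insert 3 ({d} : Finset ℕ))) =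
        (Finset.univ.filter (fun v : G.V => G.deg v ≠ 3 ∧ G.deg v ≠ d)) := by
      ext v; simp
    unfold cn_cnt
    rw [this]
    exact ho

theorem cn_deg_zip_le {G1 G2 : Gph} {v1 : G1.V} {v2 : G2.V} (p1 : Port G1 v1) (p2 : Port G2 v2)
    (h1 : G1.Simple) (h2 : G2.Simple) (c : ℕ) (hc1 : ∀ v, G1.deg v ≤ c) (hc2 : ∀ v, G2.deg v ≤ c)
    (v : (zip G1 G2 p1 p2).V) : (zip G1 G2 p1 p2).deg v ≤ c := by
  rcases v with v | v
  · rw [zip_deg_left p1 p2 h1]; exact hc1 _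
  · rw [zip_deg_right p1 p2 h2]; exact hc2 _

theorem cn_cnt_mono (G : Gph) (P Q : ℕ → Prop) [DecidablePred P] [DecidablePred Q]
    (h : ∀ x, P x → Q x) : cn_cnt G P ≤ cn_cnt G Q := by
  apply Finset.card_le_card
  intro v hv
  simp only [Finset.mem_filter, Finset.mem_univ, true_and] at hv ⊢
  exact h _ hv

theorem CnFam.zip {S T : Finset ℕ} {K L : ℕ} (h : CnFam S K) (h' : CnFam T L) :
    CnFam (S ∪ T) (K + L) := by
  obtain ⟨c, h⟩ := h
  obtain ⟨c', h'⟩ := h'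
  refine ⟨c + c', fun n => ?_⟩
  obtain ⟨G1, ⟨g1⟩, ha, hb, hc⟩ := h (n + 1)
  obtain ⟨G2, ⟨g2⟩, ha', hb', hc'⟩ := h' (n + 1)
  refine ⟨Gph.zip G1 G2 g1.pw g2.pv, good_zip g1 g2, ?_, ?_, ?_⟩
  · intro d hd
    rw [cn_cnt_zip _ _ g1.simple g2.simple]
    rw [Finset.mem_insert, Finset.mem_union] at hd
    have hd' : d ∈ insert 3 S ∨ d ∈ insert 3 T := by
      rw [Finset.mem_insert, Finset.mem_insert]; tauto
    rcases hd' with hd | hd
    · have := ha d hd
      have := cn_cnt_sub G1 (fun x => x = d) g1.w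
      omega
    · have := ha' d hd
      have := cn_cnt_sub G2 (fun x => x = d) g2.v
      omega
  · rw [cn_cnt_zip _ _ g1.simple g2.simple]
    refine Nat.add_le_add ?_ ?_
    · refine (cn_sub_cnt G1 (fun x => x ∉ insert 3 (S ∪ T)) _).trans
        ((cn_cnt_mono G1 _ (fun x => x ∉ insert 3 S) ?_).trans hb)
      intro x hx
      simp only [Finset.mem_insert, Finset.mem_union, not_or] at hx ⊢
      tauto
    · refine (cn_sub_cnt G2 (fun x => x ∉ insert 3 (S ∪ T)) _).trans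
        ((cn_cnt_mono G2 _ (fun x => x ∉ insert 3 T) ?_).trans hb')
      intro x hx
      simp only [Finset.mem_insert, Finset.mem_union, not_or] at hx ⊢
      tauto
  · exact cn_deg_zip_le _ _ g1.simple g2.simple _ (fun v => (hc v).trans (by omega))
      (fun v => (hc' v).trans (by omega))

theorem CnFam.succ {S : Finset ℕ} {K : ℕ} (h : CnFam S K) : CnFam S (K + 1) := by
  obtain ⟨c, h⟩ := h
  obtain ⟨g2⟩ := good_K33
  have hK : ∀ v : K33.V, K33.deg v ≤ 9 := by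
    intro v
    unfold deg
    refine (Finset.card_le_univ _).trans ?_
    change Fintype.card (Fin 3 × Fin 3) ≤ 9
    simp
  refine ⟨c + 9, fun n => ?_⟩
  obtain ⟨G1, ⟨g1⟩, ha, hb, hc⟩ := h (n + 1)
  refine ⟨Gph.zip G1 K33 g1.pw g2.pv, good_zip g1 g2, ?_, ?_, ?_⟩
  · intro d hd
    rw [cn_cnt_zip _ _ g1.simple g2.simple]
    have := ha d hd
    have := cn_cnt_sub G1 (fun x => x = d) g1.w
    omega
  · rw [cn_cnt_zip _ _ g1.simple g2.simple]
    refine Nat.add_le_add ((cn_sub_cnt G1 (fun x => x ∉ insert 3 S) _).trans hb) ?_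
    refine (cn_sub_cnt K33 (fun x => x ∉ insert 3 S) _).trans ((Finset.card_le_univ _).trans ?_)
    change Fintype.card (Bool × Fin 3) ≤ 9
    simp
  · exact cn_deg_zip_le _ _ g1.simple g2.simple _ (fun v => (hc v).trans (by omega))
      (fun v => (hK v).trans (by omega))

/-- Assembly. -/
theorem achievable_of_families (D : Finset ℕ) (h3 : 3 ∈ D) (hne : D ≠ {3})
    (h : ∀ d ∈ D, d ≠ 3 → ∃ K, DegFamily d K) : Achievable D := by
  classical
  have hne' : (D.erase 3).Nonempty := by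
    rw [Finset.nonempty_iff_ne_empty]
    intro h0
    apply hne
    rw [← Finset.insert_erase h3, h0]
    rfl
  have key : ∀ S : Finset ℕ, S.Nonempty → (∀ d ∈ S, ∃ K, DegFamily d K) → ∃ K, CnFam S K := by
    intro S hS
    induction hS using Finset.Nonempty.cons_induction with
    | singleton a =>
      intro h
      obtain ⟨K, hK⟩ := h a (by simp)
      exact ⟨K, CnFam.of_deg hK⟩
    | cons a s ha hs ih =>
      intro h
      obtain ⟨K, hK⟩ := h a (by simp)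
      obtain ⟨L, hL⟩ := ih (fun d hd => h d (by simp [hd]))
      refine ⟨K + L, ?_⟩
      rw [Finset.cons_eq_insert, Finset.insert_eq]
      exact (CnFam.of_deg hK).zip hL
  obtain ⟨K, hK⟩ := key (D.erase 3) hne' (fun d hd => h d (Finset.mem_of_mem_erase hd)
    (Finset.ne_of_mem_erase hd))
  refine ⟨K, fun k hk => ?_⟩
  have hk' : CnFam (D.erase 3) k := by
    induction k, hk using Nat.le_induction with
    | base => exact hK
    | succ k _ ih => exact ih.succ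
  obtain ⟨c, hc⟩ := hk'
  rw [Finset.insert_erase h3] at hc
  refine ⟨{G | Nonempty (G.Good k) ∧ cn_cnt G (fun x => x ∉ D) ≤ c ∧ ∀ v : G.V, G.deg v ≤ c},
    ?_, ?_, ?_, c, ?_⟩
  · rintro G ⟨⟨g⟩, _, _⟩
    exact ⟨g.simple, g.conn, g.critical⟩
  · intro m
    obtain ⟨G, hG, h1, h2, h4⟩ := hc m
    exact ⟨G, ⟨hG, h2, h4⟩, h1⟩
  · refine (Set.finite_Iic c).subset ?_
    rintro d ⟨_, G, ⟨_, _, hG⟩, v, rfl⟩
    exact hG v
  · rintro G ⟨_, hG, _⟩ d hd
    refine le_trans ?_ hG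
    exact cn_cnt_mono G (fun x => x = d) (fun x => x ∉ D) (fun x hx => hx ▸ hd)

end Pool.Agent.CC
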