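import Mathlib

/-! CORE1: the combinatorial heart of the lower bound for the strips `T/G/W`.

`R` = the row edges of the strip cut open, in their linear order (lexicographic order on
`(region, local number)`): `(n,0)` is the row edge between the regions `n-1` and `n`, `(n,1)` the
first, `(n, m n)` the last row edge inside region `n`. A region `j ∈ T` has `t` layers; its row
edges are `z a = (j, 1+2a)`, `a < t`, and `h a = (j, 2+2a)`, `a+1 < t`. `y p q` = crossing parity.
`cutSum P Q Z` = sum of `y p q` over `p < P`, `q > Q`, both not in `Z`.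

Proof. Suppose fewer than `t` pairs `p < q` with `y p q = 1`. Call a row edge touched if it is in
such a pair: at most `2t-2` edges are touched. Write `side 0 = {(j-1, m (j-1)), (j,0)}`,
`side i = {(j,2i)}` (`0 < i < t`), `side t = {(j+1,0), (j+1,1)}`. The cut at a side vanishes, so the
cut at `z a` vanishes if `z a` and one of the sides `a`, `a+1` are untouched. If every region has
such an `a`, this contradicts `hΦ`. A region without such an `a` has at least `t` touched inner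
edges, or `t-1` of them and touched outer sides; so there is at most one. Then the cut at `z a` is
`1` for all `a`, and all `2t` pairs (`z a`, side) give a crossing pair; every pair is obtained at
most twice. -/

set_option autoImplicit false

namespace Pool.Agent.CC.Core1

/-- lexicographic order -/
def lt (p q : ℕ × ℕ) : Prop := p.1 < q.1 ∨ (p.1 = q.1 ∧ p.2 < q.2)

instance (p q : ℕ × ℕ) : Decidable (lt p q) := by unfold lt; infer_instance

/-- the cuts chosen in the regions of `T` other than `j` -/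
def cuts (T : Finset ℕ) (a : ℕ → ℕ) (j : ℕ) : Finset (ℕ × ℕ) :=
  (T.erase j).image (fun n => (n, 1 + 2 * a n))

def cutSum (R : Finset (ℕ × ℕ)) (y : ℕ × ℕ → ℕ × ℕ → ZMod 2) (P Q : ℕ × ℕ)
    (Z : Finset (ℕ × ℕ)) : ZMod 2 :=
  ∑ p ∈ R.filter (fun p => lt p P ∧ p ∉ Z), ∑ q ∈ R.filter (fun q => lt Q q ∧ q ∉ Z), y p q

theorem cut_left {R : Finset (ℕ × ℕ)} {y : ℕ × ℕ → ℕ × ℕ → ZMod 2} {Z S : Finset (ℕ × ℕ)}
    {P Q z : ℕ × ℕ} (hlow : ∀ p ∈ R, lt p z ↔ (lt p P ∨ p ∈ S))
    (hhigh : ∀ q ∈ R, lt Q q ↔ (q = z ∨ lt z q))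
    (hno : ∀ p ∈ R, ∀ q ∈ R, (p ∈ S ∧ lt z q) ∨ (lt p P ∧ q = z) → y p q = 0) :
    cutSum R y z z Z = cutSum R y P Q Z := by
  unfold cutSum
  have h1 : ∑ p ∈ R.filter (fun p => lt p P ∧ p ∉ Z),
      ∑ q ∈ R.filter (fun q => lt z q ∧ q ∉ Z), y p q =
      ∑ p ∈ R.filter (fun p => lt p z ∧ p ∉ Z),
      ∑ q ∈ R.filter (fun q => lt z q ∧ q ∉ Z), y p q := by
    apply Finset.sum_subset
    · intro p hp
      rw [Finset.mem_filter] at hp ⊢
      exact ⟨hp.1, (hlow p hp.1).2 (Or.inl hp.2.1), hp.2.2⟩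
    · intro p hp hp'
      rw [Finset.mem_filter] at hp hp'
      apply Finset.sum_eq_zero
      intro q hq
      rw [Finset.mem_filter] at hq
      rcases (hlow p hp.1).1 hp.2.1 with h | h
      · exact absurd ⟨hp.1, h, hp.2.2⟩ hp'
      · exact hno p hp.1 q hq.1 (Or.inl ⟨h, hq.2.1⟩)
  rw [← h1]
  apply Finset.sum_congr rfl
  intro p hp
  rw [Finset.mem_filter] at hp
  apply Finset.sum_subset
  · intro q hq
    rw [Finset.mem_filter] at hq ⊢
    exact ⟨hq.1, (hhigh q hq.1).2 (Or.inr hq.2.1), hq.2.2⟩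
  · intro q hq hq'
    rw [Finset.mem_filter] at hq hq'
    rcases (hhigh q hq.1).1 hq.2.1 with h | h
    · exact hno p hp.1 q hq.1 (Or.inr ⟨hp.2.1, h⟩)
    · exact absurd ⟨hq.1, h, hq.2.2⟩ hq'

theorem cut_right {R : Finset (ℕ × ℕ)} {y : ℕ × ℕ → ℕ × ℕ → ZMod 2} {Z S : Finset (ℕ × ℕ)}
    {P Q z : ℕ × ℕ} (hlow : ∀ p ∈ R, lt p P ↔ (lt p z ∨ p = z))
    (hhigh : ∀ q ∈ R, lt z q ↔ (q ∈ S ∨ lt Q q))
    (hno : ∀ p ∈ R, ∀ q ∈ R, (lt p z ∧ q ∈ S) ∨ (p = z ∧ lt Q q) → y p q = 0) :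
    cutSum R y z z Z = cutSum R y P Q Z := by
  unfold cutSum
  have h1 : ∑ p ∈ R.filter (fun p => lt p z ∧ p ∉ Z),
      ∑ q ∈ R.filter (fun q => lt Q q ∧ q ∉ Z), y p q =
      ∑ p ∈ R.filter (fun p => lt p P ∧ p ∉ Z),
      ∑ q ∈ R.filter (fun q => lt Q q ∧ q ∉ Z), y p q := by
    apply Finset.sum_subset
    · intro p hp
      rw [Finset.mem_filter] at hp ⊢
      exact ⟨hp.1, (hlow p hp.1).2 (Or.inl hp.2.1), hp.2.2⟩
    · intro p hp hp'
      rw [Finset.mem_filter] at hp hp'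
      apply Finset.sum_eq_zero
      intro q hq
      rw [Finset.mem_filter] at hq
      rcases (hlow p hp.1).1 hp.2.1 with h | h
      · exact absurd ⟨hp.1, h, hp.2.2⟩ hp'
      · exact hno p hp.1 q hq.1 (Or.inr ⟨h, hq.2.1⟩)
  rw [← h1]
  apply Finset.sum_congr rfl
  intro p hp
  rw [Finset.mem_filter] at hp
  symm
  apply Finset.sum_subset
  · intro q hq
    rw [Finset.mem_filter] at hq ⊢
    exact ⟨hq.1, (hhigh q hq.1).2 (Or.inr hq.2.1), hq.2.2⟩
  · intro q hq hq'
    rw [Finset.mem_filter] at hq hq'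
    rcases (hhigh q hq.1).1 hq.2.1 with h | h
    · exact hno p hp.1 q hq.1 (Or.inl ⟨hp.2.1, h⟩)
    · exact absurd ⟨hq.1, h, hq.2.2⟩ hq'

/-- the first edge of side `i` of region `j` -/
def sP (m : ℕ → ℕ) (t j i : ℕ) : ℕ × ℕ :=
  if i = 0 then (j - 1, m (j - 1)) else if i = t then (j + 1, 0) else (j, 2 * i)

/-- the last edge of side `i` of region `j` -/
def sQ (t j i : ℕ) : ℕ × ℕ :=
  if i = 0 then (j, 0) else if i = t then (j + 1, 1) else (j, 2 * i)

/-- side `i` of region `j` -/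
def sd (m : ℕ → ℕ) (t j i : ℕ) : Finset (ℕ × ℕ) := {sP m t j i, sQ t j i}

theorem zmod2_cases (x : ZMod 2) (h : x ≠ 1) : x = 0 := by
  revert x; decide

theorem lt_trans' {p q r : ℕ × ℕ} (h1 : lt p q) (h2 : lt q r) : lt p r := by
  unfold lt at *; omega

theorem left_low {m : ℕ → ℕ} {t j a : ℕ} (hj : 1 ≤ j) (ha : a < t) {p : ℕ × ℕ}
    (hp : p.2 ≤ m p.1) :
    lt p (j, 1 + 2 * a) ↔ (lt p (sP m t j a) ∨ p ∈ sd m t j a) := by
  obtain ⟨p1, p2⟩ := p
  simp only at hp
  rw [sd, Finset.mem_insert, Finset.mem_singleton]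
  rcases Nat.eq_zero_or_pos a with h | h
  · subst h
    have hh : p1 = j - 1 → p2 ≤ m (j - 1) := by rintro rfl; exact hp
    rw [sP, sQ, if_pos rfl, if_pos rfl, Prod.mk.injEq, Prod.mk.injEq]
    unfold lt
    simp only
    omega
  · rw [sP, sQ, if_neg (by omega), if_neg (by omega), if_neg (by omega), if_neg (by omega),
      Prod.mk.injEq]
    unfold lt
    simp only
    omega

theorem left_high {t j a : ℕ} (ha : a < t) {q : ℕ × ℕ} :
    lt (sQ t j a) q ↔ (q = (j, 1 + 2 * a) ∨ lt (j, 1 + 2 * a) q) := by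
  obtain ⟨q1, q2⟩ := q
  rw [Prod.mk.injEq]
  rcases Nat.eq_zero_or_pos a with h | h
  · subst h
    rw [sQ, if_pos rfl]
    unfold lt
    simp only
    omega
  · rw [sQ, if_neg (by omega), if_neg (by omega)]
    unfold lt
    simp only
    omega

theorem right_low {m : ℕ → ℕ} {t j a : ℕ} (ha : a < t) (hmj : m j = 2 * t - 1) {p : ℕ × ℕ}
    (hp : p.2 ≤ m p.1) :
    lt p (sP m t j (a + 1)) ↔ (lt p (j, 1 + 2 * a) ∨ p = (j, 1 + 2 * a)) := by
  obtain ⟨p1, p2⟩ := p
  simp only at hp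
  rw [Prod.mk.injEq]
  have hh : p1 = j → p2 ≤ 2 * t - 1 := by rintro rfl; omega
  by_cases h : a + 1 = t
  · rw [sP, if_neg (by omega), if_pos h]
    unfold lt
    simp only
    omega
  · rw [sP, if_neg (by omega), if_neg h]
    unfold lt
    simp only
    omega

theorem right_high {m : ℕ → ℕ} {t j a : ℕ} (ha : a < t) (hmj : m j = 2 * t - 1) {q : ℕ × ℕ}
    (hq : q.2 ≤ m q.1) :
    lt (j, 1 + 2 * a) q ↔ (q ∈ sd m t j (a + 1) ∨ lt (sQ t j (a + 1)) q) := by
  obtain ⟨q1, q2⟩ := q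
  simp only at hq
  rw [sd, Finset.mem_insert, Finset.mem_singleton]
  have hh : q1 = j → q2 ≤ 2 * t - 1 := by rintro rfl; omega
  by_cases h : a + 1 = t
  · rw [sP, sQ, if_neg (by omega), if_pos h, if_neg (by omega), if_pos h, Prod.mk.injEq,
      Prod.mk.injEq]
    unfold lt
    simp only
    omega
  · rw [sP, sQ, if_neg (by omega), if_neg h, if_neg (by omega), if_neg h, Prod.mk.injEq]
    unfold lt
    simp only
    omega

section Main

variable {t : ℕ} {m : ℕ → ℕ} {R : Finset (ℕ × ℕ)} {y : ℕ × ℕ → ℕ × ℕ → ZMod 2}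

/-- the crossing pairs -/
def BB (R : Finset (ℕ × ℕ)) (y : ℕ × ℕ → ℕ × ℕ → ZMod 2) : Finset ((ℕ × ℕ) × (ℕ × ℕ)) :=
  (R ×ˢ R).filter (fun p => lt p.1 p.2 ∧ y p.1 p.2 = 1)

theorem mem_BB {p q : ℕ × ℕ} : (p, q) ∈ BB R y ↔ (p ∈ R ∧ q ∈ R) ∧ lt p q ∧ y p q = 1 := by
  unfold BB
  rw [Finset.mem_filter, Finset.mem_product]

theorem get_left {Z : Finset (ℕ × ℕ)} {j a : ℕ} (hR : ∀ p ∈ R, p.2 ≤ m p.1) (hj : 1 ≤ j)
    (ha : a < t) (h0 : cutSum R y (sP m t j a) (sQ t j a) Z = 0)
    (h1 : cutSum R y (j, 1 + 2 * a) (j, 1 + 2 * a) Z ≠ 0) :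
    ∃ b ∈ BB R y, b.1 ∈ sd m t j a ∨ b.2 = (j, 1 + 2 * a) := by
  by_contra hno
  push Not at hno
  apply h1
  rw [← h0]
  apply cut_left (fun p hp => left_low hj ha (hR p hp)) (fun q hq => left_high ha)
  intro p hp q hq h
  apply zmod2_cases
  intro hy
  rcases h with ⟨h2, h3⟩ | ⟨h2, h3⟩
  · have hlt : lt p (j, 1 + 2 * a) := (left_low hj ha (hR p hp)).2 (Or.inr h2)
    exact (hno (p, q) (mem_BB.2 ⟨⟨hp, hq⟩, lt_trans' hlt h3, hy⟩)).1 h2
  · have hlt : lt p (j, 1 + 2 * a) := (left_low hj ha (hR p hp)).2 (Or.inl h2)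
    exact (hno (p, q) (mem_BB.2 ⟨⟨hp, hq⟩, by rw [h3]; exact hlt, hy⟩)).2 h3

theorem get_right {Z : Finset (ℕ × ℕ)} {j a : ℕ} (hR : ∀ p ∈ R, p.2 ≤ m p.1)
    (hmj : m j = 2 * t - 1)
    (ha : a < t) (h0 : cutSum R y (sP m t j (a + 1)) (sQ t j (a + 1)) Z = 0)
    (h1 : cutSum R y (j, 1 + 2 * a) (j, 1 + 2 * a) Z ≠ 0) :
    ∃ b ∈ BB R y, b.1 = (j, 1 + 2 * a) ∨ b.2 ∈ sd m t j (a + 1) := by
  by_contra hno
  push Not at hno
  apply h1
  rw [← h0]
  apply cut_right (fun p hp => right_low ha hmj (hR p hp))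
    (fun q hq => right_high ha hmj (hR q hq))
  intro p hp q hq h
  apply zmod2_cases
  intro hy
  rcases h with ⟨h2, h3⟩ | ⟨h2, h3⟩
  · have hlt : lt (j, 1 + 2 * a) q := (right_high ha hmj (hR q hq)).2 (Or.inl h3)
    exact (hno (p, q) (mem_BB.2 ⟨⟨hp, hq⟩, lt_trans' h2 hlt, hy⟩)).2 h3
  · have hlt : lt (j, 1 + 2 * a) q := (right_high ha hmj (hR q hq)).2 (Or.inr h3)
    exact (hno (p, q) (mem_BB.2 ⟨⟨hp, hq⟩, by rw [h2]; exact hlt, hy⟩)).1 h2

/-- the touched edges -/
def Th (R : Finset (ℕ × ℕ)) (y : ℕ × ℕ → ℕ × ℕ → ZMod 2) : Finset (ℕ × ℕ) :=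
  (BB R y).image Prod.fst ∪ (BB R y).image Prod.snd

theorem card_Th : (Th R y).card ≤ 2 * (BB R y).card := by
  unfold Th
  have h1 := Finset.card_union_le ((BB R y).image Prod.fst) ((BB R y).image Prod.snd)
  have h2 : ((BB R y).image Prod.fst).card ≤ (BB R y).card := Finset.card_image_le
  have h3 : ((BB R y).image Prod.snd).card ≤ (BB R y).card := Finset.card_image_le
  omega

/-- region `j` is bad: no untouched `z a` has an untouched side -/
def Bad (m : ℕ → ℕ) (t : ℕ) (H : Finset (ℕ × ℕ)) (j : ℕ) : Prop :=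
  ∀ a < t, (j, 1 + 2 * a) ∈ H ∨
    ((∃ r ∈ sd m t j a, r ∈ H) ∧ (∃ r ∈ sd m t j (a + 1), r ∈ H))

/-- touched inner edges -/
def Inn (t : ℕ) (H : Finset (ℕ × ℕ)) (j : ℕ) : Finset (ℕ × ℕ) :=
  H.filter (fun r => r.1 = j ∧ 1 ≤ r.2 ∧ r.2 ≤ 2 * t - 1)

theorem sd_mid {j i : ℕ} (h0 : 0 < i) (hi : i < t) {r : ℕ × ℕ} (hr : r ∈ sd m t j i) :
    r = (j, 2 * i) := by
  rw [sd, Finset.mem_insert, Finset.mem_singleton, sP, sQ, if_neg (by omega), if_neg (by omega),
    if_neg (by omega), if_neg (by omega)] at hr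
  rcases hr with hr | hr <;> exact hr

theorem bad_count {H : Finset (ℕ × ℕ)} {j : ℕ} (ht : 1 ≤ t) (hb : Bad m t H j) :
    t ≤ (Inn t H j).card ∨ (t - 1 ≤ (Inn t H j).card ∧ ∃ r ∈ sd m t j 0, r ∈ H) := by
  classical
  by_cases hz : ∃ b < t, (j, 1 + 2 * b) ∈ H
  · left
    obtain ⟨b, hbt, hbH⟩ := hz
    let f : ℕ → ℕ × ℕ := fun a =>
      if (j, 1 + 2 * a) ∈ H then (j, 1 + 2 * a) else if a < b then (j, 2 * a + 2) else (j, 2 * a)
    have hf : ∀ a ∈ Finset.range t, f a ∈ Inn t H j := by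
      intro a ha
      have hat := Finset.mem_range.1 ha
      by_cases h1 : (j, 1 + 2 * a) ∈ H
      · have e : f a = (j, 1 + 2 * a) := if_pos h1
        rw [e, Inn, Finset.mem_filter]
        refine ⟨h1, rfl, ?_, ?_⟩ <;> simp only <;> omega
      · have hne : a ≠ b := fun h => h1 (h ▸ hbH)
        rcases hb a hat with h2 | ⟨⟨r1, hr1, hr1'⟩, ⟨r2, hr2, hr2'⟩⟩
        · exact absurd h2 h1
        · by_cases h3 : a < b
          · have e : f a = (j, 2 * a + 2) := by
              show (if (j, 1 + 2 * a) ∈ H then _ else _) = _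
              rw [if_neg h1, if_pos h3]
            have e2 := sd_mid (by omega) (by omega) hr2
            have e3 : (j, 2 * a + 2) ∈ H := by
              rw [show (2 * a + 2) = 2 * (a + 1) by ring, ← e2]; exact hr2'
            rw [e, Inn, Finset.mem_filter]
            refine ⟨e3, rfl, ?_, ?_⟩ <;> simp only <;> omega
          · have e : f a = (j, 2 * a) := by
              show (if (j, 1 + 2 * a) ∈ H then _ else _) = _
              rw [if_neg h1, if_neg h3]
            have e2 := sd_mid (by omega) (by omega) hr1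
            have e3 : (j, 2 * a) ∈ H := by rw [← e2]; exact hr1'
            rw [e, Inn, Finset.mem_filter]
            refine ⟨e3, rfl, ?_, ?_⟩ <;> simp only <;> omega
    have hval : ∀ a, (f a).2 = 1 + 2 * a ∧ (j, 1 + 2 * a) ∈ H ∨ (f a).2 = 2 * a + 2 ∧ a < b ∨
        (f a).2 = 2 * a ∧ ¬ a < b ∧ (j, 1 + 2 * a) ∉ H := by
      intro a
      by_cases h1 : (j, 1 + 2 * a) ∈ H
      · left
        exact ⟨by rw [show f a = (j, 1 + 2 * a) from if_pos h1], h1⟩
      · right
        by_cases h3 : a < b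
        · left
          refine ⟨?_, h3⟩
          show (if (j, 1 + 2 * a) ∈ H then _ else _ : ℕ × ℕ).2 = _
          rw [if_neg h1, if_pos h3]
        · right
          refine ⟨?_, h3, h1⟩
          show (if (j, 1 + 2 * a) ∈ H then _ else _ : ℕ × ℕ).2 = _
          rw [if_neg h1, if_neg h3]
    have hinj : Set.InjOn f (Finset.range t : Set ℕ) := by
      intro a _ a' _ haa
      have e1 := congrArg Prod.snd haa
      have hbb : (j, 1 + 2 * b) ∈ H := hbH
      rcases hval a with ⟨h1, h2⟩ | ⟨h1, h2⟩ | ⟨h1, h2, h2'⟩ <;>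
        rcases hval a' with ⟨h3, h4⟩ | ⟨h3, h4⟩ | ⟨h3, h4, h4'⟩
      · omega
      · omega
      · omega
      · omega
      · omega
      · by_cases h5 : a' = b
        · exact absurd (h5 ▸ hbb) h4'
        · omega
      · omega
      · by_cases h5 : a = b
        · exact absurd (h5 ▸ hbb) h2'
        · omega
      · omega
    have hcard := Finset.card_le_card_of_injOn f hf hinj
    rwa [Finset.card_range] at hcard
  · right
    push Not at hz
    have hside : ∀ a < t, (∃ r ∈ sd m t j a, r ∈ H) ∧ (∃ r ∈ sd m t j (a + 1), r ∈ H) := by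
      intro a ha
      rcases hb a ha with h | h
      · exact absurd h (hz a ha)
      · exact h
    refine ⟨?_, (hside 0 (by omega)).1⟩
    have hf : ∀ i ∈ Finset.range (t - 1), (j, 2 * i + 2) ∈ Inn t H j := by
      intro i hi
      have hit := Finset.mem_range.1 hi
      obtain ⟨r, hr, hr'⟩ := (hside (i + 1) (by omega)).1
      have e2 := sd_mid (by omega) (by omega) hr
      have e3 : (j, 2 * i + 2) ∈ H := by
        rw [show (2 * i + 2) = 2 * (i + 1) by ring, ← e2]; exact hr'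
      rw [Inn, Finset.mem_filter]
      refine ⟨e3, rfl, ?_, ?_⟩ <;> simp only <;> omega
    have hcard := Finset.card_le_card_of_injOn (fun i => (j, 2 * i + 2)) hf (by
      intro a _ a' _ haa
      have := congrArg Prod.snd haa
      simp only at this
      omega)
    rwa [Finset.card_range] at hcard

theorem bad_unique {H : Finset (ℕ × ℕ)} (ht : 1 ≤ t) (hH : H.card ≤ 2 * t - 2) {j j' : ℕ}
    (hj1 : 1 ≤ j) (hjj : j < j') (hb : Bad m t H j) (hb' : Bad m t H j') : False := by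
  classical
  have hdisj : Disjoint (Inn t H j) (Inn t H j') := by
    rw [Finset.disjoint_left]
    intro r h1 h2
    rw [Inn, Finset.mem_filter] at h1 h2
    omega
  have hsub : Inn t H j ∪ Inn t H j' ⊆ H := by
    apply Finset.union_subset <;> exact Finset.filter_subset _ _
  have hc := Finset.card_le_card hsub
  rw [Finset.card_union_of_disjoint hdisj] at hc
  rcases bad_count ht hb with h1 | ⟨h1, r, hr, hrH⟩
  · rcases bad_count ht hb' with h2 | ⟨h2, -⟩
    · omega
    · omega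
  · have hrn : r ∉ Inn t H j ∪ Inn t H j' := by
      rw [sd, Finset.mem_insert, Finset.mem_singleton, sP, sQ, if_pos rfl, if_pos rfl] at hr
      rw [Finset.mem_union, Inn, Inn, Finset.mem_filter, Finset.mem_filter]
      rcases hr with hr | hr
      · rw [hr]; simp only; omega
      · rw [hr]; simp only; omega
    have hc2 : (insert r (Inn t H j ∪ Inn t H j')).card ≤ H.card :=
      Finset.card_le_card (Finset.insert_subset hrH hsub)
    rw [Finset.card_insert_of_notMem hrn, Finset.card_union_of_disjoint hdisj] at hc2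
    rcases bad_count ht hb' with h2 | ⟨h2, -⟩
    · omega
    · omega

end Main

theorem core1 (t : ℕ) (ht : 1 ≤ t) (T : Finset ℕ) (h1 : ∀ n ∈ T, 1 ≤ n) (m : ℕ → ℕ)
    (hm : ∀ n ∈ T, m n = 2 * t - 1) (hm1 : ∀ n, 1 ≤ m n)
    (R : Finset (ℕ × ℕ)) (hR : ∀ p ∈ R, p.2 ≤ m p.1) (y : ℕ × ℕ → ℕ × ℕ → ZMod 2)
    (hh : ∀ a : ℕ → ℕ, (∀ n ∈ T, a n < t) → ∀ j ∈ T, ∀ i, i + 1 < t →
      cutSum R y (j, 2 + 2 * i) (j, 2 + 2 * i) (cuts T a j) = 0)
    (hL : ∀ a : ℕ → ℕ, (∀ n ∈ T, a n < t) → ∀ j ∈ T,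
      cutSum R y (j - 1, m (j - 1)) (j, 0) (cuts T a j) = 0)
    (hRt : ∀ a : ℕ → ℕ, (∀ n ∈ T, a n < t) → ∀ j ∈ T,
      cutSum R y (j + 1, 0) (j + 1, 1) (cuts T a j) = 0)
    (hΦ : ∀ a : ℕ → ℕ, (∀ n ∈ T, a n < t) →
      ∑ j ∈ T, cutSum R y (j, 1 + 2 * a j) (j, 1 + 2 * a j) (cuts T a j) = 1) :
    t ≤ ((R ×ˢ R).filter (fun p => lt p.1 p.2 ∧ y p.1 p.2 = 1)).card := by
  classical
  show t ≤ (BB R y).card
  by_contra hlt
  push Not at hlt
  have hside : ∀ a : ℕ → ℕ, (∀ n ∈ T, a n < t) → ∀ j ∈ T, ∀ i ≤ t,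
      cutSum R y (sP m t j i) (sQ t j i) (cuts T a j) = 0 := by
    intro a ha j hj i hi
    by_cases h0 : i = 0
    · rw [sP, sQ, if_pos h0, if_pos h0]; exact hL a ha j hj
    · by_cases h2 : i = t
      · rw [sP, sQ, if_neg h0, if_pos h2, if_neg h0, if_pos h2]; exact hRt a ha j hj
      · rw [sP, sQ, if_neg h0, if_neg h2, if_neg h0, if_neg h2]
        obtain ⟨k, rfl⟩ : ∃ k, i = k + 1 := ⟨i - 1, by omega⟩
        have := hh a ha j hj k (by omega)
        rw [show 2 * (k + 1) = 2 + 2 * k by ring]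
        exact this
  set H := Th R y with hH
  have hcardH : H.card ≤ 2 * t - 2 := by
    have hcT := card_Th (R := R) (y := y)
    rw [← hH] at hcT
    omega
  have hmemL : ∀ b ∈ BB R y, b.1 ∈ H := fun b hb => by
    rw [hH, Th, Finset.mem_union]
    exact Or.inl (Finset.mem_image_of_mem _ hb)
  have hmemR : ∀ b ∈ BB R y, b.2 ∈ H := fun b hb => by
    rw [hH, Th, Finset.mem_union]
    exact Or.inr (Finset.mem_image_of_mem _ hb)
  -- a good layer
  have hgood : ∀ j ∈ T, ¬ Bad m t H j → ∃ b < t, ∀ a : ℕ → ℕ, (∀ n ∈ T, a n < t) →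
      cutSum R y (j, 1 + 2 * b) (j, 1 + 2 * b) (cuts T a j) = 0 := by
    intro j hj hb
    unfold Bad at hb
    push Not at hb
    obtain ⟨b, hbt, hz, hs⟩ := hb
    refine ⟨b, hbt, fun a ha => ?_⟩
    by_contra hne
    by_cases hl : ∃ r ∈ sd m t j b, r ∈ H
    · obtain ⟨r, hr, hrH⟩ := hl
      obtain ⟨c, hc, hc'⟩ := get_right hR (hm j hj) hbt (hside a ha j hj (b + 1) (by omega)) hne
      rcases hc' with h | h
      · exact hz (h ▸ hmemL c hc)
      · exact hs ⟨r, hr, hrH⟩ c.2 h (hmemR c hc)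
    · push Not at hl
      obtain ⟨c, hc, hc'⟩ := get_left hR (h1 j hj) hbt (hside a ha j hj b (by omega)) hne
      rcases hc' with h | h
      · exact hl _ h (hmemL c hc)
      · exact hz (h ▸ hmemR c hc)
  have hch : ∀ j, ∃ b, b < t ∧ (j ∈ T → ¬ Bad m t H j → ∀ a : ℕ → ℕ, (∀ n ∈ T, a n < t) →
      cutSum R y (j, 1 + 2 * b) (j, 1 + 2 * b) (cuts T a j) = 0) := by
    intro j
    by_cases h : j ∈ T ∧ ¬ Bad m t H j
    · obtain ⟨b, hb, hb'⟩ := hgood j h.1 h.2
      exact ⟨b, hb, fun _ _ => hb'⟩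
    · exact ⟨0, by omega, fun h2 h3 => absurd ⟨h2, h3⟩ h⟩
  choose g hg hg' using hch
  have hgT : ∀ n ∈ T, g n < t := fun n _ => hg n
  have hex : ∃ j ∈ T, Bad m t H j := by
    by_contra hno
    push Not at hno
    have h2 := hΦ g hgT
    rw [Finset.sum_eq_zero (fun j hj => hg' j hj (hno j hj) g hgT)] at h2
    exact absurd h2 (by decide)
  obtain ⟨j, hj, hbj⟩ := hex
  have huniq : ∀ n ∈ T, n ≠ j → ¬ Bad m t H n := by
    intro n hn hne hb
    rcases lt_or_gt_of_ne hne with h | h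
    · exact bad_unique ht hcardH (h1 n hn) h hb hbj
    · exact bad_unique ht hcardH (h1 j hj) h hbj hb
  -- all the cuts at `z a` are `1`
  have hone : ∀ a < t, ∃ c : ℕ → ℕ, (∀ n ∈ T, c n < t) ∧
      cutSum R y (j, 1 + 2 * a) (j, 1 + 2 * a) (cuts T c j) ≠ 0 := by
    intro a ha
    set c : ℕ → ℕ := Function.update g j a with hc
    have hcT : ∀ n ∈ T, c n < t := by
      intro n _
      by_cases h : n = j
      · rw [hc, h, Function.update_self]; exact ha
      · rw [hc, Function.update_of_ne h]; exact hg n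
    refine ⟨c, hcT, ?_⟩
    have h2 := hΦ c hcT
    rw [← Finset.add_sum_erase T _ hj] at h2
    have h3 : ∑ n ∈ T.erase j, cutSum R y (n, 1 + 2 * c n) (n, 1 + 2 * c n) (cuts T c n) = 0 := by
      apply Finset.sum_eq_zero
      intro n hn
      obtain ⟨hne, hnT⟩ := Finset.mem_erase.1 hn
      have e : c n = g n := by rw [hc, Function.update_of_ne hne]
      rw [e]
      exact hg' n hnT (huniq n hnT hne) c hcT
    rw [h3, add_zero] at h2
    have e : c j = a := by rw [hc, Function.update_self]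
    rw [e] at h2
    rw [h2]
    decide
  -- the codes
  let cp : ℕ × ℕ → ℕ := fun r => if r.1 = j then r.2 else 0
  let cq : ℕ × ℕ → ℕ := fun r => if r.1 = j then r.2 - 1 else 2 * t - 1
  have hcover : Finset.range (2 * t) ⊆
      (BB R y).image (fun b => cp b.1) ∪ (BB R y).image (fun b => cq b.2) := by
    intro k hk
    have hkt := Finset.mem_range.1 hk
    rw [Finset.mem_union, Finset.mem_image, Finset.mem_image]
    have hj1 := h1 j hj
    rcases Nat.even_or_odd' k with ⟨a, rfl | rfl⟩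
    · obtain ⟨c, hcT, hc⟩ := hone a (by omega)
      obtain ⟨b, hb, hb'⟩ := get_left hR hj1 (by omega) (hside c hcT j hj a (by omega)) hc
      rcases hb' with h | h
      · left
        refine ⟨b, hb, ?_⟩
        rw [sd, Finset.mem_insert, Finset.mem_singleton] at h
        by_cases h0 : a = 0
        · rw [sP, sQ, if_pos h0, if_pos h0] at h
          rcases h with h | h
          · show (if b.1.1 = j then b.1.2 else 0) = _
            rw [h, if_neg (by simp only; omega)]; omega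
          · show (if b.1.1 = j then b.1.2 else 0) = _
            rw [h, if_pos rfl]; simp only; omega
        · rw [sP, sQ, if_neg h0, if_neg (by omega), if_neg h0, if_neg (by omega), or_self] at h
          show (if b.1.1 = j then b.1.2 else 0) = _
          rw [h, if_pos rfl]
      · right
        refine ⟨b, hb, ?_⟩
        show (if b.2.1 = j then b.2.2 - 1 else 2 * t - 1) = _
        rw [h, if_pos rfl]; simp only; omega
    · obtain ⟨c, hcT, hc⟩ := hone a (by omega)
      obtain ⟨b, hb, hb'⟩ := get_right hR (hm j hj) (by omega)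
        (hside c hcT j hj (a + 1) (by omega)) hc
      rcases hb' with h | h
      · left
        refine ⟨b, hb, ?_⟩
        show (if b.1.1 = j then b.1.2 else 0) = _
        rw [h, if_pos rfl]; simp only; omega
      · right
        refine ⟨b, hb, ?_⟩
        show (if b.2.1 = j then b.2.2 - 1 else 2 * t - 1) = _
        rw [sd, Finset.mem_insert, Finset.mem_singleton] at h
        by_cases h0 : a + 1 = t
        · rw [sP, sQ, if_neg (by omega), if_pos h0, if_neg (by omega), if_pos h0] at h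
          rcases h with h | h
          · rw [h, if_neg (by simp only; omega)]; omega
          · rw [h, if_neg (by simp only; omega)]; omega
        · rw [sP, sQ, if_neg (by omega), if_neg h0, if_neg (by omega), if_neg h0, or_self] at h
          rw [h, if_pos rfl]; simp only; omega
  have hc1 := Finset.card_le_card hcover
  rw [Finset.card_range] at hc1
  have hc2 := Finset.card_union_le ((BB R y).image (fun b => cp b.1))
    ((BB R y).image (fun b => cq b.2))
  have hc3 : ((BB R y).image (fun b => cp b.1)).card ≤ (BB R y).card := Finset.card_image_le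
  have hc4 : ((BB R y).image (fun b => cq b.2)).card ≤ (BB R y).card := Finset.card_image_le
  omega

end Pool.Agent.CC.Core1
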