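import Pool.Agent.Lib_helper74.CCF.Statement

/-!
# Crossing-critical graphs: parity structures and spine drawings (MP_198240_co)
-/

namespace Pool.Agent.CC

namespace Gph

/-! ### Parity structures (the combinatorial lower bound) -/

/-- Two edges are independent: they have no common end. -/
def Ind (G : Gph) (e f : G.E) : Prop :=
  G.a e ≠ G.a f ∧ G.a e ≠ G.b f ∧ G.b e ≠ G.a f ∧ G.b e ≠ G.b f

instance (G : Gph) (e f : G.E) : Decidable (G.Ind e f) := by
  unfold Ind; infer_instance

/-- A parity structure. -/
structure PS (G : Gph) where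
  r : G.V → G.V → ZMod 2
  hr : ∀ u v, u ≠ v → r u v + r v u = 1
  M : G.E → G.V → ZMod 2

/-- The crossing parity of two edges. -/
def PS.X {G : Gph} (P : G.PS) (e f : G.E) : ZMod 2 :=
  P.r (G.a e) (G.a f) + P.r (G.a e) (G.b f) + P.r (G.b e) (G.a f) + P.r (G.b e) (G.b f)
    + P.M e (G.a f) + P.M e (G.b f) + P.M f (G.a e) + P.M f (G.b e)

/-- The ordered pairs of independent edges that cross oddly (each unordered pair occurs twice). -/
def PS.cross {G : Gph} (P : G.PS) : Finset (G.E × G.E) :=
  Finset.univ.filter (fun p => G.Ind p.1 p.2 ∧ P.X p.1 p.2 = 1)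

/-- Every parity structure has at least `K` crossing pairs. -/
def LB (G : Gph) (K : ℕ) : Prop := ∀ P : G.PS, 2 * K ≤ P.cross.card

/-! ### Spine drawings (the combinatorial upper bound) -/

/-- The consecutive arcs of a route: side, first position, second position. -/
def arcsOf {α : Type} : α → List (Bool × α) → List (Bool × α × α)
  | _, [] => []
  | x, (s, y) :: l => (s, x, y) :: arcsOf y l

/-- Two chords `{x,y}`, `{z,w}` of a linear order interleave. -/
def Interl {α : Type} [LinearOrder α] (x y z w : α) : Prop :=
  (min x y < min z w ∧ min z w < max x y ∧ max x y < max z w) ∨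
  (min z w < min x y ∧ min x y < max z w ∧ max z w < max x y)

/-- A spine drawing of `G` over a linear order `α` (positions on the x-axis). The edge `e` starts
at `pos (a e)`; `route e` lists, one after the other, the side (`true` = upper half plane) and the
end position of the arcs it consists of; the last position is `pos (b e)`, the other ones are its
bends. -/
structure Spine (G : Gph) (α : Type) [LinearOrder α] where
  pos : G.V → α
  pos_inj : Function.Injective pos
  route : G.E → List (Bool × α)
  ne_nil : ∀ e, route e ≠ []
  last : ∀ e, ((route e).map Prod.snd).getLast? = some (pos (G.b e))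
  nodup : ∀ e, (pos (G.a e) :: (route e).map Prod.snd).Nodup
  /-- bends are not vertex positions -/
  bend_ne : ∀ e, ∀ x ∈ ((route e).map Prod.snd).dropLast, ∀ v, x ≠ pos v
  /-- arcs on the same side do not interleave -/
  planar : ∀ e f, ∀ p ∈ arcsOf (pos (G.a e)) (route e), ∀ q ∈ arcsOf (pos (G.a f)) (route f),
    p.1 = q.1 → ¬ Interl p.2.1 p.2.2 q.2.1 q.2.2
  /-- arcs of different edges on the same side are different -/
  distinct : ∀ e f, e ≠ f → ∀ p ∈ arcsOf (pos (G.a e)) (route e),
    ∀ q ∈ arcsOf (pos (G.a f)) (route f), p.1 = q.1 → ¬ (s(p.2.1, p.2.2) = s(q.2.1, q.2.2))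
  /-- at most two edges bend at a position -/
  no_three : ∀ e f g, e ≠ f → e ≠ g → f ≠ g → ∀ x,
    x ∈ ((route e).map Prod.snd).dropLast → x ∈ ((route f).map Prod.snd).dropLast →
    x ∉ ((route g).map Prod.snd).dropLast

/-- The bends of `e`. -/
def Spine.bends {G : Gph} {α : Type} [LinearOrder α] (S : Spine G α) (e : G.E) : List α :=
  ((S.route e).map Prod.snd).dropLast

/-- The crossings of a spine drawing: the common bends of two edges. -/
def Spine.crossings {G : Gph} {α : Type} [LinearOrder α] (S : Spine G α) : Finset α :=
  Finset.univ.biUnion (fun p : G.E × G.E =>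
    if p.1 ≠ p.2 then (S.bends p.1).toFinset ∩ (S.bends p.2).toFinset else ∅)

end Gph
end Pool.Agent.CC
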