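import Pool.Agent.Lib_helper74.CCF.Defs

/-!
# Chains, topological embeddings, ports, tripods, zip products
-/

namespace Pool.Agent.CC
namespace Gph

/-- The mod 2 boundary of a set of edges. -/
def bd (G : Gph) (c : Finset G.E) : G.V → ZMod 2 := fun v =>
  ∑ e ∈ c, ((if G.a e = v then 1 else 0) + (if G.b e = v then 1 else 0))

/-- The indicator of a vertex. -/
def one (G : Gph) (u : G.V) : G.V → ZMod 2 := fun v => if u = v then 1 else 0

/-- A 'topological embedding' mod 2 of `H` into `G`: vertices go to different vertices, edges to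
pairwise disjoint sets of edges with the right boundary, independent edges to independent sets. -/
structure TEmb (H G : Gph) where
  v : H.V → G.V
  c : H.E → Finset G.E
  v_inj : Function.Injective v
  bd : ∀ e, G.bd (c e) = G.one (v (H.a e)) + G.one (v (H.b e))
  ind : ∀ e f, H.Ind e f → ∀ e' ∈ c e, ∀ f' ∈ c f, G.Ind e' f'
  disj : ∀ e f, e ≠ f → Disjoint (c e) (c f)

/-- The sum of the crossing parities over two sets of edges. -/
def PS.XX {G : Gph} (P : G.PS) (c d : Finset G.E) : ZMod 2 := ∑ e ∈ c, ∑ f ∈ d, P.X e f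

/-- A cubic vertex with its three edges and neighbours named. -/
structure Port (G : Gph) (v : G.V) where
  e : Fin 3 → G.E
  nb : Fin 3 → G.V
  e_inj : Function.Injective e
  nb_inj : Function.Injective nb
  nb_ne : ∀ i, nb i ≠ v
  ends : ∀ i, (G.a (e i) = v ∧ G.b (e i) = nb i) ∨ (G.a (e i) = nb i ∧ G.b (e i) = v)
  all : ∀ f, (G.a f = v ∨ G.b f = v) → ∃ i, f = e i

/-- A tripod for the port `p`: three disjoint chains from the neighbours of `v` to a centre `c`,
avoiding `v`. -/
structure Tripod (G : Gph) {v : G.V} (p : Port G v) where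
  c : G.V
  t : Fin 3 → Finset G.E
  c_ne : c ≠ v
  avoid : ∀ i, ∀ f ∈ t i, G.a f ≠ v ∧ G.b f ≠ v
  bd : ∀ i, G.bd (t i) = G.one (p.nb i) + G.one c
  disj : ∀ i j, i ≠ j → Disjoint (t i) (t j)

/-- Two edge-disjoint tripods exist. -/
def HasTri2 (G : Gph) {v : G.V} (p : Port G v) : Prop :=
  ∃ t1 t2 : Tripod G p, ∀ i j, Disjoint (t1.t i) (t2.t j)

/-- The zip product: delete `v1` and `v2` and join the `i`-th neighbours. -/
def zip (G1 G2 : Gph) {v1 : G1.V} {v2 : G2.V} (p1 : Port G1 v1) (p2 : Port G2 v2) : Gph where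
  V := {u : G1.V // u ≠ v1} ⊕ {u : G2.V // u ≠ v2}
  E := {e : G1.E // G1.a e ≠ v1 ∧ G1.b e ≠ v1} ⊕
    ({e : G2.E // G2.a e ≠ v2 ∧ G2.b e ≠ v2} ⊕ Fin 3)
  a := fun e => match e with
    | .inl e => .inl ⟨G1.a e.1, e.2.1⟩
    | .inr (.inl e) => .inr ⟨G2.a e.1, e.2.1⟩
    | .inr (.inr i) => .inl ⟨p1.nb i, p1.nb_ne i⟩
  b := fun e => match e with
    | .inl e => .inl ⟨G1.b e.1, e.2.2⟩
    | .inr (.inl e) => .inr ⟨G2.b e.1, e.2.2⟩
    | .inr (.inr i) => .inr ⟨p2.nb i, p2.nb_ne i⟩

/-- `e` is crossed in the spine drawing `S`. -/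
def Spine.Crossed {G : Gph} {α : Type} [LinearOrder α] (S : Spine G α) (e : G.E) : Prop :=
  ∃ x ∈ S.bends e, x ∈ S.crossings

/-- `e` is crossed in some spine drawing with at most `K` crossings. -/
def CrossedIn (G : Gph) (K : ℕ) (e : G.E) : Prop :=
  ∃ (α : Type) (_ : LinearOrder α) (S : Spine G α), S.crossings.card ≤ K ∧ S.Crossed e

/-- `G` has a spine drawing with at most `K` crossings, every `G - e` one with at most `K - 1`. -/
def FC (G : Gph) (K : ℕ) : Prop :=
  (∃ (α : Type) (_ : LinearOrder α) (S : Spine G α), S.crossings.card ≤ K) ∧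
  ∀ e : G.E, ∃ (α : Type) (_ : LinearOrder α) (S : Spine (G.del e) α), S.crossings.card + 1 ≤ K

/-- Everything we need about a graph with two non-adjacent cubic vertices used for zipping. -/
structure Good (G : Gph) (K : ℕ) where
  simple : G.Simple
  conn : G.ThreeConn
  lb : G.LB K
  fc : G.FC K
  v : G.V
  w : G.V
  ne : v ≠ w
  nadj : ¬ G.Adj v w
  pv : Port G v
  pw : Port G w
  tv : G.HasTri2 pv
  tw : G.HasTri2 pw
  cv : ∀ i, G.CrossedIn K (pv.e i)
  cw : ∀ i, G.CrossedIn K (pw.e i)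

/-- The complete bipartite graph `K_{3,3}`. -/
def K33 : Gph where
  V := Bool × Fin 3
  E := Fin 3 × Fin 3
  a := fun e => (false, e.1)
  b := fun e => (true, e.2)

end Gph

/-- A family of good graphs for the degree `d` (with crossing number `K`): arbitrarily many
vertices of degree `3` and `d`, boundedly many others, of boundedly many degrees. -/
def DegFamily (d K : ℕ) : Prop :=
  ∃ c : ℕ, ∀ n : ℕ, ∃ G : Gph, Nonempty (G.Good K) ∧
    n ≤ (Finset.univ.filter (fun v : G.V => G.deg v = 3)).card ∧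
    n ≤ (Finset.univ.filter (fun v : G.V => G.deg v = d)).card ∧
    (Finset.univ.filter (fun v : G.V => G.deg v ≠ 3 ∧ G.deg v ≠ d)).card ≤ c ∧
    ∀ v : G.V, G.deg v ≤ c

end Pool.Agent.CC
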