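import Pool.Agent.Lib_helper74.CCF.Chains

/-! # The lower bound for the strips with `W` regions (`F2`)

Level `Q` = first parameter of `tstrip`; `Q ≥ 1`, region `W` = `WLoc (Q-1)`, crossing number `Q+5`.
-/

namespace Pool.Agent.CC

open Gph

/-- `W` becomes `G`. -/
def RT.swapG : RT → RT
  | .T => .T
  | .G => .G
  | .W => .G

/-- The edges which are avoided by an embedding of the strip with `G` regions of the level below. -/
def RT.gfree (q : ℕ) : (t : RT) → (t.loc q).E → Prop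
  | .T => fun (e : Fin _ ⊕ Fin _) => e.isLeft
  | .G => fun _ => False
  | .W => fun (e : Bool × WE (q - 1)) => e.2 = .eta ∨ (∃ k : Fin (2 * (q - 1) + 3), e.2 = .leg k ∧
      (k.1 = 0 ∨ (q = 1 ∧ k.1 = 1)))

/-- The two legs of the last vertex. -/
def RT.wend (q : ℕ) : (t : RT) → (t.loc q).E → Prop
  | .T => fun _ => False
  | .G => fun _ => False
  | .W => fun (e : Bool × WE (q - 1)) => ∃ k : Fin (2 * (q - 1) + 3), e.2 = .leg k ∧
      (k.1 = 2 * (q - 1) + 1 ∨ k.1 = 2 * (q - 1) + 2)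

variable {N : ℕ} [NeZero N]

/-! ### Base level `Q = 1` (`W` = `WLoc 0`) -/

/-- The edges `s3, row 0, leg 2` of a part `s` of a region (empty for `T`, `G`). -/
def RT.r6 (s : Bool) : (t : RT) → Finset (t.loc 1).E
  | .T => (∅ : Finset (Fin _ ⊕ Fin _))
  | .G => (∅ : Finset (Bool × (Fin _ ⊕ Fin _)))
  | .W => ({(s, .s3), (s, .row ⟨0, by omega⟩), (s, .leg ⟨2, by omega⟩)} : Finset (Bool × WE 0))

/-- The edges `sig, b2` of a part `s` of a region. -/
def RT.r4 (s : Bool) : (t : RT) → Finset (t.loc 1).E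
  | .T => (∅ : Finset (Fin _ ⊕ Fin _))
  | .G => (∅ : Finset (Bool × (Fin _ ⊕ Fin _)))
  | .W => ({(s, .sig), (s, .b2)} : Finset (Bool × WE 0))

/-- leg 2 of a part -/
def RT.l2 (s : Bool) : (t : RT) → Finset (t.loc 1).E
  | .T => (∅ : Finset (Fin _ ⊕ Fin _))
  | .G => (∅ : Finset (Bool × (Fin _ ⊕ Fin _)))
  | .W => ({(s, .leg ⟨2, by omega⟩)} : Finset (Bool × WE 0))

/-- The cycle through the hubs `A`, `B` and the vertices `x 1` of both parts. -/
def RT.Y : (t : RT) → Finset (t.loc 1).E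
  | .T => (∅ : Finset (Fin _ ⊕ Fin _))
  | .G => (∅ : Finset (Bool × (Fin _ ⊕ Fin _)))
  | .W => ({(false, .leg ⟨1, by omega⟩), (false, .leg ⟨2, by omega⟩), (true, .leg ⟨1, by omega⟩),
      (true, .leg ⟨2, by omega⟩)} : Finset (Bool × WE 0))

/-- The edge `e` is one of `s3, row 0, leg 2` of a part of a `W` region. -/
def GT (τ : ZMod N → RT) (e : (tstrip 1 true τ).E) : Prop :=
  ∃ j s, ∃ f ∈ RT.r6 s (τ j), e = le 1 true τ j f

/-- The edge `e` is a leg of a `T` region, or `eta`, leg 0, leg 1 of a part of a `W` region. -/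
def FT1 (τ : ZMod N → RT) (e : (tstrip 1 true τ).E) : Prop :=
  ∃ j, ∃ f, RT.gfree 1 (τ j) f ∧ e = le 1 true τ j f

end Pool.Agent.CC
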