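import Pool.Agent.Lib_helper74.CCF.BEmb
import Pool.Agent.Lib_helper74.CCF.F2defs

/-!
# EMBW: `exists_emb_GW`, `exists_emb_GW0` (MP_198240_co)
-/

namespace Pool.Agent.CC

open Gph



namespace EMBW

open EMBT

/-- The edges of `W`. -/
abbrev WWE (q : ℕ) := Bool × WE q

/-- The vertices of `W`. -/
abbrev WWV (q : ℕ) := Bool × WV q

/-- The vertex map. -/
def gwv (q : ℕ) (x : GV q) : WWV q := (x.1, if x.2.1 = 0 then .w else .x x.2)

/-- The edge map. -/
def gwc (q : ℕ) : GE q → Finset (WWE q)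
  | (s, .inl k) => if k.1 = 0 then {(s, .sig), (s, .b2)} else {(s, .leg k)}
  | (s, .inr i) => if i.1 = 0 then {(s, .s3), (s, .row i)} else {(s, .row i)}

/-- Edge owners. -/
def gweo (q : ℕ) : WWE q → Option (GE q ⊕ Bool)
  | (_, .b1) => none
  | (s, .b2) => some (.inl (s, .inl ⟨0, by omega⟩))
  | (_, .eta) => none
  | (s, .sig) => some (.inl (s, .inl ⟨0, by omega⟩))
  | (s, .s3) => some (.inl (s, .inr ⟨0, by omega⟩))
  | (s, .leg k) => if k.1 = 0 then none else some (.inl (s, .inl k))
  | (s, .row i) => some (.inl (s, .inr i))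

/-- Vertex owners. -/
def gwvo (q : ℕ) : WWV q → Option (GE q ⊕ Bool)
  | (_, .v1) => none
  | (s, .v2) => some (.inl (s, .inl ⟨0, by omega⟩))
  | (_, .w) => none
  | (s, .x i) => if i.1 = 0 then some (.inl (s, .inr ⟨0, by omega⟩)) else none

/-- The bypass owners. -/
def weob (q : ℕ) : WWE q → Option Bool
  | (s, .b1) => some s
  | _ => none

/-- The bypass owners of vertices. -/
def wvob (q : ℕ) : WWV q → Option Bool
  | (s, .v1) => some s
  | _ => none

theorem gwv_zero (q : ℕ) (s : Bool) (h : 0 < 2 * q + 2) :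
    gwv q (s, ⟨0, h⟩) = (s, .w) := rfl

theorem gwv_pos (q : ℕ) (s : Bool) (i : Fin (2 * q + 2)) (h : i.1 ≠ 0) :
    gwv q (s, i) = (s, .x i) := by
  unfold gwv
  rw [if_neg h]

theorem gwc_leg0 (q : ℕ) (s : Bool) (k : Fin (2 * q + 3)) (h : k.1 = 0) :
    gwc q (s, .inl k) = {(s, .sig), (s, .b2)} := if_pos h

theorem gwc_leg (q : ℕ) (s : Bool) (k : Fin (2 * q + 3)) (h : k.1 ≠ 0) :
    gwc q (s, .inl k) = {(s, .leg k)} := if_neg h

theorem gwc_row0 (q : ℕ) (s : Bool) (k : Fin (2 * q + 1)) (h : k.1 = 0) :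
    gwc q (s, .inr k) = {(s, .s3), (s, .row k)} := if_pos h

theorem gwc_row (q : ℕ) (s : Bool) (k : Fin (2 * q + 1)) (h : k.1 ≠ 0) :
    gwc q (s, .inr k) = {(s, .row k)} := if_neg h

theorem sum_of_one {α : Type} {s : Finset α} {x : α} (h : s = {x}) (F : α → ZMod 2) :
    ∑ f ∈ s, F f = F x := by rw [h, Finset.sum_singleton]

theorem sum_of_two {α : Type} [DecidableEq α] {s : Finset α} {x y : α} (h : s = {x, y})
    (hxy : x ≠ y) (F : α → ZMod 2) : ∑ f ∈ s, F f = F x + F y := by rw [h, Finset.sum_pair hxy]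

/-- The hub of a leg. -/
theorem leg_hub (q : ℕ) (s : Bool) (k : Fin (2 * q + 3)) (h : k.1 ≠ 0) :
    (WLoc q).b (s, .leg k) = .inr (xor s (decide (k.1 % 2 = 0))) := by
  have e : decide (k.1 % 2 = 0 ∧ k.1 ≠ 0) = decide (k.1 % 2 = 0) :=
    decide_eq_decide.2 (and_iff_left h)
  exact congrArg (fun b => (Sum.inr (xor s b) : WWV q ⊕ Bool)) e

theorem leg_a (q : ℕ) (s : Bool) (k : Fin (2 * q + 3)) :
    (WLoc q).a (s, .leg k) = .inl (s, .x ⟨min k.1 (2 * q + 1), by omega⟩) := rfl

/-- `G(l-1)` into `W(l)`. -/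
def lembGW (q : ℕ) : LEmb (GLoc q) (WLoc q) where
  v := gwv q
  c := gwc q
  nm := ∅
  xm := ∅
  eo := gweo q
  vo := gwvo q
  v_inj := by
    rintro ⟨s, i⟩ ⟨t, j⟩ h
    have h1 : s = t := congrArg Prod.fst h
    subst h1
    by_cases hi : i.1 = 0 <;> by_cases hj : j.1 = 0
    · rw [show i = j from Fin.ext (hi.trans hj.symm)]
    · rw [show i = ⟨0, by omega⟩ from Fin.ext hi, gwv_zero, gwv_pos q s j hj] at h
      exact absurd (congrArg Prod.snd h) (by simp)
    · rw [show j = ⟨0, by omega⟩ from Fin.ext hj, gwv_zero, gwv_pos q s i hi] at h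
      exact absurd (congrArg Prod.snd h) (by simp)
    · rw [gwv_pos q s i hi, gwv_pos q s j hj] at h
      rw [WV.x.inj (congrArg Prod.snd h)]
  bdc := by
    intro e g
    rcases e with ⟨s, k | i⟩
    · by_cases hk : k.1 = 0
      · refine (sum_of_two (gwc_leg0 q s k hk) (by simp) _).trans ?_
        obtain rfl : k = ⟨0, Nat.succ_pos _⟩ := Fin.ext hk
        show g (.inl (s, .v2)) + g (.inl (s, .w)) + (g (.inl (s, .v2)) + g (.inr (!s))) =
          g (.inl (s, .w)) + g (.inr (xor s true))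
        rw [Bool.xor_true]
        linear_combination CharTwo.add_self_eq_zero (g (.inl (s, .v2)))
      · refine (sum_of_one (gwc_leg q s k hk) _).trans ?_
        have h1 : gwv q (s, ⟨min k.1 (2 * q + 1), by omega⟩) =
            (s, .x ⟨min k.1 (2 * q + 1), by omega⟩) :=
          gwv_pos q s _ (show min k.1 (2 * q + 1) ≠ 0 by omega)
        refine congrArg₂ (· + ·) (congrArg (fun y => g (.inl y)) h1.symm) ?_
        exact congrArg g (leg_hub q s k hk)
    · by_cases hk : i.1 = 0
      · refine (sum_of_two (gwc_row0 q s i hk) (by simp) _).trans ?_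
        obtain rfl : i = ⟨0, Nat.succ_pos _⟩ := Fin.ext hk
        have h1 : gwv q (s, ⟨0 + 1, by omega⟩) = (s, .x ⟨0 + 1, by omega⟩) :=
          gwv_pos q s _ (by simp)
        show g (.inl (s, .w)) + g (.inl (s, .x ⟨0, by omega⟩)) +
          (g (.inl (s, .x ⟨0, by omega⟩)) + g (.inl (s, .x ⟨0 + 1, by omega⟩))) =
          g (.inl (s, .w)) + g (.inl (gwv q (s, ⟨0 + 1, by omega⟩)))
        rw [h1]
        linear_combination CharTwo.add_self_eq_zero (g (.inl (s, WV.x ⟨0, by omega⟩)))
      · refine (sum_of_one (gwc_row q s i hk) _).trans ?_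
        have h1 : gwv q (s, ⟨i.1, by omega⟩) = (s, .x ⟨i.1, by omega⟩) := gwv_pos q s _ hk
        have h2 : gwv q (s, ⟨i.1 + 1, by omega⟩) = (s, .x ⟨i.1 + 1, by omega⟩) :=
          gwv_pos q s _ (by simp)
        exact congrArg₂ (· + ·) (congrArg (fun y => g (.inl y)) h1.symm)
          (congrArg (fun y => g (.inl y)) h2.symm)
  bdn := by
    intro g
    rw [Finset.sum_empty]
    exact (CharTwo.add_self_eq_zero _).symm
  bdx := by
    intro g
    rw [Finset.sum_empty]
    exact (CharTwo.add_self_eq_zero _).symm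
  eoc := by
    intro e f hf
    rcases e with ⟨s, k | i⟩
    · by_cases hk : k.1 = 0
      · rw [gwc_leg0 q s k hk] at hf
        obtain rfl : k = ⟨0, Nat.succ_pos _⟩ := Fin.ext hk
        rcases Finset.mem_insert.1 hf with rfl | hf
        · rfl
        · rw [Finset.mem_singleton.1 hf]
          rfl
      · rw [gwc_leg q s k hk] at hf
        rw [Finset.mem_singleton.1 hf]
        exact if_neg hk
    · by_cases hk : i.1 = 0
      · rw [gwc_row0 q s i hk] at hf
        obtain rfl : i = ⟨0, Nat.succ_pos _⟩ := Fin.ext hk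
        rcases Finset.mem_insert.1 hf with rfl | hf
        · rfl
        · rw [Finset.mem_singleton.1 hf]
          rfl
      · rw [gwc_row q s i hk] at hf
        rw [Finset.mem_singleton.1 hf]
        rfl
  eon := fun f hf => absurd hf (Finset.notMem_empty f)
  eox := fun f hf => absurd hf (Finset.notMem_empty f)
  vov := by
    rintro ⟨s, i⟩
    by_cases hi : i.1 = 0
    · rw [show i = ⟨0, by omega⟩ from Fin.ext hi, gwv_zero]
      rfl
    · rw [gwv_pos q s i hi]
      exact if_neg hi
  tc := by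
    intro e f hf x hx
    rcases e with ⟨s, k | i⟩
    · by_cases hk : k.1 = 0
      · rw [gwc_leg0 q s k hk] at hf
        obtain rfl : k = ⟨0, Nat.succ_pos _⟩ := Fin.ext hk
        rcases Finset.mem_insert.1 hf with rfl | hf
        · rcases hx with rfl | rfl
          · right
            exact ⟨(s, .v2), rfl, rfl⟩
          · left
            exact ⟨.inl (s, ⟨0, by omega⟩), rfl, .inl rfl⟩
        · rw [Finset.mem_singleton.1 hf] at hx
          rcases hx with rfl | rfl
          · right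
            exact ⟨(s, .v2), rfl, rfl⟩
          · left
            refine ⟨.inr (!s), rfl, .inr ?_⟩
            show (Sum.inr (xor s true) : GV q ⊕ Bool) = .inr (!s)
            rw [Bool.xor_true]
      · rw [gwc_leg q s k hk] at hf
        rw [Finset.mem_singleton.1 hf] at hx
        left
        rcases hx with rfl | rfl
        · refine ⟨.inl (s, ⟨min k.1 (2 * q + 1), by omega⟩), ?_, .inl rfl⟩
          have h1 : gwv q (s, ⟨min k.1 (2 * q + 1), by omega⟩) =
              (s, .x ⟨min k.1 (2 * q + 1), by omega⟩) :=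
            gwv_pos q s _ (show min k.1 (2 * q + 1) ≠ 0 by omega)
          exact congrArg (fun y => (Sum.inl y : WWV q ⊕ Bool)) h1.symm
        · exact ⟨.inr (xor s (decide (k.1 % 2 = 0))), leg_hub q s k hk, .inr rfl⟩
    · by_cases hk : i.1 = 0
      · rw [gwc_row0 q s i hk] at hf
        obtain rfl : i = ⟨0, Nat.succ_pos _⟩ := Fin.ext hk
        rcases Finset.mem_insert.1 hf with rfl | hf
        · rcases hx with rfl | rfl
          · left
            exact ⟨.inl (s, ⟨0, by omega⟩), rfl, .inl rfl⟩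
          · right
            exact ⟨(s, .x ⟨0, by omega⟩), rfl, rfl⟩
        · rw [Finset.mem_singleton.1 hf] at hx
          rcases hx with rfl | rfl
          · right
            exact ⟨(s, .x ⟨0, by omega⟩), rfl, rfl⟩
          · left
            refine ⟨.inl (s, ⟨0 + 1, by omega⟩), ?_, .inr rfl⟩
            have h1 : gwv q (s, ⟨0 + 1, by omega⟩) = (s, .x ⟨0 + 1, by omega⟩) :=
              gwv_pos q s _ (by simp)
            exact congrArg (fun y => (Sum.inl y : WWV q ⊕ Bool)) h1.symm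
      · rw [gwc_row q s i hk] at hf
        rw [Finset.mem_singleton.1 hf] at hx
        left
        rcases hx with rfl | rfl
        · refine ⟨.inl (s, ⟨i.1, by omega⟩), ?_, .inl rfl⟩
          have h1 : gwv q (s, ⟨i.1, by omega⟩) = (s, .x ⟨i.1, by omega⟩) := gwv_pos q s _ hk
          exact congrArg (fun y => (Sum.inl y : WWV q ⊕ Bool)) h1.symm
        · refine ⟨.inl (s, ⟨i.1 + 1, by omega⟩), ?_, .inr rfl⟩
          have h1 : gwv q (s, ⟨i.1 + 1, by omega⟩) = (s, .x ⟨i.1 + 1, by omega⟩) :=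
            gwv_pos q s _ (by simp)
          exact congrArg (fun y => (Sum.inl y : WWV q ⊕ Bool)) h1.symm
  tn := fun f hf => absurd hf (Finset.notMem_empty f)
  tx := fun f hf => absurd hf (Finset.notMem_empty f)
  ten := .inl rfl
  tex := .inl rfl

/-- The bypass part of an embedding of `G` into `W` which does not use `v1`, `b1`. -/
def bembGW {q q' : ℕ} (D : LEmb (GLoc q') (WLoc q)) (h1 : ∀ s, D.eo (s, .b1) = none)
    (h2 : ∀ s, D.vo (s, .v1) = none) (h3 : ∀ u s, D.v u ≠ (s, .v1)) : BEmb D where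
  bm := {(false, .b1)}
  dm := {(true, .b1)}
  eob := weob q
  vob := wvob q
  bdb := by
    intro g
    exact Finset.sum_singleton _ _
  bdd := by
    intro g
    exact (Finset.sum_singleton _ _).trans (add_comm _ _)
  eobm := by
    intro f hf
    rw [Finset.mem_singleton.1 hf]
    rfl
  eodm := by
    intro f hf
    rw [Finset.mem_singleton.1 hf]
    rfl
  eoc := by
    rintro ⟨s, f⟩ hf
    cases f with
    | b1 => exact absurd (h1 s) hf
    | _ => rfl
  vov := by
    intro u
    have h := h3 u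
    generalize D.v u = y at h
    obtain ⟨s, y⟩ := y
    cases y with
    | v1 => exact absurd rfl (h s)
    | _ => rfl
  voc := by
    rintro ⟨s, y⟩ hy
    cases y with
    | v1 => exact absurd (h2 s) hy
    | _ => rfl
  tb := by
    intro f hf x hx
    rw [Finset.mem_singleton.1 hf] at hx
    rcases hx with rfl | rfl
    · right
      exact ⟨(false, .v1), rfl, rfl⟩
    · left
      rfl
  td := by
    intro f hf x hx
    rw [Finset.mem_singleton.1 hf] at hx
    rcases hx with rfl | rfl
    · right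
      exact ⟨(true, .v1), rfl, rfl⟩
    · left
      rfl
  tbl := .inr ⟨(false, .v1), rfl, rfl⟩
  tbr := .inr ⟨(true, .v1), rfl, rfl⟩

/-- The vertex map of the variant at the lowest level. -/
def g1v (x : GV 0) : WWV 0 := (x.1, if x.2.1 = 0 then .w else .x ⟨0, by omega⟩)

/-- The edge map of the variant. -/
def g1c : GE 0 → Finset (WWE 0)
  | (s, .inl k) => if k.1 = 0 then {(s, .sig), (s, .b2)} else
      if k.1 = 1 then {(s, .leg ⟨0, by omega⟩)} else {(s, .row ⟨0, by omega⟩), (s, .leg ⟨2, by omega⟩)}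
  | (s, .inr _) => {(s, .s3)}

/-- Edge owners of the variant. -/
def g1eo : WWE 0 → Option (GE 0 ⊕ Bool)
  | (_, .b1) => none
  | (s, .b2) => some (.inl (s, .inl ⟨0, by omega⟩))
  | (_, .eta) => none
  | (s, .sig) => some (.inl (s, .inl ⟨0, by omega⟩))
  | (s, .s3) => some (.inl (s, .inr ⟨0, by omega⟩))
  | (s, .leg k) => if k.1 = 0 then some (.inl (s, .inl ⟨1, by omega⟩)) else
      if k.1 = 1 then none else some (.inl (s, .inl ⟨2, by omega⟩))
  | (s, .row _) => some (.inl (s, .inl ⟨2, by omega⟩))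

/-- Vertex owners of the variant. -/
def g1vo : WWV 0 → Option (GE 0 ⊕ Bool)
  | (_, .v1) => none
  | (s, .v2) => some (.inl (s, .inl ⟨0, by omega⟩))
  | (_, .w) => none
  | (s, .x i) => if i.1 = 0 then none else some (.inl (s, .inl ⟨2, by omega⟩))

theorem fin3 (k : Fin (2 * 0 + 3)) :
    k = ⟨0, by omega⟩ ∨ k = ⟨1, by omega⟩ ∨ k = ⟨2, by omega⟩ := by
  have h := k.2
  have h' : k.1 = 0 ∨ k.1 = 1 ∨ k.1 = 2 := by omega
  rcases h' with h' | h' | h'
  · exact .inl (Fin.ext h')
  · exact .inr (.inl (Fin.ext h'))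
  · exact .inr (.inr (Fin.ext h'))

theorem fin2 (k : Fin (2 * 0 + 2)) : k = ⟨0, by omega⟩ ∨ k = ⟨1, by omega⟩ := by
  have h := k.2
  have h' : k.1 = 0 ∨ k.1 = 1 := by omega
  rcases h' with h' | h'
  · exact .inl (Fin.ext h')
  · exact .inr (Fin.ext h')

theorem fin1 (k : Fin (2 * 0 + 1)) : k = ⟨0, by omega⟩ := by
  have h := k.2
  exact Fin.ext (by omega)

/-- `G(l-1)` into `W(l)`, lowest level, avoiding leg 1. -/
def lembGW1 : LEmb (GLoc 0) (WLoc 0) where
  v := g1v
  c := g1c
  nm := ∅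
  xm := ∅
  eo := g1eo
  vo := g1vo
  v_inj := by
    rintro ⟨s, i⟩ ⟨t, j⟩ h
    have h1 : s = t := congrArg Prod.fst h
    subst h1
    have h2 : (g1v (s, i)).2 = (g1v (s, j)).2 := congrArg Prod.snd h
    rcases fin2 i with rfl | rfl <;> rcases fin2 j with rfl | rfl
    · rfl
    · exact absurd h2 (by simp [g1v])
    · exact absurd h2 (by simp [g1v])
    · rfl
  bdc := by
    intro e g
    rcases e with ⟨s, k | i⟩
    · rcases fin3 k with rfl | rfl | rfl
      · refine (sum_of_two (s := g1c (s, .inl ⟨0, by omega⟩)) rfl (by simp) _).trans ?_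
        show g (.inl (s, .v2)) + g (.inl (s, .w)) + (g (.inl (s, .v2)) + g (.inr (!s))) =
          g (.inl (s, .w)) + g (.inr (xor s true))
        rw [Bool.xor_true]
        linear_combination CharTwo.add_self_eq_zero (g (.inl (s, .v2)))
      · exact sum_of_one (s := g1c (s, .inl ⟨1, by omega⟩)) rfl _
      · refine (sum_of_two (s := g1c (s, .inl ⟨2, by omega⟩)) rfl (by simp) _).trans ?_
        show g (.inl (s, .x ⟨0, by omega⟩)) + g (.inl (s, .x ⟨1, by omega⟩)) +
          (g (.inl (s, .x ⟨1, by omega⟩)) + g (.inr (xor s true))) =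
          g (.inl (s, .x ⟨0, by omega⟩)) + g (.inr (xor s true))
        linear_combination CharTwo.add_self_eq_zero (g (.inl (s, WV.x ⟨1, by omega⟩)))
    · rcases fin1 i with rfl
      exact sum_of_one (s := g1c (s, .inr ⟨0, by omega⟩)) rfl _
  bdn := by
    intro g
    rw [Finset.sum_empty]
    exact (CharTwo.add_self_eq_zero _).symm
  bdx := by
    intro g
    rw [Finset.sum_empty]
    exact (CharTwo.add_self_eq_zero _).symm
  eoc := by
    intro e f hf
    rcases e with ⟨s, k | i⟩
    · rcases fin3 k with rfl | rfl | rfl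
      · have hf : f ∈ ({(s, .sig), (s, .b2)} : Finset (WWE 0)) := hf
        rcases Finset.mem_insert.1 hf with rfl | hf
        · rfl
        · rw [Finset.mem_singleton.1 hf]
          rfl
      · have hf : f ∈ ({(s, .leg ⟨0, by omega⟩)} : Finset (WWE 0)) := hf
        rw [Finset.mem_singleton.1 hf]
        rfl
      · have hf : f ∈ ({(s, .row ⟨0, by omega⟩), (s, .leg ⟨2, by omega⟩)} : Finset (WWE 0)) := hf
        rcases Finset.mem_insert.1 hf with rfl | hf
        · rfl
        · rw [Finset.mem_singleton.1 hf]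
          rfl
    · rcases fin1 i with rfl
      have hf : f ∈ ({(s, .s3)} : Finset (WWE 0)) := hf
      rw [Finset.mem_singleton.1 hf]
      rfl
  eon := fun f hf => absurd hf (Finset.notMem_empty f)
  eox := fun f hf => absurd hf (Finset.notMem_empty f)
  vov := by
    rintro ⟨s, i⟩
    rcases fin2 i with rfl | rfl <;> rfl
  tc := by
    intro e f hf x hx
    rcases e with ⟨s, k | i⟩
    · rcases fin3 k with rfl | rfl | rfl
      · have hf : f ∈ ({(s, .sig), (s, .b2)} : Finset (WWE 0)) := hf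
        rcases Finset.mem_insert.1 hf with rfl | hf
        · rcases hx with rfl | rfl
          · right
            exact ⟨(s, .v2), rfl, rfl⟩
          · left
            exact ⟨.inl (s, ⟨0, by omega⟩), rfl, .inl rfl⟩
        · rw [Finset.mem_singleton.1 hf] at hx
          rcases hx with rfl | rfl
          · right
            exact ⟨(s, .v2), rfl, rfl⟩
          · left
            refine ⟨.inr (!s), rfl, .inr ?_⟩
            show (Sum.inr (xor s true) : GV 0 ⊕ Bool) = .inr (!s)
            rw [Bool.xor_true]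
      · have hf : f ∈ ({(s, .leg ⟨0, by omega⟩)} : Finset (WWE 0)) := hf
        rw [Finset.mem_singleton.1 hf] at hx
        left
        rcases hx with rfl | rfl
        · exact ⟨.inl (s, ⟨1, by omega⟩), rfl, .inl rfl⟩
        · exact ⟨.inr (xor s false), rfl, .inr rfl⟩
      · have hf : f ∈ ({(s, .row ⟨0, by omega⟩), (s, .leg ⟨2, by omega⟩)} : Finset (WWE 0)) := hf
        rcases Finset.mem_insert.1 hf with rfl | hf
        · rcases hx with rfl | rfl
          · left
            exact ⟨.inl (s, ⟨1, by omega⟩), rfl, .inl rfl⟩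
          · right
            exact ⟨(s, .x ⟨1, by omega⟩), rfl, rfl⟩
        · rw [Finset.mem_singleton.1 hf] at hx
          rcases hx with rfl | rfl
          · right
            exact ⟨(s, .x ⟨1, by omega⟩), rfl, rfl⟩
          · left
            exact ⟨.inr (xor s true), rfl, .inr rfl⟩
    · rcases fin1 i with rfl
      have hf : f ∈ ({(s, .s3)} : Finset (WWE 0)) := hf
      rw [Finset.mem_singleton.1 hf] at hx
      left
      rcases hx with rfl | rfl
      · exact ⟨.inl (s, ⟨0, by omega⟩), rfl, .inl rfl⟩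
      · exact ⟨.inl (s, ⟨1, by omega⟩), rfl, .inr rfl⟩
  tn := fun f hf => absurd hf (Finset.notMem_empty f)
  tx := fun f hf => absurd hf (Finset.notMem_empty f)
  ten := .inl rfl
  tex := .inl rfl

theorem gwv_ne (q : ℕ) (u : GV q) (s : Bool) : gwv q u ≠ (s, .v1) := by
  intro h
  have h2 := congrArg Prod.snd h
  unfold gwv at h2
  by_cases hu : u.2.1 = 0
  · rw [if_pos hu] at h2
    exact absurd h2 (by simp)
  · rw [if_neg hu] at h2
    exact absurd h2 (by simp)

theorem g1v_ne (u : GV 0) (s : Bool) : g1v u ≠ (s, .v1) := by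
  intro h
  have h2 := congrArg Prod.snd h
  unfold g1v at h2
  by_cases hu : u.2.1 = 0
  · rw [if_pos hu] at h2
    exact absurd h2 (by simp)
  · rw [if_neg hu] at h2
    exact absurd h2 (by simp)

/-- The standard local embedding with its bypass part. -/
def anyGW (q : ℕ) : (t : RT) → t ≠ .G →
    Σ' D : LEmb ((t.swapG).loc q) (t.loc (q + 1)), BEmb D
  | .T, _ => ⟨lembT (q + 1) 0 (Nat.zero_le _), BEmb.triv _ rfl rfl⟩
  | .G, h => absurd rfl h
  | .W, _ => ⟨lembGW q, bembGW (lembGW q) (fun _ => rfl) (fun _ => rfl) (gwv_ne q)⟩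

theorem exists_anyGW_avoid (q : ℕ) : ∀ (t : RT) (_ : t ≠ .G) (e : (t.loc (q + 1)).E)
    (_ : RT.gfree (q + 1) t e), ∃ X : (Σ' D : LEmb ((t.swapG).loc q) (t.loc (q + 1)), BEmb D),
      X.1.Avoid e ∧ e ∉ X.2.bm ∧ e ∉ X.2.dm
  | .T, _, e, he => by
    have he' : ∃ i : Fin (2 * (q + 1 + 1) + 2), e = (Sum.inl i : TE (q + 1 + 1)) := by
      rcases e with i | i
      · exact ⟨i, rfl⟩
      · exact absurd he (by simp [RT.gfree])
    obtain ⟨i, rfl⟩ := he'
    by_cases hi : i.1 ≤ 2 * (q + 1) + 2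
    · exact ⟨⟨lembT (q + 1) i.1 hi, BEmb.triv _ rfl rfl⟩,
        lembT_avoid (q + 1) i.1 hi i (.inl rfl), Finset.notMem_empty _, Finset.notMem_empty _⟩
    · have := i.2
      exact ⟨⟨lembT (q + 1) (2 * (q + 1) + 2) le_rfl, BEmb.triv _ rfl rfl⟩,
        lembT_avoid (q + 1) _ le_rfl i (.inr (by omega)), Finset.notMem_empty _,
        Finset.notMem_empty _⟩
  | .G, h, _, _ => absurd rfl h
  | .W, _, (s, f), he => by
    have key : ∀ (X : Σ' D : LEmb (GLoc q) (WLoc q), BEmb D), X.1.eo (s, f) = none →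
        X.2.eob (s, f) = none → X.1.Avoid (s, f) ∧ (s, f) ∉ X.2.bm ∧ (s, f) ∉ X.2.dm :=
      fun X h1 h2 => ⟨avoid_of_none X.1 h1, notMem_bm_of_none X.2 h2⟩
    rcases he with he | ⟨k, he, hk⟩
    · have he : f = .eta := he
      subst he
      exact ⟨⟨lembGW q, bembGW (lembGW q) (fun _ => rfl) (fun _ => rfl) (gwv_ne q)⟩,
        key _ rfl rfl⟩
    · have he : f = .leg k := he
      subst he
      by_cases h0 : k.1 = 0
      · exact ⟨⟨lembGW q, bembGW (lembGW q) (fun _ => rfl) (fun _ => rfl) (gwv_ne q)⟩,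
          key _ (if_pos h0) rfl⟩
      · rcases hk with hk | ⟨hq, hk⟩
        · exact absurd hk h0
        · have hq : q = 0 := by omega
          subst hq
          exact ⟨⟨lembGW1, bembGW lembGW1 (fun _ => rfl) (fun _ => rfl) g1v_ne⟩,
            key _ ((if_neg h0).trans (if_pos hk)) rfl⟩

end EMBW

open EMBW EMBT

variable {N : ℕ} [NeZero N]

/-- EMBW1. -/
theorem exists_emb_GW (hN : 5 ≤ N) (q : ℕ) (τ : ZMod N → RT) (hG : ∀ j, τ j ≠ .G) (j : ZMod N)
    (e : ((τ j).loc (q + 1)).E) (he : RT.gfree (q + 1) (τ j) e) :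
    ∃ φ : TEmb (tstrip q true (fun j => (τ j).swapG)) (tstrip (q + 1) true τ),
      ∀ f, le (q + 1) true τ j e ∉ φ.c f := by
  have h1 : (1 : ZMod N) ≠ 0 := by
    have : Fact (1 < N) := ⟨by omega⟩
    exact one_ne_zero
  obtain ⟨X0, hX0⟩ := exists_anyGW_avoid q (τ j) (hG j) e he
  let X : ∀ k : ZMod N, Σ' D : LEmb (((τ k).swapG).loc q) ((τ k).loc (q + 1)), BEmb D :=
    fun k => if h : k = j then h ▸ X0 else anyGW q (τ k) (hG k)
  have hX : X j = X0 := by
    simp only [X, dite_true]
  exact strip_bemb_avoid h1 (L := fun j => ((τ j).swapG).loc q) (L' := fun j => (τ j).loc (q + 1))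
    (fun k => (X k).1) (fun k => (X k).2) true j e (by rw [hX]; exact hX0.1)
    (by rw [hX]; exact hX0.2.1) (by rw [hX]; exact hX0.2.2)

/-- EMBW2. The same embedding without the bypass edges. -/
theorem exists_emb_GW0 (hN : 5 ≤ N) (τ : ZMod N → RT) (hG : ∀ j, τ j ≠ .G) :
    ∃ φ : TEmb (tstrip 0 false (fun j => (τ j).swapG)) (tstrip 1 true τ),
      ∀ f e, ByT 1 true τ e → e ∉ φ.c f := by
  have h1 : (1 : ZMod N) ≠ 0 := by
    have : Fact (1 < N) := ⟨by omega⟩
    exact one_ne_zero
  let D : ∀ k, LEmb (((τ k).swapG).loc 0) ((τ k).loc 1) := fun k => (anyGW 0 (τ k) (hG k)).1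
  let B : ∀ k, BEmb (D k) := fun k => (anyGW 0 (τ k) (hG k)).2
  obtain ⟨φ, hφ⟩ := exists_strip_bemb h1 (L := fun j => ((τ j).swapG).loc 0)
    (L' := fun j => (τ j).loc 1) D B false
  refine ⟨φ, fun f e he => ?_⟩
  rw [hφ]
  rcases e with ⟨j, x⟩ | j | j
  · refine notMem_bC (L := fun j => ((τ j).swapG).loc 0) (L' := fun j => (τ j).loc 1) D B false
      j x ?_ (fun h => absurd h (by simp)) (fun h => absurd h (by simp)) f
    have he : RT.isB1 1 (τ j) x := he
    have key : ∀ (t : RT) (ht : t ≠ .G) (x : (t.loc 1).E), RT.isB1 1 t x →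
        (anyGW 0 t ht).1.Avoid x := by
      intro t ht x hx
      match t, ht, x, hx with
      | .T, _, _, hx => exact absurd hx (by simp [RT.isB1])
      | .G, ht, _, _ => exact absurd rfl ht
      | .W, _, (s, x), hx =>
        have hx : x = .b1 := hx
        subst hx
        exact avoid_of_none _ rfl
    exact key (τ j) (hG j) x he
  · exact absurd he (by simp [ByT])
  · exact notMem_bC_by (L := fun j => ((τ j).swapG).loc 0) (L' := fun j => (τ j).loc 1) D B j f

end Pool.Agent.CC
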