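import Pool.Agent.Lib_helper74.CCF.Chains

/-! Embeddings of strips from embeddings of the local graphs (entry, exit and bypass ends kept). -/

namespace Pool.Agent.CC

open Gph

/-- `x` is an end of the local edge `e`. -/
def Loc.End (L : Loc) (x : L.V ⊕ Bool) (e : L.E) : Prop := L.a e = x ∨ L.b e = x

/-- Local embedding. `own x = some e`: `x` is an inner vertex of the path `c e`. -/
structure LEmb (L' L : Loc) where
  v : L'.V → L.V
  c : L'.E → Finset L.E
  inj : Function.Injective v
  bd : ∀ e x, ∑ f ∈ c e, ((if L.a f = x then (1 : ZMod 2) else 0) + (if L.b f = x then 1 else 0)) =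
    (if Sum.map v id (L'.a e) = x then 1 else 0) + (if Sum.map v id (L'.b e) = x then 1 else 0)
  own : L.V → Option L'.E
  hown : ∀ u, own (v u) = none
  ends : ∀ e, ∀ e' ∈ c e, ∀ x, L.End x e' →
    (∃ u, x = Sum.map v id u ∧ L'.End u e) ∨ (∃ y, x = .inl y ∧ own y = some e)
  disj : ∀ e f, e ≠ f → Disjoint (c e) (c f)
  en : v L'.en = L.en
  ex : v L'.ex = L.ex
  bl : L.bl = L'.bl.map v
  br : L.br = L'.br.map v

variable {N : ℕ} [NeZero N]

namespace EmbL

variable (hN : 5 ≤ N) {L' L : ZMod N → Loc} (φ : ∀ j, LEmb (L' j) (L j)) (c : Bool)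

/-- vertices -/
def V : (strip L' c).V → (strip L c).V
  | .inl j => .inl j
  | .inr ⟨j, u⟩ => .inr ⟨j, (φ j).v u⟩

/-- edges -/
def C : (strip L' c).E → Finset (strip L c).E
  | .inl ⟨j, e⟩ => ((φ j).c e).image (fun f => (Sum.inl ⟨j, f⟩ : (strip L c).E))
  | .inr x => {Sum.inr x}

theorem V_inj : Function.Injective (V φ c) := by
  rintro (i | ⟨i, x⟩) (j | ⟨j, y⟩) h
  · exact congrArg Sum.inl (Sum.inl_injective h)
  · exact absurd h (by simp [V])
  · exact absurd h (by simp [V])
  · have h1 := Sum.inr_injective h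
    have h2 : i = j := congrArg Sigma.fst h1
    subst h2
    have h3 : (φ i).v x = (φ i).v y := eq_of_heq (Sigma.mk.inj h1).2
    rw [(φ i).inj h3]

theorem V_locEnd (j : ZMod N) (u : (L' j).V ⊕ Bool) :
    V φ c (locEnd L' j u) = locEnd L j (Sum.map (φ j).v id u) := by
  rcases u with u | (_ | _) <;> rfl

theorem V_byL (j : ZMod N) : V φ c (byL L' j) = byL L j := by
  unfold byL
  rw [(φ j).br]
  cases (L' j).br <;> rfl

theorem V_byR (j : ZMod N) : V φ c (byR L' j) = byR L j := by
  unfold byR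
  rw [(φ (j + 1)).bl]
  cases (L' (j + 1)).bl <;> rfl

theorem a_inr (x : ZMod N ⊕ {_j : ZMod N // c = true}) :
    (strip L c).a (.inr x) = V φ c ((strip L' c).a (.inr x)) := by
  rcases x with j | ⟨j, hj⟩
  · show (Sum.inr ⟨j, (L j).ex⟩ : ZMod N ⊕ (Σ j, (L j).V)) = Sum.inr ⟨j, (φ j).v (L' j).ex⟩
    rw [(φ j).ex]
  · exact (V_byL φ c j).symm

theorem b_inr (x : ZMod N ⊕ {_j : ZMod N // c = true}) :
    (strip L c).b (.inr x) = V φ c ((strip L' c).b (.inr x)) := by
  rcases x with j | ⟨j, hj⟩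
  · show (Sum.inr ⟨j + 1, (L (j + 1)).en⟩ : ZMod N ⊕ (Σ j, (L j).V)) =
      Sum.inr ⟨j + 1, (φ (j + 1)).v (L' (j + 1)).en⟩
    rw [(φ (j + 1)).en]
  · exact (V_byR φ c j).symm

omit [NeZero N] in
include hN in
theorem one_ne : (1 : ZMod N) ≠ 0 := by
  intro h
  have : ((1 : ℕ) : ZMod N) = 0 := by exact_mod_cast h
  rw [ZMod.natCast_eq_zero_iff] at this
  have := Nat.le_of_dvd one_pos this
  omega

include hN in
theorem locEnd_inj (M : ZMod N → Loc) (j : ZMod N) : Function.Injective (locEnd M j) := by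
  have h1 : j - 1 ≠ j := fun h => one_ne hN (sub_eq_self.1 h)
  rintro (x | (_ | _)) (y | (_ | _)) h
  · have h1 := Sum.inr_injective h
    have h3 : x = y := eq_of_heq (Sigma.mk.inj h1).2
    rw [h3]
  · exact absurd h (by simp [locEnd])
  · exact absurd h (by simp [locEnd])
  · exact absurd h (by simp [locEnd])
  · rfl
  · exact absurd (Sum.inl_injective h) h1
  · exact absurd h (by simp [locEnd])
  · exact absurd (Sum.inl_injective h).symm h1
  · rfl

/-- the ends of the edges of `C e` -/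
theorem ends (e : (strip L' c).E) (e' : (strip L c).E) (he : e' ∈ C φ c e) (x : (strip L c).V)
    (hx : (strip L c).a e' = x ∨ (strip L c).b e' = x) :
    (∃ u, x = V φ c u ∧ ((strip L' c).a e = u ∨ (strip L' c).b e = u)) ∨
    (∃ j y f, x = .inr ⟨j, y⟩ ∧ (φ j).own y = some f ∧ e = .inl ⟨j, f⟩) := by
  rcases e with ⟨j, e⟩ | e
  · obtain ⟨f, hf, rfl⟩ := Finset.mem_image.1 he
    have hx' : ∃ y, x = locEnd L j y ∧ (L j).End y f := by
      rcases hx with h | h
      · exact ⟨_, h.symm, Or.inl rfl⟩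
      · exact ⟨_, h.symm, Or.inr rfl⟩
    obtain ⟨y, rfl, hy⟩ := hx'
    rcases (φ j).ends e f hf y hy with ⟨u, rfl, hu⟩ | ⟨z, rfl, hz⟩
    · left
      refine ⟨locEnd L' j u, (V_locEnd φ c j u).symm, ?_⟩
      rcases hu with h | h
      · exact Or.inl (congrArg (locEnd L' j) h)
      · exact Or.inr (congrArg (locEnd L' j) h)
    · right
      exact ⟨j, z, e, rfl, hz, rfl⟩
  · have h1 : e' = Sum.inr e := Finset.mem_singleton.1 he
    subst h1
    left
    rcases hx with h | h
    · exact ⟨(strip L' c).a (.inr e), by rw [← h, a_inr φ c e], Or.inl rfl⟩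
    · exact ⟨(strip L' c).b (.inr e), by rw [← h, b_inr φ c e], Or.inr rfl⟩

theorem hown (u : (strip L' c).V) (j : ZMod N) (y : (L j).V) (f : (L' j).E)
    (h : V φ c u = .inr ⟨j, y⟩) (hf : (φ j).own y = some f) : False := by
  rcases u with i | ⟨i, x⟩
  · exact absurd h (by simp [V])
  · have h1 := Sum.inr_injective h
    have h2 : i = j := congrArg Sigma.fst h1
    subst h2
    have h3 : (φ i).v x = y := eq_of_heq (Sigma.mk.inj h1).2
    rw [← h3, (φ i).hown x] at hf
    exact absurd hf (by simp)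

theorem share {e f : (strip L' c).E} (hI : (strip L' c).Ind e f) {e' f' : (strip L c).E}
    (he : e' ∈ C φ c e) (hf : f' ∈ C φ c f) (x : (strip L c).V)
    (h1 : (strip L c).a e' = x ∨ (strip L c).b e' = x)
    (h2 : (strip L c).a f' = x ∨ (strip L c).b f' = x) : False := by
  rcases ends φ c e e' he x h1 with ⟨u, hu, hu'⟩ | ⟨j, y, g, hj, hg, rfl⟩ <;>
  rcases ends φ c f f' hf x h2 with ⟨w, hw, hw'⟩ | ⟨k, z, g', hk, hg', rfl⟩
  · have huw : u = w := V_inj φ c (hu.symm.trans hw)
    subst huw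
    obtain ⟨i1, i2, i3, i4⟩ := hI
    rcases hu' with h | h <;> rcases hw' with h' | h'
    · exact i1 (h.trans h'.symm)
    · exact i2 (h.trans h'.symm)
    · exact i3 (h.trans h'.symm)
    · exact i4 (h.trans h'.symm)
  · exact hown φ c u k z g' (hu.symm.trans hk) hg'
  · exact hown φ c w j y g (hw.symm.trans hj) hg
  · have h3 := Sum.inr_injective (hj.symm.trans hk)
    have h4 : j = k := congrArg Sigma.fst h3
    subst h4
    have h5 : y = z := eq_of_heq (Sigma.mk.inj h3).2
    subst h5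
    rw [hg] at hg'
    have h6 : g = g' := Option.some_injective _ hg'
    subst h6
    exact hI.1 rfl

theorem sum_single {G : Gph} (e : G.E) (x : G.V) :
    G.bd {e} x = (if G.a e = x then (1 : ZMod 2) else 0) + (if G.b e = x then 1 else 0) := by
  simp [Gph.bd]

include hN in
theorem bd_local (j : ZMod N) (e : (L' j).E) :
    (strip L c).bd (C φ c (.inl ⟨j, e⟩)) =
      (strip L c).one (V φ c ((strip L' c).a (.inl ⟨j, e⟩))) +
      (strip L c).one (V φ c ((strip L' c).b (.inl ⟨j, e⟩))) := by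
  have hinj : Function.Injective (fun f => (Sum.inl ⟨j, f⟩ : (strip L c).E)) := by
    intro f g h
    exact eq_of_heq (Sigma.mk.inj (Sum.inl_injective h)).2
  have hl : ∀ y, (∑ f ∈ (φ j).c e, ((if (L j).a f = y then (1 : ZMod 2) else 0) +
      (if (L j).b f = y then 1 else 0))) = _ := (φ j).bd e
  funext x
  show (∑ f ∈ ((φ j).c e).image (fun f => (Sum.inl ⟨j, f⟩ : (strip L c).E)), _) = _
  rw [Finset.sum_image (fun a _ b _ h => hinj h)]
  have ha : V φ c ((strip L' c).a (.inl ⟨j, e⟩)) = locEnd L j (Sum.map (φ j).v id ((L' j).a e)) :=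
    V_locEnd φ c j _
  have hb : V φ c ((strip L' c).b (.inl ⟨j, e⟩)) = locEnd L j (Sum.map (φ j).v id ((L' j).b e)) :=
    V_locEnd φ c j _
  rw [ha, hb]
  show (∑ f ∈ (φ j).c e, ((if locEnd L j ((L j).a f) = x then (1 : ZMod 2) else 0) +
    (if locEnd L j ((L j).b f) = x then 1 else 0))) =
    (if locEnd L j (Sum.map (φ j).v id ((L' j).a e)) = x then 1 else 0) +
    (if locEnd L j (Sum.map (φ j).v id ((L' j).b e)) = x then 1 else 0)
  by_cases hx : ∃ y, locEnd L j y = x
  · obtain ⟨y, rfl⟩ := hx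
    have hiff : ∀ z, (locEnd L j z = locEnd L j y) ↔ z = y :=
      fun z => ⟨fun h => locEnd_inj hN L j h, fun h => h ▸ rfl⟩
    simp only [hiff]
    exact hl y
  · have hn : ∀ z, ¬ (locEnd L j z = x) := fun z h => hx ⟨z, h⟩
    simp only [hn, if_false, add_zero, Finset.sum_const_zero]

/-- The embedding of strips. -/
def temb : TEmb (strip L' c) (strip L c) where
  v := V φ c
  c := C φ c
  v_inj := V_inj φ c
  bd := by
    rintro (⟨j, e⟩ | x)
    · exact bd_local hN φ c j e
    · funext y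
      have h := sum_single (G := strip L c) (Sum.inr x) y
      rw [a_inr φ c x, b_inr φ c x] at h
      exact h
  ind := by
    intro e f hI e' he f' hf
    exact ⟨fun h => share φ c hI he hf _ (Or.inl rfl) (Or.inl h.symm),
      fun h => share φ c hI he hf _ (Or.inl rfl) (Or.inr h.symm),
      fun h => share φ c hI he hf _ (Or.inr rfl) (Or.inl h.symm),
      fun h => share φ c hI he hf _ (Or.inr rfl) (Or.inr h.symm)⟩
  disj := by
    rintro (⟨j, e⟩ | x) (⟨k, f⟩ | y) hne
    · rw [Finset.disjoint_left]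
      intro g hg hg'
      obtain ⟨g1, hg1, rfl⟩ := Finset.mem_image.1 hg
      obtain ⟨g2, hg2, h⟩ := Finset.mem_image.1 hg'
      have h1 := Sum.inl_injective h
      have h2 : k = j := congrArg Sigma.fst h1
      subst h2
      have h3 : g2 = g1 := eq_of_heq (Sigma.mk.inj h1).2
      subst h3
      have hef : e ≠ f := fun h => hne (by rw [h])
      exact Finset.disjoint_left.1 ((φ k).disj e f hef) hg1 hg2
    · rw [Finset.disjoint_left]
      intro g hg hg'
      obtain ⟨g1, hg1, rfl⟩ := Finset.mem_image.1 hg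
      exact absurd (Finset.mem_singleton.1 hg') (by simp)
    · rw [Finset.disjoint_left]
      intro g hg' hg
      obtain ⟨g1, hg1, rfl⟩ := Finset.mem_image.1 hg
      exact absurd (Finset.mem_singleton.1 hg') (by simp)
    · rw [Finset.disjoint_left]
      intro g hg hg'
      have h1 := (Finset.mem_singleton.1 hg).symm.trans (Finset.mem_singleton.1 hg')
      exact hne (congrArg Sum.inr (Sum.inr_injective h1))

theorem avoid (j : ZMod N) (e : (L j).E) (h : ∀ f, e ∉ (φ j).c f) (f : (strip L' c).E) :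
    (Sum.inl ⟨j, e⟩ : (strip L c).E) ∉ (temb hN φ c).c f := by
  rcases f with ⟨k, f⟩ | y
  · intro hm
    obtain ⟨g, hg, h1⟩ := Finset.mem_image.1 hm
    have h2 := Sum.inl_injective h1
    have h3 : k = j := congrArg Sigma.fst h2
    subst h3
    have h4 : g = e := eq_of_heq (Sigma.mk.inj h2).2
    subst h4
    exact h f hg
  · intro hm
    exact absurd (Finset.mem_singleton.1 hm) (by simp)

end EmbL

end Pool.Agent.CC
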