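import Pool.Agent.Lib_helper74.CCF.Chains

/-!
# EMBT: embeddings of strips from local embeddings of the regions (MP_198240_co)
-/

namespace Pool.Agent.CC

open Gph

namespace EMBT

/-- A topological embedding from owner functions for the vertices and the edges of `G`. -/
theorem exists_TEmb_of_owner {H G : Gph} (v : H.V → G.V) (hv : Function.Injective v)
    (c : H.E → Finset G.E)
    (bd : ∀ e (g : G.V → ZMod 2), ∑ f ∈ c e, (g (G.a f) + g (G.b f)) =
      g (v (H.a e)) + g (v (H.b e)))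
    (eo : G.E → Option H.E) (heo : ∀ e, ∀ f ∈ c e, eo f = some e)
    (vo : G.V → Option H.E) (hvo : ∀ u, vo (v u) = none)
    (touch : ∀ e, ∀ f ∈ c e, ∀ x, (G.a f = x ∨ G.b f = x) →
      (∃ u, x = v u ∧ (H.a e = u ∨ H.b e = u)) ∨ vo x = some e) :
    ∃ φ : TEmb H G, φ.c = c := by
  have key : ∀ e f, H.Ind e f → ∀ e' ∈ c e, ∀ f' ∈ c f, ∀ x, (G.a e' = x ∨ G.b e' = x) →
      (G.a f' = x ∨ G.b f' = x) → False := by
    intro e f hef e' he' f' hf' x hx hx'
    obtain ⟨h1, h2, h3, h4⟩ := hef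
    rcases touch e e' he' x hx with ⟨u, hu, hu'⟩ | hu
    · rcases touch f f' hf' x hx' with ⟨w, hw, hw'⟩ | hw
      · have : u = w := hv (hu.symm.trans hw)
        subst this
        rcases hu' with hu' | hu' <;> rcases hw' with hw' | hw'
        · exact h1 (hu'.trans hw'.symm)
        · exact h2 (hu'.trans hw'.symm)
        · exact h3 (hu'.trans hw'.symm)
        · exact h4 (hu'.trans hw'.symm)
      · rw [hu, hvo] at hw
        exact absurd hw (by simp)
    · rcases touch f f' hf' x hx' with ⟨w, hw, hw'⟩ | hw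
      · rw [hw, hvo] at hu
        exact absurd hu (by simp)
      · rw [hu] at hw
        have : e = f := Option.some.inj hw
        subst this
        exact h1 rfl
  refine ⟨⟨v, c, hv, ?_, ?_, ?_⟩, rfl⟩
  · intro e
    funext x
    have := bd e (fun y => if y = x then 1 else 0)
    simpa [Gph.bd, Gph.one] using this
  · intro e f hef e' he' f' hf'
    refine ⟨fun h => ?_, fun h => ?_, fun h => ?_, fun h => ?_⟩
    · exact key e f hef e' he' f' hf' (G.a e') (.inl rfl) (.inl h.symm)
    · exact key e f hef e' he' f' hf' (G.a e') (.inl rfl) (.inr h.symm)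
    · exact key e f hef e' he' f' hf' (G.b e') (.inr rfl) (.inl h.symm)
    · exact key e f hef e' he' f' hf' (G.b e') (.inr rfl) (.inr h.symm)
  · intro e f hef
    rw [Finset.disjoint_left]
    intro x hx hx'
    have h1 := heo e x hx
    have h2 := heo f x hx'
    rw [h1] at h2
    exact hef (Option.some.inj h2)

/-- A local embedding of a region into a region. `nm`, `xm`: the chains from the new entry to the
image of the old entry, from the image of the old exit to the new exit. Owners: `inl e` = the edge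
`e`, `inr false` = the row edge coming in, `inr true` = the row edge going out. -/
structure LEmb (L L' : Loc) where
  v : L.V → L'.V
  c : L.E → Finset L'.E
  nm : Finset L'.E
  xm : Finset L'.E
  eo : L'.E → Option (L.E ⊕ Bool)
  vo : L'.V → Option (L.E ⊕ Bool)
  v_inj : Function.Injective v
  bdc : ∀ e (g : L'.V ⊕ Bool → ZMod 2), ∑ f ∈ c e, (g (L'.a f) + g (L'.b f)) =
    g (Sum.map v id (L.a e)) + g (Sum.map v id (L.b e))
  bdn : ∀ (g : L'.V ⊕ Bool → ZMod 2), ∑ f ∈ nm, (g (L'.a f) + g (L'.b f)) =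
    g (.inl L'.en) + g (.inl (v L.en))
  bdx : ∀ (g : L'.V ⊕ Bool → ZMod 2), ∑ f ∈ xm, (g (L'.a f) + g (L'.b f)) =
    g (.inl (v L.ex)) + g (.inl L'.ex)
  eoc : ∀ e, ∀ f ∈ c e, eo f = some (.inl e)
  eon : ∀ f ∈ nm, eo f = some (.inr false)
  eox : ∀ f ∈ xm, eo f = some (.inr true)
  vov : ∀ u, vo (v u) = none
  tc : ∀ e, ∀ f ∈ c e, ∀ x, (L'.a f = x ∨ L'.b f = x) →
    (∃ u, x = Sum.map v id u ∧ (L.a e = u ∨ L.b e = u)) ∨
      (∃ y, x = .inl y ∧ vo y = some (.inl e))
  tn : ∀ f ∈ nm, ∀ x, (L'.a f = x ∨ L'.b f = x) → x = .inl (v L.en) ∨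
    (∃ y, x = .inl y ∧ vo y = some (.inr false))
  tx : ∀ f ∈ xm, ∀ x, (L'.a f = x ∨ L'.b f = x) → x = .inl (v L.ex) ∨
    (∃ y, x = .inl y ∧ vo y = some (.inr true))
  ten : L'.en = v L.en ∨ vo L'.en = some (.inr false)
  tex : L'.ex = v L.ex ∨ vo L'.ex = some (.inr true)

/-- The local embedding avoids the edge `e`. -/
def LEmb.Avoid {L L' : Loc} (D : LEmb L L') (e : L'.E) : Prop :=
  (∀ f, e ∉ D.c f) ∧ e ∉ D.nm ∧ e ∉ D.xm

variable {N : ℕ} [NeZero N]

/-- The owner in the strip. -/
def lift (L : ZMod N → Loc) (j : ZMod N) : Option ((L j).E ⊕ Bool) → Option (strip L false).E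
  | none => none
  | some (.inl e) => some (.inl ⟨j, e⟩)
  | some (.inr false) => some (.inr (.inl (j - 1)))
  | some (.inr true) => some (.inr (.inl j))

/-- The chains of the strip embedding. -/
def sC {L L' : ZMod N → Loc} (D : ∀ j, LEmb (L j) (L' j)) :
    (strip L false).E → Finset (strip L' false).E
  | .inl ⟨j, e⟩ => ((D j).c e).image (fun f => (Sum.inl ⟨j, f⟩ : (strip L' false).E))
  | .inr (.inl j) => ((D j).xm.image (fun f => (Sum.inl ⟨j, f⟩ : (strip L' false).E))) ∪
      ({(Sum.inr (Sum.inl j) : (strip L' false).E)} ∪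
        ((D (j + 1)).nm.image (fun f => (Sum.inl ⟨j + 1, f⟩ : (strip L' false).E))))
  | .inr (.inr _) => ∅

/-- The vertex map. -/
def sV {L L' : ZMod N → Loc} (D : ∀ j, LEmb (L j) (L' j)) :
    (strip L false).V → (strip L' false).V
  | .inl j => .inl j
  | .inr ⟨j, u⟩ => .inr ⟨j, (D j).v u⟩

/-- The edge owners. -/
def sEo {L L' : ZMod N → Loc} (D : ∀ j, LEmb (L j) (L' j)) :
    (strip L' false).E → Option (strip L false).E
  | .inl ⟨j, f⟩ => lift L j ((D j).eo f)
  | .inr (.inl j) => some (.inr (.inl j))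
  | .inr (.inr _) => none

/-- The vertex owners. -/
def sVo {L L' : ZMod N → Loc} (D : ∀ j, LEmb (L j) (L' j)) :
    (strip L' false).V → Option (strip L false).E
  | .inl _ => none
  | .inr ⟨j, u⟩ => lift L j ((D j).vo u)

theorem sV_locEnd {L L' : ZMod N → Loc} (D : ∀ j, LEmb (L j) (L' j)) (j : ZMod N)
    (u : (L j).V ⊕ Bool) :
    sV D (locEnd L j u) = locEnd L' j (Sum.map (D j).v id u) := by
  rcases u with u | u
  · rfl
  · cases u <;> rfl

theorem mem_sC_loc {L L' : ZMod N → Loc} (D : ∀ j, LEmb (L j) (L' j)) (j : ZMod N) (e : (L j).E)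
    (f : (strip L' false).E) : f ∈ sC D (.inl ⟨j, e⟩) ↔
      ∃ f' ∈ (D j).c e, (Sum.inl ⟨j, f'⟩ : (strip L' false).E) = f :=
  Finset.mem_image

theorem mem_sC_row {L L' : ZMod N → Loc} (D : ∀ j, LEmb (L j) (L' j)) (j : ZMod N)
    (f : (strip L' false).E) : f ∈ sC D (.inr (.inl j)) ↔
      (∃ f' ∈ (D j).xm, (Sum.inl ⟨j, f'⟩ : (strip L' false).E) = f) ∨ f = .inr (.inl j) ∨
      (∃ f' ∈ (D (j + 1)).nm, (Sum.inl ⟨j + 1, f'⟩ : (strip L' false).E) = f) :=
  Finset.mem_union.trans (or_congr Finset.mem_image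
    (Finset.mem_union.trans (or_congr Finset.mem_singleton Finset.mem_image)))

theorem exists_strip_emb (hN : (1 : ZMod N) ≠ 0) {L L' : ZMod N → Loc}
    (D : ∀ j, LEmb (L j) (L' j)) :
    ∃ φ : TEmb (strip L false) (strip L' false), φ.c = sC D := by
  have hinj : ∀ j : ZMod N, Function.Injective
      (fun f => (Sum.inl ⟨j, f⟩ : (strip L' false).E)) := by
    intro j f f' h
    simpa using h
  refine exists_TEmb_of_owner (sV D) ?_ (sC D) ?_ (sEo D) ?_ (sVo D) ?_ ?_
  · intro x y h
    rcases x with x | ⟨j, x⟩ <;> rcases y with y | ⟨k, y⟩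
    · have h' : (Sum.inl x : ZMod N ⊕ (Σ j, (L' j).V)) = .inl y := h
      rw [Sum.inl.inj h']
    · exact absurd (show (Sum.inl x : ZMod N ⊕ (Σ j, (L' j).V)) = .inr ⟨k, (D k).v y⟩ from h)
        (by simp)
    · exact absurd (show (Sum.inr ⟨j, (D j).v x⟩ : ZMod N ⊕ (Σ j, (L' j).V)) = .inl y from h)
        (by simp)
    · have h' : (Sum.inr ⟨j, (D j).v x⟩ : ZMod N ⊕ (Σ j, (L' j).V)) = .inr ⟨k, (D k).v y⟩ := h
      have h2 := Sum.inr.inj h'
      have h3 : j = k := congrArg Sigma.fst h2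
      subst h3
      have h4 : (D j).v x = (D j).v y := by
        have := (Sigma.mk.injEq _ _ _ _).mp h2
        exact eq_of_heq this.2
      rw [(D j).v_inj h4]
  · intro e g
    rcases e with ⟨j, e⟩ | j | ⟨_, h⟩
    · show ∑ f ∈ ((D j).c e).image (fun f => (Sum.inl ⟨j, f⟩ : (strip L' false).E)), _ =
        g (sV D (locEnd L j ((L j).a e))) + g (sV D (locEnd L j ((L j).b e)))
      rw [Finset.sum_image (fun x _ y _ h => hinj j h), sV_locEnd, sV_locEnd]
      exact (D j).bdc e (fun x => g (locEnd L' j x))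
    · have hj : j + 1 ≠ j := by
        intro h
        exact hN (by simpa using h)
      show ∑ f ∈ ((D j).xm.image (fun f => (Sum.inl ⟨j, f⟩ : (strip L' false).E))) ∪
        ({(Sum.inr (Sum.inl j) : (strip L' false).E)} ∪
          ((D (j + 1)).nm.image (fun f => (Sum.inl ⟨j + 1, f⟩ : (strip L' false).E)))), _ =
        g (.inr ⟨j, (D j).v (L j).ex⟩) + g (.inr ⟨j + 1, (D (j + 1)).v (L (j + 1)).en⟩)
      rw [Finset.sum_union, Finset.sum_union, Finset.sum_image (fun x _ y _ h => hinj j h),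
        Finset.sum_image (fun x _ y _ h => hinj (j + 1) h), Finset.sum_singleton]
      · have h1 := (D j).bdx (fun x => g (locEnd L' j x))
        have h2 := (D (j + 1)).bdn (fun x => g (locEnd L' (j + 1) x))
        have e1 : ∀ x, g ((strip L' false).a (Sum.inl ⟨j, x⟩)) +
            g ((strip L' false).b (Sum.inl ⟨j, x⟩)) =
            g (locEnd L' j ((L' j).a x)) + g (locEnd L' j ((L' j).b x)) := fun x => rfl
        have e2 : ∀ x, g ((strip L' false).a (Sum.inl ⟨j + 1, x⟩)) +
            g ((strip L' false).b (Sum.inl ⟨j + 1, x⟩)) =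
            g (locEnd L' (j + 1) ((L' (j + 1)).a x)) + g (locEnd L' (j + 1) ((L' (j + 1)).b x)) :=
          fun x => rfl
        simp only [e1, e2]
        rw [h1, h2]
        show g (.inr ⟨j, (D j).v (L j).ex⟩) + g (.inr ⟨j, (L' j).ex⟩) +
          (g (.inr ⟨j, (L' j).ex⟩) + g (.inr ⟨j + 1, (L' (j + 1)).en⟩) +
          (g (.inr ⟨j + 1, (L' (j + 1)).en⟩) + g (.inr ⟨j + 1, (D (j + 1)).v (L (j + 1)).en⟩))) = _
        have t1 := CharTwo.add_self_eq_zero (g (.inr ⟨j, (L' j).ex⟩))
        have t2 := CharTwo.add_self_eq_zero (g (.inr ⟨j + 1, (L' (j + 1)).en⟩))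
        linear_combination t1 + t2
      · rw [Finset.disjoint_left]
        intro x hx hx'
        rw [Finset.mem_singleton] at hx
        subst hx
        simp at hx'
      · rw [Finset.disjoint_left]
        intro x hx hx'
        rw [Finset.mem_image] at hx
        obtain ⟨f, _, rfl⟩ := hx
        simp only [Finset.mem_union, Finset.mem_singleton, Finset.mem_image] at hx'
        rcases hx' with hx' | ⟨f', _, hx'⟩
        · simp at hx'
        · simp only [Sum.inl.injEq, Sigma.mk.injEq] at hx'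
          exact hj hx'.1
    · simp at h
  · intro e f hf
    rcases e with ⟨j, e⟩ | j | ⟨_, h⟩
    · rw [mem_sC_loc] at hf
      obtain ⟨f, hf, rfl⟩ := hf
      simp only [sEo, (D j).eoc e f hf, lift]
    · rw [mem_sC_row] at hf
      rcases hf with ⟨f, hf, rfl⟩ | rfl | ⟨f, hf, rfl⟩
      · simp only [sEo, (D j).eox f hf, lift]
      · simp only [sEo]
      · simp only [sEo, (D (j + 1)).eon f hf, lift, add_sub_cancel_right]
    · simp at h
  · intro u
    rcases u with u | ⟨j, u⟩
    · rfl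
    · simp only [sV, sVo, (D j).vov u, lift]
  · intro e f hf x hx
    rcases e with ⟨j, e⟩ | j | ⟨_, h⟩
    · rw [mem_sC_loc] at hf
      obtain ⟨f, hf, rfl⟩ := hf
      have hx' : ∃ y, x = locEnd L' j y ∧ ((L' j).a f = y ∨ (L' j).b f = y) := by
        rcases hx with hx | hx
        · exact ⟨_, hx.symm, .inl rfl⟩
        · exact ⟨_, hx.symm, .inr rfl⟩
      obtain ⟨y, rfl, hy⟩ := hx'
      rcases (D j).tc e f hf y hy with ⟨u, hu, hu'⟩ | ⟨y', rfl, hy'⟩
      · left
        refine ⟨locEnd L j u, ?_, ?_⟩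
        · rw [hu, sV_locEnd]
        · rcases hu' with hu' | hu'
          · left
            rw [← hu']
            rfl
          · right
            rw [← hu']
            rfl
      · right
        show lift L j ((D j).vo y') = _
        rw [hy']
        rfl
    · rw [mem_sC_row] at hf
      rcases hf with ⟨f, hf, rfl⟩ | rfl | ⟨f, hf, rfl⟩
      · have hx' : ∃ y, x = locEnd L' j y ∧ ((L' j).a f = y ∨ (L' j).b f = y) := by
          rcases hx with hx | hx
          · exact ⟨_, hx.symm, .inl rfl⟩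
          · exact ⟨_, hx.symm, .inr rfl⟩
        obtain ⟨y, rfl, hy⟩ := hx'
        rcases (D j).tx f hf y hy with rfl | ⟨y', rfl, hy'⟩
        · left
          exact ⟨.inr ⟨j, (L j).ex⟩, rfl, .inl rfl⟩
        · right
          show lift L j ((D j).vo y') = _
          rw [hy']
          rfl
      · rcases hx with rfl | rfl
        · rcases (D j).tex with h | h
          · left
            refine ⟨.inr ⟨j, (L j).ex⟩, ?_, .inl rfl⟩
            show (Sum.inr ⟨j, (L' j).ex⟩ : (strip L' false).V) = .inr ⟨j, (D j).v (L j).ex⟩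
            rw [h]
          · right
            show lift L j ((D j).vo (L' j).ex) = _
            rw [h]
            rfl
        · rcases (D (j + 1)).ten with h | h
          · left
            refine ⟨.inr ⟨j + 1, (L (j + 1)).en⟩, ?_, .inr rfl⟩
            show (Sum.inr ⟨j + 1, (L' (j + 1)).en⟩ : (strip L' false).V) =
              .inr ⟨j + 1, (D (j + 1)).v (L (j + 1)).en⟩
            rw [h]
          · right
            show lift L (j + 1) ((D (j + 1)).vo (L' (j + 1)).en) = _
            rw [h]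
            simp only [lift, add_sub_cancel_right]
      · have hx' : ∃ y, x = locEnd L' (j + 1) y ∧
            ((L' (j + 1)).a f = y ∨ (L' (j + 1)).b f = y) := by
          rcases hx with hx | hx
          · exact ⟨_, hx.symm, .inl rfl⟩
          · exact ⟨_, hx.symm, .inr rfl⟩
        obtain ⟨y, rfl, hy⟩ := hx'
        rcases (D (j + 1)).tn f hf y hy with rfl | ⟨y', rfl, hy'⟩
        · left
          exact ⟨.inr ⟨j + 1, (L (j + 1)).en⟩, rfl, .inr rfl⟩
        · right
          show lift L (j + 1) ((D (j + 1)).vo y') = _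
          rw [hy']
          simp only [lift, add_sub_cancel_right]
    · simp at h

theorem strip_emb_avoid (hN : (1 : ZMod N) ≠ 0) {L L' : ZMod N → Loc}
    (D : ∀ j, LEmb (L j) (L' j)) (j : ZMod N) (e : (L' j).E) (he : (D j).Avoid e) :
    ∃ φ : TEmb (strip L false) (strip L' false), ∀ f, (Sum.inl ⟨j, e⟩ : (strip L' false).E) ∉ φ.c f := by
  obtain ⟨φ, hφ⟩ := exists_strip_emb hN D
  refine ⟨φ, fun f => ?_⟩
  rw [hφ]
  obtain ⟨h1, h2, h3⟩ := he
  rcases f with ⟨k, f⟩ | k | ⟨_, h⟩
  · intro hm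
    obtain ⟨x, hx, h⟩ := (mem_sC_loc D k f _).1 hm
    have h := (Sigma.mk.injEq _ _ _ _).mp (Sum.inl.inj h)
    obtain ⟨rfl, h⟩ := h
    rw [heq_eq_eq] at h
    subst h
    exact h1 f hx
  · intro hm
    rcases (mem_sC_row D k _).1 hm with ⟨x, hx, h⟩ | h | ⟨x, hx, h⟩
    · have h := (Sigma.mk.injEq _ _ _ _).mp (Sum.inl.inj h)
      obtain ⟨rfl, h⟩ := h
      rw [heq_eq_eq] at h
      subst h
      exact h3 hx
    · exact absurd h (by simp)
    · have h := (Sigma.mk.injEq _ _ _ _).mp (Sum.inl.inj h)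
      obtain ⟨rfl, h⟩ := h
      rw [heq_eq_eq] at h
      subst h
      exact h2 hx
  · simp at h

/-- The edges of `T`. -/
abbrev TE (q : ℕ) := Fin (2 * q + 2) ⊕ Fin (2 * q + 1)

/-- The row edges of `T` with numbers in `[lo, hi)`. -/
def rowsT (q lo hi : ℕ) : Finset (TE q) :=
  (Finset.univ.filter (fun m : Fin (2 * q + 1) => lo ≤ m.1 ∧ m.1 < hi)).map
    ⟨Sum.inr, Sum.inr_injective⟩

theorem mem_rowsT {q lo hi : ℕ} {f : TE q} :
    f ∈ rowsT q lo hi ↔ ∃ m : Fin (2 * q + 1), f = .inr m ∧ lo ≤ m.1 ∧ m.1 < hi := by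
  constructor
  · intro h
    simp only [rowsT, Finset.mem_map, Finset.mem_filter, Finset.mem_univ, true_and,
      Function.Embedding.coeFn_mk] at h
    obtain ⟨m, hm, rfl⟩ := h
    exact ⟨m, rfl, hm⟩
  · rintro ⟨m, rfl, hm⟩
    simp only [rowsT, Finset.mem_map, Finset.mem_filter, Finset.mem_univ, true_and,
      Function.Embedding.coeFn_mk]
    exact ⟨m, hm, rfl⟩

theorem sum_rowsT (q lo : ℕ) (g : Fin (2 * q + 2) ⊕ Bool → ZMod 2) : ∀ (hi : ℕ)
    (h : lo ≤ hi) (h' : hi ≤ 2 * q + 1),
    ∑ f ∈ rowsT q lo hi, (g ((TLoc q).a f) + g ((TLoc q).b f)) =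
      g (.inl ⟨lo, by omega⟩) + g (.inl ⟨hi, by omega⟩) := by
  intro hi
  induction hi with
  | zero =>
    intro h h'
    obtain rfl : lo = 0 := by omega
    have : rowsT q 0 0 = ∅ := by
      ext f
      simp [mem_rowsT]
    rw [this, Finset.sum_empty]
    exact (CharTwo.add_self_eq_zero _).symm
  | succ n ih =>
    intro h h'
    by_cases hlo : lo = n + 1
    · subst hlo
      have : rowsT q (n + 1) (n + 1) = ∅ := by
        ext f
        simp only [mem_rowsT, Finset.notMem_empty, iff_false, not_exists, not_and]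
        intro m _ hm
        omega
      rw [this, Finset.sum_empty]
      exact (CharTwo.add_self_eq_zero _).symm
    · have hn : n < 2 * q + 1 := by omega
      have : rowsT q lo (n + 1) = insert (Sum.inr ⟨n, hn⟩) (rowsT q lo n) := by
        ext f
        simp only [mem_rowsT, Finset.mem_insert]
        constructor
        · rintro ⟨m, rfl, h1, h2⟩
          by_cases hm : m.1 = n
          · left
            rw [show m = ⟨n, hn⟩ from Fin.ext hm]
          · right
            exact ⟨m, rfl, h1, by omega⟩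
        · rintro (rfl | ⟨m, rfl, h1, h2⟩)
          · exact ⟨⟨n, hn⟩, rfl, by simp only; omega, by simp⟩
          · exact ⟨m, rfl, h1, by omega⟩
      have hni : (Sum.inr ⟨n, hn⟩ : TE q) ∉ rowsT q lo n := by
        rw [mem_rowsT]
        rintro ⟨m, hm, h1, h2⟩
        have := Sum.inr.inj hm
        subst this
        simp at h2
      rw [this, Finset.sum_insert hni, ih (by omega) (by omega)]
      show (g (.inl ⟨n, _⟩) + g (.inl ⟨n + 1, _⟩)) + _ = _
      have := CharTwo.add_self_eq_zero (g (.inl ⟨n, by omega⟩))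
      linear_combination this

/-- `T`: the vertex map which leaves out `k, k+1`. -/
def tv (q k : ℕ) (i : Fin (2 * q + 2)) : Fin (2 * (q + 1) + 2) :=
  ⟨if i.1 < k then i.1 else i.1 + 2, by split_ifs <;> omega⟩

theorem tv_val (q k : ℕ) (i : Fin (2 * q + 2)) : (tv q k i).1 = if i.1 < k then i.1 else i.1 + 2 :=
  rfl

/-- `T`: the image of an edge. -/
def tc (q k : ℕ) : TE q → Finset (TE (q + 1))
  | .inl i => {.inl (tv q k i)}
  | .inr i => rowsT (q + 1) (tv q k ⟨i.1, by omega⟩).1 (tv q k ⟨i.1 + 1, by omega⟩).1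

/-- `T`: edge owners. -/
def teo (q k : ℕ) : TE (q + 1) → Option (TE q ⊕ Bool)
  | .inl i => if h : i.1 < k ∧ i.1 < 2 * q + 2 then some (.inl (.inl ⟨i.1, h.2⟩))
      else if k + 2 ≤ i.1 then some (.inl (.inl ⟨i.1 - 2, by omega⟩)) else none
  | .inr i => if h : i.1 + 1 < k ∧ i.1 < 2 * q + 1 then some (.inl (.inr ⟨i.1, h.2⟩))
      else if k + 2 ≤ i.1 then some (.inl (.inr ⟨i.1 - 2, by omega⟩))
      else if k = 0 then some (.inr false)
      else if h : k - 1 < 2 * q + 1 then some (.inl (.inr ⟨k - 1, h⟩))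
      else some (.inr true)

/-- `T`: vertex owners. -/
def tvo (q k : ℕ) (i : Fin (2 * (q + 1) + 2)) : Option (TE q ⊕ Bool) :=
  if k ≤ i.1 ∧ i.1 < k + 2 then
      if k = 0 then some (.inr false)
      else if h : k - 1 < 2 * q + 1 then some (.inl (.inr ⟨k - 1, h⟩))
      else some (.inr true)
    else none

theorem tv_lt {q k : ℕ} {i : Fin (2 * q + 2)} (h : i.1 < k) : (tv q k i).1 = i.1 := if_pos h

theorem tv_ge {q k : ℕ} {i : Fin (2 * q + 2)} (h : k ≤ i.1) : (tv q k i).1 = i.1 + 2 :=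
  if_neg (by omega)

theorem tv_inj (q k : ℕ) : Function.Injective (tv q k) := by
  intro i j h
  have h := congrArg Fin.val h
  apply Fin.ext
  rcases lt_or_ge i.1 k with hi | hi <;> rcases lt_or_ge j.1 k with hj | hj
  · rw [tv_lt hi, tv_lt hj] at h
    exact h
  · rw [tv_lt hi, tv_ge hj] at h
    omega
  · rw [tv_ge hi, tv_lt hj] at h
    omega
  · rw [tv_ge hi, tv_ge hj] at h
    omega

theorem tv_mod (q k : ℕ) (i : Fin (2 * q + 2)) : (tv q k i).1 % 2 = i.1 % 2 := by
  rcases lt_or_ge i.1 k with hi | hi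
  · rw [tv_lt hi]
  · rw [tv_ge hi]
    omega

theorem teo_inl (q k : ℕ) (i : Fin (2 * q + 2)) :
    teo q k (.inl (tv q k i)) = some (.inl (.inl i)) := by
  rcases lt_or_ge i.1 k with hi | hi
  · have h := tv_lt (q := q) hi
    have h2 := i.2
    unfold teo
    simp only
    rw [dif_pos ⟨by omega, by omega⟩]
    simp only [h]
  · have h := tv_ge (q := q) hi
    unfold teo
    simp only
    rw [dif_neg (by omega), if_pos (by omega)]
    simp only [h, Nat.add_sub_cancel]

theorem teo_inr {q k : ℕ} (_hk : k ≤ 2 * q + 2) (i : Fin (2 * q + 1)) (m : Fin (2 * (q + 1) + 1))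
    (h1 : (tv q k ⟨i.1, by omega⟩).1 ≤ m.1) (h2 : m.1 < (tv q k ⟨i.1 + 1, by omega⟩).1) :
    teo q k (.inr m) = some (.inl (.inr i)) := by
  have hi := i.2
  unfold teo
  simp only
  rcases lt_trichotomy (i.1 + 1) k with h | h | h
  · rw [tv_lt (show i.1 < k by omega)] at h1
    rw [tv_lt (show i.1 + 1 < k by omega)] at h2
    have : m.1 = i.1 := by simp only at h1 h2; omega
    rw [dif_pos ⟨by omega, by omega⟩]
    simp only [this]
  · rw [tv_lt (show i.1 < k by omega)] at h1
    rw [tv_ge (show k ≤ i.1 + 1 by omega)] at h2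
    simp only at h1 h2
    rw [dif_neg (by omega), if_neg (by omega), if_neg (by omega), dif_pos (by omega)]
    have : k - 1 = i.1 := by omega
    simp only [this]
  · rw [tv_ge (show k ≤ i.1 by omega)] at h1
    rw [tv_ge (show k ≤ i.1 + 1 by omega)] at h2
    have : m.1 = i.1 + 2 := by simp only at h1 h2; omega
    rw [dif_neg (by omega), if_pos (by omega)]
    simp only [this, Nat.add_sub_cancel]

theorem teo_en {q k : ℕ} (m : Fin (2 * (q + 1) + 1)) (h2 : m.1 < (tv q k ⟨0, by omega⟩).1) :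
    k = 0 ∧ m.1 < 2 ∧ teo q k (.inr m) = some (.inr false) := by
  rcases Nat.eq_zero_or_pos k with h | h
  · subst h
    rw [tv_ge (le_refl 0)] at h2
    simp only at h2
    refine ⟨rfl, by omega, ?_⟩
    unfold teo
    simp only
    rw [dif_neg (by omega), if_neg (by omega), if_pos trivial]
  · rw [tv_lt h] at h2
    exact absurd h2 (by simp)

theorem teo_ex {q k : ℕ} (hk : k ≤ 2 * q + 2) (m : Fin (2 * (q + 1) + 1))
    (h1 : (tv q k ⟨2 * q + 1, by omega⟩).1 ≤ m.1) :
    k = 2 * q + 2 ∧ 2 * q + 1 ≤ m.1 ∧ teo q k (.inr m) = some (.inr true) := by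
  have hm := m.2
  rcases Nat.lt_or_ge (2 * q + 1) k with h | h
  · rw [tv_lt (by exact h)] at h1
    simp only at h1
    refine ⟨by omega, by omega, ?_⟩
    unfold teo
    simp only
    rw [dif_neg (by omega), if_neg (by omega), if_neg (by omega), dif_neg (by omega)]
  · rw [tv_ge (by exact h)] at h1
    simp only at h1
    omega

theorem tvo_tv (q k : ℕ) (i : Fin (2 * q + 2)) : tvo q k (tv q k i) = none := by
  unfold tvo
  rw [if_neg]
  rcases lt_or_ge i.1 k with hi | hi
  · rw [tv_lt hi]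
    omega
  · rw [tv_ge hi]
    omega

theorem tvo_row {q k : ℕ} (_hk : k ≤ 2 * q + 2) (i : Fin (2 * q + 1)) (y : Fin (2 * (q + 1) + 2))
    (h1 : (tv q k ⟨i.1, by omega⟩).1 < y.1) (h2 : y.1 < (tv q k ⟨i.1 + 1, by omega⟩).1) :
    tvo q k y = some (.inl (.inr i)) := by
  have hi := i.2
  unfold tvo
  rcases lt_trichotomy (i.1 + 1) k with h | h | h
  · rw [tv_lt (show i.1 < k by omega)] at h1
    rw [tv_lt (show i.1 + 1 < k by omega)] at h2
    simp only at h1 h2
    omega
  · rw [tv_lt (show i.1 < k by omega)] at h1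
    rw [tv_ge (show k ≤ i.1 + 1 by omega)] at h2
    simp only at h1 h2
    rw [if_pos (by omega), if_neg (by omega), dif_pos (by omega)]
    have : k - 1 = i.1 := by omega
    simp only [this]
  · rw [tv_ge (show k ≤ i.1 by omega)] at h1
    rw [tv_ge (show k ≤ i.1 + 1 by omega)] at h2
    simp only at h1 h2
    omega

theorem tvo_en {q k : ℕ} (y : Fin (2 * (q + 1) + 2)) (h2 : y.1 < (tv q k ⟨0, by omega⟩).1) :
    tvo q k y = some (.inr false) := by
  rcases Nat.eq_zero_or_pos k with h | h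
  · subst h
    rw [tv_ge (le_refl 0)] at h2
    simp only at h2
    unfold tvo
    rw [if_pos (by omega), if_pos rfl]
  · rw [tv_lt h] at h2
    exact absurd h2 (by simp)

theorem tvo_ex {q k : ℕ} (hk : k ≤ 2 * q + 2) (y : Fin (2 * (q + 1) + 2))
    (h1 : (tv q k ⟨2 * q + 1, by omega⟩).1 < y.1) : tvo q k y = some (.inr true) := by
  have hy := y.2
  rcases Nat.lt_or_ge (2 * q + 1) k with h | h
  · rw [tv_lt (by exact h)] at h1
    simp only at h1
    unfold tvo
    rw [if_pos (by omega), if_neg (by omega), dif_neg (by omega)]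
  · rw [tv_ge (by exact h)] at h1
    simp only at h1
    omega

theorem ends_row {q : ℕ} {m : Fin (2 * q + 1)} {x : Fin (2 * q + 2) ⊕ Bool}
    (hx : (TLoc q).a (Sum.inr m : TE q) = x ∨ (TLoc q).b (Sum.inr m : TE q) = x) :
    ∃ y : Fin (2 * q + 2), x = .inl y ∧ (y.1 = m.1 ∨ y.1 = m.1 + 1) := by
  rcases hx with rfl | rfl
  · exact ⟨⟨m.1, by omega⟩, rfl, .inl rfl⟩
  · exact ⟨⟨m.1 + 1, by omega⟩, rfl, .inr rfl⟩

/-- `T`: leave out the two vertices `k, k+1`. -/
def lembT (q k : ℕ) (hk : k ≤ 2 * q + 2) : LEmb (TLoc q) (TLoc (q + 1)) where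
  v := tv q k
  c := tc q k
  nm := rowsT (q + 1) 0 (tv q k ⟨0, by omega⟩).1
  xm := rowsT (q + 1) (tv q k ⟨2 * q + 1, by omega⟩).1 (2 * q + 3)
  eo := teo q k
  vo := tvo q k
  v_inj := tv_inj q k
  bdc := by
    intro e g
    rcases e with i | i
    · show ∑ f ∈ {(Sum.inl (tv q k i) : TE (q + 1))}, _ = _
      rw [Finset.sum_singleton]
      show g (.inl (tv q k i)) + g (.inr (decide ((tv q k i).1 % 2 = 0))) =
        g (.inl (tv q k i)) + g (.inr (decide (i.1 % 2 = 0)))
      rw [tv_mod]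
    · refine sum_rowsT (q + 1) _ g _ ?_ ?_
      · rcases lt_trichotomy (i.1 + 1) k with h | h | h
        · rw [tv_lt (show i.1 < k by omega), tv_lt (show i.1 + 1 < k by omega)]
          exact Nat.le_succ _
        · rw [tv_lt (show i.1 < k by omega), tv_ge (show k ≤ i.1 + 1 by omega)]
          exact Nat.le_add_right i.1 3
        · rw [tv_ge (show k ≤ i.1 by omega), tv_ge (show k ≤ i.1 + 1 by omega)]
          exact Nat.le_succ _
      · have := (tv q k ⟨i.1 + 1, by omega⟩).2
        omega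
  bdn := by
    intro g
    exact sum_rowsT (q + 1) _ g _ (Nat.zero_le _) (by
      have := (tv q k ⟨0, by omega⟩).2
      omega)
  bdx := by
    intro g
    exact sum_rowsT (q + 1) _ g _ (by
      have := (tv q k ⟨2 * q + 1, by omega⟩).2
      omega) (by omega)
  eoc := by
    intro e f hf
    rcases e with i | i
    · have hf := Finset.mem_singleton.1 hf
      subst hf
      exact teo_inl q k i
    · obtain ⟨m, rfl, h1, h2⟩ := mem_rowsT.1 hf
      exact teo_inr hk i m h1 h2
  eon := by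
    intro f hf
    obtain ⟨m, rfl, h1, h2⟩ := mem_rowsT.1 hf
    exact (teo_en m h2).2.2
  eox := by
    intro f hf
    obtain ⟨m, rfl, h1, h2⟩ := mem_rowsT.1 hf
    exact (teo_ex hk m h1).2.2
  vov := tvo_tv q k
  tc := by
    intro e f hf x hx
    rcases e with i | i
    · have hf := Finset.mem_singleton.1 hf
      subst hf
      left
      rcases hx with rfl | rfl
      · exact ⟨.inl i, rfl, .inl rfl⟩
      · refine ⟨.inr (decide (i.1 % 2 = 0)), ?_, .inr rfl⟩
        show (Sum.inr (decide ((tv q k i).1 % 2 = 0)) : Fin _ ⊕ Bool) =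
          .inr (decide (i.1 % 2 = 0))
        rw [tv_mod]
    · obtain ⟨m, rfl, h1, h2⟩ := mem_rowsT.1 hf
      obtain ⟨y, rfl, hy⟩ := ends_row hx
      by_cases ha : y.1 = (tv q k ⟨i.1, by omega⟩).1
      · left
        exact ⟨.inl ⟨i.1, by omega⟩, by rw [Fin.ext ha]; rfl, .inl rfl⟩
      by_cases hb : y.1 = (tv q k ⟨i.1 + 1, by omega⟩).1
      · left
        exact ⟨.inl ⟨i.1 + 1, by omega⟩, by rw [Fin.ext hb]; rfl, .inr rfl⟩
      · right
        exact ⟨y, rfl, tvo_row hk i y (by omega) (by omega)⟩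
  tn := by
    intro f hf x hx
    obtain ⟨m, rfl, h1, h2⟩ := mem_rowsT.1 hf
    obtain ⟨y, rfl, hy⟩ := ends_row hx
    by_cases ha : y.1 = (tv q k ⟨0, by omega⟩).1
    · left
      rw [Fin.ext ha]
      rfl
    · right
      exact ⟨y, rfl, tvo_en y (by omega)⟩
  tx := by
    intro f hf x hx
    obtain ⟨m, rfl, h1, h2⟩ := mem_rowsT.1 hf
    obtain ⟨y, rfl, hy⟩ := ends_row hx
    by_cases ha : y.1 = (tv q k ⟨2 * q + 1, by omega⟩).1
    · left
      rw [Fin.ext ha]
      rfl
    · right
      exact ⟨y, rfl, tvo_ex hk y (by omega)⟩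
  ten := by
    by_cases h : 0 < (tv q k ⟨0, by omega⟩).1
    · right
      exact tvo_en ⟨0, by omega⟩ h
    · left
      apply Fin.ext
      show 0 = (tv q k ⟨0, _⟩).1
      omega
  tex := by
    by_cases h : (tv q k ⟨2 * q + 1, by omega⟩).1 < 2 * (q + 1) + 1
    · right
      exact tvo_ex hk ⟨2 * (q + 1) + 1, by omega⟩ h
    · left
      apply Fin.ext
      show 2 * (q + 1) + 1 = (tv q k ⟨2 * q + 1, _⟩).1
      have := (tv q k ⟨2 * q + 1, by omega⟩).2
      omega

theorem lembT_avoid (q k : ℕ) (hk : k ≤ 2 * q + 2) (i : Fin (2 * (q + 1) + 2))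
    (hi : i.1 = k ∨ i.1 = k + 1) : (lembT q k hk).Avoid (Sum.inl i : TE (q + 1)) := by
  refine ⟨?_, ?_, ?_⟩
  · rintro (j | j) h
    · have h := Sum.inl.inj (Finset.mem_singleton.1 h)
      have h := congrArg Fin.val h
      rcases lt_or_ge j.1 k with hj | hj
      · rw [tv_lt hj] at h
        omega
      · rw [tv_ge hj] at h
        omega
    · obtain ⟨m, hm, _⟩ := mem_rowsT.1 h
      exact absurd hm (by simp)
  · intro h
    obtain ⟨m, hm, _⟩ := mem_rowsT.1 h
    exact absurd hm (by simp)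
  · intro h
    obtain ⟨m, hm, _⟩ := mem_rowsT.1 h
    exact absurd hm (by simp)

/-- The edges of `G`. -/
abbrev GE (q : ℕ) := Bool × (Fin (2 * q + 3) ⊕ Fin (2 * q + 1))

/-- The vertices of `G`. -/
abbrev GV (q : ℕ) := Bool × Fin (2 * q + 2)

/-- `G`, all parts shifted: the vertex map. -/
def gv1 (q : ℕ) (x : GV q) : GV (q + 1) := (x.1, ⟨x.2.1 + 2, by omega⟩)

/-- `G`, all parts shifted: the edge map. -/
def gc1 (q : ℕ) : GE q → GE (q + 1)
  | (s, .inl k) => (s, .inl ⟨k.1 + 2, by omega⟩)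
  | (s, .inr i) => (s, .inr ⟨i.1 + 2, by omega⟩)

/-- `G`, all parts shifted: edge owners. -/
def geo1 (q : ℕ) : GE (q + 1) → Option (GE q ⊕ Bool)
  | (s, .inl k) => if 2 ≤ k.1 then some (.inl (s, .inl ⟨k.1 - 2, by omega⟩)) else none
  | (s, .inr i) => if 2 ≤ i.1 then some (.inl (s, .inr ⟨i.1 - 2, by omega⟩)) else some (.inr s)

/-- `G`, all parts shifted: vertex owners. -/
def gvo1 (q : ℕ) (x : GV (q + 1)) : Option (GE q ⊕ Bool) :=
  if x.2.1 < 2 then some (.inr x.1) else none

theorem geo1_gc1 (q : ℕ) (e : GE q) : geo1 q (gc1 q e) = some (.inl e) := by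
  rcases e with ⟨s, k | i⟩
  · unfold geo1 gc1
    simp only
    rw [if_pos (by omega)]
    simp only [Nat.add_sub_cancel]
  · unfold geo1 gc1
    simp only
    rw [if_pos (by omega)]
    simp only [Nat.add_sub_cancel]

theorem gc1_a (q : ℕ) (e : GE q) : (GLoc (q + 1)).a (gc1 q e) =
    Sum.map (gv1 q) id ((GLoc q).a e) := by
  rcases e with ⟨s, k | i⟩
  · show (Sum.inl (s, ⟨min (k.1 + 2) (2 * (q + 1) + 1), _⟩) : GV (q + 1) ⊕ Bool) =
      .inl (s, ⟨min k.1 (2 * q + 1) + 2, _⟩)
    congr 2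
    apply Fin.ext
    show min (k.1 + 2) (2 * (q + 1) + 1) = min k.1 (2 * q + 1) + 2
    omega
  · rfl

theorem gc1_b (q : ℕ) (e : GE q) : (GLoc (q + 1)).b (gc1 q e) =
    Sum.map (gv1 q) id ((GLoc q).b e) := by
  rcases e with ⟨s, k | i⟩
  · show (Sum.inr (xor s (decide ((k.1 + 2) % 2 = 0))) : GV (q + 1) ⊕ Bool) =
      .inr (xor s (decide (k.1 % 2 = 0)))
    rw [Nat.add_mod_right]
  · rfl

/-- The first two row edges of a part. -/
def gnm (q : ℕ) (s : Bool) : Finset (GE (q + 1)) :=
  {(s, .inr ⟨0, by omega⟩), (s, .inr ⟨1, by omega⟩)}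

/-- The last row edge but one and the leg after it. -/
def glast (q : ℕ) (s : Bool) : Finset (GE (q + 1)) :=
  {(s, .inr ⟨2 * q + 1, by omega⟩), (s, .inl ⟨2 * q + 2, by omega⟩)}

theorem sum_gnm (q : ℕ) (s : Bool) (g : GV (q + 1) ⊕ Bool → ZMod 2) :
    ∑ f ∈ gnm q s, (g ((GLoc (q + 1)).a f) + g ((GLoc (q + 1)).b f)) =
      g (.inl (s, ⟨0, by omega⟩)) + g (.inl (s, ⟨2, by omega⟩)) := by
  unfold gnm
  rw [Finset.sum_pair (by simp)]
  show g (.inl (s, ⟨0, _⟩)) + g (.inl (s, ⟨1, _⟩)) +
      (g (.inl (s, ⟨1, _⟩)) + g (.inl (s, ⟨2, _⟩))) =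
      g (.inl (s, ⟨0, _⟩)) + g (.inl (s, ⟨2, _⟩))
  have := CharTwo.add_self_eq_zero (g (.inl ((s, ⟨1, by omega⟩) : GV (q + 1))))
  linear_combination this

theorem gnm_owner (q : ℕ) (s : Bool) (f : GE (q + 1)) (hf : f ∈ gnm q s) :
    geo1 q f = some (.inr s) := by
  rcases Finset.mem_insert.1 hf with rfl | hf
  · rfl
  · rw [Finset.mem_singleton.1 hf]
    rfl

theorem gnm_ends (q : ℕ) (s : Bool) (f : GE (q + 1)) (hf : f ∈ gnm q s) (x : GV (q + 1) ⊕ Bool)
    (hx : (GLoc (q + 1)).a f = x ∨ (GLoc (q + 1)).b f = x) :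
    x = .inl (gv1 q (s, ⟨0, by omega⟩)) ∨ ∃ y, x = .inl y ∧ gvo1 q y = some (.inr s) := by
  rcases Finset.mem_insert.1 hf with rfl | hf
  · rcases hx with rfl | rfl
    · exact .inr ⟨_, rfl, rfl⟩
    · exact .inr ⟨_, rfl, rfl⟩
  · rw [Finset.mem_singleton.1 hf] at hx
    rcases hx with rfl | rfl
    · exact .inr ⟨_, rfl, rfl⟩
    · exact .inl rfl

theorem gnm_leg (q : ℕ) (s t : Bool) (k : Fin (2 * (q + 1) + 3)) :
    ((t, .inl k) : GE (q + 1)) ∉ gnm q s := by
  intro h
  rcases Finset.mem_insert.1 h with h | h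
  · exact absurd (congrArg Prod.snd h) (by simp)
  · exact absurd (congrArg Prod.snd (Finset.mem_singleton.1 h)) (by simp)

/-- `G`, all parts shifted by two. -/
def lembG1 (q : ℕ) : LEmb (GLoc q) (GLoc (q + 1)) where
  v := gv1 q
  c := fun e => {(gc1 q e : GE (q + 1))}
  nm := gnm q false
  xm := gnm q true
  eo := geo1 q
  vo := gvo1 q
  v_inj := by
    rintro ⟨s, i⟩ ⟨t, j⟩ h
    have h1 : s = t := congrArg Prod.fst h
    have h2 := congrArg (fun x : GV (q + 1) => x.2.1) h
    have h3 : i.1 + 2 = j.1 + 2 := h2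
    subst h1
    have : i = j := Fin.ext (by omega)
    rw [this]
  bdc := by
    intro e g
    refine (Finset.sum_singleton _ _).trans ?_
    exact congrArg₂ (· + ·) (congrArg g (gc1_a q e)) (congrArg g (gc1_b q e))
  bdn := sum_gnm q false
  bdx := by
    intro g
    exact (sum_gnm q true g).trans (add_comm _ _)
  eoc := by
    intro e f hf
    rw [Finset.mem_singleton.1 hf]
    exact geo1_gc1 q e
  eon := gnm_owner q false
  eox := gnm_owner q true
  vov := by
    rintro ⟨s, i⟩
    exact if_neg (by show ¬ (i.1 + 2 < 2); omega)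
  tc := by
    intro e f hf x hx
    have hf := Finset.mem_singleton.1 hf
    subst hf
    left
    rcases hx with hx | hx
    · exact ⟨(GLoc q).a e, hx.symm.trans (gc1_a q e), .inl rfl⟩
    · exact ⟨(GLoc q).b e, hx.symm.trans (gc1_b q e), .inr rfl⟩
  tn := gnm_ends q false
  tx := gnm_ends q true
  ten := .inr rfl
  tex := .inr rfl

theorem lembG1_avoid (q : ℕ) (s : Bool) (k : Fin (2 * (q + 1) + 3)) (hk : k.1 < 2) :
    (lembG1 q).Avoid ((s, .inl k) : GE (q + 1)) := by
  refine ⟨?_, ?_, ?_⟩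
  · intro f h
    have h := Finset.mem_singleton.1 h
    rcases f with ⟨t, j | j⟩
    · have h : ((s, .inl k) : GE (q + 1)) = (t, .inl ⟨j.1 + 2, by omega⟩) := h
      have h1 := Sum.inl.inj (congrArg Prod.snd h)
      have h2 := congrArg Fin.val h1
      simp only at h2
      omega
    · have h : ((s, .inl k) : GE (q + 1)) = (t, .inr ⟨j.1 + 2, by omega⟩) := h
      have h1 := congrArg Prod.snd h
      exact absurd h1 (by simp)
  · exact gnm_leg q false s k
  · exact gnm_leg q true s k

/-- `G`, nothing shifted: the vertex map. -/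
def gv2 (q : ℕ) (x : GV q) : GV (q + 1) := (x.1, ⟨x.2.1, by omega⟩)

/-- `G`, nothing shifted: the images of the edges. -/
def gc2 (q : ℕ) : GE q → Finset (GE (q + 1))
  | (s, .inl k) => if k.1 = 2 * q + 2 then glast q s else {(s, .inl ⟨k.1, by omega⟩)}
  | (s, .inr i) => {(s, .inr ⟨i.1, by omega⟩)}

theorem gc2_last (q : ℕ) (s : Bool) (k : Fin (2 * q + 3)) (hk : k.1 = 2 * q + 2) :
    gc2 q (s, .inl k) = glast q s := if_pos hk

theorem gc2_leg (q : ℕ) (s : Bool) (k : Fin (2 * q + 3)) (hk : k.1 ≠ 2 * q + 2) :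
    gc2 q (s, .inl k) = {(s, .inl ⟨k.1, by omega⟩)} := if_neg hk

/-- `G`, nothing shifted: edge owners. -/
def geo2 (q : ℕ) : GE (q + 1) → Option (GE q ⊕ Bool)
  | (s, .inl k) => if h : k.1 < 2 * q + 3 then some (.inl (s, .inl ⟨k.1, h⟩)) else none
  | (s, .inr i) => if h : i.1 < 2 * q + 1 then some (.inl (s, .inr ⟨i.1, h⟩))
      else some (.inl (s, .inl ⟨2 * q + 2, by omega⟩))

/-- `G`, nothing shifted: vertex owners. -/
def gvo2 (q : ℕ) (x : GV (q + 1)) : Option (GE q ⊕ Bool) :=
  if x.2.1 < 2 * q + 2 then none else some (.inl (x.1, .inl ⟨2 * q + 2, by omega⟩))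

theorem geo2_leg (q : ℕ) (s : Bool) (k : Fin (2 * q + 3)) :
    geo2 q (s, .inl ⟨k.1, by omega⟩) = some (.inl (s, .inl k)) := dif_pos k.2

theorem geo2_row (q : ℕ) (s : Bool) (i : Fin (2 * q + 1)) :
    geo2 q (s, .inr ⟨i.1, by omega⟩) = some (.inl (s, .inr i)) := dif_pos i.2

theorem geo2_last (q : ℕ) (s : Bool) :
    geo2 q (s, .inr ⟨2 * q + 1, by omega⟩) = some (.inl (s, .inl ⟨2 * q + 2, by omega⟩)) :=
  dif_neg (by show ¬ (2 * q + 1 < 2 * q + 1); omega)

/-- `G`, the last two vertices of both parts left out. -/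
def lembG2 (q : ℕ) : LEmb (GLoc q) (GLoc (q + 1)) where
  v := gv2 q
  c := gc2 q
  nm := ∅
  xm := ∅
  eo := geo2 q
  vo := gvo2 q
  v_inj := by
    rintro ⟨s, i⟩ ⟨t, j⟩ h
    have h1 : s = t := congrArg Prod.fst h
    have h2 := congrArg (fun x : GV (q + 1) => x.2.1) h
    have h3 : i.1 = j.1 := h2
    subst h1
    have : i = j := Fin.ext h3
    rw [this]
  bdc := by
    intro e g
    rcases e with ⟨s, k | i⟩
    · by_cases hk : k.1 = 2 * q + 2
      · show ∑ f ∈ (if k.1 = 2 * q + 2 then glast q s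
          else {((s, .inl ⟨k.1, by omega⟩) : GE (q + 1))}), _ = _
        rw [if_pos hk]
        unfold glast
        rw [Finset.sum_pair (by simp)]
        show g (.inl (s, ⟨2 * q + 1, _⟩)) + g (.inl (s, ⟨2 * q + 1 + 1, _⟩)) +
          (g (.inl (s, ⟨min (2 * q + 2) (2 * (q + 1) + 1), _⟩)) +
            g (.inr (xor s (decide ((2 * q + 2) % 2 = 0))))) =
          g (.inl (s, ⟨min k.1 (2 * q + 1), _⟩)) + g (.inr (xor s (decide (k.1 % 2 = 0))))
        have e1 : (⟨min (2 * q + 2) (2 * (q + 1) + 1), by omega⟩ : Fin (2 * (q + 1) + 2)) =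
            ⟨2 * q + 1 + 1, by omega⟩ :=
          Fin.ext (by show min (2 * q + 2) (2 * (q + 1) + 1) = 2 * q + 1 + 1; omega)
        have e2 : (⟨min k.1 (2 * q + 1), by omega⟩ : Fin (2 * (q + 1) + 2)) =
            ⟨2 * q + 1, by omega⟩ :=
          Fin.ext (by show min k.1 (2 * q + 1) = 2 * q + 1; omega)
        rw [e1, e2, hk]
        have := CharTwo.add_self_eq_zero
          (g (.inl ((s, ⟨2 * q + 1 + 1, by omega⟩) : GV (q + 1))))
        linear_combination this
      · show ∑ f ∈ (if k.1 = 2 * q + 2 then glast q s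
          else {((s, .inl ⟨k.1, by omega⟩) : GE (q + 1))}), _ = _
        rw [if_neg hk, Finset.sum_singleton]
        show g (.inl (s, ⟨min k.1 (2 * (q + 1) + 1), _⟩)) +
            g (.inr (xor s (decide (k.1 % 2 = 0)))) =
          g (.inl (s, ⟨min k.1 (2 * q + 1), _⟩)) + g (.inr (xor s (decide (k.1 % 2 = 0))))
        have e1 : (⟨min k.1 (2 * (q + 1) + 1), by omega⟩ : Fin (2 * (q + 1) + 2)) =
            ⟨min k.1 (2 * q + 1), by omega⟩ :=
          Fin.ext (by show min k.1 (2 * (q + 1) + 1) = min k.1 (2 * q + 1); have := k.2; omega)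
        rw [e1]
    · show ∑ f ∈ {((s, .inr ⟨i.1, by omega⟩) : GE (q + 1))}, _ = _
      rw [Finset.sum_singleton]
      rfl
  bdn := by
    intro g
    show ∑ f ∈ (∅ : Finset (GE (q + 1))), _ = _
    rw [Finset.sum_empty]
    exact (CharTwo.add_self_eq_zero _).symm
  bdx := by
    intro g
    show ∑ f ∈ (∅ : Finset (GE (q + 1))), _ = _
    rw [Finset.sum_empty]
    exact (CharTwo.add_self_eq_zero _).symm
  eoc := by
    intro e f hf
    rcases e with ⟨s, k | i⟩
    · by_cases hk : k.1 = 2 * q + 2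
      · have hf2 : f ∈ glast q s := by
          rw [← gc2_last q s k hk]
          exact hf
        clear hf
        rcases k with ⟨k, hk2⟩
        have hk : k = 2 * q + 2 := hk
        subst hk
        rcases Finset.mem_insert.1 hf2 with rfl | hf
        · exact geo2_last q s
        · rw [Finset.mem_singleton.1 hf]
          exact geo2_leg q s ⟨2 * q + 2, hk2⟩
      · have hf : f ∈ ({(s, .inl ⟨k.1, by omega⟩)} : Finset (GE (q + 1))) := by
          rw [← gc2_leg q s k hk]
          exact hf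
        rw [Finset.mem_singleton.1 hf]
        exact geo2_leg q s k
    · have hf : f ∈ ({((s, .inr ⟨i.1, by omega⟩) : GE (q + 1))} : Finset _) := hf
      rw [Finset.mem_singleton.1 hf]
      exact geo2_row q s i
  eon := by
    intro f hf
    exact absurd hf (Finset.notMem_empty f)
  eox := by
    intro f hf
    exact absurd hf (Finset.notMem_empty f)
  vov := by
    rintro ⟨s, i⟩
    exact if_pos i.2
  tc := by
    intro e f hf x hx
    rcases e with ⟨s, k | i⟩
    · by_cases hk : k.1 = 2 * q + 2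
      · have hf2 : f ∈ glast q s := by
          rw [← gc2_last q s k hk]
          exact hf
        clear hf
        rcases k with ⟨k, hk2⟩
        have hk : k = 2 * q + 2 := hk
        subst hk
        have own : gvo2 q (s, ⟨2 * q + 1 + 1, by omega⟩) =
            some (.inl (s, .inl ⟨2 * q + 2, by omega⟩)) :=
          if_neg (by show ¬ (2 * q + 1 + 1 < 2 * q + 2); omega)
        rcases Finset.mem_insert.1 hf2 with rfl | hf
        · rcases hx with rfl | rfl
          · left
            refine ⟨.inl (s, ⟨2 * q + 1, by omega⟩), rfl, .inl ?_⟩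
            show (Sum.inl (s, ⟨min (2 * q + 2) (2 * q + 1), _⟩) : GV q ⊕ Bool) = _
            congr 2
            apply Fin.ext
            show min (2 * q + 2) (2 * q + 1) = 2 * q + 1
            omega
          · right
            exact ⟨(s, ⟨2 * q + 1 + 1, by omega⟩), rfl, own⟩
        · have hf := Finset.mem_singleton.1 hf
          subst hf
          rcases hx with rfl | rfl
          · right
            refine ⟨(s, ⟨2 * q + 1 + 1, by omega⟩), ?_, own⟩
            show (Sum.inl (s, ⟨min (2 * q + 2) (2 * (q + 1) + 1), _⟩) : GV (q + 1) ⊕ Bool) = _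
            congr 2
            apply Fin.ext
            show min (2 * q + 2) (2 * (q + 1) + 1) = 2 * q + 1 + 1
            omega
          · left
            exact ⟨.inr (xor s (decide ((2 * q + 2) % 2 = 0))), rfl, .inr rfl⟩
      · have hf : f ∈ ({(s, .inl ⟨k.1, by omega⟩)} : Finset (GE (q + 1))) := by
          rw [← gc2_leg q s k hk]
          exact hf
        have hf := Finset.mem_singleton.1 hf
        subst hf
        left
        rcases hx with rfl | rfl
        · refine ⟨.inl (s, ⟨min k.1 (2 * q + 1), by omega⟩), ?_, .inl rfl⟩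
          show (Sum.inl (s, ⟨min k.1 (2 * (q + 1) + 1), _⟩) : GV (q + 1) ⊕ Bool) =
            .inl (s, ⟨min k.1 (2 * q + 1), _⟩)
          congr 2
          apply Fin.ext
          show min k.1 (2 * (q + 1) + 1) = min k.1 (2 * q + 1)
          have := k.2
          omega
        · exact ⟨.inr (xor s (decide (k.1 % 2 = 0))), rfl, .inr rfl⟩
    · have hf : f ∈ ({((s, .inr ⟨i.1, by omega⟩) : GE (q + 1))} : Finset _) := hf
      have hf := Finset.mem_singleton.1 hf
      subst hf
      left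
      rcases hx with rfl | rfl
      · exact ⟨.inl (s, ⟨i.1, by omega⟩), rfl, .inl rfl⟩
      · exact ⟨.inl (s, ⟨i.1 + 1, by omega⟩), rfl, .inr rfl⟩
  tn := by
    intro f hf
    exact absurd hf (Finset.notMem_empty f)
  tx := by
    intro f hf
    exact absurd hf (Finset.notMem_empty f)
  ten := .inl rfl
  tex := .inl rfl

theorem lembG2_avoid (q : ℕ) (s : Bool) (k : Fin (2 * (q + 1) + 3)) (hk : 2 * q + 3 ≤ k.1) :
    (lembG2 q).Avoid ((s, .inl k) : GE (q + 1)) := by
  refine ⟨?_, Finset.notMem_empty _, Finset.notMem_empty _⟩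
  intro f hf
  have h := (lembG2 q).eoc f _ hf
  have h' : geo2 q (s, .inl k) = none := by
    show (if h : k.1 < 2 * q + 3 then _ else none) = none
    rw [dif_neg (by omega)]
  have h2 : geo2 q (s, .inl k) = some (.inl f) := h
  rw [h'] at h2
  exact absurd h2 (by simp)

/-- The local embedding for a region type, leaving out something. -/
def lembAny (q : ℕ) : (t : RT) → t ≠ .W → LEmb (t.loc q) (t.loc (q + 1))
  | .T, _ => lembT (q + 1) 0 (Nat.zero_le _)
  | .G, _ => lembG2 q
  | .W, h => absurd rfl h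

theorem exists_lemb_avoid (q : ℕ) : ∀ (t : RT) (_ : t ≠ .W) (e : (t.loc (q + 1)).E)
    (_ : RT.fleg (q + 1) t e), ∃ D : LEmb (t.loc q) (t.loc (q + 1)), D.Avoid e
  | .T, _, e, he => by
    have he' : ∃ i : Fin (2 * (q + 1 + 1) + 2), e = (Sum.inl i : TE (q + 1 + 1)) := by
      rcases e with i | i
      · exact ⟨i, rfl⟩
      · exact absurd he (by simp [RT.fleg])
    obtain ⟨i, rfl⟩ := he'
    by_cases hi : i.1 ≤ 2 * (q + 1) + 2
    · exact ⟨lembT (q + 1) i.1 hi, lembT_avoid (q + 1) i.1 hi i (.inl rfl)⟩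
    · have := i.2
      exact ⟨lembT (q + 1) (2 * (q + 1) + 2) le_rfl,
        lembT_avoid (q + 1) _ le_rfl i (.inr (by omega))⟩
  | .G, _, (s, f), he => by
    obtain ⟨k, hk, h⟩ := he
    have hk : f = .inl k := hk
    subst hk
    rcases h with h | h | h
    · exact ⟨lembG1 q, lembG1_avoid q s k (by omega)⟩
    · exact ⟨lembG2 q, lembG2_avoid q s k (by omega)⟩
    · exact ⟨lembG2 q, lembG2_avoid q s k (by omega)⟩
  | .W, h, _, _ => absurd rfl h

end EMBT

open EMBT

variable {N : ℕ} [NeZero N]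

/-- EMBT. For every leg in the list there is an embedding of the strip of the lower level which
avoids it. `T`: leave out the layer (two neighbouring row vertices, their legs, three row edges become
one) containing the leg; `G`: for the leg `1` leave out the first two vertices of the part, for the last
two legs leave out the last two vertices. -/
theorem exists_emb_avoid (hN : 5 ≤ N) (q : ℕ) (τ : ZMod N → RT) (hW : ∀ j, τ j ≠ .W) (j : ZMod N)
    (e : ((τ j).loc (q + 1)).E) (he : RT.fleg (q + 1) (τ j) e) :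
    ∃ φ : TEmb (tstrip q false τ) (tstrip (q + 1) false τ), ∀ f, le (q + 1) false τ j e ∉ φ.c f := by
  have h1 : (1 : ZMod N) ≠ 0 := by
    have : Fact (1 < N) := ⟨by omega⟩
    exact one_ne_zero
  obtain ⟨D0, hD0⟩ := exists_lemb_avoid q (τ j) (hW j) e he
  exact strip_emb_avoid h1 (L := fun j => (τ j).loc q) (L' := fun j => (τ j).loc (q + 1))
    (fun k => if h : k = j then h ▸ D0 else lembAny q (τ k) (hW k)) j e (by
      simp only [dite_true]
      exact hD0)

end Pool.Agent.CC
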