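import Pool.Agent.Lib_helper74.CCF.EmbL
import Pool.Agent.Lib_helper74.CCF.F2defs

/-! EMBW3: `exists_emb_WW`. -/

namespace Pool.Agent.CC

open Gph

namespace EmbWW

/-! ### T -/

/-- vertices: `0 ↦ 0`, `i ↦ i + 2` -/
def tv (q : ℕ) (i : Fin (2 * q + 2)) : Fin (2 * (q + 1) + 2) :=
  ⟨if i.1 = 0 then 0 else i.1 + 2, by split_ifs <;> omega⟩

/-- row edge -/
def tr (q k : ℕ) (h : k < 2 * q + 1) : (TLoc q).E := Sum.inr ⟨k, h⟩

/-- leg -/
def tl (q : ℕ) (i : Fin (2 * q + 2)) : (TLoc q).E := Sum.inl i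

theorem tr_inj {q k k' : ℕ} {h : k < 2 * q + 1} {h' : k' < 2 * q + 1} (e : tr q k h = tr q k' h') :
    k = k' := congrArg Fin.val (Sum.inr_injective e)

theorem tl_inj {q : ℕ} {i j : Fin (2 * q + 2)} (e : tl q i = tl q j) : i = j :=
  Sum.inl_injective e

theorem tl_ne_tr {q k : ℕ} {h : k < 2 * q + 1} {i : Fin (2 * q + 2)} (e : tl q i = tr q k h) :
    False := by
  exact absurd e (by simp [tl, tr])

def tc (q : ℕ) : (TLoc q).E → Finset (TLoc (q + 1)).E
  | .inl i => {tl (q + 1) (tv q i)}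
  | .inr i => if h : i.1 = 0 then
      {tr (q + 1) 0 (by omega), tr (q + 1) 1 (by omega), tr (q + 1) 2 (by omega)}
    else {tr (q + 1) (i.1 + 2) (by omega)}

theorem z2 : (1 : ZMod 2) + 1 = 0 := by decide

theorem tele {α : Type} [DecidableEq α] (a b c d x : α) :
    ((if a = x then (1 : ZMod 2) else 0) + (if b = x then 1 else 0)) +
    (((if b = x then (1 : ZMod 2) else 0) + (if c = x then 1 else 0)) +
    ((if c = x then (1 : ZMod 2) else 0) + (if d = x then 1 else 0))) =
    (if a = x then (1 : ZMod 2) else 0) + (if d = x then 1 else 0) := by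
  generalize (if a = x then (1 : ZMod 2) else 0) = p
  generalize (if b = x then (1 : ZMod 2) else 0) = q
  generalize (if c = x then (1 : ZMod 2) else 0) = r
  generalize (if d = x then (1 : ZMod 2) else 0) = s
  revert p q r s
  decide

theorem tele2 {α : Type} [DecidableEq α] (a b c x : α) :
    ((if a = x then (1 : ZMod 2) else 0) + (if b = x then 1 else 0)) +
    ((if b = x then (1 : ZMod 2) else 0) + (if c = x then 1 else 0)) =
    (if a = x then (1 : ZMod 2) else 0) + (if c = x then 1 else 0) := by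
  generalize (if a = x then (1 : ZMod 2) else 0) = p
  generalize (if b = x then (1 : ZMod 2) else 0) = q
  generalize (if c = x then (1 : ZMod 2) else 0) = r
  revert p q r
  decide

theorem tv_ne (q : ℕ) (i : Fin (2 * q + 2)) : (tv q i).1 ≠ 1 ∧ (tv q i).1 ≠ 2 := by
  unfold tv
  simp only
  split_ifs <;> omega

/-- the embedding `T(t) → T(t+1)` leaving out the vertices `1, 2` -/
def embT (q : ℕ) : LEmb (TLoc q) (TLoc (q + 1)) where
  v := tv q
  c := tc q
  inj := by
    intro i j h
    have h1 : (if i.1 = 0 then 0 else i.1 + 2) = (if j.1 = 0 then 0 else j.1 + 2) :=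
      congrArg Fin.val h
    apply Fin.ext
    split_ifs at h1 <;> omega
  bd := by
    rintro (i | i) x
    · show (∑ f ∈ ({tl (q + 1) (tv q i)} : Finset (TLoc (q + 1)).E), _) = _
      rw [Finset.sum_singleton]
      have hp : (decide ((tv q i).1 % 2 = 0)) = decide (i.1 % 2 = 0) := by
        unfold tv
        simp only
        split_ifs with h
        · rw [h]
        · congr 1
          apply propext
          omega
      show ((if (Sum.inl (tv q i) : (TLoc (q+1)).V ⊕ Bool) = x then (1 : ZMod 2) else 0) +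
        (if (Sum.inr (decide ((tv q i).1 % 2 = 0)) : (TLoc (q+1)).V ⊕ Bool) = x then 1 else 0)) = _
      rw [hp]
      rfl
    · by_cases h : i.1 = 0
      · have hc : tc q (.inr i) = ({tr (q + 1) 0 (by omega), tr (q + 1) 1 (by omega), tr (q + 1) 2 (by omega)} :
            Finset (TLoc (q + 1)).E) := by
          show (if h : i.1 = 0 then _ else _) = _
          rw [dif_pos h]
        rw [hc, Finset.sum_insert, Finset.sum_insert, Finset.sum_singleton]
        · have h0 : tv q ⟨i.1, by omega⟩ = ⟨0, by omega⟩ := by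
            apply Fin.ext
            show (if i.1 = 0 then 0 else i.1 + 2) = 0
            rw [if_pos h]
          have h1 : tv q ⟨i.1 + 1, by omega⟩ = ⟨2 + 1, by omega⟩ := by
            apply Fin.ext
            show (if i.1 + 1 = 0 then 0 else i.1 + 1 + 2) = 3
            rw [if_neg (by omega), h]
          show _ = (if (Sum.inl (tv q ⟨i.1, _⟩) : (TLoc (q+1)).V ⊕ Bool) = x then (1 : ZMod 2) else 0) +
            (if (Sum.inl (tv q ⟨i.1 + 1, _⟩) : (TLoc (q+1)).V ⊕ Bool) = x then 1 else 0)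
          rw [h0, h1]
          exact tele (α := (TLoc (q+1)).V ⊕ Bool) (Sum.inl ⟨0, _⟩) (Sum.inl ⟨0 + 1, _⟩)
            (Sum.inl ⟨1 + 1, _⟩) (Sum.inl ⟨2 + 1, _⟩) x
        · rw [Finset.mem_singleton]
          intro h
          exact absurd (tr_inj h) (by omega)
        · rw [Finset.mem_insert, Finset.mem_singleton]
          rintro (h | h)
          · exact absurd (tr_inj h) (by omega)
          · exact absurd (tr_inj h) (by omega)
      · have hc : tc q (.inr i) = ({tr (q + 1) (i.1 + 2) (by omega)} : Finset (TLoc (q + 1)).E) := by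
          show (if h : i.1 = 0 then _ else _) = _
          rw [dif_neg h]
        rw [hc, Finset.sum_singleton]
        have h0 : tv q ⟨i.1, by omega⟩ = ⟨i.1 + 2, by omega⟩ := by
          apply Fin.ext
          show (if i.1 = 0 then 0 else i.1 + 2) = i.1 + 2
          rw [if_neg h]
        have h1 : tv q ⟨i.1 + 1, by omega⟩ = ⟨i.1 + 2 + 1, by omega⟩ := by
          apply Fin.ext
          show (if i.1 + 1 = 0 then 0 else i.1 + 1 + 2) = i.1 + 2 + 1
          rw [if_neg (by omega)]
        show _ = (if (Sum.inl (tv q ⟨i.1, _⟩) : (TLoc (q+1)).V ⊕ Bool) = x then (1 : ZMod 2) else 0) +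
          (if (Sum.inl (tv q ⟨i.1 + 1, _⟩) : (TLoc (q+1)).V ⊕ Bool) = x then 1 else 0)
        rw [h0, h1]
        rfl
  own := fun x => if x.1 = 1 ∨ x.1 = 2 then some (.inr ⟨0, by omega⟩) else none
  hown := by
    intro i
    have := tv_ne q i
    rw [if_neg (by omega)]
  ends := by
    rintro (i | i) e' he x hx
    · have he1 : e' = tl (q + 1) (tv q i) := Finset.mem_singleton.1 he
      subst he1
      left
      rcases hx with h | h
      · exact ⟨.inl i, h.symm, Or.inl rfl⟩
      · refine ⟨.inr (decide (i.1 % 2 = 0)), ?_, Or.inr rfl⟩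
        rw [← h]
        show (Sum.inr (decide ((tv q i).1 % 2 = 0)) : (TLoc (q+1)).V ⊕ Bool) = Sum.inr (decide (i.1 % 2 = 0))
        congr 1
        unfold tv
        simp only
        split_ifs with h
        · rw [h]
        · congr 1
          apply propext
          omega
    · by_cases h : i.1 = 0
      · have hc : tc q (.inr i) = ({tr (q + 1) 0 (by omega), tr (q + 1) 1 (by omega), tr (q + 1) 2 (by omega)} :
            Finset (TLoc (q + 1)).E) := by
          show (if h : i.1 = 0 then _ else _) = _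
          rw [dif_pos h]
        have h00 : i = ⟨0, by omega⟩ := Fin.ext h
        rw [hc, Finset.mem_insert, Finset.mem_insert, Finset.mem_singleton] at he
        have key : ∃ y : Fin (2 * (q + 1) + 2), y.1 ≤ 3 ∧ x = Sum.inl y := by
          rcases he with rfl | rfl | rfl <;> rcases hx with h | h
          · exact ⟨⟨0, by omega⟩, by simp, h.symm⟩
          · exact ⟨⟨0 + 1, by omega⟩, by simp, h.symm⟩
          · exact ⟨⟨1, by omega⟩, by simp, h.symm⟩
          · exact ⟨⟨1 + 1, by omega⟩, by simp, h.symm⟩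
          · exact ⟨⟨2, by omega⟩, by simp, h.symm⟩
          · exact ⟨⟨2 + 1, by omega⟩, by simp, h.symm⟩
        obtain ⟨y, hy, rfl⟩ := key
        by_cases hy1 : y.1 = 1 ∨ y.1 = 2
        · right
          refine ⟨y, rfl, ?_⟩
          rw [if_pos hy1, h00]
        · left
          by_cases hy0 : y.1 = 0
          · refine ⟨.inl ⟨i.1, by omega⟩, ?_, Or.inl rfl⟩
            show (Sum.inl y : (TLoc (q+1)).V ⊕ Bool) = Sum.inl (tv q ⟨i.1, _⟩)
            congr 1
            apply Fin.ext
            show y.1 = (if i.1 = 0 then 0 else i.1 + 2)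
            rw [if_pos h, hy0]
          · refine ⟨.inl ⟨i.1 + 1, by omega⟩, ?_, Or.inr rfl⟩
            show (Sum.inl y : (TLoc (q+1)).V ⊕ Bool) = Sum.inl (tv q ⟨i.1 + 1, _⟩)
            congr 1
            apply Fin.ext
            show y.1 = (if i.1 + 1 = 0 then 0 else i.1 + 1 + 2)
            rw [if_neg (by omega)]
            omega
      · have hc : tc q (.inr i) = ({tr (q + 1) (i.1 + 2) (by omega)} : Finset (TLoc (q + 1)).E) := by
          show (if h : i.1 = 0 then _ else _) = _
          rw [dif_neg h]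
        rw [hc, Finset.mem_singleton] at he
        subst he
        left
        rcases hx with h1 | h1
        · refine ⟨.inl ⟨i.1, by omega⟩, ?_, Or.inl rfl⟩
          rw [← h1]
          show (Sum.inl ⟨i.1 + 2, _⟩ : (TLoc (q+1)).V ⊕ Bool) = Sum.inl (tv q ⟨i.1, _⟩)
          congr 1
          apply Fin.ext
          show i.1 + 2 = (if i.1 = 0 then 0 else i.1 + 2)
          rw [if_neg h]
        · refine ⟨.inl ⟨i.1 + 1, by omega⟩, ?_, Or.inr rfl⟩
          rw [← h1]
          show (Sum.inl ⟨i.1 + 2 + 1, _⟩ : (TLoc (q+1)).V ⊕ Bool) = Sum.inl (tv q ⟨i.1 + 1, _⟩)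
          have h2 : (⟨i.1 + 2 + 1, by omega⟩ : Fin (2 * (q + 1) + 2)) = tv q ⟨i.1 + 1, by omega⟩ := by
            apply Fin.ext
            show i.1 + 2 + 1 = (if i.1 + 1 = 0 then 0 else i.1 + 1 + 2)
            rw [if_neg (by omega)]
          exact congrArg Sum.inl h2
  disj := by
    have hc : ∀ (i : Fin (2 * q + 1)) (g : (TLoc (q + 1)).E),
        g ∈ tc q (.inr i) → ∃ k h, g = tr (q + 1) k h ∧
          ((i.1 = 0 ∧ k ≤ 2) ∨ (i.1 ≠ 0 ∧ k = i.1 + 2)) := by
      intro i g hg
      by_cases h : i.1 = 0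
      · have hc : tc q (.inr i) = ({tr (q + 1) 0 (by omega), tr (q + 1) 1 (by omega), tr (q + 1) 2 (by omega)} :
            Finset (TLoc (q + 1)).E) := by
          show (if h : i.1 = 0 then _ else _) = _
          rw [dif_pos h]
        rw [hc, Finset.mem_insert, Finset.mem_insert, Finset.mem_singleton] at hg
        rcases hg with rfl | rfl | rfl
        · exact ⟨_, _, rfl, Or.inl ⟨h, by omega⟩⟩
        · exact ⟨_, _, rfl, Or.inl ⟨h, by omega⟩⟩
        · exact ⟨_, _, rfl, Or.inl ⟨h, by omega⟩⟩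
      · have hc : tc q (.inr i) = ({tr (q + 1) (i.1 + 2) (by omega)} : Finset (TLoc (q + 1)).E) := by
          show (if h : i.1 = 0 then _ else _) = _
          rw [dif_neg h]
        rw [hc, Finset.mem_singleton] at hg
        exact ⟨_, _, hg, Or.inr ⟨h, rfl⟩⟩
    rintro (i | i) (j | j) hne
    · show Disjoint ({tl (q + 1) (tv q i)} : Finset (TLoc (q + 1)).E) {tl (q + 1) (tv q j)}
      rw [Finset.disjoint_singleton]
      intro h
      apply hne
      have h1 : (if i.1 = 0 then 0 else i.1 + 2) = (if j.1 = 0 then 0 else j.1 + 2) :=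
        congrArg Fin.val (tl_inj h)
      congr 1
      apply Fin.ext
      split_ifs at h1 <;> omega
    · rw [Finset.disjoint_left]
      intro g hg hg'
      obtain ⟨k, hk, rfl, _⟩ := hc j g hg'
      exact tl_ne_tr (Finset.mem_singleton.1 hg).symm
    · rw [Finset.disjoint_left]
      intro g hg' hg
      obtain ⟨k, hk, rfl, _⟩ := hc i g hg'
      exact tl_ne_tr (Finset.mem_singleton.1 hg).symm
    · rw [Finset.disjoint_left]
      intro g hg hg'
      obtain ⟨k, _, rfl, hk⟩ := hc i g hg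
      obtain ⟨k', _, h', hk'⟩ := hc j _ hg'
      have := tr_inj h'
      apply hne
      congr 1
      apply Fin.ext
      omega
  en := rfl
  ex := by
    apply Fin.ext
    show (if 2 * q + 1 = 0 then 0 else 2 * q + 1 + 2) = 2 * (q + 1) + 1
    rw [if_neg (by omega)]
    omega
  bl := rfl
  br := rfl

/-! ### W -/

/-- vertices of a part -/
def wv (p : ℕ) : WV p → WV (p + 1)
  | .v1 => .v1
  | .v2 => .v2
  | .w => .w
  | .x i => .x ⟨i.1, by omega⟩

/-- an edge of `WLoc` -/
def we (p : ℕ) (s : Bool) (e : WE p) : (WLoc p).E := (s, e)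

theorem we_inj {p : ℕ} {s s' : Bool} {e e' : WE p} (h : we p s e = we p s' e') : s = s' ∧ e = e' :=
  Prod.mk.inj h

def wc (p : ℕ) : (WLoc p).E → Finset (WLoc (p + 1)).E
  | (s, .b1) => {we (p + 1) s .b1}
  | (s, .b2) => {we (p + 1) s .b2}
  | (s, .eta) => {we (p + 1) s .eta}
  | (s, .sig) => {we (p + 1) s .sig}
  | (s, .s3) => {we (p + 1) s .s3}
  | (s, .leg k) => if h : k.1 = 2 * p + 2 then
      {we (p + 1) s (.row ⟨2 * p + 1, by omega⟩), we (p + 1) s (.leg ⟨2 * p + 2, by omega⟩)}
    else {we (p + 1) s (.leg ⟨k.1, by omega⟩)}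
  | (s, .row i) => {we (p + 1) s (.row ⟨i.1, by omega⟩)}

theorem wc_leg (p : ℕ) (s : Bool) (k : Fin (2 * p + 3)) (h : k.1 ≠ 2 * p + 2) :
    wc p (s, .leg k) = {we (p + 1) s (.leg ⟨k.1, by omega⟩)} := by
  show (if h : k.1 = 2 * p + 2 then _ else _) = _
  rw [dif_neg h]

theorem wc_last (p : ℕ) (s : Bool) (k : Fin (2 * p + 3)) (h : k.1 = 2 * p + 2) :
    wc p (s, .leg k) = {we (p + 1) s (.row ⟨2 * p + 1, by omega⟩),
      we (p + 1) s (.leg ⟨2 * p + 2, by omega⟩)} := by
  show (if h : k.1 = 2 * p + 2 then _ else _) = _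
  rw [dif_pos h]

/-- the edges which go to one edge -/
theorem wc_single (p : ℕ) (s : Bool) (e : WE p) (he : ∀ k, e = .leg k → k.1 ≠ 2 * p + 2) :
    ∃ g : WE (p + 1), wc p (s, e) = {we (p + 1) s g} ∧
      (WLoc (p + 1)).a (s, g) = Sum.map (Prod.map id (wv p)) id ((WLoc p).a (s, e)) ∧
      (WLoc (p + 1)).b (s, g) = Sum.map (Prod.map id (wv p)) id ((WLoc p).b (s, e)) := by
  cases e with
  | b1 => exact ⟨.b1, rfl, rfl, rfl⟩
  | b2 => exact ⟨.b2, rfl, rfl, rfl⟩
  | eta => exact ⟨.eta, rfl, rfl, rfl⟩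
  | sig => exact ⟨.sig, rfl, rfl, rfl⟩
  | s3 => exact ⟨.s3, rfl, rfl, rfl⟩
  | row i => exact ⟨.row ⟨i.1, by omega⟩, rfl, rfl, rfl⟩
  | leg k =>
    have hk := he k rfl
    have hk2 := k.2
    refine ⟨.leg ⟨k.1, by omega⟩, wc_leg p s k hk, ?_, ?_⟩
    · show (Sum.inl (s, WV.x ⟨min k.1 (2 * (p + 1) + 1), _⟩) : (WLoc (p+1)).V ⊕ Bool) =
        Sum.inl (s, WV.x ⟨min k.1 (2 * p + 1), _⟩)
      congr 3
      apply Fin.ext
      show min k.1 (2 * (p + 1) + 1) = min k.1 (2 * p + 1)
      omega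
    · rfl

/-- the edge whose path contains the given edge -/
def wmain (p : ℕ) : WE (p + 1) → Option (WE p)
  | .b1 => some .b1
  | .b2 => some .b2
  | .eta => some .eta
  | .sig => some .sig
  | .s3 => some .s3
  | .leg k => if h : k.1 < 2 * p + 3 then some (.leg ⟨k.1, h⟩) else none
  | .row i => if h : i.1 < 2 * p + 1 then some (.row ⟨i.1, h⟩) else
      if i.1 = 2 * p + 1 then some (.leg ⟨2 * p + 2, by omega⟩) else none

/-- the local embedding `W(l-1) → W(l)` -/
def embW (p : ℕ) : LEmb (WLoc p) (WLoc (p + 1)) where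
  v := Prod.map id (wv p)
  c := wc p
  inj := by
    rintro ⟨s, u⟩ ⟨s', u'⟩ h
    have h1 : s = s' := congrArg Prod.fst h
    have h2 : wv p u = wv p u' := congrArg Prod.snd h
    subst h1
    congr 1
    cases u <;> cases u' <;> simp only [wv, reduceCtorEq] at h2 <;> first | rfl | skip
    rename_i i j
    have h3 := congrArg Fin.val (WV.x.inj h2)
    have h4 : i = j := Fin.ext h3
    rw [h4]
  bd := by
    rintro ⟨s, e⟩ x
    by_cases he : ∀ k, e = .leg k → k.1 ≠ 2 * p + 2
    · obtain ⟨g, hg, ha, hb⟩ := wc_single p s e he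
      rw [hg, Finset.sum_singleton]
      exact congrArg₂ (fun y z : (WLoc (p + 1)).V ⊕ Bool => (if y = x then (1 : ZMod 2) else 0) +
        (if z = x then 1 else 0)) ha hb
    · push Not at he
      obtain ⟨k, rfl, hk⟩ := he
      rw [wc_last p s k hk, Finset.sum_pair (fun h => by have := (we_inj h).2; simp at this)]
      have h1 : (⟨min k.1 (2 * p + 1), by omega⟩ : Fin (2 * p + 2)) = ⟨2 * p + 1, by omega⟩ := by
        apply Fin.ext
        show min k.1 (2 * p + 1) = 2 * p + 1
        omega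
      have h2 : (⟨min (2 * p + 2) (2 * (p + 1) + 1), by omega⟩ : Fin (2 * (p + 1) + 2)) =
          ⟨2 * p + 1 + 1, by omega⟩ := by
        apply Fin.ext
        show min (2 * p + 2) (2 * (p + 1) + 1) = 2 * p + 1 + 1
        omega
      have h3 : (decide (k.1 % 2 = 0 ∧ k.1 ≠ 0)) = decide ((2 * p + 2) % 2 = 0 ∧ (2 * p + 2) ≠ 0) := by
        rw [hk]
      show ((if (Sum.inl (s, WV.x ⟨2 * p + 1, _⟩) : (WLoc (p+1)).V ⊕ Bool) = x then (1 : ZMod 2) else 0) +
        (if (Sum.inl (s, WV.x ⟨2 * p + 1 + 1, _⟩) : (WLoc (p+1)).V ⊕ Bool) = x then 1 else 0)) +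
        ((if (Sum.inl (s, WV.x ⟨min (2 * p + 2) (2 * (p + 1) + 1), _⟩) : (WLoc (p+1)).V ⊕ Bool) = x
          then (1 : ZMod 2) else 0) +
        (if (Sum.inr (xor s (decide ((2 * p + 2) % 2 = 0 ∧ (2 * p + 2) ≠ 0))) : (WLoc (p+1)).V ⊕ Bool) = x
          then 1 else 0)) =
        (if (Sum.inl (s, wv p (WV.x ⟨min k.1 (2 * p + 1), _⟩)) : (WLoc (p+1)).V ⊕ Bool) = x
          then (1 : ZMod 2) else 0) +
        (if (Sum.inr (xor s (decide (k.1 % 2 = 0 ∧ k.1 ≠ 0))) : (WLoc (p+1)).V ⊕ Bool) = x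
          then 1 else 0)
      rw [h1, h2, h3]
      exact tele2 (α := (WLoc (p+1)).V ⊕ Bool) _ _ _ x
  own := fun u => if u.2 = .x ⟨2 * p + 2, by omega⟩ then some (we p u.1 (.leg ⟨2 * p + 2, by omega⟩))
    else none
  hown := by
    rintro ⟨s, u⟩
    rw [if_neg]
    intro h
    cases u with
    | x i =>
      have h1 : i.1 = 2 * p + 2 := congrArg Fin.val (WV.x.inj h)
      have := i.2
      omega
    | v1 => exact absurd h (by simp [wv])
    | v2 => exact absurd h (by simp [wv])
    | w => exact absurd h (by simp [wv])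
  ends := by
    rintro ⟨s, e⟩ e' he' x hx
    by_cases he : ∀ k, e = .leg k → k.1 ≠ 2 * p + 2
    · obtain ⟨g, hg, ha, hb⟩ := wc_single p s e he
      rw [hg, Finset.mem_singleton] at he'
      subst he'
      left
      rcases hx with h | h
      · exact ⟨_, h.symm.trans ha, Or.inl rfl⟩
      · exact ⟨_, h.symm.trans hb, Or.inr rfl⟩
    · push Not at he
      obtain ⟨k, rfl, hk⟩ := he
      rw [wc_last p s k hk, Finset.mem_insert, Finset.mem_singleton] at he'
      have hkk : k = ⟨2 * p + 2, by omega⟩ := Fin.ext hk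
      rcases he' with rfl | rfl <;> rcases hx with h | h
      · left
        refine ⟨.inl (s, .x ⟨min k.1 (2 * p + 1), by omega⟩), ?_, Or.inl rfl⟩
        rw [← h]
        show (Sum.inl (s, WV.x ⟨2 * p + 1, _⟩) : (WLoc (p+1)).V ⊕ Bool) =
          Sum.inl (s, WV.x ⟨min k.1 (2 * p + 1), _⟩)
        congr 3
        apply Fin.ext
        show 2 * p + 1 = min k.1 (2 * p + 1)
        omega
      · right
        refine ⟨(s, .x ⟨2 * p + 2, by omega⟩), h.symm, ?_⟩
        rw [if_pos rfl, hkk]
        rfl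
      · right
        refine ⟨(s, .x ⟨2 * p + 2, by omega⟩), ?_, ?_⟩
        · rw [← h]
          show (Sum.inl (s, WV.x ⟨min (2 * p + 2) (2 * (p + 1) + 1), _⟩) : (WLoc (p+1)).V ⊕ Bool) =
            Sum.inl (s, WV.x ⟨2 * p + 2, _⟩)
          congr 3
          apply Fin.ext
          show min (2 * p + 2) (2 * (p + 1) + 1) = 2 * p + 2
          omega
        · rw [if_pos rfl, hkk]
          rfl
      · left
        refine ⟨.inr (xor s (decide (k.1 % 2 = 0 ∧ k.1 ≠ 0))), ?_, Or.inr rfl⟩
        rw [← h, hk]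
        rfl
  disj := by
    have key : ∀ (e : WE p) (s : Bool) (g : (WLoc (p + 1)).E), g ∈ wc p (s, e) →
        g.1 = s ∧ wmain p g.2 = some e := by
      intro e s g hg
      cases e with
      | b1 => rw [Finset.mem_singleton.1 hg]; exact ⟨rfl, rfl⟩
      | b2 => rw [Finset.mem_singleton.1 hg]; exact ⟨rfl, rfl⟩
      | eta => rw [Finset.mem_singleton.1 hg]; exact ⟨rfl, rfl⟩
      | sig => rw [Finset.mem_singleton.1 hg]; exact ⟨rfl, rfl⟩
      | s3 => rw [Finset.mem_singleton.1 hg]; exact ⟨rfl, rfl⟩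
      | row i =>
        rw [Finset.mem_singleton.1 hg]
        refine ⟨rfl, ?_⟩
        show (if h : i.1 < 2 * p + 1 then some (WE.row ⟨i.1, h⟩) else _) = _
        rw [dif_pos i.2]
      | leg k =>
        have hk := k.2
        by_cases h : k.1 = 2 * p + 2
        · rw [wc_last p s k h, Finset.mem_insert, Finset.mem_singleton] at hg
          have hkk : k = ⟨2 * p + 2, by omega⟩ := Fin.ext h
          rcases hg with rfl | rfl
          · refine ⟨rfl, ?_⟩
            show (if h : 2 * p + 1 < 2 * p + 1 then _ else if 2 * p + 1 = 2 * p + 1 then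
              some (WE.leg ⟨2 * p + 2, _⟩) else none) = _
            rw [dif_neg (by omega), if_pos rfl, hkk]
          · refine ⟨rfl, ?_⟩
            show (if h : 2 * p + 2 < 2 * p + 3 then some (WE.leg ⟨2 * p + 2, h⟩) else _) = _
            rw [dif_pos (by omega), hkk]
        · rw [wc_leg p s k h, Finset.mem_singleton] at hg
          rw [hg]
          refine ⟨rfl, ?_⟩
          show (if h : k.1 < 2 * p + 3 then some (WE.leg ⟨k.1, h⟩) else _) = _
          rw [dif_pos hk]
    rintro ⟨s, e⟩ ⟨s', f⟩ hne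
    rw [Finset.disjoint_left]
    intro g hg hg'
    obtain ⟨h1, h2⟩ := key e s g hg
    obtain ⟨h1', h2'⟩ := key f s' g hg'
    have hs : s = s' := h1.symm.trans h1'
    subst hs
    rw [h2] at h2'
    exact hne (by rw [Option.some_injective _ h2'])
  en := rfl
  ex := rfl
  bl := rfl
  br := rfl

/-- the embeddings of the regions -/
def emb (p : ℕ) : (t : RT) → t ≠ .G → LEmb (t.loc (p + 1)) (t.loc (p + 2))
  | .T, _ => embT (p + 2)
  | .W, _ => embW p
  | .G, h => absurd rfl h

theorem wc_avoid (p : ℕ) (e : (WLoc (p + 1)).E) (k : Fin (2 * (p + 1) + 3)) (h1 : e.2 = .leg k)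
    (hk : k.1 = 2 * (p + 1) + 1 ∨ k.1 = 2 * (p + 1) + 2) (s : Bool) (f : WE p) :
    e ∉ wc p (s, f) := by
  intro hm
  cases f with
  | b1 => rw [Finset.mem_singleton.1 hm] at h1; exact absurd h1 (by simp [we])
  | b2 => rw [Finset.mem_singleton.1 hm] at h1; exact absurd h1 (by simp [we])
  | eta => rw [Finset.mem_singleton.1 hm] at h1; exact absurd h1 (by simp [we])
  | sig => rw [Finset.mem_singleton.1 hm] at h1; exact absurd h1 (by simp [we])
  | s3 => rw [Finset.mem_singleton.1 hm] at h1; exact absurd h1 (by simp [we])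
  | row i => rw [Finset.mem_singleton.1 hm] at h1; exact absurd h1 (by simp [we])
  | leg k' =>
    have hk3 := k'.2
    by_cases h : k'.1 = 2 * p + 2
    · rw [wc_last p s k' h, Finset.mem_insert, Finset.mem_singleton] at hm
      rcases hm with rfl | rfl
      · exact absurd h1 (by simp [we])
      · have h2 : 2 * p + 2 = k.1 := congrArg Fin.val (WE.leg.inj h1)
        omega
    · rw [wc_leg p s k' h, Finset.mem_singleton] at hm
      rw [hm] at h1
      have h2 : k'.1 = k.1 := congrArg Fin.val (WE.leg.inj h1)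
      omega

theorem emb_avoid (p : ℕ) (t : RT) (ht : t ≠ .G) (e : (t.loc (p + 2)).E)
    (he : RT.wend (p + 2) t e) (f : (t.loc (p + 1)).E) : e ∉ (emb p t ht).c f := by
  cases t with
  | T => exact absurd he id
  | G => exact absurd rfl ht
  | W =>
    obtain ⟨k, hk, hk'⟩ := he
    obtain ⟨s, f⟩ := f
    exact wc_avoid p e k hk hk' s f

end EmbWW

variable {N : ℕ} [NeZero N]

theorem exists_emb_WW (hN : 5 ≤ N) (q : ℕ) (hq : 1 ≤ q) (τ : ZMod N → RT) (hG : ∀ j, τ j ≠ .G)
    (j : ZMod N) (e : ((τ j).loc (q + 1)).E) (he : RT.wend (q + 1) (τ j) e) :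
    ∃ φ : TEmb (tstrip q true τ) (tstrip (q + 1) true τ), ∀ f, le (q + 1) true τ j e ∉ φ.c f := by
  obtain ⟨p, rfl⟩ : ∃ p, q = p + 1 := ⟨q - 1, by omega⟩
  exact ⟨EmbL.temb hN (fun j => EmbWW.emb p (τ j) (hG j)) true,
    EmbL.avoid hN (fun j => EmbWW.emb p (τ j) (hG j)) true j e (EmbWW.emb_avoid p (τ j) (hG j) e he)⟩

end Pool.Agent.CC
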