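import Pool.Agent.Lib_helper74.CCF.WInd

namespace Pool.Agent.CC

open Gph

theorem F2_lb' (q M : ℕ) (hM : 12 * (q + 12) ≤ M) : (F2 q M).LB (q + 6) :=
  WIND67.LB_W q M hM

end Pool.Agent.CC
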