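import Pool.Agent.Lib_helper74.CCF.Defs2

/-!
# Strips

A closed strip has `N` regions `j : ZMod N` and `N` hubs `H j : ZMod N`. The region `j` lies between
its left hub `A = H (j-1)` and its right hub `B = H j`. The local graph of a region is a `Loc`; its
edges join local vertices and the two hubs. Consecutive regions are joined by the row edge
(`ex` of region `j` to `en` of region `j+1`) and, if `c = true`, by the bypass edge `j`, which goes
from the left end `H (j-1)` (or the local vertex `br` of region `j`) to the right end `H (j+1)` (or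
the local vertex `bl` of region `j+1`).
-/

namespace Pool.Agent.CC

/-- The local graph of a region. Ends: `.inl v` a local vertex, `.inr false` the left hub `A`,
`.inr true` the right hub `B`. -/
structure Loc where
  V : Type
  E : Type
  [fV : Fintype V]
  [dV : DecidableEq V]
  [fE : Fintype E]
  [dE : DecidableEq E]
  a : E → V ⊕ Bool
  b : E → V ⊕ Bool
  /-- entry and exit of the row -/
  en : V
  ex : V
  /-- right end of the bypass edge coming from the left (`none`: the hub `B`) -/
  bl : Option V
  /-- left end of the bypass edge going to the right (`none`: the hub `A`) -/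
  br : Option V

attribute [instance] Loc.fV Loc.dV Loc.fE Loc.dE

variable {N : ℕ} [NeZero N]

/-- The vertex of the strip given by an end in region `j`. -/
def locEnd (L : ZMod N → Loc) (j : ZMod N) : (L j).V ⊕ Bool → ZMod N ⊕ (Σ j, (L j).V)
  | .inl v => .inr ⟨j, v⟩
  | .inr false => .inl (j - 1)
  | .inr true => .inl j

/-- left end of the bypass edge `j` -/
def byL (L : ZMod N → Loc) (j : ZMod N) : ZMod N ⊕ (Σ j, (L j).V) :=
  match (L j).br with
  | none => .inl (j - 1)
  | some v => .inr ⟨j, v⟩

/-- right end of the bypass edge `j` -/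
def byR (L : ZMod N → Loc) (j : ZMod N) : ZMod N ⊕ (Σ j, (L j).V) :=
  match (L (j + 1)).bl with
  | none => .inl (j + 1)
  | some v => .inr ⟨j + 1, v⟩

/-- The closed strip. Edges: local edges, row edges `j` (from region `j` to region `j+1`), bypass
edges `j` (if `c = true`). -/
def strip (L : ZMod N → Loc) (c : Bool) : Gph where
  V := ZMod N ⊕ (Σ j, (L j).V)
  E := (Σ j, (L j).E) ⊕ (ZMod N ⊕ {_j : ZMod N // c = true})
  a := fun e => match e with
    | .inl ⟨j, e⟩ => locEnd L j ((L j).a e)
    | .inr (.inl j) => .inr ⟨j, (L j).ex⟩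
    | .inr (.inr ⟨j, _⟩) => byL L j
  b := fun e => match e with
    | .inl ⟨j, e⟩ => locEnd L j ((L j).b e)
    | .inr (.inl j) => .inr ⟨j + 1, (L (j + 1)).en⟩
    | .inr (.inr ⟨j, _⟩) => byR L j

/-- `T(t)`, `t = q + 1` layers: row vertices `0, …, 2t-1`; even ones are attached to `B`, odd ones
to `A`. Edges: legs `.inl i`, row edges `.inr i` (from `i` to `i+1`). -/
def TLoc (q : ℕ) : Loc where
  V := Fin (2 * q + 2)
  E := Fin (2 * q + 2) ⊕ Fin (2 * q + 1)
  a := fun e => match e with
    | .inl i => .inl i
    | .inr i => .inl ⟨i.1, by omega⟩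
  b := fun e => match e with
    | .inl i => .inr (decide (i.1 % 2 = 0))
    | .inr i => .inl ⟨i.1 + 1, by omega⟩
  en := ⟨0, by omega⟩
  ex := ⟨2 * q + 1, by omega⟩
  bl := none
  br := none

/-- `G(l)`, `l = q + 2`. Two parts: `(false, i)` the left part, `i = 0, …, 2q+1` from left to
right, `(true, i)` the right part, `i = 0, …, 2q+1` from right to left (the right part is the left
part turned by 180 degrees: `A` and `B` exchanged). Left part: vertex `i` is attached to `B` if `i`
is even and to `A` if `i` is odd; the last vertex `2q+1` has a second leg to `B`. Edges: legs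
`(s, .inl k)`, `k = 0, …, 2q+2`, row edges `(s, .inr i)`, `i = 0, …, 2q`. -/
def GLoc (q : ℕ) : Loc where
  V := Bool × Fin (2 * q + 2)
  E := Bool × (Fin (2 * q + 3) ⊕ Fin (2 * q + 1))
  a := fun e => match e with
    | (s, .inl k) => .inl (s, ⟨min k.1 (2 * q + 1), by omega⟩)
    | (s, .inr i) => .inl (s, ⟨i.1, by omega⟩)
  b := fun e => match e with
    | (s, .inl k) => .inr (xor s (decide (k.1 % 2 = 0)))
    | (s, .inr i) => .inl (s, ⟨i.1 + 1, by omega⟩)
  en := (false, ⟨0, by omega⟩)
  ex := (true, ⟨0, by omega⟩)
  bl := none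
  br := none

/-- The local vertices of one part of `W(l)`, `l = q + 3`: `v1, v2, w` and `x 0, …, x (2q+1)`. -/
inductive WV (q : ℕ) where
  | v1 | v2 | w
  | x (i : Fin (2 * q + 2))
  deriving DecidableEq, Fintype

/-- The edges of one part of `W(l)`: `b1 = v1 B`, `b2 = v2 B`, `eta = v1 v2`, `sig = v2 w`,
`s3 = w x0`, the legs of the `x i`, the row edges `x i x (i+1)`. -/
inductive WE (q : ℕ) where
  | b1 | b2 | eta | sig | s3
  | leg (k : Fin (2 * q + 3))
  | row (i : Fin (2 * q + 1))
  deriving DecidableEq, Fintype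

/-- `W(l)`, `l = q + 3`. Left part (`false`): the bypass edge from the left ends at `v1`, the row
enters at `w`; `x i` is attached to `A` if `i = 0` or `i` odd, to `B` if `i ≥ 2` is even, the last
vertex `x (2q+1)` has a second leg, to `B` (leg `2q+2`). Right part: turned by 180 degrees. -/
def WLoc (q : ℕ) : Loc where
  V := Bool × WV q
  E := Bool × WE q
  a := fun e => .inl (e.1, match e.2 with
    | .b1 => .v1
    | .b2 => .v2
    | .eta => .v1
    | .sig => .v2
    | .s3 => .w
    | .leg k => .x ⟨min k.1 (2 * q + 1), by omega⟩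
    | .row i => .x ⟨i.1, by omega⟩)
  b := fun e => match e.2 with
    | .b1 => .inr (!e.1)
    | .b2 => .inr (!e.1)
    | .eta => .inl (e.1, .v2)
    | .sig => .inl (e.1, .w)
    | .s3 => .inl (e.1, .x ⟨0, by omega⟩)
    | .leg k => .inr (xor e.1 (decide (k.1 % 2 = 0 ∧ k.1 ≠ 0)))
    | .row i => .inl (e.1, .x ⟨i.1 + 1, by omega⟩)
  en := (false, .w)
  ex := (true, .w)
  bl := some (false, .v1)
  br := some (true, .v1)

/-- The region types. -/
inductive RT where
  | T | G | W
  deriving DecidableEq

/-- The local graph of the given type in the strips of level `l = q + 2`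
(`T(q+2)`, `G(q+2)`); for `W` the level is `l = q + 2` as well, with `q = q' + 1`. -/
def RT.loc (q : ℕ) : RT → Loc
  | .T => TLoc (q + 1)
  | .G => GLoc q
  | .W => WLoc (q - 1)

/-- The strip of level `q + 2` with region types `τ`. -/
def tstrip (q : ℕ) (c : Bool) (τ : ZMod N → RT) : Gph := strip (fun j => (τ j).loc q) c

/-- Alternating types `T, X, T, X, …, T` on `N = 2 M + 1` regions. -/
def altType (M : ℕ) (X : RT) : ZMod (2 * M + 1) → RT :=
  fun j => if j.val % 2 = 0 then .T else X

/-- `F0(l)`, `l = q+2`: hubs `3l-1`, crossing number `l`. -/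
def F0 (q M : ℕ) : Gph := tstrip (N := 2 * M + 1) q false (altType M .G)
/-- `F1(l)`, `l = q+2`: hubs `3l+1`, crossing number `l+3`. -/
def F1 (q M : ℕ) : Gph := tstrip (N := 2 * M + 1) q true (altType M .G)
/-- `F2(l)`, `l = q+3`: hubs `3l`, crossing number `l+3`. -/
def F2 (q M : ℕ) : Gph := tstrip (N := 2 * M + 1) (q + 1) true (altType M .W)
/-- all regions `T(l)`, `l = q+2`: hubs `2l`, crossing number `l`. -/
def FT (q M : ℕ) : Gph := tstrip (N := 2 * M + 1) q false (fun _ => .T)

end Pool.Agent.CC
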