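import Pool.Agent.Lib_helper74.CCF.Z6
import Pool.Agent.Lib_helper74.CCF.Strip

/-! FCI: isomorphisms of multigraphs (edges may be reversed), transport of spine drawings;
rotations of strips, the rotation by 180 degrees. -/

namespace Pool.Agent.CC
namespace Gph

/-- A spine drawing pulled back along an embedding that may reverse edges. -/
theorem Spine.pullU {G H : Gph} {α : Type} [LinearOrder α] (S : Spine H α) (fV : G.V → H.V)
    (fE : G.E → H.E) (hV : Function.Injective fV) (hE : Function.Injective fE)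
    (h : ∀ e, (H.a (fE e) = fV (G.a e) ∧ H.b (fE e) = fV (G.b e)) ∨
      (H.a (fE e) = fV (G.b e) ∧ H.b (fE e) = fV (G.a e))) :
    ∃ S' : Spine G α, (∀ v, S'.pos v = S.pos (fV v)) ∧
      ∀ e x, x ∈ S'.bends e ↔ x ∈ S.bends (fE e) := by
  classical
  let F : Finset H.E := Finset.univ.filter (fun e' : H.E =>
    ∃ e, fE e = e' ∧ ¬ (H.a (fE e) = fV (G.a e) ∧ H.b (fE e) = fV (G.b e)))
  have hF : ∀ e, fE e ∈ F ↔ ¬ (H.a (fE e) = fV (G.a e) ∧ H.b (fE e) = fV (G.b e)) := by
    intro e
    simp only [F, Finset.mem_filter, Finset.mem_univ, true_and]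
    constructor
    · rintro ⟨e', h1, h2⟩
      have := hE h1
      subst this
      exact h2
    · intro h1
      exact ⟨e, rfl, h1⟩
  refine ⟨(S.reor F).pull (G := G) fV fE hV hE ?_ ?_, fun v => rfl, ?_⟩
  · intro e
    show fV (G.a e) = if fE e ∈ F then H.b (fE e) else H.a (fE e)
    by_cases h1 : fE e ∈ F
    · rw [if_pos h1]
      rcases h e with h2 | h2
      · exact absurd h2 ((hF e).1 h1)
      · exact h2.2.symm
    · rw [if_neg h1]
      rw [hF, not_not] at h1
      exact h1.1.symm
  · intro e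
    show fV (G.b e) = if fE e ∈ F then H.a (fE e) else H.b (fE e)
    by_cases h1 : fE e ∈ F
    · rw [if_pos h1]
      rcases h e with h2 | h2
      · exact absurd h2 ((hF e).1 h1)
      · exact h2.1.symm
    · rw [if_neg h1]
      rw [hF, not_not] at h1
      exact h1.2.symm
  · intro e x
    show x ∈ (((S.reor F).route (fE e)).map Prod.snd).dropLast ↔ x ∈ S.bends (fE e)
    show x ∈ (((if fE e ∈ F then revR (S.pos (H.a (fE e))) (S.route (fE e)) else
      S.route (fE e))).map Prod.snd).dropLast ↔ x ∈ S.bends (fE e)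
    by_cases h1 : fE e ∈ F
    · rw [if_pos h1, dropLast_revR, List.mem_reverse]; rfl
    · rw [if_neg h1]; rfl

/-- An isomorphism of multigraphs; edges may be reversed. -/
structure GIso (G H : Gph) where
  v : G.V ≃ H.V
  e : G.E ≃ H.E
  ends : ∀ x, (H.a (e x) = v (G.a x) ∧ H.b (e x) = v (G.b x)) ∨
    (H.a (e x) = v (G.b x) ∧ H.b (e x) = v (G.a x))

/-- `G - e` has a spine drawing with at most `K - 1` crossings. -/
def DelOK (G : Gph) (K : ℕ) (e : G.E) : Prop :=
  ∃ (α : Type) (_ : LinearOrder α) (S : Spine (G.del e) α), S.crossings.card + 1 ≤ K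

/-- `G` has a spine drawing with at most `K` crossings. -/
def DrawOK (G : Gph) (K : ℕ) : Prop :=
  ∃ (α : Type) (_ : LinearOrder α) (S : Spine G α), S.crossings.card ≤ K

theorem fc_iff (G : Gph) (K : ℕ) : G.FC K ↔ G.DrawOK K ∧ ∀ e, G.DelOK K e := Iff.rfl

theorem DelOK.of_crossed {G : Gph} {K : ℕ} {e : G.E} (h : G.CrossedIn K e) : G.DelOK K e := by
  obtain ⟨α, i, S, h1, h2⟩ := h
  obtain ⟨S', h3⟩ := S.exists_del e h2
  exact ⟨α, i, S', le_trans h3 h1⟩

namespace GIso
variable {G H : Gph}

def symm (i : GIso G H) : GIso H G where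
  v := i.v.symm
  e := i.e.symm
  ends := fun x => by
    have h := i.ends (i.e.symm x)
    rw [Equiv.apply_symm_apply] at h
    rcases h with h | h
    · left
      exact ⟨by rw [h.1, Equiv.symm_apply_apply], by rw [h.2, Equiv.symm_apply_apply]⟩
    · right
      exact ⟨by rw [h.2, Equiv.symm_apply_apply], by rw [h.1, Equiv.symm_apply_apply]⟩

/-- Deletion of an edge. -/
def del (i : GIso G H) (x : G.E) : GIso (G.del x) (H.del (i.e x)) where
  v := i.v
  e := { toFun := fun f => ⟨i.e f.1, fun h => f.2 (i.e.injective h)⟩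
         invFun := fun f => ⟨i.e.symm f.1, fun h => f.2 ((Equiv.symm_apply_eq i.e).1 h)⟩
         left_inv := fun f => Subtype.ext (i.e.symm_apply_apply f.1)
         right_inv := fun f => Subtype.ext (i.e.apply_symm_apply f.1) }
  ends := fun f => i.ends f.1

theorem spine (i : GIso G H) {α : Type} [LinearOrder α] (S : Spine H α) :
    ∃ S' : Spine G α, S'.crossings = S.crossings ∧
      (∀ e x, x ∈ S'.bends e ↔ x ∈ S.bends (i.e e)) ∧
      ∀ e, S'.Crossed e ↔ S.Crossed (i.e e) := by
  obtain ⟨S', -, h2⟩ := S.pullU (G := G) i.v i.e i.v.injective i.e.injective i.ends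
  have h3 : S'.crossings = S.crossings := by
    ext x
    rw [S'.mem_crossings, S.mem_crossings]
    constructor
    · rintro ⟨e, f, h3, h4, h5⟩
      exact ⟨i.e e, i.e f, fun h => h3 (i.e.injective h), (h2 e x).1 h4, (h2 f x).1 h5⟩
    · rintro ⟨e, f, h3, h4, h5⟩
      refine ⟨i.e.symm e, i.e.symm f, fun h => h3 (i.e.symm.injective h), ?_, ?_⟩
      · rw [h2, Equiv.apply_symm_apply]; exact h4
      · rw [h2, Equiv.apply_symm_apply]; exact h5
  refine ⟨S', h3, h2, ?_⟩
  intro e
  unfold Spine.Crossed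
  rw [h3]
  constructor
  · rintro ⟨x, h4, h5⟩
    exact ⟨x, (h2 e x).1 h4, h5⟩
  · rintro ⟨x, h4, h5⟩
    exact ⟨x, (h2 e x).2 h4, h5⟩

theorem drawOK (i : GIso G H) {K : ℕ} (h : H.DrawOK K) : G.DrawOK K := by
  obtain ⟨α, o, S, h1⟩ := h
  obtain ⟨S', h2, -⟩ := i.spine S
  exact ⟨α, o, S', by rw [h2]; exact h1⟩

theorem delOK (i : GIso G H) {K : ℕ} {x : G.E} (h : H.DelOK K (i.e x)) : G.DelOK K x := by
  obtain ⟨α, o, S, h1⟩ := h
  obtain ⟨S', h2, -⟩ := (i.del x).spine S
  exact ⟨α, o, S', by rw [h2]; exact h1⟩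

theorem crossedIn (i : GIso G H) {K : ℕ} {x : G.E} (h : H.CrossedIn K (i.e x)) :
    G.CrossedIn K x := by
  obtain ⟨α, o, S, h1, h2⟩ := h
  obtain ⟨S', h3, -, h4⟩ := i.spine S
  exact ⟨α, o, S', by rw [h3]; exact h1, (h4 x).2 h2⟩

theorem fc (i : GIso G H) {K : ℕ} (h : H.FC K) : G.FC K :=
  ⟨i.drawOK h.1, fun x => i.delOK (h.2 (i.e x))⟩

end GIso
end Gph

open Gph

/-! ## Isomorphisms of strips -/

section strips
variable {N : ℕ} [NeZero N]

/-- A map between two local graphs. `t = true`: rotation by 180 degrees. Edges may be reversed. -/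
structure Loc.Turn (X Y : Loc) (t : Bool) where
  v : X.V ≃ Y.V
  e : X.E ≃ Y.E
  ends : ∀ x, (Y.a (e x) = Sum.map v (xor t) (X.a x) ∧ Y.b (e x) = Sum.map v (xor t) (X.b x)) ∨
    (Y.a (e x) = Sum.map v (xor t) (X.b x) ∧ Y.b (e x) = Sum.map v (xor t) (X.a x))
  en : Y.en = if t then v X.ex else v X.en
  ex : Y.ex = if t then v X.en else v X.ex
  bl : Y.bl = if t then X.br.map v else X.bl.map v
  br : Y.br = if t then X.bl.map v else X.br.map v

end strips

namespace FCI
section strips
variable {N : ℕ} [NeZero N]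

/-- The sum over the regions of equivalences over a permutation of the regions. -/
def sigEquiv {β γ : ZMod N → Type} (g : ZMod N ≃ ZMod N) (f : ∀ j, β j ≃ γ (g j)) :
    (Σ j, β j) ≃ (Σ j, γ j) :=
  (Equiv.sigmaCongrRight f).trans (Equiv.sigmaCongrLeft (β := γ) g)

omit [NeZero N] in
theorem sigEquiv_apply {β γ : ZMod N → Type} (g : ZMod N ≃ ZMod N) (f : ∀ j, β j ≃ γ (g j))
    (j : ZMod N) (x : β j) : sigEquiv g f ⟨j, x⟩ = ⟨g j, f j x⟩ := rfl


omit [NeZero N] in
theorem inr_congr (L : ZMod N → Loc) {j k : ZMod N} (h : j = k) (f : ∀ X : Loc, X.V) :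
    (Sum.inr ⟨j, f (L j)⟩ : ZMod N ⊕ (Σ j, (L j).V)) = Sum.inr ⟨k, f (L k)⟩ := by
  subst h; rfl

/-- The map of the hubs. -/
def hubE (g : ZMod N ≃ ZMod N) (t : Bool) : ZMod N ≃ ZMod N :=
  if t then g.trans (Equiv.subRight 1) else g

omit [NeZero N] in
theorem hubE_true (g : ZMod N ≃ ZMod N) (j : ZMod N) : hubE g true j = g j - 1 := rfl
omit [NeZero N] in
theorem hubE_false (g : ZMod N ≃ ZMod N) (j : ZMod N) : hubE g false j = g j := rfl

/-- The map of the vertices. -/
def vE (L L' : ZMod N → Loc) (g : ZMod N ≃ ZMod N) (t : Bool)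
    (f : ∀ j, Loc.Turn (L j) (L' (g j)) t) :
    (ZMod N ⊕ (Σ j, (L j).V)) ≃ (ZMod N ⊕ (Σ j, (L' j).V)) :=
  Equiv.sumCongr (hubE g t) (sigEquiv g (fun j => (f j).v))

variable (L L' : ZMod N → Loc) (c : Bool) (g : ZMod N ≃ ZMod N) (t : Bool)
    (hg : ∀ j, g (j + 1) = if t then g j - 1 else g j + 1)
    (f : ∀ j, Loc.Turn (L j) (L' (g j)) t)

omit [NeZero N] in
include hg in
theorem hg_sub (j : ZMod N) : g (j - 1) = if t then g j + 1 else g j - 1 := by
  have h := hg (j - 1)
  rw [sub_add_cancel] at h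
  cases t
  · simp only [Bool.false_eq_true, if_false] at h ⊢; rw [h]; ring
  · simp only [if_true] at h ⊢; rw [h]; ring

omit [NeZero N] in
include hg in
theorem vE_locEnd (j : ZMod N) (x : (L j).V ⊕ Bool) :
    vE L L' g t f (locEnd L j x) = locEnd L' (g j) (Sum.map (f j).v (xor t) x) := by
  have h1 := hg_sub g t hg j
  rcases x with v | b
  · rfl
  · cases t <;> cases b
    · show Sum.inl (g (j - 1)) = Sum.inl (g j - 1)
      rw [h1]; rfl
    · rfl
    · show Sum.inl (g (j - 1) - 1) = Sum.inl (g j)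
      rw [h1]; simp
    · rfl

omit [NeZero N] in
theorem byR_eq (j : ZMod N) {k : ZMod N} (h : j + 1 = k) : byR L j =
    (match (L k).bl with
    | none => .inl k
    | some v => .inr ⟨k, v⟩) := by
  subst h; unfold byR; cases (L (j + 1)).bl <;> rfl

omit [NeZero N] in
theorem byL_eq (j : ZMod N) {k : ZMod N} (h : j = k) : byL L j =
    (match (L k).br with
    | none => .inl (k - 1)
    | some v => .inr ⟨k, v⟩) := by
  subst h; rfl

/-- Rotation and turning of strips. `t = true`: the local graphs are turned by 180 degrees. -/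
def stripIso : GIso (strip L c) (strip L' c) where
  v := vE L L' g t f
  e := Equiv.sumCongr (sigEquiv g (fun j => (f j).e))
    (Equiv.sumCongr (hubE g t) (Equiv.subtypeEquiv (hubE g t) (fun _ => Iff.rfl)))
  ends := by
    rintro (⟨j, x⟩ | j | ⟨j, hc⟩)
    · show (locEnd L' (g j) ((L' (g j)).a ((f j).e x)) = vE L L' g t f (locEnd L j ((L j).a x)) ∧
        locEnd L' (g j) ((L' (g j)).b ((f j).e x)) = vE L L' g t f (locEnd L j ((L j).b x))) ∨
        (locEnd L' (g j) ((L' (g j)).a ((f j).e x)) = vE L L' g t f (locEnd L j ((L j).b x)) ∧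
        locEnd L' (g j) ((L' (g j)).b ((f j).e x)) = vE L L' g t f (locEnd L j ((L j).a x)))
      rw [vE_locEnd L L' g t hg f, vE_locEnd L L' g t hg f]
      rcases (f j).ends x with h | h
      · left; rw [h.1, h.2]; exact ⟨rfl, rfl⟩
      · right; rw [h.1, h.2]; exact ⟨rfl, rfl⟩
    · cases t
      · left
        refine ⟨?_, ?_⟩
        · show (Sum.inr ⟨g j, (L' (g j)).ex⟩ : ZMod N ⊕ (Σ j, (L' j).V)) =
            Sum.inr ⟨g j, (f j).v (L j).ex⟩
          rw [(f j).ex]; rfl
        · show (Sum.inr ⟨g j + 1, (L' (g j + 1)).en⟩ : ZMod N ⊕ (Σ j, (L' j).V)) =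
            Sum.inr ⟨g (j + 1), (f (j + 1)).v (L (j + 1)).en⟩
          rw [inr_congr L' (by simpa using (hg j).symm : g j + 1 = g (j + 1)) Loc.en,
            (f (j + 1)).en]; rfl
      · right
        refine ⟨?_, ?_⟩
        · show (Sum.inr ⟨g j - 1, (L' (g j - 1)).ex⟩ : ZMod N ⊕ (Σ j, (L' j).V)) =
            Sum.inr ⟨g (j + 1), (f (j + 1)).v (L (j + 1)).en⟩
          rw [inr_congr L' (by simpa using (hg j).symm : g j - 1 = g (j + 1)) Loc.ex,
            (f (j + 1)).ex]; rfl
        · show (Sum.inr ⟨g j - 1 + 1, (L' (g j - 1 + 1)).en⟩ : ZMod N ⊕ (Σ j, (L' j).V)) =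
            Sum.inr ⟨g j, (f j).v (L j).ex⟩
          rw [inr_congr L' (by ring : g j - 1 + 1 = g j) Loc.en, (f j).en]; rfl
    · cases t
      · left
        refine ⟨?_, ?_⟩
        · show byL L' (g j) = vE L L' g false f (byL L j)
          unfold byL
          rw [(f j).br]
          cases (L j).br with
          | none =>
            show Sum.inl (g j - 1) = Sum.inl (g (j - 1))
            rw [hg_sub g false hg]; rfl
          | some v => rfl
        · show byR L' (g j) = vE L L' g false f (byR L j)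
          rw [byR_eq L' (g j) (by simpa using (hg j).symm : g j + 1 = g (j + 1))]
          unfold byR
          rw [(f (j + 1)).bl]
          cases (L (j + 1)).bl with
          | none => rfl
          | some v => rfl
      · right
        refine ⟨?_, ?_⟩
        · show byL L' (g j - 1) = vE L L' g true f (byR L j)
          rw [byL_eq L' (g j - 1) (by simpa using (hg j).symm : g j - 1 = g (j + 1))]
          unfold byR
          rw [(f (j + 1)).br]
          cases (L (j + 1)).bl with
          | none => rfl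
          | some v => rfl
        · show byR L' (g j - 1) = vE L L' g true f (byL L j)
          rw [byR_eq L' (g j - 1) (by ring : g j - 1 + 1 = g j)]
          unfold byL
          rw [(f j).bl]
          cases (L j).br with
          | none =>
            show Sum.inl (g j) = Sum.inl (g (j - 1) - 1)
            rw [hg_sub g true hg]; simp
          | some v => rfl

end strips
end FCI

/-! ## The turns of the local graphs -/

/-- The identity. -/
def Loc.Turn.refl (X : Loc) : X.Turn X false where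
  v := Equiv.refl _
  e := Equiv.refl _
  ends := fun x => by
    left
    constructor
    · rcases h : X.a x with v | b
      · show X.a x = _; rw [h]; rfl
      · show X.a x = _; rw [h]; cases b <;> rfl
    · rcases h : X.b x with v | b
      · show X.b x = _; rw [h]; rfl
      · show X.b x = _; rw [h]; cases b <;> rfl
  en := rfl
  ex := rfl
  bl := by cases h : X.bl <;> simp
  br := by cases h : X.br <;> simp

namespace FCI

def boolNot : Bool ≃ Bool := ⟨not, not, Bool.not_not, Bool.not_not⟩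

def turnT (q : ℕ) : (TLoc q).Turn (TLoc q) true where
  v := (Fin.revPerm : Equiv.Perm (Fin (2 * q + 2)))
  e := Equiv.sumCongr (Fin.revPerm : Equiv.Perm (Fin (2 * q + 2)))
    (Fin.revPerm : Equiv.Perm (Fin (2 * q + 1)))
  ends := by
    rintro (i | i)
    · left
      refine ⟨rfl, ?_⟩
      show Sum.inr (decide ((Fin.rev i).1 % 2 = 0)) = Sum.inr (xor true (decide (i.1 % 2 = 0)))
      congr 1
      rw [Fin.val_rev]
      have := i.2
      by_cases h : i.1 % 2 = 0
      · have h2 : ¬ (2 * q + 2 - (i.1 + 1)) % 2 = 0 := by omega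
        rw [decide_eq_false h2, decide_eq_true h]; rfl
      · have h2 : (2 * q + 2 - (i.1 + 1)) % 2 = 0 := by omega
        rw [decide_eq_true h2, decide_eq_false h]; rfl
    · right
      have := i.2
      constructor
      · show (Sum.inl ⟨(Fin.rev i).1, _⟩ : Fin (2 * q + 2) ⊕ Bool) = Sum.inl (Fin.rev ⟨i.1 + 1, _⟩)
        congr 1
        apply Fin.ext
        simp only [Fin.val_rev]
        omega
      · show (Sum.inl ⟨(Fin.rev i).1 + 1, _⟩ : Fin (2 * q + 2) ⊕ Bool) =
          Sum.inl (Fin.rev ⟨i.1, _⟩)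
        congr 1
        apply Fin.ext
        simp only [Fin.val_rev]
        omega
  en := by
    show (⟨0, _⟩ : Fin (2 * q + 2)) = Fin.rev ⟨2 * q + 1, _⟩
    apply Fin.ext
    simp [Fin.val_rev]
  ex := by
    show (⟨2 * q + 1, _⟩ : Fin (2 * q + 2)) = Fin.rev ⟨0, _⟩
    apply Fin.ext
    simp [Fin.val_rev]
  bl := rfl
  br := rfl

def turnG (q : ℕ) : (GLoc q).Turn (GLoc q) true where
  v := Equiv.prodCongr boolNot (Equiv.refl _)
  e := Equiv.prodCongr boolNot (Equiv.refl _)
  ends := by
    rintro ⟨s, k | i⟩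
    · left
      refine ⟨rfl, ?_⟩
      show (Sum.inr (xor (!s) (decide (k.1 % 2 = 0))) : (Bool × Fin (2 * q + 2)) ⊕ Bool) =
        Sum.inr (xor true (xor s (decide (k.1 % 2 = 0))))
      cases s <;> simp
    · left
      exact ⟨rfl, rfl⟩
  en := rfl
  ex := rfl
  bl := rfl
  br := rfl

def turnW (q : ℕ) : (WLoc q).Turn (WLoc q) true where
  v := Equiv.prodCongr boolNot (Equiv.refl _)
  e := Equiv.prodCongr boolNot (Equiv.refl _)
  ends := by
    rintro ⟨s, x⟩
    left
    refine ⟨rfl, ?_⟩
    cases x with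
    | b1 => cases s <;> rfl
    | b2 => cases s <;> rfl
    | eta => rfl
    | sig => rfl
    | s3 => rfl
    | leg k =>
      show (Sum.inr (xor (!s) (decide (k.1 % 2 = 0 ∧ k.1 ≠ 0))) : (Bool × WV q) ⊕ Bool) =
        Sum.inr (xor true (xor s (decide (k.1 % 2 = 0 ∧ k.1 ≠ 0))))
      cases s <;> simp
    | row i => rfl
  en := rfl
  ex := rfl
  bl := rfl
  br := rfl

end FCI
open FCI

def RT.turn (q : ℕ) : (X : RT) → (X.loc q).Turn (X.loc q) true
  | .T => turnT (q + 1)
  | .G => turnG q
  | .W => turnW (q - 1)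

namespace FCI
section tstrips
variable {N : ℕ} [NeZero N]

/-- Rotation: the region `j` of the first strip is the region `j + s` of the second one. -/
def rotIso (q : ℕ) (c : Bool) (τ : ZMod N → RT) (s : ZMod N) :
    GIso (tstrip q c (fun j => τ (j + s))) (tstrip q c τ) :=
  stripIso (fun j => (τ (j + s)).loc q) (fun j => (τ j).loc q) c (Equiv.addRight s) false
    (fun j => by
      show j + 1 + s = _
      rw [if_neg (by decide)]
      show j + 1 + s = j + s + 1
      ring) (fun j => Loc.Turn.refl ((τ (j + s)).loc q))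

/-- Turning by 180 degrees: the region `j` of the first strip is the turned region `-j` of the
second one. -/
def turnIso (q : ℕ) (c : Bool) (τ : ZMod N → RT) :
    GIso (tstrip q c (fun j => τ (-j))) (tstrip q c τ) :=
  stripIso (fun j => (τ (-j)).loc q) (fun j => (τ j).loc q) c (Equiv.neg _) true
    (fun j => by
      show -(j + 1) = _
      rw [if_pos rfl]
      show -(j + 1) = -j - 1
      ring) (fun j => RT.turn q (τ (-j)))

/-- The edge `x` of the region `j` of type `X`. -/
def te (q : ℕ) (c : Bool) (τ : ZMod N → RT) {j : ZMod N} {X : RT} (h : τ j = X)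
    (x : (X.loc q).E) : (tstrip q c τ).E :=
  .inl ⟨j, cast (congrArg (fun X => (RT.loc q X).E) h.symm) x⟩

/-- The vertex `x` of the region `j` of type `X`. -/
def tv (q : ℕ) (c : Bool) (τ : ZMod N → RT) {j : ZMod N} {X : RT} (h : τ j = X)
    (x : (X.loc q).V) : (tstrip q c τ).V :=
  .inr ⟨j, cast (congrArg (fun X => (RT.loc q X).V) h.symm) x⟩

/-- The row edge `j`. -/
def rowE (q : ℕ) (c : Bool) (τ : ZMod N → RT) (j : ZMod N) : (tstrip q c τ).E := .inr (.inl j)

/-- The bypass edge `j`. -/
def byE (q : ℕ) (c : Bool) (τ : ZMod N → RT) (hc : c = true) (j : ZMod N) : (tstrip q c τ).E :=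
  .inr (.inr ⟨j, hc⟩)

theorem te_surj (q : ℕ) (c : Bool) (τ : ZMod N → RT) (j : ZMod N) (x : ((τ j).loc q).E) :
    (.inl ⟨j, x⟩ : (tstrip q c τ).E) = te q c τ (rfl : τ j = τ j) x := rfl

variable (q : ℕ) (c : Bool) (τ : ZMod N → RT)

theorem rot_te (s : ZMod N) {j k : ZMod N} (hk : j + s = k) {X : RT} (h : τ k = X)
    (h' : τ (j + s) = X) (x : (X.loc q).E) :
    (rotIso q c τ s).e (te q c (fun j => τ (j + s)) h' x) = te q c τ h x := by
  subst hk; subst h; rfl

theorem turn_te {j k : ZMod N} (hk : -j = k) {X : RT} (h : τ k = X)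
    (h' : τ (-j) = X) (x : (X.loc q).E) :
    (turnIso q c τ).e (te q c (fun j => τ (-j)) h' x) = te q c τ h ((X.turn q).e x) := by
  subst hk; subst h; rfl

theorem rot_row (s j : ZMod N) :
    (rotIso q c τ s).e (rowE q c (fun j => τ (j + s)) j) = rowE q c τ (j + s) := rfl

theorem turn_row (j : ZMod N) :
    (turnIso q c τ).e (rowE q c (fun j => τ (-j)) j) = rowE q c τ (-j - 1) := rfl

theorem rot_by (hc : c = true) (s j : ZMod N) :
    (rotIso q c τ s).e (byE q c (fun j => τ (j + s)) hc j) = byE q c τ hc (j + s) := rfl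

theorem turn_by (hc : c = true) (j : ZMod N) :
    (turnIso q c τ).e (byE q c (fun j => τ (-j)) hc j) = byE q c τ hc (-j - 1) := rfl

/-- Reduction of `DelOK` to the region `0`. -/
theorem delOK_te_of_rot {K : ℕ} {j : ZMod N} {X : RT} (h : τ j = X) (x : (X.loc q).E)
    (hz : ∀ h' : τ (0 + j) = X, (tstrip q c (fun i => τ (i + j))).DelOK K
      (te q c (fun i => τ (i + j)) (j := 0) h' x)) : (tstrip q c τ).DelOK K (te q c τ h x) := by
  have h' : τ (0 + j) = X := by rw [zero_add]; exact h
  have := (rotIso q c τ j).symm.delOK (x := te q c τ h x) (K := K)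
  apply this
  have h2 := rot_te q c τ j (zero_add j) h h' x
  have h3 : (rotIso q c τ j).symm.e (te q c τ h x) = te q c (fun i => τ (i + j)) (j := 0) h' x := by
    show (rotIso q c τ j).e.symm (te q c τ h x) = _
    rw [← h2, Equiv.symm_apply_apply]
  rw [h3]
  exact hz h'

theorem crossedIn_te_of_rot {K : ℕ} {j : ZMod N} {X : RT} (h : τ j = X) (x : (X.loc q).E)
    (hz : ∀ h' : τ (0 + j) = X, (tstrip q c (fun i => τ (i + j))).CrossedIn K
      (te q c (fun i => τ (i + j)) (j := 0) h' x)) : (tstrip q c τ).CrossedIn K (te q c τ h x) := by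
  have h' : τ (0 + j) = X := by rw [zero_add]; exact h
  have := (rotIso q c τ j).symm.crossedIn (x := te q c τ h x) (K := K)
  apply this
  have h2 := rot_te q c τ j (zero_add j) h h' x
  have h3 : (rotIso q c τ j).symm.e (te q c τ h x) = te q c (fun i => τ (i + j)) (j := 0) h' x := by
    show (rotIso q c τ j).e.symm (te q c τ h x) = _
    rw [← h2, Equiv.symm_apply_apply]
  rw [h3]
  exact hz h'

end tstrips
end FCI

end Pool.Agent.CC
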