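import Pool.Agent.Lib_helper74.CCF.Tile
import Pool.Agent.Lib_helper74.CCF.Iso

/-! # FCI for `CC.GIso` (from helper53's `Gph.GIso`) -/

set_option linter.all false

namespace Pool.Agent.CC

open Gph

namespace FCI20

/-- the inverse isomorphism as a `Gph.GIso` -/
def conv {G H : Gph} (i : GIso G H) : Gph.GIso G H where
  v := i.v
  e := i.e
  ends := i.ends

def back {G H : Gph} (i : Gph.GIso G H) : GIso G H where
  v := i.v
  e := i.e
  ends := i.ends

end FCI20

/-- FCI1: transport of a spine drawing (routes of reversed edges are reversed). -/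
theorem GIso.spine {G H : Gph} (i : GIso G H) {α : Type} [LinearOrder α] (S : Spine G α) :
    ∃ S' : Spine H α, S'.crossings = S.crossings ∧ ∀ f, S.Crossed f → S'.Crossed (i.e f) := by
  obtain ⟨S', h1, -, h3⟩ := (FCI20.conv i).symm.spine S
  refine ⟨S', h1, fun f hf => ?_⟩
  rw [h3]
  have : (FCI20.conv i).symm.e (i.e f) = f := i.e.symm_apply_apply f
  rw [this]
  exact hf

/-- FCI2: deletion. -/
theorem GIso.del {G H : Gph} (i : GIso G H) (f : G.E) : Nonempty (GIso (G.del f) (H.del (i.e f))) :=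
  ⟨FCI20.back ((FCI20.conv i).del f)⟩

/-- FCI3: rotation of the strip (`k = 0` becomes region `s`). -/
theorem tstrip_rot {N : ℕ} [NeZero N] (q : ℕ) (c : Bool) (τ : ZMod N → RT) (s : ZMod N) :
    ∃ i : GIso (tstrip q c (fun j => τ (j + s))) (tstrip q c τ),
      (∀ j e, i.e (.inl ⟨j, e⟩) = .inl ⟨j + s, e⟩) ∧
      (∀ j, i.e (.inr (.inl j)) = .inr (.inl (j + s))) ∧
      (∀ j h, i.e (.inr (.inr ⟨j, h⟩)) = .inr (.inr ⟨j + s, h⟩)) :=
  ⟨FCI20.back (FCI.rotIso q c τ s), fun _ _ => rfl, fun _ => rfl, fun _ _ => rfl⟩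

end Pool.Agent.CC
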