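import Pool.Agent.Lib_helper74.CCF.G27Eps

/-! Tile (zeta), `q = 0`: the row edge of the left part is crossed in a full tile. -/

namespace Pool.Agent.CC.TG

open Gph

/-- positions of the local vertices -/
def zpos : (GLoc 0).V → ℤ
  | (false, i) => 5 + 4 * (i.1 : ℤ)
  | (true, i) => 7 + (i.1 : ℤ)

def zpre (c : Bool) : LE (GLoc 0) c → List (Bool × ℤ)
  | .inl (false, .inl _) => []
  | .inl (true, .inl k) => if k.1 = 1 then [(false, 6)] else []
  | .inl (false, .inr _) => [(true, 6)]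
  | .inl (true, .inr _) => []
  | .inr (.inl false) => [(false, 1), (true, 3)]
  | .inr (.inl true) => [(true, 3), (true, 4)]
  | .inr (.inr ⟨false, _⟩) => [(false, 2), (false, 4)]
  | .inr (.inr ⟨true, _⟩) => [(true, 1), (true, 2)]

def zfs (c : Bool) : LE (GLoc 0) c → Bool
  | .inl (false, .inl k) => decide (k.1 ≠ 0)
  | .inl (true, .inl k) => decide (k.1 ≠ 1)
  | .inl (false, .inr _) => false
  | .inl (true, .inr _) => true
  | .inr (.inl false) => true
  | .inr (.inl true) => false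
  | .inr (.inr _) => false

def zArc (c : Bool) : LE (GLoc 0) c → Bool → ℤ → ℤ → Prop
  | .inl (false, .inl k), s, x, y => (k.1 = 0 ∧ s = false ∧ x = 5 ∧ y = 10) ∨
      (k.1 = 1 ∧ s = true ∧ x = 0 ∧ y = 9) ∨ (k.1 = 2 ∧ s = true ∧ x = 9 ∧ y = 10)
  | .inl (true, .inl k), s, x, y => (k.1 = 0 ∧ s = true ∧ x = 0 ∧ y = 7) ∨
      (k.1 = 1 ∧ s = false ∧ x = 6 ∧ y = 8) ∨ (k.1 = 1 ∧ s = false ∧ x = 6 ∧ y = 10) ∨
      (k.1 = 2 ∧ s = true ∧ x = 0 ∧ y = 8)
  | .inl (false, .inr _), s, x, y => (s = true ∧ x = 5 ∧ y = 6) ∨ (s = false ∧ x = 6 ∧ y = 9)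
  | .inl (true, .inr _), s, x, y => s = true ∧ x = 7 ∧ y = 8
  | .inr (.inl false), s, x, y => (s = false ∧ x = -1 ∧ y = 1) ∨ (s = true ∧ x = 1 ∧ y = 3) ∨
      (s = true ∧ x = 3 ∧ y = 5)
  | .inr (.inl true), s, x, y => (s = true ∧ x = 3 ∧ y = 7) ∨ (s = true ∧ x = 3 ∧ y = 4) ∨
      (s = false ∧ x = 4 ∧ y = 11)
  | .inr (.inr ⟨false, _⟩), s, x, y => (s = false ∧ x = -2 ∧ y = 2) ∨
      (s = false ∧ x = 2 ∧ y = 4) ∨ (s = false ∧ x = 4 ∧ y = 10)
  | .inr (.inr ⟨true, _⟩), s, x, y => (s = true ∧ x = 0 ∧ y = 1) ∨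
      (s = true ∧ x = 1 ∧ y = 2) ∨ (s = false ∧ x = 2 ∧ y = 12)

def zUp (x y : ℤ) : Prop :=
  (x = 0 ∧ y = 1) ∨ (x = 0 ∧ 7 ≤ y ∧ y ≤ 9) ∨ (x = 9 ∧ y = 10) ∨ (x = 5 ∧ y = 6) ∨
  (x = 7 ∧ y = 8) ∨ (x = 1 ∧ 2 ≤ y ∧ y ≤ 3) ∨ (x = 3 ∧ 4 ≤ y ∧ y ≤ 5) ∨ (x = 3 ∧ y = 7)

def zLo (x y : ℤ) : Prop :=
  (x = -1 ∧ y = 1) ∨ (x = -2 ∧ y = 2) ∨ (x = 2 ∧ y = 4) ∨ (x = 2 ∧ y = 12) ∨
  (x = 4 ∧ 10 ≤ y ∧ y ≤ 11) ∨ (x = 5 ∧ y = 10) ∨ (x = 6 ∧ 8 ≤ y ∧ y ≤ 10)

def zBend (c : Bool) : LE (GLoc 0) c → ℤ → Prop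
  | .inl (false, .inl _), _ => False
  | .inl (true, .inl k), x => k.1 = 1 ∧ x = 6
  | .inl (false, .inr _), x => x = 6
  | .inl (true, .inr _), _ => False
  | .inr (.inl false), x => x = 1 ∨ x = 3
  | .inr (.inl true), x => x = 3 ∨ x = 4
  | .inr (.inr ⟨false, _⟩), x => x = 2 ∨ x = 4
  | .inr (.inr ⟨true, _⟩), x => x = 1 ∨ x = 2

def zLab (c : Bool) : LE (GLoc 0) c → ℤ → Bool
  | .inl (_, .inl _), _ => true
  | .inl (_, .inr _), _ => false
  | .inr (.inl false), _ => true
  | .inr (.inl true), x => decide (x = 4)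
  | .inr (.inr ⟨false, _⟩), x => decide (x = 2)
  | .inr (.inr ⟨true, _⟩), _ => false

theorem z_arc_inj (c : Bool) (e f : LE (GLoc 0) c) (s : Bool)
    (x y : ℤ) (h : zArc c e s x y) (h' : zArc c f s x y) : e = f := by
  rcases e with ⟨_ | _, ⟨k, hk⟩ | ⟨k, hk⟩⟩ | (_ | _) | ⟨_ | _, hc⟩ <;>
  rcases f with ⟨_ | _, ⟨l, hl⟩ | ⟨l, hl⟩⟩ | (_ | _) | ⟨_ | _, hc'⟩ <;>
  first
  | rfl
  | (exfalso; cases s <;> simp only [zArc, reduceCtorEq, false_and, and_false, or_false, false_or] at h h' <;> omega)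
  | (have hkl : k = l := by
      cases s <;> simp only [zArc, reduceCtorEq, false_and, and_false, or_false, false_or] at h h' <;> omega
     subst hkl; rfl)

theorem z_bend_two (c : Bool) (e f : LE (GLoc 0) c) (x : ℤ)
    (h : zBend c e x) (h' : zBend c f x) : e = f ∨ (zLab c e x ≠ zLab c f x ∧
      x ∈ ({3, 6} : Finset ℤ) ∪ (if c then {1, 2, 4} else ∅)) := by
  rcases e with ⟨_ | _, ⟨k, hk⟩ | ⟨k, hk⟩⟩ | (_ | _) | ⟨_ | _, hc⟩ <;>
  rcases f with ⟨_ | _, ⟨l, hl⟩ | ⟨l, hl⟩⟩ | (_ | _) | ⟨_ | _, hc'⟩ <;>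
  simp only [zBend] at h h' <;>
  first
  | exact Or.inl rfl
  | (exfalso; omega)
  | (have hkl : k = l := by omega
     subst hkl; exact Or.inl rfl)
  | (refine Or.inr ⟨?_, ?_⟩
     · simp only [zLab]
       first
       | decide
       | (rw [decide_eq_true (by omega)]; decide)
       | (rw [decide_eq_false (by omega)]; decide)
       | (rw [decide_eq_true (by omega), decide_eq_false (by omega)]; decide)
       | (rw [decide_eq_false (by omega), decide_eq_true (by omega)]; decide)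
     · rw [Finset.mem_union]
       first
       | (left; simp only [Finset.mem_insert, Finset.mem_singleton]; omega)
       | (right; rw [if_pos hc]; simp only [Finset.mem_insert, Finset.mem_singleton]; omega)
       | (right; rw [if_pos hc']; simp only [Finset.mem_insert, Finset.mem_singleton]; omega))

theorem z_arc (c : Bool) (e : LE (GLoc 0) c) (s : Bool) (x y : ℤ)
    (h : (s, x, y) ∈ arcsOf (tA 10 zpos e) (zpre c e ++ [(zfs c e, tB 10 zpos e)])) :
    zArc c e s x y ∨ zArc c e s y x := by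
  rcases e with ⟨_ | _, ⟨k, hk⟩ | ⟨k, hk⟩⟩ | (_ | _) | ⟨_ | _, hc⟩
  · have hk' : k = 0 ∨ k = 1 ∨ k = 2 := by omega
    rcases hk' with rfl | rfl | rfl
    · simp [zpre, zfs, tA, tB, GLoc, ePos, zpos, arcsOf] at h
      exact Or.inl (Or.inl ⟨rfl, h⟩)
    · simp [zpre, zfs, tA, tB, GLoc, ePos, zpos, arcsOf] at h
      exact Or.inr (Or.inr (Or.inl ⟨rfl, h.1, h.2.2, h.2.1⟩))
    · simp [zpre, zfs, tA, tB, GLoc, ePos, zpos, arcsOf] at h
      exact Or.inl (Or.inr (Or.inr ⟨rfl, h⟩))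
  · have hk' : k = 0 := by omega
    subst hk'
    simp [zpre, zfs, tA, tB, GLoc, ePos, zpos, arcsOf] at h
    exact Or.inl h
  · have hk' : k = 0 ∨ k = 1 ∨ k = 2 := by omega
    rcases hk' with rfl | rfl | rfl
    · simp [zpre, zfs, tA, tB, GLoc, ePos, zpos, arcsOf] at h
      exact Or.inr (Or.inl ⟨rfl, h.1, h.2.2, h.2.1⟩)
    · simp [zpre, zfs, tA, tB, GLoc, ePos, zpos, arcsOf] at h
      rcases h with h | h
      · exact Or.inr (Or.inr (Or.inl ⟨rfl, h.1, h.2.2, h.2.1⟩))
      · exact Or.inl (Or.inr (Or.inr (Or.inl ⟨rfl, h⟩)))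
    · simp [zpre, zfs, tA, tB, GLoc, ePos, zpos, arcsOf] at h
      exact Or.inr (Or.inr (Or.inr (Or.inr ⟨rfl, h.1, h.2.2, h.2.1⟩)))
  · have hk' : k = 0 := by omega
    subst hk'
    simp [zpre, zfs, tA, tB, GLoc, ePos, zpos, arcsOf] at h
    exact Or.inl h
  · simp [zpre, zfs, tA, tB, GLoc, zpos, arcsOf] at h
    exact Or.inl h
  · simp [zpre, zfs, tA, tB, GLoc, zpos, arcsOf] at h
    rcases h with h | h | h
    · exact Or.inr (Or.inl ⟨h.1, h.2.2, h.2.1⟩)
    · exact Or.inl (Or.inr (Or.inl h))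
    · exact Or.inl (Or.inr (Or.inr h))
  · simp [zpre, zfs, tA, tB, GLoc, arcsOf] at h
    exact Or.inl h
  · simp [zpre, zfs, tA, tB, GLoc, arcsOf] at h
    exact Or.inl h

theorem z_bend (c : Bool) (e : LE (GLoc 0) c) (x : ℤ) :
    x ∈ (zpre c e).map Prod.snd ↔ zBend c e x := by
  rcases e with ⟨_ | _, ⟨k, hk⟩ | ⟨k, hk⟩⟩ | (_ | _) | ⟨_ | _, hc⟩
  · simp [zpre, zBend]
  · simp [zpre, zBend]
  · by_cases hk2 : k = 1 <;> simp [zpre, zBend, hk2]
  · simp [zpre, zBend]
  · simp [zpre, zBend]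
  · simp [zpre, zBend]
  · simp [zpre, zBend]
  · simp [zpre, zBend]

theorem z_nodup (c : Bool) (e : LE (GLoc 0) c) :
    (tA 10 zpos e :: ((zpre c e).map Prod.snd ++ [tB 10 zpos e])).Nodup := by
  rcases e with ⟨_ | _, ⟨k, hk⟩ | ⟨k, hk⟩⟩ | (_ | _) | ⟨_ | _, hc⟩
  · have hk' : k = 0 ∨ k = 1 ∨ k = 2 := by omega
    rcases hk' with rfl | rfl | rfl <;> simp [zpre, tA, tB, GLoc, ePos, zpos]
  · have hk' : k = 0 := by omega
    subst hk'
    simp [zpre, tA, tB, GLoc, ePos, zpos]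
  · have hk' : k = 0 ∨ k = 1 ∨ k = 2 := by omega
    rcases hk' with rfl | rfl | rfl <;> simp [zpre, tA, tB, GLoc, ePos, zpos]
  · have hk' : k = 0 := by omega
    subst hk'
    simp [zpre, tA, tB, GLoc, ePos, zpos]
  · simp [zpre, tA, tB, GLoc, zpos]
  · simp [zpre, tA, tB, GLoc, zpos]
  · simp [zpre, tA, tB, GLoc]
  · simp [zpre, tA, tB, GLoc]

theorem z_arc_up (c : Bool) (e : LE (GLoc 0) c) (x y : ℤ) (h : zArc c e true x y) :
    zUp x y := by
  rcases e with ⟨_ | _, ⟨k, hk⟩ | ⟨k, hk⟩⟩ | (_ | _) | ⟨_ | _, hc⟩ <;>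
  simp only [zArc, reduceCtorEq, false_and, and_false, or_false, false_or, true_and] at h <;>
  unfold zUp
  · rcases h with h | h <;>
    first
      | exact Or.inl (by omega)
      | exact Or.inr (Or.inl (by omega))
      | exact Or.inr (Or.inr (Or.inl (by omega)))
      | exact Or.inr (Or.inr (Or.inr (Or.inl (by omega))))
      | exact Or.inr (Or.inr (Or.inr (Or.inr (Or.inl (by omega)))))
      | exact Or.inr (Or.inr (Or.inr (Or.inr (Or.inr (Or.inl (by omega))))))
      | exact Or.inr (Or.inr (Or.inr (Or.inr (Or.inr (Or.inr (Or.inl (by omega)))))))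
      | exact Or.inr (Or.inr (Or.inr (Or.inr (Or.inr (Or.inr (Or.inr (by omega)))))))
  · first
      | exact Or.inl (by omega)
      | exact Or.inr (Or.inl (by omega))
      | exact Or.inr (Or.inr (Or.inl (by omega)))
      | exact Or.inr (Or.inr (Or.inr (Or.inl (by omega))))
      | exact Or.inr (Or.inr (Or.inr (Or.inr (Or.inl (by omega)))))
      | exact Or.inr (Or.inr (Or.inr (Or.inr (Or.inr (Or.inl (by omega))))))
      | exact Or.inr (Or.inr (Or.inr (Or.inr (Or.inr (Or.inr (Or.inl (by omega)))))))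
      | exact Or.inr (Or.inr (Or.inr (Or.inr (Or.inr (Or.inr (Or.inr (by omega)))))))
  · rcases h with h | h <;>
    first
      | exact Or.inl (by omega)
      | exact Or.inr (Or.inl (by omega))
      | exact Or.inr (Or.inr (Or.inl (by omega)))
      | exact Or.inr (Or.inr (Or.inr (Or.inl (by omega))))
      | exact Or.inr (Or.inr (Or.inr (Or.inr (Or.inl (by omega)))))
      | exact Or.inr (Or.inr (Or.inr (Or.inr (Or.inr (Or.inl (by omega))))))
      | exact Or.inr (Or.inr (Or.inr (Or.inr (Or.inr (Or.inr (Or.inl (by omega)))))))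
      | exact Or.inr (Or.inr (Or.inr (Or.inr (Or.inr (Or.inr (Or.inr (by omega)))))))
  · first
      | exact Or.inl (by omega)
      | exact Or.inr (Or.inl (by omega))
      | exact Or.inr (Or.inr (Or.inl (by omega)))
      | exact Or.inr (Or.inr (Or.inr (Or.inl (by omega))))
      | exact Or.inr (Or.inr (Or.inr (Or.inr (Or.inl (by omega)))))
      | exact Or.inr (Or.inr (Or.inr (Or.inr (Or.inr (Or.inl (by omega))))))
      | exact Or.inr (Or.inr (Or.inr (Or.inr (Or.inr (Or.inr (Or.inl (by omega)))))))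
      | exact Or.inr (Or.inr (Or.inr (Or.inr (Or.inr (Or.inr (Or.inr (by omega)))))))
  · rcases h with h | h <;>
    first
      | exact Or.inl (by omega)
      | exact Or.inr (Or.inl (by omega))
      | exact Or.inr (Or.inr (Or.inl (by omega)))
      | exact Or.inr (Or.inr (Or.inr (Or.inl (by omega))))
      | exact Or.inr (Or.inr (Or.inr (Or.inr (Or.inl (by omega)))))
      | exact Or.inr (Or.inr (Or.inr (Or.inr (Or.inr (Or.inl (by omega))))))
      | exact Or.inr (Or.inr (Or.inr (Or.inr (Or.inr (Or.inr (Or.inl (by omega)))))))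
      | exact Or.inr (Or.inr (Or.inr (Or.inr (Or.inr (Or.inr (Or.inr (by omega)))))))
  · rcases h with h | h <;>
    first
      | exact Or.inl (by omega)
      | exact Or.inr (Or.inl (by omega))
      | exact Or.inr (Or.inr (Or.inl (by omega)))
      | exact Or.inr (Or.inr (Or.inr (Or.inl (by omega))))
      | exact Or.inr (Or.inr (Or.inr (Or.inr (Or.inl (by omega)))))
      | exact Or.inr (Or.inr (Or.inr (Or.inr (Or.inr (Or.inl (by omega))))))
      | exact Or.inr (Or.inr (Or.inr (Or.inr (Or.inr (Or.inr (Or.inl (by omega)))))))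
      | exact Or.inr (Or.inr (Or.inr (Or.inr (Or.inr (Or.inr (Or.inr (by omega)))))))
  · rcases h with h | h <;>
    first
      | exact Or.inl (by omega)
      | exact Or.inr (Or.inl (by omega))
      | exact Or.inr (Or.inr (Or.inl (by omega)))
      | exact Or.inr (Or.inr (Or.inr (Or.inl (by omega))))
      | exact Or.inr (Or.inr (Or.inr (Or.inr (Or.inl (by omega)))))
      | exact Or.inr (Or.inr (Or.inr (Or.inr (Or.inr (Or.inl (by omega))))))
      | exact Or.inr (Or.inr (Or.inr (Or.inr (Or.inr (Or.inr (Or.inl (by omega)))))))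
      | exact Or.inr (Or.inr (Or.inr (Or.inr (Or.inr (Or.inr (Or.inr (by omega)))))))

theorem z_arc_lo (c : Bool) (e : LE (GLoc 0) c) (x y : ℤ) (h : zArc c e false x y) :
    zLo x y := by
  rcases e with ⟨_ | _, ⟨k, hk⟩ | ⟨k, hk⟩⟩ | (_ | _) | ⟨_ | _, hc⟩ <;>
  simp only [zArc, reduceCtorEq, false_and, and_false, or_false, false_or, true_and] at h <;>
  unfold zLo
  · first
      | exact Or.inl (by omega)
      | exact Or.inr (Or.inl (by omega))
      | exact Or.inr (Or.inr (Or.inl (by omega)))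
      | exact Or.inr (Or.inr (Or.inr (Or.inl (by omega))))
      | exact Or.inr (Or.inr (Or.inr (Or.inr (Or.inl (by omega)))))
      | exact Or.inr (Or.inr (Or.inr (Or.inr (Or.inr (Or.inl (by omega))))))
      | exact Or.inr (Or.inr (Or.inr (Or.inr (Or.inr (Or.inr (by omega))))))
  · first
      | exact Or.inl (by omega)
      | exact Or.inr (Or.inl (by omega))
      | exact Or.inr (Or.inr (Or.inl (by omega)))
      | exact Or.inr (Or.inr (Or.inr (Or.inl (by omega))))
      | exact Or.inr (Or.inr (Or.inr (Or.inr (Or.inl (by omega)))))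
      | exact Or.inr (Or.inr (Or.inr (Or.inr (Or.inr (Or.inl (by omega))))))
      | exact Or.inr (Or.inr (Or.inr (Or.inr (Or.inr (Or.inr (by omega))))))
  · rcases h with h | h <;>
    first
      | exact Or.inl (by omega)
      | exact Or.inr (Or.inl (by omega))
      | exact Or.inr (Or.inr (Or.inl (by omega)))
      | exact Or.inr (Or.inr (Or.inr (Or.inl (by omega))))
      | exact Or.inr (Or.inr (Or.inr (Or.inr (Or.inl (by omega)))))
      | exact Or.inr (Or.inr (Or.inr (Or.inr (Or.inr (Or.inl (by omega))))))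
      | exact Or.inr (Or.inr (Or.inr (Or.inr (Or.inr (Or.inr (by omega))))))
  · first
      | exact Or.inl (by omega)
      | exact Or.inr (Or.inl (by omega))
      | exact Or.inr (Or.inr (Or.inl (by omega)))
      | exact Or.inr (Or.inr (Or.inr (Or.inl (by omega))))
      | exact Or.inr (Or.inr (Or.inr (Or.inr (Or.inl (by omega)))))
      | exact Or.inr (Or.inr (Or.inr (Or.inr (Or.inr (Or.inl (by omega))))))
      | exact Or.inr (Or.inr (Or.inr (Or.inr (Or.inr (Or.inr (by omega))))))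
  · first
      | exact Or.inl (by omega)
      | exact Or.inr (Or.inl (by omega))
      | exact Or.inr (Or.inr (Or.inl (by omega)))
      | exact Or.inr (Or.inr (Or.inr (Or.inl (by omega))))
      | exact Or.inr (Or.inr (Or.inr (Or.inr (Or.inl (by omega)))))
      | exact Or.inr (Or.inr (Or.inr (Or.inr (Or.inr (Or.inl (by omega))))))
      | exact Or.inr (Or.inr (Or.inr (Or.inr (Or.inr (Or.inr (by omega))))))
  · rcases h with h | h | h <;>
    first
      | exact Or.inl (by omega)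
      | exact Or.inr (Or.inl (by omega))
      | exact Or.inr (Or.inr (Or.inl (by omega)))
      | exact Or.inr (Or.inr (Or.inr (Or.inl (by omega))))
      | exact Or.inr (Or.inr (Or.inr (Or.inr (Or.inl (by omega)))))
      | exact Or.inr (Or.inr (Or.inr (Or.inr (Or.inr (Or.inl (by omega))))))
      | exact Or.inr (Or.inr (Or.inr (Or.inr (Or.inr (Or.inr (by omega))))))
  · first
      | exact Or.inl (by omega)
      | exact Or.inr (Or.inl (by omega))
      | exact Or.inr (Or.inr (Or.inl (by omega)))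
      | exact Or.inr (Or.inr (Or.inr (Or.inl (by omega))))
      | exact Or.inr (Or.inr (Or.inr (Or.inr (Or.inl (by omega)))))
      | exact Or.inr (Or.inr (Or.inr (Or.inr (Or.inr (Or.inl (by omega))))))
      | exact Or.inr (Or.inr (Or.inr (Or.inr (Or.inr (Or.inr (by omega))))))

theorem z_bend_mem (c : Bool) (e : LE (GLoc 0) c) (x : ℤ) (h : zBend c e x) :
    (0 < x ∧ x < 10) ∧ ∀ v, x ≠ zpos v := by
  have key : 0 < x ∧ (x < 5 ∨ x = 6) := by
    rcases e with ⟨_ | _, ⟨k, hk⟩ | ⟨k, hk⟩⟩ | (_ | _) | ⟨_ | _, hc⟩ <;>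
    simp only [zBend] at h <;> omega
  refine ⟨by omega, ?_⟩
  rintro ⟨_ | _, i, hi⟩ <;> simp only [zpos] <;> omega

/-- Tile (zeta). -/
noncomputable def zDr (c : Bool) : Dr (GLoc 0) c (fun _ => True) where
  b := 10
  pos := zpos
  pre := zpre c
  fs := zfs c
  cross := ({3, 6} : Finset ℤ) ∪ (if c then {1, 2, 4} else ∅)
  Arc := zArc c
  Up := zUp
  Lo := zLo
  Bend := zBend c
  lab := zLab c
  pos_inj := by
    rintro ⟨_ | _, i, hi⟩ ⟨_ | _, j, hj⟩ h <;> simp only [zpos] at h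
    · have : i = j := by omega
      subst this; rfl
    · omega
    · omega
    · have : i = j := by omega
      subst this; rfl
  pos_mem := by
    rintro ⟨_ | _, i, hi⟩ <;> simp only [zpos] <;> omega
  nodup := fun e _ => z_nodup c e
  bend := fun e _ x => z_bend c e x
  bend_mem := fun e _ x h => z_bend_mem c e x h
  bend_two := fun e f x _ _ h h' => z_bend_two c e f x h h'
  arc := fun e _ s x y h => z_arc c e s x y h
  arc_up := fun e x y _ h => z_arc_up c e x y h
  arc_lo := fun e x y _ h => z_arc_lo c e x y h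
  arc_inj := fun e f s x y _ _ h h' => z_arc_inj c e f s x y h h'
  up := fun x y h => by
    unfold zUp at h
    omega
  lo := fun x y h => by
    unfold zLo at h
    omega
  up_pl := fun x y z w h h' => by
    unfold zUp at h h'
    omega
  lo_pl := fun x y z w h h' => by
    unfold zLo at h h'
    omega

theorem z_card (c : Bool) : (({3, 6} : Finset ℤ) ∪ (if c then {1, 2, 4} else ∅)).card ≤
    0 + 2 + if c then 3 else 0 := by
  cases c <;> decide

theorem tileG_zeta (c : Bool) (i : Fin (2 * 0 + 1)) :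
    TCr (GLoc 0) c (0 + 2 + if c then 3 else 0) (.inl (false, .inr i)) := by
  refine ⟨(zDr c).lay, ?_, ?_⟩
  · have h2 : (zDr c).lay.cross.card ≤ 0 + 2 + if c then 3 else 0 := z_card c
    exact h2
  · refine (zDr c).crossed (e := .inl (false, .inr i)) (f := .inl (true, .inl ⟨1, by omega⟩))
      (x := 6) trivial trivial ?_ rfl ⟨rfl, rfl⟩
    intro h
    injection h with h
    injection h with h1 h2
    cases h1

/-- The edges of the vertex of the port, `q = 0`. -/
theorem tileG_port0 (c : Bool) (e : (GLoc 0).E)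
    (he : (GLoc 0).a e = .inl (false, ⟨2 * 0 + 1, by omega⟩) ∨
      (GLoc 0).b e = .inl (false, ⟨2 * 0 + 1, by omega⟩)) :
    TCr (GLoc 0) c (0 + 2 + if c then 3 else 0) (.inl e) := by
  obtain ⟨_ | _, k | i⟩ := e
  · rcases Nat.mod_two_eq_zero_or_one k.1 with hk | hk
    · exact tileG_even 0 c k hk
    · exact tileG_odd 0 c k hk
  · exact tileG_zeta c i
  · exfalso
    simp [GLoc] at he
  · exfalso
    simp [GLoc] at he

end Pool.Agent.CC.TG
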