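import Pool.Agent.Lib_helper74.CCF.Mir
import Pool.Agent.Lib_helper74.CCF.G27Zeta

/-! Block FCGG. -/

namespace Pool.Agent.CC

open Gph

theorem tileG (q : ℕ) (c : Bool) (e : (GLoc q).E) :
    TCr (GLoc q) c (q + 2 + if c then 3 else 0) (.inl e) ∨
    TDel (GLoc q) c (q + 2 + if c then 3 else 0) (.inl e) := by
  obtain ⟨_ | _, x⟩ := e
  · exact TG.tileG_left q c x
  · rcases TG.tileG_left q c x with h | h
    · exact Or.inl ((mirG q).tcr h)
    · exact Or.inr ((mirG q).tdel h)

/-- the legs of the vertex of the port of `G`, any `q` -/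
theorem tileG_port_leg (q : ℕ) (c : Bool) (k : Fin (2 * q + 3)) (hk : 2 * q + 1 ≤ k.1) :
    TCr (GLoc q) c (q + 2 + if c then 3 else 0) (.inl (false, .inl k)) := by
  rcases Nat.mod_two_eq_zero_or_one k.1 with hk | hk
  · exact TG.tileG_even q c k hk
  · exact TG.tileG_odd q c k hk

/-- the edges of the vertex of the port of `G` (`tripods_G`) are crossed in full tiles, `q = 0` -/
theorem tileG_port (c : Bool) (e : (GLoc 0).E)
    (he : (GLoc 0).a e = .inl (false, ⟨2 * 0 + 1, by omega⟩) ∨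
      (GLoc 0).b e = .inl (false, ⟨2 * 0 + 1, by omega⟩)) :
    TCr (GLoc 0) c (0 + 2 + if c then 3 else 0) (.inl e) :=
  TG.tileG_port0 c e he

end Pool.Agent.CC
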