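import Pool.Agent.Lib_helper74.CCF.Defs2

/-! Lists of arcs, reversal of routes, relabelling, mirror, reorientation of spine drawings. -/

namespace Pool.Agent.CC
namespace Gph

/-- The last position of a route. -/
def lastPos {α : Type} : α → List (Bool × α) → α
  | x, [] => x
  | _, (_, y) :: l => lastPos y l

/-- The reversed route (it starts at `lastPos x l` and ends at `x`). -/
def revR {α : Type} : α → List (Bool × α) → List (Bool × α)
  | _, [] => []
  | x, (s, y) :: l => revR y l ++ [(s, x)]

theorem lastPos_append {α : Type} (x : α) (l m : List (Bool × α)) :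
    lastPos x (l ++ m) = lastPos (lastPos x l) m := by
  induction l generalizing x with
  | nil => rfl
  | cons p l ih => obtain ⟨s, y⟩ := p; exact ih y

theorem arcsOf_append {α : Type} (x : α) (l m : List (Bool × α)) :
    arcsOf x (l ++ m) = arcsOf x l ++ arcsOf (lastPos x l) m := by
  induction l generalizing x with
  | nil => rfl
  | cons p l ih =>
    obtain ⟨s, y⟩ := p
    simp only [List.cons_append, arcsOf, lastPos, ih y]

theorem arcsOf_snoc {α : Type} (x : α) (l : List (Bool × α)) (s : Bool) (y : α) :
    arcsOf x (l ++ [(s, y)]) = arcsOf x l ++ [(s, lastPos x l, y)] := by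
  rw [arcsOf_append]; rfl

theorem lastPos_snoc {α : Type} (x : α) (l : List (Bool × α)) (s : Bool) (y : α) :
    lastPos x (l ++ [(s, y)]) = y := by
  rw [lastPos_append]; rfl

theorem lastPos_revR {α : Type} (x : α) (l : List (Bool × α)) :
    lastPos (lastPos x l) (revR x l) = x := by
  cases l with
  | nil => rfl
  | cons p l => obtain ⟨s, y⟩ := p; simp only [revR]; rw [lastPos_snoc]

theorem arcsOf_revR {α : Type} (x : α) (l : List (Bool × α)) :
    arcsOf (lastPos x l) (revR x l) =
      ((arcsOf x l).map (fun p => (p.1, p.2.2, p.2.1))).reverse := by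
  induction l generalizing x with
  | nil => rfl
  | cons p l ih =>
    obtain ⟨s, y⟩ := p
    simp only [revR, lastPos, arcsOf, List.map_cons, List.reverse_cons]
    rw [arcsOf_append, ih y, lastPos_revR]
    rfl

theorem posL_revR {α : Type} (x : α) (l : List (Bool × α)) :
    lastPos x l :: (revR x l).map Prod.snd = (x :: l.map Prod.snd).reverse := by
  induction l generalizing x with
  | nil => rfl
  | cons p l ih =>
    obtain ⟨s, y⟩ := p
    simp only [revR, lastPos, List.map_append, List.map_cons, List.map_nil]
    rw [← List.cons_append, ih y]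
    simp

theorem getLast?_map_snd {α : Type} (x : α) (l : List (Bool × α)) (h : l ≠ []) :
    (l.map Prod.snd).getLast? = some (lastPos x l) := by
  induction l generalizing x with
  | nil => exact absurd rfl h
  | cons p l ih =>
    obtain ⟨s, y⟩ := p
    cases l with
    | nil => rfl
    | cons q l => 
      have := ih y (by simp)
      simp only [List.map_cons, List.getLast?_cons_cons] at this ⊢
      simpa [lastPos] using this

theorem map_snd_eq {α : Type} (x : α) (l : List (Bool × α)) (h : l ≠ []) :
    l.map Prod.snd = (l.map Prod.snd).dropLast ++ [lastPos x l] := by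
  have h1 := getLast?_map_snd x l h
  have h2 : l.map Prod.snd ≠ [] := by simpa using h
  rw [List.getLast?_eq_some_getLast h2, Option.some.injEq] at h1
  rw [← h1, List.dropLast_append_getLast h2]

theorem lastPos_mem {α : Type} (x : α) (l : List (Bool × α)) :
    lastPos x l ∈ x :: l.map Prod.snd := by
  induction l generalizing x with
  | nil => simp [lastPos]
  | cons p l ih => 
    obtain ⟨s, y⟩ := p
    have := ih y
    simp only [lastPos, List.map_cons, List.mem_cons] at this ⊢
    tauto

theorem revR_ne_nil {α : Type} (x : α) (l : List (Bool × α)) (h : l ≠ []) : revR x l ≠ [] := by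
  cases l with
  | nil => exact absurd rfl h
  | cons p l => obtain ⟨s, y⟩ := p; simp [revR]

theorem dropLast_revR {α : Type} (x : α) (l : List (Bool × α)) :
    ((revR x l).map Prod.snd).dropLast = ((l.map Prod.snd).dropLast).reverse := by
  by_cases h : l = []
  · subst h; rfl
  have h1 := posL_revR x l
  have h2 := map_snd_eq x l h
  set B := (l.map Prod.snd).dropLast with hB
  rw [List.reverse_cons, h2, List.reverse_append] at h1
  simp only [List.reverse_cons, List.reverse_nil, List.nil_append, List.cons_append,
    List.cons.injEq, true_and] at h1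
  rw [h1, List.dropLast_concat]

/-- endpoints of arcs are positions -/
theorem arc_mem {α : Type} (x : α) (l : List (Bool × α)) (p : Bool × α × α)
    (h : p ∈ arcsOf x l) : p.2.1 ∈ x :: l.map Prod.snd ∧ p.2.2 ∈ l.map Prod.snd := by
  induction l generalizing x with
  | nil => simp [arcsOf] at h
  | cons q l ih =>
    obtain ⟨s, y⟩ := q
    simp only [arcsOf, List.mem_cons] at h
    rcases h with h | h
    · subst h; simp
    · have := ih y h
      simp only [List.map_cons, List.mem_cons] at this ⊢
      tauto

theorem arcsOf_map {α β : Type} (f : α → β) (x : α) (l : List (Bool × α)) :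
    arcsOf (f x) (l.map (fun p => (p.1, f p.2))) =
      (arcsOf x l).map (fun p => (p.1, f p.2.1, f p.2.2)) := by
  induction l generalizing x with
  | nil => rfl
  | cons q l ih => obtain ⟨s, y⟩ := q; simp [arcsOf, ih y]

theorem lastPos_map {α β : Type} (f : α → β) (x : α) (l : List (Bool × α)) :
    lastPos (f x) (l.map (fun p => (p.1, f p.2))) = f (lastPos x l) := by
  induction l generalizing x with
  | nil => rfl
  | cons q l ih => obtain ⟨s, y⟩ := q; simp [lastPos, ih y]

theorem arcsOf_mirror {α : Type} (x : α) (l : List (Bool × α)) :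
    arcsOf x (l.map (fun p => (!p.1, p.2))) =
      (arcsOf x l).map (fun p => (!p.1, p.2)) := by
  induction l generalizing x with
  | nil => rfl
  | cons q l ih => obtain ⟨s, y⟩ := q; simp [arcsOf, ih y]

theorem lastPos_mirror {α : Type} (x : α) (l : List (Bool × α)) :
    lastPos x (l.map (fun p => (!p.1, p.2))) = lastPos x l := by
  induction l generalizing x with
  | nil => rfl
  | cons q l ih => obtain ⟨s, y⟩ := q; simp [lastPos, ih y]

theorem Interl_swap1 {α : Type} [LinearOrder α] (x y z w : α) :
    Interl y x z w ↔ Interl x y z w := by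
  simp [Interl, min_comm y x, max_comm y x]

theorem Interl_swap2 {α : Type} [LinearOrder α] (x y z w : α) :
    Interl x y w z ↔ Interl x y z w := by
  simp [Interl, min_comm w z, max_comm w z]

namespace Spine
variable {G : Gph} {α : Type} [LinearOrder α]

/-- The used positions. -/
def U (S : Spine G α) : Set α :=
  {x | (∃ v, x = S.pos v) ∨ ∃ e, x ∈ (S.route e).map Prod.snd}

theorem U_finite (S : Spine G α) : S.U.Finite := by
  have h1 : {x | ∃ v, x = S.pos v}.Finite := by
    have := Set.finite_range S.pos
    refine this.subset ?_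
    rintro x ⟨v, rfl⟩
    exact ⟨v, rfl⟩
  have h2 : {x | ∃ e, x ∈ (S.route e).map Prod.snd}.Finite := by
    have : {x | ∃ e, x ∈ (S.route e).map Prod.snd} =
        ⋃ e, {x | x ∈ (S.route e).map Prod.snd} := by
      ext x; simp
    rw [this]
    exact Set.finite_iUnion (fun e => List.finite_toSet _)
  exact h1.union h2

theorem pos_U (S : Spine G α) (v : G.V) : S.pos v ∈ S.U := Or.inl ⟨v, rfl⟩

theorem route_U (S : Spine G α) (e : G.E) {x : α} (h : x ∈ (S.route e).map Prod.snd) :
    x ∈ S.U := Or.inr ⟨e, h⟩

theorem arc_U (S : Spine G α) (e : G.E) {p : Bool × α × α}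
    (h : p ∈ arcsOf (S.pos (G.a e)) (S.route e)) : p.2.1 ∈ S.U ∧ p.2.2 ∈ S.U := by
  have := arc_mem _ _ _ h
  refine ⟨?_, S.route_U e this.2⟩
  rcases List.mem_cons.1 this.1 with h | h
  · rw [h]; exact S.pos_U _
  · exact S.route_U e h

theorem bends_U (S : Spine G α) (e : G.E) {x : α} (h : x ∈ S.bends e) : x ∈ S.U :=
  S.route_U e (List.mem_of_mem_dropLast h)

theorem mem_crossings (S : Spine G α) (x : α) :
    x ∈ S.crossings ↔ ∃ e f, e ≠ f ∧ x ∈ S.bends e ∧ x ∈ S.bends f := by
  unfold crossings
  simp only [Finset.mem_biUnion, Finset.mem_univ, true_and, Prod.exists]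
  constructor
  · rintro ⟨e, f, h⟩
    by_cases hef : e ≠ f
    · rw [if_pos hef] at h
      simp only [Finset.mem_inter, List.mem_toFinset] at h
      exact ⟨e, f, hef, h.1, h.2⟩
    · rw [if_neg hef] at h
      simp at h
  · rintro ⟨e, f, hef, h1, h2⟩
    refine ⟨e, f, ?_⟩
    rw [if_pos hef]
    simp only [Finset.mem_inter, List.mem_toFinset]
    exact ⟨h1, h2⟩

theorem crossed_iff (S : Spine G α) (e : G.E) :
    S.Crossed e ↔ ∃ f, f ≠ e ∧ ∃ x, x ∈ S.bends e ∧ x ∈ S.bends f := by
  unfold Crossed
  constructor
  · rintro ⟨x, hx, h⟩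
    rw [mem_crossings] at h
    obtain ⟨f, g, hfg, h1, h2⟩ := h
    by_cases hf : f = e
    · exact ⟨g, fun h => hfg (hf.trans h.symm), x, hx, h2⟩
    · exact ⟨f, hf, x, hx, h1⟩
  · rintro ⟨f, hf, x, h1, h2⟩
    exact ⟨x, h1, (S.mem_crossings x).2 ⟨f, e, hf, h2, h1⟩⟩

/-- `S'` has at most as many crossings as `S`, and edges crossed in `S` are crossed in `S'`. -/
def Pres {β : Type} [LinearOrder β] (S : Spine G α) (S' : Spine G β) : Prop :=
  S'.crossings.card ≤ S.crossings.card ∧ ∀ e, S.Crossed e → S'.Crossed e

theorem Pres.refl (S : Spine G α) : S.Pres S := ⟨le_rfl, fun _ h => h⟩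

theorem Pres.trans {β γ : Type} [LinearOrder β] [LinearOrder γ] {S : Spine G α} {S' : Spine G β}
    {S'' : Spine G γ} (h : S.Pres S') (h' : S'.Pres S'') : S.Pres S'' :=
  ⟨h'.1.trans h.1, fun e he => h'.2 e (h.2 e he)⟩

theorem last' (S : Spine G α) (e : G.E) (x : α) : lastPos x (S.route e) = S.pos (G.b e) := by
  have h1 := S.last e
  rw [getLast?_map_snd x _ (S.ne_nil e), Option.some.injEq] at h1
  exact h1

theorem posL_eq (S : Spine G α) (e : G.E) :
    (S.route e).map Prod.snd = S.bends e ++ [S.pos (G.b e)] := by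
  rw [← S.last' e (S.pos (G.a e))]
  exact map_snd_eq _ _ (S.ne_nil e)

/-- Relabelling of the positions. -/
def map {β : Type} [LinearOrder β] (S : Spine G α) (f : α → β) (hf : Set.InjOn f S.U)
    (hI : ∀ x ∈ S.U, ∀ y ∈ S.U, ∀ z ∈ S.U, ∀ w ∈ S.U,
      Interl (f x) (f y) (f z) (f w) → Interl x y z w) : Spine G β where
  pos := fun v => f (S.pos v)
  pos_inj := fun v w h => S.pos_inj (hf (S.pos_U v) (S.pos_U w) h)
  route := fun e => (S.route e).map (fun p => (p.1, f p.2))
  ne_nil := fun e => by simpa using S.ne_nil e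
  last := fun e => by
    rw [getLast?_map_snd (f (S.pos (G.a e))) _ (by simpa using S.ne_nil e), lastPos_map, S.last' e]
  nodup := fun e => by
    have h := S.nodup e
    have h2 : f (S.pos (G.a e)) :: ((S.route e).map (fun p => (p.1, f p.2))).map Prod.snd =
        (S.pos (G.a e) :: (S.route e).map Prod.snd).map f := by
      simp [List.map_map, Function.comp_def]
    rw [h2]
    refine List.Nodup.map_on ?_ h
    intro x hx y hy hxy
    refine hf ?_ ?_ hxy
    · rcases List.mem_cons.1 hx with h | h
      · rw [h]; exact S.pos_U _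
      · exact S.route_U e h
    · rcases List.mem_cons.1 hy with h | h
      · rw [h]; exact S.pos_U _
      · exact S.route_U e h
  bend_ne := fun e x hx v => by
    have h2 : (((S.route e).map (fun p => (p.1, f p.2))).map Prod.snd).dropLast =
        (((S.route e).map Prod.snd).dropLast).map f := by
      rw [← List.map_dropLast]; simp [List.map_map, Function.comp_def]
    rw [h2] at hx
    obtain ⟨y, hy, rfl⟩ := List.mem_map.1 hx
    intro h
    exact S.bend_ne e y hy v (hf (S.bends_U e hy) (S.pos_U v) h)
  planar := fun e e' p hp q hq h1 => by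
    rw [arcsOf_map] at hp hq
    obtain ⟨p', hp', rfl⟩ := List.mem_map.1 hp
    obtain ⟨q', hq', rfl⟩ := List.mem_map.1 hq
    intro h
    exact S.planar e e' p' hp' q' hq' h1
      (hI _ (S.arc_U e hp').1 _ (S.arc_U e hp').2 _ (S.arc_U e' hq').1 _ (S.arc_U e' hq').2 h)
  distinct := fun e e' hee p hp q hq h1 => by
    rw [arcsOf_map] at hp hq
    obtain ⟨p', hp', rfl⟩ := List.mem_map.1 hp
    obtain ⟨q', hq', rfl⟩ := List.mem_map.1 hq
    intro h
    refine S.distinct e e' hee p' hp' q' hq' h1 ?_
    simp only [Sym2.eq_iff] at h ⊢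
    rcases h with ⟨h2, h3⟩ | ⟨h2, h3⟩
    · left
      exact ⟨hf (S.arc_U e hp').1 (S.arc_U e' hq').1 h2, hf (S.arc_U e hp').2 (S.arc_U e' hq').2 h3⟩
    · right
      exact ⟨hf (S.arc_U e hp').1 (S.arc_U e' hq').2 h2, hf (S.arc_U e hp').2 (S.arc_U e' hq').1 h3⟩
  no_three := fun e e' e'' h1 h2 h3 x hx hx' hx'' => by
    have hh : ∀ e, (((S.route e).map (fun p => (p.1, f p.2))).map Prod.snd).dropLast =
        (((S.route e).map Prod.snd).dropLast).map f := by
      intro e
      rw [← List.map_dropLast]; simp [List.map_map, Function.comp_def]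
    rw [hh] at hx hx' hx''
    obtain ⟨y, hy, rfl⟩ := List.mem_map.1 hx
    obtain ⟨y', hy', h4⟩ := List.mem_map.1 hx'
    obtain ⟨y'', hy'', h5⟩ := List.mem_map.1 hx''
    have h6 := hf (S.bends_U e' hy') (S.bends_U e hy) h4
    have h7 := hf (S.bends_U e'' hy'') (S.bends_U e hy) h5
    subst h6
    rw [h7] at hy''
    exact S.no_three e e' e'' h1 h2 h3 _ hy hy' hy''

theorem map_bends {β : Type} [LinearOrder β] (S : Spine G α) (f : α → β) (hf : Set.InjOn f S.U)
    (hI : ∀ x ∈ S.U, ∀ y ∈ S.U, ∀ z ∈ S.U, ∀ w ∈ S.U,
      Interl (f x) (f y) (f z) (f w) → Interl x y z w) (e : G.E) :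
    (S.map f hf hI).bends e = (S.bends e).map f := by
  unfold bends
  rw [← List.map_dropLast]; simp [map, List.map_map, Function.comp_def]

theorem map_pres {β : Type} [LinearOrder β] (S : Spine G α) (f : α → β) (hf : Set.InjOn f S.U)
    (hI : ∀ x ∈ S.U, ∀ y ∈ S.U, ∀ z ∈ S.U, ∀ w ∈ S.U,
      Interl (f x) (f y) (f z) (f w) → Interl x y z w) : S.Pres (S.map f hf hI) := by
  constructor
  · have : (S.map f hf hI).crossings ⊆ S.crossings.image f := by
      intro x hx
      rw [mem_crossings] at hx
      obtain ⟨e, e', h1, h2, h3⟩ := hx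
      rw [map_bends] at h2 h3
      obtain ⟨y, hy, rfl⟩ := List.mem_map.1 h2
      obtain ⟨y', hy', h4⟩ := List.mem_map.1 h3
      have h6 := hf (S.bends_U e' hy') (S.bends_U e hy) h4
      subst h6
      exact Finset.mem_image_of_mem _ ((S.mem_crossings _).2 ⟨e, e', h1, hy, hy'⟩)
    exact (Finset.card_le_card this).trans Finset.card_image_le
  · intro e he
    rw [crossed_iff] at he ⊢
    obtain ⟨e', h1, x, h2, h3⟩ := he
    refine ⟨e', h1, f x, ?_, ?_⟩
    · rw [map_bends]; exact List.mem_map_of_mem h2
    · rw [map_bends]; exact List.mem_map_of_mem h3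

theorem map_U {β : Type} [LinearOrder β] (S : Spine G α) (f : α → β) (hf : Set.InjOn f S.U)
    (hI : ∀ x ∈ S.U, ∀ y ∈ S.U, ∀ z ∈ S.U, ∀ w ∈ S.U,
      Interl (f x) (f y) (f z) (f w) → Interl x y z w) {x : β} (hx : x ∈ (S.map f hf hI).U) :
    ∃ y ∈ S.U, x = f y := by
  rcases hx with ⟨v, rfl⟩ | ⟨e, h⟩
  · exact ⟨S.pos v, S.pos_U v, rfl⟩
  · simp only [map, List.map_map, Function.comp_def] at h
    obtain ⟨p, hp, rfl⟩ := List.mem_map.1 h
    exact ⟨p.2, S.route_U e (List.mem_map_of_mem hp), rfl⟩

/-- The mirror image. -/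
def mirror (S : Spine G α) : Spine G α where
  pos := S.pos
  pos_inj := S.pos_inj
  route := fun e => (S.route e).map (fun p => (!p.1, p.2))
  ne_nil := fun e => by simpa using S.ne_nil e
  last := fun e => by
    have := S.last e
    simpa [List.map_map, Function.comp_def] using this
  nodup := fun e => by
    have := S.nodup e
    simpa [List.map_map, Function.comp_def] using this
  bend_ne := fun e x hx v => by
    refine S.bend_ne e x ?_ v
    simpa [List.map_map, Function.comp_def] using hx
  planar := fun e e' p hp q hq h1 => by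
    rw [arcsOf_mirror] at hp hq
    obtain ⟨p', hp', rfl⟩ := List.mem_map.1 hp
    obtain ⟨q', hq', rfl⟩ := List.mem_map.1 hq
    exact S.planar e e' p' hp' q' hq' (by simpa using h1)
  distinct := fun e e' hee p hp q hq h1 => by
    rw [arcsOf_mirror] at hp hq
    obtain ⟨p', hp', rfl⟩ := List.mem_map.1 hp
    obtain ⟨q', hq', rfl⟩ := List.mem_map.1 hq
    exact S.distinct e e' hee p' hp' q' hq' (by simpa using h1)
  no_three := fun e e' e'' h1 h2 h3 x hx hx' hx'' => by
    refine S.no_three e e' e'' h1 h2 h3 x ?_ ?_ ?_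
    · simpa [List.map_map, Function.comp_def] using hx
    · simpa [List.map_map, Function.comp_def] using hx'
    · simpa [List.map_map, Function.comp_def] using hx''

theorem mirror_bends (S : Spine G α) (e : G.E) : S.mirror.bends e = S.bends e := by
  unfold bends mirror
  simp [List.map_map, Function.comp_def]

theorem mirror_pres (S : Spine G α) : S.Pres S.mirror := by
  constructor
  · refine Finset.card_le_card ?_
    intro x hx
    rw [mem_crossings] at hx ⊢
    simpa only [mirror_bends] using hx
  · intro e he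
    rw [crossed_iff] at he ⊢
    simpa only [mirror_bends] using he

end Spine

/-- The graph with the ends of the edges in `F` exchanged. -/
@[reducible] def reor (G : Gph) (F : Finset G.E) : Gph where
  V := G.V
  E := G.E
  a := fun e => if e ∈ F then G.b e else G.a e
  b := fun e => if e ∈ F then G.a e else G.b e

namespace Spine
variable {G : Gph} {α : Type} [LinearOrder α]

/-- Reorientation. -/
def reor (S : Spine G α) (F : Finset G.E) : Spine (G.reor F) α where
  pos := S.pos
  pos_inj := S.pos_inj
  route := fun (e : G.E) => if e ∈ F then revR (S.pos (G.a e)) (S.route e) else S.route e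
  ne_nil := fun (e : G.E) => by
    by_cases h : e ∈ F
    · simp only [h, if_true]; exact revR_ne_nil _ _ (S.ne_nil e)
    · simp only [h, if_false]; exact S.ne_nil e
  last := fun (e : G.E) => by
    by_cases h : e ∈ F
    · simp only [Gph.reor, h, if_true]
      rw [getLast?_map_snd (lastPos (S.pos (G.a e)) (S.route e)) _ (revR_ne_nil _ _ (S.ne_nil e)),
        lastPos_revR]
    · simp only [Gph.reor, h, if_false]; exact S.last e
  nodup := fun (e : G.E) => by
    by_cases h : e ∈ F
    · simp only [Gph.reor, h, if_true]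
      rw [← S.last' e (S.pos (G.a e)), posL_revR, List.nodup_reverse]
      exact S.nodup e
    · simp only [Gph.reor, h, if_false]; exact S.nodup e
  bend_ne := fun (e : G.E) x hx v => by
    by_cases h : e ∈ F
    · simp only [h, if_true] at hx
      rw [dropLast_revR, List.mem_reverse] at hx
      exact S.bend_ne e x hx v
    · simp only [h, if_false] at hx
      exact S.bend_ne e x hx v
  planar := fun (e : G.E) (e' : G.E) p hp q hq h1 => by
    have key : ∀ (e : G.E) (p : Bool × α × α),
        p ∈ arcsOf (S.pos ((G.reor F).a e))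
          (if e ∈ F then revR (S.pos (G.a e)) (S.route e) else S.route e) →
        p ∈ arcsOf (S.pos (G.a e)) (S.route e) ∨
        (p.1, p.2.2, p.2.1) ∈ arcsOf (S.pos (G.a e)) (S.route e) := by
      intro e p hp
      by_cases h : e ∈ F
      · right
        simp only [Gph.reor, h, if_true] at hp
        rw [← S.last' e (S.pos (G.a e)), arcsOf_revR, List.mem_reverse] at hp
        obtain ⟨p', hp', rfl⟩ := List.mem_map.1 hp
        exact hp'
      · left
        simp only [Gph.reor, h, if_false] at hp
        exact hp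
    rcases key e p hp with h2 | h2 <;> rcases key e' q hq with h3 | h3
    · exact S.planar e e' _ h2 _ h3 h1
    · have := S.planar e e' _ h2 _ h3 h1
      rwa [Interl_swap2] at this
    · have := S.planar e e' _ h2 _ h3 h1
      rwa [Interl_swap1] at this
    · have := S.planar e e' _ h2 _ h3 h1
      rwa [Interl_swap1, Interl_swap2] at this
  distinct := fun (e : G.E) (e' : G.E) hee p hp q hq h1 => by
    have key : ∀ (e : G.E) (p : Bool × α × α),
        p ∈ arcsOf (S.pos ((G.reor F).a e))
          (if e ∈ F then revR (S.pos (G.a e)) (S.route e) else S.route e) →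
        p ∈ arcsOf (S.pos (G.a e)) (S.route e) ∨
        (p.1, p.2.2, p.2.1) ∈ arcsOf (S.pos (G.a e)) (S.route e) := by
      intro e p hp
      by_cases h : e ∈ F
      · right
        simp only [Gph.reor, h, if_true] at hp
        rw [← S.last' e (S.pos (G.a e)), arcsOf_revR, List.mem_reverse] at hp
        obtain ⟨p', hp', rfl⟩ := List.mem_map.1 hp
        exact hp'
      · left
        simp only [Gph.reor, h, if_false] at hp
        exact hp
    rcases key e p hp with h2 | h2 <;> rcases key e' q hq with h3 | h3
    · exact S.distinct e e' hee _ h2 _ h3 h1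
    · have := S.distinct e e' hee _ h2 _ h3 h1
      rwa [Sym2.eq_swap (a := q.2.2)] at this
    · have := S.distinct e e' hee _ h2 _ h3 h1
      rwa [Sym2.eq_swap (a := p.2.2)] at this
    · have := S.distinct e e' hee _ h2 _ h3 h1
      rwa [Sym2.eq_swap (a := p.2.2), Sym2.eq_swap (a := q.2.2)] at this
  no_three := fun (e : G.E) (e' : G.E) (e'' : G.E) h1 h2 h3 x hx hx' hx'' => by
    have key : ∀ (e : G.E), x ∈ ((if e ∈ F then revR (S.pos (G.a e)) (S.route e)
        else S.route e).map Prod.snd).dropLast → x ∈ ((S.route e).map Prod.snd).dropLast := by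
      intro e hx
      by_cases h : e ∈ F
      · simp only [h, if_true] at hx
        rwa [dropLast_revR, List.mem_reverse] at hx
      · simpa only [h, if_false] using hx
    exact S.no_three e e' e'' h1 h2 h3 x (key e hx) (key e' hx') (key e'' hx'')

theorem reor_bends (S : Spine G α) (F : Finset G.E) (e : G.E) (x : α) :
    x ∈ (S.reor F).bends e ↔ x ∈ S.bends e := by
  unfold bends reor
  by_cases h : e ∈ F
  · simp only [h, if_true]
    rw [dropLast_revR, List.mem_reverse]
  · simp only [h, if_false]

theorem reor_card (S : Spine G α) (F : Finset G.E) :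
    (S.reor F).crossings.card ≤ S.crossings.card := by
  refine Finset.card_le_card ?_
  intro x hx
  rw [mem_crossings] at hx ⊢
  obtain ⟨e, e', h1, h2, h3⟩ := hx
  exact ⟨e, e', h1, (S.reor_bends F e x).1 h2, (S.reor_bends F e' x).1 h3⟩

theorem reor_crossed (S : Spine G α) (F : Finset G.E) (e : G.E) (h : S.Crossed e) :
    (S.reor F).Crossed e := by
  rw [crossed_iff] at h
  obtain ⟨f, h1, x, h2, h3⟩ := h
  exact ((S.reor F).crossed_iff e).2
    ⟨f, h1, x, (S.reor_bends F e x).2 h2, (S.reor_bends F f x).2 h3⟩

end Spine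
end Gph
end Pool.Agent.CC
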