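import Pool.Agent.Lib_helper74.CCF.Tile
import Pool.Agent.Lib_helper74.CCF.Z1

/-! FCM (helper54): the mirror image of a tile (`A ↔ B`, `X ↔ Y`, `C ↔ D`, positions `p ↦ b - p`). -/

namespace Pool.Agent.CC

open Gph

namespace FCM

variable {L L' : Loc} (i : Mir L L') (c : Bool)

/-- the inverse of `Mir.le` -/
def leInv : LE L' c → LE L c
  | .inl e => .inl (i.e.symm e)
  | .inr (.inl s) => .inr (.inl (!s))
  | .inr (.inr ⟨s, h⟩) => .inr (.inr ⟨!s, h⟩)

theorem le_leInv (e : LE L' c) : i.le c (leInv i c e) = e := by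
  rcases e with e | s | ⟨s, h⟩
  · simp [leInv, Mir.le]
  · simp [leInv, Mir.le]
  · simp [leInv, Mir.le]

theorem leInv_le (e : LE L c) : leInv i c (i.le c e) = e := by
  rcases e with e | s | ⟨s, h⟩
  · simp [leInv, Mir.le]
  · simp [leInv, Mir.le]
  · simp [leInv, Mir.le]

theorem leInv_inj {e f : LE L' c} (h : leInv i c e = leInv i c f) : e = f := by
  rw [← le_leInv i c e, h, le_leInv]

/-- the edge is reversed -/
def Rv : LE L c → Prop
  | .inl f => ¬ (L'.a (i.e f) = swapEnd i.v (L.a f) ∧ L'.b (i.e f) = swapEnd i.v (L.b f))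
  | .inr _ => True

/-- the mirrored positions -/
def ps (b : ℤ) (pos : L.V → ℤ) : L'.V → ℤ := fun v => b - pos (i.v.symm v)

theorem ePos_swap (b : ℤ) (pos : L.V → ℤ) (x : L.V ⊕ Bool) :
    ePos b (ps i b pos) (swapEnd i.v x) = b - ePos b pos x := by
  rcases x with v | s
  · simp [swapEnd, ePos, ps]
  · cases s <;> simp [swapEnd, ePos]

theorem ends (b : ℤ) (pos : L.V → ℤ) (e : LE L c) :
    (¬ Rv i c e → tA b (ps i b pos) (i.le c e) = b - tA b pos e ∧
      tB b (ps i b pos) (i.le c e) = b - tB b pos e) ∧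
    (Rv i c e → tA b (ps i b pos) (i.le c e) = b - tB b pos e ∧
      tB b (ps i b pos) (i.le c e) = b - tA b pos e) := by
  rcases e with f | s | ⟨s, h⟩
  · constructor
    · intro hr
      have hr' : L'.a (i.e f) = swapEnd i.v (L.a f) ∧ L'.b (i.e f) = swapEnd i.v (L.b f) := by
        by_contra h
        exact hr h
      constructor
      · show ePos b (ps i b pos) (L'.a (i.e f)) = b - ePos b pos (L.a f)
        rw [hr'.1, ePos_swap]
      · show ePos b (ps i b pos) (L'.b (i.e f)) = b - ePos b pos (L.b f)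
        rw [hr'.2, ePos_swap]
    · intro hr
      have hr' : L'.a (i.e f) = swapEnd i.v (L.b f) ∧ L'.b (i.e f) = swapEnd i.v (L.a f) := by
        rcases i.ends f with h | h
        · exact absurd h hr
        · exact h
      constructor
      · show ePos b (ps i b pos) (L'.a (i.e f)) = b - ePos b pos (L.b f)
        rw [hr'.1, ePos_swap]
      · show ePos b (ps i b pos) (L'.b (i.e f)) = b - ePos b pos (L.a f)
        rw [hr'.2, ePos_swap]
  · refine ⟨fun h => absurd trivial h, fun _ => ?_⟩
    cases s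
    · constructor
      · show ps i b pos L'.ex = b - pos L.en
        rw [← i.en]; simp [ps]
      · show b + 1 = b - (-1)
        ring
    · constructor
      · show (-1 : ℤ) = b - (b + 1)
        ring
      · show ps i b pos L'.en = b - pos L.ex
        rw [← i.ex]; simp [ps]
  · refine ⟨fun h => absurd trivial h, fun _ => ?_⟩
    cases s
    · constructor
      · show (match L'.br with | none => 0 | some v => ps i b pos v) =
          b - (match L.bl with | none => b | some v => pos v)
        rw [← i.bl]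
        cases L.bl with
        | none => simp
        | some v => simp [ps]
      · show b + 2 = b - (-2)
        ring
    · constructor
      · show (-2 : ℤ) = b - (b + 2)
        ring
      · show (match L'.bl with | none => b | some v => ps i b pos v) =
          b - (match L.br with | none => 0 | some v => pos v)
        rw [← i.br]
        cases L.br with
        | none => simp
        | some v => simp [ps]

/-- reflected route -/
def mp (b : ℤ) (l : List (Bool × ℤ)) : List (Bool × ℤ) := l.map (fun p => (p.1, b - p.2))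

theorem mp_snd (b : ℤ) (l : List (Bool × ℤ)) :
    (mp b l).map Prod.snd = (l.map Prod.snd).map (fun x => b - x) := by
  simp [mp, Function.comp_def]

theorem mp_ne (b : ℤ) (l : List (Bool × ℤ)) (h : l ≠ []) : mp b l ≠ [] := by
  simpa [mp] using h

theorem mp_dropLast (b : ℤ) (l : List (Bool × ℤ)) :
    ((mp b l).map Prod.snd).dropLast = ((l.map Prod.snd).dropLast).map (fun x => b - x) := by
  rw [mp_snd, List.map_dropLast]

open Classical in
/-- the new route -/
noncomputable def rt (b : ℤ) (pos : L.V → ℤ) (route : LE L c → List (Bool × ℤ)) (e : LE L c) :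
    List (Bool × ℤ) :=
  if Rv i c e then revR (b - tA b pos e) (mp b (route e)) else mp b (route e)

theorem rt_ne (b : ℤ) (pos : L.V → ℤ) (route : LE L c → List (Bool × ℤ)) (e : LE L c)
    (h : route e ≠ []) : rt i c b pos route e ≠ [] := by
  unfold rt
  split_ifs
  · exact revR_ne_nil _ _ (mp_ne b _ h)
  · exact mp_ne b _ h

theorem rt_bends (b : ℤ) (pos : L.V → ℤ) (route : LE L c → List (Bool × ℤ)) (e : LE L c) (x : ℤ) :
    x ∈ ((rt i c b pos route e).map Prod.snd).dropLast ↔
      b - x ∈ ((route e).map Prod.snd).dropLast := by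
  have key : x ∈ ((mp b (route e)).map Prod.snd).dropLast ↔
      b - x ∈ ((route e).map Prod.snd).dropLast := by
    rw [mp_dropLast, List.mem_map]
    constructor
    · rintro ⟨y, hy, rfl⟩
      rw [sub_sub_cancel]; exact hy
    · intro h
      exact ⟨b - x, h, sub_sub_cancel b x⟩
  unfold rt
  split_ifs
  · rw [dropLast_revR, List.mem_reverse]; exact key
  · exact key

theorem lastPos_eq {b : ℤ} {pos : L.V → ℤ} {route : LE L c → List (Bool × ℤ)} {e : LE L c}
    (h : route e ≠ []) (hl : ((route e).map Prod.snd).getLast? = some (tB b pos e)) :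
    lastPos (tA b pos e) (route e) = tB b pos e := by
  have := getLast?_map_snd (tA b pos e) (route e) h
  rw [hl] at this
  exact (Option.some.inj this).symm

theorem rt_last (b : ℤ) (pos : L.V → ℤ) (route : LE L c → List (Bool × ℤ)) (e : LE L c)
    (h : route e ≠ []) (hl : ((route e).map Prod.snd).getLast? = some (tB b pos e)) :
    ((rt i c b pos route e).map Prod.snd).getLast? =
      some (tB b (ps i b pos) (i.le c e)) := by
  have hlp := lastPos_eq c h hl
  have hlm : lastPos (b - tA b pos e) (mp b (route e)) = b - tB b pos e := by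
    rw [← hlp]; exact lastPos_map (fun x => b - x) _ _
  rw [getLast?_map_snd (tA b (ps i b pos) (i.le c e)) _ (rt_ne i c b pos route e h)]
  congr 1
  unfold rt
  split_ifs with hr
  · obtain ⟨h1, h2⟩ := (ends i c b pos e).2 hr
    rw [h1, h2, ← hlm, lastPos_revR]
  · obtain ⟨h1, h2⟩ := (ends i c b pos e).1 hr
    rw [h1, h2, hlm]

theorem rt_nodup (b : ℤ) (pos : L.V → ℤ) (route : LE L c → List (Bool × ℤ)) (e : LE L c)
    (h : route e ≠ []) (hl : ((route e).map Prod.snd).getLast? = some (tB b pos e))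
    (hn : (tA b pos e :: (route e).map Prod.snd).Nodup) :
    (tA b (ps i b pos) (i.le c e) :: (rt i c b pos route e).map Prod.snd).Nodup := by
  have hlp := lastPos_eq c h hl
  have hlm : lastPos (b - tA b pos e) (mp b (route e)) = b - tB b pos e := by
    rw [← hlp]; exact lastPos_map (fun x => b - x) _ _
  have hn' : ((b - tA b pos e) :: (mp b (route e)).map Prod.snd).Nodup := by
    rw [mp_snd]
    have := hn.map (f := fun x => b - x) (fun x y h => by simpa using h)
    simpa using this
  unfold rt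
  split_ifs with hr
  · obtain ⟨h1, h2⟩ := (ends i c b pos e).2 hr
    rw [h1, ← hlm, posL_revR, List.nodup_reverse]
    exact hn'
  · obtain ⟨h1, h2⟩ := (ends i c b pos e).1 hr
    rw [h1]
    exact hn'

theorem rt_arcs (b : ℤ) (pos : L.V → ℤ) (route : LE L c → List (Bool × ℤ)) (e : LE L c)
    (h : route e ≠ []) (hl : ((route e).map Prod.snd).getLast? = some (tB b pos e))
    (p : Bool × ℤ × ℤ)
    (hp : p ∈ arcsOf (tA b (ps i b pos) (i.le c e)) (rt i c b pos route e)) :
    ∃ r ∈ arcsOf (tA b pos e) (route e), p.1 = r.1 ∧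
      ((p.2.1 = b - r.2.1 ∧ p.2.2 = b - r.2.2) ∨ (p.2.1 = b - r.2.2 ∧ p.2.2 = b - r.2.1)) := by
  have hlp := lastPos_eq c h hl
  have hlm : lastPos (b - tA b pos e) (mp b (route e)) = b - tB b pos e := by
    rw [← hlp]; exact lastPos_map (fun x => b - x) _ _
  have ham : arcsOf (b - tA b pos e) (mp b (route e)) =
      (arcsOf (tA b pos e) (route e)).map (fun p => (p.1, b - p.2.1, b - p.2.2)) :=
    arcsOf_map (fun x => b - x) _ _
  unfold rt at hp
  split_ifs at hp with hr
  · obtain ⟨h1, h2⟩ := (ends i c b pos e).2 hr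
    rw [h1, ← hlm, arcsOf_revR, ham, List.mem_reverse, List.map_map, List.mem_map] at hp
    obtain ⟨r, hr1, rfl⟩ := hp
    exact ⟨r, hr1, rfl, Or.inr ⟨rfl, rfl⟩⟩
  · obtain ⟨h1, h2⟩ := (ends i c b pos e).1 hr
    rw [h1, ham, List.mem_map] at hp
    obtain ⟨r, hr1, rfl⟩ := hp
    exact ⟨r, hr1, rfl, Or.inl ⟨rfl, rfl⟩⟩

theorem interl_refl {b x y z w x' y' z' w' : ℤ}
    (h1 : (x' = b - x ∧ y' = b - y) ∨ (x' = b - y ∧ y' = b - x))
    (h2 : (z' = b - z ∧ w' = b - w) ∨ (z' = b - w ∧ w' = b - z))
    (h : Interl x' y' z' w') : Interl x y z w := by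
  unfold Interl at h ⊢
  rcases h1 with ⟨rfl, rfl⟩ | ⟨rfl, rfl⟩ <;> rcases h2 with ⟨rfl, rfl⟩ | ⟨rfl, rfl⟩ <;> omega

theorem sym2_refl {b x y z w x' y' z' w' : ℤ}
    (h1 : (x' = b - x ∧ y' = b - y) ∨ (x' = b - y ∧ y' = b - x))
    (h2 : (z' = b - z ∧ w' = b - w) ∨ (z' = b - w ∧ w' = b - z))
    (h : s(x', y') = s(z', w')) : s(x, y) = s(z, w) := by
  rw [Sym2.eq_iff] at h ⊢
  rcases h1 with ⟨rfl, rfl⟩ | ⟨rfl, rfl⟩ <;> rcases h2 with ⟨rfl, rfl⟩ | ⟨rfl, rfl⟩ <;> omega

/-- the mirror image of a tile -/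
noncomputable def mirror {keep : LE L c → Prop} (S : TLay L c keep) :
    TLay L' c (fun e => keep (leInv i c e)) where
  b := S.b
  pos := ps i S.b S.pos
  route := fun e => rt i c S.b S.pos S.route (leInv i c e)
  cross := S.cross.image (fun x => S.b - x)
  pos_inj := by
    intro u v h
    have : S.pos (i.v.symm u) = S.pos (i.v.symm v) := by
      unfold ps at h
      linarith
    exact i.v.symm.injective (S.pos_inj this)
  pos_mem := by
    intro v
    have := S.pos_mem (i.v.symm v)
    unfold ps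
    omega
  ne_nil := fun e he => rt_ne i c _ _ _ _ (S.ne_nil _ he)
  last := fun e he => by
    have := rt_last i c S.b S.pos S.route (leInv i c e) (S.ne_nil _ he) (S.last _ he)
    rwa [le_leInv] at this
  nodup := fun e he => by
    have := rt_nodup i c S.b S.pos S.route (leInv i c e) (S.ne_nil _ he) (S.last _ he)
      (S.nodup _ he)
    rwa [le_leInv] at this
  bend_mem := by
    intro e he x hx
    rw [rt_bends] at hx
    have := S.bend_mem _ he _ hx
    omega
  bend_ne := by
    intro e he x hx v hv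
    rw [rt_bends] at hx
    apply S.bend_ne _ he _ hx (i.v.symm v)
    unfold ps at hv
    omega
  planar := by
    intro e f he hf p hp r hr hpr hI
    have a1 := rt_arcs i c S.b S.pos S.route (leInv i c e) (S.ne_nil _ he) (S.last _ he) p
      (by rwa [le_leInv])
    have a2 := rt_arcs i c S.b S.pos S.route (leInv i c f) (S.ne_nil _ hf) (S.last _ hf) r
      (by rwa [le_leInv])
    obtain ⟨p', hp', e1, e2⟩ := a1
    obtain ⟨r', hr', e3, e4⟩ := a2
    exact S.planar _ _ he hf p' hp' r' hr' (by rw [← e1, ← e3, hpr]) (interl_refl e2 e4 hI)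
  distinct := by
    intro e f he hf hef p hp r hr hpr hI
    have a1 := rt_arcs i c S.b S.pos S.route (leInv i c e) (S.ne_nil _ he) (S.last _ he) p
      (by rwa [le_leInv])
    have a2 := rt_arcs i c S.b S.pos S.route (leInv i c f) (S.ne_nil _ hf) (S.last _ hf) r
      (by rwa [le_leInv])
    obtain ⟨p', hp', e1, e2⟩ := a1
    obtain ⟨r', hr', e3, e4⟩ := a2
    exact S.distinct _ _ he hf (fun h => hef (leInv_inj i c h)) p' hp' r' hr'
      (by rw [← e1, ← e3, hpr]) (sym2_refl e2 e4 hI)
  no_three := by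
    intro e f g he hf hg h1 h2 h3 x hx hy hz
    rw [rt_bends] at hx hy hz
    exact S.no_three _ _ _ he hf hg (fun h => h1 (leInv_inj i c h)) (fun h => h2 (leInv_inj i c h))
      (fun h => h3 (leInv_inj i c h)) _ hx hy hz
  upper := by
    intro e he p hp hp1
    have a1 := rt_arcs i c S.b S.pos S.route (leInv i c e) (S.ne_nil _ he) (S.last _ he) p
      (by rwa [le_leInv])
    obtain ⟨p', hp', e1, e2⟩ := a1
    have := S.upper _ he p' hp' (by rw [← e1, hp1])
    rcases e2 with ⟨h1, h2⟩ | ⟨h1, h2⟩ <;> omega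
  loc := by
    intro e he p hp
    have a1 := rt_arcs i c S.b S.pos S.route (leInv i c e) (S.ne_nil _ he) (S.last _ he) p
      (by rwa [le_leInv])
    obtain ⟨p', hp', e1, e2⟩ := a1
    have := S.loc _ he p' hp'
    rcases e2 with ⟨h1, h2⟩ | ⟨h1, h2⟩ <;> omega
  hcross := by
    intro e f he hf hef x hx hy
    rw [rt_bends] at hx hy
    have := S.hcross _ _ he hf (fun h => hef (leInv_inj i c h)) _ hx hy
    exact Finset.mem_image.2 ⟨_, this, sub_sub_cancel _ _⟩

theorem mirror_crossed {keep : LE L c → Prop} (S : TLay L c keep) (e : LE L c) (h : S.Crossed e) :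
    (mirror i c S).Crossed (i.le c e) := by
  obtain ⟨f, hf, x, h1, h2⟩ := h
  refine ⟨i.le c f, fun h => hf ?_, S.b - x, ?_, ?_⟩
  · rw [← leInv_le i c f, h, leInv_le]
  · show S.b - x ∈ ((rt i c S.b S.pos S.route (leInv i c (i.le c e))).map Prod.snd).dropLast
    rw [leInv_le, rt_bends, sub_sub_cancel]
    exact h1
  · show S.b - x ∈ ((rt i c S.b S.pos S.route (leInv i c (i.le c f))).map Prod.snd).dropLast
    rw [leInv_le, rt_bends, sub_sub_cancel]
    exact h2

theorem mirror_card {keep : LE L c → Prop} (S : TLay L c keep) :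
    (mirror i c S).cross.card ≤ S.cross.card := Finset.card_image_le

end FCM

theorem Mir.tcr {L L' : Loc} (i : Mir L L') {c : Bool} {K : ℕ} {e : LE L c} (h : TCr L c K e) :
    TCr L' c K (i.le c e) := by
  obtain ⟨S, hS, he⟩ := h
  exact ⟨FCM.mirror i c S, (FCM.mirror_card i c S).trans hS, FCM.mirror_crossed i c S e he⟩

theorem Mir.tdel {L L' : Loc} (i : Mir L L') {c : Bool} {K : ℕ} {e : LE L c} (h : TDel L c K e) :
    TDel L' c K (i.le c e) := by
  obtain ⟨S, hS⟩ := h
  have hk : (fun f => FCM.leInv i c f ≠ e) = (fun f : LE L' c => f ≠ i.le c e) := by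
    funext f
    apply propext
    constructor
    · intro h1 h2
      apply h1
      rw [h2, FCM.leInv_le]
    · intro h1 h2
      apply h1
      rw [← h2, FCM.le_leInv]
  have h1 : ∃ S' : TLay L' c (fun f => FCM.leInv i c f ≠ e), S'.cross.card + 1 ≤ K :=
    ⟨FCM.mirror i c S, (Nat.add_le_add_right (FCM.mirror_card i c S) 1).trans hS⟩
  rw [hk] at h1
  exact h1

/-- `G` and `W`: `(s, x) ↦ (!s, x)`. -/
def mirG (q : ℕ) : Mir (GLoc q) (GLoc q) where
  v := Equiv.prodCongr (Equiv.boolNot) (Equiv.refl _)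
  e := Equiv.prodCongr (Equiv.boolNot) (Equiv.refl _)
  ends := by
    rintro ⟨s, k | i⟩
    · left
      constructor
      · rfl
      · show (Sum.inr (xor (!s) (decide (k.1 % 2 = 0))) : (GLoc q).V ⊕ Bool) =
          Sum.inr (!(xor s (decide (k.1 % 2 = 0))))
        congr 1
        cases s <;> simp
    · left
      exact ⟨rfl, rfl⟩
  en := rfl
  ex := rfl
  bl := rfl
  br := rfl

def mirW (q : ℕ) : Mir (WLoc q) (WLoc q) where
  v := Equiv.prodCongr (Equiv.boolNot) (Equiv.refl _)
  e := Equiv.prodCongr (Equiv.boolNot) (Equiv.refl _)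
  ends := by
    rintro ⟨s, e⟩
    left
    constructor
    · cases e <;> rfl
    · cases e with
      | b1 => rfl
      | b2 => rfl
      | eta => rfl
      | sig => rfl
      | s3 => rfl
      | leg k =>
        show (Sum.inr (xor (!s) (decide (k.1 % 2 = 0 ∧ k.1 ≠ 0))) : (WLoc q).V ⊕ Bool) =
          Sum.inr (!(xor s (decide (k.1 % 2 = 0 ∧ k.1 ≠ 0))))
        congr 1
        cases s <;> simp
      | row i => rfl
  en := rfl
  ex := rfl
  bl := rfl
  br := rfl

/-- `T`: `i ↦ 2q+1-i`. -/
def mirT (q : ℕ) : Mir (TLoc q) (TLoc q) where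
  v := Fin.revPerm (n := 2 * q + 2)
  e := Equiv.sumCongr (Fin.revPerm (n := 2 * q + 2)) (Fin.revPerm (n := 2 * q + 1))
  ends := by
    rintro (k | k)
    · left
      constructor
      · rfl
      · show (Sum.inr (decide ((Fin.rev k).1 % 2 = 0)) : (TLoc q).V ⊕ Bool) =
          Sum.inr (!(decide (k.1 % 2 = 0)))
        congr 1
        have h := Fin.val_rev k
        have hk := k.2
        by_cases h0 : k.1 % 2 = 0
        · have h1 : ¬ ((Fin.rev k).1 % 2 = 0) := by omega
          rw [decide_eq_true h0, decide_eq_false h1]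
          rfl
        · have h1 : ((Fin.rev k).1 % 2 = 0) := by omega
          rw [decide_eq_false h0, decide_eq_true h1]
          rfl
    · right
      have h := Fin.val_rev k
      have hk := k.2
      constructor
      · show (Sum.inl (⟨(Fin.rev k).1, _⟩ : Fin (2 * q + 2)) : Fin (2 * q + 2) ⊕ Bool) =
          Sum.inl (Fin.rev (⟨k.1 + 1, _⟩ : Fin (2 * q + 2)))
        congr 1
        apply Fin.ext
        show (Fin.rev k).1 = (2 * q + 2) - ((k.1 + 1) + 1)
        omega
      · show (Sum.inl (⟨(Fin.rev k).1 + 1, _⟩ : Fin (2 * q + 2)) : Fin (2 * q + 2) ⊕ Bool) =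
          Sum.inl (Fin.rev (⟨k.1, _⟩ : Fin (2 * q + 2)))
        congr 1
        apply Fin.ext
        show (Fin.rev k).1 + 1 = (2 * q + 2) - (k.1 + 1)
        omega
  en := by
    show Fin.rev (⟨0, _⟩ : Fin (2 * q + 2)) = ⟨2 * q + 1, _⟩
    apply Fin.ext
    show (2 * q + 2) - (0 + 1) = 2 * q + 1
    omega
  ex := by
    show Fin.rev (⟨2 * q + 1, _⟩ : Fin (2 * q + 2)) = ⟨0, _⟩
    apply Fin.ext
    show (2 * q + 2) - (2 * q + 1 + 1) = 0
    omega
  bl := rfl
  br := rfl

end Pool.Agent.CC
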