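import Pool.Agent.Lib_helper74.CCF.T39TDcr
import Pool.Agent.Lib_helper74.CCF.Mir

/-!
# FCT: the tiles of `T(s)`
-/

set_option autoImplicit false

namespace Pool.Agent.CC

open Gph

/-- FCT: every tile edge of `T(s)`, `s = q + 2`, is crossed in a full tile with `s` (`s + 3` if
`c`) crossings. -/
theorem tileT (q : ℕ) (c : Bool) (e : LE (TLoc (q + 1)) c) :
    TCr (TLoc (q + 1)) c (q + 2 + if c then 3 else 0) e := by
  by_cases he : ∀ i : Fin (2 * (q + 1) + 1), e = .inl (.inr i) → i.1 < 2 * (q + 1)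
  · exact FC39.TD.tcr (q + 1) c e he
  · push Not at he
    obtain ⟨i, rfl, hi⟩ := he
    have h1 := FC39.TD.tcr_row (q := q + 1) c ⟨0, by omega⟩ (by simp)
    have h2 := Mir.tcr (mirT (q + 1)) h1
    have h3 : (mirT (q + 1)).le c (.inl (.inr ⟨0, by omega⟩)) = .inl (.inr i) := by
      show (Sum.inl (Sum.inr (Fin.rev ⟨0, _⟩)) : LE (TLoc (q + 1)) c) = Sum.inl (Sum.inr i)
      congr 2
      apply Fin.ext
      have := i.2
      simp only [Fin.val_rev]
      omega
    rw [h3] at h2
    exact h2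

end Pool.Agent.CC
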