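import Pool.Agent.Lib_helper74.CCF.FCW5Base

/-! Tiles of `W` with `b1` resp. `b2` of the left part deleted (WC-b1, WC-b2), helper5. -/

set_option autoImplicit false

namespace Pool.Agent.CC

open Gph

namespace FCW5

/-! ### WC-b1: the edge `b1` of the left part deleted -/

namespace C1

/-- positions -/
def pos (q : ℕ) : Bool × WV q → ℤ
  | (false, .v1) => 2
  | (false, .v2) => 3
  | (false, .w) => 4
  | (false, .x i) => 4 * q + 17 + (i.1 : ℤ)
  | (true, .v1) => 3 * q + 11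
  | (true, .v2) => 3 * q + 10
  | (true, .w) => 3 * q + 12
  | (true, .x i) => 3 * q + 9 - (i.1 : ℤ)

/-- routes -/
def route (q : ℕ) : LE (WLoc q) true → List (Bool × ℤ)
  | .inl (false, .b1) => []
  | .inl (false, .b2) => [(false, 3 * q + 13), (true, 3 * q + 14), (false, 6 * q + 19)]
  | .inl (false, .eta) => [(true, 3)]
  | .inl (false, .sig) => [(true, 4)]
  | .inl (false, .s3) => chain true 4 (q + 3) ++ [(true, (4 * (q : ℤ) + 17))]
  | .inl (false, .leg k) => if k.1 % 2 = 0 ∧ k.1 ≠ 0 then [(false, 6 * q + 19)] else [(true, 0)]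
  | .inl (false, .row i) => [(true, 4 * q + 18 + (i.1 : ℤ))]
  | .inl (true, .b1) => [(false, 5), (true, 0)]
  | .inl (true, .b2) => [(false, 6), (true, 0)]
  | .inl (true, .eta) => [(true, 3 * q + 10)]
  | .inl (true, .sig) => [(true, 3 * q + 12)]
  | .inl (true, .s3) => [(true, 3 * q + 9)]
  | .inl (true, .leg k) => if k.1 % 2 = 0 ∧ k.1 ≠ 0 then [(false, 6 + ((k.1 / 2 : ℕ) : ℤ)), (true, 0)]
      else [(true, 3 * q + 15 + (((k.1 + 1) / 2 : ℕ) : ℤ)), (false, 6 * q + 19)]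
  | .inl (true, .row i) => [(true, 3 * q + 8 - (i.1 : ℤ))]
  | .inr (.inl false) => [(false, 1), (true, 4)]
  | .inr (.inl true) => [(true, 3 * q + 14), (false, 6 * q + 20)]
  | .inr (.inr ⟨false, _⟩) => [(false, 2)]
  | .inr (.inr ⟨true, _⟩) => [(false, 3 * q + 13), (false, 6 * q + 21)]

/-- upper chords -/
def U (q : ℕ) : LE (WLoc q) true → ℤ → ℤ → Prop
  | .inl (false, .b1), _, _ => False
  | .inl (false, .b2), l, r => l = 3 * q + 13 ∧ r = 3 * q + 14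
  | .inl (false, .eta), l, r => l = 2 ∧ r = 3
  | .inl (false, .sig), l, r => l = 3 ∧ r = 4
  | .inl (false, .s3), l, r => (4 ≤ l ∧ l < q + 7 ∧ r = l + 1) ∨ (l = q + 7 ∧ r = 4 * q + 17)
  | .inl (false, .leg k), l, r => (k.1 % 2 = 1 ∨ k.1 = 0) ∧ k.1 ≤ 2 * q + 1 ∧ l = 0 ∧
      r = 4 * q + 17 + (k.1 : ℤ)
  | .inl (false, .row i), l, r => i.1 ≤ 2 * q ∧ l = 4 * q + 17 + (i.1 : ℤ) ∧ r = l + 1
  | .inl (true, .b1), l, r => l = 0 ∧ r = 5
  | .inl (true, .b2), l, r => l = 0 ∧ r = 6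
  | .inl (true, .eta), l, r => l = 3 * q + 10 ∧ r = 3 * q + 11
  | .inl (true, .sig), l, r => l = 3 * q + 10 ∧ r = 3 * q + 12
  | .inl (true, .s3), l, r => l = 3 * q + 9 ∧ r = 3 * q + 12
  | .inl (true, .leg k), l, r =>
      (k.1 % 2 = 0 ∧ k.1 ≠ 0 ∧ k.1 ≤ 2 * q + 2 ∧ l = 0 ∧ r = 6 + ((k.1 / 2 : ℕ) : ℤ)) ∨
      ((k.1 % 2 = 1 ∨ k.1 = 0) ∧ k.1 ≤ 2 * q + 1 ∧ l = 3 * q + 9 - (k.1 : ℤ) ∧
        r = 3 * q + 15 + (((k.1 + 1) / 2 : ℕ) : ℤ))
  | .inl (true, .row i), l, r => i.1 ≤ 2 * q ∧ l = 3 * q + 8 - (i.1 : ℤ) ∧ r = l + 1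
  | .inr (.inl false), l, r => l = 1 ∧ r = 4
  | .inr (.inl true), l, r => l = 3 * q + 12 ∧ r = 3 * q + 14
  | .inr (.inr ⟨false, _⟩), _, _ => False
  | .inr (.inr ⟨true, _⟩), _, _ => False

/-- lower chords -/
def Lo (q : ℕ) : LE (WLoc q) true → ℤ → ℤ → Prop
  | .inl (false, .b1), _, _ => False
  | .inl (false, .b2), l, r => (l = 3 ∧ r = 3 * q + 13) ∨ (l = 3 * q + 14 ∧ r = 6 * q + 19)
  | .inl (false, .eta), _, _ => False
  | .inl (false, .sig), _, _ => False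
  | .inl (false, .s3), _, _ => False
  | .inl (false, .leg k), l, r => k.1 % 2 = 0 ∧ k.1 ≠ 0 ∧ k.1 ≤ 2 * q + 2 ∧
      l = 4 * q + 17 + ((min k.1 (2 * q + 1) : ℕ) : ℤ) ∧ r = 6 * q + 19
  | .inl (false, .row _), _, _ => False
  | .inl (true, .b1), l, r => l = 5 ∧ r = 3 * q + 11
  | .inl (true, .b2), l, r => l = 6 ∧ r = 3 * q + 10
  | .inl (true, .eta), _, _ => False
  | .inl (true, .sig), _, _ => False
  | .inl (true, .s3), _, _ => False
  | .inl (true, .leg k), l, r =>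
      (k.1 % 2 = 0 ∧ k.1 ≠ 0 ∧ k.1 ≤ 2 * q + 2 ∧ l = 6 + ((k.1 / 2 : ℕ) : ℤ) ∧
        r = 3 * q + 9 - ((min k.1 (2 * q + 1) : ℕ) : ℤ)) ∨
      ((k.1 % 2 = 1 ∨ k.1 = 0) ∧ k.1 ≤ 2 * q + 1 ∧ l = 3 * q + 15 + (((k.1 + 1) / 2 : ℕ) : ℤ) ∧
        r = 6 * q + 19)
  | .inl (true, .row _), _, _ => False
  | .inr (.inl false), l, r => l = -1 ∧ r = 1
  | .inr (.inl true), l, r => l = 3 * q + 14 ∧ r = 6 * q + 20
  | .inr (.inr ⟨false, _⟩), l, r => l = -2 ∧ r = 2
  | .inr (.inr ⟨true, _⟩), l, r => (l = 3 * q + 11 ∧ r = 3 * q + 13) ∨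
      (l = 3 * q + 13 ∧ r = 6 * q + 21)

/-- bends -/
def Bd (q : ℕ) : LE (WLoc q) true → ℤ → Prop
  | .inl (false, .b1), _ => False
  | .inl (false, .b2), x => x = 3 * q + 13 ∨ x = 3 * q + 14
  | .inl (false, .eta), _ => False
  | .inl (false, .sig), _ => False
  | .inl (false, .s3), x => 4 < x ∧ x ≤ q + 7
  | .inl (false, .leg _), _ => False
  | .inl (false, .row _), _ => False
  | .inl (true, .b1), x => x = 5
  | .inl (true, .b2), x => x = 6
  | .inl (true, .eta), _ => False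
  | .inl (true, .sig), _ => False
  | .inl (true, .s3), _ => False
  | .inl (true, .leg k), x =>
      (k.1 % 2 = 0 ∧ k.1 ≠ 0 ∧ k.1 ≤ 2 * q + 2 ∧ x = 6 + ((k.1 / 2 : ℕ) : ℤ)) ∨
      ((k.1 % 2 = 1 ∨ k.1 = 0) ∧ k.1 ≤ 2 * q + 1 ∧ x = 3 * q + 15 + (((k.1 + 1) / 2 : ℕ) : ℤ))
  | .inl (true, .row _), _ => False
  | .inr (.inl false), x => x = 1
  | .inr (.inl true), x => x = 3 * q + 14
  | .inr (.inr ⟨false, _⟩), _ => False
  | .inr (.inr ⟨true, _⟩), x => x = 3 * q + 13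

/-- colours at the bends -/
def kd (q : ℕ) : LE (WLoc q) true → ℤ → ℤ
  | .inl (false, _), _ => 0
  | .inl (true, _), _ => 1
  | .inr (.inl false), _ => 0
  | .inr (.inl true), _ => 1
  | .inr (.inr _), _ => 1

theorem pos_inj (q : ℕ) : Function.Injective (pos q) := by
  rintro ⟨_ | _, _ | _ | _ | i⟩ ⟨_ | _, _ | _ | _ | j⟩ h <;> simp only [pos] at h <;>
    first
    | rfl
    | (exfalso; have hi := i.2; have hj := j.2; omega)
    | (exfalso; have hi := i.2; omega)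
    | (exfalso; have hj := j.2; omega)
    | (exfalso; omega)
    | (have hk : i = j := Fin.ext (by omega)
       rw [hk])

theorem pos_mem (q : ℕ) : ∀ v, 0 < pos q v ∧ pos q v < 6 * q + 19 := by
  rintro ⟨_ | _, _ | _ | _ | i⟩ <;> simp only [pos] <;>
    first
    | omega
    | (have hi := i.2; omega)

theorem Utwo (q : ℕ) : ∀ e f l r l' r', U q e l r → U q f l' r' →
    ¬ (l < l' ∧ l' < r ∧ r < r') ∧ (l = l' → r = r' → wcode e = wcode f) := by
  intro e f l r l' r' h1 h2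
  rcases e with ⟨_ | _, _ | _ | _ | _ | _ | k | i⟩ | ⟨_ | _⟩ | ⟨_ | _, _⟩ <;>
    simp only [U] at h1 <;>
    rcases f with ⟨_ | _, _ | _ | _ | _ | _ | k' | i'⟩ | ⟨_ | _⟩ | ⟨_ | _, _⟩ <;>
    simp only [U] at h2 <;> refine ⟨by omega, fun h3 h4 => ?_⟩ <;>
    first | rfl | (simp only [wcode]; omega)

theorem Ltwo (q : ℕ) : ∀ e f l r l' r', Lo q e l r → Lo q f l' r' →
    ¬ (l < l' ∧ l' < r ∧ r < r') ∧ (l = l' → r = r' → wcode e = wcode f) := by
  intro e f l r l' r' h1 h2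
  rcases e with ⟨_ | _, _ | _ | _ | _ | _ | k | i⟩ | ⟨_ | _⟩ | ⟨_ | _, _⟩ <;>
    simp only [Lo] at h1 <;>
    rcases f with ⟨_ | _, _ | _ | _ | _ | _ | k' | i'⟩ | ⟨_ | _⟩ | ⟨_ | _, _⟩ <;>
    simp only [Lo] at h2 <;> refine ⟨by omega, fun h3 h4 => ?_⟩ <;>
    first | rfl | (simp only [wcode]; omega)

theorem bend_two (q : ℕ) : ∀ e f x, Bd q e x → Bd q f x → kd q e x = kd q f x →
    wcode e = wcode f := by
  intro e f x h1 h2 h3
  rcases e with ⟨_ | _, _ | _ | _ | _ | _ | k | i⟩ | ⟨_ | _⟩ | ⟨_ | _, _⟩ <;>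
    simp only [Bd] at h1 <;>
    rcases f with ⟨_ | _, _ | _ | _ | _ | _ | k' | i'⟩ | ⟨_ | _⟩ | ⟨_ | _, _⟩ <;>
    simp only [Bd] at h2 <;> simp only [kd] at h3 <;>
    first | rfl | (simp only [wcode]; omega) | omega

theorem kd_two (q : ℕ) : ∀ e x, Bd q e x → kd q e x = 0 ∨ kd q e x = 1 := by
  intro e x _
  rcases e with ⟨_ | _, _⟩ | ⟨_ | _⟩ | _ <;> simp [kd]

/-- the crossings -/
noncomputable def cross (q : ℕ) : Finset ℤ :=
  Finset.Icc 5 ((q : ℤ) + 7) ∪ {3 * (q : ℤ) + 13, 3 * (q : ℤ) + 14}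

theorem hcross (q : ℕ) : ∀ e f x, Bd q e x → Bd q f x → wcode e ≠ wcode f → x ∈ cross q := by
  intro e f x h1 h2 h3
  have key : (5 ≤ x ∧ x ≤ q + 7) ∨ (x = 3 * q + 13 ∨ x = 3 * q + 14) := by
    rcases e with ⟨_ | _, _ | _ | _ | _ | _ | k | i⟩ | ⟨_ | _⟩ | ⟨_ | _, _⟩ <;>
      simp only [Bd] at h1 <;>
      rcases f with ⟨_ | _, _ | _ | _ | _ | _ | k' | i'⟩ | ⟨_ | _⟩ | ⟨_ | _, _⟩ <;>
      simp only [Bd] at h2 <;> simp only [wcode] at h3 <;> omega
  unfold cross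
  rw [Finset.mem_union, Finset.mem_Icc, Finset.mem_insert, Finset.mem_singleton]
  exact key

theorem card_cross (q : ℕ) : (cross q).card + 1 ≤ q + 6 := by
  unfold cross
  have h1 := Finset.card_union_le (Finset.Icc (5 : ℤ) ((q : ℤ) + 7))
    {3 * (q : ℤ) + 13, 3 * (q : ℤ) + 14}
  have h2 := Finset.card_insert_le (3 * (q : ℤ) + 13) ({3 * (q : ℤ) + 14} : Finset ℤ)
  rw [Finset.card_singleton] at h2
  rw [Int.card_Icc] at h1
  omega

theorem Uone (q : ℕ) : ∀ e l r, U q e l r → 0 ≤ l ∧ r ≤ 6 * q + 19 ∧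
    ((0 < l ∧ l < 6 * (q : ℤ) + 19) ∨ (0 < r ∧ r < 6 * (q : ℤ) + 19)) := by
  intro e l r h1
  rcases e with ⟨_ | _, _ | _ | _ | _ | _ | k | i⟩ | ⟨_ | _⟩ | ⟨_ | _, _⟩ <;>
    simp only [U] at h1 <;> omega

theorem Lone (q : ℕ) : ∀ e l r, Lo q e l r →
    ((0 < l ∧ l < 6 * (q : ℤ) + 19) ∨ (0 < r ∧ r < 6 * (q : ℤ) + 19)) := by
  intro e l r h1
  rcases e with ⟨_ | _, _ | _ | _ | _ | _ | k | i⟩ | ⟨_ | _⟩ | ⟨_ | _, _⟩ <;>
    simp only [Lo] at h1 <;> omega

theorem bend_mem (q : ℕ) : ∀ e x, Bd q e x → (0 < x ∧ x < 6 * (q : ℤ) + 19) ∧ ∀ v, x ≠ pos q v := by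
  intro e x h1
  constructor
  · rcases e with ⟨_ | _, _ | _ | _ | _ | _ | k | i⟩ | ⟨_ | _⟩ | ⟨_ | _, _⟩ <;>
      simp only [Bd] at h1 <;> omega
  · rintro ⟨_ | _, _ | _ | _ | j⟩ <;> simp only [pos] <;>
      rcases e with ⟨_ | _, _ | _ | _ | _ | _ | k | i⟩ | ⟨_ | _⟩ | ⟨_ | _, _⟩ <;>
      simp only [Bd] at h1 <;>
      first
      | omega
      | (have hj := j.2; omega)

end C1

namespace C1

/-- starting positions -/
def st (q : ℕ) : LE (WLoc q) true → ℤ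
  | .inl (false, .b1) => 2
  | .inl (false, .b2) => 3
  | .inl (false, .eta) => 2
  | .inl (false, .sig) => 3
  | .inl (false, .s3) => 4
  | .inl (false, .leg k) => 4 * q + 17 + ((min k.1 (2 * q + 1) : ℕ) : ℤ)
  | .inl (false, .row i) => 4 * q + 17 + (i.1 : ℤ)
  | .inl (true, .b1) => 3 * q + 11
  | .inl (true, .b2) => 3 * q + 10
  | .inl (true, .eta) => 3 * q + 11
  | .inl (true, .sig) => 3 * q + 10
  | .inl (true, .s3) => 3 * q + 12
  | .inl (true, .leg k) => 3 * q + 9 - ((min k.1 (2 * q + 1) : ℕ) : ℤ)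
  | .inl (true, .row i) => 3 * q + 9 - (i.1 : ℤ)
  | .inr (.inl false) => -1
  | .inr (.inl true) => 3 * q + 12
  | .inr (.inr ⟨false, _⟩) => -2
  | .inr (.inr ⟨true, _⟩) => 3 * q + 11

theorem tA_eq (q : ℕ) (e : LE (WLoc q) true) : tA (6 * (q : ℤ) + 19) (pos q) e = st q e := by
  rcases e with ⟨_ | _, _ | _ | _ | _ | _ | k | i⟩ | ⟨_ | _⟩ | ⟨_ | _, _⟩ <;> rfl

theorem ne_nil (q : ℕ) (e : LE (WLoc q) true) (he : e ≠ .inl (false, .b1)) : route q e ≠ [] := by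
  rcases e with ⟨_ | _, _ | _ | _ | _ | _ | k | i⟩ | ⟨_ | _⟩ | ⟨_ | _, _⟩ <;>
    simp only [route] <;>
    first
    | exact absurd rfl he
    | exact List.cons_ne_nil _ _
    | (split_ifs <;> exact List.cons_ne_nil _ _)
    | simp

theorem last (q : ℕ) (e : LE (WLoc q) true) (he : e ≠ .inl (false, .b1)) :
    ((route q e).map Prod.snd).getLast? = some (tB (6 * (q : ℤ) + 19) (pos q) e) := by
  rcases e with ⟨_ | _, _ | _ | _ | _ | _ | k | i⟩ | ⟨_ | _⟩ | ⟨_ | _, _⟩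
  · exact absurd rfl he
  · rfl
  · rfl
  · rfl
  · simp only [route, List.map_append, List.getLast?_append, List.map_cons, List.map_nil,
      List.getLast?_singleton, Option.some_or]
    simp [tB, ePos, WLoc, pos]
  · rw [tB_leg]
    simp only [route]
    split_ifs <;> first | rfl | contradiction
  · simp [route, tB, ePos, WLoc, pos]
    ring
  · rfl
  · rfl
  · rfl
  · rfl
  · simp [route, tB, ePos, WLoc, pos]
  · rw [tB_leg]
    simp only [route]
    split_ifs <;> first | rfl | contradiction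
  · simp [route, tB, ePos, WLoc, pos]
    ring
  · rfl
  · rfl
  · rfl
  · rfl

theorem nodup (q : ℕ) (e : LE (WLoc q) true) (he : e ≠ .inl (false, .b1)) :
    (tA (6 * (q : ℤ) + 19) (pos q) e :: (route q e).map Prod.snd).Nodup := by
  rw [tA_eq]
  rcases e with ⟨_ | _, _ | _ | _ | _ | _ | k | i⟩ | ⟨_ | _⟩ | ⟨_ | _, _⟩
  all_goals try exact absurd rfl he
  all_goals simp only [route, st]
  on_goal 4 =>
    rw [List.nodup_cons, List.map_append, List.nodup_append, List.mem_append, mem_chain]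
    refine ⟨?_, chain_nodup _ _, List.nodup_singleton _, ?_⟩
    · simp only [List.map_cons, List.map_nil, List.mem_singleton]
      omega
    · intro a ha c hc
      rw [mem_chain] at ha
      simp only [List.map_cons, List.map_nil, List.mem_singleton] at hc
      push_cast at ha
      omega
  all_goals try split_ifs
  all_goals simp only [List.map_cons, List.map_nil, List.nodup_cons, List.mem_cons,
    List.not_mem_nil, List.nodup_nil, or_false, not_false_eq_true, and_true]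
  all_goals first
    | omega
    | (have hk := k.2; omega)
    | (have hi := i.2; omega)

theorem fam (q : ℕ) (e : LE (WLoc q) true) (he : e ≠ .inl (false, .b1)) :
    ∀ p ∈ arcsOf (tA (6 * (q : ℤ) + 19) (pos q) e) (route q e),
      (p.1 = true → U q e (min p.2.1 p.2.2) (max p.2.1 p.2.2)) ∧
      (p.1 = false → Lo q e (min p.2.1 p.2.2) (max p.2.1 p.2.2)) := by
  rintro ⟨p1, p2, p3⟩ hp
  rw [tA_eq] at hp
  rcases e with ⟨_ | _, _ | _ | _ | _ | _ | k | i⟩ | ⟨_ | _⟩ | ⟨_ | _, _⟩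
  all_goals try exact absurd rfl he
  all_goals simp only [route, st] at hp
  on_goal 4 => rw [mem_arcs_chain] at hp
  all_goals try split_ifs at hp
  all_goals simp only [arcsOf, List.mem_cons, List.not_mem_nil, or_false, Prod.mk.injEq] at hp
  all_goals rcases p1 with _ | _
  all_goals simp only [Bool.false_eq_true, Bool.true_eq_false, false_and, true_and, false_or,
    or_false, forall_const, false_implies, and_true, U, Lo] at hp ⊢
  all_goals first
    | omega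
    | (have hk := k.2; omega)
    | (have hi := i.2; omega)

theorem bend (q : ℕ) (e : LE (WLoc q) true) (he : e ≠ .inl (false, .b1)) :
    ∀ x ∈ ((route q e).map Prod.snd).dropLast, Bd q e x := by
  intro x hx
  rcases e with ⟨_ | _, _ | _ | _ | _ | _ | k | i⟩ | ⟨_ | _⟩ | ⟨_ | _, _⟩
  all_goals try exact absurd rfl he
  all_goals simp only [route] at hx
  on_goal 4 =>
    rw [chain_dropLast _ _ (List.cons_ne_nil _ _), List.mem_append, mem_chain] at hx
  all_goals try split_ifs at hx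
  all_goals simp only [List.map_cons, List.map_nil, List.dropLast_cons_cons, List.dropLast_singleton,
    List.mem_cons, List.not_mem_nil, or_false, Bd] at hx ⊢
  all_goals first
    | omega
    | (have hk := k.2; omega)
    | (have hi := i.2; omega)

theorem tile (q : ℕ) : TDel (WLoc q) true (q + 6) (.inl (false, .b1)) :=
  ⟨mk (6 * (q : ℤ) + 19) (pos q) (route q) (cross q) (U q) (Lo q) (Bd q) wcode (kd q) (pos_inj q)
    (pos_mem q) (ne_nil q) (last q) (nodup q) (fam q) (bend q) (fun e _ => bend_mem q e) (Uone q)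
    (Lone q) (Utwo q) (Ltwo q) wcode_inj (bend_two q) (kd_two q) (hcross q), card_cross q⟩

end C1

/-! ### WC-b2: the edge `b2` of the left part deleted -/

namespace C2

/-- positions -/
def pos (q : ℕ) : Bool × WV q → ℤ
  | (false, .v1) => 2
  | (false, .v2) => 3
  | (false, .w) => 4
  | (false, .x i) => 4 * q + 17 + (i.1 : ℤ)
  | (true, .v1) => 3 * q + 11
  | (true, .v2) => 3 * q + 10
  | (true, .w) => 3 * q + 12
  | (true, .x i) => 3 * q + 9 - (i.1 : ℤ)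

/-- routes -/
def route (q : ℕ) : LE (WLoc q) true → List (Bool × ℤ)
  | .inl (false, .b1) => [(false, 3 * q + 13), (true, 3 * q + 14), (false, 6 * q + 19)]
  | .inl (false, .b2) => []
  | .inl (false, .eta) => [(true, 3)]
  | .inl (false, .sig) => [(true, 4)]
  | .inl (false, .s3) => chain true 4 (q + 3) ++ [(true, (4 * (q : ℤ) + 17))]
  | .inl (false, .leg k) => if k.1 % 2 = 0 ∧ k.1 ≠ 0 then [(false, 6 * q + 19)] else [(true, 0)]
  | .inl (false, .row i) => [(true, 4 * q + 18 + (i.1 : ℤ))]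
  | .inl (true, .b1) => [(false, 5), (true, 0)]
  | .inl (true, .b2) => [(false, 6), (true, 0)]
  | .inl (true, .eta) => [(true, 3 * q + 10)]
  | .inl (true, .sig) => [(true, 3 * q + 12)]
  | .inl (true, .s3) => [(true, 3 * q + 9)]
  | .inl (true, .leg k) => if k.1 % 2 = 0 ∧ k.1 ≠ 0 then [(false, 6 + ((k.1 / 2 : ℕ) : ℤ)), (true, 0)]
      else [(true, 3 * q + 15 + (((k.1 + 1) / 2 : ℕ) : ℤ)), (false, 6 * q + 19)]
  | .inl (true, .row i) => [(true, 3 * q + 8 - (i.1 : ℤ))]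
  | .inr (.inl false) => [(false, 1), (true, 4)]
  | .inr (.inl true) => [(true, 3 * q + 14), (false, 6 * q + 20)]
  | .inr (.inr ⟨false, _⟩) => [(false, 2)]
  | .inr (.inr ⟨true, _⟩) => [(false, 3 * q + 13), (false, 6 * q + 21)]

/-- upper chords -/
def U (q : ℕ) : LE (WLoc q) true → ℤ → ℤ → Prop
  | .inl (false, .b1), l, r => l = 3 * q + 13 ∧ r = 3 * q + 14
  | .inl (false, .b2), _, _ => False
  | .inl (false, .eta), l, r => l = 2 ∧ r = 3
  | .inl (false, .sig), l, r => l = 3 ∧ r = 4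
  | .inl (false, .s3), l, r => (4 ≤ l ∧ l < q + 7 ∧ r = l + 1) ∨ (l = q + 7 ∧ r = 4 * q + 17)
  | .inl (false, .leg k), l, r => (k.1 % 2 = 1 ∨ k.1 = 0) ∧ k.1 ≤ 2 * q + 1 ∧ l = 0 ∧
      r = 4 * q + 17 + (k.1 : ℤ)
  | .inl (false, .row i), l, r => i.1 ≤ 2 * q ∧ l = 4 * q + 17 + (i.1 : ℤ) ∧ r = l + 1
  | .inl (true, .b1), l, r => l = 0 ∧ r = 5
  | .inl (true, .b2), l, r => l = 0 ∧ r = 6
  | .inl (true, .eta), l, r => l = 3 * q + 10 ∧ r = 3 * q + 11
  | .inl (true, .sig), l, r => l = 3 * q + 10 ∧ r = 3 * q + 12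
  | .inl (true, .s3), l, r => l = 3 * q + 9 ∧ r = 3 * q + 12
  | .inl (true, .leg k), l, r =>
      (k.1 % 2 = 0 ∧ k.1 ≠ 0 ∧ k.1 ≤ 2 * q + 2 ∧ l = 0 ∧ r = 6 + ((k.1 / 2 : ℕ) : ℤ)) ∨
      ((k.1 % 2 = 1 ∨ k.1 = 0) ∧ k.1 ≤ 2 * q + 1 ∧ l = 3 * q + 9 - (k.1 : ℤ) ∧
        r = 3 * q + 15 + (((k.1 + 1) / 2 : ℕ) : ℤ))
  | .inl (true, .row i), l, r => i.1 ≤ 2 * q ∧ l = 3 * q + 8 - (i.1 : ℤ) ∧ r = l + 1
  | .inr (.inl false), l, r => l = 1 ∧ r = 4
  | .inr (.inl true), l, r => l = 3 * q + 12 ∧ r = 3 * q + 14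
  | .inr (.inr ⟨false, _⟩), _, _ => False
  | .inr (.inr ⟨true, _⟩), _, _ => False

/-- lower chords -/
def Lo (q : ℕ) : LE (WLoc q) true → ℤ → ℤ → Prop
  | .inl (false, .b1), l, r => (l = 2 ∧ r = 3 * q + 13) ∨ (l = 3 * q + 14 ∧ r = 6 * q + 19)
  | .inl (false, .b2), _, _ => False
  | .inl (false, .eta), _, _ => False
  | .inl (false, .sig), _, _ => False
  | .inl (false, .s3), _, _ => False
  | .inl (false, .leg k), l, r => k.1 % 2 = 0 ∧ k.1 ≠ 0 ∧ k.1 ≤ 2 * q + 2 ∧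
      l = 4 * q + 17 + ((min k.1 (2 * q + 1) : ℕ) : ℤ) ∧ r = 6 * q + 19
  | .inl (false, .row _), _, _ => False
  | .inl (true, .b1), l, r => l = 5 ∧ r = 3 * q + 11
  | .inl (true, .b2), l, r => l = 6 ∧ r = 3 * q + 10
  | .inl (true, .eta), _, _ => False
  | .inl (true, .sig), _, _ => False
  | .inl (true, .s3), _, _ => False
  | .inl (true, .leg k), l, r =>
      (k.1 % 2 = 0 ∧ k.1 ≠ 0 ∧ k.1 ≤ 2 * q + 2 ∧ l = 6 + ((k.1 / 2 : ℕ) : ℤ) ∧
        r = 3 * q + 9 - ((min k.1 (2 * q + 1) : ℕ) : ℤ)) ∨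
      ((k.1 % 2 = 1 ∨ k.1 = 0) ∧ k.1 ≤ 2 * q + 1 ∧ l = 3 * q + 15 + (((k.1 + 1) / 2 : ℕ) : ℤ) ∧
        r = 6 * q + 19)
  | .inl (true, .row _), _, _ => False
  | .inr (.inl false), l, r => l = -1 ∧ r = 1
  | .inr (.inl true), l, r => l = 3 * q + 14 ∧ r = 6 * q + 20
  | .inr (.inr ⟨false, _⟩), l, r => l = -2 ∧ r = 2
  | .inr (.inr ⟨true, _⟩), l, r => (l = 3 * q + 11 ∧ r = 3 * q + 13) ∨
      (l = 3 * q + 13 ∧ r = 6 * q + 21)

/-- bends -/
def Bd (q : ℕ) : LE (WLoc q) true → ℤ → Prop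
  | .inl (false, .b1), x => x = 3 * q + 13 ∨ x = 3 * q + 14
  | .inl (false, .b2), _ => False
  | .inl (false, .eta), _ => False
  | .inl (false, .sig), _ => False
  | .inl (false, .s3), x => 4 < x ∧ x ≤ q + 7
  | .inl (false, .leg _), _ => False
  | .inl (false, .row _), _ => False
  | .inl (true, .b1), x => x = 5
  | .inl (true, .b2), x => x = 6
  | .inl (true, .eta), _ => False
  | .inl (true, .sig), _ => False
  | .inl (true, .s3), _ => False
  | .inl (true, .leg k), x =>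
      (k.1 % 2 = 0 ∧ k.1 ≠ 0 ∧ k.1 ≤ 2 * q + 2 ∧ x = 6 + ((k.1 / 2 : ℕ) : ℤ)) ∨
      ((k.1 % 2 = 1 ∨ k.1 = 0) ∧ k.1 ≤ 2 * q + 1 ∧ x = 3 * q + 15 + (((k.1 + 1) / 2 : ℕ) : ℤ))
  | .inl (true, .row _), _ => False
  | .inr (.inl false), x => x = 1
  | .inr (.inl true), x => x = 3 * q + 14
  | .inr (.inr ⟨false, _⟩), _ => False
  | .inr (.inr ⟨true, _⟩), x => x = 3 * q + 13

/-- colours at the bends -/
def kd (q : ℕ) : LE (WLoc q) true → ℤ → ℤ
  | .inl (false, _), _ => 0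
  | .inl (true, _), _ => 1
  | .inr (.inl false), _ => 0
  | .inr (.inl true), _ => 1
  | .inr (.inr _), _ => 1

theorem pos_inj (q : ℕ) : Function.Injective (pos q) := by
  rintro ⟨_ | _, _ | _ | _ | i⟩ ⟨_ | _, _ | _ | _ | j⟩ h <;> simp only [pos] at h <;>
    first
    | rfl
    | (exfalso; have hi := i.2; have hj := j.2; omega)
    | (exfalso; have hi := i.2; omega)
    | (exfalso; have hj := j.2; omega)
    | (exfalso; omega)
    | (have hk : i = j := Fin.ext (by omega)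
       rw [hk])

theorem pos_mem (q : ℕ) : ∀ v, 0 < pos q v ∧ pos q v < 6 * q + 19 := by
  rintro ⟨_ | _, _ | _ | _ | i⟩ <;> simp only [pos] <;>
    first
    | omega
    | (have hi := i.2; omega)

theorem Utwo (q : ℕ) : ∀ e f l r l' r', U q e l r → U q f l' r' →
    ¬ (l < l' ∧ l' < r ∧ r < r') ∧ (l = l' → r = r' → wcode e = wcode f) := by
  intro e f l r l' r' h1 h2
  rcases e with ⟨_ | _, _ | _ | _ | _ | _ | k | i⟩ | ⟨_ | _⟩ | ⟨_ | _, _⟩ <;>
    simp only [U] at h1 <;>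
    rcases f with ⟨_ | _, _ | _ | _ | _ | _ | k' | i'⟩ | ⟨_ | _⟩ | ⟨_ | _, _⟩ <;>
    simp only [U] at h2 <;> refine ⟨by omega, fun h3 h4 => ?_⟩ <;>
    first | rfl | (simp only [wcode]; omega)

theorem Ltwo (q : ℕ) : ∀ e f l r l' r', Lo q e l r → Lo q f l' r' →
    ¬ (l < l' ∧ l' < r ∧ r < r') ∧ (l = l' → r = r' → wcode e = wcode f) := by
  intro e f l r l' r' h1 h2
  rcases e with ⟨_ | _, _ | _ | _ | _ | _ | k | i⟩ | ⟨_ | _⟩ | ⟨_ | _, _⟩ <;>
    simp only [Lo] at h1 <;>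
    rcases f with ⟨_ | _, _ | _ | _ | _ | _ | k' | i'⟩ | ⟨_ | _⟩ | ⟨_ | _, _⟩ <;>
    simp only [Lo] at h2 <;> refine ⟨by omega, fun h3 h4 => ?_⟩ <;>
    first | rfl | (simp only [wcode]; omega)

theorem bend_two (q : ℕ) : ∀ e f x, Bd q e x → Bd q f x → kd q e x = kd q f x →
    wcode e = wcode f := by
  intro e f x h1 h2 h3
  rcases e with ⟨_ | _, _ | _ | _ | _ | _ | k | i⟩ | ⟨_ | _⟩ | ⟨_ | _, _⟩ <;>
    simp only [Bd] at h1 <;>
    rcases f with ⟨_ | _, _ | _ | _ | _ | _ | k' | i'⟩ | ⟨_ | _⟩ | ⟨_ | _, _⟩ <;>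
    simp only [Bd] at h2 <;> simp only [kd] at h3 <;>
    first | rfl | (simp only [wcode]; omega) | omega

theorem kd_two (q : ℕ) : ∀ e x, Bd q e x → kd q e x = 0 ∨ kd q e x = 1 := by
  intro e x _
  rcases e with ⟨_ | _, _⟩ | ⟨_ | _⟩ | _ <;> simp [kd]

/-- the crossings -/
noncomputable def cross (q : ℕ) : Finset ℤ :=
  Finset.Icc 5 ((q : ℤ) + 7) ∪ {3 * (q : ℤ) + 13, 3 * (q : ℤ) + 14}

theorem hcross (q : ℕ) : ∀ e f x, Bd q e x → Bd q f x → wcode e ≠ wcode f → x ∈ cross q := by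
  intro e f x h1 h2 h3
  have key : (5 ≤ x ∧ x ≤ q + 7) ∨ (x = 3 * q + 13 ∨ x = 3 * q + 14) := by
    rcases e with ⟨_ | _, _ | _ | _ | _ | _ | k | i⟩ | ⟨_ | _⟩ | ⟨_ | _, _⟩ <;>
      simp only [Bd] at h1 <;>
      rcases f with ⟨_ | _, _ | _ | _ | _ | _ | k' | i'⟩ | ⟨_ | _⟩ | ⟨_ | _, _⟩ <;>
      simp only [Bd] at h2 <;> simp only [wcode] at h3 <;> omega
  unfold cross
  rw [Finset.mem_union, Finset.mem_Icc, Finset.mem_insert, Finset.mem_singleton]
  exact key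

theorem card_cross (q : ℕ) : (cross q).card + 1 ≤ q + 6 := by
  unfold cross
  have h1 := Finset.card_union_le (Finset.Icc (5 : ℤ) ((q : ℤ) + 7))
    {3 * (q : ℤ) + 13, 3 * (q : ℤ) + 14}
  have h2 := Finset.card_insert_le (3 * (q : ℤ) + 13) ({3 * (q : ℤ) + 14} : Finset ℤ)
  rw [Finset.card_singleton] at h2
  rw [Int.card_Icc] at h1
  omega

theorem Uone (q : ℕ) : ∀ e l r, U q e l r → 0 ≤ l ∧ r ≤ 6 * q + 19 ∧
    ((0 < l ∧ l < 6 * (q : ℤ) + 19) ∨ (0 < r ∧ r < 6 * (q : ℤ) + 19)) := by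
  intro e l r h1
  rcases e with ⟨_ | _, _ | _ | _ | _ | _ | k | i⟩ | ⟨_ | _⟩ | ⟨_ | _, _⟩ <;>
    simp only [U] at h1 <;> omega

theorem Lone (q : ℕ) : ∀ e l r, Lo q e l r →
    ((0 < l ∧ l < 6 * (q : ℤ) + 19) ∨ (0 < r ∧ r < 6 * (q : ℤ) + 19)) := by
  intro e l r h1
  rcases e with ⟨_ | _, _ | _ | _ | _ | _ | k | i⟩ | ⟨_ | _⟩ | ⟨_ | _, _⟩ <;>
    simp only [Lo] at h1 <;> omega

theorem bend_mem (q : ℕ) : ∀ e x, Bd q e x → (0 < x ∧ x < 6 * (q : ℤ) + 19) ∧ ∀ v, x ≠ pos q v := by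
  intro e x h1
  constructor
  · rcases e with ⟨_ | _, _ | _ | _ | _ | _ | k | i⟩ | ⟨_ | _⟩ | ⟨_ | _, _⟩ <;>
      simp only [Bd] at h1 <;> omega
  · rintro ⟨_ | _, _ | _ | _ | j⟩ <;> simp only [pos] <;>
      rcases e with ⟨_ | _, _ | _ | _ | _ | _ | k | i⟩ | ⟨_ | _⟩ | ⟨_ | _, _⟩ <;>
      simp only [Bd] at h1 <;>
      first
      | omega
      | (have hj := j.2; omega)

end C2

namespace C2

/-- starting positions -/
def st (q : ℕ) : LE (WLoc q) true → ℤ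
  | .inl (false, .b1) => 2
  | .inl (false, .b2) => 3
  | .inl (false, .eta) => 2
  | .inl (false, .sig) => 3
  | .inl (false, .s3) => 4
  | .inl (false, .leg k) => 4 * q + 17 + ((min k.1 (2 * q + 1) : ℕ) : ℤ)
  | .inl (false, .row i) => 4 * q + 17 + (i.1 : ℤ)
  | .inl (true, .b1) => 3 * q + 11
  | .inl (true, .b2) => 3 * q + 10
  | .inl (true, .eta) => 3 * q + 11
  | .inl (true, .sig) => 3 * q + 10
  | .inl (true, .s3) => 3 * q + 12
  | .inl (true, .leg k) => 3 * q + 9 - ((min k.1 (2 * q + 1) : ℕ) : ℤ)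
  | .inl (true, .row i) => 3 * q + 9 - (i.1 : ℤ)
  | .inr (.inl false) => -1
  | .inr (.inl true) => 3 * q + 12
  | .inr (.inr ⟨false, _⟩) => -2
  | .inr (.inr ⟨true, _⟩) => 3 * q + 11

theorem tA_eq (q : ℕ) (e : LE (WLoc q) true) : tA (6 * (q : ℤ) + 19) (pos q) e = st q e := by
  rcases e with ⟨_ | _, _ | _ | _ | _ | _ | k | i⟩ | ⟨_ | _⟩ | ⟨_ | _, _⟩ <;> rfl

theorem ne_nil (q : ℕ) (e : LE (WLoc q) true) (he : e ≠ .inl (false, .b2)) : route q e ≠ [] := by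
  rcases e with ⟨_ | _, _ | _ | _ | _ | _ | k | i⟩ | ⟨_ | _⟩ | ⟨_ | _, _⟩ <;>
    simp only [route] <;>
    first
    | exact absurd rfl he
    | exact List.cons_ne_nil _ _
    | (split_ifs <;> exact List.cons_ne_nil _ _)
    | simp

theorem last (q : ℕ) (e : LE (WLoc q) true) (he : e ≠ .inl (false, .b2)) :
    ((route q e).map Prod.snd).getLast? = some (tB (6 * (q : ℤ) + 19) (pos q) e) := by
  rcases e with ⟨_ | _, _ | _ | _ | _ | _ | k | i⟩ | ⟨_ | _⟩ | ⟨_ | _, _⟩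
  · rfl
  · exact absurd rfl he
  · rfl
  · rfl
  · simp only [route, List.map_append, List.getLast?_append, List.map_cons, List.map_nil,
      List.getLast?_singleton, Option.some_or]
    simp [tB, ePos, WLoc, pos]
  · rw [tB_leg]
    simp only [route]
    split_ifs <;> first | rfl | contradiction
  · simp [route, tB, ePos, WLoc, pos]
    ring
  · rfl
  · rfl
  · rfl
  · rfl
  · simp [route, tB, ePos, WLoc, pos]
  · rw [tB_leg]
    simp only [route]
    split_ifs <;> first | rfl | contradiction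
  · simp [route, tB, ePos, WLoc, pos]
    ring
  · rfl
  · rfl
  · rfl
  · rfl

theorem nodup (q : ℕ) (e : LE (WLoc q) true) (he : e ≠ .inl (false, .b2)) :
    (tA (6 * (q : ℤ) + 19) (pos q) e :: (route q e).map Prod.snd).Nodup := by
  rw [tA_eq]
  rcases e with ⟨_ | _, _ | _ | _ | _ | _ | k | i⟩ | ⟨_ | _⟩ | ⟨_ | _, _⟩
  all_goals try exact absurd rfl he
  all_goals simp only [route, st]
  on_goal 4 =>
    rw [List.nodup_cons, List.map_append, List.nodup_append, List.mem_append, mem_chain]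
    refine ⟨?_, chain_nodup _ _, List.nodup_singleton _, ?_⟩
    · simp only [List.map_cons, List.map_nil, List.mem_singleton]
      omega
    · intro a ha c hc
      rw [mem_chain] at ha
      simp only [List.map_cons, List.map_nil, List.mem_singleton] at hc
      push_cast at ha
      omega
  all_goals try split_ifs
  all_goals simp only [List.map_cons, List.map_nil, List.nodup_cons, List.mem_cons,
    List.not_mem_nil, List.nodup_nil, or_false, not_false_eq_true, and_true]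
  all_goals first
    | omega
    | (have hk := k.2; omega)
    | (have hi := i.2; omega)

theorem fam (q : ℕ) (e : LE (WLoc q) true) (he : e ≠ .inl (false, .b2)) :
    ∀ p ∈ arcsOf (tA (6 * (q : ℤ) + 19) (pos q) e) (route q e),
      (p.1 = true → U q e (min p.2.1 p.2.2) (max p.2.1 p.2.2)) ∧
      (p.1 = false → Lo q e (min p.2.1 p.2.2) (max p.2.1 p.2.2)) := by
  rintro ⟨p1, p2, p3⟩ hp
  rw [tA_eq] at hp
  rcases e with ⟨_ | _, _ | _ | _ | _ | _ | k | i⟩ | ⟨_ | _⟩ | ⟨_ | _, _⟩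
  all_goals try exact absurd rfl he
  all_goals simp only [route, st] at hp
  on_goal 4 => rw [mem_arcs_chain] at hp
  all_goals try split_ifs at hp
  all_goals simp only [arcsOf, List.mem_cons, List.not_mem_nil, or_false, Prod.mk.injEq] at hp
  all_goals rcases p1 with _ | _
  all_goals simp only [Bool.false_eq_true, Bool.true_eq_false, false_and, true_and, false_or,
    or_false, forall_const, false_implies, and_true, U, Lo] at hp ⊢
  all_goals first
    | omega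
    | (have hk := k.2; omega)
    | (have hi := i.2; omega)

theorem bend (q : ℕ) (e : LE (WLoc q) true) (he : e ≠ .inl (false, .b2)) :
    ∀ x ∈ ((route q e).map Prod.snd).dropLast, Bd q e x := by
  intro x hx
  rcases e with ⟨_ | _, _ | _ | _ | _ | _ | k | i⟩ | ⟨_ | _⟩ | ⟨_ | _, _⟩
  all_goals try exact absurd rfl he
  all_goals simp only [route] at hx
  on_goal 4 =>
    rw [chain_dropLast _ _ (List.cons_ne_nil _ _), List.mem_append, mem_chain] at hx
  all_goals try split_ifs at hx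
  all_goals simp only [List.map_cons, List.map_nil, List.dropLast_cons_cons, List.dropLast_singleton,
    List.mem_cons, List.not_mem_nil, or_false, Bd] at hx ⊢
  all_goals first
    | omega
    | (have hk := k.2; omega)
    | (have hi := i.2; omega)

theorem tile (q : ℕ) : TDel (WLoc q) true (q + 6) (.inl (false, .b2)) :=
  ⟨mk (6 * (q : ℤ) + 19) (pos q) (route q) (cross q) (U q) (Lo q) (Bd q) wcode (kd q) (pos_inj q)
    (pos_mem q) (ne_nil q) (last q) (nodup q) (fam q) (bend q) (fun e _ => bend_mem q e) (Uone q)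
    (Lone q) (Utwo q) (Ltwo q) wcode_inj (bend_two q) (kd_two q) (hcross q), card_cross q⟩

end C2

end FCW5

open FCW5 in
/-- WC-b1 -/
theorem tdel_b1 (q : ℕ) : TDel (WLoc q) true (q + 6) (.inl (false, .b1)) := C1.tile q

open FCW5 in
/-- WC-b2 -/
theorem tdel_b2 (q : ℕ) : TDel (WLoc q) true (q + 6) (.inl (false, .b2)) := C2.tile q

end Pool.Agent.CC
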