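import Pool.Agent.Lib_helper74.CCF.Tile

/-!
# The drawing WD of the tile `W`: all legs to `A` of the left part are crossed

Order: `A | c_(q+1), ..., c_0, v2', v1', w', g1, g3, g2, g4, w, v1, v2, x_0, ..., x_m, x'_0, ...,
x'_m | B`, `m = 2q+1`.
-/

set_option autoImplicit false
set_option linter.unusedSimpArgs false

namespace Pool.Agent.CC

open Gph

namespace FC67

/-! ### tiles from families of chords -/

/-- A tile from families of chords: `tag` is injective on the edges, `Ch u t l r`: on the side `u`
the edge with tag `t` has an arc with ends `l ≤ r`; `Bd t x`: the edge with tag `t` bends at `x`. -/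
def mkT {L : Loc} {c : Bool} {keep : LE L c → Prop} (b : ℤ) (pos : L.V → ℤ)
    (route : LE L c → List (Bool × ℤ)) (cross : Finset ℤ) (tag : LE L c → ℤ)
    (Ch : Bool → ℤ → ℤ → ℤ → Prop) (Bd : ℤ → ℤ → Prop)
    (pos_inj : Function.Injective pos) (pos_mem : ∀ v, 0 < pos v ∧ pos v < b)
    (tag_inj : Function.Injective tag)
    (ne_nil : ∀ e, keep e → route e ≠ [])
    (last : ∀ e, keep e → ((route e).map Prod.snd).getLast? = some (tB b pos e))
    (nodup : ∀ e, keep e → (tA b pos e :: (route e).map Prod.snd).Nodup)
    (arcs : ∀ e, keep e → ∀ p ∈ arcsOf (tA b pos e) (route e),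
      Ch p.1 (tag e) (min p.2.1 p.2.2) (max p.2.1 p.2.2))
    (bend : ∀ e, keep e → ∀ x ∈ ((route e).map Prod.snd).dropLast, Bd (tag e) x)
    (npl : ∀ u t l r t' l' r', Ch u t l r → Ch u t' l' r' → ¬ (l < l' ∧ l' < r ∧ r < r'))
    (dist : ∀ u t l r t', Ch u t l r → Ch u t' l r → t = t')
    (up : ∀ t l r, Ch true t l r → 0 ≤ l ∧ r ≤ b)
    (loc : ∀ u t l r, Ch u t l r → (0 < l ∧ l < b) ∨ (0 < r ∧ r < b))
    (bd_mem : ∀ t x, Bd t x → 0 < x ∧ x < b)
    (bd_ne : ∀ t x, Bd t x → ∀ v, x ≠ pos v)
    (bd3 : ∀ t t' t'' x, Bd t x → Bd t' x → Bd t'' x → t = t' ∨ t = t'' ∨ t' = t'')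
    (bdc : ∀ t t' x, Bd t x → Bd t' x → t ≠ t' → x ∈ cross) : TLay L c keep where
  b := b
  pos := pos
  route := route
  cross := cross
  pos_inj := pos_inj
  pos_mem := pos_mem
  ne_nil := ne_nil
  last := last
  nodup := nodup
  bend_mem e he x hx := bd_mem _ _ (bend e he x hx)
  bend_ne e he x hx := bd_ne _ _ (bend e he x hx)
  planar e f he hf p hp r hr hpr := by
    have h1 := arcs e he p hp
    have h2 := arcs f hf r hr
    rw [← hpr] at h2
    rintro (h | h)
    · exact npl _ _ _ _ _ _ _ h1 h2 h
    · exact npl _ _ _ _ _ _ _ h2 h1 h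
  distinct e f he hf hef p hp r hr hpr h := by
    have h1 := arcs e he p hp
    have h2 := arcs f hf r hr
    have h3 : min p.2.1 p.2.2 = min r.2.1 r.2.2 ∧ max p.2.1 p.2.2 = max r.2.1 r.2.2 := by
      rcases Sym2.eq_iff.1 h with ⟨h4, h5⟩ | ⟨h4, h5⟩
      · rw [h4, h5]; exact ⟨rfl, rfl⟩
      · rw [h4, h5]; exact ⟨min_comm _ _, max_comm _ _⟩
    rw [← hpr, ← h3.1, ← h3.2] at h2
    exact hef (tag_inj (dist _ _ _ _ _ h1 h2))
  no_three e f g he hf hg hef heg hfg x h1 h2 h3 := by
    rcases bd3 _ _ _ x (bend e he x h1) (bend f hf x h2) (bend g hg x h3) with h | h | h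
    · exact hef (tag_inj h)
    · exact heg (tag_inj h)
    · exact hfg (tag_inj h)
  upper e he p hp h1 := by
    have h2 := arcs e he p hp
    rw [h1] at h2
    have h3 := up _ _ _ h2
    have h4 := min_le_left p.2.1 p.2.2
    have h5 := min_le_right p.2.1 p.2.2
    have h6 := le_max_left p.2.1 p.2.2
    have h7 := le_max_right p.2.1 p.2.2
    omega
  loc e he p hp := by
    have h2 := loc _ _ _ _ (arcs e he p hp)
    rcases le_total p.2.1 p.2.2 with h | h
    · rwa [min_eq_left h, max_eq_right h] at h2
    · rw [min_eq_right h, max_eq_left h] at h2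
      exact h2.symm
  hcross e f he hf hef x h1 h2 :=
    bdc _ _ x (bend e he x h1) (bend f hf x h2) fun h => hef (tag_inj h)

/-! ### the descending chain -/

/-- `n, n-1, ..., 1` -/
def dch : ℕ → List (Bool × ℤ)
  | 0 => []
  | n + 1 => (true, (n : ℤ) + 1) :: dch n

theorem mem_dch {x : ℤ} : ∀ {n : ℕ}, x ∈ (dch n).map Prod.snd ↔ 1 ≤ x ∧ x ≤ n
  | 0 => by
    simp only [dch, List.map_nil, List.not_mem_nil, Nat.cast_zero, false_iff]
    omega
  | n + 1 => by
    simp only [dch, List.map_cons, List.mem_cons, mem_dch (n := n), Nat.cast_add, Nat.cast_one]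
    omega

theorem dch_nodup : ∀ n : ℕ, ((dch n).map Prod.snd).Nodup
  | 0 => by simp [dch]
  | n + 1 => by
    simp only [dch, List.map_cons, List.nodup_cons, mem_dch]
    exact ⟨by omega, dch_nodup n⟩

theorem mem_arcs_dch {y : ℤ} {p : Bool × ℤ × ℤ} : ∀ {n : ℕ},
    p ∈ arcsOf ((n : ℤ) + 1) (dch n ++ [(true, y)]) →
      p.1 = true ∧ ((1 ≤ p.2.2 ∧ p.2.2 ≤ n ∧ p.2.1 = p.2.2 + 1) ∨ (p.2.1 = 1 ∧ p.2.2 = y))
  | 0, h => by
    simp only [dch, List.nil_append, arcsOf, List.mem_singleton, Nat.cast_zero, zero_add] at h
    subst h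
    exact ⟨rfl, .inr ⟨rfl, rfl⟩⟩
  | n + 1, h => by
    simp only [dch, List.cons_append, arcsOf, List.mem_cons, Nat.cast_add, Nat.cast_one] at h
    rcases h with rfl | h
    · refine ⟨rfl, .inl ⟨?_, ?_, rfl⟩⟩
      · change (1 : ℤ) ≤ (n : ℤ) + 1
        omega
      · change (n : ℤ) + 1 ≤ ((n + 1 : ℕ) : ℤ)
        push_cast
        omega
    · obtain ⟨h1, h2⟩ := mem_arcs_dch h
      refine ⟨h1, ?_⟩
      simp only [Nat.cast_add, Nat.cast_one]
      omega

namespace WD

variable (q : ℕ)

/-- positions -/
def pos : (WLoc q).V → ℤ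
  | (false, .w) => q + 10
  | (false, .v1) => q + 11
  | (false, .v2) => q + 12
  | (false, .x i) => q + 13 + i.1
  | (true, .v2) => q + 3
  | (true, .v1) => q + 4
  | (true, .w) => q + 5
  | (true, .x i) => 3 * q + 15 + i.1

/-- the position of `B` -/
def b : ℤ := 5 * q + 17

/-- routes -/
def route : LE (WLoc q) true → List (Bool × ℤ)
  | .inl (false, .b1) => [(false, b q)]
  | .inl (false, .b2) => [(false, b q)]
  | .inl (false, .eta) => [(true, q + 12)]
  | .inl (false, .sig) => [(true, q + 10)]
  | .inl (false, .s3) => [(true, q + 13)]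
  | .inl (false, .leg k) => if k.1 % 2 = 0 ∧ k.1 ≠ 0 then [(false, b q)]
      else [(true, q + 2 - (k.1 + 1) / 2), (false, 0)]
  | .inl (false, .row i) => [(true, q + 14 + i.1)]
  | .inl (true, .b1) => [(false, 0)]
  | .inl (true, .b2) => [(false, 0)]
  | .inl (true, .eta) => [(true, q + 3)]
  | .inl (true, .sig) => [(true, q + 5)]
  | .inl (true, .s3) => dch (q + 2) ++ [(true, (3 * q + 15 : ℤ))]
  | .inl (true, .leg k) => if k.1 % 2 = 0 ∧ k.1 ≠ 0 then [(true, 0)] else [(false, b q)]
  | .inl (true, .row i) => [(true, 3 * q + 16 + i.1)]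
  | .inr (.inl false) => [(false, q + 6), (true, q + 8), (true, q + 10)]
  | .inr (.inl true) => [(true, q + 8), (false, q + 9), (false, b q + 1)]
  | .inr (.inr ⟨false, _⟩) => [(false, q + 7), (false, q + 9), (false, q + 11)]
  | .inr (.inr ⟨true, _⟩) => [(false, q + 6), (false, q + 7), (false, b q + 2)]

/-- tags -/
def tag : LE (WLoc q) true → ℤ
  | .inl (false, .b1) => 0
  | .inl (false, .b2) => 1
  | .inl (false, .eta) => 2
  | .inl (false, .sig) => 3
  | .inl (false, .s3) => 4
  | .inl (false, .leg k) => 20 + 4 * k.1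
  | .inl (false, .row i) => 21 + 4 * i.1
  | .inl (true, .b1) => 5
  | .inl (true, .b2) => 6
  | .inl (true, .eta) => 7
  | .inl (true, .sig) => 8
  | .inl (true, .s3) => 9
  | .inl (true, .leg k) => 22 + 4 * k.1
  | .inl (true, .row i) => 23 + 4 * i.1
  | .inr (.inl false) => 10
  | .inr (.inl true) => 11
  | .inr (.inr ⟨false, _⟩) => 12
  | .inr (.inr ⟨true, _⟩) => 13

/-- upper arcs -/
inductive Up (q t l r : ℤ) : Prop
  | eta (ht : t = 2) (hl : l = q + 11) (hr : r = q + 12)
  | sig (ht : t = 3) (hl : l = q + 10) (hr : r = q + 12)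
  | s3 (ht : t = 4) (hl : l = q + 10) (hr : r = q + 13)
  | aleg (k : ℤ) (ht : t = 20 + 4 * k) (h0 : 0 ≤ k) (hk : k ≤ 2 * q + 1) (hp : k = 0 ∨ k % 2 = 1)
      (hl : l = q + 2 - (k + 1) / 2) (hr : r = q + 13 + k)
  | row (i : ℤ) (ht : t = 21 + 4 * i) (h0 : 0 ≤ i) (hk : i ≤ 2 * q) (hl : l = q + 13 + i)
      (hr : r = q + 14 + i)
  | eta' (ht : t = 7) (hl : l = q + 3) (hr : r = q + 4)
  | sig' (ht : t = 8) (hl : l = q + 3) (hr : r = q + 5)
  | s3a (ht : t = 9) (hl : l = q + 2) (hr : r = q + 5)
  | s3b (ht : t = 9) (hl : 1 ≤ l) (hl' : l ≤ q + 1) (hr : r = l + 1)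
  | s3c (ht : t = 9) (hl : l = 1) (hr : r = 3 * q + 15)
  | aleg' (k : ℤ) (ht : t = 22 + 4 * k) (h0 : 2 ≤ k) (hk : k ≤ 2 * q + 2) (hp : k % 2 = 0)
      (hl : l = 0) (hr : r = 3 * q + 15 + min k (2 * q + 1))
  | row' (i : ℤ) (ht : t = 23 + 4 * i) (h0 : 0 ≤ i) (hk : i ≤ 2 * q) (hl : l = 3 * q + 15 + i)
      (hr : r = 3 * q + 16 + i)
  | rin1 (ht : t = 10) (hl : l = q + 6) (hr : r = q + 8)
  | rin2 (ht : t = 10) (hl : l = q + 8) (hr : r = q + 10)
  | rout (ht : t = 11) (hl : l = q + 5) (hr : r = q + 8)

/-- lower arcs -/
inductive Lo (q t l r : ℤ) : Prop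
  | b1 (ht : t = 0) (hl : l = q + 11) (hr : r = 5 * q + 17)
  | b2 (ht : t = 1) (hl : l = q + 12) (hr : r = 5 * q + 17)
  | bleg (k : ℤ) (ht : t = 20 + 4 * k) (h0 : 2 ≤ k) (hk : k ≤ 2 * q + 2) (hp : k % 2 = 0)
      (hl : l = q + 13 + min k (2 * q + 1)) (hr : r = 5 * q + 17)
  | aleg (k : ℤ) (ht : t = 20 + 4 * k) (h0 : 0 ≤ k) (hk : k ≤ 2 * q + 1) (hp : k = 0 ∨ k % 2 = 1)
      (hl : l = 0) (hr : r = q + 2 - (k + 1) / 2)
  | b1' (ht : t = 5) (hl : l = 0) (hr : r = q + 4)
  | b2' (ht : t = 6) (hl : l = 0) (hr : r = q + 3)
  | bleg' (k : ℤ) (ht : t = 22 + 4 * k) (h0 : 0 ≤ k) (hk : k ≤ 2 * q + 1) (hp : k = 0 ∨ k % 2 = 1)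
      (hl : l = 3 * q + 15 + k) (hr : r = 5 * q + 17)
  | rin (ht : t = 10) (hl : l = -1) (hr : r = q + 6)
  | rout1 (ht : t = 11) (hl : l = q + 8) (hr : r = q + 9)
  | rout2 (ht : t = 11) (hl : l = q + 9) (hr : r = 5 * q + 18)
  | byin1 (ht : t = 12) (hl : l = -2) (hr : r = q + 7)
  | byin2 (ht : t = 12) (hl : l = q + 7) (hr : r = q + 9)
  | byin3 (ht : t = 12) (hl : l = q + 9) (hr : r = q + 11)
  | byout1 (ht : t = 13) (hl : l = q + 4) (hr : r = q + 6)
  | byout2 (ht : t = 13) (hl : l = q + 6) (hr : r = q + 7)
  | byout3 (ht : t = 13) (hl : l = q + 7) (hr : r = 5 * q + 19)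

/-- bends -/
inductive Bd (q t x : ℤ) : Prop
  | aleg (k : ℤ) (ht : t = 20 + 4 * k) (h0 : 0 ≤ k) (hk : k ≤ 2 * q + 1) (hp : k = 0 ∨ k % 2 = 1)
      (hx : x = q + 2 - (k + 1) / 2)
  | s3 (ht : t = 9) (h1 : 1 ≤ x) (h2 : x ≤ q + 2)
  | rin (ht : t = 10) (hx : x = q + 6 ∨ x = q + 8)
  | rout (ht : t = 11) (hx : x = q + 8 ∨ x = q + 9)
  | byin (ht : t = 12) (hx : x = q + 7 ∨ x = q + 9)
  | byout (ht : t = 13) (hx : x = q + 6 ∨ x = q + 7)

/-- all arcs -/
def Ch (q : ℤ) (u : Bool) (t l r : ℤ) : Prop := if u then Up q t l r else Lo q t l r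

theorem up_npl {q t l r t' l' r' : ℤ} (h0 : 0 ≤ q) (h : Up q t l r) (h' : Up q t' l' r') :
    ¬ (l < l' ∧ l' < r ∧ r < r') := by
  cases h <;> cases h' <;> omega

theorem lo_npl {q t l r t' l' r' : ℤ} (h0 : 0 ≤ q) (h : Lo q t l r) (h' : Lo q t' l' r') :
    ¬ (l < l' ∧ l' < r ∧ r < r') := by
  cases h <;> cases h' <;> omega

theorem up_dist {q t l r t' : ℤ} (h0 : 0 ≤ q) (h : Up q t l r) (h' : Up q t' l r) : t = t' := by
  cases h <;> cases h' <;> omega

theorem lo_dist {q t l r t' : ℤ} (h0 : 0 ≤ q) (h : Lo q t l r) (h' : Lo q t' l r) : t = t' := by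
  cases h <;> cases h' <;> omega

theorem pos_inj : Function.Injective (pos q) := by
  rintro ⟨s, v⟩ ⟨s', v'⟩ h
  cases s <;> cases s' <;> cases v <;> cases v' <;> simp only [pos] at h <;>
    first
    | rfl
    | (exfalso; omega)
    | (congr 2; exact Fin.ext (by omega))

theorem pos_mem (v : (WLoc q).V) : 0 < pos q v ∧ pos q v < b q := by
  obtain ⟨s, v⟩ := v
  cases s <;> cases v <;> simp only [pos, b] <;> omega

theorem tag_inj : Function.Injective (tag q) := by
  rintro (⟨s, e⟩ | s | ⟨s, h⟩) (⟨s', e'⟩ | s' | ⟨s', h'⟩) he <;> cases s <;> cases s' <;>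
    (try cases e) <;> (try cases e') <;> simp only [tag] at he <;>
    first
    | rfl
    | (exfalso; omega)
    | (congr 3; exact Fin.ext (by omega))

theorem arcs (e : LE (WLoc q) true) : ∀ p ∈ arcsOf (tA (b q) (pos q) e) (route q e),
    Ch q p.1 (tag q e) (min p.2.1 p.2.2) (max p.2.1 p.2.2) := by
  rcases e with ⟨s, e⟩ | s | ⟨s, h⟩
  · cases s
    · cases e with
      | b1 =>
        simp only [route, tA, ePos, WLoc, pos, arcsOf, List.mem_singleton, forall_eq, tag, Ch, b]
        exact Lo.b1 rfl (by omega) (by omega)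
      | b2 =>
        simp only [route, tA, ePos, WLoc, pos, arcsOf, List.mem_singleton, forall_eq, tag, Ch, b]
        exact Lo.b2 rfl (by omega) (by omega)
      | eta =>
        simp only [route, tA, ePos, WLoc, pos, arcsOf, List.mem_singleton, forall_eq, tag, Ch, b]
        exact Up.eta rfl (by omega) (by omega)
      | sig =>
        simp only [route, tA, ePos, WLoc, pos, arcsOf, List.mem_singleton, forall_eq, tag, Ch, b]
        exact Up.sig rfl (by omega) (by omega)
      | s3 =>
        simp only [route, tA, ePos, WLoc, pos, arcsOf, List.mem_singleton, forall_eq, tag, Ch, b]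
        exact Up.s3 rfl (by omega) (by omega)
      | leg k =>
        have hk := k.2
        by_cases h : k.1 % 2 = 0 ∧ k.1 ≠ 0
        · simp only [route, tA, ePos, WLoc, pos, arcsOf, List.mem_singleton, forall_eq, tag, Ch, b,
            if_pos h]
          exact Lo.bleg k.1 rfl (by omega) (by omega) (by omega) (by omega) (by omega)
        · simp only [route, tA, ePos, WLoc, pos, arcsOf, List.mem_cons, List.not_mem_nil, or_false,
            forall_eq_or_imp, forall_eq, tag, Ch, b, if_neg h]
          refine ⟨Up.aleg k.1 rfl (by omega) (by omega) (by omega) (by omega) (by omega),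
            Lo.aleg k.1 rfl (by omega) (by omega) (by omega) (by omega) (by omega)⟩
      | row i =>
        have hi := i.2
        simp only [route, tA, ePos, WLoc, pos, arcsOf, List.mem_singleton, forall_eq, tag, Ch, b]
        exact Up.row i.1 rfl (by omega) (by omega) (by omega) (by omega)
    · cases e with
      | b1 =>
        simp only [route, tA, ePos, WLoc, pos, arcsOf, List.mem_singleton, forall_eq, tag, Ch, b]
        exact Lo.b1' rfl (by omega) (by omega)
      | b2 =>
        simp only [route, tA, ePos, WLoc, pos, arcsOf, List.mem_singleton, forall_eq, tag, Ch, b]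
        exact Lo.b2' rfl (by omega) (by omega)
      | eta =>
        simp only [route, tA, ePos, WLoc, pos, arcsOf, List.mem_singleton, forall_eq, tag, Ch, b]
        exact Up.eta' rfl (by omega) (by omega)
      | sig =>
        simp only [route, tA, ePos, WLoc, pos, arcsOf, List.mem_singleton, forall_eq, tag, Ch, b]
        exact Up.sig' rfl (by omega) (by omega)
      | s3 =>
        intro p hp
        have h1 : arcsOf (tA (L := WLoc q) (c := true) (b q) (pos q) (.inl (true, .s3)))
            (route q (.inl (true, .s3))) =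
            (true, (q : ℤ) + 5, (q : ℤ) + 2) ::
              arcsOf (((q + 1 : ℕ) : ℤ) + 1) (dch (q + 1) ++ [(true, (3 * q + 15 : ℤ))]) := by
          simp only [route, tA, ePos, WLoc, pos, dch, List.cons_append, arcsOf]
          push_cast
          rw [show (q : ℤ) + 1 + 1 = q + 2 by ring]
        rw [h1, List.mem_cons] at hp
        rcases hp with rfl | hp
        · exact Up.s3a rfl (by simp only; omega) (by simp only; omega)
        · obtain ⟨h2, h3⟩ := mem_arcs_dch hp
          have h4 : Ch q p.1 (tag q (.inl (true, .s3))) (min p.2.1 p.2.2) (max p.2.1 p.2.2) =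
              Up q 9 (min p.2.1 p.2.2) (max p.2.1 p.2.2) := by
            rw [h2]; rfl
          rw [h4]
          push_cast at h3
          rcases h3 with h3 | h3
          · exact Up.s3b rfl (by omega) (by omega) (by omega)
          · exact Up.s3c rfl (by omega) (by omega)
      | leg k =>
        have hk := k.2
        by_cases h : k.1 % 2 = 0 ∧ k.1 ≠ 0
        · simp only [route, tA, ePos, WLoc, pos, arcsOf, List.mem_singleton, forall_eq, tag, Ch, b,
            if_pos h]
          exact Up.aleg' k.1 rfl (by omega) (by omega) (by omega) (by omega) (by omega)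
        · simp only [route, tA, ePos, WLoc, pos, arcsOf, List.mem_singleton, forall_eq, tag, Ch, b,
            if_neg h]
          exact Lo.bleg' k.1 rfl (by omega) (by omega) (by omega) (by omega) (by omega)
      | row i =>
        have hi := i.2
        simp only [route, tA, ePos, WLoc, pos, arcsOf, List.mem_singleton, forall_eq, tag, Ch, b]
        exact Up.row' i.1 rfl (by omega) (by omega) (by omega) (by omega)
  · cases s
    · simp only [route, tA, WLoc, pos, arcsOf, List.mem_cons, List.not_mem_nil, or_false,
        forall_eq_or_imp, forall_eq, tag, Ch, b]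
      exact ⟨Lo.rin rfl (by omega) (by omega), Up.rin1 rfl (by omega) (by omega),
        Up.rin2 rfl (by omega) (by omega)⟩
    · simp only [route, tA, WLoc, pos, arcsOf, List.mem_cons, List.not_mem_nil, or_false,
        forall_eq_or_imp, forall_eq, tag, Ch, b]
      exact ⟨Up.rout rfl (by omega) (by omega), Lo.rout1 rfl (by omega) (by omega),
        Lo.rout2 rfl (by omega) (by omega)⟩
  · cases s
    · simp only [route, tA, WLoc, pos, arcsOf, List.mem_cons, List.not_mem_nil, or_false,
        forall_eq_or_imp, forall_eq, tag, Ch, b]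
      exact ⟨Lo.byin1 rfl (by omega) (by omega), Lo.byin2 rfl (by omega) (by omega),
        Lo.byin3 rfl (by omega) (by omega)⟩
    · simp only [route, tA, WLoc, pos, arcsOf, List.mem_cons, List.not_mem_nil, or_false,
        forall_eq_or_imp, forall_eq, tag, Ch, b]
      exact ⟨Lo.byout1 rfl (by omega) (by omega), Lo.byout2 rfl (by omega) (by omega),
        Lo.byout3 rfl (by omega) (by omega)⟩

theorem bend (e : LE (WLoc q) true) : ∀ x ∈ ((route q e).map Prod.snd).dropLast,
    Bd q (tag q e) x := by
  rcases e with ⟨s, e⟩ | s | ⟨s, h⟩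
  · cases s
    · cases e with
      | leg k =>
        have hk := k.2
        by_cases h : k.1 % 2 = 0 ∧ k.1 ≠ 0
        · intro x hx
          simp only [route, if_pos h, List.map_cons, List.map_nil, List.dropLast_singleton,
            List.not_mem_nil] at hx
        · simp only [route, if_neg h, List.map_cons, List.map_nil, List.dropLast_cons_cons,
            List.dropLast_singleton, List.mem_singleton, forall_eq, tag]
          exact Bd.aleg k.1 rfl (by omega) (by omega) (by omega) (by omega)
      | _ => intro x hx; simp [route] at hx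
    · cases e with
      | leg k =>
        intro x hx
        by_cases h : k.1 % 2 = 0 ∧ k.1 ≠ 0
        · simp only [route, if_pos h, List.map_cons, List.map_nil, List.dropLast_singleton,
            List.not_mem_nil] at hx
        · simp only [route, if_neg h, List.map_cons, List.map_nil, List.dropLast_singleton,
            List.not_mem_nil] at hx
      | s3 =>
        intro x hx
        have h1 : ((route q (.inl (true, .s3))).map Prod.snd).dropLast =
            (dch (q + 2)).map Prod.snd := by
          simp only [route, List.map_append, List.map_cons, List.map_nil]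
          rw [List.dropLast_append_of_ne_nil (by simp)]
          simp
        rw [h1, mem_dch] at hx
        push_cast at hx
        exact Bd.s3 rfl hx.1 hx.2
      | _ => intro x hx; simp [route] at hx
  · cases s
    · simp only [route, List.map_cons, List.map_nil, List.dropLast_cons_cons,
        List.dropLast_singleton, List.mem_cons, List.not_mem_nil, or_false, forall_eq_or_imp,
        forall_eq, tag]
      exact ⟨Bd.rin rfl (by omega), Bd.rin rfl (by omega)⟩
    · simp only [route, List.map_cons, List.map_nil, List.dropLast_cons_cons,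
        List.dropLast_singleton, List.mem_cons, List.not_mem_nil, or_false, forall_eq_or_imp,
        forall_eq, tag]
      exact ⟨Bd.rout rfl (by omega), Bd.rout rfl (by omega)⟩
  · cases s
    · simp only [route, List.map_cons, List.map_nil, List.dropLast_cons_cons,
        List.dropLast_singleton, List.mem_cons, List.not_mem_nil, or_false, forall_eq_or_imp,
        forall_eq, tag]
      exact ⟨Bd.byin rfl (by omega), Bd.byin rfl (by omega)⟩
    · simp only [route, List.map_cons, List.map_nil, List.dropLast_cons_cons,
        List.dropLast_singleton, List.mem_cons, List.not_mem_nil, or_false, forall_eq_or_imp,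
        forall_eq, tag]
      exact ⟨Bd.byout rfl (by omega), Bd.byout rfl (by omega)⟩

theorem ne_nil (e : LE (WLoc q) true) : route q e ≠ [] := by
  rcases e with ⟨s, e⟩ | s | ⟨s, h⟩
  · cases s <;> cases e <;> simp only [route] <;> (try split_ifs) <;> simp
  · cases s <;> simp [route]
  · cases s <;> simp [route]

theorem last (e : LE (WLoc q) true) :
    ((route q e).map Prod.snd).getLast? = some (tB (b q) (pos q) e) := by
  rcases e with ⟨s, e⟩ | s | ⟨s, h⟩
  · cases s
    · cases e with
      | leg k =>
        by_cases h : k.1 % 2 = 0 ∧ k.1 ≠ 0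
        · simp only [route, if_pos h, tB, WLoc, decide_eq_true h]
          rfl
        · simp only [route, if_neg h, tB, WLoc, decide_eq_false h]
          rfl
      | row i =>
        simp only [route, tB, ePos, WLoc, pos, List.map_cons, List.map_nil, List.getLast?_singleton,
          Option.some.injEq]
        push_cast
        ring
      | _ => simp [route, tB, ePos, WLoc, pos]
    · cases e with
      | leg k =>
        by_cases h : k.1 % 2 = 0 ∧ k.1 ≠ 0
        · simp only [route, if_pos h, tB, WLoc, decide_eq_true h]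
          rfl
        · simp only [route, if_neg h, tB, WLoc, decide_eq_false h]
          rfl
      | row i =>
        simp only [route, tB, ePos, WLoc, pos, List.map_cons, List.map_nil, List.getLast?_singleton,
          Option.some.injEq]
        push_cast
        ring
      | _ => simp [route, tB, ePos, WLoc, pos]
  · cases s <;> simp [route, tB, WLoc, pos, b]
  · cases s <;> simp [route, tB, WLoc, pos, b]

theorem nodup (e : LE (WLoc q) true) :
    (tA (b q) (pos q) e :: (route q e).map Prod.snd).Nodup := by
  rcases e with ⟨s, e⟩ | s | ⟨s, h⟩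
  · cases s
    · cases e with
      | leg k =>
        have hk := k.2
        by_cases h : k.1 % 2 = 0 ∧ k.1 ≠ 0
        · simp only [route, if_pos h, tA, ePos, WLoc, pos, b, List.map_cons, List.map_nil,
            List.nodup_cons, List.mem_cons, List.not_mem_nil, or_false, List.nodup_nil,
            not_false_eq_true, and_true]
          omega
        · simp only [route, if_neg h, tA, ePos, WLoc, pos, b, List.map_cons, List.map_nil,
            List.nodup_cons, List.mem_cons, List.not_mem_nil, or_false, List.nodup_nil,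
            not_false_eq_true, and_true]
          omega
      | row i =>
        have hi := i.2
        simp only [route, tA, ePos, WLoc, pos, b, List.map_cons, List.map_nil,
            List.nodup_cons, List.mem_cons, List.not_mem_nil, or_false, List.nodup_nil,
            not_false_eq_true, and_true]
        omega
      | _ =>
        simp only [route, tA, ePos, WLoc, pos, b, List.map_cons, List.map_nil,
            List.nodup_cons, List.mem_cons, List.not_mem_nil, or_false, List.nodup_nil,
            not_false_eq_true, and_true]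
        omega
    · cases e with
      | leg k =>
        have hk := k.2
        by_cases h : k.1 % 2 = 0 ∧ k.1 ≠ 0
        · simp only [route, if_pos h, tA, ePos, WLoc, pos, b, List.map_cons, List.map_nil,
            List.nodup_cons, List.mem_cons, List.not_mem_nil, or_false, List.nodup_nil,
            not_false_eq_true, and_true]
          omega
        · simp only [route, if_neg h, tA, ePos, WLoc, pos, b, List.map_cons, List.map_nil,
            List.nodup_cons, List.mem_cons, List.not_mem_nil, or_false, List.nodup_nil,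
            not_false_eq_true, and_true]
          omega
      | row i =>
        have hi := i.2
        simp only [route, tA, ePos, WLoc, pos, b, List.map_cons, List.map_nil,
            List.nodup_cons, List.mem_cons, List.not_mem_nil, or_false, List.nodup_nil,
            not_false_eq_true, and_true]
        omega
      | s3 =>
        have h1 : (tA (L := WLoc q) (c := true) (b q) (pos q) (.inl (true, .s3))) =
          (q : ℤ) + 5 := rfl
        have h2 : ((route q (.inl (true, .s3))).map Prod.snd) =
            (dch (q + 2)).map Prod.snd ++ [(3 * q + 15 : ℤ)] := by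
          simp only [route, List.map_append, List.map_cons, List.map_nil]
        rw [h1, h2, List.nodup_cons, List.nodup_append, List.mem_append, mem_dch]
        refine ⟨?_, dch_nodup _, by simp, ?_⟩
        · simp only [List.mem_singleton]
          push_cast
          omega
        · intro x hx y hy
          rw [mem_dch] at hx
          rw [List.mem_singleton] at hy
          push_cast at hx
          omega
      | _ =>
        simp only [route, tA, ePos, WLoc, pos, b, List.map_cons, List.map_nil,
            List.nodup_cons, List.mem_cons, List.not_mem_nil, or_false, List.nodup_nil,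
            not_false_eq_true, and_true]
        omega
  · cases s <;>
      simp only [route, tA, ePos, WLoc, pos, b, List.map_cons, List.map_nil,
            List.nodup_cons, List.mem_cons, List.not_mem_nil, or_false, List.nodup_nil,
            not_false_eq_true, and_true] <;> omega
  · cases s <;>
      simp only [route, tA, ePos, WLoc, pos, b, List.map_cons, List.map_nil,
            List.nodup_cons, List.mem_cons, List.not_mem_nil, or_false, List.nodup_nil,
            not_false_eq_true, and_true] <;> omega

/-- the crossings -/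
noncomputable def cross : Finset ℤ :=
  Finset.Icc (1 : ℤ) (q + 2) ∪ Finset.Icc ((q : ℤ) + 6) (q + 9)

theorem cross_card : (cross q).card ≤ q + 6 := by
  refine (Finset.card_union_le _ _).trans ?_
  rw [Int.card_Icc, Int.card_Icc]
  omega

theorem bd_ne (t x : ℤ) (h : Bd q t x) (v : (WLoc q).V) : x ≠ pos q v := by
  obtain ⟨s, v⟩ := v
  cases h <;> cases s <;> cases v <;> simp only [pos] <;> omega

/-- the drawing -/
noncomputable def lay : TLay (WLoc q) true (fun _ => True) :=
  mkT (b q) (pos q) (route q) (cross q) (tag q) (Ch q) (Bd q) (pos_inj q) (pos_mem q) (tag_inj q)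
    (fun e _ => ne_nil q e) (fun e _ => last q e) (fun e _ => nodup q e) (fun e _ => arcs q e)
    (fun e _ => bend q e)
    (by
      rintro (_ | _) t l r t' l' r' h h'
      · exact lo_npl (by omega) h h'
      · exact up_npl (by omega) h h')
    (by
      rintro (_ | _) t l r t' h h'
      · exact lo_dist (by omega) h h'
      · exact up_dist (by omega) h h')
    (by
      intro t l r h
      change Up _ _ _ _ at h
      cases h <;> simp only [b] <;> omega)
    (by
      rintro (_ | _) t l r h
      · change Lo _ _ _ _ at h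
        cases h <;> simp only [b] <;> omega
      · change Up _ _ _ _ at h
        cases h <;> simp only [b] <;> omega)
    (by
      intro t x h
      cases h <;> simp only [b] <;> omega)
    (bd_ne q)
    (by
      intro t t' t'' x h h' h''
      cases h <;> cases h' <;> cases h'' <;> omega)
    (by
      intro t t' x h h' hne
      simp only [cross, Finset.mem_union, Finset.mem_Icc]
      cases h <;> cases h' <;> omega)

end WD
end FC67

/-- the legs to `A` of the left part of `W` are crossed in a full tile -/
theorem tcr_aleg (q : ℕ) (k : Fin (2 * q + 3)) (hk : ¬ (k.1 % 2 = 0 ∧ k.1 ≠ 0)) :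
    TCr (WLoc q) true (q + 6) (.inl (false, .leg k)) := by
  refine ⟨FC67.WD.lay q, FC67.WD.cross_card q, .inl (true, .s3), ?_, (q : ℤ) + 2 - (k.1 + 1) / 2,
    ?_, ?_⟩
  · intro h
    have h1 : ((true, WE.s3) : Bool × WE q) = (false, WE.leg k) := Sum.inl.inj h
    exact Bool.noConfusion (congrArg Prod.fst h1)
  · change _ ∈ ((FC67.WD.route q (.inl (false, .leg k))).map Prod.snd).dropLast
    simp only [FC67.WD.route, if_neg hk, List.map_cons, List.map_nil, List.dropLast_cons_cons,
      List.dropLast_singleton, List.mem_singleton]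
  · change _ ∈ ((FC67.WD.route q (.inl (true, .s3))).map Prod.snd).dropLast
    have h1 : ((FC67.WD.route q (.inl (true, .s3))).map Prod.snd).dropLast =
        (FC67.dch (q + 2)).map Prod.snd := by
      simp only [FC67.WD.route, List.map_append, List.map_cons, List.map_nil]
      rw [List.dropLast_append_of_ne_nil (by simp)]
      simp
    rw [h1, FC67.mem_dch]
    have := k.2
    push_cast
    omega

end Pool.Agent.CC
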