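import Pool.Agent.Lib_helper74.CCF.W45WF3
import Pool.Agent.Lib_helper74.CCF.FCW5B
import Pool.Agent.Lib_helper74.CCF.FCW5C
import Pool.Agent.Lib_helper74.CCF.WD
import Pool.Agent.Lib_helper74.CCF.Mir

/-! # The tiles of `W` -/

set_option autoImplicit false

namespace Pool.Agent.CC

open Gph

namespace FCW45

/-- the left part -/
theorem tile_left (q : ℕ) (e : WE q) :
    TCr (WLoc q) true (q + 6) (.inl (false, e)) ∨ TDel (WLoc q) true (q + 6) (.inl (false, e)) := by
  rcases e with _ | _ | _ | _ | _ | k | i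
  · exact .inr (tdel_b1 q)
  · exact .inr (tdel_b2 q)
  · exact .inr (tdel_eta q)
  · exact .inr (tdel_sig q)
  · exact .inr (tdel_s3 q)
  · by_cases hk : k.1 % 2 = 0 ∧ k.1 ≠ 0
    · exact .inl (tcr_bleg q k hk)
    · exact .inl (tcr_aleg q k hk)
  · exact .inr (tdel_row q i)

end FCW45

/-- Every local edge of `W` is crossed in a tile with at most `q + 6` crossings or can be deleted
from a tile with at most `q + 5` crossings. -/
theorem tileW (q : ℕ) (e : (WLoc q).E) :
    TCr (WLoc q) true (q + 6) (.inl e) ∨ TDel (WLoc q) true (q + 6) (.inl e) := by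
  obtain ⟨s, e⟩ := e
  cases s with
  | false => exact FCW45.tile_left q e
  | true =>
    rcases FCW45.tile_left q e with h | h
    · exact .inl ((mirW q).tcr h)
    · exact .inr ((mirW q).tdel h)

end Pool.Agent.CC
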