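import Pool.Agent.Lib_helper74.CCF.Fcg
import Pool.Agent.Lib_helper74.CCF.FCI20
import Pool.Agent.Lib_helper74.CCF.Mir
import Pool.Agent.Lib_helper74.CCF.T39FCT
import Pool.Agent.Lib_helper74.CCF.G27Fin
import Pool.Agent.Lib_helper74.CCF.W45FCW

/-! Block FCA (MP_198240_co): assembly of the spine drawings of the strips. -/

namespace Pool.Agent.CC

open Gph

/-- Deleting an edge which is crossed in a tile. -/
theorem TCr.fca_tdel {L : Loc} {c : Bool} {K : ℕ} {e : LE L c} (h : TCr L c K e) :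
    TDel L c K e := by
  obtain ⟨S, hS, f, hfe, x, hxe, hxf⟩ := h
  have hx : x ∈ S.cross := S.hcross e f trivial trivial (Ne.symm hfe) x hxe hxf
  refine ⟨{ b := S.b, pos := S.pos, route := S.route, cross := S.cross.erase x,
            pos_inj := S.pos_inj, pos_mem := S.pos_mem,
            ne_nil := fun g _ => S.ne_nil g trivial,
            last := fun g _ => S.last g trivial,
            nodup := fun g _ => S.nodup g trivial,
            bend_mem := fun g _ => S.bend_mem g trivial,
            bend_ne := fun g _ => S.bend_ne g trivial,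
            planar := fun g g' _ _ => S.planar g g' trivial trivial,
            distinct := fun g g' _ _ => S.distinct g g' trivial trivial,
            no_three := fun g g' g'' _ _ _ => S.no_three g g' g'' trivial trivial trivial,
            upper := fun g _ => S.upper g trivial,
            loc := fun g _ => S.loc g trivial,
            hcross := ?_ }, ?_⟩
  · intro g g' hg hg' hne y hy hy'
    rw [Finset.mem_erase]
    refine ⟨?_, S.hcross g g' trivial trivial hne y hy hy'⟩
    rintro rfl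
    by_cases h1 : g = f
    · have h2 : f ≠ g' := fun h => hne (h1.trans h)
      exact S.no_three e f g' trivial trivial trivial (Ne.symm hfe) (Ne.symm hg') h2 y hxe hxf hy'
    · exact S.no_three e f g trivial trivial trivial (Ne.symm hfe) (Ne.symm hg)
        (fun h => h1 h.symm) y hxe hxf hy
  · have h1 : (S.cross.erase x).card + 1 = S.cross.card := Finset.card_erase_add_one hx
    show (S.cross.erase x).card + 1 ≤ K
    omega

/-- Transport of 'crossed'. -/
theorem fca_crossed_iso {G H : Gph} (i : GIso G H) {K : ℕ} {f : G.E} (h : G.CrossedIn K f) :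
    H.CrossedIn K (i.e f) := by
  obtain ⟨α, _, S, hS, hf⟩ := h
  obtain ⟨S', h1, h2⟩ := i.spine S
  exact ⟨α, _, S', by rw [h1]; exact hS, h2 f hf⟩

/-- `G - f` has a spine drawing with at most `K - 1` crossings. -/
def FcaD (G : Gph) (K : ℕ) (f : G.E) : Prop :=
  ∃ (α : Type) (_ : LinearOrder α) (S : Spine (G.del f) α), S.crossings.card + 1 ≤ K

theorem fca_del_iso {G H : Gph} (i : GIso G H) {K : ℕ} {f : G.E} (h : FcaD G K f) :
    FcaD H K (i.e f) := by
  obtain ⟨α, _, S, hS⟩ := h
  obtain ⟨i'⟩ := i.del f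
  obtain ⟨S', h1, -⟩ := i'.spine S
  exact ⟨α, _, S', by rw [h1]; exact hS⟩

theorem fca_tileT (q : ℕ) (c : Bool) (r : RT) (hr : r = .T) (t : LE (r.loc q) c) :
    TCr (r.loc q) c (q + 2 + if c then 3 else 0) t := by
  subst hr
  exact tileT q c t

theorem fca_tile_loc (q : ℕ) (c : Bool) (r : RT) (hW : r = .W → c = true ∧ 1 ≤ q)
    (e : (r.loc q).E) : TDel (r.loc q) c (q + 2 + if c then 3 else 0) (.inl e) := by
  cases r with
  | T => exact (tileT q c (.inl e)).fca_tdel
  | G =>
    rcases tileG q c e with h | h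
    · exact h.fca_tdel
    · exact h
  | W =>
    obtain ⟨hc, hq⟩ := hW rfl
    subst hc
    obtain ⟨q, rfl⟩ : ∃ p, q = p + 1 := ⟨q - 1, by omega⟩
    have hK : q + 1 + 2 + (if (true : Bool) = true then 3 else 0) = q + 6 := by
      simp
    rw [hK]
    rcases tileW q e with h | h
    · exact h.fca_tdel
    · exact h

section

variable {N : ℕ} [NeZero N]

theorem fca_crossed_at (hN : 5 ≤ N) (hodd : N % 2 = 1) (q : ℕ) (c : Bool) (τ : ZMod N → RT)
    (s : ZMod N) (K : ℕ) (t : LE ((τ (0 + s)).loc q) c) (h : TCr ((τ (0 + s)).loc q) c K t)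
    (i : GIso (tstrip q c (fun j => τ (j + s))) (tstrip q c τ)) :
    (tstrip q c τ).CrossedIn K (i.e (tedge q c (fun j => τ (j + s)) t)) := by
  apply fca_crossed_iso i
  obtain ⟨S, hS, he⟩ := h
  obtain ⟨α, _, S', h1, h2⟩ := fcg_full hN hodd q c (fun j => τ (j + s)) K S hS
  exact ⟨α, _, S', h1, h2 t he⟩

theorem fca_del_at (hN : 5 ≤ N) (hodd : N % 2 = 1) (q : ℕ) (c : Bool) (τ : ZMod N → RT)
    (s : ZMod N) (K : ℕ) (t : LE ((τ (0 + s)).loc q) c) (h : TDel ((τ (0 + s)).loc q) c K t)
    (i : GIso (tstrip q c (fun j => τ (j + s))) (tstrip q c τ)) :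
    FcaD (tstrip q c τ) K (i.e (tedge q c (fun j => τ (j + s)) t)) := by
  apply fca_del_iso i
  exact fcg_del hN hodd q c (fun j => τ (j + s)) K t h

/-- The row edge `j` is crossed if the region `j` is a `T` region. -/
theorem fca_row_out (hN : 5 ≤ N) (hodd : N % 2 = 1) (q : ℕ) (c : Bool) (τ : ZMod N → RT)
    (j : ZMod N) (hj : τ j = .T) :
    (tstrip q c τ).CrossedIn (q + 2 + if c then 3 else 0) (.inr (.inl j)) ∧
      FcaD (tstrip q c τ) (q + 2 + if c then 3 else 0) (.inr (.inl j)) := by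
  obtain ⟨i, -, h2, -⟩ := tstrip_rot q c τ j
  have h0 : τ (0 + j) = .T := by rw [zero_add]; exact hj
  have ht := fca_tileT q c (τ (0 + j)) h0 LE.rout
  have he : i.e (tedge q c (fun k => τ (k + j)) LE.rout) = .inr (.inl j) := by
    have := h2 0
    rw [zero_add] at this
    exact this
  have h3 := fca_crossed_at hN hodd q c τ j _ LE.rout ht i
  have h4 := fca_del_at hN hodd q c τ j _ LE.rout ht.fca_tdel i
  rw [he] at h3 h4
  exact ⟨h3, h4⟩

/-- The row edge `j` is crossed if the region `j + 1` is a `T` region. -/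
theorem fca_row_in (hN : 5 ≤ N) (hodd : N % 2 = 1) (q : ℕ) (c : Bool) (τ : ZMod N → RT)
    (j : ZMod N) (hj : τ (j + 1) = .T) :
    (tstrip q c τ).CrossedIn (q + 2 + if c then 3 else 0) (.inr (.inl j)) ∧
      FcaD (tstrip q c τ) (q + 2 + if c then 3 else 0) (.inr (.inl j)) := by
  obtain ⟨i, -, h2, -⟩ := tstrip_rot q c τ (j + 1)
  have h0 : τ (0 + (j + 1)) = .T := by rw [zero_add]; exact hj
  have ht := fca_tileT q c (τ (0 + (j + 1))) h0 LE.rin
  have he : i.e (tedge q c (fun k => τ (k + (j + 1))) LE.rin) = .inr (.inl j) := by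
    have := h2 (-1)
    rw [show (-1 : ZMod N) + (j + 1) = j by ring] at this
    exact this
  have h3 := fca_crossed_at hN hodd q c τ (j + 1) _ LE.rin ht i
  have h4 := fca_del_at hN hodd q c τ (j + 1) _ LE.rin ht.fca_tdel i
  rw [he] at h3 h4
  exact ⟨h3, h4⟩

/-- The bypass edge `j` is crossed if the region `j` is a `T` region. -/
theorem fca_by_out (hN : 5 ≤ N) (hodd : N % 2 = 1) (q : ℕ) (c : Bool) (τ : ZMod N → RT)
    (j : ZMod N) (h : c = true) (hj : τ j = .T) :
    (tstrip q c τ).CrossedIn (q + 2 + if c then 3 else 0) (.inr (.inr ⟨j, h⟩)) ∧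
      FcaD (tstrip q c τ) (q + 2 + if c then 3 else 0) (.inr (.inr ⟨j, h⟩)) := by
  obtain ⟨i, -, -, h2⟩ := tstrip_rot q c τ j
  have h0 : τ (0 + j) = .T := by rw [zero_add]; exact hj
  have ht := fca_tileT q c (τ (0 + j)) h0 (LE.byout h)
  have he : i.e (tedge q c (fun k => τ (k + j)) (LE.byout h)) = .inr (.inr ⟨j, h⟩) := by
    have := h2 0 h
    rw [zero_add] at this
    exact this
  have h3 := fca_crossed_at hN hodd q c τ j _ (LE.byout h) ht i
  have h4 := fca_del_at hN hodd q c τ j _ (LE.byout h) ht.fca_tdel i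
  rw [he] at h3 h4
  exact ⟨h3, h4⟩

/-- The bypass edge `j` is crossed if the region `j + 1` is a `T` region. -/
theorem fca_by_in (hN : 5 ≤ N) (hodd : N % 2 = 1) (q : ℕ) (c : Bool) (τ : ZMod N → RT)
    (j : ZMod N) (h : c = true) (hj : τ (j + 1) = .T) :
    (tstrip q c τ).CrossedIn (q + 2 + if c then 3 else 0) (.inr (.inr ⟨j, h⟩)) ∧
      FcaD (tstrip q c τ) (q + 2 + if c then 3 else 0) (.inr (.inr ⟨j, h⟩)) := by
  obtain ⟨i, -, -, h2⟩ := tstrip_rot q c τ (j + 1)
  have h0 : τ (0 + (j + 1)) = .T := by rw [zero_add]; exact hj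
  have ht := fca_tileT q c (τ (0 + (j + 1))) h0 (LE.byin h)
  have he : i.e (tedge q c (fun k => τ (k + (j + 1))) (LE.byin h)) = .inr (.inr ⟨j, h⟩) := by
    have := h2 (-1) h
    rw [show (-1 : ZMod N) + (j + 1) = j by ring] at this
    exact this
  have h3 := fca_crossed_at hN hodd q c τ (j + 1) _ (LE.byin h) ht i
  have h4 := fca_del_at hN hodd q c τ (j + 1) _ (LE.byin h) ht.fca_tdel i
  rw [he] at h3 h4
  exact ⟨h3, h4⟩

/-- The local edges. -/
theorem fca_loc_del (hN : 5 ≤ N) (hodd : N % 2 = 1) (q : ℕ) (c : Bool) (τ : ZMod N → RT)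
    (hW : ∀ j, τ j = .W → c = true ∧ 1 ≤ q) (j : ZMod N) (e : ((τ j).loc q).E) :
    FcaD (tstrip q c τ) (q + 2 + if c then 3 else 0) (.inl ⟨j, e⟩) := by
  obtain ⟨s, rfl⟩ : ∃ s, j = 0 + s := ⟨j, (zero_add j).symm⟩
  obtain ⟨i, h1, -, -⟩ := tstrip_rot q c τ s
  have ht := fca_tile_loc q c (τ (0 + s)) (hW _) e
  have he : i.e (tedge q c (fun k => τ (k + s)) (.inl e)) = .inl ⟨0 + s, e⟩ := h1 0 e
  have h4 := fca_del_at hN hodd q c τ s _ (.inl e) ht i
  rw [he] at h4
  exact h4

theorem fca_loc_crossed (hN : 5 ≤ N) (hodd : N % 2 = 1) (q : ℕ) (c : Bool) (τ : ZMod N → RT)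
    (K : ℕ) (j : ZMod N) (e : ((τ j).loc q).E) (h : TCr ((τ j).loc q) c K (.inl e)) :
    (tstrip q c τ).CrossedIn K (.inl ⟨j, e⟩) := by
  obtain ⟨s, rfl⟩ : ∃ s, j = 0 + s := ⟨j, (zero_add j).symm⟩
  obtain ⟨i, h1, -, -⟩ := tstrip_rot q c τ s
  have he : i.e (tedge q c (fun k => τ (k + s)) (.inl e)) = .inl ⟨0 + s, e⟩ := h1 0 e
  have h4 := fca_crossed_at hN hodd q c τ s _ (.inl e) h i
  rw [he] at h4
  exact h4

/-- FCA1 -/
theorem tstrip_fc (hN : 5 ≤ N) (hodd : N % 2 = 1) (q : ℕ) (c : Bool)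
    (τ : ZMod N → RT) (hW : ∀ j, τ j = .W → c = true ∧ 1 ≤ q)
    (hT : ∀ j, τ j = .T ∨ τ (j + 1) = .T) :
    (tstrip q c τ).FC (q + 2 + if c then 3 else 0) := by
  have hrow : ∀ j, (tstrip q c τ).CrossedIn (q + 2 + if c then 3 else 0) (.inr (.inl j)) ∧
      FcaD (tstrip q c τ) (q + 2 + if c then 3 else 0) (.inr (.inl j)) := by
    intro j
    rcases hT j with h | h
    · exact fca_row_out hN hodd q c τ j h
    · exact fca_row_in hN hodd q c τ j h
  constructor
  · obtain ⟨α, _, S, hS, -⟩ := (hrow 0).1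
    exact ⟨α, _, S, hS⟩
  · intro e
    rcases e with ⟨j, e⟩ | j | ⟨j, h⟩
    · exact fca_loc_del hN hodd q c τ hW j e
    · exact (hrow j).2
    · rcases hT j with h' | h'
      · exact (fca_by_out hN hodd q c τ j h h').2
      · exact (fca_by_in hN hodd q c τ j h h').2

omit [NeZero N] in
theorem fca_locEnd (L : ZMod N → Loc) (j k : ZMod N) (x : (L j).V ⊕ Bool) (u : (L k).V)
    (h : locEnd L j x = .inr ⟨k, u⟩) : ∃ hjk : j = k, hjk ▸ x = .inl u := by
  rcases x with v | v
  · simp only [locEnd, Sum.inr.injEq, Sigma.mk.injEq] at h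
    obtain ⟨rfl, h⟩ := h
    exact ⟨rfl, by rw [eq_of_heq h]⟩
  · cases v <;> simp [locEnd] at h

/-- FCA2: all edges at local vertices of `T` regions are crossed -/
theorem crossed_T (hN : 5 ≤ N) (hodd : N % 2 = 1) (q : ℕ) (c : Bool)
    (τ : ZMod N → RT) (j : ZMod N) (hj : τ j = .T) (u : ((τ j).loc q).V)
    (e : (tstrip q c τ).E)
    (he : (tstrip q c τ).a e = .inr ⟨j, u⟩ ∨ (tstrip q c τ).b e = .inr ⟨j, u⟩) :
    (tstrip q c τ).CrossedIn (q + 2 + if c then 3 else 0) e := by
  rcases e with ⟨k, e⟩ | k | ⟨k, h⟩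
  · have hk : k = j := by
      rcases he with h | h
      · exact (fca_locEnd (fun j => (τ j).loc q) k j _ u h).1
      · exact (fca_locEnd (fun j => (τ j).loc q) k j _ u h).1
    subst hk
    exact fca_loc_crossed hN hodd q c τ _ k e (fca_tileT q c (τ k) hj (.inl e))
  · rcases he with h | h
    · have hk : k = j := by
        have := Sum.inr.inj h
        exact congrArg Sigma.fst this
      subst hk
      exact (fca_row_out hN hodd q c τ k hj).1
    · have hk : k + 1 = j := by
        have := Sum.inr.inj h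
        exact congrArg Sigma.fst this
      subst hk
      exact (fca_row_in hN hodd q c τ k hj).1
  · rcases he with h' | h'
    · have hk : k = j := by
        change byL (fun j => (τ j).loc q) k = _ at h'
        unfold byL at h'
        split at h'
        · cases h'
        · exact congrArg Sigma.fst (Sum.inr.inj h')
      subst hk
      exact (fca_by_out hN hodd q c τ k h hj).1
    · have hk : k + 1 = j := by
        change byR (fun j => (τ j).loc q) k = _ at h'
        unfold byR at h'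
        split at h'
        · cases h'
        · exact congrArg Sigma.fst (Sum.inr.inj h')
      subst hk
      exact (fca_by_in hN hodd q c τ k h hj).1

theorem fca_tileG_port (c : Bool) (r : RT) (hr : r = .G) (u : (r.loc 0).V)
    (hu : HEq u ((false, ⟨2 * 0 + 1, by omega⟩) : (GLoc 0).V)) (e : (r.loc 0).E)
    (he : (r.loc 0).a e = .inl u ∨ (r.loc 0).b e = .inl u) :
    TCr (r.loc 0) c (0 + 2 + if c then 3 else 0) (.inl e) := by
  subst hr
  obtain rfl := eq_of_heq hu
  exact tileG_port c e he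

theorem fca_G_ends (q : ℕ) (r : RT) (hr : r = .G) (u : (r.loc q).V)
    (hu : HEq u ((false, ⟨2 * q + 1, by omega⟩) : (GLoc q).V)) :
    (r.loc q).ex ≠ u ∧ (r.loc q).en ≠ u ∧ (r.loc q).br = none ∧ (r.loc q).bl = none := by
  subst hr
  obtain rfl := eq_of_heq hu
  refine ⟨fun h => ?_, fun h => ?_, rfl, rfl⟩
  · have h1 : ((true, ⟨0, by omega⟩) : Bool × Fin (2 * q + 2)) = (false, ⟨2 * q + 1, by omega⟩) := h
    simp at h1
  · have h1 : ((false, ⟨0, by omega⟩) : Bool × Fin (2 * q + 2)) = (false, ⟨2 * q + 1, by omega⟩) := h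
    simp at h1

/-- FCA3: the edges at the vertex `(false, 1)` of a `G` region are crossed (`q = 0`) -/
theorem crossed_G (hN : 5 ≤ N) (hodd : N % 2 = 1) (c : Bool)
    (τ : ZMod N → RT) (j : ZMod N) (hj : τ j = .G) (u : ((τ j).loc 0).V)
    (hu : HEq u ((false, ⟨2 * 0 + 1, by omega⟩) : (GLoc 0).V)) (e : (tstrip 0 c τ).E)
    (he : (tstrip 0 c τ).a e = .inr ⟨j, u⟩ ∨ (tstrip 0 c τ).b e = .inr ⟨j, u⟩) :
    (tstrip 0 c τ).CrossedIn (0 + 2 + if c then 3 else 0) e := by
  obtain ⟨h1, h2, h3, h4⟩ := fca_G_ends 0 (τ j) hj u hu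
  rcases e with ⟨k, e⟩ | k | ⟨k, h⟩
  · have hk : k = j := by
      rcases he with h | h
      · exact (fca_locEnd (fun j => (τ j).loc 0) k j _ u h).1
      · exact (fca_locEnd (fun j => (τ j).loc 0) k j _ u h).1
    subst hk
    refine fca_loc_crossed hN hodd 0 c τ _ k e (fca_tileG_port c (τ k) hj u hu e ?_)
    rcases he with h | h
    · exact Or.inl (fca_locEnd (fun j => (τ j).loc 0) k k _ u h).2
    · exact Or.inr (fca_locEnd (fun j => (τ j).loc 0) k k _ u h).2
  · exfalso
    rcases he with h | h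
    · have := Sum.inr.inj h
      rw [Sigma.mk.injEq] at this
      obtain ⟨rfl, h⟩ := this
      exact h1 (eq_of_heq h)
    · have := Sum.inr.inj h
      rw [Sigma.mk.injEq] at this
      obtain ⟨rfl, h⟩ := this
      exact h2 (eq_of_heq h)
  · exfalso
    rcases he with h' | h'
    · change byL (fun j => (τ j).loc 0) k = _ at h'
      unfold byL at h'
      split at h'
      · cases h'
      · rename_i v hv
        have := Sum.inr.inj h'
        rw [Sigma.mk.injEq] at this
        obtain ⟨rfl, h⟩ := this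
        rw [h3] at hv
        cases hv
    · change byR (fun j => (τ j).loc 0) k = _ at h'
      unfold byR at h'
      split at h'
      · cases h'
      · rename_i v hv
        have := Sum.inr.inj h'
        rw [Sigma.mk.injEq] at this
        obtain ⟨rfl, h⟩ := this
        rw [h4] at hv
        cases hv

end

/-! ## The four families -/

theorem fca_altType (M : ℕ) (X : RT) (j : ZMod (2 * M + 1)) :
    altType M X j = .T ∨ altType M X (j + 1) = .T := by
  unfold altType
  by_cases h : j.val % 2 = 0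
  · left; rw [if_pos h]
  · right
    rw [if_pos]
    have h1 : j.val < 2 * M + 1 := ZMod.val_lt j
    have h2 : j.val + 1 < 2 * M + 1 := by omega
    have hv1 : (1 : ZMod (2 * M + 1)).val = 1 := by
      rw [ZMod.val_one_eq_one_mod]
      exact Nat.mod_eq_of_lt (by omega)
    have h3 : (j + 1).val = j.val + 1 := by
      rw [ZMod.val_add_of_lt (by rw [hv1]; exact h2), hv1]
    rw [h3]
    omega

theorem fca_altType_W (M : ℕ) (X : RT) (hX : X ≠ .W) (j : ZMod (2 * M + 1)) :
    altType M X j ≠ .W := by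
  unfold altType
  split
  · simp
  · exact hX

theorem F0_fc (q M : ℕ) (hM : 3 ≤ M) : (F0 q M).FC (q + 2) := by
  have h := tstrip_fc (N := 2 * M + 1) (by omega) (by omega) q false (altType M .G)
    (fun j hj => absurd hj (fca_altType_W M .G (by simp) j)) (fca_altType M .G)
  simpa [F0] using h

theorem F1_fc (q M : ℕ) (hM : 3 ≤ M) : (F1 q M).FC (q + 5) := by
  have h := tstrip_fc (N := 2 * M + 1) (by omega) (by omega) q true (altType M .G)
    (fun j hj => absurd hj (fca_altType_W M .G (by simp) j)) (fca_altType M .G)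
  simpa [F1] using h

theorem F2_fc (q M : ℕ) (hM : 3 ≤ M) : (F2 q M).FC (q + 6) := by
  have h := tstrip_fc (N := 2 * M + 1) (by omega) (by omega) (q + 1) true (altType M .W)
    (fun j _ => ⟨rfl, by omega⟩) (fca_altType M .W)
  have hK : q + 1 + 2 + (if (true : Bool) = true then 3 else 0) = q + 6 := by simp
  rw [hK] at h
  exact h

theorem FT_fc (q M : ℕ) (hM : 3 ≤ M) : (FT q M).FC (q + 2) := by
  have h := tstrip_fc (N := 2 * M + 1) (by omega) (by omega) q false (fun _ => RT.T)
    (fun j hj => by cases hj) (fun _ => Or.inl rfl)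
  simpa [FT] using h

end Pool.Agent.CC

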