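import Pool.Agent.Lib_helper74.CCF.Tile

set_option autoImplicit false

namespace Pool.Agent.CC

open Gph

namespace FCW5

/-- the bends of a route -/
abbrev bds (l : List (Bool × ℤ)) : List ℤ := (l.map Prod.snd).dropLast

theorem minmax_sym2 {x y z t : ℤ} (h : s(x, y) = s(z, t)) :
    min x y = min z t ∧ max x y = max z t := by
  rcases Sym2.eq_iff.1 h with ⟨rfl, rfl⟩ | ⟨rfl, rfl⟩
  · exact ⟨rfl, rfl⟩
  · exact ⟨min_comm _ _, max_comm _ _⟩

/-- A tile from families of chords: `U e l r` contains the upper chords of `e`, `Lo e l r` the lower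
ones, `Bd e x` the bends; `code` distinguishes the edges; `kd` is a 2-colouring of the edges through
a bend. -/
def mk {L : Loc} {c : Bool} {keep : LE L c → Prop} (b : ℤ) (pos : L.V → ℤ)
    (route : LE L c → List (Bool × ℤ)) (cross : Finset ℤ)
    (U Lo : LE L c → ℤ → ℤ → Prop) (Bd : LE L c → ℤ → Prop) (code : LE L c → ℤ)
    (kd : LE L c → ℤ → ℤ)
    (pos_inj : Function.Injective pos)
    (pos_mem : ∀ v, 0 < pos v ∧ pos v < b)
    (ne_nil : ∀ e, keep e → route e ≠ [])
    (last : ∀ e, keep e → ((route e).map Prod.snd).getLast? = some (tB b pos e))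
    (nodup : ∀ e, keep e → (tA b pos e :: (route e).map Prod.snd).Nodup)
    (fam : ∀ e, keep e → ∀ p ∈ arcsOf (tA b pos e) (route e),
      (p.1 = true → U e (min p.2.1 p.2.2) (max p.2.1 p.2.2)) ∧
      (p.1 = false → Lo e (min p.2.1 p.2.2) (max p.2.1 p.2.2)))
    (bend : ∀ e, keep e → ∀ x ∈ ((route e).map Prod.snd).dropLast, Bd e x)
    (bend_mem : ∀ e, keep e → ∀ x, Bd e x → (0 < x ∧ x < b) ∧ ∀ v, x ≠ pos v)
    (Uone : ∀ e l r, U e l r → 0 ≤ l ∧ r ≤ b ∧ ((0 < l ∧ l < b) ∨ (0 < r ∧ r < b)))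
    (Lone : ∀ e l r, Lo e l r → ((0 < l ∧ l < b) ∨ (0 < r ∧ r < b)))
    (Utwo : ∀ e f l r l' r', U e l r → U f l' r' →
      ¬ (l < l' ∧ l' < r ∧ r < r') ∧ (l = l' → r = r' → code e = code f))
    (Ltwo : ∀ e f l r l' r', Lo e l r → Lo f l' r' →
      ¬ (l < l' ∧ l' < r ∧ r < r') ∧ (l = l' → r = r' → code e = code f))
    (code_inj : ∀ e f, code e = code f → e = f)
    (bend_two : ∀ e f x, Bd e x → Bd f x → kd e x = kd f x → code e = code f)
    (kd_two : ∀ e x, Bd e x → kd e x = 0 ∨ kd e x = 1)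
    (hcross : ∀ e f x, Bd e x → Bd f x → code e ≠ code f → x ∈ cross) :
    TLay L c keep where
  b := b
  pos := pos
  route := route
  cross := cross
  pos_inj := pos_inj
  pos_mem := pos_mem
  ne_nil := ne_nil
  last := last
  nodup := nodup
  bend_mem e he x hx := (bend_mem e he x (bend e he x hx)).1
  bend_ne e he x hx := (bend_mem e he x (bend e he x hx)).2
  planar e f he hf p hp r hr hpr := by
    have h1 := fam e he p hp
    have h2 := fam f hf r hr
    unfold Interl
    rcases hb : p.1 with _ | _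
    · have h3 := h1.2 hb
      have h4 := h2.2 (hpr ▸ hb)
      rintro (h | h)
      · exact (Ltwo e f _ _ _ _ h3 h4).1 h
      · exact (Ltwo f e _ _ _ _ h4 h3).1 h
    · have h3 := h1.1 hb
      have h4 := h2.1 (hpr ▸ hb)
      rintro (h | h)
      · exact (Utwo e f _ _ _ _ h3 h4).1 h
      · exact (Utwo f e _ _ _ _ h4 h3).1 h
  distinct e f he hf hef p hp r hr hpr h := by
    have h1 := fam e he p hp
    have h2 := fam f hf r hr
    have h0 := minmax_sym2 h
    apply hef
    apply code_inj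
    rcases hb : p.1 with _ | _
    · exact (Ltwo e f _ _ _ _ (h1.2 hb) (h2.2 (hpr ▸ hb))).2 h0.1 h0.2
    · exact (Utwo e f _ _ _ _ (h1.1 hb) (h2.1 (hpr ▸ hb))).2 h0.1 h0.2
  no_three e f g he hf hg hef heg hfg x h1 h2 h3 := by
    have b1 := bend e he x h1
    have b2 := bend f hf x h2
    have b3 := bend g hg x h3
    have n1 : kd e x ≠ kd f x := fun h => hef (code_inj _ _ (bend_two _ _ _ b1 b2 h))
    have n2 : kd e x ≠ kd g x := fun h => heg (code_inj _ _ (bend_two _ _ _ b1 b3 h))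
    have n3 : kd f x ≠ kd g x := fun h => hfg (code_inj _ _ (bend_two _ _ _ b2 b3 h))
    have k1 := kd_two _ _ b1
    have k2 := kd_two _ _ b2
    have k3 := kd_two _ _ b3
    omega
  upper e he p hp h1 := by
    have h2 := (fam e he p hp).1 h1
    have h3 := Uone e _ _ h2
    omega
  loc e he p hp := by
    have h1 := fam e he p hp
    rcases hb : p.1 with _ | _
    · have h3 := Lone e _ _ (h1.2 hb)
      omega
    · have h3 := (Uone e _ _ (h1.1 hb)).2.2
      omega
  hcross e f he hf hef x h1 h2 :=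
    hcross e f x (bend e he x h1) (bend f hf x h2) (fun h => hef (code_inj _ _ h))

/-! ### chains of short upper arcs -/

/-- short upper arcs `p, p+1, ..., p+n` -/
def chain (u : Bool) : ℤ → ℕ → List (Bool × ℤ)
  | _, 0 => []
  | p, n + 1 => (u, p + 1) :: chain u (p + 1) n

theorem mem_arcs_chain {u : Bool} {l : List (Bool × ℤ)} {z : Bool × ℤ × ℤ} :
    ∀ {n : ℕ} {p : ℤ}, z ∈ arcsOf p (chain u p n ++ l) ↔
      (z.1 = u ∧ z.2.2 = z.2.1 + 1 ∧ p ≤ z.2.1 ∧ z.2.1 < p + n) ∨ z ∈ arcsOf (p + n) l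
  | 0, p => by
    simp only [chain, List.nil_append, Nat.cast_zero, add_zero]
    constructor
    · exact Or.inr
    · rintro (⟨_, _, h3, h4⟩ | h)
      · omega
      · exact h
  | n + 1, p => by
    have e1 : (p + ((n + 1 : ℕ) : ℤ)) = p + 1 + n := by push_cast; ring
    simp only [chain, List.cons_append, arcsOf, List.mem_cons, mem_arcs_chain (n := n)]
    rw [e1]
    obtain ⟨z1, z2, z3⟩ := z
    simp only [Prod.mk.injEq]
    constructor
    · rintro (⟨h1, h2, h3⟩ | ⟨h1, h2, h3, h4⟩ | h)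
      · exact .inl ⟨h1, by omega, by omega, by omega⟩
      · exact .inl ⟨h1, by omega, by omega, by omega⟩
      · exact .inr h
    · rintro (⟨h1, h2, h3, h4⟩ | h)
      · by_cases h : z2 = p
        · exact .inl ⟨h1, by omega, by omega⟩
        · exact .inr (.inl ⟨h1, by omega, by omega, by omega⟩)
      · exact .inr (.inr h)

theorem mem_chain {u : Bool} {x : ℤ} : ∀ {n : ℕ} {p : ℤ},
    x ∈ (chain u p n).map Prod.snd ↔ p < x ∧ x ≤ p + n
  | 0, p => by
    simp only [chain, List.map_nil, List.not_mem_nil, Nat.cast_zero, add_zero, false_iff]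
    omega
  | n + 1, p => by
    simp only [chain, List.map_cons, List.mem_cons, mem_chain (n := n), Nat.cast_add,
      Nat.cast_one]
    omega

theorem chain_dropLast {u : Bool} (p : ℤ) (n : ℕ) {l : List (Bool × ℤ)} (h : l ≠ []) :
    ((chain u p n ++ l).map Prod.snd).dropLast =
      (chain u p n).map Prod.snd ++ (l.map Prod.snd).dropLast := by
  rw [List.map_append, List.dropLast_append_of_ne_nil]
  simpa using h

theorem chain_pairwise {u : Bool} : ∀ (n : ℕ) (p : ℤ),
    ((chain u p n).map Prod.snd).Pairwise (· < ·)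
  | 0, p => by simp [chain]
  | n + 1, p => by
    simp only [chain, List.map_cons, List.pairwise_cons]
    exact ⟨fun x hx => (mem_chain.1 hx).1, chain_pairwise n (p + 1)⟩

theorem chain_nodup {u : Bool} (n : ℕ) (p : ℤ) : ((chain u p n).map Prod.snd).Nodup :=
  (chain_pairwise n p).imp (fun h => h.ne)

/-! ### codes of the edges of `W` -/

/-- injective code of the edges -/
def wcode {q : ℕ} : LE (WLoc q) true → ℤ
  | .inl (false, .b1) => 0
  | .inl (false, .b2) => 1
  | .inl (false, .eta) => 2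
  | .inl (false, .sig) => 3
  | .inl (false, .s3) => 4
  | .inl (false, .leg k) => 10 + 2 * (k.1 : ℤ)
  | .inl (false, .row i) => 11 + 2 * (i.1 : ℤ)
  | .inl (true, .b1) => -1
  | .inl (true, .b2) => -2
  | .inl (true, .eta) => -3
  | .inl (true, .sig) => -4
  | .inl (true, .s3) => -5
  | .inl (true, .leg k) => -10 - 2 * (k.1 : ℤ)
  | .inl (true, .row i) => -11 - 2 * (i.1 : ℤ)
  | .inr (.inl false) => 5
  | .inr (.inl true) => 6
  | .inr (.inr ⟨false, _⟩) => 7
  | .inr (.inr ⟨true, _⟩) => 8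

theorem wcode_inj {q : ℕ} (e f : LE (WLoc q) true) (h : wcode e = wcode f) : e = f := by
  rcases e with ⟨_ | _, _ | _ | _ | _ | _ | k | i⟩ | ⟨_ | _⟩ | ⟨_ | _, _⟩ <;>
    rcases f with ⟨_ | _, _ | _ | _ | _ | _ | k' | i'⟩ | ⟨_ | _⟩ | ⟨_ | _, _⟩ <;>
    simp only [wcode] at h <;>
    first
    | rfl
    | (exfalso; omega)
    | (have hk : k = k' := Fin.ext (by omega)
       rw [hk])
    | (have hk : i = i' := Fin.ext (by omega)
       rw [hk])

theorem tB_leg {q : ℕ} (b : ℤ) (pos : Bool × WV q → ℤ) (s : Bool) (k : Fin (2 * q + 3)) :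
    tB (L := WLoc q) (c := true) b pos (.inl (s, .leg k)) =
      if k.1 % 2 = 0 ∧ k.1 ≠ 0 then (if s = true then 0 else b) else (if s = true then b else 0) := by
  by_cases hk : k.1 % 2 = 0 ∧ k.1 ≠ 0
  · have h : (WLoc q).b (s, .leg k) = .inr (xor s true) := by
      show Sum.inr (xor s (decide (k.1 % 2 = 0 ∧ k.1 ≠ 0))) = _
      rw [decide_eq_true hk]
      rfl
    show ePos b pos ((WLoc q).b (s, .leg k)) = _
    rw [h, if_pos hk]
    cases s <;> rfl
  · have h : (WLoc q).b (s, .leg k) = .inr (xor s false) := by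
      show Sum.inr (xor s (decide (k.1 % 2 = 0 ∧ k.1 ≠ 0))) = _
      rw [decide_eq_false hk]
      rfl
    show ePos b pos ((WLoc q).b (s, .leg k)) = _
    rw [h, if_neg hk]
    cases s <;> rfl

end FCW5

end Pool.Agent.CC
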