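import Pool.Agent.Lib_helper74.CCF.Fcg5

/-! # FCG: the global theorem -/

set_option linter.all false

namespace Pool.Agent.CC

open Gph

namespace FCG20

section strip
variable {N : ℕ} [NeZero N] (hN : 5 ≤ N) (hodd : N % 2 = 1) (q : ℕ) (c : Bool) (τ : ZMod N → RT)
  {keep : LE ((τ 0).loc q) c → Prop} (S : TLay ((τ 0).loc q) c keep)

theorem ps_inj : Function.Injective (ps q c τ S) := by
  intro x y h
  unfold ps at h
  rw [lex_eq] at h
  obtain ⟨h1, h2⟩ := h
  rcases x with j | ⟨j, u⟩ <;> rcases y with j' | ⟨j', u'⟩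
  · simp only [p1] at h1
    have : j = j' := ZMod.val_injective N (by omega)
    rw [this]
  · have hl := ZMod.val_lt j
    simp only [p1] at h1
    split_ifs at h1 <;> omega
  · have hl := ZMod.val_lt j'
    simp only [p1] at h1
    split_ifs at h1 <;> omega
  · have hl := ZMod.val_lt j
    have hl' := ZMod.val_lt j'
    by_cases hj : j = 0
    · by_cases hj' : j' = 0
      · subst hj hj'
        simp only [p2, dif_pos] at h2
        have := S.pos_inj h2
        rw [this]
      · simp only [p1, if_pos hj, if_neg hj'] at h1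
        omega
    · by_cases hj' : j' = 0
      · simp only [p1, if_pos hj', if_neg hj] at h1
        omega
      · simp only [p1, if_neg hj, if_neg hj'] at h1
        have : j = j' := ZMod.val_injective N (by omega)
        subst this
        simp only [p2, dif_neg hj] at h2
        rw [(plX q (τ j)).inj u u' h2]

theorem td_tedge (hN : 5 ≤ N) (e : LE ((τ 0).loc q) c) : td q c τ (tedge q c τ e) = some e := by
  have hn : (0 : ZMod N) ≠ -1 := fun h => neg_one_ne hN h.symm
  rcases e with e | (s | ⟨s, h⟩)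
  · simp only [tedge, td, dif_pos]
  · cases s
    · simp only [tedge, td, if_true]
    · simp only [tedge, td, if_true, if_neg hn]
  · cases s
    · simp only [tedge, td, if_true]
    · simp only [tedge, td, if_true, if_neg hn]

theorem tedge_td (f : EEd q c τ) (e : LE ((τ 0).loc q) c) (h : td q c τ f = some e) :
    tedge q c τ e = f := by
  rcases f with ⟨j, x⟩ | (j | ⟨j, hc⟩)
  · by_cases hj : j = 0
    · subst hj
      simp only [td, dif_pos, Option.some.injEq] at h
      subst h
      rfl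
    · simp only [td, dif_neg hj] at h
      exact absurd h (by simp)
  · by_cases hj : j = -1
    · subst hj
      simp only [td, if_true, Option.some.injEq] at h
      subst h
      rfl
    · by_cases hj' : j = 0
      · subst hj'
        simp only [td, if_true, if_neg hj, Option.some.injEq] at h
        subst h
        rfl
      · simp only [td, if_neg hj, if_neg hj'] at h
        exact absurd h (by simp)
  · by_cases hj : j = -1
    · subst hj
      simp only [td, if_true, Option.some.injEq] at h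
      subst h
      rfl
    · by_cases hj' : j = 0
      · subst hj'
        simp only [td, if_true, if_neg hj, Option.some.injEq] at h
        subst h
        rfl
      · simp only [td, if_neg hj, if_neg hj'] at h
        exact absurd h (by simp)

/-! values of `gg` -/

include hN in
theorem gg_loc (p : ℤ) (h1 : 0 < p) (h2 : p < S.b) :
    gg q c τ S p = toLex (2 * (N : ℤ) - 1, p) := by
  rcases gfact hN q c τ S p (by omega) (by omega) with f1 | ⟨f1, f1', _⟩ | f1 | f1 | f1 | f1 | f1 | f1 | ⟨f1, f1', _⟩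
  all_goals first | (exfalso; omega) | skip
  unfold gg; rw [f1.2.1, f1.2.2]

theorem gg_A : gg q c τ S 0 = toLex (2 * (N : ℤ) - 2, 0) := by
  simp [gg, g1, g2]

theorem gg_B : gg q c τ S S.b = toLex (0, 0) := by
  have hb : 0 < S.b := by
    have := S.pos_mem ((τ 0).loc q).en; omega
  simp only [gg, g1, g2, if_neg (show S.b ≠ -2 by omega), if_neg (show S.b ≠ -1 by omega),
    if_neg (show S.b ≠ 0 by omega), if_neg (lt_irrefl S.b), if_true]

theorem gg_X : gg q c τ S (-1) =
    toLex (2 * (N : ℤ) - 3, xOff q (τ (-1)) (LL' q τ (-1)).ex) := by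
  simp [gg, g1, g2]

theorem gg_C : gg q c τ S (-2) = ps q c τ S (byL (LL' q τ) (-1)) := by
  simp [gg, g1, g2, ps]

theorem gg_Y : gg q c τ S (S.b + 1) =
    toLex (1, xOff q (τ (0 + 1)) (LL' q τ (0 + 1)).en) := by
  have hb : 0 < S.b := by
    have := S.pos_mem ((τ 0).loc q).en; omega
  simp only [gg, g1, g2, if_neg (show S.b + 1 ≠ -2 by omega), if_neg (show S.b + 1 ≠ -1 by omega),
    if_neg (show S.b + 1 ≠ 0 by omega), if_neg (show ¬ S.b + 1 < S.b by omega),
    if_neg (show S.b + 1 ≠ S.b by omega), if_true]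

theorem gg_D : gg q c τ S (S.b + 2) = ps q c τ S (byR (LL' q τ) 0) := by
  have hb : 0 < S.b := by
    have := S.pos_mem ((τ 0).loc q).en; omega
  simp only [gg, g1, g2, if_neg (show S.b + 2 ≠ -2 by omega), if_neg (show S.b + 2 ≠ -1 by omega),
    if_neg (show S.b + 2 ≠ 0 by omega), if_neg (show ¬ S.b + 2 < S.b by omega),
    if_neg (show S.b + 2 ≠ S.b by omega), if_neg (show S.b + 2 ≠ S.b + 1 by omega), ps]

include hN in
theorem ps_v (v : ((τ 0).loc q).V) : ps q c τ S (.inr ⟨0, v⟩) = gg q c τ S (S.pos v) := by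
  rw [gg_loc hN q c τ S _ (S.pos_mem v).1 (S.pos_mem v).2]
  simp [ps, p1, p2]

theorem ps_B : ps q c τ S (.inl 0) = gg q c τ S S.b := by
  rw [gg_B]; simp [ps, p1, p2]

theorem ps_A : ps q c τ S (.inl (0 - 1)) = gg q c τ S 0 := by
  rw [gg_A]
  have : (0 - 1 : ZMod N) = -1 := by ring
  rw [this]
  have := val_neg_one' (N := N)
  simp only [ps, p1, p2]
  rw [lex_eq]
  constructor <;> omega

include hN in
theorem ps_locEnd (x : ((τ 0).loc q).V ⊕ Bool) :
    ps q c τ S (locEnd (LL' q τ) 0 x) = gg q c τ S (ePos S.b S.pos x) := by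
  match x with
  | .inl v => exact ps_v hN q c τ S v
  | .inr false => exact ps_A q c τ S
  | .inr true => exact ps_B q c τ S

include hN in
theorem ps_X : ps q c τ S (.inr ⟨-1, (LL' q τ (-1)).ex⟩) = gg q c τ S (-1) := by
  rw [gg_X]
  have h := neg_one_ne hN
  have := val_neg_one' (N := N)
  simp only [ps, p1, p2, if_neg h, dif_neg h]
  rw [lex_eq]
  constructor
  · omega
  · rfl

include hN in
theorem ps_Y : ps q c τ S (.inr ⟨0 + 1, (LL' q τ (0 + 1)).en⟩) = gg q c τ S (S.b + 1) := by
  rw [gg_Y]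
  have hv1 : (0 + 1 : ZMod N).val = 1 := by
    have := val_succ (N := N) (j := 0) (fun h => neg_one_ne hN h.symm)
    rw [ZMod.val_zero] at this; exact this
  have h : (0 + 1 : ZMod N) ≠ 0 := by
    intro h; rw [h, ZMod.val_zero] at hv1; omega
  simp only [ps, p1, p2, if_neg h, dif_neg h]
  rw [lex_eq]
  constructor
  · omega
  · rfl

/-- the right end of the bypass edge, and the entry vertex, as functions of the right region -/
def byR' (j : ZMod N) : VV q τ :=
  match (LL' q τ j).bl with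
  | none => .inl j
  | some v => .inr ⟨j, v⟩

theorem byR_eq (j : ZMod N) : byR (LL' q τ) j = byR' q τ (j + 1) := by
  unfold byR byR'
  cases h : (LL' q τ (j + 1)).bl <;> rfl

def enR' (j : ZMod N) : VV q τ := .inr ⟨j, (LL' q τ j).en⟩

include hN in
theorem ga' (e : LE ((τ 0).loc q) c) :
    ps q c τ S (ea q c τ (tedge q c τ e)) = gg q c τ S (tA S.b S.pos e) := by
  rcases e with e | (s | ⟨s, h⟩)
  · exact ps_locEnd hN q c τ S _
  · cases s
    · exact ps_X hN q c τ S
    · exact ps_v hN q c τ S _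
  · cases s
    · exact (gg_C q c τ S).symm
    · have e1 : ea q c τ (tedge q c τ (.inr (.inr ⟨true, h⟩))) = byL (LL' q τ) 0 := rfl
      rw [e1]
      simp only [tA, byL]
      cases hb : ((τ 0).loc q).br with
      | none => exact ps_A q c τ S
      | some v => exact ps_v hN q c τ S v

include hN in
theorem gb' (e : LE ((τ 0).loc q) c) :
    ps q c τ S (eb q c τ (tedge q c τ e)) = gg q c τ S (tB S.b S.pos e) := by
  rcases e with e | (s | ⟨s, h⟩)
  · exact ps_locEnd hN q c τ S _
  · cases s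
    · have e1 : eb q c τ (tedge q c τ (.inr (.inl false))) = enR' q τ (-1 + 1) := rfl
      rw [e1, neg_add_cancel]
      exact ps_v hN q c τ S _
    · exact ps_Y hN q c τ S
  · cases s
    · have e1 : eb q c τ (tedge q c τ (.inr (.inr ⟨false, h⟩))) = byR (LL' q τ) (-1) := rfl
      rw [e1, byR_eq, neg_add_cancel]
      simp only [tB, byR']
      cases hb : ((τ 0).loc q).bl with
      | none => exact ps_B q c τ S
      | some v => exact ps_v hN q c τ S v
    · exact (gg_D q c τ S).symm

include hN in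
theorem gv' (p : ℤ) (h1 : 0 < p) (h2 : p < S.b) (v : VV q τ)
    (h : ps q c τ S v = gg q c τ S p) : ∃ v', S.pos v' = p := by
  rw [gg_loc hN q c τ S p h1 h2] at h
  unfold ps at h
  rw [lex_eq] at h
  obtain ⟨h3, h4⟩ := h
  rcases v with j | ⟨j, u⟩
  · simp only [p1] at h3; omega
  · by_cases hj : j = 0
    · subst hj
      simp only [p2, dif_pos] at h4
      exact ⟨_, h4⟩
    · have := ZMod.val_lt j
      simp only [p1, if_neg hj] at h3
      omega

include hN hodd in
/-- The glue data of the strip. -/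
noncomputable def stripGlue : Glue (tstrip q c τ) S (ℤ ×ₗ ℤ) where
  pos := ps q c τ S
  pos_inj := ps_inj q c τ S
  te := tedge q c τ
  td := td q c τ
  td_te := td_tedge q c τ hN
  te_td := tedge_td q c τ
  sd := sdd q c τ
  g := gg q c τ S
  hlt := fun u v hu hv => hlt' hN q c τ S u v hu hv
  ga := ga' hN q c τ S
  gb := gb' hN q c τ S
  gv := gv' hN q c τ S
  P0 := by
    intro f hf
    change ps q c τ S (ea q c τ f) ≠ ps q c τ S (eb q c τ f)
    unfold ps
    intro h
    rw [lex_eq] at h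
    obtain ⟨h1, h2⟩ := h
    rcases f with ⟨j, e⟩ | (j | ⟨j, hc⟩)
    · have hj := td_loc_none q c τ hf
      obtain ⟨e1, e2, e3, e4⟩ := loc_comps q c τ S hj e
      rw [e1, e3] at h1
      rw [e2, e4] at h2
      have a0 := (plX q (τ j)).a0 e
      refine (plX q (τ j)).ne e (c_inj (plX q (τ j)).inj ?_ h2)
      rw [a0]
      have h1' : c1 ((LL' q τ j).b e) = 0 := by omega
      exact h1'.symm
    · obtain ⟨hj, hj'⟩ := td_row_none q c τ hf
      obtain ⟨e1, e2, e3, e4⟩ := row_comps q c τ S hj hj'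
      rw [e1, e3] at h1
      omega
    · obtain ⟨hj, hj'⟩ := td_by_none q c τ hf
      obtain ⟨f1, f2⟩ := by_facts q c τ S hj hj'
      have e1 : ea q c τ (.inr (.inr ⟨j, hc⟩)) = byL (LL' q τ) j := rfl
      have e2 : eb q c τ (.inr (.inr ⟨j, hc⟩)) = byR (LL' q τ) j := rfl
      rw [e1, e2] at h1
      omega
  P1 := by
    intro f f' hf hf' hne hs
    change ¬ Interl (ps q c τ S (ea q c τ f)) (ps q c τ S (eb q c τ f))
        (ps q c τ S (ea q c τ f')) (ps q c τ S (eb q c τ f')) ∧
      ¬ (s(ps q c τ S (ea q c τ f), ps q c τ S (eb q c τ f)) =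
        s(ps q c τ S (ea q c τ f'), ps q c τ S (eb q c τ f')))
    unfold ps
    rw [lex_interl, lex_sym2]
    rcases f with ⟨j, e⟩ | (j | ⟨j, hc⟩) <;> rcases f' with ⟨j', e'⟩ | (j' | ⟨j', hc'⟩)
    · have hj := td_loc_none q c τ hf
      have hj' := td_loc_none q c τ hf'
      obtain ⟨e1, e2, e3, e4⟩ := loc_comps q c τ S hj e
      obtain ⟨e1', e2', e3', e4'⟩ := loc_comps q c τ S hj' e'
      rw [e1, e2, e3, e4, e1', e2', e3', e4']
      exact P1_ll q c τ hj hj' e e' hne hs
    · have hj := td_loc_none q c τ hf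
      obtain ⟨hk, hk'⟩ := td_row_none q c τ hf'
      obtain ⟨e1, e2, e3, e4⟩ := loc_comps q c τ S hj e
      obtain ⟨e1', e2', e3', e4'⟩ := row_comps q c τ S hk hk'
      rw [e1, e2, e3, e4, e1', e2', e3', e4']
      exact P1_lr q c τ hj hk hk' e hs
    · have hj := td_loc_none q c τ hf
      obtain ⟨hk, hk'⟩ := td_by_none q c τ hf'
      obtain ⟨e1, e2, e3, e4⟩ := loc_comps q c τ S hj e
      rw [e1, e2, e3, e4]
      exact P1_lb q c τ S hj hk hk' e hc' hs
    · have hj := td_loc_none q c τ hf'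
      obtain ⟨hk, hk'⟩ := td_row_none q c τ hf
      obtain ⟨e1, e2, e3, e4⟩ := loc_comps q c τ S hj e'
      obtain ⟨e1', e2', e3', e4'⟩ := row_comps q c τ S hk hk'
      rw [e1, e2, e3, e4, e1', e2', e3', e4']
      have h := P1_lr q c τ hj hk hk' e' hs.symm
      refine ⟨fun h' => h.1 ?_, fun h' => h.2 ?_⟩
      · rw [← lex_interl] at h' ⊢
        exact interl_symm _ _ _ _ h'
      · rw [← lex_sym2] at h' ⊢
        exact h'.symm
    · obtain ⟨hk, hk'⟩ := td_row_none q c τ hf
      obtain ⟨hj, hj'⟩ := td_row_none q c τ hf'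
      obtain ⟨e1, e2, e3, e4⟩ := row_comps q c τ S hk hk'
      obtain ⟨e1', e2', e3', e4'⟩ := row_comps q c τ S hj hj'
      rw [e1, e2, e3, e4, e1', e2', e3', e4']
      refine P1_rr ?_ _ _ _ _ hs
      rintro rfl; exact hne rfl
    · obtain ⟨hk, hk'⟩ := td_row_none q c τ hf
      obtain ⟨hj, hj'⟩ := td_by_none q c τ hf'
      obtain ⟨e1, e2, e3, e4⟩ := row_comps q c τ S hk hk'
      rw [e1, e2, e3, e4]
      exact P1_rb q c τ S hj hj' hs
    · have hj := td_loc_none q c τ hf'
      obtain ⟨hk, hk'⟩ := td_by_none q c τ hf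
      obtain ⟨e1, e2, e3, e4⟩ := loc_comps q c τ S hj e'
      rw [e1, e2, e3, e4]
      have h := P1_lb q c τ S hj hk hk' e' hc hs.symm
      refine ⟨fun h' => h.1 ?_, fun h' => h.2 ?_⟩
      · rw [← lex_interl] at h' ⊢
        exact interl_symm _ _ _ _ h'
      · rw [← lex_sym2] at h' ⊢
        exact h'.symm
    · obtain ⟨hk, hk'⟩ := td_row_none q c τ hf'
      obtain ⟨hj, hj'⟩ := td_by_none q c τ hf
      obtain ⟨e1, e2, e3, e4⟩ := row_comps q c τ S hk hk'
      rw [e1, e2, e3, e4]
      have h := P1_rb q c τ S (j := j') hj hj' hs.symm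
      refine ⟨fun h' => h.1 ?_, fun h' => h.2 ?_⟩
      · rw [← lex_interl] at h' ⊢
        exact interl_symm _ _ _ _ h'
      · rw [← lex_sym2] at h' ⊢
        exact h'.symm
    · obtain ⟨hk, hk'⟩ := td_by_none q c τ hf
      obtain ⟨hj, hj'⟩ := td_by_none q c τ hf'
      refine P1_bb q c τ S hk hk' hj hj' ?_ hs
      rintro rfl; exact hne rfl
  P2 := by
    intro f hf p h1 h2 hs
    change ¬ Btw (ps q c τ S (ea q c τ f)) (ps q c τ S (eb q c τ f)) (gg q c τ S p)
    unfold ps gg
    rw [lex_btw]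
    rcases f with ⟨j, e⟩ | (j | ⟨j, hc⟩)
    · have hj := td_loc_none q c τ hf
      obtain ⟨e1, e2, e3, e4⟩ := loc_comps q c τ S hj e
      rw [e1, e2, e3, e4]
      exact P2_loc hN hodd q c τ S hj e p h1 h2 hs
    · obtain ⟨hj, hj'⟩ := td_row_none q c τ hf
      obtain ⟨e1, e2, e3, e4⟩ := row_comps q c τ S hj hj'
      exact P2_long hN hodd q c τ S hj' hj _ _ _ _ (Or.inr e1) (Or.inr e3) p h1 h2 hs
    · obtain ⟨hj, hj'⟩ := td_by_none q c τ hf
      obtain ⟨f1, f2⟩ := by_facts q c τ S hj hj'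
      refine P2_long hN hodd q c τ S hj' hj _ _ _ _ ?_ ?_ p h1 h2 hs
      · rcases f1 with f1 | f1
        · exact Or.inl f1
        · exact Or.inr f1.1
      · rcases f2 with f2 | f2
        · exact Or.inl f2
        · exact Or.inr f2.1
  P3 := by
    intro f hf p h1 h2
    have hN' := NeZero.pos N
    change gg q c τ S p ≠ ps q c τ S (ea q c τ f) ∧ gg q c τ S p ≠ ps q c τ S (eb q c τ f)
    rw [gg_loc hN q c τ S p h1 h2]
    unfold ps
    have key : ∀ x : VV q τ, p1 q τ x < 2 * (N : ℤ) - 1 →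
        (toLex (2 * (N : ℤ) - 1, p) : ℤ ×ₗ ℤ) ≠ toLex (p1 q τ x, p2 q c τ S x) := by
      intro x hx h
      rw [lex_eq] at h
      omega
    rcases f with ⟨j, e⟩ | (j | ⟨j, hc⟩)
    · have hj := td_loc_none q c τ hf
      obtain ⟨e1, e2, e3, e4⟩ := loc_comps q c τ S hj e
      have := ZMod.val_lt j
      have hc := cfact (xOff q (τ j)) ((LL' q τ j).b e)
      exact ⟨key _ (by omega), key _ (by omega)⟩
    · obtain ⟨hj, hj'⟩ := td_row_none q c τ hf
      obtain ⟨e1, e2, e3, e4⟩ := row_comps q c τ S hj hj'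
      have := ZMod.val_lt j
      have hv := val_neg_one' (N := N)
      have : j.val + 1 ≠ N := by
        intro h
        apply hj
        apply ZMod.val_injective N
        omega
      exact ⟨key _ (by omega), key _ (by omega)⟩
    · obtain ⟨hj, hj'⟩ := td_by_none q c τ hf
      obtain ⟨f1, f2⟩ := by_facts q c τ S hj hj'
      have := ZMod.val_lt j
      have hv := val_neg_one' (N := N)
      have : j.val + 1 ≠ N := by
        intro h
        apply hj
        apply ZMod.val_injective N
        omega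
      have e1 : ea q c τ (.inr (.inr ⟨j, hc⟩)) = byL (LL' q τ) j := rfl
      have e2 : eb q c τ (.inr (.inr ⟨j, hc⟩)) = byR (LL' q τ) j := rfl
      refine ⟨key _ ?_, key _ ?_⟩
      · rw [e1]; omega
      · rw [e2]; omega

end strip

end FCG20

/-- FCG1 -/
theorem fcg_full {N : ℕ} [NeZero N] (hN : 5 ≤ N) (hodd : N % 2 = 1) (q : ℕ) (c : Bool)
    (τ : ZMod N → RT) (K : ℕ)
    (S : TLay ((τ 0).loc q) c (fun _ => True)) (hS : S.cross.card ≤ K) :
    ∃ (α : Type) (_ : LinearOrder α) (S' : Spine (tstrip q c τ) α), S'.crossings.card ≤ K ∧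
      ∀ e, S.Crossed e → S'.Crossed (tedge q c τ e) := by
  obtain ⟨S', h1, h2⟩ := FCG20.glue_full (FCG20.stripGlue hN hodd q c τ S)
  exact ⟨_, _, S', h1.trans hS, h2⟩

/-- FCG2 -/
theorem fcg_del {N : ℕ} [NeZero N] (hN : 5 ≤ N) (hodd : N % 2 = 1) (q : ℕ) (c : Bool)
    (τ : ZMod N → RT) (K : ℕ) (e : LE ((τ 0).loc q) c)
    (h : TDel ((τ 0).loc q) c K e) :
    ∃ (α : Type) (_ : LinearOrder α) (S' : Spine ((tstrip q c τ).del (tedge q c τ e)) α),
      S'.crossings.card + 1 ≤ K := by
  obtain ⟨S, hS⟩ := h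
  obtain ⟨S', h1⟩ := FCG20.glue_del (FCG20.stripGlue hN hodd q c τ S)
  exact ⟨_, _, S', (Nat.add_le_add_right h1 1).trans hS⟩

end Pool.Agent.CC
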