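import Pool.Agent.Lib_helper74.CCF.Tile

/-! # FCG, part 1: gluing (abstract) -/

namespace Pool.Agent.CC

open Gph

namespace FCG20

section order

variable {α : Type} [LinearOrder α]

/-- `z` is strictly between `x` and `y` -/
def Btw (x y z : α) : Prop := (x < z ∧ z < y) ∨ (y < z ∧ z < x)

/-- `z` is strictly outside -/
def Out (x y z : α) : Prop := (z < x ∧ z < y) ∨ (x < z ∧ y < z)

theorem interl_iff (x y z w : α) : Interl x y z w ↔
    (Btw x y z ∧ Out x y w) ∨ (Btw x y w ∧ Out x y z) := by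
  unfold Interl Btw Out
  rcases le_total x y with h1 | h1 <;> rcases le_total z w with h2 | h2 <;>
    simp only [min_eq_left h1, min_eq_right h1, max_eq_left h1, max_eq_right h1,
      min_eq_left h2, min_eq_right h2, max_eq_left h2, max_eq_right h2] <;>
    constructor <;> intro h
  · rcases h with ⟨h3, h4, h5⟩ | ⟨h3, h4, h5⟩
    · left; exact ⟨Or.inl ⟨h3, h4⟩, Or.inr ⟨lt_trans (lt_trans h3 h4) h5, h5⟩⟩
    · right; exact ⟨Or.inl ⟨h4, h5⟩, Or.inl ⟨h3, lt_trans (lt_trans h3 h4) h5⟩⟩
  · rcases h with ⟨h3 | h3, h4 | h4⟩ | ⟨h3 | h3, h4 | h4⟩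
    · exact absurd (lt_of_lt_of_le h3.1 h2) (not_lt.2 h4.1.le)
    · left; exact ⟨h3.1, h3.2, h4.2⟩
    · exact absurd (lt_trans h3.1 h3.2) (not_lt.2 h1)
    · exact absurd (lt_trans h3.1 h3.2) (not_lt.2 h1)
    · right; exact ⟨h4.1, h3.1, h3.2⟩
    · exact absurd (lt_of_lt_of_le h4.2 h2) (not_lt.2 h3.2.le)
    · exact absurd (lt_trans h3.1 h3.2) (not_lt.2 h1)
    · exact absurd (lt_trans h3.1 h3.2) (not_lt.2 h1)
  · rcases h with ⟨h3, h4, h5⟩ | ⟨h3, h4, h5⟩
    · right; exact ⟨Or.inl ⟨h3, h4⟩, Or.inr ⟨lt_trans (lt_trans h3 h4) h5, h5⟩⟩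
    · left; exact ⟨Or.inl ⟨h4, h5⟩, Or.inl ⟨h3, lt_trans (lt_trans h3 h4) h5⟩⟩
  · rcases h with ⟨h3 | h3, h4 | h4⟩ | ⟨h3 | h3, h4 | h4⟩
    · right; exact ⟨h4.1, h3.1, h3.2⟩
    · exact absurd (lt_of_lt_of_le h4.2 h2) (not_lt.2 h3.2.le)
    · exact absurd (lt_trans h3.1 h3.2) (not_lt.2 h1)
    · exact absurd (lt_trans h3.1 h3.2) (not_lt.2 h1)
    · exact absurd (lt_of_lt_of_le h3.1 h2) (not_lt.2 h4.1.le)
    · left; exact ⟨h3.1, h3.2, h4.2⟩
    · exact absurd (lt_trans h3.1 h3.2) (not_lt.2 h1)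
    · exact absurd (lt_trans h3.1 h3.2) (not_lt.2 h1)
  · rcases h with ⟨h3, h4, h5⟩ | ⟨h3, h4, h5⟩
    · left; exact ⟨Or.inr ⟨h3, h4⟩, Or.inr ⟨h5, lt_trans (lt_trans h3 h4) h5⟩⟩
    · right; exact ⟨Or.inr ⟨h4, h5⟩, Or.inl ⟨lt_trans (lt_trans h3 h4) h5, h3⟩⟩
  · rcases h with ⟨h3 | h3, h4 | h4⟩ | ⟨h3 | h3, h4 | h4⟩
    · exact absurd (lt_trans h3.1 h3.2) (not_lt.2 h1)
    · exact absurd (lt_trans h3.1 h3.2) (not_lt.2 h1)
    · exact absurd (lt_of_lt_of_le h3.1 h2) (not_lt.2 h4.2.le)
    · left; exact ⟨h3.1, h3.2, h4.1⟩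
    · exact absurd (lt_trans h3.1 h3.2) (not_lt.2 h1)
    · exact absurd (lt_trans h3.1 h3.2) (not_lt.2 h1)
    · right; exact ⟨h4.2, h3.1, h3.2⟩
    · exact absurd (lt_of_lt_of_le h4.1 h2) (not_lt.2 h3.2.le)
  · rcases h with ⟨h3, h4, h5⟩ | ⟨h3, h4, h5⟩
    · right; exact ⟨Or.inr ⟨h3, h4⟩, Or.inr ⟨h5, lt_trans (lt_trans h3 h4) h5⟩⟩
    · left; exact ⟨Or.inr ⟨h4, h5⟩, Or.inl ⟨lt_trans (lt_trans h3 h4) h5, h3⟩⟩
  · rcases h with ⟨h3 | h3, h4 | h4⟩ | ⟨h3 | h3, h4 | h4⟩
    · exact absurd (lt_trans h3.1 h3.2) (not_lt.2 h1)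
    · exact absurd (lt_trans h3.1 h3.2) (not_lt.2 h1)
    · right; exact ⟨h4.2, h3.1, h3.2⟩
    · exact absurd (lt_of_lt_of_le h4.1 h2) (not_lt.2 h3.2.le)
    · exact absurd (lt_trans h3.1 h3.2) (not_lt.2 h1)
    · exact absurd (lt_trans h3.1 h3.2) (not_lt.2 h1)
    · exact absurd (lt_of_lt_of_le h3.1 h2) (not_lt.2 h4.2.le)
    · left; exact ⟨h3.1, h3.2, h4.1⟩

theorem interl_symm (x y z w : α) : Interl x y z w → Interl z w x y := by
  unfold Interl; rintro (h | h) <;> [right; left] <;> exact h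

theorem not_interl_of_not_btw {x y z w : α} (h1 : ¬ Btw x y z) (h2 : ¬ Btw x y w) :
    ¬ Interl x y z w := by
  rw [interl_iff]; tauto

theorem not_interl_self (x y : α) : ¬ Interl x y x y := by
  apply not_interl_of_not_btw <;> unfold Btw <;> rintro (⟨h, h'⟩ | ⟨h, h'⟩)
  · exact lt_irrefl _ h
  · exact lt_irrefl _ h'
  · exact lt_irrefl _ h'
  · exact lt_irrefl _ h

end order

/-! ### Partial spine drawings -/

/-- A spine drawing of the edges in `keep`. -/
structure PSp (G : Gph) (α : Type) [LinearOrder α] (keep : G.E → Prop) where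
  pos : G.V → α
  pos_inj : Function.Injective pos
  route : G.E → List (Bool × α)
  cross : Finset α
  ne_nil : ∀ e, keep e → route e ≠ []
  last : ∀ e, keep e → ((route e).map Prod.snd).getLast? = some (pos (G.b e))
  nodup : ∀ e, keep e → (pos (G.a e) :: (route e).map Prod.snd).Nodup
  bend_ne : ∀ e, keep e → ∀ x ∈ ((route e).map Prod.snd).dropLast, ∀ v, x ≠ pos v
  planar : ∀ e f, keep e → keep f → ∀ p ∈ arcsOf (pos (G.a e)) (route e),
    ∀ q ∈ arcsOf (pos (G.a f)) (route f),
    p.1 = q.1 → ¬ Interl p.2.1 p.2.2 q.2.1 q.2.2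
  distinct : ∀ e f, keep e → keep f → e ≠ f → ∀ p ∈ arcsOf (pos (G.a e)) (route e),
    ∀ q ∈ arcsOf (pos (G.a f)) (route f), p.1 = q.1 → ¬ (s(p.2.1, p.2.2) = s(q.2.1, q.2.2))
  no_three : ∀ e f g, keep e → keep f → keep g → e ≠ f → e ≠ g → f ≠ g → ∀ x,
    x ∈ ((route e).map Prod.snd).dropLast → x ∈ ((route f).map Prod.snd).dropLast →
    x ∉ ((route g).map Prod.snd).dropLast
  hcross : ∀ e f, keep e → keep f → e ≠ f → ∀ x, x ∈ ((route e).map Prod.snd).dropLast →
    x ∈ ((route f).map Prod.snd).dropLast → x ∈ cross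

variable {G : Gph} {α : Type} [LinearOrder α]

def PSp.toSpine {keep : G.E → Prop} (P : PSp G α keep) (h : ∀ e, keep e) : Spine G α where
  pos := P.pos
  pos_inj := P.pos_inj
  route := P.route
  ne_nil := fun e => P.ne_nil e (h e)
  last := fun e => P.last e (h e)
  nodup := fun e => P.nodup e (h e)
  bend_ne := fun e => P.bend_ne e (h e)
  planar := fun e f => P.planar e f (h e) (h f)
  distinct := fun e f => P.distinct e f (h e) (h f)
  no_three := fun e f g => P.no_three e f g (h e) (h f) (h g)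

theorem mem_crossings (S : Spine G α) (x : α) :
    x ∈ S.crossings ↔ ∃ e f, e ≠ f ∧ x ∈ S.bends e ∧ x ∈ S.bends f := by
  unfold Spine.crossings
  simp only [Finset.mem_biUnion, Finset.mem_univ, true_and, Prod.exists]
  constructor
  · rintro ⟨e, f, h⟩
    by_cases hef : e ≠ f
    · rw [if_pos hef] at h
      simp only [Finset.mem_inter, List.mem_toFinset] at h
      exact ⟨e, f, hef, h.1, h.2⟩
    · rw [if_neg hef] at h
      simp at h
  · rintro ⟨e, f, hef, h1, h2⟩
    refine ⟨e, f, ?_⟩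
    rw [if_pos hef]
    simp only [Finset.mem_inter, List.mem_toFinset]
    exact ⟨h1, h2⟩

theorem PSp.toSpine_card {keep : G.E → Prop} (P : PSp G α keep) (h : ∀ e, keep e) :
    (P.toSpine h).crossings.card ≤ P.cross.card := by
  apply Finset.card_le_card
  intro x hx
  rw [mem_crossings] at hx
  obtain ⟨e, f, hef, h1, h2⟩ := hx
  exact P.hcross e f (h e) (h f) hef x h1 h2

def PSp.toDel {keep : G.E → Prop} (P : PSp G α keep) (e₀ : G.E) (h : ∀ e, e ≠ e₀ → keep e) :
    Spine (G.del e₀) α where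
  pos := P.pos
  pos_inj := P.pos_inj
  route := fun e => P.route e.1
  ne_nil := fun e => P.ne_nil e.1 (h e.1 e.2)
  last := fun e => P.last e.1 (h e.1 e.2)
  nodup := fun e => P.nodup e.1 (h e.1 e.2)
  bend_ne := fun e => P.bend_ne e.1 (h e.1 e.2)
  planar := fun e f => P.planar e.1 f.1 (h e.1 e.2) (h f.1 f.2)
  distinct := fun e f hef => P.distinct e.1 f.1 (h e.1 e.2) (h f.1 f.2)
    (fun h' => hef (Subtype.ext h'))
  no_three := fun e f g h1 h2 h3 => P.no_three e.1 f.1 g.1 (h e.1 e.2) (h f.1 f.2) (h g.1 g.2)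
    (fun h' => h1 (Subtype.ext h')) (fun h' => h2 (Subtype.ext h')) (fun h' => h3 (Subtype.ext h'))

theorem PSp.toDel_card {keep : G.E → Prop} (P : PSp G α keep) (e₀ : G.E)
    (h : ∀ e, e ≠ e₀ → keep e) :
    (P.toDel e₀ h).crossings.card ≤ P.cross.card := by
  apply Finset.card_le_card
  intro x hx
  rw [mem_crossings] at hx
  obtain ⟨e, f, hef, h1, h2⟩ := hx
  exact P.hcross e.1 f.1 (h e.1 e.2) (h f.1 f.2) (fun h' => hef (Subtype.ext h')) x h1 h2

/-! ### Routes under a map -/

theorem arcsOf_map {α β : Type} (g : α → β) (x : α) (l : List (Bool × α)) :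
    arcsOf (g x) (l.map (fun p => (p.1, g p.2))) =
      (arcsOf x l).map (fun p => (p.1, g p.2.1, g p.2.2)) := by
  induction l generalizing x with
  | nil => rfl
  | cons p l ih => obtain ⟨s, y⟩ := p; simp only [List.map_cons, arcsOf, ih]

theorem map_snd_map {α β : Type} (g : α → β) (l : List (Bool × α)) :
    (l.map (fun p => (p.1, g p.2))).map Prod.snd = (l.map Prod.snd).map g := by
  simp only [List.map_map]; rfl

theorem arcsOf_mem {α : Type} (x : α) (l : List (Bool × α)) :
    ∀ p ∈ arcsOf x l, p.2.1 ∈ (x :: (l.map Prod.snd)).dropLast ∧ p.2.2 ∈ l.map Prod.snd := by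
  induction l generalizing x with
  | nil => intro p hp; simp [arcsOf] at hp
  | cons q l ih =>
    obtain ⟨s, y⟩ := q
    intro p hp
    simp only [arcsOf, List.mem_cons] at hp
    rcases hp with rfl | hp
    · constructor
      · simp
      · simp
    · obtain ⟨h1, h2⟩ := ih y p hp
      constructor
      · simp only [List.map_cons, List.dropLast_cons_cons, List.mem_cons]
        right; exact h1
      · simp only [List.map_cons, List.mem_cons]; right; exact h2

theorem mem_of_getLast {α : Type} (l : List α) (x : α) (h : l.getLast? = some x) :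
    ∀ y ∈ l, y ∈ l.dropLast ∨ y = x := by
  intro y hy
  have hne : l ≠ [] := by rintro rfl; simp at h
  rw [List.getLast?_eq_getLast_of_ne_nil hne] at h
  have h' := Option.some.inj h
  have h2 := List.dropLast_append_getLast hne
  rw [← h2] at hy
  rw [List.mem_append, List.mem_singleton] at hy
  rw [← h']
  exact hy

/-! ### Tile arcs -/

section tile
variable {L : Loc} {c : Bool} {keep : LE L c → Prop} (S : TLay L c keep)

theorem ePos_mem (x : L.V ⊕ Bool) : 0 ≤ ePos S.b S.pos x ∧ ePos S.b S.pos x ≤ S.b := by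
  have hb : 0 < S.b := by
    have := S.pos_mem L.en; omega
  match x with
  | .inl v => have := S.pos_mem v; exact ⟨this.1.le, this.2.le⟩
  | .inr false => exact ⟨le_refl _, hb.le⟩
  | .inr true => exact ⟨hb.le, le_refl _⟩

theorem tA_mem (e : LE L c) : -2 ≤ tA S.b S.pos e ∧ tA S.b S.pos e ≤ S.b + 2 := by
  have hb : 0 < S.b := by
    have := S.pos_mem L.en; omega
  match e with
  | .inl e => have := ePos_mem S (L.a e); simp only [tA]; omega
  | .inr (.inl false) => simp only [tA]; omega
  | .inr (.inl true) => have := S.pos_mem L.ex; simp only [tA]; omega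
  | .inr (.inr ⟨false, _⟩) => simp only [tA]; omega
  | .inr (.inr ⟨true, _⟩) =>
    simp only [tA]
    cases h : L.br with
    | none => simp only; omega
    | some v => have := S.pos_mem v; simp only; omega

theorem tB_mem (e : LE L c) : -2 ≤ tB S.b S.pos e ∧ tB S.b S.pos e ≤ S.b + 2 := by
  have hb : 0 < S.b := by
    have := S.pos_mem L.en; omega
  match e with
  | .inl e => have := ePos_mem S (L.b e); simp only [tB]; omega
  | .inr (.inl true) => simp only [tB]; omega
  | .inr (.inl false) => have := S.pos_mem L.en; simp only [tB]; omega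
  | .inr (.inr ⟨true, _⟩) => simp only [tB]; omega
  | .inr (.inr ⟨false, _⟩) =>
    simp only [tB]
    cases h : L.bl with
    | none => simp only; omega
    | some v => have := S.pos_mem v; simp only; omega

theorem route_mem (e : LE L c) (he : keep e) :
    ∀ x ∈ tA S.b S.pos e :: (S.route e).map Prod.snd, -2 ≤ x ∧ x ≤ S.b + 2 := by
  intro x hx
  rw [List.mem_cons] at hx
  rcases hx with rfl | hx
  · exact tA_mem S e
  · rcases mem_of_getLast _ _ (S.last e he) x hx with h | rfl
    · have := S.bend_mem e he x h; omega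
    · exact tB_mem S e

theorem arc_mem (e : LE L c) (he : keep e) :
    ∀ p ∈ arcsOf (tA S.b S.pos e) (S.route e),
      (-2 ≤ p.2.1 ∧ p.2.1 ≤ S.b + 2) ∧ (-2 ≤ p.2.2 ∧ p.2.2 ≤ S.b + 2) := by
  intro p hp
  obtain ⟨h1, h2⟩ := arcsOf_mem _ _ p hp
  exact ⟨route_mem S e he _ (List.mem_of_mem_dropLast h1),
    route_mem S e he _ (List.mem_cons_of_mem _ h2)⟩

end tile

/-- The cyclic order of the tile positions, cut between `A - 1`... and `B`: the positions `b`,
`b+1`, `b+2` come first. -/
def rk (b x : ℤ) : ℤ := if b ≤ x then x - b - 10 else x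

theorem rk_interl (b x y z w : ℤ) (_hb : 0 < b) (hx : -2 ≤ x ∧ x ≤ b + 2) (hy : -2 ≤ y ∧ y ≤ b + 2)
    (hz : -2 ≤ z ∧ z ≤ b + 2) (hw : -2 ≤ w ∧ w ≤ b + 2)
    (h : Interl (rk b x) (rk b y) (rk b z) (rk b w)) : Interl x y z w := by
  rw [interl_iff] at h ⊢
  unfold Btw Out rk at *
  split_ifs at h <;> omega

/-! ### Gluing -/

structure Glue (G : Gph) {L : Loc} {c : Bool} {keep : LE L c → Prop} (S : TLay L c keep)
    (α : Type) [LinearOrder α] where
  pos : G.V → α
  pos_inj : Function.Injective pos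
  te : LE L c → G.E
  td : G.E → Option (LE L c)
  td_te : ∀ e, td (te e) = some e
  te_td : ∀ f e, td f = some e → te e = f
  sd : G.E → Bool
  g : ℤ → α
  hlt : ∀ u v, (-2 ≤ u ∧ u ≤ S.b + 2) → (-2 ≤ v ∧ v ≤ S.b + 2) →
    (g u < g v ↔ rk S.b u < rk S.b v)
  ga : ∀ e, pos (G.a (te e)) = g (tA S.b S.pos e)
  gb : ∀ e, pos (G.b (te e)) = g (tB S.b S.pos e)
  gv : ∀ p, 0 < p → p < S.b → ∀ v, pos v = g p → ∃ v', S.pos v' = p
  P0 : ∀ f, td f = none → pos (G.a f) ≠ pos (G.b f)
  P1 : ∀ f f', td f = none → td f' = none → f ≠ f' → sd f = sd f' →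
    ¬ Interl (pos (G.a f)) (pos (G.b f)) (pos (G.a f')) (pos (G.b f')) ∧
    s(pos (G.a f), pos (G.b f)) ≠ s(pos (G.a f'), pos (G.b f'))
  P2 : ∀ f, td f = none → ∀ p, -2 ≤ p → p ≤ S.b + 2 → (sd f = true → 0 ≤ p ∧ p ≤ S.b) →
    ¬ Btw (pos (G.a f)) (pos (G.b f)) (g p)
  P3 : ∀ f, td f = none → ∀ p, 0 < p → p < S.b → g p ≠ pos (G.a f) ∧ g p ≠ pos (G.b f)

namespace Glue

variable {G : Gph} {L : Loc} {c : Bool} {keep : LE L c → Prop} {S : TLay L c keep}
    {α : Type} [LinearOrder α] (D : Glue G S α)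

def keep' (f : G.E) : Prop := ∀ e, D.td f = some e → keep e

def route (f : G.E) : List (Bool × α) :=
  match D.td f with
  | some e => (S.route e).map (fun p => (p.1, D.g p.2))
  | none => [(D.sd f, D.pos (G.b f))]

theorem route_te {f : G.E} {e : LE L c} (h : D.td f = some e) :
    D.route f = (S.route e).map (fun p => (p.1, D.g p.2)) := by
  unfold route; rw [h]

theorem route_none {f : G.E} (h : D.td f = none) : D.route f = [(D.sd f, D.pos (G.b f))] := by
  unfold route; rw [h]

theorem g_inj {u v : ℤ} (hu : -2 ≤ u ∧ u ≤ S.b + 2) (hv : -2 ≤ v ∧ v ≤ S.b + 2)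
    (h : D.g u = D.g v) : u = v := by
  have h1 := D.hlt u v hu hv
  have h2 := D.hlt v u hv hu
  rw [h] at h1 h2
  have h3 : ¬ rk S.b u < rk S.b v := fun h => lt_irrefl _ (h1.2 h)
  have h4 : ¬ rk S.b v < rk S.b u := fun h => lt_irrefl _ (h2.2 h)
  unfold rk at h3 h4
  split_ifs at h3 h4 <;> omega

theorem g_interl {x y z w : ℤ} (hx : -2 ≤ x ∧ x ≤ S.b + 2) (hy : -2 ≤ y ∧ y ≤ S.b + 2)
    (hz : -2 ≤ z ∧ z ≤ S.b + 2) (hw : -2 ≤ w ∧ w ≤ S.b + 2)
    (h : Interl (D.g x) (D.g y) (D.g z) (D.g w)) : Interl x y z w := by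
  have hb : 0 < S.b := by
    have := S.pos_mem L.en; omega
  refine rk_interl S.b x y z w hb hx hy hz hw ?_
  rw [interl_iff] at h ⊢
  unfold Btw Out at *
  simp only [D.hlt _ _ hx hy, D.hlt _ _ hx hz, D.hlt _ _ hx hw, D.hlt _ _ hy hx, D.hlt _ _ hy hz,
    D.hlt _ _ hy hw, D.hlt _ _ hz hx, D.hlt _ _ hz hy, D.hlt _ _ hz hw, D.hlt _ _ hw hx,
    D.hlt _ _ hw hy, D.hlt _ _ hw hz] at h
  exact h

theorem bends_te {f : G.E} {e : LE L c} (h : D.td f = some e) :
    ((D.route f).map Prod.snd).dropLast = (((S.route e).map Prod.snd).dropLast).map D.g := by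
  rw [D.route_te h, map_snd_map, List.map_dropLast]

theorem bends_none {f : G.E} (h : D.td f = none) :
    ((D.route f).map Prod.snd).dropLast = [] := by
  rw [D.route_none h]; rfl

theorem arcs_te {f : G.E} {e : LE L c} (h : D.td f = some e) :
    arcsOf (D.pos (G.a f)) (D.route f) =
      (arcsOf (tA S.b S.pos e) (S.route e)).map (fun p => (p.1, D.g p.2.1, D.g p.2.2)) := by
  have h1 := D.te_td f e h
  rw [D.route_te h, ← arcsOf_map, ← D.ga e, h1]

theorem arcs_none {f : G.E} (h : D.td f = none) :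
    arcsOf (D.pos (G.a f)) (D.route f) = [(D.sd f, D.pos (G.a f), D.pos (G.b f))] := by
  rw [D.route_none h]; rfl

theorem planar_mixed {f f' : G.E} {e : LE L c} (h : D.td f = some e) (he : keep e)
    (h' : D.td f' = none) :
    ∀ p ∈ arcsOf (D.pos (G.a f)) (D.route f), ∀ q ∈ arcsOf (D.pos (G.a f')) (D.route f'),
    p.1 = q.1 → ¬ Interl p.2.1 p.2.2 q.2.1 q.2.2 ∧ ¬ (s(p.2.1, p.2.2) = s(q.2.1, q.2.2)) := by
  rw [D.arcs_te h, D.arcs_none h']
  intro p hp q hq hpq
  rw [List.mem_map] at hp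
  obtain ⟨r, hr, rfl⟩ := hp
  rw [List.mem_singleton] at hq
  subst hq
  simp only at hpq ⊢
  obtain ⟨h1, h2⟩ := arc_mem S e he r hr
  constructor
  · intro hI
    refine not_interl_of_not_btw (D.P2 f' h' r.2.1 h1.1 h1.2 ?_) (D.P2 f' h' r.2.2 h2.1 h2.2 ?_)
      (interl_symm _ _ _ _ hI)
    · intro hs
      exact (S.upper e he r hr (hpq.trans hs)).1
    · intro hs
      exact (S.upper e he r hr (hpq.trans hs)).2
  · intro hs
    rw [Sym2.eq_iff] at hs
    rcases S.loc e he r hr with hl | hl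
    · have := D.P3 f' h' _ hl.1 hl.2
      rcases hs with ⟨h3, _⟩ | ⟨h3, _⟩
      · exact this.1 h3
      · exact this.2 h3
    · have := D.P3 f' h' _ hl.1 hl.2
      rcases hs with ⟨_, h3⟩ | ⟨_, h3⟩
      · exact this.2 h3
      · exact this.1 h3

def toPSp : PSp G α D.keep' where
  pos := D.pos
  pos_inj := D.pos_inj
  route := D.route
  cross := S.cross.image D.g
  ne_nil := by
    intro f hf
    cases h : D.td f with
    | none => rw [D.route_none h]; simp
    | some e => rw [D.route_te h]; simpa using S.ne_nil e (hf e h)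
  last := by
    intro f hf
    cases h : D.td f with
    | none => rw [D.route_none h]; rfl
    | some e =>
      rw [D.route_te h, map_snd_map, List.getLast?_map, S.last e (hf e h)]
      have h1 := D.te_td f e h
      simp only [Option.map_some]
      rw [← D.gb e, h1]
  nodup := by
    intro f hf
    cases h : D.td f with
    | none => rw [D.route_none h]; simpa using D.P0 f h
    | some e =>
      have h1 := D.te_td f e h
      rw [D.route_te h, map_snd_map, ← h1, D.ga e, ← List.map_cons (f := D.g)]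
      refine List.Nodup.map_on ?_ (S.nodup e (hf e h))
      intro x hx y hy hxy
      exact D.g_inj (route_mem S e (hf e h) x hx) (route_mem S e (hf e h) y hy) hxy
  bend_ne := by
    intro f hf
    cases h : D.td f with
    | none => rw [D.bends_none h]; intro x hx; simp at hx
    | some e =>
      rw [D.bends_te h]
      intro x hx v hv
      rw [List.mem_map] at hx
      obtain ⟨p, hp, rfl⟩ := hx
      have h2 := S.bend_mem e (hf e h) p hp
      obtain ⟨v', hv'⟩ := D.gv p h2.1 h2.2 v hv.symm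
      exact S.bend_ne e (hf e h) p hp v' hv'.symm
  planar := by
    intro f f' hf hf'
    cases h : D.td f with
    | none =>
      cases h' : D.td f' with
      | none =>
        rw [D.arcs_none h, D.arcs_none h']
        intro p hp q hq hpq
        rw [List.mem_singleton] at hp hq
        subst hp hq
        by_cases hff : f = f'
        · subst hff; exact not_interl_self _ _
        · exact (D.P1 f f' h h' hff hpq).1
      | some e' =>
        intro p hp q hq hpq hI
        exact (D.planar_mixed h' (hf' e' h') h q hq p hp hpq.symm).1 (interl_symm _ _ _ _ hI)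
    | some e =>
      cases h' : D.td f' with
      | none =>
        intro p hp q hq hpq
        exact (D.planar_mixed h (hf e h) h' p hp q hq hpq).1
      | some e' =>
        rw [D.arcs_te h, D.arcs_te h']
        intro p hp q hq hpq
        rw [List.mem_map] at hp hq
        obtain ⟨r, hr, rfl⟩ := hp
        obtain ⟨r', hr', rfl⟩ := hq
        simp only at hpq ⊢
        intro hI
        obtain ⟨h1, h2⟩ := arc_mem S e (hf e h) r hr
        obtain ⟨h3, h4⟩ := arc_mem S e' (hf' e' h') r' hr'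
        exact S.planar e e' (hf e h) (hf' e' h') r hr r' hr' hpq (D.g_interl h1 h2 h3 h4 hI)
  distinct := by
    intro f f' hf hf' hne
    cases h : D.td f with
    | none =>
      cases h' : D.td f' with
      | none =>
        rw [D.arcs_none h, D.arcs_none h']
        intro p hp q hq hpq
        rw [List.mem_singleton] at hp hq
        subst hp hq
        exact (D.P1 f f' h h' hne hpq).2
      | some e' =>
        intro p hp q hq hpq hI
        exact (D.planar_mixed h' (hf' e' h') h q hq p hp hpq.symm).2 hI.symm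
    | some e =>
      cases h' : D.td f' with
      | none =>
        intro p hp q hq hpq
        exact (D.planar_mixed h (hf e h) h' p hp q hq hpq).2
      | some e' =>
        rw [D.arcs_te h, D.arcs_te h']
        intro p hp q hq hpq
        rw [List.mem_map] at hp hq
        obtain ⟨r, hr, rfl⟩ := hp
        obtain ⟨r', hr', rfl⟩ := hq
        simp only at hpq ⊢
        intro hI
        obtain ⟨h1, h2⟩ := arc_mem S e (hf e h) r hr
        obtain ⟨h3, h4⟩ := arc_mem S e' (hf' e' h') r' hr'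
        have hne' : e ≠ e' := by
          rintro rfl
          exact hne ((D.te_td f e h).symm.trans (D.te_td f' e h'))
        refine S.distinct e e' (hf e h) (hf' e' h') hne' r hr r' hr' hpq ?_
        rw [Sym2.eq_iff] at hI ⊢
        rcases hI with ⟨h5, h6⟩ | ⟨h5, h6⟩
        · left; exact ⟨D.g_inj h1 h3 h5, D.g_inj h2 h4 h6⟩
        · right; exact ⟨D.g_inj h1 h4 h5, D.g_inj h2 h3 h6⟩
  no_three := by
    intro f f' f'' hf hf' hf'' h1 h2 h3 x hx hx' hx''
    cases h : D.td f with
    | none => rw [D.bends_none h] at hx; simp at hx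
    | some e =>
      cases h' : D.td f' with
      | none => rw [D.bends_none h'] at hx'; simp at hx'
      | some e' =>
        cases h'' : D.td f'' with
        | none => rw [D.bends_none h''] at hx''; simp at hx''
        | some e'' =>
          rw [D.bends_te h, List.mem_map] at hx
          rw [D.bends_te h', List.mem_map] at hx'
          rw [D.bends_te h'', List.mem_map] at hx''
          obtain ⟨p, hp, rfl⟩ := hx
          obtain ⟨p', hp', hpp'⟩ := hx'
          obtain ⟨p'', hp'', hpp''⟩ := hx''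
          have b1 := S.bend_mem e (hf e h) p hp
          have b2 := S.bend_mem e' (hf' e' h') p' hp'
          have b3 := S.bend_mem e'' (hf'' e'' h'') p'' hp''
          have e1 : p' = p := D.g_inj (by omega) (by omega) hpp'
          have e2 : p'' = p := D.g_inj (by omega) (by omega) hpp''
          subst e1 e2
          refine S.no_three e e' e'' (hf e h) (hf' e' h') (hf'' e'' h'') ?_ ?_ ?_ _ hp hp' hp''
          · rintro rfl; exact h1 ((D.te_td f e h).symm.trans (D.te_td f' e h'))
          · rintro rfl; exact h2 ((D.te_td f e h).symm.trans (D.te_td f'' e h''))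
          · rintro rfl; exact h3 ((D.te_td f' e' h').symm.trans (D.te_td f'' e' h''))
  hcross := by
    intro f f' hf hf' h1 x hx hx'
    cases h : D.td f with
    | none => rw [D.bends_none h] at hx; simp at hx
    | some e =>
      cases h' : D.td f' with
      | none => rw [D.bends_none h'] at hx'; simp at hx'
      | some e' =>
          rw [D.bends_te h, List.mem_map] at hx
          rw [D.bends_te h', List.mem_map] at hx'
          obtain ⟨p, hp, rfl⟩ := hx
          obtain ⟨p', hp', hpp'⟩ := hx'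
          have b1 := S.bend_mem e (hf e h) p hp
          have b2 := S.bend_mem e' (hf' e' h') p' hp'
          have e1 : p' = p := D.g_inj (by omega) (by omega) hpp'
          subst e1
          rw [Finset.mem_image]
          refine ⟨_, S.hcross e e' (hf e h) (hf' e' h') ?_ _ hp hp', rfl⟩
          rintro rfl; exact h1 ((D.te_td f e h).symm.trans (D.te_td f' e h'))

theorem toPSp_card : D.toPSp.cross.card ≤ S.cross.card := Finset.card_image_le

end Glue

theorem glue_full {G : Gph} {L : Loc} {c : Bool} {S : TLay L c (fun _ => True)}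
    {α : Type} [LinearOrder α] (D : Glue G S α) :
    ∃ S' : Spine G α, S'.crossings.card ≤ S.cross.card ∧
      ∀ e, S.Crossed e → S'.Crossed (D.te e) := by
  refine ⟨D.toPSp.toSpine (fun _ _ _ => trivial), (D.toPSp.toSpine_card _).trans D.toPSp_card, ?_⟩
  rintro e ⟨f, hfe, x, hx, hx'⟩
  have h1 : D.g x ∈ (D.toPSp.toSpine (fun _ _ _ => trivial)).bends (D.te e) := by
    change D.g x ∈ ((D.route (D.te e)).map Prod.snd).dropLast
    rw [D.bends_te (D.td_te e)]
    exact List.mem_map_of_mem hx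
  have h2 : D.g x ∈ (D.toPSp.toSpine (fun _ _ _ => trivial)).bends (D.te f) := by
    change D.g x ∈ ((D.route (D.te f)).map Prod.snd).dropLast
    rw [D.bends_te (D.td_te f)]
    exact List.mem_map_of_mem hx'
  refine ⟨D.g x, h1, ?_⟩
  rw [mem_crossings]
  refine ⟨D.te e, D.te f, ?_, h1, h2⟩
  intro h
  have h3 := D.td_te e
  rw [h, D.td_te f] at h3
  exact hfe (Option.some.inj h3)

theorem glue_del {G : Gph} {L : Loc} {c : Bool} {e₀ : LE L c} {S : TLay L c (fun f => f ≠ e₀)}
    {α : Type} [LinearOrder α] (D : Glue G S α) :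
    ∃ S' : Spine (G.del (D.te e₀)) α, S'.crossings.card ≤ S.cross.card := by
  have hk : ∀ e, e ≠ D.te e₀ → D.keep' e := by
    intro e he f hf hfe
    rw [hfe] at hf
    exact he (D.te_td e e₀ hf).symm
  exact ⟨D.toPSp.toDel (D.te e₀) hk, (D.toPSp.toDel_card _ hk).trans D.toPSp_card⟩

end FCG20
end Pool.Agent.CC
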