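import Pool.Agent.Lib_helper74.CCF.Fcg1

/-! # FCG, part 2: planar layouts of the regions -/

set_option linter.all false

namespace Pool.Agent.CC

open Gph

namespace FCG20

/-- coordinates of a local end -/
def c1 {V : Type} : V ⊕ Bool → ℤ
  | .inl _ => 0
  | .inr false => -1
  | .inr true => 1

def c2 {V : Type} (off : V → ℤ) : V ⊕ Bool → ℤ
  | .inl v => off v
  | .inr _ => 0

/-- `(a,b) < (c,d)` lexicographically -/
def LL (a b c d : ℤ) : Prop := a < c ∨ (a = c ∧ b < d)

/-- strictly between -/
def BB (a b c d x y : ℤ) : Prop := (LL a b x y ∧ LL x y c d) ∨ (LL c d x y ∧ LL x y a b)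

/-- strictly outside -/
def OO (a b c d x y : ℤ) : Prop := (LL x y a b ∧ LL x y c d) ∨ (LL a b x y ∧ LL c d x y)

/-- interleaving -/
def II (a b c d x y z w : ℤ) : Prop :=
  (BB a b c d x y ∧ OO a b c d z w) ∨ (BB a b c d z w ∧ OO a b c d x y)

/-- the same pair -/
def EE (a b c d x y z w : ℤ) : Prop :=
  ((a = x ∧ b = y) ∧ (c = z ∧ d = w)) ∨ ((a = z ∧ b = w) ∧ (c = x ∧ d = y))

/-- A planar layout. -/
structure PL (L : Loc) (off : L.V → ℤ) (sd : L.E → Bool) : Prop where
  inj : ∀ u v, off u = off v → u = v
  av : ∀ e, ∃ v, L.a e = .inl v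
  bA : ∀ e, L.b e = .inr false → sd e = false
  bB : ∀ e, L.b e = .inr true → sd e = true
  ne : ∀ e, L.a e ≠ L.b e
  exmax : ∀ v, off v ≤ off L.ex
  enmin : ∀ v, off L.en ≤ off v
  br : ∀ v, L.br = some v → off v < off L.ex ∧ ∀ e, sd e = false →
    ¬ BB (c1 (L.a e)) (c2 off (L.a e)) (c1 (L.b e)) (c2 off (L.b e)) 0 (off v)
  bl : ∀ v, L.bl = some v → off L.en < off v ∧ ∀ e, sd e = true →
    ¬ BB (c1 (L.a e)) (c2 off (L.a e)) (c1 (L.b e)) (c2 off (L.b e)) 0 (off v)
  pl : ∀ e f, e ≠ f → sd e = sd f →
    ¬ II (c1 (L.a e)) (c2 off (L.a e)) (c1 (L.b e)) (c2 off (L.b e))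
      (c1 (L.a f)) (c2 off (L.a f)) (c1 (L.b f)) (c2 off (L.b f)) ∧
    ¬ EE (c1 (L.a e)) (c2 off (L.a e)) (c1 (L.b e)) (c2 off (L.b e))
      (c1 (L.a f)) (c2 off (L.a f)) (c1 (L.b f)) (c2 off (L.b f))

/-! ### T -/

def tOff (q : ℕ) : (TLoc q).V → ℤ := fun v => ((show Fin (2 * q + 2) from v).1 : ℤ)

def tSd (q : ℕ) : (TLoc q).E → Bool := fun e =>
  match (show Fin (2 * q + 2) ⊕ Fin (2 * q + 1) from e) with
  | .inl i => decide (i.1 % 2 = 0)
  | .inr _ => true

theorem plT (q : ℕ) : PL (TLoc q) (tOff q) (tSd q) where
  inj := by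
    intro u v h
    have : (show Fin (2 * q + 2) from u).1 = (show Fin (2 * q + 2) from v).1 := by
      unfold tOff at h; omega
    exact Fin.ext this
  av := by
    rintro (i | i) <;> exact ⟨_, rfl⟩
  bA := by
    rintro (i | i) h
    · have h' : decide (i.1 % 2 = 0) = false := Sum.inr.inj h
      exact h'
    · exact absurd h (by simp [TLoc])
  bB := by
    rintro (i | i) h
    · have h' : decide (i.1 % 2 = 0) = true := Sum.inr.inj h
      exact h'
    · rfl
  ne := by
    rintro (i | i) h
    · exact absurd h (by simp [TLoc])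
    · simp only [TLoc, Sum.inl.injEq, Fin.mk.injEq] at h
      omega
  exmax := by
    intro v
    have := (show Fin (2 * q + 2) from v).2
    simp only [tOff, TLoc]
    omega
  enmin := by
    intro v
    simp only [tOff, TLoc]
    omega
  br := by intro v h; simp [TLoc] at h
  bl := by intro v h; simp [TLoc] at h
  pl := by
    rintro (i | i) (j | j) hne hs
    · simp only [tSd, TLoc] at hs ⊢
      have hij : i.1 ≠ j.1 := by
        intro h; exact hne (congrArg Sum.inl (Fin.ext h))
      by_cases h : i.1 % 2 = 0
      · have h' : j.1 % 2 = 0 := by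
          simp only [h, decide_true] at hs; simpa using hs.symm
        simp only [h, h', decide_true, c1, c2, tOff, II, BB, OO, LL, EE]
        omega
      · have h' : ¬ j.1 % 2 = 0 := by
          simp only [h, decide_false] at hs; simpa using hs.symm
        simp only [h, h', decide_false, c1, c2, tOff, II, BB, OO, LL, EE]
        omega
    · simp only [tSd, TLoc] at hs ⊢
      have h : i.1 % 2 = 0 := by simpa using hs
      simp only [h, decide_true, c1, c2, tOff, II, BB, OO, LL, EE]
      omega
    · simp only [tSd, TLoc] at hs ⊢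
      have h : j.1 % 2 = 0 := by simpa using hs
      simp only [h, decide_true, c1, c2, tOff, II, BB, OO, LL, EE]
      omega
    · simp only [tSd, TLoc] at hs ⊢
      have hij : i.1 ≠ j.1 := by
        intro h; exact hne (congrArg Sum.inr (Fin.ext h))
      simp only [c1, c2, tOff, II, BB, OO, LL, EE]
      omega

/-! ### G -/

def gOff (q : ℕ) : (GLoc q).V → ℤ := fun v =>
  match (show Bool × Fin (2 * q + 2) from v) with
  | (false, i) => (i.1 : ℤ)
  | (true, i) => 4 * q + 3 - (i.1 : ℤ)

def gSd (q : ℕ) : (GLoc q).E → Bool := fun e =>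
  match (show Bool × (Fin (2 * q + 3) ⊕ Fin (2 * q + 1)) from e) with
  | (s, .inl k) => xor s (decide (k.1 % 2 = 0))
  | (_, .inr _) => true

theorem gEnd (q : ℕ) (s : Bool) (x : Fin (2 * q + 3) ⊕ Fin (2 * q + 1)) :
    c1 ((GLoc q).a (s, x)) = 0 := by
  rcases x with i | i <;> rfl

theorem plG (q : ℕ) : PL (GLoc q) (gOff q) (gSd q) where
  inj := by
    rintro ⟨s, i⟩ ⟨t, j⟩ h
    have hi := i.2
    have hj := j.2
    cases s <;> cases t <;> simp only [gOff] at h
    · have : i = j := Fin.ext (by omega)
      rw [this]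
    · omega
    · omega
    · have : i = j := Fin.ext (by omega)
      rw [this]
  av := by
    rintro ⟨s, (i | i)⟩ <;> exact ⟨_, rfl⟩
  bA := by
    rintro ⟨s, (i | i)⟩ h
    · have h' : xor s (decide (i.1 % 2 = 0)) = false := Sum.inr.inj h
      exact h'
    · exact absurd h (by simp [GLoc])
  bB := by
    rintro ⟨s, (i | i)⟩ h
    · have h' : xor s (decide (i.1 % 2 = 0)) = true := Sum.inr.inj h
      exact h'
    · rfl
  ne := by
    rintro ⟨s, (i | i)⟩ h
    · exact absurd h (by simp [GLoc])
    · simp only [GLoc, Sum.inl.injEq, Prod.mk.injEq, Fin.mk.injEq] at h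
      omega
  exmax := by
    rintro ⟨s, i⟩
    have := i.2
    cases s <;> simp only [gOff, GLoc] <;> omega
  enmin := by
    rintro ⟨s, i⟩
    have := i.2
    cases s <;> simp only [gOff, GLoc] <;> omega
  br := by intro v h; simp [GLoc] at h
  bl := by intro v h; simp [GLoc] at h
  pl := by
    rintro ⟨s, (i | i)⟩ ⟨t, (j | j)⟩ hne hs
    · have hi := i.2
      have hj := j.2
      simp only [gSd] at hs
      have hij : s = t → i.1 ≠ j.1 := by
        rintro rfl h; exact hne (congrArg _ (congrArg Sum.inl (Fin.ext h)))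
      by_cases h : i.1 % 2 = 0 <;> by_cases h' : j.1 % 2 = 0 <;> cases s <;> cases t <;>
        simp only [h, h', decide_true, decide_false, Bool.xor_false, Bool.xor_true, Bool.not_true,
          Bool.not_false, Bool.false_xor, Bool.true_xor, reduceCtorEq] at hs <;>
        simp only [reduceCtorEq, false_imp_iff, true_imp_iff] at hij <;>
        simp only [GLoc, h, h', decide_true, decide_false, Bool.xor_false, Bool.xor_true,
          Bool.not_true, Bool.not_false, Bool.false_xor, Bool.true_xor, c1, c2, gOff, II, BB, OO,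
          LL, EE] <;> omega
    · have hi := i.2
      have hj := j.2
      simp only [gSd] at hs
      by_cases h : i.1 % 2 = 0 <;> cases s <;> cases t <;>
        simp only [h, decide_true, decide_false, Bool.xor_false, Bool.xor_true, Bool.not_true,
          Bool.not_false, Bool.false_xor, Bool.true_xor, reduceCtorEq] at hs <;>
        simp only [GLoc, h, decide_true, decide_false, Bool.xor_false, Bool.xor_true,
          Bool.not_true, Bool.not_false, Bool.false_xor, Bool.true_xor, c1, c2, gOff, II, BB, OO,
          LL, EE] <;> omega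
    · have hi := i.2
      have hj := j.2
      simp only [gSd] at hs
      by_cases h : j.1 % 2 = 0 <;> cases s <;> cases t <;>
        simp only [h, decide_true, decide_false, Bool.xor_false, Bool.xor_true, Bool.not_true,
          Bool.not_false, Bool.false_xor, Bool.true_xor, reduceCtorEq] at hs <;>
        simp only [GLoc, h, decide_true, decide_false, Bool.xor_false, Bool.xor_true,
          Bool.not_true, Bool.not_false, Bool.false_xor, Bool.true_xor, c1, c2, gOff, II, BB, OO,
          LL, EE] <;> omega
    · have hi := i.2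
      have hj := j.2
      have hij : s = t → i.1 ≠ j.1 := by
        rintro rfl h; exact hne (congrArg _ (congrArg Sum.inr (Fin.ext h)))
      cases s <;> cases t <;>
        simp only [reduceCtorEq, false_imp_iff, true_imp_iff] at hij <;>
        simp only [GLoc, c1, c2, gOff, II, BB, OO, LL, EE] <;> omega

/-! ### W -/

def wOff1 {q : ℕ} : WV q → ℤ
  | .w => 0
  | .v1 => 1
  | .v2 => 2
  | .x i => 3 + (i.1 : ℤ)

def wOff (q : ℕ) : (WLoc q).V → ℤ := fun v =>
  match (show Bool × WV q from v) with
  | (false, v) => wOff1 v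
  | (true, v) => 4 * q + 9 - wOff1 v

def wSd (q : ℕ) : (WLoc q).E → Bool := fun e =>
  match (show Bool × WE q from e) with
  | (s, .b1) => !s
  | (s, .b2) => !s
  | (_, .eta) => true
  | (s, .sig) => s
  | (s, .s3) => s
  | (s, .leg k) => xor s (decide (k.1 % 2 = 0 ∧ k.1 ≠ 0))
  | (_, .row _) => true

/-- the shapes of the arcs of `W` -/
theorem wForm (q : ℕ) (s : Bool) (e : WE q) :
    (wSd q (s, e) = true ∧
      ((c1 ((WLoc q).b (s, e)) = 1 ∧ c2 (wOff q) ((WLoc q).b (s, e)) = 0 ∧
          1 ≤ c2 (wOff q) ((WLoc q).a (s, e)) ∧ c2 (wOff q) ((WLoc q).a (s, e)) ≤ 4 * q + 6) ∨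
        (c1 ((WLoc q).b (s, e)) = 0 ∧
          (c2 (wOff q) ((WLoc q).b (s, e)) = c2 (wOff q) ((WLoc q).a (s, e)) + 1 ∨
            c2 (wOff q) ((WLoc q).b (s, e)) = c2 (wOff q) ((WLoc q).a (s, e)) - 1)) ∨
        (c1 ((WLoc q).b (s, e)) = 0 ∧ c2 (wOff q) ((WLoc q).a (s, e)) = 4 * q + 7 ∧
          c2 (wOff q) ((WLoc q).b (s, e)) = 4 * q + 9) ∨
        (c1 ((WLoc q).b (s, e)) = 0 ∧ c2 (wOff q) ((WLoc q).a (s, e)) = 4 * q + 9 ∧
          c2 (wOff q) ((WLoc q).b (s, e)) = 4 * q + 6))) ∨
    (wSd q (s, e) = false ∧
      ((c1 ((WLoc q).b (s, e)) = -1 ∧ c2 (wOff q) ((WLoc q).b (s, e)) = 0 ∧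
          3 ≤ c2 (wOff q) ((WLoc q).a (s, e))) ∨
        (c1 ((WLoc q).b (s, e)) = 0 ∧ c2 (wOff q) ((WLoc q).a (s, e)) = 2 ∧
          c2 (wOff q) ((WLoc q).b (s, e)) = 0) ∨
        (c1 ((WLoc q).b (s, e)) = 0 ∧ c2 (wOff q) ((WLoc q).a (s, e)) = 0 ∧
          c2 (wOff q) ((WLoc q).b (s, e)) = 3))) := by
  cases e with
  | leg k =>
    have hk := k.2
    by_cases h : (k.1 % 2 = 0 ∧ k.1 ≠ 0) <;> cases s <;>
    simp only [wSd, WLoc, h, decide_true, decide_false, Bool.xor_false, Bool.xor_true,
        Bool.not_true, Bool.not_false, Bool.false_xor, Bool.true_xor, c1, c2, wOff, wOff1,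
        not_false_eq_true, and_self, ne_eq, reduceCtorEq, false_and, true_and, false_or,
        or_false] <;> omega
  | row k =>
    have hk := k.2
    cases s <;> simp only [wSd, WLoc, c1, c2, wOff, wOff1, reduceCtorEq, false_and, true_and,
      false_or, or_false] <;> omega
  | _ =>
    cases s <;> simp only [wSd, WLoc, c1, c2, wOff, wOff1, reduceCtorEq, false_and, true_and,
      false_or, or_false, Bool.not_true, Bool.not_false, Bool.true_eq_false] <;> first | omega | exact Or.inl trivial

theorem plW (q : ℕ) : PL (WLoc q) (wOff q) (wSd q) where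
  inj := by
    rintro ⟨s, u⟩ ⟨t, v⟩ h
    cases u <;> cases v <;> cases s <;> cases t <;> simp only [wOff, wOff1] at h <;>
      first
      | rfl
      | omega
      | (rename_i i j; have hi := i.2; have hj := j.2
         first
         | omega
         | (have : i = j := Fin.ext (by omega)
            rw [this]))
      | (rename_i i; have hi := i.2; omega)
  av := by
    rintro ⟨s, e⟩; cases e <;> exact ⟨_, rfl⟩
  bA := by
    rintro ⟨s, e⟩ h
    cases e <;> simp only [WLoc, reduceCtorEq, Sum.inr.injEq] at h <;> exact h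
  bB := by
    rintro ⟨s, e⟩ h
    cases e <;> simp only [WLoc, reduceCtorEq, Sum.inr.injEq] at h <;> exact h
  ne := by
    rintro ⟨s, e⟩ h
    cases e <;> simp only [WLoc, reduceCtorEq, Sum.inl.injEq, Prod.mk.injEq, WV.x.injEq,
      Fin.mk.injEq, and_false, true_and] at h
    omega
  exmax := by
    rintro ⟨s, u⟩
    cases u <;> cases s <;> simp only [wOff, wOff1, WLoc] <;>
      first
      | omega
      | (rename_i i; have hi := i.2; omega)
  enmin := by
    rintro ⟨s, u⟩
    cases u <;> cases s <;> simp only [wOff, wOff1, WLoc] <;>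
      first
      | omega
      | (rename_i i; have hi := i.2; omega)
  br := by
    intro v hv
    have hv' : v = (true, WV.v1) := (Option.some.inj hv).symm
    subst hv'
    refine ⟨by simp only [wOff, wOff1, WLoc]; omega, ?_⟩
    rintro ⟨s, e⟩ hs
    cases e with
    | leg k =>
      have hk := k.2
      by_cases h : (k.1 % 2 = 0 ∧ k.1 ≠ 0) <;> cases s <;>
      simp only [wSd, h, decide_true, decide_false, Bool.xor_false, Bool.xor_true, Bool.not_true,
          Bool.not_false, Bool.false_xor, Bool.true_xor, reduceCtorEq, not_false_eq_true,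
          and_self, ne_eq] at hs <;>
      simp only [WLoc, h, decide_true, decide_false, Bool.xor_false, Bool.xor_true,
          Bool.not_true, Bool.not_false, Bool.false_xor, Bool.true_xor, c1, c2, wOff, wOff1, BB,
          LL, not_false_eq_true, and_self, ne_eq] <;> omega
    | row k =>
      have hk := k.2
      cases s <;> simp only [WLoc, c1, c2, wOff, wOff1, BB, LL] <;> omega
    | _ =>
      cases s <;> simp only [wSd, Bool.not_true, Bool.not_false, reduceCtorEq] at hs <;>
      simp only [WLoc, c1, c2, wOff, wOff1, BB, LL, Bool.not_true, Bool.not_false] <;> omega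
  bl := by
    intro v hv
    have hv' : v = (false, WV.v1) := (Option.some.inj hv).symm
    subst hv'
    refine ⟨by simp only [wOff, wOff1, WLoc]; omega, ?_⟩
    rintro ⟨s, e⟩ hs
    cases e with
    | leg k =>
      have hk := k.2
      by_cases h : (k.1 % 2 = 0 ∧ k.1 ≠ 0) <;> cases s <;>
      simp only [wSd, h, decide_true, decide_false, Bool.xor_false, Bool.xor_true, Bool.not_true,
          Bool.not_false, Bool.false_xor, Bool.true_xor, reduceCtorEq, not_false_eq_true,
          and_self, ne_eq] at hs <;>
      simp only [WLoc, h, decide_true, decide_false, Bool.xor_false, Bool.xor_true,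
          Bool.not_true, Bool.not_false, Bool.false_xor, Bool.true_xor, c1, c2, wOff, wOff1, BB,
          LL, not_false_eq_true, and_self, ne_eq] <;> omega
    | row k =>
      have hk := k.2
      cases s <;> simp only [WLoc, c1, c2, wOff, wOff1, BB, LL] <;> omega
    | _ =>
      cases s <;> simp only [wSd, Bool.not_true, Bool.not_false, reduceCtorEq] at hs <;>
      simp only [WLoc, c1, c2, wOff, wOff1, BB, LL, Bool.not_true, Bool.not_false] <;> omega
  pl := by
    rintro ⟨s, e⟩ ⟨t, f⟩ hne hs
    constructor
    · intro hI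
      have h1 := wForm q s e
      have h2 := wForm q t f
      rw [hs] at h1
      have ha : ∀ s e, c1 ((WLoc q).a (s, e)) = 0 := by
        intro s e; cases e <;> rfl
      rw [ha s e, ha t f] at hI
      generalize c2 (wOff q) ((WLoc q).a (s, e)) = a at *
      generalize c2 (wOff q) ((WLoc q).a (t, f)) = a' at *
      generalize c2 (wOff q) ((WLoc q).b (s, e)) = b at *
      generalize c2 (wOff q) ((WLoc q).b (t, f)) = b' at *
      generalize c1 ((WLoc q).b (s, e)) = B at *
      generalize c1 ((WLoc q).b (t, f)) = B' at *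
      rcases h1 with ⟨k, h1 | h1 | h1 | h1⟩ | ⟨k, h1 | h1 | h1⟩
      · rcases h2 with ⟨k', h2 | h2 | h2 | h2⟩ | ⟨k', _⟩
        all_goals first
          | (rw [k] at k'; exact absurd k' (by decide))
          | (simp only [II, BB, OO, LL] at hI; omega)
      · rcases h2 with ⟨k', h2 | h2 | h2 | h2⟩ | ⟨k', _⟩
        all_goals first
          | (rw [k] at k'; exact absurd k' (by decide))
          | (simp only [II, BB, OO, LL] at hI; omega)
      · rcases h2 with ⟨k', h2 | h2 | h2 | h2⟩ | ⟨k', _⟩
        all_goals first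
          | (rw [k] at k'; exact absurd k' (by decide))
          | (simp only [II, BB, OO, LL] at hI; omega)
      · rcases h2 with ⟨k', h2 | h2 | h2 | h2⟩ | ⟨k', _⟩
        all_goals first
          | (rw [k] at k'; exact absurd k' (by decide))
          | (simp only [II, BB, OO, LL] at hI; omega)
      · rcases h2 with ⟨k', _⟩ | ⟨k', h2 | h2 | h2⟩
        all_goals first
          | (rw [k] at k'; exact absurd k' (by decide))
          | (simp only [II, BB, OO, LL] at hI; omega)
      · rcases h2 with ⟨k', _⟩ | ⟨k', h2 | h2 | h2⟩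
        all_goals first
          | (rw [k] at k'; exact absurd k' (by decide))
          | (simp only [II, BB, OO, LL] at hI; omega)
      · rcases h2 with ⟨k', _⟩ | ⟨k', h2 | h2 | h2⟩
        all_goals first
          | (rw [k] at k'; exact absurd k' (by decide))
          | (simp only [II, BB, OO, LL] at hI; omega)
    · intro hE
      simp only [EE] at hE
      cases e <;> cases f
      case leg.leg i j =>
        have hi := i.2
        have hj := j.2
        have hij : s = t → i.1 ≠ j.1 := by
          rintro rfl h; exact hne (congrArg _ (congrArg WE.leg (Fin.ext h)))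
        by_cases h : (i.1 % 2 = 0 ∧ i.1 ≠ 0) <;> by_cases h' : (j.1 % 2 = 0 ∧ j.1 ≠ 0) <;>
          cases s <;> cases t <;>
          simp only [wSd, h, h', decide_true, decide_false, Bool.xor_false, Bool.xor_true,
            Bool.not_true, Bool.not_false, Bool.false_xor, Bool.true_xor, reduceCtorEq,
            not_false_eq_true, and_self, ne_eq] at hs <;>
          simp only [reduceCtorEq, false_imp_iff, true_imp_iff] at hij <;>
          simp only [WLoc, h, h', decide_true, decide_false, Bool.xor_false, Bool.xor_true,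
            Bool.not_true, Bool.not_false, Bool.false_xor, Bool.true_xor, c1, c2, wOff, wOff1,
            not_false_eq_true, and_self, ne_eq] at hE <;> omega
      case row.row i j =>
        have hi := i.2
        have hj := j.2
        have hij : s = t → i.1 ≠ j.1 := by
          rintro rfl h; exact hne (congrArg _ (congrArg WE.row (Fin.ext h)))
        cases s <;> cases t <;>
          simp only [reduceCtorEq, false_imp_iff, true_imp_iff] at hij <;>
          simp only [WLoc, c1, c2, wOff, wOff1] at hE <;> omega
      all_goals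
        first
        | (rename_i i j; have hi := i.2; have hj := j.2
           by_cases h : (i.1 % 2 = 0 ∧ i.1 ≠ 0) <;> by_cases h' : (j.1 % 2 = 0 ∧ j.1 ≠ 0) <;>
             cases s <;> cases t <;>
             simp only [WLoc, h, h', decide_true, decide_false, Bool.xor_false, Bool.xor_true,
               Bool.not_true, Bool.not_false, Bool.false_xor, Bool.true_xor, c1, c2, wOff, wOff1,
               not_false_eq_true, and_self, ne_eq] at hE <;> omega)
        | (rename_i i; have hi := i.2
           by_cases h : (i.1 % 2 = 0 ∧ i.1 ≠ 0) <;>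
             cases s <;> cases t <;>
             simp only [WLoc, h, decide_true, decide_false, Bool.xor_false, Bool.xor_true,
               Bool.not_true, Bool.not_false, Bool.false_xor, Bool.true_xor, c1, c2, wOff, wOff1,
               not_false_eq_true, and_self, ne_eq] at hE <;> omega)
        | (cases s <;> cases t <;> first
             | exact absurd rfl hne
             | (simp only [WLoc, Bool.not_true, Bool.not_false, c1, c2, wOff, wOff1] at hE; omega))

end FCG20
end Pool.Agent.CC
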