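import Pool.Agent.Lib_helper74.CCF.Fcg2

/-! # FCG, part 3: the strip -/

set_option linter.all false

namespace Pool.Agent.CC

open Gph

namespace FCG20

theorem lex_lt (a b c d : ℤ) : (toLex (a, b) : ℤ ×ₗ ℤ) < toLex (c, d) ↔ LL a b c d := by
  rw [Prod.Lex.toLex_lt_toLex]; rfl

theorem lex_eq (a b c d : ℤ) : (toLex (a, b) : ℤ ×ₗ ℤ) = toLex (c, d) ↔ a = c ∧ b = d := by
  constructor
  · intro h
    have := toLex_inj.1 h
    exact Prod.mk.inj this
  · rintro ⟨rfl, rfl⟩; rfl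

theorem lex_btw (a b c d x y : ℤ) :
    Btw (toLex (a, b) : ℤ ×ₗ ℤ) (toLex (c, d)) (toLex (x, y)) ↔ BB a b c d x y := by
  unfold Btw BB; simp only [lex_lt]

theorem lex_out (a b c d x y : ℤ) :
    Out (toLex (a, b) : ℤ ×ₗ ℤ) (toLex (c, d)) (toLex (x, y)) ↔ OO a b c d x y := by
  unfold Out OO; simp only [lex_lt]

theorem lex_interl (a b c d x y z w : ℤ) :
    Interl (toLex (a, b) : ℤ ×ₗ ℤ) (toLex (c, d)) (toLex (x, y)) (toLex (z, w)) ↔
      II a b c d x y z w := by
  rw [interl_iff]; unfold II; simp only [lex_btw, lex_out]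

theorem lex_sym2 (a b c d x y z w : ℤ) :
    s((toLex (a, b) : ℤ ×ₗ ℤ), toLex (c, d)) = s(toLex (x, y), toLex (z, w)) ↔
      EE a b c d x y z w := by
  rw [Sym2.eq_iff]; unfold EE; simp only [lex_eq]

/-! ### Values in `ZMod N` -/

section zmod
variable {N : ℕ} [NeZero N]

theorem val_pos {j : ZMod N} (h : j ≠ 0) : 1 ≤ j.val := by
  rcases Nat.eq_zero_or_pos j.val with h' | h'
  · exact absurd ((ZMod.val_eq_zero j).1 h') h
  · exact h'

theorem val_neg_one' : (-1 : ZMod N).val + 1 = N := by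
  obtain ⟨n, rfl⟩ : ∃ n, N = n + 1 := ⟨N - 1, by have := NeZero.pos N; omega⟩
  rw [ZMod.val_neg_one]

theorem val_succ {j : ZMod N} (h : j ≠ -1) : (j + 1).val = j.val + 1 := by
  have hN : 1 < N := by
    have := NeZero.pos N
    rcases Nat.lt_or_ge 1 N with h' | h'
    · exact h'
    · have : N = 1 := by omega
      subst this
      exact absurd (Subsingleton.elim _ _) h
  have h1 : (1 : ZMod N).val = 1 := by
    haveI : Fact (1 < N) := ⟨hN⟩
    exact ZMod.val_one N
  have h2 := ZMod.val_lt j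
  have h3 : j.val ≠ N - 1 := by
    intro h3
    apply h
    apply ZMod.val_injective N
    have := val_neg_one' (N := N)
    omega
  rw [ZMod.val_add, h1, Nat.mod_eq_of_lt (by omega)]

theorem val_pred {j : ZMod N} (h : j ≠ 0) : (j - 1).val + 1 = j.val := by
  have h' : j - 1 ≠ -1 := by
    intro h1; apply h
    have : j = (j - 1) + 1 := by ring
    rw [this, h1]; ring
  have := val_succ h'
  rw [sub_add_cancel] at this
  exact this.symm

end zmod

/-! ### Layouts of the types -/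

def xOff (q : ℕ) : (X : RT) → (X.loc q).V → ℤ
  | .T => tOff (q + 1)
  | .G => gOff q
  | .W => wOff (q - 1)

def xSd (q : ℕ) : (X : RT) → (X.loc q).E → Bool
  | .T => tSd (q + 1)
  | .G => gSd q
  | .W => wSd (q - 1)

theorem plX (q : ℕ) (X : RT) : PL (X.loc q) (xOff q X) (xSd q X) := by
  cases X
  · exact plT (q + 1)
  · exact plG q
  · exact plW (q - 1)

theorem cfact {V : Type} (off : V → ℤ) (x : V ⊕ Bool) :
    (c1 x = -1 ∧ c2 off x = 0) ∨ c1 x = 0 ∨ (c1 x = 1 ∧ c2 off x = 0) := by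
  match x with
  | .inl v => right; left; rfl
  | .inr false => left; exact ⟨rfl, rfl⟩
  | .inr true => right; right; exact ⟨rfl, rfl⟩

theorem PL.rng {L : Loc} {off : L.V → ℤ} {sd : L.E → Bool} (P : PL L off sd) (x : L.V ⊕ Bool) :
    c1 x = 0 → off L.en ≤ c2 off x ∧ c2 off x ≤ off L.ex := by
  match x with
  | .inl v => intro _; exact ⟨P.enmin v, P.exmax v⟩
  | .inr false => intro h; simp [c1] at h
  | .inr true => intro h; simp [c1] at h

theorem PL.fA {L : Loc} {off : L.V → ℤ} {sd : L.E → Bool} (P : PL L off sd) (e : L.E)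
    (h : sd e = false) : c1 (L.b e) ≤ 0 := by
  cases hb : L.b e with
  | inl v => simp [c1]
  | inr s =>
    cases s
    · simp [c1]
    · rw [P.bB e hb] at h; exact absurd h (by decide)

theorem PL.fB {L : Loc} {off : L.V → ℤ} {sd : L.E → Bool} (P : PL L off sd) (e : L.E)
    (h : sd e = true) : 0 ≤ c1 (L.b e) := by
  cases hb : L.b e with
  | inl v => simp [c1]
  | inr s =>
    cases s
    · rw [P.bA e hb] at h; exact absurd h (by decide)
    · simp [c1]

theorem PL.a0 {L : Loc} {off : L.V → ℤ} {sd : L.E → Bool} (P : PL L off sd) (e : L.E) :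
    c1 (L.a e) = 0 := by
  obtain ⟨v, hv⟩ := P.av e; rw [hv]; rfl

/-! ### The data of the strip -/

section strip
variable {N : ℕ} [NeZero N] (q : ℕ) (c : Bool) (τ : ZMod N → RT)
  {keep : LE ((τ 0).loc q) c → Prop} (S : TLay ((τ 0).loc q) c keep)

/-- the local graphs -/
abbrev LL' (j : ZMod N) : Loc := (τ j).loc q

/-- vertices of the strip -/
abbrev VV : Type := ZMod N ⊕ (Σ j, (LL' q τ j).V)

/-- edges of the strip -/
abbrev EEd : Type := (Σ j, (LL' q τ j).E) ⊕ (ZMod N ⊕ {_j : ZMod N // c = true})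

def p1 : VV q τ → ℤ
  | .inl j => 2 * (j.val : ℤ)
  | .inr ⟨j, _⟩ => if j = 0 then 2 * (N : ℤ) - 1 else 2 * (j.val : ℤ) - 1

def p2 : VV q τ → ℤ
  | .inl _ => 0
  | .inr ⟨j, v⟩ => if h : j = 0 then S.pos (h ▸ v) else xOff q (τ j) v

def ps (x : VV q τ) : ℤ ×ₗ ℤ := toLex (p1 q τ x, p2 q c τ S x)

def td : EEd q c τ → Option (LE ((τ 0).loc q) c)
  | .inl ⟨j, e⟩ => if h : j = 0 then some (.inl (h ▸ e)) else none
  | .inr (.inl j) => if j = -1 then some (.inr (.inl false)) else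
      if j = 0 then some (.inr (.inl true)) else none
  | .inr (.inr ⟨j, h⟩) => if j = -1 then some (.inr (.inr ⟨false, h⟩)) else
      if j = 0 then some (.inr (.inr ⟨true, h⟩)) else none

def sdd : EEd q c τ → Bool
  | .inl ⟨j, e⟩ => if xSd q (τ j) e = true then decide (j.val % 2 = 0) else decide (j.val % 2 = 1)
  | .inr (.inl j) => decide (j.val % 2 = 1)
  | .inr (.inr ⟨j, _⟩) => decide (j.val % 2 = 1)

def g1 (p : ℤ) : ℤ :=
  if p = -2 then p1 q τ (byL (LL' q τ) (-1)) else if p = -1 then 2 * (N : ℤ) - 3 else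
  if p = 0 then 2 * (N : ℤ) - 2 else if p < S.b then 2 * (N : ℤ) - 1 else if p = S.b then 0 else
  if p = S.b + 1 then 1 else p1 q τ (byR (LL' q τ) 0)

def g2 (p : ℤ) : ℤ :=
  if p = -2 then p2 q c τ S (byL (LL' q τ) (-1)) else
  if p = -1 then xOff q (τ (-1)) ((LL' q τ (-1)).ex) else
  if p = 0 then 0 else if p < S.b then p else if p = S.b then 0 else
  if p = S.b + 1 then xOff q (τ (0 + 1)) ((LL' q τ (0 + 1)).en)
  else p2 q c τ S (byR (LL' q τ) 0)

def gg (p : ℤ) : ℤ ×ₗ ℤ := toLex (g1 q c τ S p, g2 q c τ S p)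

/-! comps of the ends of planar edges -/

theorem p1_locEnd {j : ZMod N} (hj : j ≠ 0) (x : (LL' q τ j).V ⊕ Bool) :
    p1 q τ (locEnd (LL' q τ) j x) = 2 * (j.val : ℤ) - 1 + c1 x := by
  match x with
  | .inl v => simp only [locEnd, p1, if_neg hj, c1]; omega
  | .inr false =>
    have := val_pred hj
    simp only [locEnd, p1, c1]; omega
  | .inr true => simp only [locEnd, p1, c1]; omega

theorem p2_locEnd {j : ZMod N} (hj : j ≠ 0) (x : (LL' q τ j).V ⊕ Bool) :
    p2 q c τ S (locEnd (LL' q τ) j x) = c2 (xOff q (τ j)) x := by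
  match x with
  | .inl v => simp only [locEnd, p2, dif_neg hj, c2]
  | .inr false => simp only [locEnd, p2, c2]
  | .inr true => simp only [locEnd, p2, c2]

theorem byL_comps {j : ZMod N} (hj : j ≠ 0) :
    ((LL' q τ j).br = none ∧ p1 q τ (byL (LL' q τ) j) = 2 * (j.val : ℤ) - 2 ∧
      p2 q c τ S (byL (LL' q τ) j) = 0) ∨
    (∃ v, (LL' q τ j).br = some v ∧ p1 q τ (byL (LL' q τ) j) = 2 * (j.val : ℤ) - 1 ∧
      p2 q c τ S (byL (LL' q τ) j) = xOff q (τ j) v) := by
  unfold byL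
  cases h : (LL' q τ j).br with
  | none =>
    left
    have := val_pred hj
    refine ⟨rfl, ?_, rfl⟩
    simp only [p1]; omega
  | some v =>
    right
    refine ⟨v, rfl, ?_, ?_⟩
    · simp only [p1, if_neg hj]
    · simp only [p2, dif_neg hj]

theorem byR_comps {j : ZMod N} (hj : j ≠ -1) :
    ((LL' q τ (j + 1)).bl = none ∧ p1 q τ (byR (LL' q τ) j) = 2 * (j.val : ℤ) + 2 ∧
      p2 q c τ S (byR (LL' q τ) j) = 0) ∨
    (∃ v, (LL' q τ (j + 1)).bl = some v ∧ p1 q τ (byR (LL' q τ) j) = 2 * (j.val : ℤ) + 1 ∧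
      p2 q c τ S (byR (LL' q τ) j) = xOff q (τ (j + 1)) v) := by
  unfold byR
  have hj' : j + 1 ≠ 0 := by
    intro h; exact hj (eq_neg_of_add_eq_zero_left h)
  have hv := val_succ hj
  cases h : (LL' q τ (j + 1)).bl with
  | none =>
    left
    refine ⟨rfl, ?_, rfl⟩
    simp only [p1]; omega
  | some v =>
    right
    refine ⟨v, rfl, ?_, ?_⟩
    · simp only [p1, if_neg hj']; omega
    · simp only [p2, dif_neg hj']

end strip

end FCG20
end Pool.Agent.CC
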