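import Pool.Agent.Lib_helper74.CCF.Fcg3

/-! # FCG, part 4: planar edges against each other -/

set_option linter.all false

namespace Pool.Agent.CC

open Gph

namespace FCG20

theorem II_shift (t a b c d x y z w : ℤ) :
    II (t + a) b (t + c) d (t + x) y (t + z) w ↔ II a b c d x y z w := by
  simp only [II, BB, OO, LL, add_lt_add_iff_left, add_right_inj]

theorem EE_shift (t a b c d x y z w : ℤ) :
    EE (t + a) b (t + c) d (t + x) y (t + z) w ↔ EE a b c d x y z w := by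
  simp only [EE, add_right_inj]

theorem BB_shift (t a b c d x y : ℤ) :
    BB (t + a) b (t + c) d (t + x) y ↔ BB a b c d x y := by
  simp only [BB, LL, add_lt_add_iff_left, add_right_inj]

section strip
variable {N : ℕ} [NeZero N] (q : ℕ) (c : Bool) (τ : ZMod N → RT)
  {keep : LE ((τ 0).loc q) c → Prop} (S : TLay ((τ 0).loc q) c keep)

/-- first end -/
def ea (f : EEd q c τ) : VV q τ := (strip (LL' q τ) c).a f
def eb (f : EEd q c τ) : VV q τ := (strip (LL' q τ) c).b f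

theorem td_loc_none {j : ZMod N} {e : (LL' q τ j).E} (h : td q c τ (.inl ⟨j, e⟩) = none) :
    j ≠ 0 := by
  intro hj
  simp only [td, dif_pos hj] at h
  exact absurd h (by simp)

theorem td_row_none {j : ZMod N} (h : td q c τ (.inr (.inl j)) = none) : j ≠ -1 ∧ j ≠ 0 := by
  simp only [td] at h
  split_ifs at h with h1 h2
  exact ⟨h1, h2⟩

theorem td_by_none {j : ZMod N} {hc : c = true} (h : td q c τ (.inr (.inr ⟨j, hc⟩)) = none) :
    j ≠ -1 ∧ j ≠ 0 := by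
  simp only [td] at h
  split_ifs at h with h1 h2
  exact ⟨h1, h2⟩

theorem loc_comps {j : ZMod N} (hj : j ≠ 0) (e : (LL' q τ j).E) :
    p1 q τ (ea q c τ (.inl ⟨j, e⟩)) = 2 * (j.val : ℤ) - 1 ∧
    p2 q c τ S (ea q c τ (.inl ⟨j, e⟩)) = c2 (xOff q (τ j)) ((LL' q τ j).a e) ∧
    p1 q τ (eb q c τ (.inl ⟨j, e⟩)) = 2 * (j.val : ℤ) - 1 + c1 ((LL' q τ j).b e) ∧
    p2 q c τ S (eb q c τ (.inl ⟨j, e⟩)) = c2 (xOff q (τ j)) ((LL' q τ j).b e) := by
  refine ⟨?_, p2_locEnd q c τ S hj _, p1_locEnd q τ hj _, p2_locEnd q c τ S hj _⟩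
  have := p1_locEnd q τ hj ((LL' q τ j).a e)
  rw [(plX q (τ j)).a0 e] at this
  have h2 : p1 q τ (ea q c τ (.inl ⟨j, e⟩)) = p1 q τ (locEnd (LL' q τ) j ((LL' q τ j).a e)) := rfl
  omega

theorem row_comps {j : ZMod N} (h1 : j ≠ -1) (h2 : j ≠ 0) :
    p1 q τ (ea q c τ (.inr (.inl j))) = 2 * (j.val : ℤ) - 1 ∧
    p2 q c τ S (ea q c τ (.inr (.inl j))) = xOff q (τ j) (LL' q τ j).ex ∧
    p1 q τ (eb q c τ (.inr (.inl j))) = 2 * (j.val : ℤ) + 1 ∧
    p2 q c τ S (eb q c τ (.inr (.inl j))) = xOff q (τ (j + 1)) (LL' q τ (j + 1)).en := by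
  have hj' : j + 1 ≠ 0 := by
    intro h; exact h1 (eq_neg_of_add_eq_zero_left h)
  have hv := val_succ h1
  have e1 : ea q c τ (.inr (.inl j)) = .inr ⟨j, (LL' q τ j).ex⟩ := rfl
  have e2 : eb q c τ (.inr (.inl j)) = .inr ⟨j + 1, (LL' q τ (j + 1)).en⟩ := rfl
  rw [e1, e2]
  simp only [p1, p2, if_neg h2, dif_neg h2, if_neg hj', dif_neg hj']
  refine ⟨trivial, trivial, ?_, trivial⟩
  omega

theorem P1_ll {j j' : ZMod N} (hj : j ≠ 0) (hj' : j' ≠ 0)
    (e : (LL' q τ j).E) (e' : (LL' q τ j').E)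
    (hne : (Sum.inl ⟨j, e⟩ : EEd q c τ) ≠ .inl ⟨j', e'⟩)
    (hs : sdd q c τ (.inl ⟨j, e⟩) = sdd q c τ (.inl ⟨j', e'⟩)) :
    ¬ II (2 * (j.val : ℤ) - 1) (c2 (xOff q (τ j)) ((LL' q τ j).a e))
      (2 * (j.val : ℤ) - 1 + c1 ((LL' q τ j).b e)) (c2 (xOff q (τ j)) ((LL' q τ j).b e))
      (2 * (j'.val : ℤ) - 1) (c2 (xOff q (τ j')) ((LL' q τ j').a e'))
      (2 * (j'.val : ℤ) - 1 + c1 ((LL' q τ j').b e')) (c2 (xOff q (τ j')) ((LL' q τ j').b e')) ∧
    ¬ EE (2 * (j.val : ℤ) - 1) (c2 (xOff q (τ j)) ((LL' q τ j).a e))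
      (2 * (j.val : ℤ) - 1 + c1 ((LL' q τ j).b e)) (c2 (xOff q (τ j)) ((LL' q τ j).b e))
      (2 * (j'.val : ℤ) - 1) (c2 (xOff q (τ j')) ((LL' q τ j').a e'))
      (2 * (j'.val : ℤ) - 1 + c1 ((LL' q τ j').b e')) (c2 (xOff q (τ j')) ((LL' q τ j').b e')) := by
  by_cases hjj : j = j'
  · subst hjj
    have hee : e ≠ e' := by
      rintro rfl; exact hne rfl
    have hs' : xSd q (τ j) e = xSd q (τ j) e' := by
      simp only [sdd] at hs
      cases h1 : xSd q (τ j) e <;> cases h2 : xSd q (τ j) e' <;>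
        simp only [h1, h2, if_true, if_false, reduceCtorEq, Bool.false_eq_true] at hs ⊢
      · rw [decide_eq_decide] at hs; omega
      · rw [decide_eq_decide] at hs; omega
    have h := (plX q (τ j)).pl e e' hee hs'
    have a0 := (plX q (τ j)).a0 e
    have a0' := (plX q (τ j)).a0 e'
    delta LL' at *
    rw [a0, a0'] at h
    have h' := (II_shift (2 * (j.val : ℤ) - 1) 0 (c2 (xOff q (τ j)) ((RT.loc q (τ j)).a e))
      (c1 ((RT.loc q (τ j)).b e)) (c2 (xOff q (τ j)) ((RT.loc q (τ j)).b e))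
      0 (c2 (xOff q (τ j)) ((RT.loc q (τ j)).a e'))
      (c1 ((RT.loc q (τ j)).b e')) (c2 (xOff q (τ j)) ((RT.loc q (τ j)).b e'))).not.2 h.1
    have h'' := (EE_shift (2 * (j.val : ℤ) - 1) 0 (c2 (xOff q (τ j)) ((RT.loc q (τ j)).a e))
      (c1 ((RT.loc q (τ j)).b e)) (c2 (xOff q (τ j)) ((RT.loc q (τ j)).b e))
      0 (c2 (xOff q (τ j)) ((RT.loc q (τ j)).a e'))
      (c1 ((RT.loc q (τ j)).b e')) (c2 (xOff q (τ j)) ((RT.loc q (τ j)).b e'))).not.2 h.2
    rw [add_zero] at h' h''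
    exact ⟨h', h''⟩
  · have hv : j.val ≠ j'.val := fun h => hjj (ZMod.val_injective N h)
    have f1 := cfact (xOff q (τ j)) ((LL' q τ j).b e)
    have f2 := cfact (xOff q (τ j')) ((LL' q τ j').b e')
    generalize c1 ((LL' q τ j).b e) = x1 at *
    generalize c1 ((LL' q τ j').b e') = x2 at *
    generalize c2 (xOff q (τ j)) ((LL' q τ j).b e) = y1 at *
    generalize c2 (xOff q (τ j')) ((LL' q τ j').b e') = y2 at *
    generalize c2 (xOff q (τ j)) ((LL' q τ j).a e) = z1 at *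
    generalize c2 (xOff q (τ j')) ((LL' q τ j').a e') = z2 at *
    simp only [II, BB, OO, LL, EE]
    omega

/-- what we need about a local edge of a planar region (its ends are `(2j-1, z)` and
`(2j-1+x, y)`) against long arcs -/
theorem loc_facts (j : ZMod N) (e : (LL' q τ j).E) :
    ((c1 ((LL' q τ j).b e) = -1 ∧ c2 (xOff q (τ j)) ((LL' q τ j).b e) = 0) ∨
      c1 ((LL' q τ j).b e) = 0 ∨
      (c1 ((LL' q τ j).b e) = 1 ∧ c2 (xOff q (τ j)) ((LL' q τ j).b e) = 0)) ∧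
    (c1 ((LL' q τ j).b e) = 0 →
      xOff q (τ j) (LL' q τ j).en ≤ c2 (xOff q (τ j)) ((LL' q τ j).b e) ∧
      c2 (xOff q (τ j)) ((LL' q τ j).b e) ≤ xOff q (τ j) (LL' q τ j).ex) ∧
    (xOff q (τ j) (LL' q τ j).en ≤ c2 (xOff q (τ j)) ((LL' q τ j).a e) ∧
      c2 (xOff q (τ j)) ((LL' q τ j).a e) ≤ xOff q (τ j) (LL' q τ j).ex) ∧
    ((sdd q c τ (.inl ⟨j, e⟩) = decide (j.val % 2 = 0) ∧ 0 ≤ c1 ((LL' q τ j).b e) ∧
        xSd q (τ j) e = true) ∨
      (sdd q c τ (.inl ⟨j, e⟩) = decide (j.val % 2 = 1) ∧ c1 ((LL' q τ j).b e) ≤ 0 ∧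
        xSd q (τ j) e = false)) := by
  refine ⟨cfact _ _, (plX q (τ j)).rng _, (plX q (τ j)).rng _ ((plX q (τ j)).a0 e), ?_⟩
  cases h : xSd q (τ j) e
  · right
    refine ⟨?_, (plX q (τ j)).fA e h, rfl⟩
    simp [sdd, h]
  · left
    refine ⟨?_, (plX q (τ j)).fB e h, rfl⟩
    simp [sdd, h]

theorem P1_lr {j j' : ZMod N} (hj : j ≠ 0) (h1 : j' ≠ -1) (h2 : j' ≠ 0)
    (e : (LL' q τ j).E)
    (hs : sdd q c τ (.inl ⟨j, e⟩) = sdd q c τ (.inr (.inl j'))) :
    ¬ II (2 * (j.val : ℤ) - 1) (c2 (xOff q (τ j)) ((LL' q τ j).a e))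
      (2 * (j.val : ℤ) - 1 + c1 ((LL' q τ j).b e)) (c2 (xOff q (τ j)) ((LL' q τ j).b e))
      (2 * (j'.val : ℤ) - 1) (xOff q (τ j') (LL' q τ j').ex)
      (2 * (j'.val : ℤ) + 1) (xOff q (τ (j' + 1)) (LL' q τ (j' + 1)).en) ∧
    ¬ EE (2 * (j.val : ℤ) - 1) (c2 (xOff q (τ j)) ((LL' q τ j).a e))
      (2 * (j.val : ℤ) - 1 + c1 ((LL' q τ j).b e)) (c2 (xOff q (τ j)) ((LL' q τ j).b e))
      (2 * (j'.val : ℤ) - 1) (xOff q (τ j') (LL' q τ j').ex)
      (2 * (j'.val : ℤ) + 1) (xOff q (τ (j' + 1)) (LL' q τ (j' + 1)).en) := by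
  obtain ⟨f1, f2, f3, f4⟩ := loc_facts q c τ j e
  have hv := val_succ h1
  have hs2 : sdd q c τ (.inr (.inl j')) = decide (j'.val % 2 = 1) := rfl
  rw [hs2] at hs
  by_cases hjj : j = j'
  · subst hjj
    rw [hs] at f4
    simp only [decide_eq_decide] at f4
    generalize c1 ((LL' q τ j).b e) = x1 at *
    generalize c2 (xOff q (τ j)) ((LL' q τ j).b e) = y1 at *
    generalize c2 (xOff q (τ j)) ((LL' q τ j).a e) = z1 at *
    generalize xOff q (τ j) (LL' q τ j).ex = X at *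
    generalize xOff q (τ j) (LL' q τ j).en = Y at *
    generalize xOff q (τ (j + 1)) (LL' q τ (j + 1)).en = Z at *
    simp only [II, BB, OO, LL, EE]
    omega
  · by_cases hjj' : j = j' + 1
    · subst hjj'
      rw [hs] at f4
      simp only [decide_eq_decide] at f4
      generalize c1 ((LL' q τ (j' + 1)).b e) = x1 at *
      generalize c2 (xOff q (τ (j' + 1))) ((LL' q τ (j' + 1)).b e) = y1 at *
      generalize c2 (xOff q (τ (j' + 1))) ((LL' q τ (j' + 1)).a e) = z1 at *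
      generalize xOff q (τ j') (LL' q τ j').ex = X at *
      generalize xOff q (τ (j' + 1)) (LL' q τ (j' + 1)).en = Y at *
      simp only [II, BB, OO, LL, EE]
      omega
    · have hv1 : j.val ≠ j'.val := fun h => hjj (ZMod.val_injective N h)
      have hv2 : j.val ≠ (j' + 1).val := fun h => hjj' (ZMod.val_injective N h)
      generalize c1 ((LL' q τ j).b e) = x1 at *
      generalize c2 (xOff q (τ j)) ((LL' q τ j).b e) = y1 at *
      generalize c2 (xOff q (τ j)) ((LL' q τ j).a e) = z1 at *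
      simp only [II, BB, OO, LL, EE]
      omega

theorem P1_rr {j j' : ZMod N} (hne : j ≠ j') (x y z w : ℤ)
    (hs : decide (j.val % 2 = 1) = decide (j'.val % 2 = 1)) :
    ¬ II (2 * (j.val : ℤ) - 1) x (2 * (j.val : ℤ) + 1) y
      (2 * (j'.val : ℤ) - 1) z (2 * (j'.val : ℤ) + 1) w ∧
    ¬ EE (2 * (j.val : ℤ) - 1) x (2 * (j.val : ℤ) + 1) y
      (2 * (j'.val : ℤ) - 1) z (2 * (j'.val : ℤ) + 1) w := by
  have hv1 : j.val ≠ j'.val := fun h => hne (ZMod.val_injective N h)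
  rw [decide_eq_decide] at hs
  simp only [II, BB, OO, LL, EE]
  omega

theorem P1_lb {j j' : ZMod N} (hj : j ≠ 0) (h1 : j' ≠ -1) (h2 : j' ≠ 0)
    (e : (LL' q τ j).E) (hc : c = true)
    (hs : sdd q c τ (.inl ⟨j, e⟩) = sdd q c τ (.inr (.inr ⟨j', hc⟩))) :
    ¬ II (2 * (j.val : ℤ) - 1) (c2 (xOff q (τ j)) ((LL' q τ j).a e))
      (2 * (j.val : ℤ) - 1 + c1 ((LL' q τ j).b e)) (c2 (xOff q (τ j)) ((LL' q τ j).b e))
      (p1 q τ (byL (LL' q τ) j')) (p2 q c τ S (byL (LL' q τ) j'))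
      (p1 q τ (byR (LL' q τ) j')) (p2 q c τ S (byR (LL' q τ) j')) ∧
    ¬ EE (2 * (j.val : ℤ) - 1) (c2 (xOff q (τ j)) ((LL' q τ j).a e))
      (2 * (j.val : ℤ) - 1 + c1 ((LL' q τ j).b e)) (c2 (xOff q (τ j)) ((LL' q τ j).b e))
      (p1 q τ (byL (LL' q τ) j')) (p2 q c τ S (byL (LL' q τ) j'))
      (p1 q τ (byR (LL' q τ) j')) (p2 q c τ S (byR (LL' q τ) j')) := by
  obtain ⟨f1, f2, f3, f4⟩ := loc_facts q c τ j e
  have hv := val_succ h1
  have hs2 : sdd q c τ (.inr (.inr ⟨j', hc⟩)) = decide (j'.val % 2 = 1) := rfl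
  rw [hs2] at hs
  have hL := byL_comps q c τ S h2
  have hR := byR_comps q c τ S h1
  by_cases hjj : j = j'
  · subst hjj
    rw [hs] at f4
    simp only [decide_eq_decide] at f4
    have hA : xSd q (τ j) e = false := by
      rcases f4 with ⟨h, _, _⟩ | ⟨_, _, h⟩
      · omega
      · exact h
    have hbr : ∀ v, (LL' q τ j).br = some v →
        ¬ BB (2 * (j.val : ℤ) - 1) (c2 (xOff q (τ j)) ((LL' q τ j).a e))
          (2 * (j.val : ℤ) - 1 + c1 ((LL' q τ j).b e)) (c2 (xOff q (τ j)) ((LL' q τ j).b e))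
          (2 * (j.val : ℤ) - 1) (xOff q (τ j) v) := by
      intro v hv hB
      refine ((plX q (τ j)).br v hv).2 e hA ?_
      rw [(plX q (τ j)).a0 e]
      rw [← BB_shift (2 * (j.val : ℤ) - 1)]
      rw [add_zero]
      exact hB
    generalize c1 ((LL' q τ j).b e) = x1 at *
    generalize c2 (xOff q (τ j)) ((LL' q τ j).b e) = y1 at *
    generalize c2 (xOff q (τ j)) ((LL' q τ j).a e) = z1 at *
    generalize p1 q τ (byL (LL' q τ) j) = P1 at *
    generalize p2 q c τ S (byL (LL' q τ) j) = P2 at *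
    generalize p1 q τ (byR (LL' q τ) j) = Q1 at *
    generalize p2 q c τ S (byR (LL' q τ) j) = Q2 at *
    have hQ : 2 * (j.val : ℤ) + 1 ≤ Q1 := by
      rcases hR with ⟨_, h, _⟩ | ⟨_, _, h, _⟩ <;> omega
    clear hR
    rcases hL with ⟨_, h3, h4⟩ | ⟨v, hv', h3, h4⟩
    · simp only [II, BB, OO, LL, EE]
      omega
    · have hb := hbr v hv'
      rw [h3, h4]
      clear f2 f3
      generalize xOff q (τ j) v = V at *
      constructor
      · rintro (⟨h, _⟩ | ⟨h, _⟩)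
        · exact hb h
        · simp only [BB, LL] at h
          omega
      · simp only [EE]; omega
  · by_cases hjj' : j = j' + 1
    · subst hjj'
      rw [hs] at f4
      simp only [decide_eq_decide] at f4
      have hB : xSd q (τ (j' + 1)) e = true := by
        rcases f4 with ⟨_, _, h⟩ | ⟨h, _, _⟩
        · exact h
        · omega
      have hbl : ∀ v, (LL' q τ (j' + 1)).bl = some v →
          ¬ BB (2 * ((j' + 1).val : ℤ) - 1) (c2 (xOff q (τ (j' + 1))) ((LL' q τ (j' + 1)).a e))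
            (2 * ((j' + 1).val : ℤ) - 1 + c1 ((LL' q τ (j' + 1)).b e))
            (c2 (xOff q (τ (j' + 1))) ((LL' q τ (j' + 1)).b e))
            (2 * ((j' + 1).val : ℤ) - 1) (xOff q (τ (j' + 1)) v) := by
        intro v hv hB'
        refine ((plX q (τ (j' + 1))).bl v hv).2 e hB ?_
        rw [(plX q (τ (j' + 1))).a0 e]
        rw [← BB_shift (2 * ((j' + 1).val : ℤ) - 1)]
        rw [add_zero]
        exact hB'
      generalize c1 ((LL' q τ (j' + 1)).b e) = x1 at *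
      generalize c2 (xOff q (τ (j' + 1))) ((LL' q τ (j' + 1)).b e) = y1 at *
      generalize c2 (xOff q (τ (j' + 1))) ((LL' q τ (j' + 1)).a e) = z1 at *
      generalize p1 q τ (byL (LL' q τ) j') = P1 at *
      generalize p2 q c τ S (byL (LL' q τ) j') = P2 at *
      generalize p1 q τ (byR (LL' q τ) j') = Q1 at *
      generalize p2 q c τ S (byR (LL' q τ) j') = Q2 at *
      have hQ : P1 ≤ 2 * (j'.val : ℤ) - 1 := by
        rcases hL with ⟨_, h, _⟩ | ⟨_, _, h, _⟩ <;> omega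
      clear hL
      rcases hR with ⟨_, h3, h4⟩ | ⟨v, hv', h3, h4⟩
      · simp only [II, BB, OO, LL, EE]
        omega
      · have hb := hbl v hv'
        have hv2 : 2 * (j'.val : ℤ) + 1 = 2 * ((j' + 1).val : ℤ) - 1 := by omega
        rw [h3, h4, hv2]
        clear f2 f3
        generalize xOff q (τ (j' + 1)) v = V at *
        constructor
        · rintro (⟨h, _⟩ | ⟨h, _⟩)
          · simp only [BB, LL] at h
            omega
          · exact hb h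
        · simp only [EE]; omega
    · have hv1 : j.val ≠ j'.val := fun h => hjj (ZMod.val_injective N h)
      have hv2 : j.val ≠ (j' + 1).val := fun h => hjj' (ZMod.val_injective N h)
      generalize c1 ((LL' q τ j).b e) = x1 at *
      generalize c2 (xOff q (τ j)) ((LL' q τ j).b e) = y1 at *
      generalize c2 (xOff q (τ j)) ((LL' q τ j).a e) = z1 at *
      generalize p1 q τ (byL (LL' q τ) j') = P1 at *
      generalize p2 q c τ S (byL (LL' q τ) j') = P2 at *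
      generalize p1 q τ (byR (LL' q τ) j') = Q1 at *
      generalize p2 q c τ S (byR (LL' q τ) j') = Q2 at *
      have hP : P1 = 2 * (j'.val : ℤ) - 2 ∧ P2 = 0 ∨ P1 = 2 * (j'.val : ℤ) - 1 := by
        rcases hL with ⟨_, h, h'⟩ | ⟨_, _, h, _⟩
        · left; exact ⟨h, h'⟩
        · right; exact h
      have hQ : Q1 = 2 * (j'.val : ℤ) + 2 ∧ Q2 = 0 ∨ Q1 = 2 * (j'.val : ℤ) + 1 := by
        rcases hR with ⟨_, h, h'⟩ | ⟨_, _, h, _⟩
        · left; exact ⟨h, h'⟩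
        · right; exact h
      clear hL hR f2 f3 f4
      simp only [II, BB, OO, LL, EE]
      omega

theorem by_facts {j : ZMod N} (h1 : j ≠ -1) (h2 : j ≠ 0) :
    ((p1 q τ (byL (LL' q τ) j) = 2 * (j.val : ℤ) - 2 ∧ p2 q c τ S (byL (LL' q τ) j) = 0) ∨
      (p1 q τ (byL (LL' q τ) j) = 2 * (j.val : ℤ) - 1 ∧
        p2 q c τ S (byL (LL' q τ) j) < xOff q (τ j) (LL' q τ j).ex)) ∧
    ((p1 q τ (byR (LL' q τ) j) = 2 * (j.val : ℤ) + 2 ∧ p2 q c τ S (byR (LL' q τ) j) = 0) ∨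
      (p1 q τ (byR (LL' q τ) j) = 2 * (j.val : ℤ) + 1 ∧
        xOff q (τ (j + 1)) (LL' q τ (j + 1)).en < p2 q c τ S (byR (LL' q τ) j))) := by
  constructor
  · rcases byL_comps q c τ S h2 with ⟨_, h, h'⟩ | ⟨v, hv, h, h'⟩
    · left; exact ⟨h, h'⟩
    · right; refine ⟨h, ?_⟩
      rw [h']
      exact ((plX q (τ j)).br v hv).1
  · rcases byR_comps q c τ S h1 with ⟨_, h, h'⟩ | ⟨v, hv, h, h'⟩
    · left; exact ⟨h, h'⟩
    · right; refine ⟨h, ?_⟩
      rw [h']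
      exact ((plX q (τ (j + 1))).bl v hv).1

theorem P1_rb {j j' : ZMod N} (h1 : j' ≠ -1) (h2 : j' ≠ 0)
    (hs : decide (j.val % 2 = 1) = decide (j'.val % 2 = 1)) :
    ¬ II (2 * (j.val : ℤ) - 1) (xOff q (τ j) (LL' q τ j).ex)
      (2 * (j.val : ℤ) + 1) (xOff q (τ (j + 1)) (LL' q τ (j + 1)).en)
      (p1 q τ (byL (LL' q τ) j')) (p2 q c τ S (byL (LL' q τ) j'))
      (p1 q τ (byR (LL' q τ) j')) (p2 q c τ S (byR (LL' q τ) j')) ∧
    ¬ EE (2 * (j.val : ℤ) - 1) (xOff q (τ j) (LL' q τ j).ex)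
      (2 * (j.val : ℤ) + 1) (xOff q (τ (j + 1)) (LL' q τ (j + 1)).en)
      (p1 q τ (byL (LL' q τ) j')) (p2 q c τ S (byL (LL' q τ) j'))
      (p1 q τ (byR (LL' q τ) j')) (p2 q c τ S (byR (LL' q τ) j')) := by
  rw [decide_eq_decide] at hs
  obtain ⟨f1, f2⟩ := by_facts q c τ S h1 h2
  by_cases hjj : j = j'
  · subst hjj
    generalize p1 q τ (byL (LL' q τ) j) = P1 at *
    generalize p2 q c τ S (byL (LL' q τ) j) = P2 at *
    generalize p1 q τ (byR (LL' q τ) j) = Q1 at *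
    generalize p2 q c τ S (byR (LL' q τ) j) = Q2 at *
    generalize xOff q (τ j) (LL' q τ j).ex = X at *
    generalize xOff q (τ (j + 1)) (LL' q τ (j + 1)).en = Y at *
    simp only [II, BB, OO, LL, EE]
    omega
  · have hv1 : j.val ≠ j'.val := fun h => hjj (ZMod.val_injective N h)
    generalize p1 q τ (byL (LL' q τ) j') = P1 at *
    generalize p2 q c τ S (byL (LL' q τ) j') = P2 at *
    generalize p1 q τ (byR (LL' q τ) j') = Q1 at *
    generalize p2 q c τ S (byR (LL' q τ) j') = Q2 at *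
    generalize xOff q (τ j) (LL' q τ j).ex = X at *
    generalize xOff q (τ (j + 1)) (LL' q τ (j + 1)).en = Y at *
    simp only [II, BB, OO, LL, EE]
    omega

theorem P1_bb {j j' : ZMod N} (h1 : j ≠ -1) (h2 : j ≠ 0) (h1' : j' ≠ -1) (h2' : j' ≠ 0)
    (hne : j ≠ j')
    (hs : decide (j.val % 2 = 1) = decide (j'.val % 2 = 1)) :
    ¬ II (p1 q τ (byL (LL' q τ) j)) (p2 q c τ S (byL (LL' q τ) j))
      (p1 q τ (byR (LL' q τ) j)) (p2 q c τ S (byR (LL' q τ) j))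
      (p1 q τ (byL (LL' q τ) j')) (p2 q c τ S (byL (LL' q τ) j'))
      (p1 q τ (byR (LL' q τ) j')) (p2 q c τ S (byR (LL' q τ) j')) ∧
    ¬ EE (p1 q τ (byL (LL' q τ) j)) (p2 q c τ S (byL (LL' q τ) j))
      (p1 q τ (byR (LL' q τ) j)) (p2 q c τ S (byR (LL' q τ) j))
      (p1 q τ (byL (LL' q τ) j')) (p2 q c τ S (byL (LL' q τ) j'))
      (p1 q τ (byR (LL' q τ) j')) (p2 q c τ S (byR (LL' q τ) j')) := by
  rw [decide_eq_decide] at hs
  obtain ⟨f1, f2⟩ := by_facts q c τ S h1 h2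
  obtain ⟨f3, f4⟩ := by_facts q c τ S h1' h2'
  have hv1 : j.val ≠ j'.val := fun h => hne (ZMod.val_injective N h)
  generalize p1 q τ (byL (LL' q τ) j) = P1 at *
  generalize p2 q c τ S (byL (LL' q τ) j) = P2 at *
  generalize p1 q τ (byR (LL' q τ) j) = Q1 at *
  generalize p2 q c τ S (byR (LL' q τ) j) = Q2 at *
  generalize p1 q τ (byL (LL' q τ) j') = P1' at *
  generalize p2 q c τ S (byL (LL' q τ) j') = P2' at *
  generalize p1 q τ (byR (LL' q τ) j') = Q1' at *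
  generalize p2 q c τ S (byR (LL' q τ) j') = Q2' at *
  have g1 : (P1 = 2 * (j.val : ℤ) - 2 ∧ P2 = 0) ∨ P1 = 2 * (j.val : ℤ) - 1 := by tauto
  have g2 : (Q1 = 2 * (j.val : ℤ) + 2 ∧ Q2 = 0) ∨ Q1 = 2 * (j.val : ℤ) + 1 := by tauto
  have g3 : (P1' = 2 * (j'.val : ℤ) - 2 ∧ P2' = 0) ∨ P1' = 2 * (j'.val : ℤ) - 1 := by tauto
  have g4 : (Q1' = 2 * (j'.val : ℤ) + 2 ∧ Q2' = 0) ∨ Q1' = 2 * (j'.val : ℤ) + 1 := by tauto
  clear f1 f2 f3 f4
  simp only [II, BB, OO, LL, EE]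
  omega

end strip

end FCG20
end Pool.Agent.CC
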