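import Pool.Agent.Lib_helper74.CCF.Fcg4

/-! # FCG, part 5: the glue of the strip -/

set_option linter.all false

namespace Pool.Agent.CC

open Gph

namespace FCG20

theorem c_inj {V : Type} {off : V → ℤ} (hoff : ∀ u v, off u = off v → u = v) {x y : V ⊕ Bool}
    (h1 : c1 x = c1 y) (h2 : c2 off x = c2 off y) : x = y := by
  match x, y with
  | .inl u, .inl v => exact congrArg Sum.inl (hoff u v h2)
  | .inl u, .inr false => simp [c1] at h1
  | .inl u, .inr true => simp [c1] at h1
  | .inr false, .inl u => simp [c1] at h1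
  | .inr true, .inl u => simp [c1] at h1
  | .inr false, .inr false => rfl
  | .inr true, .inr true => rfl
  | .inr false, .inr true => simp [c1] at h1
  | .inr true, .inr false => simp [c1] at h1

section strip
variable {N : ℕ} [NeZero N] (hN : 5 ≤ N) (hodd : N % 2 = 1) (q : ℕ) (c : Bool) (τ : ZMod N → RT)
  {keep : LE ((τ 0).loc q) c → Prop} (S : TLay ((τ 0).loc q) c keep)

include hN in
theorem neg_one_ne : (-1 : ZMod N) ≠ 0 := by
  intro h
  have := val_neg_one' (N := N)
  rw [h, ZMod.val_zero] at this
  omega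

include hN in
theorem gfact (p : ℤ) (h1 : -2 ≤ p) (h2 : p ≤ S.b + 2) :
    (p = -2 ∧ (g1 q c τ S p = 2 * (N : ℤ) - 4 ∧ g2 q c τ S p = 0)) ∨
    (p = -2 ∧ (g1 q c τ S p = 2 * (N : ℤ) - 3 ∧
      g2 q c τ S p < xOff q (τ (-1)) (LL' q τ (-1)).ex) ∧
      ∃ v, (LL' q τ (-1)).br = some v ∧ g2 q c τ S p = xOff q (τ (-1)) v) ∨
    (p = -1 ∧ (g1 q c τ S p = 2 * (N : ℤ) - 3 ∧
      g2 q c τ S p = xOff q (τ (-1)) (LL' q τ (-1)).ex)) ∨
    (p = 0 ∧ (g1 q c τ S p = 2 * (N : ℤ) - 2 ∧ g2 q c τ S p = 0)) ∨
    ((0 < p ∧ p < S.b) ∧ (g1 q c τ S p = 2 * (N : ℤ) - 1 ∧ g2 q c τ S p = p)) ∨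
    (p = S.b ∧ (g1 q c τ S p = 0 ∧ g2 q c τ S p = 0)) ∨
    (p = S.b + 1 ∧ (g1 q c τ S p = 1 ∧
      g2 q c τ S p = xOff q (τ (0 + 1)) (LL' q τ (0 + 1)).en)) ∨
    (p = S.b + 2 ∧ (g1 q c τ S p = 2 ∧ g2 q c τ S p = 0)) ∨
    (p = S.b + 2 ∧ (g1 q c τ S p = 1 ∧
      xOff q (τ (0 + 1)) (LL' q τ (0 + 1)).en < g2 q c τ S p) ∧
      ∃ v, (LL' q τ (0 + 1)).bl = some v ∧ g2 q c τ S p = xOff q (τ (0 + 1)) v) := by
  have hb : 0 < S.b := by
    have := S.pos_mem ((τ 0).loc q).en; omega
  have hn := neg_one_ne hN
  have hn' : (0 : ZMod N) ≠ -1 := fun h => hn h.symm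
  have hv := val_neg_one' (N := N)
  rcases lt_trichotomy p (-2) with h | h | h
  · omega
  · subst h
    rcases byL_comps q c τ S hn with ⟨_, h3, h4⟩ | ⟨v, hv', h3, h4⟩
    · left
      refine ⟨rfl, ?_, ?_⟩
      · simp only [g1, if_true]; omega
      · simp only [g2, if_true]; exact h4
    · right; left
      refine ⟨rfl, ⟨?_, ?_⟩, v, hv', ?_⟩
      · simp only [g1, if_true]; omega
      · simp only [g2, if_true]; rw [h4]
        exact ((plX q (τ (-1))).br v hv').1
      · simp only [g2, if_true]; exact h4
  · by_cases e1 : p = -1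
    · subst e1
      right; right; left
      refine ⟨rfl, ?_, ?_⟩
      · simp [g1]
      · simp [g2]
    · by_cases e2 : p = 0
      · subst e2
        right; right; right; left
        refine ⟨rfl, ?_, ?_⟩
        · simp [g1]
        · simp [g2]
      · by_cases e3 : p < S.b
        · right; right; right; right; left
          refine ⟨by omega, ?_, ?_⟩
          · simp only [g1, if_neg e1, if_neg e2, if_pos e3, if_neg (show p ≠ -2 by omega)]
          · simp only [g2, if_neg e1, if_neg e2, if_pos e3, if_neg (show p ≠ -2 by omega)]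
        · by_cases e4 : p = S.b
          · right; right; right; right; right; left
            refine ⟨e4, ?_, ?_⟩
            · simp only [g1, if_neg e1, if_neg e2, if_neg e3, if_pos e4,
                if_neg (show p ≠ -2 by omega)]
            · simp only [g2, if_neg e1, if_neg e2, if_neg e3, if_pos e4,
                if_neg (show p ≠ -2 by omega)]
          · by_cases e5 : p = S.b + 1
            · right; right; right; right; right; right; left
              refine ⟨e5, ?_, ?_⟩
              · simp only [g1, if_neg e1, if_neg e2, if_neg e3, if_neg e4, if_pos e5,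
                  if_neg (show p ≠ -2 by omega)]
              · simp only [g2, if_neg e1, if_neg e2, if_neg e3, if_neg e4, if_pos e5,
                  if_neg (show p ≠ -2 by omega)]
            · have e6 : p = S.b + 2 := by omega
              have v0 : (0 : ZMod N).val = 0 := ZMod.val_zero
              rcases byR_comps q c τ S hn' with ⟨_, h3, h4⟩ | ⟨v, hv', h3, h4⟩
              · right; right; right; right; right; right; right; left
                refine ⟨e6, ?_, ?_⟩
                · simp only [g1, if_neg e1, if_neg e2, if_neg e3, if_neg e4, if_neg e5,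
                    if_neg (show p ≠ -2 by omega)]
                  omega
                · simp only [g2, if_neg e1, if_neg e2, if_neg e3, if_neg e4, if_neg e5,
                    if_neg (show p ≠ -2 by omega)]
                  exact h4
              · right; right; right; right; right; right; right; right
                refine ⟨e6, ⟨?_, ?_⟩, v, hv', ?_⟩
                · simp only [g1, if_neg e1, if_neg e2, if_neg e3, if_neg e4, if_neg e5,
                    if_neg (show p ≠ -2 by omega)]
                  omega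
                · simp only [g2, if_neg e1, if_neg e2, if_neg e3, if_neg e4, if_neg e5,
                    if_neg (show p ≠ -2 by omega)]
                  rw [h4]
                  exact ((plX q (τ (0 + 1))).bl v hv').1
                · simp only [g2, if_neg e1, if_neg e2, if_neg e3, if_neg e4, if_neg e5,
                    if_neg (show p ≠ -2 by omega)]
                  exact h4

include hN in
theorem hlt' (u v : ℤ) (hu : -2 ≤ u ∧ u ≤ S.b + 2) (hv : -2 ≤ v ∧ v ≤ S.b + 2) :
    gg q c τ S u < gg q c τ S v ↔ rk S.b u < rk S.b v := by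
  have hb : 0 < S.b := by
    have := S.pos_mem ((τ 0).loc q).en; omega
  unfold gg
  rw [lex_lt]
  by_cases huv : u = v
  · subst huv
    unfold LL; omega
  have f1 := gfact hN q c τ S u hu.1 hu.2
  have f2 := gfact hN q c τ S v hv.1 hv.2
  generalize g1 q c τ S u = a1 at *
  generalize g2 q c τ S u = a2 at *
  generalize g1 q c τ S v = b1 at *
  generalize g2 q c τ S v = b2 at *
  generalize xOff q (τ (-1)) (LL' q τ (-1)).ex = X at *
  generalize xOff q (τ (0 + 1)) (LL' q τ (0 + 1)).en = Y at *
  unfold LL rk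
  rcases f1 with f1 | ⟨f1, f1', _⟩ | f1 | f1 | f1 | f1 | f1 | f1 | ⟨f1, f1', _⟩ <;>
  rcases f2 with f2 | ⟨f2, f2', _⟩ | f2 | f2 | f2 | f2 | f2 | f2 | ⟨f2, f2', _⟩ <;>
  split_ifs <;> omega

/-! ### P2: no tile point strictly inside a planar arc -/

include hN hodd in
theorem P2_loc {j : ZMod N} (hj : j ≠ 0) (e : (LL' q τ j).E) (p : ℤ) (h1 : -2 ≤ p)
    (h2 : p ≤ S.b + 2) (hs : sdd q c τ (.inl ⟨j, e⟩) = true → 0 ≤ p ∧ p ≤ S.b) :
    ¬ BB (2 * (j.val : ℤ) - 1) (c2 (xOff q (τ j)) ((LL' q τ j).a e))
      (2 * (j.val : ℤ) - 1 + c1 ((LL' q τ j).b e)) (c2 (xOff q (τ j)) ((LL' q τ j).b e))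
      (g1 q c τ S p) (g2 q c τ S p) := by
  have hb : 0 < S.b := by
    have := S.pos_mem ((τ 0).loc q).en; omega
  obtain ⟨f1, f2, f3, f4⟩ := loc_facts q c τ j e
  have hjl := ZMod.val_lt j
  have hjp := val_pos hj
  have hn1 := val_neg_one' (N := N)
  have hgf := gfact hN q c τ S p h1 h2
  by_cases hin : 0 ≤ p ∧ p ≤ S.b
  · have hgf' : (g1 q c τ S p = 2 * (N : ℤ) - 2 ∧ g2 q c τ S p = 0) ∨
        (g1 q c τ S p = 2 * (N : ℤ) - 1) ∨ (g1 q c τ S p = 0 ∧ g2 q c τ S p = 0) := by
      rcases hgf with f1 | ⟨f1, f1', _⟩ | f1 | f1 | f1 | f1 | f1 | f1 | ⟨f1, f1', _⟩ <;> omega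
    clear hgf f2 f3 f4
    generalize c1 ((LL' q τ j).b e) = x1 at *
    generalize c2 (xOff q (τ j)) ((LL' q τ j).b e) = y1 at *
    generalize c2 (xOff q (τ j)) ((LL' q τ j).a e) = z1 at *
    generalize g1 q c τ S p = a1 at *
    generalize g2 q c τ S p = a2 at *
    simp only [BB, LL]
    omega
  · have hsf : sdd q c τ (.inl ⟨j, e⟩) = false := by
      cases h : sdd q c τ (.inl ⟨j, e⟩)
      · rfl
      · exact absurd (hs h) hin
    rw [hsf] at f4
    rcases f4 with ⟨f4, f5, f6⟩ | ⟨f4, f5, f6⟩
    · -- `B`-side, `j` odd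
      have f4' : j.val % 2 = 1 := by
        have := of_decide_eq_false f4.symm; omega
      by_cases hj1 : j = 0 + 1
      · subst hj1
        have hv1 : (0 + 1 : ZMod N).val = 1 := by
          have := val_succ (N := N) (j := 0) (fun h => neg_one_ne hN h.symm)
          rw [ZMod.val_zero] at this; exact this
        have hbl : ∀ v, (LL' q τ (0 + 1)).bl = some v →
            ¬ BB (2 * ((0 + 1 : ZMod N).val : ℤ) - 1)
              (c2 (xOff q (τ (0 + 1))) ((LL' q τ (0 + 1)).a e))
              (2 * ((0 + 1 : ZMod N).val : ℤ) - 1 + c1 ((LL' q τ (0 + 1)).b e))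
              (c2 (xOff q (τ (0 + 1))) ((LL' q τ (0 + 1)).b e))
              (2 * ((0 + 1 : ZMod N).val : ℤ) - 1) (xOff q (τ (0 + 1)) v) := by
          intro v hv hB'
          refine ((plX q (τ (0 + 1))).bl v hv).2 e f6 ?_
          rw [(plX q (τ (0 + 1))).a0 e]
          rw [← BB_shift (2 * ((0 + 1 : ZMod N).val : ℤ) - 1)]
          rw [add_zero]
          exact hB'
        rcases hgf with g | ⟨g, g', _⟩ | g | g | g | g | g | g | ⟨g, g', v, hv, g''⟩
        all_goals try (exfalso; omega)
        · generalize c1 ((LL' q τ (0 + 1)).b e) = x1 at *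
          generalize c2 (xOff q (τ (0 + 1))) ((LL' q τ (0 + 1)).b e) = y1 at *
          generalize c2 (xOff q (τ (0 + 1))) ((LL' q τ (0 + 1)).a e) = z1 at *
          generalize g1 q c τ S p = a1 at *
          generalize g2 q c τ S p = a2 at *
          clear hbl
          simp only [BB, LL]
          omega
        · generalize c1 ((LL' q τ (0 + 1)).b e) = x1 at *
          generalize c2 (xOff q (τ (0 + 1))) ((LL' q τ (0 + 1)).b e) = y1 at *
          generalize c2 (xOff q (τ (0 + 1))) ((LL' q τ (0 + 1)).a e) = z1 at *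
          generalize g1 q c τ S p = a1 at *
          generalize g2 q c τ S p = a2 at *
          clear hbl
          simp only [BB, LL]
          omega
        · generalize c1 ((LL' q τ (0 + 1)).b e) = x1 at *
          generalize c2 (xOff q (τ (0 + 1))) ((LL' q τ (0 + 1)).b e) = y1 at *
          generalize c2 (xOff q (τ (0 + 1))) ((LL' q τ (0 + 1)).a e) = z1 at *
          generalize g1 q c τ S p = a1 at *
          generalize g2 q c τ S p = a2 at *
          clear hbl
          simp only [BB, LL]
          omega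
        · generalize c1 ((LL' q τ (0 + 1)).b e) = x1 at *
          generalize c2 (xOff q (τ (0 + 1))) ((LL' q τ (0 + 1)).b e) = y1 at *
          generalize c2 (xOff q (τ (0 + 1))) ((LL' q τ (0 + 1)).a e) = z1 at *
          generalize g1 q c τ S p = a1 at *
          generalize g2 q c τ S p = a2 at *
          clear hbl
          simp only [BB, LL]
          omega
        · generalize c1 ((LL' q τ (0 + 1)).b e) = x1 at *
          generalize c2 (xOff q (τ (0 + 1))) ((LL' q τ (0 + 1)).b e) = y1 at *
          generalize c2 (xOff q (τ (0 + 1))) ((LL' q τ (0 + 1)).a e) = z1 at *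
          generalize g1 q c τ S p = a1 at *
          generalize g2 q c τ S p = a2 at *
          clear hbl
          simp only [BB, LL]
          omega
        · have h3 := hbl v hv
          rw [g'.1, g'']
          rw [hv1] at h3 ⊢
          exact h3
      · -- `j ≥ 3`
        have hv3 : 3 ≤ j.val := by
          have hv1 : j.val ≠ 1 := by
            intro h
            apply hj1
            apply ZMod.val_injective N
            have := val_succ (N := N) (j := 0) (fun h => neg_one_ne hN h.symm)
            rw [ZMod.val_zero] at this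
            rw [this]; omega
          omega
        have hjN : j.val + 1 < N := by omega
        have hgf' : (2 * (N : ℤ) - 4 < g1 q c τ S p) ∨
            (g1 q c τ S p = 2 * (N : ℤ) - 4 ∧ g2 q c τ S p = 0) ∨
            (g1 q c τ S p = 2 ∧ g2 q c τ S p = 0) ∨ g1 q c τ S p < 2 := by
          rcases hgf with f1 | ⟨f1, f1', _⟩ | f1 | f1 | f1 | f1 | f1 | f1 | ⟨f1, f1', _⟩ <;> omega
        clear hgf f2 f3
        generalize c1 ((LL' q τ j).b e) = x1 at *
        generalize c2 (xOff q (τ j)) ((LL' q τ j).b e) = y1 at *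
        generalize c2 (xOff q (τ j)) ((LL' q τ j).a e) = z1 at *
        generalize g1 q c τ S p = a1 at *
        generalize g2 q c τ S p = a2 at *
        simp only [BB, LL]
        omega
    · -- `A`-side, `j` even
      have f4' : j.val % 2 = 0 := by
        have := of_decide_eq_false f4.symm; omega
      by_cases hj1 : j = -1
      · subst hj1
        have hbr : ∀ v, (LL' q τ (-1)).br = some v →
            ¬ BB (2 * ((-1 : ZMod N).val : ℤ) - 1)
              (c2 (xOff q (τ (-1))) ((LL' q τ (-1)).a e))
              (2 * ((-1 : ZMod N).val : ℤ) - 1 + c1 ((LL' q τ (-1)).b e))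
              (c2 (xOff q (τ (-1))) ((LL' q τ (-1)).b e))
              (2 * ((-1 : ZMod N).val : ℤ) - 1) (xOff q (τ (-1)) v) := by
          intro v hv hB'
          refine ((plX q (τ (-1))).br v hv).2 e f6 ?_
          rw [(plX q (τ (-1))).a0 e]
          rw [← BB_shift (2 * ((-1 : ZMod N).val : ℤ) - 1)]
          rw [add_zero]
          exact hB'
        rcases hgf with g | ⟨g, g', v, hv, g''⟩ | g | g | g | g | g | g | ⟨g, g', _⟩
        all_goals try (exfalso; omega)
        · generalize c1 ((LL' q τ (-1)).b e) = x1 at *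
          generalize c2 (xOff q (τ (-1))) ((LL' q τ (-1)).b e) = y1 at *
          generalize c2 (xOff q (τ (-1))) ((LL' q τ (-1)).a e) = z1 at *
          generalize g1 q c τ S p = a1 at *
          generalize g2 q c τ S p = a2 at *
          clear hbr
          simp only [BB, LL]
          omega
        · have h3 := hbr v hv
          have e3 : (2 * (N : ℤ) - 3) = 2 * ((-1 : ZMod N).val : ℤ) - 1 := by omega
          rw [g'.1, g'', e3]
          exact h3
        · generalize c1 ((LL' q τ (-1)).b e) = x1 at *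
          generalize c2 (xOff q (τ (-1))) ((LL' q τ (-1)).b e) = y1 at *
          generalize c2 (xOff q (τ (-1))) ((LL' q τ (-1)).a e) = z1 at *
          generalize g1 q c τ S p = a1 at *
          generalize g2 q c τ S p = a2 at *
          clear hbr
          simp only [BB, LL]
          omega
        · generalize c1 ((LL' q τ (-1)).b e) = x1 at *
          generalize c2 (xOff q (τ (-1))) ((LL' q τ (-1)).b e) = y1 at *
          generalize c2 (xOff q (τ (-1))) ((LL' q τ (-1)).a e) = z1 at *
          generalize g1 q c τ S p = a1 at *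
          generalize g2 q c τ S p = a2 at *
          clear hbr
          simp only [BB, LL]
          omega
        · generalize c1 ((LL' q τ (-1)).b e) = x1 at *
          generalize c2 (xOff q (τ (-1))) ((LL' q τ (-1)).b e) = y1 at *
          generalize c2 (xOff q (τ (-1))) ((LL' q τ (-1)).a e) = z1 at *
          generalize g1 q c τ S p = a1 at *
          generalize g2 q c τ S p = a2 at *
          clear hbr
          simp only [BB, LL]
          omega
        · generalize c1 ((LL' q τ (-1)).b e) = x1 at *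
          generalize c2 (xOff q (τ (-1))) ((LL' q τ (-1)).b e) = y1 at *
          generalize c2 (xOff q (τ (-1))) ((LL' q τ (-1)).a e) = z1 at *
          generalize g1 q c τ S p = a1 at *
          generalize g2 q c τ S p = a2 at *
          clear hbr
          simp only [BB, LL]
          omega
      · have hjN : j.val + 1 ≠ N := by
          intro h
          apply hj1
          apply ZMod.val_injective N
          omega
        have hgf' : (2 * (N : ℤ) - 4 < g1 q c τ S p) ∨
            (g1 q c τ S p = 2 * (N : ℤ) - 4 ∧ g2 q c τ S p = 0) ∨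
            (g1 q c τ S p = 2 ∧ g2 q c τ S p = 0) ∨ g1 q c τ S p < 2 := by
          rcases hgf with f1 | ⟨f1, f1', _⟩ | f1 | f1 | f1 | f1 | f1 | f1 | ⟨f1, f1', _⟩ <;> omega
        clear hgf f2 f3
        generalize c1 ((LL' q τ j).b e) = x1 at *
        generalize c2 (xOff q (τ j)) ((LL' q τ j).b e) = y1 at *
        generalize c2 (xOff q (τ j)) ((LL' q τ j).a e) = z1 at *
        generalize g1 q c τ S p = a1 at *
        generalize g2 q c τ S p = a2 at *
        simp only [BB, LL]
        omega

include hN hodd in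
/-- long arcs: from `(P1, P2)` to `(Q1, Q2)` over the hub `H j` -/
theorem P2_long {j : ZMod N} (hj : j ≠ 0) (hj' : j ≠ -1) (P1 P2 Q1 Q2 : ℤ)
    (hP : (P1 = 2 * (j.val : ℤ) - 2 ∧ P2 = 0) ∨ P1 = 2 * (j.val : ℤ) - 1)
    (hQ : (Q1 = 2 * (j.val : ℤ) + 2 ∧ Q2 = 0) ∨ Q1 = 2 * (j.val : ℤ) + 1) (p : ℤ) (h1 : -2 ≤ p)
    (h2 : p ≤ S.b + 2) (hs : decide (j.val % 2 = 1) = true → 0 ≤ p ∧ p ≤ S.b) :
    ¬ BB P1 P2 Q1 Q2 (g1 q c τ S p) (g2 q c τ S p) := by
  have hb : 0 < S.b := by
    have := S.pos_mem ((τ 0).loc q).en; omega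
  have hjl := ZMod.val_lt j
  have hjp := val_pos hj
  have hn1 := val_neg_one' (N := N)
  have hgf := gfact hN q c τ S p h1 h2
  have hjN : j.val + 1 ≠ N := by
    intro h
    apply hj'
    apply ZMod.val_injective N
    omega
  by_cases hin : 0 ≤ p ∧ p ≤ S.b
  · have hgf' : (g1 q c τ S p = 2 * (N : ℤ) - 2 ∧ g2 q c τ S p = 0) ∨
        (g1 q c τ S p = 2 * (N : ℤ) - 1) ∨ (g1 q c τ S p = 0 ∧ g2 q c τ S p = 0) := by
      rcases hgf with f1 | ⟨f1, f1', _⟩ | f1 | f1 | f1 | f1 | f1 | f1 | ⟨f1, f1', _⟩ <;> omega
    clear hgf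
    generalize g1 q c τ S p = a1 at *
    generalize g2 q c τ S p = a2 at *
    simp only [BB, LL]
    omega
  · have hev : j.val % 2 = 0 := by
      rcases Nat.mod_two_eq_zero_or_one j.val with h | h
      · exact h
      · exact absurd (hs (decide_eq_true h)) hin
    have hgf' : (2 * (N : ℤ) - 4 < g1 q c τ S p) ∨
        (g1 q c τ S p = 2 * (N : ℤ) - 4 ∧ g2 q c τ S p = 0) ∨
        (g1 q c τ S p = 2 ∧ g2 q c τ S p = 0) ∨ g1 q c τ S p < 2 := by
      rcases hgf with f1 | ⟨f1, f1', _⟩ | f1 | f1 | f1 | f1 | f1 | f1 | ⟨f1, f1', _⟩ <;> omega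
    clear hgf
    generalize g1 q c τ S p = a1 at *
    generalize g2 q c τ S p = a2 at *
    simp only [BB, LL]
    omega

end strip

end FCG20
end Pool.Agent.CC
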