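import Pool.Agent.Lib_helper74.CCF.Tile

/-! Tiles of `G`: a convenient way to give a tile (block FCGG). -/

namespace Pool.Agent.CC.TG

open Gph

/-- the positions `a + 1, ..., a + n` one after the other -/
def run (a : ℤ) : ℕ → List (Bool × ℤ)
  | 0 => []
  | n + 1 => (true, a + 1) :: run (a + 1) n

theorem mem_run_map (n : ℕ) : ∀ (a x : ℤ), x ∈ (run a n).map Prod.snd ↔ a < x ∧ x ≤ a + n := by
  induction n with
  | zero => intro a x; simp [run]
  | succ n ih =>
    intro a x
    simp only [run, List.map_cons, List.mem_cons, ih]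
    push_cast
    omega

theorem run_nodup (n : ℕ) : ∀ a : ℤ, ((run a n).map Prod.snd).Nodup := by
  induction n with
  | zero => intro a; simp [run]
  | succ n ih =>
    intro a
    simp only [run, List.map_cons, List.nodup_cons]
    refine ⟨?_, ih _⟩
    rw [mem_run_map]
    omega

theorem mem_arcs_run (n : ℕ) : ∀ (a : ℤ) (l : List (Bool × ℤ)) (p : Bool × ℤ × ℤ),
    p ∈ arcsOf a (run a n ++ l) ↔
      (p.1 = true ∧ a ≤ p.2.1 ∧ p.2.1 < a + n ∧ p.2.2 = p.2.1 + 1) ∨ p ∈ arcsOf (a + n) l := by
  induction n with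
  | zero =>
    intro a l p
    simp only [run, List.nil_append, Nat.cast_zero, add_zero]
    constructor
    · intro h; exact Or.inr h
    · rintro (⟨_, h1, h2, _⟩ | h)
      · omega
      · exact h
  | succ n ih =>
    intro a l p
    obtain ⟨s, x, y⟩ := p
    simp only [run, List.cons_append, arcsOf, List.mem_cons, ih, Prod.mk.injEq]
    have e : a + 1 + (n : ℤ) = a + ((n + 1 : ℕ) : ℤ) := by push_cast; ring
    rw [e]
    push_cast
    constructor
    · rintro (⟨h1, h2, h3⟩ | ⟨h1, h2, h3, h4⟩ | h)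
      · left; exact ⟨h1, by omega, by omega, by omega⟩
      · left; exact ⟨h1, by omega, by omega, by omega⟩
      · right; exact h
    · rintro (⟨h1, h2, h3, h4⟩ | h)
      · by_cases hx : x = a
        · left; exact ⟨h1, hx, by omega⟩
        · right; left; exact ⟨h1, by omega, by omega, by omega⟩
      · right; right; exact h

theorem interl_swap_left {x y z w : ℤ} (h : Interl y x z w) : Interl x y z w := by
  unfold Interl at *
  rwa [min_comm x y, max_comm x y]

theorem interl_swap_right {x y z w : ℤ} (h : Interl x y w z) : Interl x y z w := by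
  unfold Interl at *
  rwa [min_comm z w, max_comm z w]

/-- Data for a tile. -/
structure Dr (L : Loc) (c : Bool) (keep : LE L c → Prop) where
  b : ℤ
  pos : L.V → ℤ
  pre : LE L c → List (Bool × ℤ)
  fs : LE L c → Bool
  cross : Finset ℤ
  Arc : LE L c → Bool → ℤ → ℤ → Prop
  Up : ℤ → ℤ → Prop
  Lo : ℤ → ℤ → Prop
  Bend : LE L c → ℤ → Prop
  lab : LE L c → ℤ → Bool
  pos_inj : Function.Injective pos
  pos_mem : ∀ v, 0 < pos v ∧ pos v < b
  nodup : ∀ e, keep e → (tA b pos e :: ((pre e).map Prod.snd ++ [tB b pos e])).Nodup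
  bend : ∀ e, keep e → ∀ x, x ∈ (pre e).map Prod.snd ↔ Bend e x
  bend_mem : ∀ e, keep e → ∀ x, Bend e x → (0 < x ∧ x < b) ∧ ∀ v, x ≠ pos v
  bend_two : ∀ e f x, keep e → keep f → Bend e x → Bend f x →
    e = f ∨ (lab e x ≠ lab f x ∧ x ∈ cross)
  arc : ∀ e, keep e → ∀ s x y, (s, x, y) ∈ arcsOf (tA b pos e) (pre e ++ [(fs e, tB b pos e)]) →
    Arc e s x y ∨ Arc e s y x
  arc_up : ∀ e x y, keep e → Arc e true x y → Up x y
  arc_lo : ∀ e x y, keep e → Arc e false x y → Lo x y
  arc_inj : ∀ e f s x y, keep e → keep f → Arc e s x y → Arc f s x y → e = f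
  up : ∀ x y, Up x y → x < y ∧ 0 ≤ x ∧ y ≤ b ∧ ((0 < x ∧ x < b) ∨ (0 < y ∧ y < b))
  lo : ∀ x y, Lo x y → x < y ∧ ((0 < x ∧ x < b) ∨ (0 < y ∧ y < b))
  up_pl : ∀ x y z w, Up x y → Up z w → ¬ (x < z ∧ z < y ∧ y < w)
  lo_pl : ∀ x y z w, Lo x y → Lo z w → ¬ (x < z ∧ z < y ∧ y < w)

variable {L : Loc} {c : Bool} {keep : LE L c → Prop}

theorem Dr.arc_lt (D : Dr L c keep) {e : LE L c} (he : keep e) {s : Bool} {x y : ℤ}
    (h : D.Arc e s x y) : x < y := by
  cases s
  · exact (D.lo _ _ (D.arc_lo _ _ _ he h)).1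
  · exact (D.up _ _ (D.arc_up _ _ _ he h)).1

theorem Dr.noI (D : Dr L c keep) {e f : LE L c} (he : keep e) (hf : keep f) {s : Bool}
    {x y z w : ℤ} (h : D.Arc e s x y) (h' : D.Arc f s z w) : ¬ Interl x y z w := by
  have h1 := D.arc_lt he h
  have h2 := D.arc_lt hf h'
  have h3 : ¬ (x < z ∧ z < y ∧ y < w) := by
    cases s
    · exact D.lo_pl _ _ _ _ (D.arc_lo _ _ _ he h) (D.arc_lo _ _ _ hf h')
    · exact D.up_pl _ _ _ _ (D.arc_up _ _ _ he h) (D.arc_up _ _ _ hf h')
  have h4 : ¬ (z < x ∧ x < w ∧ w < y) := by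
    cases s
    · exact D.lo_pl _ _ _ _ (D.arc_lo _ _ _ hf h') (D.arc_lo _ _ _ he h)
    · exact D.up_pl _ _ _ _ (D.arc_up _ _ _ hf h') (D.arc_up _ _ _ he h)
  unfold Interl
  rw [min_eq_left h1.le, max_eq_right h1.le, min_eq_left h2.le, max_eq_right h2.le]
  rintro (h | h)
  · exact h3 h
  · exact h4 h

theorem bends_eq (l : List (Bool × ℤ)) (s : Bool) (y : ℤ) :
    ((l ++ [(s, y)]).map Prod.snd).dropLast = l.map Prod.snd := by
  rw [List.map_append]
  simp

/-- The tile. -/
def Dr.lay (D : Dr L c keep) : TLay L c keep where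
  b := D.b
  pos := D.pos
  route := fun e => D.pre e ++ [(D.fs e, tB D.b D.pos e)]
  cross := D.cross
  pos_inj := D.pos_inj
  pos_mem := D.pos_mem
  ne_nil := fun e _ => by simp
  last := fun e _ => by simp
  nodup := fun e he => by
    have := D.nodup e he
    simpa using this
  bend_mem := fun e he x hx => by
    rw [bends_eq, D.bend e he] at hx
    exact (D.bend_mem e he x hx).1
  bend_ne := fun e he x hx => by
    rw [bends_eq, D.bend e he] at hx
    exact (D.bend_mem e he x hx).2
  planar := fun e f he hf p hp r hr hpr => by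
    obtain ⟨s, x, y⟩ := p
    obtain ⟨t, z, w⟩ := r
    simp only at hpr
    subst hpr
    intro hI
    rcases D.arc e he s x y hp with h | h <;> rcases D.arc f hf s z w hr with h' | h'
    · exact D.noI he hf h h' hI
    · exact D.noI he hf h h' (interl_swap_right hI)
    · exact D.noI he hf h h' (interl_swap_left hI)
    · exact D.noI he hf h h' (interl_swap_left (interl_swap_right hI))
  distinct := fun e f he hf hef p hp r hr hpr hs => by
    obtain ⟨s, x, y⟩ := p
    obtain ⟨t, z, w⟩ := r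
    simp only at hpr
    subst hpr
    rw [Sym2.eq_iff] at hs
    simp only at hs
    have key : ∀ {x y : ℤ}, D.Arc e s x y ∨ D.Arc e s y x → D.Arc f s x y ∨ D.Arc f s y x →
        False := by
      intro x y h h'
      rcases h with h | h <;> rcases h' with h' | h'
      · exact hef (D.arc_inj e f s x y he hf h h')
      · exact absurd (D.arc_lt he h) (not_lt.2 (D.arc_lt hf h').le)
      · exact absurd (D.arc_lt he h) (not_lt.2 (D.arc_lt hf h').le)
      · exact hef (D.arc_inj e f s y x he hf h h')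
    rcases hs with ⟨rfl, rfl⟩ | ⟨rfl, rfl⟩
    · exact key (D.arc e he s x y hp) (D.arc f hf s x y hr)
    · exact key (D.arc e he s x y hp) (D.arc f hf s y x hr).symm
  no_three := fun e f g he hf hg hef heg hfg x hx hx' hx'' => by
    rw [bends_eq] at hx hx' hx''
    rw [D.bend e he] at hx
    rw [D.bend f hf] at hx'
    rw [D.bend g hg] at hx''
    have h1 := ((D.bend_two e f x he hf hx hx').resolve_left hef).1
    have h2 := ((D.bend_two e g x he hg hx hx'').resolve_left heg).1
    have h3 := ((D.bend_two f g x hf hg hx' hx'').resolve_left hfg).1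
    revert h1 h2 h3
    cases D.lab e x <;> cases D.lab f x <;> cases D.lab g x <;> simp
  upper := fun e he p hp hp1 => by
    obtain ⟨s, x, y⟩ := p
    simp only at hp1
    subst hp1
    rcases D.arc e he _ x y hp with h | h
    · have := D.up _ _ (D.arc_up _ _ _ he h)
      simp only
      omega
    · have := D.up _ _ (D.arc_up _ _ _ he h)
      simp only
      omega
  loc := fun e he p hp => by
    obtain ⟨s, x, y⟩ := p
    have key : ∀ {x y : ℤ}, D.Arc e s x y → (0 < x ∧ x < D.b) ∨ (0 < y ∧ y < D.b) := by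
      intro x y h
      cases s
      · exact (D.lo _ _ (D.arc_lo _ _ _ he h)).2
      · exact (D.up _ _ (D.arc_up _ _ _ he h)).2.2.2
    rcases D.arc e he _ x y hp with h | h
    · exact key h
    · exact (key h).symm
  hcross := fun e f he hf hef x hx hx' => by
    rw [bends_eq] at hx hx'
    rw [D.bend e he] at hx
    rw [D.bend f hf] at hx'
    exact ((D.bend_two e f x he hf hx hx').resolve_left hef).2

theorem Dr.crossed (D : Dr L c keep) {e f : LE L c} {x : ℤ} (he : keep e) (hf : keep f)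
    (hef : e ≠ f) (h : D.Bend e x) (h' : D.Bend f x) : D.lay.Crossed e := by
  refine ⟨f, hef.symm, x, ?_, ?_⟩
  · change x ∈ ((D.pre e ++ [(D.fs e, tB D.b D.pos e)]).map Prod.snd).dropLast
    rw [bends_eq]
    exact (D.bend e he x).2 h
  · change x ∈ ((D.pre f ++ [(D.fs f, tB D.b D.pos f)]).map Prod.snd).dropLast
    rw [bends_eq]
    exact (D.bend f hf x).2 h'

end Pool.Agent.CC.TG
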