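import Pool.Agent.Lib_helper74.CCF.G27Base

/-! Tile (beta'): the legs of the left part to `B` cross the row edge leaving the region. -/

namespace Pool.Agent.CC.TG

open Gph

/-- positions of the local vertices -/
def bpos (q : ℕ) : (GLoc q).V → ℤ
  | (false, i) => 3 + (i.1 : ℤ)
  | (true, i) => 2 * q + 5 + (i.1 : ℤ)

def bpre (q : ℕ) (c : Bool) : LE (GLoc q) c → List (Bool × ℤ)
  | .inl (false, .inl k) => if k.1 % 2 = 1 then [] else [(false, 7 * q + 9 - (k.1 : ℤ) / 2)]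
  | .inl (true, .inl k) => if k.1 % 2 = 0 then [] else [(false, 6 * q + 8 - (k.1 : ℤ))]
  | .inl (_, .inr _) => []
  | .inr (.inl false) => [(false, 1)]
  | .inr (.inl true) => (false, 6 * q + 8) :: run (6 * q + 8) (q + 2)
  | .inr (.inr ⟨false, _⟩) => [(false, 2), (false, 7 * q + 10)]
  | .inr (.inr ⟨true, _⟩) => [(true, 1), (false, 2)]

def bfs (q : ℕ) (c : Bool) : LE (GLoc q) c → Bool
  | .inl _ => true
  | .inr (.inl false) => true
  | .inr (.inl true) => false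
  | .inr (.inr ⟨false, _⟩) => true
  | .inr (.inr ⟨true, _⟩) => false

def bArc (q : ℕ) (c : Bool) : LE (GLoc q) c → Bool → ℤ → ℤ → Prop
  | .inl (false, .inl k), s, x, y =>
    (k.1 % 2 = 1 ∧ s = true ∧ x = 0 ∧ y = 3 + (k.1 : ℤ)) ∨
    (k.1 % 2 = 0 ∧ s = false ∧ x = 3 + min (k.1 : ℤ) (2 * q + 1) ∧
      y = 7 * q + 9 - (k.1 : ℤ) / 2) ∨
    (k.1 % 2 = 0 ∧ s = true ∧ x = 7 * q + 9 - (k.1 : ℤ) / 2 ∧ y = 7 * q + 11)
  | .inl (true, .inl k), s, x, y =>
    (k.1 % 2 = 0 ∧ s = true ∧ x = 0 ∧ y = 2 * q + 5 + min (k.1 : ℤ) (2 * q + 1)) ∨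
    (k.1 % 2 = 1 ∧ s = false ∧ x = 2 * q + 5 + (k.1 : ℤ) ∧ y = 6 * q + 8 - (k.1 : ℤ)) ∨
    (k.1 % 2 = 1 ∧ s = true ∧ x = 6 * q + 8 - (k.1 : ℤ) ∧ y = 7 * q + 11)
  | .inl (false, .inr i), s, x, y => s = true ∧ x = 3 + (i.1 : ℤ) ∧ y = 4 + (i.1 : ℤ)
  | .inl (true, .inr i), s, x, y => s = true ∧ x = 2 * q + 5 + (i.1 : ℤ) ∧
      y = 2 * q + 6 + (i.1 : ℤ)
  | .inr (.inl false), s, x, y => (s = false ∧ x = -1 ∧ y = 1) ∨ (s = true ∧ x = 1 ∧ y = 3)
  | .inr (.inl true), s, x, y => (s = false ∧ x = 2 * q + 5 ∧ y = 6 * q + 8) ∨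
      (s = true ∧ 6 * q + 8 ≤ x ∧ x < 7 * q + 10 ∧ y = x + 1) ∨
      (s = false ∧ x = 7 * q + 10 ∧ y = 7 * q + 12)
  | .inr (.inr ⟨false, _⟩), s, x, y => (s = false ∧ x = -2 ∧ y = 2) ∨
      (s = false ∧ x = 2 ∧ y = 7 * q + 10) ∨ (s = true ∧ x = 7 * q + 10 ∧ y = 7 * q + 11)
  | .inr (.inr ⟨true, _⟩), s, x, y => (s = true ∧ x = 0 ∧ y = 1) ∨
      (s = false ∧ x = 1 ∧ y = 2) ∨ (s = false ∧ x = 2 ∧ y = 7 * q + 13)

def bUp (q : ℕ) (x y : ℤ) : Prop :=
  (x = 0 ∧ y = 1) ∨ (x = 0 ∧ 3 ≤ y ∧ y ≤ 4 * q + 6) ∨ (4 * q + 7 ≤ x ∧ x < y ∧ y = 7 * q + 11) ∨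
  (3 ≤ x ∧ x ≤ 7 * q + 9 ∧ y = x + 1) ∨ (x = 1 ∧ y = 3)

def bLo (q : ℕ) (x y : ℤ) : Prop :=
  (x = -1 ∧ y = 1) ∨ (x = 1 ∧ y = 2) ∨ (x = 2 ∧ y = 7 * q + 13) ∨ (x = -2 ∧ y = 2) ∨
  (x = 2 ∧ y = 7 * q + 10) ∨ (3 ≤ x ∧ x ≤ 2 * q + 3 ∧ x + 2 * y = 14 * q + 21) ∨
  (x = 2 * q + 4 ∧ y = 6 * q + 8) ∨ (2 * q + 6 ≤ x ∧ x ≤ 4 * q + 6 ∧ x + y = 8 * q + 13) ∨
  (x = 2 * q + 5 ∧ y = 6 * q + 8) ∨ (x = 7 * q + 10 ∧ y = 7 * q + 12)

def bBend (q : ℕ) (c : Bool) : LE (GLoc q) c → ℤ → Prop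
  | .inl (false, .inl k), x => k.1 % 2 = 0 ∧ x = 7 * q + 9 - (k.1 : ℤ) / 2
  | .inl (true, .inl k), x => k.1 % 2 = 1 ∧ x = 6 * q + 8 - (k.1 : ℤ)
  | .inl (_, .inr _), _ => False
  | .inr (.inl false), x => x = 1
  | .inr (.inl true), x => 6 * q + 8 ≤ x ∧ x ≤ 7 * q + 10
  | .inr (.inr ⟨false, _⟩), x => x = 2 ∨ x = 7 * q + 10
  | .inr (.inr ⟨true, _⟩), x => x = 1 ∨ x = 2

def bLab (q : ℕ) (c : Bool) : LE (GLoc q) c → ℤ → Bool
  | .inl _, _ => false
  | .inr (.inl _), _ => true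
  | .inr (.inr ⟨false, _⟩), x => decide (x = 2)
  | .inr (.inr ⟨true, _⟩), _ => false

theorem b_up_pl (q : ℕ) (x y z w : ℤ) (h : bUp q x y) (h' : bUp q z w) :
    ¬ (x < z ∧ z < y ∧ y < w) := by
  unfold bUp at *
  omega

theorem b_lo_pl (q : ℕ) (x y z w : ℤ) (h : bLo q x y) (h' : bLo q z w) :
    ¬ (x < z ∧ z < y ∧ y < w) := by
  unfold bLo at *
  rcases h with h | h | h | h | h | h | h | h | h | h <;> omega

theorem b_arc_inj (q : ℕ) (c : Bool) (e f : LE (GLoc q) c) (s : Bool) (x y : ℤ)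
    (h : bArc q c e s x y) (h' : bArc q c f s x y) : e = f := by
  rcases e with ⟨_ | _, ⟨k, hk⟩ | ⟨k, hk⟩⟩ | (_ | _) | ⟨_ | _, hc⟩ <;>
  rcases f with ⟨_ | _, ⟨l, hl⟩ | ⟨l, hl⟩⟩ | (_ | _) | ⟨_ | _, hc'⟩ <;>
  first
  | rfl
  | (exfalso; cases s <;> simp only [bArc, reduceCtorEq, false_and, and_false, or_false, false_or] at h h' <;> omega)
  | (have hkl : k = l := by
      cases s <;> simp only [bArc, reduceCtorEq, false_and, and_false, or_false, false_or] at h h' <;> omega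
     subst hkl; rfl)

theorem b_bend_two (q : ℕ) (c : Bool) (e f : LE (GLoc q) c) (x : ℤ)
    (h : bBend q c e x) (h' : bBend q c f x) : e = f ∨ (bLab q c e x ≠ bLab q c f x ∧
      x ∈ Finset.Icc (6 * q + 8 : ℤ) (7 * q + 9) ∪
        (if c then {1, 2, 7 * (q : ℤ) + 10} else ∅)) := by
  rcases e with ⟨_ | _, ⟨k, hk⟩ | ⟨k, hk⟩⟩ | (_ | _) | ⟨_ | _, hc⟩ <;>
  rcases f with ⟨_ | _, ⟨l, hl⟩ | ⟨l, hl⟩⟩ | (_ | _) | ⟨_ | _, hc'⟩ <;>
  simp only [bBend] at h h' <;>
  first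
  | exact Or.inl rfl
  | (exfalso; omega)
  | (have hkl : k = l := by omega
     subst hkl; exact Or.inl rfl)
  | (refine Or.inr ⟨?_, ?_⟩
     · simp only [bLab]
       first
       | decide
       | (rw [decide_eq_true (by omega)]; decide)
       | (rw [decide_eq_false (by omega)]; decide)
     · rw [Finset.mem_union, Finset.mem_Icc]
       first
       | (left; omega)
       | (right; rw [if_pos hc]; simp only [Finset.mem_insert, Finset.mem_singleton]; omega)
       | (right; rw [if_pos hc']; simp only [Finset.mem_insert, Finset.mem_singleton]; omega))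

theorem b_arc (q : ℕ) (c : Bool) (e : LE (GLoc q) c) (s : Bool) (x y : ℤ)
    (h : (s, x, y) ∈ arcsOf (tA (7 * q + 11) (bpos q) e)
      (bpre q c e ++ [(bfs q c e, tB (7 * q + 11) (bpos q) e)])) :
    bArc q c e s x y ∨ bArc q c e s y x := by
  rcases e with ⟨_ | _, ⟨k, hk⟩ | ⟨k, hk⟩⟩ | (_ | _) | ⟨_ | _, hc⟩
  · rcases Nat.mod_two_eq_zero_or_one k with hk2 | hk2 <;>
    simp [bpre, bfs, tA, tB, GLoc, ePos, bpos, arcsOf, hk2] at h <;>
    simp only [bArc] <;> cases s <;> simp only [reduceCtorEq, false_and, and_false, or_false, false_or, true_and] at h ⊢ <;>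
    omega
  · simp [bpre, bfs, tA, tB, GLoc, ePos, bpos, arcsOf] at h
    simp only [bArc]
    cases s <;> simp only [reduceCtorEq, false_and, and_false, or_false, false_or, true_and] at h ⊢
    omega
  · rcases Nat.mod_two_eq_zero_or_one k with hk2 | hk2 <;>
    simp [bpre, bfs, tA, tB, GLoc, ePos, bpos, arcsOf, hk2] at h <;>
    simp only [bArc] <;> cases s <;> simp only [reduceCtorEq, false_and, and_false, or_false, false_or, true_and] at h ⊢ <;>
    omega
  · simp [bpre, bfs, tA, tB, GLoc, ePos, bpos, arcsOf] at h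
    simp only [bArc]
    cases s <;> simp only [reduceCtorEq, false_and, and_false, or_false, false_or, true_and] at h ⊢
    omega
  · simp [bpre, bfs, tA, tB, GLoc, bpos, arcsOf] at h
    simp only [bArc]
    cases s <;> simp only [reduceCtorEq, false_and, and_false, or_false, false_or, true_and] at h ⊢ <;>
    omega
  · simp [bpre, bfs, tA, tB, GLoc, bpos, arcsOf, mem_arcs_run] at h
    simp only [bArc]
    cases s <;> simp only [reduceCtorEq, false_and, and_false, or_false, false_or, true_and] at h ⊢ <;>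
    omega
  · simp [bpre, bfs, tA, tB, GLoc, arcsOf] at h
    simp only [bArc]
    cases s <;> simp only [reduceCtorEq, false_and, and_false, or_false, false_or, true_and] at h ⊢ <;>
    omega
  · simp [bpre, bfs, tA, tB, GLoc, arcsOf] at h
    simp only [bArc]
    cases s <;> simp only [reduceCtorEq, false_and, and_false, or_false, false_or, true_and] at h ⊢ <;>
    omega

theorem b_bend (q : ℕ) (c : Bool) (e : LE (GLoc q) c) (x : ℤ) :
    x ∈ (bpre q c e).map Prod.snd ↔ bBend q c e x := by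
  rcases e with ⟨_ | _, ⟨k, hk⟩ | ⟨k, hk⟩⟩ | (_ | _) | ⟨_ | _, hc⟩
  · rcases Nat.mod_two_eq_zero_or_one k with hk2 | hk2 <;> simp [bpre, bBend, hk2]
  · simp [bpre, bBend]
  · rcases Nat.mod_two_eq_zero_or_one k with hk2 | hk2 <;> simp [bpre, bBend, hk2]
  · simp [bpre, bBend]
  · simp [bpre, bBend]
  · simp only [bpre, bBend, List.map_cons, List.mem_cons, mem_run_map]
    push_cast
    omega
  · simp [bpre, bBend]
  · simp [bpre, bBend]

theorem b_nodup (q : ℕ) (c : Bool) (e : LE (GLoc q) c) :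
    (tA (7 * q + 11) (bpos q) e ::
      ((bpre q c e).map Prod.snd ++ [tB (7 * q + 11) (bpos q) e])).Nodup := by
  rcases e with ⟨_ | _, ⟨k, hk⟩ | ⟨k, hk⟩⟩ | (_ | _) | ⟨_ | _, hc⟩
  · rcases Nat.mod_two_eq_zero_or_one k with hk2 | hk2 <;>
    simp [bpre, tA, tB, GLoc, ePos, bpos, hk2] <;> omega
  · simp [bpre, tA, tB, GLoc, ePos, bpos]
  · rcases Nat.mod_two_eq_zero_or_one k with hk2 | hk2 <;>
    simp [bpre, tA, tB, GLoc, ePos, bpos, hk2] <;> omega
  · simp [bpre, tA, tB, GLoc, ePos, bpos]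
  · simp [bpre, tA, tB, GLoc, bpos]
  · simp only [bpre, tA, tB, GLoc, bpos, List.map_cons, List.cons_append, List.nodup_cons,
      List.mem_cons, List.mem_append, mem_run_map, List.mem_singleton, List.not_mem_nil, or_false]
    refine ⟨by push_cast; omega, by push_cast; omega, ?_⟩
    rw [List.nodup_append]
    refine ⟨run_nodup _ _, by simp, ?_⟩
    intro a ha b hb
    rw [mem_run_map] at ha
    rw [List.mem_singleton] at hb
    push_cast at ha
    omega
  · simp [bpre, tA, tB, GLoc]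
    omega
  · simp [bpre, tA, tB, GLoc]
    omega

theorem b_pos_inj (q : ℕ) : Function.Injective (bpos q) := by
  rintro ⟨_ | _, i, hi⟩ ⟨_ | _, j, hj⟩ h <;> simp only [bpos] at h
  · have : i = j := by omega
    subst this; rfl
  · omega
  · omega
  · have : i = j := by omega
    subst this; rfl

theorem b_bend_mem (q : ℕ) (c : Bool) (e : LE (GLoc q) c) (x : ℤ) (h : bBend q c e x) :
    (0 < x ∧ x < 7 * (q : ℤ) + 11) ∧ ∀ v, x ≠ bpos q v := by
  have key : (0 < x ∧ x < 7 * (q : ℤ) + 11) ∧ (x < 3 ∨ 4 * (q : ℤ) + 6 < x) := by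
    rcases e with ⟨_ | _, ⟨k, hk⟩ | ⟨k, hk⟩⟩ | (_ | _) | ⟨_ | _, hc⟩ <;>
    simp only [bBend] at h <;> omega
  refine ⟨key.1, ?_⟩
  rintro ⟨_ | _, i, hi⟩ <;> simp only [bpos] <;> omega

theorem b_arc_up (q : ℕ) (c : Bool) (e : LE (GLoc q) c) (x y : ℤ) (h : bArc q c e true x y) :
    bUp q x y := by
  rcases e with ⟨_ | _, ⟨k, hk⟩ | ⟨k, hk⟩⟩ | (_ | _) | ⟨_ | _, hc⟩ <;>
  simp only [bArc, reduceCtorEq, false_and, and_false, or_false, false_or, true_and] at h <;>
  unfold bUp <;> omega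

theorem b_arc_lo (q : ℕ) (c : Bool) (e : LE (GLoc q) c) (x y : ℤ) (h : bArc q c e false x y) :
    bLo q x y := by
  rcases e with ⟨_ | _, ⟨k, hk⟩ | ⟨k, hk⟩⟩ | (_ | _) | ⟨_ | _, hc⟩ <;>
  simp only [bArc, reduceCtorEq, false_and, and_false, or_false, false_or, true_and] at h <;>
  unfold bLo
  · rcases Nat.lt_or_ge (2 * q + 1) k with hk' | hk'
    · rw [min_eq_right (by omega)] at h
      (first
    | exact Or.inl (by omega)
    | exact Or.inr (Or.inl (by omega))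
    | exact Or.inr (Or.inr (Or.inl (by omega)))
    | exact Or.inr (Or.inr (Or.inr (Or.inl (by omega))))
    | exact Or.inr (Or.inr (Or.inr (Or.inr (Or.inl (by omega)))))
    | exact Or.inr (Or.inr (Or.inr (Or.inr (Or.inr (Or.inl (by omega))))))
    | exact Or.inr (Or.inr (Or.inr (Or.inr (Or.inr (Or.inr (Or.inl (by omega)))))))
    | exact Or.inr (Or.inr (Or.inr (Or.inr (Or.inr (Or.inr (Or.inr (Or.inl (by omega))))))))
    | exact Or.inr (Or.inr (Or.inr (Or.inr (Or.inr (Or.inr (Or.inr (Or.inr (Or.inl (by omega)))))))))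
    | exact Or.inr (Or.inr (Or.inr (Or.inr (Or.inr (Or.inr (Or.inr (Or.inr (Or.inr (by omega))))))))))
    · rw [min_eq_left (by omega)] at h
      (first
    | exact Or.inl (by omega)
    | exact Or.inr (Or.inl (by omega))
    | exact Or.inr (Or.inr (Or.inl (by omega)))
    | exact Or.inr (Or.inr (Or.inr (Or.inl (by omega))))
    | exact Or.inr (Or.inr (Or.inr (Or.inr (Or.inl (by omega)))))
    | exact Or.inr (Or.inr (Or.inr (Or.inr (Or.inr (Or.inl (by omega))))))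
    | exact Or.inr (Or.inr (Or.inr (Or.inr (Or.inr (Or.inr (Or.inl (by omega)))))))
    | exact Or.inr (Or.inr (Or.inr (Or.inr (Or.inr (Or.inr (Or.inr (Or.inl (by omega))))))))
    | exact Or.inr (Or.inr (Or.inr (Or.inr (Or.inr (Or.inr (Or.inr (Or.inr (Or.inl (by omega)))))))))
    | exact Or.inr (Or.inr (Or.inr (Or.inr (Or.inr (Or.inr (Or.inr (Or.inr (Or.inr (by omega))))))))))
  · (first
    | exact Or.inl (by omega)
    | exact Or.inr (Or.inl (by omega))
    | exact Or.inr (Or.inr (Or.inl (by omega)))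
    | exact Or.inr (Or.inr (Or.inr (Or.inl (by omega))))
    | exact Or.inr (Or.inr (Or.inr (Or.inr (Or.inl (by omega)))))
    | exact Or.inr (Or.inr (Or.inr (Or.inr (Or.inr (Or.inl (by omega))))))
    | exact Or.inr (Or.inr (Or.inr (Or.inr (Or.inr (Or.inr (Or.inl (by omega)))))))
    | exact Or.inr (Or.inr (Or.inr (Or.inr (Or.inr (Or.inr (Or.inr (Or.inl (by omega))))))))
    | exact Or.inr (Or.inr (Or.inr (Or.inr (Or.inr (Or.inr (Or.inr (Or.inr (Or.inl (by omega)))))))))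
    | exact Or.inr (Or.inr (Or.inr (Or.inr (Or.inr (Or.inr (Or.inr (Or.inr (Or.inr (by omega))))))))))
  · (first
    | exact Or.inl (by omega)
    | exact Or.inr (Or.inl (by omega))
    | exact Or.inr (Or.inr (Or.inl (by omega)))
    | exact Or.inr (Or.inr (Or.inr (Or.inl (by omega))))
    | exact Or.inr (Or.inr (Or.inr (Or.inr (Or.inl (by omega)))))
    | exact Or.inr (Or.inr (Or.inr (Or.inr (Or.inr (Or.inl (by omega))))))
    | exact Or.inr (Or.inr (Or.inr (Or.inr (Or.inr (Or.inr (Or.inl (by omega)))))))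
    | exact Or.inr (Or.inr (Or.inr (Or.inr (Or.inr (Or.inr (Or.inr (Or.inl (by omega))))))))
    | exact Or.inr (Or.inr (Or.inr (Or.inr (Or.inr (Or.inr (Or.inr (Or.inr (Or.inl (by omega)))))))))
    | exact Or.inr (Or.inr (Or.inr (Or.inr (Or.inr (Or.inr (Or.inr (Or.inr (Or.inr (by omega))))))))))
  · rcases h with h | h
    · (first
    | exact Or.inl (by omega)
    | exact Or.inr (Or.inl (by omega))
    | exact Or.inr (Or.inr (Or.inl (by omega)))
    | exact Or.inr (Or.inr (Or.inr (Or.inl (by omega))))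
    | exact Or.inr (Or.inr (Or.inr (Or.inr (Or.inl (by omega)))))
    | exact Or.inr (Or.inr (Or.inr (Or.inr (Or.inr (Or.inl (by omega))))))
    | exact Or.inr (Or.inr (Or.inr (Or.inr (Or.inr (Or.inr (Or.inl (by omega)))))))
    | exact Or.inr (Or.inr (Or.inr (Or.inr (Or.inr (Or.inr (Or.inr (Or.inl (by omega))))))))
    | exact Or.inr (Or.inr (Or.inr (Or.inr (Or.inr (Or.inr (Or.inr (Or.inr (Or.inl (by omega)))))))))
    | exact Or.inr (Or.inr (Or.inr (Or.inr (Or.inr (Or.inr (Or.inr (Or.inr (Or.inr (by omega))))))))))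
    · (first
    | exact Or.inl (by omega)
    | exact Or.inr (Or.inl (by omega))
    | exact Or.inr (Or.inr (Or.inl (by omega)))
    | exact Or.inr (Or.inr (Or.inr (Or.inl (by omega))))
    | exact Or.inr (Or.inr (Or.inr (Or.inr (Or.inl (by omega)))))
    | exact Or.inr (Or.inr (Or.inr (Or.inr (Or.inr (Or.inl (by omega))))))
    | exact Or.inr (Or.inr (Or.inr (Or.inr (Or.inr (Or.inr (Or.inl (by omega)))))))
    | exact Or.inr (Or.inr (Or.inr (Or.inr (Or.inr (Or.inr (Or.inr (Or.inl (by omega))))))))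
    | exact Or.inr (Or.inr (Or.inr (Or.inr (Or.inr (Or.inr (Or.inr (Or.inr (Or.inl (by omega)))))))))
    | exact Or.inr (Or.inr (Or.inr (Or.inr (Or.inr (Or.inr (Or.inr (Or.inr (Or.inr (by omega))))))))))
  · rcases h with h | h
    · (first
    | exact Or.inl (by omega)
    | exact Or.inr (Or.inl (by omega))
    | exact Or.inr (Or.inr (Or.inl (by omega)))
    | exact Or.inr (Or.inr (Or.inr (Or.inl (by omega))))
    | exact Or.inr (Or.inr (Or.inr (Or.inr (Or.inl (by omega)))))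
    | exact Or.inr (Or.inr (Or.inr (Or.inr (Or.inr (Or.inl (by omega))))))
    | exact Or.inr (Or.inr (Or.inr (Or.inr (Or.inr (Or.inr (Or.inl (by omega)))))))
    | exact Or.inr (Or.inr (Or.inr (Or.inr (Or.inr (Or.inr (Or.inr (Or.inl (by omega))))))))
    | exact Or.inr (Or.inr (Or.inr (Or.inr (Or.inr (Or.inr (Or.inr (Or.inr (Or.inl (by omega)))))))))
    | exact Or.inr (Or.inr (Or.inr (Or.inr (Or.inr (Or.inr (Or.inr (Or.inr (Or.inr (by omega))))))))))
    · (first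
    | exact Or.inl (by omega)
    | exact Or.inr (Or.inl (by omega))
    | exact Or.inr (Or.inr (Or.inl (by omega)))
    | exact Or.inr (Or.inr (Or.inr (Or.inl (by omega))))
    | exact Or.inr (Or.inr (Or.inr (Or.inr (Or.inl (by omega)))))
    | exact Or.inr (Or.inr (Or.inr (Or.inr (Or.inr (Or.inl (by omega))))))
    | exact Or.inr (Or.inr (Or.inr (Or.inr (Or.inr (Or.inr (Or.inl (by omega)))))))
    | exact Or.inr (Or.inr (Or.inr (Or.inr (Or.inr (Or.inr (Or.inr (Or.inl (by omega))))))))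
    | exact Or.inr (Or.inr (Or.inr (Or.inr (Or.inr (Or.inr (Or.inr (Or.inr (Or.inl (by omega)))))))))
    | exact Or.inr (Or.inr (Or.inr (Or.inr (Or.inr (Or.inr (Or.inr (Or.inr (Or.inr (by omega))))))))))
  · rcases h with h | h
    · (first
    | exact Or.inl (by omega)
    | exact Or.inr (Or.inl (by omega))
    | exact Or.inr (Or.inr (Or.inl (by omega)))
    | exact Or.inr (Or.inr (Or.inr (Or.inl (by omega))))
    | exact Or.inr (Or.inr (Or.inr (Or.inr (Or.inl (by omega)))))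
    | exact Or.inr (Or.inr (Or.inr (Or.inr (Or.inr (Or.inl (by omega))))))
    | exact Or.inr (Or.inr (Or.inr (Or.inr (Or.inr (Or.inr (Or.inl (by omega)))))))
    | exact Or.inr (Or.inr (Or.inr (Or.inr (Or.inr (Or.inr (Or.inr (Or.inl (by omega))))))))
    | exact Or.inr (Or.inr (Or.inr (Or.inr (Or.inr (Or.inr (Or.inr (Or.inr (Or.inl (by omega)))))))))
    | exact Or.inr (Or.inr (Or.inr (Or.inr (Or.inr (Or.inr (Or.inr (Or.inr (Or.inr (by omega))))))))))
    · (first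
    | exact Or.inl (by omega)
    | exact Or.inr (Or.inl (by omega))
    | exact Or.inr (Or.inr (Or.inl (by omega)))
    | exact Or.inr (Or.inr (Or.inr (Or.inl (by omega))))
    | exact Or.inr (Or.inr (Or.inr (Or.inr (Or.inl (by omega)))))
    | exact Or.inr (Or.inr (Or.inr (Or.inr (Or.inr (Or.inl (by omega))))))
    | exact Or.inr (Or.inr (Or.inr (Or.inr (Or.inr (Or.inr (Or.inl (by omega)))))))
    | exact Or.inr (Or.inr (Or.inr (Or.inr (Or.inr (Or.inr (Or.inr (Or.inl (by omega))))))))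
    | exact Or.inr (Or.inr (Or.inr (Or.inr (Or.inr (Or.inr (Or.inr (Or.inr (Or.inl (by omega)))))))))
    | exact Or.inr (Or.inr (Or.inr (Or.inr (Or.inr (Or.inr (Or.inr (Or.inr (Or.inr (by omega))))))))))

/-- Tile (beta'). -/
noncomputable def bDr (q : ℕ) (c : Bool) : Dr (GLoc q) c (fun _ => True) where
  b := 7 * q + 11
  pos := bpos q
  pre := bpre q c
  fs := bfs q c
  cross := Finset.Icc (6 * q + 8 : ℤ) (7 * q + 9) ∪ (if c then {1, 2, 7 * (q : ℤ) + 10} else ∅)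
  Arc := bArc q c
  Up := bUp q
  Lo := bLo q
  Bend := bBend q c
  lab := bLab q c
  pos_inj := b_pos_inj q
  pos_mem := by
    rintro ⟨_ | _, i, hi⟩ <;> simp only [bpos] <;> omega
  nodup := fun e _ => b_nodup q c e
  bend := fun e _ x => b_bend q c e x
  bend_mem := fun e _ x h => b_bend_mem q c e x h
  bend_two := fun e f x _ _ h h' => b_bend_two q c e f x h h'
  arc := fun e _ s x y h => b_arc q c e s x y h
  arc_up := fun e x y _ h => b_arc_up q c e x y h
  arc_lo := fun e x y _ h => b_arc_lo q c e x y h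
  arc_inj := fun e f s x y _ _ h h' => b_arc_inj q c e f s x y h h'
  up := fun x y h => by
    unfold bUp at h
    omega
  lo := fun x y h => by
    unfold bLo at h
    omega
  up_pl := b_up_pl q
  lo_pl := b_lo_pl q

theorem card_cross (u v x y z : ℤ) (n : ℕ) (c : Bool) (h : v + 1 - u = n) :
    (Finset.Icc u v ∪ (if c then {x, y, z} else ∅)).card ≤ n + if c then 3 else 0 := by
  refine (Finset.card_union_le _ _).trans (add_le_add ?_ ?_)
  · rw [Int.card_Icc, h]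
    simp
  · cases c
    · simp
    · simp only [if_true]
      exact Finset.card_le_three

theorem tileG_even (q : ℕ) (c : Bool) (k : Fin (2 * q + 3)) (hk : k.1 % 2 = 0) :
    TCr (GLoc q) c (q + 2 + if c then 3 else 0) (.inl (false, .inl k)) := by
  obtain ⟨k, hk'⟩ := k
  simp only at hk
  refine ⟨(bDr q c).lay, ?_, ?_⟩
  · exact card_cross _ _ _ _ _ _ _ (by push_cast; ring)
  · refine (bDr q c).crossed (f := .inr (.inl true)) (x := 7 * q + 9 - (k : ℤ) / 2) trivial trivial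
      (by simp) ⟨hk, rfl⟩ ?_
    change 6 * (q : ℤ) + 8 ≤ 7 * q + 9 - (k : ℤ) / 2 ∧ 7 * (q : ℤ) + 9 - (k : ℤ) / 2 ≤ 7 * q + 10
    omega

end Pool.Agent.CC.TG
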