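import Pool.Agent.Lib_helper74.CCF.G27Beta

/-! Tile (delta): the legs of the left part to `A` cross the row edge leaving the region. -/

namespace Pool.Agent.CC.TG

open Gph

/-- positions of the local vertices -/
def dpos (q : ℕ) : (GLoc q).V → ℤ
  | (false, i) => q + 6 + (i.1 : ℤ)
  | (true, i) => 3 * q + 8 + (i.1 : ℤ)

def dpre (q : ℕ) (c : Bool) : LE (GLoc q) c → List (Bool × ℤ)
  | .inl (false, .inl k) => if k.1 % 2 = 0 then [] else [(true, q + 2 - ((k.1 : ℤ) + 1) / 2)]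
  | .inl (true, .inl _) => []
  | .inl (_, .inr _) => []
  | .inr (.inl false) => [(false, q + 2), (true, q + 4)]
  | .inr (.inl true) => (true, (1 : ℤ)) :: (run 1 q ++ [(true, (q : ℤ) + 4), (true, (q : ℤ) + 5)])
  | .inr (.inr ⟨false, _⟩) => [(false, q + 3), (false, q + 5)]
  | .inr (.inr ⟨true, _⟩) => [(false, q + 2), (false, q + 3)]

def dfs (q : ℕ) (c : Bool) : LE (GLoc q) c → Bool
  | .inl (false, .inl _) => false
  | .inl (true, .inl k) => decide (k.1 % 2 = 0)
  | .inl (_, .inr _) => true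
  | .inr (.inl false) => true
  | .inr (.inl true) => false
  | .inr (.inr _) => false

def dArc (q : ℕ) (c : Bool) : LE (GLoc q) c → Bool → ℤ → ℤ → Prop
  | .inl (false, .inl k), s, x, y =>
    (k.1 % 2 = 0 ∧ s = false ∧ x = q + 6 + min (k.1 : ℤ) (2 * q + 1) ∧ y = 5 * q + 10) ∨
    (k.1 % 2 = 1 ∧ s = true ∧ x = q + 2 - ((k.1 : ℤ) + 1) / 2 ∧ y = q + 6 + (k.1 : ℤ)) ∨
    (k.1 % 2 = 1 ∧ s = false ∧ x = 0 ∧ y = q + 2 - ((k.1 : ℤ) + 1) / 2)
  | .inl (true, .inl k), s, x, y =>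
    (k.1 % 2 = 0 ∧ s = true ∧ x = 0 ∧ y = 3 * q + 8 + min (k.1 : ℤ) (2 * q + 1)) ∨
    (k.1 % 2 = 1 ∧ s = false ∧ x = 3 * q + 8 + (k.1 : ℤ) ∧ y = 5 * q + 10)
  | .inl (false, .inr i), s, x, y => s = true ∧ x = q + 6 + (i.1 : ℤ) ∧ y = q + 7 + (i.1 : ℤ)
  | .inl (true, .inr i), s, x, y => s = true ∧ x = 3 * q + 8 + (i.1 : ℤ) ∧
      y = 3 * q + 9 + (i.1 : ℤ)
  | .inr (.inl false), s, x, y => (s = false ∧ x = -1 ∧ y = q + 2) ∨
      (s = true ∧ x = q + 2 ∧ y = q + 4) ∨ (s = true ∧ x = q + 4 ∧ y = q + 6)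
  | .inr (.inl true), s, x, y => (s = true ∧ x = 1 ∧ y = 3 * q + 8) ∨
      (s = true ∧ 1 ≤ x ∧ x < q + 1 ∧ y = x + 1) ∨
      (s = true ∧ x = q + 1 ∧ y = q + 4) ∨ (s = true ∧ x = q + 4 ∧ y = q + 5) ∨
      (s = false ∧ x = q + 5 ∧ y = 5 * q + 11)
  | .inr (.inr ⟨false, _⟩), s, x, y => (s = false ∧ x = -2 ∧ y = q + 3) ∨
      (s = false ∧ x = q + 3 ∧ y = q + 5) ∨ (s = false ∧ x = q + 5 ∧ y = 5 * q + 10)
  | .inr (.inr ⟨true, _⟩), s, x, y => (s = false ∧ x = 0 ∧ y = q + 2) ∨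
      (s = false ∧ x = q + 2 ∧ y = q + 3) ∨ (s = false ∧ x = q + 3 ∧ y = 5 * q + 12)

def dUp (q : ℕ) (x y : ℤ) : Prop :=
  (x = 0 ∧ 3 * q + 8 ≤ y ∧ y ≤ 5 * q + 9) ∨ (x = 1 ∧ y = 3 * q + 8) ∨
  (1 ≤ x ∧ x ≤ q ∧ y = x + 1) ∨ (x = q + 1 ∧ y = q + 4) ∨ (x = q + 4 ∧ y = q + 5) ∨
  (x = q + 2 ∧ y = q + 4) ∨ (x = q + 4 ∧ y = q + 6) ∨
  (1 ≤ x ∧ x ≤ q + 1 ∧ 2 * x + y = 3 * q + 9) ∨ (q + 6 ≤ x ∧ x ≤ 5 * q + 8 ∧ y = x + 1)

def dLo (q : ℕ) (x y : ℤ) : Prop :=
  (x = -1 ∧ y = q + 2) ∨ (x = 0 ∧ 1 ≤ y ∧ y ≤ q + 2) ∨ (x = q + 2 ∧ y = q + 3) ∨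
  (x = q + 3 ∧ y = 5 * q + 12) ∨ (x = -2 ∧ y = q + 3) ∨ (x = q + 3 ∧ y = q + 5) ∨
  (x = q + 5 ∧ y = 5 * q + 10) ∨ (x = q + 5 ∧ y = 5 * q + 11) ∨
  (q + 6 ≤ x ∧ x ≤ 5 * q + 9 ∧ y = 5 * q + 10)

def dBend (q : ℕ) (c : Bool) : LE (GLoc q) c → ℤ → Prop
  | .inl (false, .inl k), x => k.1 % 2 = 1 ∧ x = q + 2 - ((k.1 : ℤ) + 1) / 2
  | .inl (true, .inl _), _ => False
  | .inl (_, .inr _), _ => False
  | .inr (.inl false), x => x = q + 2 ∨ x = q + 4
  | .inr (.inl true), x => (1 ≤ x ∧ x ≤ q + 1) ∨ x = q + 4 ∨ x = q + 5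
  | .inr (.inr ⟨false, _⟩), x => x = q + 3 ∨ x = q + 5
  | .inr (.inr ⟨true, _⟩), x => x = q + 2 ∨ x = q + 3

def dLab (q : ℕ) (c : Bool) : LE (GLoc q) c → ℤ → Bool
  | .inl _, _ => false
  | .inr (.inl false), x => decide (x = q + 2)
  | .inr (.inl true), _ => true
  | .inr (.inr ⟨false, _⟩), x => decide (x = q + 3)
  | .inr (.inr ⟨true, _⟩), _ => false

theorem d_up_pl (q : ℕ) (x y z w : ℤ) (h : dUp q x y) (h' : dUp q z w) :
    ¬ (x < z ∧ z < y ∧ y < w) := by
  unfold dUp at *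
  rcases h with h | h | h | h | h | h | h | h | h <;> omega

theorem d_lo_pl (q : ℕ) (x y z w : ℤ) (h : dLo q x y) (h' : dLo q z w) :
    ¬ (x < z ∧ z < y ∧ y < w) := by
  unfold dLo at *
  rcases h with h | h | h | h | h | h | h | h | h <;> omega

theorem d_arc_inj (q : ℕ) (c : Bool) (e f : LE (GLoc q) c) (s : Bool) (x y : ℤ)
    (h : dArc q c e s x y) (h' : dArc q c f s x y) : e = f := by
  rcases e with ⟨_ | _, ⟨k, hk⟩ | ⟨k, hk⟩⟩ | (_ | _) | ⟨_ | _, hc⟩ <;>
  rcases f with ⟨_ | _, ⟨l, hl⟩ | ⟨l, hl⟩⟩ | (_ | _) | ⟨_ | _, hc'⟩ <;>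
  first
  | rfl
  | (exfalso; cases s <;> simp only [dArc, reduceCtorEq, false_and, and_false, or_false, false_or] at h h' <;> omega)
  | (have hkl : k = l := by
      cases s <;> simp only [dArc, reduceCtorEq, false_and, and_false, or_false, false_or] at h h' <;> omega
     subst hkl; rfl)

theorem d_bend_two (q : ℕ) (c : Bool) (e f : LE (GLoc q) c) (x : ℤ)
    (h : dBend q c e x) (h' : dBend q c f x) : e = f ∨ (dLab q c e x ≠ dLab q c f x ∧
      x ∈ insert (q + 4 : ℤ) (Finset.Icc 1 (q + 1 : ℤ)) ∪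
        (if c then {(q : ℤ) + 2, (q : ℤ) + 3, (q : ℤ) + 5} else ∅)) := by
  rcases e with ⟨_ | _, ⟨k, hk⟩ | ⟨k, hk⟩⟩ | (_ | _) | ⟨_ | _, hc⟩ <;>
  rcases f with ⟨_ | _, ⟨l, hl⟩ | ⟨l, hl⟩⟩ | (_ | _) | ⟨_ | _, hc'⟩ <;>
  simp only [dBend] at h h' <;>
  first
  | exact Or.inl rfl
  | (exfalso; omega)
  | (have hkl : k = l := by omega
     subst hkl; exact Or.inl rfl)
  | (refine Or.inr ⟨?_, ?_⟩
     · simp only [dLab]
       first
       | decide
       | (rw [decide_eq_true (by omega)]; decide)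
       | (rw [decide_eq_false (by omega)]; decide)
     · rw [Finset.mem_union, Finset.mem_insert, Finset.mem_Icc]
       first
       | (left; omega)
       | (right; rw [if_pos hc]; simp only [Finset.mem_insert, Finset.mem_singleton]; omega)
       | (right; rw [if_pos hc']; simp only [Finset.mem_insert, Finset.mem_singleton]; omega))

theorem d_arc (q : ℕ) (c : Bool) (e : LE (GLoc q) c) (s : Bool) (x y : ℤ)
    (h : (s, x, y) ∈ arcsOf (tA (5 * q + 10) (dpos q) e)
      (dpre q c e ++ [(dfs q c e, tB (5 * q + 10) (dpos q) e)])) :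
    dArc q c e s x y ∨ dArc q c e s y x := by
  rcases e with ⟨_ | _, ⟨k, hk⟩ | ⟨k, hk⟩⟩ | (_ | _) | ⟨_ | _, hc⟩
  · rcases Nat.mod_two_eq_zero_or_one k with hk2 | hk2 <;>
    simp [dpre, dfs, tA, tB, GLoc, ePos, dpos, arcsOf, hk2] at h <;>
    simp only [dArc] <;> cases s <;> simp only [reduceCtorEq, false_and, and_false, or_false, false_or, true_and] at h ⊢ <;>
    omega
  · simp [dpre, dfs, tA, tB, GLoc, ePos, dpos, arcsOf] at h
    simp only [dArc]
    cases s <;> simp only [reduceCtorEq, false_and, and_false, or_false, false_or, true_and] at h ⊢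
    omega
  · rcases Nat.mod_two_eq_zero_or_one k with hk2 | hk2 <;>
    simp [dpre, dfs, tA, tB, GLoc, ePos, dpos, arcsOf, hk2] at h <;>
    simp only [dArc] <;> cases s <;> simp only [reduceCtorEq, false_and, and_false, or_false, false_or, true_and] at h ⊢ <;>
    omega
  · simp [dpre, dfs, tA, tB, GLoc, ePos, dpos, arcsOf] at h
    simp only [dArc]
    cases s <;> simp only [reduceCtorEq, false_and, and_false, or_false, false_or, true_and] at h ⊢
    omega
  · simp [dpre, dfs, tA, tB, GLoc, dpos, arcsOf] at h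
    simp only [dArc]
    cases s <;> simp only [reduceCtorEq, false_and, and_false, or_false, false_or, true_and] at h ⊢ <;>
    omega
  · simp [dpre, dfs, tA, tB, GLoc, dpos, arcsOf, mem_arcs_run] at h
    simp only [dArc]
    cases s <;> simp only [reduceCtorEq, false_and, and_false, or_false, false_or, true_and] at h ⊢ <;>
    omega
  · simp [dpre, dfs, tA, tB, GLoc, arcsOf] at h
    simp only [dArc]
    cases s <;> simp only [reduceCtorEq, false_and, and_false, or_false, false_or, true_and] at h ⊢ <;>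
    omega
  · simp [dpre, dfs, tA, tB, GLoc, arcsOf] at h
    simp only [dArc]
    cases s <;> simp only [reduceCtorEq, false_and, and_false, or_false, false_or, true_and] at h ⊢ <;>
    omega

theorem d_bend (q : ℕ) (c : Bool) (e : LE (GLoc q) c) (x : ℤ) :
    x ∈ (dpre q c e).map Prod.snd ↔ dBend q c e x := by
  rcases e with ⟨_ | _, ⟨k, hk⟩ | ⟨k, hk⟩⟩ | (_ | _) | ⟨_ | _, hc⟩
  · rcases Nat.mod_two_eq_zero_or_one k with hk2 | hk2 <;> simp [dpre, dBend, hk2]
  · simp [dpre, dBend]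
  · simp [dpre, dBend]
  · simp [dpre, dBend]
  · simp [dpre, dBend]
  · simp only [dpre, dBend, List.map_cons, List.mem_cons, List.map_append, List.mem_append,
      mem_run_map, List.map_nil, List.not_mem_nil, or_false]
    omega
  · simp [dpre, dBend]
  · simp [dpre, dBend]

theorem d_nodup (q : ℕ) (c : Bool) (e : LE (GLoc q) c) :
    (tA (5 * q + 10) (dpos q) e ::
      ((dpre q c e).map Prod.snd ++ [tB (5 * q + 10) (dpos q) e])).Nodup := by
  rcases e with ⟨_ | _, ⟨k, hk⟩ | ⟨k, hk⟩⟩ | (_ | _) | ⟨_ | _, hc⟩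
  · rcases Nat.mod_two_eq_zero_or_one k with hk2 | hk2 <;>
    simp [dpre, tA, tB, GLoc, ePos, dpos, hk2] <;> omega
  · simp [dpre, tA, tB, GLoc, ePos, dpos]
  · rcases Nat.mod_two_eq_zero_or_one k with hk2 | hk2 <;>
    simp [dpre, tA, tB, GLoc, ePos, dpos, hk2] <;> omega
  · simp [dpre, tA, tB, GLoc, ePos, dpos]
  · simp [dpre, tA, tB, GLoc, dpos]
    omega
  · simp only [dpre, tA, tB, GLoc, dpos, List.map_cons, List.cons_append, List.nodup_cons,
      List.mem_cons, List.mem_append, List.map_append, List.map_nil, mem_run_map,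
      List.not_mem_nil, or_false]
    refine ⟨by push_cast; omega, by omega, ?_⟩
    rw [List.append_assoc, List.nodup_append]
    refine ⟨run_nodup _ _, ?_, ?_⟩
    · simp
      omega
    · intro a ha b hb
      rw [mem_run_map] at ha
      simp at hb
      omega
  · simp [dpre, tA, tB, GLoc]
    omega
  · simp [dpre, tA, tB, GLoc]
    omega

theorem d_pos_inj (q : ℕ) : Function.Injective (dpos q) := by
  rintro ⟨_ | _, i, hi⟩ ⟨_ | _, j, hj⟩ h <;> simp only [dpos] at h
  · have : i = j := by omega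
    subst this; rfl
  · omega
  · omega
  · have : i = j := by omega
    subst this; rfl

theorem d_bend_mem (q : ℕ) (c : Bool) (e : LE (GLoc q) c) (x : ℤ) (h : dBend q c e x) :
    (0 < x ∧ x < 5 * (q : ℤ) + 10) ∧ ∀ v, x ≠ dpos q v := by
  have key : (0 < x ∧ x < 5 * (q : ℤ) + 10) ∧ x < q + 6 := by
    rcases e with ⟨_ | _, ⟨k, hk⟩ | ⟨k, hk⟩⟩ | (_ | _) | ⟨_ | _, hc⟩ <;>
    simp only [dBend] at h <;> omega
  refine ⟨key.1, ?_⟩
  rintro ⟨_ | _, i, hi⟩ <;> simp only [dpos] <;> omega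

theorem d_arc_up (q : ℕ) (c : Bool) (e : LE (GLoc q) c) (x y : ℤ) (h : dArc q c e true x y) :
    dUp q x y := by
  rcases e with ⟨_ | _, ⟨k, hk⟩ | ⟨k, hk⟩⟩ | (_ | _) | ⟨_ | _, hc⟩ <;>
  simp only [dArc, reduceCtorEq, false_and, and_false, or_false, false_or, true_and] at h <;>
  unfold dUp
  · (first
    | exact Or.inl (by omega)
    | exact Or.inr (Or.inl (by omega))
    | exact Or.inr (Or.inr (Or.inl (by omega)))
    | exact Or.inr (Or.inr (Or.inr (Or.inl (by omega))))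
    | exact Or.inr (Or.inr (Or.inr (Or.inr (Or.inl (by omega)))))
    | exact Or.inr (Or.inr (Or.inr (Or.inr (Or.inr (Or.inl (by omega))))))
    | exact Or.inr (Or.inr (Or.inr (Or.inr (Or.inr (Or.inr (Or.inl (by omega)))))))
    | exact Or.inr (Or.inr (Or.inr (Or.inr (Or.inr (Or.inr (Or.inr (Or.inl (by omega))))))))
    | exact Or.inr (Or.inr (Or.inr (Or.inr (Or.inr (Or.inr (Or.inr (Or.inr (by omega)))))))))
  · (first
    | exact Or.inl (by omega)
    | exact Or.inr (Or.inl (by omega))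
    | exact Or.inr (Or.inr (Or.inl (by omega)))
    | exact Or.inr (Or.inr (Or.inr (Or.inl (by omega))))
    | exact Or.inr (Or.inr (Or.inr (Or.inr (Or.inl (by omega)))))
    | exact Or.inr (Or.inr (Or.inr (Or.inr (Or.inr (Or.inl (by omega))))))
    | exact Or.inr (Or.inr (Or.inr (Or.inr (Or.inr (Or.inr (Or.inl (by omega)))))))
    | exact Or.inr (Or.inr (Or.inr (Or.inr (Or.inr (Or.inr (Or.inr (Or.inl (by omega))))))))
    | exact Or.inr (Or.inr (Or.inr (Or.inr (Or.inr (Or.inr (Or.inr (Or.inr (by omega)))))))))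
  · rcases Nat.lt_or_ge (2 * q + 1) k with hk' | hk'
    · rw [min_eq_right (by omega)] at h
      (first
    | exact Or.inl (by omega)
    | exact Or.inr (Or.inl (by omega))
    | exact Or.inr (Or.inr (Or.inl (by omega)))
    | exact Or.inr (Or.inr (Or.inr (Or.inl (by omega))))
    | exact Or.inr (Or.inr (Or.inr (Or.inr (Or.inl (by omega)))))
    | exact Or.inr (Or.inr (Or.inr (Or.inr (Or.inr (Or.inl (by omega))))))
    | exact Or.inr (Or.inr (Or.inr (Or.inr (Or.inr (Or.inr (Or.inl (by omega)))))))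
    | exact Or.inr (Or.inr (Or.inr (Or.inr (Or.inr (Or.inr (Or.inr (Or.inl (by omega))))))))
    | exact Or.inr (Or.inr (Or.inr (Or.inr (Or.inr (Or.inr (Or.inr (Or.inr (by omega)))))))))
    · rw [min_eq_left (by omega)] at h
      (first
    | exact Or.inl (by omega)
    | exact Or.inr (Or.inl (by omega))
    | exact Or.inr (Or.inr (Or.inl (by omega)))
    | exact Or.inr (Or.inr (Or.inr (Or.inl (by omega))))
    | exact Or.inr (Or.inr (Or.inr (Or.inr (Or.inl (by omega)))))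
    | exact Or.inr (Or.inr (Or.inr (Or.inr (Or.inr (Or.inl (by omega))))))
    | exact Or.inr (Or.inr (Or.inr (Or.inr (Or.inr (Or.inr (Or.inl (by omega)))))))
    | exact Or.inr (Or.inr (Or.inr (Or.inr (Or.inr (Or.inr (Or.inr (Or.inl (by omega))))))))
    | exact Or.inr (Or.inr (Or.inr (Or.inr (Or.inr (Or.inr (Or.inr (Or.inr (by omega)))))))))
  · (first
    | exact Or.inl (by omega)
    | exact Or.inr (Or.inl (by omega))
    | exact Or.inr (Or.inr (Or.inl (by omega)))
    | exact Or.inr (Or.inr (Or.inr (Or.inl (by omega))))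
    | exact Or.inr (Or.inr (Or.inr (Or.inr (Or.inl (by omega)))))
    | exact Or.inr (Or.inr (Or.inr (Or.inr (Or.inr (Or.inl (by omega))))))
    | exact Or.inr (Or.inr (Or.inr (Or.inr (Or.inr (Or.inr (Or.inl (by omega)))))))
    | exact Or.inr (Or.inr (Or.inr (Or.inr (Or.inr (Or.inr (Or.inr (Or.inl (by omega))))))))
    | exact Or.inr (Or.inr (Or.inr (Or.inr (Or.inr (Or.inr (Or.inr (Or.inr (by omega)))))))))
  · rcases h with h | h
    · (first
    | exact Or.inl (by omega)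
    | exact Or.inr (Or.inl (by omega))
    | exact Or.inr (Or.inr (Or.inl (by omega)))
    | exact Or.inr (Or.inr (Or.inr (Or.inl (by omega))))
    | exact Or.inr (Or.inr (Or.inr (Or.inr (Or.inl (by omega)))))
    | exact Or.inr (Or.inr (Or.inr (Or.inr (Or.inr (Or.inl (by omega))))))
    | exact Or.inr (Or.inr (Or.inr (Or.inr (Or.inr (Or.inr (Or.inl (by omega)))))))
    | exact Or.inr (Or.inr (Or.inr (Or.inr (Or.inr (Or.inr (Or.inr (Or.inl (by omega))))))))
    | exact Or.inr (Or.inr (Or.inr (Or.inr (Or.inr (Or.inr (Or.inr (Or.inr (by omega)))))))))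
    · (first
    | exact Or.inl (by omega)
    | exact Or.inr (Or.inl (by omega))
    | exact Or.inr (Or.inr (Or.inl (by omega)))
    | exact Or.inr (Or.inr (Or.inr (Or.inl (by omega))))
    | exact Or.inr (Or.inr (Or.inr (Or.inr (Or.inl (by omega)))))
    | exact Or.inr (Or.inr (Or.inr (Or.inr (Or.inr (Or.inl (by omega))))))
    | exact Or.inr (Or.inr (Or.inr (Or.inr (Or.inr (Or.inr (Or.inl (by omega)))))))
    | exact Or.inr (Or.inr (Or.inr (Or.inr (Or.inr (Or.inr (Or.inr (Or.inl (by omega))))))))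
    | exact Or.inr (Or.inr (Or.inr (Or.inr (Or.inr (Or.inr (Or.inr (Or.inr (by omega)))))))))
  · rcases h with h | h | h | h
    · (first
    | exact Or.inl (by omega)
    | exact Or.inr (Or.inl (by omega))
    | exact Or.inr (Or.inr (Or.inl (by omega)))
    | exact Or.inr (Or.inr (Or.inr (Or.inl (by omega))))
    | exact Or.inr (Or.inr (Or.inr (Or.inr (Or.inl (by omega)))))
    | exact Or.inr (Or.inr (Or.inr (Or.inr (Or.inr (Or.inl (by omega))))))
    | exact Or.inr (Or.inr (Or.inr (Or.inr (Or.inr (Or.inr (Or.inl (by omega)))))))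
    | exact Or.inr (Or.inr (Or.inr (Or.inr (Or.inr (Or.inr (Or.inr (Or.inl (by omega))))))))
    | exact Or.inr (Or.inr (Or.inr (Or.inr (Or.inr (Or.inr (Or.inr (Or.inr (by omega)))))))))
    · (first
    | exact Or.inl (by omega)
    | exact Or.inr (Or.inl (by omega))
    | exact Or.inr (Or.inr (Or.inl (by omega)))
    | exact Or.inr (Or.inr (Or.inr (Or.inl (by omega))))
    | exact Or.inr (Or.inr (Or.inr (Or.inr (Or.inl (by omega)))))
    | exact Or.inr (Or.inr (Or.inr (Or.inr (Or.inr (Or.inl (by omega))))))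
    | exact Or.inr (Or.inr (Or.inr (Or.inr (Or.inr (Or.inr (Or.inl (by omega)))))))
    | exact Or.inr (Or.inr (Or.inr (Or.inr (Or.inr (Or.inr (Or.inr (Or.inl (by omega))))))))
    | exact Or.inr (Or.inr (Or.inr (Or.inr (Or.inr (Or.inr (Or.inr (Or.inr (by omega)))))))))
    · (first
    | exact Or.inl (by omega)
    | exact Or.inr (Or.inl (by omega))
    | exact Or.inr (Or.inr (Or.inl (by omega)))
    | exact Or.inr (Or.inr (Or.inr (Or.inl (by omega))))
    | exact Or.inr (Or.inr (Or.inr (Or.inr (Or.inl (by omega)))))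
    | exact Or.inr (Or.inr (Or.inr (Or.inr (Or.inr (Or.inl (by omega))))))
    | exact Or.inr (Or.inr (Or.inr (Or.inr (Or.inr (Or.inr (Or.inl (by omega)))))))
    | exact Or.inr (Or.inr (Or.inr (Or.inr (Or.inr (Or.inr (Or.inr (Or.inl (by omega))))))))
    | exact Or.inr (Or.inr (Or.inr (Or.inr (Or.inr (Or.inr (Or.inr (Or.inr (by omega)))))))))
    · (first
    | exact Or.inl (by omega)
    | exact Or.inr (Or.inl (by omega))
    | exact Or.inr (Or.inr (Or.inl (by omega)))
    | exact Or.inr (Or.inr (Or.inr (Or.inl (by omega))))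
    | exact Or.inr (Or.inr (Or.inr (Or.inr (Or.inl (by omega)))))
    | exact Or.inr (Or.inr (Or.inr (Or.inr (Or.inr (Or.inl (by omega))))))
    | exact Or.inr (Or.inr (Or.inr (Or.inr (Or.inr (Or.inr (Or.inl (by omega)))))))
    | exact Or.inr (Or.inr (Or.inr (Or.inr (Or.inr (Or.inr (Or.inr (Or.inl (by omega))))))))
    | exact Or.inr (Or.inr (Or.inr (Or.inr (Or.inr (Or.inr (Or.inr (Or.inr (by omega)))))))))

theorem d_arc_lo (q : ℕ) (c : Bool) (e : LE (GLoc q) c) (x y : ℤ) (h : dArc q c e false x y) :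
    dLo q x y := by
  rcases e with ⟨_ | _, ⟨k, hk⟩ | ⟨k, hk⟩⟩ | (_ | _) | ⟨_ | _, hc⟩ <;>
  simp only [dArc, reduceCtorEq, false_and, and_false, or_false, false_or, true_and] at h <;>
  unfold dLo
  · rcases h with h | h
    · rcases Nat.lt_or_ge (2 * q + 1) k with hk' | hk'
      · rw [min_eq_right (by omega)] at h
        (first
    | exact Or.inl (by omega)
    | exact Or.inr (Or.inl (by omega))
    | exact Or.inr (Or.inr (Or.inl (by omega)))
    | exact Or.inr (Or.inr (Or.inr (Or.inl (by omega))))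
    | exact Or.inr (Or.inr (Or.inr (Or.inr (Or.inl (by omega)))))
    | exact Or.inr (Or.inr (Or.inr (Or.inr (Or.inr (Or.inl (by omega))))))
    | exact Or.inr (Or.inr (Or.inr (Or.inr (Or.inr (Or.inr (Or.inl (by omega)))))))
    | exact Or.inr (Or.inr (Or.inr (Or.inr (Or.inr (Or.inr (Or.inr (Or.inl (by omega))))))))
    | exact Or.inr (Or.inr (Or.inr (Or.inr (Or.inr (Or.inr (Or.inr (Or.inr (by omega)))))))))
      · rw [min_eq_left (by omega)] at h
        (first
    | exact Or.inl (by omega)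
    | exact Or.inr (Or.inl (by omega))
    | exact Or.inr (Or.inr (Or.inl (by omega)))
    | exact Or.inr (Or.inr (Or.inr (Or.inl (by omega))))
    | exact Or.inr (Or.inr (Or.inr (Or.inr (Or.inl (by omega)))))
    | exact Or.inr (Or.inr (Or.inr (Or.inr (Or.inr (Or.inl (by omega))))))
    | exact Or.inr (Or.inr (Or.inr (Or.inr (Or.inr (Or.inr (Or.inl (by omega)))))))
    | exact Or.inr (Or.inr (Or.inr (Or.inr (Or.inr (Or.inr (Or.inr (Or.inl (by omega))))))))
    | exact Or.inr (Or.inr (Or.inr (Or.inr (Or.inr (Or.inr (Or.inr (Or.inr (by omega)))))))))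
    · (first
    | exact Or.inl (by omega)
    | exact Or.inr (Or.inl (by omega))
    | exact Or.inr (Or.inr (Or.inl (by omega)))
    | exact Or.inr (Or.inr (Or.inr (Or.inl (by omega))))
    | exact Or.inr (Or.inr (Or.inr (Or.inr (Or.inl (by omega)))))
    | exact Or.inr (Or.inr (Or.inr (Or.inr (Or.inr (Or.inl (by omega))))))
    | exact Or.inr (Or.inr (Or.inr (Or.inr (Or.inr (Or.inr (Or.inl (by omega)))))))
    | exact Or.inr (Or.inr (Or.inr (Or.inr (Or.inr (Or.inr (Or.inr (Or.inl (by omega))))))))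
    | exact Or.inr (Or.inr (Or.inr (Or.inr (Or.inr (Or.inr (Or.inr (Or.inr (by omega)))))))))
  · (first
    | exact Or.inl (by omega)
    | exact Or.inr (Or.inl (by omega))
    | exact Or.inr (Or.inr (Or.inl (by omega)))
    | exact Or.inr (Or.inr (Or.inr (Or.inl (by omega))))
    | exact Or.inr (Or.inr (Or.inr (Or.inr (Or.inl (by omega)))))
    | exact Or.inr (Or.inr (Or.inr (Or.inr (Or.inr (Or.inl (by omega))))))
    | exact Or.inr (Or.inr (Or.inr (Or.inr (Or.inr (Or.inr (Or.inl (by omega)))))))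
    | exact Or.inr (Or.inr (Or.inr (Or.inr (Or.inr (Or.inr (Or.inr (Or.inl (by omega))))))))
    | exact Or.inr (Or.inr (Or.inr (Or.inr (Or.inr (Or.inr (Or.inr (Or.inr (by omega)))))))))
  · (first
    | exact Or.inl (by omega)
    | exact Or.inr (Or.inl (by omega))
    | exact Or.inr (Or.inr (Or.inl (by omega)))
    | exact Or.inr (Or.inr (Or.inr (Or.inl (by omega))))
    | exact Or.inr (Or.inr (Or.inr (Or.inr (Or.inl (by omega)))))
    | exact Or.inr (Or.inr (Or.inr (Or.inr (Or.inr (Or.inl (by omega))))))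
    | exact Or.inr (Or.inr (Or.inr (Or.inr (Or.inr (Or.inr (Or.inl (by omega)))))))
    | exact Or.inr (Or.inr (Or.inr (Or.inr (Or.inr (Or.inr (Or.inr (Or.inl (by omega))))))))
    | exact Or.inr (Or.inr (Or.inr (Or.inr (Or.inr (Or.inr (Or.inr (Or.inr (by omega)))))))))
  · (first
    | exact Or.inl (by omega)
    | exact Or.inr (Or.inl (by omega))
    | exact Or.inr (Or.inr (Or.inl (by omega)))
    | exact Or.inr (Or.inr (Or.inr (Or.inl (by omega))))
    | exact Or.inr (Or.inr (Or.inr (Or.inr (Or.inl (by omega)))))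
    | exact Or.inr (Or.inr (Or.inr (Or.inr (Or.inr (Or.inl (by omega))))))
    | exact Or.inr (Or.inr (Or.inr (Or.inr (Or.inr (Or.inr (Or.inl (by omega)))))))
    | exact Or.inr (Or.inr (Or.inr (Or.inr (Or.inr (Or.inr (Or.inr (Or.inl (by omega))))))))
    | exact Or.inr (Or.inr (Or.inr (Or.inr (Or.inr (Or.inr (Or.inr (Or.inr (by omega)))))))))
  · rcases h with h | h | h
    · (first
    | exact Or.inl (by omega)
    | exact Or.inr (Or.inl (by omega))
    | exact Or.inr (Or.inr (Or.inl (by omega)))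
    | exact Or.inr (Or.inr (Or.inr (Or.inl (by omega))))
    | exact Or.inr (Or.inr (Or.inr (Or.inr (Or.inl (by omega)))))
    | exact Or.inr (Or.inr (Or.inr (Or.inr (Or.inr (Or.inl (by omega))))))
    | exact Or.inr (Or.inr (Or.inr (Or.inr (Or.inr (Or.inr (Or.inl (by omega)))))))
    | exact Or.inr (Or.inr (Or.inr (Or.inr (Or.inr (Or.inr (Or.inr (Or.inl (by omega))))))))
    | exact Or.inr (Or.inr (Or.inr (Or.inr (Or.inr (Or.inr (Or.inr (Or.inr (by omega)))))))))
    · (first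
    | exact Or.inl (by omega)
    | exact Or.inr (Or.inl (by omega))
    | exact Or.inr (Or.inr (Or.inl (by omega)))
    | exact Or.inr (Or.inr (Or.inr (Or.inl (by omega))))
    | exact Or.inr (Or.inr (Or.inr (Or.inr (Or.inl (by omega)))))
    | exact Or.inr (Or.inr (Or.inr (Or.inr (Or.inr (Or.inl (by omega))))))
    | exact Or.inr (Or.inr (Or.inr (Or.inr (Or.inr (Or.inr (Or.inl (by omega)))))))
    | exact Or.inr (Or.inr (Or.inr (Or.inr (Or.inr (Or.inr (Or.inr (Or.inl (by omega))))))))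
    | exact Or.inr (Or.inr (Or.inr (Or.inr (Or.inr (Or.inr (Or.inr (Or.inr (by omega)))))))))
    · (first
    | exact Or.inl (by omega)
    | exact Or.inr (Or.inl (by omega))
    | exact Or.inr (Or.inr (Or.inl (by omega)))
    | exact Or.inr (Or.inr (Or.inr (Or.inl (by omega))))
    | exact Or.inr (Or.inr (Or.inr (Or.inr (Or.inl (by omega)))))
    | exact Or.inr (Or.inr (Or.inr (Or.inr (Or.inr (Or.inl (by omega))))))
    | exact Or.inr (Or.inr (Or.inr (Or.inr (Or.inr (Or.inr (Or.inl (by omega)))))))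
    | exact Or.inr (Or.inr (Or.inr (Or.inr (Or.inr (Or.inr (Or.inr (Or.inl (by omega))))))))
    | exact Or.inr (Or.inr (Or.inr (Or.inr (Or.inr (Or.inr (Or.inr (Or.inr (by omega)))))))))
  · rcases h with h | h | h
    · (first
    | exact Or.inl (by omega)
    | exact Or.inr (Or.inl (by omega))
    | exact Or.inr (Or.inr (Or.inl (by omega)))
    | exact Or.inr (Or.inr (Or.inr (Or.inl (by omega))))
    | exact Or.inr (Or.inr (Or.inr (Or.inr (Or.inl (by omega)))))
    | exact Or.inr (Or.inr (Or.inr (Or.inr (Or.inr (Or.inl (by omega))))))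
    | exact Or.inr (Or.inr (Or.inr (Or.inr (Or.inr (Or.inr (Or.inl (by omega)))))))
    | exact Or.inr (Or.inr (Or.inr (Or.inr (Or.inr (Or.inr (Or.inr (Or.inl (by omega))))))))
    | exact Or.inr (Or.inr (Or.inr (Or.inr (Or.inr (Or.inr (Or.inr (Or.inr (by omega)))))))))
    · (first
    | exact Or.inl (by omega)
    | exact Or.inr (Or.inl (by omega))
    | exact Or.inr (Or.inr (Or.inl (by omega)))
    | exact Or.inr (Or.inr (Or.inr (Or.inl (by omega))))
    | exact Or.inr (Or.inr (Or.inr (Or.inr (Or.inl (by omega)))))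
    | exact Or.inr (Or.inr (Or.inr (Or.inr (Or.inr (Or.inl (by omega))))))
    | exact Or.inr (Or.inr (Or.inr (Or.inr (Or.inr (Or.inr (Or.inl (by omega)))))))
    | exact Or.inr (Or.inr (Or.inr (Or.inr (Or.inr (Or.inr (Or.inr (Or.inl (by omega))))))))
    | exact Or.inr (Or.inr (Or.inr (Or.inr (Or.inr (Or.inr (Or.inr (Or.inr (by omega)))))))))
    · (first
    | exact Or.inl (by omega)
    | exact Or.inr (Or.inl (by omega))
    | exact Or.inr (Or.inr (Or.inl (by omega)))
    | exact Or.inr (Or.inr (Or.inr (Or.inl (by omega))))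
    | exact Or.inr (Or.inr (Or.inr (Or.inr (Or.inl (by omega)))))
    | exact Or.inr (Or.inr (Or.inr (Or.inr (Or.inr (Or.inl (by omega))))))
    | exact Or.inr (Or.inr (Or.inr (Or.inr (Or.inr (Or.inr (Or.inl (by omega)))))))
    | exact Or.inr (Or.inr (Or.inr (Or.inr (Or.inr (Or.inr (Or.inr (Or.inl (by omega))))))))
    | exact Or.inr (Or.inr (Or.inr (Or.inr (Or.inr (Or.inr (Or.inr (Or.inr (by omega)))))))))

/-- Tile (delta). -/
noncomputable def dDr (q : ℕ) (c : Bool) : Dr (GLoc q) c (fun _ => True) where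
  b := 5 * q + 10
  pos := dpos q
  pre := dpre q c
  fs := dfs q c
  cross := insert (q + 4 : ℤ) (Finset.Icc 1 (q + 1 : ℤ)) ∪
    (if c then {(q : ℤ) + 2, (q : ℤ) + 3, (q : ℤ) + 5} else ∅)
  Arc := dArc q c
  Up := dUp q
  Lo := dLo q
  Bend := dBend q c
  lab := dLab q c
  pos_inj := d_pos_inj q
  pos_mem := by
    rintro ⟨_ | _, i, hi⟩ <;> simp only [dpos] <;> omega
  nodup := fun e _ => d_nodup q c e
  bend := fun e _ x => d_bend q c e x
  bend_mem := fun e _ x h => d_bend_mem q c e x h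
  bend_two := fun e f x _ _ h h' => d_bend_two q c e f x h h'
  arc := fun e _ s x y h => d_arc q c e s x y h
  arc_up := fun e x y _ h => d_arc_up q c e x y h
  arc_lo := fun e x y _ h => d_arc_lo q c e x y h
  arc_inj := fun e f s x y _ _ h h' => d_arc_inj q c e f s x y h h'
  up := fun x y h => by
    unfold dUp at h
    omega
  lo := fun x y h => by
    unfold dLo at h
    omega
  up_pl := d_up_pl q
  lo_pl := d_lo_pl q

theorem tileG_odd (q : ℕ) (c : Bool) (k : Fin (2 * q + 3)) (hk : k.1 % 2 = 1) :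
    TCr (GLoc q) c (q + 2 + if c then 3 else 0) (.inl (false, .inl k)) := by
  obtain ⟨k, hk'⟩ := k
  simp only at hk
  refine ⟨(dDr q c).lay, ?_, ?_⟩
  · refine (Finset.card_union_le _ _).trans (add_le_add ?_ ?_)
    · refine (Finset.card_insert_le _ _).trans ?_
      rw [Int.card_Icc]
      have : ((q : ℤ) + 1 + 1 - 1).toNat = q + 1 := by omega
      rw [this]
    · cases c
      · simp
      · simp only [if_true]
        exact Finset.card_le_three
  · refine (dDr q c).crossed (f := .inr (.inl true)) (x := q + 2 - ((k : ℤ) + 1) / 2) trivial trivial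
      (by simp) ⟨hk, rfl⟩ ?_
    change (1 ≤ (q : ℤ) + 2 - ((k : ℤ) + 1) / 2 ∧ (q : ℤ) + 2 - ((k : ℤ) + 1) / 2 ≤ q + 1) ∨
      (q : ℤ) + 2 - ((k : ℤ) + 1) / 2 = q + 4 ∨ (q : ℤ) + 2 - ((k : ℤ) + 1) / 2 = q + 5
    omega

end Pool.Agent.CC.TG
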