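import Pool.Agent.Lib_helper74.CCF.G27Delta

/-! Tile (eps): the row edge `κ` of the left part is deleted. -/

namespace Pool.Agent.CC.TG

open Gph

/-- positions of the local vertices -/
def epos (q κ : ℕ) : (GLoc q).V → ℤ
  | (false, i) => if i.1 ≤ κ then 3 + (i.1 : ℤ) else 2 * q + 5 + (i.1 : ℤ)
  | (true, i) => κ + 4 + (i.1 : ℤ)

def epre (q κ : ℕ) (c : Bool) : LE (GLoc q) c → List (Bool × ℤ)
  | .inl (false, .inl k) => if k.1 % 2 = 1 then [] else
      if k.1 ≤ κ then [(false, 8 * q + 9 + (κ : ℤ) / 2 - (k.1 : ℤ) / 2)]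
      else [(false, 6 * q + 8 - min (k.1 : ℤ) (2 * q + 1))]
  | .inl (true, .inl k) => if k.1 % 2 = 0 then [] else [(false, 8 * q + 9 - (κ : ℤ) - (k.1 : ℤ))]
  | .inl (_, .inr _) => []
  | .inr (.inl false) => [(false, 1)]
  | .inr (.inl true) => (false, 8 * q + 9) :: run (8 * q + 9) (κ / 2 + 1)
  | .inr (.inr ⟨false, _⟩) => [(false, 2), (false, 8 * q + 10 + (κ : ℤ) / 2)]
  | .inr (.inr ⟨true, _⟩) => [(true, 1), (false, 2)]

def efs (q : ℕ) (c : Bool) : LE (GLoc q) c → Bool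
  | .inl _ => true
  | .inr (.inl false) => true
  | .inr (.inl true) => false
  | .inr (.inr ⟨false, _⟩) => true
  | .inr (.inr ⟨true, _⟩) => false

def eArc (q κ : ℕ) (c : Bool) : LE (GLoc q) c → Bool → ℤ → ℤ → Prop
  | .inl (false, .inl k), s, x, y =>
    (k.1 % 2 = 1 ∧ s = true ∧ x = 0 ∧ k.1 ≤ κ ∧ y = 3 + (k.1 : ℤ)) ∨
    (k.1 % 2 = 1 ∧ s = true ∧ x = 0 ∧ κ < k.1 ∧ y = 2 * q + 5 + (k.1 : ℤ)) ∨
    (k.1 % 2 = 0 ∧ s = false ∧ k.1 ≤ κ ∧ x = 3 + (k.1 : ℤ) ∧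
      y = 8 * q + 9 + (κ : ℤ) / 2 - (k.1 : ℤ) / 2) ∨
    (k.1 % 2 = 0 ∧ s = true ∧ k.1 ≤ κ ∧ x = 8 * q + 9 + (κ : ℤ) / 2 - (k.1 : ℤ) / 2 ∧
      y = 8 * q + 11 + (κ : ℤ) / 2) ∨
    (k.1 % 2 = 0 ∧ s = false ∧ κ < k.1 ∧ x = 2 * q + 5 + min (k.1 : ℤ) (2 * q + 1) ∧
      y = 6 * q + 8 - min (k.1 : ℤ) (2 * q + 1)) ∨
    (k.1 % 2 = 0 ∧ s = true ∧ κ < k.1 ∧ x = 6 * q + 8 - min (k.1 : ℤ) (2 * q + 1) ∧
      y = 8 * q + 11 + (κ : ℤ) / 2)
  | .inl (true, .inl k), s, x, y =>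
    (k.1 % 2 = 0 ∧ s = true ∧ x = 0 ∧ y = κ + 4 + min (k.1 : ℤ) (2 * q + 1)) ∨
    (k.1 % 2 = 1 ∧ s = false ∧ x = κ + 4 + (k.1 : ℤ) ∧ y = 8 * q + 9 - (κ : ℤ) - (k.1 : ℤ)) ∨
    (k.1 % 2 = 1 ∧ s = true ∧ x = 8 * q + 9 - (κ : ℤ) - (k.1 : ℤ) ∧
      y = 8 * q + 11 + (κ : ℤ) / 2)
  | .inl (false, .inr i), s, x, y => s = true ∧ ((i.1 < κ ∧ x = 3 + (i.1 : ℤ)) ∨
      (κ < i.1 ∧ x = 2 * q + 5 + (i.1 : ℤ))) ∧ y = x + 1
  | .inl (true, .inr i), s, x, y => s = true ∧ x = κ + 4 + (i.1 : ℤ) ∧ y = κ + 5 + (i.1 : ℤ)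
  | .inr (.inl false), s, x, y => (s = false ∧ x = -1 ∧ y = 1) ∨ (s = true ∧ x = 1 ∧ y = 3)
  | .inr (.inl true), s, x, y => (s = false ∧ x = κ + 4 ∧ y = 8 * q + 9) ∨
      (s = true ∧ 8 * q + 9 ≤ x ∧ x < 8 * q + 10 + (κ : ℤ) / 2 ∧ y = x + 1) ∨
      (s = false ∧ x = 8 * q + 10 + (κ : ℤ) / 2 ∧ y = 8 * q + 12 + (κ : ℤ) / 2)
  | .inr (.inr ⟨false, _⟩), s, x, y => (s = false ∧ x = -2 ∧ y = 2) ∨
      (s = false ∧ x = 2 ∧ y = 8 * q + 10 + (κ : ℤ) / 2) ∨
      (s = true ∧ x = 8 * q + 10 + (κ : ℤ) / 2 ∧ y = 8 * q + 11 + (κ : ℤ) / 2)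
  | .inr (.inr ⟨true, _⟩), s, x, y => (s = true ∧ x = 0 ∧ y = 1) ∨
      (s = false ∧ x = 1 ∧ y = 2) ∨ (s = false ∧ x = 2 ∧ y = 8 * q + 13 + (κ : ℤ) / 2)

def eUp (q κ : ℕ) (x y : ℤ) : Prop :=
  (x = 0 ∧ y = 1) ∨ (x = 0 ∧ 3 ≤ y ∧ y ≤ 4 * q + 6) ∨
  (4 * q + 7 ≤ x ∧ x < y ∧ y = 8 * q + 11 + (κ : ℤ) / 2) ∨
  (3 ≤ x ∧ x ≤ 8 * q + 9 + (κ : ℤ) / 2 ∧ y = x + 1) ∨ (x = 1 ∧ y = 3)

def eLo (q κ : ℕ) (x y : ℤ) : Prop :=
  (x = -1 ∧ y = 1) ∨ (x = 1 ∧ y = 2) ∨ (x = 2 ∧ y = 8 * q + 13 + (κ : ℤ) / 2) ∨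
  (x = -2 ∧ y = 2) ∨ (x = 2 ∧ y = 8 * q + 10 + (κ : ℤ) / 2) ∨
  (3 ≤ x ∧ x ≤ κ + 3 ∧ x + 2 * y = 16 * q + 21 + 2 * ((κ : ℤ) / 2)) ∨
  (x = κ + 4 ∧ y = 8 * q + 9) ∨ (κ + 5 ≤ x ∧ x ≤ 4 * q + 6 ∧ x + y = 8 * q + 13) ∨
  (x = 8 * q + 10 + (κ : ℤ) / 2 ∧ y = 8 * q + 12 + (κ : ℤ) / 2)

def eBend (q κ : ℕ) (c : Bool) : LE (GLoc q) c → ℤ → Prop
  | .inl (false, .inl k), x => k.1 % 2 = 0 ∧
      ((k.1 ≤ κ ∧ x = 8 * q + 9 + (κ : ℤ) / 2 - (k.1 : ℤ) / 2) ∨
      (κ < k.1 ∧ x = 6 * q + 8 - min (k.1 : ℤ) (2 * q + 1)))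
  | .inl (true, .inl k), x => k.1 % 2 = 1 ∧ x = 8 * q + 9 - (κ : ℤ) - (k.1 : ℤ)
  | .inl (_, .inr _), _ => False
  | .inr (.inl false), x => x = 1
  | .inr (.inl true), x => 8 * q + 9 ≤ x ∧ x ≤ 8 * q + 10 + (κ : ℤ) / 2
  | .inr (.inr ⟨false, _⟩), x => x = 2 ∨ x = 8 * q + 10 + (κ : ℤ) / 2
  | .inr (.inr ⟨true, _⟩), x => x = 1 ∨ x = 2

def eLab (q : ℕ) (c : Bool) : LE (GLoc q) c → ℤ → Bool
  | .inl _, _ => false
  | .inr (.inl _), _ => true
  | .inr (.inr ⟨false, _⟩), x => decide (x = 2)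
  | .inr (.inr ⟨true, _⟩), _ => false

theorem e_up_pl (q κ : ℕ) (hκ : κ < 2 * q + 1) (x y z w : ℤ) (h : eUp q κ x y)
    (h' : eUp q κ z w) : ¬ (x < z ∧ z < y ∧ y < w) := by
  unfold eUp at *
  rcases h with h | h | h | h | h <;> omega

theorem e_lo_pl (q κ : ℕ) (hκ : κ < 2 * q + 1) (x y z w : ℤ) (h : eLo q κ x y)
    (h' : eLo q κ z w) : ¬ (x < z ∧ z < y ∧ y < w) := by
  unfold eLo at *
  rcases h with h | h | h | h | h | h | h | h | h <;>
  rcases h' with h' | h' | h' | h' | h' | h' | h' | h' | h' <;> omega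

theorem e_arc_inj (q κ : ℕ) (hκ : κ < 2 * q + 1) (c : Bool) (e f : LE (GLoc q) c) (s : Bool)
    (x y : ℤ) (h : eArc q κ c e s x y) (h' : eArc q κ c f s x y) : e = f := by
  rcases e with ⟨_ | _, ⟨k, hk⟩ | ⟨k, hk⟩⟩ | (_ | _) | ⟨_ | _, hc⟩ <;>
  rcases f with ⟨_ | _, ⟨l, hl⟩ | ⟨l, hl⟩⟩ | (_ | _) | ⟨_ | _, hc'⟩ <;>
  first
  | rfl
  | (exfalso; cases s <;> simp only [eArc, reduceCtorEq, false_and, and_false, or_false, false_or] at h h' <;> omega)
  | (have hkl : k = l := by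
      cases s <;> simp only [eArc, reduceCtorEq, false_and, and_false, or_false, false_or] at h h' <;> omega
     subst hkl; rfl)

theorem e_bend_two (q κ : ℕ) (hκ : κ < 2 * q + 1) (c : Bool) (e f : LE (GLoc q) c) (x : ℤ)
    (h : eBend q κ c e x) (h' : eBend q κ c f x) : e = f ∨ (eLab q c e x ≠ eLab q c f x ∧
      x ∈ Finset.Icc (8 * q + 9 : ℤ) (8 * q + 9 + (κ : ℤ) / 2) ∪
        (if c then {1, 2, 8 * (q : ℤ) + 10 + (κ : ℤ) / 2} else ∅)) := by
  rcases e with ⟨_ | _, ⟨k, hk⟩ | ⟨k, hk⟩⟩ | (_ | _) | ⟨_ | _, hc⟩ <;>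
  rcases f with ⟨_ | _, ⟨l, hl⟩ | ⟨l, hl⟩⟩ | (_ | _) | ⟨_ | _, hc'⟩ <;>
  simp only [eBend] at h h' <;>
  first
  | exact Or.inl rfl
  | (exfalso; omega)
  | (have hkl : k = l := by omega
     subst hkl; exact Or.inl rfl)
  | (refine Or.inr ⟨?_, ?_⟩
     · simp only [eLab]
       first
       | decide
       | (rw [decide_eq_true (by omega)]; decide)
       | (rw [decide_eq_false (by omega)]; decide)
     · rw [Finset.mem_union, Finset.mem_Icc]
       first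
       | (left; omega)
       | (right; rw [if_pos hc]; simp only [Finset.mem_insert, Finset.mem_singleton]; omega)
       | (right; rw [if_pos hc']; simp only [Finset.mem_insert, Finset.mem_singleton]; omega))

theorem epos_zero (q κ : ℕ) (h : 0 < 2 * q + 2) : epos q κ (false, ⟨0, h⟩) = 3 := by
  simp [epos]

theorem e_arc_l0 (q κ : ℕ) (c : Bool) (k : ℕ) (hk : k < 2 * q + 3) (hk2 : k % 2 = 0)
    (hk3 : κ < k) (hκ : κ < 2 * q + 1) (s : Bool) (x y : ℤ)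
    (h : (s, x, y) ∈ arcsOf (tA (8 * q + 11 + (κ : ℤ) / 2) (epos q κ)
        (.inl (false, .inl ⟨k, hk⟩) : LE (GLoc q) c))
      (epre q κ c (.inl (false, .inl ⟨k, hk⟩)) ++ [(efs q c (.inl (false, .inl ⟨k, hk⟩)),
        tB (8 * q + 11 + (κ : ℤ) / 2) (epos q κ) (.inl (false, .inl ⟨k, hk⟩) : LE (GLoc q) c))])) :
    eArc q κ c (.inl (false, .inl ⟨k, hk⟩)) s x y := by
  have hk4 : ¬ k ≤ κ := by omega
  have hk5 : ¬ min k (2 * q + 1) ≤ κ := by omega
  simp only [epre, efs, tA, tB, GLoc, ePos, epos, hk2, hk4, if_false, Nat.zero_ne_one,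
    List.cons_append, List.nil_append, arcsOf, List.mem_cons, List.not_mem_nil,
    Prod.mk.injEq, hk5, decide_true, Bool.false_xor, or_false] at h
  simp only [eArc]
  rcases h with ⟨h1, h2, h3⟩ | ⟨h1, h2, h3⟩
  · push_cast at h2 h3
    exact Or.inr (Or.inr (Or.inr (Or.inr (Or.inl ⟨hk2, h1, hk3, h2, h3⟩))))
  · push_cast at h2 h3
    exact Or.inr (Or.inr (Or.inr (Or.inr (Or.inr ⟨hk2, h1, hk3, h2, h3⟩))))

theorem e_arc_l1 (q κ : ℕ) (c : Bool) (k : ℕ) (hk : k < 2 * q + 3) (hk2 : k % 2 = 0)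
    (hk3 : k ≤ κ) (hκ : κ < 2 * q + 1) (s : Bool) (x y : ℤ)
    (h : (s, x, y) ∈ arcsOf (tA (8 * q + 11 + (κ : ℤ) / 2) (epos q κ)
        (.inl (false, .inl ⟨k, hk⟩) : LE (GLoc q) c))
      (epre q κ c (.inl (false, .inl ⟨k, hk⟩)) ++ [(efs q c (.inl (false, .inl ⟨k, hk⟩)),
        tB (8 * q + 11 + (κ : ℤ) / 2) (epos q κ) (.inl (false, .inl ⟨k, hk⟩) : LE (GLoc q) c))])) :
    eArc q κ c (.inl (false, .inl ⟨k, hk⟩)) s x y := by
  have hk5 : min k (2 * q + 1) = k := by omega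
  simp only [epre, efs, tA, tB, GLoc, ePos, epos, hk2, hk3, if_false, if_true, Nat.zero_ne_one,
    List.cons_append, List.nil_append, arcsOf, List.mem_cons, List.not_mem_nil,
    Prod.mk.injEq, hk5, decide_true, Bool.false_xor, or_false] at h
  simp only [eArc]
  rcases h with ⟨h1, h2, h3⟩ | ⟨h1, h2, h3⟩
  · exact Or.inr (Or.inr (Or.inl ⟨hk2, h1, hk3, h2, h3⟩))
  · exact Or.inr (Or.inr (Or.inr (Or.inl ⟨hk2, h1, hk3, h2, h3⟩)))

theorem e_arc_l2 (q κ : ℕ) (c : Bool) (k : ℕ) (hk : k < 2 * q + 3) (hk2 : k % 2 = 1)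
    (hκ : κ < 2 * q + 1) (s : Bool) (x y : ℤ)
    (h : (s, x, y) ∈ arcsOf (tA (8 * q + 11 + (κ : ℤ) / 2) (epos q κ)
        (.inl (false, .inl ⟨k, hk⟩) : LE (GLoc q) c))
      (epre q κ c (.inl (false, .inl ⟨k, hk⟩)) ++ [(efs q c (.inl (false, .inl ⟨k, hk⟩)),
        tB (8 * q + 11 + (κ : ℤ) / 2) (epos q κ) (.inl (false, .inl ⟨k, hk⟩) : LE (GLoc q) c))])) :
    eArc q κ c (.inl (false, .inl ⟨k, hk⟩)) s y x := by
  have hk5 : min k (2 * q + 1) = k := by omega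
  simp only [epre, efs, tA, tB, GLoc, ePos, epos, hk2, if_false, if_true, Nat.one_ne_zero,
    List.cons_append, List.nil_append, arcsOf, List.mem_cons, List.not_mem_nil,
    Prod.mk.injEq, hk5, decide_false, Bool.false_xor, or_false] at h
  obtain ⟨h1, h2, h3⟩ := h
  simp only [eArc]
  rcases Nat.lt_or_ge κ k with hk3 | hk3
  · rw [if_neg (by omega)] at h2
    exact Or.inr (Or.inl ⟨hk2, h1, h3, hk3, h2⟩)
  · rw [if_pos hk3] at h2
    exact Or.inl ⟨hk2, h1, h3, hk3, h2⟩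

theorem e_arc_l3 (q κ : ℕ) (c : Bool) (k : ℕ) (hk : k < 2 * q + 1) (hk3 : k ≠ κ)
    (hκ : κ < 2 * q + 1) (s : Bool) (x y : ℤ)
    (h : (s, x, y) ∈ arcsOf (tA (8 * q + 11 + (κ : ℤ) / 2) (epos q κ)
        (.inl (false, .inr ⟨k, hk⟩) : LE (GLoc q) c))
      (epre q κ c (.inl (false, .inr ⟨k, hk⟩)) ++ [(efs q c (.inl (false, .inr ⟨k, hk⟩)),
        tB (8 * q + 11 + (κ : ℤ) / 2) (epos q κ) (.inl (false, .inr ⟨k, hk⟩) : LE (GLoc q) c))])) :
    eArc q κ c (.inl (false, .inr ⟨k, hk⟩)) s x y := by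
  simp only [epre, efs, tA, tB, GLoc, ePos, epos, List.nil_append, arcsOf, List.mem_cons,
    List.not_mem_nil, Prod.mk.injEq, or_false] at h
  simp only [eArc]
  obtain ⟨h1, h2, h3⟩ := h
  subst h1
  rcases Nat.lt_or_ge κ k with hk4 | hk4
  · rw [if_neg (by omega)] at h2 h3
    refine ⟨rfl, Or.inr ⟨hk4, h2⟩, ?_⟩
    push_cast at h3
    omega
  · rw [if_pos (by omega)] at h2 h3
    refine ⟨rfl, Or.inl ⟨by omega, h2⟩, ?_⟩
    push_cast at h3
    omega

theorem e_arc_r0 (q κ : ℕ) (c : Bool) (k : ℕ) (hk : k < 2 * q + 3) (hk2 : k % 2 = 0)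
    (s : Bool) (x y : ℤ)
    (h : (s, x, y) ∈ arcsOf (tA (8 * q + 11 + (κ : ℤ) / 2) (epos q κ)
        (.inl (true, .inl ⟨k, hk⟩) : LE (GLoc q) c))
      (epre q κ c (.inl (true, .inl ⟨k, hk⟩)) ++ [(efs q c (.inl (true, .inl ⟨k, hk⟩)),
        tB (8 * q + 11 + (κ : ℤ) / 2) (epos q κ) (.inl (true, .inl ⟨k, hk⟩) : LE (GLoc q) c))])) :
    eArc q κ c (.inl (true, .inl ⟨k, hk⟩)) s y x := by
  simp [epre, efs, tA, tB, GLoc, ePos, epos, arcsOf, hk2] at h
  obtain ⟨h1, h2, h3⟩ := h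
  simp only [eArc]
  exact Or.inl ⟨hk2, h1, h3, h2⟩

theorem e_arc_r1 (q κ : ℕ) (c : Bool) (k : ℕ) (hk : k < 2 * q + 3) (hk2 : k % 2 = 1)
    (s : Bool) (x y : ℤ)
    (h : (s, x, y) ∈ arcsOf (tA (8 * q + 11 + (κ : ℤ) / 2) (epos q κ)
        (.inl (true, .inl ⟨k, hk⟩) : LE (GLoc q) c))
      (epre q κ c (.inl (true, .inl ⟨k, hk⟩)) ++ [(efs q c (.inl (true, .inl ⟨k, hk⟩)),
        tB (8 * q + 11 + (κ : ℤ) / 2) (epos q κ) (.inl (true, .inl ⟨k, hk⟩) : LE (GLoc q) c))])) :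
    eArc q κ c (.inl (true, .inl ⟨k, hk⟩)) s x y := by
  have hk5 : min k (2 * q + 1) = k := by omega
  simp only [epre, efs, tA, tB, GLoc, ePos, epos, hk2, if_false, if_true, Nat.one_ne_zero,
    List.cons_append, List.nil_append, arcsOf, List.mem_cons, List.not_mem_nil,
    Prod.mk.injEq, hk5, decide_false, Bool.true_xor, Bool.not_false, or_false] at h
  simp only [eArc]
  rcases h with ⟨h1, h2, h3⟩ | ⟨h1, h2, h3⟩
  · exact Or.inr (Or.inl ⟨hk2, h1, h2, h3⟩)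
  · exact Or.inr (Or.inr ⟨hk2, h1, h2, h3⟩)

theorem e_arc (q κ : ℕ) (hκ : κ < 2 * q + 1) (c : Bool) (e : LE (GLoc q) c)
    (he : e ≠ .inl (false, .inr ⟨κ, hκ⟩)) (s : Bool) (x y : ℤ)
    (h : (s, x, y) ∈ arcsOf (tA (8 * q + 11 + (κ : ℤ) / 2) (epos q κ) e)
      (epre q κ c e ++ [(efs q c e, tB (8 * q + 11 + (κ : ℤ) / 2) (epos q κ) e)])) :
    eArc q κ c e s x y ∨ eArc q κ c e s y x := by
  rcases e with ⟨_ | _, ⟨k, hk⟩ | ⟨k, hk⟩⟩ | (_ | _) | ⟨_ | _, hc⟩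
  · rcases Nat.mod_two_eq_zero_or_one k with hk2 | hk2
    · rcases Nat.lt_or_ge κ k with hk3 | hk3
      · exact Or.inl (e_arc_l0 q κ c k hk hk2 hk3 hκ s x y h)
      · exact Or.inl (e_arc_l1 q κ c k hk hk2 hk3 hκ s x y h)
    · exact Or.inr (e_arc_l2 q κ c k hk hk2 hκ s x y h)
  · exact Or.inl (e_arc_l3 q κ c k hk (fun hh => he (by subst hh; rfl)) hκ s x y h)
  · rcases Nat.mod_two_eq_zero_or_one k with hk2 | hk2
    · exact Or.inr (e_arc_r0 q κ c k hk hk2 s x y h)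
    · exact Or.inl (e_arc_r1 q κ c k hk hk2 s x y h)
  · left
    simp [epre, efs, tA, tB, GLoc, ePos, epos, arcsOf] at h
    simp only [eArc]
    refine ⟨h.1, ?_, ?_⟩ <;> omega
  · left
    simp [epre, efs, tA, tB, GLoc, epos, arcsOf] at h
    simp only [eArc]
    exact h
  · left
    simp only [epre, efs, tA, tB, GLoc, epos, arcsOf, List.cons_append, mem_arcs_run,
      List.mem_cons, List.not_mem_nil, Prod.mk.injEq, or_false] at h
    simp only [eArc]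
    push_cast at h
    rcases h with ⟨h1, h2, h3⟩ | ⟨h1, h2, h3, h4⟩ | ⟨h1, h2, h3⟩
    · exact Or.inl ⟨h1, by omega, h3⟩
    · exact Or.inr (Or.inl ⟨h1, h2, by omega, h4⟩)
    · exact Or.inr (Or.inr ⟨h1, by omega, by omega⟩)
  · left
    simp [epre, efs, tA, tB, GLoc, arcsOf] at h
    simp only [eArc]
    exact h
  · left
    simp [epre, efs, tA, tB, GLoc, arcsOf] at h
    simp only [eArc]
    rcases h with ⟨h1, h2, h3⟩ | ⟨h1, h2, h3⟩ | ⟨h1, h2, h3⟩
    · exact Or.inl ⟨h1, h2, h3⟩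
    · exact Or.inr (Or.inl ⟨h1, h2, h3⟩)
    · exact Or.inr (Or.inr ⟨h1, h2, by omega⟩)

theorem e_bend (q κ : ℕ) (c : Bool) (e : LE (GLoc q) c) (x : ℤ) :
    x ∈ (epre q κ c e).map Prod.snd ↔ eBend q κ c e x := by
  rcases e with ⟨_ | _, ⟨k, hk⟩ | ⟨k, hk⟩⟩ | (_ | _) | ⟨_ | _, hc⟩
  · rcases Nat.mod_two_eq_zero_or_one k with hk2 | hk2
    · by_cases hk3 : k ≤ κ
      · have hk4 : ¬ κ < k := by omega
        simp [epre, eBend, hk2, hk3, hk4]
      · have hk4 : κ < k := by omega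
        simp [epre, eBend, hk2, hk3, hk4]
    · simp [epre, eBend, hk2]
  · simp [epre, eBend]
  · rcases Nat.mod_two_eq_zero_or_one k with hk2 | hk2 <;> simp [epre, eBend, hk2]
  · simp [epre, eBend]
  · simp [epre, eBend]
  · simp only [epre, eBend, List.map_cons, List.mem_cons, mem_run_map]
    push_cast
    omega
  · simp [epre, eBend]
  · simp [epre, eBend]

theorem e_nodup (q κ : ℕ) (hκ : κ < 2 * q + 1) (c : Bool) (e : LE (GLoc q) c) :
    (tA (8 * q + 11 + (κ : ℤ) / 2) (epos q κ) e ::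
      ((epre q κ c e).map Prod.snd ++ [tB (8 * q + 11 + (κ : ℤ) / 2) (epos q κ) e])).Nodup := by
  rcases e with ⟨_ | _, ⟨k, hk⟩ | ⟨k, hk⟩⟩ | (_ | _) | ⟨_ | _, hc⟩
  · rcases Nat.mod_two_eq_zero_or_one k with hk2 | hk2 <;>
    by_cases hk3 : k ≤ κ <;> by_cases hk4 : min k (2 * q + 1) ≤ κ <;>
    simp only [epre, tA, tB, GLoc, ePos, epos, hk2, hk3, hk4, if_true, if_false,
      Nat.zero_ne_one, Nat.one_ne_zero, List.map_nil, List.map_cons, List.nil_append,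
      List.cons_append, List.nodup_cons, List.mem_cons, List.not_mem_nil, or_false,
      not_false_eq_true, List.nodup_nil, and_true, decide_true, decide_false,
      Bool.false_xor] <;> push_cast <;> omega
  · simp only [epre, tA, tB, GLoc, ePos, epos, List.map_nil, List.nil_append,
      List.nodup_cons, List.mem_cons, List.not_mem_nil, or_false,
      not_false_eq_true, List.nodup_nil, and_true]
    split_ifs <;> push_cast <;> omega
  · rcases Nat.mod_two_eq_zero_or_one k with hk2 | hk2 <;>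
    simp [epre, tA, tB, GLoc, ePos, epos, hk2] <;> omega
  · simp [epre, tA, tB, GLoc, ePos, epos]
  · simp [epre, tA, tB, GLoc, epos]
  · simp only [epre, tA, tB, GLoc, epos, List.map_cons, List.cons_append, List.nodup_cons,
      List.mem_cons, List.mem_append, mem_run_map, List.not_mem_nil, or_false]
    refine ⟨by push_cast; omega, by push_cast; omega, ?_⟩
    rw [List.nodup_append]
    refine ⟨run_nodup _ _, by simp, ?_⟩
    intro a ha b hb
    rw [mem_run_map] at ha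
    rw [List.mem_singleton] at hb
    push_cast at ha
    omega
  · simp [epre, tA, tB, GLoc]
    omega
  · simp [epre, tA, tB, GLoc]
    omega

theorem e_pos_inj (q κ : ℕ) (hκ : κ < 2 * q + 1) : Function.Injective (epos q κ) := by
  rintro ⟨_ | _, i, hi⟩ ⟨_ | _, j, hj⟩ h <;> simp only [epos] at h
  · have : i = j := by split_ifs at h <;> omega
    subst this; rfl
  · split_ifs at h <;> omega
  · split_ifs at h <;> omega
  · have : i = j := by omega
    subst this; rfl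

theorem e_bend_mem (q κ : ℕ) (hκ : κ < 2 * q + 1) (c : Bool) (e : LE (GLoc q) c) (x : ℤ)
    (h : eBend q κ c e x) :
    (0 < x ∧ x < 8 * (q : ℤ) + 11 + (κ : ℤ) / 2) ∧ ∀ v, x ≠ epos q κ v := by
  have key : (0 < x ∧ x < 8 * (q : ℤ) + 11 + (κ : ℤ) / 2) ∧ (x < 3 ∨ 4 * (q : ℤ) + 6 < x) := by
    rcases e with ⟨_ | _, ⟨k, hk⟩ | ⟨k, hk⟩⟩ | (_ | _) | ⟨_ | _, hc⟩ <;>
    simp only [eBend] at h <;> omega
  refine ⟨key.1, ?_⟩
  rintro ⟨_ | _, i, hi⟩ <;> simp only [epos] <;> (try split_ifs) <;> omega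

theorem e_arc_up (q κ : ℕ) (hκ : κ < 2 * q + 1) (c : Bool) (e : LE (GLoc q) c) (x y : ℤ)
    (h : eArc q κ c e true x y) : eUp q κ x y := by
  rcases e with ⟨_ | _, ⟨k, hk⟩ | ⟨k, hk⟩⟩ | (_ | _) | ⟨_ | _, hc⟩ <;>
  simp only [eArc, reduceCtorEq, false_and, and_false, or_false, false_or, true_and] at h <;>
  unfold eUp
  · rcases h with h | h | h | h
    · (first
    | exact Or.inl (by omega)
    | exact Or.inr (Or.inl (by omega))
    | exact Or.inr (Or.inr (Or.inl (by omega)))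
    | exact Or.inr (Or.inr (Or.inr (Or.inl (by omega))))
    | exact Or.inr (Or.inr (Or.inr (Or.inr (by omega)))))
    · (first
    | exact Or.inl (by omega)
    | exact Or.inr (Or.inl (by omega))
    | exact Or.inr (Or.inr (Or.inl (by omega)))
    | exact Or.inr (Or.inr (Or.inr (Or.inl (by omega))))
    | exact Or.inr (Or.inr (Or.inr (Or.inr (by omega)))))
    · (first
    | exact Or.inl (by omega)
    | exact Or.inr (Or.inl (by omega))
    | exact Or.inr (Or.inr (Or.inl (by omega)))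
    | exact Or.inr (Or.inr (Or.inr (Or.inl (by omega))))
    | exact Or.inr (Or.inr (Or.inr (Or.inr (by omega)))))
    · (first
    | exact Or.inl (by omega)
    | exact Or.inr (Or.inl (by omega))
    | exact Or.inr (Or.inr (Or.inl (by omega)))
    | exact Or.inr (Or.inr (Or.inr (Or.inl (by omega))))
    | exact Or.inr (Or.inr (Or.inr (Or.inr (by omega)))))
  · (first
    | exact Or.inl (by omega)
    | exact Or.inr (Or.inl (by omega))
    | exact Or.inr (Or.inr (Or.inl (by omega)))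
    | exact Or.inr (Or.inr (Or.inr (Or.inl (by omega))))
    | exact Or.inr (Or.inr (Or.inr (Or.inr (by omega)))))
  · rcases h with h | h
    · (first
    | exact Or.inl (by omega)
    | exact Or.inr (Or.inl (by omega))
    | exact Or.inr (Or.inr (Or.inl (by omega)))
    | exact Or.inr (Or.inr (Or.inr (Or.inl (by omega))))
    | exact Or.inr (Or.inr (Or.inr (Or.inr (by omega)))))
    · (first
    | exact Or.inl (by omega)
    | exact Or.inr (Or.inl (by omega))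
    | exact Or.inr (Or.inr (Or.inl (by omega)))
    | exact Or.inr (Or.inr (Or.inr (Or.inl (by omega))))
    | exact Or.inr (Or.inr (Or.inr (Or.inr (by omega)))))
  · (first
    | exact Or.inl (by omega)
    | exact Or.inr (Or.inl (by omega))
    | exact Or.inr (Or.inr (Or.inl (by omega)))
    | exact Or.inr (Or.inr (Or.inr (Or.inl (by omega))))
    | exact Or.inr (Or.inr (Or.inr (Or.inr (by omega)))))
  · (first
    | exact Or.inl (by omega)
    | exact Or.inr (Or.inl (by omega))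
    | exact Or.inr (Or.inr (Or.inl (by omega)))
    | exact Or.inr (Or.inr (Or.inr (Or.inl (by omega))))
    | exact Or.inr (Or.inr (Or.inr (Or.inr (by omega)))))
  · (first
    | exact Or.inl (by omega)
    | exact Or.inr (Or.inl (by omega))
    | exact Or.inr (Or.inr (Or.inl (by omega)))
    | exact Or.inr (Or.inr (Or.inr (Or.inl (by omega))))
    | exact Or.inr (Or.inr (Or.inr (Or.inr (by omega)))))
  · (first
    | exact Or.inl (by omega)
    | exact Or.inr (Or.inl (by omega))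
    | exact Or.inr (Or.inr (Or.inl (by omega)))
    | exact Or.inr (Or.inr (Or.inr (Or.inl (by omega))))
    | exact Or.inr (Or.inr (Or.inr (Or.inr (by omega)))))
  · (first
    | exact Or.inl (by omega)
    | exact Or.inr (Or.inl (by omega))
    | exact Or.inr (Or.inr (Or.inl (by omega)))
    | exact Or.inr (Or.inr (Or.inr (Or.inl (by omega))))
    | exact Or.inr (Or.inr (Or.inr (Or.inr (by omega)))))

theorem e_arc_lo (q κ : ℕ) (hκ : κ < 2 * q + 1) (c : Bool) (e : LE (GLoc q) c) (x y : ℤ)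
    (h : eArc q κ c e false x y) : eLo q κ x y := by
  rcases e with ⟨_ | _, ⟨k, hk⟩ | ⟨k, hk⟩⟩ | (_ | _) | ⟨_ | _, hc⟩ <;>
  simp only [eArc, reduceCtorEq, false_and, and_false, or_false, false_or, true_and] at h <;>
  unfold eLo
  · rcases h with h | h
    · (first
    | exact Or.inl (by omega)
    | exact Or.inr (Or.inl (by omega))
    | exact Or.inr (Or.inr (Or.inl (by omega)))
    | exact Or.inr (Or.inr (Or.inr (Or.inl (by omega))))
    | exact Or.inr (Or.inr (Or.inr (Or.inr (Or.inl (by omega)))))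
    | exact Or.inr (Or.inr (Or.inr (Or.inr (Or.inr (Or.inl (by omega))))))
    | exact Or.inr (Or.inr (Or.inr (Or.inr (Or.inr (Or.inr (Or.inl (by omega)))))))
    | exact Or.inr (Or.inr (Or.inr (Or.inr (Or.inr (Or.inr (Or.inr (Or.inl (by omega))))))))
    | exact Or.inr (Or.inr (Or.inr (Or.inr (Or.inr (Or.inr (Or.inr (Or.inr (by omega)))))))))
    · (first
    | exact Or.inl (by omega)
    | exact Or.inr (Or.inl (by omega))
    | exact Or.inr (Or.inr (Or.inl (by omega)))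
    | exact Or.inr (Or.inr (Or.inr (Or.inl (by omega))))
    | exact Or.inr (Or.inr (Or.inr (Or.inr (Or.inl (by omega)))))
    | exact Or.inr (Or.inr (Or.inr (Or.inr (Or.inr (Or.inl (by omega))))))
    | exact Or.inr (Or.inr (Or.inr (Or.inr (Or.inr (Or.inr (Or.inl (by omega)))))))
    | exact Or.inr (Or.inr (Or.inr (Or.inr (Or.inr (Or.inr (Or.inr (Or.inl (by omega))))))))
    | exact Or.inr (Or.inr (Or.inr (Or.inr (Or.inr (Or.inr (Or.inr (Or.inr (by omega)))))))))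
  · (first
    | exact Or.inl (by omega)
    | exact Or.inr (Or.inl (by omega))
    | exact Or.inr (Or.inr (Or.inl (by omega)))
    | exact Or.inr (Or.inr (Or.inr (Or.inl (by omega))))
    | exact Or.inr (Or.inr (Or.inr (Or.inr (Or.inl (by omega)))))
    | exact Or.inr (Or.inr (Or.inr (Or.inr (Or.inr (Or.inl (by omega))))))
    | exact Or.inr (Or.inr (Or.inr (Or.inr (Or.inr (Or.inr (Or.inl (by omega)))))))
    | exact Or.inr (Or.inr (Or.inr (Or.inr (Or.inr (Or.inr (Or.inr (Or.inl (by omega))))))))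
    | exact Or.inr (Or.inr (Or.inr (Or.inr (Or.inr (Or.inr (Or.inr (Or.inr (by omega)))))))))
  · (first
    | exact Or.inl (by omega)
    | exact Or.inr (Or.inl (by omega))
    | exact Or.inr (Or.inr (Or.inl (by omega)))
    | exact Or.inr (Or.inr (Or.inr (Or.inl (by omega))))
    | exact Or.inr (Or.inr (Or.inr (Or.inr (Or.inl (by omega)))))
    | exact Or.inr (Or.inr (Or.inr (Or.inr (Or.inr (Or.inl (by omega))))))
    | exact Or.inr (Or.inr (Or.inr (Or.inr (Or.inr (Or.inr (Or.inl (by omega)))))))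
    | exact Or.inr (Or.inr (Or.inr (Or.inr (Or.inr (Or.inr (Or.inr (Or.inl (by omega))))))))
    | exact Or.inr (Or.inr (Or.inr (Or.inr (Or.inr (Or.inr (Or.inr (Or.inr (by omega)))))))))
  · rcases h with h | h
    · (first
    | exact Or.inl (by omega)
    | exact Or.inr (Or.inl (by omega))
    | exact Or.inr (Or.inr (Or.inl (by omega)))
    | exact Or.inr (Or.inr (Or.inr (Or.inl (by omega))))
    | exact Or.inr (Or.inr (Or.inr (Or.inr (Or.inl (by omega)))))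
    | exact Or.inr (Or.inr (Or.inr (Or.inr (Or.inr (Or.inl (by omega))))))
    | exact Or.inr (Or.inr (Or.inr (Or.inr (Or.inr (Or.inr (Or.inl (by omega)))))))
    | exact Or.inr (Or.inr (Or.inr (Or.inr (Or.inr (Or.inr (Or.inr (Or.inl (by omega))))))))
    | exact Or.inr (Or.inr (Or.inr (Or.inr (Or.inr (Or.inr (Or.inr (Or.inr (by omega)))))))))
    · (first
    | exact Or.inl (by omega)
    | exact Or.inr (Or.inl (by omega))
    | exact Or.inr (Or.inr (Or.inl (by omega)))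
    | exact Or.inr (Or.inr (Or.inr (Or.inl (by omega))))
    | exact Or.inr (Or.inr (Or.inr (Or.inr (Or.inl (by omega)))))
    | exact Or.inr (Or.inr (Or.inr (Or.inr (Or.inr (Or.inl (by omega))))))
    | exact Or.inr (Or.inr (Or.inr (Or.inr (Or.inr (Or.inr (Or.inl (by omega)))))))
    | exact Or.inr (Or.inr (Or.inr (Or.inr (Or.inr (Or.inr (Or.inr (Or.inl (by omega))))))))
    | exact Or.inr (Or.inr (Or.inr (Or.inr (Or.inr (Or.inr (Or.inr (Or.inr (by omega)))))))))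
  · rcases h with h | h
    · (first
    | exact Or.inl (by omega)
    | exact Or.inr (Or.inl (by omega))
    | exact Or.inr (Or.inr (Or.inl (by omega)))
    | exact Or.inr (Or.inr (Or.inr (Or.inl (by omega))))
    | exact Or.inr (Or.inr (Or.inr (Or.inr (Or.inl (by omega)))))
    | exact Or.inr (Or.inr (Or.inr (Or.inr (Or.inr (Or.inl (by omega))))))
    | exact Or.inr (Or.inr (Or.inr (Or.inr (Or.inr (Or.inr (Or.inl (by omega)))))))
    | exact Or.inr (Or.inr (Or.inr (Or.inr (Or.inr (Or.inr (Or.inr (Or.inl (by omega))))))))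
    | exact Or.inr (Or.inr (Or.inr (Or.inr (Or.inr (Or.inr (Or.inr (Or.inr (by omega)))))))))
    · (first
    | exact Or.inl (by omega)
    | exact Or.inr (Or.inl (by omega))
    | exact Or.inr (Or.inr (Or.inl (by omega)))
    | exact Or.inr (Or.inr (Or.inr (Or.inl (by omega))))
    | exact Or.inr (Or.inr (Or.inr (Or.inr (Or.inl (by omega)))))
    | exact Or.inr (Or.inr (Or.inr (Or.inr (Or.inr (Or.inl (by omega))))))
    | exact Or.inr (Or.inr (Or.inr (Or.inr (Or.inr (Or.inr (Or.inl (by omega)))))))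
    | exact Or.inr (Or.inr (Or.inr (Or.inr (Or.inr (Or.inr (Or.inr (Or.inl (by omega))))))))
    | exact Or.inr (Or.inr (Or.inr (Or.inr (Or.inr (Or.inr (Or.inr (Or.inr (by omega)))))))))
  · rcases h with h | h
    · (first
    | exact Or.inl (by omega)
    | exact Or.inr (Or.inl (by omega))
    | exact Or.inr (Or.inr (Or.inl (by omega)))
    | exact Or.inr (Or.inr (Or.inr (Or.inl (by omega))))
    | exact Or.inr (Or.inr (Or.inr (Or.inr (Or.inl (by omega)))))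
    | exact Or.inr (Or.inr (Or.inr (Or.inr (Or.inr (Or.inl (by omega))))))
    | exact Or.inr (Or.inr (Or.inr (Or.inr (Or.inr (Or.inr (Or.inl (by omega)))))))
    | exact Or.inr (Or.inr (Or.inr (Or.inr (Or.inr (Or.inr (Or.inr (Or.inl (by omega))))))))
    | exact Or.inr (Or.inr (Or.inr (Or.inr (Or.inr (Or.inr (Or.inr (Or.inr (by omega)))))))))
    · (first
    | exact Or.inl (by omega)
    | exact Or.inr (Or.inl (by omega))
    | exact Or.inr (Or.inr (Or.inl (by omega)))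
    | exact Or.inr (Or.inr (Or.inr (Or.inl (by omega))))
    | exact Or.inr (Or.inr (Or.inr (Or.inr (Or.inl (by omega)))))
    | exact Or.inr (Or.inr (Or.inr (Or.inr (Or.inr (Or.inl (by omega))))))
    | exact Or.inr (Or.inr (Or.inr (Or.inr (Or.inr (Or.inr (Or.inl (by omega)))))))
    | exact Or.inr (Or.inr (Or.inr (Or.inr (Or.inr (Or.inr (Or.inr (Or.inl (by omega))))))))
    | exact Or.inr (Or.inr (Or.inr (Or.inr (Or.inr (Or.inr (Or.inr (Or.inr (by omega)))))))))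

/-- Tile (eps). -/
noncomputable def eDr (q κ : ℕ) (hκ : κ < 2 * q + 1) (c : Bool) :
    Dr (GLoc q) c (fun f => f ≠ .inl (false, .inr ⟨κ, hκ⟩)) where
  b := 8 * q + 11 + (κ : ℤ) / 2
  pos := epos q κ
  pre := epre q κ c
  fs := efs q c
  cross := Finset.Icc (8 * q + 9 : ℤ) (8 * q + 9 + (κ : ℤ) / 2) ∪
    (if c then {1, 2, 8 * (q : ℤ) + 10 + (κ : ℤ) / 2} else ∅)
  Arc := eArc q κ c
  Up := eUp q κ
  Lo := eLo q κ
  Bend := eBend q κ c
  lab := eLab q c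
  pos_inj := e_pos_inj q κ hκ
  pos_mem := by
    rintro ⟨_ | _, i, hi⟩ <;> simp only [epos] <;> (try split_ifs) <;> omega
  nodup := fun e _ => e_nodup q κ hκ c e
  bend := fun e _ x => e_bend q κ c e x
  bend_mem := fun e _ x h => e_bend_mem q κ hκ c e x h
  bend_two := fun e f x _ _ h h' => e_bend_two q κ hκ c e f x h h'
  arc := fun e he s x y h => e_arc q κ hκ c e he s x y h
  arc_up := fun e x y _ h => e_arc_up q κ hκ c e x y h
  arc_lo := fun e x y _ h => e_arc_lo q κ hκ c e x y h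
  arc_inj := fun e f s x y _ _ h h' => e_arc_inj q κ hκ c e f s x y h h'
  up := fun x y h => by
    unfold eUp at h
    omega
  lo := fun x y h => by
    unfold eLo at h
    omega
  up_pl := e_up_pl q κ hκ
  lo_pl := e_lo_pl q κ hκ

theorem tileG_row (q : ℕ) (c : Bool) (i : Fin (2 * q + 1)) :
    TDel (GLoc q) c (q + 2 + if c then 3 else 0) (.inl (false, .inr i)) := by
  obtain ⟨κ, hκ⟩ := i
  refine ⟨(eDr q κ hκ c).lay, ?_⟩
  have h1 := card_cross (8 * (q : ℤ) + 9) (8 * q + 9 + (κ : ℤ) / 2) 1 2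
    (8 * (q : ℤ) + 10 + (κ : ℤ) / 2) (κ / 2 + 1) c (by push_cast; omega)
  have h2 : (eDr q κ hκ c).lay.cross.card ≤ κ / 2 + 1 + if c then 3 else 0 := h1
  omega

/-- The left part of block FCGG. -/
theorem tileG_left (q : ℕ) (c : Bool) (x : Fin (2 * q + 3) ⊕ Fin (2 * q + 1)) :
    TCr (GLoc q) c (q + 2 + if c then 3 else 0) (.inl (false, x)) ∨
    TDel (GLoc q) c (q + 2 + if c then 3 else 0) (.inl (false, x)) := by
  rcases x with k | i
  · rcases Nat.mod_two_eq_zero_or_one k.1 with hk | hk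
    · exact Or.inl (tileG_even q c k hk)
    · exact Or.inl (tileG_odd q c k hk)
  · exact Or.inr (tileG_row q c i)

end Pool.Agent.CC.TG
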