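import Pool.Agent.Lib_helper74.CCF.LBall

/-! LBTG (helper54): the lower bounds for the strips of types `T`, `G`. -/

namespace Pool.Agent.CC

open Gph

namespace LBTG

/-- a crossing pair outside a set of crossing pairs adds two -/
theorem cross_add_two {G : Gph} (P : G.PS) {e f : G.E} (hI : G.Ind e f) (hX : P.X e f = 1)
    (S : Finset (G.E × G.E)) (hS : S ⊆ P.cross) (h1 : (e, f) ∉ S) (h2 : (f, e) ∉ S) :
    S.card + 2 ≤ P.cross.card := by
  have hef : e ≠ f := fun h => hI.1 (by rw [h])
  have hd : Disjoint S {(e, f), (f, e)} := by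
    rw [Finset.disjoint_right]
    intro p hp
    rcases Finset.mem_insert.1 hp with rfl | hp
    · exact h1
    · rw [Finset.mem_singleton.1 hp]; exact h2
  have hsub : S ∪ {(e, f), (f, e)} ⊆ P.cross := by
    intro p hp
    rcases Finset.mem_union.1 hp with hp | hp
    · exact hS hp
    · rcases Finset.mem_insert.1 hp with rfl | hp
      · exact PS.mem_cross.2 ⟨hI, hX⟩
      · rw [Finset.mem_singleton.1 hp]
        exact PS.mem_cross.2 ⟨hI.symm, by rw [← P.X_symm e f hI]; exact hX⟩
  have := Finset.card_le_card hsub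
  rw [Finset.card_union_of_disjoint hd, Finset.card_pair] at this
  · exact this
  · intro h
    exact hef (congrArg Prod.fst h)

/-- crossing pairs in the image of an embedding which avoids `e`, and one pair with `e` -/
theorem count_add_two {H G : Gph} (φ : TEmb H G) (P : G.PS) {K : ℕ} (h : H.LB K) {e f : G.E}
    (hI : G.Ind e f) (hX : P.X e f = 1) (hφ : ∀ g, e ∉ φ.c g) : 2 * K + 2 ≤ P.cross.card := by
  refine (Nat.add_le_add_right (φ.count P h) 2).trans
    (cross_add_two P hI hX _ (Finset.filter_subset _ _) ?_ ?_)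
  · intro hm
    obtain ⟨-, a, b, -, h1, -⟩ := Finset.mem_filter.1 hm
    exact hφ a h1
  · intro hm
    obtain ⟨-, a, b, -, -, h1⟩ := Finset.mem_filter.1 hm
    exact hφ b h1

/-- the number of a leg -/
def legNo (q : ℕ) : (t : RT) → (t.loc q).E → ℕ
  | .T => fun e => match (e : Fin _ ⊕ Fin _) with
    | .inl i => i.1
    | .inr _ => 0
  | .G => fun _ => 0
  | .W => fun _ => 0

theorem legNo_lt (q : ℕ) (t : RT) (ht : t = .T) (e : (t.loc q).E) : legNo q t e < 2 * (q + 1) + 2 := by
  subst ht
  rcases (e : Fin (2 * (q + 1) + 2) ⊕ Fin _) with i | i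
  · exact i.2
  · show 0 < 2 * (q + 1) + 2
    omega

theorem not_mem_eB (q a : ℕ) (t : RT) (ht : t = .T) (e : (t.loc q).E) (he : RT.fleg q t e)
    (hn : legNo q t e ≠ 2 * a) : e ∉ RT.eB q a t := by
  subst ht
  intro hm
  rcases (e : Fin (2 * (q + 1) + 2) ⊕ Fin _) with i | i
  · rcases Finset.mem_union.1 hm with hm | hm
    · obtain ⟨j, _, hj⟩ := Finset.mem_map.1 hm
      exact absurd hj Sum.inr_ne_inl
    · obtain ⟨j, hj, hj'⟩ := Finset.mem_map.1 hm
      rw [Finset.mem_filter] at hj
      apply hn
      rw [← hj.2]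
      exact congrArg Fin.val (Sum.inl.inj hj').symm
  · exact absurd he (by simp [RT.fleg])

theorem not_mem_sA (q a : ℕ) (t : RT) (ht : t = .T) (e : (t.loc q).E) (he : RT.fleg q t e)
    (hn : legNo q t e ≠ 2 * a + 1) : e ∉ RT.sA q a t := by
  subst ht
  intro hm
  rcases (e : Fin (2 * (q + 1) + 2) ⊕ Fin _) with i | i
  · rcases Finset.mem_union.1 hm with hm | hm
    · obtain ⟨j, _, hj⟩ := Finset.mem_map.1 hm
      exact absurd hj Sum.inr_ne_inl
    · obtain ⟨j, hj, hj'⟩ := Finset.mem_map.1 hm
      rw [Finset.mem_filter] at hj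
      apply hn
      rw [← hj.2]
      exact congrArg Fin.val (Sum.inl.inj hj').symm
  · exact absurd he (by simp [RT.fleg])

variable {N : ℕ} [NeZero N]

theorem emb_le (q : ℕ) (c : Bool) (τ : ZMod N → RT) (i j : ZMod N) (s : Finset ((τ i).loc q).E)
    (e : ((τ j).loc q).E) (h : ∀ hij : i = j, e ∉ (hij ▸ s : Finset ((τ j).loc q).E)) :
    emb q c τ i s (le q c τ j e) = 0 := by
  unfold emb chi
  rw [if_neg]
  intro hm
  obtain ⟨x, hx, hx'⟩ := Finset.mem_image.1 hm
  have h1 : (⟨i, x⟩ : Σ j, ((τ j).loc q).E) = ⟨j, e⟩ := Sum.inl.inj hx'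
  obtain rfl : i = j := congrArg Sigma.fst h1
  have h2 : x = e := eq_of_heq (Sigma.mk.inj h1).2
  exact h rfl (h2 ▸ hx)

/-- a slot avoids a local edge which is in none of the sets of its region -/
theorem slot_le {q : ℕ} {c : Bool} {τ : ZMod N → RT} (D : Thru q c τ) (k : ℕ) (j : ZMod N)
    (e : ((τ j).loc q).E) (h1 : e ∉ D.e j) (h2 : e ∉ D.s j) : D.slot k (le q c τ j e) = 0 := by
  unfold Thru.slot
  rw [Pi.add_apply, Pi.add_apply, emb_le q c τ _ j _ e (by rintro rfl; exact h2),
    emb_le q c τ _ j _ e (by rintro rfl; exact h1)]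
  have : (tstrip q c τ).chi {rowE q c τ (k : ZMod N)} (le q c τ j e) = 0 := by
    unfold chi
    rw [if_neg]
    intro hm
    rw [Finset.mem_singleton] at hm
    exact absurd hm Sum.inl_ne_inr
  rw [this]
  simp

theorem rail_pos {α : Type} (O : ℕ → α → ZMod 2) (S : Finset ℕ) (e : α) (h : (∑ i ∈ S, O i) e ≠ 0) :
    ∃ i ∈ S, O i e ≠ 0 := by
  rw [Finset.sum_apply] at h
  exact Finset.exists_ne_zero_of_sum_ne_zero h

/-- `phi12` gives a crossing pair avoiding a given local edge -/
theorem exists_pair {q : ℕ} {c : Bool} {τ : ZMod N → RT} {P : (tstrip q c τ).PS}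
    (W : Window q c τ P) (hW : (∃ j, τ j = .W) → 1 ≤ q) (D : Thru q c τ) (j : ZMod N)
    (e : ((τ j).loc q).E) (h1 : e ∉ D.e j) (h2 : e ∉ D.s j) :
    ∃ f g, (tstrip q c τ).Ind f g ∧ P.X f g = 1 ∧ f ≠ le q c τ j e ∧ g ≠ le q c τ j e := by
  have hS := Thru.slots W.odd W.big D
  obtain ⟨f, g, hf, hg, hX⟩ := P.exists_of_L _ _ (phi12 W hW hS)
  obtain ⟨i, hi, hif⟩ := rail_pos _ _ _ hf
  obtain ⟨k, hk, hkg⟩ := rail_pos _ _ _ hg
  rw [Finset.mem_filter, Finset.mem_range] at hi hk
  refine ⟨f, g, hS.ind i k (by omega) (by omega) (Nat.even_iff.2 hi.2) (Nat.odd_iff.2 hk.2) f g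
    hif hkg, hX, ?_, ?_⟩
  · rintro rfl
    exact hif (slot_le D i j e h1 h2)
  · rintro rfl
    exact hkg (slot_le D k j e h1 h2)

end LBTG

open LBTG

variable {N : ℕ} [NeZero N]

/-- LB0. Level 2: if there is at most one crossing pair then the legs are free (by `phi12` for through
data which avoid the leg: `exists_thru_zero`). -/
theorem legFree_zero {τ : ZMod N → RT} {P : (tstrip 0 false τ).PS} (hW : ∀ j, τ j ≠ .W)
    (W : Window 0 false τ P) (h : P.cross.card < 4) : LegFree 0 false τ P := by
  intro j e he f hI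
  by_contra hX
  have hX1 : P.X (le 0 false τ j e) f = 1 := by
    have : ∀ z : ZMod 2, z ≠ 0 → z = 1 := by decide
    exact this _ hX
  have hbig := W.big
  obtain ⟨D, hD1, hD2, hD3, hD4⟩ := exists_thru_zero (N := N) false τ (by omega) hW
    (fun _ => if legNo 0 (τ j) e < 2 then 1 else 0) (by intro n; split_ifs <;> omega)
  have hT : τ j = .T ∨ τ j = .G := by
    rcases hτ : τ j with _ | _ | _
    · exact Or.inl rfl
    · exact Or.inr rfl
    · exact absurd hτ (hW j)
  have h1 : e ∉ D.e j := by
    rcases hT with hT | hT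
    · rw [hD1 j hT]
      apply not_mem_eB 0 _ _ hT e he
      split_ifs with h <;> omega
    · exact fun hm => hD3 j hT e hm he
  have h2 : e ∉ D.s j := by
    rcases hT with hT | hT
    · rw [hD2 j hT]
      apply not_mem_sA 0 _ _ hT e he
      have := legNo_lt 0 (τ j) hT e
      split_ifs with h <;> omega
    · exact fun hm => hD4 j hT e hm he
  obtain ⟨g, g', hI', hX', hg, hg'⟩ := exists_pair W (fun ⟨j, hj⟩ => absurd hj (hW j)) D j e h1 h2
  have hne : (le 0 false τ j e, f) ∉ ({(g, g'), (g', g)} : Finset _) := by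
    rw [Finset.mem_insert, Finset.mem_singleton]
    rintro (h | h)
    · exact hg (congrArg Prod.fst h).symm
    · exact hg' (congrArg Prod.fst h).symm
  have hne' : (f, le 0 false τ j e) ∉ ({(g, g'), (g', g)} : Finset _) := by
    rw [Finset.mem_insert, Finset.mem_singleton]
    rintro (h | h)
    · exact hg' (congrArg Prod.snd h).symm
    · exact hg (congrArg Prod.snd h).symm
  have hsub : ({(g, g'), (g', g)} : Finset _) ⊆ P.cross := by
    intro p hp
    rcases Finset.mem_insert.1 hp with rfl | hp
    · exact PS.mem_cross.2 ⟨hI', hX'⟩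
    · rw [Finset.mem_singleton.1 hp]
      exact PS.mem_cross.2 ⟨hI'.symm, by rw [← P.X_symm g g' hI']; exact hX'⟩
  have := cross_add_two P hI hX1 _ hsub hne hne'
  rw [Finset.card_pair (fun h => hI'.1
    (congrArg (tstrip 0 false τ).a (congrArg Prod.fst h)))] at this
  omega

/-- LBTG. The lower bound for the strips without bypass, by induction on `q`: window, rotation, legs
free (LB0 or EMBT + `TEmb.count`), core_LB. -/
theorem LB_TG (q M : ℕ) (X : RT) (hX : X ≠ .W) (hM : 12 * (q + 6) ≤ M) :
    (tstrip (N := 2 * M + 1) q false (altType M X)).LB (q + 2) := by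
  classical
  have hWt : ∀ s j : ZMod (2 * M + 1), altType M X (j + s) ≠ .W := by
    intro s j
    unfold altType
    split_ifs
    · exact fun h => RT.noConfusion h
    · exact hX
  induction q with
  | zero =>
    intro P
    by_contra hlt
    push Not at hlt
    obtain ⟨s, P', hP', W⟩ := exists_window 0 M 2 false X (by omega) P (by omega)
    have hl := legFree_zero (hWt s) W (by omega)
    have hc := core_LB W (fun ⟨j, hj⟩ => absurd hj (hWt s j)) hl (fun _ => Classical.propDecidable _)
    have := Finset.card_le_card (Finset.filter_subset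
      (fun p => RowT 0 false (fun j => altType M X (j + s)) p.1 ∧
        RowT 0 false (fun j => altType M X (j + s)) p.2) P'.cross)
    omega
  | succ q ih =>
    have ih := ih (by omega)
    intro P
    by_contra hlt
    push Not at hlt
    obtain ⟨s, P', hP', W⟩ := exists_window (q + 1) M (q + 3) false X (by omega) P (by omega)
    have hrot : (tstrip (N := 2 * M + 1) q false (fun j => altType M X (j + s))).LB (q + 2) := by
      obtain ⟨φ, -⟩ := exists_rot q false (fun j => altType M X (j + s)) (-s)
      have he : (fun j => (fun j => altType M X (j + s)) (j + -s)) = altType M X := by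
        funext j
        dsimp only
        rw [neg_add_cancel_right]
      rw [he] at φ
      exact LB.of_emb φ ih
    have hl : LegFree (q + 1) false (fun j => altType M X (j + s)) P' := by
      intro j e he f hI
      by_contra hX0
      have hX1 : P'.X (le (q + 1) false (fun j => altType M X (j + s)) j e) f = 1 := by
        have : ∀ z : ZMod 2, z ≠ 0 → z = 1 := by decide
        exact this _ hX0
      obtain ⟨φ, hφ⟩ := exists_emb_avoid (by omega) q (fun j => altType M X (j + s)) (hWt s) j e he
      have := count_add_two φ P' hrot hI hX1 hφ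
      omega
    have hc := core_LB W (fun ⟨j, hj⟩ => absurd hj (hWt s j)) hl (fun _ => Classical.propDecidable _)
    have := Finset.card_le_card (Finset.filter_subset
      (fun p => RowT (q + 1) false (fun j => altType M X (j + s)) p.1 ∧
        RowT (q + 1) false (fun j => altType M X (j + s)) p.2) P'.cross)
    omega

theorem F0_lb' (q M : ℕ) (hM : 12 * (q + 9) ≤ M) : (F0 q M).LB (q + 2) :=
  LB_TG q M .G (fun h => RT.noConfusion h) (by omega)

theorem FT_lb' (q M : ℕ) (hM : 12 * (q + 9) ≤ M) : (FT q M).LB (q + 2) := by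
  have h := LB_TG q M .T (fun h => RT.noConfusion h) (by omega)
  have he : altType M .T = fun _ => .T := by
    funext j
    unfold altType
    split_ifs <;> rfl
  rw [he] at h
  exact h

namespace LBTG

/-- the strip without bypass edges in the strip with bypass edges -/
def incl (q : ℕ) (τ : ZMod N → RT) : (tstrip q false τ).E → (tstrip q true τ).E
  | .inl e => .inl e
  | .inr (.inl j) => .inr (.inl j)
  | .inr (.inr j) => absurd j.2 (by decide)

theorem incl_a (q : ℕ) (τ : ZMod N → RT) (e : (tstrip q false τ).E) :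
    (tstrip q true τ).a (incl q τ e) = (tstrip q false τ).a e := by
  rcases e with e | j | j
  · rfl
  · rfl
  · exact absurd j.2 (by decide)

theorem incl_b (q : ℕ) (τ : ZMod N → RT) (e : (tstrip q false τ).E) :
    (tstrip q true τ).b (incl q τ e) = (tstrip q false τ).b e := by
  rcases e with e | j | j
  · rfl
  · rfl
  · exact absurd j.2 (by decide)

theorem incl_inj (q : ℕ) (τ : ZMod N → RT) : Function.Injective (incl q τ) := by
  rintro (e | j | j) (f | k | k) h
  · exact congrArg Sum.inl (Sum.inl.inj h)
  · exact absurd h Sum.inl_ne_inr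
  · exact absurd k.2 (by decide)
  · exact absurd h Sum.inr_ne_inl
  · exact congrArg (fun x => Sum.inr (Sum.inl x)) (Sum.inl.inj (Sum.inr.inj h))
  · exact absurd k.2 (by decide)
  · exact absurd j.2 (by decide)
  · exact absurd j.2 (by decide)
  · exact absurd j.2 (by decide)

theorem incl_not_byT (q : ℕ) (τ : ZMod N → RT) (hW : ∀ j, τ j ≠ .W) (e : (tstrip q false τ).E) :
    ¬ ByT q true τ (incl q τ e) := by
  rcases e with ⟨j, e⟩ | j | j
  · have key : ∀ t : RT, t ≠ .W → ∀ e : (t.loc q).E, ¬ RT.isB1 q t e := by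
      intro t ht e
      cases t with
      | T => exact id
      | G => exact id
      | W => exact absurd rfl ht
    exact key (τ j) (hW j) e
  · exact id
  · exact absurd j.2 (by decide)

/-- embedding -/
def inclEmb (q : ℕ) (τ : ZMod N → RT) : TEmb (tstrip q false τ) (tstrip q true τ) where
  v := id
  c := fun e => {incl q τ e}
  v_inj := fun _ _ h => h
  bd := by
    intro e
    have : (tstrip q true τ).bd {incl q τ e} =
        (tstrip q true τ).one ((tstrip q true τ).a (incl q τ e)) +
          (tstrip q true τ).one ((tstrip q true τ).b (incl q τ e)) := by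
      funext v
      simp [Gph.bd, Gph.one]
    rw [this, incl_a, incl_b]
    rfl
  ind := by
    intro e f hI e' he' f' hf'
    rw [Finset.mem_singleton] at he' hf'
    subst he' hf'
    unfold Ind
    rw [incl_a, incl_a, incl_b, incl_b]
    exact hI
  disj := by
    intro e f hef
    rw [Finset.disjoint_singleton]
    exact fun h => hef (incl_inj q τ h)

end LBTG

/-- F1: non-bypass pairs by LB_TG (embedding of the strip without bypass edges, `TEmb.count`),
bypass pairs by plus3, after rotation to a window. -/
theorem F1_lb' (q M : ℕ) (hM : 12 * (q + 9) ≤ M) : (F1 q M).LB (q + 5) := by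
  classical
  have hWt : ∀ s j : ZMod (2 * M + 1), altType M .G (j + s) ≠ .W := by
    intro s j
    unfold altType
    split_ifs
    · exact fun h => RT.noConfusion h
    · exact fun h => RT.noConfusion h
  intro P
  by_contra hlt
  push Not at hlt
  obtain ⟨s, P', hP', W⟩ := exists_window q M (q + 5) true .G (by omega) P hlt
  have hP0 : P'.cross.card < 2 * (q + 5) := by rw [hP']; exact hlt
  have hrot : (tstrip (N := 2 * M + 1) q false (fun j => altType M .G (j + s))).LB (q + 2) := by
    obtain ⟨φ, -⟩ := exists_rot q false (fun j => altType M .G (j + s)) (-s)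
    have he : (fun j => (fun j => altType M .G (j + s)) (j + -s)) = altType M .G := by
      funext j
      dsimp only
      rw [neg_add_cancel_right]
    rw [he] at φ
    exact LB.of_emb φ (LB_TG q M .G (fun h => RT.noConfusion h) (by omega))
  have h1 := (inclEmb q (fun j => altType M .G (j + s))).count P' hrot
  have h2 := plus3 W (fun ⟨j, hj⟩ => absurd hj (hWt s j)) (fun _ => Classical.propDecidable _)
  have hd : Disjoint
      (P'.cross.filter (fun p => ∃ e f, (tstrip q false (fun j => altType M .G (j + s))).Ind e f ∧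
        p.1 ∈ (inclEmb q (fun j => altType M .G (j + s))).c e ∧
        p.2 ∈ (inclEmb q (fun j => altType M .G (j + s))).c f))
      (P'.cross.filter (fun p => ByT q true (fun j => altType M .G (j + s)) p.1 ∨
        ByT q true (fun j => altType M .G (j + s)) p.2)) := by
    rw [Finset.disjoint_left]
    intro p hp hp'
    obtain ⟨-, e, f, -, he, hf⟩ := Finset.mem_filter.1 hp
    obtain ⟨-, hp'⟩ := Finset.mem_filter.1 hp'
    have he' : p.1 = incl q _ e := Finset.mem_singleton.1 he
    have hf' : p.2 = incl q _ f := Finset.mem_singleton.1 hf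
    rcases hp' with hp' | hp'
    · rw [he'] at hp'
      exact incl_not_byT q _ (hWt s) e hp'
    · rw [hf'] at hp'
      exact incl_not_byT q _ (hWt s) f hp'
  have h3 := Finset.card_le_card (Finset.union_subset
    (Finset.filter_subset (fun p => ∃ e f, (tstrip q false (fun j => altType M .G (j + s))).Ind e f ∧
        p.1 ∈ (inclEmb q (fun j => altType M .G (j + s))).c e ∧
        p.2 ∈ (inclEmb q (fun j => altType M .G (j + s))).c f) P'.cross)
    (Finset.filter_subset (fun p => ByT q true (fun j => altType M .G (j + s)) p.1 ∨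
        ByT q true (fun j => altType M .G (j + s)) p.2) P'.cross))
  rw [Finset.card_union_of_disjoint hd] at h3
  omega

end Pool.Agent.CC
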