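import Pool.Agent.Lib_helper74.CCF.Chains

/-! WIN: rotation of a strip, window. -/

namespace Pool.Agent.CC

open Gph

variable {N : ℕ} [NeZero N]

/-- rotation of the vertices -/
def rotV (L : ZMod N → Loc) (c : Bool) (s : ZMod N) :
    (strip (fun j => L (j + s)) c).V → (strip L c).V
  | .inl j => .inl (j + s)
  | .inr ⟨j, v⟩ => .inr ⟨j + s, v⟩

/-- rotation of the edges -/
def rotE (L : ZMod N → Loc) (c : Bool) (s : ZMod N) :
    (strip (fun j => L (j + s)) c).E → (strip L c).E
  | .inl ⟨j, e⟩ => .inl ⟨j + s, e⟩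
  | .inr (.inl j) => .inr (.inl (j + s))
  | .inr (.inr ⟨j, h⟩) => .inr (.inr ⟨j + s, h⟩)

/-- the inverse rotations -/
theorem rotV_surj (L : ZMod N → Loc) (c : Bool) (s : ZMod N) :
    Function.Surjective (rotV L c s) := by
  rintro (j | ⟨j, v⟩)
  · exact ⟨.inl (j - s), congrArg Sum.inl (sub_add_cancel j s)⟩
  · have key : ∀ (i : ZMod N) (h : i + s = j), ∃ u, rotV L c s u = .inr ⟨j, v⟩ := by
      rintro i rfl
      exact ⟨.inr ⟨i, v⟩, rfl⟩
    exact key (j - s) (by ring)

theorem rotV_inj (L : ZMod N → Loc) (c : Bool) (s : ZMod N) :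
    Function.Injective (rotV L c s) := by
  rintro (j | ⟨j, v⟩) (k | ⟨k, w⟩) h
  · have := add_right_cancel (Sum.inl.inj h)
    rw [this]
  · exact (Sum.inl_ne_inr h).elim
  · exact (Sum.inr_ne_inl h).elim
  · have h1 := Sum.inr.inj h
    have h2 : j = k := by
      have := congrArg Sigma.fst h1
      exact add_right_cancel this
    subst h2
    have h3 := eq_of_heq (Sigma.mk.inj h1).2
    rw [h3]

theorem rotE_surj (L : ZMod N → Loc) (c : Bool) (s : ZMod N) :
    Function.Surjective (rotE L c s) := by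
  rintro (⟨j, v⟩ | j | ⟨j, h⟩)
  · have key : ∀ (i : ZMod N) (h : i + s = j), ∃ u, rotE L c s u = .inl ⟨j, v⟩ := by
      rintro i rfl
      exact ⟨.inl ⟨i, v⟩, rfl⟩
    exact key (j - s) (by ring)
  · exact ⟨.inr (.inl (j - s)), congrArg (Sum.inr ∘ Sum.inl) (sub_add_cancel j s)⟩
  · have key : ∀ (i : ZMod N) (h' : i + s = j), ∃ u, rotE L c s u = .inr (.inr ⟨j, h⟩) := by
      rintro i rfl
      exact ⟨.inr (.inr ⟨i, h⟩), rfl⟩
    exact key (j - s) (by ring)

theorem rotE_inj (L : ZMod N → Loc) (c : Bool) (s : ZMod N) :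
    Function.Injective (rotE L c s) := by
  rintro (⟨j, v⟩ | j | ⟨j, h⟩) (⟨k, w⟩ | k | ⟨k, h'⟩) hh
  · have h1 := Sum.inl.inj hh
    have h2 : j = k := by
      have := congrArg Sigma.fst h1
      exact add_right_cancel this
    subst h2
    have h3 := eq_of_heq (Sigma.mk.inj h1).2
    rw [h3]
  · exact (Sum.inl_ne_inr hh).elim
  · exact (Sum.inl_ne_inr hh).elim
  · exact (Sum.inr_ne_inl hh).elim
  · have := add_right_cancel (Sum.inl.inj (Sum.inr.inj hh))
    rw [this]
  · exact (Sum.inl_ne_inr (Sum.inr.inj hh)).elim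
  · exact (Sum.inr_ne_inl hh).elim
  · exact (Sum.inr_ne_inl (Sum.inr.inj hh)).elim
  · have h1 := congrArg Subtype.val (Sum.inr.inj (Sum.inr.inj hh))
    have h2 : j = k := add_right_cancel h1
    subst h2
    rfl

theorem rot_locEnd (L : ZMod N → Loc) (c : Bool) (s j : ZMod N) (x : (L (j + s)).V ⊕ Bool) :
    rotV L c s (locEnd (fun j => L (j + s)) j x) = locEnd L (j + s) x := by
  rcases x with v | b
  · rfl
  · cases b
    · change Sum.inl (j - 1 + s) = Sum.inl (j + s - 1)
      congr 1; ring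
    · rfl

omit [NeZero N] in
theorem byL_none (L : ZMod N → Loc) {j : ZMod N} (h : (L j).br = none) :
    byL L j = .inl (j - 1) := by
  unfold byL; rw [h]

omit [NeZero N] in
theorem byL_some (L : ZMod N → Loc) {j : ZMod N} {v : (L j).V} (h : (L j).br = some v) :
    byL L j = .inr ⟨j, v⟩ := by
  unfold byL; rw [h]

omit [NeZero N] in
theorem byR_none (L : ZMod N → Loc) {j : ZMod N} (h : (L (j + 1)).bl = none) :
    byR L j = .inl (j + 1) := by
  unfold byR; rw [h]

omit [NeZero N] in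
theorem byR_some (L : ZMod N → Loc) {j : ZMod N} {v : (L (j + 1)).V}
    (h : (L (j + 1)).bl = some v) : byR L j = .inr ⟨j + 1, v⟩ := by
  unfold byR; rw [h]

theorem rot_a (L : ZMod N → Loc) (c : Bool) (s : ZMod N)
    (e : (strip (fun j => L (j + s)) c).E) :
    rotV L c s ((strip (fun j => L (j + s)) c).a e) = (strip L c).a (rotE L c s e) := by
  rcases e with ⟨j, v⟩ | j | ⟨j, h⟩
  · exact rot_locEnd L c s j _
  · rfl
  · change rotV L c s (byL (fun j => L (j + s)) j) = byL L (j + s)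
    cases h : (L (j + s)).br with
    | none =>
      rw [byL_none L h, byL_none (fun j => L (j + s)) h]
      change Sum.inl (j - 1 + s) = Sum.inl (j + s - 1)
      congr 1; ring
    | some v =>
      rw [byL_some L h, byL_some (fun j => L (j + s)) h]
      rfl

theorem rot_b (L : ZMod N → Loc) (c : Bool) (s : ZMod N)
    (e : (strip (fun j => L (j + s)) c).E) :
    rotV L c s ((strip (fun j => L (j + s)) c).b e) = (strip L c).b (rotE L c s e) := by
  rcases e with ⟨j, v⟩ | j | ⟨j, h⟩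
  · exact rot_locEnd L c s j _
  · have key : ∀ i i' : ZMod N, i = i' → (Sum.inr ⟨i, (L i).en⟩ : ZMod N ⊕ (Σ j, (L j).V)) =
        Sum.inr ⟨i', (L i').en⟩ := by
      rintro i _ rfl; rfl
    exact key (j + 1 + s) (j + s + 1) (by ring)
  · change rotV L c s (byR (fun j => L (j + s)) j) = byR L (j + s)
    cases h : (L (j + 1 + s)).bl with
    | none =>
      rw [byR_none (fun j => L (j + s)) h]
      have key : ∀ i : ZMod N, i = j + s + 1 → (L i).bl = none → byR L (j + s) = Sum.inl i := by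
        rintro _ rfl h'; exact byR_none L h'
      exact (key (j + 1 + s) (by ring) h).symm
    | some v =>
      rw [byR_some (fun j => L (j + s)) h]
      have key : ∀ (i : ZMod N) (v : (L i).V), i = j + s + 1 → (L i).bl = some v →
          byR L (j + s) = Sum.inr ⟨i, v⟩ := by
        rintro _ v rfl h'; exact byR_some L h'
      exact (key (j + 1 + s) v (by ring) h).symm

/-- rotation of the vertices, for `tstrip` -/
def trV (q : ℕ) (c : Bool) (τ : ZMod N → RT) (s : ZMod N) :
    (tstrip q c (fun j => τ (j + s))).V → (tstrip q c τ).V :=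
  rotV (fun j => (τ j).loc q) c s

/-- rotation of the edges, for `tstrip` -/
def trE (q : ℕ) (c : Bool) (τ : ZMod N → RT) (s : ZMod N) :
    (tstrip q c (fun j => τ (j + s))).E → (tstrip q c τ).E :=
  rotE (fun j => (τ j).loc q) c s

theorem trV_bij (q : ℕ) (c : Bool) (τ : ZMod N → RT) (s : ZMod N) :
    Function.Bijective (trV q c τ s) := ⟨rotV_inj _ _ _, rotV_surj _ _ _⟩

theorem trE_bij (q : ℕ) (c : Bool) (τ : ZMod N → RT) (s : ZMod N) :
    Function.Bijective (trE q c τ s) := ⟨rotE_inj _ _ _, rotE_surj _ _ _⟩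

theorem tr_a (q : ℕ) (c : Bool) (τ : ZMod N → RT) (s : ZMod N)
    (e : (tstrip q c (fun j => τ (j + s))).E) :
    trV q c τ s ((tstrip q c (fun j => τ (j + s))).a e) = (tstrip q c τ).a (trE q c τ s e) :=
  rot_a (fun j => (τ j).loc q) c s e

theorem tr_b (q : ℕ) (c : Bool) (τ : ZMod N → RT) (s : ZMod N)
    (e : (tstrip q c (fun j => τ (j + s))).E) :
    trV q c τ s ((tstrip q c (fun j => τ (j + s))).b e) = (tstrip q c τ).b (trE q c τ s e) :=
  rot_b (fun j => (τ j).loc q) c s e

theorem tr_idx (q : ℕ) (c : Bool) (τ : ZMod N → RT) (s : ZMod N)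
    (e : (tstrip q c (fun j => τ (j + s))).E) :
    idx q c τ (trE q c τ s e) = idx q c _ e + s := by
  rcases e with ⟨j, v⟩ | j | ⟨j, h⟩ <;> rfl

/-- An embedding of graphs as a `TEmb`. -/
def isoEmb {G H : Gph} (fV : G.V → H.V) (fE : G.E → H.E) (hV : Function.Injective fV)
    (hE : Function.Injective fE) (ha : ∀ e, fV (G.a e) = H.a (fE e))
    (hb : ∀ e, fV (G.b e) = H.b (fE e)) : TEmb G H where
  v := fV
  c := fun e => {fE e}
  v_inj := hV
  bd := fun e => by
    funext v
    rw [ha e, hb e]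
    simp only [Gph.bd, Finset.sum_singleton, Pi.add_apply, Gph.one]
  ind := fun e f hef e' he' f' hf' => by
    rw [Finset.mem_singleton] at he' hf'
    subst he' hf'
    unfold Gph.Ind at hef ⊢
    rw [← ha e, ← hb e, ← ha f, ← hb f]
    exact ⟨fun h => hef.1 (hV h), fun h => hef.2.1 (hV h), fun h => hef.2.2.1 (hV h),
      fun h => hef.2.2.2 (hV h)⟩
  disj := fun e f hef => by
    rw [Finset.disjoint_singleton]
    exact fun h => hef (hE h)

/-- ROT. Rotation of a strip. -/
theorem exists_rot (q : ℕ) (c : Bool) (τ : ZMod N → RT) (s : ZMod N) :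
    ∃ φ : TEmb (tstrip q c (fun j => τ (j + s))) (tstrip q c τ),
      (∀ j, φ.v (Sum.inl j) = Sum.inl (j + s)) ∧
      (∀ e, ∃ e', φ.c e = {e'} ∧ idx q c τ e' = idx q c _ e + s) ∧
      Function.Bijective φ.v ∧ (∀ e', ∃ e, φ.c e = {e'}) := by
  refine ⟨isoEmb (trV q c τ s) (trE q c τ s) (trV_bij q c τ s).1 (trE_bij q c τ s).1
    (tr_a q c τ s) (tr_b q c τ s), fun j => rfl,
    fun e => ⟨trE q c τ s e, rfl, tr_idx q c τ s e⟩, trV_bij q c τ s, fun e' => ?_⟩
  obtain ⟨e, he⟩ := (trE_bij q c τ s).2 e'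
  exact ⟨e, by rw [← he]; rfl⟩

/-- The parity structure pulled back along an isomorphism. -/
def isoPS {G H : Gph} (fV : G.V → H.V) (fE : G.E → H.E) (hV : Function.Injective fV)
    (P : H.PS) : G.PS where
  r := fun u v => P.r (fV u) (fV v)
  hr := fun _ _ h => P.hr _ _ (fun h' => h (hV h'))
  M := fun e v => P.M (fE e) (fV v)

theorem isoPS_X {G H : Gph} (fV : G.V → H.V) (fE : G.E → H.E) (hV : Function.Injective fV)
    (ha : ∀ e, fV (G.a e) = H.a (fE e)) (hb : ∀ e, fV (G.b e) = H.b (fE e)) (P : H.PS)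
    (e f : G.E) : (isoPS fV fE hV P).X e f = P.X (fE e) (fE f) := by
  unfold PS.X isoPS
  simp only [ha, hb]

theorem iso_Ind {G H : Gph} (fV : G.V → H.V) (fE : G.E → H.E) (hV : Function.Injective fV)
    (ha : ∀ e, fV (G.a e) = H.a (fE e)) (hb : ∀ e, fV (G.b e) = H.b (fE e))
    (e f : G.E) : H.Ind (fE e) (fE f) ↔ G.Ind e f := by
  unfold Gph.Ind
  rw [← ha e, ← hb e, ← ha f, ← hb f]
  simp only [ne_eq, hV.eq_iff]

theorem isoPS_card {G H : Gph} (fV : G.V → H.V) (fE : G.E → H.E) (hV : Function.Injective fV)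
    (hE : Function.Bijective fE)
    (ha : ∀ e, fV (G.a e) = H.a (fE e)) (hb : ∀ e, fV (G.b e) = H.b (fE e)) (P : H.PS) :
    (isoPS fV fE hV P).cross.card = P.cross.card := by
  refine Finset.card_bij (fun p _ => (fE p.1, fE p.2)) ?_ ?_ ?_
  · rintro ⟨e, f⟩ h
    simp only [PS.cross, Finset.mem_filter, Finset.mem_univ, true_and] at h ⊢
    rw [isoPS_X fV fE hV ha hb] at h
    exact ⟨(iso_Ind fV fE hV ha hb e f).2 h.1, h.2⟩
  · rintro ⟨e, f⟩ _ ⟨e', f'⟩ _ h
    rw [Prod.mk.injEq] at h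
    have h1 : e = e' := hE.1 h.1
    have h2 : f = f' := hE.1 h.2
    rw [h1, h2]
  · rintro ⟨e', f'⟩ h
    obtain ⟨e, rfl⟩ := hE.2 e'
    obtain ⟨f, rfl⟩ := hE.2 f'
    refine ⟨(e, f), ?_, rfl⟩
    simp only [PS.cross, Finset.mem_filter, Finset.mem_univ, true_and] at h ⊢
    rw [isoPS_X fV fE hV ha hb]
    exact ⟨(iso_Ind fV fE hV ha hb e f).1 h.1, h.2⟩

theorem zmod2_eq_one {x : ZMod 2} (h : x ≠ 0) : x = 1 := by
  revert h; revert x; decide

/-- WIN. A parity structure with fewer than `K` crossing pairs on a long strip has a window. -/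
theorem exists_window (q M K : ℕ) (c : Bool) (X : RT) (hM : 12 * (K + 2) ≤ M)
    (P : (tstrip (N := 2 * M + 1) q c (altType M X)).PS) (h : P.cross.card < 2 * K) :
    ∃ (s : ZMod (2 * M + 1)) (P' : (tstrip q c (fun j => altType M X (j + s))).PS),
      P'.cross.card = P.cross.card ∧ Window q c _ P' := by
  classical
  -- the bad regions
  let B : Finset (ZMod (2 * M + 1)) := P.cross.image (fun p => idx q c (altType M X) p.1)
  have hB : B.card < 2 * K := lt_of_le_of_lt Finset.card_image_le h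
  -- a good block
  have hk : ∃ k, k < 2 * K ∧ ∀ i : ℕ, i ≤ 9 → ((10 * k + 10 - i : ℕ) : ZMod (2 * M + 1)) ∉ B := by
    by_contra hcon
    push Not at hcon
    choose! g hg using hcon
    have hinj : Set.InjOn (fun k => ((10 * k + 10 - g k : ℕ) : ZMod (2 * M + 1)))
        (Finset.range (2 * K) : Set ℕ) := by
      intro k hk k' hk' hkk
      rw [Finset.mem_coe, Finset.mem_range] at hk hk'
      have h1 := (hg k hk).1
      have h2 := (hg k' hk').1
      have h3 : ((10 * k + 10 - g k : ℕ) : ZMod (2 * M + 1)).val =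
        ((10 * k' + 10 - g k' : ℕ) : ZMod (2 * M + 1)).val := by
        simp only at hkk; rw [hkk]
      rw [ZMod.val_natCast_of_lt (by omega), ZMod.val_natCast_of_lt (by omega)] at h3
      omega
    have h4 := Finset.card_image_of_injOn hinj
    have h5 : (Finset.range (2 * K)).image
        (fun k => ((10 * k + 10 - g k : ℕ) : ZMod (2 * M + 1))) ⊆ B := by
      intro x hx
      rw [Finset.mem_image] at hx
      obtain ⟨k, hk, rfl⟩ := hx
      exact (hg k (Finset.mem_range.1 hk)).2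
    have h6 := Finset.card_le_card h5
    rw [h4, Finset.card_range] at h6
    omega
  obtain ⟨k, hk, hgood⟩ := hk
  set s : ZMod (2 * M + 1) := ((10 * k + 10 : ℕ) : ZMod (2 * M + 1)) with hs
  have hsub : ∀ i : ℕ, i ≤ 9 → -(i : ZMod (2 * M + 1)) + s =
      ((10 * k + 10 - i : ℕ) : ZMod (2 * M + 1)) := by
    intro i hi
    rw [hs, Nat.cast_sub (by omega)]
    ring
  have htype : ∀ i : ℕ, i ≤ 9 → Even i → altType M X (-(i : ZMod (2 * M + 1)) + s) = .T := by
    intro i hi he
    rw [hsub i hi]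
    unfold altType
    rw [ZMod.val_natCast_of_lt (by omega), if_pos]
    obtain ⟨r, hr⟩ := he
    omega
  refine ⟨s, isoPS (trV q c (altType M X) s) (trE q c (altType M X) s)
    (trV_bij q c (altType M X) s).1 P,
    isoPS_card _ _ _ (trE_bij q c (altType M X) s) (tr_a q c _ s) (tr_b q c _ s) P, ?_⟩
  refine ⟨⟨M, rfl⟩, by omega, ?_, ?_, ?_, ?_⟩
  · have := htype 0 (by omega) ⟨0, rfl⟩
    simpa using this
  · have := htype 4 (by omega) ⟨2, rfl⟩
    simpa using this
  · have := htype 8 (by omega) ⟨4, rfl⟩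
    simpa using this
  · rintro e ⟨i, hi, hie⟩ f hef
    by_contra hne
    have h1 := zmod2_eq_one hne
    rw [isoPS_X _ _ _ (tr_a q c _ s) (tr_b q c _ s)] at h1
    have h2 : (trE q c (altType M X) s e, trE q c (altType M X) s f) ∈ P.cross := by
      simp only [PS.cross, Finset.mem_filter, Finset.mem_univ, true_and]
      exact ⟨(iso_Ind _ _ (trV_bij q c _ s).1 (tr_a q c _ s) (tr_b q c _ s) e f).2 hef, h1⟩
    have h3 : idx q c (altType M X) (trE q c (altType M X) s e) =
        ((10 * k + 10 - i : ℕ) : ZMod (2 * M + 1)) :=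
      (tr_idx q c (altType M X) s e).trans
        ((congrArg (fun x => x + s) hie).trans (hsub i hi))
    have h4 : idx q c (altType M X) (trE q c (altType M X) s e) ∈ B :=
      Finset.mem_image.2 ⟨_, h2, rfl⟩
    exact hgood i hi (h3 ▸ h4)

end Pool.Agent.CC
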