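import Pool.Agent.Lib_helper74.CCF.SSlots
import Pool.Agent.Lib_helper74.CCF.F2defs

/-! LOC (helper93): cycles through hubs and local 5-cycles. -/

namespace Pool.Agent.CC

open Gph

variable {N : ℕ} [NeZero N]


section LOC_alg

variable {M : Type*} [AddCommGroup M] (h2 : ∀ x : M, x + x = 0)

include h2

theorem LOC_alg4 (p q r s : M) : (p + q) + ((p + r) + ((s + r) + (s + q))) = 0 := by
  have : (p + q) + ((p + r) + ((s + r) + (s + q))) = (p + p) + (q + q) + (r + r) + (s + s) := by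
    abel
  rw [this]
  simp [h2]

theorem LOC_alg4' (p q r s : M) : (p + q) + ((q + r) + ((p + s) + (r + s))) = 0 := by
  have : (p + q) + ((q + r) + ((p + s) + (r + s))) = (p + p) + (q + q) + (r + r) + (s + s) := by
    abel
  rw [this]
  simp [h2]

theorem LOC_alg5 (a w x y s : M) :
    ((a + w) + (a + s)) + ((w + x) + ((x + y) + (y + s))) = 0 := by
  have : ((a + w) + (a + s)) + ((w + x) + ((x + y) + (y + s))) =
      (a + a) + (w + w) + (x + x) + (y + y) + (s + s) := by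
    abel
  rw [this]
  simp [h2]

theorem LOC_Y_sum (t : RT) (g : (t.loc 1).V ⊕ Bool → M) : SS93_ls (t.loc 1) g (RT.Y t) = 0 := by
  cases t with
  | T => exact Finset.sum_empty
  | G => exact Finset.sum_empty
  | W =>
    have h : ∀ F : Bool × WE 0 → M, ∑ x ∈ ({(false, .leg ⟨1, by omega⟩), (false, .leg ⟨2, by omega⟩),
        (true, .leg ⟨1, by omega⟩), (true, .leg ⟨2, by omega⟩)} : Finset (Bool × WE 0)), F x =
        F (false, .leg ⟨1, by omega⟩) + (F (false, .leg ⟨2, by omega⟩) +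
          (F (true, .leg ⟨1, by omega⟩) + F (true, .leg ⟨2, by omega⟩))) := by
      intro F
      rw [Finset.sum_insert (by decide), Finset.sum_insert (by decide),
        Finset.sum_insert (by decide), Finset.sum_singleton]
    refine (h _).trans ?_
    exact LOC_alg4 h2 _ _ _ _

theorem LOC_r46_sum (t : RT) (s : Bool) (g : (t.loc 1).V ⊕ Bool → M) :
    SS93_ls (t.loc 1) g (RT.r4 s t ∪ RT.r6 s t) = 0 := by
  cases t with
  | T => exact Finset.sum_empty
  | G => exact Finset.sum_empty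
  | W =>
    have h : ∀ F : Bool × WE 0 → M, ∑ x ∈ ({(s, .sig), (s, .b2)} : Finset (Bool × WE 0)) ∪
        ({(s, .s3), (s, .row ⟨0, by omega⟩), (s, .leg ⟨2, by omega⟩)} : Finset (Bool × WE 0)), F x =
        (F (s, .sig) + F (s, .b2)) + (F (s, .s3) + (F (s, .row ⟨0, by omega⟩) +
          F (s, .leg ⟨2, by omega⟩))) := by
      intro F
      rw [Finset.sum_union (by cases s <;> decide), Finset.sum_insert (by cases s <;> decide),
        Finset.sum_singleton, Finset.sum_insert (by cases s <;> decide),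
        Finset.sum_insert (by cases s <;> decide), Finset.sum_singleton]
    refine (h _).trans ?_
    cases s
    · exact LOC_alg5 h2 _ _ _ _ _
    · exact LOC_alg5 h2 _ _ _ _ _

end LOC_alg

/-- LOC1. Boundaries. -/
theorem Y_cycle (hN : 5 ≤ N) (τ : ZMod N → RT) (m : ZMod N) :
    (tstrip 1 true τ).bd ((RT.Y (τ m)).image (le 1 true τ m)) = 0 := by
  rw [← bdl_chi]
  exact (SS93_ls_eq 1 true τ m _).trans (LOC_Y_sum SS93_two _ _)

theorem r46_cycle (hN : 5 ≤ N) (τ : ZMod N → RT) (m : ZMod N) (s : Bool) :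
    (tstrip 1 true τ).bd ((RT.r4 s (τ m) ∪ RT.r6 s (τ m)).image (le 1 true τ m)) = 0 := by
  rw [← bdl_chi]
  exact (SS93_ls_eq 1 true τ m _).trans (LOC_r46_sum SS93_two _ _ _)

/-- the vertices `x 1` of a `W` region -/
def LOC_isX1 : (t : RT) → (t.loc 1).V → Prop
  | .T => fun _ => False
  | .G => fun _ => False
  | .W => fun (u : Bool × WV 0) => u.2 = .x ⟨1, by omega⟩

/-- the vertex is not on the cycle `Y` of region `m` -/
def LOC_ok (τ : ZMod N → RT) (m : ZMod N) (v : (tstrip 1 true τ).V) : Prop :=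
  v ≠ hub 1 true τ m ∧ v ≠ hub 1 true τ (m - 1) ∧
    ∀ u, v = lv 1 true τ m u → ¬ LOC_isX1 (τ m) u

theorem LOC_Y_ends (t : RT) (x : (t.loc 1).E) (hx : x ∈ RT.Y t) :
    (∃ u, (t.loc 1).a x = .inl u ∧ LOC_isX1 t u) ∧ ∃ b, (t.loc 1).b x = .inr b := by
  cases t with
  | T => exact absurd hx (Finset.notMem_empty _)
  | G => exact absurd hx (Finset.notMem_empty _)
  | W =>
    replace hx : x ∈ ({(false, .leg ⟨1, by omega⟩), (false, .leg ⟨2, by omega⟩),
      (true, .leg ⟨1, by omega⟩), (true, .leg ⟨2, by omega⟩)} : Finset (Bool × WE 0)) := hx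
    rcases Finset.mem_insert.1 hx with h | h
    · subst h; exact ⟨⟨_, rfl, rfl⟩, _, rfl⟩
    rcases Finset.mem_insert.1 h with h | h
    · subst h; exact ⟨⟨_, rfl, rfl⟩, _, rfl⟩
    rcases Finset.mem_insert.1 h with h | h
    · subst h; exact ⟨⟨_, rfl, rfl⟩, _, rfl⟩
    have h := Finset.mem_singleton.1 h
    subst h; exact ⟨⟨_, rfl, rfl⟩, _, rfl⟩

theorem LOC_ind {τ : ZMod N → RT} {m : ZMod N} {x : ((τ m).loc 1).E} (hx : x ∈ RT.Y (τ m))
    {z : (tstrip 1 true τ).E} (ha : LOC_ok τ m ((tstrip 1 true τ).a z))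
    (hb : LOC_ok τ m ((tstrip 1 true τ).b z)) : (tstrip 1 true τ).Ind (le 1 true τ m x) z := by
  obtain ⟨⟨u, hu, hu'⟩, b, hb'⟩ := LOC_Y_ends (τ m) x hx
  have h1 : (tstrip 1 true τ).a (le 1 true τ m x) = lv 1 true τ m u := by
    show SS93_ve 1 true τ m (((τ m).loc 1).a x) = _
    rw [hu]; rfl
  have h2 : (tstrip 1 true τ).b (le 1 true τ m x) = hub 1 true τ m ∨
      (tstrip 1 true τ).b (le 1 true τ m x) = hub 1 true τ (m - 1) := by
    have h3 : (tstrip 1 true τ).b (le 1 true τ m x) = SS93_ve 1 true τ m (.inr b) := by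
      show SS93_ve 1 true τ m (((τ m).loc 1).b x) = _
      rw [hb']
    cases b
    · exact Or.inr h3
    · exact Or.inl h3
  refine ⟨?_, ?_, ?_, ?_⟩
  · rw [h1]; intro h; exact ha.2.2 u h.symm hu'
  · rw [h1]; intro h; exact hb.2.2 u h.symm hu'
  · intro h
    rcases h2 with h2 | h2
    · exact ha.1 (h.symm.trans h2)
    · exact ha.2.1 (h.symm.trans h2)
  · intro h
    rcases h2 with h2 | h2
    · exact hb.1 (h.symm.trans h2)
    · exact hb.2.1 (h.symm.trans h2)

/-- all hub ends of the edges of `S` are `β` -/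
def LOC_hb (t : RT) (S : Finset (t.loc 1).E) (β : Bool) : Prop :=
  ∀ f ∈ S, ∀ b, ((t.loc 1).a f = .inr b ∨ (t.loc 1).b f = .inr b) → b = β

theorem LOC_ok_lv {τ : ZMod N → RT} {n m : ZMod N} (h : n ≠ m) (u : ((τ n).loc 1).V) :
    LOC_ok τ m (lv 1 true τ n u) := by
  refine ⟨fun h' => SS93_hub_lv h' rfl, ?_, ?_⟩
  · intro h'
    exact SS93_hub_lv h' rfl
  · intro u' h'
    exact absurd (SS93_lv_fst 1 true τ h') h

theorem LOC_ok_hub {τ : ZMod N → RT} {k m : ZMod N} (h : k ≠ m) (h' : k ≠ m - 1) :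
    LOC_ok τ m (hub 1 true τ k) := by
  refine ⟨fun e => h (SS93_hub_hub rfl e), fun e => h' (SS93_hub_hub rfl e), ?_⟩
  intro u e
  exact (SS93_hub_lv rfl e).elim

theorem LOC_reg {τ : ZMod N → RT} {n m : ZMod N} (hnm : n ≠ m) (S : Finset ((τ n).loc 1).E)
    (β : Bool) (hS : LOC_hb (τ n) S β) (h1 : (bif β then n else n - 1) ≠ m)
    (h2 : (bif β then n else n - 1) ≠ m - 1) :
    ∀ z ∈ S.image (le 1 true τ n), LOC_ok τ m ((tstrip 1 true τ).a z) ∧
      LOC_ok τ m ((tstrip 1 true τ).b z) := by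
  intro z hz
  obtain ⟨f, hf, rfl⟩ := Finset.mem_image.1 hz
  have key : ∀ w : ((τ n).loc 1).V ⊕ Bool, (∀ b, w = .inr b → b = β) →
      LOC_ok τ m (SS93_ve 1 true τ n w) := by
    intro w hw
    rcases w with u | b
    · exact LOC_ok_lv hnm u
    · have := hw b rfl
      subst this
      cases b
      · exact LOC_ok_hub h1 h2
      · exact LOC_ok_hub h1 h2
  exact ⟨key _ fun b hb => hS f hf b (Or.inl hb), key _ fun b hb => hS f hf b (Or.inr hb)⟩

/-- the two edges from the exit to the hub `B` -/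
def LOC_CR (t : RT) : Finset (t.loc 1).E := {RT.eR 1 t, RT.rho1 1 t}

/-- the two edges from the entry to the hub `A` -/
def LOC_CL (t : RT) : Finset (t.loc 1).E := {RT.eL 1 t, RT.lam1 1 t}

theorem LOC_CR_sum {M : Type*} [AddCommGroup M] (h2 : ∀ x : M, x + x = 0) (t : RT)
    (g : (t.loc 1).V ⊕ Bool → M) :
    SS93_ls (t.loc 1) g (LOC_CR t) = g (.inl (t.loc 1).ex) + g (.inr true) := by
  cases t with
  | T =>
    refine (Finset.sum_pair (by decide)).trans ?_
    exact (congrArg₂ (· + ·) (add_comm _ _) rfl).trans (SS93_char h2 _ _ _)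
  | G =>
    refine (Finset.sum_pair (by decide)).trans ?_
    exact SS93_char h2 _ _ _
  | W =>
    refine (Finset.sum_pair (by decide)).trans ?_
    exact SS93_char h2 _ _ _

theorem LOC_CL_sum {M : Type*} [AddCommGroup M] (h2 : ∀ x : M, x + x = 0) (t : RT)
    (g : (t.loc 1).V ⊕ Bool → M) :
    SS93_ls (t.loc 1) g (LOC_CL t) = g (.inl (t.loc 1).en) + g (.inr false) := by
  cases t with
  | T =>
    refine (Finset.sum_pair (by decide)).trans ?_
    exact SS93_char h2 _ _ _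
  | G =>
    refine (Finset.sum_pair (by decide)).trans ?_
    exact SS93_char h2 _ _ _
  | W =>
    refine (Finset.sum_pair (by decide)).trans ?_
    exact SS93_char h2 _ _ _

theorem LOC_CR_hb (t : RT) : LOC_hb t (LOC_CR t) true := by
  cases t <;> (unfold LOC_hb; decide)

theorem LOC_CL_hb (t : RT) : LOC_hb t (LOC_CL t) false := by
  cases t <;> (unfold LOC_hb; decide)

/-- the local edges of a non-hub path avoid the vertices `x 1` -/
def LOC_nx (t : RT) (S : Finset (t.loc 1).E) : Prop :=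
  ∀ f ∈ S, (∃ u, (t.loc 1).a f = .inl u ∧ ¬ LOC_isX1 t u) ∧
    ∃ u, (t.loc 1).b f = .inl u ∧ ¬ LOC_isX1 t u

theorem LOC_ES {M : Type*} [AddCommGroup M] (h2 : ∀ x : M, x + x = 0) (t : RT) (ht : t = .W) :
    ∃ (Sr Sl : Finset (t.loc 1).E) (ur ul : (t.loc 1).V),
      (t.loc 1).br = some ur ∧ (t.loc 1).bl = some ul ∧ ¬ LOC_isX1 t ur ∧ ¬ LOC_isX1 t ul ∧
      ¬ LOC_isX1 t (t.loc 1).ex ∧ ¬ LOC_isX1 t (t.loc 1).en ∧
      (∀ g : (t.loc 1).V ⊕ Bool → M, SS93_ls (t.loc 1) g Sr = g (.inl ur) + g (.inl (t.loc 1).ex)) ∧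
      (∀ g : (t.loc 1).V ⊕ Bool → M, SS93_ls (t.loc 1) g Sl = g (.inl ul) + g (.inl (t.loc 1).en)) ∧
      LOC_nx t Sr ∧ LOC_nx t Sl := by
  subst ht
  have hx : ∀ (s : Bool), LOC_nx .W ({(s, .eta), (s, .sig)} : Finset (Bool × WE 0)) := by
    intro s f hf
    rcases Finset.mem_insert.1 hf with h | h
    · subst h
      exact ⟨⟨_, rfl, fun h => by cases h⟩, _, rfl, fun h => by cases h⟩
    · have h := Finset.mem_singleton.1 h
      subst h
      exact ⟨⟨_, rfl, fun h => by cases h⟩, _, rfl, fun h => by cases h⟩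
  refine ⟨({(true, .eta), (true, .sig)} : Finset (Bool × WE 0)),
    ({(false, .eta), (false, .sig)} : Finset (Bool × WE 0)), (true, .v1), (false, .v1), rfl, rfl,
    (fun h => by cases h), (fun h => by cases h), (fun h => by cases h), (fun h => by cases h),
    ?_, ?_, hx _, hx _⟩
  · intro g
    refine (Finset.sum_pair (by intro h; cases h)).trans ?_
    exact SS93_char h2 _ _ _
  · intro g
    refine (Finset.sum_pair (by intro h; cases h)).trans ?_
    exact SS93_char h2 _ _ _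

theorem LOC_T {M : Type*} [AddCommGroup M] (t : RT) (ht : t = .T) :
    (t.loc 1).br = none ∧ (t.loc 1).bl = none ∧
      (∃ S : Finset (t.loc 1).E, (∀ g : (t.loc 1).V ⊕ Bool → M,
        SS93_ls (t.loc 1) g S = g (.inl (t.loc 1).en) + g (.inr true)) ∧ LOC_hb t S true) ∧
      (∃ S : Finset (t.loc 1).E, (∀ g : (t.loc 1).V ⊕ Bool → M,
        SS93_ls (t.loc 1) g S = g (.inl (t.loc 1).ex) + g (.inr false)) ∧ LOC_hb t S false) := by
  subst ht
  refine ⟨rfl, rfl, ⟨({.inl ⟨0, by omega⟩} : Finset (Fin 6 ⊕ Fin 5)), ?_, ?_⟩,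
    ⟨({.inl ⟨5, by omega⟩} : Finset (Fin 6 ⊕ Fin 5)), ?_, ?_⟩⟩
  · intro g
    exact Finset.sum_singleton _ _
  · unfold LOC_hb; decide
  · intro g
    exact Finset.sum_singleton _ _
  · unfold LOC_hb; decide

theorem LOC_T4 {M : Type*} [AddCommGroup M] (h2 : ∀ x : M, x + x = 0) (p : ℕ) (hp : p < 4)
    (g : (TLoc 2).V ⊕ Bool → M) :
    SS93_ls (TLoc 2) g ({.inr ⟨p, by omega⟩, .inr ⟨p + 1, by omega⟩, .inl ⟨p, by omega⟩,
      .inl ⟨p + 2, by omega⟩} : Finset (Fin 6 ⊕ Fin 5)) = 0 := by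
  have h : ∀ F : Fin 6 ⊕ Fin 5 → M, ∑ x ∈ ({.inr ⟨p, by omega⟩, .inr ⟨p + 1, by omega⟩,
      .inl ⟨p, by omega⟩, .inl ⟨p + 2, by omega⟩} : Finset (Fin 6 ⊕ Fin 5)), F x =
      F (.inr ⟨p, by omega⟩) + (F (.inr ⟨p + 1, by omega⟩) + (F (.inl ⟨p, by omega⟩) +
        F (.inl ⟨p + 2, by omega⟩))) := by
    intro F
    rw [Finset.sum_insert (by simp), Finset.sum_insert (by simp), Finset.sum_insert (by simp),
      Finset.sum_singleton]
  refine (h _).trans ?_
  have h3 : (Sum.inr (decide ((p + 2) % 2 = 0)) : (TLoc 2).V ⊕ Bool) =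
      Sum.inr (decide (p % 2 = 0)) := by
    congr 1
    simp
  have h4 := LOC_alg4' h2 (g (.inl (⟨p, by omega⟩ : Fin 6))) (g (.inl (⟨p + 1, by omega⟩ : Fin 6)))
    (g (.inl (⟨p + 2, by omega⟩ : Fin 6))) (g (.inr (decide (p % 2 = 0))))
  have h5 : g (Sum.inr (decide ((p + 2) % 2 = 0)) : (TLoc 2).V ⊕ Bool) =
      g (Sum.inr (decide (p % 2 = 0))) := congrArg g h3
  refine Eq.trans ?_ h4
  rw [← h5]
  exact congrArg₂ (· + ·) rfl (congrArg₂ (· + ·) rfl (congrArg₂ (· + ·) (congrArg₂ (· + ·) rfl h5.symm)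
    (congrArg₂ (· + ·) rfl rfl)))

theorem LOC_rowB {M : Type*} [AddCommGroup M] (h2 : ∀ x : M, x + x = 0) (t : RT) (ht : t = .T)
    (f : (t.loc 1).E) (hf : ¬ RT.gfree 1 t f) :
    f = RT.eR 1 t ∨ ∃ S : Finset (t.loc 1).E, f ∈ S ∧
      (∀ g : (t.loc 1).V ⊕ Bool → M, SS93_ls (t.loc 1) g S = 0) ∧ LOC_hb t S true := by
  subst ht
  have hS : ∀ p : ℕ, ∀ hp : p < 4, p % 2 = 0 → LOC_hb .T ({.inr ⟨p, by omega⟩,
      .inr ⟨p + 1, by omega⟩, .inl ⟨p, by omega⟩, .inl ⟨p + 2, by omega⟩} :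
      Finset (Fin 6 ⊕ Fin 5)) true := by
    intro p hp h
    have : p = 0 ∨ p = 2 := by omega
    rcases this with rfl | rfl
    · clear h; unfold LOC_hb; decide +revert
    · clear h; unfold LOC_hb; decide +revert
  replace hf : ¬ ((f : Fin 6 ⊕ Fin 5).isLeft = true) := hf
  rcases f with i | i
  · exact absurd rfl hf
  · obtain ⟨i, hi⟩ := i
    have : i = 0 ∨ i = 1 ∨ i = 2 ∨ i = 3 ∨ i = 4 := by
      have : i < 5 := hi
      omega
    rcases this with rfl | rfl | rfl | rfl | rfl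
    · exact Or.inr ⟨_, Finset.mem_insert_self _ _, LOC_T4 h2 0 (by omega), hS 0 (by omega) rfl⟩
    · exact Or.inr ⟨_, Finset.mem_insert_of_mem (Finset.mem_insert_self _ _),
        LOC_T4 h2 0 (by omega), hS 0 (by omega) rfl⟩
    · exact Or.inr ⟨_, Finset.mem_insert_self _ _, LOC_T4 h2 2 (by omega), hS 2 (by omega) rfl⟩
    · exact Or.inr ⟨_, Finset.mem_insert_of_mem (Finset.mem_insert_self _ _),
        LOC_T4 h2 2 (by omega), hS 2 (by omega) rfl⟩
    · exact Or.inl rfl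

theorem LOC_rowA {M : Type*} [AddCommGroup M] (h2 : ∀ x : M, x + x = 0) (t : RT) (ht : t = .T)
    (f : (t.loc 1).E) (hf : ¬ RT.gfree 1 t f) :
    f = RT.eL 1 t ∨ ∃ S : Finset (t.loc 1).E, f ∈ S ∧
      (∀ g : (t.loc 1).V ⊕ Bool → M, SS93_ls (t.loc 1) g S = 0) ∧ LOC_hb t S false := by
  subst ht
  have hS : ∀ p : ℕ, ∀ hp : p < 4, p % 2 = 1 → LOC_hb .T ({.inr ⟨p, by omega⟩,
      .inr ⟨p + 1, by omega⟩, .inl ⟨p, by omega⟩, .inl ⟨p + 2, by omega⟩} :
      Finset (Fin 6 ⊕ Fin 5)) false := by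
    intro p hp h
    have : p = 1 ∨ p = 3 := by omega
    rcases this with rfl | rfl
    · clear h; unfold LOC_hb; decide +revert
    · clear h; unfold LOC_hb; decide +revert
  replace hf : ¬ ((f : Fin 6 ⊕ Fin 5).isLeft = true) := hf
  rcases f with i | i
  · exact absurd rfl hf
  · obtain ⟨i, hi⟩ := i
    have : i = 0 ∨ i = 1 ∨ i = 2 ∨ i = 3 ∨ i = 4 := by
      have : i < 5 := hi
      omega
    rcases this with rfl | rfl | rfl | rfl | rfl
    · exact Or.inl rfl
    · exact Or.inr ⟨_, Finset.mem_insert_self _ _, LOC_T4 h2 1 (by omega), hS 1 (by omega) rfl⟩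
    · exact Or.inr ⟨_, Finset.mem_insert_of_mem (Finset.mem_insert_self _ _),
        LOC_T4 h2 1 (by omega), hS 1 (by omega) rfl⟩
    · exact Or.inr ⟨_, Finset.mem_insert_self _ _, LOC_T4 h2 3 (by omega), hS 3 (by omega) rfl⟩
    · exact Or.inr ⟨_, Finset.mem_insert_of_mem (Finset.mem_insert_self _ _),
        LOC_T4 h2 3 (by omega), hS 3 (by omega) rfl⟩

theorem LOC_W (t : RT) (ht : t = .W) (f : (t.loc 1).E) (hf : ¬ RT.gfree 1 t f)
    (hb : ¬ RT.isB1 1 t f) : ∃ s, f ∈ RT.r4 s t ∪ RT.r6 s t := by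
  subst ht
  obtain ⟨s, e⟩ := f
  refine ⟨s, ?_⟩
  replace hf : ¬ (e = .eta ∨ (∃ k : Fin (2 * (1 - 1) + 3), e = .leg k ∧
      (k.1 = 0 ∨ (1 = 1 ∧ k.1 = 1)))) := hf
  replace hb : ¬ (e = .b1) := hb
  cases e with
  | b1 => exact absurd rfl hb
  | b2 => exact Finset.mem_union_left _ (Finset.mem_insert_of_mem (Finset.mem_singleton_self _))
  | eta => exact absurd (Or.inl rfl) hf
  | sig => exact Finset.mem_union_left _ (Finset.mem_insert_self _ _)
  | s3 => exact Finset.mem_union_right _ (Finset.mem_insert_self _ _)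
  | leg k =>
    obtain ⟨k, hk⟩ := k
    have : k = 0 ∨ k = 1 ∨ k = 2 := by
      have : k < 3 := hk
      omega
    rcases this with rfl | rfl | rfl
    · exact absurd (Or.inr ⟨_, rfl, Or.inl rfl⟩) hf
    · exact absurd (Or.inr ⟨_, rfl, Or.inr ⟨rfl, rfl⟩⟩) hf
    · exact Finset.mem_union_right _ (Finset.mem_insert_of_mem (Finset.mem_insert_of_mem
        (Finset.mem_singleton_self _)))
  | row i =>
    obtain ⟨i, hi⟩ := i
    have : i = 0 := by
      have : i < 1 := hi
      omega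
    subst this
    exact Finset.mem_union_right _ (Finset.mem_insert_of_mem (Finset.mem_insert_self _ _))

theorem LOC_r46_hb (t : RT) (s : Bool) : LOC_hb t (RT.r4 s t ∪ RT.r6 s t) (!s) := by
  cases t <;> cases s <;> (unfold LOC_hb; decide)

theorem LOC_bd_union {G : Gph} {s t : Finset G.E} (h : Disjoint s t) :
    G.bd (s ∪ t) = G.bd s + G.bd t := by
  funext v
  exact Finset.sum_union h

theorem LOC_bd_img (τ : ZMod N → RT) (n : ZMod N) (S : Finset ((τ n).loc 1).E) :
    (tstrip 1 true τ).bd (S.image (le 1 true τ n)) =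
      SS93_ls ((τ n).loc 1) (fun x => (tstrip 1 true τ).one (SS93_ve 1 true τ n x)) S := by
  rw [← bdl_chi]
  exact SS93_ls_eq 1 true τ n _

theorem LOC_bd_row (τ : ZMod N → RT) (k : ZMod N) :
    (tstrip 1 true τ).bd {rowE 1 true τ k} = (tstrip 1 true τ).one (lv 1 true τ k ((τ k).loc 1).ex) +
      (tstrip 1 true τ).one (lv 1 true τ (k + 1) ((τ (k + 1)).loc 1).en) := by
  funext v
  exact Finset.sum_singleton _ _

theorem LOC_by_a (τ : ZMod N → RT) (k : ZMod N) :
    (tstrip 1 true τ).a (byE 1 τ k) = byL (fun j => (τ j).loc 1) k := rfl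

theorem LOC_by_b (τ : ZMod N → RT) (k : ZMod N) :
    (tstrip 1 true τ).b (byE 1 τ k) = byR (fun j => (τ j).loc 1) k := rfl

theorem LOC_bd_one (τ : ZMod N → RT) (e : (tstrip 1 true τ).E) :
    (tstrip 1 true τ).bd {e} = (tstrip 1 true τ).one ((tstrip 1 true τ).a e) +
      (tstrip 1 true τ).one ((tstrip 1 true τ).b e) := by
  funext v
  exact Finset.sum_singleton _ _

theorem LOC_byL_some {τ : ZMod N → RT} {k : ZMod N} {u : ((τ k).loc 1).V}
    (h : ((τ k).loc 1).br = some u) : (tstrip 1 true τ).a (byE 1 τ k) = lv 1 true τ k u := by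
  rw [LOC_by_a]
  unfold byL
  simp only [h]
  rfl

theorem LOC_byL_none {τ : ZMod N → RT} {k : ZMod N}
    (h : ((τ k).loc 1).br = none) : (tstrip 1 true τ).a (byE 1 τ k) = hub 1 true τ (k - 1) := by
  rw [LOC_by_a]
  unfold byL
  simp only [h]
  rfl

theorem LOC_byR_some {τ : ZMod N → RT} {k : ZMod N} {u : ((τ (k + 1)).loc 1).V}
    (h : ((τ (k + 1)).loc 1).bl = some u) :
    (tstrip 1 true τ).b (byE 1 τ k) = lv 1 true τ (k + 1) u := by
  rw [LOC_by_b]
  unfold byR
  simp only [h]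
  rfl

theorem LOC_byR_none {τ : ZMod N → RT} {k : ZMod N}
    (h : ((τ (k + 1)).loc 1).bl = none) :
    (tstrip 1 true τ).b (byE 1 τ k) = hub 1 true τ (k + 1) := by
  rw [LOC_by_b]
  unfold byR
  simp only [h]
  rfl

theorem LOC_disj_img {τ : ZMod N → RT} {n k : ZMod N} (h : n ≠ k) (S : Finset ((τ n).loc 1).E)
    (S' : Finset ((τ k).loc 1).E) :
    Disjoint (S.image (le 1 true τ n)) (S'.image (le 1 true τ k)) := by
  rw [Finset.disjoint_left]
  intro z hz hz'
  obtain ⟨x, -, rfl⟩ := Finset.mem_image.1 hz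
  obtain ⟨y, -, hy⟩ := Finset.mem_image.1 hz'
  have h1 : (⟨k, y⟩ : Σ j, ((τ j).loc 1).E) = ⟨n, x⟩ := Sum.inl.inj hy
  exact h (congrArg Sigma.fst h1).symm

theorem LOC_disj_row {τ : ZMod N → RT} {n k : ZMod N} (S : Finset ((τ n).loc 1).E) :
    Disjoint (S.image (le 1 true τ n)) {rowE 1 true τ k} := by
  rw [Finset.disjoint_singleton_right]
  intro hz
  obtain ⟨x, -, hx⟩ := Finset.mem_image.1 hz
  cases hx

theorem LOC_disj_by {τ : ZMod N → RT} {n k : ZMod N} (S : Finset ((τ n).loc 1).E) :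
    Disjoint (S.image (le 1 true τ n)) {byE 1 τ k} := by
  rw [Finset.disjoint_singleton_right]
  intro hz
  obtain ⟨x, -, hx⟩ := Finset.mem_image.1 hz
  cases hx

theorem LOC_disj_row_by {τ : ZMod N → RT} {k l : ZMod N} :
    Disjoint ({rowE 1 true τ k} : Finset (tstrip 1 true τ).E) {byE 1 τ l} := by
  rw [Finset.disjoint_singleton]
  intro h
  cases h

/-- a cycle which avoids `Y` -/
def LOC_good (τ : ZMod N → RT) (m : ZMod N) (Z : Finset (tstrip 1 true τ).E) : Prop :=
  (tstrip 1 true τ).bd Z = 0 ∧ ∀ z ∈ Z, LOC_ok τ m ((tstrip 1 true τ).a z) ∧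
    LOC_ok τ m ((tstrip 1 true τ).b z)

theorem LOC_C {τ : ZMod N → RT} (h1 : (1 : ZMod N) ≠ 0) {m k : ZMod N} (hk : k ≠ m)
    (hk' : k ≠ m - 1) :
    LOC_good τ m ((LOC_CR (τ k)).image (le 1 true τ k) ∪
      ((LOC_CL (τ (k + 1))).image (le 1 true τ (k + 1)) ∪ {rowE 1 true τ k})) := by
  have hkk : k ≠ k + 1 := fun h => h1 (by linear_combination -h)
  have hkm : k + 1 ≠ m := fun h => hk' (by linear_combination h)
  constructor
  · rw [LOC_bd_union, LOC_bd_union, LOC_bd_img, LOC_bd_img, LOC_CR_sum SS93_two,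
      LOC_CL_sum SS93_two, LOC_bd_row]
    · have h3 : SS93_ve 1 true τ (k + 1) (.inr false) = SS93_ve 1 true τ k (.inr true) := by
        show hub 1 true τ (k + 1 - 1) = hub 1 true τ k
        rw [add_sub_cancel_right]
      rw [h3]
      have h4 : ∀ X H E : (tstrip 1 true τ).V → ZMod 2, (X + H) + ((E + H) + (X + E)) = 0 := by
        intro X H E
        have : (X + H) + ((E + H) + (X + E)) = (X + X) + (H + H) + (E + E) := by abel
        rw [this]
        simp only [SS93_two]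
      exact h4 _ _ _
    · exact LOC_disj_row _
    · rw [Finset.disjoint_union_right]
      exact ⟨LOC_disj_img hkk _ _, LOC_disj_row _⟩
  · intro z hz
    rcases Finset.mem_union.1 hz with hz | hz
    · exact LOC_reg hk _ true (LOC_CR_hb _) hk hk' z hz
    rcases Finset.mem_union.1 hz with hz | hz
    · refine LOC_reg hkm _ false (LOC_CL_hb _) ?_ ?_ z hz
      · show k + 1 - 1 ≠ m
        rwa [add_sub_cancel_right]
      · show k + 1 - 1 ≠ m - 1
        rwa [add_sub_cancel_right]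
    · have := Finset.mem_singleton.1 hz
      subst this
      exact ⟨LOC_ok_lv hk _, LOC_ok_lv hkm _⟩

theorem LOC_ok_lv' {τ : ZMod N → RT} {m : ZMod N} {u : ((τ m).loc 1).V}
    (hu : ¬ LOC_isX1 (τ m) u) : LOC_ok τ m (lv 1 true τ m u) := by
  refine ⟨fun h' => SS93_hub_lv h' rfl, fun h' => SS93_hub_lv h' rfl, ?_⟩
  intro u' h'
  rw [← SS93_lv_inj 1 true τ m h']
  exact hu

theorem LOC_nx_ok {τ : ZMod N → RT} {m : ZMod N} {S : Finset ((τ m).loc 1).E}
    (hS : LOC_nx (τ m) S) : ∀ z ∈ S.image (le 1 true τ m),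
      LOC_ok τ m ((tstrip 1 true τ).a z) ∧ LOC_ok τ m ((tstrip 1 true τ).b z) := by
  intro z hz
  obtain ⟨f, hf, rfl⟩ := Finset.mem_image.1 hz
  obtain ⟨⟨u, hu, hu'⟩, ⟨w, hw, hw'⟩⟩ := hS f hf
  constructor
  · show LOC_ok τ m (SS93_ve 1 true τ m (((τ m).loc 1).a f))
    rw [hu]
    exact LOC_ok_lv' hu'
  · show LOC_ok τ m (SS93_ve 1 true τ m (((τ m).loc 1).b f))
    rw [hw]
    exact LOC_ok_lv' hw'

theorem LOC_row_m {τ : ZMod N → RT} (h1 : (1 : ZMod N) ≠ 0) (h2 : (2 : ZMod N) ≠ 0) {m : ZMod N}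
    (hm : τ m = .W) (hT : τ (m + 1) = .T) :
    ∃ Z, rowE 1 true τ m ∈ Z ∧ LOC_good τ m Z := by
  obtain ⟨Sr, -, ur, -, hbr, -, nur, -, nex, -, sumr, -, nxr, -⟩ :=
    LOC_ES (M := (tstrip 1 true τ).V → ZMod 2) SS93_two (τ m) hm
  obtain ⟨-, hTl, ⟨S0, hS0, hS0b⟩, -⟩ := LOC_T (M := (tstrip 1 true τ).V → ZMod 2) (τ (m + 1)) hT
  have hmm : m ≠ m + 1 := fun h => h1 (by linear_combination -h)
  have hmm1 : m + 1 ≠ m - 1 := fun h => h2 (by linear_combination h)
  refine ⟨Sr.image (le 1 true τ m) ∪ (S0.image (le 1 true τ (m + 1)) ∪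
    ({rowE 1 true τ m} ∪ {byE 1 τ m})), ?_, ?_, ?_⟩
  · exact Finset.mem_union_right _ (Finset.mem_union_right _ (Finset.mem_union_left _
      (Finset.mem_singleton_self _)))
  · rw [LOC_bd_union, LOC_bd_union, LOC_bd_union, LOC_bd_img, LOC_bd_img, sumr, hS0, LOC_bd_row,
      LOC_bd_one, LOC_byL_some hbr, LOC_byR_none hTl]
    · have h4 : ∀ U X E H : (tstrip 1 true τ).V → ZMod 2,
          (U + X) + ((E + H) + ((X + E) + (U + H))) = 0 := by
        intro U X E H
        have : (U + X) + ((E + H) + ((X + E) + (U + H))) =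
          (U + U) + (X + X) + (H + H) + (E + E) := by abel
        rw [this]
        simp only [SS93_two]
      exact h4 _ _ _ _
    · exact LOC_disj_row_by
    · rw [Finset.disjoint_union_right]
      exact ⟨LOC_disj_row _, LOC_disj_by _⟩
    · rw [Finset.disjoint_union_right, Finset.disjoint_union_right]
      exact ⟨LOC_disj_img hmm _ _, LOC_disj_row _, LOC_disj_by _⟩
  · intro z hz
    rcases Finset.mem_union.1 hz with hz | hz
    · exact LOC_nx_ok nxr z hz
    rcases Finset.mem_union.1 hz with hz | hz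
    · exact LOC_reg hmm.symm _ true hS0b hmm.symm hmm1 z hz
    rcases Finset.mem_union.1 hz with hz | hz
    · have := Finset.mem_singleton.1 hz
      subst this
      exact ⟨LOC_ok_lv' nex, LOC_ok_lv hmm.symm _⟩
    · have := Finset.mem_singleton.1 hz
      subst this
      rw [LOC_byL_some hbr, LOC_byR_none hTl]
      exact ⟨LOC_ok_lv' nur, LOC_ok_hub hmm.symm hmm1⟩

theorem LOC_row_m' {τ : ZMod N → RT} (h1 : (1 : ZMod N) ≠ 0) (h2 : (2 : ZMod N) ≠ 0) {n : ZMod N}
    (hm : τ (n + 1) = .W) (hT : τ n = .T) :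
    ∃ Z, rowE 1 true τ n ∈ Z ∧ LOC_good τ (n + 1) Z := by
  obtain ⟨-, Sl, -, ul, -, hbl, -, nul, -, nen, -, suml, -, nxl⟩ :=
    LOC_ES (M := (tstrip 1 true τ).V → ZMod 2) SS93_two (τ (n + 1)) hm
  obtain ⟨hTr, -, -, ⟨S5, hS5, hS5b⟩⟩ := LOC_T (M := (tstrip 1 true τ).V → ZMod 2) (τ n) hT
  have hmm : n ≠ n + 1 := fun h => h1 (by linear_combination -h)
  have hmm1 : n - 1 ≠ n + 1 := fun h => h2 (by linear_combination -h)
  have hmm2 : n - 1 ≠ n + 1 - 1 := fun h => h1 (by linear_combination -h)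
  refine ⟨Sl.image (le 1 true τ (n + 1)) ∪ (S5.image (le 1 true τ n) ∪
    ({rowE 1 true τ n} ∪ {byE 1 τ n})), ?_, ?_, ?_⟩
  · exact Finset.mem_union_right _ (Finset.mem_union_right _ (Finset.mem_union_left _
      (Finset.mem_singleton_self _)))
  · rw [LOC_bd_union, LOC_bd_union, LOC_bd_union, LOC_bd_img, LOC_bd_img, suml, hS5, LOC_bd_row,
      LOC_bd_one, LOC_byL_none hTr, LOC_byR_some hbl]
    · have h4 : ∀ U X E H : (tstrip 1 true τ).V → ZMod 2,
          (U + E) + ((X + H) + ((X + E) + (H + U))) = 0 := by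
        intro U X E H
        have : (U + E) + ((X + H) + ((X + E) + (H + U))) =
          (U + U) + (X + X) + (H + H) + (E + E) := by abel
        rw [this]
        simp only [SS93_two]
      exact h4 _ _ _ _
    · exact LOC_disj_row_by
    · rw [Finset.disjoint_union_right]
      exact ⟨LOC_disj_row _, LOC_disj_by _⟩
    · rw [Finset.disjoint_union_right, Finset.disjoint_union_right]
      exact ⟨LOC_disj_img hmm.symm _ _, LOC_disj_row _, LOC_disj_by _⟩
  · intro z hz
    rcases Finset.mem_union.1 hz with hz | hz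
    · exact LOC_nx_ok nxl z hz
    rcases Finset.mem_union.1 hz with hz | hz
    · exact LOC_reg hmm _ false hS5b hmm1 hmm2 z hz
    rcases Finset.mem_union.1 hz with hz | hz
    · have := Finset.mem_singleton.1 hz
      subst this
      exact ⟨LOC_ok_lv hmm _, LOC_ok_lv' nen⟩
    · have := Finset.mem_singleton.1 hz
      subst this
      rw [LOC_byL_none hTr, LOC_byR_some hbl]
      exact ⟨LOC_ok_hub hmm1 hmm2, LOC_ok_lv' nul⟩

theorem local_cycle (hN : 16 ≤ N) {τ : ZMod N → RT} (hG : ∀ j, τ j ≠ .G)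
    (hadj : ∀ j, τ j = .W → τ (j + 1) = .T ∧ τ (j - 1) = .T) (m : ZMod N) (hm : τ m = .W)
    (y : (tstrip 1 true τ).E) (hy : ∀ f, y ≠ le 1 true τ m f) (hB : ¬ ByT 1 true τ y)
    (hF : ¬ FT1 τ y) :
    ∃ Z : Finset (tstrip 1 true τ).E, y ∈ Z ∧ (tstrip 1 true τ).bd Z = 0 ∧
      ∀ x ∈ RT.Y (τ m), ∀ z ∈ Z, (tstrip 1 true τ).Ind (le 1 true τ m x) z := by
  have h1 : (1 : ZMod N) ≠ 0 := by
    intro h
    have := SS93_cast (N := N) (x := 1) (y := 0) (by push_cast; exact h) (by omega) (by omega)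
    omega
  have h2 : (2 : ZMod N) ≠ 0 := by
    intro h
    have := SS93_cast (N := N) (x := 2) (y := 0) (by push_cast; exact h) (by omega) (by omega)
    omega
  suffices h : ∃ Z, y ∈ Z ∧ LOC_good τ m Z by
    obtain ⟨Z, hZ, hZ1, hZ2⟩ := h
    exact ⟨Z, hZ, hZ1, fun x hx z hz => LOC_ind hx (hZ2 z hz).1 (hZ2 z hz).2⟩
  rcases y with ⟨n, f⟩ | k | ⟨k, hk⟩
  · have hnm : n ≠ m := by
      rintro rfl
      exact hy f rfl
    have hf : ¬ RT.gfree 1 (τ n) f := fun h => hF ⟨n, f, h, rfl⟩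
    have hb : ¬ RT.isB1 1 (τ n) f := hB
    have hcase : τ n = .T ∨ τ n = .W := by
      cases h : τ n with
      | T => exact Or.inl rfl
      | G => exact absurd h (hG n)
      | W => exact Or.inr rfl
    rcases hcase with hT | hW
    · by_cases hn : n = m - 1
      · rcases LOC_rowA (M := (tstrip 1 true τ).V → ZMod 2) SS93_two (τ n) hT f hf with h | h
        · obtain ⟨k, rfl⟩ : ∃ k, n = k + 1 := ⟨n - 1, by ring⟩
          subst h
          refine ⟨_, ?_, LOC_C h1 (m := m) (k := k) (fun h => h2 (by linear_combination hn - h)) (fun h => ?_)⟩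
          · exact Finset.mem_union_right _ (Finset.mem_union_left _ (Finset.mem_image_of_mem _
              (Finset.mem_insert_self _ _)))
          · exact h1 (by linear_combination hn - h)
        · obtain ⟨S, hS, hS1, hS2⟩ := h
          refine ⟨S.image (le 1 true τ n), Finset.mem_image_of_mem _ hS, ?_, ?_⟩
          · rw [LOC_bd_img]; exact hS1 _
          · refine LOC_reg hnm S false hS2 ?_ ?_
            · show n - 1 ≠ m
              exact fun h => h2 (by linear_combination hn - h)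
            · show n - 1 ≠ m - 1
              exact fun h => hnm (by linear_combination h)
      · rcases LOC_rowB (M := (tstrip 1 true τ).V → ZMod 2) SS93_two (τ n) hT f hf with h | h
        · subst h
          refine ⟨_, ?_, LOC_C h1 (m := m) (k := n) hnm hn⟩
          exact Finset.mem_union_left _ (Finset.mem_image_of_mem _ (Finset.mem_insert_self _ _))
        · obtain ⟨S, hS, hS1, hS2⟩ := h
          refine ⟨S.image (le 1 true τ n), Finset.mem_image_of_mem _ hS, ?_, ?_⟩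
          · rw [LOC_bd_img]; exact hS1 _
          · exact LOC_reg hnm S true hS2 hnm hn
    · obtain ⟨s, hs⟩ := LOC_W (τ n) hW f hf hb
      refine ⟨(RT.r4 s (τ n) ∪ RT.r6 s (τ n)).image (le 1 true τ n), Finset.mem_image_of_mem _ hs,
        r46_cycle (by omega) τ n s, ?_⟩
      refine LOC_reg hnm _ (!s) (LOC_r46_hb _ _) ?_ ?_
      · cases s
        · exact hnm
        · show n - 1 ≠ m
          intro h
          have : n = m + 1 := by linear_combination h
          rw [this, (hadj m hm).1] at hW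
          cases hW
      · cases s
        · show n ≠ m - 1
          intro h
          rw [h, (hadj m hm).2] at hW
          cases hW
        · show n - 1 ≠ m - 1
          exact fun h => hnm (by linear_combination h)
  · by_cases hk : k = m
    · subst hk
      exact LOC_row_m h1 h2 hm (hadj k hm).1
    · by_cases hk' : k = m - 1
      · obtain ⟨n, rfl⟩ : ∃ n, m = n + 1 := ⟨m - 1, by ring⟩
        have hkn : k = n := by rw [hk']; ring
        subst hkn
        have hT := (hadj _ hm).2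
        rw [add_sub_cancel_right] at hT
        exact LOC_row_m' h1 h2 hm hT
      · refine ⟨_, ?_, LOC_C h1 (m := m) (k := k) hk hk'⟩
        exact Finset.mem_union_right _ (Finset.mem_union_right _ (Finset.mem_singleton_self _))
  · exact absurd trivial hB

end Pool.Agent.CC
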