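import Pool.Agent.Lib_helper74.CCF.STF
import Pool.Agent.Lib_helper74.CCF.C3
import Pool.Agent.Lib_helper74.CCF.FCA
import Pool.Agent.Lib_helper74.CCF.F2final

/-! # The main theorem -/

namespace Pool.Agent.CC

open Gph

theorem port_T {M : ℕ} (hM : 3 ≤ M) (q : ℕ) (hq : 1 ≤ q) (c : Bool) (τ : ZMod (2 * M + 1) → RT)
    (K : ℕ) (hK : K = q + 2 + if c then 3 else 0)
    (j : ZMod (2 * M + 1)) (hj : τ j = .T) : STF.PortAt q c τ K j := by
  subst hK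
  obtain ⟨v, p, ⟨u, hu⟩, hp⟩ := tripods_T (N := 2 * M + 1) (by omega) q hq c τ j hj
  refine ⟨v, p, ⟨u, hu⟩, hp, fun t => ?_⟩
  refine crossed_T (by omega) (by omega) q c τ j hj u (p.e t) ?_
  rcases p.ends t with ⟨h, -⟩ | ⟨-, h⟩
  · exact Or.inl (h.trans hu)
  · exact Or.inr (h.trans hu)

theorem port_G {M : ℕ} (hM : 3 ≤ M) (c : Bool) (τ : ZMod (2 * M + 1) → RT)
    (K : ℕ) (hK : K = 0 + 2 + if c then 3 else 0)
    (j : ZMod (2 * M + 1)) (hj : τ j = .G) (hl : τ (j - 1) = .T) (hr : τ (j + 1) = .T) :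
    STF.PortAt 0 c τ K j := by
  subst hK
  obtain ⟨v, p, ⟨u, hu, hu'⟩, hp⟩ := tripods_G (N := 2 * M + 1) (by omega) 0 c τ j hj hl hr
  refine ⟨v, p, ⟨u, hu⟩, hp, fun t => ?_⟩
  refine crossed_G (by omega) (by omega) c τ j hj u hu' (p.e t) ?_
  rcases p.ends t with ⟨h, -⟩ | ⟨-, h⟩
  · exact Or.inl (h.trans hu)
  · exact Or.inr (h.trans hu)

theorem port_alt (q : ℕ) (c : Bool) (K : ℕ) (hK : K = q + 2 + if c then 3 else 0) :
    ∃ k, k + 2 ≤ 5 ∧ ∀ M, 3 ≤ M → ∀ i : ℕ, i = k ∨ i = k + 2 →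
      STF.PortAt q c (altType M .G) K ((i : ℕ) : ZMod (2 * M + 1)) := by
  rcases Nat.eq_zero_or_pos q with rfl | hq
  · refine ⟨1, by omega, fun M hM i hi => ?_⟩
    obtain ⟨h1, h2, h3⟩ := STF.alt_odd .G M hM i hi
    exact port_G hM c _ K hK _ h1 h2 h3
  · refine ⟨0, by omega, fun M hM i hi => ?_⟩
    exact port_T hM q hq c _ K hK _ (STF.alt_even .G M hM i hi)

theorem degFamily_F0 (q : ℕ) : DegFamily (3 * q + 5) (q + 2) := by
  obtain ⟨k, hk, hp⟩ := port_alt q false (q + 2) (by simp)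
  exact STF.degFamily_F0_of q (F0_conn q) ⟨_, F0_lb' q⟩ (F0_fc q) k hk hp

theorem degFamily_F1 (q : ℕ) : DegFamily (3 * q + 7) (q + 5) := by
  obtain ⟨k, hk, hp⟩ := port_alt q true (q + 5) (by simp)
  exact STF.degFamily_F1_of q (F1_conn q) ⟨_, F1_lb' q⟩ (F1_fc q) k hk hp

theorem degFamily_F2 (q : ℕ) : DegFamily (3 * q + 9) (q + 6) := by
  refine STF.degFamily_F2_of q (F2_conn q) ⟨_, F2_lb' q⟩ (F2_fc q) 0 (by omega) ?_
  intro M hM i hi
  exact port_T hM (q + 1) (by omega) true _ (q + 6) (by simp) _ (STF.alt_even .W M hM i hi)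

theorem degFamily_six : DegFamily 6 3 := by
  refine STF.degFamily_six_of (FT_conn 1) ⟨_, FT_lb' 1⟩ (FT_fc 1) 0 (by omega) ?_
  intro M hM i hi
  exact port_T hM 1 le_rfl false _ 3 (by simp) _ rfl

theorem main : MainStatement :=
  STF.main_of degFamily_F0 degFamily_F1 degFamily_F2 degFamily_six

end Pool.Agent.CC
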