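import Pool.Agent.Lib_helper74.CCF.Phi
import Pool.Agent.Lib_helper74.CCF.SSlots

/-! PLUS3. -/

namespace Pool.Agent.CC

open Gph

/-! ### local facts -/

/-- the edge `b1` of part `s` (only in `W`) -/
def P3_b1s (q : ℕ) (s : Bool) : (t : RT) → Finset (t.loc q).E
  | .T => (∅ : Finset (Fin _ ⊕ Fin _))
  | .G => (∅ : Finset (Bool × (Fin _ ⊕ Fin _)))
  | .W => ({(s, .b1)} : Finset (Bool × WE (q - 1)))

theorem P3_br_some (q : ℕ) (t : RT) (v : (t.loc q).V) (h : (t.loc q).br = some v) :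
    ∃ e, P3_b1s q true t = {e} ∧ (t.loc q).a e = .inl v ∧ (t.loc q).b e = .inr false := by
  cases t with
  | T => exact absurd h (by simp [RT.loc, TLoc])
  | G => exact absurd h (by simp [RT.loc, GLoc])
  | W =>
    refine ⟨((true, .b1) : Bool × WE (q - 1)), rfl, ?_, rfl⟩
    have h' : (some (true, WV.v1) : Option (Bool × WV (q - 1))) = some v := h
    exact congrArg Sum.inl (Option.some.inj h')

theorem P3_bl_some (q : ℕ) (t : RT) (v : (t.loc q).V) (h : (t.loc q).bl = some v) :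
    ∃ e, P3_b1s q false t = {e} ∧ (t.loc q).a e = .inl v ∧ (t.loc q).b e = .inr true := by
  cases t with
  | T => exact absurd h (by simp [RT.loc, TLoc])
  | G => exact absurd h (by simp [RT.loc, GLoc])
  | W =>
    refine ⟨((false, .b1) : Bool × WE (q - 1)), rfl, ?_, rfl⟩
    have h' : (some (false, WV.v1) : Option (Bool × WV (q - 1))) = some v := h
    exact congrArg Sum.inl (Option.some.inj h')

theorem P3_br_none (q : ℕ) (t : RT) (h : (t.loc q).br = none) : P3_b1s q true t = ∅ := by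
  cases t with
  | T => rfl
  | G => rfl
  | W => exact absurd h (by simp [RT.loc, WLoc])

theorem P3_bl_none (q : ℕ) (t : RT) (h : (t.loc q).bl = none) : P3_b1s q false t = ∅ := by
  cases t with
  | T => rfl
  | G => rfl
  | W => exact absurd h (by simp [RT.loc, WLoc])

theorem P3_T_none (q : ℕ) (t : RT) (h : t = .T) : (t.loc q).bl = none ∧ (t.loc q).br = none := by
  subst h
  exact ⟨rfl, rfl⟩

theorem P3_bl_br (q : ℕ) (t : RT) (u : (t.loc q).V) (h : (t.loc q).bl = some u)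
    (h' : (t.loc q).br = some u) : False := by
  cases t with
  | T => exact absurd h (by simp [RT.loc, TLoc])
  | G => exact absurd h (by simp [RT.loc, GLoc])
  | W =>
    have h1 : (some (false, WV.v1) : Option (Bool × WV (q - 1))) = some u := h
    have h2 : (some (true, WV.v1) : Option (Bool × WV (q - 1))) = some u := h'
    have := Option.some.inj (h1.trans h2.symm)
    exact absurd (congrArg Prod.fst this) (by simp)

theorem P3_by_ex (q : ℕ) (t : RT) : (t.loc q).bl ≠ some (t.loc q).ex ∧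
    (t.loc q).br ≠ some (t.loc q).ex ∧ (t.loc q).bl ≠ some (t.loc q).en ∧
    (t.loc q).br ≠ some (t.loc q).en := by
  cases t with
  | T => exact ⟨fun h => (nomatch h), fun h => (nomatch h), fun h => (nomatch h), fun h => (nomatch h)⟩
  | G => exact ⟨fun h => (nomatch h), fun h => (nomatch h), fun h => (nomatch h), fun h => (nomatch h)⟩
  | W =>
    refine ⟨fun h => ?_, fun h => ?_, fun h => ?_, fun h => ?_⟩
    · have h' : (some (false, WV.v1) : Option (Bool × WV (q - 1))) = some (true, WV.w) := h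
      simp at h'
    · have h' : (some (true, WV.v1) : Option (Bool × WV (q - 1))) = some (true, WV.w) := h
      simp at h'
    · have h' : (some (false, WV.v1) : Option (Bool × WV (q - 1))) = some (false, WV.w) := h
      simp at h'
    · have h' : (some (true, WV.v1) : Option (Bool × WV (q - 1))) = some (false, WV.w) := h
      simp at h'

theorem P3_T_en_ex (q : ℕ) (t : RT) (h : t = .T) : (t.loc q).en ≠ (t.loc q).ex := by
  subst h
  intro h
  have h' : (⟨0, by omega⟩ : Fin (2 * (q + 1) + 2)) = ⟨2 * (q + 1) + 1, by omega⟩ := h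
  have := congrArg Fin.val h'
  simp at this

/-- `isB1` edges start at a bypass vertex -/
theorem P3_isB1 (q : ℕ) (t : RT) (e : (t.loc q).E) (h : RT.isB1 q t e) :
    ∃ u, ((t.loc q).bl = some u ∨ (t.loc q).br = some u) ∧ (t.loc q).a e = .inl u := by
  cases t with
  | T => exact h.elim
  | G => exact h.elim
  | W =>
    obtain ⟨s, e'⟩ := e
    have h' : e' = WE.b1 := h
    subst h'
    refine ⟨((s, WV.v1) : Bool × WV (q - 1)), ?_, rfl⟩
    cases s
    · exact Or.inl rfl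
    · exact Or.inr rfl

theorem P3_b1s_isB1 (q : ℕ) (s : Bool) (t : RT) (e : (t.loc q).E) (h : e ∈ P3_b1s q s t) :
    RT.isB1 q t e := by
  cases t with
  | T => exact absurd h (Finset.notMem_empty _)
  | G => exact absurd h (Finset.notMem_empty _)
  | W =>
    have h' := (Finset.mem_singleton (α := Bool × WE (q - 1))).1 h
    subst h'
    rfl

/-- a local end is not the hub `β`, and not a bypass vertex -/
def P3_ok (q : ℕ) (t : RT) (β : Bool) (x : (t.loc q).V ⊕ Bool) : Prop :=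
  x ≠ .inr β ∧ ∀ u, x = .inl u → (t.loc q).bl ≠ some u ∧ (t.loc q).br ≠ some u

theorem P3_okT (q : ℕ) (β : Bool) (u : (RT.T.loc q).V) : P3_ok q .T β (.inl u) :=
  ⟨fun h => (nomatch h), fun _ _ => ⟨fun h => (nomatch h), fun h => (nomatch h)⟩⟩

theorem P3_okG (q : ℕ) (β : Bool) (u : (RT.G.loc q).V) : P3_ok q .G β (.inl u) :=
  ⟨fun h => (nomatch h), fun _ _ => ⟨fun h => (nomatch h), fun h => (nomatch h)⟩⟩

theorem P3_okW (q : ℕ) (β : Bool) (s : Bool) (w' : WV (q - 1)) (hw : w' ≠ .v1) :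
    P3_ok q .W β (.inl ((s, w') : Bool × WV (q - 1))) := by
  refine ⟨fun h => (nomatch h), fun u hu => ⟨fun h => ?_, fun h => ?_⟩⟩
  · have h1 : (some (false, WV.v1) : Option (Bool × WV (q - 1))) = some u := h
    have h2 : ((s, w') : Bool × WV (q - 1)) = u := Sum.inl.inj hu
    rw [← h2] at h1
    exact hw (congrArg Prod.snd (Option.some.inj h1)).symm
  · have h1 : (some (true, WV.v1) : Option (Bool × WV (q - 1))) = some u := h
    have h2 : ((s, w') : Bool × WV (q - 1)) = u := Sum.inl.inj hu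
    rw [← h2] at h1
    exact hw (congrArg Prod.snd (Option.some.inj h1)).symm

theorem P3_okH (q : ℕ) (t : RT) (β γ : Bool) (h : γ ≠ β) : P3_ok q t β (.inr γ) :=
  ⟨fun h' => h (Sum.inr.inj h'), fun _ h' => (nomatch h')⟩

/-- both ends of an edge are ok -/
def P3_oke (q : ℕ) (t : RT) (β : Bool) (e : (t.loc q).E) : Prop :=
  P3_ok q t β ((t.loc q).a e) ∧ P3_ok q t β ((t.loc q).b e)

theorem P3_rowsG (q : ℕ) (β s : Bool) (e : (RT.G.loc q).E) (h : e ∈ RT.rows q s .G) :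
    P3_oke q .G β e := by
  have h' := (Finset.mem_filter (α := Bool × (Fin (2 * q + 3) ⊕ Fin (2 * q + 1)))).1 h
  obtain ⟨s', e | e⟩ := e
  · exact absurd h'.2.2 (by simp)
  · exact ⟨P3_okG _ _ _, P3_okG _ _ _⟩

theorem P3_rowsW (q : ℕ) (β s : Bool) (e : (RT.W.loc q).E) (h : e ∈ RT.rows q s .W) :
    P3_oke q .W β e := by
  have h' := (Finset.mem_filter (α := Bool × WE (q - 1))).1 h
  obtain ⟨s', e⟩ := e
  rcases h'.2.2 with h1 | ⟨i, h1⟩
  · have h1' : e = .s3 := h1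
    subst h1'
    exact ⟨P3_okW _ _ _ _ (by simp), P3_okW _ _ _ _ (by simp)⟩
  · have h1' : e = .row i := h1
    subst h1'
    exact ⟨P3_okW _ _ _ _ (by simp), P3_okW _ _ _ _ (by simp)⟩

theorem P3_mem_lowT {q m : ℕ} {e} : e ∈ RT.lowT q m ↔ ∃ i : Fin (2 * (q + 1) + 1), i.1 < m ∧
    e = .inr i := by
  simp only [RT.lowT, Finset.mem_map, Finset.mem_filter, Finset.mem_univ, true_and,
    Function.Embedding.coeFn_mk, eq_comm]

theorem P3_mem_highT {q m : ℕ} {e} : e ∈ RT.highT q m ↔ ∃ i : Fin (2 * (q + 1) + 1), m ≤ i.1 ∧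
    e = .inr i := by
  simp only [RT.highT, Finset.mem_map, Finset.mem_filter, Finset.mem_univ, true_and,
    Function.Embedding.coeFn_mk, eq_comm]

theorem P3_mem_legT {q m : ℕ} {e} : e ∈ RT.legT q m ↔ ∃ i : Fin (2 * (q + 1) + 2), i.1 = m ∧
    e = .inl i := by
  simp only [RT.legT, Finset.mem_map, Finset.mem_filter, Finset.mem_univ, true_and,
    Function.Embedding.coeFn_mk, eq_comm]

theorem P3_row_ok (q : ℕ) (β : Bool) (i : Fin (2 * (q + 1) + 1)) :
    P3_oke q .T β (.inr i : Fin (2 * (q + 1) + 2) ⊕ Fin (2 * (q + 1) + 1)) :=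
  ⟨P3_okT _ _ _, P3_okT _ _ _⟩

theorem P3_leg_ok (q : ℕ) (β : Bool) (i : Fin (2 * (q + 1) + 2)) (h : decide (i.1 % 2 = 0) ≠ β) :
    P3_oke q .T β (.inl i : Fin (2 * (q + 1) + 2) ⊕ Fin (2 * (q + 1) + 1)) :=
  ⟨P3_okT _ _ _, P3_okH _ _ _ _ h⟩

theorem P3_B (q : ℕ) (t : RT) (e : (t.loc q).E) (h : e ∈ RT.eB q 0 t ∨ e ∈ RT.sB q 0 t) :
    P3_oke q t false e := by
  cases t with
  | T =>
    change (Fin (2 * (q + 1) + 2) ⊕ Fin (2 * (q + 1) + 1)) at e
    have h' : e ∈ RT.lowT q (2 * 0) ∪ RT.legT q (2 * 0) ∨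
      e ∈ RT.highT q (2 * 0) ∪ RT.legT q (2 * 0) := h
    simp only [Finset.mem_union, P3_mem_lowT, P3_mem_highT, P3_mem_legT] at h'
    rcases h' with (⟨i, -, rfl⟩ | ⟨i, hi, rfl⟩) | (⟨i, -, rfl⟩ | ⟨i, hi, rfl⟩)
    · exact P3_row_ok _ _ _
    · exact P3_leg_ok _ _ _ (by rw [hi]; decide)
    · exact P3_row_ok _ _ _
    · exact P3_leg_ok _ _ _ (by rw [hi]; decide)
  | G =>
    rcases h with h | h
    · rcases Finset.mem_union.1 h with h | h
      · exact P3_rowsG _ _ _ _ h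
      · rw [Finset.mem_singleton.1 h]
        refine ⟨P3_okG _ _ _, P3_okH _ _ _ _ ?_⟩
        simp
    · rcases Finset.mem_union.1 h with h | h
      · exact P3_rowsG _ _ _ _ h
      · rw [Finset.mem_singleton.1 h]
        refine ⟨P3_okG _ _ _, P3_okH _ _ _ _ ?_⟩
        have : ¬ (2 * q + 1) % 2 = 0 := by omega
        simp [this]
  | W =>
    rcases h with h | h
    · rcases Finset.mem_union.1 h with h | h
      · exact P3_rowsW _ _ _ _ h
      · rw [Finset.mem_singleton.1 h]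
        refine ⟨P3_okW _ _ _ _ (by simp), P3_okH _ _ _ _ ?_⟩
        simp
    · rcases Finset.mem_union.1 h with h | h
      · exact P3_rowsW _ _ _ _ h
      · rw [Finset.mem_singleton.1 h]
        refine ⟨P3_okW _ _ _ _ (by simp), P3_okH _ _ _ _ ?_⟩
        have : ¬ (2 * (q - 1) + 1) % 2 = 0 := by omega
        simp [this]

theorem P3_A (q : ℕ) (t : RT) (e : (t.loc q).E) (h : e ∈ RT.eA q 0 t ∨ e ∈ RT.sA q 0 t) :
    P3_oke q t true e := by
  cases t with
  | T =>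
    change (Fin (2 * (q + 1) + 2) ⊕ Fin (2 * (q + 1) + 1)) at e
    have h' : e ∈ RT.lowT q (2 * 0 + 1) ∪ RT.legT q (2 * 0 + 1) ∨
      e ∈ RT.highT q (2 * 0 + 1) ∪ RT.legT q (2 * 0 + 1) := h
    simp only [Finset.mem_union, P3_mem_lowT, P3_mem_highT, P3_mem_legT] at h'
    rcases h' with (⟨i, -, rfl⟩ | ⟨i, hi, rfl⟩) | (⟨i, -, rfl⟩ | ⟨i, hi, rfl⟩)
    · exact P3_row_ok _ _ _
    · exact P3_leg_ok _ _ _ (by rw [hi]; decide)
    · exact P3_row_ok _ _ _
    · exact P3_leg_ok _ _ _ (by rw [hi]; decide)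
  | G =>
    rcases h with h | h
    · rcases Finset.mem_union.1 h with h | h
      · exact P3_rowsG _ _ _ _ h
      · rw [Finset.mem_singleton.1 h]
        refine ⟨P3_okG _ _ _, P3_okH _ _ _ _ ?_⟩
        have : ¬ (2 * q + 1) % 2 = 0 := by omega
        simp [this]
    · rcases Finset.mem_union.1 h with h | h
      · exact P3_rowsG _ _ _ _ h
      · rw [Finset.mem_singleton.1 h]
        refine ⟨P3_okG _ _ _, P3_okH _ _ _ _ ?_⟩
        simp
  | W =>
    rcases h with h | h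
    · rcases Finset.mem_union.1 h with h | h
      · exact P3_rowsW _ _ _ _ h
      · rw [Finset.mem_singleton.1 h]
        refine ⟨P3_okW _ _ _ _ (by simp), P3_okH _ _ _ _ ?_⟩
        have : ¬ (2 * (q - 1) + 1) % 2 = 0 := by omega
        simp [this]
    · rcases Finset.mem_union.1 h with h | h
      · exact P3_rowsW _ _ _ _ h
      · rw [Finset.mem_singleton.1 h]
        refine ⟨P3_okW _ _ _ _ (by simp), P3_okH _ _ _ _ ?_⟩
        simp

theorem P3_r0 (q : ℕ) (t : RT) (h : t = .T) (e : (t.loc q).E)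
    (he : e ∈ symmDiff (RT.sA q 0 t) {RT.lam1 q t}) :
    ∃ u v, (t.loc q).a e = .inl u ∧ (t.loc q).b e = .inl v ∧ u ≠ (t.loc q).en ∧
      v ≠ (t.loc q).en := by
  subst h
  change (Fin (2 * (q + 1) + 2) ⊕ Fin (2 * (q + 1) + 1)) at e
  have he' := Finset.mem_symmDiff.1 he
  rcases he' with ⟨h1, h2⟩ | ⟨h1, h2⟩
  · have h3 : e ∈ RT.highT q (2 * 0 + 1) ∪ RT.legT q (2 * 0 + 1) := h1
    simp only [Finset.mem_union, P3_mem_highT, P3_mem_legT] at h3
    rcases h3 with ⟨i, hi, rfl⟩ | ⟨i, hi, rfl⟩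
    · refine ⟨_, _, rfl, rfl, fun h => ?_, fun h => ?_⟩
      · have h' : (⟨i.1, by omega⟩ : Fin (2 * (q + 1) + 2)) = ⟨0, by omega⟩ := h
        have := congrArg Fin.val h'
        change i.1 = 0 at this
        omega
      · have h' : (⟨i.1 + 1, by omega⟩ : Fin (2 * (q + 1) + 2)) = ⟨0, by omega⟩ := h
        have := congrArg Fin.val h'
        simp at this
    · exact absurd (Finset.mem_singleton.2 (congrArg Sum.inl (Fin.ext hi))) h2
  · exfalso
    apply h2
    rw [Finset.mem_singleton.1 h1]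
    change (.inl ⟨1, by omega⟩ : Fin (2 * (q + 1) + 2) ⊕ Fin (2 * (q + 1) + 1)) ∈
      RT.highT q (2 * 0 + 1) ∪ RT.legT q (2 * 0 + 1)
    simp only [Finset.mem_union, P3_mem_highT, P3_mem_legT]
    exact Or.inr ⟨_, by simp, rfl⟩

theorem P3_r8 (q : ℕ) (t : RT) (h : t = .T) (e : (t.loc q).E)
    (he : e ∈ symmDiff (RT.eB q (q + 1) t) {RT.rho1 q t}) :
    ∃ u v, (t.loc q).a e = .inl u ∧ (t.loc q).b e = .inl v ∧ u ≠ (t.loc q).ex ∧
      v ≠ (t.loc q).ex := by
  subst h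
  change (Fin (2 * (q + 1) + 2) ⊕ Fin (2 * (q + 1) + 1)) at e
  have he' := Finset.mem_symmDiff.1 he
  rcases he' with ⟨h1, h2⟩ | ⟨h1, h2⟩
  · have h3 : e ∈ RT.lowT q (2 * (q + 1)) ∪ RT.legT q (2 * (q + 1)) := h1
    simp only [Finset.mem_union, P3_mem_lowT, P3_mem_legT] at h3
    rcases h3 with ⟨i, hi, rfl⟩ | ⟨i, hi, rfl⟩
    · refine ⟨_, _, rfl, rfl, fun h => ?_, fun h => ?_⟩
      · have h' : (⟨i.1, by omega⟩ : Fin (2 * (q + 1) + 2)) = ⟨2 * (q + 1) + 1, by omega⟩ := h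
        have := congrArg Fin.val h'
        simp at this
        omega
      · have h' : (⟨i.1 + 1, by omega⟩ : Fin (2 * (q + 1) + 2)) = ⟨2 * (q + 1) + 1, by omega⟩ := h
        have := congrArg Fin.val h'
        simp at this
        omega
    · exact absurd (Finset.mem_singleton.2 (congrArg Sum.inl (Fin.ext (by rw [hi]; ring)))) h2
  · exfalso
    apply h2
    rw [Finset.mem_singleton.1 h1]
    change (.inl ⟨2 * q + 2, by omega⟩ : Fin (2 * (q + 1) + 2) ⊕ Fin (2 * (q + 1) + 1)) ∈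
      RT.lowT q (2 * (q + 1)) ∪ RT.legT q (2 * (q + 1))
    simp only [Finset.mem_union, P3_mem_lowT, P3_mem_legT]
    exact Or.inr ⟨_, by simp; ring, rfl⟩

theorem P3_lam1 (q : ℕ) (t : RT) (h : t = .T) :
    (t.loc q).a (RT.lam1 q t) = .inl (RT.v1 q t) ∧ (t.loc q).b (RT.lam1 q t) = .inr false := by
  subst h
  exact ⟨rfl, rfl⟩

theorem P3_rho1 (q : ℕ) (t : RT) (h : t = .T) :
    (t.loc q).a (RT.rho1 q t) = .inl (RT.w1 q t) ∧ (t.loc q).b (RT.rho1 q t) = .inr true := by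
  subst h
  refine ⟨rfl, ?_⟩
  change (.inr (decide ((2 * q + 2) % 2 = 0)) : Fin (2 * (q + 1) + 2) ⊕ Bool) = .inr true
  simp

/-! ### the strip -/

section

variable {N : ℕ} [NeZero N] {q : ℕ} {c : Bool} {τ : ZMod N → RT}

theorem P3_lv_inj {j j' : ZMod N} {u : ((τ j).loc q).V} {u' : ((τ j').loc q).V}
    (h : lv q c τ j u = lv q c τ j' u') : j = j' ∧ HEq u u' :=
  Sigma.mk.inj_iff.1 (Sum.inr.inj h)

theorem P3_hub_lv {i j : ZMod N} {u : ((τ j).loc q).V} (h : hub q c τ i = lv q c τ j u) : False :=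
  nomatch h

theorem P3_hub_inj {i j : ZMod N} (h : hub q c τ i = hub q c τ j) : i = j := Sum.inl.inj h

/-- vertex of region `j` -/
def P3_InR (q : ℕ) (c : Bool) (τ : ZMod N → RT) (j : ZMod N) (v : (tstrip q c τ).V) : Prop :=
  ∃ u, v = lv q c τ j u

def P3_BVr (q : ℕ) (c : Bool) (τ : ZMod N → RT) (v : (tstrip q c τ).V) : Prop :=
  ∃ j u, v = lv q c τ j u ∧ ((τ j).loc q).br = some u

def P3_BVl (q : ℕ) (c : Bool) (τ : ZMod N → RT) (v : (tstrip q c τ).V) : Prop :=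
  ∃ j u, v = lv q c τ j u ∧ ((τ j).loc q).bl = some u

def P3_En (q : ℕ) (c : Bool) (τ : ZMod N → RT) (v : (tstrip q c τ).V) : Prop :=
  ∃ j, v = lv q c τ j ((τ j).loc q).en

def P3_Ex (q : ℕ) (c : Bool) (τ : ZMod N → RT) (v : (tstrip q c τ).V) : Prop :=
  ∃ j, v = lv q c τ j ((τ j).loc q).ex

theorem P3_InR_eq {i j : ZMod N} {v : (tstrip q c τ).V} (h : P3_InR q c τ i v)
    (h' : P3_InR q c τ j v) : i = j := by
  obtain ⟨u, rfl⟩ := h
  obtain ⟨u', h'⟩ := h'
  exact (P3_lv_inj h').1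

theorem P3_InR_hub {i j : ZMod N} (h : P3_InR q c τ i (hub q c τ j)) : False := by
  obtain ⟨u, h⟩ := h
  exact P3_hub_lv h

theorem P3_BV_BV {v : (tstrip q c τ).V} (h : P3_BVl q c τ v) (h' : P3_BVr q c τ v) : False := by
  obtain ⟨j, u, rfl, h1⟩ := h
  obtain ⟨j', u', h, h2⟩ := h'
  obtain ⟨rfl, h⟩ := P3_lv_inj h
  obtain rfl := eq_of_heq h
  exact P3_bl_br _ _ _ h1 h2

theorem P3_BV_T {j : ZMod N} {v : (tstrip q c τ).V} (h : P3_InR q c τ j v) (hT : τ j = .T) :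
    ¬ P3_BVl q c τ v ∧ ¬ P3_BVr q c τ v := by
  obtain ⟨u, rfl⟩ := h
  constructor
  · rintro ⟨j', u', h, h2⟩
    obtain ⟨rfl, h⟩ := P3_lv_inj h
    rw [(P3_T_none q _ hT).1] at h2
    exact nomatch h2
  · rintro ⟨j', u', h, h2⟩
    obtain ⟨rfl, h⟩ := P3_lv_inj h
    rw [(P3_T_none q _ hT).2] at h2
    exact nomatch h2

theorem P3_not_BV {j : ZMod N} {u : ((τ j).loc q).V} (h : ((τ j).loc q).bl ≠ some u ∧
    ((τ j).loc q).br ≠ some u) :
    ¬ P3_BVr q c τ (lv q c τ j u) ∧ ¬ P3_BVl q c τ (lv q c τ j u) := by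
  constructor
  · rintro ⟨j', u', h', h2⟩
    obtain ⟨rfl, h'⟩ := P3_lv_inj h'
    obtain rfl := eq_of_heq h'
    exact h.2 h2
  · rintro ⟨j', u', h', h2⟩
    obtain ⟨rfl, h'⟩ := P3_lv_inj h'
    obtain rfl := eq_of_heq h'
    exact h.1 h2

theorem P3_not_En {j : ZMod N} {u : ((τ j).loc q).V} (h : u ≠ ((τ j).loc q).en) :
    ¬ P3_En q c τ (lv q c τ j u) := by
  rintro ⟨j', h'⟩
  obtain ⟨rfl, h'⟩ := P3_lv_inj h'
  exact h (eq_of_heq h')

theorem P3_not_Ex {j : ZMod N} {u : ((τ j).loc q).V} (h : u ≠ ((τ j).loc q).ex) :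
    ¬ P3_Ex q c τ (lv q c τ j u) := by
  rintro ⟨j', h'⟩
  obtain ⟨rfl, h'⟩ := P3_lv_inj h'
  exact h (eq_of_heq h')

theorem P3_locEnd (j : ZMod N) (β : Bool) (x : ((τ j).loc q).V ⊕ Bool) (h : P3_ok q (τ j) β x) :
    (locEnd (fun j => (τ j).loc q) j x : (tstrip q c τ).V) =
        hub q c τ (if β = true then j - 1 else j) ∨
      (P3_InR q c τ j (locEnd (fun j => (τ j).loc q) j x) ∧
        ¬ P3_BVr q c τ (locEnd (fun j => (τ j).loc q) j x) ∧
        ¬ P3_BVl q c τ (locEnd (fun j => (τ j).loc q) j x)) := by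
  rcases x with u | γ
  · exact Or.inr ⟨⟨u, rfl⟩, P3_not_BV (h.2 u rfl)⟩
  · left
    have hγ : γ ≠ β := fun h' => h.1 (by rw [h'])
    cases β <;> cases γ
    · exact absurd rfl hγ
    · rfl
    · rfl
    · exact absurd rfl hγ

theorem P3_le_a (j : ZMod N) (e : ((τ j).loc q).E) : (tstrip q c τ).a (le q c τ j e) =
    locEnd (fun j => (τ j).loc q) j (((τ j).loc q).a e) := rfl

theorem P3_le_b (j : ZMod N) (e : ((τ j).loc q).E) : (tstrip q c τ).b (le q c τ j e) =
    locEnd (fun j => (τ j).loc q) j (((τ j).loc q).b e) := rfl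

theorem P3_row_a (j : ZMod N) : (tstrip q c τ).a (rowE q c τ j) =
    lv q c τ j ((τ j).loc q).ex := rfl

theorem P3_row_b (j : ZMod N) : (tstrip q c τ).b (rowE q c τ j) =
    lv q c τ (j + 1) ((τ (j + 1)).loc q).en := rfl

theorem P3_le_inj (j : ZMod N) : Function.Injective (le q c τ j) := fun e e' h => by
  have h' := Sigma.mk.inj_iff.1 (Sum.inl.inj h)
  exact eq_of_heq h'.2

theorem P3_emb_ne {j : ZMod N} {s : Finset ((τ j).loc q).E} {e : (tstrip q c τ).E}
    (h : emb q c τ j s e ≠ 0) : ∃ x ∈ s, le q c τ j x = e := by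
  by_contra hcon
  apply h
  unfold emb chi
  rw [if_neg]
  intro hm
  exact hcon (Finset.mem_image.1 hm)

theorem P3_chi_ne {G : Gph} {e f : G.E} (h : G.chi {e} f ≠ 0) : f = e := by
  by_contra hcon
  apply h
  unfold chi
  rw [if_neg]
  rw [Finset.mem_singleton]
  exact hcon

theorem P3_bdl_chi {G : Gph} (e : G.E) : G.bdl (G.chi {e}) = G.one (G.a e) + G.one (G.b e) := by
  rw [bdl_chi]
  funext v
  exact Finset.sum_singleton _ _

theorem P3_emb_symmDiff {j : ZMod N} (s s' : Finset ((τ j).loc q).E) :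
    emb q c τ j (symmDiff s s') = emb q c τ j s + emb q c τ j s' := by
  unfold emb
  rw [← chi_symmDiff, Finset.image_symmDiff _ _ (P3_le_inj j)]

theorem P3_emb_single {j : ZMod N} (e : ((τ j).loc q).E) :
    emb q c τ j {e} = (tstrip q c τ).chi {le q c τ j e} := by
  unfold emb
  rw [Finset.image_singleton]

theorem P3_emb_empty {j : ZMod N} : emb q c τ j ∅ = 0 := by
  unfold emb chi
  funext e
  rw [Finset.image_empty, if_neg (Finset.notMem_empty _)]
  rfl

theorem P3_add_ne {G : Gph} {c d : G.E → ZMod 2} {e : G.E} (h : (c + d) e ≠ 0) :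
    c e ≠ 0 ∨ d e ≠ 0 := by
  by_contra hcon
  push Not at hcon
  exact h (by rw [Pi.add_apply, hcon.1, hcon.2, add_zero])

theorem P3_sum_ne {G : Gph} {s : Finset ℕ} {c : ℕ → G.E → ZMod 2} {e : G.E}
    (h : (∑ i ∈ s, c i) e ≠ 0) : ∃ i ∈ s, c i e ≠ 0 := by
  rw [Finset.sum_apply] at h
  exact Finset.exists_ne_zero_of_sum_ne_zero h

theorem P3_cancel {X : Type} (a b d : X → ZMod 2) : (a + b) + (b + d) = a + d := by
  have h2 : ∀ z : ZMod 2, z + z = 0 := by decide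
  funext x
  simp only [Pi.add_apply]
  linear_combination h2 (b x)

theorem P3_self {X : Type} (a : X → ZMod 2) : a + a = 0 := by
  have h2 : ∀ z : ZMod 2, z + z = 0 := by decide
  funext x
  exact h2 _

omit [NeZero N] in
/-- nonzero elements of `ZMod N` -/
theorem P3_zne (a : ℕ) (h0 : 0 < a) (h : a < N) : (a : ZMod N) ≠ 0 := by
  intro h'
  rw [ZMod.natCast_eq_zero_iff] at h'
  exact absurd (Nat.le_of_dvd h0 h') (by omega)

omit [NeZero N] in
theorem P3_cast_inj {a b : ℕ} (ha : a < N) (hb : b < N) (h : (a : ZMod N) = b) : a = b := by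
  have := (ZMod.natCast_eq_natCast_iff' a b N).1 h
  rwa [Nat.mod_eq_of_lt ha, Nat.mod_eq_of_lt hb] at this

end

/-! ### the slots -/

section

variable {N : ℕ} [NeZero N] {q : ℕ} {τ : ZMod N → RT}

/-- the slots -/
noncomputable def P3_O (q : ℕ) (τ : ZMod N → RT) (k : ℕ) : (tstrip q true τ).E → ZMod 2 :=
  (tstrip q true τ).chi {byE q τ (k : ZMod N)} +
    emb q true τ (k : ZMod N) (P3_b1s q true (τ (k : ZMod N))) +
    emb q true τ ((k : ZMod N) + 1) (P3_b1s q false (τ ((k : ZMod N) + 1)))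

theorem P3_by_a (j : ZMod N) : (tstrip q true τ).a (byE q τ j) =
    byL (fun j => (τ j).loc q) j := rfl

theorem P3_by_b (j : ZMod N) : (tstrip q true τ).b (byE q τ j) =
    byR (fun j => (τ j).loc q) j := rfl

theorem P3_byL (j : ZMod N) :
    (((τ j).loc q).br = none ∧ (byL (fun j => (τ j).loc q) j : (tstrip q true τ).V) =
      hub q true τ (j - 1)) ∨
    ∃ v, ((τ j).loc q).br = some v ∧ (byL (fun j => (τ j).loc q) j : (tstrip q true τ).V) =
      lv q true τ j v := by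
  unfold byL
  split
  · next h => exact Or.inl ⟨h, rfl⟩
  · next v h => exact Or.inr ⟨v, h, rfl⟩

theorem P3_byR (j : ZMod N) :
    (((τ (j + 1)).loc q).bl = none ∧ (byR (fun j => (τ j).loc q) j : (tstrip q true τ).V) =
      hub q true τ (j + 1)) ∨
    ∃ v, ((τ (j + 1)).loc q).bl = some v ∧
      (byR (fun j => (τ j).loc q) j : (tstrip q true τ).V) = lv q true τ (j + 1) v := by
  unfold byR
  split
  · next h => exact Or.inl ⟨h, rfl⟩
  · next v h => exact Or.inr ⟨v, h, rfl⟩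

theorem P3_bdl_b1r (j : ZMod N) : (tstrip q true τ).bdl (emb q true τ j (P3_b1s q true (τ j))) =
    (tstrip q true τ).one (byL (fun j => (τ j).loc q) j) +
      (tstrip q true τ).one (hub q true τ (j - 1)) := by
  rcases P3_byL (q := q) (τ := τ) j with ⟨h1, h2⟩ | ⟨v, h1, h2⟩
  · rw [h2, P3_br_none _ _ h1, P3_emb_empty, bdl_zero, P3_self]
  · rw [h2]
    obtain ⟨e, he, ha, hb⟩ := P3_br_some _ _ _ h1
    rw [he, P3_emb_single, P3_bdl_chi, P3_le_a, P3_le_b, ha, hb]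
    rfl

theorem P3_bdl_b1l (j : ZMod N) :
    (tstrip q true τ).bdl (emb q true τ (j + 1) (P3_b1s q false (τ (j + 1)))) =
    (tstrip q true τ).one (byR (fun j => (τ j).loc q) j) +
      (tstrip q true τ).one (hub q true τ (j + 1)) := by
  rcases P3_byR (q := q) (τ := τ) j with ⟨h1, h2⟩ | ⟨v, h1, h2⟩
  · rw [h2, P3_bl_none _ _ h1, P3_emb_empty, bdl_zero, P3_self]
  · rw [h2]
    obtain ⟨e, he, ha, hb⟩ := P3_bl_some _ _ _ h1
    rw [he, P3_emb_single, P3_bdl_chi, P3_le_a, P3_le_b, ha, hb]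
    rfl

theorem P3_O_bd (k : ℕ) : (tstrip q true τ).bdl (P3_O q τ k) =
    (tstrip q true τ).one (hub q true τ ((k : ZMod N) - 1)) +
      (tstrip q true τ).one (hub q true τ ((k : ZMod N) + 1)) := by
  unfold P3_O
  rw [bdl_add, bdl_add, P3_bdl_chi, P3_bdl_b1r, P3_bdl_b1l, P3_by_a, P3_by_b]
  have h2 : ∀ z : ZMod 2, z + z = 0 := by decide
  funext x
  simp only [Pi.add_apply]
  linear_combination h2 ((tstrip q true τ).one (byL (fun j => (τ j).loc q) (k : ZMod N)) x) +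
    h2 ((tstrip q true τ).one (byR (fun j => (τ j).loc q) (k : ZMod N)) x)

/-- the vertices of a slot -/
def P3_Sl (q : ℕ) (τ : ZMod N → RT) (k : ℕ) (v : (tstrip q true τ).V) : Prop :=
  v = hub q true τ ((k : ZMod N) - 1) ∨ v = hub q true τ ((k : ZMod N) + 1) ∨
    (P3_InR q true τ (k : ZMod N) v ∧ P3_BVr q true τ v) ∨
    (P3_InR q true τ ((k : ZMod N) + 1) v ∧ P3_BVl q true τ v)

theorem P3_O_end (k : ℕ) (e : (tstrip q true τ).E) (h : P3_O q τ k e ≠ 0)
    (v : (tstrip q true τ).V) (hv : (tstrip q true τ).End v e) : P3_Sl q τ k v := by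
  unfold P3_O at h
  rcases P3_add_ne h with h | h
  · rcases P3_add_ne h with h | h
    · rw [P3_chi_ne h] at hv
      rcases hv with hv | hv
      · rw [P3_by_a] at hv
        rcases P3_byL (q := q) (τ := τ) (k : ZMod N) with ⟨h1, h2⟩ | ⟨w', h1, h2⟩
        · exact Or.inl (hv.symm.trans h2)
        · have hv' := hv.symm.trans h2
          exact Or.inr (Or.inr (Or.inl ⟨⟨_, hv'⟩, ⟨_, _, hv', h1⟩⟩))
      · rw [P3_by_b] at hv
        rcases P3_byR (q := q) (τ := τ) (k : ZMod N) with ⟨h1, h2⟩ | ⟨w', h1, h2⟩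
        · exact Or.inr (Or.inl (hv.symm.trans h2))
        · have hv' := hv.symm.trans h2
          exact Or.inr (Or.inr (Or.inr ⟨⟨_, hv'⟩, ⟨_, _, hv', h1⟩⟩))
    · obtain ⟨x, hx, rfl⟩ := P3_emb_ne h
      rcases hbr : ((τ (k : ZMod N)).loc q).br with _ | u
      · rw [P3_br_none _ _ hbr] at hx
        exact absurd hx (Finset.notMem_empty _)
      · obtain ⟨e, he, ha, hb⟩ := P3_br_some _ _ _ hbr
        rw [he] at hx
        rw [Finset.mem_singleton.1 hx] at hv
        rcases hv with hv | hv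
        · rw [P3_le_a, ha] at hv
          exact Or.inr (Or.inr (Or.inl ⟨⟨_, hv.symm⟩, ⟨_, _, hv.symm, hbr⟩⟩))
        · rw [P3_le_b, hb] at hv
          exact Or.inl hv.symm
  · obtain ⟨x, hx, rfl⟩ := P3_emb_ne h
    rcases hbr : ((τ ((k : ZMod N) + 1)).loc q).bl with _ | u
    · rw [P3_bl_none _ _ hbr] at hx
      exact absurd hx (Finset.notMem_empty _)
    · obtain ⟨e, he, ha, hb⟩ := P3_bl_some _ _ _ hbr
      rw [he] at hx
      rw [Finset.mem_singleton.1 hx] at hv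
      rcases hv with hv | hv
      · rw [P3_le_a, ha] at hv
        exact Or.inr (Or.inr (Or.inr ⟨⟨_, hv.symm⟩, ⟨_, _, hv.symm, hbr⟩⟩))
      · rw [P3_le_b, hb] at hv
        exact Or.inr (Or.inl hv.symm)

theorem P3_O_ByT (k : ℕ) (e : (tstrip q true τ).E) (h : P3_O q τ k e ≠ 0) : ByT q true τ e := by
  unfold P3_O at h
  rcases P3_add_ne h with h | h
  · rcases P3_add_ne h with h | h
    · rw [P3_chi_ne h]
      exact trivial
    · obtain ⟨x, hx, rfl⟩ := P3_emb_ne h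
      exact P3_b1s_isB1 _ _ _ _ hx
  · obtain ⟨x, hx, rfl⟩ := P3_emb_ne h
    exact P3_b1s_isB1 _ _ _ _ hx

omit [NeZero N] in
/-- contradiction from an equation in `ZMod N` -/
theorem P3_absurd {x y : ZMod N} (h : x = y) (a : ℕ) (h0 : 0 < a) (ha : a < N)
    (hxy : x - y = (a : ZMod N) ∨ y - x = (a : ZMod N)) : False := by
  apply P3_zne a h0 ha
  rcases hxy with h' | h'
  · rw [← h', h, sub_self]
  · rw [← h', h, sub_self]

omit [NeZero N] in
theorem P3_cast9 (hN : 16 ≤ N) : ((N - 9 : ℕ) : ZMod N) + 1 = -8 := by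
  rw [Nat.cast_sub (by omega), ZMod.natCast_self]
  norm_num

theorem P3_Inner (W0 : τ 0 = .T) (W8 : τ (-8) = .T) {v : (tstrip q true τ).V}
    (h : Inner q true τ v) :
    (∃ i : ℕ, 2 ≤ i ∧ i ≤ 7 ∧ v = hub q true τ (-(i : ZMod N))) ∨
    (∃ i : ℕ, 1 ≤ i ∧ i ≤ 7 ∧ P3_InR q true τ (-(i : ZMod N)) v) ∨
    (P3_InR q true τ (-8) v ∧ P3_Ex q true τ v) ∨ (P3_InR q true τ 0 v ∧ P3_En q true τ v) := by
  rcases h with ⟨i, h1, h2, rfl⟩ | ⟨i, h1, h2, u, rfl⟩ | rfl | rfl
  · exact Or.inl ⟨i, h1, h2, rfl⟩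
  · exact Or.inr (Or.inl ⟨i, h1, h2, ⟨u, rfl⟩⟩)
  · exact Or.inr (Or.inr (Or.inl ⟨⟨_, rfl⟩, ⟨_, rfl⟩⟩))
  · exact Or.inr (Or.inr (Or.inr ⟨⟨_, rfl⟩, ⟨_, rfl⟩⟩))

theorem P3_Sl_inner (hN : 16 ≤ N) (W0 : τ 0 = .T) (W8 : τ (-8) = .T) {k : ℕ} (hk : k ≤ N - 9)
    {v : (tstrip q true τ).V} (h : P3_Sl q τ k v) : ¬ Inner q true τ v := by
  intro hI
  rcases P3_Inner W0 W8 hI with ⟨i, h1, h2, hv⟩ | ⟨i, h1, h2, hv⟩ | ⟨hv, -⟩ | ⟨hv, -⟩
  · rcases h with h | h | ⟨h, -⟩ | ⟨h, -⟩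
    · exact P3_absurd (P3_hub_inj (h.symm.trans hv)) (k + i - 1) (by omega) (by omega)
        (Or.inl (by rw [Nat.cast_sub (by omega)]; push_cast; ring))
    · exact P3_absurd (P3_hub_inj (h.symm.trans hv)) (k + i + 1) (by omega) (by omega)
        (Or.inl (by push_cast; ring))
    · rw [hv] at h; exact P3_InR_hub h
    · rw [hv] at h; exact P3_InR_hub h
  · rcases h with h | h | ⟨h, -⟩ | ⟨h, -⟩
    · rw [h] at hv; exact P3_InR_hub hv
    · rw [h] at hv; exact P3_InR_hub hv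
    · exact P3_absurd (P3_InR_eq h hv) (k + i) (by omega) (by omega)
        (Or.inl (by push_cast; ring))
    · exact P3_absurd (P3_InR_eq h hv) (k + i + 1) (by omega) (by omega)
        (Or.inl (by push_cast; ring))
  · rcases h with h | h | ⟨h, h'⟩ | ⟨h, h'⟩
    · rw [h] at hv; exact P3_InR_hub hv
    · rw [h] at hv; exact P3_InR_hub hv
    · exact (P3_BV_T hv W8).2 h'
    · exact (P3_BV_T hv W8).1 h'
  · rcases h with h | h | ⟨h, h'⟩ | ⟨h, h'⟩
    · rw [h] at hv; exact P3_InR_hub hv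
    · rw [h] at hv; exact P3_InR_hub hv
    · exact (P3_BV_T hv W0).2 h'
    · exact (P3_BV_T hv W0).1 h'

/-- independence from disjoint vertex sets -/
theorem P3_ind {G : Gph} {A B : G.V → Prop} (hAB : ∀ v, A v → B v → False) {e f : G.E}
    (he : ∀ v, G.End v e → A v) (hf : ∀ v, G.End v f → B v) : G.Ind e f :=
  ⟨fun h => hAB _ (he _ (Or.inl rfl)) (h ▸ hf _ (Or.inl rfl)),
    fun h => hAB _ (he _ (Or.inl rfl)) (h ▸ hf _ (Or.inr rfl)),
    fun h => hAB _ (he _ (Or.inr rfl)) (h ▸ hf _ (Or.inl rfl)),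
    fun h => hAB _ (he _ (Or.inr rfl)) (h ▸ hf _ (Or.inr rfl))⟩

omit [NeZero N] in
theorem P3_par {i k a b : ℕ} (hi : i + a < N) (hk : k + b < N) (h : (i : ZMod N) + a = k + b) :
    i + a = k + b :=
  P3_cast_inj hi hk (by push_cast; exact h)

theorem P3_Sl_Sl (hN : 16 ≤ N) {i k : ℕ} (hi : i ≤ N - 9) (hk : k ≤ N - 9) (hik : i % 2 ≠ k % 2)
    (v : (tstrip q true τ).V) (h : P3_Sl q τ i v) (h' : P3_Sl q τ k v) : False := by
  rcases h with h | h | ⟨h, hb⟩ | ⟨h, hb⟩ <;> rcases h' with h' | h' | ⟨h', hb'⟩ | ⟨h', hb'⟩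
  · have := P3_par (N := N) (a := 0) (b := 0) (i := i) (k := k) (by omega) (by omega) (by
      have := P3_hub_inj (h.symm.trans h')
      push_cast
      linear_combination this)
    omega
  · have := P3_par (N := N) (a := 0) (b := 2) (i := i) (k := k) (by omega) (by omega) (by
      have := P3_hub_inj (h.symm.trans h')
      push_cast
      linear_combination this)
    omega
  · rw [h] at h'; exact P3_InR_hub h'
  · rw [h] at h'; exact P3_InR_hub h'
  · have := P3_par (N := N) (a := 2) (b := 0) (i := i) (k := k) (by omega) (by omega) (by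
      have := P3_hub_inj (h.symm.trans h')
      push_cast
      linear_combination this)
    omega
  · have := P3_par (N := N) (a := 0) (b := 0) (i := i) (k := k) (by omega) (by omega) (by
      have := P3_hub_inj (h.symm.trans h')
      push_cast
      linear_combination this)
    omega
  · rw [h] at h'; exact P3_InR_hub h'
  · rw [h] at h'; exact P3_InR_hub h'
  · rw [h'] at h; exact P3_InR_hub h
  · rw [h'] at h; exact P3_InR_hub h
  · have := P3_par (N := N) (a := 0) (b := 0) (i := i) (k := k) (by omega) (by omega) (by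
      have := P3_InR_eq h h'
      push_cast
      linear_combination this)
    omega
  · exact P3_BV_BV hb' hb
  · rw [h'] at h; exact P3_InR_hub h
  · rw [h'] at h; exact P3_InR_hub h
  · exact P3_BV_BV hb hb'
  · have := P3_par (N := N) (a := 0) (b := 0) (i := i) (k := k) (by omega) (by omega) (by
      have := P3_InR_eq h h'
      push_cast
      linear_combination this)
    omega

theorem P3_slots (hodd : Odd N) (hN : 16 ≤ N) (W0 : τ 0 = .T) (W8 : τ (-8) = .T) :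
    Slots q true τ (P3_O q τ) where
  bd := fun k _ => P3_O_bd k
  inner := fun k hk e he v hv => P3_Sl_inner hN W0 W8 hk (P3_O_end k e he v hv)
  odd := fun k hk hko e he v hv => by
    obtain ⟨a, ha⟩ := hodd
    obtain ⟨b, hb⟩ := hko
    constructor
    · rintro rfl
      rcases P3_O_end k e he _ hv with h | h | ⟨h, -⟩ | ⟨h, -⟩
      · exact P3_absurd (P3_hub_inj h) k (by omega) (by omega) (Or.inr (by ring))
      · exact P3_absurd (P3_hub_inj h) (k + 2) (by omega) (by omega)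
          (Or.inr (by push_cast; ring))
      · exact P3_InR_hub h
      · exact P3_InR_hub h
    · rintro rfl
      rcases P3_O_end k e he _ hv with h | h | ⟨h, -⟩ | ⟨h, -⟩
      · exact P3_absurd (P3_hub_inj h) (k + 7) (by omega) (by omega)
          (Or.inr (by push_cast; ring))
      · exact P3_absurd (P3_hub_inj h) (k + 9) (by omega) (by omega)
          (Or.inr (by push_cast; ring))
      · exact P3_InR_hub h
      · exact P3_InR_hub h
  ind := fun i k hi hk hie hko e f he hf => by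
    have h1 := Nat.even_iff.1 hie
    have h2 := Nat.odd_iff.1 hko
    exact P3_ind (P3_Sl_Sl hN hi hk (by omega)) (P3_O_end i e he) (P3_O_end k f hf)

/-! ### the row -/

/-- the part of the row in region `n` -/
noncomputable def P3_V (q : ℕ) (τ : ZMod N → RT) (p n : ℕ) : (tstrip q true τ).E → ZMod 2 :=
  if n % 2 = p then
    emb q true τ (n : ZMod N) (RT.eB q 0 (τ (n : ZMod N))) +
      emb q true τ (n : ZMod N) (RT.sB q 0 (τ (n : ZMod N)))
  else
    emb q true τ (n : ZMod N) (RT.eA q 0 (τ (n : ZMod N))) +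
      emb q true τ (n : ZMod N) (RT.sA q 0 (τ (n : ZMod N)))

/-- entry and exit -/
def P3_en (q : ℕ) (τ : ZMod N → RT) (j : ZMod N) : (tstrip q true τ).V → ZMod 2 :=
  (tstrip q true τ).one (lv q true τ j ((τ j).loc q).en)

def P3_ex (q : ℕ) (τ : ZMod N → RT) (j : ZMod N) : (tstrip q true τ).V → ZMod 2 :=
  (tstrip q true τ).one (lv q true τ j ((τ j).loc q).ex)

theorem P3_V_bd (hN : 16 ≤ N) (hW : (∃ j, τ j = .W) → 1 ≤ q) (p n : ℕ) :
    (tstrip q true τ).bdl (P3_V q τ p n) = P3_en q τ (n : ZMod N) + P3_ex q τ (n : ZMod N) := by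
  obtain ⟨D, hDe, hDs⟩ := exists_thru q true τ (by omega) hW (fun _ => 0) (fun _ => by omega)
  unfold P3_V
  split
  · rw [bdl_add, bdl_sB q true τ (by omega) hW _ 0 (by omega), ← hDe, D.he]
    exact P3_cancel _ _ _
  · rw [bdl_add, bdl_eA q true τ (by omega) hW _ 0 (by omega), ← hDs, D.hs]
    exact P3_cancel _ _ _

/-- the row up to the entry of region `K + 1` -/
noncomputable def P3_RR (q : ℕ) (τ : ZMod N → RT) (p K : ℕ) : (tstrip q true τ).E → ZMod 2 :=
  ∑ n ∈ Finset.range (K + 1), (tstrip q true τ).chi {rowE q true τ (n : ZMod N)} +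
    ∑ n ∈ Finset.range K, P3_V q τ p (n + 1)

theorem P3_row_bd (n : ℕ) : (tstrip q true τ).bdl ((tstrip q true τ).chi
    {rowE q true τ (n : ZMod N)}) = P3_ex q τ (n : ZMod N) + P3_en q τ ((n : ZMod N) + 1) := by
  rw [P3_bdl_chi]
  rfl

theorem P3_RR_bd (hN : 16 ≤ N) (hW : (∃ j, τ j = .W) → 1 ≤ q) (p K : ℕ) :
    (tstrip q true τ).bdl (P3_RR q τ p K) = P3_ex q τ 0 + P3_en q τ ((K : ZMod N) + 1) := by
  induction K with
  | zero =>
    unfold P3_RR
    rw [Finset.sum_range_one, Finset.range_zero, Finset.sum_empty, add_zero, P3_row_bd]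
    simp only [Nat.cast_zero]
  | succ K ih =>
    have h : P3_RR q τ p (K + 1) = P3_RR q τ p K + ((tstrip q true τ).chi
        {rowE q true τ ((K + 1 : ℕ) : ZMod N)} + P3_V q τ p (K + 1)) := by
      unfold P3_RR
      rw [Finset.sum_range_succ _ (K + 1),
        Finset.sum_range_succ (fun n => P3_V q τ p (n + 1)) K]
      abel
    rw [h, bdl_add, bdl_add, ih, P3_row_bd, P3_V_bd hN hW]
    have h2 : ∀ z : ZMod 2, z + z = 0 := by decide
    funext x
    simp only [Pi.add_apply, Nat.cast_add, Nat.cast_one]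
    linear_combination h2 (P3_en q τ ((K : ZMod N) + 1) x) + h2 (P3_ex q τ ((K : ZMod N) + 1) x)

/-- the row -/
noncomputable def P3_R (q : ℕ) (τ : ZMod N → RT) (p : ℕ) : (tstrip q true τ).E → ZMod 2 :=
  emb q true τ 0 (symmDiff (RT.sA q 0 (τ 0)) {RT.lam1 q (τ 0)}) + P3_RR q τ p (N - 9) +
    emb q true τ (-8) (symmDiff (RT.eB q (q + 1) (τ (-8))) {RT.rho1 q (τ (-8))})

theorem P3_R_bd (hN : 16 ≤ N) (hW : (∃ j, τ j = .W) → 1 ≤ q) (W0 : τ 0 = .T) (W8 : τ (-8) = .T)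
    (p : ℕ) : (tstrip q true τ).bdl (P3_R q τ p) =
      (tstrip q true τ).one (lv q true τ 0 (RT.v1 q (τ 0))) +
        (tstrip q true τ).one (lv q true τ (-8) (RT.w1 q (τ (-8)))) := by
  obtain ⟨D, hDe, hDs⟩ := exists_thru q true τ (by omega) hW (fun _ => 0) (fun _ => by omega)
  obtain ⟨D', hDe', hDs'⟩ := exists_thru q true τ (by omega) hW (fun _ => q + 1)
    (fun _ => by omega)
  have h0 : (tstrip q true τ).bdl (emb q true τ 0 (symmDiff (RT.sA q 0 (τ 0))
      {RT.lam1 q (τ 0)})) = (tstrip q true τ).one (lv q true τ 0 (RT.v1 q (τ 0))) +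
        P3_ex q τ 0 := by
    rw [P3_emb_symmDiff, bdl_add, ← hDs 0, D.hs 0, P3_emb_single, P3_bdl_chi, P3_le_a, P3_le_b,
      (P3_lam1 q _ W0).1, (P3_lam1 q _ W0).2]
    change (tstrip q true τ).one (hub q true τ (0 - 1)) + P3_ex q τ 0 +
      ((tstrip q true τ).one (lv q true τ 0 (RT.v1 q (τ 0))) +
        (tstrip q true τ).one (hub q true τ (0 - 1))) = _
    have h2 : ∀ z : ZMod 2, z + z = 0 := by decide
    funext x
    simp only [Pi.add_apply]
    linear_combination h2 ((tstrip q true τ).one (hub q true τ (0 - 1)) x)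
  have h8 : (tstrip q true τ).bdl (emb q true τ (-8) (symmDiff (RT.eB q (q + 1) (τ (-8)))
      {RT.rho1 q (τ (-8))})) = P3_en q τ (-8) +
        (tstrip q true τ).one (lv q true τ (-8) (RT.w1 q (τ (-8)))) := by
    rw [P3_emb_symmDiff, bdl_add, ← hDe' (-8), D'.he (-8), P3_emb_single, P3_bdl_chi, P3_le_a,
      P3_le_b, (P3_rho1 q _ W8).1, (P3_rho1 q _ W8).2]
    change P3_en q τ (-8) + (tstrip q true τ).one (hub q true τ (-8)) +
      ((tstrip q true τ).one (lv q true τ (-8) (RT.w1 q (τ (-8)))) +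
        (tstrip q true τ).one (hub q true τ (-8))) = _
    have h2 : ∀ z : ZMod 2, z + z = 0 := by decide
    funext x
    simp only [Pi.add_apply]
    linear_combination h2 ((tstrip q true τ).one (hub q true τ (-8)) x)
  unfold P3_R
  rw [bdl_add, bdl_add, h0, h8, P3_RR_bd hN hW, P3_cast9 hN, P3_cancel, P3_cancel]

/-- allowed vertices of the row -/
def P3_Gd (q : ℕ) (τ : ZMod N → RT) (p : ℕ) (v : (tstrip q true τ).V) : Prop :=
  (∃ n : ℕ, 1 ≤ n ∧ n ≤ N - 9 ∧ P3_InR q true τ (n : ZMod N) v ∧ ¬ P3_BVr q true τ v ∧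
    ¬ P3_BVl q true τ v) ∨
  (∃ m : ℕ, m ≤ N - 9 ∧ m % 2 = p ∧ v = hub q true τ (m : ZMod N)) ∨
  (P3_InR q true τ 0 v ∧ ¬ P3_En q true τ v) ∨ (P3_InR q true τ (-8) v ∧ ¬ P3_Ex q true τ v)

theorem P3_V_end {p : ℕ} (hp : p = 0 ∨ p = 1) {n : ℕ} (hn : 1 ≤ n) (hn' : n ≤ N - 9)
    {e : (tstrip q true τ).E} (h : P3_V q τ p n e ≠ 0) :
    ¬ ByT q true τ e ∧ ∀ v, (tstrip q true τ).End v e → P3_Gd q τ p v := by
  have key : ∀ (β : Bool) (x : ((τ (n : ZMod N)).loc q).E),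
      P3_oke q (τ (n : ZMod N)) β x → (β = true → (n - 1) % 2 = p) → (β = false → n % 2 = p) →
      ¬ ByT q true τ (le q true τ (n : ZMod N) x) ∧
        ∀ v, (tstrip q true τ).End v (le q true τ (n : ZMod N) x) → P3_Gd q τ p v := by
    intro β x hx h1 h2
    constructor
    · intro hb
      obtain ⟨u, hu, ha⟩ := P3_isB1 q _ x hb
      have := hx.1.2 u ha
      rcases hu with hu | hu
      · exact this.1 hu
      · exact this.2 hu
    · intro v hv
      have hloc : ∀ y, P3_ok q (τ (n : ZMod N)) β y →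
          P3_Gd q τ p (locEnd (fun j => (τ j).loc q) (n : ZMod N) y) := by
        intro y hy
        rcases P3_locEnd (q := q) (c := true) (n : ZMod N) β y hy with h' | h'
        · refine Or.inr (Or.inl ?_)
          cases β
          · exact ⟨n, hn', h2 rfl, h'⟩
          · refine ⟨n - 1, by omega, h1 rfl, ?_⟩
            rw [Nat.cast_sub hn, Nat.cast_one]
            exact h'
        · exact Or.inl ⟨n, hn, hn', h'⟩
      rcases hv with rfl | rfl
      · exact hloc _ hx.1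
      · exact hloc _ hx.2
  unfold P3_V at h
  split at h
  · next hpar =>
    rcases P3_add_ne h with h | h
    · obtain ⟨x, hx, rfl⟩ := P3_emb_ne h
      exact key false x (P3_B q _ x (Or.inl hx)) (fun h => by simp at h) (fun _ => hpar)
    · obtain ⟨x, hx, rfl⟩ := P3_emb_ne h
      exact key false x (P3_B q _ x (Or.inr hx)) (fun h => by simp at h) (fun _ => hpar)
  · next hpar =>
    rcases P3_add_ne h with h | h
    · obtain ⟨x, hx, rfl⟩ := P3_emb_ne h
      exact key true x (P3_A q _ x (Or.inl hx)) (fun _ => by omega) (fun h => by simp at h)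
    · obtain ⟨x, hx, rfl⟩ := P3_emb_ne h
      exact key true x (P3_A q _ x (Or.inr hx)) (fun _ => by omega) (fun h => by simp at h)

theorem P3_row_end (hN : 16 ≤ N) (W0 : τ 0 = .T) (W8 : τ (-8) = .T) {n : ℕ} (hn : n ≤ N - 9)
    (p : ℕ) (v : (tstrip q true τ).V)
    (hv : (tstrip q true τ).End v (rowE q true τ (n : ZMod N))) : P3_Gd q τ p v := by
  rcases hv with rfl | rfl
  · rw [P3_row_a]
    rcases Nat.eq_zero_or_pos n with h0 | h0
    · subst h0
      refine Or.inr (Or.inr (Or.inl ⟨?_, P3_not_En ?_⟩))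
      · exact ⟨_, congrArg (fun j => lv q true τ j ((τ j).loc q).ex) Nat.cast_zero⟩
      · refine (P3_T_en_ex q _ ?_).symm
        rw [Nat.cast_zero]
        exact W0
    · refine Or.inl ⟨n, h0, hn, ⟨_, rfl⟩, P3_not_BV ?_⟩
      have := P3_by_ex q (τ (n : ZMod N))
      exact ⟨this.1, this.2.1⟩
  · rw [P3_row_b]
    rcases Nat.lt_or_ge n (N - 9) with h0 | h0
    · refine Or.inl ⟨n + 1, by omega, by omega, ?_, P3_not_BV ?_⟩
      · rw [Nat.cast_add, Nat.cast_one]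
        exact ⟨_, rfl⟩
      · have := P3_by_ex q (τ ((n : ZMod N) + 1))
        exact ⟨this.2.2.1, this.2.2.2⟩
    · have hn' : n = N - 9 := by omega
      subst hn'
      refine Or.inr (Or.inr (Or.inr ⟨?_, P3_not_Ex ?_⟩))
      · exact ⟨_, congrArg (fun j => lv q true τ j ((τ j).loc q).en) (P3_cast9 hN)⟩
      · refine P3_T_en_ex q _ ?_
        rw [P3_cast9 hN]
        exact W8

theorem P3_R_end (hN : 16 ≤ N) (W0 : τ 0 = .T) (W8 : τ (-8) = .T) {p : ℕ} (hp : p = 0 ∨ p = 1)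
    {e : (tstrip q true τ).E} (h : P3_R q τ p e ≠ 0) :
    ¬ ByT q true τ e ∧ ∀ v, (tstrip q true τ).End v e → P3_Gd q τ p v := by
  unfold P3_R at h
  rcases P3_add_ne h with h | h
  · rcases P3_add_ne h with h | h
    · obtain ⟨x, hx, rfl⟩ := P3_emb_ne h
      obtain ⟨u, w', ha, hb, hu, hw⟩ := P3_r0 q _ W0 x hx
      constructor
      · intro hB
        obtain ⟨u', hu', -⟩ := P3_isB1 q _ x hB
        rw [(P3_T_none q _ W0).1, (P3_T_none q _ W0).2] at hu'
        rcases hu' with hu' | hu'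
        · exact nomatch hu'
        · exact nomatch hu'
      · rintro v (rfl | rfl)
        · rw [P3_le_a, ha]
          exact Or.inr (Or.inr (Or.inl ⟨⟨_, rfl⟩, P3_not_En hu⟩))
        · rw [P3_le_b, hb]
          exact Or.inr (Or.inr (Or.inl ⟨⟨_, rfl⟩, P3_not_En hw⟩))
    · unfold P3_RR at h
      rcases P3_add_ne h with h | h
      · obtain ⟨n, hn, h⟩ := P3_sum_ne h
        rw [P3_chi_ne h]
        exact ⟨fun h => h, fun v hv =>
          P3_row_end hN W0 W8 (by have := Finset.mem_range.1 hn; omega) p v hv⟩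
      · obtain ⟨n, hn, h⟩ := P3_sum_ne h
        have := Finset.mem_range.1 hn
        exact P3_V_end hp (by omega) (by omega) h
  · obtain ⟨x, hx, rfl⟩ := P3_emb_ne h
    obtain ⟨u, w', ha, hb, hu, hw⟩ := P3_r8 q _ W8 x hx
    constructor
    · intro hB
      obtain ⟨u', hu', -⟩ := P3_isB1 q _ x hB
      rw [(P3_T_none q _ W8).1, (P3_T_none q _ W8).2] at hu'
      rcases hu' with hu' | hu'
      · exact nomatch hu'
      · exact nomatch hu'
    · rintro v (rfl | rfl)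
      · rw [P3_le_a, ha]
        exact Or.inr (Or.inr (Or.inr ⟨⟨_, rfl⟩, P3_not_Ex hu⟩))
      · rw [P3_le_b, hb]
        exact Or.inr (Or.inr (Or.inr ⟨⟨_, rfl⟩, P3_not_Ex hw⟩))

omit [NeZero N] in
theorem P3_m1 (i : ℕ) (hi : 1 ≤ i) (hi' : i ≤ 7) (hN : 16 ≤ N) (h : (-(i : ZMod N)) = -8) :
    False :=
  P3_absurd h (8 - i) (by omega) (by omega) (Or.inl (by
    rw [Nat.cast_sub (by omega)]
    push_cast
    ring))

theorem P3_Gd_inner (hN : 16 ≤ N) (W0 : τ 0 = .T) (W8 : τ (-8) = .T) {p : ℕ}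
    {v : (tstrip q true τ).V} (h : P3_Gd q τ p v) : ¬ Inner q true τ v := by
  intro hI
  rcases P3_Inner W0 W8 hI with ⟨i, h1, h2, hv⟩ | ⟨i, h1, h2, hv⟩ | ⟨hv, hx⟩ | ⟨hv, hx⟩
  · rcases h with ⟨n, hn, hn', h, -⟩ | ⟨m, hm, -, h⟩ | ⟨h, -⟩ | ⟨h, -⟩
    · rw [hv] at h; exact P3_InR_hub h
    · exact P3_absurd (P3_hub_inj (h.symm.trans hv)) (m + i) (by omega) (by omega)
        (Or.inl (by push_cast; ring))
    · rw [hv] at h; exact P3_InR_hub h
    · rw [hv] at h; exact P3_InR_hub h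
  · rcases h with ⟨n, hn, hn', h, -⟩ | ⟨m, hm, -, h⟩ | ⟨h, -⟩ | ⟨h, -⟩
    · exact P3_absurd (P3_InR_eq h hv) (n + i) (by omega) (by omega)
        (Or.inl (by push_cast; ring))
    · rw [h] at hv; exact P3_InR_hub hv
    · exact P3_absurd (P3_InR_eq h hv) i (by omega) (by omega) (Or.inl (by ring))
    · exact P3_m1 i h1 h2 hN (P3_InR_eq hv h)
  · rcases h with ⟨n, hn, hn', h, -⟩ | ⟨m, hm, -, h⟩ | ⟨h, -⟩ | ⟨h, h'⟩
    · exact P3_absurd (P3_InR_eq h hv) (n + 8) (by omega) (by omega)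
        (Or.inl (by push_cast; ring))
    · rw [h] at hv; exact P3_InR_hub hv
    · exact P3_absurd (P3_InR_eq h hv) 8 (by omega) (by omega) (Or.inl (by push_cast; ring))
    · exact h' hx
  · rcases h with ⟨n, hn, hn', h, -⟩ | ⟨m, hm, -, h⟩ | ⟨h, h'⟩ | ⟨h, h'⟩
    · exact P3_absurd (P3_InR_eq h hv) n (by omega) (by omega) (Or.inl (by ring))
    · rw [h] at hv; exact P3_InR_hub hv
    · exact h' hx
    · exact P3_absurd (P3_InR_eq h hv) 8 (by omega) (by omega) (Or.inr (by push_cast; ring))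

theorem P3_Gd_Sl (hN : 16 ≤ N) (W0 : τ 0 = .T) (W8 : τ (-8) = .T) {p k : ℕ} (hk : k ≤ N - 9)
    (hkp : k % 2 = p) (v : (tstrip q true τ).V) (h : P3_Sl q τ k v) (h' : P3_Gd q τ p v) :
    False := by
  rcases h' with ⟨n, hn, hn', h', hb1, hb2⟩ | ⟨m, hm, hmp, h'⟩ | ⟨h', -⟩ | ⟨h', -⟩
  · rcases h with h | h | ⟨h, hb⟩ | ⟨h, hb⟩
    · rw [h] at h'; exact P3_InR_hub h'
    · rw [h] at h'; exact P3_InR_hub h'
    · exact hb1 hb
    · exact hb2 hb
  · rcases h with h | h | ⟨h, hb⟩ | ⟨h, hb⟩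
    · have := P3_par (N := N) (a := 1) (b := 0) (i := m) (k := k) (by omega) (by omega) (by
        have := P3_hub_inj (h.symm.trans h')
        push_cast
        linear_combination -this)
      omega
    · have := P3_par (N := N) (a := 0) (b := 1) (i := m) (k := k) (by omega) (by omega) (by
        have := P3_hub_inj (h.symm.trans h')
        push_cast
        linear_combination -this)
      omega
    · rw [h'] at h; exact P3_InR_hub h
    · rw [h'] at h; exact P3_InR_hub h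
  · rcases h with h | h | ⟨h, hb⟩ | ⟨h, hb⟩
    · rw [h] at h'; exact P3_InR_hub h'
    · rw [h] at h'; exact P3_InR_hub h'
    · exact (P3_BV_T h' W0).2 hb
    · exact (P3_BV_T h' W0).1 hb
  · rcases h with h | h | ⟨h, hb⟩ | ⟨h, hb⟩
    · rw [h] at h'; exact P3_InR_hub h'
    · rw [h] at h'; exact P3_InR_hub h'
    · exact (P3_BV_T h' W8).2 hb
    · exact (P3_BV_T h' W8).1 hb

theorem P3_O_avoid (W0 : τ 0 = .T) {j : ZMod N} (hj : τ j = .T) (k : ℕ) (u : ((τ j).loc q).V) :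
    Avoids (P3_O q τ k) (lv q true τ j u) := by
  intro e he hv
  rcases P3_O_end k e he _ hv with h | h | ⟨-, h⟩ | ⟨-, h⟩
  · exact P3_hub_lv h.symm
  · exact P3_hub_lv h.symm
  · exact (P3_BV_T ⟨u, rfl⟩ hj).2 h
  · exact (P3_BV_T ⟨u, rfl⟩ hj).1 h

theorem P3_six {α : Type} [DecidableEq α] {S : Finset (α × α)} {a1 b1 a2 b2 a3 b3 : α}
    (B : α → Prop) (h1 : (a1, b1) ∈ S) (h1' : (b1, a1) ∈ S) (h2 : (a2, b2) ∈ S)
    (h2' : (b2, a2) ∈ S) (h3 : (a3, b3) ∈ S) (h3' : (b3, a3) ∈ S) (k1 : B a1) (k1' : B b1)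
    (k2 : B a2) (k2' : ¬ B b2) (k3 : B a3) (k3' : ¬ B b3) (h23 : a2 ≠ a3) (hab : a1 ≠ b1) :
    6 ≤ S.card := by
  have hsub : ({(a1, b1), (b1, a1), (a2, b2), (b2, a2), (a3, b3), (b3, a3)} : Finset (α × α)) ⊆
      S := by
    intro x hx
    simp only [Finset.mem_insert, Finset.mem_singleton] at hx
    rcases hx with rfl | rfl | rfl | rfl | rfl | rfl <;> assumption
  refine le_trans (le_of_eq ?_) (Finset.card_le_card hsub)
  have n12 : ∀ x, B x → x ≠ b2 := fun x hx h => k2' (h ▸ hx)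
  have n13 : ∀ x, B x → x ≠ b3 := fun x hx h => k3' (h ▸ hx)
  rw [Finset.card_insert_of_notMem, Finset.card_insert_of_notMem, Finset.card_insert_of_notMem,
    Finset.card_insert_of_notMem, Finset.card_insert_of_notMem, Finset.card_singleton]
  all_goals
    simp only [Finset.mem_insert, Finset.mem_singleton, Prod.mk.injEq, not_or, not_and]
  · exact fun h => absurd h (n13 _ k3)
  · exact ⟨fun h => absurd h.symm (n12 _ k3), fun _ => h23⟩
  · exact ⟨fun h => absurd h (n12 _ k2), fun h => absurd h h23, fun h => absurd h (n13 _ k2)⟩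
  · exact ⟨fun _ => n12 _ k1, fun h => absurd h (n12 _ k1'), fun _ => n13 _ k1,
      fun h => absurd h (n13 _ k1')⟩
  · exact ⟨fun h => absurd h hab, fun _ => n12 _ k1', fun h => absurd h (n12 _ k1),
      fun _ => n13 _ k1', fun h => absurd h (n13 _ k1)⟩

/-- PLUS3. At least three crossing pairs contain a bypass type edge. -/
theorem plus3 {q : ℕ} {τ : ZMod N → RT} {P : (tstrip q true τ).PS}
    (W : Window q true τ P) (hW : (∃ j, τ j = .W) → 1 ≤ q) (hdec : DecidablePred (ByT q true τ)) :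
    6 ≤ (P.cross.filter (fun p => ByT q true τ p.1 ∨ ByT q true τ p.2)).card := by
  have hN := W.big
  have W0 := W.h0
  have W8 := W.h8
  have hodd := W.odd
  have hO := P3_slots (q := q) hodd hN W0 W8
  -- the crossing pair of an even and an odd slot
  have key : ∀ (s : Finset ℕ) (C D : (tstrip q true τ).E → ZMod 2),
      P.L C D = 1 → C = ∑ i ∈ s, P3_O q τ i →
      ∃ i ∈ s, ∃ e f, P3_O q τ i e ≠ 0 ∧ D f ≠ 0 ∧ P.X e f = 1 := by
    intro s C D h hC
    obtain ⟨e, f, he, hf, hX⟩ := P.exists_of_L _ _ h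
    rw [hC] at he
    obtain ⟨i, hi, he⟩ := P3_sum_ne he
    exact ⟨i, hi, e, f, he, hf, hX⟩
  obtain ⟨i1, hi1, a1, b1, ha1, hb1, hX1⟩ := key _ _ _ (phi12 W hW hO) rfl
  obtain ⟨j1, hj1, hb1⟩ := P3_sum_ne (c := P3_O q τ) hb1
  have hR : ∀ p, p = 0 ∨ p = 1 → ORow q true τ (P3_R q τ p) := fun p hp =>
    ⟨P3_R_bd hN hW W0 W8 p, fun e he v hv => P3_Gd_inner hN W0 W8 ((P3_R_end hN W0 W8 hp he).2 v hv)⟩
  have hRI : ∀ p, p = 0 ∨ p = 1 → ∀ k, k ≤ N - 9 → k % 2 = p →
      IndC (P3_O q τ k) (P3_R q τ p) := fun p hp k hk hkp e f he hf =>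
    P3_ind (P3_Gd_Sl hN W0 W8 hk hkp) (P3_O_end k e he) ((P3_R_end hN W0 W8 hp hf).2)
  have hav : ∀ p, p = 0 ∨ p = 1 → ∀ j : ZMod N,
      (∀ m : ℕ, m ≤ N - 9 → m % 2 = p → (m : ZMod N) ≠ j) →
      Avoids (P3_R q τ p) (hub q true τ j) := by
    intro p hp j hj e he hv
    rcases (P3_R_end hN W0 W8 hp he).2 _ hv with ⟨n, -, -, h, -⟩ | ⟨m, hm, hmp, h⟩ | ⟨h, -⟩ | ⟨h, -⟩
    · exact P3_InR_hub h
    · exact hj m hm hmp (P3_hub_inj h).symm
    · exact P3_InR_hub h
    · exact P3_InR_hub h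
  obtain ⟨a, ha⟩ := hodd
  obtain ⟨i2, hi2, a2, b2, ha2, hb2, hX2⟩ := key _ _ _ (phi1P W hW hO
    (fun k _ _ => P3_O_avoid W0 W0 k _) (fun k _ _ => P3_O_avoid W0 W8 k _)
    (hR 0 (Or.inl rfl))
    (hav 0 (Or.inl rfl) (-1) fun m hm hmp h =>
      P3_absurd h (m + 1) (by omega) (by omega) (Or.inl (by push_cast; ring)))
    (hav 0 (Or.inl rfl) (-8) fun m hm hmp h =>
      P3_absurd h (m + 8) (by omega) (by omega) (Or.inl (by push_cast; ring)))
    (hRI 0 (Or.inl rfl))) rfl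
  obtain ⟨i3, hi3, a3, b3, ha3, hb3, hX3⟩ := key _ _ _ (phi2P W hW hO
    (fun k _ _ => P3_O_avoid W0 W0 k _) (fun k _ _ => P3_O_avoid W0 W8 k _)
    (hR 1 (Or.inr rfl))
    (hav 1 (Or.inr rfl) 0 fun m hm hmp h =>
      P3_absurd h m (by omega) (by omega) (Or.inl (by ring)))
    (hav 1 (Or.inr rfl) (-9) fun m hm hmp h =>
      P3_absurd h (m + 9) (by omega) (by omega) (Or.inl (by push_cast; ring)))
    (hRI 1 (Or.inr rfl))) rfl
  simp only [Finset.mem_filter, Finset.mem_range] at hi1 hj1 hi2 hi3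
  have hI1 : (tstrip q true τ).Ind a1 b1 := hO.ind i1 j1 (by omega) (by omega)
    (Nat.even_iff.2 hi1.2) (Nat.odd_iff.2 hj1.2) a1 b1 ha1 hb1
  have hI2 := hRI 0 (Or.inl rfl) i2 (by omega) hi2.2 a2 b2 ha2 hb2
  have hI3 := hRI 1 (Or.inr rfl) i3 (by omega) hi3.2 a3 b3 ha3 hb3
  have hI23 : (tstrip q true τ).Ind a2 a3 := hO.ind i2 i3 (by omega) (by omega)
    (Nat.even_iff.2 hi2.2) (Nat.odd_iff.2 hi3.2) a2 a3 ha2 ha3
  have k1 := P3_O_ByT _ _ ha1
  have k1' := P3_O_ByT _ _ hb1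
  have k2 := P3_O_ByT _ _ ha2
  have k3 := P3_O_ByT _ _ ha3
  have k2' := (P3_R_end hN W0 W8 (Or.inl rfl) hb2).1
  have k3' := (P3_R_end hN W0 W8 (Or.inr rfl) hb3).1
  have hmem : ∀ e f, (tstrip q true τ).Ind e f → P.X e f = 1 → ByT q true τ e →
      (e, f) ∈ P.cross.filter (fun p => ByT q true τ p.1 ∨ ByT q true τ p.2) ∧
      (f, e) ∈ P.cross.filter (fun p => ByT q true τ p.1 ∨ ByT q true τ p.2) := by
    intro e f hI hX hB
    refine ⟨Finset.mem_filter.2 ⟨PS.mem_cross.2 ⟨hI, hX⟩, Or.inl hB⟩,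
      Finset.mem_filter.2 ⟨PS.mem_cross.2 ⟨hI.symm, ?_⟩, Or.inr hB⟩⟩
    rw [← P.X_symm _ _ hI]
    exact hX
  exact P3_six (ByT q true τ) (hmem _ _ hI1 hX1 k1).1 (hmem _ _ hI1 hX1 k1).2
    (hmem _ _ hI2 hX2 k2).1 (hmem _ _ hI2 hX2 k2).2 (hmem _ _ hI3 hX3 k3).1
    (hmem _ _ hI3 hX3 k3).2 k1 k1' k2 k2' k3 k3' (fun h => hI23.1 (by rw [h]))
    (fun h => hI1.1 (by rw [h]))

end

end Pool.Agent.CC
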