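import Pool.Agent.Lib_helper74.CCF.F2defs
import Pool.Agent.Lib_helper74.CCF.Phi
import Pool.Agent.Lib_helper74.CCF.SSlots
import Pool.Agent.Lib_helper74.CCF.Plus3

/-! OPTS (F2LB): `four_pairs` and `opt_pair`. -/

namespace Pool.Agent.CC

open Gph


variable {N : ℕ} [NeZero N]


/-! ### local -/

/-- left part: `r6` if `α`, else `r4` -/
def O41_e (α : Bool) : (t : RT) → Finset (t.loc 1).E
  | .T => RT.eB 1 0 .T
  | .G => RT.eB 1 0 .G
  | .W => if α = true then RT.r6 false .W else RT.r4 false .W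

/-- right part: `r6` if `β`, else `r4` -/
def O41_s (β : Bool) : (t : RT) → Finset (t.loc 1).E
  | .T => RT.sA 1 0 .T
  | .G => RT.sA 1 0 .G
  | .W => if β = true then RT.r6 true .W else RT.r4 true .W

theorem O41_mem6 {s : Bool} {x : Bool × WE 0} (h : x ∈ RT.r6 s .W) :
    x = (s, .s3) ∨ x = (s, .row ⟨0, by omega⟩) ∨ x = (s, .leg ⟨2, by omega⟩) := by
  have h' : x ∈ ({(s, .s3), (s, .row ⟨0, by omega⟩), (s, .leg ⟨2, by omega⟩)} :
    Finset (Bool × WE 0)) := h
  simpa only [Finset.mem_insert, Finset.mem_singleton] using h'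

theorem O41_mem4 {s : Bool} {x : Bool × WE 0} (h : x ∈ RT.r4 s .W) :
    x = (s, .sig) ∨ x = (s, .b2) := by
  have h' : x ∈ ({(s, .sig), (s, .b2)} : Finset (Bool × WE 0)) := h
  simpa only [Finset.mem_insert, Finset.mem_singleton] using h'

theorem O41_ls4 {M : Type} [AddCommGroup M] (h2 : ∀ x : M, x + x = 0) (s : Bool)
    (f : (RT.W.loc 1).V ⊕ Bool → M) :
    SS93_ls (RT.W.loc 1) f (RT.r4 s .W) =
      f (.inl ((s, WV.w) : Bool × WV 0)) + f (.inr (!s)) := by
  have h1 : SS93_ls (RT.W.loc 1) f (RT.r4 s .W) =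
      (f (.inl ((s, WV.v2) : Bool × WV 0)) + f (.inl ((s, WV.w) : Bool × WV 0))) +
      (f (.inl ((s, WV.v2) : Bool × WV 0)) + f (.inr (!s))) := by
    unfold SS93_ls
    have h3 : (RT.r4 s .W) = insert ((s, WE.sig) : Bool × WE 0) {((s, WE.b2) : Bool × WE 0)} := rfl
    refine (Finset.sum_insert (ι := Bool × WE 0) (by simp)).trans ?_
    refine congrArg₂ (· + ·) rfl ?_
    exact Finset.sum_singleton _ _
  rw [h1, SS93_char' h2]

theorem O41_ls6 {M : Type} [AddCommGroup M] (h2 : ∀ x : M, x + x = 0) (s : Bool)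
    (f : (RT.W.loc 1).V ⊕ Bool → M) :
    SS93_ls (RT.W.loc 1) f (RT.r6 s .W) =
      f (.inl ((s, WV.w) : Bool × WV 0)) + f (.inr (!s)) := by
  have h1 : SS93_ls (RT.W.loc 1) f (RT.r6 s .W) =
      (f (.inl ((s, WV.w) : Bool × WV 0)) + f (.inl ((s, WV.x ⟨0, by omega⟩) : Bool × WV 0))) +
      ((f (.inl ((s, WV.x ⟨0, by omega⟩) : Bool × WV 0)) +
        f (.inl ((s, WV.x ⟨1, by omega⟩) : Bool × WV 0))) +
      (f (.inl ((s, WV.x ⟨1, by omega⟩) : Bool × WV 0)) + f (.inr (!s)))) := by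
    unfold SS93_ls
    refine (Finset.sum_insert (ι := Bool × WE 0) (by simp)).trans ?_
    refine congrArg₂ (· + ·) rfl ?_
    refine (Finset.sum_insert (ι := Bool × WE 0) (by simp)).trans ?_
    refine congrArg₂ (· + ·) rfl ?_
    refine (Finset.sum_singleton _ _).trans ?_
    cases s <;> rfl
  rw [h1, SS93_char h2, SS93_char h2]

theorem O41_e_ls {M : Type} [AddCommGroup M] (h2 : ∀ x : M, x + x = 0) (α : Bool) (t : RT)
    (f : (t.loc 1).V ⊕ Bool → M) :
    SS93_ls (t.loc 1) f (O41_e α t) = f (.inl (t.loc 1).en) + f (.inr true) := by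
  cases t with
  | T => exact SS93_eB 1 h2 .T 0 (by omega) f
  | G => exact SS93_eB 1 h2 .G 0 (by omega) f
  | W =>
    cases α
    · exact O41_ls4 h2 false f
    · exact O41_ls6 h2 false f

theorem O41_s_ls {M : Type} [AddCommGroup M] (h2 : ∀ x : M, x + x = 0) (β : Bool) (t : RT)
    (f : (t.loc 1).V ⊕ Bool → M) :
    SS93_ls (t.loc 1) f (O41_s β t) = f (.inr false) + f (.inl (t.loc 1).ex) := by
  cases t with
  | T => exact SS93_sA 1 h2 .T 0 (by omega) f
  | G => exact SS93_sA 1 h2 .G 0 (by omega) f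
  | W =>
    rw [add_comm]
    cases β
    · exact O41_ls4 h2 true f
    · exact O41_ls6 h2 true f

/-- the ends of `r4`, `r6` -/
theorem O41_sd {s : Bool} {x : Bool × WE 0} (h : x ∈ RT.r4 s .W ∨ x ∈ RT.r6 s .W)
    (sd : (RT.W.loc 1).V ⊕ Bool → Prop)
    (h1 : ∀ u : WV 0, u ≠ .v1 → sd (.inl ((s, u) : Bool × WV 0))) (h2 : sd (.inr (!s))) :
    sd ((RT.W.loc 1).a x) ∧ sd ((RT.W.loc 1).b x) := by
  rcases h with h | h
  · rcases O41_mem4 h with rfl | rfl
    · exact ⟨h1 _ (by simp), h1 _ (by simp)⟩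
    · exact ⟨h1 _ (by simp), h2⟩
  · rcases O41_mem6 h with rfl | rfl | rfl
    · exact ⟨h1 _ (by simp), h1 _ (by simp)⟩
    · exact ⟨h1 _ (by simp), h1 _ (by simp)⟩
    · refine ⟨h1 _ (by simp), ?_⟩
      cases s
      · exact h2
      · exact h2

theorem O41_e_W {α : Bool} {x : Bool × WE 0} (h : x ∈ O41_e α .W) :
    x ∈ RT.r4 false .W ∨ x ∈ RT.r6 false .W := by
  cases α
  · exact Or.inl h
  · exact Or.inr h

theorem O41_s_W {β : Bool} {x : Bool × WE 0} (h : x ∈ O41_s β .W) :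
    x ∈ RT.r4 true .W ∨ x ∈ RT.r6 true .W := by
  cases β
  · exact Or.inl h
  · exact Or.inr h

theorem O41_sep (α β : Bool) (t : RT) : ∃ sd, SS93_Sep (t.loc 1) (O41_e α t) (O41_s β t) sd := by
  cases t with
  | T => exact SS93_sep 1 0 (by omega) .T
  | G => exact SS93_sep 1 0 (by omega) .G
  | W =>
    refine ⟨fun x : (Bool × WV 0) ⊕ Bool => Sum.elim (fun p : Bool × WV 0 => !p.1) id x,
      rfl, rfl, rfl, rfl, ?_, ?_⟩
    · intro x hx
      exact O41_sd (O41_e_W hx) (fun y : (Bool × WV 0) ⊕ Bool =>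
        Sum.elim (fun p : Bool × WV 0 => !p.1) id y = true) (fun _ _ => rfl) rfl
    · intro x hx
      exact O41_sd (O41_s_W hx) (fun y : (Bool × WV 0) ⊕ Bool =>
        Sum.elim (fun p : Bool × WV 0 => !p.1) id y = false) (fun _ _ => rfl) rfl

theorem O41_e_ok (α : Bool) (t : RT) (x : (t.loc 1).E) (h : x ∈ O41_e α t) :
    P3_oke 1 t false x := by
  cases t with
  | T => exact P3_B 1 .T x (Or.inl h)
  | G => exact P3_B 1 .G x (Or.inl h)
  | W =>
    exact O41_sd (O41_e_W h) (P3_ok 1 .W false) (fun u hu => P3_okW 1 false false u hu)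
      (P3_okH 1 .W false true (by simp))

theorem O41_s_ok (β : Bool) (t : RT) (x : (t.loc 1).E) (h : x ∈ O41_s β t) :
    P3_oke 1 t true x := by
  cases t with
  | T => exact P3_A 1 .T x (Or.inr h)
  | G => exact P3_A 1 .G x (Or.inr h)
  | W =>
    exact O41_sd (O41_s_W h) (P3_ok 1 .W true) (fun u hu => P3_okW 1 true true u hu)
      (P3_okH 1 .W true false (by simp))

theorem O41_46 {s s' : Bool} {x : Bool × WE 0} (h : x ∈ RT.r4 s .W) (h' : x ∈ RT.r6 s' .W) :
    False := by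
  rcases O41_mem4 h with rfl | rfl <;> rcases O41_mem6 h' with h | h | h <;> simp at h

theorem O41_44 {s : Bool} {x : Bool × WE 0} (h : x ∈ RT.r4 s .W) (h' : x ∈ RT.r4 (!s) .W) :
    False := by
  rcases O41_mem4 h with rfl | rfl <;> rcases O41_mem4 h' with h | h <;> simp at h

theorem O41_66 {s : Bool} {x : Bool × WE 0} (h : x ∈ RT.r6 s .W) (h' : x ∈ RT.r6 (!s) .W) :
    False := by
  rcases O41_mem6 h with rfl | rfl | rfl <;> rcases O41_mem6 h' with h | h | h <;> simp at h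

theorem O41_e_r6 (t : RT) (hG : t ≠ .G) (s : Bool) (x : (t.loc 1).E) (h : x ∈ O41_e false t)
    (h' : x ∈ RT.r6 s t) : False := by
  cases t with
  | T => exact absurd h' (Finset.notMem_empty _)
  | G => exact hG rfl
  | W => exact O41_46 h h'

theorem O41_s_r6 (t : RT) (hG : t ≠ .G) (s : Bool) (x : (t.loc 1).E) (h : x ∈ O41_s false t)
    (h' : x ∈ RT.r6 s t) : False := by
  cases t with
  | T => exact absurd h' (Finset.notMem_empty _)
  | G => exact hG rfl
  | W => exact O41_46 h h'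

theorem O41_e_opt (t : RT) (ht : t = .W) (s : Bool) (x : (t.loc 1).E) (h : x ∈ O41_e (!s) t)
    (h' : x ∈ RT.r4 s t ∨ x ∈ RT.r6 (!s) t) : False := by
  subst ht
  cases s
  · rcases h' with h' | h'
    · exact O41_46 h' h
    · exact O41_66 (s := false) h h'
  · rcases h' with h' | h'
    · exact O41_44 (s := false) h h'
    · exact O41_46 h h'

theorem O41_s_opt (t : RT) (ht : t = .W) (s : Bool) (x : (t.loc 1).E) (h : x ∈ O41_s s t)
    (h' : x ∈ RT.r4 s t ∨ x ∈ RT.r6 (!s) t) : False := by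
  subst ht
  cases s
  · rcases h' with h' | h'
    · exact O41_44 (s := true) h h'
    · exact O41_46 h h'
  · rcases h' with h' | h'
    · exact O41_46 h' h
    · exact O41_66 (s := true) h h'

theorem O41_r6_b1 (t : RT) (s : Bool) (x : (t.loc 1).E) (h : x ∈ RT.r6 s t) :
    ¬ RT.isB1 1 t x := by
  cases t with
  | T => exact fun h => h
  | G => exact fun h => h
  | W =>
    intro hb
    have hb' : x.2 = WE.b1 := hb
    rcases O41_mem6 h with rfl | rfl | rfl <;> simp at hb'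

/-! ### the strip -/

section

variable {τ : ZMod N → RT}

/-- the edges of the through data -/
def O41_good (D : Thru 1 true τ) : Prop :=
  ∀ n, (∀ x ∈ D.e n, P3_oke 1 (τ n) false x) ∧ (∀ x ∈ D.s n, P3_oke 1 (τ n) true x)

theorem O41_thru (hN : 16 ≤ N) (α β : ZMod N → Bool) :
    ∃ D : Thru 1 true τ, (∀ n, D.e n = O41_e (α n) (τ n)) ∧ (∀ n, D.s n = O41_s (β n) (τ n)) ∧
      O41_good D := by
  obtain ⟨D, h1, h2⟩ := SS93_mk 1 true τ (by omega) (fun n => O41_e (α n) (τ n))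
    (fun n => O41_s (β n) (τ n)) (fun n f => O41_e_ls SS93_two (α n) (τ n) f)
    (fun n f => O41_s_ls SS93_two (β n) (τ n) f) (fun n => O41_sep (α n) (β n) (τ n))
  refine ⟨D, h1, h2, fun n => ⟨fun x hx => ?_, fun x hx => ?_⟩⟩
  · rw [h1] at hx
    exact O41_e_ok _ _ _ hx
  · rw [h2] at hx
    exact O41_s_ok _ _ _ hx

/-- the local vertices of a slot of type R -/
def O41_Re (τ : ZMod N → RT) (k : ℕ) (v : (tstrip 1 true τ).V) : Prop :=
  v = hub 1 true τ ((k : ZMod N) - 1) ∨ v = hub 1 true τ ((k : ZMod N) + 1) ∨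
    ((∃ j, P3_InR 1 true τ j v) ∧ ¬ P3_BVr 1 true τ v ∧ ¬ P3_BVl 1 true τ v)

/-- the kinds of edges of a slot of type R -/
theorem O41_kind (D : Thru 1 true τ) {k : ℕ} {e : (tstrip 1 true τ).E} (h : D.slot k e ≠ 0) :
    (e = rowE 1 true τ (k : ZMod N)) ∨
    (∃ x ∈ D.s (k : ZMod N), le 1 true τ (k : ZMod N) x = e) ∨
    (∃ x ∈ D.e ((k : ZMod N) + 1), le 1 true τ ((k : ZMod N) + 1) x = e) := by
  unfold Thru.slot at h
  rcases P3_add_ne h with h | h
  · rcases P3_add_ne h with h | h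
    · exact Or.inr (Or.inl (P3_emb_ne h))
    · exact Or.inl (P3_chi_ne h)
  · exact Or.inr (Or.inr (P3_emb_ne h))

theorem O41_R_end (D : Thru 1 true τ) (hD : O41_good D) {k : ℕ} {e : (tstrip 1 true τ).E}
    (h : D.slot k e ≠ 0) :
    ¬ ByT 1 true τ e ∧ ∀ v, (tstrip 1 true τ).End v e → O41_Re τ k v := by
  have key : ∀ (j : ZMod N) (β : Bool) (x : ((τ j).loc 1).E), P3_oke 1 (τ j) β x →
      hub 1 true τ (if β = true then j - 1 else j) = hub 1 true τ ((k : ZMod N) - 1) ∨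
      hub 1 true τ (if β = true then j - 1 else j) = hub 1 true τ ((k : ZMod N) + 1) →
      ¬ ByT 1 true τ (le 1 true τ j x) ∧
        ∀ v, (tstrip 1 true τ).End v (le 1 true τ j x) → O41_Re τ k v := by
    intro j β x hx hh
    constructor
    · intro hb
      obtain ⟨u, hu, ha⟩ := P3_isB1 1 _ x hb
      have := hx.1.2 u ha
      rcases hu with hu | hu
      · exact this.1 hu
      · exact this.2 hu
    · intro v hv
      have hloc : ∀ y, P3_ok 1 (τ j) β y →
          O41_Re τ k (locEnd (fun j => (τ j).loc 1) j y) := by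
        intro y hy
        rcases P3_locEnd (q := 1) (c := true) j β y hy with h' | h'
        · rcases hh with hh | hh
          · exact Or.inl (h'.trans hh)
          · exact Or.inr (Or.inl (h'.trans hh))
        · exact Or.inr (Or.inr ⟨⟨j, h'.1⟩, h'.2⟩)
      rcases hv with rfl | rfl
      · exact hloc _ hx.1
      · exact hloc _ hx.2
  rcases O41_kind D h with rfl | ⟨x, hx, rfl⟩ | ⟨x, hx, rfl⟩
  · refine ⟨fun h => h, ?_⟩
    rintro v (rfl | rfl)
    · rw [P3_row_a]
      have := P3_by_ex 1 (τ (k : ZMod N))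
      exact Or.inr (Or.inr ⟨⟨_, ⟨_, rfl⟩⟩, P3_not_BV ⟨this.1, this.2.1⟩⟩)
    · rw [P3_row_b]
      have := P3_by_ex 1 (τ ((k : ZMod N) + 1))
      exact Or.inr (Or.inr ⟨⟨_, ⟨_, rfl⟩⟩, P3_not_BV ⟨this.2.2.1, this.2.2.2⟩⟩)
  · exact key _ true x ((hD _).2 x hx) (Or.inl rfl)
  · exact key _ false x ((hD _).1 x hx) (Or.inr rfl)

theorem O41_PR (hN : 16 ≤ N) {i k : ℕ} (hi : i ≤ N - 9) (hk : k ≤ N - 9) (hik : i % 2 ≠ k % 2)
    (v : (tstrip 1 true τ).V) (h : P3_Sl 1 τ i v) (h' : O41_Re τ k v) : False := by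
  rcases h with h | h | ⟨h, hb⟩ | ⟨h, hb⟩ <;> rcases h' with h' | h' | ⟨⟨j, h'⟩, hb1, hb2⟩
  · have := P3_par (N := N) (a := 0) (b := 0) (i := i) (k := k) (by omega) (by omega) (by
      have := P3_hub_inj (h.symm.trans h')
      push_cast
      linear_combination this)
    omega
  · have := P3_par (N := N) (a := 0) (b := 2) (i := i) (k := k) (by omega) (by omega) (by
      have := P3_hub_inj (h.symm.trans h')
      push_cast
      linear_combination this)
    omega
  · rw [h] at h'; exact P3_InR_hub h'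
  · have := P3_par (N := N) (a := 2) (b := 0) (i := i) (k := k) (by omega) (by omega) (by
      have := P3_hub_inj (h.symm.trans h')
      push_cast
      linear_combination this)
    omega
  · have := P3_par (N := N) (a := 0) (b := 0) (i := i) (k := k) (by omega) (by omega) (by
      have := P3_hub_inj (h.symm.trans h')
      push_cast
      linear_combination this)
    omega
  · rw [h] at h'; exact P3_InR_hub h'
  · rw [h'] at h; exact P3_InR_hub h
  · rw [h'] at h; exact P3_InR_hub h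
  · exact hb1 hb
  · rw [h'] at h; exact P3_InR_hub h
  · rw [h'] at h; exact P3_InR_hub h
  · exact hb2 hb

/-- slot of type P (`true`) or R (`false`) -/
noncomputable def O41_T (D : Thru 1 true τ) (a : Bool) (k : ℕ) : (tstrip 1 true τ).E → ZMod 2 :=
  if a = true then P3_O 1 τ k else D.slot k

theorem O41_TT (hodd : Odd N) (hN : 16 ≤ N) (W0 : τ 0 = .T) (W8 : τ (-8) = .T)
    (D : Thru 1 true τ) (hD : O41_good D) (a b : Bool) {i k : ℕ} (hi : i ≤ N - 9)
    (hk : k ≤ N - 9) (hi2 : i % 2 = 0) (hk2 : k % 2 = 1) {e f : (tstrip 1 true τ).E}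
    (he : O41_T D a i e ≠ 0) (hf : O41_T D b k f ≠ 0) : (tstrip 1 true τ).Ind e f := by
  cases a <;> cases b
  · exact (Thru.slots hodd hN D).ind i k hi hk (Nat.even_iff.2 hi2) (Nat.odd_iff.2 hk2) e f he hf
  · exact (P3_ind (O41_PR hN hk hi (by omega)) (P3_O_end k f hf) (O41_R_end D hD he).2).symm
  · exact P3_ind (O41_PR hN hi hk (by omega)) (P3_O_end i e he) (O41_R_end D hD hf).2
  · exact (P3_slots hodd hN W0 W8).ind i k hi hk (Nat.even_iff.2 hi2) (Nat.odd_iff.2 hk2) e f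
      he hf

/-- slots of mixed type: `a` for the even ones, `b` for the odd ones -/
noncomputable def O41_O (D : Thru 1 true τ) (a b : Bool) (k : ℕ) :
    (tstrip 1 true τ).E → ZMod 2 := O41_T D (if k % 2 = 0 then a else b) k

theorem O41_slots (hodd : Odd N) (hN : 16 ≤ N) (W0 : τ 0 = .T) (W8 : τ (-8) = .T)
    (D : Thru 1 true τ) (hD : O41_good D) (a b : Bool) : Slots 1 true τ (O41_O D a b) := by
  have hP := P3_slots (q := 1) hodd hN W0 W8
  have hR := Thru.slots hodd hN D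
  refine ⟨?_, ?_, ?_, ?_⟩
  · intro k hk
    unfold O41_O
    cases (if k % 2 = 0 then a else b)
    · exact hR.bd k hk
    · exact hP.bd k hk
  · intro k hk
    unfold O41_O
    cases (if k % 2 = 0 then a else b)
    · exact hR.inner k hk
    · exact hP.inner k hk
  · intro k hk
    unfold O41_O
    cases (if k % 2 = 0 then a else b)
    · exact hR.odd k hk
    · exact hP.odd k hk
  · intro i k hi hk hi2 hk2 e f he hf
    have h1 := Nat.even_iff.1 hi2
    have h2 := Nat.odd_iff.1 hk2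
    exact O41_TT hodd hN W0 W8 D hD _ _ hi hk h1 h2 he hf

theorem O41_pair {P : (tstrip 1 true τ).PS} (W : Window 1 true τ P)
    (D : Thru 1 true τ) (hD : O41_good D) (a b : Bool) :
    ∃ i k e f, i ≤ N - 9 ∧ k ≤ N - 9 ∧ i % 2 = 0 ∧ k % 2 = 1 ∧ O41_T D a i e ≠ 0 ∧
      O41_T D b k f ≠ 0 ∧ (tstrip 1 true τ).Ind e f ∧ P.X e f = 1 := by
  have hN := W.big
  have hO := O41_slots W.odd hN W.h0 W.h8 D hD a b
  obtain ⟨e, f, he, hf, hX⟩ := P.exists_of_L _ _ (phi12 W (fun _ => le_refl 1) hO)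
  obtain ⟨i, hi, he⟩ := P3_sum_ne (c := O41_O D a b) he
  obtain ⟨k, hk, hf⟩ := P3_sum_ne (c := O41_O D a b) hf
  simp only [Finset.mem_filter, Finset.mem_range] at hi hk
  have he' : O41_T D a i e ≠ 0 := by
    unfold O41_O at he
    rw [if_pos hi.2] at he
    exact he
  have hf' : O41_T D b k f ≠ 0 := by
    unfold O41_O at hf
    rw [if_neg (by omega)] at hf
    exact hf
  exact ⟨i, k, e, f, by omega, by omega, hi.2, hk.2, he', hf',
    O41_TT W.odd hN W.h0 W.h8 D hD a b (by omega) (by omega) hi.2 hk.2 he' hf', hX⟩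

theorem O41_T_ByT (D : Thru 1 true τ) (hD : O41_good D) {a : Bool} {k : ℕ}
    {e : (tstrip 1 true τ).E} (h : O41_T D a k e ≠ 0) : ByT 1 true τ e ↔ a = true := by
  cases a
  · exact ⟨fun hb => absurd hb (O41_R_end D hD h).1, fun h => absurd h (by simp)⟩
  · exact ⟨fun _ => rfl, fun _ => P3_O_ByT k e h⟩

theorem O41_le_le {n m : ZMod N} {x : ((τ n).loc 1).E} {y : ((τ m).loc 1).E}
    (h : le 1 true τ n x = le 1 true τ m y) : n = m ∧ HEq x y :=
  Sigma.mk.inj_iff.1 (Sum.inl.inj h)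

theorem O41_GT (hG : ∀ j, τ j ≠ .G) (D : Thru 1 true τ) (hD : O41_good D)
    (h1 : ∀ n, D.e n = O41_e false (τ n)) (h2 : ∀ n, D.s n = O41_s false (τ n)) {a : Bool} {k : ℕ}
    {e : (tstrip 1 true τ).E} (h : O41_T D a k e ≠ 0) : ¬ GT τ e := by
  rintro ⟨j, s, f, hf, rfl⟩
  cases a
  · have h' : D.slot k (le 1 true τ j f) ≠ 0 := h
    rcases O41_kind D h' with h3 | ⟨x, hx, h3⟩ | ⟨x, hx, h3⟩
    · exact nomatch h3
    · obtain ⟨rfl, h4⟩ := O41_le_le h3
      obtain rfl := eq_of_heq h4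
      rw [h2] at hx
      exact O41_s_r6 _ (hG _) s x hx hf
    · obtain ⟨rfl, h4⟩ := O41_le_le h3
      obtain rfl := eq_of_heq h4
      rw [h1] at hx
      exact O41_e_r6 _ (hG _) s x hx hf
  · exact O41_r6_b1 _ s f hf (P3_O_ByT k _ h)

end

/-- OPTS1. The four classes. Even and odd slots of two types: `P3_O` (bypass edge and `b1`), and
`Thru.slot` for the through data `e n = r4 false`, `s n = r4 true` (in `W`), `eB 0`, `sA 0` (in `T`).
For each of the four combinations `phi12` gives a crossing pair (one edge in an even slot, one in an odd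
slot); the four pairs are different (the four sets of edges are disjoint), avoid `GT`; three of them
contain a `ByT` edge. -/
theorem four_pairs {τ : ZMod N → RT} (hG : ∀ j, τ j ≠ .G) {P : (tstrip 1 true τ).PS}
    (W : Window 1 true τ P) :
    ∃ e f : Fin 4 → (tstrip 1 true τ).E,
      (∀ i, (tstrip 1 true τ).Ind (e i) (f i) ∧ P.X (e i) (f i) = 1) ∧
      (∀ i, ¬ GT τ (e i) ∧ ¬ GT τ (f i)) ∧
      (∀ i, i ≠ 3 → ByT 1 true τ (e i) ∨ ByT 1 true τ (f i)) ∧
      (∀ i k, i ≠ k → (e i, f i) ≠ (e k, f k) ∧ (e i, f i) ≠ (f k, e k)) := by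
  obtain ⟨D, h1, h2, hD⟩ := O41_thru (τ := τ) W.big (fun _ => false) (fun _ => false)
  obtain ⟨a, b, hab, hab3⟩ : ∃ a b : Fin 4 → Bool,
      (∀ i k : Fin 4, i ≠ k → a i ≠ a k ∨ b i ≠ b k) ∧
      (∀ i : Fin 4, i ≠ 3 → a i = true ∨ b i = true) :=
    ⟨fun i => decide (i = 0 ∨ i = 1), fun i => decide (i = 0 ∨ i = 2), by decide, by decide⟩
  choose p r e f hp hr hp2 hr2 he hf hI hX using fun i : Fin 4 => O41_pair W D hD (a i) (b i)
  have hbe := fun i => O41_T_ByT D hD (he i)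
  have hbf := fun i => O41_T_ByT D hD (hf i)
  refine ⟨e, f, fun i => ⟨hI i, hX i⟩,
    fun i => ⟨O41_GT hG D hD h1 h2 (he i), O41_GT hG D hD h1 h2 (hf i)⟩, ?_, ?_⟩
  · intro i hi
    rcases hab3 i hi with h | h
    · exact Or.inl ((hbe i).2 h)
    · exact Or.inr ((hbf i).2 h)
  · intro i k hik
    constructor
    · intro h
      have h3 : e i = e k := congrArg Prod.fst h
      have h4 : f i = f k := congrArg Prod.snd h
      have h5 := hbe i
      rw [h3] at h5
      have h6 := hbf i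
      rw [h4] at h6
      have h7 : a k = a i := Bool.eq_iff_iff.2 ((hbe k).symm.trans h5)
      have h8 : b k = b i := Bool.eq_iff_iff.2 ((hbf k).symm.trans h6)
      rcases hab i k hik with h | h
      · exact h h7.symm
      · exact h h8.symm
    · intro h
      have h3 : e i = f k := congrArg Prod.fst h
      have h4 : (tstrip 1 true τ).Ind (e i) (f k) :=
        O41_TT W.odd W.big W.h0 W.h8 D hD _ _ (hp i) (hr k) (hp2 i) (hr2 k) (he i) (hf k)
      exact h4.1 (by rw [h3])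

/-- OPTS2. The same with both types `Thru.slot`, and the part `s` of the region `m` is passed through
`r6` instead of `r4`. -/
theorem opt_pair {τ : ZMod N → RT} (hG : ∀ j, τ j ≠ .G) {P : (tstrip 1 true τ).PS}
    (W : Window 1 true τ P) (m : ZMod N) (hm : τ m = .W) (s : Bool) :
    ∃ e f : (tstrip 1 true τ).E, (tstrip 1 true τ).Ind e f ∧ P.X e f = 1 ∧
      ¬ ByT 1 true τ e ∧ ¬ ByT 1 true τ f ∧
      (∀ x ∈ RT.r4 s (τ m), e ≠ le 1 true τ m x ∧ f ≠ le 1 true τ m x) ∧
      (∀ x ∈ RT.r6 (!s) (τ m), e ≠ le 1 true τ m x ∧ f ≠ le 1 true τ m x) := by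
  obtain ⟨D, h1, h2, hD⟩ := O41_thru (τ := τ) W.big (fun n => decide (n = m) && !s)
    (fun n => decide (n = m) && s)
  have h1' : D.e m = O41_e (!s) (τ m) := by
    rw [h1]
    simp
  have h2' : D.s m = O41_s s (τ m) := by
    rw [h2]
    simp
  obtain ⟨i, k, e, f, -, -, -, -, he, hf, hI, hX⟩ := O41_pair W D hD false false
  have key : ∀ (k : ℕ) (g : (tstrip 1 true τ).E), D.slot k g ≠ 0 → ∀ x : ((τ m).loc 1).E,
      x ∈ RT.r4 s (τ m) ∨ x ∈ RT.r6 (!s) (τ m) → g ≠ le 1 true τ m x := by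
    intro k g hg x hx hgx
    subst hgx
    rcases O41_kind D hg with h3 | ⟨y, hy, h3⟩ | ⟨y, hy, h3⟩
    · exact nomatch h3
    · obtain ⟨h5, h4⟩ := O41_le_le h3
      revert y
      rw [h5]
      intro y hy h3 h4
      obtain rfl := eq_of_heq h4
      rw [h2'] at hy
      exact O41_s_opt _ hm s y hy hx
    · obtain ⟨h5, h4⟩ := O41_le_le h3
      revert y
      rw [h5]
      intro y hy h3 h4
      obtain rfl := eq_of_heq h4
      rw [h1'] at hy
      exact O41_e_opt _ hm s y hy hx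
  exact ⟨e, f, hI, hX, (O41_R_end D hD he).1, (O41_R_end D hD hf).1,
    fun x hx => ⟨key i e he x (Or.inl hx), key k f hf x (Or.inl hx)⟩,
    fun x hx => ⟨key i e he x (Or.inr hx), key k f hf x (Or.inr hx)⟩⟩

end Pool.Agent.CC
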