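import Pool.Agent.Lib_helper74.CCF.Strip

/-! STP (helper93): ports and tripods in the strips. -/

namespace Pool.Agent.CC

open Gph

namespace STP

section general

variable {N : ℕ} [NeZero N] (L : ZMod N → Loc) (c : Bool)

/-- local vertex of the region `j` with local graph `X` -/
def lv {j : ZMod N} {X : Loc} (h : L j = X) (u : X.V) : (strip L c).V :=
  .inr ⟨j, cast (congrArg Loc.V h.symm) u⟩

/-- local edge of the region `j` with local graph `X` -/
def le {j : ZMod N} {X : Loc} (h : L j = X) (e : X.E) : (strip L c).E :=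
  .inl ⟨j, cast (congrArg Loc.E h.symm) e⟩

/-- the row edge `j` -/
def rw' (j : ZMod N) : (strip L c).E := .inr (.inl j)

def hub (j : ZMod N) : (strip L c).V := .inl j

/-- end in the region `j` -/
def ve {j : ZMod N} {X : Loc} (h : L j = X) : X.V ⊕ Bool → (strip L c).V
  | .inl u => lv L c h u
  | .inr false => hub L c (j - 1)
  | .inr true => hub L c j

theorem a_le {j : ZMod N} {X : Loc} (h : L j = X) (e : X.E) :
    (strip L c).a (le L c h e) = ve L c h (X.a e) := by
  subst h
  show locEnd L j ((L j).a e) = ve L c rfl ((L j).a e)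
  rcases (L j).a e with u | (_ | _) <;> rfl

theorem b_le {j : ZMod N} {X : Loc} (h : L j = X) (e : X.E) :
    (strip L c).b (le L c h e) = ve L c h (X.b e) := by
  subst h
  show locEnd L j ((L j).b e) = ve L c rfl ((L j).b e)
  rcases (L j).b e with u | (_ | _) <;> rfl

theorem a_rw {j : ZMod N} {X : Loc} (h : L j = X) :
    (strip L c).a (rw' L c j) = lv L c h X.ex := by
  subst h; rfl

theorem b_rw {j : ZMod N} {X : Loc} (h : L (j + 1) = X) :
    (strip L c).b (rw' L c j) = lv L c h X.en := by
  subst h; rfl

theorem b_rw' {j : ZMod N} {X : Loc} (h : L j = X) :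
    (strip L c).b (rw' L c (j - 1)) = lv L c h X.en := by
  subst h
  show (Sum.inr ⟨j - 1 + 1, (L (j - 1 + 1)).en⟩ : ZMod N ⊕ (Σ j, (L j).V)) =
    Sum.inr ⟨j, (L j).en⟩
  have : ∀ k : ZMod N, k = j → (Sum.inr ⟨k, (L k).en⟩ : ZMod N ⊕ (Σ j, (L j).V)) =
    Sum.inr ⟨j, (L j).en⟩ := by rintro k rfl; rfl
  exact this _ (sub_add_cancel j 1)

theorem lv_inj {j : ZMod N} {X : Loc} (h : L j = X) {u v : X.V}
    (huv : lv L c h u = lv L c h v) : u = v := by
  subst h
  exact eq_of_heq (Sigma.mk.inj_iff.1 (Sum.inr.inj huv)).2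

theorem le_inj {j : ZMod N} {X : Loc} (h : L j = X) {u v : X.E}
    (huv : le L c h u = le L c h v) : u = v := by
  subst h
  exact eq_of_heq (Sigma.mk.inj_iff.1 (Sum.inl.inj huv)).2

theorem lv_ne_hub {j : ZMod N} {X : Loc} (h : L j = X) (u : X.V) (k : ZMod N) :
    lv L c h u ≠ hub L c k := by
  intro hh; cases hh

theorem lv_ne {j k : ZMod N} {X Y : Loc} (h : L j = X) (h' : L k = Y) (u : X.V) (v : Y.V)
    (hjk : j ≠ k) : lv L c h u ≠ lv L c h' v := by
  subst h; subst h'
  intro hh
  apply hjk
  have := Sum.inr.inj hh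
  exact (Sigma.mk.inj_iff.1 this).1

theorem le_ne {j k : ZMod N} {X Y : Loc} (h : L j = X) (h' : L k = Y) (u : X.E) (v : Y.E)
    (hjk : j ≠ k) : le L c h u ≠ le L c h' v := by
  subst h; subst h'
  intro hh
  apply hjk
  have := Sum.inl.inj hh
  exact (Sigma.mk.inj_iff.1 this).1

theorem le_ne_rw {j k : ZMod N} {X : Loc} (h : L j = X) (e : X.E) :
    le L c h e ≠ rw' L c k := by
  intro hh; cases hh

theorem hub_inj {j k : ZMod N} (h : hub L c j = hub L c k) : j = k := Sum.inl.inj h

theorem rw_inj {j k : ZMod N} (h : rw' L c j = rw' L c k) : j = k :=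
  Sum.inl.inj (Sum.inr.inj h)

/-- ends of an edge of another region are different from a local vertex -/
theorem ve_ne {j k : ZMod N} {X Y : Loc} (h : L j = X) (h' : L k = Y) (u : X.V)
    (w : Y.V ⊕ Bool) (hjk : j ≠ k) : ve L c h' w ≠ lv L c h u := by
  rcases w with w | (_ | _)
  · exact fun hh => lv_ne L c h' h w u (Ne.symm hjk) hh
  · exact fun hh => lv_ne_hub L c h u _ hh.symm
  · exact fun hh => lv_ne_hub L c h u _ hh.symm

theorem ve_eq_lv {j : ZMod N} {X : Loc} (h : L j = X) (u : X.V)
    (w : X.V ⊕ Bool) (hh : ve L c h w = lv L c h u) : w = .inl u := by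
  rcases w with w | (_ | _)
  · exact congrArg _ (lv_inj L c h hh)
  · exact absurd hh.symm (lv_ne_hub L c h u _)
  · exact absurd hh.symm (lv_ne_hub L c h u _)

theorem edge_at0 (j : ZMod N) (u : (L j).V) (hen : u ≠ (L j).en) (hex : u ≠ (L j).ex)
    (hbl : (L j).bl ≠ some u) (hbr : (L j).br ≠ some u) (f : (strip L c).E)
    (hf : (strip L c).a f = .inr ⟨j, u⟩ ∨ (strip L c).b f = .inr ⟨j, u⟩) :
    ∃ e : (L j).E, f = .inl ⟨j, e⟩ ∧ ((L j).a e = .inl u ∨ (L j).b e = .inl u) := by
  have hloc : ∀ (k : ZMod N) (w : (L k).V ⊕ Bool), locEnd L k w = .inr ⟨j, u⟩ →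
      ∃ hk : k = j, hk ▸ w = Sum.inl u := by
    intro k w hw
    rcases w with w | (_ | _)
    · have := Sum.inr.inj hw
      obtain ⟨h1, h2⟩ := Sigma.mk.inj_iff.1 this
      subst h1
      exact ⟨rfl, congrArg _ (eq_of_heq h2)⟩
    · cases hw
    · cases hw
  rcases f with ⟨k, e⟩ | k | ⟨k, hk⟩
  · rcases hf with hf | hf
    · obtain ⟨hk, hw⟩ := hloc k _ hf
      subst hk
      exact ⟨e, rfl, Or.inl hw⟩
    · obtain ⟨hk, hw⟩ := hloc k _ hf
      subst hk
      exact ⟨e, rfl, Or.inr hw⟩
  · exfalso
    rcases hf with hf | hf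
    · have := Sum.inr.inj hf
      obtain ⟨h1, h2⟩ := Sigma.mk.inj_iff.1 this
      subst h1
      exact hex (eq_of_heq h2).symm
    · have := Sum.inr.inj hf
      obtain ⟨h1, h2⟩ := Sigma.mk.inj_iff.1 this
      subst h1
      exact hen (eq_of_heq h2).symm
  · exfalso
    rcases hf with hf | hf
    · change byL L k = .inr ⟨j, u⟩ at hf
      unfold byL at hf
      rcases hbk : (L k).br with _ | w
      · rw [hbk] at hf; cases hf
      · rw [hbk] at hf
        have := Sum.inr.inj hf
        obtain ⟨h1, h2⟩ := Sigma.mk.inj_iff.1 this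
        subst h1
        exact hbr (by rw [hbk, eq_of_heq h2])
    · change byR L k = .inr ⟨j, u⟩ at hf
      unfold byR at hf
      rcases hbk : (L (k + 1)).bl with _ | w
      · rw [hbk] at hf; cases hf
      · rw [hbk] at hf
        have := Sum.inr.inj hf
        obtain ⟨h1, h2⟩ := Sigma.mk.inj_iff.1 this
        subst h1
        exact hbl (by rw [hbk, eq_of_heq h2])

theorem edge_at {j : ZMod N} {X : Loc} (h : L j = X) (u : X.V) (hen : u ≠ X.en)
    (hex : u ≠ X.ex) (hbl : X.bl ≠ some u) (hbr : X.br ≠ some u) (f : (strip L c).E)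
    (hf : (strip L c).a f = lv L c h u ∨ (strip L c).b f = lv L c h u) :
    ∃ e : X.E, f = le L c h e ∧ (X.a e = .inl u ∨ X.b e = .inl u) := by
  subst h
  exact edge_at0 L c j u hen hex hbl hbr f hf

end general

/-! ### boundaries -/

theorem bd_empty (G : Gph) : G.bd ∅ = 0 := by
  funext v; simp [Gph.bd]

theorem bd_single (G : Gph) (e : G.E) : G.bd {e} = G.one (G.a e) + G.one (G.b e) := by
  funext v; simp [Gph.bd, Gph.one]

theorem bd_insert (G : Gph) {e : G.E} {s : Finset G.E} (h : e ∉ s) :
    G.bd (insert e s) = G.one (G.a e) + G.one (G.b e) + G.bd s := by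
  funext v; simp [Gph.bd, Gph.one, Finset.sum_insert h]

theorem one_add_self (G : Gph) (u : G.V) : G.one u + G.one u = 0 := by
  funext v
  simp only [Pi.add_apply, Pi.zero_apply]
  exact CharTwo.add_self_eq_zero _

/-- mod 2 cancellation -/
theorem fun_add_self {α : Type} (x : α → ZMod 2) : x + x = 0 := by
  funext v
  simp only [Pi.add_apply, Pi.zero_apply]
  exact CharTwo.add_self_eq_zero _


theorem inj3 {α : Type} {x y z : α} (hxy : x ≠ y) (hxz : x ≠ z) (hyz : y ≠ z) :
    Function.Injective ![x, y, z] := by
  intro a b h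
  fin_cases a <;> fin_cases b
  · rfl
  · exact absurd h hxy
  · exact absurd h hxz
  · exact absurd h.symm hxy
  · rfl
  · exact absurd h hyz
  · exact absurd h.symm hxz
  · exact absurd h.symm hyz
  · rfl

theorem disj3 {α : Type} [DecidableEq α] {x y z : Finset α} (hxy : Disjoint x y)
    (hxz : Disjoint x z) (hyz : Disjoint y z) (a b : Fin 3) (h : a ≠ b) :
    Disjoint (![x, y, z] a) (![x, y, z] b) := by
  fin_cases a <;> fin_cases b
  · exact absurd rfl h
  · exact hxy
  · exact hxz
  · exact hxy.symm
  · exact absurd rfl h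
  · exact hyz
  · exact hxz.symm
  · exact hyz.symm
  · exact absurd rfl h

/-- from the exit of a region to its right hub -/
theorem exit_chain {N : ℕ} [NeZero N] (L : ZMod N → Loc) (c : Bool) {j : ZMod N} (q : ℕ) (r : RT)
    (h : L j = r.loc q) : ∃ s : Finset (strip L c).E,
      (strip L c).bd s = (strip L c).one (lv L c h (r.loc q).ex) + (strip L c).one (hub L c j) ∧
      ∀ f ∈ s, ∃ e, f = le L c h e := by
  have key : ∃ (e1 e2 : (r.loc q).E) (u : (r.loc q).V), e1 ≠ e2 ∧
      (((r.loc q).a e1 = .inl u ∧ (r.loc q).b e1 = .inl (r.loc q).ex) ∨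
       ((r.loc q).a e1 = .inl (r.loc q).ex ∧ (r.loc q).b e1 = .inl u)) ∧
      (r.loc q).a e2 = .inl u ∧ (r.loc q).b e2 = .inr true := by
    cases r with
    | T =>
      refine ⟨.inr (⟨2 * q + 2, by omega⟩ : Fin (2 * (q + 1) + 1)),
        .inl (⟨2 * q + 2, by omega⟩ : Fin (2 * (q + 1) + 2)),
        (⟨2 * q + 2, by omega⟩ : Fin (2 * (q + 1) + 2)), (by intro hh; cases hh),
        Or.inl ⟨rfl, rfl⟩, rfl, ?_⟩
      show (Sum.inr (decide ((2 * q + 2) % 2 = 0)) : (Fin (2 * (q + 1) + 2)) ⊕ Bool) = .inr true
      have : (2 * q + 2) % 2 = 0 := by omega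
      simp [this]
    | G =>
      refine ⟨(true, .inr (⟨0, by omega⟩ : Fin (2 * q + 1))),
        (true, .inl (⟨1, by omega⟩ : Fin (2 * q + 3))),
        (true, (⟨1, by omega⟩ : Fin (2 * q + 2))), (by intro hh; cases hh),
        Or.inr ⟨rfl, rfl⟩, ?_, rfl⟩
      show (Sum.inl (true, (⟨min 1 (2 * q + 1), by omega⟩ : Fin (2 * q + 2))) :
        (Bool × Fin (2 * q + 2)) ⊕ Bool) = .inl (true, ⟨1, by omega⟩)
      have : min 1 (2 * q + 1) = 1 := by omega
      simp [this]
    | W =>
      refine ⟨(true, .s3), (true, .leg (⟨0, by omega⟩ : Fin (2 * (q - 1) + 3))),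
        (true, .x (⟨0, by omega⟩ : Fin (2 * (q - 1) + 2))), (by intro hh; cases hh),
        Or.inr ⟨rfl, rfl⟩, ?_, rfl⟩
      show (Sum.inl (true, WV.x (⟨min 0 (2 * (q - 1) + 1), by omega⟩ : Fin (2 * (q - 1) + 2))) :
        (Bool × WV (q - 1)) ⊕ Bool) = .inl (true, .x ⟨0, by omega⟩)
      simp
  obtain ⟨e1, e2, u, hne, h1, h2, h3⟩ := key
  refine ⟨{le L c h e1, le L c h e2}, ?_, ?_⟩
  · rw [bd_insert _ (by
      intro hh
      exact hne (le_inj L c h (Finset.mem_singleton.1 hh))), bd_single, a_le, b_le, a_le, b_le,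
      h2, h3]
    have e1' : (strip L c).one (ve L c h ((r.loc q).a e1)) +
        (strip L c).one (ve L c h ((r.loc q).b e1)) =
        (strip L c).one (lv L c h (r.loc q).ex) + (strip L c).one (lv L c h u) := by
      rcases h1 with ⟨ha, hb⟩ | ⟨ha, hb⟩
      · rw [ha, hb]; exact add_comm _ _
      · rw [ha, hb]; rfl
    rw [e1']
    show (strip L c).one (lv L c h (r.loc q).ex) + (strip L c).one (lv L c h u) +
      ((strip L c).one (lv L c h u) + (strip L c).one (hub L c j)) = _
    rw [add_assoc, ← add_assoc ((strip L c).one (lv L c h u)), fun_add_self, zero_add]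
  · intro f hf
    rcases Finset.mem_insert.1 hf with hf | hf
    · exact ⟨e1, hf⟩
    · exact ⟨e2, Finset.mem_singleton.1 hf⟩

/-- edges of another region avoid a local vertex -/
theorem avoid_other {N : ℕ} [NeZero N] (L : ZMod N → Loc) (c : Bool) {j k : ZMod N} {X Y : Loc}
    (h : L j = X) (h' : L k = Y) (u : X.V) (hjk : j ≠ k) (e : Y.E) :
    (strip L c).a (le L c h' e) ≠ lv L c h u ∧ (strip L c).b (le L c h' e) ≠ lv L c h u := by
  rw [a_le, b_le]
  exact ⟨ve_ne L c h h' u _ hjk, ve_ne L c h h' u _ hjk⟩

/-- a local edge avoids a local vertex which is not one of its ends -/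
theorem avoid_same {N : ℕ} [NeZero N] (L : ZMod N → Loc) (c : Bool) {j : ZMod N} {X : Loc}
    (h : L j = X) (u : X.V) (e : X.E) (ha : X.a e ≠ .inl u) (hb : X.b e ≠ .inl u) :
    (strip L c).a (le L c h e) ≠ lv L c h u ∧ (strip L c).b (le L c h e) ≠ lv L c h u := by
  rw [a_le, b_le]
  exact ⟨fun hh => ha (ve_eq_lv L c h u _ hh), fun hh => hb (ve_eq_lv L c h u _ hh)⟩

theorem ne_sub_one {N : ℕ} [NeZero N] (hN : 5 ≤ N) (j : ZMod N) : j ≠ j - 1 := by
  have : Fact (1 < N) := ⟨by omega⟩
  intro h
  have : (1 : ZMod N) = 0 := by linear_combination h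
  exact one_ne_zero this

theorem ne_add_one {N : ℕ} [NeZero N] (hN : 5 ≤ N) (j : ZMod N) : j ≠ j + 1 := by
  have : Fact (1 < N) := ⟨by omega⟩
  intro h
  have : (1 : ZMod N) = 0 := by linear_combination -h
  exact one_ne_zero this

theorem sub_one_ne_add_one {N : ℕ} [NeZero N] (hN : 5 ≤ N) (j : ZMod N) : j - 1 ≠ j + 1 := by
  intro h
  have h2 : ((2 : ℕ) : ZMod N) = 0 := by push_cast; linear_combination -h
  rw [ZMod.natCast_eq_zero_iff] at h2
  have := Nat.le_of_dvd (by norm_num) h2
  omega

end STP

open STP

theorem tripods_T {N : ℕ} [NeZero N] (hN : 5 ≤ N) (q : ℕ) (hq : 1 ≤ q) (c : Bool)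
    (τ : ZMod N → RT) (j : ZMod N) (hj : τ j = .T) :
    ∃ (v : (tstrip q c τ).V) (p : Port (tstrip q c τ) v),
      (∃ u, v = .inr ⟨j, u⟩) ∧ HasTri2 _ p := by
  let L : ZMod N → Loc := fun j => (τ j).loc q
  have h : L j = TLoc (q + 1) := by show (τ j).loc q = _; rw [hj]; rfl
  have hm : L (j - 1) = (τ (j - 1)).loc q := rfl
  have hjm : j ≠ j - 1 := ne_sub_one hN j
  -- names
  let V (i : ℕ) (hi : i < 2 * (q + 1) + 2) : (strip L c).V :=
    lv L c h (⟨i, hi⟩ : Fin (2 * (q + 1) + 2))
  let Lg (i : ℕ) (hi : i < 2 * (q + 1) + 2) : (strip L c).E :=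
    le L c h (.inl (⟨i, hi⟩ : Fin (2 * (q + 1) + 2)))
  let Rw (i : ℕ) (hi : i < 2 * (q + 1) + 1) : (strip L c).E :=
    le L c h (.inr (⟨i, hi⟩ : Fin (2 * (q + 1) + 1)))
  have aLg : ∀ i hi, (strip L c).a (Lg i hi) = V i hi := fun i hi => a_le L c h _
  have bLg0 : ∀ i hi, i % 2 = 0 → (strip L c).b (Lg i hi) = hub L c j := by
    intro i hi h2
    have e := b_le L c h (.inl (⟨i, hi⟩ : Fin (2 * (q + 1) + 2)))
    have e2 : (TLoc (q + 1)).b (.inl (⟨i, hi⟩ : Fin (2 * (q + 1) + 2))) = .inr true := by
      show (Sum.inr (decide (i % 2 = 0)) : (Fin (2 * (q + 1) + 2)) ⊕ Bool) = .inr true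
      simp [h2]
    rw [e2] at e
    exact e
  have bLg1 : ∀ i hi, i % 2 ≠ 0 → (strip L c).b (Lg i hi) = hub L c (j - 1) := by
    intro i hi h2
    have e := b_le L c h (.inl (⟨i, hi⟩ : Fin (2 * (q + 1) + 2)))
    have e2 : (TLoc (q + 1)).b (.inl (⟨i, hi⟩ : Fin (2 * (q + 1) + 2))) = .inr false := by
      show (Sum.inr (decide (i % 2 = 0)) : (Fin (2 * (q + 1) + 2)) ⊕ Bool) = .inr false
      simp [h2]
    rw [e2] at e
    exact e
  have aRw : ∀ i hi, (strip L c).a (Rw i hi) = V i (by omega) := fun i hi => a_le L c h _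
  have bRw : ∀ i hi, (strip L c).b (Rw i hi) = V (i + 1) (by omega) := fun i hi => b_le L c h _
  have Vinj : ∀ i i' hi hi', V i hi = V i' hi' → i = i' := by
    intro i i' hi hi' hh
    have := lv_inj L c h hh
    exact congrArg Fin.val this
  have Vhub : ∀ i hi k, V i hi ≠ hub L c k := fun i hi k => lv_ne_hub L c h _ k
  have Lginj : ∀ i i' hi hi', Lg i hi = Lg i' hi' → i = i' := by
    intro i i' hi hi' hh
    have := le_inj L c h hh
    exact congrArg Fin.val (Sum.inl.inj this)
  have Rwinj : ∀ i i' hi hi', Rw i hi = Rw i' hi' → i = i' := by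
    intro i i' hi hi' hh
    have := le_inj L c h hh
    exact congrArg Fin.val (Sum.inr.inj this)
  have LgRw : ∀ i i' hi hi', Lg i hi ≠ Rw i' hi' := by
    intro i i' hi hi' hh
    have := le_inj L c h hh
    cases this
  have hub_ne : hub L c (j - 1) ≠ hub L c j := fun hh => hjm (hub_inj L c hh).symm
  obtain ⟨sx, hsx, hsx'⟩ := exit_chain L c q (τ (j - 1)) hm
  have hV1 : ∀ i hi, V i hi = V 1 (by omega) → i = 1 := fun i hi hh => Vinj _ _ _ _ hh
  -- the port
  let p : Port (strip L c) (V 1 (by omega)) :=
    { e := ![Rw 0 (by omega), Rw 1 (by omega), Lg 1 (by omega)]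
      nb := ![V 0 (by omega), V 2 (by omega), hub L c (j - 1)]
      e_inj := inj3 (fun hh => absurd (Rwinj _ _ _ _ hh) (by norm_num))
        (fun hh => LgRw _ _ _ _ hh.symm) (fun hh => LgRw _ _ _ _ hh.symm)
      nb_inj := inj3 (fun hh => absurd (Vinj _ _ _ _ hh) (by norm_num))
        (fun hh => Vhub _ _ _ hh) (fun hh => Vhub _ _ _ hh)
      nb_ne := by
        intro x hx
        fin_cases x
        · exact absurd (Vinj _ _ _ _ hx) (by norm_num)
        · exact absurd (Vinj _ _ _ _ hx) (by norm_num)
        · exact Vhub _ _ _ hx.symm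
      ends := by
        intro x
        fin_cases x
        · exact Or.inr ⟨aRw 0 _, bRw 0 _⟩
        · exact Or.inl ⟨aRw 1 _, bRw 1 _⟩
        · exact Or.inl ⟨aLg 1 _, bLg1 1 _ (by norm_num)⟩
      all := by
        intro f hf
        obtain ⟨e, rfl, he⟩ := edge_at L c h (⟨1, by omega⟩ : Fin (2 * (q + 1) + 2))
          (by intro hh; exact absurd (congrArg Fin.val hh) (by show (1 : ℕ) ≠ 0; norm_num))
          (by intro hh; exact absurd (congrArg Fin.val hh) (by
                show (1 : ℕ) ≠ 2 * (q + 1) + 1; omega))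
          (by intro hh; cases hh) (by intro hh; cases hh) f hf
        rcases e with i | i
        · rcases he with he | he
          · have h1 : i = (⟨1, by omega⟩ : Fin (2 * (q + 1) + 2)) := Sum.inl.inj he
            exact ⟨2, by rw [h1]; rfl⟩
          · cases he
        · rcases he with he | he
          · have h1 : i.1 = 1 := congrArg Fin.val (Sum.inl.inj he)
            exact ⟨1, by
              have : i = ⟨1, by omega⟩ := Fin.ext h1
              rw [this]; rfl⟩
          · have h1 : i.1 + 1 = 1 := congrArg Fin.val (Sum.inl.inj he)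
            exact ⟨0, by
              have : i = ⟨0, by omega⟩ := Fin.ext (by simpa using h1)
              rw [this]; rfl⟩ }
  refine ⟨V 1 (by omega), p, ⟨_, rfl⟩, ?_⟩
  have av_Lg : ∀ i hi, i ≠ 1 → (strip L c).a (Lg i hi) ≠ V 1 (by omega) ∧
      (strip L c).b (Lg i hi) ≠ V 1 (by omega) := by
    intro i hi hne
    refine ⟨by rw [aLg]; exact fun hh => hne (hV1 _ _ hh), ?_⟩
    by_cases h2 : i % 2 = 0
    · rw [bLg0 i hi h2]; exact fun hh => Vhub _ _ _ hh.symm
    · rw [bLg1 i hi h2]; exact fun hh => Vhub _ _ _ hh.symm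
  have av_Rw : ∀ i hi, i ≠ 1 → i ≠ 0 → (strip L c).a (Rw i hi) ≠ V 1 (by omega) ∧
      (strip L c).b (Rw i hi) ≠ V 1 (by omega) := by
    intro i hi hne hne0
    refine ⟨by rw [aRw]; exact fun hh => hne (hV1 _ _ hh), ?_⟩
    rw [bRw]; exact fun hh => hne0 (by have := hV1 _ _ hh; omega)
  have av_sx : ∀ f ∈ sx, (strip L c).a f ≠ V 1 (by omega) ∧
      (strip L c).b f ≠ V 1 (by omega) := by
    intro f hf
    obtain ⟨e, rfl⟩ := hsx' f hf
    exact avoid_other L c h hm _ hjm e
  have av_r : (strip L c).a (rw' L c (j - 1)) ≠ V 1 (by omega) ∧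
      (strip L c).b (rw' L c (j - 1)) ≠ V 1 (by omega) := by
    refine ⟨?_, ?_⟩
    · rw [a_rw L c hm]
      exact lv_ne L c hm h _ _ (Ne.symm hjm)
    · rw [b_rw' L c h]
      exact fun hh => absurd (hV1 0 (by omega) hh) (by norm_num)
  have rne : ∀ e : (TLoc (q + 1)).E, rw' L c (j - 1) ≠ le L c h e :=
    fun e hh => le_ne_rw L c h e hh.symm
  have sxne : ∀ f ∈ sx, ∀ e : (TLoc (q + 1)).E, f ≠ le L c h e := by
    intro f hf e hh
    obtain ⟨e', rfl⟩ := hsx' f hf
    exact le_ne L c hm h e' e (Ne.symm hjm) hh
  have r_notin : rw' L c (j - 1) ∉ sx := by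
    intro hh
    obtain ⟨e', he'⟩ := hsx' _ hh
    exact le_ne_rw L c hm e' he'.symm
  have en_eq : lv L c h (TLoc (q + 1)).en = V 0 (by omega) := rfl
  -- tripod 1
  let t1 : Tripod (strip L c) p :=
    { c := hub L c j
      t := ![{Lg 0 (by omega)}, {Lg 2 (by omega)},
        {Lg 5 (by omega), Rw 4 (by omega), Lg 4 (by omega)}]
      c_ne := fun hh => Vhub _ _ _ hh.symm
      avoid := by
        intro x f hf
        fin_cases x
        · rw [Finset.mem_singleton.1 hf]; exact av_Lg 0 _ (by norm_num)
        · rw [Finset.mem_singleton.1 hf]; exact av_Lg 2 _ (by norm_num)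
        · rcases Finset.mem_insert.1 hf with hf | hf
          · rw [hf]; exact av_Lg 5 _ (by norm_num)
          · rcases Finset.mem_insert.1 hf with hf | hf
            · rw [hf]; exact av_Rw 4 _ (by norm_num) (by norm_num)
            · rw [Finset.mem_singleton.1 hf]; exact av_Lg 4 _ (by norm_num)
      bd := by
        intro x
        fin_cases x
        · show (strip L c).bd {Lg 0 _} = (strip L c).one (V 0 _) + (strip L c).one (hub L c j)
          rw [bd_single, aLg, bLg0 0 _ (by norm_num)]
        · show (strip L c).bd {Lg 2 _} = (strip L c).one (V 2 _) + (strip L c).one (hub L c j)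
          rw [bd_single, aLg, bLg0 2 _ (by norm_num)]
        · show (strip L c).bd {Lg 5 _, Rw 4 _, Lg 4 _} =
            (strip L c).one (hub L c (j - 1)) + (strip L c).one (hub L c j)
          rw [bd_insert, bd_insert, bd_single, aLg, bLg1 5 _ (by norm_num), aRw, bRw, aLg,
            bLg0 4 _ (by norm_num)]
          · have k5 := fun_add_self ((strip L c).one (V 5 (by omega)))
            have k4 := fun_add_self ((strip L c).one (V 4 (by omega)))
            calc _ = (strip L c).one (hub L c (j - 1)) + (strip L c).one (hub L c j) +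
                  ((strip L c).one (V 5 (by omega)) + (strip L c).one (V 5 (by omega))) +
                  ((strip L c).one (V 4 (by omega)) + (strip L c).one (V 4 (by omega))) := by
                    ring
              _ = _ := by rw [k5, k4, add_zero, add_zero]
          · intro hh
            exact LgRw _ _ _ _ (Finset.mem_singleton.1 hh).symm
          · intro hh
            rcases Finset.mem_insert.1 hh with hh | hh
            · exact LgRw _ _ _ _ hh
            · exact absurd (Lginj _ _ _ _ (Finset.mem_singleton.1 hh)) (by norm_num)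
      disj := by
        have d01 : Disjoint ({Lg 0 (by omega)} : Finset (strip L c).E) {Lg 2 (by omega)} := by
          rw [Finset.disjoint_singleton]
          exact fun hh => absurd (Lginj _ _ _ _ hh) (by norm_num)
        have d2 : ∀ i hi, i ≠ 5 → i ≠ 4 → Disjoint ({Lg i hi} : Finset (strip L c).E)
            {Lg 5 (by omega), Rw 4 (by omega), Lg 4 (by omega)} := by
          intro i hi h5 h4
          rw [Finset.disjoint_singleton_left]
          intro hh
          rcases Finset.mem_insert.1 hh with hh | hh
          · exact h5 (Lginj _ _ _ _ hh)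
          · rcases Finset.mem_insert.1 hh with hh | hh
            · exact LgRw _ _ _ _ hh
            · exact h4 (Lginj _ _ _ _ (Finset.mem_singleton.1 hh))
        exact disj3 d01 (d2 0 _ (by norm_num) (by norm_num)) (d2 2 _ (by norm_num) (by norm_num)) }
  -- tripod 2
  let t2 : Tripod (strip L c) p :=
    { c := hub L c (j - 1)
      t := ![insert (rw' L c (j - 1)) sx, {Rw 2 (by omega), Lg 3 (by omega)}, ∅]
      c_ne := fun hh => Vhub _ _ _ hh.symm
      avoid := by
        intro x f hf
        fin_cases x
        · rcases Finset.mem_insert.1 hf with hf | hf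
          · rw [hf]; exact av_r
          · exact av_sx f hf
        · rcases Finset.mem_insert.1 hf with hf | hf
          · rw [hf]; exact av_Rw 2 _ (by norm_num) (by norm_num)
          · rw [Finset.mem_singleton.1 hf]; exact av_Lg 3 _ (by norm_num)
        · exact absurd hf (Finset.notMem_empty f)
      bd := by
        intro x
        fin_cases x
        · show (strip L c).bd (insert (rw' L c (j - 1)) sx) =
            (strip L c).one (V 0 _) + (strip L c).one (hub L c (j - 1))
          rw [bd_insert _ r_notin, a_rw L c hm, b_rw' L c h, hsx, en_eq]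
          have k := fun_add_self ((strip L c).one (lv L c hm ((τ (j - 1)).loc q).ex))
          calc _ = (strip L c).one (V 0 (by omega)) + (strip L c).one (hub L c (j - 1)) +
                ((strip L c).one (lv L c hm ((τ (j - 1)).loc q).ex) +
                 (strip L c).one (lv L c hm ((τ (j - 1)).loc q).ex)) := by ring
            _ = _ := by rw [k, add_zero]
        · show (strip L c).bd {Rw 2 _, Lg 3 _} =
            (strip L c).one (V 2 _) + (strip L c).one (hub L c (j - 1))
          rw [bd_insert, bd_single, aRw, bRw, aLg, bLg1 3 _ (by norm_num)]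
          · have k := fun_add_self ((strip L c).one (V 3 (by omega)))
            calc _ = (strip L c).one (V 2 (by omega)) + (strip L c).one (hub L c (j - 1)) +
                  ((strip L c).one (V 3 (by omega)) + (strip L c).one (V 3 (by omega))) := by ring
              _ = _ := by rw [k, add_zero]
          · intro hh
            exact LgRw _ _ _ _ (Finset.mem_singleton.1 hh).symm
        · show (strip L c).bd ∅ =
            (strip L c).one (hub L c (j - 1)) + (strip L c).one (hub L c (j - 1))
          rw [bd_empty, fun_add_self]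
      disj := by
        have d01 : Disjoint (insert (rw' L c (j - 1)) sx)
            ({Rw 2 (by omega), Lg 3 (by omega)} : Finset (strip L c).E) := by
          rw [Finset.disjoint_left]
          intro f hf hf'
          have h1 : ∃ e, f = le L c h e := by
            rcases Finset.mem_insert.1 hf' with hf' | hf'
            · exact ⟨_, hf'⟩
            · exact ⟨_, Finset.mem_singleton.1 hf'⟩
          obtain ⟨e, he⟩ := h1
          rcases Finset.mem_insert.1 hf with hf | hf
          · exact rne e (hf ▸ he)
          · exact sxne f hf e he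
        exact disj3 d01 (Finset.disjoint_empty_right _) (Finset.disjoint_empty_right _) }
  refine ⟨t1, t2, ?_⟩
  have loc1 : ∀ x, ∀ f ∈ t1.t x, (∃ i hi, i ≠ 3 ∧ f = Lg i hi) ∨ f = Rw 4 (by omega) := by
    intro x f hf
    fin_cases x
    · exact Or.inl ⟨0, _, by norm_num, Finset.mem_singleton.1 hf⟩
    · exact Or.inl ⟨2, _, by norm_num, Finset.mem_singleton.1 hf⟩
    · rcases Finset.mem_insert.1 hf with hf | hf
      · exact Or.inl ⟨5, _, by norm_num, hf⟩
      · rcases Finset.mem_insert.1 hf with hf | hf
        · exact Or.inr hf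
        · exact Or.inl ⟨4, _, by norm_num, Finset.mem_singleton.1 hf⟩
  intro x y
  rw [Finset.disjoint_left]
  intro f hf hf'
  have h1 := loc1 x f hf
  have h1' : ∃ e, f = le L c h e := by
    rcases h1 with ⟨i, hi, -, hf⟩ | hf
    · exact ⟨_, hf⟩
    · exact ⟨_, hf⟩
  obtain ⟨e, he⟩ := h1'
  fin_cases y
  · rcases Finset.mem_insert.1 hf' with hf' | hf'
    · exact rne e (hf' ▸ he)
    · exact sxne f hf' e he
  · rcases Finset.mem_insert.1 hf' with hf' | hf'
    · rcases h1 with ⟨i, hi, -, hf⟩ | hf
      · exact LgRw _ _ _ _ (hf.symm.trans hf')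
      · exact absurd (Rwinj _ _ _ _ (hf.symm.trans hf')) (by norm_num)
    · have hf'' := Finset.mem_singleton.1 hf'
      rcases h1 with ⟨i, hi, hi3, hf⟩ | hf
      · exact hi3 (Lginj _ _ _ _ (hf.symm.trans hf''))
      · exact LgRw _ _ _ _ (hf''.symm.trans hf)
  · exact absurd hf' (Finset.notMem_empty f)

theorem tripods_G {N : ℕ} [NeZero N] (hN : 5 ≤ N) (q : ℕ) (c : Bool)
    (τ : ZMod N → RT) (j : ZMod N) (hj : τ j = .G) (hl : τ (j - 1) = .T) (hr : τ (j + 1) = .T) :
    ∃ (v : (tstrip q c τ).V) (p : Port (tstrip q c τ) v),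
      (∃ u, v = .inr ⟨j, u⟩ ∧ HEq u ((false, ⟨2 * q + 1, by omega⟩) : (GLoc q).V)) ∧
        HasTri2 _ p := by
  let L : ZMod N → Loc := fun j => (τ j).loc q
  have h : L j = GLoc q := by show (τ j).loc q = _; rw [hj]; rfl
  have hm : L (j - 1) = (τ (j - 1)).loc q := rfl
  have hp : L (j + 1) = TLoc (q + 1) := by show (τ (j + 1)).loc q = _; rw [hr]; rfl
  have hjm : j ≠ j - 1 := ne_sub_one hN j
  have hjp : j ≠ j + 1 := ne_add_one hN j
  have hmp : j - 1 ≠ j + 1 := sub_one_ne_add_one hN j
  -- names
  let V (s : Bool) (i : ℕ) (hi : i < 2 * q + 2) : (strip L c).V :=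
    lv L c h (s, (⟨i, hi⟩ : Fin (2 * q + 2)))
  let Lg (s : Bool) (i : ℕ) (hi : i < 2 * q + 3) : (strip L c).E :=
    le L c h (s, .inl (⟨i, hi⟩ : Fin (2 * q + 3)))
  let Rw (s : Bool) (i : ℕ) (hi : i < 2 * q + 1) : (strip L c).E :=
    le L c h (s, .inr (⟨i, hi⟩ : Fin (2 * q + 1)))
  have aLg : ∀ s i hi (_ : i ≤ 2 * q + 1), (strip L c).a (Lg s i hi) = V s i (by omega) := by
    intro s i hi h2
    have e := a_le L c h (s, .inl (⟨i, hi⟩ : Fin (2 * q + 3)))
    have e2 : (GLoc q).a (s, .inl (⟨i, hi⟩ : Fin (2 * q + 3))) =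
        .inl (s, (⟨i, by omega⟩ : Fin (2 * q + 2))) := by
      show (Sum.inl (s, (⟨min i (2 * q + 1), by omega⟩ : Fin (2 * q + 2))) :
        (Bool × Fin (2 * q + 2)) ⊕ Bool) = .inl (s, ⟨i, by omega⟩)
      have : min i (2 * q + 1) = i := by omega
      simp [this]
    rw [e2] at e
    exact e
  have aLg' : ∀ s hi, (strip L c).a (Lg s (2 * q + 2) hi) = V s (2 * q + 1) (by omega) := by
    intro s hi
    have e := a_le L c h (s, .inl (⟨2 * q + 2, hi⟩ : Fin (2 * q + 3)))
    have e2 : (GLoc q).a (s, .inl (⟨2 * q + 2, hi⟩ : Fin (2 * q + 3))) =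
        .inl (s, (⟨2 * q + 1, by omega⟩ : Fin (2 * q + 2))) := by
      show (Sum.inl (s, (⟨min (2 * q + 2) (2 * q + 1), by omega⟩ : Fin (2 * q + 2))) :
        (Bool × Fin (2 * q + 2)) ⊕ Bool) = .inl (s, ⟨2 * q + 1, by omega⟩)
      have : min (2 * q + 2) (2 * q + 1) = 2 * q + 1 := by omega
      simp [this]
    rw [e2] at e
    exact e
  have bLg : ∀ s i hi (r : Bool), xor s (decide (i % 2 = 0)) = r →
      (strip L c).b (Lg s i hi) = ve L c h (.inr r) := by
    intro s i hi r h2
    have e := b_le L c h (s, .inl (⟨i, hi⟩ : Fin (2 * q + 3)))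
    have e2 : (GLoc q).b (s, .inl (⟨i, hi⟩ : Fin (2 * q + 3))) = .inr r := by
      show (Sum.inr (xor s (decide (i % 2 = 0))) : (Bool × Fin (2 * q + 2)) ⊕ Bool) = .inr r
      rw [h2]
    rw [e2] at e
    exact e
  have bLgF0 : ∀ i hi, i % 2 = 0 → (strip L c).b (Lg false i hi) = hub L c j := by
    intro i hi h2
    exact bLg false i hi true (by simp [h2])
  have bLgF1 : ∀ i hi, i % 2 ≠ 0 → (strip L c).b (Lg false i hi) = hub L c (j - 1) := by
    intro i hi h2
    exact bLg false i hi false (by simp [h2])
  have bLgT0 : ∀ i hi, i % 2 = 0 → (strip L c).b (Lg true i hi) = hub L c (j - 1) := by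
    intro i hi h2
    exact bLg true i hi false (by simp [h2])
  have bLgT1 : ∀ i hi, i % 2 ≠ 0 → (strip L c).b (Lg true i hi) = hub L c j := by
    intro i hi h2
    exact bLg true i hi true (by simp [h2])
  have aRw : ∀ s i hi, (strip L c).a (Rw s i hi) = V s i (by omega) :=
    fun s i hi => a_le L c h _
  have bRw : ∀ s i hi, (strip L c).b (Rw s i hi) = V s (i + 1) (by omega) :=
    fun s i hi => b_le L c h _
  have Vinj : ∀ s s' i i' hi hi', V s i hi = V s' i' hi' → s = s' ∧ i = i' := by
    intro s s' i i' hi hi' hh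
    have := Prod.mk.inj (lv_inj L c h hh)
    exact ⟨this.1, congrArg Fin.val this.2⟩
  have Vhub : ∀ s i hi k, V s i hi ≠ hub L c k := fun s i hi k => lv_ne_hub L c h _ k
  have Lginj : ∀ s s' i i' hi hi', Lg s i hi = Lg s' i' hi' → s = s' ∧ i = i' := by
    intro s s' i i' hi hi' hh
    have := Prod.mk.inj (le_inj L c h hh)
    exact ⟨this.1, congrArg Fin.val (Sum.inl.inj this.2)⟩
  have Rwinj : ∀ s s' i i' hi hi', Rw s i hi = Rw s' i' hi' → s = s' ∧ i = i' := by
    intro s s' i i' hi hi' hh
    have := Prod.mk.inj (le_inj L c h hh)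
    exact ⟨this.1, congrArg Fin.val (Sum.inr.inj this.2)⟩
  have LgRw : ∀ s s' i i' hi hi', Lg s i hi ≠ Rw s' i' hi' := by
    intro s s' i i' hi hi' hh
    have := (Prod.mk.inj (le_inj L c h hh)).2
    cases this
  have hub_ne : hub L c (j - 1) ≠ hub L c j := fun hh => hjm (hub_inj L c hh).symm
  obtain ⟨sx, hsx, hsx'⟩ := exit_chain L c q (τ (j - 1)) hm
  -- the row chain
  have hrow : ∀ n, n ≤ 2 * q → ∃ s : Finset (strip L c).E,
      (strip L c).bd s = (strip L c).one (V false 0 (by omega)) +
        (strip L c).one (lv L c h (false, (Fin.ofNat (2 * q + 2) n))) ∧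
      ∀ f ∈ s, ∃ i, ∃ hi : i < 2 * q + 1, i < n ∧ f = Rw false i hi := by
    intro n
    induction n with
    | zero =>
      intro _
      refine ⟨∅, ?_, fun f hf => absurd hf (Finset.notMem_empty f)⟩
      rw [bd_empty]
      exact (fun_add_self _).symm
    | succ n ih =>
      intro hn
      obtain ⟨s, hs, hs'⟩ := ih (by omega)
      have hnot : Rw false n (by omega) ∉ s := by
        intro hh
        obtain ⟨i, hi, hin, he⟩ := hs' _ hh
        have := (Rwinj _ _ _ _ _ _ he).2
        omega
      have e1 : (Fin.ofNat (2 * q + 2) n) = (⟨n, by omega⟩ : Fin (2 * q + 2)) := by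
        apply Fin.ext; show n % (2 * q + 2) = n; exact Nat.mod_eq_of_lt (by omega)
      have e2 : (Fin.ofNat (2 * q + 2) (n + 1)) = (⟨n + 1, by omega⟩ : Fin (2 * q + 2)) := by
        apply Fin.ext; show (n + 1) % (2 * q + 2) = n + 1; exact Nat.mod_eq_of_lt (by omega)
      rw [e1] at hs
      refine ⟨insert (Rw false n (by omega)) s, ?_, ?_⟩
      · rw [bd_insert _ hnot, aRw, bRw, hs, e2]
        have k := fun_add_self ((strip L c).one (V false n (by omega)))
        calc _ = (strip L c).one (V false 0 (by omega)) +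
              (strip L c).one (V false (n + 1) (by omega)) +
              ((strip L c).one (V false n (by omega)) +
               (strip L c).one (V false n (by omega))) := by
              show (strip L c).one (V false n _) + (strip L c).one (V false (n + 1) _) +
                ((strip L c).one (V false 0 _) + (strip L c).one (V false n _)) = _
              ring
          _ = _ := by rw [k, add_zero]
      · intro f hf
        rcases Finset.mem_insert.1 hf with hf | hf
        · exact ⟨n, by omega, by omega, hf⟩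
        · obtain ⟨i, hi, hin, he⟩ := hs' f hf
          exact ⟨i, hi, by omega, he⟩
  obtain ⟨sr, hsr, hsr'⟩ := hrow (2 * q) le_rfl
  have e2q : (Fin.ofNat (2 * q + 2) (2 * q)) = (⟨2 * q, by omega⟩ : Fin (2 * q + 2)) := by
    apply Fin.ext; show (2 * q) % (2 * q + 2) = 2 * q; exact Nat.mod_eq_of_lt (by omega)
  rw [e2q] at hsr
  have hV1 : ∀ s i hi, V s i hi = V false (2 * q + 1) (by omega) → s = false ∧ i = 2 * q + 1 :=
    fun s i hi hh => Vinj _ _ _ _ _ _ hh
  -- the port
  let p : Port (strip L c) (V false (2 * q + 1) (by omega)) :=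
    { e := ![Rw false (2 * q) (by omega), Lg false (2 * q + 1) (by omega),
        Lg false (2 * q + 2) (by omega)]
      nb := ![V false (2 * q) (by omega), hub L c (j - 1), hub L c j]
      e_inj := inj3 (fun hh => LgRw _ _ _ _ _ _ hh.symm) (fun hh => LgRw _ _ _ _ _ _ hh.symm)
        (fun hh => by have := (Lginj _ _ _ _ _ _ hh).2; omega)
      nb_inj := inj3 (fun hh => Vhub _ _ _ _ hh) (fun hh => Vhub _ _ _ _ hh) hub_ne
      nb_ne := by
        intro x hx
        fin_cases x
        · have := (Vinj _ _ _ _ _ _ hx).2; omega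
        · exact Vhub _ _ _ _ hx.symm
        · exact Vhub _ _ _ _ hx.symm
      ends := by
        intro x
        fin_cases x
        · exact Or.inr ⟨aRw false (2 * q) _, bRw false (2 * q) _⟩
        · exact Or.inl ⟨aLg false (2 * q + 1) _ le_rfl, bLgF1 (2 * q + 1) _ (by omega)⟩
        · exact Or.inl ⟨aLg' false _, bLgF0 (2 * q + 2) _ (by omega)⟩
      all := by
        intro f hf
        obtain ⟨e, rfl, he⟩ := edge_at L c h (false, (⟨2 * q + 1, by omega⟩ : Fin (2 * q + 2)))
          (by
            intro hh
            have := congrArg Fin.val (Prod.mk.inj hh).2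
            have h2 : 2 * q + 1 = 0 := this
            omega)
          (by
            intro hh
            exact absurd (Prod.mk.inj hh).1 (by decide))
          (by intro hh; cases hh) (by intro hh; cases hh) f hf
        rcases e with ⟨s, k | i⟩
        · rcases he with he | he
          · have h0 := Prod.mk.inj (Sum.inl.inj he)
            have h1 : s = false := h0.1
            have h2 : min k.1 (2 * q + 1) = 2 * q + 1 := congrArg Fin.val h0.2
            subst h1
            have h3 : k.1 = 2 * q + 1 ∨ k.1 = 2 * q + 2 := by have := k.2; omega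
            rcases h3 with h3 | h3
            · refine ⟨1, ?_⟩
              have : k = ⟨2 * q + 1, by omega⟩ := Fin.ext h3
              rw [this]; rfl
            · refine ⟨2, ?_⟩
              have : k = ⟨2 * q + 2, by omega⟩ := Fin.ext h3
              rw [this]; rfl
          · cases he
        · rcases he with he | he
          · have h0 := Prod.mk.inj (Sum.inl.inj he)
            have h2 : i.1 = 2 * q + 1 := congrArg Fin.val h0.2
            have := i.2
            omega
          · have h0 := Prod.mk.inj (Sum.inl.inj he)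
            have h1 : s = false := h0.1
            have h2 : i.1 + 1 = 2 * q + 1 := congrArg Fin.val h0.2
            subst h1
            refine ⟨0, ?_⟩
            have : i = ⟨2 * q, by omega⟩ := Fin.ext (by simpa using h2)
            rw [this]; rfl }
  refine ⟨V false (2 * q + 1) (by omega), p, ⟨_, rfl, cast_heq _ _⟩, ?_⟩
  have av_hub : ∀ k, hub L c k ≠ V false (2 * q + 1) (by omega) :=
    fun k hh => Vhub _ _ _ _ hh.symm
  have av_LgT : ∀ i hi, (strip L c).a (Lg true i hi) ≠ V false (2 * q + 1) (by omega) ∧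
      (strip L c).b (Lg true i hi) ≠ V false (2 * q + 1) (by omega) := by
    intro i hi
    constructor
    · by_cases h2 : i ≤ 2 * q + 1
      · rw [aLg true i hi h2]
        exact fun hh => absurd (hV1 _ _ _ hh).1 (by decide)
      · have h3 : i = 2 * q + 2 := by omega
        subst h3
        rw [aLg' true]
        exact fun hh => absurd (hV1 _ _ _ hh).1 (by decide)
    · by_cases h2 : i % 2 = 0
      · rw [bLgT0 i hi h2]; exact av_hub _
      · rw [bLgT1 i hi h2]; exact av_hub _
  have av_LgF : (strip L c).a (Lg false (2 * q) (by omega)) ≠ V false (2 * q + 1) (by omega) ∧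
      (strip L c).b (Lg false (2 * q) (by omega)) ≠ V false (2 * q + 1) (by omega) := by
    constructor
    · rw [aLg false _ _ (by omega)]
      exact fun hh => by have := (hV1 _ _ _ hh).2; omega
    · rw [bLgF0 _ _ (by omega)]; exact av_hub _
  have av_sr : ∀ f ∈ sr, (strip L c).a f ≠ V false (2 * q + 1) (by omega) ∧
      (strip L c).b f ≠ V false (2 * q + 1) (by omega) := by
    intro f hf
    obtain ⟨i, hi, hin, rfl⟩ := hsr' f hf
    constructor
    · rw [aRw]; exact fun hh => by have := (hV1 _ _ _ hh).2; omega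
    · rw [bRw]; exact fun hh => by have := (hV1 _ _ _ hh).2; omega
  have av_sx : ∀ f ∈ sx, (strip L c).a f ≠ V false (2 * q + 1) (by omega) ∧
      (strip L c).b f ≠ V false (2 * q + 1) (by omega) := by
    intro f hf
    obtain ⟨e, rfl⟩ := hsx' f hf
    exact avoid_other L c h hm _ hjm e
  have av_r : (strip L c).a (rw' L c (j - 1)) ≠ V false (2 * q + 1) (by omega) ∧
      (strip L c).b (rw' L c (j - 1)) ≠ V false (2 * q + 1) (by omega) := by
    refine ⟨?_, ?_⟩
    · rw [a_rw L c hm]
      exact lv_ne L c hm h _ _ (Ne.symm hjm)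
    · rw [b_rw' L c h]
      exact fun hh => by have := (hV1 false 0 (by omega) hh).2; omega
  have av_r2 : (strip L c).a (rw' L c j) ≠ V false (2 * q + 1) (by omega) ∧
      (strip L c).b (rw' L c j) ≠ V false (2 * q + 1) (by omega) := by
    refine ⟨?_, ?_⟩
    · rw [a_rw L c h]
      exact fun hh => absurd (hV1 true 0 (by omega) hh).1 (by decide)
    · rw [b_rw L c hp]
      exact lv_ne L c hp h _ _ (Ne.symm hjp)
  have rne : ∀ k (e : (GLoc q).E), rw' L c k ≠ le L c h e :=
    fun k e hh => le_ne_rw L c h e hh.symm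
  have sxne : ∀ f ∈ sx, ∀ e : (GLoc q).E, f ≠ le L c h e := by
    intro f hf e hh
    obtain ⟨e', rfl⟩ := hsx' f hf
    exact le_ne L c hm h e' e (Ne.symm hjm) hh
  have sxner : ∀ k, rw' L c k ∉ sx := by
    intro k hh
    obtain ⟨e', he'⟩ := hsx' _ hh
    exact le_ne_rw L c hm e' he'.symm
  have srne : ∀ f ∈ sr, ∃ e, f = le L c h e := by
    intro f hf
    obtain ⟨i, hi, -, rfl⟩ := hsr' f hf
    exact ⟨_, rfl⟩
  -- the two edges in the region `j + 1`
  let P0 : (strip L c).E := le L c hp (.inr (⟨0, by omega⟩ : Fin (2 * (q + 1) + 1)))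
  let P1 : (strip L c).E := le L c hp (.inl (⟨1, by omega⟩ : Fin (2 * (q + 1) + 2)))
  let U0 : (strip L c).V := lv L c hp (⟨0, by omega⟩ : Fin (2 * (q + 1) + 2))
  let U1 : (strip L c).V := lv L c hp (⟨1, by omega⟩ : Fin (2 * (q + 1) + 2))
  have aP0 : (strip L c).a P0 = U0 := a_le L c hp _
  have bP0 : (strip L c).b P0 = U1 := b_le L c hp _
  have aP1 : (strip L c).a P1 = U1 := a_le L c hp _
  have bP1 : (strip L c).b P1 = hub L c j := by
    have e := b_le L c hp (.inl (⟨1, by omega⟩ : Fin (2 * (q + 1) + 2)))
    have e2 : (TLoc (q + 1)).b (.inl (⟨1, by omega⟩ : Fin (2 * (q + 1) + 2))) = .inr false := rfl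
    rw [e2] at e
    have e3 : ve L c hp (.inr false) = hub L c (j + 1 - 1) := rfl
    rw [e3, add_sub_cancel_right] at e
    exact e
  have P01 : P0 ≠ P1 := by
    intro hh
    have := le_inj L c hp hh
    cases this
  have avP : ∀ e, (strip L c).a (le L c hp e) ≠ V false (2 * q + 1) (by omega) ∧
      (strip L c).b (le L c hp e) ≠ V false (2 * q + 1) (by omega) :=
    fun e => avoid_other L c h hp _ hjp e
  have hr0 : (strip L c).bd (insert (rw' L c (j - 1)) sx) =
      (strip L c).one (V false 0 (by omega)) + (strip L c).one (hub L c (j - 1)) := by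
    rw [bd_insert _ (sxner _), a_rw L c hm, b_rw' L c h, hsx]
    have k := fun_add_self ((strip L c).one (lv L c hm ((τ (j - 1)).loc q).ex))
    calc _ = (strip L c).one (V false 0 (by omega)) + (strip L c).one (hub L c (j - 1)) +
          ((strip L c).one (lv L c hm ((τ (j - 1)).loc q).ex) +
           (strip L c).one (lv L c hm ((τ (j - 1)).loc q).ex)) := by
          show (strip L c).one (lv L c hm ((τ (j - 1)).loc q).ex) +
            (strip L c).one (V false 0 _) +
            ((strip L c).one (lv L c hm ((τ (j - 1)).loc q).ex) +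
            (strip L c).one (hub L c (j - 1))) = _
          ring
      _ = _ := by rw [k, add_zero]
  have sr_disj : Disjoint sr (insert (rw' L c (j - 1)) sx) := by
    rw [Finset.disjoint_left]
    intro f hf hf'
    obtain ⟨e, he⟩ := srne f hf
    rcases Finset.mem_insert.1 hf' with hf' | hf'
    · exact rne _ e (hf' ▸ he)
    · exact sxne f hf' e he
  -- tripod 1
  let t1 : Tripod (strip L c) p :=
    { c := hub L c j
      t := ![{Lg false (2 * q) (by omega)},
        {Lg true (2 * q + 1) (by omega), Lg true (2 * q + 2) (by omega)}, ∅]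
      c_ne := av_hub _
      avoid := by
        intro x f hf
        fin_cases x
        · rw [Finset.mem_singleton.1 hf]; exact av_LgF
        · rcases Finset.mem_insert.1 hf with hf | hf
          · rw [hf]; exact av_LgT _ _
          · rw [Finset.mem_singleton.1 hf]; exact av_LgT _ _
        · exact absurd hf (Finset.notMem_empty f)
      bd := by
        intro x
        fin_cases x
        · show (strip L c).bd {Lg false (2 * q) _} =
            (strip L c).one (V false (2 * q) _) + (strip L c).one (hub L c j)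
          rw [bd_single, aLg false _ _ (by omega), bLgF0 _ _ (by omega)]
        · show (strip L c).bd {Lg true (2 * q + 1) _, Lg true (2 * q + 2) _} =
            (strip L c).one (hub L c (j - 1)) + (strip L c).one (hub L c j)
          rw [bd_insert, bd_single, aLg true _ _ le_rfl, bLgT1 (2 * q + 1) _ (by omega),
            aLg' true, bLgT0 (2 * q + 2) _ (by omega)]
          · have k := fun_add_self ((strip L c).one (V true (2 * q + 1) (by omega)))
            calc _ = (strip L c).one (hub L c (j - 1)) + (strip L c).one (hub L c j) +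
                  ((strip L c).one (V true (2 * q + 1) (by omega)) +
                   (strip L c).one (V true (2 * q + 1) (by omega))) := by ring
              _ = _ := by rw [k, add_zero]
          · intro hh
            have := (Lginj _ _ _ _ _ _ (Finset.mem_singleton.1 hh)).2
            omega
        · show (strip L c).bd ∅ = (strip L c).one (hub L c j) + (strip L c).one (hub L c j)
          rw [bd_empty, fun_add_self]
      disj := by
        have d01 : Disjoint ({Lg false (2 * q) (by omega)} : Finset (strip L c).E)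
            {Lg true (2 * q + 1) (by omega), Lg true (2 * q + 2) (by omega)} := by
          rw [Finset.disjoint_singleton_left]
          intro hh
          rcases Finset.mem_insert.1 hh with hh | hh
          · exact absurd (Lginj _ _ _ _ _ _ hh).1 (by decide)
          · exact absurd (Lginj _ _ _ _ _ _ (Finset.mem_singleton.1 hh)).1 (by decide)
        exact disj3 d01 (Finset.disjoint_empty_right _) (Finset.disjoint_empty_right _) }
  -- tripod 2
  have q0 : Lg true 0 (by omega) ∉
      ({rw' L c j, P0, P1} : Finset (strip L c).E) := by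
    intro hh
    rcases Finset.mem_insert.1 hh with hh | hh
    · exact rne _ _ hh.symm
    · rcases Finset.mem_insert.1 hh with hh | hh
      · exact le_ne L c h hp _ _ hjp hh
      · exact le_ne L c h hp _ _ hjp (Finset.mem_singleton.1 hh)
  have q1 : rw' L c j ∉ ({P0, P1} : Finset (strip L c).E) := by
    intro hh
    rcases Finset.mem_insert.1 hh with hh | hh
    · exact le_ne_rw L c hp _ hh.symm
    · exact le_ne_rw L c hp _ (Finset.mem_singleton.1 hh).symm
  let t2 : Tripod (strip L c) p :=
    { c := hub L c (j - 1)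
      t := ![sr ∪ insert (rw' L c (j - 1)) sx, ∅,
        insert (Lg true 0 (by omega)) (insert (rw' L c j) {P0, P1})]
      c_ne := av_hub _
      avoid := by
        intro x f hf
        fin_cases x
        · rcases Finset.mem_union.1 hf with hf | hf
          · exact av_sr f hf
          · rcases Finset.mem_insert.1 hf with hf | hf
            · rw [hf]; exact av_r
            · exact av_sx f hf
        · exact absurd hf (Finset.notMem_empty f)
        · rcases Finset.mem_insert.1 hf with hf | hf
          · rw [hf]; exact av_LgT _ _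
          · rcases Finset.mem_insert.1 hf with hf | hf
            · rw [hf]; exact av_r2
            · rcases Finset.mem_insert.1 hf with hf | hf
              · rw [hf]; exact avP _
              · rw [Finset.mem_singleton.1 hf]; exact avP _
      bd := by
        intro x
        fin_cases x
        · show (strip L c).bd (sr ∪ insert (rw' L c (j - 1)) sx) =
            (strip L c).one (V false (2 * q) _) + (strip L c).one (hub L c (j - 1))
          have hu : (strip L c).bd (sr ∪ insert (rw' L c (j - 1)) sx) =
              (strip L c).bd sr + (strip L c).bd (insert (rw' L c (j - 1)) sx) := by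
            funext w
            exact Finset.sum_union sr_disj
          rw [hu, hr0, hsr]
          have k := fun_add_self ((strip L c).one (V false 0 (by omega)))
          calc _ = (strip L c).one (V false (2 * q) (by omega)) +
                (strip L c).one (hub L c (j - 1)) +
                ((strip L c).one (V false 0 (by omega)) +
                 (strip L c).one (V false 0 (by omega))) := by
                show (strip L c).one (V false 0 _) + (strip L c).one (V false (2 * q) _) +
                  ((strip L c).one (V false 0 _) + (strip L c).one (hub L c (j - 1))) = _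
                ring
            _ = _ := by rw [k, add_zero]
        · show (strip L c).bd ∅ =
            (strip L c).one (hub L c (j - 1)) + (strip L c).one (hub L c (j - 1))
          rw [bd_empty, fun_add_self]
        · show (strip L c).bd (insert (Lg true 0 _) (insert (rw' L c j) {P0, P1})) =
            (strip L c).one (hub L c j) + (strip L c).one (hub L c (j - 1))
          rw [bd_insert _ q0, bd_insert _ q1, bd_insert _ (fun hh =>
            P01 (Finset.mem_singleton.1 hh)), bd_single, aLg true 0 _ (by omega),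
            bLgT0 0 _ (by norm_num), a_rw L c h, b_rw L c hp, aP0, bP0, aP1, bP1]
          have k1 := fun_add_self ((strip L c).one (V true 0 (by omega)))
          have k2 := fun_add_self ((strip L c).one U0)
          have k3 := fun_add_self ((strip L c).one U1)
          calc _ = (strip L c).one (hub L c j) + (strip L c).one (hub L c (j - 1)) +
                ((strip L c).one (V true 0 (by omega)) +
                 (strip L c).one (V true 0 (by omega))) +
                ((strip L c).one U0 + (strip L c).one U0) +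
                ((strip L c).one U1 + (strip L c).one U1) := by
                show (strip L c).one (V true 0 _) + (strip L c).one (hub L c (j - 1)) +
                  ((strip L c).one (V true 0 _) + (strip L c).one U0 +
                  ((strip L c).one U0 + (strip L c).one U1 +
                  ((strip L c).one U1 + (strip L c).one (hub L c j)))) = _
                ring
            _ = _ := by rw [k1, k2, k3, add_zero, add_zero, add_zero]
      disj := by
        have d02 : Disjoint (sr ∪ insert (rw' L c (j - 1)) sx)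
            (insert (Lg true 0 (by omega)) (insert (rw' L c j)
              ({P0, P1} : Finset (strip L c).E))) := by
          rw [Finset.disjoint_left]
          intro f hf hf'
          have hcase : f = Lg true 0 (by omega) ∨ f = rw' L c j ∨ ∃ e, f = le L c hp e := by
            rcases Finset.mem_insert.1 hf' with hf' | hf'
            · exact Or.inl hf'
            · rcases Finset.mem_insert.1 hf' with hf' | hf'
              · exact Or.inr (Or.inl hf')
              · rcases Finset.mem_insert.1 hf' with hf' | hf'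
                · exact Or.inr (Or.inr ⟨_, hf'⟩)
                · exact Or.inr (Or.inr ⟨_, Finset.mem_singleton.1 hf'⟩)
          rcases Finset.mem_union.1 hf with hf | hf
          · obtain ⟨i, hi, -, he⟩ := hsr' f hf
            rcases hcase with h1 | h1 | ⟨e, h1⟩
            · exact LgRw _ _ _ _ _ _ (h1.symm.trans he)
            · exact rne _ _ (h1.symm.trans he)
            · exact le_ne L c h hp _ _ hjp (he.symm.trans h1)
          · rcases Finset.mem_insert.1 hf with hf | hf
            · rcases hcase with h1 | h1 | ⟨e, h1⟩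
              · exact rne _ _ (hf.symm.trans h1)
              · exact hjm (rw_inj L c (hf.symm.trans h1)).symm
              · exact le_ne_rw L c hp e (h1.symm.trans hf)
            · rcases hcase with h1 | h1 | ⟨e, h1⟩
              · exact sxne f hf _ h1
              · exact sxner _ (h1 ▸ hf)
              · obtain ⟨e', he'⟩ := hsx' f hf
                exact le_ne L c hm hp e' e hmp (he'.symm.trans h1)
        exact disj3 (Finset.disjoint_empty_right _) d02 (Finset.disjoint_empty_left _) }
  refine ⟨t1, t2, ?_⟩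
  have loc1 : ∀ x, ∀ f ∈ t1.t x, ∃ s i hi, (s = true → i ≠ 0) ∧ f = Lg s i hi := by
    intro x f hf
    fin_cases x
    · exact ⟨false, 2 * q, _, (by intro hh; cases hh), Finset.mem_singleton.1 hf⟩
    · rcases Finset.mem_insert.1 hf with hf | hf
      · exact ⟨true, 2 * q + 1, _, by intro _; omega, hf⟩
      · exact ⟨true, 2 * q + 2, _, by intro _; omega, Finset.mem_singleton.1 hf⟩
    · exact absurd hf (Finset.notMem_empty f)
  intro x y
  rw [Finset.disjoint_left]
  intro f hf hf'
  obtain ⟨s, i, hi, hs0, he⟩ := loc1 x f hf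
  fin_cases y
  · rcases Finset.mem_union.1 hf' with hf' | hf'
    · obtain ⟨i', hi', -, he'⟩ := hsr' f hf'
      exact LgRw _ _ _ _ _ _ (he.symm.trans he')
    · rcases Finset.mem_insert.1 hf' with hf' | hf'
      · exact rne _ _ (hf'.symm.trans he)
      · exact sxne f hf' _ he
  · exact absurd hf' (Finset.notMem_empty f)
  · rcases Finset.mem_insert.1 hf' with hf' | hf'
    · obtain ⟨h1, h2⟩ := Lginj _ _ _ _ _ _ (he.symm.trans hf')
      exact hs0 h1 h2
    · rcases Finset.mem_insert.1 hf' with hf' | hf'
      · exact rne _ _ (hf'.symm.trans he)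
      · rcases Finset.mem_insert.1 hf' with hf' | hf'
        · exact le_ne L c h hp _ _ hjp (he.symm.trans hf')
        · exact le_ne L c h hp _ _ hjp (he.symm.trans (Finset.mem_singleton.1 hf'))

end Pool.Agent.CC
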