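import Pool.Agent.Lib_helper74.CCF.Strip

/-! STS (helper5): the strips are simple; non-adjacency of far regions; degrees. -/

set_option autoImplicit false

namespace Pool.Agent.CC

open Gph

/-! ### generic facts on strips -/

theorem STS5_ne {N : ℕ} (hN : 5 ≤ N) (k : ℕ) (h0 : 0 < k) (h4 : k < 5) : ((k : ℕ) : ZMod N) ≠ 0 := by
  intro h
  rw [ZMod.natCast_eq_zero_iff] at h
  have := Nat.le_of_dvd h0 h
  omega

theorem STS5_ne1 {N : ℕ} (hN : 5 ≤ N) : (1 : ZMod N) ≠ 0 := by
  have := STS5_ne hN 1 (by norm_num) (by norm_num)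
  simpa using this

theorem STS5_ne2 {N : ℕ} (hN : 5 ≤ N) : (2 : ZMod N) ≠ 0 := by
  have := STS5_ne hN 2 (by norm_num) (by norm_num)
  exact_mod_cast this

theorem STS5_ne3 {N : ℕ} (hN : 5 ≤ N) : (3 : ZMod N) ≠ 0 := by
  have := STS5_ne hN 3 (by norm_num) (by norm_num)
  exact_mod_cast this

theorem STS5_ne4 {N : ℕ} (hN : 5 ≤ N) : (4 : ZMod N) ≠ 0 := by
  have := STS5_ne hN 4 (by norm_num) (by norm_num)
  exact_mod_cast this

section
variable {N : ℕ} [NeZero N]

theorem STS5_byL (L : ZMod N → Loc) (j : ZMod N) :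
    ((L j).br = none ∧ byL L j = .inl (j - 1)) ∨
      ∃ v, (L j).br = some v ∧ byL L j = .inr ⟨j, v⟩ := by
  unfold byL
  rcases h : (L j).br with _ | v
  · exact Or.inl ⟨rfl, rfl⟩
  · exact Or.inr ⟨v, rfl, rfl⟩

theorem STS5_byR (L : ZMod N → Loc) (j : ZMod N) :
    ((L (j + 1)).bl = none ∧ byR L j = .inl (j + 1)) ∨
      ∃ v, (L (j + 1)).bl = some v ∧ byR L j = .inr ⟨j + 1, v⟩ := by
  unfold byR
  rcases h : (L (j + 1)).bl with _ | v
  · exact Or.inl ⟨rfl, rfl⟩
  · exact Or.inr ⟨v, rfl, rfl⟩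

/-- a local end, seen from outside -/
theorem STS5_loc_inl (L : ZMod N → Loc) (i j : ZMod N) (x : (L i).V ⊕ Bool) :
    locEnd L i x = .inl j ↔ (x = .inr false ∧ j = i - 1) ∨ (x = .inr true ∧ j = i) := by
  rcases x with v | b
  · simp [locEnd]
  · cases b
    · simp only [locEnd, Sum.inl.injEq, Sum.inr.injEq, Bool.false_eq_true, false_and, or_false,
        true_and]
      exact eq_comm
    · simp only [locEnd, Sum.inl.injEq, Sum.inr.injEq, Bool.true_eq_false, false_and, false_or,
        true_and]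
      exact eq_comm

theorem STS5_loc_inr (L : ZMod N → Loc) (i j : ZMod N) (x : (L i).V ⊕ Bool) (u : (L j).V) :
    locEnd L i x = .inr ⟨j, u⟩ ↔ ∃ v, x = .inl v ∧ (⟨i, v⟩ : Σ j, (L j).V) = ⟨j, u⟩ := by
  rcases x with v | b
  · simp only [locEnd, Sum.inr.injEq, Sum.inl.injEq]
    constructor
    · intro h
      exact ⟨v, rfl, h⟩
    · rintro ⟨w, rfl, h⟩
      exact h
  · cases b <;> simp [locEnd]

theorem STS5_loc_inr' (L : ZMod N → Loc) (j : ZMod N) (x : (L j).V ⊕ Bool) (u : (L j).V) :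
    locEnd L j x = .inr ⟨j, u⟩ ↔ x = .inl u := by
  rw [STS5_loc_inr]
  constructor
  · rintro ⟨v, rfl, h⟩
    rw [Sigma.mk.injEq] at h
    rw [eq_of_heq h.2]
  · rintro rfl
    exact ⟨u, rfl, rfl⟩

theorem STS5_loc_inj (hN : 5 ≤ N) (L : ZMod N → Loc) (j : ZMod N) :
    Function.Injective (locEnd L j) := by
  intro x y h
  rcases y with u | b
  · rw [show locEnd L j (Sum.inl u) = .inr ⟨j, u⟩ from rfl, STS5_loc_inr'] at h
    exact h
  · have h1 : (j : ZMod N) ≠ j - 1 := by
      intro h'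
      apply STS5_ne1 hN
      have : (j : ZMod N) - (j - 1) = 0 := by rw [← h']; ring
      rw [← this]; ring
    cases b
    · rw [show locEnd L j (Sum.inr false) = .inl (j - 1) from rfl, STS5_loc_inl] at h
      rcases h with ⟨h, _⟩ | ⟨_, h⟩
      · exact h
      · exact absurd h.symm h1
    · rw [show locEnd L j (Sum.inr true) = .inl j from rfl, STS5_loc_inl] at h
      rcases h with ⟨_, h⟩ | ⟨h, _⟩
      · exact absurd h h1
      · exact h


/-- the region of a local vertex, seen from a local edge -/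
theorem STS5_loc_region (L : ZMod N → Loc) (i j : ZMod N) (x : (L i).V ⊕ Bool) (u : (L j).V)
    (h : locEnd L i x = .inr ⟨j, u⟩) : i = j := by
  rw [STS5_loc_inr] at h
  obtain ⟨v, _, h⟩ := h
  rw [Sigma.mk.injEq] at h
  exact h.1

/-- local simplicity -/
structure STS5_Simp (L : Loc) : Prop where
  fst : ∀ e, ∃ v, L.a e = .inl v
  ne : ∀ e, L.a e ≠ L.b e
  inj : ∀ e f, s(L.a e, L.b e) = s(L.a f, L.b f) → e = f
  br : ∀ v, L.br = some v → v ≠ L.ex

theorem STS5_loopless (hN : 5 ≤ N) (L : ZMod N → Loc) (c : Bool) (hL : ∀ j, STS5_Simp (L j)) :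
    (strip L c).Loopless := by
  have h1 : ∀ j : ZMod N, j ≠ j + 1 := fun j h => STS5_ne1 hN (by simpa using h.symm)
  have h2 : ∀ j : ZMod N, j - 1 ≠ j + 1 := fun j h => STS5_ne2 hN (by
    have : (j + 1) - (j - 1) = 0 := by rw [h]; ring
    rw [← this]; ring)
  rintro (⟨j, e⟩ | j | ⟨j, hj⟩)
  · intro h
    exact (hL j).ne e (STS5_loc_inj hN L j h)
  · intro h
    have h' : (⟨j, (L j).ex⟩ : Σ j, (L j).V) = ⟨j + 1, (L (j + 1)).en⟩ := Sum.inr.inj h
    rw [Sigma.mk.injEq] at h'
    exact h1 j h'.1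
  · intro h
    change byL L j = byR L j at h
    rcases STS5_byL L j with ⟨_, hl⟩ | ⟨v, _, hl⟩ <;> rcases STS5_byR L j with ⟨_, hr⟩ | ⟨w, _, hr⟩ <;>
      rw [hl, hr] at h
    · exact h2 j (Sum.inl.inj h)
    · exact absurd h (by simp)
    · exact absurd h (by simp)
    · have h' := Sum.inr.inj h
      rw [Sigma.mk.injEq] at h'
      exact h1 j h'.1

theorem STS5_simple (hN : 5 ≤ N) (L : ZMod N → Loc) (c : Bool) (hL : ∀ j, STS5_Simp (L j)) :
    (strip L c).Simple := by
  refine ⟨STS5_loopless hN L c hL, ?_⟩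
  have h1 : ∀ j : ZMod N, j ≠ j + 1 := fun j h => STS5_ne1 hN (by simpa using h.symm)
  have h1' : ∀ j : ZMod N, j - 1 ≠ j := fun j h => h1 (j - 1) (by rw [h]; simpa using h)
  have h2 : ∀ j : ZMod N, j - 1 ≠ j + 1 := fun j h => STS5_ne2 hN (by
    have : (j + 1) - (j - 1) = 0 := by rw [h]; ring
    rw [← this]; ring)
  have h11 : ∀ i j : ZMod N, i = j + 1 → i + 1 ≠ j := fun i j h h' => STS5_ne2 hN (by
    have : j + 1 + 1 - j = 0 := by rw [← h, h']; ring
    rw [← this]; ring)
  -- local edge against row edge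
  have key1 : ∀ (i : ZMod N) (e : (L i).E) (j : ZMod N),
      s(locEnd L i ((L i).a e), locEnd L i ((L i).b e)) ≠
        s((.inr ⟨j, (L j).ex⟩ : ZMod N ⊕ (Σ j, (L j).V)), .inr ⟨j + 1, (L (j + 1)).en⟩) := by
    intro i e j h
    rw [Sym2.eq_iff] at h
    rcases h with ⟨ha, hb⟩ | ⟨ha, hb⟩
    · exact h1 j ((STS5_loc_region L i j _ _ ha).symm.trans (STS5_loc_region L i (j + 1) _ _ hb))
    · exact h1 j ((STS5_loc_region L i j _ _ hb).symm.trans (STS5_loc_region L i (j + 1) _ _ ha))
  -- local edge against bypass edge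
  have key2 : ∀ (i : ZMod N) (e : (L i).E) (j : ZMod N),
      s(locEnd L i ((L i).a e), locEnd L i ((L i).b e)) ≠ s(byL L j, byR L j) := by
    intro i e j h
    obtain ⟨v, hv⟩ := (hL i).fst e
    have hav : locEnd L i ((L i).a e) = .inr ⟨i, v⟩ := by rw [hv]; rfl
    rw [hav, Sym2.eq_iff] at h
    rcases h with ⟨ha, hb⟩ | ⟨ha, hb⟩
    · rcases STS5_byL L j with ⟨_, hl⟩ | ⟨x, _, hl⟩
      · rw [hl] at ha
        exact absurd ha (by simp)
      · rw [hl] at ha
        have h' := Sum.inr.inj ha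
        rw [Sigma.mk.injEq] at h'
        rcases STS5_byR L j with ⟨_, hr⟩ | ⟨y, _, hr⟩
        · rw [hr, STS5_loc_inl] at hb
          rcases hb with ⟨_, hb⟩ | ⟨_, hb⟩
          · exact h2 i (by rw [← hb, h'.1])
          · exact h1 j (by rw [hb, h'.1])
        · rw [hr] at hb
          exact h1 j (by rw [← STS5_loc_region L i (j + 1) _ _ hb, h'.1])
    · rcases STS5_byR L j with ⟨_, hr⟩ | ⟨x, _, hr⟩
      · rw [hr] at ha
        exact absurd ha (by simp)
      · rw [hr] at ha
        have h' := Sum.inr.inj ha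
        rw [Sigma.mk.injEq] at h'
        rcases STS5_byL L j with ⟨_, hl⟩ | ⟨y, _, hl⟩
        · rw [hl, STS5_loc_inl] at hb
          rcases hb with ⟨_, hb⟩ | ⟨_, hb⟩
          · exact h1' j (by rw [hb, h'.1]; ring)
          · exact h2 j (hb.trans h'.1)
        · rw [hl] at hb
          exact h1 j ((STS5_loc_region L i j _ _ hb).symm.trans h'.1)
  -- row edge against bypass edge
  have key3 : ∀ (i j : ZMod N),
      s((.inr ⟨i, (L i).ex⟩ : ZMod N ⊕ (Σ j, (L j).V)), .inr ⟨i + 1, (L (i + 1)).en⟩) ≠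
        s(byL L j, byR L j) := by
    intro i j h
    rw [Sym2.eq_iff] at h
    rcases STS5_byL L j with ⟨_, hl⟩ | ⟨v, hv, hl⟩ <;>
      rcases STS5_byR L j with ⟨_, hr⟩ | ⟨w, hw, hr⟩ <;> rw [hl, hr] at h
    · exact absurd h (by simp)
    · exact absurd h (by simp)
    · exact absurd h (by simp)
    · simp only [Sum.inr.injEq, Sigma.mk.injEq] at h
      rcases h with ⟨⟨rfl, ha⟩, _⟩ | ⟨⟨ha, _⟩, hb, _⟩
      · exact (hL i).br v hv (eq_of_heq ha).symm
      · exact h11 i j ha hb
  rintro (⟨i, e⟩ | i | ⟨i, hi⟩) (⟨j, f⟩ | j | ⟨j, hj⟩) h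
  · change s(locEnd L i ((L i).a e), locEnd L i ((L i).b e)) =
      s(locEnd L j ((L j).a f), locEnd L j ((L j).b f)) at h
    have hij : i = j := by
      obtain ⟨v, hv⟩ := (hL i).fst e
      have hav : locEnd L i ((L i).a e) = .inr ⟨i, v⟩ := by rw [hv]; rfl
      rw [hav, Sym2.eq_iff] at h
      rcases h with ⟨ha, _⟩ | ⟨ha, _⟩
      · exact (STS5_loc_region L j i _ _ ha.symm).symm
      · exact (STS5_loc_region L j i _ _ ha.symm).symm
    subst hij
    have h' : s((L i).a e, (L i).b e) = s((L i).a f, (L i).b f) := by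
      rw [Sym2.eq_iff] at h ⊢
      rcases h with ⟨ha, hb⟩ | ⟨ha, hb⟩
      · exact Or.inl ⟨STS5_loc_inj hN L i ha, STS5_loc_inj hN L i hb⟩
      · exact Or.inr ⟨STS5_loc_inj hN L i ha, STS5_loc_inj hN L i hb⟩
    rw [(hL i).inj e f h']
  · exact absurd h (key1 i e j)
  · exact absurd h (key2 i e j)
  · exact absurd h.symm (key1 j f i)
  · change s((.inr ⟨i, (L i).ex⟩ : ZMod N ⊕ (Σ j, (L j).V)), .inr ⟨i + 1, (L (i + 1)).en⟩) =
      s((.inr ⟨j, (L j).ex⟩ : ZMod N ⊕ (Σ j, (L j).V)), .inr ⟨j + 1, (L (j + 1)).en⟩) at h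
    rw [Sym2.eq_iff] at h
    simp only [Sum.inr.injEq, Sigma.mk.injEq] at h
    rcases h with ⟨⟨rfl, _⟩, _⟩ | ⟨⟨ha, _⟩, hb, _⟩
    · rfl
    · exact absurd hb (h11 i j ha)
  · exact absurd h (key3 i j)
  · exact absurd h.symm (key2 j f i)
  · exact absurd h.symm (key3 j i)
  · change s(byL L i, byR L i) = s(byL L j, byR L j) at h
    have hij : i = j := by
      rw [Sym2.eq_iff] at h
      rcases h with ⟨ha, _⟩ | ⟨ha, hb⟩
      · rcases STS5_byL L i with ⟨_, hl⟩ | ⟨v, _, hl⟩ <;>
          rcases STS5_byL L j with ⟨_, hr⟩ | ⟨w, _, hr⟩ <;> rw [hl, hr] at ha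
        · exact sub_left_injective (Sum.inl.inj ha)
        · exact absurd ha (by simp)
        · exact absurd ha (by simp)
        · have h' := Sum.inr.inj ha
          rw [Sigma.mk.injEq] at h'
          exact h'.1
      · exfalso
        have hx : i - 1 = j + 1 ∨ i = j + 1 := by
          rcases STS5_byL L i with ⟨_, hl⟩ | ⟨v, _, hl⟩ <;>
            rcases STS5_byR L j with ⟨_, hr⟩ | ⟨w, _, hr⟩ <;> rw [hl, hr] at ha
          · exact Or.inl (Sum.inl.inj ha)
          · exact absurd ha (by simp)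
          · exact absurd ha (by simp)
          · have h' := Sum.inr.inj ha
            rw [Sigma.mk.injEq] at h'
            exact Or.inr h'.1
        have hy : i + 1 = j - 1 ∨ i + 1 = j := by
          rcases STS5_byR L i with ⟨_, hl⟩ | ⟨v, _, hl⟩ <;>
            rcases STS5_byL L j with ⟨_, hr⟩ | ⟨w, _, hr⟩ <;> rw [hl, hr] at hb
          · exact Or.inl (Sum.inl.inj hb)
          · exact absurd hb (by simp)
          · exact absurd hb (by simp)
          · have h' := Sum.inr.inj hb
            rw [Sigma.mk.injEq] at h'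
            exact Or.inr h'.1
        rcases hx with hx | hx <;> rcases hy with hy | hy
        · apply STS5_ne4 hN
          have : (i + 1) - (i - 1) - ((j - 1) - (j + 1)) = 0 := by rw [hx, hy]; ring
          rw [← this]; ring
        · apply STS5_ne3 hN
          have : (i + 1) - (i - 1) - (j - (j + 1)) = 0 := by rw [hx, hy]; ring
          rw [← this]; ring
        · apply STS5_ne3 hN
          have : (i + 1) - i - ((j - 1) - (j + 1)) = 0 := by rw [hy, hx]; ring
          rw [← this]; ring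
        · exact h11 i j hx hy
    subst hij
    rfl

theorem STS5_not_adj (L : ZMod N → Loc) (c : Bool) (i j : ZMod N) (h0 : i ≠ j)
    (h1 : i ≠ j + 1) (h2 : j ≠ i + 1) (u : (L i).V) (v : (L j).V) :
    ¬ (strip L c).Adj (.inr ⟨i, u⟩) (.inr ⟨j, v⟩) := by
  have key : ∀ (i j : ZMod N), i ≠ j → i ≠ j + 1 → j ≠ i + 1 → ∀ (u : (L i).V) (v : (L j).V)
      (e : (strip L c).E), ¬ ((strip L c).a e = .inr ⟨i, u⟩ ∧ (strip L c).b e = .inr ⟨j, v⟩) := by
    intro i j h0 h1 h2 u v e he
    obtain ⟨ha, hb⟩ := he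
    rcases e with (⟨k, e⟩ | k | ⟨k, hk⟩)
    · exact h0 ((STS5_loc_region L k i _ _ ha).symm.trans (STS5_loc_region L k j _ _ hb))
    · have ha' := Sum.inr.inj ha
      have hb' := Sum.inr.inj hb
      rw [Sigma.mk.injEq] at ha' hb'
      exact h2 (by rw [← ha'.1, ← hb'.1])
    · change byL L k = _ at ha
      change byR L k = _ at hb
      rcases STS5_byL L k with ⟨_, hl⟩ | ⟨x, _, hl⟩ <;> rw [hl] at ha
      · exact absurd ha (by simp)
      · rcases STS5_byR L k with ⟨_, hr⟩ | ⟨y, _, hr⟩ <;> rw [hr] at hb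
        · exact absurd hb (by simp)
        · have ha' := Sum.inr.inj ha
          have hb' := Sum.inr.inj hb
          rw [Sigma.mk.injEq] at ha' hb'
          exact h2 (by rw [← ha'.1, ← hb'.1])
  rintro ⟨e, he | he⟩
  · exact key i j h0 h1 h2 u v e he
  · exact key j i h0.symm h2 h1 v u e he

end


section
variable {N : ℕ} [NeZero N]

theorem STS5_deg_sum (G : Gph) (h : G.Loopless) (v : G.V) :
    G.deg v = ∑ e : G.E, ((if G.a e = v then 1 else 0) + (if G.b e = v then 1 else 0)) := by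
  unfold Gph.deg
  rw [Finset.card_filter]
  refine Finset.sum_congr rfl fun e _ => ?_
  have := h e
  by_cases h1 : G.a e = v
  · by_cases h2 : G.b e = v
    · exact absurd (h1.trans h2.symm) this
    · simp [h1, h2]
  · simp [h1]

/-- local degree of an end -/
def Loc.ld5 (L : Loc) (x : L.V ⊕ Bool) : ℕ :=
  ∑ e : L.E, ((if L.a e = x then 1 else 0) + (if L.b e = x then 1 else 0))

theorem STS5_sum_sub (c : Bool) (f : ZMod N → ℕ) :
    (∑ x : {_j : ZMod N // c = true}, f x.1) = if c = true then ∑ j, f j else 0 := by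
  cases c
  · rw [if_neg (by simp)]
    exact Finset.sum_eq_zero fun x _ => absurd x.2 (by simp)
  · rw [if_pos rfl]
    exact Fintype.sum_equiv (Equiv.subtypeUnivEquiv (fun _ => rfl)) _ _ (fun x => rfl)

theorem STS5_strip_sum (L : ZMod N → Loc) (c : Bool)
    (f : ZMod N ⊕ (Σ j, (L j).V) → ZMod N ⊕ (Σ j, (L j).V) → ℕ) :
    (∑ e : (strip L c).E, f ((strip L c).a e) ((strip L c).b e)) =
      (∑ i : ZMod N, ∑ e : (L i).E, f (locEnd L i ((L i).a e)) (locEnd L i ((L i).b e))) +
      ((∑ i : ZMod N, f (.inr ⟨i, (L i).ex⟩) (.inr ⟨i + 1, (L (i + 1)).en⟩)) +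
        (if c = true then ∑ i : ZMod N, f (byL L i) (byR L i) else 0)) := by
  have h : (∑ e : (strip L c).E, f ((strip L c).a e) ((strip L c).b e)) =
      ∑ e : (Σ j, (L j).E) ⊕ (ZMod N ⊕ {_j : ZMod N // c = true}),
        f ((strip L c).a e) ((strip L c).b e) := rfl
  rw [h, Fintype.sum_sum_type, Fintype.sum_sum_type, Fintype.sum_sigma]
  refine congrArg₂ (· + ·) rfl (congrArg₂ (· + ·) rfl ?_)
  exact STS5_sum_sub c (fun i => f (byL L i) (byR L i))

theorem STS5_deg_local (L : ZMod N → Loc) (c : Bool) (hl : (strip L c).Loopless)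
    (j : ZMod N) (u : (L j).V) :
    (strip L c).deg (.inr ⟨j, u⟩) = (L j).ld5 (.inl u) + (((if (L j).ex = u then 1 else 0) +
      (if (L j).en = u then 1 else 0)) + (if c = true then (if (L j).br = some u then 1 else 0) +
      (if (L j).bl = some u then 1 else 0) else 0)) := by
  refine (STS5_deg_sum (strip L c) hl (Sum.inr ⟨j, u⟩)).trans ?_
  refine (STS5_strip_sum L c (fun x y =>
    (if x = (.inr ⟨j, u⟩ : ZMod N ⊕ (Σ j, (L j).V)) then 1 else 0) +
    (if y = (.inr ⟨j, u⟩ : ZMod N ⊕ (Σ j, (L j).V)) then 1 else 0))).trans ?_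
  refine congrArg₂ (· + ·) ?_ (congrArg₂ (· + ·) ?_ ?_)
  · rw [Finset.sum_eq_single j]
    · unfold Loc.ld5
      refine Finset.sum_congr rfl fun e _ => ?_
      simp only [STS5_loc_inr']
    · intro i _ hij
      refine Finset.sum_eq_zero fun e _ => ?_
      rw [if_neg (fun h => hij (STS5_loc_region L i j _ _ h)),
        if_neg (fun h => hij (STS5_loc_region L i j _ _ h)), add_zero]
    · intro h
      exact absurd (Finset.mem_univ _) h
  · rw [Finset.sum_add_distrib]
    refine congrArg₂ (· + ·) ?_ ?_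
    · rw [Finset.sum_eq_single j]
      · simp
      · intro i _ hij
        rw [if_neg]
        intro h
        have h' := Sum.inr.inj h
        rw [Sigma.mk.injEq] at h'
        exact hij h'.1
      · intro h
        exact absurd (Finset.mem_univ _) h
    · rw [← Equiv.sum_comp (Equiv.subRight (1 : ZMod N))]
      have : ∀ i : ZMod N, (if (Sum.inr ⟨(Equiv.subRight (1 : ZMod N)) i + 1,
          (L ((Equiv.subRight (1 : ZMod N)) i + 1)).en⟩ : ZMod N ⊕ (Σ j, (L j).V)) = .inr ⟨j, u⟩
          then 1 else 0) = (if (Sum.inr ⟨i, (L i).en⟩ : ZMod N ⊕ (Σ j, (L j).V)) = .inr ⟨j, u⟩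
          then 1 else 0) := by
        intro i
        have hi : (Equiv.subRight (1 : ZMod N)) i + 1 = i := by simp
        rw [hi]
      rw [Finset.sum_congr rfl fun i _ => this i]
      rw [Finset.sum_eq_single j]
      · simp
      · intro i _ hij
        rw [if_neg]
        intro h
        have h' := Sum.inr.inj h
        rw [Sigma.mk.injEq] at h'
        exact hij h'.1
      · intro h
        exact absurd (Finset.mem_univ _) h
  · cases c
    · simp
    · rw [if_pos rfl, if_pos rfl, Finset.sum_add_distrib]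
      refine congrArg₂ (· + ·) ?_ ?_
      · rw [Finset.sum_eq_single j]
        · rcases STS5_byL L j with ⟨h1, h2⟩ | ⟨v, h1, h2⟩
          · rw [h2, h1]
            simp
          · rw [h2, h1]
            simp
        · intro i _ hij
          rw [if_neg]
          intro h
          rcases STS5_byL L i with ⟨_, h2⟩ | ⟨v, _, h2⟩
          · rw [h2] at h
            exact absurd h (by simp)
          · rw [h2] at h
            have h' := Sum.inr.inj h
            rw [Sigma.mk.injEq] at h'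
            exact hij h'.1
        · intro h
          exact absurd (Finset.mem_univ _) h
      · rw [← Equiv.sum_comp (Equiv.subRight (1 : ZMod N))]
        rw [Finset.sum_eq_single j]
        · have hi : (Equiv.subRight (1 : ZMod N)) j + 1 = j := by simp
          rcases STS5_byR L ((Equiv.subRight (1 : ZMod N)) j) with ⟨h1, h2⟩ | ⟨v, h1, h2⟩
          · rw [h2]
            rw [if_neg (by simp)]
            have : (L j).bl = none := by
              rw [hi] at h1
              exact h1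
            rw [this]
            simp
          · rw [h2]
            revert v
            rw [hi]
            intro v h1 _
            rw [h1]
            simp
        · intro i _ hij
          rw [if_neg]
          intro h
          have hi : (Equiv.subRight (1 : ZMod N)) i + 1 = i := by simp
          rcases STS5_byR L ((Equiv.subRight (1 : ZMod N)) i) with ⟨_, h2⟩ | ⟨v, _, h2⟩
          · rw [h2] at h
            exact absurd h (by simp)
          · rw [h2] at h
            have h' := Sum.inr.inj h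
            rw [Sigma.mk.injEq] at h'
            exact hij (hi.symm.trans h'.1)
        · intro h
          exact absurd (Finset.mem_univ _) h

theorem STS5_deg_hub (L : ZMod N → Loc) (c : Bool) (hl : (strip L c).Loopless) (hN : 5 ≤ N)
    (j : ZMod N) :
    (strip L c).deg (.inl j) =
      ((L j).ld5 (.inr true) + (if c = true then (if (L j).bl = none then 1 else 0) else 0)) +
      ((L (j + 1)).ld5 (.inr false) +
        (if c = true then (if (L (j + 1)).br = none then 1 else 0) else 0)) := by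
  refine (STS5_deg_sum (strip L c) hl (Sum.inl j)).trans ?_
  refine (STS5_strip_sum L c (fun x y =>
    (if x = (.inl j : ZMod N ⊕ (Σ j, (L j).V)) then 1 else 0) +
    (if y = (.inl j : ZMod N ⊕ (Σ j, (L j).V)) then 1 else 0))).trans ?_
  have h1 : (∑ i : ZMod N, ∑ e : (L i).E,
      ((if locEnd L i ((L i).a e) = (.inl j : ZMod N ⊕ (Σ j, (L j).V)) then 1 else 0) +
      (if locEnd L i ((L i).b e) = (.inl j : ZMod N ⊕ (Σ j, (L j).V)) then 1 else 0))) =
      (L j).ld5 (.inr true) + (L (j + 1)).ld5 (.inr false) := by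
    have hne : j ≠ j + 1 := fun h => STS5_ne1 hN (by simpa using h.symm)
    have hA : ∀ i : ZMod N, (∑ e : (L i).E,
        ((if locEnd L i ((L i).a e) = (.inl j : ZMod N ⊕ (Σ j, (L j).V)) then 1 else 0) +
        (if locEnd L i ((L i).b e) = (.inl j : ZMod N ⊕ (Σ j, (L j).V)) then 1 else 0))) =
        (if i = j then (L i).ld5 (.inr true) else 0) +
        (if i = j + 1 then (L i).ld5 (.inr false) else 0) := by
      intro i
      simp only [STS5_loc_inl]
      by_cases hi : i = j
      · have hi2 : i ≠ j + 1 := fun h => hne (hi.symm.trans h)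
        have hi3 : ¬ (j = i - 1) := fun h => hne (by rw [hi] at h; rw [← sub_eq_iff_eq_add, ← h])
        rw [if_pos hi, if_neg hi2, add_zero]
        unfold Loc.ld5
        refine Finset.sum_congr rfl fun e _ => ?_
        have hj : j = i := hi.symm
        simp only [hi3, and_false, false_or]
        simp only [hj, and_true]
      · by_cases hi2 : i = j + 1
        · have hi3 : j = i - 1 := by rw [hi2]; ring
          have hi4 : ¬ (j = i) := fun h => hi h.symm
          rw [if_neg hi, if_pos hi2, zero_add]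
          unfold Loc.ld5
          refine Finset.sum_congr rfl fun e _ => ?_
          simp only [hi4, and_false, or_false]
          simp only [← hi3, and_true]
        · have hi3 : ¬ (j = i - 1) := fun h => hi2 (by rw [h]; ring)
          have hi4 : ¬ (j = i) := fun h => hi h.symm
          rw [if_neg hi, if_neg hi2]
          refine Finset.sum_eq_zero fun e _ => ?_
          simp [hi3, hi4]
    rw [Finset.sum_congr rfl fun i _ => hA i, Finset.sum_add_distrib, Finset.sum_ite_eq',
      Finset.sum_ite_eq', if_pos (Finset.mem_univ _), if_pos (Finset.mem_univ _)]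
  have h2 : (∑ i : ZMod N, ((if (.inr ⟨i, (L i).ex⟩ : ZMod N ⊕ (Σ j, (L j).V)) = .inl j then 1
      else 0) + (if (.inr ⟨i + 1, (L (i + 1)).en⟩ : ZMod N ⊕ (Σ j, (L j).V)) = .inl j then 1
      else 0))) = 0 := by
    refine Finset.sum_eq_zero fun i _ => ?_
    simp
  have h3 : (∑ i : ZMod N, ((if byL L i = (.inl j : ZMod N ⊕ (Σ j, (L j).V)) then 1 else 0) +
      (if byR L i = (.inl j : ZMod N ⊕ (Σ j, (L j).V)) then 1 else 0))) =
      (if (L (j + 1)).br = none then 1 else 0) + (if (L j).bl = none then 1 else 0) := by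
    rw [Finset.sum_add_distrib]
    refine congrArg₂ (· + ·) ?_ ?_
    · rw [Finset.sum_eq_single (j + 1)]
      · rcases STS5_byL L (j + 1) with ⟨h1, h2⟩ | ⟨v, h1, h2⟩
        · rw [h2, h1]
          simp
        · rw [h2, h1]
          simp
      · intro i _ hij
        rw [if_neg]
        intro h
        rcases STS5_byL L i with ⟨_, h2⟩ | ⟨v, _, h2⟩
        · rw [h2] at h
          exact hij (by rw [← Sum.inl.inj h]; ring)
        · rw [h2] at h
          exact absurd h (by simp)
      · intro h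
        exact absurd (Finset.mem_univ _) h
    · rw [← Equiv.sum_comp (Equiv.subRight (1 : ZMod N))]
      rw [Finset.sum_eq_single j]
      · have hi : (Equiv.subRight (1 : ZMod N)) j + 1 = j := by simp
        rcases STS5_byR L ((Equiv.subRight (1 : ZMod N)) j) with ⟨h1, h2⟩ | ⟨v, h1, h2⟩
        · have : (L j).bl = none := by
            rw [hi] at h1
            exact h1
          rw [h2, hi, this]
          simp
        · rw [h2]
          revert v
          rw [hi]
          intro v h1 _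
          rw [h1]
          simp
      · intro i _ hij
        rw [if_neg]
        intro h
        have hi : (Equiv.subRight (1 : ZMod N)) i + 1 = i := by simp
        rcases STS5_byR L ((Equiv.subRight (1 : ZMod N)) i) with ⟨_, h2⟩ | ⟨v, _, h2⟩
        · rw [h2] at h
          exact hij (by rw [← hi]; exact Sum.inl.inj h)
        · rw [h2] at h
          exact absurd h (by simp)
      · intro h
        exact absurd (Finset.mem_univ _) h
  rw [h1, h2, h3]
  cases c
  · simp
  · simp only [if_true]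
    ring

end


/-! ### the three local graphs -/

theorem STS5_S1 (n t : ℕ) : (∑ i : Fin n, (if i.1 = t then 1 else 0)) = if t < n then 1 else 0 := by
  rw [Fin.sum_univ_eq_sum_range (fun i => if i = t then 1 else 0) n, Finset.sum_ite_eq']
  simp

theorem STS5_S2 (n t : ℕ) : (∑ i : Fin n, (if i.1 + 1 = t then 1 else 0)) =
    if 0 < t ∧ t ≤ n then 1 else 0 := by
  rcases t with _ | t
  · simp
  · have : ∀ i : Fin n, (if i.1 + 1 = t + 1 then 1 else 0) = (if i.1 = t then 1 else 0) := by
      intro i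
      simp
    rw [Finset.sum_congr rfl fun i _ => this i, STS5_S1]
    simp

theorem STS5_P0 (q : ℕ) : (∑ i : Fin (2 * q + 2), (if i.1 % 2 = 0 then 1 else 0)) = q + 1 := by
  rw [Fin.sum_univ_eq_sum_range (fun i => if i % 2 = 0 then 1 else 0)]
  induction q with
  | zero => rfl
  | succ q ih =>
    have h : 2 * (q + 1) + 2 = (2 * q + 2) + 1 + 1 := by ring
    rw [h, Finset.sum_range_succ, Finset.sum_range_succ, ih]
    have h1 : (2 * q + 2) % 2 = 0 := by omega
    have h2 : ¬ ((2 * q + 2 + 1) % 2 = 0) := by omega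
    rw [if_pos h1, if_neg h2]

theorem STS5_P1 (q : ℕ) : (∑ i : Fin (2 * q + 2), (if i.1 % 2 = 0 then 0 else 1)) = q + 1 := by
  have h := STS5_P0 q
  have h2 : (∑ i : Fin (2 * q + 2), (if i.1 % 2 = 0 then 1 else 0)) +
      (∑ i : Fin (2 * q + 2), (if i.1 % 2 = 0 then 0 else 1)) = 2 * q + 2 := by
    rw [← Finset.sum_add_distrib]
    have : ∀ i : Fin (2 * q + 2), (if i.1 % 2 = 0 then 1 else 0) + (if i.1 % 2 = 0 then 0 else 1)
        = 1 := by
      intro i
      by_cases hi : i.1 % 2 = 0 <;> simp [hi]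
    rw [Finset.sum_congr rfl fun i _ => this i]
    simp
  omega

theorem STS5_ite {p r : Prop} [Decidable p] [Decidable r] (h : p ↔ r) :
    (if p then 1 else 0 : ℕ) = if r then 1 else 0 := if_congr h rfl rfl

/-- `T` -/
theorem STS5_T_simp (q : ℕ) : STS5_Simp (TLoc q) := by
  refine ⟨?_, ?_, ?_, ?_⟩
  · rintro (i | i)
    · exact ⟨i, rfl⟩
    · exact ⟨_, rfl⟩
  · rintro (i | i) h
    · exact absurd h (by simp [TLoc])
    · simp only [TLoc, Sum.inl.injEq, Fin.mk.injEq] at h
      omega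
  · rintro (i | i) (j | j) h <;> rw [Sym2.eq_iff] at h <;>
      simp only [TLoc, Sum.inl.injEq, reduceCtorEq, and_false, false_and, or_false,
        Fin.ext_iff] at h
    · exact congrArg Sum.inl (Fin.ext h.1)
    · refine congrArg Sum.inr (Fin.ext ?_)
      omega
  · intro v h
    exact absurd h (by simp [TLoc])

theorem STS5_T_loc (q : ℕ) (u : (TLoc q).V) :
    (TLoc q).ld5 (.inl u) + ((if (TLoc q).ex = u then 1 else 0) +
      (if (TLoc q).en = u then 1 else 0)) = 3 := by
  have h : (TLoc q).ld5 (.inl u) = (∑ i : Fin (2 * q + 2), (if i.1 = u.1 then 1 else 0)) +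
      ((∑ i : Fin (2 * q + 1), (if i.1 = u.1 then 1 else 0)) +
      (∑ i : Fin (2 * q + 1), (if i.1 + 1 = u.1 then 1 else 0))) := by
    unfold Loc.ld5
    refine (Fintype.sum_sum_type _).trans ?_
    rw [← Finset.sum_add_distrib]
    refine congrArg₂ (· + ·) (Finset.sum_congr rfl fun i _ => ?_)
      (Finset.sum_congr rfl fun i _ => congrArg₂ (· + ·) (STS5_ite ?_) (STS5_ite ?_))
    · refine (congrArg₂ (· + ·) (STS5_ite ?_) (if_neg ?_)).trans (add_zero _)
      · exact ⟨fun h => congrArg Fin.val (Sum.inl.inj h), fun h => congrArg Sum.inl (Fin.ext h)⟩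
      · exact Sum.inr_ne_inl
    · exact ⟨fun h => congrArg Fin.val (Sum.inl.inj h), fun h => congrArg Sum.inl (Fin.ext h)⟩
    · exact ⟨fun h => congrArg Fin.val (Sum.inl.inj h), fun h => congrArg Sum.inl (Fin.ext h)⟩
  have h2 : (if (TLoc q).ex = u then 1 else 0 : ℕ) = if u.1 = 2 * q + 1 then 1 else 0 :=
    STS5_ite ⟨fun h => by rw [← h]; rfl, fun h => Fin.ext h.symm⟩
  have h3 : (if (TLoc q).en = u then 1 else 0 : ℕ) = if u.1 = 0 then 1 else 0 :=
    STS5_ite ⟨fun h => by rw [← h]; rfl, fun h => Fin.ext h.symm⟩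
  rw [h, STS5_S1, STS5_S1, STS5_S2, h2, h3]
  have hu : u.1 < 2 * q + 2 := u.2
  split_ifs <;> omega

theorem STS5_T_hub (q : ℕ) (b : Bool) : (TLoc q).ld5 (.inr b) = q + 1 := by
  have h : (TLoc q).ld5 (.inr b) = (∑ i : Fin (2 * q + 2),
      (if decide (i.1 % 2 = 0) = b then 1 else 0)) := by
    unfold Loc.ld5
    refine (Fintype.sum_sum_type _).trans ?_
    refine Eq.trans (congrArg₂ (· + ·) (Finset.sum_congr rfl fun i _ => ?_)
      (Finset.sum_eq_zero fun i _ => ?_)) (add_zero _)
    · refine (congrArg₂ (· + ·) (if_neg ?_) (STS5_ite ?_)).trans (zero_add _)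
      · exact Sum.inl_ne_inr
      · exact ⟨fun h => Sum.inr.inj h, fun h => congrArg Sum.inr h⟩
    · exact (congrArg₂ (· + ·) (if_neg Sum.inl_ne_inr) (if_neg Sum.inl_ne_inr)).trans (add_zero _)
  rw [h]
  cases b
  · rw [← STS5_P1 q]
    refine Finset.sum_congr rfl fun i _ => ?_
    by_cases hi : i.1 % 2 = 0 <;> simp [hi]
  · rw [← STS5_P0 q]
    refine Finset.sum_congr rfl fun i _ => ?_
    by_cases hi : i.1 % 2 = 0 <;> simp [hi]


theorem STS5_min (q v : ℕ) (hv : v < 2 * q + 2) :
    (∑ k : Fin (2 * q + 3), (if min k.1 (2 * q + 1) = v then 1 else 0)) =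
      1 + (if v = 2 * q + 1 then 1 else 0) := by
  rw [Fin.sum_univ_castSucc]
  refine congrArg₂ (· + ·) ?_ ?_
  · have : ∀ k : Fin (2 * q + 2), (if min (Fin.castSucc k).1 (2 * q + 1) = v then 1 else 0) =
        (if k.1 = v then 1 else 0) := by
      intro k
      have hk : min (Fin.castSucc k).1 (2 * q + 1) = k.1 := by
        have := k.2
        rw [Fin.val_castSucc]
        omega
      rw [hk]
    rw [Finset.sum_congr rfl fun k _ => this k, STS5_S1, if_pos hv]
  · refine STS5_ite ?_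
    rw [Fin.val_last]
    omega

/-- `G` -/
theorem STS5_G_simp (q : ℕ) : STS5_Simp (GLoc q) := by
  refine ⟨?_, ?_, ?_, ?_⟩
  · rintro ⟨s, k | i⟩
    · exact ⟨_, rfl⟩
    · exact ⟨_, rfl⟩
  · rintro ⟨s, k | i⟩ h
    · exact absurd h Sum.inl_ne_inr
    · have h' := congrArg (fun x : Bool × Fin (2 * q + 2) => x.2.1) (Sum.inl.inj h)
      simp at h'
  · rintro ⟨s, k | i⟩ ⟨t, l | j⟩ h <;> rw [Sym2.eq_iff] at h
    · rcases h with ⟨ha, hb⟩ | ⟨ha, _⟩
      · have hs := congrArg (fun x : Bool × Fin (2 * q + 2) => x.1) (Sum.inl.inj ha)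
        have hm := congrArg (fun x : Bool × Fin (2 * q + 2) => x.2.1) (Sum.inl.inj ha)
        simp only at hs hm
        subst hs
        have hp := Sum.inr.inj hb
        have hp' : decide (k.1 % 2 = 0) = decide (l.1 % 2 = 0) := by
          revert hp
          cases s <;> simp
        rw [decide_eq_decide] at hp'
        have h1 := k.2
        have h2 := l.2
        have : k = l := Fin.ext (by omega)
        rw [this]
      · exact absurd ha Sum.inl_ne_inr
    · rcases h with ⟨_, hb⟩ | ⟨_, hb⟩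
      · exact absurd hb Sum.inr_ne_inl
      · exact absurd hb Sum.inr_ne_inl
    · rcases h with ⟨_, hb⟩ | ⟨ha, _⟩
      · exact absurd hb Sum.inl_ne_inr
      · exact absurd ha Sum.inl_ne_inr
    · have h' : s = t ∧ i.1 = j.1 := by
        rcases h with ⟨ha, hb⟩ | ⟨ha, hb⟩
        · have hs := congrArg (fun x : Bool × Fin (2 * q + 2) => x.1) (Sum.inl.inj ha)
          have hm := congrArg (fun x : Bool × Fin (2 * q + 2) => x.2.1) (Sum.inl.inj ha)
          exact ⟨hs, hm⟩
        · have hm := congrArg (fun x : Bool × Fin (2 * q + 2) => x.2.1) (Sum.inl.inj ha)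
          have hm2 := congrArg (fun x : Bool × Fin (2 * q + 2) => x.2.1) (Sum.inl.inj hb)
          simp only at hm hm2
          omega
      rw [h'.1, Fin.ext h'.2]
  · intro v h
    exact absurd h (by simp [GLoc])

theorem STS5_G_loc (q : ℕ) (u : (GLoc q).V) :
    (GLoc q).ld5 (.inl u) + ((if (GLoc q).ex = u then 1 else 0) +
      (if (GLoc q).en = u then 1 else 0)) = 3 := by
  obtain ⟨t, v, htv⟩ : ∃ (t : Bool) (v : Fin (2 * q + 2)), (t, v) = (show Bool × Fin (2 * q + 2) from u) :=
    ⟨_, _, rfl⟩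
  have key : ∀ (s : Bool) (w : Fin (2 * q + 2)),
      (((s, w) : Bool × Fin (2 * q + 2)) = u) ↔ (s = t ∧ w.1 = v.1) := by
    intro s w
    rw [← Fin.ext_iff, ← Prod.mk.injEq]
    exact ⟨fun h => h.trans htv.symm, fun h => h.trans htv⟩
  have h : (GLoc q).ld5 (.inl u) =
      (∑ k : Fin (2 * q + 3), (if min k.1 (2 * q + 1) = v.1 then 1 else 0)) +
      ((∑ i : Fin (2 * q + 1), (if i.1 = v.1 then 1 else 0)) +
      (∑ i : Fin (2 * q + 1), (if i.1 + 1 = v.1 then 1 else 0))) := by
    unfold Loc.ld5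
    refine (Fintype.sum_prod_type _).trans ?_
    refine (Finset.sum_eq_single t ?_ (fun h => absurd (Finset.mem_univ _) h)).trans ?_
    · intro s _ hst
      refine (Fintype.sum_sum_type _).trans ?_
      refine (congrArg₂ (· + ·) (Finset.sum_eq_zero fun k _ => ?_)
        (Finset.sum_eq_zero fun k _ => ?_)).trans (add_zero _)
      · exact (congrArg₂ (· + ·) (if_neg fun h => hst ((key _ _).1 (Sum.inl.inj h)).1)
          (if_neg Sum.inr_ne_inl)).trans (add_zero _)
      · exact (congrArg₂ (· + ·) (if_neg fun h => hst ((key _ _).1 (Sum.inl.inj h)).1)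
          (if_neg fun h => hst ((key _ _).1 (Sum.inl.inj h)).1)).trans (add_zero _)
    · refine (Fintype.sum_sum_type _).trans ?_
      rw [← Finset.sum_add_distrib]
      refine congrArg₂ (· + ·) (Finset.sum_congr rfl fun i _ => ?_)
        (Finset.sum_congr rfl fun i _ => congrArg₂ (· + ·) (STS5_ite ?_) (STS5_ite ?_))
      · refine (congrArg₂ (· + ·) (STS5_ite ?_) (if_neg ?_)).trans (add_zero _)
        · exact ⟨fun h => ((key _ _).1 (Sum.inl.inj h)).2,
            fun h => congrArg Sum.inl ((key _ _).2 ⟨rfl, h⟩)⟩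
        · exact Sum.inr_ne_inl
      · exact ⟨fun h => ((key _ _).1 (Sum.inl.inj h)).2,
          fun h => congrArg Sum.inl ((key _ _).2 ⟨rfl, h⟩)⟩
      · exact ⟨fun h => ((key _ _).1 (Sum.inl.inj h)).2,
          fun h => congrArg Sum.inl ((key _ _).2 ⟨rfl, h⟩)⟩
  have h2 : (if (GLoc q).ex = u then 1 else 0 : ℕ) = if t = true ∧ v.1 = 0 then 1 else 0 :=
    STS5_ite ⟨fun h => ⟨((key _ _).1 h).1.symm, ((key _ _).1 h).2.symm⟩,
      fun h => (key _ _).2 ⟨h.1.symm, h.2.symm⟩⟩
  have h3 : (if (GLoc q).en = u then 1 else 0 : ℕ) = if t = false ∧ v.1 = 0 then 1 else 0 :=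
    STS5_ite ⟨fun h => ⟨((key _ _).1 h).1.symm, ((key _ _).1 h).2.symm⟩,
      fun h => (key _ _).2 ⟨h.1.symm, h.2.symm⟩⟩
  have hv : v.1 < 2 * q + 2 := v.2
  rw [h, STS5_min q v.1 hv, STS5_S1, STS5_S2, h2, h3]
  cases t <;> simp only [true_and, Bool.false_eq_true, Bool.true_eq_false, false_and, if_false] <;>
    split_ifs <;> omega

theorem STS5_G_hub (q : ℕ) (b : Bool) : (GLoc q).ld5 (.inr b) = 2 * q + 3 := by
  unfold Loc.ld5
  refine (Fintype.sum_prod_type _).trans ?_
  have h : ∀ s : Bool, (∑ x : Fin (2 * q + 3) ⊕ Fin (2 * q + 1),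
      ((if (GLoc q).a (s, x) = .inr b then 1 else 0) +
      (if (GLoc q).b (s, x) = .inr b then 1 else 0))) =
      ∑ k : Fin (2 * q + 3), (if xor s (decide (k.1 % 2 = 0)) = b then 1 else 0) := by
    intro s
    refine (Fintype.sum_sum_type _).trans ?_
    refine Eq.trans (congrArg₂ (· + ·) (Finset.sum_congr rfl fun i _ => ?_)
      (Finset.sum_eq_zero fun i _ => ?_)) (add_zero _)
    · refine (congrArg₂ (· + ·) (if_neg ?_) (STS5_ite ?_)).trans (zero_add _)
      · exact Sum.inl_ne_inr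
      · exact ⟨fun h => Sum.inr.inj h, fun h => congrArg Sum.inr h⟩
    · exact (congrArg₂ (· + ·) (if_neg Sum.inl_ne_inr) (if_neg Sum.inl_ne_inr)).trans (add_zero _)
  refine (Finset.sum_congr rfl fun s _ => h s).trans ?_
  rw [Fintype.sum_bool, ← Finset.sum_add_distrib]
  have h1 : ∀ k : Fin (2 * q + 3), ((if xor true (decide (k.1 % 2 = 0)) = b then 1 else 0) +
      (if xor false (decide (k.1 % 2 = 0)) = b then 1 else 0)) = 1 := by
    intro k
    cases b <;> cases decide (k.1 % 2 = 0) <;> rfl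
  rw [Finset.sum_congr rfl fun k _ => h1 k]
  simp


/-- `W` -/
def STS5_weq (q : ℕ) : WE q ≃ (Fin 5 ⊕ (Fin (2 * q + 3) ⊕ Fin (2 * q + 1))) where
  toFun e := match e with
    | .b1 => .inl 0
    | .b2 => .inl 1
    | .eta => .inl 2
    | .sig => .inl 3
    | .s3 => .inl 4
    | .leg k => .inr (.inl k)
    | .row i => .inr (.inr i)
  invFun x := match x with
    | .inl 0 => .b1
    | .inl 1 => .b2
    | .inl 2 => .eta
    | .inl 3 => .sig
    | .inl 4 => .s3
    | .inr (.inl k) => .leg k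
    | .inr (.inr i) => .row i
  left_inv e := by cases e <;> rfl
  right_inv x := by
    rcases x with i | k | i
    · fin_cases i <;> rfl
    · rfl
    · rfl

theorem STS5_wsum (q : ℕ) (f : WE q → ℕ) : (∑ e : WE q, f e) =
    (f .b1 + f .b2 + f .eta + f .sig + f .s3) + ((∑ k : Fin (2 * q + 3), f (.leg k)) +
      ∑ i : Fin (2 * q + 1), f (.row i)) := by
  rw [← Equiv.sum_comp (STS5_weq q).symm, Fintype.sum_sum_type, Fintype.sum_sum_type,
    Fin.sum_univ_five]
  rfl

theorem STS5_W_simp (q : ℕ) : STS5_Simp (WLoc q) := by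
  have hx : ∀ i j : Fin (2 * q + 2), (WV.x i : WV q) = .x j → i.1 = j.1 := by
    intro i j h
    rw [WV.x.injEq] at h
    rw [h]
  refine ⟨fun e => ⟨_, rfl⟩, ?_, ?_, ?_⟩
  · rintro ⟨s, _ | _ | _ | _ | _ | k | i⟩ h
    · exact absurd h Sum.inl_ne_inr
    · exact absurd h Sum.inl_ne_inr
    · exact absurd (congrArg (fun x : Bool × WV q => x.2) (Sum.inl.inj h)) (by simp)
    · exact absurd (congrArg (fun x : Bool × WV q => x.2) (Sum.inl.inj h)) (by simp)
    · exact absurd (congrArg (fun x : Bool × WV q => x.2) (Sum.inl.inj h)) (by simp)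
    · exact absurd h Sum.inl_ne_inr
    · have := hx _ _ (congrArg (fun x : Bool × WV q => x.2) (Sum.inl.inj h))
      simp at this
  · rintro ⟨s, e⟩ ⟨t, f⟩ h
    rw [Sym2.eq_iff] at h
    rcases h with ⟨ha, hb⟩ | ⟨ha, hb⟩
    · have hst : s = t := congrArg (fun x : Bool × WV q => x.1) (Sum.inl.inj ha)
      have ha' := congrArg (fun x : Bool × WV q => x.2) (Sum.inl.inj ha)
      clear ha
      subst hst
      rcases e with _ | _ | _ | _ | _ | k | i <;> rcases f with _ | _ | _ | _ | _ | l | j <;>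
        first
        | rfl
        | (exact absurd hb Sum.inl_ne_inr; done)
        | (exact absurd hb Sum.inr_ne_inl; done)
        | (exfalso; simp at ha'; done)
        | skip
      · have hm := hx _ _ ha'
        have hp := Sum.inr.inj hb
        have aux : ∀ s x y : Bool, xor s x = xor s y → x = y := by decide
        have hp' : decide (k.1 % 2 = 0 ∧ k.1 ≠ 0) = decide (l.1 % 2 = 0 ∧ l.1 ≠ 0) :=
          aux s _ _ hp
        rw [decide_eq_decide] at hp'
        have h1 := k.2
        have h2 := l.2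
        have : k = l := Fin.ext (by simp only at hm; omega)
        rw [this]
      · have hm := hx _ _ ha'
        simp only at hm
        rw [Fin.ext hm]
    · rcases e with _ | _ | _ | _ | _ | k | i <;> rcases f with _ | _ | _ | _ | _ | l | j <;>
        first
        | (exact absurd ha Sum.inl_ne_inr; done)
        | (exact absurd hb Sum.inr_ne_inl; done)
        | (have h1 := congrArg (fun x : Bool × WV q => x.2) (Sum.inl.inj ha); exfalso; simp at h1; done)
        | (have h1 := congrArg (fun x : Bool × WV q => x.2) (Sum.inl.inj hb); exfalso; simp at h1; done)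
        | skip
      have hm := hx _ _ (congrArg (fun x : Bool × WV q => x.2) (Sum.inl.inj ha))
      have hm2 := hx _ _ (congrArg (fun x : Bool × WV q => x.2) (Sum.inl.inj hb))
      simp only at hm hm2
      omega
  · intro v h
    have h' : ((true, WV.v1) : Bool × WV q) = v := Option.some.inj h
    rw [← h']
    intro h2
    exact absurd (congrArg (fun x : Bool × WV q => x.2) h2) (by simp [WLoc])

theorem STS5_W_loc (q : ℕ) (u : (WLoc q).V) :
    (WLoc q).ld5 (.inl u) + (((if (WLoc q).ex = u then 1 else 0) +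
      (if (WLoc q).en = u then 1 else 0)) + ((if (WLoc q).br = some u then 1 else 0) +
      (if (WLoc q).bl = some u then 1 else 0))) = 3 := by
  obtain ⟨t, v, htv⟩ : ∃ (t : Bool) (v : WV q), (t, v) = (show Bool × WV q from u) :=
    ⟨_, _, rfl⟩
  have key : ∀ (s : Bool) (x : WV q), (((s, x) : Bool × WV q) = u) ↔ (s = t ∧ x = v) := by
    intro s x
    rw [← Prod.mk.injEq]
    exact ⟨fun h => h.trans htv.symm, fun h => h.trans htv⟩
  have kl : ∀ (x : WV q), ((Sum.inl ((t, x) : Bool × WV q) : (WLoc q).V ⊕ Bool) = .inl u) ↔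
      x = v := fun x => ⟨fun h => ((key _ _).1 (Sum.inl.inj h)).2,
        fun h => congrArg Sum.inl ((key _ _).2 ⟨rfl, h⟩)⟩
  have h : (WLoc q).ld5 (.inl u) = ∑ e : WE q,
      ((if (WLoc q).a (t, e) = .inl u then 1 else 0) +
      (if (WLoc q).b (t, e) = .inl u then 1 else 0)) := by
    unfold Loc.ld5
    refine (Fintype.sum_prod_type _).trans ?_
    refine Finset.sum_eq_single t ?_ (fun h => absurd (Finset.mem_univ _) h)
    intro s _ hst
    refine Finset.sum_eq_zero fun e _ => ?_
    refine (congrArg₂ (· + ·) (if_neg fun h => hst ((key _ _).1 (Sum.inl.inj h)).1)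
      (if_neg ?_)).trans (add_zero _)
    intro h
    rcases e with _ | _ | _ | _ | _ | k | i
    · exact absurd h Sum.inr_ne_inl
    · exact absurd h Sum.inr_ne_inl
    · exact hst ((key _ _).1 (Sum.inl.inj h)).1
    · exact hst ((key _ _).1 (Sum.inl.inj h)).1
    · exact hst ((key _ _).1 (Sum.inl.inj h)).1
    · exact absurd h Sum.inr_ne_inl
    · exact hst ((key _ _).1 (Sum.inl.inj h)).1
  have hE : (if (WLoc q).ex = u then 1 else 0 : ℕ) = if t = true ∧ WV.w = v then 1 else 0 :=
    STS5_ite ⟨fun h => ⟨((key _ _).1 h).1.symm, ((key _ _).1 h).2⟩,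
      fun h => (key _ _).2 ⟨h.1.symm, h.2⟩⟩
  have hN : (if (WLoc q).en = u then 1 else 0 : ℕ) = if t = false ∧ WV.w = v then 1 else 0 :=
    STS5_ite ⟨fun h => ⟨((key _ _).1 h).1.symm, ((key _ _).1 h).2⟩,
      fun h => (key _ _).2 ⟨h.1.symm, h.2⟩⟩
  have hR : (if (WLoc q).br = some u then 1 else 0 : ℕ) =
      if t = true ∧ WV.v1 = v then 1 else 0 :=
    STS5_ite ⟨fun h => ⟨((key _ _).1 (Option.some.inj h)).1.symm,
      ((key _ _).1 (Option.some.inj h)).2⟩,
      fun h => congrArg some ((key _ _).2 ⟨h.1.symm, h.2⟩)⟩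
  have hB : (if (WLoc q).bl = some u then 1 else 0 : ℕ) =
      if t = false ∧ WV.v1 = v then 1 else 0 :=
    STS5_ite ⟨fun h => ⟨((key _ _).1 (Option.some.inj h)).1.symm,
      ((key _ _).1 (Option.some.inj h)).2⟩,
      fun h => congrArg some ((key _ _).2 ⟨h.1.symm, h.2⟩)⟩
  have z : ∀ {x : Bool}, (if (Sum.inr x : (WLoc q).V ⊕ Bool) = .inl u then 1 else 0 : ℕ) = 0 :=
    fun {x} => if_neg Sum.inr_ne_inl
  have c1 : ∀ x : WV q, (if (Sum.inl ((t, x) : Bool × WV q) : (WLoc q).V ⊕ Bool) = .inl u then 1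
      else 0 : ℕ) = if x = v then 1 else 0 := fun x => STS5_ite (kl x)
  have hsum : (WLoc q).ld5 (.inl u) =
      (((if WV.v1 = v then 1 else 0) + 0) + ((if WV.v2 = v then 1 else 0) + 0) +
      ((if WV.v1 = v then 1 else 0) + (if WV.v2 = v then 1 else 0)) +
      ((if WV.v2 = v then 1 else 0) + (if WV.w = v then 1 else 0)) +
      ((if WV.w = v then 1 else 0) + (if WV.x ⟨0, by omega⟩ = v then 1 else 0))) +
      ((∑ k : Fin (2 * q + 3), ((if WV.x ⟨min k.1 (2 * q + 1), by omega⟩ = v then 1 else 0) + 0)) +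
      ∑ i : Fin (2 * q + 1), ((if WV.x ⟨i.1, by omega⟩ = v then 1 else 0) +
        (if WV.x ⟨i.1 + 1, by omega⟩ = v then 1 else 0))) := by
    rw [h, STS5_wsum]
    refine congrArg₂ (· + ·) (congrArg₂ (· + ·) (congrArg₂ (· + ·) (congrArg₂ (· + ·)
      (congrArg₂ (· + ·) ?_ ?_) ?_) ?_) ?_) (congrArg₂ (· + ·)
      (Finset.sum_congr rfl fun k _ => ?_) (Finset.sum_congr rfl fun k _ => ?_))
    · exact congrArg₂ (· + ·) (c1 _) z
    · exact congrArg₂ (· + ·) (c1 _) z
    · exact congrArg₂ (· + ·) (c1 _) (c1 _)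
    · exact congrArg₂ (· + ·) (c1 _) (c1 _)
    · exact congrArg₂ (· + ·) (c1 _) (c1 _)
    · exact congrArg₂ (· + ·) (c1 _) z
    · exact congrArg₂ (· + ·) (c1 _) (c1 _)
  rw [hsum, hE, hN, hR, hB]
  rcases v with _ | _ | _ | v
  · cases t <;> simp
  · cases t <;> simp
  · cases t <;> simp
  · have hv : v.1 < 2 * q + 2 := v.2
    have e1 : ∀ k : Fin (2 * q + 3), ((if (WV.x ⟨min k.1 (2 * q + 1), by omega⟩ : WV q) = .x v
        then 1 else 0) + 0 : ℕ) = if min k.1 (2 * q + 1) = v.1 then 1 else 0 := by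
      intro k
      rw [add_zero]
      refine STS5_ite ?_
      rw [WV.x.injEq, Fin.ext_iff]
    have e2 : (∑ i : Fin (2 * q + 1), ((if (WV.x ⟨i.1, by omega⟩ : WV q) = .x v then 1 else 0) +
        (if (WV.x ⟨i.1 + 1, by omega⟩ : WV q) = .x v then 1 else 0))) =
        (∑ i : Fin (2 * q + 1), (if i.1 = v.1 then 1 else 0)) +
        (∑ i : Fin (2 * q + 1), (if i.1 + 1 = v.1 then 1 else 0)) := by
      rw [← Finset.sum_add_distrib]
      refine Finset.sum_congr rfl fun i _ => congrArg₂ (· + ·) (STS5_ite ?_) (STS5_ite ?_)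
      · rw [WV.x.injEq, Fin.ext_iff]
      · rw [WV.x.injEq, Fin.ext_iff]
    rw [Finset.sum_congr rfl fun k _ => e1 k, e2, STS5_min q v.1 hv, STS5_S1, STS5_S2]
    have e3 : (if (WV.x ⟨0, by omega⟩ : WV q) = .x v then 1 else 0 : ℕ) =
        if 0 = v.1 then 1 else 0 := STS5_ite (by rw [WV.x.injEq, Fin.ext_iff])
    rw [e3]
    simp only [reduceCtorEq, if_false, and_false]
    split_ifs <;> omega

theorem STS5_W_hub (q : ℕ) (b : Bool) : (WLoc q).ld5 (.inr b) = 2 * q + 5 := by
  unfold Loc.ld5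
  refine (Fintype.sum_prod_type _).trans ?_
  have h : ∀ s : Bool, (∑ x : WE q,
      ((if (WLoc q).a (s, x) = .inr b then 1 else 0) +
      (if (WLoc q).b (s, x) = .inr b then 1 else 0))) =
      ((if (!s) = b then 1 else 0) + (if (!s) = b then 1 else 0) + 0 + 0 + 0) +
      ((∑ k : Fin (2 * q + 3), (if xor s (decide (k.1 % 2 = 0 ∧ k.1 ≠ 0)) = b then 1 else 0)) +
      ∑ i : Fin (2 * q + 1), 0) := by
    intro s
    rw [STS5_wsum]
    refine congrArg₂ (· + ·) (congrArg₂ (· + ·) (congrArg₂ (· + ·) (congrArg₂ (· + ·)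
      (congrArg₂ (· + ·) ?_ ?_) ?_) ?_) ?_) (congrArg₂ (· + ·)
      (Finset.sum_congr rfl fun k _ => ?_) (Finset.sum_congr rfl fun k _ => ?_))
    · exact (congrArg₂ (· + ·) (if_neg Sum.inl_ne_inr)
        (STS5_ite ⟨fun h => Sum.inr.inj h, fun h => congrArg Sum.inr h⟩)).trans (zero_add _)
    · exact (congrArg₂ (· + ·) (if_neg Sum.inl_ne_inr)
        (STS5_ite ⟨fun h => Sum.inr.inj h, fun h => congrArg Sum.inr h⟩)).trans (zero_add _)
    · exact (congrArg₂ (· + ·) (if_neg Sum.inl_ne_inr) (if_neg Sum.inl_ne_inr)).trans (zero_add _)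
    · exact (congrArg₂ (· + ·) (if_neg Sum.inl_ne_inr) (if_neg Sum.inl_ne_inr)).trans (zero_add _)
    · exact (congrArg₂ (· + ·) (if_neg Sum.inl_ne_inr) (if_neg Sum.inl_ne_inr)).trans (zero_add _)
    · exact (congrArg₂ (· + ·) (if_neg Sum.inl_ne_inr)
        (STS5_ite ⟨fun h => Sum.inr.inj h, fun h => congrArg Sum.inr h⟩)).trans (zero_add _)
    · exact (congrArg₂ (· + ·) (if_neg Sum.inl_ne_inr) (if_neg Sum.inl_ne_inr)).trans (zero_add _)
  refine (Finset.sum_congr rfl fun s _ => h s).trans ?_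
  rw [Fintype.sum_bool]
  have h1 : ∀ k : Fin (2 * q + 3), ((if xor true (decide (k.1 % 2 = 0 ∧ k.1 ≠ 0)) = b then 1
      else 0) + (if xor false (decide (k.1 % 2 = 0 ∧ k.1 ≠ 0)) = b then 1 else 0)) = 1 := by
    intro k
    cases b <;> cases decide (k.1 % 2 = 0 ∧ k.1 ≠ 0) <;> rfl
  have h2 : (∑ k : Fin (2 * q + 3), (if xor true (decide (k.1 % 2 = 0 ∧ k.1 ≠ 0)) = b then 1
      else 0)) + (∑ k : Fin (2 * q + 3), (if xor false (decide (k.1 % 2 = 0 ∧ k.1 ≠ 0)) = b then 1
      else 0)) = 2 * q + 3 := by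
    rw [← Finset.sum_add_distrib, Finset.sum_congr rfl fun k _ => h1 k]
    simp
  have h3 : (if (!true) = b then 1 else 0 : ℕ) + (if (!false) = b then 1 else 0) = 1 := by
    cases b <;> rfl
  rw [Finset.sum_const_zero]
  omega


theorem STS5_RT_simp (q : ℕ) (t : RT) : STS5_Simp (t.loc q) := by
  cases t
  · exact STS5_T_simp _
  · exact STS5_G_simp _
  · exact STS5_W_simp _

/-- STS -/
theorem tstrip_simple {N : ℕ} [NeZero N] (hN : 5 ≤ N) (q : ℕ) (c : Bool) (τ : ZMod N → RT) :
    (tstrip q c τ).Simple :=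
  STS5_simple hN _ c fun j => STS5_RT_simp q (τ j)

/-- Two local vertices of regions at distance at least `2` are not adjacent. -/
theorem not_adj_of_far {N : ℕ} [NeZero N] (hN : 5 ≤ N) (q : ℕ) (c : Bool)
    (τ : ZMod N → RT) (i j : ZMod N) (h0 : i ≠ j) (h1 : i ≠ j + 1) (h2 : j ≠ i + 1)
    (u : ((τ i).loc q).V) (v : ((τ j).loc q).V) :
    ¬ (tstrip q c τ).Adj (.inr ⟨i, u⟩) (.inr ⟨j, v⟩) :=
  STS5_not_adj (fun j => (τ j).loc q) c i j h0 h1 h2 u v

theorem STS5_RT_loc (q : ℕ) (c : Bool) (t : RT) (hW : t = .W → c = true) (u : (t.loc q).V) :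
    (t.loc q).ld5 (.inl u) + (((if (t.loc q).ex = u then 1 else 0) +
      (if (t.loc q).en = u then 1 else 0)) + (if c = true then
      (if (t.loc q).br = some u then 1 else 0) + (if (t.loc q).bl = some u then 1 else 0)
      else 0)) = 3 := by
  cases t
  · have h1 : (if (RT.T.loc q).br = some u then 1 else 0 : ℕ) = 0 :=
      if_neg fun h => absurd (show none = some u from h) (by simp)
    have h2 : (if (RT.T.loc q).bl = some u then 1 else 0 : ℕ) = 0 :=
      if_neg fun h => absurd (show none = some u from h) (by simp)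
    rw [h1, h2, ite_self]
    exact STS5_T_loc (q + 1) u
  · have h1 : (if (RT.G.loc q).br = some u then 1 else 0 : ℕ) = 0 :=
      if_neg fun h => absurd (show none = some u from h) (by simp)
    have h2 : (if (RT.G.loc q).bl = some u then 1 else 0 : ℕ) = 0 :=
      if_neg fun h => absurd (show none = some u from h) (by simp)
    rw [h1, h2, ite_self]
    exact STS5_G_loc q u
  · rw [if_pos (hW rfl)]
    exact STS5_W_loc (q - 1) u

/-- STD: degrees. All local vertices are cubic. -/
theorem tstrip_deg_local {N : ℕ} [NeZero N] (hN : 5 ≤ N) (q : ℕ) (c : Bool) (τ : ZMod N → RT)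
    (hW : (∃ j, τ j = .W) → c = true ∧ 1 ≤ q)
    (j : ZMod N) (u : ((τ j).loc q).V) :
    (tstrip q c τ).deg (.inr ⟨j, u⟩) = 3 :=
  (STS5_deg_local (fun j => (τ j).loc q) c
    (STS5_loopless hN _ c fun j => STS5_RT_simp q (τ j)) j u).trans
    (STS5_RT_loc q c (τ j) (fun h => (hW ⟨j, h⟩).1) u)

/-- The contribution of a region to the degree of one of its hubs. -/
def RT.side (q : ℕ) (c : Bool) : RT → ℕ
  | .T => q + 2 + (if c then 1 else 0)
  | .G => 2 * q + 3 + (if c then 1 else 0)
  | .W => 2 * q + 3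

theorem STS5_side (q : ℕ) (c : Bool) (t : RT) (hW : t = .W → c = true ∧ 1 ≤ q) :
    (t.loc q).ld5 (.inr true) + (if c = true then (if (t.loc q).bl = none then 1 else 0) else 0) =
      RT.side q c t ∧
    (t.loc q).ld5 (.inr false) + (if c = true then (if (t.loc q).br = none then 1 else 0) else 0) =
      RT.side q c t := by
  cases t
  · have h1 : (if (RT.T.loc q).bl = none then 1 else 0 : ℕ) = 1 := if_pos rfl
    have h2 : (if (RT.T.loc q).br = none then 1 else 0 : ℕ) = 1 := if_pos rfl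
    rw [h1, h2]
    exact ⟨congrArg (· + _) (STS5_T_hub (q + 1) true), congrArg (· + _) (STS5_T_hub (q + 1) false)⟩
  · have h1 : (if (RT.G.loc q).bl = none then 1 else 0 : ℕ) = 1 := if_pos rfl
    have h2 : (if (RT.G.loc q).br = none then 1 else 0 : ℕ) = 1 := if_pos rfl
    rw [h1, h2]
    exact ⟨congrArg (· + _) (STS5_G_hub q true), congrArg (· + _) (STS5_G_hub q false)⟩
  · have h1 : (if (RT.W.loc q).bl = none then 1 else 0 : ℕ) = 0 :=
      if_neg fun h => absurd h (by intro h'; exact Option.some_ne_none _ h')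
    have h2 : (if (RT.W.loc q).br = none then 1 else 0 : ℕ) = 0 :=
      if_neg fun h => absurd h (by intro h'; exact Option.some_ne_none _ h')
    rw [h1, h2, ite_self, add_zero, add_zero]
    have hq := (hW rfl).2
    have e1 : (RT.W.loc q).ld5 (.inr true) = 2 * (q - 1) + 5 := STS5_W_hub (q - 1) true
    have e2 : (RT.W.loc q).ld5 (.inr false) = 2 * (q - 1) + 5 := STS5_W_hub (q - 1) false
    rw [e1, e2]
    have e3 : RT.side q c .W = 2 * q + 3 := rfl
    rw [e3]
    omega

theorem tstrip_deg_hub {N : ℕ} [NeZero N] (hN : 5 ≤ N) (q : ℕ) (c : Bool) (τ : ZMod N → RT)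
    (hW : (∃ j, τ j = .W) → c = true ∧ 1 ≤ q) (j : ZMod N) :
    (tstrip q c τ).deg (.inl j) = RT.side q c (τ j) + RT.side q c (τ (j + 1)) :=
  (STS5_deg_hub (fun j => (τ j).loc q) c
    (STS5_loopless hN _ c fun j => STS5_RT_simp q (τ j)) hN j).trans
    (congrArg₂ (· + ·) (STS5_side q c (τ j) fun h => hW ⟨j, h⟩).1
      (STS5_side q c (τ (j + 1)) fun h => hW ⟨j + 1, h⟩).2)

end Pool.Agent.CC
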