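import Pool.Agent.Lib_helper74.CCF.Conn
import Pool.Agent.Lib_helper74.CCF.STS
import Pool.Agent.Lib_helper74.CCF.STP

/-! STF: from the interface theorems on the strips to `DegFamily`, and the main theorem. -/

namespace Pool.Agent.CC

open Gph

namespace STF

variable {N : ℕ} [NeZero N]

/-- the entry vertex of a region -/
def enV (q : ℕ) (c : Bool) (τ : ZMod N → RT) (j : ZMod N) : (tstrip q c τ).V :=
  (.inr ⟨j, ((τ j).loc q).en⟩ : ZMod N ⊕ (Σ j, ((τ j).loc q).V))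

/-- a hub -/
def hubV (q : ℕ) (c : Bool) (τ : ZMod N → RT) (j : ZMod N) : (tstrip q c τ).V :=
  (.inl j : ZMod N ⊕ (Σ j, ((τ j).loc q).V))

theorem enV_inj (q : ℕ) (c : Bool) (τ : ZMod N → RT) : Function.Injective (enV q c τ) := by
  intro i j h
  exact congrArg Sigma.fst (Sum.inr.inj h)

theorem hubV_inj (q : ℕ) (c : Bool) (τ : ZMod N → RT) : Function.Injective (hubV q c τ) := by
  intro i j h
  exact Sum.inl.inj h

theorem side_le (q : ℕ) (c : Bool) (t : RT) : RT.side q c t ≤ 2 * q + 4 := by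
  cases t <;> cases c <;> simp [RT.side] <;> omega

theorem counts (hN : 5 ≤ N) (q : ℕ) (c : Bool) (τ : ZMod N → RT)
    (hW : (∃ j, τ j = .W) → c = true ∧ 1 ≤ q) (d : ℕ) (B : Finset (ZMod N))
    (hB : ∀ j, j ∉ B → RT.side q c (τ j) + RT.side q c (τ (j + 1)) = d) :
    N ≤ (Finset.univ.filter (fun v : (tstrip q c τ).V => (tstrip q c τ).deg v = 3)).card ∧
    N ≤ (Finset.univ.filter (fun v : (tstrip q c τ).V => (tstrip q c τ).deg v = d)).card + B.card ∧
    (Finset.univ.filter (fun v : (tstrip q c τ).V => (tstrip q c τ).deg v ≠ 3 ∧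
      (tstrip q c τ).deg v ≠ d)).card ≤ B.card ∧
    ∀ v : (tstrip q c τ).V, (tstrip q c τ).deg v ≤ 4 * q + 8 := by
  have hcardN : (Finset.univ : Finset (ZMod N)).card = N := by
    rw [Finset.card_univ, ZMod.card]
  refine ⟨?_, ?_, ?_, ?_⟩
  · calc N = (Finset.univ.map ⟨enV q c τ, enV_inj q c τ⟩).card := by
          rw [Finset.card_map, hcardN]
      _ ≤ _ := by
          apply Finset.card_le_card
          intro v hv
          simp only [Finset.mem_map, Finset.mem_univ, true_and, Function.Embedding.coeFn_mk] at hv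
          obtain ⟨j, rfl⟩ := hv
          simp only [Finset.mem_filter, Finset.mem_univ, true_and]
          exact tstrip_deg_local hN q c τ hW j _
  · have h1 : ((Finset.univ \ B).map ⟨hubV q c τ, hubV_inj q c τ⟩).card ≤
        (Finset.univ.filter (fun v : (tstrip q c τ).V => (tstrip q c τ).deg v = d)).card := by
      apply Finset.card_le_card
      intro v hv
      simp only [Finset.mem_map, Finset.mem_sdiff, Finset.mem_univ, true_and,
        Function.Embedding.coeFn_mk] at hv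
      obtain ⟨j, hj, rfl⟩ := hv
      simp only [Finset.mem_filter, Finset.mem_univ, true_and]
      rw [← hB j hj]
      exact tstrip_deg_hub hN q c τ hW j
    rw [Finset.card_map] at h1
    have h2 := Finset.card_le_card_sdiff_add_card (s := (Finset.univ : Finset (ZMod N))) (t := B)
    rw [hcardN] at h2
    omega
  · rw [← Finset.card_map (s := B) ⟨hubV q c τ, hubV_inj q c τ⟩]
    apply Finset.card_le_card
    intro v hv
    simp only [Finset.mem_filter, Finset.mem_univ, true_and] at hv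
    simp only [Finset.mem_map, Function.Embedding.coeFn_mk]
    rcases v with j | ⟨j, u⟩
    · refine ⟨j, ?_, rfl⟩
      by_contra hj
      apply hv.2
      rw [← hB j hj]
      exact tstrip_deg_hub hN q c τ hW j
    · exact absurd (tstrip_deg_local hN q c τ hW j u) hv.1
  · intro v
    rcases v with j | ⟨j, u⟩
    · have := tstrip_deg_hub hN q c τ hW j
      rw [this]
      have h1 := side_le q c (τ j)
      have h2 := side_le q c (τ (j + 1))
      omega
    · rw [tstrip_deg_local hN q c τ hW j u]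
      omega

/-- there is a good port in the region `j`: two edge-disjoint tripods, all three edges crossed in
spine drawings with at most `K` crossings -/
def PortAt (q : ℕ) (c : Bool) (τ : ZMod N → RT) (K : ℕ) (j : ZMod N) : Prop :=
  ∃ (v : (tstrip q c τ).V) (p : Port (tstrip q c τ) v), (∃ u, v = .inr ⟨j, u⟩) ∧ HasTri2 _ p ∧
    ∀ t, (tstrip q c τ).CrossedIn K (p.e t)

theorem exists_good (hN : 5 ≤ N) (q : ℕ) (c : Bool) (τ : ZMod N → RT) (K : ℕ)
    (hconn : (tstrip q c τ).ThreeConn) (hlb : (tstrip q c τ).LB K) (hfc : (tstrip q c τ).FC K)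
    (i j : ZMod N) (h0 : i ≠ j) (h1 : i ≠ j + 1) (h2 : j ≠ i + 1)
    (hi : PortAt q c τ K i) (hj : PortAt q c τ K j) :
    Nonempty ((tstrip q c τ).Good K) := by
  obtain ⟨v, p, ⟨u, hu⟩, hp, hc⟩ := hi
  obtain ⟨v', p', ⟨u', hu'⟩, hp', hc'⟩ := hj
  refine ⟨{ simple := tstrip_simple hN q c τ, conn := hconn, lb := hlb, fc := hfc, v := v, w := v',
            ne := ?_, nadj := ?_, pv := p, pw := p', tv := hp, tw := hp', cv := hc, cw := hc' }⟩
  · intro h
    rw [hu, hu'] at h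
    exact h0 (congrArg Sigma.fst (Sum.inr.inj h))
  · rw [hu, hu']
    exact not_adj_of_far hN q c τ i j h0 h1 h2 u u'

/-! ### the alternating types -/

theorem alt_T {M : ℕ} (X : RT) (j : ZMod (2 * M + 1)) (h : j.val % 2 = 0) :
    altType M X j = .T := by
  unfold altType
  rw [if_pos h]

theorem alt_X {M : ℕ} (X : RT) (j : ZMod (2 * M + 1)) (h : j.val % 2 = 1) :
    altType M X j = X := by
  unfold altType
  rw [if_neg (by omega)]

theorem val_succ {M : ℕ} (j : ZMod (2 * M + 1)) (h : j.val < 2 * M) : (j + 1).val = j.val + 1 := by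
  have h1 : (1 : ZMod (2 * M + 1)).val = 1 := by
    have : 1 < 2 * M + 1 := by omega
    have : Fact (1 < 2 * M + 1) := ⟨this⟩
    exact ZMod.val_one _
  rw [ZMod.val_add_of_lt (by rw [h1]; omega), h1]

theorem alt_side (q : ℕ) (c : Bool) (X : RT) {M : ℕ} (j : ZMod (2 * M + 1))
    (hj : j ∉ ({((2 * M : ℕ) : ZMod (2 * M + 1))} : Finset _)) :
    RT.side q c (altType M X j) + RT.side q c (altType M X (j + 1)) =
      RT.side q c .T + RT.side q c X := by
  have hlt : j.val < 2 * M + 1 := ZMod.val_lt j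
  have hne : j.val ≠ 2 * M := by
    intro h
    apply hj
    rw [Finset.mem_singleton]
    have h' := ZMod.natCast_zmod_val j
    rw [h] at h'
    exact h'.symm
  have hs := val_succ j (by omega)
  rcases Nat.mod_two_eq_zero_or_one j.val with h | h
  · rw [alt_T X j h, alt_X X (j + 1) (by rw [hs]; omega)]
  · rw [alt_X X j h, alt_T X (j + 1) (by rw [hs]; omega), add_comm]

theorem val_nat {M : ℕ} (k : ℕ) (h : k < 2 * M + 1) : ((k : ℕ) : ZMod (2 * M + 1)).val = k :=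
  ZMod.val_natCast_of_lt h

theorem nat_ne {M : ℕ} (k l : ℕ) (h : k < 2 * M + 1) (h' : l < 2 * M + 1) (hkl : k ≠ l) :
    ((k : ℕ) : ZMod (2 * M + 1)) ≠ ((l : ℕ) : ZMod (2 * M + 1)) := by
  intro H
  apply hkl
  rw [← val_nat (M := M) k h, H, val_nat l h']

/-- a family from strips -/
theorem family (q : ℕ) (c : Bool) (K d : ℕ) (τ : ∀ M : ℕ, ZMod (2 * M + 1) → RT)
    (hW : ∀ M, (∃ j, τ M j = .W) → c = true ∧ 1 ≤ q)
    (B : ∀ M : ℕ, Finset (ZMod (2 * M + 1))) (hBc : ∀ M, (B M).card ≤ 1)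
    (hB : ∀ M j, j ∉ B M → RT.side q c (τ M j) + RT.side q c (τ M (j + 1)) = d)
    (hconn : ∀ M, 3 ≤ M → (tstrip q c (τ M)).ThreeConn)
    (hlb : ∃ M0, ∀ M, M0 ≤ M → (tstrip q c (τ M)).LB K)
    (hfc : ∀ M, 3 ≤ M → (tstrip q c (τ M)).FC K)
    (k : ℕ) (hk : k + 2 ≤ 5)
    (ht : ∀ M, 3 ≤ M → ∀ i : ℕ, i = k ∨ i = k + 2 →
      PortAt q c (τ M) K ((i : ℕ) : ZMod (2 * M + 1))) :
    DegFamily d K := by
  obtain ⟨M0, hM0⟩ := hlb
  refine ⟨4 * q + 8, fun n => ?_⟩
  set M := max (max 3 M0) n with hM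
  have h3 : 3 ≤ M := le_trans (le_max_left _ _) (le_max_left _ _)
  have h4 : M0 ≤ M := le_trans (le_max_right _ _) (le_max_left _ _)
  have h5 : n ≤ M := le_max_right _ _
  have hN : 5 ≤ 2 * M + 1 := by omega
  obtain ⟨c1, c2, c3, c4⟩ := counts hN q c (τ M) (hW M) d (B M) (hB M)
  have hb := hBc M
  refine ⟨tstrip q c (τ M), ?_, by omega, by omega, by omega, c4⟩
  refine exists_good hN q c (τ M) K (hconn M h3) (hM0 M h4) (hfc M h3)
    ((k : ℕ) : ZMod (2 * M + 1)) ((k + 2 : ℕ) : ZMod (2 * M + 1)) ?_ ?_ ?_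
    (ht M h3 k (Or.inl rfl)) (ht M h3 (k + 2) (Or.inr rfl))
  · exact nat_ne k (k + 2) (by omega) (by omega) (by omega)
  · have : ((k + 2 : ℕ) : ZMod (2 * M + 1)) + 1 = ((k + 3 : ℕ) : ZMod (2 * M + 1)) := by
      push_cast; ring
    rw [this]
    exact nat_ne k (k + 3) (by omega) (by omega) (by omega)
  · have : ((k : ℕ) : ZMod (2 * M + 1)) + 1 = ((k + 1 : ℕ) : ZMod (2 * M + 1)) := by
      push_cast; ring
    rw [this]
    exact nat_ne (k + 2) (k + 1) (by omega) (by omega) (by omega)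

theorem card_B (M : ℕ) : ({((2 * M : ℕ) : ZMod (2 * M + 1))} : Finset (ZMod (2 * M + 1))).card ≤ 1 := by
  simp

/-- regions `1` and `3` have type `X` with neighbours of type `T` -/
theorem alt_odd (X : RT) (M : ℕ) (h3 : 3 ≤ M) (i : ℕ) (hi : i = 1 ∨ i = 1 + 2) :
    altType M X ((i : ℕ) : ZMod (2 * M + 1)) = X ∧
    altType M X (((i : ℕ) : ZMod (2 * M + 1)) - 1) = .T ∧
    altType M X (((i : ℕ) : ZMod (2 * M + 1)) + 1) = .T := by
  have hv : ∀ k : ℕ, k ≤ 5 → ((k : ℕ) : ZMod (2 * M + 1)).val = k := fun k hk => val_nat k (by omega)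
  have e1 : ((i : ℕ) : ZMod (2 * M + 1)) - 1 = ((i - 1 : ℕ) : ZMod (2 * M + 1)) := by
    rw [Nat.cast_sub (by omega)]; simp
  have e2 : ((i : ℕ) : ZMod (2 * M + 1)) + 1 = ((i + 1 : ℕ) : ZMod (2 * M + 1)) := by
    push_cast; ring
  refine ⟨?_, ?_, ?_⟩
  · apply alt_X
    rw [hv i (by omega)]; omega
  · rw [e1]
    apply alt_T
    rw [hv _ (by omega)]; omega
  · rw [e2]
    apply alt_T
    rw [hv _ (by omega)]; omega

/-- regions `0` and `2` have type `T` -/
theorem alt_even (X : RT) (M : ℕ) (h3 : 3 ≤ M) (i : ℕ) (hi : i = 0 ∨ i = 0 + 2) :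
    altType M X ((i : ℕ) : ZMod (2 * M + 1)) = .T := by
  apply alt_T
  rw [val_nat i (by omega)]; omega

theorem degFamily_F0_of (q : ℕ) (hconn : ∀ M, 3 ≤ M → (F0 q M).ThreeConn)
    (hlb : ∃ M0, ∀ M, M0 ≤ M → (F0 q M).LB (q + 2)) (hfc : ∀ M, 3 ≤ M → (F0 q M).FC (q + 2))
    (k : ℕ) (hk : k + 2 ≤ 5) (hp : ∀ M, 3 ≤ M → ∀ i : ℕ, i = k ∨ i = k + 2 →
      PortAt q false (altType M .G) (q + 2) ((i : ℕ) : ZMod (2 * M + 1))) :
    DegFamily (3 * q + 5) (q + 2) := by
  refine family q false (q + 2) (3 * q + 5) (fun M => altType M .G) ?_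
    (fun M => {((2 * M : ℕ) : ZMod (2 * M + 1))}) card_B ?_ hconn hlb hfc k hk hp
  · rintro M ⟨j, hj⟩
    unfold altType at hj
    split_ifs at hj
  · intro M j hj
    rw [alt_side q false .G j hj]
    simp only [RT.side]
    simp
    omega

theorem degFamily_F1_of (q : ℕ) (hconn : ∀ M, 3 ≤ M → (F1 q M).ThreeConn)
    (hlb : ∃ M0, ∀ M, M0 ≤ M → (F1 q M).LB (q + 5)) (hfc : ∀ M, 3 ≤ M → (F1 q M).FC (q + 5))
    (k : ℕ) (hk : k + 2 ≤ 5) (hp : ∀ M, 3 ≤ M → ∀ i : ℕ, i = k ∨ i = k + 2 →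
      PortAt q true (altType M .G) (q + 5) ((i : ℕ) : ZMod (2 * M + 1))) :
    DegFamily (3 * q + 7) (q + 5) := by
  refine family q true (q + 5) (3 * q + 7) (fun M => altType M .G) ?_
    (fun M => {((2 * M : ℕ) : ZMod (2 * M + 1))}) card_B ?_ hconn hlb hfc k hk hp
  · rintro M ⟨j, hj⟩
    unfold altType at hj
    split_ifs at hj
  · intro M j hj
    rw [alt_side q true .G j hj]
    simp only [RT.side]
    simp
    omega

theorem degFamily_F2_of (q : ℕ) (hconn : ∀ M, 3 ≤ M → (F2 q M).ThreeConn)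
    (hlb : ∃ M0, ∀ M, M0 ≤ M → (F2 q M).LB (q + 6)) (hfc : ∀ M, 3 ≤ M → (F2 q M).FC (q + 6))
    (k : ℕ) (hk : k + 2 ≤ 5) (hp : ∀ M, 3 ≤ M → ∀ i : ℕ, i = k ∨ i = k + 2 →
      PortAt (q + 1) true (altType M .W) (q + 6) ((i : ℕ) : ZMod (2 * M + 1))) :
    DegFamily (3 * q + 9) (q + 6) := by
  refine family (q + 1) true (q + 6) (3 * q + 9) (fun M => altType M .W) ?_
    (fun M => {((2 * M : ℕ) : ZMod (2 * M + 1))}) card_B ?_ hconn hlb hfc k hk hp
  · intro _ _
    exact ⟨rfl, by omega⟩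
  · intro M j hj
    rw [alt_side (q + 1) true .W j hj]
    simp only [RT.side]
    simp
    omega

theorem degFamily_six_of (hconn : ∀ M, 3 ≤ M → (FT 1 M).ThreeConn)
    (hlb : ∃ M0, ∀ M, M0 ≤ M → (FT 1 M).LB (1 + 2)) (hfc : ∀ M, 3 ≤ M → (FT 1 M).FC (1 + 2))
    (k : ℕ) (hk : k + 2 ≤ 5) (hp : ∀ M, 3 ≤ M → ∀ i : ℕ, i = k ∨ i = k + 2 →
      PortAt 1 false (fun _ => .T) (1 + 2) ((i : ℕ) : ZMod (2 * M + 1))) :
    DegFamily 6 3 := by
  refine family 1 false 3 6 (fun M => fun _ => .T) ?_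
    (fun M => ∅) (fun M => by simp) ?_ hconn hlb hfc k hk hp
  · rintro M ⟨j, hj⟩
    cases hj
  · intro M j _
    simp [RT.side]

/-- The main theorem from the four families. -/
theorem main_of (h0 : ∀ q, DegFamily (3 * q + 5) (q + 2)) (h1 : ∀ q, DegFamily (3 * q + 7) (q + 5))
    (h2 : ∀ q, DegFamily (3 * q + 9) (q + 6)) (h6 : DegFamily 6 3) : MainStatement := by
  intro D h3 hD h4 hne
  refine achievable_of_families D h3 hne (fun d hd hd3 => ?_)
  have hd3' := hD d hd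
  have hd4 : d ≠ 4 := fun h => h4 (h ▸ hd)
  by_cases e6 : d = 6
  · exact ⟨3, e6 ▸ h6⟩
  have hm : d % 3 = 2 ∨ d % 3 = 1 ∨ d % 3 = 0 := by omega
  rcases hm with h | h | h
  · obtain ⟨q, rfl⟩ : ∃ q, d = 3 * q + 5 := ⟨(d - 5) / 3, by omega⟩
    exact ⟨_, h0 q⟩
  · obtain ⟨q, rfl⟩ : ∃ q, d = 3 * q + 7 := ⟨(d - 7) / 3, by omega⟩
    exact ⟨_, h1 q⟩
  · obtain ⟨q, rfl⟩ : ∃ q, d = 3 * q + 9 := ⟨(d - 9) / 3, by omega⟩
    exact ⟨_, h2 q⟩

end STF
end Pool.Agent.CC
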