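import Mathlib

/-!
# Crossing-critical graphs: the definitions of the statement (MP_198240_co)
-/

namespace Pool.Agent.CC

/-- A finite multigraph: `a e` and `b e` are the two ends of the edge `e`. -/
structure Gph where
  V : Type
  E : Type
  [fV : Fintype V]
  [dV : DecidableEq V]
  [fE : Fintype E]
  [dE : DecidableEq E]
  a : E → V
  b : E → V

attribute [instance] Gph.fV Gph.dV Gph.fE Gph.dE

namespace Gph

/-- No loops. -/
def Loopless (G : Gph) : Prop := ∀ e : G.E, G.a e ≠ G.b e

/-- Simple: no loops and no two edges with the same pair of ends. -/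
def Simple (G : Gph) : Prop :=
  G.Loopless ∧ ∀ e f : G.E, s(G.a e, G.b e) = s(G.a f, G.b f) → e = f

/-- The degree: the number of edges incident with `v` (for loopless graphs). -/
def deg (G : Gph) (v : G.V) : ℕ :=
  (Finset.univ.filter (fun e : G.E => G.a e = v ∨ G.b e = v)).card

/-- The graph `G - e`. -/
def del (G : Gph) (e : G.E) : Gph where
  V := G.V
  E := {f : G.E // f ≠ e}
  a := fun f => G.a f.1
  b := fun f => G.b f.1

/-- `u` and `v` are adjacent. -/
def Adj (G : Gph) (u v : G.V) : Prop :=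
  ∃ e : G.E, (G.a e = u ∧ G.b e = v) ∨ (G.a e = v ∧ G.b e = u)

/-- 3-connected: at least four vertices, and any two vertices outside a set `S` of at most two
vertices are joined by a path avoiding `S`. -/
def ThreeConn (G : Gph) : Prop :=
  4 ≤ Fintype.card G.V ∧
  ∀ S : Finset G.V, S.card ≤ 2 → ∀ u v : G.V, u ∉ S → v ∉ S →
    Relation.ReflTransGen (fun x y => G.Adj x y ∧ x ∉ S ∧ y ∉ S) u v

/-- A drawing of `G` in the plane: distinct vertices go to distinct points, edges are simple
curves joining their ends, no edge passes through a vertex, no three edges share a crossing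
point. -/
structure Drawing (G : Gph) where
  pt : G.V → ℂ
  arc : G.E → ℝ → ℂ
  pt_inj : Function.Injective pt
  cont : ∀ e, ContinuousOn (arc e) (Set.Icc 0 1)
  inj : ∀ e, Set.InjOn (arc e) (Set.Icc 0 1)
  zero : ∀ e, arc e 0 = pt (G.a e)
  one : ∀ e, arc e 1 = pt (G.b e)
  avoid : ∀ e, ∀ t ∈ Set.Ioo (0 : ℝ) 1, ∀ v, arc e t ≠ pt v
  no_three : ∀ e f g : G.E, e ≠ f → e ≠ g → f ≠ g → ∀ z : ℂ,
    z ∈ arc e '' Set.Ioo 0 1 → z ∈ arc f '' Set.Ioo 0 1 → z ∉ arc g '' Set.Ioo 0 1

/-- The crossing points of a drawing: the points that are interior points of two edges. -/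
def Drawing.crossings {G : Gph} (D : Drawing G) : Set ℂ :=
  {z | ∃ e f : G.E, e ≠ f ∧ z ∈ D.arc e '' Set.Ioo 0 1 ∧ z ∈ D.arc f '' Set.Ioo 0 1}

/-- The crossing number. -/
noncomputable def cr (G : Gph) : ℕ∞ := ⨅ D : Drawing G, D.crossings.encard

/-- `G` is `k`-crossing-critical: `cr G ≥ k` and `cr (G - e) < k` for every edge `e`. -/
def Critical (G : Gph) (k : ℕ) : Prop :=
  (k : ℕ∞) ≤ G.cr ∧ ∀ e : G.E, (G.del e).cr < k

end Gph

/-- The family `F` is `D`-universal: for every `m` some member has, for every `d ∈ D`, at least `m`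
vertices of degree `d`. -/
def Universal (F : Set Gph) (D : Finset ℕ) : Prop :=
  ∀ m : ℕ, ∃ G ∈ F, ∀ d ∈ D, m ≤ (Finset.univ.filter (fun v : G.V => G.deg v = d)).card

/-- The family `F` is `D`-max-universal: it is `D`-universal, only finitely many degrees outside `D`
occur in its members, and some constant `M` bounds the number of vertices of degree `d` of every
member, for every `d ∉ D`. -/
def MaxUniversal (F : Set Gph) (D : Finset ℕ) : Prop :=
  Universal F D ∧
  {d : ℕ | d ∉ D ∧ ∃ G ∈ F, ∃ v : G.V, G.deg v = d}.Finite ∧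
  ∃ M : ℕ, ∀ G ∈ F, ∀ d : ℕ, d ∉ D →
    (Finset.univ.filter (fun v : G.V => G.deg v = d)).card ≤ M

/-- `D` is achievable: there is `K` such that for every `k ≥ K` there is a `D`-max-universal family of
simple, 3-connected, `k`-crossing-critical graphs. -/
def Achievable (D : Finset ℕ) : Prop :=
  ∃ K : ℕ, ∀ k : ℕ, K ≤ k → ∃ F : Set Gph,
    (∀ G ∈ F, G.Simple ∧ G.ThreeConn ∧ G.Critical k) ∧ MaxUniversal F D

/-- The main theorem. -/
def MainStatement : Prop :=
  ∀ D : Finset ℕ, 3 ∈ D → (∀ d ∈ D, 3 ≤ d) → 4 ∉ D → D ≠ {3} → Achievable D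

end Pool.Agent.CC
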