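import Pool.Agent.Lib_helper74.CCF.Defs2

/-! T1: from topological drawings to parity structures. (helper93)
`wind γ p` is the branch-corrected increment of the argument of `γ - p` (an integer), `sb z` is
the sign bit of `z`. For two disjoint arcs a continuous logarithm of `α s - β t` on the square
gives the integer identity `wind_identity`; mod 2 it is `X e f = 0`. -/

open Complex unitInterval

namespace Pool.Agent.CC.T1

noncomputable section


/-- any continuous nowhere zero map on a simply connected, locally path connected space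
has a continuous logarithm -/
theorem exists_lift {A : Type*} [TopologicalSpace A] [SimplyConnectedSpace A]
    [LocallyPathConnectedSpace A] (f : C(A, ℂ)) (hf : ∀ a, f a ≠ 0) :
    ∃ F : C(A, ℂ), ∀ a, exp (F a) = f a := by
  obtain ⟨a₀⟩ : Nonempty A := inferInstance
  obtain ⟨F, ⟨-, hF⟩, -⟩ := isCoveringMapOn_exp.existsUnique_continuousMap_lifts f
    (a₀ := a₀) (e₀ := log (f a₀)) (exp_log (hf a₀)) (fun x ↦ hf x)
  exact ⟨F, fun a ↦ congrFun hF a⟩

/-- two logarithms of one map on the unit interval have the same increment -/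
theorem lift_incr_unique (F G : C(I, ℂ)) (h : ∀ s, exp (F s) = exp (G s)) :
    F 1 - F 0 = G 1 - G 0 := by
  have hd : ∀ s, ∃ n : ℤ, F s = G s + n * (2 * Real.pi * Complex.I) := fun s =>
    Complex.exp_eq_exp_iff_exists_int.1 (h s)
  choose n hn using hd
  have hcont : Continuous (fun s : I => (n s : ℝ)) := by
    have h1 : (fun s : I => (n s : ℝ)) = fun s => (F s - G s).im / (2 * Real.pi) := by
      funext s
      rw [hn s]
      simp only [add_sub_cancel_left]
      have : ((n s : ℂ) * (2 * Real.pi * Complex.I)).im = (n s : ℝ) * (2 * Real.pi) := by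
        simp [Complex.mul_im]
      rw [this]
      field_simp
    rw [h1]
    exact ((Complex.continuous_im.comp (F.continuous.sub G.continuous)).div_const _)
  have hconst : n 1 = n 0 := by
    have hc2 : Continuous n := by
      have : Topology.IsClosedEmbedding (fun k : ℤ => (k : ℝ)) := Int.isClosedEmbedding_coe_real
      exact this.isInducing.continuous_iff.2 hcont
    exact PreconnectedSpace.constant inferInstance hc2
  have h1 := hn 1
  have h0 := hn 0
  rw [h1, h0, hconst]
  ring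

/-- the winding number datum of the path `γ` with respect to the point `p`
(branch-corrected increment of the argument) -/
def IsWind (γ : C(I, ℂ)) (p : ℂ) (n : ℤ) : Prop :=
  ∃ G : C(I, ℂ), (∀ s, exp (G s) = γ s - p) ∧
    (G 1).im - (G 0).im = arg (γ 1 - p) - arg (γ 0 - p) + 2 * Real.pi * n

open Classical in
def wind (γ : C(I, ℂ)) (p : ℂ) : ℤ :=
  if h : ∃ n, IsWind γ p n then h.choose else 0

theorem exp_im_arg {z w : ℂ} (h : exp z = w) :
    ∃ n : ℤ, z.im = arg w + 2 * Real.pi * n := by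
  have hw : w ≠ 0 := by rw [← h]; exact exp_ne_zero z
  have h2 : exp z = exp (log w) := by rw [exp_log hw, h]
  obtain ⟨n, hn⟩ := Complex.exp_eq_exp_iff_exists_int.1 h2
  refine ⟨n, ?_⟩
  rw [hn]
  simp [Complex.mul_im, Complex.log_im]
  ring

theorem wind_spec (γ : C(I, ℂ)) (p : ℂ) (G : C(I, ℂ)) (hG : ∀ s, exp (G s) = γ s - p) :
    (G 1).im - (G 0).im = arg (γ 1 - p) - arg (γ 0 - p) + 2 * Real.pi * wind γ p := by
  obtain ⟨n1, h1⟩ := exp_im_arg (hG 1)
  obtain ⟨n0, h0⟩ := exp_im_arg (hG 0)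
  have hex : ∃ n, IsWind γ p n := ⟨n1 - n0, G, hG, by rw [h1, h0]; push_cast; ring⟩
  have hw : wind γ p = hex.choose := dif_pos hex
  rw [hw]
  obtain ⟨G', hG', hinc⟩ := hex.choose_spec
  rw [← hinc]
  have := lift_incr_unique G G' (fun s => by rw [hG, hG'])
  have h2 := congrArg Complex.im this
  simpa using h2

/-- sign bit of a nonzero complex number: `0` when `arg z - arg (-z) = π`, `1` otherwise -/
def sb (z : ℂ) : ℤ := if 0 < z.im ∨ (z.im = 0 ∧ z.re < 0) then 0 else 1

theorem sb_spec {z : ℂ} (hz : z ≠ 0) : arg z - arg (-z) = Real.pi * (1 - 2 * sb z) := by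
  unfold sb
  rcases lt_trichotomy z.im 0 with h | h | h
  · rw [arg_neg_eq_arg_add_pi_of_im_neg h]
    have : ¬ (0 < z.im ∨ (z.im = 0 ∧ z.re < 0)) := by
      rintro (h' | ⟨h', -⟩) <;> linarith
    simp [this]
    ring
  · rcases lt_trichotomy z.re 0 with h' | h' | h'
    · have e1 : arg z = Real.pi := arg_eq_pi_iff.2 ⟨h', h⟩
      have e2 : arg (-z) = 0 := by
        rw [arg_eq_zero_iff]; simp [h, h'.le]
      simp [e1, e2, h, h']
    · exact absurd (Complex.ext h' h) hz
    · have e1 : arg z = 0 := by rw [arg_eq_zero_iff]; simp [h, h'.le]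
      have e2 : arg (-z) = Real.pi := by rw [arg_eq_pi_iff]; simp [h, h']
      have : ¬ (0 < z.im ∨ (z.im = 0 ∧ z.re < 0)) := by
        rintro (h'' | ⟨-, h''⟩) <;> linarith
      simp [e1, e2, this]
      ring
  · rw [arg_neg_eq_arg_sub_pi_of_im_pos h]
    simp [h]

theorem sb_neg {z : ℂ} (hz : z ≠ 0) : sb z + sb (-z) = 1 := by
  have h1 := sb_spec hz
  have h2 := sb_spec (neg_ne_zero.2 hz)
  rw [neg_neg] at h2
  have h3 : Real.pi * ((1 - 2 * (sb z : ℝ)) + (1 - 2 * (sb (-z) : ℝ))) = 0 := by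
    linarith
  have h4 : ((1 - 2 * (sb z : ℝ)) + (1 - 2 * (sb (-z) : ℝ))) = 0 := by
    rcases mul_eq_zero.1 h3 with h | h
    · exact absurd h Real.pi_ne_zero
    · exact h
  have h5 : ((sb z + sb (-z) : ℤ) : ℝ) = 1 := by push_cast; linarith
  exact_mod_cast h5

/-- the integer identity for two disjoint paths -/
theorem wind_identity (α β : C(I, ℂ)) (hd : ∀ s t, α s ≠ β t) :
    wind α (β 0) - wind α (β 1) + wind β (α 1) - wind β (α 0)
      + sb (α 0 - β 0) + sb (α 1 - β 1) - sb (α 1 - β 0) - sb (α 0 - β 1) = 0 := by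
  -- logarithm on the square
  let f : C(ℝ × ℝ, ℂ) := ⟨fun q => α (Set.projIcc 0 1 zero_le_one q.1)
    - β (Set.projIcc 0 1 zero_le_one q.2), by
      have h1 : Continuous (Set.projIcc (0:ℝ) 1 zero_le_one) := continuous_projIcc
      fun_prop⟩
  have hf : ∀ q, f q ≠ 0 := fun q => sub_ne_zero.2 (hd _ _)
  obtain ⟨F0, hF0⟩ := exists_lift f hf
  let F : C(I × I, ℂ) := ⟨fun q => F0 ((q.1 : ℝ), (q.2 : ℝ)), by fun_prop⟩
  have hF' : ∀ s t, exp (F (s, t)) = α s - β t := by
    intro s t
    have := hF0 ((s : ℝ), (t : ℝ))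
    simpa [f, F] using this
  have hneg : ∀ z w v : ℂ, exp z = w - v → exp (z + Real.pi * Complex.I) = v - w := by
    intro z w v h
    rw [Complex.exp_add, h, Complex.exp_pi_mul_I]
    ring
  -- four sides
  have s0 := wind_spec α (β 0) ⟨fun s => F (s, 0), by fun_prop⟩ (fun s => hF' s 0)
  have s1 := wind_spec α (β 1) ⟨fun s => F (s, 1), by fun_prop⟩ (fun s => hF' s 1)
  have t0 := wind_spec β (α 0) ⟨fun t => F (0, t) + Real.pi * Complex.I, by fun_prop⟩
    (fun t => hneg _ _ _ (hF' 0 t))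
  have t1 := wind_spec β (α 1) ⟨fun t => F (1, t) + Real.pi * Complex.I, by fun_prop⟩
    (fun t => hneg _ _ _ (hF' 1 t))
  simp only [ContinuousMap.coe_mk, Complex.add_im] at s0 s1 t0 t1
  have a00 := sb_spec (sub_ne_zero.2 (hd 0 0))
  have a01 := sb_spec (sub_ne_zero.2 (hd 0 1))
  have a10 := sb_spec (sub_ne_zero.2 (hd 1 0))
  have a11 := sb_spec (sub_ne_zero.2 (hd 1 1))
  rw [neg_sub] at a00 a01 a10 a11
  have key : 2 * Real.pi * (((wind α (β 0) - wind α (β 1) + wind β (α 1) - wind β (α 0)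
      + sb (α 0 - β 0) + sb (α 1 - β 1) - sb (α 1 - β 0) - sb (α 0 - β 1) : ℤ)) : ℝ) = 0 := by
    push_cast
    linarith
  have hpi : (2 * Real.pi) ≠ 0 := by positivity
  rcases mul_eq_zero.1 key with h | h
  · exact absurd h hpi
  · exact_mod_cast h

/-- parity form -/
theorem wind_parity (α β : C(I, ℂ)) (hd : ∀ s t, α s ≠ β t) :
    ((sb (α 0 - β 0) : ℤ) : ZMod 2) + ((sb (α 0 - β 1) : ℤ) : ZMod 2)
      + ((sb (α 1 - β 0) : ℤ) : ZMod 2) + ((sb (α 1 - β 1) : ℤ) : ZMod 2)
      + ((wind α (β 0) : ℤ) : ZMod 2) + ((wind α (β 1) : ℤ) : ZMod 2)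
      + ((wind β (α 0) : ℤ) : ZMod 2) + ((wind β (α 1) : ℤ) : ZMod 2) = 0 := by
  have h := congrArg (fun z : ℤ => (z : ZMod 2)) (wind_identity α β hd)
  push_cast at h
  have e : ∀ x : ZMod 2, -x = x := by decide
  simp only [sub_eq_add_neg, e] at h
  linear_combination h


end

end Pool.Agent.CC.T1

namespace Pool.Agent.CC.Gph

open Complex unitInterval
open Pool.Agent.CC.T1

/-- the arc of an edge as a path on the unit interval -/
noncomputable def Drawing.path {G : Gph} (D : G.Drawing) (e : G.E) : C(I, ℂ) :=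
  ⟨fun s => D.arc e s, (continuousOn_iff_continuous_domRestrict.1 (D.cont e))⟩

theorem Drawing.path_zero {G : Gph} (D : G.Drawing) (e : G.E) : D.path e 0 = D.pt (G.a e) := by
  simp [Drawing.path, D.zero]

theorem Drawing.path_one {G : Gph} (D : G.Drawing) (e : G.E) : D.path e 1 = D.pt (G.b e) := by
  simp [Drawing.path, D.one]

/-- the parity structure of a drawing -/
noncomputable def Drawing.ps {G : Gph} (D : G.Drawing) : G.PS where
  r := fun u v => ((sb (D.pt u - D.pt v) : ℤ) : ZMod 2)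
  hr := by
    intro u v huv
    have hz : D.pt u - D.pt v ≠ 0 := sub_ne_zero.2 (fun h => huv (D.pt_inj h))
    have h := sb_neg hz
    rw [neg_sub] at h
    have h2 := congrArg (fun z : ℤ => (z : ZMod 2)) h
    push_cast at h2
    exact h2
  M := fun e v => ((wind (D.path e) (D.pt v) : ℤ) : ZMod 2)

theorem exists_ps (G : Gph) (D : G.Drawing) : ∃ P : G.PS, ∀ e f : G.E, G.Ind e f → P.X e f = 1 →
    ∃ z : ℂ, z ∈ D.arc e '' Set.Ioo 0 1 ∧ z ∈ D.arc f '' Set.Ioo 0 1 := by
  refine ⟨D.ps, fun e f hI hX => ?_⟩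
  by_contra hno
  have hdis : ∀ s t, D.path e s ≠ D.path f t := by
    intro s t hst
    have hst' : D.arc e (s : ℝ) = D.arc f (t : ℝ) := hst
    have hs : (s : ℝ) = 0 ∨ (s : ℝ) = 1 ∨ (s : ℝ) ∈ Set.Ioo (0 : ℝ) 1 := by
      rcases eq_or_lt_of_le s.2.1 with h | h
      · exact Or.inl h.symm
      · rcases eq_or_lt_of_le s.2.2 with h' | h'
        · exact Or.inr (Or.inl h')
        · exact Or.inr (Or.inr ⟨h, h'⟩)
    have ht : (t : ℝ) = 0 ∨ (t : ℝ) = 1 ∨ (t : ℝ) ∈ Set.Ioo (0 : ℝ) 1 := by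
      rcases eq_or_lt_of_le t.2.1 with h | h
      · exact Or.inl h.symm
      · rcases eq_or_lt_of_le t.2.2 with h' | h'
        · exact Or.inr (Or.inl h')
        · exact Or.inr (Or.inr ⟨h, h'⟩)
    obtain ⟨h1, h2, h3, h4⟩ := hI
    rcases hs with hs | hs | hs
    · rw [hs, D.zero] at hst'
      rcases ht with ht | ht | ht
      · rw [ht, D.zero] at hst'; exact h1 (D.pt_inj hst')
      · rw [ht, D.one] at hst'; exact h2 (D.pt_inj hst')
      · exact D.avoid f t ht _ hst'.symm
    · rw [hs, D.one] at hst'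
      rcases ht with ht | ht | ht
      · rw [ht, D.zero] at hst'; exact h3 (D.pt_inj hst')
      · rw [ht, D.one] at hst'; exact h4 (D.pt_inj hst')
      · exact D.avoid f t ht _ hst'.symm
    · rcases ht with ht | ht | ht
      · rw [ht, D.zero] at hst'; exact D.avoid e s hs _ hst'
      · rw [ht, D.one] at hst'; exact D.avoid e s hs _ hst'
      · exact hno ⟨D.arc e s, ⟨s, hs, rfl⟩, ⟨t, ht, hst'.symm⟩⟩
  have h := wind_parity (D.path e) (D.path f) hdis
  rw [D.path_zero, D.path_zero, D.path_one, D.path_one] at h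
  have hX0 : D.ps.X e f = 0 := by
    unfold PS.X
    exact h
  rw [hX0] at hX
  exact absurd hX (by decide)

theorem LB.le_cr {G : Gph} {K : ℕ} (h : G.LB K) : (K : ℕ∞) ≤ G.cr := by
  classical
  refine le_iInf fun D => ?_
  obtain ⟨P, hP⟩ := exists_ps G D
  have hz : ∀ p : G.E × G.E, ∃ z : ℂ, p ∈ P.cross →
      z ∈ D.arc p.1 '' Set.Ioo 0 1 ∧ z ∈ D.arc p.2 '' Set.Ioo 0 1 := by
    intro p
    by_cases hp : p ∈ P.cross
    · have hp' := (Finset.mem_filter.1 hp).2
      obtain ⟨z, hz⟩ := hP p.1 p.2 hp'.1 hp'.2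
      exact ⟨z, fun _ => hz⟩
    · exact ⟨0, fun h => absurd h hp⟩
  choose z hz using hz
  have hne : ∀ p ∈ P.cross, p.1 ≠ p.2 := by
    intro p hp heq
    have hp' := (Finset.mem_filter.1 hp).2.1
    rw [heq] at hp'
    exact hp'.1 rfl
  -- fibres have at most two elements
  have hfib : ∀ w ∈ P.cross.image z, (P.cross.filter (fun p => z p = w)).card ≤ 2 := by
    intro w hw
    obtain ⟨p0, hp0, hw0⟩ := Finset.mem_image.1 hw
    have hsub : P.cross.filter (fun p => z p = w) ⊆ {p0, (p0.2, p0.1)} := by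
      intro p hp
      obtain ⟨hpc, hpw⟩ := Finset.mem_filter.1 hp
      have hzp := hz p hpc
      have hz0 := hz p0 hp0
      rw [hpw] at hzp
      rw [hw0] at hz0
      have h01 := hne p0 hp0
      have hpp := hne p hpc
      have hmem : ∀ e : G.E, w ∈ D.arc e '' Set.Ioo 0 1 → e = p0.1 ∨ e = p0.2 := by
        intro e he
        by_contra hcon
        push Not at hcon
        exact D.no_three p0.1 p0.2 e h01 (Ne.symm hcon.1) (Ne.symm hcon.2) w hz0.1 hz0.2 he
      rcases hmem p.1 hzp.1 with h1 | h1 <;> rcases hmem p.2 hzp.2 with h2 | h2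
      · exact absurd (h1.trans h2.symm) hpp
      · exact Finset.mem_insert.2 (Or.inl (Prod.ext h1 h2))
      · exact Finset.mem_insert.2 (Or.inr (Finset.mem_singleton.2 (Prod.ext h1 h2)))
      · exact absurd (h1.trans h2.symm) hpp
    exact (Finset.card_le_card hsub).trans Finset.card_le_two
  have hcard : P.cross.card ≤ 2 * (P.cross.image z).card :=
    Finset.card_le_mul_card_image _ _ hfib
  have hK : K ≤ (P.cross.image z).card := by
    have := h P
    omega
  have hsub : ((P.cross.image z : Finset ℂ) : Set ℂ) ⊆ D.crossings := by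
    intro w hw
    obtain ⟨p, hp, rfl⟩ := Finset.mem_image.1 (Finset.mem_coe.1 hw)
    exact ⟨p.1, p.2, hne p hp, (hz p hp).1, (hz p hp).2⟩
  calc (K : ℕ∞) ≤ ((P.cross.image z).card : ℕ∞) := by exact_mod_cast hK
    _ = ((P.cross.image z : Finset ℂ) : Set ℂ).encard := (Set.encard_coe_eq_coe_finsetCard _).symm
    _ ≤ D.crossings.encard := Set.encard_le_encard hsub

end Pool.Agent.CC.Gph
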