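import Pool.Agent.Lib_helper74.CCF.Tile

/-!
# Tiles from families of chords
-/

set_option autoImplicit false

namespace Pool.Agent.CC.FC39

open Gph

/-! ### chains of short upper arcs -/

/-- short arcs on the side `u`: `p, p+1, ..., p+n` -/
def chain (u : Bool) : ℤ → ℕ → List (Bool × ℤ)
  | _, 0 => []
  | p, n + 1 => (u, p + 1) :: chain u (p + 1) n

theorem mem_arcs_chain {u w : Bool} {x y : ℤ} : ∀ {n : ℕ} {p : ℤ},
    (w, x, y) ∈ arcsOf p (chain u p n) ↔ w = u ∧ y = x + 1 ∧ p ≤ x ∧ x < p + n
  | 0, p => by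
    simp only [chain, arcsOf, List.not_mem_nil, Nat.cast_zero, add_zero, false_iff]
    omega
  | n + 1, p => by
    simp only [chain, arcsOf, List.mem_cons, Prod.mk.injEq, mem_arcs_chain (n := n), Nat.cast_add,
      Nat.cast_one]
    constructor
    · rintro (⟨h1, h2, h3⟩ | ⟨h1, h2, h3, h4⟩)
      · exact ⟨h1, by omega, by omega, by omega⟩
      · exact ⟨h1, by omega, by omega, by omega⟩
    · rintro ⟨h1, h2, h3, h4⟩
      by_cases h : x = p
      · exact .inl ⟨h1, by omega, by omega⟩
      · exact .inr ⟨h1, by omega, by omega, by omega⟩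

theorem arcs_chain_append {u : Bool} (l : List (Bool × ℤ)) : ∀ (n : ℕ) (p : ℤ),
    arcsOf p (chain u p n ++ l) = arcsOf p (chain u p n) ++ arcsOf (p + n) l
  | 0, p => by simp [chain, arcsOf]
  | n + 1, p => by
    simp only [chain, arcsOf, List.cons_append, arcs_chain_append l n (p + 1)]
    congr 3
    push_cast
    ring

theorem mem_chain {u : Bool} {x : ℤ} : ∀ {n : ℕ} {p : ℤ},
    x ∈ (chain u p n).map Prod.snd ↔ p < x ∧ x ≤ p + n
  | 0, p => by
    simp only [chain, List.map_nil, List.not_mem_nil, Nat.cast_zero, add_zero, false_iff]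
    omega
  | n + 1, p => by
    simp only [chain, List.map_cons, List.mem_cons, mem_chain (n := n), Nat.cast_add,
      Nat.cast_one]
    omega

theorem mem_chain_dropLast {u : Bool} {x : ℤ} : ∀ {n : ℕ} {p : ℤ},
    x ∈ ((chain u p n).map Prod.snd).dropLast ↔ p < x ∧ x < p + n
  | 0, p => by
    simp only [chain, List.map_nil, List.dropLast_nil, List.not_mem_nil, Nat.cast_zero, add_zero,
      false_iff]
    omega
  | 1, p => by
    simp only [chain, List.map_cons, List.map_nil, List.dropLast_singleton, List.not_mem_nil,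
      Nat.cast_one, false_iff]
    omega
  | n + 2, p => by
    have ih := mem_chain_dropLast (u := u) (x := x) (n := n + 1) (p := p + 1)
    simp only [chain, List.map_cons] at ih ⊢
    rw [List.dropLast_cons_cons, List.mem_cons, ih]
    push_cast
    omega

theorem chain_dropLast_append {u : Bool} (p : ℤ) (n : ℕ) {l : List (Bool × ℤ)} (h : l ≠ []) :
    ((chain u p n ++ l).map Prod.snd).dropLast =
      (chain u p n).map Prod.snd ++ (l.map Prod.snd).dropLast := by
  rw [List.map_append, List.dropLast_append_of_ne_nil]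
  simpa using h

theorem chain_getLast {u : Bool} : ∀ (n : ℕ) (p : ℤ), 0 < n →
    ((chain u p n).map Prod.snd).getLast? = some (p + n)
  | 0, p, h => absurd h (lt_irrefl _)
  | 1, p, _ => by simp [chain]
  | n + 2, p, _ => by
    have ih := chain_getLast (u := u) (n + 1) (p + 1) (Nat.succ_pos _)
    simp only [chain, List.map_cons] at ih ⊢
    rw [List.getLast?_cons_cons, ih]
    congr 1
    push_cast
    ring

theorem chain_pairwise {u : Bool} : ∀ (n : ℕ) (p : ℤ),
    ((chain u p n).map Prod.snd).Pairwise (· < ·)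
  | 0, p => by simp [chain]
  | n + 1, p => by
    simp only [chain, List.map_cons, List.pairwise_cons]
    exact ⟨fun x hx => (mem_chain.1 hx).1, chain_pairwise n (p + 1)⟩

theorem chain_nodup {u : Bool} (n : ℕ) (p : ℤ) : ((chain u p n).map Prod.snd).Nodup :=
  (chain_pairwise n p).imp (fun h => h.ne)

/-! ### tiles from families of chords -/

/-- The four further edges of a tile: the row edges coming in and going out, the bypass
edge coming from the left, the bypass edge going to the right. -/
inductive XE where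
  | rin | rout | cb | ad
  deriving DecidableEq

/-- tile edges without the proof that `c = true` -/
def conv {L : Loc} {c : Bool} : LE L c → L.E ⊕ XE
  | .inl e => .inl e
  | .inr (.inl false) => .inr .rin
  | .inr (.inl true) => .inr .rout
  | .inr (.inr ⟨false, _⟩) => .inr .cb
  | .inr (.inr ⟨true, _⟩) => .inr .ad

theorem conv_inj {L : Loc} {c : Bool} : Function.Injective (conv (L := L) (c := c)) := by
  rintro (e | (_ | _) | ⟨_ | _, h⟩) (f | (_ | _) | ⟨_ | _, h'⟩) hef <;>
    simp_all [conv]

/-- start of an edge -/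
def stPos {L : Loc} (b : ℤ) (pos : L.V → ℤ) : L.E ⊕ XE → ℤ
  | .inl e => ePos b pos (L.a e)
  | .inr .rin => -1
  | .inr .rout => pos L.ex
  | .inr .cb => -2
  | .inr .ad => match L.br with
    | none => 0
    | some v => pos v

/-- end of an edge -/
def enPos {L : Loc} (b : ℤ) (pos : L.V → ℤ) : L.E ⊕ XE → ℤ
  | .inl e => ePos b pos (L.b e)
  | .inr .rin => pos L.en
  | .inr .rout => b + 1
  | .inr .cb => match L.bl with
    | none => b
    | some v => pos v
  | .inr .ad => b + 2

theorem tA_conv {L : Loc} {c : Bool} (b : ℤ) (pos : L.V → ℤ) (e : LE L c) :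
    tA b pos e = stPos b pos (conv e) := by
  rcases e with (e | (_ | _) | ⟨_ | _, h⟩) <;> rfl

theorem tB_conv {L : Loc} {c : Bool} (b : ℤ) (pos : L.V → ℤ) (e : LE L c) :
    tB b pos e = enPos b pos (conv e) := by
  rcases e with (e | (_ | _) | ⟨_ | _, h⟩) <;> rfl

theorem minmax_of_sym2 {x y z t : ℤ} (h : s(x, y) = s(z, t)) :
    min x y = min z t ∧ max x y = max z t := by
  rcases Sym2.eq_iff.1 h with ⟨rfl, rfl⟩ | ⟨rfl, rfl⟩
  · exact ⟨rfl, rfl⟩
  · exact ⟨min_comm _ _, max_comm _ _⟩

/-- A tile from families of chords: `Fam e w l r` contains the chords of `e` on the side `w`, with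
left end `l` and right end `r`; `Bend e x` contains the bends; `kd e x` is a 2-colouring of the
edges through the bend `x`. -/
def mkTile {L : Loc} {c : Bool} {keep : LE L c → Prop} (b : ℤ) (pos : L.V → ℤ)
    (pos_mem : ∀ v, 0 < pos v ∧ pos v < b) (pos_inj : Function.Injective pos)
    (route : L.E ⊕ XE → List (Bool × ℤ)) (cross : Finset ℤ)
    (Fam : L.E ⊕ XE → Bool → ℤ → ℤ → Prop) (Bend : L.E ⊕ XE → ℤ → Prop)
    (kd : L.E ⊕ XE → ℤ → Bool)
    (last : ∀ e, keep e → ((route (conv e)).map Prod.snd).getLast? =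
      some (enPos b pos (conv e)))
    (nodup : ∀ e, keep e → (stPos b pos (conv e) :: (route (conv e)).map Prod.snd).Nodup)
    (fam : ∀ e, keep e → ∀ p ∈ arcsOf (stPos b pos (conv e)) (route (conv e)),
      Fam (conv e) p.1 (min p.2.1 p.2.2) (max p.2.1 p.2.2))
    (bend : ∀ e, keep e → ∀ x ∈ ((route (conv e)).map Prod.snd).dropLast, Bend (conv e) x)
    (bend_mem : ∀ e, keep e → ∀ x, Bend (conv e) x → (0 < x ∧ x < b) ∧ ∀ v, x ≠ pos v)
    (fam_up : ∀ e, keep e → ∀ l r, Fam (conv e) true l r → 0 ≤ l ∧ r ≤ b)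
    (fam_loc : ∀ e, keep e → ∀ w l r, Fam (conv e) w l r → (0 < l ∧ l < b) ∨ (0 < r ∧ r < b))
    (fam_pair : ∀ e f, keep e → keep f → ∀ w l r l' r', Fam (conv e) w l r →
      Fam (conv f) w l' r' → ¬ (l < l' ∧ l' < r ∧ r < r') ∧
        (conv e ≠ conv f → ¬ (l = l' ∧ r = r')))
    (bend_pair : ∀ e f, keep e → keep f → conv e ≠ conv f → ∀ x, Bend (conv e) x →
      Bend (conv f) x → kd (conv e) x ≠ kd (conv f) x ∧ x ∈ cross) :
    TLay L c keep where
  b := b
  pos := pos
  cross := cross
  pos_mem := pos_mem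
  pos_inj := pos_inj
  route e := route (conv e)
  ne_nil e he h := by
    have := last e he
    rw [h] at this
    simp at this
  last e he := by rw [last e he, tB_conv]
  nodup e he := by rw [tA_conv]; exact nodup e he
  bend_mem e he x hx := (bend_mem e he x (bend e he x hx)).1
  bend_ne e he x hx := (bend_mem e he x (bend e he x hx)).2
  upper e he p hp h1 := by
    rw [tA_conv] at hp
    have h2 := fam e he p hp
    rw [h1] at h2
    have h3 := fam_up e he _ _ h2
    have h4 := min_le_left p.2.1 p.2.2
    have h5 := min_le_right p.2.1 p.2.2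
    have h6 := le_max_left p.2.1 p.2.2
    have h7 := le_max_right p.2.1 p.2.2
    omega
  loc e he p hp := by
    rw [tA_conv] at hp
    have h3 := fam_loc e he _ _ _ (fam e he p hp)
    omega
  planar e f he hf p hp q hq hpq := by
    rw [tA_conv] at hp hq
    have h1 := fam e he p hp
    have h2 := fam f hf q hq
    rw [← hpq] at h2
    unfold Interl
    rintro (h | h)
    · exact (fam_pair e f he hf _ _ _ _ _ h1 h2).1 h
    · exact (fam_pair f e hf he _ _ _ _ _ h2 h1).1 h
  distinct e f he hf hef p hp q hq hpq h := by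
    rw [tA_conv] at hp hq
    have h1 := fam e he p hp
    have h2 := fam f hf q hq
    rw [← hpq] at h2
    exact (fam_pair e f he hf _ _ _ _ _ h1 h2).2 (fun h' => hef (conv_inj h'))
      (minmax_of_sym2 h)
  no_three e f g he hf hg hef heg hfg x h1 h2 h3 := by
    have a1 := (bend_pair e f he hf (fun h' => hef (conv_inj h')) x (bend e he x h1)
      (bend f hf x h2)).1
    have a2 := (bend_pair e g he hg (fun h' => heg (conv_inj h')) x (bend e he x h1)
      (bend g hg x h3)).1
    have a3 := (bend_pair f g hf hg (fun h' => hfg (conv_inj h')) x (bend f hf x h2)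
      (bend g hg x h3)).1
    revert a1 a2 a3
    cases kd (conv e) x <;> cases kd (conv f) x <;> cases kd (conv g) x <;> simp
  hcross e f he hf hef x hx hy := (bend_pair e f he hf (fun h' => hef (conv_inj h')) x
    (bend e he x hx) (bend f hf x hy)).2

end Pool.Agent.CC.FC39
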