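import Pool.Agent.Lib_helper74.CCF.T39Base

/-!
# Twisted local drawings of `T(s)`, `s = q + 1`: the drawings `D(a)` (`u = 2 a`) and `D'(a)`
(`u = 2 a - 1`)

`a` is the number of layers before the cut, the crossing points `c_i`, `i > a`, of the left legs are
just before the row vertex `u`.
-/

set_option autoImplicit false
set_option linter.unusedSimpArgs false
set_option linter.unnecessarySeqFocus false
set_option linter.unusedTactic false
set_option linter.unreachableTactic false
set_option linter.unusedVariables false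

namespace Pool.Agent.CC.FC39

open Gph

namespace TD

/-- position of the row vertex `v` -/
def ps (s a u v : ℤ) : ℤ := v + 3 + (if v < u then 0 else s - a)

theorem ps_spec (s a u v : ℤ) :
    (v < u ∧ ps s a u v = v + 3) ∨ (u ≤ v ∧ ps s a u v = v + 3 + s - a) := by
  unfold ps
  split_ifs with h
  · exact .inl ⟨h, by ring⟩
  · exact .inr ⟨by omega, by ring⟩

/-- route of the leg of `v` -/
def leg (s a u v : ℤ) : List (Bool × ℤ) :=
  if v % 2 = 1 then
    (if v < 2 * a then [(true, 0)] else [(false, u + 3 + s - (v + 1) / 2), (true, 0)])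
  else
    (if v < 2 * a then [(false, 3 * s + 3 - (v / 2 + 1)), (true, 3 * s + 4)]
      else [(true, 3 * s + 4)])

/-- routes -/
def rt (q a u : ℕ) : (TLoc q).E ⊕ XE → List (Bool × ℤ)
  | .inl (.inl v) => leg (q + 1) a u (v.1 : ℕ)
  | .inl (.inr i) => chain true (ps (q + 1) a u (i.1 : ℕ)) (if i.1 + 1 = u then q + 2 - a else 1)
  | .inr .rin => (false, 1) :: (true, 3) :: chain true 3 (if u = 0 then q + 1 - a else 0)
  | .inr .rout => chain true (ps (q + 1) a u (2 * q + 1)) (a + 1) ++ [(false, 3 * (q : ℤ) + 8)]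
  | .inr .cb => [(false, 2), (false, 3 * (q : ℤ) + 6), (true, 3 * (q : ℤ) + 7)]
  | .inr .ad => [(true, 1), (false, 2), (false, 3 * (q : ℤ) + 9)]

/-- chords -/
def Fam (q a u : ℕ) : (TLoc q).E ⊕ XE → Bool → ℤ → ℤ → Prop
  | .inl (.inl v), w, l, r => let v : ℤ := (v.1 : ℕ)
    (w = true ∧ v % 2 = 1 ∧ v < 2 * a ∧ l = 0 ∧ r = ps (q + 1) a u v) ∨
    (w = true ∧ v % 2 = 1 ∧ 2 * a ≤ v ∧ l = 0 ∧ r = u + 4 + q - (v + 1) / 2) ∨
    (w = false ∧ v % 2 = 1 ∧ 2 * a ≤ v ∧ l = u + 4 + q - (v + 1) / 2 ∧ r = ps (q + 1) a u v) ∨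
    (w = true ∧ v % 2 = 0 ∧ 2 * a ≤ v ∧ l = ps (q + 1) a u v ∧ r = 3 * q + 7) ∨
    (w = false ∧ v % 2 = 0 ∧ v < 2 * a ∧ l = ps (q + 1) a u v ∧ r = 3 * q + 5 - v / 2) ∨
    (w = true ∧ v % 2 = 0 ∧ v < 2 * a ∧ l = 3 * q + 5 - v / 2 ∧ r = 3 * q + 7)
  | .inl (.inr i), w, l, r => let i : ℤ := (i.1 : ℕ)
    w = true ∧ r = l + 1 ∧ ps (q + 1) a u i ≤ l ∧ l < ps (q + 1) a u (i + 1)
  | .inr .rin, w, l, r => (w = false ∧ l = -1 ∧ r = 1) ∨ (w = true ∧ l = 1 ∧ r = 3) ∨
    (w = true ∧ r = l + 1 ∧ 3 ≤ l ∧ l < ps (q + 1) a u 0)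
  | .inr .rout, w, l, r => (w = true ∧ r = l + 1 ∧ ps (q + 1) a u (2 * q + 1) ≤ l ∧ l < 3 * q + 6) ∨
    (w = false ∧ l = 3 * q + 6 ∧ r = 3 * q + 8)
  | .inr .cb, w, l, r => (w = false ∧ l = -2 ∧ r = 2) ∨ (w = false ∧ l = 2 ∧ r = 3 * q + 6) ∨
    (w = true ∧ l = 3 * q + 6 ∧ r = 3 * q + 7)
  | .inr .ad, w, l, r => (w = true ∧ l = 0 ∧ r = 1) ∨ (w = false ∧ l = 1 ∧ r = 2) ∨
    (w = false ∧ l = 2 ∧ r = 3 * q + 9)

/-- bends -/
def Bend (q a u : ℕ) : (TLoc q).E ⊕ XE → ℤ → Prop
  | .inl (.inl v), x => let v : ℤ := (v.1 : ℕ)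
    (v % 2 = 1 ∧ 2 * a ≤ v ∧ x = u + 4 + q - (v + 1) / 2) ∨
    (v % 2 = 0 ∧ v < 2 * a ∧ x = 3 * q + 5 - v / 2)
  | .inl (.inr i), x => let i : ℤ := (i.1 : ℕ)
    ps (q + 1) a u i < x ∧ x < ps (q + 1) a u (i + 1)
  | .inr .rin, x => x = 1 ∨ (3 ≤ x ∧ x < ps (q + 1) a u 0)
  | .inr .rout, x => ps (q + 1) a u (2 * q + 1) < x ∧ x ≤ 3 * q + 6
  | .inr .cb, x => x = 2 ∨ x = 3 * q + 6
  | .inr .ad, x => x = 1 ∨ x = 2

/-- a 2-colouring of the edges through a bend -/
def kd (q : ℕ) : (TLoc q).E ⊕ XE → ℤ → Bool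
  | .inl (.inl _), _ => false
  | .inl (.inr _), _ => true
  | .inr .rin, _ => true
  | .inr .rout, _ => true
  | .inr .cb, _ => false
  | .inr .ad, x => decide (x = 2)

variable {q a u : ℕ}

theorem fam_pair (ha : a ≤ q + 1) (hu : u = 2 * a ∨ u + 1 = 2 * a) (e f : (TLoc q).E ⊕ XE)
    (w : Bool) (l r l' r' : ℤ) (h1 : Fam q a u e w l r) (h2 : Fam q a u f w l' r') :
    ¬ (l < l' ∧ l' < r ∧ r < r') ∧ (e ≠ f → ¬ (l = l' ∧ r = r')) := by
  have c1 := ps_spec (q + 1) a u 0
  have c2 := ps_spec (q + 1) a u (2 * q + 1)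
  rcases e with (v | i) | x <;> rcases f with (v' | i') | x'
  · have d1 := ps_spec (q + 1) a u (v.1 : ℕ)
    have hv := v.2
    have d1' := ps_spec (q + 1) a u (v'.1 : ℕ)
    have hv' := v'.2
    refine ⟨?_, fun hne => ?_⟩
    · cases w <;> simp only [Fam, reduceCtorEq, false_and, true_and, or_false, false_or] at h1 h2 <;> omega
    · have hne' : v.1 ≠ v'.1 := fun h => hne (by rw [Fin.ext h])
      cases w <;> simp only [Fam, reduceCtorEq, false_and, true_and, or_false, false_or] at h1 h2 <;> omega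
  · have d1 := ps_spec (q + 1) a u (v.1 : ℕ)
    have hv := v.2
    have d1' := ps_spec (q + 1) a u (i'.1 : ℕ)
    have d2' := ps_spec (q + 1) a u ((i'.1 : ℕ) + 1)
    have hi' := i'.2
    cases w <;> simp only [Fam, reduceCtorEq, false_and, true_and, or_false, false_or] at h1 h2 <;> omega
  · have d1 := ps_spec (q + 1) a u (v.1 : ℕ)
    have hv := v.2
    rcases x' with _ | _ | _ | _ <;> cases w <;>
      simp only [Fam, reduceCtorEq, false_and, true_and, or_false, false_or] at h1 h2 <;> omega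
  · have d1 := ps_spec (q + 1) a u (i.1 : ℕ)
    have d2 := ps_spec (q + 1) a u ((i.1 : ℕ) + 1)
    have hi := i.2
    have d1' := ps_spec (q + 1) a u (v'.1 : ℕ)
    have hv' := v'.2
    cases w <;> simp only [Fam, reduceCtorEq, false_and, true_and, or_false, false_or] at h1 h2 <;> omega
  · have d1 := ps_spec (q + 1) a u (i.1 : ℕ)
    have d2 := ps_spec (q + 1) a u ((i.1 : ℕ) + 1)
    have hi := i.2
    have d1' := ps_spec (q + 1) a u (i'.1 : ℕ)
    have d2' := ps_spec (q + 1) a u ((i'.1 : ℕ) + 1)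
    have hi' := i'.2
    refine ⟨?_, fun hne => ?_⟩
    · cases w <;> simp only [Fam, reduceCtorEq, false_and, true_and, or_false, false_or] at h1 h2 <;> omega
    · have hne' : i.1 ≠ i'.1 := fun h => hne (by rw [Fin.ext h])
      cases w <;> simp only [Fam, reduceCtorEq, false_and, true_and, or_false, false_or] at h1 h2 <;> omega
  · have d1 := ps_spec (q + 1) a u (i.1 : ℕ)
    have d2 := ps_spec (q + 1) a u ((i.1 : ℕ) + 1)
    have hi := i.2
    rcases x' with _ | _ | _ | _ <;> cases w <;>
      simp only [Fam, reduceCtorEq, false_and, true_and, or_false, false_or] at h1 h2 <;> omega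
  · have d1' := ps_spec (q + 1) a u (v'.1 : ℕ)
    have hv' := v'.2
    rcases x with _ | _ | _ | _ <;> cases w <;>
      simp only [Fam, reduceCtorEq, false_and, true_and, or_false, false_or] at h1 h2 <;> omega
  · have d1' := ps_spec (q + 1) a u (i'.1 : ℕ)
    have d2' := ps_spec (q + 1) a u ((i'.1 : ℕ) + 1)
    have hi' := i'.2
    rcases x with _ | _ | _ | _ <;> cases w <;>
      simp only [Fam, reduceCtorEq, false_and, true_and, or_false, false_or] at h1 h2 <;> omega
  · rcases x with _ | _ | _ | _ <;> rcases x' with _ | _ | _ | _ <;> cases w <;>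
      simp only [Fam, reduceCtorEq, false_and, true_and, or_false, false_or] at h1 h2 <;> refine ⟨by omega, fun hne => ?_⟩ <;>
      first | omega | exact absurd rfl hne


/-- positions -/
def pos (q a u : ℕ) (v : (TLoc q).V) : ℤ := ps (q + 1) a u (v.1 : ℕ)

theorem pos_mem (ha : a ≤ q + 1) (v : (TLoc q).V) :
    0 < pos q a u v ∧ pos q a u v < 3 * (q : ℤ) + 7 := by
  have h1 := ps_spec (q + 1) a u (v.1 : ℕ)
  have h2 := v.2
  unfold pos
  omega

theorem pos_inj (ha : a ≤ q + 1) : Function.Injective (pos q a u) := by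
  intro v w h
  have h1 := ps_spec (q + 1) a u (v.1 : ℕ)
  have h2 := ps_spec (q + 1) a u (w.1 : ℕ)
  unfold pos at h
  apply Fin.ext
  omega

theorem st_rout (q a u : ℕ) : stPos (L := TLoc q) (3 * (q : ℤ) + 7) (pos q a u) (.inr .rout) =
    ps (q + 1) a u (2 * q + 1) := by
  show ps (q + 1) a u ((2 * q + 1 : ℕ) : ℤ) = _
  push_cast
  rfl

theorem en_row (i : Fin (2 * q + 1)) :
    enPos (L := TLoc q) (3 * (q : ℤ) + 7) (pos q a u) (.inl (.inr i)) =
    ps (q + 1) a u ((i.1 : ℕ) + 1) := by
  show ps (q + 1) a u ((i.1 + 1 : ℕ) : ℤ) = _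
  push_cast
  rfl

theorem row_len (ha : a ≤ q + 1) (i : ℕ) :
    ps (q + 1) a u i + ((if i + 1 = u then q + 2 - a else 1 : ℕ) : ℤ) = ps (q + 1) a u (i + 1) := by
  have h1 := ps_spec (q + 1) a u i
  have h2 := ps_spec (q + 1) a u (i + 1)
  split_ifs with h
  · rw [Nat.cast_sub (by omega)]
    push_cast
    omega
  · push_cast
    omega

theorem rin_len (ha : a ≤ q + 1) :
    3 + ((if u = 0 then q + 1 - a else 0 : ℕ) : ℤ) = ps (q + 1) a u 0 := by
  have h1 := ps_spec (q + 1) a u 0
  split_ifs with h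
  · rw [Nat.cast_sub (by omega)]
    push_cast
    omega
  · push_cast
    omega

theorem rout_len (ha : a ≤ q + 1) (hu : u = 2 * a ∨ u + 1 = 2 * a) :
    ps (q + 1) a u (2 * q + 1) + ((a + 1 : ℕ) : ℤ) = 3 * q + 6 := by
  have h1 := ps_spec (q + 1) a u (2 * q + 1)
  push_cast
  omega

theorem fam (ha : a ≤ q + 1) (hu : u = 2 * a ∨ u + 1 = 2 * a) (e : (TLoc q).E ⊕ XE)
    (p : Bool × ℤ × ℤ)
    (hp : p ∈ arcsOf (stPos (3 * (q : ℤ) + 7) (pos q a u) e) (rt q a u e)) :
    Fam q a u e p.1 (min p.2.1 p.2.2) (max p.2.1 p.2.2) := by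
  obtain ⟨w, x, y⟩ := p
  rcases e with (v | i) | z
  · have d1 := ps_spec (q + 1) a u (v.1 : ℕ)
    have hv := v.2
    have e0 : stPos (3 * (q : ℤ) + 7) (pos q a u) (.inl (.inl v)) =
      ps (q + 1) a u (v.1 : ℕ) := rfl
    rw [e0] at hp
    simp only [rt, leg] at hp
    split_ifs at hp with k1 k2 k2 <;>
      simp only [arcsOf, List.mem_cons, List.not_mem_nil, or_false, Prod.mk.injEq] at hp <;>
      cases w <;>
      simp only [Fam, reduceCtorEq, false_and, true_and, or_false, false_or] at hp ⊢ <;> omega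
  · have hi := i.2
    have e0 : stPos (3 * (q : ℤ) + 7) (pos q a u) (.inl (.inr i)) =
      ps (q + 1) a u (i.1 : ℕ) := rfl
    rw [e0] at hp
    simp only [rt] at hp
    rw [mem_arcs_chain, row_len ha] at hp
    obtain ⟨rfl, h1, h2, h3⟩ := hp
    simp only [Fam, true_and]
    omega
  · rcases z with _ | _ | _ | _
    · have e0 : stPos (3 * (q : ℤ) + 7) (pos q a u) (.inr .rin) = -1 := rfl
      rw [e0] at hp
      simp only [rt, arcsOf, List.mem_cons, Prod.mk.injEq, mem_arcs_chain, rin_len ha] at hp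
      cases w <;>
      simp only [Fam, reduceCtorEq, false_and, true_and, or_false, false_or] at hp ⊢ <;> omega
    · rw [st_rout] at hp
      simp only [rt] at hp
      rw [arcs_chain_append, List.mem_append, mem_arcs_chain, rout_len ha hu] at hp
      simp only [arcsOf, List.mem_cons, List.not_mem_nil, or_false, Prod.mk.injEq] at hp
      cases w <;>
      simp only [Fam, reduceCtorEq, false_and, true_and, or_false, false_or] at hp ⊢ <;> omega
    · have e0 : stPos (3 * (q : ℤ) + 7) (pos q a u) (.inr .cb) = -2 := rfl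
      rw [e0] at hp
      simp only [rt, arcsOf, List.mem_cons, List.not_mem_nil, or_false, Prod.mk.injEq] at hp
      cases w <;>
      simp only [Fam, reduceCtorEq, false_and, true_and, or_false, false_or] at hp ⊢ <;> omega
    · have e0 : stPos (3 * (q : ℤ) + 7) (pos q a u) (.inr .ad) = 0 := rfl
      rw [e0] at hp
      simp only [rt, arcsOf, List.mem_cons, List.not_mem_nil, or_false, Prod.mk.injEq] at hp
      cases w <;>
      simp only [Fam, reduceCtorEq, false_and, true_and, or_false, false_or] at hp ⊢ <;> omega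

theorem bend (ha : a ≤ q + 1) (hu : u = 2 * a ∨ u + 1 = 2 * a) (e : (TLoc q).E ⊕ XE)
    (x : ℤ) (hx : x ∈ ((rt q a u e).map Prod.snd).dropLast) : Bend q a u e x := by
  rcases e with (v | i) | z
  · have hv := v.2
    simp only [rt, leg] at hx
    split_ifs at hx with k1 k2 k2 <;>
      simp only [List.map_cons, List.map_nil, List.dropLast_cons_cons, List.dropLast_singleton,
        List.mem_singleton, List.not_mem_nil] at hx <;>
      simp only [Bend] <;> omega
  · have hi := i.2
    simp only [rt] at hx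
    rw [mem_chain_dropLast, row_len ha] at hx
    simpa only [Bend] using hx
  · rcases z with _ | _ | _ | _
    · simp only [rt] at hx
      simp only [Bend]
      have h0 := rin_len (u := u) ha
      rcases Nat.eq_zero_or_pos (if u = 0 then q + 1 - a else 0) with h | h
      · rw [h] at hx h0
        simp only [chain, List.map_cons, List.map_nil, List.dropLast_cons_cons,
          List.dropLast_singleton, List.mem_singleton] at hx
        exact .inl hx
      · obtain ⟨n, hn⟩ : ∃ n, (if u = 0 then q + 1 - a else 0) = n + 1 :=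
          ⟨_, (Nat.succ_pred_eq_of_pos h).symm⟩
        rw [hn] at hx h0
        have h1 : x ∈ [(1 : ℤ), 3] ++ ((chain true 3 (n + 1)).map Prod.snd).dropLast := by
          simpa only [chain, List.map_cons, List.dropLast_cons_cons, List.cons_append,
            List.nil_append] using hx
        rw [List.mem_append, mem_chain_dropLast, h0] at h1
        simp only [List.mem_cons, List.not_mem_nil, or_false] at h1
        have h2 : (3 : ℤ) < ps (q + 1) a u 0 := by rw [← h0]; push_cast; omega
        omega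
    · simp only [rt] at hx
      rw [chain_dropLast_append _ _ (by simp)] at hx
      simp only [List.map_cons, List.map_nil, List.dropLast_singleton, List.append_nil] at hx
      rw [mem_chain, rout_len ha hu] at hx
      simpa only [Bend] using hx
    · simp only [rt, List.map_cons, List.map_nil, List.dropLast_cons_cons,
        List.dropLast_singleton, List.mem_cons, List.not_mem_nil, or_false] at hx
      simpa only [Bend] using hx
    · simp only [rt, List.map_cons, List.map_nil, List.dropLast_cons_cons,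
        List.dropLast_singleton, List.mem_cons, List.not_mem_nil, or_false] at hx
      simpa only [Bend] using hx

theorem bend_mem (ha : a ≤ q + 1) (hu : u = 2 * a ∨ u + 1 = 2 * a) (e : (TLoc q).E ⊕ XE)
    (x : ℤ) (hx : Bend q a u e x) :
    (0 < x ∧ x < 3 * (q : ℤ) + 7) ∧ ∀ v, x ≠ pos q a u v := by
  have c1 := ps_spec (q + 1) a u 0
  have c2 := ps_spec (q + 1) a u (2 * q + 1)
  refine ⟨?_, fun v => ?_⟩
  · rcases e with (v | i) | z
    · have hv := v.2
      simp only [Bend] at hx
      omega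
    · have d1 := ps_spec (q + 1) a u (i.1 : ℕ)
      have d2 := ps_spec (q + 1) a u ((i.1 : ℕ) + 1)
      have hi := i.2
      simp only [Bend] at hx
      omega
    · rcases z with _ | _ | _ | _ <;> simp only [Bend] at hx <;> omega
  · have d0 := ps_spec (q + 1) a u (v.1 : ℕ)
    have hv0 := v.2
    unfold pos
    rcases e with (v' | i) | z
    · have hv := v'.2
      simp only [Bend] at hx
      omega
    · have d1 := ps_spec (q + 1) a u (i.1 : ℕ)
      have d2 := ps_spec (q + 1) a u ((i.1 : ℕ) + 1)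
      have hi := i.2
      simp only [Bend] at hx
      omega
    · rcases z with _ | _ | _ | _ <;> simp only [Bend] at hx <;> omega

theorem fam_up (ha : a ≤ q + 1) (hu : u = 2 * a ∨ u + 1 = 2 * a) (e : (TLoc q).E ⊕ XE)
    (l r : ℤ) (h : Fam q a u e true l r) : 0 ≤ l ∧ r ≤ 3 * (q : ℤ) + 7 := by
  have c1 := ps_spec (q + 1) a u 0
  have c2 := ps_spec (q + 1) a u (2 * q + 1)
  rcases e with (v | i) | z
  · have d1 := ps_spec (q + 1) a u (v.1 : ℕ)
    have hv := v.2
    simp only [Fam, reduceCtorEq, false_and, true_and, or_false, false_or] at h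
    omega
  · have d1 := ps_spec (q + 1) a u (i.1 : ℕ)
    have d2 := ps_spec (q + 1) a u ((i.1 : ℕ) + 1)
    have hi := i.2
    simp only [Fam, reduceCtorEq, false_and, true_and, or_false, false_or] at h
    omega
  · rcases z with _ | _ | _ | _ <;>
      simp only [Fam, reduceCtorEq, false_and, true_and, or_false, false_or] at h <;> omega

theorem fam_loc (ha : a ≤ q + 1) (hu : u = 2 * a ∨ u + 1 = 2 * a) (e : (TLoc q).E ⊕ XE)
    (w : Bool) (l r : ℤ) (h : Fam q a u e w l r) :
    (0 < l ∧ l < 3 * (q : ℤ) + 7) ∨ (0 < r ∧ r < 3 * (q : ℤ) + 7) := by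
  have c1 := ps_spec (q + 1) a u 0
  have c2 := ps_spec (q + 1) a u (2 * q + 1)
  rcases e with (v | i) | z
  · have d1 := ps_spec (q + 1) a u (v.1 : ℕ)
    have hv := v.2
    simp only [Fam] at h
    omega
  · have d1 := ps_spec (q + 1) a u (i.1 : ℕ)
    have d2 := ps_spec (q + 1) a u ((i.1 : ℕ) + 1)
    have hi := i.2
    simp only [Fam] at h
    omega
  · rcases z with _ | _ | _ | _ <;> simp only [Fam] at h <;> omega

/-- the crossings -/
noncomputable def cross (q a u : ℕ) (c : Bool) : Finset ℤ :=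
  Finset.Icc ((u : ℤ) + 3) (u + 3 + q - a) ∪ Finset.Icc (3 * (q : ℤ) + 6 - a) (3 * q + 5) ∪
    (if c then {1, 2, 3 * (q : ℤ) + 6} else ∅)

theorem cross_card (ha : a ≤ q + 1) (c : Bool) :
    (cross q a u c).card ≤ q + 1 + if c then 3 else 0 := by
  unfold cross
  refine (Finset.card_union_le _ _).trans (add_le_add ((Finset.card_union_le _ _).trans ?_) ?_)
  · rw [Int.card_Icc, Int.card_Icc]
    omega
  · cases c
    · simp
    · simpa using Finset.card_le_three

theorem bend_pair (ha : a ≤ q + 1) (hu : u = 2 * a ∨ u + 1 = 2 * a) {c : Bool}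
    (e f : LE (TLoc q) c) (hef : conv e ≠ conv f) (x : ℤ) (h1 : Bend q a u (conv e) x)
    (h2 : Bend q a u (conv f) x) :
    kd q (conv e) x ≠ kd q (conv f) x ∧ x ∈ cross q a u c := by
  have c1 := ps_spec (q + 1) a u 0
  have c2 := ps_spec (q + 1) a u (2 * q + 1)
  suffices h : kd q (conv e) x ≠ kd q (conv f) x ∧ ((u + 3 ≤ x ∧ x ≤ u + 3 + q - a) ∨
      (3 * q + 6 - a ≤ x ∧ x ≤ 3 * q + 5) ∨ ((x = 1 ∨ x = 2 ∨ x = 3 * q + 6) ∧ c = true)) by
    refine ⟨h.1, ?_⟩
    simp only [cross, Finset.mem_union, Finset.mem_Icc]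
    rcases h.2 with h' | h' | ⟨h', hc⟩
    · exact .inl (.inl h')
    · exact .inl (.inr h')
    · refine .inr ?_
      rw [if_pos hc]
      simpa using h'
  rcases e with (v | i) | (_ | _) | ⟨_ | _, hc⟩ <;>
    rcases f with (v' | i') | (_ | _) | ⟨_ | _, hc'⟩ <;>
    simp only [conv] at h1 h2 hef ⊢
  · have d1 := ps_spec (q + 1) a u (v.1 : ℕ)
    have hv := v.2
    have d1' := ps_spec (q + 1) a u (v'.1 : ℕ)
    have hv' := v'.2
    have hne : v.1 ≠ v'.1 := fun h => hef (by rw [Fin.ext h])
    simp only [Bend] at h1 h2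
    omega
  · have d1 := ps_spec (q + 1) a u (v.1 : ℕ)
    have hv := v.2
    have d1' := ps_spec (q + 1) a u (i'.1 : ℕ)
    have d2' := ps_spec (q + 1) a u ((i'.1 : ℕ) + 1)
    have hi' := i'.2
    simp only [Bend] at h1 h2
    refine ⟨?_, by omega⟩
    first | (simp only [kd]; decide) | omega
  · have d1 := ps_spec (q + 1) a u (v.1 : ℕ)
    have hv := v.2
    simp only [Bend] at h1 h2
    refine ⟨?_, by omega⟩
    first | (simp only [kd]; decide) | omega
  · have d1 := ps_spec (q + 1) a u (v.1 : ℕ)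
    have hv := v.2
    simp only [Bend] at h1 h2
    refine ⟨?_, by omega⟩
    first | (simp only [kd]; decide) | omega
  · have d1 := ps_spec (q + 1) a u (v.1 : ℕ)
    have hv := v.2
    simp only [Bend] at h1 h2
    refine ⟨?_, .inr (.inr ⟨by omega, hc'⟩)⟩
    first | (simp only [kd]; decide) | omega
  · have d1 := ps_spec (q + 1) a u (v.1 : ℕ)
    have hv := v.2
    simp only [Bend] at h1 h2
    refine ⟨?_, .inr (.inr ⟨by omega, hc'⟩)⟩
    first | (simp only [kd]; decide) | omega
  · have d1 := ps_spec (q + 1) a u (i.1 : ℕ)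
    have d2 := ps_spec (q + 1) a u ((i.1 : ℕ) + 1)
    have hi := i.2
    have d1' := ps_spec (q + 1) a u (v'.1 : ℕ)
    have hv' := v'.2
    simp only [Bend] at h1 h2
    refine ⟨?_, by omega⟩
    first | (simp only [kd]; decide) | omega
  · have d1 := ps_spec (q + 1) a u (i.1 : ℕ)
    have d2 := ps_spec (q + 1) a u ((i.1 : ℕ) + 1)
    have hi := i.2
    have d1' := ps_spec (q + 1) a u (i'.1 : ℕ)
    have d2' := ps_spec (q + 1) a u ((i'.1 : ℕ) + 1)
    have hi' := i'.2
    have hne : i.1 ≠ i'.1 := fun h => hef (by rw [Fin.ext h])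
    simp only [Bend] at h1 h2
    omega
  · have d1 := ps_spec (q + 1) a u (i.1 : ℕ)
    have d2 := ps_spec (q + 1) a u ((i.1 : ℕ) + 1)
    have hi := i.2
    simp only [Bend] at h1 h2
    refine ⟨?_, by omega⟩
    first | (simp only [kd]; decide) | omega
  · have d1 := ps_spec (q + 1) a u (i.1 : ℕ)
    have d2 := ps_spec (q + 1) a u ((i.1 : ℕ) + 1)
    have hi := i.2
    simp only [Bend] at h1 h2
    refine ⟨?_, by omega⟩
    first | (simp only [kd]; decide) | omega
  · have d1 := ps_spec (q + 1) a u (i.1 : ℕ)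
    have d2 := ps_spec (q + 1) a u ((i.1 : ℕ) + 1)
    have hi := i.2
    simp only [Bend] at h1 h2
    refine ⟨?_, .inr (.inr ⟨by omega, hc'⟩)⟩
    first | (simp only [kd]; decide) | omega
  · have d1 := ps_spec (q + 1) a u (i.1 : ℕ)
    have d2 := ps_spec (q + 1) a u ((i.1 : ℕ) + 1)
    have hi := i.2
    simp only [Bend] at h1 h2
    refine ⟨?_, .inr (.inr ⟨by omega, hc'⟩)⟩
    first | (simp only [kd]; decide) | omega
  · have d1' := ps_spec (q + 1) a u (v'.1 : ℕ)
    have hv' := v'.2
    simp only [Bend] at h1 h2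
    refine ⟨?_, by omega⟩
    first | (simp only [kd]; decide) | omega
  · have d1' := ps_spec (q + 1) a u (i'.1 : ℕ)
    have d2' := ps_spec (q + 1) a u ((i'.1 : ℕ) + 1)
    have hi' := i'.2
    simp only [Bend] at h1 h2
    refine ⟨?_, by omega⟩
    first | (simp only [kd]; decide) | omega
  · exact absurd rfl hef
  · simp only [Bend] at h1 h2
    refine ⟨?_, by omega⟩
    first | (simp only [kd]; decide) | omega
  · simp only [Bend] at h1 h2
    refine ⟨?_, .inr (.inr ⟨by omega, hc'⟩)⟩
    first | (simp only [kd]; decide) | omega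
  · simp only [Bend] at h1 h2
    refine ⟨?_, .inr (.inr ⟨by omega, hc'⟩)⟩
    have hx : x = 1 ∨ x = 2 := by omega
    rcases hx with rfl | rfl <;> first | omega | simp [kd]
  · have d1' := ps_spec (q + 1) a u (v'.1 : ℕ)
    have hv' := v'.2
    simp only [Bend] at h1 h2
    refine ⟨?_, by omega⟩
    first | (simp only [kd]; decide) | omega
  · have d1' := ps_spec (q + 1) a u (i'.1 : ℕ)
    have d2' := ps_spec (q + 1) a u ((i'.1 : ℕ) + 1)
    have hi' := i'.2
    simp only [Bend] at h1 h2
    refine ⟨?_, by omega⟩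
    first | (simp only [kd]; decide) | omega
  · simp only [Bend] at h1 h2
    refine ⟨?_, by omega⟩
    first | (simp only [kd]; decide) | omega
  · exact absurd rfl hef
  · simp only [Bend] at h1 h2
    refine ⟨?_, .inr (.inr ⟨by omega, hc'⟩)⟩
    first | (simp only [kd]; decide) | omega
  · simp only [Bend] at h1 h2
    refine ⟨?_, .inr (.inr ⟨by omega, hc'⟩)⟩
    first | (simp only [kd]; decide) | omega
  · have d1' := ps_spec (q + 1) a u (v'.1 : ℕ)
    have hv' := v'.2
    simp only [Bend] at h1 h2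
    refine ⟨?_, .inr (.inr ⟨by omega, hc⟩)⟩
    first | (simp only [kd]; decide) | omega
  · have d1' := ps_spec (q + 1) a u (i'.1 : ℕ)
    have d2' := ps_spec (q + 1) a u ((i'.1 : ℕ) + 1)
    have hi' := i'.2
    simp only [Bend] at h1 h2
    refine ⟨?_, .inr (.inr ⟨by omega, hc⟩)⟩
    first | (simp only [kd]; decide) | omega
  · simp only [Bend] at h1 h2
    refine ⟨?_, .inr (.inr ⟨by omega, hc⟩)⟩
    first | (simp only [kd]; decide) | omega
  · simp only [Bend] at h1 h2
    refine ⟨?_, .inr (.inr ⟨by omega, hc⟩)⟩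
    first | (simp only [kd]; decide) | omega
  · exact absurd rfl hef
  · simp only [Bend] at h1 h2
    refine ⟨?_, .inr (.inr ⟨by omega, hc⟩)⟩
    have hx : x = 1 ∨ x = 2 := by omega
    rcases hx with rfl | rfl <;> first | omega | simp [kd]
  · have d1' := ps_spec (q + 1) a u (v'.1 : ℕ)
    have hv' := v'.2
    simp only [Bend] at h1 h2
    refine ⟨?_, .inr (.inr ⟨by omega, hc⟩)⟩
    first | (simp only [kd]; decide) | omega
  · have d1' := ps_spec (q + 1) a u (i'.1 : ℕ)
    have d2' := ps_spec (q + 1) a u ((i'.1 : ℕ) + 1)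
    have hi' := i'.2
    simp only [Bend] at h1 h2
    refine ⟨?_, .inr (.inr ⟨by omega, hc⟩)⟩
    first | (simp only [kd]; decide) | omega
  · simp only [Bend] at h1 h2
    refine ⟨?_, .inr (.inr ⟨by omega, hc⟩)⟩
    have hx : x = 1 ∨ x = 2 := by omega
    rcases hx with rfl | rfl <;> first | omega | simp [kd]
  · simp only [Bend] at h1 h2
    refine ⟨?_, .inr (.inr ⟨by omega, hc⟩)⟩
    first | (simp only [kd]; decide) | omega
  · simp only [Bend] at h1 h2
    refine ⟨?_, .inr (.inr ⟨by omega, hc⟩)⟩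
    have hx : x = 1 ∨ x = 2 := by omega
    rcases hx with rfl | rfl <;> first | omega | simp [kd]
  · exact absurd rfl hef

theorem last (ha : a ≤ q + 1) (hu : u = 2 * a ∨ u + 1 = 2 * a) (e : (TLoc q).E ⊕ XE) :
    ((rt q a u e).map Prod.snd).getLast? = some (enPos (3 * (q : ℤ) + 7) (pos q a u) e) := by
  rcases e with (v | i) | z
  · have e0 : enPos (3 * (q : ℤ) + 7) (pos q a u) (.inl (.inl v)) =
      ePos (3 * (q : ℤ) + 7) (pos q a u) (.inr (decide (v.1 % 2 = 0))) := rfl
    rw [e0]
    have e1 : ((v.1 : ℕ) : ℤ) % 2 = 1 ↔ ¬ v.1 % 2 = 0 := by omega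
    simp only [rt, leg]
    by_cases k : v.1 % 2 = 0
    · rw [if_neg (by omega)]
      simp only [k, decide_true, ePos]
      split_ifs <;> simp only [List.map_cons, List.map_nil, List.getLast?_cons_cons,
        List.getLast?_singleton] <;> congr 1 <;> ring
    · rw [if_pos (by omega)]
      simp only [k, decide_false, ePos]
      split_ifs <;> simp only [List.map_cons, List.map_nil, List.getLast?_cons_cons,
        List.getLast?_singleton]
  · rw [en_row]
    simp only [rt]
    rw [chain_getLast _ _ (by split_ifs <;> omega), row_len ha]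
  · rcases z with _ | _ | _ | _
    · have e0 : enPos (L := TLoc q) (3 * (q : ℤ) + 7) (pos q a u) (.inr .rin) =
        ps (q + 1) a u 0 := rfl
      rw [e0]
      simp only [rt]
      have h0 := rin_len (u := u) ha
      rcases Nat.eq_zero_or_pos (if u = 0 then q + 1 - a else 0) with h | h
      · rw [h] at h0 ⊢
        rw [← h0]
        simp [chain]
      · have h1 := chain_getLast (u := true) (if u = 0 then q + 1 - a else 0) 3 h
        rw [h0] at h1
        rw [List.map_cons, List.map_cons]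
        obtain ⟨n, hn⟩ : ∃ n, (if u = 0 then q + 1 - a else 0) = n + 1 :=
          ⟨_, (Nat.succ_pred_eq_of_pos h).symm⟩
        rw [hn] at h1 ⊢
        simp only [chain, List.map_cons, List.getLast?_cons_cons] at h1 ⊢
        exact h1
    · simp only [rt, List.map_append, List.map_cons, List.map_nil, List.getLast?_append,
        List.getLast?_singleton, Option.some_or, enPos]
      congr 1
    · rfl
    · simp only [rt, List.map_cons, List.map_nil, List.getLast?_cons_cons,
        List.getLast?_singleton, enPos]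
      congr 1

theorem nodup (ha : a ≤ q + 1) (hu : u = 2 * a ∨ u + 1 = 2 * a) (e : (TLoc q).E ⊕ XE) :
    (stPos (3 * (q : ℤ) + 7) (pos q a u) e :: (rt q a u e).map Prod.snd).Nodup := by
  rcases e with (v | i) | z
  · have d1 := ps_spec (q + 1) a u (v.1 : ℕ)
    have hv := v.2
    have e0 : stPos (3 * (q : ℤ) + 7) (pos q a u) (.inl (.inl v)) =
      ps (q + 1) a u (v.1 : ℕ) := rfl
    rw [e0]
    simp only [rt, leg]
    split_ifs with k1 k2 k2 <;> simp only [List.map_cons, List.map_nil, List.nodup_cons,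
      List.mem_cons, List.not_mem_nil, or_false, not_false_eq_true, List.nodup_nil, and_true] <;>
      omega
  · have e0 : stPos (3 * (q : ℤ) + 7) (pos q a u) (.inl (.inr i)) =
      ps (q + 1) a u (i.1 : ℕ) := rfl
    rw [e0]
    simp only [rt, List.nodup_cons]
    refine ⟨fun h => ?_, chain_nodup _ _⟩
    rw [mem_chain] at h
    omega
  · rcases z with _ | _ | _ | _
    · simp only [rt, stPos, List.map_cons, List.nodup_cons, List.mem_cons, mem_chain]
      refine ⟨?_, ?_, ?_, chain_nodup _ _⟩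
      · skip
        omega
      · skip
        omega
      · omega
    · rw [st_rout]
      have h1 := rout_len (u := u) ha hu
      simp only [rt, List.map_append, List.nodup_cons, List.mem_append, mem_chain, h1,
        List.map_cons, List.map_nil, List.mem_singleton, List.nodup_append, List.nodup_nil,
        List.not_mem_nil, not_false_eq_true, and_true, chain_nodup, true_and]
      refine ⟨by omega, fun x hx y hy => ?_⟩
      omega
    · simp only [rt, stPos, List.map_cons, List.map_nil, List.nodup_cons, List.mem_cons,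
        List.not_mem_nil, or_false, not_false_eq_true, List.nodup_nil, and_true]
      have e0 : stPos (L := TLoc q) (3 * (q : ℤ) + 7) (pos q a u) (.inr .cb) = -2 := rfl
      omega
    · have e0 : stPos (L := TLoc q) (3 * (q : ℤ) + 7) (pos q a u) (.inr .ad) = 0 := rfl
      rw [e0]
      simp only [rt, List.map_cons, List.map_nil, List.nodup_cons, List.mem_cons,
        List.not_mem_nil, or_false, not_false_eq_true, List.nodup_nil, and_true]
      omega

/-- the drawings `D(a)` (`u = 2 a`) and `D'(a)` (`u + 1 = 2 a`) -/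
noncomputable def lay (ha : a ≤ q + 1) (hu : u = 2 * a ∨ u + 1 = 2 * a) (c : Bool) :
    TLay (TLoc q) c (fun _ => True) :=
  mkTile (3 * (q : ℤ) + 7) (pos q a u) (pos_mem ha) (pos_inj ha) (rt q a u) (cross q a u c)
    (Fam q a u) (Bend q a u) (kd q)
    (fun e _ => last ha hu (conv e))
    (fun e _ => nodup ha hu (conv e))
    (fun e _ => fam ha hu (conv e))
    (fun e _ => bend ha hu (conv e))
    (fun e _ => bend_mem ha hu (conv e))
    (fun e _ => fam_up ha hu (conv e))
    (fun e _ => fam_loc ha hu (conv e))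
    (fun e f _ _ => fam_pair ha hu (conv e) (conv f))
    (fun e f _ _ h => bend_pair ha hu e f h)

end TD

end Pool.Agent.CC.FC39
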