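import Pool.Agent.Lib_helper74.CCF.T39TD

/-!
# The tile edges of `T(s)` that are crossed in a tile with `s` (`s + 3` if `c`) crossings
-/

set_option autoImplicit false

namespace Pool.Agent.CC.FC39

open Gph

namespace TD

variable {q a u : ℕ}

theorem bend_of_leg (v : Fin (2 * q + 2)) (x : ℤ) (h : Bend q a u (.inl (.inl v)) x) :
    x ∈ ((rt q a u (.inl (.inl v))).map Prod.snd).dropLast := by
  simp only [Bend] at h
  simp only [rt, leg]
  split_ifs with k1 k2 k2 <;>
    simp only [List.map_cons, List.map_nil, List.dropLast_cons_cons, List.dropLast_singleton,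
      List.mem_singleton, List.not_mem_nil] <;> omega

theorem bend_of_row (ha : a ≤ q + 1) (i : Fin (2 * q + 1)) (x : ℤ)
    (h : Bend q a u (.inl (.inr i)) x) :
    x ∈ ((rt q a u (.inl (.inr i))).map Prod.snd).dropLast := by
  simp only [rt]
  rw [mem_chain_dropLast, row_len ha]
  exact h

theorem bend_of_rin (ha : a ≤ q + 1) (x : ℤ)
    (h : Bend q a u (.inr .rin) x) :
    x ∈ ((rt q a u (.inr .rin)).map Prod.snd).dropLast := by
  simp only [Bend] at h
  simp only [rt]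
  have h0 := rin_len (u := u) ha
  rcases Nat.eq_zero_or_pos (if u = 0 then q + 1 - a else 0) with h' | h'
  · rw [h'] at h0 ⊢
    simp only [chain, List.map_cons, List.map_nil, List.dropLast_cons_cons,
      List.dropLast_singleton, List.mem_singleton]
    push_cast at h0
    omega
  · obtain ⟨n, hn⟩ : ∃ n, (if u = 0 then q + 1 - a else 0) = n + 1 :=
      ⟨_, (Nat.succ_pred_eq_of_pos h').symm⟩
    rw [hn] at h0 ⊢
    have h1 : x ∈ [(1 : ℤ), 3] ++ ((chain true 3 (n + 1)).map Prod.snd).dropLast := by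
      rw [List.mem_append, mem_chain_dropLast, h0]
      simp only [List.mem_cons, List.not_mem_nil, or_false]
      omega
    simpa only [chain, List.map_cons, List.dropLast_cons_cons, List.cons_append,
      List.nil_append] using h1

theorem bend_of_rout (ha : a ≤ q + 1) (hu : u = 2 * a ∨ u + 1 = 2 * a) (x : ℤ)
    (h : Bend q a u (.inr .rout) x) :
    x ∈ ((rt q a u (.inr .rout)).map Prod.snd).dropLast := by
  simp only [rt]
  rw [chain_dropLast_append _ _ (by simp)]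
  simp only [List.map_cons, List.map_nil, List.dropLast_singleton, List.append_nil]
  rw [mem_chain, rout_len ha hu]
  exact h

theorem crossed_of (ha : a ≤ q + 1) (hu : u = 2 * a ∨ u + 1 = 2 * a) {c : Bool}
    {e f : LE (TLoc q) c} (hne : f ≠ e) {x : ℤ}
    (h1 : x ∈ ((rt q a u (conv e)).map Prod.snd).dropLast)
    (h2 : x ∈ ((rt q a u (conv f)).map Prod.snd).dropLast) :
    TCr (TLoc q) c (q + 1 + if c then 3 else 0) e :=
  ⟨lay ha hu c, cross_card ha c, f, hne, x, h1, h2⟩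

/-- the last leg crosses the row edges -/
theorem tcr_row (c : Bool) (i : Fin (2 * q + 1)) (hi : i.1 < 2 * q) :
    TCr (TLoc q) c (q + 1 + if c then 3 else 0) (.inl (.inr i)) := by
  obtain ⟨a, ha⟩ : ∃ a, a = i.1 / 2 + 1 := ⟨_, rfl⟩
  have ha' : a ≤ q + 1 := by omega
  have hu : i.1 + 1 = 2 * a ∨ i.1 + 1 + 1 = 2 * a := by omega
  have d1 := ps_spec (q + 1) a ((i.1 + 1 : ℕ) : ℤ) (i.1 : ℕ)
  have d2 := ps_spec (q + 1) a ((i.1 + 1 : ℕ) : ℤ) ((i.1 : ℕ) + 1)
  refine crossed_of (x := ((i.1 + 1 : ℕ) : ℤ) + 3) ha' hu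
    (f := .inl (.inl ⟨2 * q + 1, by omega⟩))
    (fun h => Sum.inl_ne_inr (Sum.inl_injective h)) (bend_of_row ha' _ _ ?_)
    (bend_of_leg _ _ ?_)
  · simp only [Bend]
    push_cast at *
    omega
  · simp only [Bend]
    push_cast
    omega

theorem tcr_leg_odd (c : Bool) (v : Fin (2 * q + 2)) (hv : v.1 % 2 = 1) :
    TCr (TLoc q) c (q + 1 + if c then 3 else 0) (.inl (.inl v)) ∧
      TCr (TLoc q) c (q + 1 + if c then 3 else 0) LE.rin := by
  have hv2 := v.2
  have d1 : ps (q + 1) ((0 : ℕ) : ℤ) ((0 : ℕ) : ℤ) 0 = 3 + (q + 1) := by simp [ps]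
  have h1 : (4 + q - ((v.1 : ℕ) + 1) / 2 : ℤ) ∈
      ((rt q 0 0 (.inl (.inl v))).map Prod.snd).dropLast := bend_of_leg _ _ (by
    simp only [Bend]
    push_cast
    omega)
  have h2 : (4 + q - ((v.1 : ℕ) + 1) / 2 : ℤ) ∈
      ((rt q 0 0 (.inr .rin)).map Prod.snd).dropLast := bend_of_rin (Nat.zero_le _) _ (by
    simp only [Bend]
    rw [d1]
    omega)
  exact ⟨crossed_of (Nat.zero_le _) (.inl rfl) (f := .inr (.inl false)) (by simp) h1 h2,
    crossed_of (Nat.zero_le _) (.inl rfl) (f := .inl (.inl v)) (by simp) h2 h1⟩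

theorem tcr_leg_even (c : Bool) (v : Fin (2 * q + 2)) (hv : v.1 % 2 = 0) :
    TCr (TLoc q) c (q + 1 + if c then 3 else 0) (.inl (.inl v)) ∧
      TCr (TLoc q) c (q + 1 + if c then 3 else 0) LE.rout := by
  have hv2 := v.2
  have d1 : ps (q + 1) ((q + 1 : ℕ) : ℤ) ((2 * (q + 1) : ℕ) : ℤ) (2 * q + 1) = 2 * q + 4 := by
    unfold ps
    rw [if_pos (by push_cast; omega)]
    ring
  have h1 : (3 * q + 5 - (v.1 : ℕ) / 2 : ℤ) ∈
      ((rt q (q + 1) (2 * (q + 1)) (.inl (.inl v))).map Prod.snd).dropLast :=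
    bend_of_leg _ _ (.inr ⟨by omega, by push_cast; omega, rfl⟩)
  have h2 : (3 * q + 5 - (v.1 : ℕ) / 2 : ℤ) ∈
      ((rt q (q + 1) (2 * (q + 1)) (.inr .rout)).map Prod.snd).dropLast :=
    bend_of_rout le_rfl (.inl rfl) _ (by
      have hv3 : (v.1 : ℕ) / 2 ≤ q := by omega
      simp only [Bend]
      rw [d1]
      constructor <;> omega)
  exact ⟨crossed_of le_rfl (.inl rfl) (f := .inr (.inl true)) (by simp) h1 h2,
    crossed_of le_rfl (.inl rfl) (f := .inl (.inl v)) (by simp) h2 h1⟩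

theorem tcr_by (q : ℕ) :
    TCr (TLoc q) true (q + 1 + if true then 3 else 0) (LE.byin rfl) ∧
      TCr (TLoc q) true (q + 1 + if true then 3 else 0) (LE.byout rfl) := by
  have h1 : (2 : ℤ) ∈ ((rt q 0 0 (.inr .cb)).map Prod.snd).dropLast := by
    simp [rt]
  have h2 : (2 : ℤ) ∈ ((rt q 0 0 (.inr .ad)).map Prod.snd).dropLast := by
    simp [rt]
  exact ⟨crossed_of (Nat.zero_le _) (.inl rfl) (f := .inr (.inr ⟨true, rfl⟩)) (by simp) h1 h2,
    crossed_of (Nat.zero_le _) (.inl rfl) (f := .inr (.inr ⟨false, rfl⟩)) (by simp) h2 h1⟩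

/-- All tile edges except the last row edge. -/
theorem tcr (q : ℕ) (c : Bool) (e : LE (TLoc q) c)
    (he : ∀ i : Fin (2 * q + 1), e = .inl (.inr i) → i.1 < 2 * q) :
    TCr (TLoc q) c (q + 1 + if c then 3 else 0) e := by
  rcases e with (v | i) | (_ | _) | ⟨_ | _, rfl⟩
  · rcases Nat.mod_two_eq_zero_or_one v.1 with h | h
    · exact (tcr_leg_even c v h).1
    · exact (tcr_leg_odd c v h).1
  · exact tcr_row c i (he i rfl)
  · exact (tcr_leg_odd c ⟨1, by omega⟩ rfl).2
  · exact (tcr_leg_even c ⟨0, by omega⟩ rfl).2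
  · exact (tcr_by q).1
  · exact (tcr_by q).2

end TD

end Pool.Agent.CC.FC39
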