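import Pool.Agent.Lib_helper74.CCF.Strip

/-!
# Twisted local drawings (tiles) of a region

Positions in `ℤ`: `C = -2`, `X = -1`, `A = 0`, local vertices and bends in `(0, b)`, `B = b`,
`Y = b + 1`, `D = b + 2`. `true` = upper side. Both hubs `A`, `B` are on the upper side.
-/

namespace Pool.Agent.CC

open Gph

/-- The edges seen by a region: its local edges, the row edge entering it (`rin`), the row edge
leaving it (`rout`) and, if `c = true`, the bypass edge arriving from the left (`byin`, from `C` to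
`B` or `bl`) and the one leaving to the right (`byout`, from `A` or `br` to `D`). -/
abbrev LE (L : Loc) (c : Bool) : Type := L.E ⊕ (Bool ⊕ {_x : Bool // c = true})

/-- local edge -/
abbrev LE.loc {L : Loc} {c : Bool} (e : L.E) : LE L c := .inl e
/-- the row edge entering the region: from `X` to `en` -/
abbrev LE.rin {L : Loc} {c : Bool} : LE L c := .inr (.inl false)
/-- the row edge leaving the region: from `ex` to `Y` -/
abbrev LE.rout {L : Loc} {c : Bool} : LE L c := .inr (.inl true)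
/-- the bypass edge from `C` to `B` (or `bl`) -/
abbrev LE.byin {L : Loc} {c : Bool} (h : c = true) : LE L c := .inr (.inr ⟨false, h⟩)
/-- the bypass edge from `A` (or `br`) to `D` -/
abbrev LE.byout {L : Loc} {c : Bool} (h : c = true) : LE L c := .inr (.inr ⟨true, h⟩)

/-- The position of a local end: `A = 0`, `B = b`. -/
def ePos {V : Type} (b : ℤ) (pos : V → ℤ) : V ⊕ Bool → ℤ
  | .inl v => pos v
  | .inr false => 0
  | .inr true => b

/-- The position of the `a`-end of a tile edge. -/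
def tA {L : Loc} {c : Bool} (b : ℤ) (pos : L.V → ℤ) : LE L c → ℤ
  | .inl e => ePos b pos (L.a e)
  | .inr (.inl false) => -1
  | .inr (.inl true) => pos L.ex
  | .inr (.inr ⟨false, _⟩) => -2
  | .inr (.inr ⟨true, _⟩) => match L.br with
    | none => 0
    | some v => pos v

/-- The position of the `b`-end of a tile edge. -/
def tB {L : Loc} {c : Bool} (b : ℤ) (pos : L.V → ℤ) : LE L c → ℤ
  | .inl e => ePos b pos (L.b e)
  | .inr (.inl false) => pos L.en
  | .inr (.inl true) => b + 1
  | .inr (.inr ⟨false, _⟩) => match L.bl with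
    | none => b
    | some v => pos v
  | .inr (.inr ⟨true, _⟩) => b + 2

/-- A twisted local drawing of the region `L`; only the edges with `keep` are drawn. -/
structure TLay (L : Loc) (c : Bool) (keep : LE L c → Prop) where
  b : ℤ
  pos : L.V → ℤ
  route : LE L c → List (Bool × ℤ)
  /-- contains all crossings -/
  cross : Finset ℤ
  pos_inj : Function.Injective pos
  pos_mem : ∀ v, 0 < pos v ∧ pos v < b
  ne_nil : ∀ e, keep e → route e ≠ []
  last : ∀ e, keep e → ((route e).map Prod.snd).getLast? = some (tB b pos e)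
  nodup : ∀ e, keep e → (tA b pos e :: (route e).map Prod.snd).Nodup
  /-- bends are local -/
  bend_mem : ∀ e, keep e → ∀ x ∈ ((route e).map Prod.snd).dropLast, 0 < x ∧ x < b
  bend_ne : ∀ e, keep e → ∀ x ∈ ((route e).map Prod.snd).dropLast, ∀ v, x ≠ pos v
  planar : ∀ e f, keep e → keep f → ∀ p ∈ arcsOf (tA b pos e) (route e),
    ∀ r ∈ arcsOf (tA b pos f) (route f), p.1 = r.1 → ¬ Interl p.2.1 p.2.2 r.2.1 r.2.2
  distinct : ∀ e f, keep e → keep f → e ≠ f → ∀ p ∈ arcsOf (tA b pos e) (route e),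
    ∀ r ∈ arcsOf (tA b pos f) (route f), p.1 = r.1 → ¬ (s(p.2.1, p.2.2) = s(r.2.1, r.2.2))
  no_three : ∀ e f g, keep e → keep f → keep g → e ≠ f → e ≠ g → f ≠ g → ∀ x,
    x ∈ ((route e).map Prod.snd).dropLast → x ∈ ((route f).map Prod.snd).dropLast →
    x ∉ ((route g).map Prod.snd).dropLast
  /-- upper arcs stay between `A` and `B` -/
  upper : ∀ e, keep e → ∀ p ∈ arcsOf (tA b pos e) (route e), p.1 = true →
    (0 ≤ p.2.1 ∧ p.2.1 ≤ b) ∧ (0 ≤ p.2.2 ∧ p.2.2 ≤ b)
  /-- every arc has a local end -/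
  loc : ∀ e, keep e → ∀ p ∈ arcsOf (tA b pos e) (route e),
    (0 < p.2.1 ∧ p.2.1 < b) ∨ (0 < p.2.2 ∧ p.2.2 < b)
  hcross : ∀ e f, keep e → keep f → e ≠ f → ∀ x, x ∈ ((route e).map Prod.snd).dropLast →
    x ∈ ((route f).map Prod.snd).dropLast → x ∈ cross

/-- `e` is crossed in the tile. -/
def TLay.Crossed {L : Loc} {c : Bool} {keep : LE L c → Prop} (S : TLay L c keep) (e : LE L c) :
    Prop :=
  ∃ f, f ≠ e ∧ ∃ x, x ∈ ((S.route e).map Prod.snd).dropLast ∧
    x ∈ ((S.route f).map Prod.snd).dropLast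

/-- A full tile with at most `K` crossings in which `e` is crossed. -/
def TCr (L : Loc) (c : Bool) (K : ℕ) (e : LE L c) : Prop :=
  ∃ S : TLay L c (fun _ => True), S.cross.card ≤ K ∧ S.Crossed e

/-- A tile with at most `K - 1` crossings without the edge `e`. -/
def TDel (L : Loc) (c : Bool) (K : ℕ) (e : LE L c) : Prop :=
  ∃ S : TLay L c (fun f => f ≠ e), S.cross.card + 1 ≤ K

variable {N : ℕ} [NeZero N]

/-- The edge of the strip given by a tile edge at the region `0`. -/
def tedge (q : ℕ) (c : Bool) (τ : ZMod N → RT) : LE ((τ 0).loc q) c → (tstrip q c τ).E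
  | .inl e => .inl ⟨0, e⟩
  | .inr (.inl false) => .inr (.inl (-1))
  | .inr (.inl true) => .inr (.inl 0)
  | .inr (.inr ⟨false, h⟩) => .inr (.inr ⟨-1, h⟩)
  | .inr (.inr ⟨true, h⟩) => .inr (.inr ⟨0, h⟩)

/-- An isomorphism of graphs that may reverse edges. -/
structure GIso (G H : Gph) where
  v : G.V ≃ H.V
  e : G.E ≃ H.E
  ends : ∀ f, (H.a (e f) = v (G.a f) ∧ H.b (e f) = v (G.b f)) ∨
    (H.a (e f) = v (G.b f) ∧ H.b (e f) = v (G.a f))

/-- exchange of the hubs -/
def swapEnd {V W : Type} (φ : V → W) : V ⊕ Bool → W ⊕ Bool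
  | .inl v => .inl (φ v)
  | .inr s => .inr (!s)

/-- `L'` is the mirror image of `L`. -/
structure Mir (L L' : Loc) where
  v : L.V ≃ L'.V
  e : L.E ≃ L'.E
  ends : ∀ f, (L'.a (e f) = swapEnd v (L.a f) ∧ L'.b (e f) = swapEnd v (L.b f)) ∨
    (L'.a (e f) = swapEnd v (L.b f) ∧ L'.b (e f) = swapEnd v (L.a f))
  en : v L.en = L'.ex
  ex : v L.ex = L'.en
  bl : L.bl.map v = L'.br
  br : L.br.map v = L'.bl

/-- the action on tile edges -/
def Mir.le {L L' : Loc} (i : Mir L L') (c : Bool) : LE L c → LE L' c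
  | .inl e => .inl (i.e e)
  | .inr (.inl s) => .inr (.inl (!s))
  | .inr (.inr ⟨s, h⟩) => .inr (.inr ⟨!s, h⟩)

end Pool.Agent.CC
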