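import Pool.Agent.Lib_helper74.CCF.Tile

/-!
# Building tiles from families of chords

`code` numbers the edges, `F w c l r`: the edge number `c` has a chord on the side `w` with left end
`l` and right end `r`; `B c x`: the edge number `c` has a bend at `x`.
-/

set_option autoImplicit false

namespace Pool.Agent.CC.FCW45

open Gph

theorem mm_of_sym2 {x y z t : ℤ} (h : s(x, y) = s(z, t)) :
    min x y = min z t ∧ max x y = max z t := by
  rcases Sym2.eq_iff.1 h with ⟨rfl, rfl⟩ | ⟨rfl, rfl⟩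
  · exact ⟨rfl, rfl⟩
  · exact ⟨min_comm _ _, max_comm _ _⟩

/-- A tile from families of chords and bends. -/
def mkT {L : Loc} {c : Bool} (keep : LE L c → Prop) (b : ℤ) (pos : L.V → ℤ)
    (route : LE L c → List (Bool × ℤ)) (cross : Finset ℤ)
    (code : LE L c → ℤ) (F : Bool → ℤ → ℤ → ℤ → Prop) (B : ℤ → ℤ → Prop) (col : ℤ → Bool)
    (code_inj : ∀ e f, keep e → keep f → code e = code f → e = f)
    (pos_inj : Function.Injective pos)
    (pos_mem : ∀ v, 0 < pos v ∧ pos v < b)
    (ne_nil : ∀ e, keep e → route e ≠ [])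
    (last : ∀ e, keep e → ((route e).map Prod.snd).getLast? = some (tB b pos e))
    (nodup : ∀ e, keep e → (tA b pos e :: (route e).map Prod.snd).Nodup)
    (fam : ∀ e, keep e → ∀ p ∈ arcsOf (tA b pos e) (route e),
      F p.1 (code e) (min p.2.1 p.2.2) (max p.2.1 p.2.2))
    (bend : ∀ e, keep e → ∀ x ∈ ((route e).map Prod.snd).dropLast, B (code e) x)
    (B_mem : ∀ c x, B c x → 0 < x ∧ x < b)
    (B_ne : ∀ c x, B c x → ∀ v, x ≠ pos v)
    (F_pl : ∀ w c l r c' l' r', F w c l r → F w c' l' r' → ¬ (l < l' ∧ l' < r ∧ r < r'))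
    (F_ds : ∀ w c c' l r, F w c l r → F w c' l r → c = c')
    (F_up : ∀ c l r, F true c l r → 0 ≤ l ∧ r ≤ b)
    (F_loc : ∀ w c l r, F w c l r → (0 < l ∧ l < b) ∨ (0 < r ∧ r < b))
    (B_col : ∀ c c' x, B c x → B c' x → col c = col c' → c = c')
    (B_cross : ∀ c c' x, B c x → B c' x → c ≠ c' → x ∈ cross) :
    TLay L c keep where
  b := b
  pos := pos
  route := route
  cross := cross
  pos_inj := pos_inj
  pos_mem := pos_mem
  ne_nil := ne_nil
  last := last
  nodup := nodup
  bend_mem e he x hx := B_mem _ _ (bend e he x hx)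
  bend_ne e he x hx := B_ne _ _ (bend e he x hx)
  planar e f he hf p hp r hr hpr := by
    have h1 := fam e he p hp
    have h2 := fam f hf r hr
    rw [← hpr] at h2
    unfold Interl
    rintro (h | h)
    · exact F_pl _ _ _ _ _ _ _ h1 h2 h
    · exact F_pl _ _ _ _ _ _ _ h2 h1 h
  distinct e f he hf hef p hp r hr hpr h := by
    have h1 := fam e he p hp
    have h2 := fam f hf r hr
    obtain ⟨e1, e2⟩ := mm_of_sym2 h
    rw [← hpr, ← e1, ← e2] at h2
    exact hef (code_inj e f he hf (F_ds _ _ _ _ _ h1 h2))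
  no_three e f g he hf hg hef heg hfg x h1 h2 h3 := by
    have a1 : col (code e) ≠ col (code f) := fun h =>
      hef (code_inj e f he hf (B_col _ _ x (bend e he x h1) (bend f hf x h2) h))
    have a2 : col (code e) ≠ col (code g) := fun h =>
      heg (code_inj e g he hg (B_col _ _ x (bend e he x h1) (bend g hg x h3) h))
    have a3 : col (code f) ≠ col (code g) := fun h =>
      hfg (code_inj f g hf hg (B_col _ _ x (bend f hf x h2) (bend g hg x h3) h))
    revert a1 a2 a3
    cases col (code e) <;> cases col (code f) <;> cases col (code g) <;> simp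
  upper e he p hp h1 := by
    have h2 := fam e he p hp
    rw [h1] at h2
    have h3 := F_up _ _ _ h2
    have h4 := min_le_left p.2.1 p.2.2
    have h5 := min_le_right p.2.1 p.2.2
    have h6 := le_max_left p.2.1 p.2.2
    have h7 := le_max_right p.2.1 p.2.2
    exact ⟨⟨by omega, by omega⟩, ⟨by omega, by omega⟩⟩
  loc e he p hp := by
    have h2 := fam e he p hp
    have h3 := F_loc _ _ _ _ h2
    rcases le_total p.2.1 p.2.2 with h | h
    · rw [min_eq_left h, max_eq_right h] at h3
      exact h3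
    · rw [min_eq_right h, max_eq_left h] at h3
      exact h3.symm
  hcross e f he hf hef x h1 h2 :=
    B_cross _ _ x (bend e he x h1) (bend f hf x h2) fun h => hef (code_inj e f he hf h)

/-- steps of length `d` on the side `u`: `p + d, p + 2d, ..., p + nd` -/
def steps (u : Bool) (d : ℤ) : ℤ → ℕ → List (Bool × ℤ)
  | _, 0 => []
  | p, n + 1 => (u, p + d) :: steps u d (p + d) n

/-- arcs of `p₀ → p + d → ... → p + nd → E` -/
theorem mem_arcs_steps {u : Bool} {d E : ℤ} {a : Bool × ℤ × ℤ} : ∀ (n : ℕ) (p₀ p : ℤ),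
    a ∈ arcsOf p₀ (steps u d p n ++ [(u, E)]) →
      a.1 = u ∧ ∃ t : ℤ, 0 ≤ t ∧ t ≤ n ∧ (t = 0 ∧ a.2.1 = p₀ ∨ 0 < t ∧ a.2.1 = p + d * t) ∧
        (t = n ∧ a.2.2 = E ∨ t < n ∧ a.2.2 = p + d * t + d)
  | 0, p₀, p, h => by
    simp only [steps, List.nil_append, arcsOf, List.mem_singleton] at h
    subst h
    exact ⟨rfl, 0, le_refl _, by simp, .inl ⟨rfl, rfl⟩, .inl ⟨by simp, rfl⟩⟩
  | n + 1, p₀, p, h => by
    simp only [steps, List.cons_append, arcsOf, List.mem_cons] at h
    rcases h with h | h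
    · subst h
      refine ⟨rfl, 0, le_refl _, by positivity, .inl ⟨rfl, rfl⟩, .inr ⟨by positivity, by ring⟩⟩
    · obtain ⟨h1, t, h2, h3, h4, h5⟩ := mem_arcs_steps n (p + d) (p + d) h
      refine ⟨h1, t + 1, by omega, by push_cast; omega, .inr ⟨by omega, ?_⟩, ?_⟩
      · rcases h4 with ⟨rfl, h4⟩ | ⟨_, h4⟩
        · rw [h4]; ring
        · rw [h4]; ring
      · rcases h5 with ⟨rfl, h5⟩ | ⟨h6, h5⟩
        · exact .inl ⟨by push_cast; ring, h5⟩
        · exact .inr ⟨by push_cast; omega, by rw [h5]; ring⟩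

theorem mem_steps {u : Bool} {d x : ℤ} : ∀ {n : ℕ} {p : ℤ},
    x ∈ (steps u d p n).map Prod.snd ↔ ∃ t : ℤ, 1 ≤ t ∧ t ≤ n ∧ x = p + d * t
  | 0, p => by
    simp only [steps, List.map_nil, List.not_mem_nil, false_iff]
    rintro ⟨t, h1, h2, _⟩
    simp only [Nat.cast_zero] at h2
    omega
  | n + 1, p => by
    simp only [steps, List.map_cons, List.mem_cons, mem_steps (n := n) (p := p + d)]
    constructor
    · rintro (h | ⟨t, h1, h2, h3⟩)
      · exact ⟨1, le_refl _, by push_cast; omega, by rw [h]; ring⟩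
      · exact ⟨t + 1, by omega, by push_cast; omega, by rw [h3]; ring⟩
    · rintro ⟨t, h1, h2, h3⟩
      push_cast at h2
      rcases eq_or_lt_of_le h1 with h | h
      · left
        rw [h3, ← h]; ring
      · right
        exact ⟨t - 1, by omega, by omega, by rw [h3]; ring⟩

theorem steps_pairwise {u : Bool} {d : ℤ} (hd : 0 < d) : ∀ (n : ℕ) (p : ℤ),
    ((steps u d p n).map Prod.snd).Pairwise (· < ·)
  | 0, p => by simp [steps]
  | n + 1, p => by
    simp only [steps, List.map_cons, List.pairwise_cons]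
    refine ⟨fun x hx => ?_, steps_pairwise hd n (p + d)⟩
    obtain ⟨t, h1, -, h3⟩ := mem_steps.1 hx
    rw [h3]
    nlinarith

theorem steps_nodup {u : Bool} {d : ℤ} (hd : 0 < d) (n : ℕ) (p : ℤ) :
    ((steps u d p n).map Prod.snd).Nodup :=
  (steps_pairwise hd n p).imp (fun h => h.ne)

end Pool.Agent.CC.FCW45
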