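import Pool.Agent.Lib_helper74.CCF.W45WFgeo

/-! # The drawings WF and WE of the tiles of `W` -/

set_option autoImplicit false

namespace Pool.Agent.CC.FCW45

open Gph

/-- right hub -/
def wb (q : ℕ) : ℤ := 30 + 8 * q

/-- positions of the vertices -/
def wpos (q κ : ℕ) : Bool × WV q → ℤ
  | (false, .w) => 3
  | (false, .v1) => 9
  | (false, .v2) => 10
  | (false, .x i) => if i.1 < κ then 12 + 2 * (i.1 : ℤ) else 22 + 6 * q + i.1
  | (true, .v2) => 4
  | (true, .v1) => 5
  | (true, .w) => 6
  | (true, .x i) => 20 + 4 * q + i.1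

/-- routes -/
def wroute (q κ j : ℕ) : LE (WLoc q) true → List (Bool × ℤ)
  | .inl (false, .b1) => [(false, wb q)]
  | .inl (false, .b2) => [(false, wb q)]
  | .inl (false, .eta) => [(true, 10)]
  | .inl (false, .sig) => [(true, 11), (true, 3)]
  | .inl (false, .s3) => [(true, wpos q κ (false, .x ⟨0, by omega⟩))]
  | .inl (false, .leg k) => if k.1 % 2 = 0 ∧ k.1 ≠ 0 then
      (if k.1 ≤ 2 * j then [(true, 13 + 2 * (k.1 : ℤ)), (false, wb q)] else [(false, wb q)])
      else [(true, 0)]
  | .inl (false, .row i) => [(true, wpos q κ (false, .x ⟨i.1 + 1, by omega⟩))]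
  | .inl (true, .b1) => [(false, 1), (true, 0)]
  | .inl (true, .b2) => [(false, 2), (true, 0)]
  | .inl (true, .eta) => [(true, 4)]
  | .inl (true, .sig) => [(true, 6)]
  | .inl (true, .s3) => (true, 11) :: (steps false 4 13 j ++ [(false, 20 + 4 * (q : ℤ))])
  | .inl (true, .leg k) => if k.1 % 2 = 0 ∧ k.1 ≠ 0 then [(true, 0)] else [(false, wb q)]
  | .inl (true, .row i) => [(true, 21 + 4 * (q : ℤ) + i.1)]
  | .inr (.inl false) => [(false, 1), (true, 2), (true, 3)]
  | .inr (.inl true) => [(true, 8), (false, wb q + 1)]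
  | .inr (.inr ⟨false, _⟩) => [(false, 7), (true, 8), (true, 9)]
  | .inr (.inr ⟨true, _⟩) => [(false, 7), (false, wb q + 2)]

/-- numbers of the edges -/
def wcode {q : ℕ} : LE (WLoc q) true → ℤ
  | .inl (false, .b1) => 4
  | .inl (false, .b2) => 12
  | .inl (false, .eta) => 20
  | .inl (false, .sig) => 28
  | .inl (false, .s3) => 36
  | .inl (false, .leg k) => 8 * (k.1 : ℤ)
  | .inl (false, .row i) => 8 * (i.1 : ℤ) + 2
  | .inl (true, .b1) => 5
  | .inl (true, .b2) => 13
  | .inl (true, .eta) => 21
  | .inl (true, .sig) => 29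
  | .inl (true, .s3) => 37
  | .inl (true, .leg k) => 8 * (k.1 : ℤ) + 1
  | .inl (true, .row i) => 8 * (i.1 : ℤ) + 3
  | .inr (.inl false) => 6
  | .inr (.inl true) => 14
  | .inr (.inr ⟨false, _⟩) => 7
  | .inr (.inr ⟨true, _⟩) => 15

theorem wcode_inj {q : ℕ} (e f : LE (WLoc q) true) (h : wcode e = wcode f) : e = f := by
  rcases e with ⟨s, e⟩ | s | ⟨s, hs⟩ <;> rcases f with ⟨s', f⟩ | s' | ⟨s', hs'⟩
  · cases s <;> cases s' <;> cases e <;> cases f <;> simp only [wcode] at h <;>
      first
      | rfl
      | omega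
      | (rename_i k k'
         have hk : k = k' := Fin.ext (by omega)
         subst hk
         rfl)
  · cases s <;> cases s' <;> cases e <;> simp only [wcode] at h <;> omega
  · cases s <;> cases s' <;> cases e <;> simp only [wcode] at h <;> omega
  · cases s <;> cases s' <;> cases f <;> simp only [wcode] at h <;> omega
  · cases s <;> cases s' <;> simp only [wcode] at h <;> first | rfl | omega
  · cases s <;> cases s' <;> simp only [wcode] at h <;> omega
  · cases s <;> cases s' <;> cases f <;> simp only [wcode] at h <;> omega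
  · cases s <;> cases s' <;> simp only [wcode] at h <;> omega
  · cases s <;> cases s' <;> simp only [wcode] at h <;> first | rfl | omega

theorem wpos_mem (q κ : ℕ) (v : (WLoc q).V) : 0 < wpos q κ v ∧ wpos q κ v < wb q := by
  rcases v with ⟨s, v⟩
  have hb : wb q = 30 + 8 * (q : ℤ) := rfl
  rcases s with _ | _ <;> rcases v with _ | _ | _ | i <;> simp only [wpos, hb] <;>
    first
    | omega
    | (have := i.2; split_ifs <;> omega)

theorem wpos_inj (q κ : ℕ) : Function.Injective (wpos q κ : (WLoc q).V → ℤ) := by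
  rintro ⟨s, v⟩ ⟨s', v'⟩ h
  rcases s with _ | _ <;> rcases s' with _ | _ <;> rcases v with _ | _ | _ | i <;>
    rcases v' with _ | _ | _ | i' <;> simp only [wpos] at h <;>
    first
    | rfl
    | (exfalso; omega)
    | (exfalso; have := i.2; split_ifs at h <;> omega)
    | (exfalso; have := i'.2; split_ifs at h <;> omega)
    | (exfalso; have := i.2; have := i'.2; split_ifs at h <;> omega)
    | (have h1 := i.2
       have h2 := i'.2
       have hk : i = i' := Fin.ext (by split_ifs at h <;> omega)
       subst hk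
       rfl)
    | (have hk : i = i' := Fin.ext (by omega)
       subst hk
       rfl)

end Pool.Agent.CC.FCW45
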