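import Pool.Agent.Lib_helper74.CCF.W45WF

/-! # The drawings WF and WE of the tiles of `W`, part 2 -/

set_option autoImplicit false

namespace Pool.Agent.CC.FCW45

open Gph

/-- chords -/
def WFF (q κ j : ℤ) (w : Bool) (c l r : ℤ) : Prop :=
  match w with
  | true => WUp q κ j c l r
  | false => WLo q κ j c l r

theorem ff_le {q κ j c x y : ℤ} {w : Bool} (h : x ≤ y) (h1 : WFF q κ j w c x y) :
    WFF q κ j w c (min x y) (max x y) := by
  rw [min_eq_left h, max_eq_right h]
  exact h1

theorem ff_ge {q κ j c x y : ℤ} {w : Bool} (h : y ≤ x) (h1 : WFF q κ j w c y x) :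
    WFF q κ j w c (min x y) (max x y) := by
  rw [min_eq_right h, max_eq_left h]
  exact h1

/-- the edges which are drawn -/
def wkeep {q : ℕ} (κ : ℕ) (e : LE (WLoc q) true) : Prop :=
  (e = .inl (false, .s3) → 0 < κ) ∧ ∀ i, e = .inl (false, .row i) → i.1 + 1 ≠ κ

theorem wfam {q κ j : ℕ} (h : HJ q κ j) (e : LE (WLoc q) true) (he : wkeep κ e) :
    ∀ p ∈ arcsOf (tA (wb q) (wpos q κ) e) (wroute q κ j e),
      WFF q κ j p.1 (wcode e) (min p.2.1 p.2.2) (max p.2.1 p.2.2) := by
  have hb : wb q = 30 + 8 * (q : ℤ) := rfl
  have hh := h
  unfold HJ at hh
  intro p hp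
  rcases e with ⟨_ | _, e⟩ | (_ | _) | ⟨_ | _, hs⟩
  · rcases e with _ | _ | _ | _ | _ | k | i
    · -- b1
      simp only [wroute, arcsOf, List.mem_cons, List.not_mem_nil, or_false] at hp
      subst hp
      exact ff_le (by simp only [tA, ePos, WLoc, wpos, hb]; omega)
        (by simp only [tA, ePos, WLoc, wpos, hb, wcode, WFF]; unfold WLo; (iterate 4 right); left; omega)
    · -- b2
      simp only [wroute, arcsOf, List.mem_cons, List.not_mem_nil, or_false] at hp
      subst hp
      exact ff_le (by simp only [tA, ePos, WLoc, wpos, hb]; omega)
        (by simp only [tA, ePos, WLoc, wpos, hb, wcode, WFF]; unfold WLo; (iterate 5 right); left; omega)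
    · -- eta
      simp only [wroute, arcsOf, List.mem_cons, List.not_mem_nil, or_false] at hp
      subst hp
      exact ff_le (by simp only [tA, ePos, WLoc, wpos]; omega)
        (by simp only [tA, ePos, WLoc, wpos, wcode, WFF]; unfold WUp; (iterate 3 right); left; omega)
    · -- sig
      simp only [wroute, arcsOf, List.mem_cons, List.not_mem_nil, or_false] at hp
      rcases hp with rfl | rfl
      · exact ff_le (by simp only [tA, ePos, WLoc, wpos]; omega)
          (by simp only [tA, ePos, WLoc, wpos, wcode, WFF]; unfold WUp; (iterate 4 right); left; omega)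
      · exact ff_ge (by simp only []; omega)
          (by simp only [wcode, WFF]; unfold WUp; (iterate 4 right); left; omega)
    · -- s3
      have h0 := he.1 rfl
      simp only [wroute, arcsOf, List.mem_cons, List.not_mem_nil, or_false, wpos, if_pos h0] at hp
      subst hp
      exact ff_le (by simp only [tA, ePos, WLoc, wpos]; omega)
        (by simp only [tA, ePos, WLoc, wpos, wcode, WFF]; unfold WUp; (iterate 5 right); left; omega)
    · -- leg
      have hk := k.2
      simp only [wroute] at hp
      by_cases h1 : k.1 % 2 = 0 ∧ k.1 ≠ 0
      · obtain ⟨t, ht⟩ : ∃ t : ℕ, k.1 = 2 * t := ⟨k.1 / 2, by omega⟩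
        by_cases h2 : k.1 ≤ 2 * j
        · simp only [if_pos h1, if_pos h2, arcsOf, List.mem_cons, List.not_mem_nil, or_false] at hp
          rcases hp with rfl | rfl
          · refine ff_le (by simp only [tA, ePos, WLoc, wpos]; split_ifs <;> omega) ?_
            simp only [tA, ePos, WLoc, wpos, wcode, WFF]
            unfold WUp
            iterate 7 right
            left
            exact ⟨t, by split_ifs <;> omega⟩
          · refine ff_le (by simp only [hb]; omega) ?_
            simp only [wcode, WFF, hb]
            unfold WLo
            iterate 6 right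
            left
            exact ⟨t, by omega⟩
        · simp only [if_pos h1, if_neg h2, arcsOf, List.mem_cons, List.not_mem_nil, or_false] at hp
          subst hp
          refine ff_le (by simp only [tA, ePos, WLoc, wpos, hb]; split_ifs <;> omega) ?_
          simp only [tA, ePos, WLoc, wpos, wcode, WFF, hb]
          unfold WLo
          iterate 7 right
          left
          exact ⟨t, by split_ifs <;> omega⟩
      · simp only [if_neg h1, arcsOf, List.mem_cons, List.not_mem_nil, or_false] at hp
        subst hp
        refine ff_ge (by simp only [tA, ePos, WLoc, wpos]; split_ifs <;> omega) ?_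
        simp only [tA, ePos, WLoc, wpos, wcode, WFF]
        unfold WUp
        iterate 6 right
        left
        exact ⟨k.1, by split_ifs <;> omega⟩
    · -- row
      have hi := i.2
      have h1 := he.2 i rfl
      simp only [wroute, arcsOf, List.mem_cons, List.not_mem_nil, or_false, wpos] at hp
      subst hp
      refine ff_le (by simp only [tA, ePos, WLoc, wpos]; split_ifs <;> omega) ?_
      simp only [tA, ePos, WLoc, wpos, wcode, WFF]
      unfold WUp
      iterate 8 right
      left
      exact ⟨i.1, by split_ifs <;> omega⟩
  · rcases e with _ | _ | _ | _ | _ | k | i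
    · -- b1
      simp only [wroute, arcsOf, List.mem_cons, List.not_mem_nil, or_false] at hp
      rcases hp with rfl | rfl
      · exact ff_ge (by simp only [tA, ePos, WLoc, wpos]; omega)
          (by simp only [tA, ePos, WLoc, wpos, wcode, WFF]; unfold WLo; (iterate 8 right); left; omega)
      · exact ff_ge (by simp only []; omega)
          (by simp only [wcode, WFF]; unfold WUp; (iterate 9 right); left; omega)
    · -- b2
      simp only [wroute, arcsOf, List.mem_cons, List.not_mem_nil, or_false] at hp
      rcases hp with rfl | rfl
      · exact ff_ge (by simp only [tA, ePos, WLoc, wpos]; omega)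
          (by simp only [tA, ePos, WLoc, wpos, wcode, WFF]; unfold WLo; (iterate 9 right); left; omega)
      · exact ff_ge (by simp only []; omega)
          (by simp only [wcode, WFF]; unfold WUp; (iterate 10 right); left; omega)
    · -- eta
      simp only [wroute, arcsOf, List.mem_cons, List.not_mem_nil, or_false] at hp
      subst hp
      exact ff_ge (by simp only [tA, ePos, WLoc, wpos]; omega)
        (by simp only [tA, ePos, WLoc, wpos, wcode, WFF]; unfold WUp; (iterate 11 right); left; omega)
    · -- sig
      simp only [wroute, arcsOf, List.mem_cons, List.not_mem_nil, or_false] at hp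
      subst hp
      exact ff_le (by simp only [tA, ePos, WLoc, wpos]; omega)
        (by simp only [tA, ePos, WLoc, wpos, wcode, WFF]; unfold WUp; (iterate 12 right); left; omega)
    · -- s3
      simp only [wroute, arcsOf, List.mem_cons] at hp
      rcases hp with rfl | hp
      · exact ff_le (by simp only [tA, ePos, WLoc, wpos]; omega)
          (by simp only [tA, ePos, WLoc, wpos, wcode, WFF]; unfold WUp; (iterate 13 right); left; omega)
      · obtain ⟨h1, t, h2, h3, h4, h5⟩ := mem_arcs_steps _ _ _ hp
        rw [h1]
        refine ff_le (by omega) ?_
        simp only [WFF, wcode]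
        unfold WLo
        iterate 10 right
        left
        exact ⟨t, by omega⟩
    · -- leg
      have hk := k.2
      simp only [wroute] at hp
      by_cases h1 : k.1 % 2 = 0 ∧ k.1 ≠ 0
      · obtain ⟨t, ht⟩ : ∃ t : ℕ, k.1 = 2 * t := ⟨k.1 / 2, by omega⟩
        simp only [if_pos h1, arcsOf, List.mem_cons, List.not_mem_nil, or_false] at hp
        subst hp
        refine ff_ge (by simp only [tA, ePos, WLoc, wpos]; omega) ?_
        simp only [tA, ePos, WLoc, wpos, wcode, WFF]
        unfold WUp
        iterate 14 right
        left
        exact ⟨t, by omega⟩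
      · simp only [if_neg h1, arcsOf, List.mem_cons, List.not_mem_nil, or_false] at hp
        subst hp
        refine ff_le (by simp only [tA, ePos, WLoc, wpos, hb]; omega) ?_
        simp only [tA, ePos, WLoc, wpos, wcode, WFF, hb]
        unfold WLo
        iterate 11 right
        exact ⟨k.1, by omega⟩
    · -- row
      have hi := i.2
      simp only [wroute, arcsOf, List.mem_cons, List.not_mem_nil, or_false] at hp
      subst hp
      refine ff_le (by simp only [tA, ePos, WLoc, wpos]; omega) ?_
      simp only [tA, ePos, WLoc, wpos, wcode, WFF]
      unfold WUp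
      iterate 15 right
      exact ⟨i.1, by omega⟩
  · -- rin
    simp only [wroute, arcsOf, List.mem_cons, List.not_mem_nil, or_false] at hp
    rcases hp with rfl | rfl | rfl
    · exact ff_le (by simp only [tA]; omega)
        (by simp only [tA, wcode, WFF]; exact .inl (by omega))
    · exact ff_le (by simp only []; omega)
        (by simp only [wcode, WFF]; exact .inl (by omega))
    · exact ff_le (by simp only []; omega)
        (by simp only [wcode, WFF]; exact .inl (by omega))
  · -- rout
    simp only [wroute, arcsOf, List.mem_cons, List.not_mem_nil, or_false] at hp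
    rcases hp with rfl | rfl
    · exact ff_le (by simp only [tA, WLoc, wpos]; omega)
        (by simp only [tA, WLoc, wpos, wcode, WFF]; unfold WUp; (iterate 2 right); left; omega)
    · exact ff_le (by simp only [hb]; omega)
        (by simp only [wcode, WFF, hb]; unfold WLo; (iterate 3 right); left; omega)
  · -- byin
    simp only [wroute, arcsOf, List.mem_cons, List.not_mem_nil, or_false] at hp
    rcases hp with rfl | rfl | rfl
    · exact ff_le (by simp only [tA]; omega)
        (by simp only [tA, wcode, WFF]; unfold WLo; (iterate 1 right); left; omega)
    · exact ff_le (by simp only []; omega)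
        (by simp only [wcode, WFF]; unfold WUp; (iterate 1 right); left; omega)
    · exact ff_le (by simp only []; omega)
        (by simp only [wcode, WFF]; unfold WUp; (iterate 1 right); left; omega)
  · -- byout
    simp only [wroute, arcsOf, List.mem_cons, List.not_mem_nil, or_false] at hp
    rcases hp with rfl | rfl
    · exact ff_le (by simp only [tA, WLoc, wpos]; omega)
        (by simp only [tA, WLoc, wpos, wcode, WFF]; unfold WLo; (iterate 2 right); left; omega)
    · exact ff_le (by simp only [hb]; omega)
        (by simp only [wcode, WFF, hb]; unfold WLo; (iterate 2 right); left; omega)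

end Pool.Agent.CC.FCW45
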