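import Pool.Agent.Lib_helper74.CCF.W45WF2

/-! # The drawings WF and WE of the tiles of `W`, part 3 -/

set_option autoImplicit false
set_option linter.unusedSimpArgs false
set_option linter.unusedTactic false
set_option linter.unreachableTactic false

namespace Pool.Agent.CC.FCW45

open Gph

/-- bends -/
def WBd (j c x : ℤ) : Prop :=
  (c = 6 ∧ (x = 1 ∨ x = 2)) ∨ (c = 5 ∧ x = 1) ∨ (c = 13 ∧ x = 2) ∨ (c = 7 ∧ (x = 7 ∨ x = 8)) ∨
  (c = 15 ∧ x = 7) ∨ (c = 14 ∧ x = 8) ∨ (c = 28 ∧ x = 11) ∨ (c = 37 ∧ x = 11) ∨
  (∃ t, 1 ≤ t ∧ t ≤ j ∧ (c = 37 ∨ c = 16 * t) ∧ x = 13 + 4 * t)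

/-- a colouring of the edges by two colours -/
def wcol (c : ℤ) : Bool := decide (c = 6 ∨ c = 7 ∨ c = 37)

/-- the crossings -/
def wcross (j : ℕ) : Finset ℤ :=
  {1, 2, 7, 8, 11} ∪ (Finset.range j).image (fun t : ℕ => 17 + 4 * (t : ℤ))

theorem wcross_card (j : ℕ) : (wcross j).card ≤ 5 + j := by
  refine le_trans (Finset.card_union_le _ _) (Nat.add_le_add ?_ ?_)
  · decide
  · exact le_trans Finset.card_image_le (by simp)

theorem wbd_col {j c c' x : ℤ} (h : WBd j c x) (h' : WBd j c' x) (hc : wcol c = wcol c') :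
    c = c' := by
  unfold wcol at hc
  rw [decide_eq_decide] at hc
  unfold WBd at h h'
  rcases h with h | h | h | h | h | h | h | h | ⟨t, h⟩ <;>
  rcases h' with h' | h' | h' | h' | h' | h' | h' | h' | ⟨t', h'⟩ <;> omega

theorem wbd_cross {j : ℕ} {c x : ℤ} (h : WBd j c x) : x ∈ wcross j := by
  unfold WBd at h
  simp only [wcross, Finset.mem_union, Finset.mem_insert, Finset.mem_singleton, Finset.mem_image,
    Finset.mem_range]
  rcases h with h | h | h | h | h | h | h | h | ⟨t, h⟩
  iterate 8
    · left
      omega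
  · right
    exact ⟨(t - 1).toNat, by omega, by omega⟩

theorem wbd_mem {q κ j : ℕ} (hh : HJ q κ j) {c x : ℤ} (h : WBd j c x) : 0 < x ∧ x < wb q := by
  have hb : wb q = 30 + 8 * (q : ℤ) := rfl
  unfold HJ at hh
  unfold WBd at h
  rw [hb]
  rcases h with h | h | h | h | h | h | h | h | ⟨t, h⟩ <;> omega

theorem wbd_ne {q κ j : ℕ} (hh : HJ q κ j) {c x : ℤ} (h : WBd j c x) (v : (WLoc q).V) :
    x ≠ wpos q κ v := by
  unfold HJ at hh
  rcases v with ⟨s, v⟩
  rcases s with _ | _ <;> rcases v with _ | _ | _ | i <;> simp only [wpos] <;>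
  rcases h with h | h | h | h | h | h | h | h | ⟨t, h⟩ <;> first | omega |
    (have := i.2; split_ifs <;> omega)

theorem wff_up {q κ j : ℕ} (hh : HJ q κ j) {c l r : ℤ} (h : WFF q κ j true c l r) :
    0 ≤ l ∧ r ≤ wb q := by
  have hb : wb q = 30 + 8 * (q : ℤ) := rfl
  unfold HJ at hh
  rw [hb]
  simp only [WFF] at h
  rcases h with h | h | h | h | h | h | ⟨t, h⟩ | ⟨t, h⟩ |
    ⟨t, h⟩ | h | h | h | h | h | ⟨t, h⟩ | ⟨t, h⟩ <;> omega

theorem wff_loc {q κ j : ℕ} (hh : HJ q κ j) {w : Bool} {c l r : ℤ} (h : WFF q κ j w c l r) :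
    (0 < l ∧ l < wb q) ∨ (0 < r ∧ r < wb q) := by
  have hb : wb q = 30 + 8 * (q : ℤ) := rfl
  unfold HJ at hh
  rw [hb]
  cases w
  · simp only [WFF] at h
    rcases h with h | h | h | h | h | h | ⟨t, h⟩ | ⟨t, h⟩ | h | h | ⟨t, h⟩ | ⟨t, h⟩ <;> omega
  · simp only [WFF] at h
    rcases h with h | h | h | h | h | h | ⟨t, h⟩ | ⟨t, h⟩ |
      ⟨t, h⟩ | h | h | h | h | h | ⟨t, h⟩ | ⟨t, h⟩ <;> omega

theorem wff_pl {q κ j : ℕ} (hh : HJ q κ j) {w : Bool} {c l r c' l' r' : ℤ}
    (h : WFF q κ j w c l r) (h' : WFF q κ j w c' l' r') :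
    ¬ (l < l' ∧ l' < r ∧ r < r') ∧ (l = l' ∧ r = r' → c = c') := by
  cases w
  · exact wlo_pl hh h h'
  · exact wup_pl hh h h'

theorem wne {q κ j : ℕ} (e : LE (WLoc q) true) : wroute q κ j e ≠ [] := by
  rcases e with ⟨_ | _, e⟩ | (_ | _) | ⟨_ | _, hs⟩
  · rcases e with _ | _ | _ | _ | _ | k | i <;> simp only [wroute] <;>
      first | exact List.cons_ne_nil _ _ | (split_ifs <;> exact List.cons_ne_nil _ _)
  · rcases e with _ | _ | _ | _ | _ | k | i <;> simp only [wroute] <;>
      first | exact List.cons_ne_nil _ _ | (split_ifs <;> exact List.cons_ne_nil _ _)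
  all_goals exact List.cons_ne_nil _ _

theorem wlast {q κ j : ℕ} (e : LE (WLoc q) true) :
    ((wroute q κ j e).map Prod.snd).getLast? = some (tB (wb q) (wpos q κ) e) := by
  rcases e with ⟨_ | _, e⟩ | (_ | _) | ⟨_ | _, hs⟩
  · rcases e with _ | _ | _ | _ | _ | k | i
    · rfl
    · rfl
    · rfl
    · rfl
    · rfl
    · by_cases h1 : k.1 % 2 = 0 ∧ k.1 ≠ 0
      · by_cases h2 : k.1 ≤ 2 * j
        · simp only [wroute, if_pos h1, if_pos h2, tB, WLoc, decide_eq_true h1]
          rfl
        · simp only [wroute, if_pos h1, if_neg h2, tB, WLoc, decide_eq_true h1]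
          rfl
      · simp only [wroute, if_neg h1, tB, WLoc, decide_eq_false h1]
        rfl
    · rfl
  · rcases e with _ | _ | _ | _ | _ | k | i
    · rfl
    · rfl
    · rfl
    · rfl
    · simp only [wroute, tB, ePos, WLoc, wpos, List.map_cons, List.map_append, List.map_nil]
      rw [← List.cons_append, List.getLast?_concat]
      congr 1
    · by_cases h1 : k.1 % 2 = 0 ∧ k.1 ≠ 0
      · simp only [wroute, if_pos h1, tB, WLoc, decide_eq_true h1]
        rfl
      · simp only [wroute, if_neg h1, tB, WLoc, decide_eq_false h1]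
        rfl
    · simp only [wroute, tB, ePos, WLoc, wpos, List.map_cons, List.map_nil,
        List.getLast?_singleton, Option.some.injEq]
      push_cast
      ring
  all_goals rfl

theorem wnodup {q κ j : ℕ} (hh : HJ q κ j) (e : LE (WLoc q) true) (he : wkeep κ e) :
    (tA (wb q) (wpos q κ) e :: (wroute q κ j e).map Prod.snd).Nodup := by
  have hb : wb q = 30 + 8 * (q : ℤ) := rfl
  unfold HJ at hh
  rcases e with ⟨_ | _, e⟩ | (_ | _) | ⟨_ | _, hs⟩
  · rcases e with _ | _ | _ | _ | _ | k | i
    · simp only [wroute, tA, ePos, WLoc, wpos, hb, List.map_cons, List.map_nil, List.nodup_cons,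
        List.mem_cons, List.not_mem_nil, or_false, not_false_eq_true, List.nodup_nil, and_true]
      omega
    · simp only [wroute, tA, ePos, WLoc, wpos, hb, List.map_cons, List.map_nil, List.nodup_cons,
        List.mem_cons, List.not_mem_nil, or_false, not_false_eq_true, List.nodup_nil, and_true]
      omega
    · simp only [wroute, tA, ePos, WLoc, wpos, hb, List.map_cons, List.map_nil, List.nodup_cons,
        List.mem_cons, List.not_mem_nil, or_false, not_false_eq_true, List.nodup_nil, and_true]
      omega
    · simp only [wroute, tA, ePos, WLoc, wpos, hb, List.map_cons, List.map_nil, List.nodup_cons,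
        List.mem_cons, List.not_mem_nil, or_false, not_false_eq_true, List.nodup_nil, and_true]
      omega
    · simp only [wroute, tA, ePos, WLoc, wpos, hb, List.map_cons, List.map_nil, List.nodup_cons,
        List.mem_cons, List.not_mem_nil, or_false, not_false_eq_true, List.nodup_nil, and_true]
      split_ifs <;> omega
    · have hk := k.2
      by_cases h1 : k.1 % 2 = 0 ∧ k.1 ≠ 0
      · by_cases h2 : k.1 ≤ 2 * j
        · simp only [wroute, if_pos h1, if_pos h2, tA, ePos, WLoc, wpos, hb, List.map_cons,
            List.map_nil, List.nodup_cons, List.mem_cons, List.not_mem_nil, or_false,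
            not_false_eq_true, List.nodup_nil, and_true]
          split_ifs <;> omega
        · simp only [wroute, if_pos h1, if_neg h2, tA, ePos, WLoc, wpos, hb, List.map_cons,
            List.map_nil, List.nodup_cons, List.mem_cons, List.not_mem_nil, or_false,
            not_false_eq_true, List.nodup_nil, and_true]
          split_ifs <;> omega
      · simp only [wroute, if_neg h1, tA, ePos, WLoc, wpos, List.map_cons,
          List.map_nil, List.nodup_cons, List.mem_cons, List.not_mem_nil, or_false,
          not_false_eq_true, List.nodup_nil, and_true]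
        split_ifs <;> omega
    · have hi := i.2
      simp only [wroute, tA, ePos, WLoc, wpos, List.map_cons, List.map_nil, List.nodup_cons,
        List.mem_cons, List.not_mem_nil, or_false, not_false_eq_true, List.nodup_nil, and_true]
      split_ifs <;> omega
  · rcases e with _ | _ | _ | _ | _ | k | i
    · simp only [wroute, tA, ePos, WLoc, wpos, hb, List.map_cons, List.map_nil, List.nodup_cons,
        List.mem_cons, List.not_mem_nil, or_false, not_false_eq_true, List.nodup_nil, and_true]
      omega
    · simp only [wroute, tA, ePos, WLoc, wpos, hb, List.map_cons, List.map_nil, List.nodup_cons,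
        List.mem_cons, List.not_mem_nil, or_false, not_false_eq_true, List.nodup_nil, and_true]
      omega
    · simp only [wroute, tA, ePos, WLoc, wpos, hb, List.map_cons, List.map_nil, List.nodup_cons,
        List.mem_cons, List.not_mem_nil, or_false, not_false_eq_true, List.nodup_nil, and_true]
      omega
    · simp only [wroute, tA, ePos, WLoc, wpos, hb, List.map_cons, List.map_nil, List.nodup_cons,
        List.mem_cons, List.not_mem_nil, or_false, not_false_eq_true, List.nodup_nil, and_true]
      omega
    · simp only [wroute, tA, ePos, WLoc, wpos, List.map_cons, List.map_append, List.map_nil]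
      have h1 : ((steps false 4 13 j).map Prod.snd ++ [20 + 4 * (q : ℤ)]).Nodup := by
        refine List.Nodup.append (steps_nodup (by norm_num) _ _) (List.nodup_singleton _) ?_
        intro x hx hx'
        obtain ⟨t, h1, h2, h3⟩ := mem_steps.1 hx
        rw [List.mem_singleton] at hx'
        omega
      refine List.nodup_cons.2 ⟨?_, List.nodup_cons.2 ⟨?_, h1⟩⟩
      · intro hx
        rcases List.mem_cons.1 hx with hx | hx
        · omega
        · rcases List.mem_append.1 hx with hx | hx
          · obtain ⟨t, h1, h2, h3⟩ := mem_steps.1 hx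
            omega
          · rw [List.mem_singleton] at hx
            omega
      · intro hx
        rcases List.mem_append.1 hx with hx | hx
        · obtain ⟨t, h1, h2, h3⟩ := mem_steps.1 hx
          omega
        · rw [List.mem_singleton] at hx
          omega
    · have hk := k.2
      by_cases h1 : k.1 % 2 = 0 ∧ k.1 ≠ 0
      · simp only [wroute, if_pos h1, tA, ePos, WLoc, wpos, List.map_cons,
          List.map_nil, List.nodup_cons, List.mem_cons, List.not_mem_nil, or_false,
          not_false_eq_true, List.nodup_nil, and_true]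
        omega
      · simp only [wroute, if_neg h1, tA, ePos, WLoc, wpos, hb, List.map_cons,
          List.map_nil, List.nodup_cons, List.mem_cons, List.not_mem_nil, or_false,
          not_false_eq_true, List.nodup_nil, and_true]
        omega
    · have hi := i.2
      simp only [wroute, tA, ePos, WLoc, wpos, List.map_cons, List.map_nil, List.nodup_cons,
        List.mem_cons, List.not_mem_nil, or_false, not_false_eq_true, List.nodup_nil, and_true]
      omega
  all_goals
    simp only [wroute, tA, WLoc, wpos, hb, List.map_cons, List.map_nil, List.nodup_cons,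
      List.mem_cons, List.not_mem_nil, or_false, not_false_eq_true, List.nodup_nil, and_true]
    omega

theorem wbend {q κ j : ℕ} (e : LE (WLoc q) true) :
    ∀ x ∈ ((wroute q κ j e).map Prod.snd).dropLast, WBd j (wcode e) x := by
  intro x hx
  rcases e with ⟨_ | _, e⟩ | (_ | _) | ⟨_ | _, hs⟩
  · rcases e with _ | _ | _ | _ | _ | k | i
    · simp [wroute] at hx
    · simp [wroute] at hx
    · simp [wroute] at hx
    · simp [wroute] at hx
      subst hx
      unfold WBd
      (iterate 6 right)
      left
      exact ⟨rfl, rfl⟩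
    · simp [wroute] at hx
    · by_cases h1 : k.1 % 2 = 0 ∧ k.1 ≠ 0
      · by_cases h2 : k.1 ≤ 2 * j
        · simp only [wroute, if_pos h1, if_pos h2, List.map_cons, List.map_nil,
            List.dropLast_cons_cons, List.dropLast_singleton, List.mem_singleton] at hx
          subst hx
          obtain ⟨t, ht⟩ : ∃ t : ℕ, k.1 = 2 * t := ⟨k.1 / 2, by omega⟩
          unfold WBd
          (iterate 8 right)
          simp only [wcode]
          exact ⟨t, by omega⟩
        · simp only [wroute, if_pos h1, if_neg h2, List.map_cons, List.map_nil,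
            List.dropLast_singleton, List.not_mem_nil] at hx
      · simp only [wroute, if_neg h1, List.map_cons, List.map_nil,
          List.dropLast_singleton, List.not_mem_nil] at hx
    · simp [wroute] at hx
  · rcases e with _ | _ | _ | _ | _ | k | i
    · simp [wroute] at hx
      subst hx
      unfold WBd
      (iterate 1 right)
      left
      exact ⟨rfl, rfl⟩
    · simp [wroute] at hx
      subst hx
      unfold WBd
      (iterate 2 right)
      left
      exact ⟨rfl, rfl⟩
    · simp [wroute] at hx
    · simp [wroute] at hx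
    · simp only [wroute, List.map_cons, List.map_append, List.map_nil] at hx
      rw [← List.cons_append, List.dropLast_concat, List.mem_cons] at hx
      rcases hx with hx | hx
      · subst hx
        unfold WBd
        (iterate 7 right)
        left
        exact ⟨rfl, rfl⟩
      · obtain ⟨t, h1, h2, h3⟩ := mem_steps.1 hx
        unfold WBd
        (iterate 8 right)
        exact ⟨t, h1, h2, .inl rfl, h3⟩
    · by_cases h1 : k.1 % 2 = 0 ∧ k.1 ≠ 0
      · simp only [wroute, if_pos h1, List.map_cons, List.map_nil,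
          List.dropLast_singleton, List.not_mem_nil] at hx
      · simp only [wroute, if_neg h1, List.map_cons, List.map_nil,
          List.dropLast_singleton, List.not_mem_nil] at hx
    · simp [wroute] at hx
  · simp [wroute] at hx
    unfold WBd
    left
    exact ⟨rfl, hx⟩
  · simp [wroute] at hx
    subst hx
    unfold WBd
    (iterate 5 right)
    left
    exact ⟨rfl, rfl⟩
  · simp [wroute] at hx
    unfold WBd
    (iterate 3 right)
    left
    exact ⟨rfl, hx⟩
  · simp [wroute] at hx
    subst hx
    unfold WBd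
    (iterate 4 right)
    left
    exact ⟨rfl, rfl⟩

/-- The tile. -/
def wtile {q κ j : ℕ} (hh : HJ q κ j) (keep : LE (WLoc q) true → Prop)
    (hk : ∀ e, keep e → wkeep κ e) : TLay (WLoc q) true keep :=
  mkT keep (wb q) (wpos q κ) (wroute q κ j) (wcross j) wcode (WFF q κ j) (WBd j) wcol
    (fun e f _ _ h => wcode_inj e f h)
    (wpos_inj q κ)
    (wpos_mem q κ)
    (fun e _ => wne e)
    (fun e _ => wlast e)
    (fun e he => wnodup hh e (hk e he))
    (fun e he => wfam hh e (hk e he))
    (fun e _ => wbend e)
    (fun _ _ h => wbd_mem hh h)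
    (fun _ _ h v => wbd_ne hh h v)
    (fun _ _ _ _ _ _ _ h h' => (wff_pl hh h h').1)
    (fun _ _ _ _ _ h h' => (wff_pl hh h h').2 ⟨rfl, rfl⟩)
    (fun _ _ _ h => wff_up hh h)
    (fun _ _ _ _ h => wff_loc hh h)
    (fun _ _ _ h h' => wbd_col h h')
    (fun _ _ _ h _ _ => wbd_cross h)

theorem tdel_s3 (q : ℕ) : TDel (WLoc q) true (q + 6) (.inl (false, .s3)) := by
  have hh : HJ (q : ℤ) ((0 : ℕ) : ℤ) ((0 : ℕ) : ℤ) := by
    unfold HJ
    omega
  refine ⟨wtile hh (fun f => f ≠ .inl (false, .s3)) (fun e he => ⟨fun h => absurd h he,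
    fun i _ => Nat.succ_ne_zero _⟩), ?_⟩
  have h1 : (wcross 0).card ≤ 5 + 0 := wcross_card 0
  show (wcross 0).card + 1 ≤ q + 6
  omega

theorem tdel_row (q : ℕ) (i : Fin (2 * q + 1)) :
    TDel (WLoc q) true (q + 6) (.inl (false, .row i)) := by
  have hi := i.2
  have hh : HJ (q : ℤ) ((i.1 + 1 : ℕ) : ℤ) ((i.1 / 2 : ℕ) : ℤ) := by
    unfold HJ
    omega
  refine ⟨wtile hh (fun f => f ≠ .inl (false, .row i)) (fun e he => ⟨fun _ => Nat.succ_pos _,
    fun i' h h' => he ?_⟩), ?_⟩
  · have h2 : i' = i := Fin.ext (by omega)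
    rw [h, h2]
  · have h1 := wcross_card (i.1 / 2)
    show (wcross (i.1 / 2)).card + 1 ≤ q + 6
    omega

theorem tcr_bleg (q : ℕ) (k : Fin (2 * q + 3)) (hk : k.1 % 2 = 0 ∧ k.1 ≠ 0) :
    TCr (WLoc q) true (q + 6) (.inl (false, .leg k)) := by
  have hk2 := k.2
  have hh : HJ (q : ℤ) ((2 * q + 2 : ℕ) : ℤ) ((q + 1 : ℕ) : ℤ) := by
    unfold HJ
    omega
  refine ⟨wtile hh (fun _ => True) (fun e _ => ⟨fun _ => Nat.succ_pos _,
    fun i _ => by have := i.2; omega⟩), ?_, ?_⟩
  · have h1 := wcross_card (q + 1)
    show (wcross (q + 1)).card ≤ q + 6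
    omega
  · refine ⟨.inl (true, .s3), (fun h => by injection h with h; injection h with h; cases h),
      13 + 2 * (k.1 : ℤ), ?_, ?_⟩
    · show (13 + 2 * (k.1 : ℤ)) ∈
        ((wroute q (2 * q + 2) (q + 1) (.inl (false, .leg k))).map Prod.snd).dropLast
      have h2 : k.1 ≤ 2 * (q + 1) := by omega
      simp only [wroute, if_pos hk, if_pos h2, List.map_cons, List.map_nil,
        List.dropLast_cons_cons, List.dropLast_singleton, List.mem_singleton]
    · show (13 + 2 * (k.1 : ℤ)) ∈
        ((wroute q (2 * q + 2) (q + 1) (.inl (true, .s3))).map Prod.snd).dropLast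
      simp only [wroute, List.map_cons, List.map_append, List.map_nil]
      rw [← List.cons_append, List.dropLast_concat, List.mem_cons]
      right
      refine mem_steps.2 ⟨(k.1 / 2 : ℕ), ?_, ?_, ?_⟩ <;> omega

end Pool.Agent.CC.FCW45
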