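import Pool.Agent.Lib_helper74.CCF.W45Mk

/-! # The drawings WF and WE: chords and bends -/

set_option autoImplicit false

namespace Pool.Agent.CC.FCW45

/-- the relation of `κ` and `j` -/
def HJ (q κ j : ℤ) : Prop :=
  0 ≤ q ∧ 0 ≤ κ ∧ 0 ≤ j ∧ ((κ = 2 * q + 2 ∧ j = q + 1) ∨
    (κ ≤ 2 * q + 1 ∧ ((κ = 0 ∧ j = 0) ∨ (2 * j + 1 ≤ κ ∧ κ ≤ 2 * j + 2))))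

/-- lower chords -/
def WLo (q κ j c l r : ℤ) : Prop :=
  (c = 6 ∧ l = -1 ∧ r = 1) ∨ (c = 7 ∧ l = -2 ∧ r = 7) ∨
  (c = 15 ∧ (l = 5 ∧ r = 7 ∨ l = 7 ∧ r = 32 + 8 * q)) ∨
  (c = 14 ∧ l = 8 ∧ r = 31 + 8 * q) ∨ (c = 4 ∧ l = 9 ∧ r = 30 + 8 * q) ∨
  (c = 12 ∧ l = 10 ∧ r = 30 + 8 * q) ∨
  (∃ t, 1 ≤ t ∧ t ≤ j ∧ c = 16 * t ∧ l = 13 + 4 * t ∧ r = 30 + 8 * q) ∨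
  (∃ t, j < t ∧ 1 ≤ t ∧ t ≤ q + 1 ∧ c = 16 * t ∧
    (t ≤ q ∧ l = 22 + 6 * q + 2 * t ∨ t = q + 1 ∧ l = 23 + 8 * q) ∧ r = 30 + 8 * q) ∨
  (c = 5 ∧ l = 1 ∧ r = 5) ∨ (c = 13 ∧ l = 2 ∧ r = 4) ∨
  (∃ t, c = 37 ∧ 0 ≤ t ∧ t ≤ j ∧ (t = 0 ∧ l = 11 ∨ 0 < t ∧ l = 13 + 4 * t) ∧
    (t = j ∧ r = 20 + 4 * q ∨ t < j ∧ r = 17 + 4 * t)) ∨
  (∃ k, 0 ≤ k ∧ k ≤ 2 * q + 1 ∧ c = 8 * k + 1 ∧ l = 20 + 4 * q + k ∧ r = 30 + 8 * q)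

/-- upper chords -/
def WUp (q κ j c l r : ℤ) : Prop :=
  (c = 6 ∧ (l = 1 ∧ r = 2 ∨ l = 2 ∧ r = 3)) ∨ (c = 7 ∧ (l = 7 ∧ r = 8 ∨ l = 8 ∧ r = 9)) ∨
  (c = 14 ∧ l = 6 ∧ r = 8) ∨ (c = 20 ∧ l = 9 ∧ r = 10) ∨
  (c = 28 ∧ (l = 10 ∨ l = 3) ∧ r = 11) ∨ (c = 36 ∧ 0 < κ ∧ l = 3 ∧ r = 12) ∨
  (∃ k, 0 ≤ k ∧ k ≤ 2 * q + 1 ∧ c = 8 * k ∧ l = 0 ∧
    (k < κ ∧ r = 12 + 2 * k ∨ κ ≤ k ∧ r = 22 + 6 * q + k)) ∨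
  (∃ t, 1 ≤ t ∧ t ≤ j ∧ c = 16 * t ∧ (t ≤ q ∧ l = 12 + 4 * t ∨ t = q + 1 ∧ l = 14 + 4 * q) ∧
    r = 13 + 4 * t) ∨
  (∃ i, 0 ≤ i ∧ i ≤ 2 * q ∧ c = 8 * i + 2 ∧
    (i + 1 < κ ∧ l = 12 + 2 * i ∧ r = 14 + 2 * i ∨
      κ ≤ i ∧ l = 22 + 6 * q + i ∧ r = 23 + 6 * q + i)) ∨
  (c = 5 ∧ l = 0 ∧ r = 1) ∨ (c = 13 ∧ l = 0 ∧ r = 2) ∨ (c = 21 ∧ l = 4 ∧ r = 5) ∨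
  (c = 29 ∧ l = 4 ∧ r = 6) ∨ (c = 37 ∧ l = 6 ∧ r = 11) ∨
  (∃ t, 1 ≤ t ∧ t ≤ q + 1 ∧ c = 16 * t + 1 ∧ l = 0 ∧
    (t ≤ q ∧ r = 20 + 4 * q + 2 * t ∨ t = q + 1 ∧ r = 21 + 6 * q)) ∨
  (∃ i, 0 ≤ i ∧ i ≤ 2 * q ∧ c = 8 * i + 3 ∧ l = 20 + 4 * q + i ∧ r = 21 + 4 * q + i)

theorem wlo_pl {q κ j c l r c' l' r' : ℤ} (h : HJ q κ j) (h1 : WLo q κ j c l r)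
    (h2 : WLo q κ j c' l' r') : ¬ (l < l' ∧ l' < r ∧ r < r') ∧ (l = l' ∧ r = r' → c = c') := by
  unfold HJ at h
  unfold WLo at h1 h2
  rcases h1 with h1 | h1 | h1 | h1 | h1 | h1 | ⟨t, h1⟩ | ⟨t, h1⟩ | h1 | h1 | ⟨t, h1⟩ | ⟨t, h1⟩ <;>
  rcases h2 with h2 | h2 | h2 | h2 | h2 | h2 | ⟨t', h2⟩ | ⟨t', h2⟩ | h2 | h2 | ⟨t', h2⟩ | ⟨t', h2⟩ <;>
  omega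

theorem wup_pl {q κ j c l r c' l' r' : ℤ} (h : HJ q κ j) (h1 : WUp q κ j c l r)
    (h2 : WUp q κ j c' l' r') : ¬ (l < l' ∧ l' < r ∧ r < r') ∧ (l = l' ∧ r = r' → c = c') := by
  unfold HJ at h
  unfold WUp at h1 h2
  rcases h1 with h1 | h1 | h1 | h1 | h1 | h1 | ⟨t, h1⟩ | ⟨t, h1⟩ |
    ⟨t, h1⟩ | h1 | h1 | h1 | h1 | h1 | ⟨t, h1⟩ | ⟨t, h1⟩ <;>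
  rcases h2 with h2 | h2 | h2 | h2 | h2 | h2 | ⟨t', h2⟩ | ⟨t', h2⟩ |
    ⟨t', h2⟩ | h2 | h2 | h2 | h2 | h2 | ⟨t', h2⟩ | ⟨t', h2⟩ <;>
  omega

end Pool.Agent.CC.FCW45
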