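import Pool.Agent.Lib_helper74.CCF.F2defs
import Pool.Agent.Lib_helper74.CCF.LBall
import Pool.Agent.Lib_helper74.CCF.Opts
import Pool.Agent.Lib_helper74.CCF.Loc
import Pool.Agent.Lib_helper74.CCF.EmbGW
import Pool.Agent.Lib_helper74.CCF.EmbWW

/-! WB (helper37): the base case of the lower bound for the strips with `W` regions. -/

namespace Pool.Agent.CC

open Gph

namespace WB37

/-! ### Counting -/

/-- A list of pairwise different unordered pairs of a symmetric set. -/
theorem count {α : Type} [DecidableEq α] (L : List (α × α)) : ∀ (T : Finset (α × α)),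
    (∀ p ∈ L, p ∈ T ∧ p.swap ∈ T ∧ p.1 ≠ p.2) →
    L.Pairwise (fun p q => p ≠ q ∧ p ≠ q.swap) → 2 * L.length ≤ T.card := by
  induction L with
  | nil => intro T _ _; simp
  | cons p L ih =>
    intro T h1 h2
    obtain ⟨hp1, hp2, hp3⟩ := h1 p List.mem_cons_self
    rw [List.pairwise_cons] at h2
    have hps : p ≠ p.swap := by
      intro h
      exact hp3 (congrArg Prod.fst h)
    have h3 := ih ((T.erase p).erase p.swap) (fun r hr => by
      obtain ⟨k1, k2, k3⟩ := h1 r (List.mem_cons_of_mem _ hr)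
      obtain ⟨k4, k5⟩ := h2.1 r hr
      have k6 : r ≠ p.swap := fun h => k5 (by rw [h, Prod.swap_swap])
      have k7 : r.swap ≠ p.swap := fun h => k4 (Prod.swap_injective h).symm
      exact ⟨Finset.mem_erase.2 ⟨k6, Finset.mem_erase.2 ⟨k4.symm, k1⟩⟩,
        Finset.mem_erase.2 ⟨k7, Finset.mem_erase.2 ⟨k5.symm, k2⟩⟩, k3⟩) h2.2
    rw [Finset.card_erase_of_mem (Finset.mem_erase.2 ⟨hps.symm, hp2⟩),
      Finset.card_erase_of_mem hp1] at h3
    have h4 : 2 ≤ T.card := by
      have : ({p, p.swap} : Finset (α × α)) ⊆ T := by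
        intro r hr
        rcases Finset.mem_insert.1 hr with rfl | hr
        · exact hp1
        · rw [Finset.mem_singleton.1 hr]; exact hp2
      have h5 := Finset.card_le_card this
      rwa [Finset.card_pair hps] at h5
    rw [List.length_cons]
    omega

/-- The crossing pairs split into those with an edge of type `R` and the others. -/
theorem split {G : Gph} (P : G.PS) (R : G.E → Prop) [DecidablePred R] :
    P.cross.card = (P.cross.filter (fun p => R p.1 ∨ R p.2)).card +
      (P.cross.filter (fun p => ¬ R p.1 ∧ ¬ R p.2)).card := by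
  rw [← Finset.card_filter_add_card_filter_not (s := P.cross) (fun p => R p.1 ∨ R p.2)]
  congr 2
  ext p
  simp only [Finset.mem_filter, not_or]

theorem cross_symm {G : Gph} {P : G.PS} {e f : G.E} (hI : G.Ind e f) (hX : P.X e f = 1) :
    (e, f) ∈ P.cross ∧ (f, e) ∈ P.cross ∧ e ≠ f :=
  ⟨PS.mem_cross.2 ⟨hI, hX⟩, PS.mem_cross.2 ⟨hI.symm, by rw [← P.X_symm e f hI]; exact hX⟩,
    fun h => hI.1 (by rw [h])⟩

theorem one_of_ne {z : ZMod 2} : z ≠ 0 → z = 1 := by revert z; decide

/-- crossing pairs in the image of an embedding which avoids `e`, and one pair with `e` -/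
theorem count_add_two {H G : Gph} (φ : TEmb H G) (P : G.PS) {K : ℕ} (h : H.LB K) {e f : G.E}
    (hI : G.Ind e f) (hX : P.X e f = 1) (hφ : ∀ g, e ∉ φ.c g) : 2 * K + 2 ≤ P.cross.card := by
  classical
  have h1 := φ.count P h
  obtain ⟨k1, k2, k3⟩ := cross_symm hI hX
  refine (Nat.add_le_add_right h1 2).trans ?_
  have hd : Disjoint (P.cross.filter
      (fun p => ∃ e f : H.E, H.Ind e f ∧ p.1 ∈ φ.c e ∧ p.2 ∈ φ.c f)) {(e, f), (f, e)} := by
    rw [Finset.disjoint_right]
    intro p hp hm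
    obtain ⟨-, a, b, -, m1, m2⟩ := Finset.mem_filter.1 hm
    rcases Finset.mem_insert.1 hp with rfl | hp
    · exact hφ a m1
    · rw [Finset.mem_singleton.1 hp] at m2
      exact hφ b m2
  have h2 : (P.cross.filter
      (fun p => ∃ e f : H.E, H.Ind e f ∧ p.1 ∈ φ.c e ∧ p.2 ∈ φ.c f)) ∪ {(e, f), (f, e)} ⊆
      P.cross := by
    intro p hp
    rcases Finset.mem_union.1 hp with hp | hp
    · exact Finset.filter_subset _ _ hp
    · rcases Finset.mem_insert.1 hp with rfl | hp
      · exact k1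
      · rw [Finset.mem_singleton.1 hp]; exact k2
  have h3 := Finset.card_le_card h2
  rw [Finset.card_union_of_disjoint hd, Finset.card_pair (fun h => k3 (congrArg Prod.fst h))] at h3
  exact h3

/-! ### Local facts -/

theorem fleg_cases (t : RT) (ht : t ≠ .G) (e : (t.loc 1).E) (he : RT.fleg 1 t e) :
    RT.gfree 1 t e ∨ (t = .W ∧ ∃ s, e ∈ RT.l2 s t) := by
  cases t with
  | T => exact Or.inl he
  | G => exact absurd rfl ht
  | W =>
    obtain ⟨s, w⟩ := e
    obtain ⟨k, hk, hk'⟩ := he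
    dsimp only at hk
    subst hk
    have hk2 : k.1 = 0 ∨ k.1 = 1 ∨ k.1 = 2 := by
      rcases hk' with h | h | h
      · exact Or.inl h
      · exact Or.inr (Or.inl (by omega))
      · exact Or.inr (Or.inr (by omega))
    rcases hk2 with h | h | h
    · exact Or.inl (Or.inr ⟨k, rfl, Or.inl h⟩)
    · exact Or.inl (Or.inr ⟨k, rfl, Or.inr ⟨rfl, h⟩⟩)
    · refine Or.inr ⟨rfl, s, ?_⟩
      have : k = ⟨2, by decide⟩ := Fin.ext h
      subst this
      exact Finset.mem_singleton_self _

theorem l2_Y (t : RT) (s : Bool) (e : (t.loc 1).E) (he : e ∈ RT.l2 s t) : e ∈ RT.Y t := by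
  cases t with
  | T => exact absurd he (Finset.notMem_empty _)
  | G => exact absurd he (Finset.notMem_empty _)
  | W =>
    have := Finset.mem_singleton.1 he
    subst this
    cases s
    · exact Finset.mem_insert_of_mem (Finset.mem_insert_self _ _)
    · exact Finset.mem_insert_of_mem (Finset.mem_insert_of_mem (Finset.mem_insert_of_mem
        (Finset.mem_singleton_self _)))

theorem l2_r6 (t : RT) (s : Bool) (e : (t.loc 1).E) (he : e ∈ RT.l2 s t) : e ∈ RT.r6 s t := by
  cases t with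
  | T => exact absurd he (Finset.notMem_empty _)
  | G => exact absurd he (Finset.notMem_empty _)
  | W =>
    have := Finset.mem_singleton.1 he
    subst this
    exact Finset.mem_insert_of_mem (Finset.mem_insert_of_mem (Finset.mem_singleton_self _))

theorem Y_cases (t : RT) (e : (t.loc 1).E) (he : e ∈ RT.Y t) :
    RT.gfree 1 t e ∨ ∃ s, e ∈ RT.l2 s t := by
  cases t with
  | T => exact absurd he (Finset.notMem_empty _)
  | G => exact absurd he (Finset.notMem_empty _)
  | W =>
    rcases Finset.mem_insert.1 he with rfl | he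
    · exact Or.inl (Or.inr ⟨_, rfl, Or.inr ⟨rfl, rfl⟩⟩)
    rcases Finset.mem_insert.1 he with rfl | he
    · exact Or.inr ⟨false, Finset.mem_singleton_self _⟩
    rcases Finset.mem_insert.1 he with rfl | he
    · exact Or.inl (Or.inr ⟨_, rfl, Or.inr ⟨rfl, rfl⟩⟩)
    · rw [Finset.mem_singleton.1 he]
      exact Or.inr ⟨true, Finset.mem_singleton_self _⟩

theorem r4_part (t : RT) (s : Bool) (e : (t.loc 1).E) (he : e ∈ RT.r4 s t) :
    RT.part 1 t e = some s ∧ ¬ RT.isB1 1 t e := by
  cases t with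
  | T => exact absurd he (Finset.notMem_empty _)
  | G => exact absurd he (Finset.notMem_empty _)
  | W =>
    rcases Finset.mem_insert.1 he with rfl | he
    · exact ⟨rfl, fun h => nomatch h⟩
    · rw [Finset.mem_singleton.1 he]
      exact ⟨rfl, fun h => nomatch h⟩

theorem r6_part (t : RT) (s : Bool) (e : (t.loc 1).E) (he : e ∈ RT.r6 s t) :
    RT.part 1 t e = some s ∧ ¬ RT.isB1 1 t e := by
  cases t with
  | T => exact absurd he (Finset.notMem_empty _)
  | G => exact absurd he (Finset.notMem_empty _)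
  | W =>
    rcases Finset.mem_insert.1 he with rfl | he
    · exact ⟨rfl, fun h => nomatch h⟩
    rcases Finset.mem_insert.1 he with rfl | he
    · exact ⟨rfl, fun h => nomatch h⟩
    · rw [Finset.mem_singleton.1 he]
      exact ⟨rfl, fun h => nomatch h⟩

theorem r4_r6 (t : RT) (s s' : Bool) (e : (t.loc 1).E) (he : e ∈ RT.r4 s t) : e ∉ RT.r6 s' t := by
  cases t with
  | T => exact absurd he (Finset.notMem_empty _)
  | G => exact absurd he (Finset.notMem_empty _)
  | W =>
    revert e s s'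
    show ∀ (s s' : Bool) (e : Bool × WE 0), e ∈ ({(s, .sig), (s, .b2)} : Finset (Bool × WE 0)) →
      e ∉ ({(s', .s3), (s', .row ⟨0, by omega⟩), (s', .leg ⟨2, by omega⟩)} : Finset (Bool × WE 0))
    decide

/-- The edges of the part `s` of a `W` region which are not `ByT` and not free. -/
theorem part_cases (t : RT) (ht : t = .W) (s : Bool) (e : (t.loc 1).E)
    (h1 : RT.part 1 t e ≠ some (!s)) (h2 : ¬ RT.isB1 1 t e) (h3 : ¬ RT.gfree 1 t e) :
    e ∈ RT.r4 s t ∪ RT.r6 s t := by
  subst ht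
  obtain ⟨u, w⟩ := e
  have hu : u = s := by
    have : u ≠ !s := fun h => h1 (by rw [h]; rfl)
    revert this
    cases u <;> cases s <;> decide
  subst hu
  refine Finset.mem_union.2 ?_
  cases w with
  | b1 => exact absurd rfl h2
  | b2 => exact Or.inl (Finset.mem_insert_of_mem (Finset.mem_singleton_self _))
  | eta => exact absurd (Or.inl rfl) h3
  | sig => exact Or.inl (Finset.mem_insert_self _ _)
  | s3 => exact Or.inr (Finset.mem_insert_self _ _)
  | leg k =>
    have hk : k.1 < 3 := by have := k.2; omega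
    have h0 : k.1 ≠ 0 := fun h => h3 (Or.inr ⟨k, rfl, Or.inl h⟩)
    have h1 : k.1 ≠ 1 := fun h => h3 (Or.inr ⟨k, rfl, Or.inr ⟨rfl, h⟩⟩)
    have : k = ⟨2, by decide⟩ := Fin.ext (by show k.1 = 2; omega)
    subst this
    exact Or.inr (Finset.mem_insert_of_mem (Finset.mem_insert_of_mem (Finset.mem_singleton_self _)))
  | row i =>
    have hi : i.1 < 1 := by have := i.2; omega
    have : i = ⟨0, by decide⟩ := Fin.ext (by show i.1 = 0; omega)
    subst this
    exact Or.inr (Finset.mem_insert_of_mem (Finset.mem_insert_self _ _))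

def a0 (e : Bool × WE 0) : (Bool × WV 0) ⊕ Bool := (WLoc 0).a e
def b0 (e : Bool × WE 0) : (Bool × WV 0) ⊕ Bool := (WLoc 0).b e

/-- The two cycles of a `W` region have no common vertices. -/
theorem loc_ind (t : RT) (s : Bool) (e f : (t.loc 1).E) (he : e ∈ RT.r4 s t ∪ RT.r6 s t)
    (hf : f ∈ RT.r4 (!s) t ∪ RT.r6 (!s) t) :
    (t.loc 1).a e ≠ (t.loc 1).a f ∧ (t.loc 1).a e ≠ (t.loc 1).b f ∧
      (t.loc 1).b e ≠ (t.loc 1).a f ∧ (t.loc 1).b e ≠ (t.loc 1).b f := by
  cases t with
  | T => exact absurd he (by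
      rw [Finset.mem_union, not_or]; exact ⟨Finset.notMem_empty _, Finset.notMem_empty _⟩)
  | G => exact absurd he (by
      rw [Finset.mem_union, not_or]; exact ⟨Finset.notMem_empty _, Finset.notMem_empty _⟩)
  | W =>
    revert e f s
    show ∀ (s : Bool) (e f : Bool × WE 0),
      e ∈ ({(s, .sig), (s, .b2)} ∪ {(s, .s3), (s, .row ⟨0, by omega⟩), (s, .leg ⟨2, by omega⟩)} :
        Finset (Bool × WE 0)) →
      f ∈ ({(!s, .sig), (!s, .b2)} ∪
        {(!s, .s3), (!s, .row ⟨0, by omega⟩), (!s, .leg ⟨2, by omega⟩)} : Finset (Bool × WE 0)) →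
      a0 e ≠ a0 f ∧ a0 e ≠ b0 f ∧ b0 e ≠ a0 f ∧ b0 e ≠ b0 f
    decide

variable {N : ℕ} [NeZero N]

theorem locEnd_inj (hN : 5 ≤ N) (L : ZMod N → Loc) (j : ZMod N) {x y : (L j).V ⊕ Bool}
    (h : locEnd L j x = locEnd L j y) : x = y := by
  have h1 : (j - 1 : ZMod N) ≠ j := by
    intro h
    have h0 : (1 : ZMod N) = 0 := by
      have : j - (j - 1) = j - j := by rw [h]
      simpa using this
    have : (1 : ℕ) % N = 0 := by
      have h2 := (ZMod.natCast_eq_zero_iff 1 N).1 (by simpa using h0)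
      exact Nat.mod_eq_zero_of_dvd h2
    rw [Nat.mod_eq_of_lt (by omega)] at this
    exact absurd this (by decide)
  rcases x with u | (_ | _) <;> rcases y with v | (_ | _)
  · have h2 : (⟨j, u⟩ : Σ j, (L j).V) = ⟨j, v⟩ := Sum.inr.inj h
    rw [eq_of_heq (Sigma.mk.inj h2).2]
  · exact absurd h (fun h => nomatch h)
  · exact absurd h (fun h => nomatch h)
  · exact absurd h (fun h => nomatch h)
  · rfl
  · exact absurd (Sum.inl.inj h) h1
  · exact absurd h (fun h => nomatch h)
  · exact absurd (Sum.inl.inj h).symm h1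
  · rfl

theorem le_ind (hN : 5 ≤ N) (τ : ZMod N → RT) (m : ZMod N) (s : Bool)
    (e f : ((τ m).loc 1).E) (he : e ∈ RT.r4 s (τ m) ∪ RT.r6 s (τ m))
    (hf : f ∈ RT.r4 (!s) (τ m) ∪ RT.r6 (!s) (τ m)) :
    (tstrip 1 true τ).Ind (le 1 true τ m e) (le 1 true τ m f) := by
  obtain ⟨h1, h2, h3, h4⟩ := loc_ind (τ m) s e f he hf
  exact ⟨fun h => h1 (locEnd_inj hN _ m h), fun h => h2 (locEnd_inj hN _ m h),
    fun h => h3 (locEnd_inj hN _ m h), fun h => h4 (locEnd_inj hN _ m h)⟩

theorem le_inj (τ : ZMod N → RT) (m : ZMod N) {e f : ((τ m).loc 1).E}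
    (h : le 1 true τ m e = le 1 true τ m f) : e = f := by
  have h1 : (⟨m, e⟩ : Σ j, ((τ j).loc 1).E) = ⟨m, f⟩ := Sum.inl.inj h
  exact eq_of_heq (Sigma.mk.inj h1).2

end WB37

variable {N : ℕ} [NeZero N]

open WB37 in
theorem free_W (hN : 5 ≤ N) {τ : ZMod N → RT} (hG : ∀ j, τ j ≠ .G) {P : (tstrip 1 true τ).PS}
    (h : P.cross.card < 12) (h5 : (tstrip 0 true (fun j => (τ j).swapG)).LB 5)
    (e : (tstrip 1 true τ).E) (he : FT1 τ e) : Free P e := by
  obtain ⟨j, f, hf, rfl⟩ := he
  obtain ⟨φ, hφ⟩ := exists_emb_GW hN 0 τ hG j f hf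
  intro g hI
  by_contra hX
  have := count_add_two φ P h5 hI (one_of_ne hX) hφ
  omega

theorem nonBy_W (hN : 5 ≤ N) {τ : ZMod N → RT} (hG : ∀ j, τ j ≠ .G) {P : (tstrip 1 true τ).PS}
    (h2 : (tstrip 0 false (fun j => (τ j).swapG)).LB 2) (hdec : DecidablePred (ByT 1 true τ)) :
    4 ≤ (P.cross.filter (fun p => ¬ ByT 1 true τ p.1 ∧ ¬ ByT 1 true τ p.2)).card := by
  classical
  obtain ⟨φ, hφ⟩ := exists_emb_GW0 hN τ hG
  refine (φ.count P h2).trans (Finset.card_le_card ?_)
  intro p hp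
  obtain ⟨h1, a, b, -, m1, m2⟩ := Finset.mem_filter.1 hp
  exact Finset.mem_filter.2 ⟨h1, fun h => hφ a _ h m1, fun h => hφ b _ h m2⟩

open WB37 in
theorem W_base (hN : 16 ≤ N) {τ : ZMod N → RT} (hG : ∀ j, τ j ≠ .G)
    (hadj : ∀ j, τ j = .W → τ (j + 1) = .T ∧ τ (j - 1) = .T) {P : (tstrip 1 true τ).PS}
    (W : Window 1 true τ P) (h5 : (tstrip 0 true (fun j => (τ j).swapG)).LB 5)
    (h2 : (tstrip 0 false (fun j => (τ j).swapG)).LB 2) : 12 ≤ P.cross.card := by
  classical
  by_contra hcon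
  push Not at hcon
  have hN5 : 5 ≤ N := by omega
  have hfree : ∀ e, FT1 τ e → Free P e := free_W hN5 hG hcon h5
  have hnon := nonBy_W hN5 hG (P := P) h2 (Classical.decPred _)
  have hsplit := split P (ByT 1 true τ)
  obtain ⟨e, f, hef, hGT, hBy, hdiff⟩ := four_pairs hG W
  -- (1)
  obtain ⟨m, x, hW, s, hx, hnf⟩ : ∃ m, ∃ x : ((τ m).loc 1).E, τ m = .W ∧ ∃ s, x ∈ RT.l2 s (τ m) ∧
      ¬ FreeOut 1 true τ P m x := by
    by_contra hno
    push Not at hno
    have hLF : LegFree' 1 true τ P := by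
      intro j x hx
      rcases fleg_cases (τ j) (hG j) x hx with h | ⟨h, s, hs⟩
      · intro y hI _
        exact hfree _ ⟨j, x, h, rfl⟩ y hI
      · exact hno j x h s hs
    have h3 := core_LB' W (fun _ => le_rfl) hLF (Classical.decPred _)
    have h4 := plus3 W (fun _ => le_rfl) (Classical.decPred _)
    have h6 : (P.cross.filter (fun p => RowT 1 true τ p.1 ∧ RowT 1 true τ p.2)).card ≤
        (P.cross.filter (fun p => ¬ ByT 1 true τ p.1 ∧ ¬ ByT 1 true τ p.2)).card := by
      have hRB : ∀ y, RowT 1 true τ y → ¬ ByT 1 true τ y := by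
        intro y hy hy'
        rcases y with ⟨j, y⟩ | (j | j)
        · revert y
          show ∀ y, RT.isRow 1 (τ j) y → RT.isB1 1 (τ j) y → False
          generalize τ j = t
          intro y h1 h2
          cases t with
          | T => exact h2
          | G => exact h2
          | W =>
            have h3 : y.2 = WE.b1 := h2
            rcases h1 with h1 | ⟨i, h1⟩ <;> rw [h3] at h1 <;> exact nomatch h1
        · exact hy'
        · exact hy
      refine Finset.card_le_card ?_
      intro p hp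
      obtain ⟨h1, h2, h3⟩ := Finset.mem_filter.1 hp
      exact Finset.mem_filter.2 ⟨h1, hRB _ h2, hRB _ h3⟩
    omega
  -- (2)
  obtain ⟨y, hIy, hpy, hXy⟩ : ∃ y, (tstrip 1 true τ).Ind (le 1 true τ m x) y ∧
      (∀ e', y = le 1 true τ m e' → RT.part 1 (τ m) x = none ∨
        RT.part 1 (τ m) e' ≠ RT.part 1 (τ m) x) ∧ P.X (le 1 true τ m x) y = 1 := by
    unfold FreeOut at hnf
    push Not at hnf
    obtain ⟨y, h1, h2, h3⟩ := hnf
    exact ⟨y, h1, h2, one_of_ne h3⟩
  have hxr6 : x ∈ RT.r6 s (τ m) := l2_r6 _ _ _ hx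
  have hxpart := (r6_part _ _ _ hxr6).1
  have hxGT : GT τ (le 1 true τ m x) := ⟨m, s, x, hxr6, rfl⟩
  have hxBy : ¬ ByT 1 true τ (le 1 true τ m x) := (r6_part _ _ _ hxr6).2
  have c0 := cross_symm hIy hXy
  have cf : ∀ i, (e i, f i) ∈ P.cross ∧ (f i, e i) ∈ P.cross ∧ e i ≠ f i := fun i =>
    cross_symm (hef i).1 (hef i).2
  -- the only pair with an edge of `GT`
  have huniq : ∀ a b, (tstrip 1 true τ).Ind a b → P.X a b = 1 → GT τ a ∨ GT τ b →
      (a, b) = (le 1 true τ m x, y) ∨ (a, b) = (y, le 1 true τ m x) := by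
    intro a b hI hX hab
    by_contra hne
    rw [not_or] at hne
    have c1 := cross_symm hI hX
    have := count [(a, b), (le 1 true τ m x, y), (e 0, f 0), (e 1, f 1), (e 2, f 2), (e 3, f 3)]
      P.cross (by
        intro p hp
        simp only [List.mem_cons, List.not_mem_nil, or_false] at hp
        rcases hp with rfl | rfl | rfl | rfl | rfl | rfl
        · exact c1
        · exact c0
        · exact cf 0
        · exact cf 1
        · exact cf 2
        · exact cf 3) (by
        have k1 : ∀ i, (a, b) ≠ (e i, f i) ∧ (a, b) ≠ (e i, f i).swap := by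
          intro i
          refine ⟨fun h => ?_, fun h => ?_⟩
          · rw [Prod.mk.injEq] at h
            rcases hab with hab | hab
            · exact (hGT i).1 (h.1 ▸ hab)
            · exact (hGT i).2 (h.2 ▸ hab)
          · rw [Prod.swap_prod_mk, Prod.mk.injEq] at h
            rcases hab with hab | hab
            · exact (hGT i).2 (h.1 ▸ hab)
            · exact (hGT i).1 (h.2 ▸ hab)
        have k2 : ∀ i, (le 1 true τ m x, y) ≠ (e i, f i) ∧
            (le 1 true τ m x, y) ≠ (e i, f i).swap := by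
          intro i
          refine ⟨fun h => ?_, fun h => ?_⟩
          · rw [Prod.mk.injEq] at h
            exact (hGT i).1 (h.1 ▸ hxGT)
          · rw [Prod.swap_prod_mk, Prod.mk.injEq] at h
            exact (hGT i).2 (h.1 ▸ hxGT)
        have k3 : ∀ i k, i ≠ k → (e i, f i) ≠ (e k, f k) ∧ (e i, f i) ≠ (e k, f k).swap :=
          fun i k h => hdiff i k h
        simp only [List.pairwise_cons, List.mem_cons, List.not_mem_nil, or_false, forall_eq_or_imp,
          forall_eq, false_imp_iff, implies_true, and_true, List.Pairwise.nil]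
        exact ⟨⟨⟨hne.1, hne.2⟩, k1 0, k1 1, k1 2, k1 3⟩, ⟨k2 0, k2 1, k2 2, k2 3⟩,
          ⟨k3 _ _ (by decide), k3 _ _ (by decide), k3 _ _ (by decide)⟩,
          ⟨k3 _ _ (by decide), k3 _ _ (by decide)⟩, k3 _ _ (by decide)⟩)
    simp only [List.length_cons, List.length_nil] at this
    omega
  have hmemB : ∀ a b, (tstrip 1 true τ).Ind a b → P.X a b = 1 → ByT 1 true τ a ∨ ByT 1 true τ b →
      (a, b) ∈ P.cross.filter (fun p => ByT 1 true τ p.1 ∨ ByT 1 true τ p.2) ∧
      (a, b).swap ∈ P.cross.filter (fun p => ByT 1 true τ p.1 ∨ ByT 1 true τ p.2) ∧ a ≠ b := by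
    intro a b hI hX hab
    obtain ⟨k1, k2, k3⟩ := cross_symm hI hX
    exact ⟨Finset.mem_filter.2 ⟨k1, hab⟩, Finset.mem_filter.2 ⟨k2, hab.symm⟩, k3⟩
  have hmemN : ∀ a b, (tstrip 1 true τ).Ind a b → P.X a b = 1 → ¬ ByT 1 true τ a →
      ¬ ByT 1 true τ b →
      (a, b) ∈ P.cross.filter (fun p => ¬ ByT 1 true τ p.1 ∧ ¬ ByT 1 true τ p.2) ∧
      (a, b).swap ∈ P.cross.filter (fun p => ¬ ByT 1 true τ p.1 ∧ ¬ ByT 1 true τ p.2) ∧
      a ≠ b := by
    intro a b hI hX ha hb
    obtain ⟨k1, k2, k3⟩ := cross_symm hI hX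
    exact ⟨Finset.mem_filter.2 ⟨k1, ha, hb⟩, Finset.mem_filter.2 ⟨k2, hb, ha⟩, k3⟩
  have hxe : ∀ i, (le 1 true τ m x, y) ≠ (e i, f i) ∧
      (le 1 true τ m x, y) ≠ (e i, f i).swap := by
    intro i
    refine ⟨fun h => ?_, fun h => ?_⟩
    · rw [Prod.mk.injEq] at h
      exact (hGT i).1 (h.1 ▸ hxGT)
    · rw [Prod.swap_prod_mk, Prod.mk.injEq] at h
      exact (hGT i).2 (h.1 ▸ hxGT)
  have k3 : ∀ i k, i ≠ k → (e i, f i) ≠ (e k, f k) ∧ (e i, f i) ≠ (e k, f k).swap :=
    fun i k h => hdiff i k h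
  -- (3)
  have hyBy : ¬ ByT 1 true τ y := by
    intro hy
    have := count [(le 1 true τ m x, y), (e 0, f 0), (e 1, f 1), (e 2, f 2)]
      (P.cross.filter (fun p => ByT 1 true τ p.1 ∨ ByT 1 true τ p.2)) (by
        intro p hp
        simp only [List.mem_cons, List.not_mem_nil, or_false] at hp
        rcases hp with rfl | rfl | rfl | rfl
        · exact hmemB _ _ hIy hXy (Or.inr hy)
        · exact hmemB _ _ (hef 0).1 (hef 0).2 (hBy 0 (by decide))
        · exact hmemB _ _ (hef 1).1 (hef 1).2 (hBy 1 (by decide))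
        · exact hmemB _ _ (hef 2).1 (hef 2).2 (hBy 2 (by decide))) (by
        simp only [List.pairwise_cons, List.mem_cons, List.not_mem_nil, or_false, forall_eq_or_imp,
          forall_eq, false_imp_iff, implies_true, and_true, List.Pairwise.nil]
        exact ⟨⟨hxe 0, hxe 1, hxe 2⟩, ⟨k3 _ _ (by decide), k3 _ _ (by decide)⟩,
          k3 _ _ (by decide)⟩)
    simp only [List.length_cons, List.length_nil] at this
    omega
  have hyF : ¬ FT1 τ y := by
    intro hy
    have h1 := hfree y hy _ hIy.symm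
    rw [← P.X_symm _ _ hIy, hXy] at h1
    exact absurd h1 (by decide)
  -- a second crossing pair of two disjoint cycles
  have hcyc : ∀ Z1 Z2 : Finset (tstrip 1 true τ).E, (tstrip 1 true τ).bd Z1 = 0 →
      (tstrip 1 true τ).bd Z2 = 0 → le 1 true τ m x ∈ Z1 → y ∈ Z2 →
      (∀ a ∈ Z1, ∀ b ∈ Z2, (tstrip 1 true τ).Ind a b) →
      ∃ a ∈ Z1, ∃ b ∈ Z2, P.X a b = 1 ∧ (a, b) ≠ (le 1 true τ m x, y) := by
    intro Z1 Z2 hb1 hb2 hx1 hy2 _
    by_contra hno
    push Not at hno
    have h0 := P.XX_cycle Z1 Z2 hb1 hb2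
    unfold PS.XX at h0
    rw [← Finset.sum_product'] at h0
    rw [Finset.sum_eq_single_of_mem (le 1 true τ m x, y) (Finset.mem_product.2 ⟨hx1, hy2⟩)] at h0
    · rw [hXy] at h0
      exact absurd h0 (by decide)
    · intro p hp hne
      by_contra h1
      exact hne (hno p.1 (Finset.mem_product.1 hp).1 p.2 (Finset.mem_product.1 hp).2
        (one_of_ne h1))
  by_cases hreg : ∀ g, y ≠ le 1 true τ m g
  · -- (4a)
    obtain ⟨Z, hyZ, hbZ, hI⟩ := local_cycle hN hG hadj m hW y hreg hyBy hyF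
    obtain ⟨a, ha, b, hb, hX, hne⟩ := hcyc ((RT.Y (τ m)).image (le 1 true τ m)) Z
      (Y_cycle hN5 τ m) hbZ (Finset.mem_image_of_mem _ (l2_Y _ _ _ hx)) hyZ (by
        intro a ha b hb
        obtain ⟨a', ha', rfl⟩ := Finset.mem_image.1 ha
        exact hI a' ha' b hb)
    obtain ⟨a', ha', rfl⟩ := Finset.mem_image.1 ha
    have hIab := hI a' ha' b hb
    rcases Y_cases (τ m) a' ha' with h | ⟨s', h⟩
    · have := hfree _ ⟨m, a', h, rfl⟩ b hIab
      rw [hX] at this
      exact absurd this (by decide)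
    · rcases huniq _ _ hIab hX (Or.inl ⟨m, s', a', l2_r6 _ _ _ h, rfl⟩) with h1 | h1
      · exact hne h1
      · exact hreg a' (Prod.ext_iff.1 h1).1.symm
  · -- (4b)
    push Not at hreg
    obtain ⟨g, rfl⟩ := hreg
    have hgp : RT.part 1 (τ m) g ≠ some s := by
      rcases hpy g rfl with h | h
      · rw [hxpart] at h; exact absurd h (by simp)
      · rwa [hxpart] at h
    have hg : g ∈ RT.r4 (!s) (τ m) ∪ RT.r6 (!s) (τ m) :=
      part_cases (τ m) hW (!s) g (by rwa [Bool.not_not]) hyBy (fun h => hyF ⟨m, g, h, rfl⟩)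
    obtain ⟨a, ha, b, hb, hX, hne⟩ := hcyc ((RT.r4 s (τ m) ∪ RT.r6 s (τ m)).image (le 1 true τ m))
      ((RT.r4 (!s) (τ m) ∪ RT.r6 (!s) (τ m)).image (le 1 true τ m))
      (r46_cycle hN5 τ m s) (r46_cycle hN5 τ m (!s))
      (Finset.mem_image_of_mem _ (Finset.mem_union_right _ hxr6))
      (Finset.mem_image_of_mem _ hg) (by
        intro a ha b hb
        obtain ⟨a', ha', rfl⟩ := Finset.mem_image.1 ha
        obtain ⟨b', hb', rfl⟩ := Finset.mem_image.1 hb
        exact le_ind hN5 τ m s a' b' ha' hb')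
    obtain ⟨a', ha', rfl⟩ := Finset.mem_image.1 ha
    obtain ⟨b', hb', rfl⟩ := Finset.mem_image.1 hb
    have hIab := le_ind hN5 τ m s a' b' ha' hb'
    have hpart : ∀ (u : Bool) (z : ((τ m).loc 1).E), z ∈ RT.r4 u (τ m) ∪ RT.r6 u (τ m) →
        RT.part 1 (τ m) z = some u ∧ ¬ RT.isB1 1 (τ m) z := by
      intro u z hz
      rcases Finset.mem_union.1 hz with h | h
      · exact r4_part _ _ _ h
      · exact r6_part _ _ _ h
    have hss : s ≠ !s := by cases s <;> decide
    have hga : (le 1 true τ m a', le 1 true τ m b') ≠ (le 1 true τ m g, le 1 true τ m x) := by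
      intro h
      have h1 := le_inj τ m (Prod.ext_iff.1 h).1
      have h2 := (hpart s a' ha').1
      rw [h1, (hpart _ g hg).1] at h2
      exact hss (Option.some.inj h2).symm
    have ha4 : a' ∈ RT.r4 s (τ m) := by
      rcases Finset.mem_union.1 ha' with h | h
      · exact h
      · exfalso
        rcases huniq _ _ hIab hX (Or.inl ⟨m, s, a', h, rfl⟩) with h1 | h1
        · exact hne h1
        · exact hga h1
    have hb4 : b' ∈ RT.r4 (!s) (τ m) := by
      rcases Finset.mem_union.1 hb' with h | h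
      · exact h
      · exfalso
        rcases huniq _ _ hIab hX (Or.inr ⟨m, !s, b', h, rfl⟩) with h1 | h1
        · exact hne h1
        · exact hga h1
    obtain ⟨e2, f2, hI2, hX2, hBe, hBf, hr4, hr6⟩ := opt_pair hG W m hW (!s)
    rw [Bool.not_not] at hr6
    have hxx := hr6 x hxr6
    have hbb := hr4 b' hb4
    have := count [(le 1 true τ m x, le 1 true τ m g), (le 1 true τ m a', le 1 true τ m b'), (e2, f2)]
      (P.cross.filter (fun p => ¬ ByT 1 true τ p.1 ∧ ¬ ByT 1 true τ p.2)) (by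
        intro p hp
        simp only [List.mem_cons, List.not_mem_nil, or_false] at hp
        rcases hp with rfl | rfl | rfl
        · exact hmemN _ _ hIy hXy hxBy hyBy
        · exact hmemN _ _ hIab hX (hpart _ _ ha').2 (hpart _ _ hb').2
        · exact hmemN _ _ hI2 hX2 hBe hBf) (by
        simp only [List.pairwise_cons, List.mem_cons, List.not_mem_nil, or_false, forall_eq_or_imp,
          forall_eq, false_imp_iff, implies_true, and_true, List.Pairwise.nil]
        refine ⟨⟨⟨fun h => hne h.symm, fun h => ?_⟩, ⟨fun h => ?_, fun h => ?_⟩⟩,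
          ⟨fun h => ?_, fun h => ?_⟩⟩
        · rw [Prod.swap_prod_mk, Prod.mk.injEq] at h
          have h1 := le_inj τ m h.1
          rw [← h1] at hb4
          exact r4_r6 _ _ _ _ hb4 hxr6
        · rw [Prod.mk.injEq] at h
          exact hxx.1 h.1.symm
        · rw [Prod.swap_prod_mk, Prod.mk.injEq] at h
          exact hxx.2 h.1.symm
        · rw [Prod.mk.injEq] at h
          exact hbb.2 h.2.symm
        · rw [Prod.swap_prod_mk, Prod.mk.injEq] at h
          exact hbb.1 h.2.symm)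
    have := count [(e 0, f 0), (e 1, f 1), (e 2, f 2)]
      (P.cross.filter (fun p => ByT 1 true τ p.1 ∨ ByT 1 true τ p.2)) (by
        intro p hp
        simp only [List.mem_cons, List.not_mem_nil, or_false] at hp
        rcases hp with rfl | rfl | rfl
        · exact hmemB _ _ (hef 0).1 (hef 0).2 (hBy 0 (by decide))
        · exact hmemB _ _ (hef 1).1 (hef 1).2 (hBy 1 (by decide))
        · exact hmemB _ _ (hef 2).1 (hef 2).2 (hBy 2 (by decide))) (by
        simp only [List.pairwise_cons, List.mem_cons, List.not_mem_nil, or_false, forall_eq_or_imp,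
          forall_eq, false_imp_iff, implies_true, and_true, List.Pairwise.nil]
        exact ⟨⟨k3 _ _ (by decide), k3 _ _ (by decide)⟩, k3 _ _ (by decide)⟩)
    simp only [List.length_cons, List.length_nil] at *
    omega

end Pool.Agent.CC
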