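import Pool.Agent.Lib_helper74.CCF.WB
import Pool.Agent.Lib_helper74.CCF.LBTG

/-! WIND (helper67): the lower bound for the strips of type `W`, all levels. -/

set_option autoImplicit false

namespace Pool.Agent.CC

open Gph

namespace WIND67

/-- a crossing pair outside a set of crossing pairs adds two -/
theorem cross_add_two {G : Gph} (P : G.PS) {e f : G.E} (hI : G.Ind e f) (hX : P.X e f = 1)
    (S : Finset (G.E × G.E)) (hS : S ⊆ P.cross) (h1 : (e, f) ∉ S) (h2 : (f, e) ∉ S) :
    S.card + 2 ≤ P.cross.card := by
  have hef : e ≠ f := fun h => hI.1 (by rw [h])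
  have hd : Disjoint S {(e, f), (f, e)} := by
    rw [Finset.disjoint_right]
    intro p hp
    rcases Finset.mem_insert.1 hp with rfl | hp
    · exact h1
    · rw [Finset.mem_singleton.1 hp]; exact h2
  have hsub : S ∪ {(e, f), (f, e)} ⊆ P.cross := by
    intro p hp
    rcases Finset.mem_union.1 hp with hp | hp
    · exact hS hp
    · rcases Finset.mem_insert.1 hp with rfl | hp
      · exact PS.mem_cross.2 ⟨hI, hX⟩
      · rw [Finset.mem_singleton.1 hp]
        exact PS.mem_cross.2 ⟨hI.symm, by rw [← P.X_symm e f hI]; exact hX⟩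
  have := Finset.card_le_card hsub
  rw [Finset.card_union_of_disjoint hd, Finset.card_pair] at this
  · exact this
  · intro h
    exact hef (congrArg Prod.fst h)

/-- crossing pairs in the image of an embedding which avoids `e`, and one pair with `e` -/
theorem count_add_two {H G : Gph} (φ : TEmb H G) (P : G.PS) {K : ℕ} (h : H.LB K) {e f : G.E}
    (hI : G.Ind e f) (hX : P.X e f = 1) (hφ : ∀ g, e ∉ φ.c g) : 2 * K + 2 ≤ P.cross.card := by
  refine (Nat.add_le_add_right (φ.count P h) 2).trans
    (cross_add_two P hI hX _ (Finset.filter_subset _ _) ?_ ?_)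
  · intro hm
    obtain ⟨-, a, b, -, h1, -⟩ := Finset.mem_filter.1 hm
    exact hφ a h1
  · intro hm
    obtain ⟨-, a, b, -, -, h1⟩ := Finset.mem_filter.1 hm
    exact hφ b h1

/-- free, if an embedding of a graph with many crossing pairs avoids the edge -/
theorem free_of_emb {H G : Gph} (φ : TEmb H G) (P : G.PS) {K : ℕ} (h : H.LB K) {e : G.E}
    (hφ : ∀ g, e ∉ φ.c g) (hc : P.cross.card < 2 * K + 2) : Free P e := by
  intro f hI
  by_contra hX0
  have hX1 : P.X e f = 1 := by
    have : ∀ z : ZMod 2, z ≠ 0 → z = 1 := by decide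
    exact this _ hX0
  have := count_add_two φ P h hI hX1 hφ
  omega

/-- the lower bound for the rotated strip -/
theorem rot_LB {M : ℕ} (q : ℕ) (c : Bool) (X : RT) (s : ZMod (2 * M + 1)) {K : ℕ}
    (h : (tstrip (N := 2 * M + 1) q c (altType M X)).LB K) :
    (tstrip (N := 2 * M + 1) q c (fun j => altType M X (j + s))).LB K := by
  obtain ⟨φ, -⟩ := exists_rot q c (fun j => altType M X (j + s)) (-s)
  have he : (fun j => (fun j => altType M X (j + s)) (j + -s)) = altType M X := by
    funext j
    dsimp only
    rw [neg_add_cancel_right]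
  rw [he] at φ
  exact LB.of_emb φ h

theorem alt_ne_G {M : ℕ} (s j : ZMod (2 * M + 1)) : altType M .W (j + s) ≠ .G := by
  unfold altType
  split_ifs
  · exact fun h => RT.noConfusion h
  · exact fun h => RT.noConfusion h

theorem alt_swapG {M : ℕ} (j : ZMod (2 * M + 1)) : (altType M .W j).swapG = altType M .G j := by
  unfold altType
  split_ifs
  · rfl
  · rfl

theorem alt_adj {M : ℕ} (hM : 1 ≤ M) (j : ZMod (2 * M + 1)) (hj : altType M .W j = .W) :
    altType M .W (j + 1) = .T ∧ altType M .W (j - 1) = .T := by
  have h1 : j.val % 2 = 1 := by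
    by_contra h
    have h2 : j.val % 2 = 0 := by omega
    unfold altType at hj
    rw [if_pos h2] at hj
    exact RT.noConfusion hj
  have hlt := ZMod.val_lt j
  have hone : (1 : ZMod (2 * M + 1)).val = 1 := ZMod.val_one'' (by omega)
  have h3 : (j + 1).val = j.val + 1 := by
    rw [ZMod.val_add_of_lt (by rw [hone]; omega), hone]
  have h4 : (j - 1).val = j.val - 1 := by
    rw [ZMod.val_sub (by rw [hone]; omega), hone]
  constructor
  · unfold altType
    rw [if_pos (by rw [h3]; omega)]
  · unfold altType
    rw [if_pos (by rw [h4]; omega)]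

variable {N : ℕ} [NeZero N]

/-- a leg needed in `core_LB` is avoided by one of the two embeddings -/
theorem fleg_cases (q : ℕ) : ∀ (t : RT), t ≠ .G → ∀ e : (t.loc (q + 1)).E,
    RT.fleg (q + 1) t e → RT.gfree (q + 1) t e ∨ RT.wend (q + 1) t e
  | .T, _, _, h => .inl h
  | .G, h, _, _ => absurd rfl h
  | .W, _, e, h => by
    obtain ⟨k, hk, h1 | h1 | h1⟩ := h
    · exact .inl (.inr ⟨k, hk, .inl h1⟩)
    · exact .inr ⟨k, hk, .inl h1⟩
    · exact .inr ⟨k, hk, .inr h1⟩

/-- no edge is a row edge and of bypass type -/
theorem row_not_by (q : ℕ) (c : Bool) (τ : ZMod N → RT) (e : (tstrip q c τ).E)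
    (h : RowT q c τ e) : ¬ ByT q c τ e := by
  rcases e with ⟨j, e⟩ | j | j
  · have key : ∀ t : RT, ∀ e : (t.loc q).E, RT.isRow q t e → ¬ RT.isB1 q t e := by
      intro t e h h'
      cases t with
      | T => exact h'
      | G => exact h'
      | W =>
        have h2 : (e : Bool × WE (q - 1)).2 = .b1 := h'
        rcases h with h | ⟨i, h⟩
        · rw [h2] at h; exact nomatch h
        · rw [h2] at h; exact nomatch h
    exact key (τ j) e h
  · exact id
  · exact fun _ => h

/-- WIND. All levels. -/
theorem LB_W (q M : ℕ) (hM : 12 * (q + 12) ≤ M) :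
    (tstrip (N := 2 * M + 1) (q + 1) true (altType M .W)).LB (q + 6) := by
  classical
  induction q with
  | zero =>
    intro P
    by_contra hlt
    push Not at hlt
    obtain ⟨s, P', hP', W⟩ := exists_window 1 M 6 true .W (by omega) P (by omega)
    have hsw : (fun j : ZMod (2 * M + 1) => (altType M .W (j + s)).swapG) =
        fun j => altType M .G (j + s) := by
      funext j
      exact alt_swapG _
    have h5 : (tstrip (N := 2 * M + 1) 0 true (fun j => (altType M .W (j + s)).swapG)).LB 5 := by
      rw [hsw]
      exact rot_LB 0 true .G s (F1_lb' 0 M (by omega))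
    have h2 : (tstrip (N := 2 * M + 1) 0 false (fun j => (altType M .W (j + s)).swapG)).LB 2 := by
      rw [hsw]
      exact rot_LB 0 false .G s (F0_lb' 0 M (by omega))
    have h12 := W_base (by omega) (fun j => alt_ne_G s j)
      (fun j hj => by
        obtain ⟨h1, h2⟩ := alt_adj (by omega) (j + s) hj
        rw [show j + s + 1 = j + 1 + s by ring] at h1
        rw [show j + s - 1 = j - 1 + s by ring] at h2
        exact ⟨h1, h2⟩) W h5 h2
    omega
  | succ q ih =>
    have ih := ih (by omega)
    intro P
    by_contra hlt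
    push Not at hlt
    obtain ⟨s, P', hP', W⟩ := exists_window (q + 2) M (q + 7) true .W (by omega) P (by omega)
    have hlt' : P'.cross.card < 2 * (q + 6) + 2 := by omega
    have hsw : (fun j : ZMod (2 * M + 1) => (altType M .W (j + s)).swapG) =
        fun j => altType M .G (j + s) := by
      funext j
      exact alt_swapG _
    have hGL : (tstrip (N := 2 * M + 1) (q + 1) true
        (fun j => (altType M .W (j + s)).swapG)).LB (q + 6) := by
      rw [hsw]
      exact rot_LB (q + 1) true .G s (F1_lb' (q + 1) M (by omega))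
    have hWL := rot_LB (q + 1) true .W s ih
    have hl : LegFree (q + 2) true (fun j => altType M .W (j + s)) P' := by
      intro j e he
      rcases fleg_cases (q + 1) _ (alt_ne_G s j) e he with h | h
      · obtain ⟨φ, hφ⟩ := exists_emb_GW (by omega) (q + 1) (fun j => altType M .W (j + s))
          (fun j => alt_ne_G s j) j e h
        exact free_of_emb φ P' hGL hφ hlt'
      · obtain ⟨φ, hφ⟩ := exists_emb_WW (by omega) (q + 1) (by omega)
          (fun j => altType M .W (j + s)) (fun j => alt_ne_G s j) j e h
        exact free_of_emb φ P' hWL hφ hlt'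
    have h1 := core_LB W (fun _ => by omega) hl (fun _ => Classical.propDecidable _)
    have h2 := plus3 W (fun _ => by omega) (fun _ => Classical.propDecidable _)
    have hd : Disjoint
        (P'.cross.filter (fun p => RowT (q + 2) true (fun j => altType M .W (j + s)) p.1 ∧
          RowT (q + 2) true (fun j => altType M .W (j + s)) p.2))
        (P'.cross.filter (fun p => ByT (q + 2) true (fun j => altType M .W (j + s)) p.1 ∨
          ByT (q + 2) true (fun j => altType M .W (j + s)) p.2)) := by
      rw [Finset.disjoint_left]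
      intro p hp hp'
      obtain ⟨-, hr1, hr2⟩ := Finset.mem_filter.1 hp
      obtain ⟨-, hp'⟩ := Finset.mem_filter.1 hp'
      rcases hp' with hp' | hp'
      · exact row_not_by _ _ _ _ hr1 hp'
      · exact row_not_by _ _ _ _ hr2 hp'
    have h3 := Finset.card_le_card (Finset.union_subset
      (Finset.filter_subset (fun p => RowT (q + 2) true (fun j => altType M .W (j + s)) p.1 ∧
          RowT (q + 2) true (fun j => altType M .W (j + s)) p.2) P'.cross)
      (Finset.filter_subset (fun p => ByT (q + 2) true (fun j => altType M .W (j + s)) p.1 ∨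
          ByT (q + 2) true (fun j => altType M .W (j + s)) p.2) P'.cross))
    rw [Finset.card_union_of_disjoint hd] at h3
    omega

end WIND67

end Pool.Agent.CC

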