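import Pool.Agent.Lib_helper74.CCF.Z1

/-! Surgery (insertion of a bend), integer positions, rotation of the spine. -/

namespace Pool.Agent.CC
namespace Gph

theorem Interl_comm {α : Type} [LinearOrder α] (x y z w : α) :
    Interl z w x y ↔ Interl x y z w := by
  simp only [Interl]; exact or_comm

theorem not_Interl_self {α : Type} [LinearOrder α] (x y : α) : ¬ Interl x y x y := by
  simp [Interl]

theorem Interl_of_map {α β : Type} [LinearOrder α] [LinearOrder β] (f : α → β) (A : Set α)
    (h : ∀ x ∈ A, ∀ y ∈ A, x < y → f x < f y) {x y z w : α}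
    (hx : x ∈ A) (hy : y ∈ A) (hz : z ∈ A) (hw : w ∈ A)
    (hI : Interl (f x) (f y) (f z) (f w)) : Interl x y z w := by
  have mono : ∀ x ∈ A, ∀ y ∈ A, x ≤ y → f x ≤ f y := by
    intro x hx y hy hxy
    rcases hxy.eq_or_lt with h1 | h1
    · rw [h1]
    · exact (h x hx y hy h1).le
  have anti : ∀ x ∈ A, ∀ y ∈ A, f x < f y → x < y := by
    intro x hx y hy hxy
    by_contra hc
    exact absurd (mono y hy x hx (not_lt.1 hc)) (not_le.2 hxy)
  have hmin : ∀ x ∈ A, ∀ y ∈ A, min (f x) (f y) = f (min x y) ∧ max (f x) (f y) = f (max x y) ∧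
      min x y ∈ A ∧ max x y ∈ A := by
    intro x hx y hy
    rcases le_total x y with h1 | h1
    · rw [min_eq_left h1, max_eq_right h1, min_eq_left (mono x hx y hy h1),
        max_eq_right (mono x hx y hy h1)]
      exact ⟨rfl, rfl, hx, hy⟩
    · rw [min_eq_right h1, max_eq_left h1, min_eq_right (mono y hy x hx h1),
        max_eq_left (mono y hy x hx h1)]
      exact ⟨rfl, rfl, hy, hx⟩
  obtain ⟨a1, a2, a3, a4⟩ := hmin x hx y hy
  obtain ⟨b1, b2, b3, b4⟩ := hmin z hz w hw
  simp only [Interl, a1, a2, b1, b2] at hI ⊢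
  rcases hI with ⟨c1, c2, c3⟩ | ⟨c1, c2, c3⟩
  · exact Or.inl ⟨anti _ a3 _ b3 c1, anti _ b3 _ a4 c2, anti _ a4 _ b4 c3⟩
  · exact Or.inr ⟨anti _ b3 _ a3 c1, anti _ a3 _ b4 c2, anti _ b4 _ a4 c3⟩

namespace Spine
variable {G : Gph} {α : Type} [LinearOrder α]

theorem surg (S : Spine G α) (e : G.E) (l : List (Bool × α)) (s : Bool) (z : α)
    (hr : S.route e = l ++ [(s, z)]) (w : α) (hw : w ∉ S.U)
    (h1 : ∀ f, ∀ q ∈ arcsOf (S.pos (G.a f)) (S.route f), q.1 = s →
      ¬ Interl (lastPos (S.pos (G.a e)) l) w q.2.1 q.2.2)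
    (h2 : ∀ f, ∀ q ∈ arcsOf (S.pos (G.a f)) (S.route f), q.1 = !s →
      ¬ Interl w z q.2.1 q.2.2) :
    ∃ S' : Spine G α, S'.pos = S.pos ∧ (∀ f, f ≠ e → S'.route f = S.route f) ∧
      S'.route e = l ++ [(s, w), (!s, z)] ∧ S.Pres S' ∧ (∀ x ∈ S'.U, x ∈ S.U ∨ x = w) := by
  classical
  set t := lastPos (S.pos (G.a e)) l with ht
  set R : G.E → List (Bool × α) := Function.update S.route e (l ++ [(s, w), (!s, z)]) with hR
  have Re : R e = l ++ [(s, w), (!s, z)] := by rw [hR]; simp
  have Rf : ∀ f, f ≠ e → R f = S.route f := by intro f hf; rw [hR]; simp [hf]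
  have hz : z = S.pos (G.b e) := by
    have := S.last' e (S.pos (G.a e))
    rw [hr, lastPos_snoc] at this
    exact this
  have ae : arcsOf (S.pos (G.a e)) (S.route e) = arcsOf (S.pos (G.a e)) l ++ [(s, t, z)] := by
    rw [hr, arcsOf_snoc]
  have ae' : arcsOf (S.pos (G.a e)) (R e) =
      arcsOf (S.pos (G.a e)) l ++ [(s, t, w), (!s, w, z)] := by
    rw [Re, arcsOf_append]; rfl
  have K : ∀ f p, p ∈ arcsOf (S.pos (G.a f)) (R f) →
      p ∈ arcsOf (S.pos (G.a f)) (S.route f) ∨ (f = e ∧ (p = (s, t, w) ∨ p = (!s, w, z))) := by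
    intro f p hp
    by_cases hf : f = e
    · subst hf
      rw [ae'] at hp
      rw [ae]
      simp only [List.mem_append, List.mem_cons, List.not_mem_nil, or_false] at hp ⊢
      tauto
    · rw [Rf f hf] at hp
      exact Or.inl hp
  have be : S.bends e = l.map Prod.snd := by
    unfold bends; rw [hr]; simp
  have be' : ((R e).map Prod.snd).dropLast = l.map Prod.snd ++ [w] := by
    rw [Re]
    have : (l ++ [(s, w), (!s, z)]).map Prod.snd = (l.map Prod.snd ++ [w]) ++ [z] := by simp
    rw [this, List.dropLast_concat]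
  have Kb : ∀ f x, x ∈ ((R f).map Prod.snd).dropLast → x ∈ S.bends f ∨ (f = e ∧ x = w) := by
    intro f x hx
    by_cases hf : f = e
    · subst hf
      rw [be'] at hx
      rw [be]
      simp only [List.mem_append, List.mem_cons, List.not_mem_nil, or_false] at hx
      tauto
    · rw [Rf f hf] at hx
      exact Or.inl hx
  have Kb' : ∀ f x, x ∈ S.bends f → x ∈ ((R f).map Prod.snd).dropLast := by
    intro f x hx
    by_cases hf : f = e
    · subst hf
      rw [be', List.mem_append]
      rw [be] at hx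
      exact Or.inl hx
    · rw [Rf f hf]
      exact hx
  have wU : ∀ f x, x ∈ S.bends f → x ≠ w := fun f x hx h => hw (h ▸ S.bends_U f hx)
  have hne : s ≠ !s := by cases s <;> simp
  have new_old : ∀ p, (p = (s, t, w) ∨ p = (!s, w, z)) → ∀ f,
      ∀ q ∈ arcsOf (S.pos (G.a f)) (S.route f), p.1 = q.1 → ¬ Interl p.2.1 p.2.2 q.2.1 q.2.2 := by
    intro p hp f q hq hpq
    rcases hp with rfl | rfl
    · exact h1 f q hq hpq.symm
    · exact h2 f q hq hpq.symm
  refine ⟨{ pos := S.pos
            pos_inj := S.pos_inj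
            route := R
            ne_nil := ?_
            last := ?_
            nodup := ?_
            bend_ne := ?_
            planar := ?_
            distinct := ?_
            no_three := ?_ }, rfl, Rf, Re, ⟨?_, ?_⟩, ?_⟩
  · intro f
    by_cases hf : f = e
    · subst hf; rw [Re]; simp
    · rw [Rf f hf]; exact S.ne_nil f
  · intro f
    by_cases hf : f = e
    · subst hf; rw [Re, ← hz]; simp
    · rw [Rf f hf]; exact S.last f
  · intro f
    by_cases hf : f = e
    · subst hf
      have h3 := S.nodup f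
      rw [hr] at h3
      rw [Re]
      have h4 : S.pos (G.a f) :: (l ++ [(s, w), (!s, z)]).map Prod.snd =
          (S.pos (G.a f) :: l.map Prod.snd) ++ [w, z] := by simp
      have h5 : S.pos (G.a f) :: (l ++ [(s, z)]).map Prod.snd =
          (S.pos (G.a f) :: l.map Prod.snd) ++ [z] := by simp
      rw [h5, List.nodup_append] at h3
      rw [h4, List.nodup_append]
      refine ⟨h3.1, ?_, ?_⟩
      · have : w ≠ z := fun h => hw (by rw [h, hz]; exact S.pos_U _)
        simp [this]
      · intro x hx y hy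
        simp only [List.mem_cons, List.not_mem_nil, or_false] at hy
        rcases hy with rfl | rfl
        · intro h
          apply hw
          rw [← h]
          rcases List.mem_cons.1 hx with h6 | h6
          · rw [h6]; exact S.pos_U _
          · refine S.route_U f ?_
            rw [hr]; simp only [List.map_append, List.mem_append]; exact Or.inl h6
        · exact h3.2.2 x hx y (by simp)
    · rw [Rf f hf]; exact S.nodup f
  · intro f x hx v
    rcases Kb f x hx with h | ⟨_, h⟩
    · exact S.bend_ne f x h v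
    · rw [h]; intro h'; exact hw (h' ▸ S.pos_U v)
  · intro f g p hp q hq hpq
    rcases K f p hp with h3 | ⟨hf, h3⟩ <;> rcases K g q hq with h4 | ⟨hg, h4⟩
    · exact S.planar f g p h3 q h4 hpq
    · rw [← Interl_comm]
      exact new_old q h4 f p h3 hpq.symm
    · exact new_old p h3 g q h4 hpq
    · have : p = q := by
        rcases h3 with rfl | rfl <;> rcases h4 with rfl | rfl
        · rfl
        · exact absurd hpq hne
        · exact absurd hpq.symm hne
        · rfl
      rw [this]; exact not_Interl_self _ _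
  · intro f g hfg p hp q hq hpq hs
    have aux : ∀ p, (p = (s, t, w) ∨ p = (!s, w, z)) → ∀ f,
        ∀ q ∈ arcsOf (S.pos (G.a f)) (S.route f), s(p.2.1, p.2.2) ≠ s(q.2.1, q.2.2) := by
      intro p hp f q hq hs
      have hw' : w = q.2.1 ∨ w = q.2.2 := by
        rw [← Sym2.mem_iff, ← hs, Sym2.mem_iff]
        rcases hp with rfl | rfl <;> simp
      rcases hw' with h | h
      · exact hw (h ▸ (S.arc_U f hq).1)
      · exact hw (h ▸ (S.arc_U f hq).2)
    rcases K f p hp with h3 | ⟨hf, h3⟩ <;> rcases K g q hq with h4 | ⟨hg, h4⟩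
    · exact S.distinct f g hfg p h3 q h4 hpq hs
    · exact aux q h4 f p h3 hs.symm
    · exact aux p h3 g q h4 hs
    · exact hfg (hf.trans hg.symm)
  · intro f g h hfg hfh hgh x hx hx' hx''
    rcases Kb f x hx with h3 | ⟨h3, h3'⟩ <;> rcases Kb g x hx' with h4 | ⟨h4, h4'⟩ <;>
      rcases Kb h x hx'' with h5 | ⟨h5, h5'⟩
    · exact S.no_three f g h hfg hfh hgh x h3 h4 h5
    · exact wU f x h3 h5'
    · exact wU f x h3 h4'
    · exact wU f x h3 h4'
    · exact wU g x h4 h3'
    · exact wU g x h4 h3'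
    · exact wU h x h5 h3'
    · exact hfg (h3.trans h4.symm)
  · refine Finset.card_le_card ?_
    intro x hx
    rw [mem_crossings] at hx ⊢
    obtain ⟨f, g, h3, h4, h5⟩ := hx
    refine ⟨f, g, h3, ?_⟩
    rcases Kb f x h4 with h6 | ⟨h6, h6'⟩ <;> rcases Kb g x h5 with h7 | ⟨h7, h7'⟩
    · exact ⟨h6, h7⟩
    · exact absurd h7' (wU f x h6)
    · exact absurd h6' (wU g x h7)
    · exact absurd (h6.trans h7.symm) h3
  · intro f hf
    rw [crossed_iff] at hf ⊢
    obtain ⟨g, h3, x, h4, h5⟩ := hf
    exact ⟨g, h3, x, Kb' f x h4, Kb' g x h5⟩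
  · intro x hx
    rcases hx with ⟨v, rfl⟩ | ⟨f, h⟩
    · exact Or.inl (S.pos_U v)
    · change x ∈ (R f).map Prod.snd at h
      by_cases hf : f = e
      · subst hf
        rw [Re] at h
        simp only [List.map_append, List.map_cons, List.map_nil, List.mem_append, List.mem_cons,
          List.not_mem_nil, or_false] at h
        rcases h with h | h | h
        · left; refine S.route_U f ?_
          rw [hr]; simp only [List.map_append, List.mem_append]; exact Or.inl h
        · exact Or.inr h
        · left; rw [h, hz]; exact S.pos_U _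
      · rw [Rf f hf] at h
        exact Or.inl (S.route_U f h)

/-- Integer positions. -/
theorem exists_int (S : Spine G α) : ∃ S' : Spine G ℤ, S.Pres S' := by
  classical
  let A := S.U_finite.toFinset
  let f : α → ℤ := fun x => ((A.filter (· < x)).card : ℤ)
  have hlt : ∀ x ∈ S.U, ∀ y ∈ S.U, x < y → f x < f y := by
    intro x hx y hy hxy
    have : (A.filter (· < x)).card < (A.filter (· < y)).card := by
      refine Finset.card_lt_card ?_
      rw [Finset.ssubset_iff_of_subset]
      · refine ⟨x, ?_, ?_⟩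
        · simp [A, hx, hxy]
        · simp
      · intro z hz
        simp only [Finset.mem_filter] at hz ⊢
        exact ⟨hz.1, hz.2.trans hxy⟩
    exact Int.ofNat_lt.2 this
  have hinj : Set.InjOn f S.U := by
    intro x hx y hy h
    rcases lt_trichotomy x y with h1 | h1 | h1
    · exact absurd h (hlt x hx y hy h1).ne
    · exact h1
    · exact absurd h (hlt y hy x hx h1).ne'
  exact ⟨S.map f hinj (fun x hx y hy z hz w hw h => Interl_of_map f S.U hlt hx hy hz hw h),
    S.map_pres f hinj _⟩

/-- Rotation: `v` comes last, at the position `0`. -/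
theorem exists_last (S : Spine G α) (v : G.V) :
    ∃ S' : Spine G ℤ, S.Pres S' ∧ S'.pos v = 0 ∧ ∀ x ∈ S'.U, x ≤ 0 := by
  obtain ⟨S1, h1⟩ := S.exists_int
  obtain ⟨B, hB⟩ := (S1.U_finite.bddAbove)
  obtain ⟨B', hB'⟩ := (S1.U_finite.bddBelow)
  have hb : ∀ x ∈ S1.U, B' ≤ x ∧ x ≤ B := fun x hx => ⟨hB' hx, hB hx⟩
  set c := S1.pos v with hc
  have hcb := hb c (S1.pos_U v)
  obtain ⟨N, hN⟩ : ∃ N : ℤ, N = B - B' + 1 := ⟨_, rfl⟩
  let f : ℤ → ℤ := fun x => if c < x then x - c - N else x - c
  have hinj : Set.InjOn f S1.U := by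
    intro x hx y hy h
    have hx' := hb x hx
    have hy' := hb y hy
    simp only [f] at h
    split_ifs at h <;> omega
  have hI : ∀ x ∈ S1.U, ∀ y ∈ S1.U, ∀ z ∈ S1.U, ∀ w ∈ S1.U,
      Interl (f x) (f y) (f z) (f w) → Interl x y z w := by
    intro x hx y hy z hz w hw h
    have hx' := hb x hx
    have hy' := hb y hy
    have hz' := hb z hz
    have hw' := hb w hw
    simp only [f, Interl] at h ⊢
    split_ifs at h <;> omega
  refine ⟨S1.map f hinj hI, h1.trans (S1.map_pres f hinj hI), ?_, ?_⟩
  · change f (S1.pos v) = 0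
    simp [f, ← hc]
  · intro x hx
    obtain ⟨y, hy, rfl⟩ := S1.map_U f hinj hI hx
    have := hb y hy
    simp only [f]
    split_ifs <;> omega

end Spine
end Gph
end Pool.Agent.CC
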