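import Pool.Agent.Lib_helper74.CCF.Z2

/-! The three strands at a port: states and moves; all six orders are achieved. -/

namespace Pool.Agent.CC
namespace Gph
namespace Spine
variable {G : Gph}

/-- `v` is the last position `0`; the last arc of the `i`-th strand goes from `t i` to `0` on the
side `σ i`. -/
def St (S : Spine G ℤ) {v : G.V} (p : Port G v) (σ : Fin 3 → Bool) (t : Fin 3 → ℤ) : Prop :=
  S.pos v = 0 ∧ (∀ x ∈ S.U, x ≤ 0) ∧ ∃ ls : Fin 3 → List (Bool × ℤ),
    ∀ i, S.route (p.e i) = ls i ++ [(σ i, 0)] ∧ t i = lastPos (S.pos (G.a (p.e i))) (ls i)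

section
variable {S : Spine G ℤ} {v : G.V} {p : Port G v} {σ : Fin 3 → Bool} {t : Fin 3 → ℤ}

theorem St.arc_mem (h : St S p σ t) (i : Fin 3) :
    (σ i, t i, (0 : ℤ)) ∈ arcsOf (S.pos (G.a (p.e i))) (S.route (p.e i)) := by
  obtain ⟨h0, hU, ls, hl⟩ := h
  rw [(hl i).1, arcsOf_snoc, (hl i).2]
  simp

theorem St.tneg (h : St S p σ t) (i : Fin 3) : t i < 0 := by
  have h1 := h.arc_mem i
  obtain ⟨h0, hU, ls, hl⟩ := h
  have h2 := hU _ (S.arc_U _ h1).1
  have h3 : t i ≠ 0 := by
    have h4 := S.nodup (p.e i)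
    rw [(hl i).1] at h4
    have h5 : S.pos (G.a (p.e i)) :: (ls i ++ [(σ i, (0 : ℤ))]).map Prod.snd =
          (S.pos (G.a (p.e i)) :: (ls i).map Prod.snd) ++ [0] := by simp
    rw [h5, List.nodup_append] at h4
    rw [(hl i).2]
    exact h4.2.2 _ (lastPos_mem _ _) 0 (by simp)
  have h2' : t i ≤ 0 := h2
  omega

theorem St.arc_zero (h : St S p σ t) (f : G.E) (q : Bool × ℤ × ℤ)
    (hq : q ∈ arcsOf (S.pos (G.a f)) (S.route f)) (_hb : ∀ i, G.b (p.e i) = v)
    (h0 : q.2.1 = 0 ∨ q.2.2 = 0) : ∃ i, f = p.e i ∧ q = (σ i, t i, 0) := by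
  obtain ⟨hv, hU, ls, hl⟩ := h
  by_cases hf : G.a f = v ∨ G.b f = v
  · obtain ⟨i, rfl⟩ := p.all f hf
    refine ⟨i, rfl, ?_⟩
    rw [(hl i).1, arcsOf_snoc, List.mem_append] at hq
    rcases hq with hq | hq
    · exfalso
      have h4 := S.nodup (p.e i)
      rw [(hl i).1] at h4
      have h5 : S.pos (G.a (p.e i)) :: (ls i ++ [(σ i, (0 : ℤ))]).map Prod.snd =
            (S.pos (G.a (p.e i)) :: (ls i).map Prod.snd) ++ [0] := by simp
      rw [h5, List.nodup_append] at h4
      have h6 := Gph.arc_mem _ _ _ hq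
      rcases h0 with h0 | h0
      · exact h4.2.2 _ h6.1 0 (by simp) h0
      · exact h4.2.2 _ (List.mem_cons_of_mem _ h6.2) 0 (by simp) h0
    · simp only [List.mem_cons, List.not_mem_nil, or_false] at hq
      rw [hq, (hl i).2]
  · exfalso
    rw [not_or] at hf
    have key : ∀ x ∈ S.pos (G.a f) :: (S.route f).map Prod.snd, x ≠ 0 := by
      intro x hx
      rw [← hv]
      rcases List.mem_cons.1 hx with h1 | h1
      · rw [h1]; exact fun h => hf.1 (S.pos_inj h)
      · rw [S.posL_eq, List.mem_append] at h1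
        rcases h1 with h1 | h1
        · exact S.bend_ne f x h1 v
        · simp only [List.mem_cons, List.not_mem_nil, or_false] at h1
          rw [h1]; exact fun h => hf.2 (S.pos_inj h)
    have h6 := Gph.arc_mem _ _ _ hq
    rcases h0 with h0 | h0
    · exact key _ h6.1 h0
    · exact key _ (List.mem_cons_of_mem _ h6.2) h0

theorem St.dist (h : St S p σ t) {i j : Fin 3} (hij : i ≠ j) (hs : σ i = σ j) : t i ≠ t j := by
  intro ht
  have h1 := h.arc_mem i
  have h2 := h.arc_mem j
  refine S.distinct (p.e i) (p.e j) (fun h => hij (p.e_inj h)) _ h1 _ h2 hs ?_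
  simp only [ht]

theorem exists_St (S : Spine G ℤ) {v : G.V} (p : Port G v) (hb : ∀ i, G.b (p.e i) = v)
    (h0 : S.pos v = 0) (hU : ∀ x ∈ S.U, x ≤ 0) : ∃ σ t, St S p σ t := by
  have h1 : ∀ i, ∃ (s : Bool) (l : List (Bool × ℤ)), S.route (p.e i) = l ++ [(s, 0)] := by
    intro i
    have h2 := S.ne_nil (p.e i)
    have h3 := S.last' (p.e i) 0
    refine ⟨((S.route (p.e i)).getLast h2).1, (S.route (p.e i)).dropLast, ?_⟩
    have h4 := List.dropLast_append_getLast h2
    have h5 : ((S.route (p.e i)).getLast h2).2 = 0 := by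
      rcases hg : (S.route (p.e i)).getLast h2 with ⟨s, y⟩
      rw [← h4, hg, lastPos_snoc, hb i, h0] at h3
      exact h3
    conv_lhs => rw [← h4]
    congr 1
    rw [← h5]
  choose s l hl using h1
  exact ⟨s, fun i => lastPos (S.pos (G.a (p.e i))) (l i), h0, hU, l, fun i => ⟨hl i, rfl⟩⟩

theorem St.mirror (h : St S p σ t) : St S.mirror p (fun i => !σ i) t := by
  obtain ⟨h0, hU, ls, hl⟩ := h
  refine ⟨h0, ?_, fun i => (ls i).map (fun q => (!q.1, q.2)), ?_⟩
  · intro x hx
    apply hU
    rcases hx with ⟨v, rfl⟩ | ⟨f, hf⟩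
    · exact S.pos_U v
    · refine S.route_U f ?_
      simpa [Spine.mirror, List.map_map, Function.comp_def] using hf
  · intro i
    constructor
    · change (S.route (p.e i)).map (fun q => (!q.1, q.2)) = _
      rw [(hl i).1]; simp
    · rw [lastPos_mirror]; exact (hl i).2

theorem St.m1 (h : St S p σ t) (hb : ∀ i, G.b (p.e i) = v) (i0 : Fin 3) (hs : σ i0 = false)
    (hmax : ∀ j, σ j = false → t j ≤ t i0) :
    ∃ S' : Spine G ℤ, S.Pres S' ∧
      St S' p (Function.update σ i0 true) (fun j => if j = i0 then -1 else 2 * t j) := by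
  have hmem := h.arc_mem
  have hneg := h.tneg
  have hzero := h.arc_zero
  obtain ⟨h0, hU, ls, hl⟩ := h
  let f : ℤ → ℤ := fun x => 2 * x
  have hinj : Set.InjOn f S.U := by intro x _ y _ hxy; simp only [f] at hxy; omega
  have hI : ∀ x ∈ S.U, ∀ y ∈ S.U, ∀ z ∈ S.U, ∀ w ∈ S.U,
      Interl (f x) (f y) (f z) (f w) → Interl x y z w := by
    intro x _ y _ z _ w _ h
    simp only [f, Interl] at h ⊢; omega
  set S1 := S.map f hinj hI with hS1
  have harc : ∀ g, ∀ q ∈ arcsOf (S1.pos (G.a g)) (S1.route g),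
      ∃ q' ∈ arcsOf (S.pos (G.a g)) (S.route g), q = (q'.1, 2 * q'.2.1, 2 * q'.2.2) := by
    intro g q hq
    change q ∈ arcsOf (f (S.pos (G.a g))) ((S.route g).map (fun p => (p.1, f p.2))) at hq
    rw [arcsOf_map] at hq
    obtain ⟨q', hq', rfl⟩ := List.mem_map.1 hq
    exact ⟨q', hq', rfl⟩
  have hr : S1.route (p.e i0) = (ls i0).map (fun p => (p.1, f p.2)) ++ [(false, 0)] := by
    change (S.route (p.e i0)).map (fun p => (p.1, f p.2)) = _
    rw [(hl i0).1, hs]; simp [f]
  have hw : (-1 : ℤ) ∉ S1.U := by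
    intro hx
    obtain ⟨y, _, hy⟩ := S.map_U f hinj hI hx
    simp only [f] at hy; omega
  have hlp : lastPos (S1.pos (G.a (p.e i0))) ((ls i0).map (fun p => (p.1, f p.2))) = 2 * t i0 := by
    change lastPos (f (S.pos (G.a (p.e i0)))) _ = _
    rw [lastPos_map, (hl i0).2]
  have hpl : ∀ g, ∀ q ∈ arcsOf (S.pos (G.a g)) (S.route g), q.1 = false →
      ¬ Interl (t i0) 0 q.2.1 q.2.2 := by
    intro g q hq hq1
    exact S.planar (p.e i0) g _ (hmem i0) q hq (by rw [hs]; exact hq1.symm)
  obtain ⟨S', k1, k2, k3, k4, k5⟩ := S1.surg (p.e i0) _ false 0 hr (-1) hw (by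
    intro g q hq hq1
    rw [hlp]
    obtain ⟨q', hq', rfl⟩ := harc g q hq
    have a1 := hpl g q' hq' hq1
    have a2 := hU _ (S.arc_U g hq').1
    have a3 := hU _ (S.arc_U g hq').2
    have a4 := hneg i0
    have a5 : q'.2.1 = 0 ∨ q'.2.2 = 0 → ((q'.2.1 ≤ t i0 ∧ q'.2.2 = 0)) := by
      intro h
      obtain ⟨j, _, hj⟩ := hzero g q' hq' hb h
      rw [hj] at hq1 ⊢
      exact ⟨hmax j hq1, rfl⟩
    simp only [Interl] at a1 ⊢
    omega) (by
    intro g q hq hq1
    obtain ⟨q', hq', rfl⟩ := harc g q hq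
    have a2 := hU _ (S.arc_U g hq').1
    have a3 := hU _ (S.arc_U g hq').2
    simp only [Interl]
    omega)
  refine ⟨S', (S.map_pres f hinj hI).trans k4, ?_, ?_, ?_⟩
  · rw [k1]; change f (S.pos v) = 0; simp [f, h0]
  · intro x hx
    rcases k5 x hx with h | h
    · obtain ⟨y, hy, rfl⟩ := S.map_U f hinj hI h
      have := hU y hy
      simp only [f]; omega
    · rw [h]; omega
  · refine ⟨fun j => if j = i0 then (ls i0).map (fun p => (p.1, f p.2)) ++ [(false, -1)] else
      (ls j).map (fun p => (p.1, f p.2)), ?_⟩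
    intro j
    by_cases hj : j = i0
    · subst hj
      rw [k3]
      refine ⟨by simp, ?_⟩
      simp only [if_true]
      rw [lastPos_snoc]
    · have hne : p.e j ≠ p.e i0 := fun h => hj (p.e_inj h)
      rw [k2 _ hne, k1]
      simp only [hj, if_false, Function.update_of_ne hj]
      constructor
      · change (S.route (p.e j)).map (fun p => (p.1, f p.2)) = _
        rw [(hl j).1]; simp [f]
      · change _ = lastPos (f (S.pos (G.a (p.e j)))) _
        rw [lastPos_map, ← (hl j).2]

theorem St.m2 (h : St S p σ t) (hb : ∀ i, G.b (p.e i) = v) (i0 : Fin 3) (hs : ∀ j, σ j = true)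
    (hmin : ∀ j, t i0 ≤ t j) :
    ∃ (S' : Spine G ℤ) (m : ℤ), m < 0 ∧ S.Pres S' ∧
      St S' p (Function.update σ i0 false) (Function.update t i0 m) := by
  have hmem := h.arc_mem
  have hneg := h.tneg
  have hzero := h.arc_zero
  obtain ⟨h0, hU, ls, hl⟩ := h
  obtain ⟨B', hB'⟩ := (S.U_finite.bddBelow)
  obtain ⟨m, hm⟩ : ∃ m : ℤ, m = min B' 0 - 1 := ⟨_, rfl⟩
  have hmU : ∀ x ∈ S.U, m < x := by
    intro x hx
    have := hB' hx
    omega
  have hw : m ∉ S.U := fun h => lt_irrefl _ (hmU m h)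
  have hr : S.route (p.e i0) = ls i0 ++ [(true, 0)] := by
    rw [(hl i0).1, hs i0]
  have hpl : ∀ g, ∀ q ∈ arcsOf (S.pos (G.a g)) (S.route g), q.1 = true →
      ¬ Interl (t i0) 0 q.2.1 q.2.2 := by
    intro g q hq hq1
    exact S.planar (p.e i0) g _ (hmem i0) q hq (by rw [hs i0]; exact hq1.symm)
  obtain ⟨S', k1, k2, k3, k4, k5⟩ := S.surg (p.e i0) _ true 0 hr m hw (by
    intro g q hq hq1
    rw [← (hl i0).2]
    have a1 := hpl g q hq hq1
    have a2 := hU _ (S.arc_U g hq).1
    have a3 := hU _ (S.arc_U g hq).2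
    have b2 := hmU _ (S.arc_U g hq).1
    have b3 := hmU _ (S.arc_U g hq).2
    have a4 := hneg i0
    have a5 : q.2.1 = 0 ∨ q.2.2 = 0 → ((t i0 ≤ q.2.1 ∧ q.2.2 = 0)) := by
      intro h
      obtain ⟨j, _, hj⟩ := hzero g q hq hb h
      rw [hj]
      exact ⟨hmin j, rfl⟩
    simp only [Interl] at a1 ⊢
    omega) (by
    intro g q hq hq1
    have a2 := hU _ (S.arc_U g hq).1
    have a3 := hU _ (S.arc_U g hq).2
    have b2 := hmU _ (S.arc_U g hq).1
    have b3 := hmU _ (S.arc_U g hq).2
    simp only [Interl]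
    omega)
  refine ⟨S', m, by omega, k4, ?_, ?_, ?_⟩
  · rw [k1]; exact h0
  · intro x hx
    rcases k5 x hx with h | h
    · exact hU x h
    · rw [h]; omega
  · refine ⟨fun j => if j = i0 then ls i0 ++ [(true, m)] else ls j, ?_⟩
    intro j
    by_cases hj : j = i0
    · subst hj
      rw [k3]
      refine ⟨by simp, ?_⟩
      simp only [if_true]
      rw [lastPos_snoc]; simp
    · have hne : p.e j ≠ p.e i0 := fun h => hj (p.e_inj h)
      rw [k2 _ hne, k1]
      simp only [hj, if_false, Function.update_of_ne hj]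
      exact hl j

/-- The cyclic order of the strands as a linear order (upper ones from outside to inside, then
lower ones from inside to outside). -/
def kap (σ : Fin 3 → Bool) (t : Fin 3 → ℤ) (i : Fin 3) : ℤ := if σ i = true then t i else - t i

theorem St.kap_inj (h : St S p σ t) : Function.Injective (kap σ t) := by
  intro i j hij
  by_contra hne
  have h1 := h.tneg i
  have h2 := h.tneg j
  have h3 := h.dist hne
  unfold kap at hij
  cases hi : σ i <;> cases hj : σ j <;> simp only [hi, hj] at hij h3 <;>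
    simp at hij h3 <;> omega

theorem St.up (h : St S p σ t) (hb : ∀ i, G.b (p.e i) = v) :
    ∃ (S' : Spine G ℤ) (t' : Fin 3 → ℤ), S.Pres S' ∧ St S' p (fun _ => true) t' ∧
      ∀ i j, kap σ t i < kap σ t j → t' i < t' j := by
  obtain ⟨n, hn⟩ : ∃ n, n = (Finset.univ.filter (fun i => σ i = false)).card := ⟨_, rfl⟩
  induction n using Nat.strong_induction_on generalizing S σ t with
  | _ n ih =>
    by_cases hall : ∀ i, σ i = true
    · refine ⟨S, t, Pres.refl S, ?_, ?_⟩
      · have : σ = fun _ => true := funext hall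
        rw [← this]; exact h
      · intro i j hij
        simpa [kap, hall i, hall j] using hij
    · push Not at hall
      obtain ⟨i1, hi1⟩ := hall
      have hi1' : σ i1 = false := by simpa using hi1
      obtain ⟨i0, hi0, hmax⟩ := Finset.exists_max_image (Finset.univ.filter (fun i => σ i = false))
        t ⟨i1, by simp [hi1']⟩
      have hs : σ i0 = false := by simpa using hi0
      have hmax' : ∀ j, σ j = false → t j ≤ t i0 := fun j hj => hmax j (by simp [hj])
      obtain ⟨S1, k1, k2⟩ := h.m1 hb i0 hs hmax'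
      have hcard : (Finset.univ.filter (fun i => Function.update σ i0 true i = false)).card < n := by
        rw [hn]
        refine Finset.card_lt_card ?_
        rw [Finset.ssubset_iff_of_subset]
        · exact ⟨i0, hi0, by simp⟩
        · intro i hi
          simp only [Finset.mem_filter, Finset.mem_univ, true_and] at hi ⊢
          by_cases hii : i = i0
          · rw [hii]; exact hs
          · rwa [Function.update_of_ne hii] at hi
      obtain ⟨S2, t2, k3, k4, k5⟩ := ih _ hcard k2 rfl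
      refine ⟨S2, t2, k1.trans k3, k4, ?_⟩
      intro i j hij
      apply k5
      have hti := h.tneg i
      have htj := h.tneg j
      have ht0 := h.tneg i0
      have hkk : ∀ i, kap (Function.update σ i0 true) (fun j => if j = i0 then -1 else 2 * t j) i =
          if i = i0 then -1 else 2 * kap σ t i := by
        intro i
        unfold kap
        by_cases hi : i = i0
        · subst hi; simp
        · rw [Function.update_of_ne hi]; simp only [hi, if_false]
          split_ifs <;> ring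
      rw [hkk i, hkk j]
      by_cases hi : i = i0
      · by_cases hj : j = i0
        · rw [hi, hj] at hij; omega
        · rw [if_pos hi, if_neg hj]
          rw [hi] at hij
          have : kap σ t i0 = - t i0 := by simp [kap, hs]
          rw [this] at hij
          omega
      · by_cases hj : j = i0
        · rw [if_neg hi, if_pos hj]
          rw [hj] at hij
          have : kap σ t i0 = - t i0 := by simp [kap, hs]
          rw [this] at hij
          have hsi : σ i = true := by
            by_contra hc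
            have hc' : σ i = false := by simpa using hc
            have := hmax' i hc'
            have h5 : kap σ t i = - t i := by simp [kap, hc']
            omega
          have h5 : kap σ t i = t i := by simp [kap, hsi]
          omega
        · rw [if_neg hi, if_neg hj]
          omega

/-- Some drawing has the strands in the order `τ`. -/
def Ach (S : Spine G ℤ) {v : G.V} (p : Port G v) (τ : Equiv.Perm (Fin 3)) : Prop :=
  ∃ (S' : Spine G ℤ) (t : Fin 3 → ℤ), S.Pres S' ∧ St S' p (fun _ => true) t ∧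
    t (τ 0) < t (τ 1) ∧ t (τ 1) < t (τ 2)

theorem exists_ach (h : St S p σ t) (hb : ∀ i, G.b (p.e i) = v) : ∃ τ, Ach S p τ := by
  obtain ⟨S', t', k1, k2, k3⟩ := h.up hb
  have hmono : StrictMono (kap σ t ∘ Tuple.sort (kap σ t)) :=
    (Tuple.monotone_sort _).strictMono_of_injective (h.kap_inj.comp (Equiv.injective _))
  refine ⟨Tuple.sort (kap σ t), S', t', k1, k2, ?_, ?_⟩
  · exact k3 _ _ (hmono (by decide))
  · exact k3 _ _ (hmono (by decide))

theorem ach_rot (hb : ∀ i, G.b (p.e i) = v) {τ : Equiv.Perm (Fin 3)} (h : Ach S p τ) :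
    Ach S p (τ * finRotate 3) := by
  obtain ⟨S1, t1, k1, k2, k3, k4⟩ := h
  have hmin : ∀ j, t1 (τ 0) ≤ t1 j := by
    intro j
    obtain ⟨i, rfl⟩ := τ.surjective j
    fin_cases i
    · exact le_rfl
    · exact k3.le
    · exact (k3.trans k4).le
  obtain ⟨S2, m, h1, h2, h3⟩ := k2.m2 hb (τ 0) (fun _ => rfl) hmin
  obtain ⟨S3, t3, h4, h5, h6⟩ := h3.up hb
  have n1 : τ 1 ≠ τ 0 := fun h => by simpa using τ.injective h
  have n2 : τ 2 ≠ τ 0 := fun h => by simpa using τ.injective h
  have e0 : kap (Function.update (fun _ => true) (τ 0) false) (Function.update t1 (τ 0) m) (τ 0) =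
      - m := by simp [kap]
  have e1 : kap (Function.update (fun _ => true) (τ 0) false) (Function.update t1 (τ 0) m) (τ 1) =
      t1 (τ 1) := by simp [kap, n1]
  have e2 : kap (Function.update (fun _ => true) (τ 0) false) (Function.update t1 (τ 0) m) (τ 2) =
      t1 (τ 2) := by simp [kap, n2]
  have hneg := k2.tneg (τ 2)
  refine ⟨S3, t3, k1.trans (h2.trans h4), h5, ?_, ?_⟩
  · change t3 (τ 1) < t3 (τ 2)
    apply h6; rw [e1, e2]; exact k4
  · change t3 (τ 2) < t3 (τ 0)
    apply h6; rw [e2, e0]; omega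

theorem ach_rev (hb : ∀ i, G.b (p.e i) = v) {τ : Equiv.Perm (Fin 3)} (h : Ach S p τ) :
    Ach S p (τ * Equiv.swap 0 2) := by
  obtain ⟨S1, t1, k1, k2, k3, k4⟩ := h
  have h3 := k2.mirror
  obtain ⟨S3, t3, h4, h5, h6⟩ := h3.up hb
  refine ⟨S3, t3, k1.trans (S1.mirror_pres.trans h4), h5, ?_, ?_⟩
  · change t3 (τ 2) < t3 (τ 1)
    apply h6; simp only [kap]; simp; exact k4
  · change t3 (τ 1) < t3 (τ 0)
    apply h6; simp only [kap]; simp; exact k3

theorem ach_all (hb : ∀ i, G.b (p.e i) = v) (h : St S p σ t) (τ : Equiv.Perm (Fin 3)) :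
    Ach S p τ := by
  obtain ⟨τ0, h0⟩ := exists_ach h hb
  have key : ∀ g : Equiv.Perm (Fin 3), g = 1 ∨ g = finRotate 3 ∨ g = finRotate 3 * finRotate 3 ∨
      g = Equiv.swap 0 2 ∨ g = finRotate 3 * Equiv.swap 0 2 ∨
      g = finRotate 3 * finRotate 3 * Equiv.swap 0 2 := by decide
  have h1 : τ = τ0 * (τ0⁻¹ * τ) := by group
  rw [h1]
  rcases key (τ0⁻¹ * τ) with h | h | h | h | h | h <;> rw [h]
  · rw [mul_one]; exact h0
  · exact ach_rot hb h0
  · rw [← mul_assoc]; exact ach_rot hb (ach_rot hb h0)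
  · exact ach_rev hb h0
  · rw [← mul_assoc]; exact ach_rev hb (ach_rot hb h0)
  · rw [← mul_assoc, ← mul_assoc]; exact ach_rev hb (ach_rot hb (ach_rot hb h0))

end
end Spine
end Gph
end Pool.Agent.CC
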