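import Pool.Agent.Lib_helper74.CCF.Z3

/-! The zip of two spine drawings. -/

namespace Pool.Agent.CC
namespace Gph

/-- The edges starting at `v`. -/
def Fv (G : Gph) (v : G.V) : Finset G.E := Finset.univ.filter (fun e => G.a e = v)

theorem reor_b_port {G : Gph} {v : G.V} (p : Port G v) (i : Fin 3) :
    (G.reor (Fv G v)).b (p.e i) = v := by
  simp only [reor, Fv, Finset.mem_filter, Finset.mem_univ, true_and]
  rcases p.ends i with h | h
  · rw [if_pos h.1]; exact h.1
  · rw [if_neg (by rw [h.1]; exact p.nb_ne i)]; exact h.2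

theorem reor_a_port {G : Gph} {v : G.V} (p : Port G v) (i : Fin 3) :
    (G.reor (Fv G v)).a (p.e i) = p.nb i := by
  simp only [reor, Fv, Finset.mem_filter, Finset.mem_univ, true_and]
  rcases p.ends i with h | h
  · rw [if_pos h.1]; exact h.2
  · rw [if_neg (by rw [h.1]; exact p.nb_ne i)]; exact h.1

/-- The port in the reoriented graph. -/
def Port.re {G : Gph} {v : G.V} (p : Port G v) : Port (G.reor (Fv G v)) v where
  e := p.e
  nb := p.nb
  e_inj := p.e_inj
  nb_inj := p.nb_inj
  nb_ne := p.nb_ne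
  ends := fun i => Or.inr ⟨reor_a_port p i, reor_b_port p i⟩
  all := fun f hf => by
    apply p.all
    by_cases h : f ∈ Fv G v
    · left; simpa [Fv] using h
    · simp only [reor, h, if_false] at hf; exact hf

theorem reor_off {G : Gph} {v : G.V} {e : G.E} (h : G.a e ≠ v) :
    (G.reor (Fv G v)).a e = G.a e ∧ (G.reor (Fv G v)).b e = G.b e := by
  simp only [reor, Fv, Finset.mem_filter, Finset.mem_univ, true_and, if_neg h, and_self]

/-- One side of the zip: everything that is needed about the drawing. -/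
structure Half {G : Gph} {v : G.V} (p : Port G v) where
  pos : G.V → ℤ
  st : G.E → ℤ
  rt : G.E → List (Bool × ℤ)
  B : G.E → List ℤ
  t : Fin 3 → ℤ
  pos_inj : Function.Injective pos
  st_off : ∀ e, G.a e ≠ v → G.b e ≠ v → st e = pos (G.a e)
  st_on : ∀ i, st (p.e i) = pos (p.nb i)
  last_off : ∀ e, G.a e ≠ v → G.b e ≠ v → ((rt e).map Prod.snd).getLast? = some (pos (G.b e))
  last_on : ∀ i, lastPos (st (p.e i)) (rt (p.e i)) = t i
  ne_off : ∀ e, G.a e ≠ v → G.b e ≠ v → rt e ≠ []
  neg : ∀ e, ∀ x ∈ st e :: (rt e).map Prod.snd, x < 0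
  pos_neg : ∀ u, u ≠ v → pos u < 0
  nodup : ∀ e, (st e :: (rt e).map Prod.snd).Nodup
  B_off : ∀ e, G.a e ≠ v → G.b e ≠ v → B e = ((rt e).map Prod.snd).dropLast
  B_on : ∀ i, B (p.e i) = (rt (p.e i)).map Prod.snd
  bend_ne : ∀ e, ∀ x ∈ B e, ∀ u, x ≠ pos u
  planar : ∀ e f, ∀ q ∈ arcsOf (st e) (rt e), ∀ r ∈ arcsOf (st f) (rt f), q.1 = r.1 →
    ¬ Interl q.2.1 q.2.2 r.2.1 r.2.2
  planar_t : ∀ i e, ∀ q ∈ arcsOf (st e) (rt e), q.1 = true → ¬ Interl (t i) 0 q.2.1 q.2.2
  distinct : ∀ e f, e ≠ f → ∀ q ∈ arcsOf (st e) (rt e), ∀ r ∈ arcsOf (st f) (rt f), q.1 = r.1 →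
    ¬ (s(q.2.1, q.2.2) = s(r.2.1, r.2.2))
  no_three : ∀ e f g, e ≠ f → e ≠ g → f ≠ g → ∀ x, x ∈ B e → x ∈ B f → x ∉ B g

theorem Half.tneg {G : Gph} {v : G.V} {p : Port G v} (H : Half p) (i : Fin 3) : H.t i < 0 := by
  rw [← H.last_on i]
  exact H.neg _ _ (lastPos_mem _ _)

theorem Half.Bneg {G : Gph} {v : G.V} {p : Port G v} (H : Half p) (e : G.E) {x : ℤ}
    (hx : x ∈ H.B e) : x < 0 := by
  by_cases h : G.a e = v ∨ G.b e = v
  · obtain ⟨i, rfl⟩ := p.all e h
    rw [H.B_on] at hx
    exact H.neg _ _ (List.mem_cons_of_mem _ hx)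
  · rw [not_or] at h
    rw [H.B_off e h.1 h.2] at hx
    exact H.neg _ _ (List.mem_cons_of_mem _ (List.mem_of_mem_dropLast hx))

/-- From a drawing in normal form to a half. -/
theorem exists_half {G : Gph} {v : G.V} (p : Port G v) (S : Spine (G.reor (Fv G v)) ℤ)
    (t : Fin 3 → ℤ) (h : Spine.St S p.re (fun _ => true) t) :
    ∃ H : Half p, H.t = t ∧ (∀ (e : G.E) x, x ∈ H.B e ↔ x ∈ S.bends e) := by
  classical
  have hmem := h.arc_mem
  obtain ⟨h0, hU, ls, hl⟩ := h
  have hr : ∀ i, S.route (p.e i) = ls i ++ [(true, 0)] := fun i => (hl i).1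
  have ht : ∀ i, t i = lastPos (S.pos (p.nb i)) (ls i) := by
    intro i
    have := (hl i).2
    rw [show (p.re).e i = p.e i from rfl, reor_a_port] at this
    exact this
  let rt : G.E → List (Bool × ℤ) := fun e =>
    if G.a e = v ∨ G.b e = v then (S.route e).dropLast else S.route e
  have rt_on : ∀ i, rt (p.e i) = ls i := by
    intro i
    have hv : G.a (p.e i) = v ∨ G.b (p.e i) = v := by
      rcases p.ends i with h | h
      · exact Or.inl h.1
      · exact Or.inr h.2
    simp only [rt, hv, if_true]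
    rw [hr i, List.dropLast_concat]
  have rt_off : ∀ e, G.a e ≠ v → G.b e ≠ v → rt e = S.route e := by
    intro e h1 h2
    simp only [rt, h1, h2, or_self, if_false]
  have arcs_sub : ∀ e, ∀ q ∈ arcsOf (S.pos ((G.reor (Fv G v)).a e)) (rt e),
      q ∈ arcsOf (S.pos ((G.reor (Fv G v)).a e)) (S.route e) := by
    intro e q hq
    by_cases h : G.a e = v ∨ G.b e = v
    · obtain ⟨i, rfl⟩ := p.all e h
      rw [rt_on] at hq
      rw [hr i, arcsOf_snoc, List.mem_append]
      exact Or.inl hq
    · rw [not_or] at h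
      rw [rt_off e h.1 h.2] at hq
      exact hq
  have hB : ∀ e x, x ∈ S.bends e → x ≠ 0 := by
    intro e x hx
    rw [← h0]; exact S.bend_ne e x hx v
  have nodup_on : ∀ i, (S.pos (p.nb i) :: (ls i).map Prod.snd).Nodup ∧
      ∀ x ∈ S.pos (p.nb i) :: (ls i).map Prod.snd, x ≠ 0 := by
    intro i
    have h4 := S.nodup (p.e i)
    rw [reor_a_port, hr i] at h4
    have h5 : S.pos (p.nb i) :: (ls i ++ [(true, (0 : ℤ))]).map Prod.snd =
          (S.pos (p.nb i) :: (ls i).map Prod.snd) ++ [0] := by simp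
    rw [h5, List.nodup_append] at h4
    exact ⟨h4.1, fun x hx => h4.2.2 x hx 0 (by simp)⟩
  have allneg : ∀ e, ∀ x ∈ S.pos ((G.reor (Fv G v)).a e) :: (rt e).map Prod.snd, x < 0 := by
    intro e x hx
    have h1 : x ≤ 0 := by
      apply hU
      rcases List.mem_cons.1 hx with h1 | h1
      · rw [h1]; exact S.pos_U _
      · refine S.route_U e ?_
        simp only [rt] at h1
        split_ifs at h1
        · rw [List.map_dropLast] at h1
          exact List.mem_of_mem_dropLast h1
        · exact h1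
    have h2 : x ≠ 0 := by
      by_cases h : G.a e = v ∨ G.b e = v
      · obtain ⟨i, rfl⟩ := p.all e h
        rw [rt_on, reor_a_port] at hx
        exact (nodup_on i).2 x hx
      · rw [not_or] at h
        rw [rt_off e h.1 h.2] at hx
        rcases List.mem_cons.1 hx with h1 | h1
        · rw [h1, ← h0]
          intro h3
          have := S.pos_inj h3
          rw [(reor_off h.1).1] at this
          exact h.1 this
        · rw [S.posL_eq, List.mem_append] at h1
          rcases h1 with h1 | h1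
          · exact hB e x h1
          · simp only [List.mem_cons, List.not_mem_nil, or_false] at h1
            rw [h1, ← h0]
            intro h3
            have h4 : (G.reor (Fv G v)).b e = v := S.pos_inj h3
            rw [(reor_off h.1).2] at h4
            exact h.2 h4
    omega
  have hbe : ∀ i, S.bends (p.e i) = (ls i).map Prod.snd := by
    intro i
    unfold Spine.bends
    rw [hr i]; simp
  refine ⟨{ pos := S.pos
            st := fun e => S.pos ((G.reor (Fv G v)).a e)
            rt := rt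
            B := fun e => S.bends e
            t := t
            pos_inj := S.pos_inj
            st_off := fun e h1 h2 => by rw [(reor_off h1).1]
            st_on := fun i => by rw [reor_a_port]
            last_off := fun e h1 h2 => by
              rw [rt_off e h1 h2, S.last e, (reor_off h1).2]
            last_on := fun i => by rw [rt_on, reor_a_port, ht i]
            ne_off := fun e h1 h2 => by rw [rt_off e h1 h2]; exact S.ne_nil e
            neg := allneg
            pos_neg := fun u hu => ?_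
            nodup := fun e => ?_
            B_off := fun e h1 h2 => by rw [rt_off e h1 h2]; rfl
            B_on := fun i => by rw [rt_on]; exact hbe i
            bend_ne := fun e x hx u => S.bend_ne e x hx u
            planar := fun e f q hq r hr' hqr =>
              S.planar e f q (arcs_sub e q hq) r (arcs_sub f r hr') hqr
            planar_t := fun i e q hq hq1 =>
              S.planar (p.e i) e _ (hmem i) q (arcs_sub e q hq) hq1.symm
            distinct := fun e f hef q hq r hr' hqr =>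
              S.distinct e f hef q (arcs_sub e q hq) r (arcs_sub f r hr') hqr
            no_three := fun e f g h1 h2 h3 x => S.no_three e f g h1 h2 h3 x }, rfl,
    fun e x => Iff.rfl⟩
  · have h1 := hU _ (S.pos_U u)
    have h2 : S.pos u ≠ 0 := by
      rw [← h0]; exact fun h => hu (S.pos_inj h)
    omega
  · by_cases h : G.a e = v ∨ G.b e = v
    · obtain ⟨i, rfl⟩ := p.all e h
      rw [rt_on, reor_a_port]
      exact (nodup_on i).1
    · rw [not_or] at h
      rw [rt_off e h.1 h.2]
      exact S.nodup e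

theorem Port.not_at {G : Gph} {v : G.V} (p : Port G v) (i : Fin 3)
    (h : G.a (p.e i) ≠ v ∧ G.b (p.e i) ≠ v) : False := by
  rcases p.ends i with h' | h'
  · exact h.1 h'.1
  · exact h.2 h'.2

section zip
variable {G1 G2 : Gph} {v1 : G1.V} {v2 : G2.V} {p1 : Port G1 v1} {p2 : Port G2 v2}

/-- negation of positions -/
def ngp (q : Bool × ℤ) : Bool × ℤ := (q.1, - q.2)

/-- The positions of the zip. -/
def zpos (H1 : Half p1) (H2 : Half p2) : (zip G1 G2 p1 p2).V → ℤ
  | .inl u => H1.pos u.1
  | .inr u => - H2.pos u.1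

/-- The routes of the zip. -/
def zrt (H1 : Half p1) (H2 : Half p2) : (zip G1 G2 p1 p2).E → List (Bool × ℤ)
  | .inl e => H1.rt e.1
  | .inr (.inl e) => (H2.rt e.1).map ngp
  | .inr (.inr i) => H1.rt (p1.e i) ++
      (true, - H2.t i) :: (revR (H2.st (p2.e i)) (H2.rt (p2.e i))).map ngp

/-- The edge of `G1` in an edge of the zip. -/
def zL1 : (zip G1 G2 p1 p2).E → Option G1.E
  | .inl e => some e.1
  | .inr (.inl _) => none
  | .inr (.inr i) => some (p1.e i)

/-- The edge of `G2` in an edge of the zip. -/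
def zL2 : (zip G1 G2 p1 p2).E → Option G2.E
  | .inl _ => none
  | .inr (.inl e) => some e.1
  | .inr (.inr i) => some (p2.e i)

theorem zL1_inj {g h : (zip G1 G2 p1 p2).E} {e : G1.E} (hg : zL1 g = some e)
    (hh : zL1 h = some e) : g = h := by
  rcases g with g | g | i <;> rcases h with h | h | j <;>
    simp only [zL1, Option.some.injEq, reduceCtorEq] at hg hh
  · congr 1; exact Subtype.ext (hg.trans hh.symm)
  · exact (p1.not_at j (by rw [hh, ← hg]; exact g.2)).elim
  · exact (p1.not_at i (by rw [hg, ← hh]; exact h.2)).elim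
  · rw [p1.e_inj (hg.trans hh.symm)]

theorem zL2_inj {g h : (zip G1 G2 p1 p2).E} {e : G2.E} (hg : zL2 g = some e)
    (hh : zL2 h = some e) : g = h := by
  rcases g with g | g | i <;> rcases h with h | h | j <;>
    simp only [zL2, Option.some.injEq, reduceCtorEq] at hg hh
  · congr 2; exact Subtype.ext (hg.trans hh.symm)
  · exact (p2.not_at j (by rw [hh, ← hg]; exact g.2)).elim
  · exact (p2.not_at i (by rw [hg, ← hh]; exact h.2)).elim
  · rw [p2.e_inj (hg.trans hh.symm)]

theorem zL1_surj (e : G1.E) : ∃ g : (zip G1 G2 p1 p2).E, zL1 g = some e := by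
  by_cases h : G1.a e = v1 ∨ G1.b e = v1
  · obtain ⟨i, rfl⟩ := p1.all e h
    exact ⟨.inr (.inr i), rfl⟩
  · rw [not_or] at h
    exact ⟨.inl ⟨e, h⟩, rfl⟩

theorem zL2_surj (e : G2.E) : ∃ g : (zip G1 G2 p1 p2).E, zL2 g = some e := by
  by_cases h : G2.a e = v2 ∨ G2.b e = v2
  · obtain ⟨i, rfl⟩ := p2.all e h
    exact ⟨.inr (.inr i), rfl⟩
  · rw [not_or] at h
    exact ⟨.inr (.inl ⟨e, h⟩), rfl⟩

theorem map_ngp_snd (l : List (Bool × ℤ)) :
    (l.map ngp).map Prod.snd = (l.map Prod.snd).map (fun x => - x) := by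
  simp [ngp, List.map_map, Function.comp_def]

theorem arcsOf_ngp (x : ℤ) (l : List (Bool × ℤ)) :
    arcsOf (-x) (l.map ngp) = (arcsOf x l).map (fun p => (p.1, - p.2.1, - p.2.2)) :=
  arcsOf_map (fun x => -x) x l

/-- The list of all positions on the route of a zip edge. -/
theorem zrt_posL (H1 : Half p1) (H2 : Half p2) (i : Fin 3) :
    (zrt H1 H2 (.inr (.inr i))).map Prod.snd = (H1.rt (p1.e i)).map Prod.snd ++
      ((H2.st (p2.e i) :: (H2.rt (p2.e i)).map Prod.snd).reverse).map (fun x => -x) := by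
  simp only [zrt, List.map_append, List.map_cons]
  rw [map_ngp_snd, ← posL_revR, List.map_cons, H2.last_on]

theorem zrt_posL' (H1 : Half p1) (H2 : Half p2) (i : Fin 3) :
    (zrt H1 H2 (.inr (.inr i))).map Prod.snd = ((H1.rt (p1.e i)).map Prod.snd ++
      (((H2.rt (p2.e i)).map Prod.snd).reverse).map (fun x => -x)) ++ [- H2.pos (p2.nb i)] := by
  rw [zrt_posL, List.reverse_cons, List.map_append, H2.st_on]
  simp

theorem zst (H1 : Half p1) (H2 : Half p2) (g : (zip G1 G2 p1 p2).E) :
    zpos H1 H2 ((zip G1 G2 p1 p2).a g) = match g with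
      | .inl e => H1.st e.1
      | .inr (.inl e) => - H2.st e.1
      | .inr (.inr i) => H1.st (p1.e i) := by
  rcases g with g | g | i
  · exact (H1.st_off g.1 g.2.1 g.2.2).symm
  · change - H2.pos (G2.a g.1) = - H2.st g.1
    rw [H2.st_off g.1 g.2.1 g.2.2]
  · exact (H1.st_on i).symm

theorem z_bends (H1 : Half p1) (H2 : Half p2) (g : (zip G1 G2 p1 p2).E) (x : ℤ)
    (hx : x ∈ ((zrt H1 H2 g).map Prod.snd).dropLast) :
    (∃ e, zL1 g = some e ∧ x ∈ H1.B e ∧ x < 0) ∨ (∃ e, zL2 g = some e ∧ -x ∈ H2.B e ∧ 0 < x) := by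
  rcases g with g | g | i
  · left
    have : x ∈ H1.B g.1 := by rw [H1.B_off g.1 g.2.1 g.2.2]; exact hx
    exact ⟨g.1, rfl, this, H1.Bneg _ this⟩
  · right
    have h1 : -x ∈ H2.B g.1 := by
      rw [H2.B_off g.1 g.2.1 g.2.2]
      change x ∈ (((H2.rt g.1).map ngp).map Prod.snd).dropLast at hx
      rw [map_ngp_snd, ← List.map_dropLast] at hx
      obtain ⟨y, hy, rfl⟩ := List.mem_map.1 hx
      rw [neg_neg]; exact hy
    exact ⟨g.1, rfl, h1, by have := H2.Bneg _ h1; omega⟩
  · rw [zrt_posL', List.dropLast_concat, List.mem_append] at hx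
    rcases hx with hx | hx
    · left
      have : x ∈ H1.B (p1.e i) := by rw [H1.B_on]; exact hx
      exact ⟨p1.e i, rfl, this, H1.Bneg _ this⟩
    · right
      obtain ⟨y, hy, rfl⟩ := List.mem_map.1 hx
      rw [List.mem_reverse] at hy
      have : y ∈ H2.B (p2.e i) := by rw [H2.B_on]; exact hy
      have h2 := H2.Bneg _ this
      exact ⟨p2.e i, rfl, by rw [neg_neg]; exact this, by omega⟩

theorem z_bends1 (H1 : Half p1) (H2 : Half p2) (g : (zip G1 G2 p1 p2).E) (x : ℤ) (e : G1.E)
    (hg : zL1 g = some e) (hx : x ∈ H1.B e) : x ∈ ((zrt H1 H2 g).map Prod.snd).dropLast := by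
  rcases g with g | g | i <;> simp only [zL1, Option.some.injEq, reduceCtorEq] at hg
  · subst hg
    rw [H1.B_off g.1 g.2.1 g.2.2] at hx
    exact hx
  · subst hg
    rw [zrt_posL', List.dropLast_concat, List.mem_append]
    rw [H1.B_on] at hx
    exact Or.inl hx

theorem z_bends2 (H1 : Half p1) (H2 : Half p2) (g : (zip G1 G2 p1 p2).E) (x : ℤ) (e : G2.E)
    (hg : zL2 g = some e) (hx : x ∈ H2.B e) : -x ∈ ((zrt H1 H2 g).map Prod.snd).dropLast := by
  rcases g with g | g | i <;> simp only [zL2, Option.some.injEq, reduceCtorEq] at hg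
  · subst hg
    rw [H2.B_off g.1 g.2.1 g.2.2] at hx
    change -x ∈ (((H2.rt g.1).map ngp).map Prod.snd).dropLast
    rw [map_ngp_snd, ← List.map_dropLast]
    exact List.mem_map_of_mem hx
  · subst hg
    rw [zrt_posL', List.dropLast_concat, List.mem_append]
    rw [H2.B_on] at hx
    exact Or.inr (List.mem_map_of_mem (List.mem_reverse.2 hx))

theorem z_arcs (H1 : Half p1) (H2 : Half p2) (g : (zip G1 G2 p1 p2).E) (q : Bool × ℤ × ℤ)
    (hq : q ∈ arcsOf (zpos H1 H2 ((zip G1 G2 p1 p2).a g)) (zrt H1 H2 g)) :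
    (∃ e, zL1 g = some e ∧ q ∈ arcsOf (H1.st e) (H1.rt e) ∧ q.2.1 < 0 ∧ q.2.2 < 0) ∨
    (∃ e, zL2 g = some e ∧ ((q.1, - q.2.1, - q.2.2) ∈ arcsOf (H2.st e) (H2.rt e) ∨
      (q.1, - q.2.2, - q.2.1) ∈ arcsOf (H2.st e) (H2.rt e)) ∧ 0 < q.2.1 ∧ 0 < q.2.2) ∨
    (∃ i, g = .inr (.inr i) ∧ q = (true, H1.t i, - H2.t i)) := by
  rw [zst] at hq
  have n1 : ∀ e, ∀ q ∈ arcsOf (H1.st e) (H1.rt e), q.2.1 < 0 ∧ q.2.2 < 0 := by
    intro e q hq
    have := arc_mem _ _ _ hq
    exact ⟨H1.neg e _ this.1, H1.neg e _ (List.mem_cons_of_mem _ this.2)⟩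
  have n2 : ∀ e, ∀ q ∈ arcsOf (H2.st e) (H2.rt e), q.2.1 < 0 ∧ q.2.2 < 0 := by
    intro e q hq
    have := arc_mem _ _ _ hq
    exact ⟨H2.neg e _ this.1, H2.neg e _ (List.mem_cons_of_mem _ this.2)⟩
  rcases g with g | g | i
  · left
    exact ⟨g.1, rfl, hq, n1 g.1 q hq⟩
  · right; left
    change q ∈ arcsOf (- H2.st g.1) ((H2.rt g.1).map ngp) at hq
    rw [arcsOf_ngp] at hq
    obtain ⟨q', hq', rfl⟩ := List.mem_map.1 hq
    have := n2 g.1 q' hq'
    refine ⟨g.1, rfl, Or.inl (by simpa using hq'), ?_, ?_⟩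
    · show 0 < - q'.2.1; omega
    · show 0 < - q'.2.2; omega
  · change q ∈ arcsOf (H1.st (p1.e i)) (H1.rt (p1.e i) ++
      (true, - H2.t i) :: (revR (H2.st (p2.e i)) (H2.rt (p2.e i))).map ngp) at hq
    rw [arcsOf_append, H1.last_on, List.mem_append] at hq
    rcases hq with hq | hq
    · left
      exact ⟨p1.e i, rfl, hq, n1 _ q hq⟩
    · right
      simp only [arcsOf, List.mem_cons] at hq
      rcases hq with hq | hq
      · right; exact ⟨i, rfl, hq⟩
      · left
        rw [arcsOf_ngp, ← H2.last_on i, arcsOf_revR] at hq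
        obtain ⟨q', hq', rfl⟩ := List.mem_map.1 hq
        rw [List.mem_reverse] at hq'
        obtain ⟨q'', hq'', rfl⟩ := List.mem_map.1 hq'
        have := n2 _ q'' hq''
        refine ⟨p2.e i, rfl, Or.inr (by simpa using hq''), ?_, ?_⟩
        · show 0 < - q''.2.2; omega
        · show 0 < - q''.2.1; omega

theorem zip_core (H1 : Half p1) (H2 : Half p2)
    (ho : ∀ i j, i ≠ j → (H1.t i < H1.t j ∧ H2.t i < H2.t j) ∨ (H1.t j < H1.t i ∧ H2.t j < H2.t i)) :
    ∃ S : Spine (zip G1 G2 p1 p2) ℤ, S.route = zrt H1 H2 := by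
  have hI1 : ∀ i e, ∀ q ∈ arcsOf (H1.st e) (H1.rt e), q.1 = true → q.2.1 < 0 → q.2.2 < 0 →
      ∀ T : ℤ, 0 < T → ¬ Interl (H1.t i) T q.2.1 q.2.2 := by
    intro i e q hq h1 h2 h3 T hT
    have := H1.planar_t i e q hq h1
    have h4 := H1.tneg i
    simp only [Interl] at this ⊢
    omega
  have hI2 : ∀ i e, ∀ q ∈ arcsOf (H2.st e) (H2.rt e), q.1 = true → q.2.1 < 0 → q.2.2 < 0 →
      ∀ T : ℤ, T < 0 → ¬ Interl T (- H2.t i) (- q.2.1) (- q.2.2) := by
    intro i e q hq h1 h2 h3 T hT
    have := H2.planar_t i e q hq h1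
    have h4 := H2.tneg i
    simp only [Interl] at this ⊢
    omega
  have hmid : ∀ g, ∀ q ∈ arcsOf (zpos H1 H2 ((zip G1 G2 p1 p2).a g)) (zrt H1 H2 g),
      ∀ i, q.1 = true → ¬ Interl (H1.t i) (- H2.t i) q.2.1 q.2.2 := by
    intro g q hq i hq1
    have t1 := H1.tneg i
    have t2 := H2.tneg i
    rcases z_arcs H1 H2 g q hq with ⟨e, _, a1, a2, a3⟩ | ⟨e, _, a1, a2, a3⟩ | ⟨j, _, a1⟩
    · exact hI1 i e q a1 hq1 a2 a3 _ (by omega)
    · rcases a1 with a1 | a1
      · have := hI2 i e _ a1 hq1 (by show - q.2.1 < 0; omega) (by show - q.2.2 < 0; omega) _ t1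
        simpa using this
      · have := hI2 i e _ a1 hq1 (by show - q.2.2 < 0; omega) (by show - q.2.1 < 0; omega) _ t1
        rw [Interl_swap2] at this
        simpa using this
    · rw [a1]
      by_cases hij : i = j
      · rw [hij]; exact not_Interl_self _ _
      · have s1 := H1.tneg j
        have s2 := H2.tneg j
        have := ho i j hij
        simp only [Interl]
        omega
  refine ⟨{ pos := zpos H1 H2
            pos_inj := ?_
            route := zrt H1 H2
            ne_nil := ?_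
            last := ?_
            nodup := ?_
            bend_ne := ?_
            planar := ?_
            distinct := ?_
            no_three := ?_ }, rfl⟩
  · intro u w huw
    rcases u with u | u <;> rcases w with w | w
    · congr 1; exact Subtype.ext (H1.pos_inj huw)
    · exfalso
      have h1 := H1.pos_neg u.1 u.2
      have h2 := H2.pos_neg w.1 w.2
      change H1.pos u.1 = - H2.pos w.1 at huw
      omega
    · exfalso
      have h1 := H2.pos_neg u.1 u.2
      have h2 := H1.pos_neg w.1 w.2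
      change - H2.pos u.1 = H1.pos w.1 at huw
      omega
    · congr 1
      change - H2.pos u.1 = - H2.pos w.1 at huw
      exact Subtype.ext (H2.pos_inj (by omega))
  · intro g
    rcases g with g | g | i
    · exact H1.ne_off g.1 g.2.1 g.2.2
    · change (H2.rt g.1).map ngp ≠ []
      have := H2.ne_off g.1 g.2.1 g.2.2
      simpa using this
    · simp [zrt]
  · intro g
    rcases g with g | g | i
    · exact H1.last_off g.1 g.2.1 g.2.2
    · change (((H2.rt g.1).map ngp).map Prod.snd).getLast? = some (- H2.pos (G2.b g.1))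
      rw [map_ngp_snd, List.getLast?_map, H2.last_off g.1 g.2.1 g.2.2]
      rfl
    · rw [zrt_posL', List.getLast?_concat]
      rfl
  · intro g
    rw [zst]
    rcases g with g | g | i
    · exact H1.nodup g.1
    · change (- H2.st g.1 :: ((H2.rt g.1).map ngp).map Prod.snd).Nodup
      rw [map_ngp_snd, ← List.map_cons (f := fun x : ℤ => -x)]
      exact (H2.nodup g.1).map neg_injective
    · change (H1.st (p1.e i) :: (zrt H1 H2 (.inr (.inr i))).map Prod.snd).Nodup
      rw [zrt_posL, ← List.cons_append, List.nodup_append]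
      refine ⟨H1.nodup _, (List.nodup_reverse.2 (H2.nodup _)).map neg_injective, ?_⟩
      intro x hx y hy hxy
      have h1 := H1.neg _ x hx
      obtain ⟨z, hz, rfl⟩ := List.mem_map.1 hy
      rw [List.mem_reverse] at hz
      have h2 := H2.neg _ z hz
      omega
  · intro g x hx u
    rcases z_bends H1 H2 g x hx with ⟨e, _, h1, h2⟩ | ⟨e, _, h1, h2⟩
    · rcases u with u | u
      · exact H1.bend_ne e x h1 u.1
      · have := H2.pos_neg u.1 u.2
        change x ≠ - H2.pos u.1
        omega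
    · rcases u with u | u
      · have := H1.pos_neg u.1 u.2
        change x ≠ H1.pos u.1
        omega
      · have := H2.bend_ne e _ h1 u.1
        change x ≠ - H2.pos u.1
        omega
  · intro g h q hq r hr hqr
    rcases z_arcs H1 H2 g q hq with ⟨e, _, a1, a2, a3⟩ | ⟨e, _, a1, a2, a3⟩ | ⟨j, _, a1⟩
    · rcases z_arcs H1 H2 h r hr with ⟨f, _, b1, b2, b3⟩ | ⟨f, _, b1, b2, b3⟩ | ⟨k, _, b1⟩
      · exact H1.planar e f q a1 r b1 hqr
      · simp only [Interl]; omega
      · rw [b1] at hqr ⊢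
        rw [Interl_comm]
        exact hmid g q hq k hqr
    · rcases z_arcs H1 H2 h r hr with ⟨f, _, b1, b2, b3⟩ | ⟨f, _, b1, b2, b3⟩ | ⟨k, _, b1⟩
      · simp only [Interl]; omega
      · rcases a1 with a1 | a1 <;> rcases b1 with b1 | b1 <;>
        · have := H2.planar e f _ a1 _ b1 hqr
          simp only [Interl] at this ⊢
          omega
      · rw [b1] at hqr ⊢
        rw [Interl_comm]
        exact hmid g q hq k hqr
    · rw [a1] at hqr ⊢
      exact hmid h r hr j hqr.symm
  · intro g h hgh q hq r hr hqr hs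
    rw [Sym2.eq_iff] at hs
    rcases z_arcs H1 H2 g q hq with ⟨e, a0, a1, a2, a3⟩ | ⟨e, a0, a1, a2, a3⟩ | ⟨j, a0, a1⟩
    · rcases z_arcs H1 H2 h r hr with ⟨f, b0, b1, b2, b3⟩ | ⟨f, b0, b1, b2, b3⟩ | ⟨k, b0, b1⟩
      · refine H1.distinct e f ?_ q a1 r b1 hqr ?_
        · rintro rfl; exact hgh (zL1_inj a0 b0)
        · rw [Sym2.eq_iff]; exact hs
      · omega
      · rw [b1] at hs
        have := H2.tneg k
        simp only at hs
        omega
    · rcases z_arcs H1 H2 h r hr with ⟨f, b0, b1, b2, b3⟩ | ⟨f, b0, b1, b2, b3⟩ | ⟨k, b0, b1⟩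
      · omega
      · have hef : e ≠ f := by rintro rfl; exact hgh (zL2_inj a0 b0)
        rcases a1 with a1 | a1 <;> rcases b1 with b1 | b1 <;>
        · have := H2.distinct e f hef _ a1 _ b1 hqr
          rw [Sym2.eq_iff] at this
          simp only at this
          omega
      · rw [b1] at hs
        have := H1.tneg k
        simp only at hs
        omega
    · rcases z_arcs H1 H2 h r hr with ⟨f, b0, b1, b2, b3⟩ | ⟨f, b0, b1, b2, b3⟩ | ⟨k, b0, b1⟩
      · rw [a1] at hs
        have := H2.tneg j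
        simp only at hs
        omega
      · rw [a1] at hs
        have := H1.tneg j
        simp only at hs
        omega
      · have hjk : j ≠ k := by rintro rfl; exact hgh (a0.trans b0.symm)
        have := ho j k hjk
        have u1 := H1.tneg j
        have u2 := H2.tneg j
        have u3 := H1.tneg k
        have u4 := H2.tneg k
        rw [a1, b1] at hs
        simp only at hs
        omega
  · intro g h k hgh hgk hhk x hx hx' hx''
    rcases z_bends H1 H2 g x hx with ⟨e, a0, a1, a2⟩ | ⟨e, a0, a1, a2⟩ <;>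
    rcases z_bends H1 H2 h x hx' with ⟨f, b0, b1, b2⟩ | ⟨f, b0, b1, b2⟩ <;>
    rcases z_bends H1 H2 k x hx'' with ⟨m, c0, c1, c2⟩ | ⟨m, c0, c1, c2⟩ <;>
    first
    | omega
    | skip
    · refine H1.no_three e f m ?_ ?_ ?_ x a1 b1 c1
      · rintro rfl; exact hgh (zL1_inj a0 b0)
      · rintro rfl; exact hgk (zL1_inj a0 c0)
      · rintro rfl; exact hhk (zL1_inj b0 c0)
    · refine H2.no_three e f m ?_ ?_ ?_ _ a1 b1 c1
      · rintro rfl; exact hgh (zL2_inj a0 b0)
      · rintro rfl; exact hgk (zL2_inj a0 c0)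
      · rintro rfl; exact hhk (zL2_inj b0 c0)

end zip
end Gph
end Pool.Agent.CC
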