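import Pool.Agent.Lib_helper74.CCF.Z4

/-! The zip of two spine drawings: the statements. -/

namespace Pool.Agent.CC
namespace Gph

theorem ord_tau (t u : Fin 3 → ℤ) (h1 : t 0 < t 1) (h2 : t 1 < t 2) (h3 : u 0 < u 1)
    (h4 : u 1 < u 2) :
    ∀ i j, i ≠ j → (t i < t j ∧ u i < u j) ∨ (t j < t i ∧ u j < u i) := by
  intro i j hij
  fin_cases i <;> fin_cases j <;> simp at hij ⊢ <;> omega

theorem exists_half' {G : Gph} {v : G.V} (p : Port G v) {α : Type} [LinearOrder α]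
    (S : Spine G α) :
    ∃ H : Half p, H.t 0 < H.t 1 ∧ H.t 1 < H.t 2 ∧
      (∀ T : Finset ℤ, (∀ x ∈ T, ∃ e f, e ≠ f ∧ x ∈ H.B e ∧ x ∈ H.B f) →
        T.card ≤ S.crossings.card) ∧
      (∀ e, S.Crossed e → ∃ f, f ≠ e ∧ ∃ x, x ∈ H.B e ∧ x ∈ H.B f) := by
  obtain ⟨S1, a1, a2, a3⟩ := (S.reor (Fv G v)).exists_last v
  obtain ⟨σ, t, b1⟩ := Spine.exists_St S1 p.re (reor_b_port p) a2 a3
  obtain ⟨S2, t2, c1, c2, c3, c4⟩ := Spine.ach_all (reor_b_port p) b1 1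
  obtain ⟨H, d1, d2⟩ := exists_half p S2 t2 c2
  refine ⟨H, ?_, ?_, ?_, ?_⟩
  · rw [d1]; exact c3
  · rw [d1]; exact c4
  · intro T hT
    have h1 : T ⊆ S2.crossings := by
      intro x hx
      obtain ⟨e, f, e1, e2, e3⟩ := hT x hx
      exact (S2.mem_crossings x).2 ⟨e, f, e1, (d2 e x).1 e2, (d2 f x).1 e3⟩
    exact (Finset.card_le_card h1).trans ((a1.trans c1).1.trans (S.reor_card _))
  · intro e he
    have h1 := (a1.trans c1).2 e (S.reor_crossed (Fv G v) e he)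
    obtain ⟨f, f1, x, f2, f3⟩ := (S2.crossed_iff e).1 h1
    exact ⟨f, f1, x, (d2 e x).2 f2, (d2 f x).2 f3⟩

theorem Spine.exists_zip_aux {G1 G2 : Gph} {v1 : G1.V} {v2 : G2.V} (p1 : Port G1 v1) (p2 : Port G2 v2)
    {α β : Type} [LinearOrder α] [LinearOrder β] (S1 : Spine G1 α) (S2 : Spine G2 β) :
    ∃ (γ : Type) (_ : LinearOrder γ) (S : Spine (zip G1 G2 p1 p2) γ),
      S.crossings.card ≤ S1.crossings.card + S2.crossings.card ∧
      (∀ e : {e : G1.E // G1.a e ≠ v1 ∧ G1.b e ≠ v1}, S1.Crossed e.1 → S.Crossed (.inl e)) ∧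
      (∀ e : {e : G2.E // G2.a e ≠ v2 ∧ G2.b e ≠ v2}, S2.Crossed e.1 → S.Crossed (.inr (.inl e))) ∧
      (∀ i, S1.Crossed (p1.e i) → S.Crossed (.inr (.inr i))) ∧
      (∀ i, S2.Crossed (p2.e i) → S.Crossed (.inr (.inr i))) := by
  classical
  obtain ⟨H1, a1, a2, a3, a4⟩ := exists_half' p1 S1
  obtain ⟨H2, b1, b2, b3, b4⟩ := exists_half' p2 S2
  obtain ⟨S, hS⟩ := zip_core H1 H2 (ord_tau _ _ a1 a2 b1 b2)
  have hb : ∀ g x, x ∈ S.bends g ↔ x ∈ ((zrt H1 H2 g).map Prod.snd).dropLast := by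
    intro g x; unfold Spine.bends; rw [hS]
  have key1 : ∀ (g : (zip G1 G2 p1 p2).E) (e : G1.E), zL1 g = some e → S1.Crossed e →
      S.Crossed g := by
    intro g e hg he
    obtain ⟨f, f1, x, f2, f3⟩ := a4 e he
    obtain ⟨k, hk⟩ := zL1_surj (G1 := G1) (G2 := G2) (p1 := p1) (p2 := p2) f
    refine (S.crossed_iff g).2 ⟨k, ?_, x, ?_, ?_⟩
    · rintro rfl
      rw [hg, Option.some.injEq] at hk
      exact f1 hk.symm
    · rw [hb]; exact z_bends1 H1 H2 g x e hg f2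
    · rw [hb]; exact z_bends1 H1 H2 k x f hk f3
  have key2 : ∀ (g : (zip G1 G2 p1 p2).E) (e : G2.E), zL2 g = some e → S2.Crossed e →
      S.Crossed g := by
    intro g e hg he
    obtain ⟨f, f1, x, f2, f3⟩ := b4 e he
    obtain ⟨k, hk⟩ := zL2_surj (G1 := G1) (G2 := G2) (p1 := p1) (p2 := p2) f
    refine (S.crossed_iff g).2 ⟨k, ?_, -x, ?_, ?_⟩
    · rintro rfl
      rw [hg, Option.some.injEq] at hk
      exact f1 hk.symm
    · rw [hb]; exact z_bends2 H1 H2 g x e hg f2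
    · rw [hb]; exact z_bends2 H1 H2 k x f hk f3
  refine ⟨ℤ, inferInstance, S, ?_, fun e he => key1 _ _ rfl he, fun e he => key2 _ _ rfl he,
    fun i he => key1 _ _ rfl he, fun i he => key2 _ _ rfl he⟩
  rw [← Finset.card_filter_add_card_filter_not (s := S.crossings) (fun x => x < 0)]
  refine Nat.add_le_add (a3 _ ?_) ?_
  · intro x hx
    rw [Finset.mem_filter, Spine.mem_crossings] at hx
    obtain ⟨⟨g, k, hgk, h1, h2⟩, h3⟩ := hx
    rw [hb] at h1 h2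
    rcases z_bends H1 H2 g x h1 with ⟨e, e1, e2, e3⟩ | ⟨e, e1, e2, e3⟩ <;>
    rcases z_bends H1 H2 k x h2 with ⟨f, f1, f2, f3⟩ | ⟨f, f1, f2, f3⟩ <;>
    first
    | omega
    | skip
    refine ⟨e, f, ?_, e2, f2⟩
    rintro rfl
    exact hgk (zL1_inj e1 f1)
  · rw [← Finset.card_image_of_injective _ (neg_injective (G := ℤ))]
    refine b3 _ ?_
    intro x hx
    rw [Finset.mem_image] at hx
    obtain ⟨y, hy, rfl⟩ := hx
    rw [Finset.mem_filter, Spine.mem_crossings] at hy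
    obtain ⟨⟨g, k, hgk, h1, h2⟩, h3⟩ := hy
    rw [hb] at h1 h2
    rcases z_bends H1 H2 g y h1 with ⟨e, e1, e2, e3⟩ | ⟨e, e1, e2, e3⟩ <;>
    rcases z_bends H1 H2 k y h2 with ⟨f, f1, f2, f3⟩ | ⟨f, f1, f2, f3⟩ <;>
    first
    | omega
    | skip
    refine ⟨e, f, ?_, e2, f2⟩
    rintro rfl
    exact hgk (zL2_inj e1 f1)

end Gph
end Pool.Agent.CC
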