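import Pool.Agent.Lib_helper74.CCF.Z5

/-! Spine drawings of subgraphs; deleting a crossed edge. -/

namespace Pool.Agent.CC
namespace Gph
namespace Spine
variable {G H : Gph} {α : Type} [LinearOrder α]

/-- The drawing of a subgraph. -/
def pull (S : Spine H α) (fV : G.V → H.V) (fE : G.E → H.E) (hV : Function.Injective fV)
    (hE : Function.Injective fE) (ha : ∀ e, fV (G.a e) = H.a (fE e))
    (hb : ∀ e, fV (G.b e) = H.b (fE e)) : Spine G α where
  pos := fun v => S.pos (fV v)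
  pos_inj := fun v w h => hV (S.pos_inj h)
  route := fun e => S.route (fE e)
  ne_nil := fun e => S.ne_nil (fE e)
  last := fun e => by rw [hb]; exact S.last (fE e)
  nodup := fun e => by rw [ha]; exact S.nodup (fE e)
  bend_ne := fun e x hx v => S.bend_ne (fE e) x hx (fV v)
  planar := fun e f p hp q hq h => by
    rw [ha] at hp hq; exact S.planar (fE e) (fE f) p hp q hq h
  distinct := fun e f hef p hp q hq h => by
    rw [ha] at hp hq; exact S.distinct (fE e) (fE f) (fun h => hef (hE h)) p hp q hq h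
  no_three := fun e f g h1 h2 h3 x => S.no_three (fE e) (fE f) (fE g) (fun h => h1 (hE h))
    (fun h => h2 (hE h)) (fun h => h3 (hE h)) x

theorem pull_crossings (S : Spine H α) (fV : G.V → H.V) (fE : G.E → H.E)
    (hV : Function.Injective fV) (hE : Function.Injective fE) (ha : ∀ e, fV (G.a e) = H.a (fE e))
    (hb : ∀ e, fV (G.b e) = H.b (fE e)) :
    (S.pull fV fE hV hE ha hb).crossings ⊆ S.crossings := by
  intro x hx
  rw [mem_crossings] at hx ⊢
  obtain ⟨e, f, h1, h2, h3⟩ := hx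
  exact ⟨fE e, fE f, fun h => h1 (hE h), h2, h3⟩

/-- A crossed edge can be deleted with a gain. -/
theorem exists_del (S : Spine G α) (e : G.E) (h : S.Crossed e) :
    ∃ S' : Spine (G.del e) α, S'.crossings.card + 1 ≤ S.crossings.card := by
  classical
  obtain ⟨f, hf, x, h1, h2⟩ := (S.crossed_iff e).1 h
  let S' : Spine (G.del e) α := S.pull (G := G.del e) id Subtype.val Function.injective_id
    Subtype.val_injective (fun _ => rfl) (fun _ => rfl)
  have hsub : S'.crossings ⊆ S.crossings.erase x := by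
    intro y hy
    rw [Finset.mem_erase]
    refine ⟨?_, pull_crossings S _ _ _ _ _ _ hy⟩
    rintro rfl
    obtain ⟨g, k, hgk, h3, h4⟩ := (S'.mem_crossings y).1 hy
    have h3' : y ∈ S.bends g.1 := h3
    have h4' : y ∈ S.bends k.1 := h4
    have hgk' : g.1 ≠ k.1 := fun h => hgk (Subtype.ext h)
    by_cases hg : g.1 = f
    · exact S.no_three e f k.1 hf.symm k.2.symm (fun h => hgk' (hg.trans h)) y h1 h2 h4'
    · exact S.no_three e f g.1 hf.symm g.2.symm (fun h => hg h.symm) y h1 h2 h3'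
  have hx : x ∈ S.crossings := (S.mem_crossings x).2 ⟨f, e, hf, h2, h1⟩
  refine ⟨S', ?_⟩
  have h5 := Finset.card_le_card hsub
  rw [Finset.card_erase_of_mem hx] at h5
  have h6 : 0 < S.crossings.card := Finset.card_pos.2 ⟨x, hx⟩
  omega

end Spine

/-- The port after the deletion of another edge. -/
def Port.del {G : Gph} {v : G.V} (p : Port G v) (e : G.E) (h : G.a e ≠ v ∧ G.b e ≠ v) :
    Port (G.del e) v where
  e := fun i => ⟨p.e i, fun h' => p.not_at i (by rw [h']; exact h)⟩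
  nb := p.nb
  e_inj := fun i j hij => p.e_inj (congrArg Subtype.val hij)
  nb_inj := p.nb_inj
  nb_ne := p.nb_ne
  ends := p.ends
  all := fun f hf => by
    obtain ⟨i, hi⟩ := p.all f.1 hf
    exact ⟨i, Subtype.ext hi⟩

theorem del_loopless {G : Gph} (h : G.Loopless) (e : G.E) : (G.del e).Loopless :=
  fun f => h f.1

section
variable {G1 G2 : Gph} {v1 : G1.V} {v2 : G2.V} (p1 : Port G1 v1) (p2 : Port G2 v2)

theorem zip_del1 (e : {e : G1.E // G1.a e ≠ v1 ∧ G1.b e ≠ v1}) {α : Type} [LinearOrder α]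
    (S : Spine (zip (G1.del e.1) G2 (p1.del e.1 e.2) p2) α) :
    ∃ S' : Spine ((zip G1 G2 p1 p2).del (.inl e)) α, S'.crossings ⊆ S.crossings := by
  let fE : ((zip G1 G2 p1 p2).del (.inl e)).E → (zip (G1.del e.1) G2 (p1.del e.1 e.2) p2).E :=
    fun f => match f with
      | ⟨.inl g, h⟩ => .inl ⟨⟨g.1, fun h' => h (by congr 1; exact Subtype.ext h')⟩, g.2⟩
      | ⟨.inr x, _⟩ => .inr x
  have hE : Function.Injective fE := by
    rintro ⟨f | f, hf⟩ ⟨g | g, hg⟩ hfg
    · have h1 := congrArg (fun x => x.1.1) (Sum.inl.inj hfg)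
      exact Subtype.ext (congrArg Sum.inl (Subtype.ext h1))
    · exact (Sum.inl_ne_inr hfg).elim
    · exact (Sum.inr_ne_inl hfg).elim
    · exact Subtype.ext (congrArg Sum.inr (Sum.inr.inj hfg : f = g))
  refine ⟨S.pull (G := (zip G1 G2 p1 p2).del (.inl e)) (fun u => u) fE (fun _ _ h => h) hE ?_ ?_,
    Spine.pull_crossings S _ _ _ _ _ _⟩
  · rintro ⟨f | f | f, hf⟩ <;> rfl
  · rintro ⟨f | f | f, hf⟩ <;> rfl

theorem zip_del2 (e : {e : G2.E // G2.a e ≠ v2 ∧ G2.b e ≠ v2}) {α : Type} [LinearOrder α]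
    (S : Spine (zip G1 (G2.del e.1) p1 (p2.del e.1 e.2)) α) :
    ∃ S' : Spine ((zip G1 G2 p1 p2).del (.inr (.inl e))) α, S'.crossings ⊆ S.crossings := by
  let fE : ((zip G1 G2 p1 p2).del (.inr (.inl e))).E →
      (zip G1 (G2.del e.1) p1 (p2.del e.1 e.2)).E :=
    fun f => match f with
      | ⟨.inl g, _⟩ => .inl g
      | ⟨.inr (.inl g), h⟩ =>
        .inr (.inl ⟨⟨g.1, fun h' => h (by congr 2; exact Subtype.ext h')⟩, g.2⟩)
      | ⟨.inr (.inr i), _⟩ => .inr (.inr i)
  have hE : Function.Injective fE := by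
    rintro ⟨f | f | f, hf⟩ ⟨g | g | g, hg⟩ hfg
    · exact Subtype.ext (congrArg Sum.inl (Sum.inl.inj hfg : f = g))
    · exact (Sum.inl_ne_inr hfg).elim
    · exact (Sum.inl_ne_inr hfg).elim
    · exact (Sum.inr_ne_inl hfg).elim
    · have h1 := congrArg (fun x => x.1.1) (Sum.inl.inj (Sum.inr.inj hfg))
      exact Subtype.ext (congrArg (Sum.inr ∘ Sum.inl) (Subtype.ext h1))
    · exact (Sum.inl_ne_inr (Sum.inr.inj hfg)).elim
    · exact (Sum.inr_ne_inl hfg).elim
    · exact (Sum.inr_ne_inl (Sum.inr.inj hfg)).elim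
    · exact Subtype.ext (congrArg (Sum.inr ∘ Sum.inr) (Sum.inr.inj (Sum.inr.inj hfg) : f = g))
  refine ⟨S.pull (G := (zip G1 G2 p1 p2).del (.inr (.inl e))) (fun u => u) fE (fun _ _ h => h)
    hE ?_ ?_, Spine.pull_crossings S _ _ _ _ _ _⟩
  · rintro ⟨f | f | f, hf⟩ <;> rfl
  · rintro ⟨f | f | f, hf⟩ <;> rfl

end
end Gph
end Pool.Agent.CC
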